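import Pool.Agent.Lib.MP_59f35a_mp.HStmts

/-!
# MP_59f35a_mp, Theorem D, pieces H10, H11: angular averages
-/

set_option autoImplicit false

noncomputable section

open MeasureTheory

namespace MolDis.H
namespace Ang

/-- coordinates -/
def pr (i : Fin 3) : E3 →ₗ[ℝ] ℝ := (EuclideanSpace.proj i : E3 →L[ℝ] ℝ).toLinearMap

lemma pr_apply (i : Fin 3) (x : E3) : pr i x = x i := rfl

/-- linear maps given by their coordinates -/
def lin (g : Fin 3 → E3 →ₗ[ℝ] ℝ) : E3 →ₗ[ℝ] E3 :=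
  (WithLp.linearEquiv 2 ℝ (Fin 3 → ℝ)).symm.toLinearMap ∘ₗ LinearMap.pi g

lemma lin_apply (g : Fin 3 → E3 →ₗ[ℝ] ℝ) (x : E3) (i : Fin 3) : lin g x i = g i x := rfl

lemma nsq3 (x : E3) : ‖x‖ ^ 2 = x 0 ^ 2 + x 1 ^ 2 + x 2 ^ 2 := by
  rw [EuclideanSpace.norm_sq_eq, Fin.sum_univ_three]
  simp [sq_abs]

lemma norm_eq {x y : E3} (h : x 0 ^ 2 + x 1 ^ 2 + x 2 ^ 2 = y 0 ^ 2 + y 1 ^ 2 + y 2 ^ 2) :
    ‖x‖ = ‖y‖ := by
  rw [← nsq3, ← nsq3] at h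
  exact (sq_eq_sq₀ (norm_nonneg _) (norm_nonneg _)).1 h

lemma coord_le (x : E3) (i : Fin 3) : |x i| ≤ ‖x‖ := by
  have := PiLp.norm_apply_le x i
  rwa [Real.norm_eq_abs] at this

/-- invariance -/
lemma inv (h : S_hm) (T : E3 →ₗ[ℝ] E3) (hT : ∀ x, ‖T x‖ = ‖x‖) (q : E3 → ℝ) (f : ℝ → ℝ) :
    ∫ x, q (T x) * f ‖x‖ ∂hm = ∫ x, q x * f ‖x‖ ∂hm ∧
      (Integrable (fun x => q x * f ‖x‖) hm → Integrable (fun x => q (T x) * f ‖x‖) hm) := by
  set li : E3 →ₗᵢ[ℝ] E3 := ⟨T, hT⟩ with hli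
  set e : E3 ≃ₗᵢ[ℝ] E3 := li.toLinearIsometryEquiv rfl with he
  have hmp := h.2.2.2.2.2.2 e
  have hfun : (fun x => q (T x) * f ‖x‖) = (fun x => q x * f ‖x‖) ∘ e := by
    funext x
    have h1 : e x = T x := rfl
    simp only [Function.comp_apply, h1, hT]
  rw [hfun]
  constructor
  · exact hmp.integral_comp e.toHomeomorph.measurableEmbedding (fun x => q x * f ‖x‖)
  · intro hi
    exact hmp.integrable_comp_of_integrable hi

/-- reflection of one coordinate -/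
def Rc (c : Fin 3) : E3 →ₗ[ℝ] E3 := lin fun i => (if i = c then (-1 : ℝ) else 1) • pr i

lemma Rc_self (c : Fin 3) (x : E3) : Rc c x c = - x c := by
  simp [Rc, lin_apply, pr_apply]

lemma Rc_ne {c i : Fin 3} (h : i ≠ c) (x : E3) : Rc c x i = x i := by
  simp [Rc, lin_apply, pr_apply, h]

lemma Rc_norm (c : Fin 3) (x : E3) : ‖Rc c x‖ = ‖x‖ := by
  have h : ∀ i, Rc c x i ^ 2 = x i ^ 2 := by
    intro i
    by_cases hi : i = c
    · subst hi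
      rw [Rc_self]
      ring
    · rw [Rc_ne hi]
  exact norm_eq (by rw [h, h, h])

/-- exchange of the coordinates 0 and 1 -/
def P01 : E3 →ₗ[ℝ] E3 := lin ![pr 1, pr 0, pr 2]

/-- exchange of the coordinates 0 and 2 -/
def P02 : E3 →ₗ[ℝ] E3 := lin ![pr 2, pr 1, pr 0]

/-- exchange of the coordinates 1 and 2 -/
def P12 : E3 →ₗ[ℝ] E3 := lin ![pr 0, pr 2, pr 1]

/-- rotation by 45 degrees (with a reflection) -/
def H45 : E3 →ₗ[ℝ] E3 := lin ![(√2)⁻¹ • (pr 0 + pr 1), (√2)⁻¹ • (pr 0 - pr 1), pr 2]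

lemma P01_0 (x : E3) : P01 x 0 = x 1 := rfl
lemma P01_1 (x : E3) : P01 x 1 = x 0 := rfl
lemma P01_2 (x : E3) : P01 x 2 = x 2 := rfl
lemma P02_0 (x : E3) : P02 x 0 = x 2 := rfl
lemma P02_1 (x : E3) : P02 x 1 = x 1 := rfl
lemma P02_2 (x : E3) : P02 x 2 = x 0 := rfl
lemma P12_0 (x : E3) : P12 x 0 = x 0 := rfl
lemma P12_1 (x : E3) : P12 x 1 = x 2 := rfl
lemma P12_2 (x : E3) : P12 x 2 = x 1 := rfl
lemma H45_0 (x : E3) : H45 x 0 = (√2)⁻¹ * (x 0 + x 1) := rfl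
lemma H45_1 (x : E3) : H45 x 1 = (√2)⁻¹ * (x 0 - x 1) := rfl
lemma H45_2 (x : E3) : H45 x 2 = x 2 := rfl

lemma P01_norm (x : E3) : ‖P01 x‖ = ‖x‖ := norm_eq (by rw [P01_0, P01_1, P01_2]; ring)
lemma P02_norm (x : E3) : ‖P02 x‖ = ‖x‖ := norm_eq (by rw [P02_0, P02_1, P02_2]; ring)
lemma P12_norm (x : E3) : ‖P12 x‖ = ‖x‖ := norm_eq (by rw [P12_0, P12_1, P12_2]; ring)

lemma s2 : ((√2)⁻¹ : ℝ) ^ 2 = 1 / 2 := by
  rw [inv_pow, Real.sq_sqrt (by norm_num)]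
  norm_num

lemma H45_norm (x : E3) : ‖H45 x‖ = ‖x‖ := norm_eq (by
  rw [H45_0, H45_1, H45_2, mul_pow, mul_pow, s2]
  ring)

lemma _root_.MeasureTheory.Integrable.angAdd {u v : E3 → ℝ} (hu : Integrable u hm)
    (hv : Integrable v hm) : Integrable (fun x => u x + v x) hm := hu.add hv

lemma _root_.MeasureTheory.Integrable.angSub {u v : E3 → ℝ} (hu : Integrable u hm)
    (hv : Integrable v hm) : Integrable (fun x => u x - v x) hm := hu.sub hv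

/-- integrability of polynomials times radial functions -/
lemma intq {k : ℕ} (_hk : 1 ≤ k) {q : E3 → ℝ} (hq : Continuous q) {C : ℝ}
    (hb : ∀ x, |q x| ≤ C * ‖x‖ ^ k) {f : ℝ → ℝ}
    (hf : Integrable (fun x : E3 => ‖x‖ ^ k * f ‖x‖) hm) :
    Integrable (fun x : E3 => q x * f ‖x‖) hm := by
  have h1 : (fun x : E3 => q x * f ‖x‖) = fun x => (q x / ‖x‖ ^ k) * (‖x‖ ^ k * f ‖x‖) := by
    funext x
    by_cases hx : ‖x‖ ^ k = 0
    · have h0 : q x = 0 := by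
        have := hb x
        rw [hx, mul_zero] at this
        exact abs_nonpos_iff.1 this
      rw [h0, hx]
      simp
    · field_simp
  rw [h1]
  refine hf.bdd_mul (c := |C|) ?_ ?_
  · exact (hq.measurable.div (continuous_norm.measurable.pow_const k)).aestronglyMeasurable
  · refine Filter.Eventually.of_forall fun x => ?_
    rw [Real.norm_eq_abs, abs_div, abs_of_nonneg (by positivity : (0 : ℝ) ≤ ‖x‖ ^ k)]
    refine div_le_of_le_mul₀ (by positivity) (abs_nonneg _) ?_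
    refine (hb x).trans ?_
    gcongr
    exact le_abs_self C

/-- odd under one reflection -/
lemma odd0 (h : S_hm) {q : E3 → ℝ} (c : Fin 3) (ho : ∀ x, q (Rc c x) = - q x) (f : ℝ → ℝ) :
    ∫ x, q x * f ‖x‖ ∂hm = 0 := by
  have h1 := (inv h (Rc c) (Rc_norm c) q f).1
  have h2 : (fun x => q (Rc c x) * f ‖x‖) = fun x => - (q x * f ‖x‖) := by
    funext x
    rw [ho]
    ring
  rw [h2, integral_neg] at h1
  linarith

lemma mono_bd (x : E3) (a b c : ℕ) :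
    |x 0 ^ a * x 1 ^ b * x 2 ^ c| ≤ 1 * ‖x‖ ^ (a + b + c) := by
  rw [abs_mul, abs_mul, abs_pow, abs_pow, abs_pow, one_mul, pow_add, pow_add]
  have h0 := coord_le x 0
  have h1 := coord_le x 1
  have h2 := coord_le x 2
  gcongr

/-- integrals of monomials -/
def I (f : ℝ → ℝ) (a b c : ℕ) : ℝ := ∫ x : E3, x 0 ^ a * x 1 ^ b * x 2 ^ c * f ‖x‖ ∂hm

lemma int_mono {a b c k : ℕ} (hk : a + b + c = k) (hk1 : 1 ≤ k) {f : ℝ → ℝ}
    (hf : Integrable (fun x : E3 => ‖x‖ ^ k * f ‖x‖) hm) :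
    Integrable (fun x : E3 => x 0 ^ a * x 1 ^ b * x 2 ^ c * f ‖x‖) hm := by
  subst hk
  exact intq hk1 (by fun_prop) (fun x => mono_bd x a b c) hf

lemma I01 (h : S_hm) (f : ℝ → ℝ) (a b c : ℕ) : I f a b c = I f b a c := by
  have := (inv h P01 P01_norm (fun x => x 0 ^ a * x 1 ^ b * x 2 ^ c) f).1
  simp only [P01_0, P01_1, P01_2] at this
  unfold I
  rw [← this]
  congr 1
  funext x
  ring

lemma I02 (h : S_hm) (f : ℝ → ℝ) (a b c : ℕ) : I f a b c = I f c b a := by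
  have := (inv h P02 P02_norm (fun x => x 0 ^ a * x 1 ^ b * x 2 ^ c) f).1
  simp only [P02_0, P02_1, P02_2] at this
  unfold I
  rw [← this]
  congr 1
  funext x
  ring

lemma I12 (h : S_hm) (f : ℝ → ℝ) (a b c : ℕ) : I f a b c = I f a c b := by
  have := (inv h P12 P12_norm (fun x => x 0 ^ a * x 1 ^ b * x 2 ^ c) f).1
  simp only [P12_0, P12_1, P12_2] at this
  unfold I
  rw [← this]
  congr 1
  funext x
  ring

lemma I_odd0 (h : S_hm) (f : ℝ → ℝ) {a b c : ℕ} (ha : Odd a) : I f a b c = 0 := by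
  refine odd0 h 0 (q := fun x => x 0 ^ a * x 1 ^ b * x 2 ^ c) (fun x => ?_) f
  simp only [Rc_self, Rc_ne (show (1 : Fin 3) ≠ 0 by decide), Rc_ne (show (2 : Fin 3) ≠ 0 by decide)]
  rw [ha.neg_pow]
  ring

lemma I_odd1 (h : S_hm) (f : ℝ → ℝ) {a b c : ℕ} (hb : Odd b) : I f a b c = 0 := by
  rw [I01 h]
  exact I_odd0 h f hb

lemma I_odd2 (h : S_hm) (f : ℝ → ℝ) {a b c : ℕ} (hc : Odd c) : I f a b c = 0 := by
  rw [I02 h]
  exact I_odd0 h f hc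

section four
variable {f : ℝ → ℝ}

/-- fourth moments -/
lemma four (h : S_hm) (hf : Integrable (fun x : E3 => ‖x‖ ^ 4 * f ‖x‖) hm) :
    I f 4 0 0 = 3 * I f 2 2 0 := by
  have hi : ∀ a b c : ℕ, a + b + c = 4 →
      Integrable (fun x : E3 => x 0 ^ a * x 1 ^ b * x 2 ^ c * f ‖x‖) hm :=
    fun a b c habc => int_mono habc (by norm_num) hf
  have h1 := (inv h H45 H45_norm (fun x => x 0 ^ 4 * x 1 ^ 0 * x 2 ^ 0) f).1
  have h2 : ∀ x : E3, (H45 x) 0 ^ 4 * (H45 x) 1 ^ 0 * (H45 x) 2 ^ 0 * f ‖x‖ =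
      1 / 4 * (x 0 ^ 4 * x 1 ^ 0 * x 2 ^ 0 * f ‖x‖) + x 0 ^ 3 * x 1 ^ 1 * x 2 ^ 0 * f ‖x‖ +
      3 / 2 * (x 0 ^ 2 * x 1 ^ 2 * x 2 ^ 0 * f ‖x‖) + x 0 ^ 1 * x 1 ^ 3 * x 2 ^ 0 * f ‖x‖ +
      1 / 4 * (x 0 ^ 0 * x 1 ^ 4 * x 2 ^ 0 * f ‖x‖) := by
    intro x
    have h3 : ((√2)⁻¹ : ℝ) ^ 4 = 1 / 4 := by
      rw [show (4 : ℕ) = 2 * 2 by norm_num, pow_mul, s2]
      norm_num
    rw [H45_0, mul_pow, h3]
    ring
  simp only [h2] at h1
  rw [integral_add (((((hi 4 0 0 rfl).const_mul (1 / 4)).angAdd (hi 3 1 0 rfl)).angAdd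
      ((hi 2 2 0 rfl).const_mul (3 / 2))).angAdd (hi 1 3 0 rfl)) ((hi 0 4 0 rfl).const_mul (1 / 4)),
    integral_add ((((hi 4 0 0 rfl).const_mul (1 / 4)).angAdd (hi 3 1 0 rfl)).angAdd
      ((hi 2 2 0 rfl).const_mul (3 / 2))) (hi 1 3 0 rfl),
    integral_add (((hi 4 0 0 rfl).const_mul (1 / 4)).angAdd (hi 3 1 0 rfl))
      ((hi 2 2 0 rfl).const_mul (3 / 2)),
    integral_add ((hi 4 0 0 rfl).const_mul (1 / 4)) (hi 3 1 0 rfl),
    integral_const_mul, integral_const_mul, integral_const_mul] at h1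
  have e31 : I f 3 1 0 = 0 := I_odd0 h f (by decide)
  have e13 : I f 1 3 0 = 0 := I_odd0 h f (by decide)
  have e04 : I f 0 4 0 = I f 4 0 0 := I01 h f 0 4 0
  change 1 / 4 * I f 4 0 0 + I f 3 1 0 + 3 / 2 * I f 2 2 0 + I f 1 3 0 + 1 / 4 * I f 0 4 0 =
    I f 4 0 0 at h1
  rw [e31, e13, e04] at h1
  linarith

/-- sixth moments -/
lemma six (h : S_hm) (hf : Integrable (fun x : E3 => ‖x‖ ^ 6 * f ‖x‖) hm) :
    I f 6 0 0 = 5 * I f 4 2 0 ∧ I f 4 2 0 = 3 * I f 2 2 2 := by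
  have hi : ∀ a b c : ℕ, a + b + c = 6 →
      Integrable (fun x : E3 => x 0 ^ a * x 1 ^ b * x 2 ^ c * f ‖x‖) hm :=
    fun a b c habc => int_mono habc (by norm_num) hf
  constructor
  · have h1 := (inv h H45 H45_norm (fun x => x 0 ^ 6 * x 1 ^ 0 * x 2 ^ 0) f).1
    have h2 : ∀ x : E3, (H45 x) 0 ^ 6 * (H45 x) 1 ^ 0 * (H45 x) 2 ^ 0 * f ‖x‖ =
        1 / 8 * (x 0 ^ 6 * x 1 ^ 0 * x 2 ^ 0 * f ‖x‖) +
        3 / 4 * (x 0 ^ 5 * x 1 ^ 1 * x 2 ^ 0 * f ‖x‖) +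
        15 / 8 * (x 0 ^ 4 * x 1 ^ 2 * x 2 ^ 0 * f ‖x‖) +
        5 / 2 * (x 0 ^ 3 * x 1 ^ 3 * x 2 ^ 0 * f ‖x‖) +
        15 / 8 * (x 0 ^ 2 * x 1 ^ 4 * x 2 ^ 0 * f ‖x‖) +
        3 / 4 * (x 0 ^ 1 * x 1 ^ 5 * x 2 ^ 0 * f ‖x‖) +
        1 / 8 * (x 0 ^ 0 * x 1 ^ 6 * x 2 ^ 0 * f ‖x‖) := by
      intro x
      have h3 : ((√2)⁻¹ : ℝ) ^ 6 = 1 / 8 := by
        rw [show ((√2)⁻¹ : ℝ) ^ 6 = (((√2)⁻¹ : ℝ) ^ 2) ^ 3 by ring, s2]
        norm_num
      rw [H45_0, mul_pow, h3]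
      ring
    simp only [h2] at h1
    have i0 := (hi 6 0 0 rfl).const_mul (1 / 8)
    have i1 := (hi 5 1 0 rfl).const_mul (3 / 4)
    have i2 := (hi 4 2 0 rfl).const_mul (15 / 8)
    have i3 := (hi 3 3 0 rfl).const_mul (5 / 2)
    have i4 := (hi 2 4 0 rfl).const_mul (15 / 8)
    have i5 := (hi 1 5 0 rfl).const_mul (3 / 4)
    have i6 := (hi 0 6 0 rfl).const_mul (1 / 8)
    rw [integral_add (((((i0.angAdd i1).angAdd i2).angAdd i3).angAdd i4).angAdd i5) i6,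
      integral_add ((((i0.angAdd i1).angAdd i2).angAdd i3).angAdd i4) i5,
      integral_add (((i0.angAdd i1).angAdd i2).angAdd i3) i4,
      integral_add ((i0.angAdd i1).angAdd i2) i3, integral_add (i0.angAdd i1) i2, integral_add i0 i1,
      integral_const_mul, integral_const_mul, integral_const_mul, integral_const_mul,
      integral_const_mul, integral_const_mul, integral_const_mul] at h1
    change 1 / 8 * I f 6 0 0 + 3 / 4 * I f 5 1 0 + 15 / 8 * I f 4 2 0 + 5 / 2 * I f 3 3 0 +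
      15 / 8 * I f 2 4 0 + 3 / 4 * I f 1 5 0 + 1 / 8 * I f 0 6 0 = I f 6 0 0 at h1
    have e1 : I f 5 1 0 = 0 := I_odd0 h f (by decide)
    have e2 : I f 3 3 0 = 0 := I_odd0 h f (by decide)
    have e3 : I f 1 5 0 = 0 := I_odd0 h f (by decide)
    have e4 : I f 0 6 0 = I f 6 0 0 := I01 h f 0 6 0
    have e5 : I f 2 4 0 = I f 4 2 0 := I01 h f 2 4 0
    rw [e1, e2, e3, e4, e5] at h1
    linarith
  · have h1 := (inv h H45 H45_norm (fun x => x 0 ^ 4 * x 1 ^ 0 * x 2 ^ 2) f).1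
    have h2 : ∀ x : E3, (H45 x) 0 ^ 4 * (H45 x) 1 ^ 0 * (H45 x) 2 ^ 2 * f ‖x‖ =
        1 / 4 * (x 0 ^ 4 * x 1 ^ 0 * x 2 ^ 2 * f ‖x‖) +
        x 0 ^ 3 * x 1 ^ 1 * x 2 ^ 2 * f ‖x‖ +
        3 / 2 * (x 0 ^ 2 * x 1 ^ 2 * x 2 ^ 2 * f ‖x‖) +
        x 0 ^ 1 * x 1 ^ 3 * x 2 ^ 2 * f ‖x‖ +
        1 / 4 * (x 0 ^ 0 * x 1 ^ 4 * x 2 ^ 2 * f ‖x‖) := by
      intro x
      have h3 : ((√2)⁻¹ : ℝ) ^ 4 = 1 / 4 := by
        rw [show (4 : ℕ) = 2 * 2 by norm_num, pow_mul, s2]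
        norm_num
      rw [H45_0, H45_2, mul_pow, h3]
      ring
    simp only [h2] at h1
    have i0 := (hi 4 0 2 rfl).const_mul (1 / 4)
    have i1 := hi 3 1 2 rfl
    have i2 := (hi 2 2 2 rfl).const_mul (3 / 2)
    have i3 := hi 1 3 2 rfl
    have i4 := (hi 0 4 2 rfl).const_mul (1 / 4)
    rw [integral_add (((i0.angAdd i1).angAdd i2).angAdd i3) i4,
      integral_add ((i0.angAdd i1).angAdd i2) i3, integral_add (i0.angAdd i1) i2, integral_add i0 i1,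
      integral_const_mul, integral_const_mul, integral_const_mul] at h1
    change 1 / 4 * I f 4 0 2 + I f 3 1 2 + 3 / 2 * I f 2 2 2 + I f 1 3 2 + 1 / 4 * I f 0 4 2 =
      I f 4 0 2 at h1
    have e1 : I f 3 1 2 = 0 := I_odd0 h f (by decide)
    have e2 : I f 1 3 2 = 0 := I_odd0 h f (by decide)
    have e3 : I f 0 4 2 = I f 4 0 2 := I01 h f 0 4 2
    have e4 : I f 4 0 2 = I f 4 2 0 := I12 h f 4 0 2
    rw [e1, e2, e3, e4] at h1
    linarith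

end four

/-- `hh 2` has mean zero with every radial weight -/
lemma hh2_zero (h : S_hm) (f : ℝ → ℝ) : ∫ x, hh 2 x * f ‖x‖ ∂hm = 0 := by
  by_cases hi : Integrable (fun x => hh 2 x * f ‖x‖) hm
  · obtain ⟨a1, b1⟩ := inv h P01 P01_norm (hh 2) f
    obtain ⟨a2, b2⟩ := inv h P02 P02_norm (hh 2) f
    have i1 := b1 hi
    have i2 := b2 hi
    have h3 : (fun x => hh 2 x * f ‖x‖ + hh 2 (P01 x) * f ‖x‖ + hh 2 (P02 x) * f ‖x‖) =
        fun _ => (0 : ℝ) := by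
      funext x
      simp only [hh, P01_0, P01_1, P01_2, P02_0, P02_1, P02_2]
      ring
    have h4 : ∫ x, (hh 2 x * f ‖x‖ + hh 2 (P01 x) * f ‖x‖ + hh 2 (P02 x) * f ‖x‖) ∂hm = 0 := by
      rw [h3]
      simp
    rw [integral_add (hi.angAdd i1) i2, integral_add hi i1, a1, a2] at h4
    linarith
  · exact integral_undef hi

end Ang

open Ang

theorem p_ang (h : S_hm) : S_ang := by
  intro f
  refine ⟨fun hf => ?_, fun hf => ?_, fun hf => ?_⟩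
  · have hi : ∀ c d : Fin 3, Integrable (fun x : E3 => x c * x d * f ‖x‖) hm := by
      intro c d
      refine intq (k := 2) (by norm_num) (q := fun x => x c * x d) (by fun_prop) (C := 1)
        (fun x => ?_) hf
      rw [abs_mul, one_mul, sq]
      exact mul_le_mul (coord_le x c) (coord_le x d) (abs_nonneg _) (norm_nonneg _)
    intro c d
    refine ⟨hi c d, ?_⟩
    have e1 : I f 0 2 0 = I f 2 0 0 := I01 h f 0 2 0
    have e2 : I f 0 0 2 = I f 2 0 0 := I02 h f 0 0 2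
    have k0 : ∫ x : E3, x 0 * x 0 * f ‖x‖ ∂hm = I f 2 0 0 := by
      unfold I
      congr 1
      funext x
      ring
    have k1 : ∫ x : E3, x 1 * x 1 * f ‖x‖ ∂hm = I f 0 2 0 := by
      unfold I
      congr 1
      funext x
      ring
    have k2 : ∫ x : E3, x 2 * x 2 * f ‖x‖ ∂hm = I f 0 0 2 := by
      unfold I
      congr 1
      funext x
      ring
    have h3 : ∫ x : E3, ‖x‖ ^ 2 * f ‖x‖ ∂hm = 3 * I f 2 0 0 := by
      have h4 : (fun x : E3 => ‖x‖ ^ 2 * f ‖x‖) = fun x =>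
          x 0 * x 0 * f ‖x‖ + x 1 * x 1 * f ‖x‖ + x 2 * x 2 * f ‖x‖ := by
        funext x
        rw [nsq3]
        ring
      rw [h4, integral_add ((hi 0 0).angAdd (hi 1 1)) (hi 2 2), integral_add (hi 0 0) (hi 1 1),
        k0, k1, k2, e1, e2]
      ring
    by_cases hcd : c = d
    · subst hcd
      rw [if_pos rfl, h3]
      have h5 : ∫ x : E3, x c * x c * f ‖x‖ ∂hm = I f 2 0 0 := by
        fin_cases c
        · exact k0
        · exact k1.trans e1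
        · exact k2.trans e2
      rw [h5]
      ring
    · rw [if_neg hcd]
      refine odd0 h c (q := fun x => x c * x d) (fun x => ?_) f
      simp only [Rc_self, Rc_ne (Ne.symm hcd)]
      ring
  · have hi : ∀ a b c : ℕ, a + b + c = 4 →
        Integrable (fun x : E3 => x 0 ^ a * x 1 ^ b * x 2 ^ c * f ‖x‖) hm :=
      fun a b c habc => int_mono habc (by norm_num) hf
    have h4 : (fun x : E3 => x 0 ^ 4 * f ‖x‖) =
        fun x => x 0 ^ 4 * x 1 ^ 0 * x 2 ^ 0 * f ‖x‖ := by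
      funext x
      ring
    refine ⟨by rw [h4]; exact hi 4 0 0 rfl, ?_, hh2_zero h f⟩
    have h5 : ∫ x : E3, x 0 ^ 4 * f ‖x‖ ∂hm = I f 4 0 0 := by
      unfold I
      rw [h4]
    have h6 : (fun x : E3 => ‖x‖ ^ 4 * f ‖x‖) = fun x =>
        x 0 ^ 4 * x 1 ^ 0 * x 2 ^ 0 * f ‖x‖ + x 0 ^ 0 * x 1 ^ 4 * x 2 ^ 0 * f ‖x‖ +
        x 0 ^ 0 * x 1 ^ 0 * x 2 ^ 4 * f ‖x‖ + 2 * (x 0 ^ 2 * x 1 ^ 2 * x 2 ^ 0 * f ‖x‖) +
        2 * (x 0 ^ 2 * x 1 ^ 0 * x 2 ^ 2 * f ‖x‖) + 2 * (x 0 ^ 0 * x 1 ^ 2 * x 2 ^ 2 * f ‖x‖) := by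
      funext x
      rw [show ‖x‖ ^ 4 = (‖x‖ ^ 2) ^ 2 by ring, nsq3]
      ring
    have i0 := hi 4 0 0 rfl
    have i1 := hi 0 4 0 rfl
    have i2 := hi 0 0 4 rfl
    have i3 := (hi 2 2 0 rfl).const_mul 2
    have i4 := (hi 2 0 2 rfl).const_mul 2
    have i5 := (hi 0 2 2 rfl).const_mul 2
    have h7 : ∫ x : E3, ‖x‖ ^ 4 * f ‖x‖ ∂hm = I f 4 0 0 + I f 0 4 0 + I f 0 0 4 +
        2 * I f 2 2 0 + 2 * I f 2 0 2 + 2 * I f 0 2 2 := by
      rw [h6, integral_add ((((i0.angAdd i1).angAdd i2).angAdd i3).angAdd i4) i5,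
        integral_add (((i0.angAdd i1).angAdd i2).angAdd i3) i4, integral_add ((i0.angAdd i1).angAdd i2) i3,
        integral_add (i0.angAdd i1) i2, integral_add i0 i1, integral_const_mul, integral_const_mul,
        integral_const_mul]
      rfl
    have e1 : I f 0 4 0 = I f 4 0 0 := I01 h f 0 4 0
    have e2 : I f 0 0 4 = I f 4 0 0 := I02 h f 0 0 4
    have e3 : I f 2 0 2 = I f 2 2 0 := I12 h f 2 0 2
    have e4 : I f 0 2 2 = I f 2 2 0 := I02 h f 0 2 2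
    have e5 := four h hf
    rw [h5, h7, e1, e2, e3, e4]
    linarith
  · have hi : ∀ a b c : ℕ, a + b + c = 6 →
        Integrable (fun x : E3 => x 0 ^ a * x 1 ^ b * x 2 ^ c * f ‖x‖) hm :=
      fun a b c habc => int_mono habc (by norm_num) hf
    have h4 : (fun x : E3 => x 0 ^ 6 * f ‖x‖) =
        fun x => x 0 ^ 6 * x 1 ^ 0 * x 2 ^ 0 * f ‖x‖ := by
      funext x
      ring
    refine ⟨by rw [h4]; exact hi 6 0 0 rfl, ?_⟩
    have h5 : ∫ x : E3, x 0 ^ 6 * f ‖x‖ ∂hm = I f 6 0 0 := by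
      unfold I
      rw [h4]
    have h6 : (fun x : E3 => ‖x‖ ^ 6 * f ‖x‖) = fun x =>
        x 0 ^ 6 * x 1 ^ 0 * x 2 ^ 0 * f ‖x‖ + x 0 ^ 0 * x 1 ^ 6 * x 2 ^ 0 * f ‖x‖ +
        x 0 ^ 0 * x 1 ^ 0 * x 2 ^ 6 * f ‖x‖ + 3 * (x 0 ^ 4 * x 1 ^ 2 * x 2 ^ 0 * f ‖x‖) +
        3 * (x 0 ^ 4 * x 1 ^ 0 * x 2 ^ 2 * f ‖x‖) + 3 * (x 0 ^ 2 * x 1 ^ 4 * x 2 ^ 0 * f ‖x‖) +
        3 * (x 0 ^ 2 * x 1 ^ 0 * x 2 ^ 4 * f ‖x‖) + 3 * (x 0 ^ 0 * x 1 ^ 4 * x 2 ^ 2 * f ‖x‖) +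
        3 * (x 0 ^ 0 * x 1 ^ 2 * x 2 ^ 4 * f ‖x‖) + 6 * (x 0 ^ 2 * x 1 ^ 2 * x 2 ^ 2 * f ‖x‖) := by
      funext x
      rw [show ‖x‖ ^ 6 = (‖x‖ ^ 2) ^ 3 by ring, nsq3]
      ring
    have i0 := hi 6 0 0 rfl
    have i1 := hi 0 6 0 rfl
    have i2 := hi 0 0 6 rfl
    have i3 := (hi 4 2 0 rfl).const_mul 3
    have i4 := (hi 4 0 2 rfl).const_mul 3
    have i5 := (hi 2 4 0 rfl).const_mul 3
    have i6 := (hi 2 0 4 rfl).const_mul 3
    have i7 := (hi 0 4 2 rfl).const_mul 3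
    have i8 := (hi 0 2 4 rfl).const_mul 3
    have i9 := (hi 2 2 2 rfl).const_mul 6
    have h7 : ∫ x : E3, ‖x‖ ^ 6 * f ‖x‖ ∂hm = I f 6 0 0 + I f 0 6 0 + I f 0 0 6 +
        3 * I f 4 2 0 + 3 * I f 4 0 2 + 3 * I f 2 4 0 + 3 * I f 2 0 4 + 3 * I f 0 4 2 +
        3 * I f 0 2 4 + 6 * I f 2 2 2 := by
      rw [h6, integral_add ((((((((i0.angAdd i1).angAdd i2).angAdd i3).angAdd i4).angAdd i5).angAdd i6).angAdd i7).angAdd
          i8) i9,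
        integral_add (((((((i0.angAdd i1).angAdd i2).angAdd i3).angAdd i4).angAdd i5).angAdd i6).angAdd i7) i8,
        integral_add ((((((i0.angAdd i1).angAdd i2).angAdd i3).angAdd i4).angAdd i5).angAdd i6) i7,
        integral_add (((((i0.angAdd i1).angAdd i2).angAdd i3).angAdd i4).angAdd i5) i6,
        integral_add ((((i0.angAdd i1).angAdd i2).angAdd i3).angAdd i4) i5,
        integral_add (((i0.angAdd i1).angAdd i2).angAdd i3) i4, integral_add ((i0.angAdd i1).angAdd i2) i3,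
        integral_add (i0.angAdd i1) i2, integral_add i0 i1, integral_const_mul, integral_const_mul,
        integral_const_mul, integral_const_mul, integral_const_mul, integral_const_mul,
        integral_const_mul]
      rfl
    have e1 : I f 0 6 0 = I f 6 0 0 := I01 h f 0 6 0
    have e2 : I f 0 0 6 = I f 6 0 0 := I02 h f 0 0 6
    have e3 : I f 4 0 2 = I f 4 2 0 := I12 h f 4 0 2
    have e4 : I f 2 4 0 = I f 4 2 0 := I01 h f 2 4 0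
    have e5 : I f 2 0 4 = I f 4 2 0 := (I02 h f 2 0 4).trans (I12 h f 4 0 2)
    have e6 : I f 0 4 2 = I f 4 2 0 := (I01 h f 0 4 2).trans (I12 h f 4 0 2)
    have e7 : I f 0 2 4 = I f 4 2 0 := I02 h f 0 2 4
    obtain ⟨e8, e9⟩ := six h hf
    rw [h5, h7, e1, e2, e3, e4, e5, e6, e7]
    linarith

theorem p_harm0 (h : S_hm) : S_harm0 := by
  intro L f hL1 hL4 hf
  interval_cases L
  · have h1 : ∀ x : E3, hh 1 x = x 0 := fun x => rfl
    simp only [h1]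
    refine ⟨intq (k := 1) le_rfl (q := fun x => x 0) (by fun_prop) (C := 1) (fun x => ?_) hf, ?_⟩
    · rw [one_mul, pow_one]
      exact coord_le x 0
    · exact odd0 h 0 (q := fun x => x 0) (fun x => Rc_self 0 x) f
  · refine ⟨?_, hh2_zero h f⟩
    refine intq (k := 2) (by norm_num) (q := hh 2) ?_ (C := 1) (fun x => ?_) hf
    · have : hh 2 = fun x : E3 => x 0 ^ 2 - (x 1 ^ 2 + x 2 ^ 2) / 2 := rfl
      rw [this]
      fun_prop
    · have : hh 2 x = x 0 ^ 2 - (x 1 ^ 2 + x 2 ^ 2) / 2 := rfl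
      rw [this, nsq3, one_mul, abs_le]
      constructor <;> nlinarith [sq_nonneg (x 0), sq_nonneg (x 1), sq_nonneg (x 2)]
  · have hi : ∀ a b c : ℕ, a + b + c = 3 →
        Integrable (fun x : E3 => x 0 ^ a * x 1 ^ b * x 2 ^ c * f ‖x‖) hm :=
      fun a b c habc => int_mono habc (by norm_num) hf
    have h1 : (fun x : E3 => hh 3 x * f ‖x‖) = fun x => x 0 ^ 3 * x 1 ^ 0 * x 2 ^ 0 * f ‖x‖ -
        3 / 2 * (x 0 ^ 1 * x 1 ^ 2 * x 2 ^ 0 * f ‖x‖) -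
        3 / 2 * (x 0 ^ 1 * x 1 ^ 0 * x 2 ^ 2 * f ‖x‖) := by
      funext x
      have : hh 3 x = x 0 ^ 3 - 3 / 2 * x 0 * (x 1 ^ 2 + x 2 ^ 2) := rfl
      rw [this]
      ring
    constructor
    · rw [h1]
      exact ((hi 3 0 0 rfl).angSub ((hi 1 2 0 rfl).const_mul (3 / 2))).sub
        ((hi 1 0 2 rfl).const_mul (3 / 2))
    · refine odd0 h 0 (q := hh 3) (fun x => ?_) f
      have : ∀ y : E3, hh 3 y = y 0 ^ 3 - 3 / 2 * y 0 * (y 1 ^ 2 + y 2 ^ 2) := fun _ => rfl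
      rw [this, this, Rc_self, Rc_ne (show (1 : Fin 3) ≠ 0 by decide),
        Rc_ne (show (2 : Fin 3) ≠ 0 by decide)]
      ring
  · have hi : ∀ a b c : ℕ, a + b + c = 4 →
        Integrable (fun x : E3 => x 0 ^ a * x 1 ^ b * x 2 ^ c * f ‖x‖) hm :=
      fun a b c habc => int_mono habc (by norm_num) hf
    have h1 : (fun x : E3 => hh 4 x * f ‖x‖) = fun x => x 0 ^ 4 * x 1 ^ 0 * x 2 ^ 0 * f ‖x‖ -
        3 * (x 0 ^ 2 * x 1 ^ 2 * x 2 ^ 0 * f ‖x‖) - 3 * (x 0 ^ 2 * x 1 ^ 0 * x 2 ^ 2 * f ‖x‖) +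
        3 / 8 * (x 0 ^ 0 * x 1 ^ 4 * x 2 ^ 0 * f ‖x‖) +
        3 / 4 * (x 0 ^ 0 * x 1 ^ 2 * x 2 ^ 2 * f ‖x‖) +
        3 / 8 * (x 0 ^ 0 * x 1 ^ 0 * x 2 ^ 4 * f ‖x‖) := by
      funext x
      have : hh 4 x = x 0 ^ 4 - 3 * x 0 ^ 2 * (x 1 ^ 2 + x 2 ^ 2) +
        3 / 8 * (x 1 ^ 2 + x 2 ^ 2) ^ 2 := rfl
      rw [this]
      ring
    have i0 := hi 4 0 0 rfl
    have i1 := (hi 2 2 0 rfl).const_mul 3
    have i2 := (hi 2 0 2 rfl).const_mul 3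
    have i3 := (hi 0 4 0 rfl).const_mul (3 / 8)
    have i4 := (hi 0 2 2 rfl).const_mul (3 / 4)
    have i5 := (hi 0 0 4 rfl).const_mul (3 / 8)
    constructor
    · rw [h1]
      exact ((((i0.angSub i1).angSub i2).angAdd i3).angAdd i4).angAdd i5
    · rw [h1, integral_add ((((i0.angSub i1).angSub i2).angAdd i3).angAdd i4) i5,
        integral_add (((i0.angSub i1).angSub i2).angAdd i3) i4, integral_add ((i0.angSub i1).angSub i2) i3,
        integral_sub (i0.angSub i1) i2, integral_sub i0 i1, integral_const_mul, integral_const_mul,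
        integral_const_mul, integral_const_mul, integral_const_mul]
      change I f 4 0 0 - 3 * I f 2 2 0 - 3 * I f 2 0 2 + 3 / 8 * I f 0 4 0 +
        3 / 4 * I f 0 2 2 + 3 / 8 * I f 0 0 4 = 0
      have e1 : I f 0 4 0 = I f 4 0 0 := I01 h f 0 4 0
      have e2 : I f 0 0 4 = I f 4 0 0 := I02 h f 0 0 4
      have e3 : I f 2 0 2 = I f 2 2 0 := I12 h f 2 0 2
      have e4 : I f 0 2 2 = I f 2 2 0 := I02 h f 0 2 2
      have e5 := four h hf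
      rw [e1, e2, e3, e4]
      linarith

end MolDis.H
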