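import Pool.Agent.Lib.MP_59f35a_mp.H.Var

/-!
# MP_59f35a_mp, Theorem D, piece V2: a priori bounds
-/

set_option autoImplicit false

noncomputable section

open MeasureTheory

namespace MolDis.H
namespace Apri

open Var

lemma zt_one {r : ℝ} (hr : 0 < r) {x : E3} (hx : ‖x‖ ≤ r / 2) : zt r x = 1 := by
  unfold zt
  have h1 : 2 * ‖x‖ / r ≤ 1 := by
    rw [div_le_one hr]
    linarith
  rw [min_eq_left (by linarith), max_eq_right zero_le_one]

lemma ec_norm (c : Fin 3) : ‖ec c‖ = 1 := by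
  unfold ec
  simp

lemma pd1_zt {r : ℝ} (hr : 2 ≤ r) (c : Fin 3) (x : E3) :
    pd1 c (zt r) x * pd1 c (zt r) x ≤ if (r - 1) / 2 < ‖x‖ then ‖x‖ ^ 0 else 0 := by
  have hr0 : 0 < r := by linarith
  split_ifs with h
  · have h1 := norm_lineDeriv_le_of_lipschitz ℝ (x₀ := x) (v := ec c) (zt_lip hr0)
    rw [ec_norm, mul_one, Real.coe_toNNReal _ (by positivity), Real.norm_eq_abs] at h1
    have h2 : (2 : ℝ) / r ≤ 1 := by
      rw [div_le_one hr0]
      exact hr
    have h3 : |pd1 c (zt r) x| ≤ 1 := h1.trans h2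
    rw [pow_zero]
    have h4 := abs_le.1 h3
    nlinarith
  · have hx : ‖x‖ < r / 2 := by
      push Not at h
      linarith
    have h0 : pd1 c (zt r) x = 0 := by
      unfold pd1 lineDeriv
      have hev : (fun t : ℝ => zt r (x + t • ec c)) =ᶠ[nhds 0] fun _ => (1 : ℝ) := by
        have hcont : ContinuousAt (fun t : ℝ => ‖x + t • ec c‖) 0 := by fun_prop
        have h1 : (fun t : ℝ => ‖x + t • ec c‖) 0 < r / 2 := by simpa using hx
        filter_upwards [hcont.eventually_lt continuousAt_const h1] with t ht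
        exact zt_one hr0 ht.le
      rw [hev.deriv_eq]
      simp
    rw [h0]
    simp

lemma tail_int [IsProbabilityMeasure hm] (s : ℝ) :
    Integrable (fun x : E3 => if s < ‖x‖ then ‖x‖ ^ 0 else 0) hm := by
  simp only [pow_zero]
  have hm1 : MeasurableSet {x : E3 | s < ‖x‖} := measurableSet_lt measurable_const measurable_norm
  have h1 : (fun x : E3 => if s < ‖x‖ then (1 : ℝ) else 0)
      = Set.indicator {x : E3 | s < ‖x‖} (fun _ => (1 : ℝ)) := by
    funext x
    simp [Set.indicator_apply]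
  rw [h1]
  exact (integrable_const _).indicator hm1

lemma D1_zt (h_hm : S_hm) : ∃ C : ℝ, 0 ≤ C ∧ ∀ r : ℝ, 2 ≤ r →
    D1 (zt r) (zt r) ≤ C * Real.exp (-r / 4) ∧
    (∀ j : Fin 3, ∀ S : Finset (Fin 3),
      1 - C * Real.exp (-r / 4) ≤ ∫ y, (if j ∈ S then zt r y ^ 2 else 1) ∂hm) := by
  have hpm : IsProbabilityMeasure hm := h_hm.1
  obtain ⟨C, hC⟩ := h_hm.2.2.2.2.2.1 0
  have hCpos : 0 ≤ C := by
    have h1 := hC 1 le_rfl
    have h2 : 0 ≤ ∫ x : E3, (if (1 : ℝ) / 2 < ‖x‖ then ‖x‖ ^ 0 else 0) ∂hm :=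
      integral_nonneg (fun x => by
        simp only [Pi.zero_apply]
        split_ifs
        · positivity
        · exact le_rfl)
    have h3 := Real.exp_pos (-(1 : ℝ) / 4)
    by_contra hneg
    push Not at hneg
    have := mul_neg_of_neg_of_pos hneg h3
    linarith
  refine ⟨3 * C * Real.exp (1 / 4), by positivity, ?_⟩
  intro r hr
  have hr0 : 0 < r := by linarith
  have hexp : Real.exp (-(r - 1) / 4) = Real.exp (1 / 4) * Real.exp (-r / 4) := by
    rw [← Real.exp_add]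
    congr 1
    ring
  constructor
  · unfold D1
    have h1 : ∀ c : Fin 3, ∫ x, pd1 c (zt r) x * pd1 c (zt r) x ∂hm ≤
        C * Real.exp (-(r - 1) / 4) := by
      intro c
      refine le_trans ?_ (hC (r - 1) (by linarith))
      exact integral_mono_of_nonneg (Filter.Eventually.of_forall (fun x => mul_self_nonneg _))
        (tail_int _) (Filter.Eventually.of_forall (fun x => pd1_zt hr c x))
    calc ∑ c, ∫ x, pd1 c (zt r) x * pd1 c (zt r) x ∂hm
        ≤ ∑ _c : Fin 3, C * Real.exp (-(r - 1) / 4) := Finset.sum_le_sum (fun c _ => h1 c)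
      _ = 3 * C * Real.exp (1 / 4) * Real.exp (-r / 4) := by
        rw [Finset.sum_const, hexp]
        simp
        ring
  · intro j S
    have hCe : C * Real.exp (-r / 4) ≤ 3 * C * Real.exp (1 / 4) * Real.exp (-r / 4) := by
      have h1 : (1 : ℝ) ≤ 3 * Real.exp (1 / 4) := by
        have := Real.one_le_exp (by norm_num : (0 : ℝ) ≤ 1 / 4)
        linarith
      have h2 : 0 ≤ C * Real.exp (-r / 4) := by positivity
      nlinarith
    have hT := hC r (by linarith)
    by_cases hj : j ∈ S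
    · simp only [hj, if_true]
      have hzint : Integrable (fun y : E3 => zt r y ^ 2) hm := by
        refine Integrable.of_bound (C := 1) ((zt_lip hr0).continuous.pow 2).aestronglyMeasurable ?_
        refine Filter.Eventually.of_forall (fun y => ?_)
        rw [Real.norm_eq_abs, abs_of_nonneg (by positivity)]
        exact pow_le_one₀ (zt_nonneg r y) (zt_le_one r y)
      have h2 : ∫ x : E3, (1 - (if r / 2 < ‖x‖ then ‖x‖ ^ 0 else 0) : ℝ) ∂hm ≤
          ∫ y, zt r y ^ 2 ∂hm := by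
        refine integral_mono ((integrable_const _).sub (tail_int _)) hzint (fun x => ?_)
        simp only
        split_ifs with h
        · rw [pow_zero]
          have := sq_nonneg (zt r x)
          linarith
        · push Not at h
          rw [zt_one hr0 h]
          norm_num
      rw [integral_sub (integrable_const _) (tail_int _)] at h2
      simp only [integral_const, probReal_univ, smul_eq_mul, mul_one] at h2
      linarith
    · simp only [hj, if_false]
      simp only [integral_const, probReal_univ, smul_eq_mul, mul_one]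
      have : 0 ≤ C * Real.exp (-r / 4) := by positivity
      linarith

lemma pd1_smul (c : Fin 3) (a : ℝ) (f : E3 → ℝ) (x : E3) :
    pd1 c (fun y => a * f y) x = a * pd1 c f x := by
  unfold pd1 lineDeriv
  exact deriv_const_mul_field a

lemma D1_smul (a : ℝ) (f : E3 → ℝ) :
    D1 (fun y => a * f y) (fun y => a * f y) = a ^ 2 * D1 f f := by
  unfold D1
  rw [Finset.mul_sum]
  refine Finset.sum_congr rfl (fun c _ => ?_)
  rw [← integral_const_mul]
  refine integral_congr_ae (Filter.Eventually.of_forall (fun x => ?_))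
  simp only [pd1_smul]
  ring

lemma D1_const (a : ℝ) : D1 (fun _ => a) (fun _ => a) = 0 := by
  unfold D1
  refine Finset.sum_eq_zero (fun c _ => ?_)
  have h1 : ∀ x : E3, pd1 c (fun _ => a) x = 0 := by
    intro x
    unfold pd1 lineDeriv
    simp
  simp [h1]

lemma D1_nonneg (f : E3 → ℝ) : 0 ≤ D1 f f :=
  Finset.sum_nonneg (fun _ _ => integral_nonneg (fun _ => mul_self_nonneg _))

lemma sl_ZS_mem {r : ℝ} {S : Finset (Fin 3)} {j : Fin 3} (hj : j ∈ S) (x : X3) :
    sl j x (ZS S r) = fun y => (∏ i ∈ S.erase j, zt r (x i)) * zt r y := by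
  classical
  funext y
  unfold sl ZS
  rw [← Finset.prod_erase_mul _ _ hj, Function.update_self]
  congr 1
  refine Finset.prod_congr rfl (fun i hi => ?_)
  rw [Function.update_of_ne (Finset.ne_of_mem_erase hi)]

lemma sl_ZS_not_mem {r : ℝ} {S : Finset (Fin 3)} {j : Fin 3} (hj : j ∉ S) (x : X3) :
    sl j x (ZS S r) = fun _ => ZS S r x := by
  funext y
  unfold sl ZS
  refine Finset.prod_congr rfl (fun i hi => ?_)
  rw [Function.update_of_ne (fun h => hj (by rw [← h]; exact hi))]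

lemma D1_sl_ZS {r : ℝ} (S : Finset (Fin 3)) (j : Fin 3) (x : X3) :
    D1 (sl j x (ZS S r)) (sl j x (ZS S r)) ≤ D1 (zt r) (zt r) := by
  classical
  by_cases hj : j ∈ S
  · rw [sl_ZS_mem hj, D1_smul]
    have h1 : 0 ≤ ∏ i ∈ S.erase j, zt r (x i) := Finset.prod_nonneg (fun i _ => zt_nonneg r _)
    have h2 : ∏ i ∈ S.erase j, zt r (x i) ≤ 1 :=
      Finset.prod_le_one (fun i _ => zt_nonneg r _) (fun i _ => zt_le_one r _)
    have h3 : (∏ i ∈ S.erase j, zt r (x i)) ^ 2 ≤ 1 := pow_le_one₀ h1 h2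
    have h4 := D1_nonneg (zt r)
    nlinarith
  · rw [sl_ZS_not_mem hj, D1_const]
    exact D1_nonneg _

lemma DD_ZS (h_prod : S_prod) (h_bl : S_bl) (h_form : S_form) {r : ℝ} (hr : 0 < r)
    (S : Finset (Fin 3)) : DD (ZS S r) (ZS S r) ≤ 3 * D1 (zt r) (zt r) := by
  have hpm : IsProbabilityMeasure pm := h_prod.1
  have hZ := ZS_BL h_bl hr S
  unfold DD
  have h1 : ∀ j : Fin 3, Dj j (ZS S r) (ZS S r) ≤ D1 (zt r) (zt r) := by
    intro j
    obtain ⟨hi, he⟩ := h_form.2.2.2.1 j _ _ hZ hZ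
    rw [he]
    have h2 : ∫ x, D1 (sl j x (ZS S r)) (sl j x (ZS S r)) ∂pm ≤ ∫ _x : X3, D1 (zt r) (zt r) ∂pm :=
      integral_mono hi (integrable_const _) (fun x => D1_sl_ZS S j x)
    simpa using h2
  calc ∑ j, Dj j (ZS S r) (ZS S r) ≤ ∑ _j : Fin 3, D1 (zt r) (zt r) :=
        Finset.sum_le_sum (fun j _ => h1 j)
    _ = 3 * D1 (zt r) (zt r) := by simp

lemma ip_ZS (h_prod : S_prod) (r : ℝ) (S : Finset (Fin 3)) :
    ip (ZS S r) (ZS S r) = ∏ j : Fin 3, ∫ y, (if j ∈ S then zt r y ^ 2 else 1) ∂hm := by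
  classical
  have h1 : ip (ZS S r) (ZS S r) =
      ∫ x : X3, ∏ j, (fun (j : Fin 3) (y : E3) => if j ∈ S then zt r y ^ 2 else 1) j (x j) ∂pm := by
    unfold ip
    refine integral_congr_ae (Filter.Eventually.of_forall (fun x => ?_))
    simp only [ZS]
    rw [← Finset.prod_mul_distrib, ← Finset.prod_filter]
    simp only [Finset.filter_mem_eq_inter, Finset.univ_inter]
    refine Finset.prod_congr rfl (fun i _ => ?_)
    ring
  rw [h1]
  exact h_prod.2.2.2.1 (fun (j : Fin 3) (y : E3) => if j ∈ S then zt r y ^ 2 else 1)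

/-- the potential energy of a normalised function is controlled by its variance -/
lemma pot_bound (h_prod : S_prod) (h_bl : S_bl) {g0 M : ℝ} (hg0 : 0 < g0)
    (hM : 0 ≤ M) (hM0 : M ≤ g0 / 4) {U φ : X3 → ℝ} (hU : Measurable U) (hb : ∀ x, |U x| ≤ M)
    (hM1 : M ≤ 1) (hUz : ∫ x, U x ∂pm = 0) (hφ : BL φ) (hn : ip φ φ = 1) :
    0 ≤ 1 - (∫ x, φ x ∂pm) ^ 2 ∧
    |∫ x, U x * φ x * φ x ∂pm| ≤
      g0 / 2 * (1 - (∫ x, φ x ∂pm) ^ 2) + 4 / g0 * M ^ 2 := by
  have hpm : IsProbabilityMeasure pm := h_prod.1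
  set c := ∫ x, φ x ∂pm with hc
  have hφi : Integrable φ pm := (h_bl.2.2.1 φ hφ).2.1
  have hφ2 : Integrable (fun x => φ x * φ x) pm := int_mul h_bl hφ hφ
  have hUi : Integrable U pm := by
    refine Integrable.of_bound (C := M) hU.aestronglyMeasurable ?_
    exact Filter.Eventually.of_forall (fun x => by rw [Real.norm_eq_abs]; exact hb x)
  have hw : ∫ x, (φ x - c) ^ 2 ∂pm = 1 - c ^ 2 := by
    have h1 : (fun x => (φ x - c) ^ 2) = fun x => (φ x * φ x + (-(2 * c)) * φ x) + c ^ 2 := by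
      funext x
      ring
    have h2 : ∫ x, φ x * φ x ∂pm = 1 := hn
    have hi1 : Integrable (fun x => φ x * φ x + (-(2 * c)) * φ x) pm :=
      hφ2.add (hφi.const_mul _)
    rw [h1, integral_add hi1 (integrable_const _),
      integral_add hφ2 (hφi.const_mul _), integral_const_mul, h2, ← hc]
    simp
    ring
  have hwi : Integrable (fun x => (φ x - c) ^ 2) pm := by
    have h1 : (fun x => (φ x - c) ^ 2) = fun x => (φ x * φ x + (-(2 * c)) * φ x) + c ^ 2 := by
      funext x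
      ring
    rw [h1]
    exact (hφ2.add (hφi.const_mul _)).add (integrable_const _)
  have hw0 : 0 ≤ 1 - c ^ 2 := by
    rw [← hw]
    exact integral_nonneg (fun x => sq_nonneg _)
  refine ⟨hw0, ?_⟩
  have hc1 : |c| ≤ 1 := by
    rw [← sq_le_one_iff_abs_le_one]
    linarith
  have hb1 : ∀ x, |U x| ≤ 1 := fun x => (hb x).trans hM1
  have hUφφ := int_U h_bl hU hb1 hφ hφ
  have h1 : ∫ x, U x * φ x * φ x ∂pm = ∫ x, U x * ((φ x - c) ^ 2 + 2 * c * (φ x - c)) ∂pm := by
    have h2 : (fun x => U x * ((φ x - c) ^ 2 + 2 * c * (φ x - c)))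
        = fun x => U x * φ x * φ x + (-(c ^ 2)) * U x := by
      funext x
      ring
    rw [h2, integral_add hUφφ (hUi.const_mul _), integral_const_mul, hUz]
    ring
  rw [h1, ← Real.norm_eq_abs]
  have h3 : ‖∫ x, U x * ((φ x - c) ^ 2 + 2 * c * (φ x - c)) ∂pm‖ ≤
      ∫ x, (g0 / 2 * (φ x - c) ^ 2 + 4 / g0 * M ^ 2) ∂pm := by
    refine norm_integral_le_of_norm_le ((hwi.const_mul _).add (integrable_const _))
      (Filter.Eventually.of_forall (fun x => ?_))
    rw [Real.norm_eq_abs, abs_mul]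
    have h4 : |(φ x - c) ^ 2 + 2 * c * (φ x - c)| ≤ (φ x - c) ^ 2 + 2 * |φ x - c| := by
      refine (abs_add_le _ _).trans ?_
      rw [abs_of_nonneg (sq_nonneg (φ x - c)), abs_mul, abs_mul, abs_two]
      have : 2 * |c| * |φ x - c| ≤ 2 * |φ x - c| := by
        have h5 := abs_nonneg (φ x - c)
        nlinarith
      linarith
    have h5 : |U x| * |(φ x - c) ^ 2 + 2 * c * (φ x - c)| ≤
        M * ((φ x - c) ^ 2 + 2 * |φ x - c|) :=
      mul_le_mul (hb x) h4 (abs_nonneg _) hM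
    refine h5.trans ?_
    have h6 : M * (φ x - c) ^ 2 ≤ g0 / 4 * (φ x - c) ^ 2 :=
      mul_le_mul_of_nonneg_right hM0 (sq_nonneg _)
    have h7 : M * (2 * |φ x - c|) ≤ g0 / 4 * (φ x - c) ^ 2 + 4 / g0 * M ^ 2 := by
      have h8 : 0 ≤ (g0 / 4) * (|φ x - c| - 4 / g0 * M) ^ 2 := by positivity
      have h9 : (g0 / 4) * (|φ x - c| - 4 / g0 * M) ^ 2 =
          g0 / 4 * (φ x - c) ^ 2 - M * (2 * |φ x - c|) + 4 / g0 * M ^ 2 := by
        have : |φ x - c| ^ 2 = (φ x - c) ^ 2 := sq_abs _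
        rw [← this]
        field_simp
        ring
      linarith
    linarith
  refine h3.trans ?_
  rw [integral_add (hwi.const_mul _) (integrable_const _), integral_const_mul, hw]
  simp

end Apri

open Var Apri in
/-- **V2.** -/
theorem p_apri (h_hm : S_hm) (h_prod : S_prod) (h_bl : S_bl) (h_form : S_form)
    (h_pgap : S_pgap) : S_apri := by
  intro g0 hg
  have hg0 : 0 < g0 := hg.pos
  obtain ⟨C, hC0, hC⟩ := D1_zt h_hm
  -- choose r0 with C * exp (-r/4) ≤ 1/6
  have hlim : ∃ r0 : ℝ, 2 ≤ r0 ∧ ∀ r : ℝ, r0 ≤ r → C * Real.exp (-r / 4) ≤ 1 / 6 := by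
    refine ⟨max 2 (4 * (6 * C)), le_max_left _ _, fun r hr => ?_⟩
    have h1 : 6 * C ≤ r / 4 := by
      have := (le_max_right 2 (4 * (6 * C))).trans hr
      linarith
    have h2 : 6 * C ≤ Real.exp (r / 4) := by
      have := Real.add_one_le_exp (r / 4)
      linarith
    have h3 : Real.exp (-r / 4) = (Real.exp (r / 4))⁻¹ := by
      rw [← Real.exp_neg]
      congr 1
      ring
    rw [h3, ← div_eq_mul_inv, div_le_iff₀ (Real.exp_pos _)]
    linarith
  obtain ⟨r0, hr0, hr0'⟩ := hlim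
  refine ⟨2 * (6 * C + 1) * (1 + 4 / g0) * (1 + 1 / g0), g0 / 4, r0, ?_, by positivity,
    by linarith, ?_⟩
  · have h1 : 1 ≤ 1 + 4 / g0 := by
      have : 0 ≤ 4 / g0 := by positivity
      linarith
    have h2 : 1 ≤ 1 + 1 / g0 := by
      have : 0 ≤ 1 / g0 := by positivity
      linarith
    have h3 : 1 ≤ 2 * (6 * C + 1) := by linarith
    nlinarith [mul_le_mul h3 h1 zero_le_one (by linarith : (0 : ℝ) ≤ 2 * (6 * C + 1))]
  intro S r M U hS hr hM hM0 hU hb hUz hUZ
  have hr2 : 2 ≤ r := hr0.trans hr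
  have hrp : 0 < r := by linarith
  have hM1 : M ≤ 1 := by
    have := hg.le
    linarith
  have hb1 : ∀ x, |U x| ≤ 1 := fun x => (hb x).trans hM1
  obtain ⟨hm1, hquad, hex, -⟩ := p_var h_hm h_prod h_bl h_form S r U hS (by linarith) hU hb1
  set E := EE S r U with hE
  have hexp4 : 0 < Real.exp (-r / 4) := Real.exp_pos _
  -- upper bound
  have hup : E ≤ 6 * C * Real.exp (-r / 4) := by
    have h1 := hquad _ (ZS_box h_bl hrp S)
    have h2 : BB U (ZS S r) (ZS S r) = DD (ZS S r) (ZS S r) := by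
      unfold BB
      have h3 : ∫ x, U x * ZS S r x * ZS S r x ∂pm = 0 := by
        rw [← hUZ]
        refine integral_congr_ae (Filter.Eventually.of_forall (fun x => ?_))
        simp only
        ring
      rw [h3, add_zero]
    rw [h2] at h1
    have h4 := DD_ZS h_prod h_bl h_form hrp S
    have h5 := (hC r hr2).1
    have h6 : 1 / 2 ≤ ip (ZS S r) (ZS S r) := by
      rw [ip_ZS h_prod]
      have h7 : ∀ j : Fin 3, (5 : ℝ) / 6 ≤ ∫ y, (if j ∈ S then zt r y ^ 2 else 1) ∂hm := by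
        intro j
        have h8 := (hC r hr2).2 j S
        have h9 := hr0' r hr
        linarith
      have h10 : ∏ _j : Fin 3, (5 : ℝ) / 6 ≤
          ∏ j : Fin 3, ∫ y, (if j ∈ S then zt r y ^ 2 else 1) ∂hm :=
        Finset.prod_le_prod (fun _ _ => by norm_num) (fun j _ => h7 j)
      refine le_trans ?_ h10
      simp
      norm_num
    by_cases hEpos : E ≤ 0
    · have : 0 ≤ 6 * C * Real.exp (-r / 4) := by positivity
      linarith
    · push Not at hEpos
      have h11 : E * (1 / 2) ≤ E * ip (ZS S r) (ZS S r) := mul_le_mul_of_nonneg_left h6 hEpos.le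
      linarith
  -- the key estimate
  have key : ∀ φ, Box S r φ → ip φ φ = 1 →
      0 ≤ 1 - (∫ x, φ x ∂pm) ^ 2 ∧
      g0 * (1 - (∫ x, φ x ∂pm) ^ 2) ≤ DD φ φ ∧
      |∫ x, U x * φ x * φ x ∂pm| ≤
        g0 / 2 * (1 - (∫ x, φ x ∂pm) ^ 2) + 4 / g0 * M ^ 2 := by
    intro φ hφ hn
    have bφ := h_bl.2.2.2.1 S r φ hφ hrp hS
    obtain ⟨k1, k2⟩ := pot_bound h_prod h_bl hg0 hM hM0 hU hb hM1 hUz bφ hn
    have k3 := (h_pgap g0 hg S r φ hrp hS hφ).2.1
    rw [hn] at k3
    exact ⟨k1, k3, k2⟩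
  have hge : Real.exp (-r) ≤ Real.exp (-r / 4) := Real.exp_le_exp.2 (by linarith)
  have hM2 : 0 ≤ 4 / g0 * M ^ 2 := by positivity
  have hlow : -(4 / g0 * M ^ 2 + Real.exp (-r / 4)) ≤ E := by
    obtain ⟨f, hf, hn, hle⟩ := hex (Real.exp (-r / 4)) hexp4
    obtain ⟨k1, k2, k3⟩ := key f hf hn
    have k4 := (abs_le.1 k3).1
    unfold BB at hle
    have k5 : 0 ≤ g0 / 2 * (1 - (∫ x, f x ∂pm) ^ 2) := by positivity
    linarith
  have hc4 : 0 ≤ 4 / g0 := by positivity
  have hc1 : 0 ≤ 1 / g0 := by positivity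
  have hMsq : 0 ≤ M ^ 2 := sq_nonneg M
  -- 2 * (6C+1) * (M^2 * (4/g0) + exp) ≤ 2 (6C+1)(1+4/g0)(M^2+exp)
  have hA : 2 * (6 * C + 1) * (4 / g0 * M ^ 2 + Real.exp (-r / 4)) ≤
      2 * (6 * C + 1) * (1 + 4 / g0) * (M ^ 2 + Real.exp (-r / 4)) := by
    have h1 : 4 / g0 * M ^ 2 + Real.exp (-r / 4) ≤
        (1 + 4 / g0) * (M ^ 2 + Real.exp (-r / 4)) := by
      nlinarith [mul_nonneg hc4 hexp4.le]
    have h2 := mul_le_mul_of_nonneg_left h1 (by positivity : 0 ≤ 2 * (6 * C + 1))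
    linarith
  have hB : 2 * (6 * C + 1) * (1 + 4 / g0) * (M ^ 2 + Real.exp (-r / 4)) ≤
      2 * (6 * C + 1) * (1 + 4 / g0) * (1 + 1 / g0) * (M ^ 2 + Real.exp (-r / 4)) := by
    have h1 : 0 ≤ 2 * (6 * C + 1) * (1 + 4 / g0) := by positivity
    have h2 : 0 ≤ M ^ 2 + Real.exp (-r / 4) := by positivity
    have h3 : 0 ≤ 2 * (6 * C + 1) * (1 + 4 / g0) * (1 / g0) * (M ^ 2 + Real.exp (-r / 4)) := by
      positivity
    nlinarith
  have hBg : 1 / g0 * (2 * (6 * C + 1) * (4 / g0 * M ^ 2 + Real.exp (-r / 4))) ≤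
      2 * (6 * C + 1) * (1 + 4 / g0) * (1 + 1 / g0) * (M ^ 2 + Real.exp (-r / 4)) := by
    have h1 := mul_le_mul_of_nonneg_left hA hc1
    have h2 : 0 ≤ 2 * (6 * C + 1) * (1 + 4 / g0) * (M ^ 2 + Real.exp (-r / 4)) := by positivity
    nlinarith
  refine ⟨?_, ?_⟩
  · rw [abs_le]
    have hC6 : 0 ≤ 6 * C := by positivity
    constructor
    · have : 4 / g0 * M ^ 2 + Real.exp (-r / 4) ≤
          2 * (6 * C + 1) * (4 / g0 * M ^ 2 + Real.exp (-r / 4)) := by
        have h0 : 0 ≤ 4 / g0 * M ^ 2 + Real.exp (-r / 4) := by positivity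
        nlinarith
      linarith
    · have : 6 * C * Real.exp (-r / 4) ≤
          2 * (6 * C + 1) * (4 / g0 * M ^ 2 + Real.exp (-r / 4)) := by
        have h0 : 0 ≤ (6 * C + 1) * (4 / g0 * M ^ 2) := by positivity
        have h1 : 0 ≤ (6 * C + 1) * Real.exp (-r / 4) := by positivity
        nlinarith
      linarith
  · intro φ hφ
    obtain ⟨k1, k2, k3⟩ := key φ hφ.box hφ.norm
    have k4 := (abs_le.1 k3).1
    have k5 := hφ.le
    unfold BB at k5
    rw [← hE] at k5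
    have k6 : DD φ φ ≤ (6 * C + 1) * Real.exp (-r / 4) +
        g0 / 2 * (1 - (∫ x, φ x ∂pm) ^ 2) + 4 / g0 * M ^ 2 := by linarith
    have k7 : DD φ φ ≤ 2 * ((6 * C + 1) * Real.exp (-r / 4) + 4 / g0 * M ^ 2) := by linarith
    have k8 : DD φ φ ≤ 2 * (6 * C + 1) * (4 / g0 * M ^ 2 + Real.exp (-r / 4)) := by
      have h0 : 0 ≤ 6 * C * (4 / g0 * M ^ 2) := by positivity
      nlinarith
    have k9 : 1 - (∫ x, φ x ∂pm) ^ 2 ≤
        1 / g0 * (2 * (6 * C + 1) * (4 / g0 * M ^ 2 + Real.exp (-r / 4))) := by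
      rw [one_div, ← div_eq_inv_mul, le_div_iff₀ hg0]
      linarith
    exact ⟨k9.trans hBg, k8.trans (hA.trans hB)⟩

end MolDis.H
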