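import Pool.Agent.Lib.MP_59f35a_mp.HStmts

/-!
# MP_59f35a_mp : U3 (averages of the potentials)
-/

set_option autoImplicit false

noncomputable section

open MeasureTheory

namespace MolDis.H

namespace Avg

lemma norm_ec (c : Fin 3) : ‖ec c‖ = 1 := by
  unfold ec
  simp

lemma norm_smul_ec {b : ℝ} (hb : 0 ≤ b) : ‖b • ec 0‖ = b := by
  rw [norm_smul, norm_ec, mul_one, Real.norm_eq_abs, abs_of_nonneg hb]

lemma smul_ec_zero (b : ℝ) : (b • ec 0) 0 = b := by
  unfold ec
  simp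

/-- cut-off to the ball -/
def cb (r : ℝ) (g : E3 → ℝ) (y : E3) : ℝ := if ‖y‖ ≤ r then g y else 0

lemma cb_meas (r : ℝ) {g : E3 → ℝ} (hg : Continuous g) : Measurable (cb r g) :=
  Measurable.ite (measurableSet_le measurable_norm measurable_const) hg.measurable measurable_const

lemma cb_bdd (r : ℝ) {g : E3 → ℝ} (hg : Continuous g) : ∃ M : ℝ, 0 ≤ M ∧ ∀ y, |cb r g y| ≤ M := by
  obtain ⟨M, hM⟩ := (isCompact_closedBall (0 : E3) r).exists_bound_of_continuousOn hg.continuousOn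
  refine ⟨max M 0, le_max_right _ _, fun y => ?_⟩
  unfold cb
  split_ifs with h
  · exact (hM y (by simpa using h)).trans (le_max_left _ _)
  · simp

lemma cb_int (hhm : S_hm) (r : ℝ) {g : E3 → ℝ} (hg : Continuous g) : Integrable (cb r g) hm := by
  have := hhm.1
  obtain ⟨M, -, hM⟩ := cb_bdd r hg
  exact Integrable.of_bound (cb_meas r hg).aestronglyMeasurable M
    (Filter.Eventually.of_forall fun y => by rw [Real.norm_eq_abs]; exact hM y)

lemma cb_int_inv (hhm : S_hm) (r : ℝ) {g : E3 → ℝ} (hg : Continuous g) (B : E3) (hB : r < ‖B‖) :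
    Integrable (fun y => cb r g y * ‖B + y‖⁻¹) hm := by
  have := hhm.1
  obtain ⟨M, hM0, hM⟩ := cb_bdd r hg
  refine Integrable.of_bound (((cb_meas r hg).mul
    ((measurable_const.add measurable_id).norm.inv)).aestronglyMeasurable) (M * (‖B‖ - r)⁻¹)
    (Filter.Eventually.of_forall fun y => ?_)
  rw [Real.norm_eq_abs, abs_mul, abs_inv, abs_norm]
  by_cases h : ‖y‖ ≤ r
  · refine mul_le_mul (hM y) ?_ (by positivity) hM0
    refine inv_anti₀ (by linarith) ?_
    have h1 : ‖B‖ ≤ ‖B + y‖ + ‖y‖ := by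
      have := norm_sub_le (B + y) y
      rwa [add_sub_cancel_right] at this
    linarith
  · have h0 : cb r g y = 0 := by unfold cb; rw [if_neg h]
    rw [h0, abs_zero, zero_mul]
    have : 0 < ‖B‖ - r := by linarith
    positivity

lemma cb_odd (hhm : S_hm) (r : ℝ) (k : ℝ → ℝ) : ∫ y, cb r (fun y => k ‖y‖ * y 0) y ∂hm = 0 := by
  have h := (hhm.2.2.2.2.2.2 (LinearIsometryEquiv.neg ℝ)).integral_comp'
    (g := cb r (fun y => k ‖y‖ * y 0)) (f := (LinearIsometryEquiv.neg ℝ (E := E3)).toMeasurableEquiv)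
  have h2 : ∀ y : E3, cb r (fun y => k ‖y‖ * y 0) ((LinearIsometryEquiv.neg ℝ (E := E3)).toMeasurableEquiv y)
      = - cb r (fun y => k ‖y‖ * y 0) y := by
    intro y
    have e : (LinearIsometryEquiv.neg ℝ (E := E3)).toMeasurableEquiv y = -y := rfl
    rw [e]
    unfold cb
    rw [norm_neg]
    split_ifs
    · have : (-y) 0 = - (y 0) := rfl
      beta_reduce
      rw [this, norm_neg]; ring
    · simp
  simp only [h2] at h
  rw [integral_neg] at h
  linarith

lemma pv_neg (b x y : E3) : pv b y x = pv (-b) x y := by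
  unfold pv
  have e1 : ‖b + x - y‖ = ‖-b + y - x‖ := by
    rw [← norm_neg]; congr 1; abel
  have e2 : ‖b + x‖ = ‖-b - x‖ := by
    rw [← norm_neg]; congr 1; abel
  have e3 : ‖b - y‖ = ‖-b + y‖ := by
    rw [← norm_neg]; congr 1; abel
  rw [e1, e2, e3, norm_neg]
  ring

lemma newton_pv (hN : S_newton) (hhm : S_hm) {r : ℝ} (hr : 0 < r) {b x : E3} (hb : 2 * r < ‖b‖)
    (hx : ‖x‖ ≤ r) {k : ℝ → ℝ} (hk : Continuous k) :
    ∫ y, cb r (fun y => k ‖y‖) y * pv b x y ∂hm = 0 := by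
  have hk' : Continuous (fun y : E3 => k ‖y‖) := hk.comp continuous_norm
  have hB : r < ‖b - x‖ := by
    have := norm_sub_norm_le b x
    linarith
  have hb' : r < ‖b‖ := by linarith
  have h1 := (hN r (b - x) k hr hB hk).1
  have h2 := (hN r b k hr hb' hk).1
  have i1 := cb_int_inv hhm r hk' (b - x) hB
  have i2 := cb_int_inv hhm r hk' b hb'
  have i3 := cb_int hhm r hk'
  have e : (fun y => cb r (fun y => k ‖y‖) y * pv b x y) = fun y =>
      (cb r (fun y => k ‖y‖) y * ‖b - x + y‖⁻¹ - cb r (fun y => k ‖y‖) y * ‖b + y‖⁻¹)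
        - (‖b - x‖⁻¹ - ‖b‖⁻¹) * cb r (fun y => k ‖y‖) y := by
    funext y
    unfold pv
    have e1 : b + y - x = b - x + y := by abel
    rw [e1]
    ring
  have i12 : Integrable (fun y => cb r (fun y => k ‖y‖) y * ‖b - x + y‖⁻¹
      - cb r (fun y => k ‖y‖) y * ‖b + y‖⁻¹) hm := i1.sub i2
  rw [e, integral_sub i12 (i3.const_mul _), integral_sub i1 i2, integral_const_mul]
  have h1' : ∫ y, cb r (fun y => k ‖y‖) y * ‖b - x + y‖⁻¹ ∂hm =
    ‖b - x‖⁻¹ * ∫ y, cb r (fun y => k ‖y‖) y ∂hm := h1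
  have h2' : ∫ y, cb r (fun y => k ‖y‖) y * ‖b + y‖⁻¹ ∂hm =
    ‖b‖⁻¹ * ∫ y, cb r (fun y => k ‖y‖) y ∂hm := h2
  rw [h1', h2']
  ring

lemma newton_pv1 (hN : S_newton) (hhm : S_hm) {r : ℝ} (hr : 0 < r) {b x : E3} (hb : 2 * r < ‖b‖)
    (hx : ‖x‖ ≤ r) {k : ℝ → ℝ} (hk : Continuous k) :
    ∫ y, cb r (fun y => k ‖y‖ * y 0) y * pv b x y ∂hm =
      -((b - x) 0 / ‖b - x‖ ^ 3 - b 0 / ‖b‖ ^ 3) * ∫ y, cb r (fun y => k ‖y‖ * y 0 ^ 2) y ∂hm ∧
    Integrable (fun y => cb r (fun y => k ‖y‖ * y 0) y * pv b x y) hm := by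
  have hk' : Continuous (fun y : E3 => k ‖y‖ * y 0) := by
    refine (hk.comp continuous_norm).mul ?_
    fun_prop
  have hB : r < ‖b - x‖ := by
    have := norm_sub_norm_le b x
    linarith
  have hb' : r < ‖b‖ := by linarith
  have h1 := (hN r (b - x) k hr hB hk).2
  have h2 := (hN r b k hr hb' hk).2
  have i1 := cb_int_inv hhm r hk' (b - x) hB
  have i2 := cb_int_inv hhm r hk' b hb'
  have i3 := cb_int hhm r hk'
  have e : (fun y => cb r (fun y => k ‖y‖ * y 0) y * pv b x y) = fun y =>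
      (cb r (fun y => k ‖y‖ * y 0) y * ‖b - x + y‖⁻¹ - cb r (fun y => k ‖y‖ * y 0) y * ‖b + y‖⁻¹)
        - (‖b - x‖⁻¹ - ‖b‖⁻¹) * cb r (fun y => k ‖y‖ * y 0) y := by
    funext y
    unfold pv
    have e1 : b + y - x = b - x + y := by abel
    rw [e1]
    ring
  refine ⟨?_, by rw [e]; exact (i1.sub i2).sub (i3.const_mul _)⟩
  have i12 : Integrable (fun y => cb r (fun y => k ‖y‖ * y 0) y * ‖b - x + y‖⁻¹
      - cb r (fun y => k ‖y‖ * y 0) y * ‖b + y‖⁻¹) hm := i1.sub i2
  rw [e, integral_sub i12 (i3.const_mul _), integral_sub i1 i2, integral_const_mul,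
    cb_odd hhm]
  have h1' : ∫ y, cb r (fun y => k ‖y‖ * y 0) y * ‖b - x + y‖⁻¹ ∂hm =
    -((b - x) 0 / ‖b - x‖ ^ 3) * ∫ y, cb r (fun y => k ‖y‖ * y 0 ^ 2) y ∂hm := h1
  have h2' : ∫ y, cb r (fun y => k ‖y‖ * y 0) y * ‖b + y‖⁻¹ ∂hm =
    -(b 0 / ‖b‖ ^ 3) * ∫ y, cb r (fun y => k ‖y‖ * y 0 ^ 2) y ∂hm := h2
  rw [h1', h2']
  ring

lemma newton_pv_int (hhm : S_hm) {r : ℝ} {b x : E3} (hb : 2 * r < ‖b‖) (hr : 0 < r)
    (hx : ‖x‖ ≤ r) {k : ℝ → ℝ} (hk : Continuous k) :
    Integrable (fun y => cb r (fun y => k ‖y‖) y * pv b x y) hm := by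
  have hk' : Continuous (fun y : E3 => k ‖y‖) := hk.comp continuous_norm
  have hB : r < ‖b - x‖ := by
    have := norm_sub_norm_le b x
    linarith
  have hb' : r < ‖b‖ := by linarith
  have i1 := cb_int_inv hhm r hk' (b - x) hB
  have i2 := cb_int_inv hhm r hk' b hb'
  have i3 := cb_int hhm r hk'
  have e : (fun y => cb r (fun y => k ‖y‖) y * pv b x y) = fun y =>
      (cb r (fun y => k ‖y‖) y * ‖b - x + y‖⁻¹ - cb r (fun y => k ‖y‖) y * ‖b + y‖⁻¹)
        - (‖b - x‖⁻¹ - ‖b‖⁻¹) * cb r (fun y => k ‖y‖) y := by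
    funext y
    unfold pv
    have e1 : b + y - x = b - x + y := by abel
    rw [e1]
    ring
  rw [e]
  exact (i1.sub i2).sub (i3.const_mul _)

/-! ### slices of the potentials -/

lemma V12_upd1 (r a : ℝ) (k : ℝ → ℝ) (x : X3) (y : E3) :
    k ‖y‖ * V12 r a (Function.update x 1 y) =
      if ‖x 0‖ ≤ r then cb r (fun y => k ‖y‖) y * pv (a • ec 0) (x 0) y else 0 := by
  unfold V12 cb
  have e0 : Function.update x 1 y 0 = x 0 := Function.update_of_ne (by decide) _ _
  have e1 : Function.update x 1 y 1 = y := Function.update_self _ _ _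
  rw [e0, e1]
  by_cases h0 : ‖x 0‖ ≤ r <;> by_cases h1 : ‖y‖ ≤ r <;> simp [h0, h1]

lemma V12_upd0 (r a : ℝ) (k : ℝ → ℝ) (x : X3) (y : E3) :
    k ‖y‖ * V12 r a (Function.update x 0 y) =
      if ‖x 1‖ ≤ r then cb r (fun y => k ‖y‖) y * pv (-(a • ec 0)) (x 1) y else 0 := by
  unfold V12 cb
  have e0 : Function.update x 0 y 0 = y := Function.update_self _ _ _
  have e1 : Function.update x 0 y 1 = x 1 := Function.update_of_ne (by decide) _ _
  rw [e0, e1, pv_neg]
  by_cases h0 : ‖x 1‖ ≤ r <;> by_cases h1 : ‖y‖ ≤ r <;> simp [h0, h1]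

lemma W3_upd (r a l : ℝ) (g : E3 → ℝ) (x : X3) (y : E3) :
    g y * W3 r a l (Function.update x 2 y) =
      if ‖x 0‖ ≤ r ∧ ‖x 1‖ ≤ r then
        cb r g y * pv ((l + a / 2) • ec 0) (x 0) y + cb r g y * pv ((l - a / 2) • ec 0) (x 1) y
      else 0 := by
  unfold W3 cb
  have e0 : Function.update x 2 y 0 = x 0 := Function.update_of_ne (by decide) _ _
  have e1 : Function.update x 2 y 1 = x 1 := Function.update_of_ne (by decide) _ _
  have e2 : Function.update x 2 y 2 = y := Function.update_self _ _ _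
  have h : (∀ j, ‖Function.update x 2 y j‖ ≤ r) ↔ (‖x 0‖ ≤ r ∧ ‖x 1‖ ≤ r) ∧ ‖y‖ ≤ r := by
    constructor
    · intro h
      have h0 := h 0
      have h1 := h 1
      have h2 := h 2
      rw [e0] at h0
      rw [e1] at h1
      rw [e2] at h2
      exact ⟨⟨h0, h1⟩, h2⟩
    · rintro ⟨⟨h0, h1⟩, h2⟩ j
      fin_cases j
      · change ‖Function.update x 2 y 0‖ ≤ r
        rw [e0]; exact h0
      · change ‖Function.update x 2 y 1‖ ≤ r
        rw [e1]; exact h1
      · change ‖Function.update x 2 y 2‖ ≤ r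
        rw [e2]; exact h2
  rw [e0, e1, e2, if_congr h rfl rfl]
  by_cases h0 : ‖x 0‖ ≤ r ∧ ‖x 1‖ ≤ r <;> by_cases h1 : ‖y‖ ≤ r <;> simp [h0, h1, mul_add]

/-! ### cut-offs -/

lemma zt_meas (r : ℝ) : Measurable (zt r) := by
  unfold zt
  fun_prop

lemma zt_nonneg (r : ℝ) (x : E3) : 0 ≤ zt r x := le_max_left _ _

lemma zt_le (r : ℝ) (x : E3) : zt r x ≤ 1 := max_le zero_le_one (min_le_left _ _)

/-- the radial profile of `zt ^ 2` -/
def kz (r t : ℝ) : ℝ := (max 0 (min 1 (2 - 2 * t / r))) ^ 2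

lemma kz_cont (r : ℝ) : Continuous (kz r) := by
  unfold kz
  fun_prop

lemma kz_eq (r : ℝ) (x : E3) : kz r ‖x‖ = zt r x ^ 2 := rfl

lemma ZS_meas (S : Finset (Fin 3)) (r : ℝ) : Measurable (ZS S r) := by
  unfold ZS
  exact Finset.measurable_prod _ fun j _ => (zt_meas r).comp (measurable_pi_apply j)

lemma ZS_nonneg (S : Finset (Fin 3)) (r : ℝ) (x : X3) : 0 ≤ ZS S r x :=
  Finset.prod_nonneg fun _ _ => zt_nonneg r _

lemma ZS_le (S : Finset (Fin 3)) (r : ℝ) (x : X3) : ZS S r x ≤ 1 :=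
  Finset.prod_le_one (fun _ _ => zt_nonneg r _) fun _ _ => zt_le r _

lemma ZS2 (r : ℝ) (x : X3) : ZS S2 r x = zt r (x 0) * zt r (x 1) := by
  unfold ZS S2
  rw [Finset.prod_pair (by decide)]

lemma ZS3 (r : ℝ) (x : X3) : ZS S3 r x = zt r (x 0) * zt r (x 1) * zt r (x 2) := by
  unfold ZS S3
  rw [Fin.prod_univ_three]

end Avg

open Avg

theorem p_avg (hN : S_newton) (hhm : S_hm) (hprod : S_prod) (hbd : S_bounds) : S_avg := by
  intro r a l hr1 hra hal
  have hr : 0 < r := by linarith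
  have ha0 : 0 ≤ a := by linarith
  have hba : 2 * r < ‖a • ec 0‖ := by rw [norm_smul_ec ha0]; linarith
  have hba' : 2 * r < ‖-(a • ec 0)‖ := by rwa [norm_neg]
  have hp0 : 0 ≤ l + a / 2 := by linarith
  have hm0 : 0 ≤ l - a / 2 := by linarith
  have hbp : 2 * r < ‖(l + a / 2) • ec 0‖ := by rw [norm_smul_ec hp0]; linarith
  have hbm : 2 * r < ‖(l - a / 2) • ec 0‖ := by rw [norm_smul_ec hm0]; linarith
  have H1 : ∀ (k : ℝ → ℝ) (x : X3) (j : Fin 3), Continuous k → (j = 0 ∨ j = 1) →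
      ∫ y, k ‖y‖ * V12 r a (Function.update x j y) ∂hm = 0 := by
    intro k x j hk hj
    rcases hj with rfl | rfl
    · simp only [V12_upd0]
      by_cases h : ‖x 1‖ ≤ r
      · simp only [if_pos h]
        exact newton_pv hN hhm hr hba' h hk
      · simp only [if_neg h, integral_zero]
    · simp only [V12_upd1]
      by_cases h : ‖x 0‖ ≤ r
      · simp only [if_pos h]
        exact newton_pv hN hhm hr hba h hk
      · simp only [if_neg h, integral_zero]
  have H2 : ∀ (k : ℝ → ℝ) (x : X3), Continuous k →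
      ∫ y, k ‖y‖ * W3 r a l (Function.update x 2 y) ∂hm = 0 := by
    intro k x hk
    have e : ∀ y : E3, k ‖y‖ * W3 r a l (Function.update x 2 y) = _ :=
      fun y => W3_upd r a l (fun y => k ‖y‖) x y
    simp only [e]
    by_cases h : ‖x 0‖ ≤ r ∧ ‖x 1‖ ≤ r
    · simp only [if_pos h]
      rw [integral_add (newton_pv_int hhm hbp hr h.1 hk) (newton_pv_int hhm hbm hr h.2 hk),
        newton_pv hN hhm hr hbp h.1 hk, newton_pv hN hhm hr hbm h.2 hk, add_zero]
    · simp only [if_neg h, integral_zero]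
  obtain ⟨C, hC, hB⟩ := hbd
  obtain ⟨mV, mW, bV, -, bW, -⟩ := hB r a l hr1 hra hal
  have := hprod.1
  obtain ⟨-, -, hP, -, -, -⟩ := hprod
  -- integrability of bounded functions times the potentials
  have hint : ∀ (F G : X3 → ℝ) (B : ℝ), Measurable F → Measurable G → (∀ x, |F x| ≤ B) →
      (∀ x, |G x| ≤ 1) → Integrable (fun x => F x * G x) pm := by
    intro F G B mF mG bF bG
    refine Integrable.of_bound (mF.mul mG).aestronglyMeasurable B
      (Filter.Eventually.of_forall fun x => ?_)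
    rw [Real.norm_eq_abs, abs_mul]
    calc |F x| * |G x| ≤ |F x| * 1 := by gcongr; exact bG x
      _ ≤ B := by rw [mul_one]; exact bF x
  have hZ : ∀ (S : Finset (Fin 3)) x, |ZS S r x ^ 2| ≤ 1 := fun S x => by
    rw [abs_of_nonneg (sq_nonneg _)]
    exact pow_le_one₀ (ZS_nonneg S r x) (ZS_le S r x)
  have h1 : ∀ x : X3, |(1 : ℝ)| ≤ 1 := fun _ => by simp
  have iV := hint (V12 r a) (fun _ => 1) _ mV measurable_const bV h1
  have iW := hint (W3 r a l) (fun _ => 1) _ mW measurable_const bW h1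
  simp only [mul_one] at iV iW
  have iV2 := hint (V12 r a) (fun x => ZS S2 r x ^ 2) _ mV ((ZS_meas S2 r).pow_const 2) bV (hZ S2)
  have iV3 := hint (V12 r a) (fun x => ZS S3 r x ^ 2) _ mV ((ZS_meas S3 r).pow_const 2) bV (hZ S3)
  have iW3 := hint (W3 r a l) (fun x => ZS S3 r x ^ 2) _ mW ((ZS_meas S3 r).pow_const 2) bW (hZ S3)
  have zero_of : ∀ (j : Fin 3) (F : X3 → ℝ), Integrable F pm →
      (∀ x, ∫ y, F (Function.update x j y) ∂hm = 0) → ∫ x, F x ∂pm = 0 := by
    intro j F hF h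
    rw [← (hP j F hF).2.2]
    have : Pj j F = fun _ => 0 := by
      funext x
      exact h x
    rw [this, integral_zero]
  have JV : ∫ x, V12 r a x ∂pm = 0 := by
    refine zero_of 1 _ iV fun x => ?_
    have := H1 (fun _ => 1) x 1 continuous_const (Or.inr rfl)
    simpa using this
  have JW : ∫ x, W3 r a l x ∂pm = 0 := by
    refine zero_of 2 _ iW fun x => ?_
    have := H2 (fun _ => 1) x continuous_const
    simpa using this
  have JV2 : ∫ x, V12 r a x * ZS S2 r x ^ 2 ∂pm = 0 := by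
    refine zero_of 1 _ iV2 fun x => ?_
    have h := H1 (kz r) x 1 (kz_cont r) (Or.inr rfl)
    have e : ∀ y : E3, V12 r a (Function.update x 1 y) * ZS S2 r (Function.update x 1 y) ^ 2 =
        zt r (x 0) ^ 2 * (kz r ‖y‖ * V12 r a (Function.update x 1 y)) := by
      intro y
      have e0 : Function.update x 1 y 0 = x 0 := Function.update_of_ne (by decide) _ _
      have e1 : Function.update x 1 y 1 = y := Function.update_self _ _ _
      rw [ZS2, e0, e1, kz_eq]
      ring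
    simp only [e]
    rw [integral_const_mul, h, mul_zero]
  have JV3 : ∫ x, V12 r a x * ZS S3 r x ^ 2 ∂pm = 0 := by
    refine zero_of 1 _ iV3 fun x => ?_
    have h := H1 (kz r) x 1 (kz_cont r) (Or.inr rfl)
    have e : ∀ y : E3, V12 r a (Function.update x 1 y) * ZS S3 r (Function.update x 1 y) ^ 2 =
        (zt r (x 0) * zt r (x 2)) ^ 2 * (kz r ‖y‖ * V12 r a (Function.update x 1 y)) := by
      intro y
      have e0 : Function.update x 1 y 0 = x 0 := Function.update_of_ne (by decide) _ _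
      have e1 : Function.update x 1 y 1 = y := Function.update_self _ _ _
      have e2 : Function.update x 1 y 2 = x 2 := Function.update_of_ne (by decide) _ _
      rw [ZS3, e0, e1, e2, kz_eq]
      ring
    simp only [e]
    rw [integral_const_mul, h, mul_zero]
  have JW3 : ∫ x, W3 r a l x * ZS S3 r x ^ 2 ∂pm = 0 := by
    refine zero_of 2 _ iW3 fun x => ?_
    have h := H2 (kz r) x (kz_cont r)
    have e : ∀ y : E3, W3 r a l (Function.update x 2 y) * ZS S3 r (Function.update x 2 y) ^ 2 =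
        (zt r (x 0) * zt r (x 1)) ^ 2 * (kz r ‖y‖ * W3 r a l (Function.update x 2 y)) := by
      intro y
      have e0 : Function.update x 2 y 0 = x 0 := Function.update_of_ne (by decide) _ _
      have e1 : Function.update x 2 y 1 = x 1 := Function.update_of_ne (by decide) _ _
      have e2 : Function.update x 2 y 2 = y := Function.update_self _ _ _
      rw [ZS3, e0, e1, e2, kz_eq]
      ring
    simp only [e]
    rw [integral_const_mul, h, mul_zero]
  refine ⟨H1, H2, ?_, JV, ?_, JV2, ?_⟩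
  · intro k x hk hx0 hx1
    have e : ∀ y : E3, k ‖y‖ * y 0 * W3 r a l (Function.update x 2 y) = _ :=
      fun y => W3_upd r a l (fun y => k ‖y‖ * y 0) x y
    simp only [e, if_pos (And.intro hx0 hx1)]
    obtain ⟨p1, i1⟩ := newton_pv1 hN hhm hr hbp hx0 hk
    obtain ⟨p2, i2⟩ := newton_pv1 hN hhm hr hbm hx1 hk
    rw [integral_add i1 i2, p1, p2, norm_smul_ec hp0, norm_smul_ec hm0]
    have c1 : ((l + a / 2) • ec 0 - x 0) 0 = l + a / 2 - x 0 0 := by
      rw [PiLp.sub_apply, smul_ec_zero]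
    have c2 : ((l - a / 2) • ec 0 - x 1) 0 = l - a / 2 - x 1 0 := by
      rw [PiLp.sub_apply, smul_ec_zero]
    rw [c1, c2, smul_ec_zero, smul_ec_zero]
    have hp : l + a / 2 ≠ 0 := by
      have : 0 < l + a / 2 := by linarith
      exact this.ne'
    have hm' : l - a / 2 ≠ 0 := by
      have : 0 < l - a / 2 := by linarith
      exact this.ne'
    have q1 : (l + a / 2) / (l + a / 2) ^ 3 = 1 / (l + a / 2) ^ 2 := by
      field_simp
    have q2 : (l - a / 2) / (l - a / 2) ^ 3 = 1 / (l - a / 2) ^ 2 := by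
      field_simp
    rw [q1, q2]
    unfold cb
    ring
  · unfold U3
    rw [integral_add iV iW, JV, JW, add_zero]
  · have e : ∀ x, U3 r a l x * ZS S3 r x ^ 2 =
        V12 r a x * ZS S3 r x ^ 2 + W3 r a l x * ZS S3 r x ^ 2 := by
      intro x
      unfold U3
      ring
    simp only [e]
    rw [integral_add iV3 iW3, JV3, JW3, add_zero]

end MolDis.H
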