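import Pool.Agent.Lib.MP_59f35a_mp.HStmts
import Pool.Agent.Lib.MP_59f35a_mp.CompSec

/-!
# MP_59f35a_mp : F3 (bad sectors of the three atoms)
-/

set_option autoImplicit false

noncomputable section

open MeasureTheory

namespace MolDis.H

namespace Bad

open MolDis.FarLower MolDis.CompSec

lemma pot_cl {ι : Type} [Fintype ι] (z : Fin 3 → E3) (X : ι → Om) :
    pot (cl z (fun (_ : Fin 3) (_ : Fin 1) => (0 : E3))) X = pot z X := by
  unfold pot attr repNN cl
  simp [Fintype.sum_sigma]

lemma yv_dist (a l : ℝ) (ha : 0 < a) (hl : 2 * a ≤ l) (k k' : Fin 3) (h : k ≠ k') :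
    a ≤ ‖yv a l k - yv a l k'‖ := by
  have key : ∀ s t : ℝ, ‖s • ec 0 - t • ec 0‖ = |s - t| := by
    intro s t
    rw [← sub_smul, norm_smul, Real.norm_eq_abs]
    unfold ec
    rw [PiLp.norm_single]
    simp
  have h01 : |(-(a / 2)) - a / 2| = a := by
    rw [abs_of_neg (by linarith)]; ring
  have h02 : |(-(a / 2)) - l| = l + a / 2 := by
    rw [abs_of_neg (by linarith)]; ring
  have h12 : |a / 2 - l| = l - a / 2 := by
    rw [abs_of_neg (by linarith)]; ring
  have h10 : |a / 2 - (-(a / 2))| = a := by rw [abs_sub_comm]; exact h01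
  have h20 : |l - (-(a / 2))| = l + a / 2 := by rw [abs_sub_comm]; exact h02
  have h21 : |l - a / 2| = l - a / 2 := by rw [abs_sub_comm]; exact h12
  fin_cases k <;> fin_cases k' <;> simp only [yv] at h ⊢ <;>
    first
    | exact absurd rfl h
    | (simp only [Fin.zero_eta, Fin.mk_one, Fin.reduceFinMk, Matrix.cons_val_zero,
        Matrix.cons_val_one, Matrix.cons_val, key]
       first
       | rw [h01]
       | rw [h10]
       | (rw [h02]; linarith)
       | (rw [h12]; linarith)
       | (rw [h20]; linarith)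
       | (rw [h21]; linarith))

/-- energies of one cluster -/
lemma one_cluster (h_en : S_en) (h_en2 : S_en2) (n : ℕ) :
    -(1 / 4 : ℝ) * n + (if 2 ≤ n then (En 2 Hy + 1 / 2) / 2 * n else 0) ≤
      En n (fun _ : Fin 1 => (0 : E3)) := by
  obtain ⟨-, -, -, en_d, -, en_f⟩ := h_en
  obtain ⟨-, e1, e2⟩ := h_en2
  have h1 : En n (fun _ : Fin 1 => (0 : E3)) = En n Hy :=
    en_d (Fin 1) Unit (Equiv.ofUnique (Fin 1) Unit) Hy n
  rw [h1]
  match n with
  | 0 =>
    rw [en_f Unit Hy]
    unfold repNN Hy cou
    simp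
  | 1 =>
    rw [e1]
    norm_num
  | (m + 2) =>
    have h2 := e2 (m + 2) (by omega)
    rw [if_pos (by omega)]
    linarith

lemma sum_low (h_en : S_en) (h_en2 : S_en2) (n : Fin 3 → ℕ) :
    -(1 / 4 : ℝ) * (∑ k, n k : ℕ) +
      ∑ k, (if 2 ≤ n k then (En 2 Hy + 1 / 2) / 2 * (n k : ℝ) else 0) ≤
      ∑ k, En (n k) (fun _ : Fin 1 => (0 : E3)) := by
  push_cast
  rw [Finset.mul_sum, ← Finset.sum_add_distrib]
  exact Finset.sum_le_sum fun k _ => one_cluster h_en h_en2 (n k)

/-- lower bound of any sector -/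
lemma sec_bound (h_slice : S_slice) (h_ims : S_ims) (h_cut : S_cut) (h_lc : S_lc) (h_adm : S_adm)
    (h_en : S_en) (N : ℕ) (r a l : ℝ) (hr : 2 ≤ r) (ha : r ^ 4 ≤ a) (hl : 2 * a ≤ l)
    (α : Fin N → Option (Fin 3)) (ψ : (Fin N → Om) → ℝ) (hψ : WF ψ) :
    ((∑ k, En (Fintype.card {j // α j = some k}) (fun _ : Fin 1 => (0 : E3))) - 6 * N / r) *
      nsq (sector (cellPU r (yv a l)) α ψ) ≤ Qf (yv a l) (sector (cellPU r (yv a l)) α ψ) := by
  have hr0 : 0 < r := by linarith
  have har : 8 * r ≤ a := by
    refine le_trans ?_ ha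
    have : (8 : ℝ) ≤ r ^ 3 := by
      calc (8 : ℝ) = 2 ^ 3 := by norm_num
        _ ≤ r ^ 3 := pow_le_pow_left₀ (by norm_num) hr 3
    calc 8 * r ≤ r ^ 3 * r := mul_le_mul_of_nonneg_right this hr0.le
      _ = r ^ 4 := by ring
  have ha0 : 0 < a := by linarith
  have hz := yv_dist a l ha0 hl
  obtain ⟨hPU, hin, hout, -, -, -, -⟩ := h_cut (Fin 3) r (yv a l) hr0
    (fun k k' h => by have := hz k k' h; linarith)
  obtain ⟨i1, -, -, -, -, -⟩ := h_ims (Fin N) (Option (Fin 3)) (cellPU r (yv a l)) ψ hPU hψ.toLC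
  have hlow := sector_low h_slice h_lc h_adm h_en (fun _ : Fin 3 => 1) (fun _ _ => (0 : E3))
    (yv a l) (cellPU r (yv a l)) α ψ hψ.anti (i1 α)
  set Φ := sector (cellPU r (yv a l)) α ψ with hΦ
  have hsA : AdmW (fun X : Fin N → Om => ∑ k : Fin 3, pot (fun m : Fin 1 => yv a l k + (0 : E3))
      (fun j : {j // α j = some k} => X j.1)) :=
    adm_sum h_adm _ (fun k X => pot (fun m : Fin 1 => yv a l k + (0 : E3))
      (fun j : {j // α j = some k} => X j.1)) fun k _ =>
        adm_restr h_adm (fun j => α j = some k) (fun m : Fin 1 => yv a l k + (0 : E3))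
  have hpA : AdmW (pot (ι := Fin N) (yv a l)) :=
    ((h_adm (Fin N)).2.2.2.2.2.2.1 _ (yv a l)).2.2
  have h1 := expv_mono h_lc Φ (i1 α)
    (fun X => (∑ k : Fin 3, pot (fun m : Fin 1 => yv a l k + (0 : E3))
      (fun j : {j // α j = some k} => X j.1)) + -(6 * N / r))
    (pot (yv a l)) ((h_adm _).2.1 _ _ hsA (adm_const h_adm _)) hpA ?_
  · rw [expv_add h_lc Φ (i1 α) _ _ hsA (adm_const h_adm _), expv_const] at h1
    unfold Qf
    linarith
  · intro X hX
    have hsupp : ∀ j, cellPU r (yv a l) (α j) (X j).1 ≠ 0 := by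
      intro j hj
      apply hX
      rw [hΦ]
      unfold sector
      rw [Finset.prod_eq_zero (Finset.mem_univ j) hj, zero_mul]
    have hc : ∀ (j : Fin N) (k : Fin 3) (m : Fin 1), α j ≠ some k →
        cou (X j).1 (yv a l k + (0 : E3)) ≤ 16 / (8 * r) := by
      intro j k m hjk
      have hθj := hsupp j
      have hdist : r / 2 ≤ ‖(X j).1 - (yv a l k + (0 : E3))‖ := by
        rw [add_zero]
        cases hα : α j with
        | none =>
          rw [hα] at hθj
          exact (hout _ hθj k).le
        | some k' =>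
          rw [hα] at hθj hjk
          have hk : k' ≠ k := fun h => hjk (by rw [h])
          have h1 := hin k' _ hθj
          have h2 := hz k' k hk
          have h3 : ‖yv a l k' - yv a l k‖ ≤ ‖(X j).1 - yv a l k'‖ + ‖(X j).1 - yv a l k‖ := by
            have : yv a l k' - yv a l k = -((X j).1 - yv a l k') + ((X j).1 - yv a l k) := by abel
            rw [this]
            refine (norm_add_le _ _).trans ?_
            rw [norm_neg]
          linarith
      unfold cou
      calc ‖(X j).1 - (yv a l k + (0 : E3))‖⁻¹ ≤ (r / 2)⁻¹ := inv_anti₀ (by positivity) hdist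
        _ = 16 / (8 * r) := by field_simp; norm_num
    have h2 := pot_lower (fun _ : Fin 3 => 1) (fun _ _ => (0 : E3)) (yv a l) (8 * r)
      (by positivity) α X hc
    have h3 : (16 : ℝ) * Fintype.card (Fin N) * ((∑ k : Fin 3, 1 : ℕ) : ℝ) / (8 * r) =
        6 * N / r := by
      simp only [Fintype.card_fin, Finset.sum_const, Finset.card_univ, smul_eq_mul]
      push_cast
      field_simp
      ring
    rw [h3, pot_cl] at h2
    linarith

end Bad

open Bad in
theorem p_bad (h_slice : S_slice) (h_ims : S_ims) (h_cut : S_cut) (h_lc : S_lc) (h_adm : S_adm)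
    (h_en : S_en) (h_en2 : S_en2) : S_bad := by
  intro hE
  have hE4 : En 2 Hy ≤ -1 / 4 := by
    have := h_en2.1 Unit Hy 1
    rw [h_en2.2.1] at this
    exact this
  set g : ℝ := En 2 Hy + 1 / 2 with hg
  have hg0 : 0 < g := by rw [hg]; linarith
  have hg1 : g ≤ 1 / 4 := by rw [hg]; linarith
  refine ⟨g / 2, 2 + 36 / g, by positivity, by linarith, ?_, ?_⟩
  · have : 0 ≤ 36 / g := by positivity
    linarith
  intro r a l hr ha hl
  have h36 : 0 ≤ 36 / g := by positivity
  have hr2 : 2 ≤ r := by linarith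
  have hr0 : 0 < r := by linarith
  have hrg : 18 / r ≤ g / 2 := by
    rw [div_le_iff₀ hr0]
    have h1 : 36 / g ≤ r := by linarith
    rw [div_le_iff₀ hg0] at h1
    linarith
  refine ⟨?_, ?_⟩
  · intro α ψ hψ hbad
    refine le_trans ?_ (sec_bound h_slice h_ims h_cut h_lc h_adm h_en 3 r a l hr2 ha hl α ψ hψ)
    refine mul_le_mul_of_nonneg_right ?_ (CompSec.nsq_nonneg _)
    have h1 := sum_low h_en h_en2 (fun k => Fintype.card {j // α j = some k})
    set n : Fin 3 → ℕ := fun k => Fintype.card {j // α j = some k} with hn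
    have hsum : ∑ k, n k ≤ 3 := by
      have h1 : ∑ o : Option (Fin 3), Fintype.card {j // α j = o} = 3 := by
        rw [← Fintype.card_sigma, Fintype.card_congr (Equiv.sigmaFiberEquiv α), Fintype.card_fin]
      rw [Fintype.sum_option] at h1
      simp only [hn]
      omega
    have hne : ¬ (∀ k, n k = 1) := by
      intro hall
      apply hbad
      -- α is a bijection onto the nuclei
      have hex : ∀ k : Fin 3, ∃ j, α j = some k := by
        intro k
        have h2 : 0 < Fintype.card {j // α j = some k} := by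
          have := hall k
          simp only [hn] at this
          omega
        obtain ⟨j⟩ := Fintype.card_pos_iff.1 h2
        exact ⟨j.1, j.2⟩
      choose f hf using hex
      have hinj : Function.Injective f := by
        intro k k' hkk
        have h2 := hf k
        rw [hkk, hf k'] at h2
        exact (Option.some.inj h2).symm
      have hbij : Function.Bijective f := Finite.injective_iff_bijective.1 hinj
      refine ⟨(Equiv.ofBijective f hbij).symm, fun j => ?_⟩
      have h3 := hf ((Equiv.ofBijective f hbij).symm j)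
      have h4 : f ((Equiv.ofBijective f hbij).symm j) = j :=
        (Equiv.ofBijective f hbij).apply_symm_apply j
      rw [h4] at h3
      exact h3
    have h2 : -3 / 4 + g ≤ ∑ k, En (n k) (fun _ : Fin 1 => (0 : E3)) := by
      refine le_trans ?_ h1
      rw [← hg]
      have hnn : ∀ k, 0 ≤ (if 2 ≤ n k then g / 2 * (n k : ℝ) else 0) := by
        intro k
        split_ifs
        · positivity
        · exact le_refl _
      by_cases h3 : ∑ k, n k ≤ 2
      · have h4 : ((∑ k, n k : ℕ) : ℝ) ≤ 2 := by exact_mod_cast h3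
        have h5 : 0 ≤ ∑ k, (if 2 ≤ n k then g / 2 * (n k : ℝ) else 0) :=
          Finset.sum_nonneg fun k _ => hnn k
        linarith
      · have h4 : ∑ k, n k = 3 := by omega
        have h5 : ∃ k, 2 ≤ n k := by
          by_contra h6
          push Not at h6
          apply hne
          have h7 : n 0 + n 1 + n 2 = 3 := by
            have h8 := h4
            rw [Fin.sum_univ_three] at h8
            exact h8
          have := h6 0
          have := h6 1
          have := h6 2
          intro k
          fin_cases k <;> simp only [Fin.zero_eta, Fin.mk_one, Fin.reduceFinMk] <;> omega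
        obtain ⟨k, hk⟩ := h5
        have h6 : g ≤ ∑ k, (if 2 ≤ n k then g / 2 * (n k : ℝ) else 0) := by
          refine le_trans ?_ (Finset.single_le_sum (f := fun k =>
            (if 2 ≤ n k then g / 2 * (n k : ℝ) else 0)) (fun k _ => hnn k) (Finset.mem_univ k))
          simp only [if_pos hk]
          have h8 : (2 : ℝ) ≤ n k := by exact_mod_cast hk
          have h9 : g / 2 * 2 ≤ g / 2 * (n k : ℝ) := mul_le_mul_of_nonneg_left h8 (by positivity)
          linarith
        rw [h4]
        push_cast
        linarith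
    have h3 : 6 * ((3 : ℕ) : ℝ) / r = 18 / r := by norm_num
    rw [h3]
    linarith
  · intro α ψ hψ
    refine le_trans ?_ (sec_bound h_slice h_ims h_cut h_lc h_adm h_en 2 r a l hr2 ha hl α ψ hψ)
    refine mul_le_mul_of_nonneg_right ?_ (CompSec.nsq_nonneg _)
    have h1 := sum_low h_en h_en2 (fun k => Fintype.card {j // α j = some k})
    have hsum : ∑ k : Fin 3, Fintype.card {j // α j = some k} ≤ 2 := by
      have h1 : ∑ o : Option (Fin 3), Fintype.card {j // α j = o} = 2 := by
        rw [← Fintype.card_sigma, Fintype.card_congr (Equiv.sigmaFiberEquiv α), Fintype.card_fin]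
      rw [Fintype.sum_option] at h1
      omega
    have h4 : ((∑ k : Fin 3, Fintype.card {j // α j = some k} : ℕ) : ℝ) ≤ 2 := by
      exact_mod_cast hsum
    have h5 : 0 ≤ ∑ k : Fin 3, (if 2 ≤ Fintype.card {j // α j = some k} then
        (En 2 Hy + 1 / 2) / 2 * (Fintype.card {j // α j = some k} : ℝ) else 0) := by
      refine Finset.sum_nonneg fun k _ => ?_
      rw [← hg]
      split_ifs
      · positivity
      · exact le_refl _
    have h6 : 6 * ((2 : ℕ) : ℝ) / r ≤ 20 / r := by
      gcongr
      norm_num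
    linarith

end MolDis.H
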