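import Pool.Agent.Lib.MP_59f35a_mp.HStmts

/-!
# MP_59f35a_mp : bounded Lipschitz functions on `X3` (P2)
-/

noncomputable section

open MeasureTheory

namespace MolDis.H

namespace Bl

/-! ### absolute continuity -/

theorem pi_ac (n : ℕ) (μ ν : Measure E3) [SigmaFinite μ] [SigmaFinite ν] (h : μ ≪ ν) :
    (Measure.pi fun _ : Fin n => μ) ≪ (Measure.pi fun _ : Fin n => ν) := by
  induction n with
  | zero =>
    rw [Measure.pi_of_empty, Measure.pi_of_empty]
  | succ n ih =>
    have h1 := measurePreserving_piFinSuccAbove (fun _ : Fin (n + 1) => μ) 0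
    have h2 := measurePreserving_piFinSuccAbove (fun _ : Fin (n + 1) => ν) 0
    have h3 : μ.prod (Measure.pi fun _ : Fin n => μ) ≪ ν.prod (Measure.pi fun _ : Fin n => ν) :=
      h.prod ih
    refine Measure.AbsolutelyContinuous.mk fun s hs h0 => ?_
    have e1 : (Measure.pi fun _ : Fin (n + 1) => μ) s =
        (μ.prod (Measure.pi fun _ : Fin n => μ))
          ((MeasurableEquiv.piFinSuccAbove (fun _ : Fin (n + 1) => E3) 0).symm ⁻¹' s) := by
      rw [(h1.symm _).measure_preimage_equiv]
    have e2 : (Measure.pi fun _ : Fin (n + 1) => ν) s =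
        (ν.prod (Measure.pi fun _ : Fin n => ν))
          ((MeasurableEquiv.piFinSuccAbove (fun _ : Fin (n + 1) => E3) 0).symm ⁻¹' s) := by
      rw [(h2.symm _).measure_preimage_equiv]
    rw [e1]
    apply h3
    rw [← e2, h0]

theorem pm_ac (h1 : S_hm) : pm ≪ (volume : Measure X3) := by
  have : IsProbabilityMeasure hm := h1.1
  exact pi_ac 3 hm volume h1.2.1

/-! ### bounds -/

theorem bl_of_supp {f : X3 → ℝ} {K : NNReal} (hK : LipschitzWith K f) (r : ℝ) (hr : 0 ≤ r)
    (h : ∀ x, ∃ x', f x' = f x ∧ (f x' ≠ 0 → ‖x'‖ ≤ r)) : BL f := by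
  refine ⟨⟨K, hK⟩, |f 0| + K * r, fun x => ?_⟩
  obtain ⟨x', hx, hs⟩ := h x
  rw [← hx]
  have hK0 : (0 : ℝ) ≤ K := K.2
  by_cases h0 : f x' = 0
  · rw [h0, abs_zero]
    positivity
  · have h1 := hs h0
    have h2 := hK.dist_le_mul x' 0
    rw [Real.dist_eq, dist_zero_right] at h2
    have h3 : |f x'| ≤ |f x' - f 0| + |f 0| := by
      have := abs_add_le (f x' - f 0) (f 0)
      simpa using this
    nlinarith [mul_le_mul_of_nonneg_left h1 hK0]

theorem ind_zero {S : Finset (Fin 3)} {f : X3 → ℝ}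
    (hi : ∀ j, j ∉ S → ∀ x y, f (Function.update x j y) = f x) (T : Finset (Fin 3))
    (hT : Disjoint T S) (x : X3) :
    f (fun j => if j ∈ T then 0 else x j) = f x := by
  induction T using Finset.induction_on with
  | empty => simp
  | insert a T ha ih =>
    have hd : Disjoint T S := Finset.disjoint_of_subset_left (Finset.subset_insert _ _) hT
    have haS : a ∉ S := Finset.disjoint_left.1 hT (Finset.mem_insert_self _ _)
    have e : (fun j => if j ∈ insert a T then (0 : E3) else x j) =
        Function.update (fun j => if j ∈ T then (0 : E3) else x j) a 0 := by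
      funext j
      by_cases hj : j = a
      · subst hj
        simp
      · simp [Finset.mem_insert, hj]
    rw [e, hi a haS, ih hd]

theorem box_bl {S : Finset (Fin 3)} {r : ℝ} {f : X3 → ℝ} (h : Box S r f) (hr : 0 < r) : BL f := by
  obtain ⟨K, hK⟩ := h.lip
  refine bl_of_supp hK r hr.le fun x => ⟨fun j => if j ∈ Sᶜ then 0 else x j, ?_, ?_⟩
  · exact ind_zero h.ind Sᶜ (by
      rw [Finset.disjoint_left]
      intro a ha
      exact Finset.mem_compl.1 ha) x
  · intro h0
    rw [pi_norm_le_iff_of_nonneg hr.le]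
    intro j
    by_cases hj : j ∈ S
    · exact h.supp _ h0 j hj
    · simp [hj, hr.le]

end Bl

theorem p_bl (h1 : S_hm) (h2 : S_prod) : S_bl := by
  have := h1.1
  have : IsProbabilityMeasure pm := h2.1
  refine ⟨?_, ?_, ?_, ?_, ?_, ?_⟩
  · -- algebra
    rintro f g ⟨⟨K, hK⟩, B, hB⟩ ⟨⟨K', hK'⟩, B', hB'⟩
    have hB0 : 0 ≤ B := (abs_nonneg _).trans (hB 0)
    have hB0' : 0 ≤ B' := (abs_nonneg _).trans (hB' 0)
    refine ⟨⟨⟨K + K', hK.add hK'⟩, B + B', fun x => ?_⟩, ⟨⟨K + K', hK.sub hK'⟩, B + B', fun x => ?_⟩,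
      ⟨⟨⟨B * K' + B' * K, by positivity⟩, ?_⟩, B * B', fun x => ?_⟩⟩
    · exact (abs_add_le _ _).trans (add_le_add (hB x) (hB' x))
    · exact (abs_sub _ _).trans (add_le_add (hB x) (hB' x))
    · refine LipschitzWith.of_dist_le_mul fun x y => ?_
      have e1 := hK.dist_le_mul x y
      have e2 := hK'.dist_le_mul x y
      rw [Real.dist_eq] at e1 e2 ⊢
      have e3 : f x * g x - f y * g y = f x * (g x - g y) + (f x - f y) * g y := by ring
      rw [e3]
      change _ ≤ (B * K' + B' * K : ℝ) * dist x y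
      calc |f x * (g x - g y) + (f x - f y) * g y|
          ≤ |f x * (g x - g y)| + |(f x - f y) * g y| := abs_add_le _ _
        _ = |f x| * |g x - g y| + |f x - f y| * |g y| := by rw [abs_mul, abs_mul]
        _ ≤ B * (K' * dist x y) + (K * dist x y) * B' := by
            gcongr
            · exact hB x
            · exact hB' y
        _ = _ := by ring
    · rw [abs_mul]
      exact mul_le_mul (hB x) (hB' x) (abs_nonneg _) hB0
  · intro c
    exact ⟨⟨0, LipschitzWith.const c⟩, |c|, fun _ => le_rfl⟩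
  · rintro f ⟨⟨K, hK⟩, B, hB⟩
    have hm1 : Measurable f := hK.continuous.measurable
    have hB0 : 0 ≤ B := (abs_nonneg _).trans (hB 0)
    refine ⟨hm1, ?_, ?_, ?_, ?_⟩
    · exact Integrable.of_bound hm1.aestronglyMeasurable B (Filter.Eventually.of_forall fun x => by
        rw [Real.norm_eq_abs]
        exact hB x)
    · exact Integrable.of_bound (hm1.pow_const 2).aestronglyMeasurable (B ^ 2)
        (Filter.Eventually.of_forall fun x => by
          rw [Real.norm_eq_abs, abs_pow]
          exact pow_le_pow_left₀ (abs_nonneg _) (hB x) 2)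
    · intro j c
      refine ⟨?_, ?_⟩
      · exact measurable_lineDeriv hK.continuous
      · refine ⟨K * ‖(Pi.single j (ec c) : X3)‖, fun x => ?_⟩
        have := norm_lineDeriv_le_of_lipschitz ℝ hK (x₀ := x) (v := (Pi.single j (ec c) : X3))
        rw [Real.norm_eq_abs] at this
        exact this
    · intro j c
      have h3 : ∀ᵐ x ∂(volume : Measure X3), DifferentiableAt ℝ f x := hK.ae_differentiableAt
      have h4 := (Bl.pm_ac h1).ae_le h3
      filter_upwards [h4] with x hx
      exact hx.lineDifferentiableAt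
  · intro S r f h hr _
    exact Bl.box_bl h hr
  · rintro S r f g c ⟨⟨K, hK⟩, hs, hi⟩ ⟨⟨K', hK'⟩, hs', hi'⟩
    refine ⟨⟨⟨K + K', hK.add hK'⟩, ?_, ?_⟩, ⟨⟨K + K', hK.sub hK'⟩, ?_, ?_⟩, ⟨⟨‖c‖₊ * K, ?_⟩, ?_, ?_⟩⟩
    · intro x hx j hj
      by_cases h0 : f x = 0
      · exact hs' x (fun h => hx (by simp [h0, h])) j hj
      · exact hs x h0 j hj
    · intro j hj x y
      rw [hi j hj, hi' j hj]
    · intro x hx j hj
      by_cases h0 : f x = 0
      · exact hs' x (fun h => hx (by simp [h0, h])) j hj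
      · exact hs x h0 j hj
    · intro j hj x y
      rw [hi j hj, hi' j hj]
    · refine LipschitzWith.of_dist_le_mul fun x y => ?_
      have e1 := hK.dist_le_mul x y
      rw [Real.dist_eq] at e1 ⊢
      rw [← mul_sub, abs_mul]
      change _ ≤ ((‖c‖₊ * K : NNReal) : ℝ) * dist x y
      rw [NNReal.coe_mul, coe_nnnorm, Real.norm_eq_abs, mul_assoc]
      exact mul_le_mul_of_nonneg_left e1 (abs_nonneg _)
    · intro x hx j hj
      exact hs x (fun h => hx (by simp [h])) j hj
    · intro j hj x y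
      rw [hi j hj]
  · rintro F j ⟨⟨K, hK⟩, R, hR⟩
    refine ⟨⟨K, ?_⟩, |F 0| + K * |R|, fun x => ?_⟩
    · have := hK.comp (LipschitzWith.eval (α := fun _ : Fin 3 => E3) j)
      rw [mul_one] at this
      exact this
    · have hK0 : (0 : ℝ) ≤ K := K.2
      by_cases h0 : F (x j) = 0
      · rw [h0, abs_zero]
        positivity
      · have h5 := (hR _ h0).trans (le_abs_self R)
        have h6 := hK.dist_le_mul (x j) 0
        rw [Real.dist_eq, dist_zero_right] at h6
        have h7 : |F (x j)| ≤ |F (x j) - F 0| + |F 0| := by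
          have := abs_add_le (F (x j) - F 0) (F 0)
          simpa using this
        nlinarith [mul_le_mul_of_nonneg_left h5 hK0]

end MolDis.H
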