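import Pool.Agent.Lib.MP_59f35a_mp.HStmts

/-!
# MP_59f35a_mp, Theorem D, piece U2: bounds for the potentials `V12`, `W3`
-/

set_option autoImplicit false

noncomputable section

open MeasureTheory

namespace MolDis.H.Bounds

private lemma meas_pv {b : E3} {f g : X3 → E3} (hf : Measurable f) (hg : Measurable g) :
    Measurable fun x => pv b (f x) (g x) := by
  unfold pv
  have h1 : Measurable fun x => ‖b + g x - f x‖⁻¹ := ((hg.const_add b).sub hf).norm.inv
  have h2 : Measurable fun x => ‖b + g x‖⁻¹ := (hg.const_add b).norm.inv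
  have h3 : Measurable fun x => ‖b - f x‖⁻¹ := (hf.const_sub b).norm.inv
  exact ((h1.sub h2).sub h3).add_const _

private lemma meas_le (j : Fin 3) (r : ℝ) : MeasurableSet {x : X3 | ‖x j‖ ≤ r} :=
  measurableSet_le (measurable_pi_apply j).norm measurable_const

private lemma meas_V (r a : ℝ) : Measurable (V12 r a) := by
  unfold V12
  exact Measurable.ite ((meas_le 0 r).inter (meas_le 1 r))
    (meas_pv (measurable_pi_apply 0) (measurable_pi_apply 1)) measurable_const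

private lemma meas_W (r a l : ℝ) : Measurable (W3 r a l) := by
  unfold W3
  refine Measurable.ite ?_ ((meas_pv (measurable_pi_apply 0) (measurable_pi_apply 2)).add
    (meas_pv (measurable_pi_apply 1) (measurable_pi_apply 2))) measurable_const
  have : {x : X3 | ∀ j, ‖x j‖ ≤ r} = ⋂ j, {x : X3 | ‖x j‖ ≤ r} := by
    ext x; simp
  rw [this]
  exact MeasurableSet.iInter fun j => meas_le j r

/-- `|pv - dd / b³| ≤ 32 C r³ / l⁴` and `|pv| ≤ (6 + 4 C) r² / l³` for `b ≥ 3 l / 4` -/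
private lemma pv_err {C : ℝ} (hC : 1 ≤ C) (h : ∀ (b : ℝ) (x y : E3), 0 < b → ‖x‖ ≤ b / 8 →
    ‖y‖ ≤ b / 8 → |pv (b • ec 0) x y - dd x y / b ^ 3| ≤ C * (‖x‖ + ‖y‖) ^ 3 / b ^ 4 ∧
    |dd x y| ≤ 2 * ‖x‖ * ‖y‖) {b r l : ℝ} {x y : E3} (hr : 0 < r) (hl : 0 < l)
    (hb : 3 / 4 * l ≤ b) (hrb : r ≤ b / 8) (hx : ‖x‖ ≤ r) (hy : ‖y‖ ≤ r) :
    |pv (b • ec 0) x y - dd x y / b ^ 3| ≤ 32 * C * r ^ 3 / l ^ 4 ∧ |dd x y| ≤ 2 * r ^ 2 := by
  have hb0 : 0 < b := by linarith
  obtain ⟨h1, h2⟩ := h b x y hb0 (hx.trans hrb) (hy.trans hrb)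
  constructor
  · refine h1.trans ?_
    have e1 : (‖x‖ + ‖y‖) ^ 3 ≤ (2 * r) ^ 3 :=
      pow_le_pow_left₀ (by positivity) (by linarith) 3
    have e2 : (3 / 4 * l) ^ 4 ≤ b ^ 4 := pow_le_pow_left₀ (by positivity) hb 4
    have e3 : l ^ 4 / 4 ≤ b ^ 4 := by nlinarith [pow_pos hl 4]
    rw [div_le_div_iff₀ (by positivity) (by positivity)]
    have e4 : C * (‖x‖ + ‖y‖) ^ 3 * l ^ 4 ≤ C * (2 * r) ^ 3 * l ^ 4 := by gcongr
    have e5 : 32 * C * r ^ 3 * (l ^ 4 / 4) ≤ 32 * C * r ^ 3 * b ^ 4 := by gcongr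
    nlinarith
  · refine h2.trans ?_
    have : ‖x‖ * ‖y‖ ≤ r * r := mul_le_mul hx hy (norm_nonneg _) hr.le
    nlinarith

private lemma pv_le {C : ℝ} (hC : 1 ≤ C) (h : ∀ (b : ℝ) (x y : E3), 0 < b → ‖x‖ ≤ b / 8 →
    ‖y‖ ≤ b / 8 → |pv (b • ec 0) x y - dd x y / b ^ 3| ≤ C * (‖x‖ + ‖y‖) ^ 3 / b ^ 4 ∧
    |dd x y| ≤ 2 * ‖x‖ * ‖y‖) {b r l : ℝ} {x y : E3} (hr : 0 < r) (hl : 0 < l)
    (hb : 3 / 4 * l ≤ b) (hrb : r ≤ b / 8) (hrl : r ≤ l) (hx : ‖x‖ ≤ r) (hy : ‖y‖ ≤ r) :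
    |pv (b • ec 0) x y| ≤ (6 + 32 * C) * r ^ 2 / l ^ 3 := by
  obtain ⟨h1, h2⟩ := pv_err hC h hr hl hb hrb hx hy
  have hb0 : 0 < b := by linarith
  have e1 : |dd x y / b ^ 3| ≤ 6 * r ^ 2 / l ^ 3 := by
    rw [abs_div, abs_of_pos (by positivity : (0:ℝ) < b ^ 3),
      div_le_div_iff₀ (by positivity) (by positivity)]
    have e2 : (3 / 4 * l) ^ 3 ≤ b ^ 3 := pow_le_pow_left₀ (by positivity) hb 3
    have e3 : l ^ 3 / 3 ≤ b ^ 3 := by nlinarith [pow_pos hl 3]
    have e4 : |dd x y| * l ^ 3 ≤ 2 * r ^ 2 * l ^ 3 := by gcongr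
    have e5 : 6 * r ^ 2 * (l ^ 3 / 3) ≤ 6 * r ^ 2 * b ^ 3 := by gcongr
    linarith
  have e2 : 32 * C * r ^ 3 / l ^ 4 ≤ 32 * C * r ^ 2 / l ^ 3 := by
    rw [div_le_div_iff₀ (by positivity) (by positivity)]
    have : 32 * C * r ^ 3 * l ^ 3 = 32 * C * r ^ 2 * l ^ 3 * r := by ring
    rw [this]
    have : 32 * C * r ^ 2 * l ^ 4 = 32 * C * r ^ 2 * l ^ 3 * l := by ring
    rw [this]
    gcongr
  have e3 : |pv (b • ec 0) x y| ≤ |pv (b • ec 0) x y - dd x y / b ^ 3| + |dd x y / b ^ 3| := by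
    have := abs_add_le (pv (b • ec 0) x y - dd x y / b ^ 3) (dd x y / b ^ 3)
    simpa using this
  calc |pv (b • ec 0) x y| ≤ 32 * C * r ^ 2 / l ^ 3 + 6 * r ^ 2 / l ^ 3 := by linarith
    _ = _ := by ring

private lemma dd_neg (x y : E3) : dd (-x) (-y) = dd x y := by
  unfold dd
  simp

/-- `|b₁⁻³ - b₂⁻³| ≤ 8 a / l⁴` -/
private lemma inv_diff {a l : ℝ} (ha : 0 < a) (hal : 2 * a ≤ l) :
    |1 / (l + a / 2) ^ 3 - 1 / (l - a / 2) ^ 3| ≤ 8 * a / l ^ 4 := by
  have hl : 0 < l := by linarith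
  have hb1 : 0 < l + a / 2 := by positivity
  have hb2 : 3 / 4 * l ≤ l - a / 2 := by linarith
  have hb2' : 0 < l - a / 2 := by linarith
  have e0 : 1 / (l + a / 2) ^ 3 - 1 / (l - a / 2) ^ 3 =
      -((a * (3 * l ^ 2 + a ^ 2 / 4)) / ((l + a / 2) ^ 3 * (l - a / 2) ^ 3)) := by
    rw [div_sub_div _ _ (by positivity) (by positivity), ← neg_div]
    congr 1
    ring
  rw [e0, abs_neg, abs_of_nonneg (by positivity), div_le_div_iff₀ (by positivity) (by positivity)]
  have e1 : l ^ 3 ≤ (l + a / 2) ^ 3 := pow_le_pow_left₀ hl.le (by linarith) 3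
  have e2 : (3 / 4 * l) ^ 3 ≤ (l - a / 2) ^ 3 := pow_le_pow_left₀ (by positivity) hb2 3
  have e3 : l ^ 3 * (3 / 4 * l) ^ 3 ≤ (l + a / 2) ^ 3 * (l - a / 2) ^ 3 := by gcongr
  have e4 : a ^ 2 / 4 ≤ l ^ 2 / 16 := by nlinarith
  have e5 : a * (3 * l ^ 2 + a ^ 2 / 4) * l ^ 4 ≤ a * (3 * l ^ 2 + l ^ 2 / 16) * l ^ 4 := by
    gcongr
  have e6 : 8 * a * (l ^ 3 * (3 / 4 * l) ^ 3) ≤ 8 * a * ((l + a / 2) ^ 3 * (l - a / 2) ^ 3) := by
    gcongr
  have e7 : a * (3 * l ^ 2 + l ^ 2 / 16) * l ^ 4 ≤ 8 * a * (l ^ 3 * (3 / 4 * l) ^ 3) := by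
    have : a * (3 * l ^ 2 + l ^ 2 / 16) * l ^ 4 = 49 / 16 * (a * l ^ 6) := by ring
    rw [this]
    have : 8 * a * (l ^ 3 * (3 / 4 * l) ^ 3) = 27 / 8 * (a * l ^ 6) := by ring
    rw [this]
    have : 0 ≤ a * l ^ 6 := by positivity
    nlinarith
  linarith

theorem p_bounds (h : S_pv) : S_bounds := by
  obtain ⟨C, hC, hp⟩ := h
  refine ⟨200 * C, by linarith, fun r a l hr hra hal => ?_⟩
  have hr0 : 0 < r := by linarith
  have ha0 : 0 < a := by linarith
  have hl0 : 0 < l := by linarith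
  have hC0 : 0 < C := by linarith
  refine ⟨meas_V r a, meas_W r a l, fun x => ?_, fun x h0 h1 => ?_, fun x => ?_, fun x => ?_⟩
  · unfold V12
    split_ifs with hx
    · refine (pv_le hC hp (l := a) hr0 ha0 (by linarith) (by linarith) (by linarith) hx.1
        hx.2).trans ?_
      gcongr
      linarith
    · rw [abs_zero]; positivity
  · unfold V12
    rw [if_pos ⟨h0, h1⟩]
    refine (pv_err hC hp (l := a) hr0 ha0 (by linarith) (by linarith) h0 h1).1.trans ?_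
    gcongr
    linarith
  · unfold W3
    split_ifs with hx
    · have e1 := pv_le hC hp (b := l + a / 2) (l := l) hr0 hl0 (by linarith) (by linarith)
        (by linarith) (hx 0) (hx 2)
      have e2 := pv_le hC hp (b := l - a / 2) (l := l) hr0 hl0 (by linarith) (by linarith)
        (by linarith) (hx 1) (hx 2)
      refine (abs_add_le _ _).trans ((add_le_add e1 e2).trans ?_)
      rw [← add_div]
      gcongr
      nlinarith [sq_nonneg r]
    · rw [abs_zero]; positivity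
  · have hpiv : (∀ j, ‖piv x j‖ ≤ r) ↔ ∀ j, ‖x j‖ ≤ r := by
      constructor
      · intro h j
        fin_cases j
        · have := h 1; simpa [piv] using this
        · have := h 0; simpa [piv] using this
        · have := h 2; simpa [piv] using this
      · intro h j
        fin_cases j
        · have := h 1; simpa [piv] using this
        · have := h 0; simpa [piv] using this
        · have := h 2; simpa [piv] using this
    unfold W3
    by_cases hx : ∀ j, ‖x j‖ ≤ r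
    · rw [if_pos hx, if_pos (hpiv.2 hx)]
      have p0 : piv x 0 = -x 1 := rfl
      have p1 : piv x 1 = -x 0 := rfl
      have p2 : piv x 2 = -x 2 := rfl
      rw [p0, p1, p2]
      have n : ∀ j, ‖-x j‖ ≤ r := fun j => by rw [norm_neg]; exact hx j
      have a1 := pv_err hC hp (b := l + a / 2) (l := l) hr0 hl0 (by linarith) (by linarith)
        (hx 0) (hx 2)
      have a2 := pv_err hC hp (b := l - a / 2) (l := l) hr0 hl0 (by linarith) (by linarith)
        (hx 1) (hx 2)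
      have a3 := pv_err hC hp (b := l + a / 2) (l := l) hr0 hl0 (by linarith) (by linarith)
        (n 1) (n 2)
      have a4 := pv_err hC hp (b := l - a / 2) (l := l) hr0 hl0 (by linarith) (by linarith)
        (n 0) (n 2)
      rw [dd_neg] at a3 a4
      have a5 := inv_diff ha0 hal
      set E := 32 * C * r ^ 3 / l ^ 4 with hE
      set q := 1 / (l + a / 2) ^ 3 - 1 / (l - a / 2) ^ 3 with hq
      have b1 : |dd (x 0) (x 2) * q| ≤ 2 * r ^ 2 * (8 * a / l ^ 4) := by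
        rw [abs_mul]
        exact mul_le_mul a1.2 a5 (abs_nonneg _) (by positivity)
      have b2 : |dd (x 1) (x 2) * q| ≤ 2 * r ^ 2 * (8 * a / l ^ 4) := by
        rw [abs_mul]
        exact mul_le_mul a2.2 a5 (abs_nonneg _) (by positivity)
      have e0 : pv ((l + a / 2) • ec 0) (x 0) (x 2) + pv ((l - a / 2) • ec 0) (x 1) (x 2) -
          (pv ((l + a / 2) • ec 0) (-x 1) (-x 2) + pv ((l - a / 2) • ec 0) (-x 0) (-x 2)) =
          (pv ((l + a / 2) • ec 0) (x 0) (x 2) - dd (x 0) (x 2) / (l + a / 2) ^ 3) +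
          (pv ((l - a / 2) • ec 0) (x 1) (x 2) - dd (x 1) (x 2) / (l - a / 2) ^ 3) -
          (pv ((l + a / 2) • ec 0) (-x 1) (-x 2) - dd (x 1) (x 2) / (l + a / 2) ^ 3) -
          (pv ((l - a / 2) • ec 0) (-x 0) (-x 2) - dd (x 0) (x 2) / (l - a / 2) ^ 3) +
          dd (x 0) (x 2) * q - dd (x 1) (x 2) * q := by
        rw [hq]; ring
      rw [e0]
      have hE2 : E ≤ 4 * C * (r ^ 2 * a / l ^ 4) := by
        rw [hE, ← mul_div_assoc]
        apply div_le_div_of_nonneg_right _ (by positivity)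
        have : r ^ 3 ≤ r ^ 2 * (a / 8) := by
          rw [pow_succ]
          exact mul_le_mul_of_nonneg_left (by linarith) (by positivity)
        nlinarith
      have hfin : 200 * C * r ^ 2 * a / l ^ 4 = 200 * C * (r ^ 2 * a / l ^ 4) := by ring
      rw [hfin]
      have hX : 2 * r ^ 2 * (8 * a / l ^ 4) = 16 * (r ^ 2 * a / l ^ 4) := by ring
      rw [hX] at b1 b2
      set X := r ^ 2 * a / l ^ 4 with hXd
      have hX0 : 0 ≤ X := by positivity
      have c1 := abs_le.1 a1.1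
      have c2 := abs_le.1 a2.1
      have c3 := abs_le.1 a3.1
      have c4 := abs_le.1 a4.1
      have c5 := abs_le.1 b1
      have c6 := abs_le.1 b2
      have hCX : X ≤ C * X := by nlinarith
      have hE3 : E ≤ 4 * (C * X) := by rw [← mul_assoc]; exact hE2
      have hfin2 : 200 * C * X = 200 * (C * X) := by ring
      rw [hfin2, abs_le]
      constructor
      · linarith [c1.1, c2.1, c3.2, c4.2, c5.1, c6.2]
      · linarith [c1.2, c2.2, c3.1, c4.1, c5.2, c6.1]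
    · rw [if_neg hx, if_neg (fun h => hx (hpiv.1 h)), sub_self, abs_zero]
      positivity

end MolDis.H.Bounds

namespace MolDis.H

theorem p_bounds (h : S_pv) : S_bounds := Bounds.p_bounds h

end MolDis.H
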