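import Pool.Agent.Lib.MP_59f35a_mp.HStmts

/-!
# MP_59f35a_mp : F6, dipole moment of near ground states, centre part (helper99)
-/

set_option autoImplicit false

noncomputable section

open MeasureTheory

namespace MolDis.H

namespace Center

/-- component of the sum of the positions -/
def Zc (c : Fin 3) (x : X3) : ℝ := x 0 c + x 1 c + x 2 c

theorem Zc_meas (c : Fin 3) : Measurable (Zc c) := by
  unfold Zc
  fun_prop

theorem Zc_le {r : ℝ} {c : Fin 3} {x : X3} (h : ∀ j, ‖x j‖ ≤ r) : |Zc c x| ≤ 3 * r := by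
  have h1 : ∀ j, |x j c| ≤ r := fun j => by
    have := EuclideanSpace.norm_eq (x j)
    have h2 : ‖x j c‖ ≤ ‖x j‖ := PiLp.norm_apply_le (x j) c
    rw [Real.norm_eq_abs] at h2
    exact h2.trans (h j)
  unfold Zc
  calc |x 0 c + x 1 c + x 2 c| ≤ |x 0 c| + |x 1 c| + |x 2 c| := by
        refine (abs_add_le _ _).trans ?_
        exact add_le_add (abs_add_le _ _) le_rfl
    _ ≤ _ := by linarith [h1 0, h1 1, h1 2]

section Abs

variable {r : ℝ} {f g : X3 → ℝ}

theorem box_bl (hbl : S_bl) (hr : 0 < r) (hf : Box S3 r f) : BL f :=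
  hbl.2.2.2.1 S3 r f hf hr ⟨0, Finset.mem_univ _⟩

theorem box_int (hbl : S_bl) (hr : 0 < r) (hf : Box S3 r f) (hg : Box S3 r g) :
    Integrable (fun x => f x * g x) pm :=
  (hbl.2.2.1 _ (hbl.1 f g (box_bl hbl hr hf) (box_bl hbl hr hg)).2.2).2.1

theorem box_supp (hf : Box S3 r f) {x : X3} (hx : f x ≠ 0) (j : Fin 3) : ‖x j‖ ≤ r :=
  hf.supp x hx j (Finset.mem_univ _)

theorem box_intZ (hbl : S_bl) (hr : 0 < r) (c : Fin 3) (hf : Box S3 r f) (hg : Box S3 r g) :
    Integrable (fun x => Zc c x * (f x * g x)) pm := by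
  have h := box_int hbl hr hf hg
  refine (h.norm.const_mul (3 * r)).mono'
    ((Zc_meas c).aestronglyMeasurable.mul h.aestronglyMeasurable) (ae_of_all _ fun x => ?_)
  rw [norm_mul]
  by_cases h0 : f x = 0
  · rw [h0]; simp
  · exact mul_le_mul_of_nonneg_right (Zc_le (box_supp hf h0)) (norm_nonneg _)

theorem ip_nonneg (f : X3 → ℝ) : 0 ≤ ip f f := integral_nonneg fun x => mul_self_nonneg _

/-- Cauchy-Schwarz for `∫ |f g|` -/
theorem cs_abs (hbl : S_bl) (hr : 0 < r) (hf : Box S3 r f) (hg : Box S3 r g) :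
    ∫ x, |f x * g x| ∂pm ≤ √(ip f f) * √(ip g g) := by
  have hfg := (box_int hbl hr hf hg).abs
  have hff := box_int hbl hr hf hf
  have hgg := box_int hbl hr hg hg
  have hP : 0 ≤ ∫ x, |f x * g x| ∂pm := integral_nonneg fun x => abs_nonneg _
  have key : ∀ t : ℝ, 0 ≤ ip g g * (t * t) + (-2 * ∫ x, |f x * g x| ∂pm) * t + ip f f := by
    intro t
    have h1 : ip g g * (t * t) + (-2 * ∫ x, |f x * g x| ∂pm) * t + ip f f
        = ∫ x, ((t * t) * (g x * g x) + (-2 * t) * |f x * g x| + f x * f x) ∂pm := by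
      have i1 : Integrable (fun x => (t * t) * (g x * g x) + (-2 * t) * |f x * g x|) pm :=
        (hgg.const_mul _).add (hfg.const_mul _)
      have e1 : ∫ x, ((t * t) * (g x * g x) + (-2 * t) * |f x * g x| + f x * f x) ∂pm
          = (∫ x, ((t * t) * (g x * g x) + (-2 * t) * |f x * g x|) ∂pm) + ∫ x, f x * f x ∂pm :=
        integral_add i1 hff
      have e2 : ∫ x, ((t * t) * (g x * g x) + (-2 * t) * |f x * g x|) ∂pm
          = (∫ x, (t * t) * (g x * g x) ∂pm) + ∫ x, (-2 * t) * |f x * g x| ∂pm :=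
        integral_add (hgg.const_mul _) (hfg.const_mul _)
      rw [e1, e2, integral_const_mul, integral_const_mul]
      unfold ip
      ring
    rw [h1]
    refine integral_nonneg fun x => ?_
    show 0 ≤ (t * t) * (g x * g x) + (-2 * t) * |f x * g x| + f x * f x
    rw [abs_mul]
    have h2 : (t * t) * (g x * g x) + (-2 * t) * (|f x| * |g x|) + f x * f x
        = (t * |g x| - |f x|) ^ 2 := by
      have e1 : g x * g x = |g x| * |g x| := (abs_mul_abs_self _).symm
      have e2 : f x * f x = |f x| * |f x| := (abs_mul_abs_self _).symm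
      rw [e1, e2]
      ring
    rw [h2]
    exact sq_nonneg _
  have hd := discrim_le_zero key
  unfold discrim at hd
  have h3 : (∫ x, |f x * g x| ∂pm) ^ 2 ≤ ip f f * ip g g := by nlinarith
  rw [← Real.sqrt_mul (ip_nonneg f)]
  exact Real.le_sqrt_of_sq_le h3

theorem Z_le (hbl : S_bl) (hr : 0 < r) (c : Fin 3) (hf : Box S3 r f) (hg : Box S3 r g) :
    |∫ x, Zc c x * (f x * g x) ∂pm| ≤ 3 * r * (√(ip f f) * √(ip g g)) := by
  have h1 : ‖∫ x, Zc c x * (f x * g x) ∂pm‖ ≤ ∫ x, 3 * r * |f x * g x| ∂pm := by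
    refine norm_integral_le_of_norm_le ((box_int hbl hr hf hg).abs.const_mul _)
      (ae_of_all _ fun x => ?_)
    rw [norm_mul]
    by_cases h0 : f x = 0
    · rw [h0]; simp
    · exact mul_le_mul_of_nonneg_right (Zc_le (box_supp hf h0)) (norm_nonneg _)
  rw [integral_const_mul] at h1
  exact h1.trans (mul_le_mul_of_nonneg_left (cs_abs hbl hr hf hg) (by positivity))

/-- one component -/
theorem one_comp (hbl : S_bl) (hr : 0 < r) (c : Fin 3) (hf : Box S3 r f) (hg : Box S3 r g)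
    (hg1 : ip g g = 1) :
    0 ≤ ip f f - ip g f ^ 2 ∧
    |(∫ x, Zc c x * (f x * f x) ∂pm) - ip g f ^ 2 * ∫ x, Zc c x * (g x * g x) ∂pm| ≤
      3 * r * (2 * |ip g f| * √(ip f f - ip g f ^ 2) + (ip f f - ip g f ^ 2)) := by
  obtain ⟨t, ht⟩ : ∃ t, t = ip g f := ⟨_, rfl⟩
  rw [← ht]
  have hw : Box S3 r (fun x => f x - t * g x) := by
    have h1 := (hbl.2.2.2.2.1 S3 r g g t hg hg).2.2
    exact (hbl.2.2.2.2.1 S3 r f _ 0 hf h1).2.1
  have iff := box_int hbl hr hf hf
  have igf := box_int hbl hr hg hf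
  have igg := box_int hbl hr hg hg
  have hww : ip (fun x => f x - t * g x) (fun x => f x - t * g x) = ip f f - t ^ 2 := by
    have h1 : ip (fun x => f x - t * g x) (fun x => f x - t * g x)
        = ip f f - 2 * t * ip g f + t ^ 2 * ip g g := by
      unfold ip
      rw [← integral_const_mul, ← integral_const_mul, ← integral_sub iff (igf.const_mul _)]
      refine Eq.trans ?_ (integral_add (iff.sub (igf.const_mul (2 * t))) (igg.const_mul (t ^ 2)))
      refine integral_congr_ae (ae_of_all _ fun x => ?_)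
      show (f x - t * g x) * (f x - t * g x) = f x * f x - 2 * t * (g x * f x) + t ^ 2 * (g x * g x)
      ring
    rw [h1, hg1, ← ht]
    ring
  have hW : 0 ≤ ip f f - t ^ 2 := by rw [← hww]; exact ip_nonneg _
  refine ⟨hW, ?_⟩
  have zgg := box_intZ hbl hr c hg hg
  have zgw := box_intZ hbl hr c hg hw
  have zww := box_intZ hbl hr c hw hw
  have h2 : (∫ x, Zc c x * (f x * f x) ∂pm) - t ^ 2 * ∫ x, Zc c x * (g x * g x) ∂pm
      = 2 * t * (∫ x, Zc c x * (g x * (f x - t * g x)) ∂pm)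
        + ∫ x, Zc c x * ((f x - t * g x) * (f x - t * g x)) ∂pm := by
    rw [sub_eq_iff_eq_add, ← integral_const_mul, ← integral_const_mul,
      ← integral_add (zgw.const_mul _) zww]
    refine Eq.trans ?_ (integral_add ((zgw.const_mul (2 * t)).add zww) (zgg.const_mul (t ^ 2)))
    refine integral_congr_ae (ae_of_all _ fun x => ?_)
    show Zc c x * (f x * f x) = 2 * t * (Zc c x * (g x * (f x - t * g x)))
      + Zc c x * ((f x - t * g x) * (f x - t * g x)) + t ^ 2 * (Zc c x * (g x * g x))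
    ring
  rw [h2]
  have h3 := Z_le hbl hr c hg hw
  have h4 := Z_le hbl hr c hw hw
  rw [hww, hg1, Real.sqrt_one, one_mul] at h3
  rw [hww, Real.mul_self_sqrt hW] at h4
  calc |2 * t * (∫ x, Zc c x * (g x * (f x - t * g x)) ∂pm)
        + ∫ x, Zc c x * ((f x - t * g x) * (f x - t * g x)) ∂pm|
      ≤ 2 * |t| * |∫ x, Zc c x * (g x * (f x - t * g x)) ∂pm|
        + |∫ x, Zc c x * ((f x - t * g x) * (f x - t * g x)) ∂pm| := by
        refine (abs_add_le _ _).trans ?_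
        rw [abs_mul, abs_mul, abs_two]
    _ ≤ 2 * |t| * (3 * r * √(ip f f - t ^ 2)) + 3 * r * (ip f f - t ^ 2) := by
        gcongr
    _ = _ := by ring

/-- finitely many components -/
theorem many {I : Type} [Fintype I] (hbl : S_bl) (hr : 0 < r) (c : Fin 3) (F : I → X3 → ℝ)
    (hF : ∀ i, Box S3 r (F i)) (hg : Box S3 r g) (hg1 : ip g g = 1) (W b : ℝ)
    (hW : ∑ i, (ip (F i) (F i) - ip g (F i) ^ 2) ≤ W)
    (hb0 : 0 ≤ b) (hb : ∑ i, ip (F i) (F i) = 1 - b) :
    |(∑ i, ∫ x, Zc c x * (F i x * F i x) ∂pm) - ∫ x, Zc c x * (g x * g x) ∂pm| ≤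
      3 * r * (2 * √W + 2 * W + b) := by
  have h1 := fun i => one_comp hbl hr c (hF i) hg hg1
  have hS0 : 0 ≤ ∑ i, (ip (F i) (F i) - ip g (F i) ^ 2) := Finset.sum_nonneg fun i _ => (h1 i).1
  have hW0 : 0 ≤ W := hS0.trans hW
  have ht2 : ∑ i, ip g (F i) ^ 2 = 1 - b - ∑ i, (ip (F i) (F i) - ip g (F i) ^ 2) := by
    rw [Finset.sum_sub_distrib, hb]; ring
  have ht3 : ∑ i, ip g (F i) ^ 2 ≤ 1 := by rw [ht2]; linarith
  -- Cauchy-Schwarz for the sum
  have hcs : ∑ i, |ip g (F i)| * √(ip (F i) (F i) - ip g (F i) ^ 2) ≤ √W := by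
    refine (Real.sum_mul_le_sqrt_mul_sqrt _ _ _).trans ?_
    have e1 : ∑ i, |ip g (F i)| ^ 2 = ∑ i, ip g (F i) ^ 2 :=
      Finset.sum_congr rfl fun i _ => sq_abs _
    have e2 : ∑ i, √(ip (F i) (F i) - ip g (F i) ^ 2) ^ 2
        = ∑ i, (ip (F i) (F i) - ip g (F i) ^ 2) :=
      Finset.sum_congr rfl fun i _ => Real.sq_sqrt (h1 i).1
    rw [e1, e2]
    calc √(∑ i, ip g (F i) ^ 2) * √(∑ i, (ip (F i) (F i) - ip g (F i) ^ 2))
        ≤ 1 * √W := by
          refine mul_le_mul ?_ (Real.sqrt_le_sqrt hW) (Real.sqrt_nonneg _) zero_le_one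
          exact Real.sqrt_le_iff.mpr ⟨zero_le_one, by linarith⟩
      _ = √W := one_mul _
  have hZg := Z_le hbl hr c hg hg
  rw [hg1, Real.sqrt_one, one_mul, mul_one] at hZg
  have h2 : (∑ i, ∫ x, Zc c x * (F i x * F i x) ∂pm) - ∫ x, Zc c x * (g x * g x) ∂pm
      = (∑ i, ((∫ x, Zc c x * (F i x * F i x) ∂pm)
          - ip g (F i) ^ 2 * ∫ x, Zc c x * (g x * g x) ∂pm))
        + (∑ i, ip g (F i) ^ 2 - 1) * ∫ x, Zc c x * (g x * g x) ∂pm := by
    rw [Finset.sum_sub_distrib, ← Finset.sum_mul]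
    ring
  rw [h2]
  have h3 : |∑ i, ((∫ x, Zc c x * (F i x * F i x) ∂pm)
          - ip g (F i) ^ 2 * ∫ x, Zc c x * (g x * g x) ∂pm)| ≤ 3 * r * (2 * √W + W) := by
    refine (Finset.abs_sum_le_sum_abs _ _).trans ?_
    refine (Finset.sum_le_sum fun i _ => (h1 i).2).trans ?_
    rw [← Finset.mul_sum, Finset.sum_add_distrib]
    refine mul_le_mul_of_nonneg_left ?_ (by positivity)
    refine add_le_add ?_ hW
    have e3 : ∑ i, 2 * |ip g (F i)| * √(ip (F i) (F i) - ip g (F i) ^ 2)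
        = 2 * ∑ i, |ip g (F i)| * √(ip (F i) (F i) - ip g (F i) ^ 2) := by
      rw [Finset.mul_sum]
      exact Finset.sum_congr rfl fun i _ => by ring
    rw [e3]
    exact mul_le_mul_of_nonneg_left hcs (by norm_num)
  have h4 : |(∑ i, ip g (F i) ^ 2 - 1) * ∫ x, Zc c x * (g x * g x) ∂pm| ≤ (b + W) * (3 * r) := by
    rw [abs_mul]
    refine mul_le_mul ?_ hZg (abs_nonneg _) (by positivity)
    rw [abs_le]
    constructor <;> linarith
  calc _ ≤ 3 * r * (2 * √W + W) + (b + W) * (3 * r) :=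
        (abs_add_le _ _).trans (add_le_add h3 h4)
    _ = _ := by ring

end Abs

/-- the geometry of the nuclei -/
theorem yv_dist {r a l : ℝ} (ha : 8 * r ≤ a) (hr : 1 ≤ r) (hl : 2 * a ≤ l) (k k' : Fin 3)
    (h : k ≠ k') : 2 * r ≤ ‖yv a l k - yv a l k'‖ := by
  have he : ‖ec 0‖ = 1 := by simp [ec]
  have key : ∀ s t : ℝ, ‖s • ec 0 - t • ec 0‖ = |s - t| := by
    intro s t
    rw [← sub_smul, norm_smul, he, mul_one, Real.norm_eq_abs]
  fin_cases k <;> fin_cases k' <;> simp only [yv] at h ⊢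
  · exact absurd rfl h
  · show 2 * r ≤ ‖(-(a / 2)) • ec 0 - (a / 2) • ec 0‖
    rw [key, abs_sub_comm, le_abs]; left; linarith
  · show 2 * r ≤ ‖(-(a / 2)) • ec 0 - l • ec 0‖
    rw [key, abs_sub_comm, le_abs]; left; linarith
  · show 2 * r ≤ ‖(a / 2) • ec 0 - (-(a / 2)) • ec 0‖
    rw [key, le_abs]; left; linarith
  · exact absurd rfl h
  · show 2 * r ≤ ‖(a / 2) • ec 0 - l • ec 0‖
    rw [key, abs_sub_comm, le_abs]; left; linarith
  · show 2 * r ≤ ‖l • ec 0 - (-(a / 2)) • ec 0‖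
    rw [key, le_abs]; left; linarith
  · show 2 * r ≤ ‖l • ec 0 - (a / 2) • ec 0‖
    rw [key, le_abs]; left; linarith
  · exact absurd rfl h

/-- split of the sum over the sectors -/
theorem split_sum (F : (Fin 3 → Option (Fin 3)) → ℝ) :
    ∑ α, F α = (∑ τ : Equiv.Perm (Fin 3), F (fun j => some (τ j)))
      + ∑ α, if (∃ τ : Equiv.Perm (Fin 3), α = fun j => some (τ j)) then 0 else F α := by
  have h1 : ∑ α, F α = (∑ α, if (∃ τ : Equiv.Perm (Fin 3), α = fun j => some (τ j)) then F α else 0)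
      + ∑ α, if (∃ τ : Equiv.Perm (Fin 3), α = fun j => some (τ j)) then 0 else F α := by
    rw [← Finset.sum_add_distrib]
    refine Finset.sum_congr rfl fun α _ => ?_
    split_ifs <;> simp
  rw [h1]
  congr 1
  rw [← Finset.sum_filter]
  have h2 : (Finset.univ.filter fun α : Fin 3 → Option (Fin 3) =>
      ∃ τ : Equiv.Perm (Fin 3), α = fun j => some (τ j))
      = Finset.univ.image (fun τ : Equiv.Perm (Fin 3) => fun j => some (τ j)) := by
    ext α
    simp only [Finset.mem_filter, Finset.mem_univ, true_and, Finset.mem_image]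
    exact ⟨fun ⟨τ, h⟩ => ⟨τ, h.symm⟩, fun ⟨τ, h⟩ => ⟨τ, h.symm⟩⟩
  rw [h2, Finset.sum_image]
  intro τ _ τ' _ h
  ext j
  have := congrFun h j
  simp only [Option.some.injEq] at this
  rw [this]

end Center

open Center

set_option maxHeartbeats 2000000 in
theorem p_center (hen : S_en) (hloc : S_loc) (hlink : S_link) (hup : S_up) (huniq : S_uniq) (havg : S_avg)
    (hbounds : S_bounds) (hcut : S_cut) (hims : S_ims) (hbl : S_bl) : S_center := by
  intro hE2 g0 hg0 K
  obtain ⟨Cl, rl, hCl, hrl, Hloc⟩ := hloc hE2 K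
  obtain ⟨M0, ru, hM0, hru, Huniq⟩ := huniq g0 hg0
  obtain ⟨Cb, hCb, Hb⟩ := hbounds
  have hg0p := hg0.pos
  obtain ⟨D, hD⟩ : ∃ D, D = 4 / g0 * (Cl + K.factorial) := ⟨_, rfl⟩
  have hfac : (0 : ℝ) < (K.factorial : ℝ) := by exact_mod_cast K.factorial_pos
  have hD0 : 0 < D := by rw [hD]; positivity
  refine ⟨max 1 (3 * (2 * √D + 2 * (2 * D + Cl))), max (max rl ru) (max 2 (2 * Cb / M0)),
    le_max_left _ _, ?_, ?_⟩
  · exact hrl.trans ((le_max_left _ _).trans (le_max_left _ _))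
  intro r a l ψ g c hr hra hal hψ hn hg hε1
  have hr1 : rl ≤ r := (le_max_left _ _).trans ((le_max_left _ _).trans hr)
  have hr2 : ru ≤ r := (le_max_right _ _).trans ((le_max_left _ _).trans hr)
  have hr3 : 2 ≤ r := (le_max_left _ _).trans ((le_max_right _ _).trans hr)
  have hr4 : 2 * Cb / M0 ≤ r := (le_max_right _ _).trans ((le_max_right _ _).trans hr)
  have hrpos : 0 < r := by linarith
  have hr1' : 1 ≤ r := by linarith
  have ha8 : 8 * r ≤ a := by
    have h8 : (8 : ℝ) ≤ r ^ 3 := by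
      have := pow_le_pow_left₀ (by norm_num : (0:ℝ) ≤ 2) hr3 3
      norm_num at this
      exact this
    calc 8 * r ≤ r ^ 3 * r := by gcongr
      _ = r ^ 4 := by ring
      _ ≤ a := hra
  have ha16 : 16 ≤ a := by linarith
  have hl2 : 2 * a ≤ l := by
    have h5 : (1 : ℝ) ≤ a ^ 4 := one_le_pow₀ (by linarith)
    calc 2 * a ≤ a * a := by gcongr; linarith
      _ = a * a * 1 := by ring
      _ ≤ a * a * a ^ 4 := by gcongr
      _ = a ^ 6 := by ring
      _ ≤ l := hal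
  obtain ⟨ε, hε⟩ : ∃ ε, ε = Qf (yv a l) ψ - En 3 (yv a l) := ⟨_, rfl⟩
  obtain ⟨hL1, hL2⟩ := Hloc r a l ψ hr1 hra hal hψ hn
  rw [← hε] at hL1 hL2 hε1 ⊢
  obtain ⟨E, hE⟩ : ∃ E, E = ε + 1 / r ^ K := ⟨_, rfl⟩
  rw [← hE] at hL1 hL2 ⊢
  have hdist := yv_dist ha8 hr1' hl2
  obtain ⟨hPU, hsupp, -⟩ := hcut (Fin 3) r (yv a l) hrpos hdist
  obtain ⟨hsec, hnsum, -⟩ := hims (Fin 3) (Option (Fin 3)) (cellPU r (yv a l)) ψ hPU hψ.toLC
  have hnn : ∀ φ : (Fin 3 → Om) → ℝ, 0 ≤ nsq φ := fun φ => integral_nonneg fun X => sq_nonneg _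
  have hbad0 : 0 ≤ badm r a l ψ := by
    unfold badm
    refine Finset.sum_nonneg fun α _ => ?_
    split_ifs
    · exact le_rfl
    · exact hnn _
  have hE0 : 0 ≤ E := by
    have : 0 ≤ Cl * E := hbad0.trans hL1
    exact nonneg_of_mul_nonneg_right this (by linarith)
  -- the components
  let F : Equiv.Perm (Fin 3) × (Fin 3 → Bool) → X3 → ℝ := fun p =>
    gof (yv a l) p.1 p.2 (sector (cellPU r (yv a l)) (fun j => some (p.1 j)) ψ)
  have hsup : ∀ τ : Equiv.Perm (Fin 3), ∀ X,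
      sector (cellPU r (yv a l)) (fun j => some (τ j)) ψ X ≠ 0 → ∀ j,
      ‖(X j).1 - yv a l (τ j)‖ ≤ r := by
    intro τ X hX j
    unfold sector at hX
    have h1 := left_ne_zero_of_mul hX
    have h2 := Finset.prod_ne_zero_iff.mp h1 j (Finset.mem_univ j)
    exact (hsupp (τ j) _ h2).le
  have hlk := fun τ : Equiv.Perm (Fin 3) => hlink r a l τ _ hr1' ha8 hl2
    (hsec (fun j => some (τ j))) (hsup τ)
  have hF : ∀ p, Box S3 r (F p) := fun p => (hlk p.1).1 p.2
  -- the potential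
  obtain ⟨hm1, hm2, hb1, -, hb2, -⟩ := Hb r a l hr1' ha8 hl2
  obtain ⟨-, -, -, -, hU0, -, hU1⟩ := havg r a l hr1' ha8 hl2
  have hUm : Measurable (U3 r a l) := by
    unfold U3
    exact hm1.add hm2
  have hUb : ∀ x, |U3 r a l x| ≤ M0 := by
    intro x
    have h1 : |U3 r a l x| ≤ Cb * r ^ 2 / a ^ 3 + Cb * r ^ 2 / l ^ 3 :=
      (abs_add_le _ _).trans (add_le_add (hb1 x) (hb2 x))
    have hal' : a ≤ l := by linarith
    have ha0 : 0 < a := by linarith
    have h2 : Cb * r ^ 2 / l ^ 3 ≤ Cb * r ^ 2 / a ^ 3 := by gcongr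
    have h3 : Cb * r ^ 2 / a ^ 3 ≤ Cb / r := by
      rw [div_le_div_iff₀ (by positivity) hrpos]
      have h4 : r ^ 3 ≤ a ^ 3 := pow_le_pow_left₀ hrpos.le (by linarith) 3
      calc Cb * r ^ 2 * r = Cb * r ^ 3 := by ring
        _ ≤ Cb * a ^ 3 := by gcongr
    have h5 : 2 * Cb / r ≤ M0 := by
      rw [div_le_iff₀ hrpos]
      rw [div_le_iff₀ hM0] at hr4
      linarith
    have h6 : 2 * Cb / r = Cb / r + Cb / r := by ring
    linarith
  have hu := fun p => Huniq S3 r M0 (U3 r a l) ⟨0, Finset.mem_univ _⟩ hr2 hM0.le le_rfl hUm hUb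
    hU0 hU1 g (F p) hg (hF p)
  -- the sums
  have hsumn : ∑ p, ip (F p) (F p) = 1 - badm r a l ψ := by
    have h1 : ∑ p, ip (F p) (F p)
        = ∑ τ : Equiv.Perm (Fin 3), nsq (sector (cellPU r (yv a l)) (fun j => some (τ j)) ψ) := by
      rw [Fintype.sum_prod_type]
      refine Finset.sum_congr rfl fun τ _ => ?_
      rw [(hlk τ).2.1]
    have h2 := hnsum
    rw [split_sum (fun α => nsq (sector (cellPU r (yv a l)) α ψ)), hn] at h2
    rw [h1]
    unfold badm
    linarith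
  have hsumB : ∑ p, (BB (U3 r a l) (F p) (F p) - EE S3 r (U3 r a l) * ip (F p) (F p)) ≤ Cl * E := by
    refine le_trans ?_ hL2
    rw [Fintype.sum_prod_type]
    refine Finset.sum_le_sum fun τ _ => ?_
    obtain ⟨-, e1, e2, -⟩ := hlk τ
    rw [Finset.sum_sub_distrib, ← Finset.mul_sum]
    have e3 : ∑ s, ip (F (τ, s)) (F (τ, s))
        = nsq (sector (cellPU r (yv a l)) (fun j => some (τ j)) ψ) := e1.symm
    have e4 : ∑ s, BB (U3 r a l) (F (τ, s)) (F (τ, s))
        = Qf (yv a l) (sector (cellPU r (yv a l)) (fun j => some (τ j)) ψ)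
          + 3 / 4 * nsq (sector (cellPU r (yv a l)) (fun j => some (τ j)) ψ) := by
      rw [e2]; ring
    rw [e3, e4]
    have h5 := hup r a l hr1' ha8 hl2
    have h6 := hnn (sector (cellPU r (yv a l)) (fun j => some (τ j)) ψ)
    have h7 := mul_le_mul_of_nonneg_right h5 h6
    linarith
  have hexp : Real.exp (-r) ≤ K.factorial * (1 / r ^ K) := by
    have h1 := Real.pow_div_factorial_le_exp r hrpos.le K
    rw [Real.exp_neg]
    have h2 : (0 : ℝ) < r ^ K / K.factorial := by positivity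
    calc (Real.exp r)⁻¹ ≤ (r ^ K / K.factorial)⁻¹ := inv_anti₀ h2 h1
      _ = K.factorial * (1 / r ^ K) := by rw [inv_div]; ring
  have hW : ∑ p, (ip (F p) (F p) - ip g (F p) ^ 2) ≤ D * E := by
    have h1 : g0 / 4 * ∑ p, (ip (F p) (F p) - ip g (F p) ^ 2) - Real.exp (-r) * ∑ p, ip (F p) (F p)
        ≤ ∑ p, (BB (U3 r a l) (F p) (F p) - EE S3 r (U3 r a l) * ip (F p) (F p)) := by
      rw [Finset.mul_sum, Finset.mul_sum, ← Finset.sum_sub_distrib]
      exact Finset.sum_le_sum fun p _ => hu p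
    have h2 : Real.exp (-r) * ∑ p, ip (F p) (F p) ≤ K.factorial * (1 / r ^ K) := by
      rw [hsumn]
      calc Real.exp (-r) * (1 - badm r a l ψ) ≤ Real.exp (-r) * 1 := by gcongr; linarith
        _ ≤ _ := by rw [mul_one]; exact hexp
    have hε0 : 0 ≤ ε := by
      have h9 := hen.2.1 (Fin 3) (Fin 3) (yv a l) ψ hψ
      rw [Fintype.card_fin, hn, mul_one] at h9
      rw [hε]; linarith
    have h3 : (K.factorial : ℝ) * (1 / r ^ K) ≤ K.factorial * E := by
      refine mul_le_mul_of_nonneg_left ?_ hfac.le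
      rw [hE]; linarith
    have h4 : g0 / 4 * ∑ p, (ip (F p) (F p) - ip g (F p) ^ 2) ≤ (Cl + K.factorial) * E := by
      have : (Cl + K.factorial) * E = Cl * E + K.factorial * E := by ring
      rw [this]
      linarith
    rw [hD]
    have h5 : 4 / g0 * (Cl + K.factorial) * E = ((Cl + K.factorial) * E) / (g0 / 4) := by
      field_simp
    rw [h5, le_div_iff₀ (by positivity)]
    linarith
  have hfin := many hbl hrpos c F hF hg.box hg.norm (D * E) (badm r a l ψ) hW hbad0 hsumn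
  have hlhs : (∑ τ : Equiv.Perm (Fin 3),
        expv (fun X => (vdip (yv a l) X) c) (sector (cellPU r (yv a l)) (fun j => some (τ j)) ψ))
      = - ∑ p, ∫ x, Zc c x * (F p x * F p x) ∂pm := by
    rw [Fintype.sum_prod_type, ← Finset.sum_neg_distrib]
    refine Finset.sum_congr rfl fun τ _ => ?_
    rw [(hlk τ).2.2.2 c]
    congr 1
    refine Finset.sum_congr rfl fun s _ => ?_
    refine integral_congr_ae (ae_of_all _ fun x => ?_)
    show (x 0 c + x 1 c + x 2 c) * F (τ, s) x ^ 2 = Zc c x * (F (τ, s) x * F (τ, s) x)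
    unfold Zc
    ring
  have hrhs : ∫ x, (x 0 c + x 1 c + x 2 c) * g x ^ 2 ∂pm = ∫ x, Zc c x * (g x * g x) ∂pm := by
    refine integral_congr_ae (ae_of_all _ fun x => ?_)
    show (x 0 c + x 1 c + x 2 c) * g x ^ 2 = Zc c x * (g x * g x)
    unfold Zc
    ring
  rw [hlhs, hrhs]
  have hswap : |-(∑ p, ∫ x, Zc c x * (F p x * F p x) ∂pm) + ∫ x, Zc c x * (g x * g x) ∂pm|
      = |(∑ p, ∫ x, Zc c x * (F p x * F p x) ∂pm) - ∫ x, Zc c x * (g x * g x) ∂pm| := by
    rw [← abs_neg]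
    congr 1
    ring
  rw [hswap]
  refine hfin.trans ?_
  -- final arithmetic
  have hE2 : E ≤ 2 := by
    have : 1 / r ^ K ≤ 1 := by
      rw [div_le_one (by positivity)]
      exact one_le_pow₀ hr1'
    rw [hE]; linarith
  have hsq : √E ≤ 2 := by
    rw [Real.sqrt_le_iff]
    constructor <;> linarith
  have hEs : E ≤ 2 * √E := by
    have h9 := mul_le_mul_of_nonneg_right hsq (Real.sqrt_nonneg E)
    rwa [Real.mul_self_sqrt hE0] at h9
  have hDE : √(D * E) = √D * √E := Real.sqrt_mul hD0.le _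
  rw [hDE]
  have h7 : 2 * (√D * √E) + 2 * (D * E) + badm r a l ψ ≤ (2 * √D + 2 * (2 * D + Cl)) * √E := by
    have h8 : (2 * D + Cl) * E ≤ (2 * D + Cl) * (2 * √E) :=
      mul_le_mul_of_nonneg_left hEs (by linarith)
    have h9 : (2 * √D + 2 * (2 * D + Cl)) * √E = 2 * (√D * √E) + (2 * D + Cl) * (2 * √E) := by ring
    have h10 : (2 * D + Cl) * E = 2 * (D * E) + Cl * E := by ring
    rw [h9]
    linarith
  calc 3 * r * (2 * (√D * √E) + 2 * (D * E) + badm r a l ψ)
      ≤ 3 * r * ((2 * √D + 2 * (2 * D + Cl)) * √E) := by gcongr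
    _ = (3 * (2 * √D + 2 * (2 * D + Cl))) * r * √E := by ring
    _ ≤ max 1 (3 * (2 * √D + 2 * (2 * D + Cl))) * r * √E := by
        gcongr
        exact le_max_right _ _

end MolDis.H
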