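import Pool.Agent.Lib.MP_59f35a_mp.HStmts

/-!
# MP_59f35a_mp, piece D1: weak equation of the trial function
-/

set_option autoImplicit false

noncomputable section

open MeasureTheory

namespace MolDis.H

namespace Chi

private lemma quad {a b c : ℝ} (ha : 0 ≤ a) (h : ∀ t : ℝ, 0 ≤ a + 2 * t * b + t ^ 2 * c) :
    |b| ≤ √a * √c := by
  have h1 : ∀ x : ℝ, 0 ≤ c * (x * x) + (2 * b) * x + a := fun x => by
    have := h x
    calc (0 : ℝ) ≤ a + 2 * x * b + x ^ 2 * c := this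
      _ = _ := by ring
  have h2 := discrim_le_zero h1
  unfold discrim at h2
  rw [← Real.sqrt_mul ha]
  exact Real.abs_le_sqrt (by nlinarith)

/-- Cauchy-Schwarz -/
private lemma cs {μ : Measure X3} {f g : X3 → ℝ} (hf : AEStronglyMeasurable f μ)
    (hg : AEStronglyMeasurable g μ) (hf2 : Integrable (fun x => f x ^ 2) μ)
    (hg2 : Integrable (fun x => g x ^ 2) μ) :
    Integrable (fun x => f x * g x) μ ∧
    |∫ x, f x * g x ∂μ| ≤ √(∫ x, f x ^ 2 ∂μ) * √(∫ x, g x ^ 2 ∂μ) := by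
  have hi : Integrable (fun x => f x * g x) μ := by
    refine (hf2.add hg2).mono' (hf.mul hg) (ae_of_all _ fun x => ?_)
    rw [Real.norm_eq_abs, abs_le]
    constructor <;> simp only [Pi.add_apply] <;>
      nlinarith [sq_nonneg (f x + g x), sq_nonneg (f x - g x)]
  refine ⟨hi, quad (integral_nonneg fun x => sq_nonneg _) fun t => ?_⟩
  have e : ∫ x, (f x + t * g x) ^ 2 ∂μ =
      ∫ x, f x ^ 2 ∂μ + 2 * t * ∫ x, f x * g x ∂μ + t ^ 2 * ∫ x, g x ^ 2 ∂μ := by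
    have e1 : ∀ x, (f x + t * g x) ^ 2 = f x ^ 2 + 2 * t * (f x * g x) + t ^ 2 * g x ^ 2 := by
      intro x; ring
    simp only [e1]
    have i1 : Integrable (fun x => f x ^ 2 + 2 * t * (f x * g x)) μ := hf2.add (hi.const_mul _)
    rw [integral_add i1 (hg2.const_mul _),
      integral_add hf2 (hi.const_mul _), integral_const_mul, integral_const_mul]
  rw [← e]
  exact integral_nonneg fun x => sq_nonneg _

private lemma coord_le (x : E3) (c : Fin 3) : |x c| ≤ ‖x‖ := by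
  rw [← Real.norm_eq_abs]
  exact PiLp.norm_apply_le x c

private lemma nsq3 (x : E3) : ‖x‖ ^ 2 = x 0 ^ 2 + x 1 ^ 2 + x 2 ^ 2 := by
  rw [EuclideanSpace.norm_sq_eq, Fin.sum_univ_three]
  simp only [Real.norm_eq_abs, sq_abs]

private lemma dd_le (x y : E3) : |dd x y| ≤ 2 * ‖x‖ * ‖y‖ := by
  have h1 := nsq3 x
  have h2 := nsq3 y
  have h3 : dd x y ^ 2 ≤ (2 * ‖x‖ * ‖y‖) ^ 2 := by
    have e : (2 * ‖x‖ * ‖y‖) ^ 2 = 4 * ‖x‖ ^ 2 * ‖y‖ ^ 2 := by ring
    rw [e, h1, h2]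
    unfold dd
    nlinarith [sq_nonneg (x 1 * y 2 - x 2 * y 1), sq_nonneg (x 1 * y 0 + x 0 * y 1 * 2),
      sq_nonneg (x 1 * 2 * y 0 + x 0 * y 1), sq_nonneg (x 2 * 2 * y 0 + x 0 * y 2),
      sq_nonneg (x 1 * y 1), sq_nonneg (x 2 * y 2), sq_nonneg (x 0 * y 1), sq_nonneg (x 0 * y 2),
      sq_nonneg (x 1 * y 2), sq_nonneg (x 2 * y 1), sq_nonneg (x 0 * y 0)]
  exact abs_le_of_sq_le_sq h3 (by positivity)

private lemma zt_nonneg (r : ℝ) (x : E3) : 0 ≤ zt r x := le_max_left _ _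

private lemma zt_le_one (r : ℝ) (x : E3) : zt r x ≤ 1 :=
  max_le zero_le_one (min_le_left _ _)

private lemma zt_one {r : ℝ} (hr : 1 ≤ r) {x : E3} (hx : ‖x‖ ≤ r / 2) : zt r x = 1 := by
  unfold zt
  have h1 : 2 * ‖x‖ / r ≤ 1 := by
    rw [div_le_one (by linarith)]
    linarith
  rw [min_eq_left (by linarith), max_eq_right zero_le_one]

private lemma zt_supp {r : ℝ} (hr : 1 ≤ r) {x : E3} (hx : zt r x ≠ 0) : ‖x‖ ≤ r := by
  by_contra h
  push Not at h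
  apply hx
  unfold zt
  have h1 : 2 ≤ 2 * ‖x‖ / r := by
    rw [le_div_iff₀ (by linarith)]
    linarith
  have h2 : min 1 (2 - 2 * ‖x‖ / r) ≤ 0 := (min_le_right _ _).trans (by linarith)
  exact max_eq_left h2

private lemma zt_cont (r : ℝ) : Continuous (zt r) := by
  unfold zt
  fun_prop

/-- the one particle functions -/
private def fX (c : Fin 3) (x : E3) : ℝ := x c
private def fR (c : Fin 3) (x : E3) : ℝ := x c * ‖x‖
private def kX (c : Fin 3) (x : E3) : ℝ := x c / ‖x‖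
private def kR (c : Fin 3) (x : E3) : ℝ := x c * (2 - 4 / ‖x‖)

/-- one particle function in the variable `j`, cut off -/
private def UU (F : E3 → ℝ) (r : ℝ) (j : Fin 3) (x : X3) : ℝ := F (x j) * zt r (x j)

section main
variable (h_hm : S_hm) (h_prod : S_prod) (h_bl : S_bl) (h_form : S_form)

private lemma int2 (h_hm : S_hm) (h_prod : S_prod) (g0 g1 : E3 → ℝ) :
    ∫ x : X3, g0 (x 0) * g1 (x 1) ∂pm = (∫ y, g0 y ∂hm) * ∫ y, g1 y ∂hm := by
  have hp : IsProbabilityMeasure hm := h_hm.1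
  have h1 := h_prod.2.2.2.1 ![g0, g1, fun _ => 1]
  rw [Fin.prod_univ_three] at h1
  simpa [Fin.prod_univ_three] using h1

private lemma ible2 (h_hm : S_hm) {g0 g1 : E3 → ℝ} (h0 : Integrable g0 hm)
    (h1 : Integrable g1 hm) : Integrable (fun x : X3 => g0 (x 0) * g1 (x 1)) pm := by
  have hp : IsProbabilityMeasure hm := h_hm.1
  have h2 : ∀ i : Fin 3, Integrable ((![g0, g1, fun _ => 1] : Fin 3 → E3 → ℝ) i) hm := by
    intro i
    fin_cases i
    · exact h0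
    · exact h1
    · exact integrable_const (1 : ℝ)
  have h3 := Integrable.fintype_prod (μ := fun _ : Fin 3 => hm) h2
  simpa [Fin.prod_univ_three, pm] using h3

private lemma box_bl (h_bl : S_bl) {r : ℝ} {f : X3 → ℝ} (h : Box S2 r f) (hr : 1 ≤ r) : BL f :=
  h_bl.2.2.2.1 S2 r f h (by linarith) ⟨0, by simp [S2]⟩

private lemma bl_smul (h_bl : S_bl) {f : X3 → ℝ} (hf : BL f) (t : ℝ) : BL (fun x => t * f x) :=
  (h_bl.1 (fun _ => t) f (h_bl.2.1 t) hf).2.2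

private lemma bl_add (h_bl : S_bl) {f g : X3 → ℝ} (hf : BL f) (hg : BL g) :
    BL (fun x => f x + g x) := (h_bl.1 f g hf hg).1

private lemma bl_mul (h_bl : S_bl) {f g : X3 → ℝ} (hf : BL f) (hg : BL g) :
    BL (fun x => f x * g x) := (h_bl.1 f g hf hg).2.2

/-- `UU` of a weak solution is bounded Lipschitz -/
private lemma bl_UU (h_bl : S_bl) {F κ : E3 → ℝ} {C : ℝ} (hF : WSol F κ C) {r : ℝ} (hr : 1 ≤ r)
    (j : Fin 3) : BL (UU F r j) := by
  refine h_bl.2.2.2.2.2 (fun x => F x * zt r x) j ⟨hF.lip r hr, r, fun x hx => ?_⟩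
  exact zt_supp hr (right_ne_zero_of_mul hx)

/-- integrability against functions in the box -/
private lemma ibl (h_prod : S_prod) (h_bl : S_bl) {r : ℝ} (hr : 1 ≤ r) {v g : X3 → ℝ}
    (hv : Box S2 r v) (hg : Measurable g) {M : ℝ}
    (hM : ∀ x : X3, ‖x 0‖ ≤ r → ‖x 1‖ ≤ r → |g x| ≤ M) : Integrable (fun x => g x * v x) pm := by
  have hp := h_prod.1
  have hvb := box_bl h_bl hv hr
  have hvm : Measurable v := (h_bl.2.2.1 v hvb).1
  obtain ⟨B, hB⟩ := hvb.bdd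
  have hB0 : 0 ≤ B := (abs_nonneg _).trans (hB 0)
  have hM0 : 0 ≤ M := (abs_nonneg _).trans (hM 0 (by simp; linarith) (by simp; linarith))
  refine Integrable.of_bound (hg.mul hvm).aestronglyMeasurable (M * B) (ae_of_all _ fun x => ?_)
  rw [Real.norm_eq_abs]
  by_cases h0 : v x = 0
  · rw [h0, mul_zero, abs_zero]
    positivity
  · rw [abs_mul]
    exact mul_le_mul (hM x (hv.supp x h0 0 (by simp [S2])) (hv.supp x h0 1 (by simp [S2])))
      (hB x) (abs_nonneg _) hM0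

/-- combination of weak equations -/
private lemma comb (h_bl : S_bl) (h_form : S_form) {j : Fin 3} {A B D v gA gB gD : X3 → ℝ}
    (hA : BL A) (hB : BL B) (hD : BL D) (hv : BL v)
    (iA : Integrable (fun x => gA x * v x) pm) (iB : Integrable (fun x => gB x * v x) pm)
    (iD : Integrable (fun x => gD x * v x) pm) {kA kB kD : ℝ}
    (lA : |Dj j A v - ∫ x, gA x * v x ∂pm| ≤ kA) (lB : |Dj j B v - ∫ x, gB x * v x ∂pm| ≤ kB)
    (lD : |Dj j D v - ∫ x, gD x * v x ∂pm| ≤ kD) (a b c : ℝ) :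
    BL (fun x => a * A x + b * B x + c * D x) ∧
    Integrable (fun x => (a * gA x + b * gB x + c * gD x) * v x) pm ∧
    |Dj j (fun x => a * A x + b * B x + c * D x) v -
      ∫ x, (a * gA x + b * gB x + c * gD x) * v x ∂pm| ≤ |a| * kA + |b| * kB + |c| * kD := by
  have hAB : BL (fun x => a * A x + b * B x) := bl_add h_bl (bl_smul h_bl hA a) (bl_smul h_bl hB b)
  have e1 : ∀ x, (a * gA x + b * gB x + c * gD x) * v x =
      a * (gA x * v x) + b * (gB x * v x) + c * (gD x * v x) := by intro x; ring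
  have i1 : Integrable (fun x => a * (gA x * v x) + b * (gB x * v x)) pm :=
    (iA.const_mul a).add (iB.const_mul b)
  have i2 : Integrable (fun x => a * (gA x * v x) + b * (gB x * v x) + c * (gD x * v x)) pm :=
    i1.add (iD.const_mul c)
  refine ⟨bl_add h_bl hAB (bl_smul h_bl hD c), by simpa only [e1] using i2, ?_⟩
  have e2 : Dj j (fun x => a * A x + b * B x + c * D x) v =
      a * Dj j A v + b * Dj j B v + c * Dj j D v := by
    rw [(h_form.1 j (fun x => a * A x + b * B x) (fun x => c * D x) v hAB (bl_smul h_bl hD c) hv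
      0).2.2.1, (h_form.1 j (fun x => a * A x) (fun x => b * B x) v (bl_smul h_bl hA a)
      (bl_smul h_bl hB b) hv 0).2.2.1, (h_form.1 j A v v hA hv hv a).2.2.2.2.1,
      (h_form.1 j B v v hB hv hv b).2.2.2.2.1, (h_form.1 j D v v hD hv hv c).2.2.2.2.1]
  have e3 : ∫ x, (a * gA x + b * gB x + c * gD x) * v x ∂pm =
      a * ∫ x, gA x * v x ∂pm + b * ∫ x, gB x * v x ∂pm + c * ∫ x, gD x * v x ∂pm := by
    simp only [e1]
    rw [integral_add i1 (iD.const_mul c), integral_add (iA.const_mul a) (iB.const_mul b),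
      integral_const_mul, integral_const_mul, integral_const_mul]
  rw [e2, e3]
  have e4 : a * Dj j A v + b * Dj j B v + c * Dj j D v -
      (a * ∫ x, gA x * v x ∂pm + b * ∫ x, gB x * v x ∂pm + c * ∫ x, gD x * v x ∂pm) =
      a * (Dj j A v - ∫ x, gA x * v x ∂pm) + b * (Dj j B v - ∫ x, gB x * v x ∂pm) +
      c * (Dj j D v - ∫ x, gD x * v x ∂pm) := by ring
  rw [e4]
  refine (abs_add_le _ _).trans (add_le_add ((abs_add_le _ _).trans (add_le_add ?_ ?_)) ?_)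
  · rw [abs_mul]; exact mul_le_mul_of_nonneg_left lA (abs_nonneg _)
  · rw [abs_mul]; exact mul_le_mul_of_nonneg_left lB (abs_nonneg _)
  · rw [abs_mul]; exact mul_le_mul_of_nonneg_left lD (abs_nonneg _)


/-- product of two cut off one particle functions -/
private def PP (F G : E3 → ℝ) (r : ℝ) (x : X3) : ℝ := UU F r 0 x * UU G r 1 x

private lemma ip_UU (h_hm : S_hm) (h_prod : S_prod) {F κ : E3 → ℝ} {C : ℝ} (hF : WSol F κ C)
    (r : ℝ) {j : Fin 3} (hj : j = 0 ∨ j = 1) : ip (UU F r j) (UU F r j) ≤ C := by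
  have hp : IsProbabilityMeasure hm := h_hm.1
  have h0 : ∀ y, F y * zt r y * (F y * zt r y) ≤ F y ^ 2 := by
    intro y
    have h1 := zt_nonneg r y
    have h2 := zt_le_one r y
    have h3 : zt r y ^ 2 ≤ 1 := by nlinarith
    nlinarith [sq_nonneg (F y)]
  have h1 : ∫ y, F y * zt r y * (F y * zt r y) ∂hm ≤ C := by
    refine le_trans (integral_mono_of_nonneg (ae_of_all _ fun y => mul_self_nonneg _) hF.intF
      (ae_of_all _ h0)) hF.leF
  have h2 : ip (UU F r j) (UU F r j) = ∫ y, F y * zt r y * (F y * zt r y) ∂hm := by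
    rcases hj with rfl | rfl
    · have := int2 h_hm h_prod (fun y => F y * zt r y * (F y * zt r y)) (fun _ => 1)
      simpa [ip, UU] using this
    · have := int2 h_hm h_prod (fun _ => 1) (fun y => F y * zt r y * (F y * zt r y))
      simpa [ip, UU] using this
  rw [h2]
  exact h1

private lemma base0 (h_hm : S_hm) (h_prod : S_prod) (h_bl : S_bl) (h_lift : S_lift)
    {F κ G κ' : E3 → ℝ} {C : ℝ} (hF : WSol F κ C) (hG : WSol G κ' C) {r : ℝ} (hr : 1 ≤ r)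
    {M : ℝ} (hM : ∀ y : E3, ‖y‖ ≤ r → |κ y| ≤ M ∧ |G y| ≤ M) {v : X3 → ℝ} (hv : Box S2 r v) :
    BL (PP F G r) ∧ Integrable (fun x => (κ (x 0) * UU G r 1 x) * v x) pm ∧
    |Dj 0 (PP F G r) v - ∫ x, (κ (x 0) * UU G r 1 x) * v x ∂pm| ≤
      C * Real.exp (-r / 8) * √C * √(Dj 0 v v) := by
  have hGb := bl_UU h_bl hG hr 1
  have h1 := h_lift F κ C hF r S2 0 (UU G r 1) v hr hGb (fun x y => by simp [UU]) hv
    (by simp [S2])
  have e1 : (fun x => UU G r 1 x * (F (x 0) * zt r (x 0))) = PP F G r := by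
    funext x
    simp only [PP, UU]
    ring
  have e2 : ∀ x : X3, UU G r 1 x * κ (x 0) * v x = (κ (x 0) * UU G r 1 x) * v x := by
    intro x; ring
  rw [e1] at h1
  simp only [e2] at h1
  refine ⟨h1.1, ?_, h1.2.trans ?_⟩
  · refine ibl h_prod h_bl hr hv (M := M * M) ?_ ?_
    · have hm1 : Measurable (UU G r 1) := (h_bl.2.2.1 _ hGb).1
      exact (hF.measκ.comp (measurable_pi_apply 0)).mul hm1
    · intro x h0 h1'
      have h3 := hM (x 0) h0
      have h4 := hM (x 1) h1'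
      have hM0 : 0 ≤ M := (abs_nonneg _).trans h3.1
      rw [abs_mul]
      refine mul_le_mul h3.1 ?_ (abs_nonneg _) hM0
      unfold UU
      rw [abs_mul, abs_of_nonneg (zt_nonneg r _)]
      calc |G (x 1)| * zt r (x 1) ≤ M * 1 :=
            mul_le_mul h4.2 (zt_le_one r _) (zt_nonneg r _) hM0
        _ = M := mul_one _
  · have h3 := ip_UU h_hm h_prod hG r (j := 1) (Or.inr rfl)
    have h4 := hF.nonneg
    have h5 := Real.sqrt_le_sqrt h3
    gcongr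

private lemma base1 (h_hm : S_hm) (h_prod : S_prod) (h_bl : S_bl) (h_lift : S_lift)
    {F κ G κ' : E3 → ℝ} {C : ℝ} (hF : WSol F κ C) (hG : WSol G κ' C) {r : ℝ} (hr : 1 ≤ r)
    {M : ℝ} (hM : ∀ y : E3, ‖y‖ ≤ r → |κ' y| ≤ M ∧ |F y| ≤ M) {v : X3 → ℝ} (hv : Box S2 r v) :
    BL (PP F G r) ∧ Integrable (fun x => (κ' (x 1) * UU F r 0 x) * v x) pm ∧
    |Dj 1 (PP F G r) v - ∫ x, (κ' (x 1) * UU F r 0 x) * v x ∂pm| ≤
      C * Real.exp (-r / 8) * √C * √(Dj 1 v v) := by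
  have hGb := bl_UU h_bl hF hr 0
  have h1 := h_lift G κ' C hG r S2 1 (UU F r 0) v hr hGb (fun x y => by simp [UU]) hv
    (by simp [S2])
  have e1 : (fun x => UU F r 0 x * (G (x 1) * zt r (x 1))) = PP F G r := by
    funext x
    simp only [PP, UU]
  have e2 : ∀ x : X3, UU F r 0 x * κ' (x 1) * v x = (κ' (x 1) * UU F r 0 x) * v x := by
    intro x; ring
  rw [e1] at h1
  simp only [e2] at h1
  refine ⟨h1.1, ?_, h1.2.trans ?_⟩
  · refine ibl h_prod h_bl hr hv (M := M * M) ?_ ?_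
    · have hm1 : Measurable (UU F r 0) := (h_bl.2.2.1 _ hGb).1
      exact (hG.measκ.comp (measurable_pi_apply 1)).mul hm1
    · intro x h0 h1'
      have h3 := hM (x 1) h1'
      have h4 := hM (x 0) h0
      have hM0 : 0 ≤ M := (abs_nonneg _).trans h3.1
      rw [abs_mul]
      refine mul_le_mul h3.1 ?_ (abs_nonneg _) hM0
      unfold UU
      rw [abs_mul, abs_of_nonneg (zt_nonneg r _)]
      calc |F (x 0)| * zt r (x 0) ≤ M * 1 :=
            mul_le_mul h4.2 (zt_le_one r _) (zt_nonneg r _) hM0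
        _ = M := mul_one _
  · have h3 := ip_UU h_hm h_prod hF r (j := 0) (Or.inl rfl)
    have h4 := hG.nonneg
    have h5 := Real.sqrt_le_sqrt h3
    gcongr

private def TT (r : ℝ) (c : Fin 3) (x : X3) : ℝ :=
  1 / 2 * PP (fX c) (fX c) r x + 1 / 6 * PP (fR c) (fX c) r x + 1 / 6 * PP (fX c) (fR c) r x

private lemma chir_eq (r : ℝ) :
    chir r = fun x => (-2) * TT r 0 x + 1 * TT r 1 x + 1 * TT r 2 x := by
  funext x
  simp only [chir, chi, dd, TT, PP, UU, fX, fR]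
  ring

/-- the limits -/
private def G0 (x : X3) : ℝ := dd (x 0) (x 1) * (1 / 3 - ‖x 0‖⁻¹ / 6 + ‖x 1‖ / ‖x 0‖ / 6)
private def G1 (x : X3) : ℝ := dd (x 0) (x 1) * (1 / 3 - ‖x 1‖⁻¹ / 6 + ‖x 0‖ / ‖x 1‖ / 6)

private lemma kb {r : ℝ} (hr : 1 ≤ r) (c : Fin 3) (y : E3) (hy : ‖y‖ ≤ r) :
    |fX c y| ≤ 2 * r ^ 2 + 4 * r + 4 ∧ |fR c y| ≤ 2 * r ^ 2 + 4 * r + 4 ∧
    |kX c y| ≤ 2 * r ^ 2 + 4 * r + 4 ∧ |kR c y| ≤ 2 * r ^ 2 + 4 * r + 4 := by
  have h0 := coord_le y c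
  have h1 := norm_nonneg y
  have h2 : |y c| * ‖y‖⁻¹ ≤ 1 := by
    rcases h1.eq_or_lt with h | h
    · rw [← h]; simp
    · rw [← div_eq_mul_inv, div_le_one h]
      exact h0
  have h3 : 0 ≤ r := by linarith
  refine ⟨?_, ?_, ?_, ?_⟩
  · unfold fX
    nlinarith
  · unfold fR
    rw [abs_mul, abs_of_nonneg h1]
    have : |y c| * ‖y‖ ≤ r * r := mul_le_mul (h0.trans hy) hy h1 h3
    nlinarith
  · unfold kX
    rw [div_eq_mul_inv, abs_mul, abs_of_nonneg (inv_nonneg.mpr h1)]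
    nlinarith
  · unfold kR
    have e : y c * (2 - 4 / ‖y‖) = 2 * y c - 4 * (y c * ‖y‖⁻¹) := by
      rw [div_eq_mul_inv]; ring
    rw [e]
    have h4 : |y c * ‖y‖⁻¹| ≤ 1 := by
      rw [abs_mul, abs_of_nonneg (inv_nonneg.mpr h1)]
      exact h2
    have h5 : |2 * y c - 4 * (y c * ‖y‖⁻¹)| ≤ 2 * |y c| + 4 * |y c * ‖y‖⁻¹| := by
      refine (abs_sub _ _).trans ?_
      rw [abs_mul, abs_mul]
      norm_num
    nlinarith

/-- the weak equation in the variable 0 -/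
private lemma eq0 (h_hm : S_hm) (h_prod : S_prod) (h_bl : S_bl) (h_form : S_form)
    (h_lift : S_lift) {C : ℝ} (hX : ∀ c, WSol (fX c) (kX c) C) (hR : ∀ c, WSol (fR c) (kR c) C)
    {r : ℝ} (hr : 1 ≤ r) {v : X3 → ℝ} (hv : Box S2 r v) :
    BL (chir r) ∧ Integrable (fun x => zt r (x 1) * G0 x * v x) pm ∧
    |Dj 0 (chir r) v - ∫ x, zt r (x 1) * G0 x * v x ∂pm| ≤
      10 / 3 * (C * Real.exp (-r / 8) * √C * √(Dj 0 v v)) := by
  have hvb := box_bl h_bl hv hr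
  have hT : ∀ c, _ := fun c => comb h_bl h_form (j := 0) (v := v)
    (base0 h_hm h_prod h_bl h_lift (hX c) (hX c) hr
      (fun y hy => ⟨(kb hr c y hy).2.2.1, (kb hr c y hy).1⟩) hv).1
    (base0 h_hm h_prod h_bl h_lift (hR c) (hX c) hr
      (fun y hy => ⟨(kb hr c y hy).2.2.2, (kb hr c y hy).1⟩) hv).1
    (base0 h_hm h_prod h_bl h_lift (hX c) (hR c) hr
      (fun y hy => ⟨(kb hr c y hy).2.2.1, (kb hr c y hy).2.1⟩) hv).1 hvb
    (base0 h_hm h_prod h_bl h_lift (hX c) (hX c) hr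
      (fun y hy => ⟨(kb hr c y hy).2.2.1, (kb hr c y hy).1⟩) hv).2.1
    (base0 h_hm h_prod h_bl h_lift (hR c) (hX c) hr
      (fun y hy => ⟨(kb hr c y hy).2.2.2, (kb hr c y hy).1⟩) hv).2.1
    (base0 h_hm h_prod h_bl h_lift (hX c) (hR c) hr
      (fun y hy => ⟨(kb hr c y hy).2.2.1, (kb hr c y hy).2.1⟩) hv).2.1
    (base0 h_hm h_prod h_bl h_lift (hX c) (hX c) hr
      (fun y hy => ⟨(kb hr c y hy).2.2.1, (kb hr c y hy).1⟩) hv).2.2
    (base0 h_hm h_prod h_bl h_lift (hR c) (hX c) hr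
      (fun y hy => ⟨(kb hr c y hy).2.2.2, (kb hr c y hy).1⟩) hv).2.2
    (base0 h_hm h_prod h_bl h_lift (hX c) (hR c) hr
      (fun y hy => ⟨(kb hr c y hy).2.2.1, (kb hr c y hy).2.1⟩) hv).2.2 (1 / 2) (1 / 6) (1 / 6)
  have h1 := comb h_bl h_form (j := 0) (v := v) (A := TT r 0) (B := TT r 1) (D := TT r 2)
    (hT 0).1 (hT 1).1 (hT 2).1 hvb (hT 0).2.1 (hT 1).2.1 (hT 2).2.1 (hT 0).2.2 (hT 1).2.2
    (hT 2).2.2 (-2) 1 1
  rw [← chir_eq] at h1
  have e1 : ∀ x : X3, (-2) * (1 / 2 * (kX 0 (x 0) * UU (fX 0) r 1 x) +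
      1 / 6 * (kR 0 (x 0) * UU (fX 0) r 1 x) + 1 / 6 * (kX 0 (x 0) * UU (fR 0) r 1 x)) +
      1 * (1 / 2 * (kX 1 (x 0) * UU (fX 1) r 1 x) +
      1 / 6 * (kR 1 (x 0) * UU (fX 1) r 1 x) + 1 / 6 * (kX 1 (x 0) * UU (fR 1) r 1 x)) +
      1 * (1 / 2 * (kX 2 (x 0) * UU (fX 2) r 1 x) +
      1 / 6 * (kR 2 (x 0) * UU (fX 2) r 1 x) + 1 / 6 * (kX 2 (x 0) * UU (fR 2) r 1 x)) =
      zt r (x 1) * G0 x := by
    intro x
    simp only [kX, kR, UU, fX, fR, G0, dd, div_eq_mul_inv]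
    ring
  simp only [e1] at h1
  refine ⟨h1.1, h1.2.1, h1.2.2.trans (le_of_eq ?_)⟩
  rw [show |(-2 : ℝ)| = 2 by norm_num, show |(1 : ℝ)| = 1 by norm_num,
    show |(1 / 2 : ℝ)| = 1 / 2 by norm_num, show |(1 / 6 : ℝ)| = 1 / 6 by norm_num]
  ring

/-- the weak equation in the variable 1 -/
private lemma eq1 (h_hm : S_hm) (h_prod : S_prod) (h_bl : S_bl) (h_form : S_form)
    (h_lift : S_lift) {C : ℝ} (hX : ∀ c, WSol (fX c) (kX c) C) (hR : ∀ c, WSol (fR c) (kR c) C)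
    {r : ℝ} (hr : 1 ≤ r) {v : X3 → ℝ} (hv : Box S2 r v) :
    Integrable (fun x => zt r (x 0) * G1 x * v x) pm ∧
    |Dj 1 (chir r) v - ∫ x, zt r (x 0) * G1 x * v x ∂pm| ≤
      10 / 3 * (C * Real.exp (-r / 8) * √C * √(Dj 1 v v)) := by
  have hvb := box_bl h_bl hv hr
  have hT : ∀ c, _ := fun c => comb h_bl h_form (j := 1) (v := v)
    (base1 h_hm h_prod h_bl h_lift (hX c) (hX c) hr
      (fun y hy => ⟨(kb hr c y hy).2.2.1, (kb hr c y hy).1⟩) hv).1
    (base1 h_hm h_prod h_bl h_lift (hR c) (hX c) hr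
      (fun y hy => ⟨(kb hr c y hy).2.2.1, (kb hr c y hy).2.1⟩) hv).1
    (base1 h_hm h_prod h_bl h_lift (hX c) (hR c) hr
      (fun y hy => ⟨(kb hr c y hy).2.2.2, (kb hr c y hy).1⟩) hv).1 hvb
    (base1 h_hm h_prod h_bl h_lift (hX c) (hX c) hr
      (fun y hy => ⟨(kb hr c y hy).2.2.1, (kb hr c y hy).1⟩) hv).2.1
    (base1 h_hm h_prod h_bl h_lift (hR c) (hX c) hr
      (fun y hy => ⟨(kb hr c y hy).2.2.1, (kb hr c y hy).2.1⟩) hv).2.1
    (base1 h_hm h_prod h_bl h_lift (hX c) (hR c) hr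
      (fun y hy => ⟨(kb hr c y hy).2.2.2, (kb hr c y hy).1⟩) hv).2.1
    (base1 h_hm h_prod h_bl h_lift (hX c) (hX c) hr
      (fun y hy => ⟨(kb hr c y hy).2.2.1, (kb hr c y hy).1⟩) hv).2.2
    (base1 h_hm h_prod h_bl h_lift (hR c) (hX c) hr
      (fun y hy => ⟨(kb hr c y hy).2.2.1, (kb hr c y hy).2.1⟩) hv).2.2
    (base1 h_hm h_prod h_bl h_lift (hX c) (hR c) hr
      (fun y hy => ⟨(kb hr c y hy).2.2.2, (kb hr c y hy).1⟩) hv).2.2 (1 / 2) (1 / 6) (1 / 6)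
  have h1 := comb h_bl h_form (j := 1) (v := v) (A := TT r 0) (B := TT r 1) (D := TT r 2)
    (hT 0).1 (hT 1).1 (hT 2).1 hvb (hT 0).2.1 (hT 1).2.1 (hT 2).2.1 (hT 0).2.2 (hT 1).2.2
    (hT 2).2.2 (-2) 1 1
  rw [← chir_eq] at h1
  have e1 : ∀ x : X3, (-2) * (1 / 2 * (kX 0 (x 1) * UU (fX 0) r 0 x) +
      1 / 6 * (kX 0 (x 1) * UU (fR 0) r 0 x) + 1 / 6 * (kR 0 (x 1) * UU (fX 0) r 0 x)) +
      1 * (1 / 2 * (kX 1 (x 1) * UU (fX 1) r 0 x) +
      1 / 6 * (kX 1 (x 1) * UU (fR 1) r 0 x) + 1 / 6 * (kR 1 (x 1) * UU (fX 1) r 0 x)) +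
      1 * (1 / 2 * (kX 2 (x 1) * UU (fX 2) r 0 x) +
      1 / 6 * (kX 2 (x 1) * UU (fR 2) r 0 x) + 1 / 6 * (kR 2 (x 1) * UU (fX 2) r 0 x)) =
      zt r (x 0) * G1 x := by
    intro x
    simp only [kX, kR, UU, fX, fR, G1, dd, div_eq_mul_inv]
    ring
  simp only [e1] at h1
  refine ⟨h1.2.1, h1.2.2.trans (le_of_eq ?_)⟩
  rw [show |(-2 : ℝ)| = 2 by norm_num, show |(1 : ℝ)| = 1 by norm_num,
    show |(1 / 2 : ℝ)| = 1 / 2 by norm_num, show |(1 / 6 : ℝ)| = 1 / 6 by norm_num]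
  ring

/-! ### bounds -/

private lemma dd_zero (x y : E3) : dd x y * (‖x‖⁻¹ * ‖x‖) = dd x y := by
  by_cases h : x = 0
  · subst h
    simp [dd]
  · rw [inv_mul_cancel₀ (norm_ne_zero_iff.mpr h), mul_one]

private lemma G_aux {d a b : ℝ} (ha : 0 ≤ a) (hb : 0 ≤ b) (hd : |d| ≤ 2 * a * b) :
    |d * (1 / 3 - a⁻¹ / 6 + b / a / 6)| ≤ (1 + a) * (b + b ^ 2) := by
  have h1 : |d| * a⁻¹ ≤ 2 * b := by
    rcases ha.eq_or_lt with h | h
    · rw [← h]; simp; exact hb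
    · rw [← div_eq_mul_inv, div_le_iff₀ h]
      linarith
  have h2 : 0 ≤ a⁻¹ := inv_nonneg.mpr ha
  have h3 : |1 / 3 - a⁻¹ / 6 + b / a / 6| ≤ 1 / 3 + a⁻¹ / 6 + b * a⁻¹ / 6 := by
    rw [div_eq_mul_inv b a, abs_le]
    constructor <;> nlinarith [mul_nonneg hb h2]
  rw [abs_mul]
  calc |d| * |1 / 3 - a⁻¹ / 6 + b / a / 6| ≤ |d| * (1 / 3 + a⁻¹ / 6 + b * a⁻¹ / 6) :=
        mul_le_mul_of_nonneg_left h3 (abs_nonneg _)
    _ = |d| / 3 + (|d| * a⁻¹) / 6 + b * (|d| * a⁻¹) / 6 := by ring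
    _ ≤ (2 * a * b) / 3 + (2 * b) / 6 + b * (2 * b) / 6 := by gcongr
    _ ≤ _ := by nlinarith [mul_nonneg ha hb, mul_nonneg hb hb, mul_nonneg ha (mul_nonneg hb hb)]

private lemma G0_le (x : X3) : |G0 x| ≤ (1 + ‖x 0‖) * (‖x 1‖ + ‖x 1‖ ^ 2) :=
  G_aux (norm_nonneg _) (norm_nonneg _) (dd_le _ _)

private lemma G1_le (x : X3) : |G1 x| ≤ (1 + ‖x 1‖) * (‖x 0‖ + ‖x 0‖ ^ 2) := by
  refine G_aux (norm_nonneg _) (norm_nonneg _) ((dd_le _ _).trans (le_of_eq ?_))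
  ring

private lemma dd_meas : Measurable (fun x : X3 => dd (x 0) (x 1)) := by
  unfold dd
  fun_prop

private lemma G0_meas : Measurable G0 := by
  unfold G0
  have := dd_meas
  fun_prop

private lemma G1_meas : Measurable G1 := by
  unfold G1
  have := dd_meas
  fun_prop

private lemma chir_le (r : ℝ) (x : X3) : |chir r x| ≤ (1 + ‖x 0‖) ^ 2 * (1 + ‖x 1‖) ^ 2 := by
  have h0 := norm_nonneg (x 0)
  have h1 := norm_nonneg (x 1)
  have h2 := dd_le (x 0) (x 1)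
  have h3 := zt_nonneg r (x 0)
  have h4 := zt_nonneg r (x 1)
  have h5 := zt_le_one r (x 0)
  have h6 := zt_le_one r (x 1)
  unfold chir chi
  rw [abs_mul, abs_mul, abs_mul, abs_of_nonneg h3, abs_of_nonneg h4,
    abs_of_nonneg (by positivity : 0 ≤ (3 + ‖x 0‖ + ‖x 1‖) / 6)]
  calc |dd (x 0) (x 1)| * ((3 + ‖x 0‖ + ‖x 1‖) / 6) * zt r (x 0) * zt r (x 1)
      ≤ (2 * ‖x 0‖ * ‖x 1‖) * ((3 + ‖x 0‖ + ‖x 1‖) / 6) * 1 * 1 := by gcongr
    _ ≤ _ := by
      nlinarith [mul_nonneg h0 h1, mul_nonneg h0 (mul_nonneg h0 h1),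
        mul_nonneg h1 (mul_nonneg h0 h1), mul_nonneg (mul_nonneg h0 h1) (mul_nonneg h0 h1)]

private lemma m4_int (h_hm : S_hm) : Integrable (fun y : E3 => (1 + ‖y‖) ^ 4) hm := by
  have hp : IsProbabilityMeasure hm := h_hm.1
  have h1 := (h_hm.2.2.2.2.1 4).1
  refine ((integrable_const (8 : ℝ)).add (h1.const_mul 8)).mono' (by fun_prop)
    (ae_of_all _ fun y => ?_)
  have h2 := norm_nonneg y
  rw [Real.norm_eq_abs, abs_of_nonneg (by positivity)]
  simp only [Pi.add_apply]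
  nlinarith [sq_nonneg (‖y‖ - 1), sq_nonneg (‖y‖ ^ 2 - 1), sq_nonneg (‖y‖ ^ 2 - ‖y‖),
    mul_nonneg h2 h2, pow_nonneg h2 3]

private lemma m2_int (h_hm : S_hm) : Integrable (fun y : E3 => (1 + ‖y‖) ^ 2) hm := by
  refine (m4_int h_hm).mono' (by fun_prop) (ae_of_all _ fun y => ?_)
  have h2 := norm_nonneg y
  rw [Real.norm_eq_abs, abs_of_nonneg (by positivity)]
  exact pow_le_pow_right₀ (by linarith) (by norm_num)

/-- the tail weight -/
private def gt (r : ℝ) (y : E3) : ℝ :=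
  2 * (if r / 2 < ‖y‖ then ‖y‖ ^ 2 else 0) + 2 * (if r / 2 < ‖y‖ then ‖y‖ ^ 4 else 0)

private lemma gt_int (h_hm : S_hm) (r : ℝ) : Integrable (gt r) hm ∧ ∫ y, gt r y ∂hm =
    2 * ∫ y, (if r / 2 < ‖y‖ then ‖y‖ ^ 2 else 0) ∂hm +
    2 * ∫ y, (if r / 2 < ‖y‖ then ‖y‖ ^ 4 else 0) ∂hm := by
  have hms : MeasurableSet {y : E3 | r / 2 < ‖y‖} :=
    measurableSet_lt measurable_const measurable_norm
  have h : ∀ k : ℕ, Integrable (fun y : E3 => if r / 2 < ‖y‖ then ‖y‖ ^ k else 0) hm := by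
    intro k
    have h1 := ((h_hm.2.2.2.2.1 k).1).indicator hms
    refine h1.congr (ae_of_all _ fun y => ?_)
    simp [Set.indicator_apply]
  refine ⟨((h 2).const_mul 2).add ((h 4).const_mul 2), ?_⟩
  unfold gt
  rw [integral_add ((h 2).const_mul 2) ((h 4).const_mul 2), integral_const_mul,
    integral_const_mul]

private lemma gt_nonneg (r : ℝ) (y : E3) : 0 ≤ gt r y := by
  unfold gt
  split_ifs <;> positivity

private lemma one_sub_zt {r : ℝ} (hr : 1 ≤ r) (y : E3) :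
    ((1 - zt r y) * (‖y‖ + ‖y‖ ^ 2)) ^ 2 ≤ gt r y := by
  by_cases h : r / 2 < ‖y‖
  · unfold gt
    rw [if_pos h, if_pos h]
    have h1 := zt_nonneg r y
    have h2 := zt_le_one r y
    have h3 := norm_nonneg y
    have h4 : (1 - zt r y) ^ 2 ≤ 1 := by nlinarith
    calc ((1 - zt r y) * (‖y‖ + ‖y‖ ^ 2)) ^ 2 = (1 - zt r y) ^ 2 * (‖y‖ + ‖y‖ ^ 2) ^ 2 := by ring
      _ ≤ 1 * (‖y‖ + ‖y‖ ^ 2) ^ 2 := by gcongr
      _ ≤ _ := by nlinarith [sq_nonneg (‖y‖ - ‖y‖ ^ 2)]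
  · rw [zt_one hr (by linarith)]
    simp only [sub_self, zero_mul]
    have := gt_nonneg r y
    simpa using this

/-- the error of the cut-off -/
private lemma cut_err (h_hm : S_hm) (h_prod : S_prod) (h_bl : S_bl) {r : ℝ} (hr : 1 ≤ r)
    {v : X3 → ℝ} (hv : Box S2 r v) {G : X3 → ℝ} (hG : Measurable G) {a b : Fin 3}
    (hab : a = 0 ∧ b = 1 ∨ a = 1 ∧ b = 0)
    (hGl : ∀ x : X3, |G x| ≤ (1 + ‖x a‖) * (‖x b‖ + ‖x b‖ ^ 2)) :
    Integrable (fun x => (1 - zt r (x b)) * G x * v x) pm ∧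
    |∫ x, (1 - zt r (x b)) * G x * v x ∂pm| ≤
      √((∫ y, (1 + ‖y‖) ^ 2 ∂hm) * ∫ y, gt r y ∂hm) * √(ip v v) := by
  have hvb := box_bl h_bl hv hr
  have hvm : Measurable v := (h_bl.2.2.1 v hvb).1
  have hv2 : Integrable (fun x => v x ^ 2) pm := (h_bl.2.2.1 v hvb).2.2.1
  have hGm : Measurable (fun x : X3 => (1 - zt r (x b)) * G x) := by
    have := (zt_cont r).measurable
    fun_prop
  have hle : ∀ x : X3, ((1 - zt r (x b)) * G x) ^ 2 ≤ (1 + ‖x a‖) ^ 2 * gt r (x b) := by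
    intro x
    have h1 := one_sub_zt hr (x b)
    have h2 := hGl x
    have h3 : 0 ≤ 1 - zt r (x b) := by linarith [zt_le_one r (x b)]
    have h4 := norm_nonneg (x a)
    have h5 := norm_nonneg (x b)
    have h6 : G x ^ 2 ≤ ((1 + ‖x a‖) * (‖x b‖ + ‖x b‖ ^ 2)) ^ 2 := by
      rw [← sq_abs (G x)]
      exact pow_le_pow_left₀ (abs_nonneg _) h2 2
    calc ((1 - zt r (x b)) * G x) ^ 2 = (1 - zt r (x b)) ^ 2 * G x ^ 2 := by ring
      _ ≤ (1 - zt r (x b)) ^ 2 * ((1 + ‖x a‖) * (‖x b‖ + ‖x b‖ ^ 2)) ^ 2 := by gcongr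
      _ = (1 + ‖x a‖) ^ 2 * ((1 - zt r (x b)) * (‖x b‖ + ‖x b‖ ^ 2)) ^ 2 := by ring
      _ ≤ _ := by gcongr
  have hI : Integrable (fun x : X3 => (1 + ‖x a‖) ^ 2 * gt r (x b)) pm ∧
      ∫ x : X3, (1 + ‖x a‖) ^ 2 * gt r (x b) ∂pm =
        (∫ y, (1 + ‖y‖) ^ 2 ∂hm) * ∫ y, gt r y ∂hm := by
    rcases hab with ⟨rfl, rfl⟩ | ⟨rfl, rfl⟩
    · exact ⟨ible2 h_hm (g0 := fun y => (1 + ‖y‖) ^ 2) (g1 := gt r) (m2_int h_hm)
        (gt_int h_hm r).1, int2 h_hm h_prod (fun y => (1 + ‖y‖) ^ 2) (gt r)⟩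
    · have e : ∀ x : X3, (1 + ‖x 1‖) ^ 2 * gt r (x 0) = gt r (x 0) * (1 + ‖x 1‖) ^ 2 :=
        fun x => mul_comm _ _
      simp only [e]
      refine ⟨ible2 h_hm (g0 := gt r) (g1 := fun y => (1 + ‖y‖) ^ 2) (gt_int h_hm r).1
        (m2_int h_hm), ?_⟩
      rw [int2 h_hm h_prod (gt r) (fun y => (1 + ‖y‖) ^ 2), mul_comm]
  have hi2 : Integrable (fun x : X3 => ((1 - zt r (x b)) * G x) ^ 2) pm := by
    refine hI.1.mono' (hGm.pow_const 2).aestronglyMeasurable (ae_of_all _ fun x => ?_)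
    rw [Real.norm_eq_abs, abs_of_nonneg (sq_nonneg _)]
    exact hle x
  have h1 := cs hGm.aestronglyMeasurable hvm.aestronglyMeasurable hi2 hv2
  refine ⟨h1.1, h1.2.trans ?_⟩
  have e1 : ip v v = ∫ x, v x ^ 2 ∂pm := by
    unfold ip
    simp only [sq]
  rw [e1]
  refine mul_le_mul_of_nonneg_right (Real.sqrt_le_sqrt ?_) (Real.sqrt_nonneg _)
  rw [← hI.2]
  exact integral_mono hi2 hI.1 hle

private lemma Dj2 (r : ℝ) (v : X3 → ℝ) : Dj 2 (chir r) v = 0 := by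
  unfold Dj
  refine Finset.sum_eq_zero fun c _ => ?_
  have h1 : ∀ x : X3, pd 2 c (chir r) x = 0 := by
    intro x
    unfold pd lineDeriv
    have e : (fun t : ℝ => chir r (x + t • (Pi.single 2 (ec c) : X3))) = fun _ => chir r x := by
      funext t
      have e0 : (x + t • (Pi.single 2 (ec c) : X3)) 0 = x 0 := by simp
      have e1 : (x + t • (Pi.single 2 (ec c) : X3)) 1 = x 1 := by simp
      simp only [chir, chi, e0, e1]
    rw [e]
    simp
  simp only [h1, zero_mul, integral_zero]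

end main

end Chi

open Chi in
/-- D1: weak equation of the trial function -/
theorem p_chi (h_hm : S_hm) (h_wlist : S_wlist) (h_prod : S_prod) (h_bl : S_bl) (h_form : S_form)
    (h_lift : S_lift) : S_chi := by
  have hp : IsProbabilityMeasure hm := h_hm.1
  obtain ⟨C, -, hX, hR, -⟩ := h_wlist
  have hX' : ∀ c, WSol (fX c) (kX c) C := hX
  have hR' : ∀ c, WSol (fR c) (kR c) C := hR
  have hC0 : 0 ≤ C := (hX 0).nonneg
  obtain ⟨C2, hC2⟩ := h_hm.2.2.2.2.2.1 2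
  obtain ⟨C4, hC4⟩ := h_hm.2.2.2.2.2.1 4
  set A : ℝ := ∫ y : E3, (1 + ‖y‖) ^ 2 ∂hm with hA
  have hA0 : 0 ≤ A := integral_nonneg fun y => by positivity
  set m : ℝ := ∫ y : E3, (1 + ‖y‖) ^ 4 ∂hm with hm'
  have hm0 : 0 ≤ m := integral_nonneg fun y => by positivity
  set K1 : ℝ := 20 / 3 * (C * √C) + 2 * √(A * (2 * (|C2| + |C4|))) with hK1
  have hK10 : 0 ≤ K1 := by positivity
  -- the weak equation
  have main : ∀ r : ℝ, 1 ≤ r → ∀ v, Box S2 r v →
      |DD (chir r) v - ∫ x, (dd (x 0) (x 1) + rho x) * v x ∂pm| ≤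
        K1 * Real.exp (-r / 8) * √(DD v v + ip v v) := by
    intro r hr v hv
    have hvb : BL v := h_bl.2.2.2.1 S2 r v hv (by linarith) ⟨0, by simp [S2]⟩
    obtain ⟨hcb, i0, l0⟩ := eq0 h_hm h_prod h_bl h_form h_lift hX' hR' hr hv
    obtain ⟨i1, l1⟩ := eq1 h_hm h_prod h_bl h_form h_lift hX' hR' hr hv
    obtain ⟨j0, k0⟩ := cut_err h_hm h_prod h_bl hr hv G0_meas (a := 0) (b := 1)
      (Or.inl ⟨rfl, rfl⟩) G0_le
    obtain ⟨j1, k1⟩ := cut_err h_hm h_prod h_bl hr hv G1_meas (a := 1) (b := 0)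
      (Or.inr ⟨rfl, rfl⟩) G1_le
    have eDD : DD (chir r) v = Dj 0 (chir r) v + Dj 1 (chir r) v := by
      unfold DD
      rw [Fin.sum_univ_three, Dj2, add_zero]
    have hnn : ∀ j, 0 ≤ Dj j v v := fun j => (h_form.1 j v v v hvb hvb hvb 0).2.1
    have hip : 0 ≤ ip v v := integral_nonneg fun x => mul_self_nonneg _
    have hDDv : DD v v = Dj 0 v v + Dj 1 v v + Dj 2 v v := by
      unfold DD
      rw [Fin.sum_univ_three]
    have hgt : ∫ y, gt r y ∂hm ≤ 2 * (|C2| + |C4|) * Real.exp (-r / 4) := by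
      rw [(gt_int h_hm r).2]
      have h1 := hC2 r hr
      have h2 := hC4 r hr
      have h3 := le_abs_self C2
      have h4 := le_abs_self C4
      have h5 := Real.exp_pos (-r / 4)
      nlinarith [mul_le_mul_of_nonneg_right h3 h5.le, mul_le_mul_of_nonneg_right h4 h5.le]
    have hsq : √(A * ∫ y, gt r y ∂hm) ≤
        √(A * (2 * (|C2| + |C4|))) * Real.exp (-r / 8) := by
      have e : Real.exp (-r / 8) = √(Real.exp (-r / 4)) := by
        rw [← Real.exp_half]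
        congr 1
        ring
      rw [e, ← Real.sqrt_mul (by positivity)]
      apply Real.sqrt_le_sqrt
      rw [mul_assoc]
      exact mul_le_mul_of_nonneg_left hgt hA0
    have hE := Real.exp_pos (-r / 8)
    set N := √(DD v v + ip v v) with hN
    have n0 : √(Dj 0 v v) ≤ N := Real.sqrt_le_sqrt (by
      rw [hDDv]; linarith [hnn 1, hnn 2])
    have n1 : √(Dj 1 v v) ≤ N := Real.sqrt_le_sqrt (by
      rw [hDDv]; linarith [hnn 0, hnn 2])
    have n2 : √(ip v v) ≤ N := Real.sqrt_le_sqrt (by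
      rw [hDDv]; linarith [hnn 0, hnn 1, hnn 2])
    have hN0 : 0 ≤ N := Real.sqrt_nonneg _
    have l0' : |Dj 0 (chir r) v - ∫ x, zt r (x 1) * G0 x * v x ∂pm| ≤
        10 / 3 * (C * √C) * Real.exp (-r / 8) * N := by
      refine l0.trans ?_
      calc 10 / 3 * (C * Real.exp (-r / 8) * √C * √(Dj 0 v v)) ≤
            10 / 3 * (C * Real.exp (-r / 8) * √C * N) := by gcongr
        _ = _ := by ring
    have l1' : |Dj 1 (chir r) v - ∫ x, zt r (x 0) * G1 x * v x ∂pm| ≤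
        10 / 3 * (C * √C) * Real.exp (-r / 8) * N := by
      refine l1.trans ?_
      calc 10 / 3 * (C * Real.exp (-r / 8) * √C * √(Dj 1 v v)) ≤
            10 / 3 * (C * Real.exp (-r / 8) * √C * N) := by gcongr
        _ = _ := by ring
    have k0' : |∫ x, (1 - zt r (x 1)) * G0 x * v x ∂pm| ≤
        √(A * (2 * (|C2| + |C4|))) * Real.exp (-r / 8) * N :=
      k0.trans (mul_le_mul hsq n2 (Real.sqrt_nonneg _) (by positivity))
    have k1' : |∫ x, (1 - zt r (x 0)) * G1 x * v x ∂pm| ≤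
        √(A * (2 * (|C2| + |C4|))) * Real.exp (-r / 8) * N :=
      k1.trans (mul_le_mul hsq n2 (Real.sqrt_nonneg _) (by positivity))
    have eI : ∫ x, (dd (x 0) (x 1) + rho x) * v x ∂pm =
        (∫ x, zt r (x 1) * G0 x * v x ∂pm + ∫ x, zt r (x 0) * G1 x * v x ∂pm) +
        (∫ x, (1 - zt r (x 1)) * G0 x * v x ∂pm + ∫ x, (1 - zt r (x 0)) * G1 x * v x ∂pm) := by
      have a1 : Integrable (fun x => zt r (x 1) * G0 x * v x + zt r (x 0) * G1 x * v x) pm :=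
        i0.add i1
      have a2 : Integrable (fun x => (1 - zt r (x 1)) * G0 x * v x +
        (1 - zt r (x 0)) * G1 x * v x) pm := j0.add j1
      rw [← integral_add i0 i1, ← integral_add j0 j1, ← integral_add a1 a2]
      refine integral_congr_ae (ae_of_all _ fun x => ?_)
      simp only [G0, G1, rho]
      ring
    rw [eDD, eI]
    have e5 : Dj 0 (chir r) v + Dj 1 (chir r) v -
        ((∫ x, zt r (x 1) * G0 x * v x ∂pm + ∫ x, zt r (x 0) * G1 x * v x ∂pm) +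
        (∫ x, (1 - zt r (x 1)) * G0 x * v x ∂pm + ∫ x, (1 - zt r (x 0)) * G1 x * v x ∂pm)) =
        (Dj 0 (chir r) v - ∫ x, zt r (x 1) * G0 x * v x ∂pm) +
        (Dj 1 (chir r) v - ∫ x, zt r (x 0) * G1 x * v x ∂pm) -
        (∫ x, (1 - zt r (x 1)) * G0 x * v x ∂pm) -
        (∫ x, (1 - zt r (x 0)) * G1 x * v x ∂pm) := by ring
    rw [e5]
    calc _ ≤ |Dj 0 (chir r) v - ∫ x, zt r (x 1) * G0 x * v x ∂pm| +
        |Dj 1 (chir r) v - ∫ x, zt r (x 0) * G1 x * v x ∂pm| +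
        |∫ x, (1 - zt r (x 1)) * G0 x * v x ∂pm| +
        |∫ x, (1 - zt r (x 0)) * G1 x * v x ∂pm| :=
          (abs_sub _ _).trans (add_le_add_left ((abs_sub _ _).trans
            (add_le_add_left (abs_add_le _ _) _)) _)
      _ ≤ 10 / 3 * (C * √C) * Real.exp (-r / 8) * N + 10 / 3 * (C * √C) * Real.exp (-r / 8) * N
          + √(A * (2 * (|C2| + |C4|))) * Real.exp (-r / 8) * N
          + √(A * (2 * (|C2| + |C4|))) * Real.exp (-r / 8) * N := by
          linarith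
      _ = _ := by rw [hK1]; ring
  -- the box
  have hbox : ∀ r : ℝ, 1 ≤ r → Box S2 r (chir r) := by
    intro r hr
    have hz : Box S2 r (fun _ => 0) :=
      ⟨⟨0, LipschitzWith.const 0⟩, fun x hx => absurd rfl hx, fun j _ x y => rfl⟩
    obtain ⟨hcb, -, -⟩ := eq0 h_hm h_prod h_bl h_form h_lift hX' hR' hr hz
    refine ⟨hcb.lip, fun x hx j hj => ?_, fun j hj x y => ?_⟩
    · have h1 : zt r (x 1) ≠ 0 := right_ne_zero_of_mul hx
      have h2 : zt r (x 0) ≠ 0 := right_ne_zero_of_mul (left_ne_zero_of_mul hx)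
      simp only [S2, Finset.mem_insert, Finset.mem_singleton] at hj
      rcases hj with rfl | rfl
      · exact zt_supp hr h2
      · exact zt_supp hr h1
    · have h1 : j = 2 := by
        fin_cases j
        · exact absurd (by simp [S2]) hj
        · exact absurd (by simp [S2]) hj
        · rfl
      subst h1
      simp [chir, chi]
  -- the Dirichlet form
  refine ⟨1 + K1 + (5 * m ^ 2 + K1 ^ 2), by nlinarith [sq_nonneg m, sq_nonneg K1],
    fun r hr => ⟨hbox r hr, ?_, fun v hv => ?_⟩⟩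
  · have h1 := main r hr (chir r) (hbox r hr)
    have hcb : BL (chir r) := h_bl.2.2.2.1 S2 r _ (hbox r hr) (by linarith) ⟨0, by simp [S2]⟩
    have hcm : Measurable (chir r) := (h_bl.2.2.1 _ hcb).1
    have hI : Integrable (fun x : X3 => (1 + ‖x 0‖) ^ 4 * (1 + ‖x 1‖) ^ 4) pm :=
      ible2 h_hm (g0 := fun y => (1 + ‖y‖) ^ 4) (g1 := fun y => (1 + ‖y‖) ^ 4) (m4_int h_hm)
        (m4_int h_hm)
    have hIe : ∫ x : X3, (1 + ‖x 0‖) ^ 4 * (1 + ‖x 1‖) ^ 4 ∂pm = m * m :=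
      int2 h_hm h_prod (fun y => (1 + ‖y‖) ^ 4) (fun y => (1 + ‖y‖) ^ 4)
    have hip : ip (chir r) (chir r) ≤ m * m := by
      rw [← hIe]
      refine integral_mono_of_nonneg (ae_of_all _ fun x => mul_self_nonneg _) hI
        (ae_of_all _ fun x => ?_)
      have h2 := chir_le r x
      calc chir r x * chir r x = |chir r x| * |chir r x| := (abs_mul_abs_self _).symm
        _ ≤ ((1 + ‖x 0‖) ^ 2 * (1 + ‖x 1‖) ^ 2) * ((1 + ‖x 0‖) ^ 2 * (1 + ‖x 1‖) ^ 2) :=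
            mul_le_mul h2 h2 (abs_nonneg _) (by positivity)
        _ = _ := by ring
    have hip0 : 0 ≤ ip (chir r) (chir r) := integral_nonneg fun x => mul_self_nonneg _
    have hJ : |∫ x, (dd (x 0) (x 1) + rho x) * chir r x ∂pm| ≤ 2 * (m * m) := by
      rw [← hIe, ← integral_const_mul]
      refine (abs_integral_le_integral_abs).trans ?_
      refine integral_mono_of_nonneg (ae_of_all _ fun x => abs_nonneg _) (hI.const_mul 2)
        (ae_of_all _ fun x => ?_)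
      have h2 := chir_le r x
      have h3 : |dd (x 0) (x 1) + rho x| ≤ 2 * ((1 + ‖x 0‖) ^ 2 * (1 + ‖x 1‖) ^ 2) := by
        have e : dd (x 0) (x 1) + rho x = G0 x + G1 x := by
          simp only [G0, G1, rho]
          ring
        rw [e]
        have h4 := G0_le x
        have h5 := G1_le x
        have h6 := norm_nonneg (x 0)
        have h7 := norm_nonneg (x 1)
        have h8 : (1 + ‖x 0‖) * (‖x 1‖ + ‖x 1‖ ^ 2) ≤ (1 + ‖x 0‖) ^ 2 * (1 + ‖x 1‖) ^ 2 := by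
          have a1 : 1 + ‖x 0‖ ≤ (1 + ‖x 0‖) ^ 2 := by nlinarith
          have a2 : ‖x 1‖ + ‖x 1‖ ^ 2 ≤ (1 + ‖x 1‖) ^ 2 := by nlinarith
          exact mul_le_mul a1 a2 (by positivity) (by positivity)
        have h9 : (1 + ‖x 1‖) * (‖x 0‖ + ‖x 0‖ ^ 2) ≤ (1 + ‖x 0‖) ^ 2 * (1 + ‖x 1‖) ^ 2 := by
          have a1 : 1 + ‖x 1‖ ≤ (1 + ‖x 1‖) ^ 2 := by nlinarith
          have a2 : ‖x 0‖ + ‖x 0‖ ^ 2 ≤ (1 + ‖x 0‖) ^ 2 := by nlinarith
          have := mul_le_mul a1 a2 (by positivity) (by positivity)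
          linarith
        have h10 := abs_add_le (G0 x) (G1 x)
        linarith
      calc |(dd (x 0) (x 1) + rho x) * chir r x| = |dd (x 0) (x 1) + rho x| * |chir r x| :=
            abs_mul _ _
        _ ≤ (2 * ((1 + ‖x 0‖) ^ 2 * (1 + ‖x 1‖) ^ 2)) * ((1 + ‖x 0‖) ^ 2 * (1 + ‖x 1‖) ^ 2) :=
            mul_le_mul h3 h2 (abs_nonneg _) (by positivity)
        _ = _ := by ring
    set D := DD (chir r) (chir r) with hD
    have hD0 : 0 ≤ D := by
      rw [hD]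
      exact Finset.sum_nonneg fun j _ => (h_form.1 j _ _ _ hcb hcb hcb 0).2.1
    have hE1 : Real.exp (-r / 8) ≤ 1 := Real.exp_le_one_iff.mpr (by linarith)
    have hE0 := Real.exp_pos (-r / 8)
    have h2 : K1 * Real.exp (-r / 8) * √(D + ip (chir r) (chir r)) ≤
        K1 ^ 2 / 2 + (D + m * m) / 2 := by
      have h3 : √(D + ip (chir r) (chir r)) ≤ √(D + m * m) := Real.sqrt_le_sqrt (by linarith)
      have h4 : √(D + m * m) ^ 2 = D + m * m := Real.sq_sqrt (by positivity)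
      calc K1 * Real.exp (-r / 8) * √(D + ip (chir r) (chir r)) ≤ K1 * 1 * √(D + m * m) := by
            gcongr
        _ ≤ _ := by nlinarith [sq_nonneg (K1 - √(D + m * m))]
    have h5 := (abs_le.mp h1).2
    have h6 := (abs_le.mp hJ).2
    have h7 : D ≤ 5 * (m * m) + K1 ^ 2 := by linarith
    have h8 : m * m = m ^ 2 := (sq m).symm
    rw [h8] at h7
    linarith
  · refine (main r hr v hv).trans ?_
    have hE := Real.exp_pos (-r / 8)
    have hK : K1 ≤ 1 + K1 + (5 * m ^ 2 + K1 ^ 2) := by nlinarith [sq_nonneg m, sq_nonneg K1]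
    exact mul_le_mul_of_nonneg_right (mul_le_mul_of_nonneg_right hK hE.le) (Real.sqrt_nonneg _)

end MolDis.H
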