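import Pool.Agent.Lib.MP_59f35a_mp.HStmts

/-!
# MP_59f35a_mp, piece P6: averaging out the third variable
-/

set_option autoImplicit false

noncomputable section

open MeasureTheory
open scoped Topology

namespace MolDis.H

namespace Comm

lemma upd_dist (x x' : X3) (j : Fin 3) (y : E3) :
    dist (Function.update x j y) (Function.update x' j y) ≤ dist x x' := by
  rw [dist_pi_le_iff dist_nonneg]
  intro i
  by_cases h : i = j
  · subst h
    simp
  · rw [Function.update_of_ne h, Function.update_of_ne h]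
    exact dist_le_pi_dist x x' i

lemma upd_add (x : X3) (j : Fin 3) (hj : j ≠ 2) (t : ℝ) (v y : E3) :
    Function.update (x + t • (Pi.single j v : X3)) 2 y =
      Function.update x 2 y + t • (Pi.single j v : X3) := by
  funext i
  by_cases h : i = 2
  · subst h
    simp [Pi.single_eq_of_ne (Ne.symm hj)]
  · simp [Function.update_of_ne h]

lemma ae_slices (hhm : S_hm) (hP : S_prod) (j : Fin 3) {P : X3 → Prop} (h : ∀ᵐ x ∂pm, P x) :
    ∀ᵐ x ∂pm, ∀ᵐ y ∂hm, P (Function.update x j y) := by
  have hpr : IsProbabilityMeasure hm := hhm.1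
  have h1 : ∀ᵐ p ∂(pm.prod hm), P (Function.update p.1 j p.2) :=
    (hP.2.1 j).quasiMeasurePreserving.ae h
  exact Measure.ae_ae_of_ae_prod h1

lemma bint (hP : S_prod) {F : X3 → ℝ} (hm : Measurable F) (hB : ∃ K : ℝ, ∀ x, |F x| ≤ K) :
    Integrable F pm := by
  have := hP.1
  obtain ⟨K, hK⟩ := hB
  exact Integrable.of_bound hm.aestronglyMeasurable K (ae_of_all _ hK)

lemma mulb {F G : X3 → ℝ} (hF : ∃ K : ℝ, ∀ x, |F x| ≤ K) (hG : ∃ K : ℝ, ∀ x, |G x| ≤ K) :
    ∃ K : ℝ, ∀ x, |F x * G x| ≤ K := by
  obtain ⟨K, hK⟩ := hF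
  obtain ⟨L, hL⟩ := hG
  refine ⟨K * L, fun x => ?_⟩
  rw [abs_mul]
  exact mul_le_mul (hK x) (hL x) (abs_nonneg _) ((abs_nonneg _).trans (hK x))

/-- averaging against functions which do not depend on the variable -/
lemma avg (hP : S_prod) (j : Fin 3) {F G : X3 → ℝ} (hFm : Measurable F)
    (hFb : ∃ K : ℝ, ∀ x, |F x| ≤ K) (hGm : Measurable G) (hGb : ∃ K : ℝ, ∀ x, |G x| ≤ K)
    (hG : ∀ x y, G (Function.update x j y) = G x) :
    ∫ x, Pj j F x * G x ∂pm = ∫ x, F x * G x ∂pm := by
  have hi : Integrable (fun x => F x * G x) pm := bint hP (hFm.mul hGm) (mulb hFb hGb)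
  rw [← (hP.2.2.1 j (fun x => F x * G x) hi).2.2]
  refine integral_congr_ae (ae_of_all _ fun x => ?_)
  show Pj j F x * G x = ∫ y, F (Function.update x j y) * G (Function.update x j y) ∂hm
  simp only [hG]
  rw [integral_mul_const]
  rfl

/-- the derivative of the average -/
lemma pd_avg (hhm : S_hm) (hP : S_prod) (hbl : S_bl) {f : X3 → ℝ} (hf : BL f) (j c : Fin 3)
    (hj : j ≠ 2) : ∀ᵐ x ∂pm, pd j c (Pj 2 f) x = Pj 2 (pd j c f) x := by
  have hpr : IsProbabilityMeasure hm := hhm.1
  obtain ⟨K, hK⟩ := hf.lip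
  obtain ⟨B, hB⟩ := hf.bdd
  obtain ⟨hpm, -⟩ := (hbl.2.2.1 f hf).2.2.2.1 j c
  filter_upwards [ae_slices hhm hP 2 ((hbl.2.2.1 f hf).2.2.2.2 j c)] with x hx
  have hupd : Measurable fun y : E3 => Function.update x 2 y := measurable_update x
  have hkey := hasDerivAt_integral_of_dominated_loc_of_lip (μ := hm) (𝕜 := ℝ)
    (F := fun t y => f (Function.update x 2 y + t • (Pi.single j (ec c) : X3)))
    (F' := fun y => pd j c f (Function.update x 2 y)) (x₀ := (0 : ℝ)) (s := Set.univ)
    (bound := fun _ => K * ‖(Pi.single j (ec c) : X3)‖) Filter.univ_mem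
    (Filter.Eventually.of_forall fun t =>
      (hK.continuous.measurable.comp (hupd.add_const _)).aestronglyMeasurable)
    (Integrable.of_bound (hK.continuous.measurable.comp
      (hupd.add_const _)).aestronglyMeasurable B (ae_of_all _ fun y => hB _))
    (hpm.comp hupd).aestronglyMeasurable
    (ae_of_all _ fun y => by
      refine LipschitzOnWith.of_dist_le_mul fun t _ s _ => ?_
      have h0 : (0 : ℝ) ≤ K * ‖(Pi.single j (ec c) : X3)‖ :=
        mul_nonneg K.coe_nonneg (norm_nonneg _)
      rw [Real.coe_nnabs, abs_of_nonneg h0]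
      refine (hK.dist_le_mul _ _).trans ?_
      rw [dist_add_left, dist_eq_norm, ← sub_smul, norm_smul, ← dist_eq_norm]
      exact le_of_eq (by ring))
    (integrable_const _)
    (by
      filter_upwards [hx] with y hy
      exact hy.hasLineDerivAt)
  have h2 := hkey.2
  have h3 : (fun t : ℝ => ∫ y, f (Function.update x 2 y + t • (Pi.single j (ec c) : X3)) ∂hm) =
      fun t : ℝ => Pj 2 f (x + t • (Pi.single j (ec c) : X3)) := by
    funext t
    show _ = ∫ y, f (Function.update (x + t • (Pi.single j (ec c) : X3)) 2 y) ∂hm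
    simp only [upd_add x j hj]
  rw [h3] at h2
  exact h2.deriv

/-- no derivative in the direction of a variable on which the function does not depend -/
lemma pd_ind {ψ : X3 → ℝ} (c : Fin 3) (h : ∀ x y, ψ (Function.update x 2 y) = ψ x) (x : X3) :
    pd 2 c ψ x = 0 := by
  have h1 : ∀ t : ℝ, ψ (x + t • (Pi.single 2 (ec c) : X3)) = ψ x := by
    intro t
    have h2 : x + t • (Pi.single 2 (ec c) : X3) = Function.update x 2 (x 2 + t • ec c) := by
      funext i
      by_cases hi : i = 2
      · subst hi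
        simp
      · simp [Function.update_of_ne hi, Pi.single_eq_of_ne hi]
    rw [h2, h]
  unfold pd lineDeriv
  simp only [h1]
  exact deriv_const _ _

lemma pd_upd {ψ : X3 → ℝ} (j c : Fin 3) (hj : j ≠ 2)
    (h : ∀ x y, ψ (Function.update x 2 y) = ψ x) (x : X3) (y : E3) :
    pd j c ψ (Function.update x 2 y) = pd j c ψ x := by
  unfold pd lineDeriv
  congr 1
  funext t
  rw [← upd_add x j hj, h]

end Comm

open Comm

theorem p_comm (hhm : S_hm) (hprod : S_prod) (hbl : S_bl) : S_comm := by
  intro r f hr hf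
  have hpr : IsProbabilityMeasure hm := hhm.1
  have hpp : IsProbabilityMeasure pm := hprod.1
  have hfBL : BL f := hbl.2.2.2.1 S3 r f hf hr ⟨0, Finset.mem_univ _⟩
  obtain ⟨hfm, -, -, hfd, -⟩ := hbl.2.2.1 f hfBL
  obtain ⟨K, hK⟩ := hf.lip
  obtain ⟨B, hB⟩ := hfBL.bdd
  have hint : ∀ x : X3, Integrable (fun y : E3 => f (Function.update x 2 y)) hm := fun x =>
    Integrable.of_bound (hfm.comp (measurable_update x)).aestronglyMeasurable B
      (ae_of_all _ fun y => hB _)
  have hbox : Box S2 r (Pj 2 f) := by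
    refine ⟨⟨K, LipschitzWith.of_dist_le_mul fun x x' => ?_⟩, ?_, ?_⟩
    · have h1 : Pj 2 f x - Pj 2 f x' =
          ∫ y, (f (Function.update x 2 y) - f (Function.update x' 2 y)) ∂hm :=
        (integral_sub (hint x) (hint x')).symm
      rw [Real.dist_eq, h1, ← Real.norm_eq_abs]
      have h2 := norm_integral_le_of_norm_le_const (μ := hm)
        (f := fun y => f (Function.update x 2 y) - f (Function.update x' 2 y))
        (C := K * dist x x') (ae_of_all _ fun y => by
          rw [Real.norm_eq_abs, ← Real.dist_eq]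
          exact (hK.dist_le_mul _ _).trans
            (mul_le_mul_of_nonneg_left (upd_dist x x' 2 y) K.coe_nonneg))
      simpa using h2
    · intro x hx j hj
      have h1 : ∃ y, f (Function.update x 2 y) ≠ 0 := by
        by_contra hc
        push Not at hc
        apply hx
        show ∫ y, f (Function.update x 2 y) ∂hm = 0
        simp [hc]
      obtain ⟨y, hy⟩ := h1
      have h2 := hf.supp _ hy j (Finset.mem_univ _)
      have h3 : j ≠ 2 := by
        rintro rfl
        simp [S2] at hj
      rwa [Function.update_of_ne h3] at h2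
    · intro j hj x y
      have h3 : j = 2 := by
        fin_cases j
        · simp [S2] at hj
        · simp [S2] at hj
        · rfl
      subst h3
      show ∫ z, f (Function.update (Function.update x 2 y) 2 z) ∂hm =
        ∫ z, f (Function.update x 2 z) ∂hm
      simp only [Function.update_idem]
  refine ⟨hbox, ?_, ?_⟩
  · intro ψ hψ
    have hψBL : BL ψ := hbl.2.2.2.1 S2 r ψ hψ hr ⟨0, by simp [S2]⟩
    obtain ⟨hψm, -, -, hψd, -⟩ := hbl.2.2.1 ψ hψBL
    have hind : ∀ x y, ψ (Function.update x 2 y) = ψ x := hψ.ind 2 (by simp [S2])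
    unfold DD
    refine Finset.sum_congr rfl fun j _ => ?_
    unfold Dj
    refine Finset.sum_congr rfl fun c _ => ?_
    by_cases hj : j = 2
    · subst hj
      simp [pd_ind c hind]
    · rw [← avg hprod 2 (hfd j c).1 (hfd j c).2 (hψd j c).1 (hψd j c).2
        (pd_upd j c hj hind)]
      refine integral_congr_ae ?_
      filter_upwards [pd_avg hhm hprod hbl hfBL j c hj] with x hx
      rw [hx]
  · intro G hG hind
    obtain ⟨hGm, -⟩ := hbl.2.2.1 G hG
    exact avg hprod 2 hfm hfBL.bdd hGm hG.bdd hind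

end MolDis.H
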