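import Pool.Agent.Lib.MP_59f35a_mp.HStmts

/-!
# MP_59f35a_mp : piece H4, the ground state representation (helper41)
-/

set_option autoImplicit false

noncomputable section

open MeasureTheory Filter Topology

namespace MolDis.H.Conv

/-- norm of a functional -/
lemma norm_sq_dual (L : E3 →L[ℝ] ℝ) : ‖L‖ ^ 2 = ∑ c, (L (ec c)) ^ 2 := by
  have h1 : ‖L‖ = ‖(InnerProductSpace.toDual ℝ E3).symm L‖ := by simp
  rw [h1, ← OrthonormalBasis.sum_sq_norm_inner_right (EuclideanSpace.basisFun (Fin 3) ℝ)]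
  refine Finset.sum_congr rfl fun k _ => ?_
  rw [EuclideanSpace.basisFun_apply, real_inner_comm, InnerProductSpace.toDual_symm_apply,
    Real.norm_eq_abs, sq_abs]
  rfl

lemma cont {f : E3 → ℝ} (hf : LC1 f) : Continuous f := by
  obtain ⟨K, hK⟩ := hf.lip
  exact hK.continuous

lemma bdd {f : E3 → ℝ} (hf : LC1 f) : ∃ B : ℝ, 0 ≤ B ∧ ∀ x, |f x| ≤ B := by
  obtain ⟨R, hR⟩ := hf.supp
  have hc : HasCompactSupport f := by
    refine HasCompactSupport.intro (isCompact_closedBall (0 : E3) R) fun x hx => ?_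
    by_contra hne
    exact hx (by rw [mem_closedBall_zero_iff]; exact hR x hne)
  obtain ⟨B, hB⟩ := (cont hf).bounded_above_of_compact_support hc
  exact ⟨B, (norm_nonneg _).trans (hB 0), hB⟩

lemma lc_mul {f E : E3 → ℝ} (hf : LC1 f)
    (hE : ∀ R : ℝ, ∃ K : ℝ, ∀ x y, ‖x‖ ≤ R → ‖y‖ ≤ R → |E x - E y| ≤ K * ‖x - y‖) :
    LC1 (fun x => E x * f x) := by
  obtain ⟨Kf, hKf⟩ := hf.lip
  obtain ⟨R, hR⟩ := hf.supp
  obtain ⟨B, hB0, hB⟩ := bdd hf
  obtain ⟨KE, hKE⟩ := hE |R|
  have hf2 : ∀ x y, |f x - f y| ≤ Kf * ‖x - y‖ := by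
    intro x y
    have := hKf.dist_le_mul x y
    rwa [Real.dist_eq, dist_eq_norm] at this
  obtain ⟨M, hM0, hM⟩ : ∃ M : ℝ, 0 ≤ M ∧ ∀ x, ‖x‖ ≤ |R| → |E x| ≤ M := by
    refine ⟨|E 0| + |KE| * |R|, by positivity, fun x hx => ?_⟩
    have h1 := hKE x 0 hx (by rw [norm_zero]; exact abs_nonneg _)
    rw [sub_zero] at h1
    have h2 : |E x| ≤ |E 0| + |E x - E 0| := by
      have := abs_add_le (E 0) (E x - E 0)
      rwa [add_sub_cancel] at this
    refine h2.trans (by
      gcongr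
      refine h1.trans ?_
      exact mul_le_mul (le_abs_self _) hx (norm_nonneg _) (abs_nonneg _))
  have hout : ∀ x, ¬ ‖x‖ ≤ |R| → f x = 0 := by
    intro x hx
    by_contra hne
    exact hx ((hR x hne).trans (le_abs_self _))
  refine ⟨⟨Real.toNNReal (M * Kf + B * |KE|), LipschitzWith.of_dist_le_mul fun x y => ?_⟩,
    ⟨R, fun x hx => hR x (fun h => hx (by rw [h, mul_zero]))⟩⟩
  rw [Real.coe_toNNReal _ (by positivity), Real.dist_eq, dist_eq_norm]
  have hn := norm_nonneg (x - y)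
  have hK0 : (0 : ℝ) ≤ Kf := Kf.2
  by_cases hx : ‖x‖ ≤ |R|
  · by_cases hy : ‖y‖ ≤ |R|
    · calc |E x * f x - E y * f y| = |E x * (f x - f y) + f y * (E x - E y)| := by
            congr 1; ring
        _ ≤ |E x| * |f x - f y| + |f y| * |E x - E y| := by
            rw [← abs_mul, ← abs_mul]; exact abs_add_le _ _
        _ ≤ M * (Kf * ‖x - y‖) + B * (|KE| * ‖x - y‖) := by
            gcongr
            · exact hM x hx
            · exact hf2 x y
            · exact hB y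
            · exact (hKE x y hx hy).trans (by gcongr; exact le_abs_self _)
        _ = _ := by ring
    · have h0 := hout y hy
      calc |E x * f x - E y * f y| = |E x| * |f x - f y| := by
            rw [h0, mul_zero, sub_zero, sub_zero, abs_mul]
        _ ≤ M * (Kf * ‖x - y‖) := by
            gcongr
            · exact hM x hx
            · exact hf2 x y
        _ ≤ _ := by
            have : 0 ≤ B * |KE| * ‖x - y‖ := by positivity
            nlinarith
  · have h0 := hout x hx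
    by_cases hy : ‖y‖ ≤ |R|
    · calc |E x * f x - E y * f y| = |E y| * |f x - f y| := by
            rw [h0, mul_zero, zero_sub, zero_sub, abs_neg, abs_neg, abs_mul]
        _ ≤ M * (Kf * ‖x - y‖) := by
            gcongr
            · exact hM y hy
            · exact hf2 x y
        _ ≤ _ := by
            have : 0 ≤ B * |KE| * ‖x - y‖ := by positivity
            nlinarith
    · have h0' := hout y hy
      rw [h0, h0', mul_zero, mul_zero, sub_zero, abs_zero]
      positivity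

/-- the weight -/
def wt (x : E3) : ℝ := √(8 * Real.pi) * Real.exp (‖x‖ / 2)

lemma exp_lip (a b M : ℝ) (ha : a ≤ M) (hb : b ≤ M) :
    |Real.exp a - Real.exp b| ≤ Real.exp M * |a - b| := by
  have key : ∀ a b : ℝ, a ≤ M → b ≤ a → |Real.exp a - Real.exp b| ≤ Real.exp M * |a - b| := by
    intro a b ha hba
    have h1 := Real.add_one_le_exp (b - a)
    have h2 : Real.exp b = Real.exp a * Real.exp (b - a) := by
      rw [← Real.exp_add]; congr 1; ring
    have h3 : Real.exp b ≤ Real.exp a := Real.exp_le_exp.2 hba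
    have h4 := Real.exp_le_exp.2 ha
    rw [abs_of_nonneg (by linarith), abs_of_nonneg (by linarith)]
    have h5 := Real.exp_pos a
    calc Real.exp a - Real.exp b ≤ Real.exp a * (a - b) := by
          rw [h2]; nlinarith
      _ ≤ _ := mul_le_mul_of_nonneg_right h4 (by linarith)
  rcases le_total b a with h | h
  · exact key a b ha h
  · rw [abs_sub_comm, abs_sub_comm a b]
    exact key b a hb h

lemma wt_lip (R : ℝ) : ∃ K : ℝ, ∀ x y : E3, ‖x‖ ≤ R → ‖y‖ ≤ R → |wt x - wt y| ≤ K * ‖x - y‖ := by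
  refine ⟨√(8 * Real.pi) * (Real.exp (R / 2) / 2), fun x y hx hy => ?_⟩
  unfold wt
  rw [← mul_sub, abs_mul, abs_of_nonneg (Real.sqrt_nonneg _), mul_assoc]
  refine mul_le_mul_of_nonneg_left ?_ (Real.sqrt_nonneg _)
  have h1 := exp_lip (‖x‖ / 2) (‖y‖ / 2) (R / 2) (by linarith) (by linarith)
  have h2 : |‖x‖ / 2 - ‖y‖ / 2| ≤ ‖x - y‖ / 2 := by
    rw [← sub_div, abs_div, abs_two]
    have := abs_norm_sub_norm_le x y
    linarith
  calc |Real.exp (‖x‖ / 2) - Real.exp (‖y‖ / 2)| ≤ Real.exp (R / 2) * |‖x‖ / 2 - ‖y‖ / 2| := h1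
    _ ≤ Real.exp (R / 2) * (‖x - y‖ / 2) := by gcongr
    _ = _ := by ring

lemma wt_sq (x : E3) : Real.exp (-‖x‖) / (8 * Real.pi) * wt x ^ 2 = 1 := by
  have hp := Real.pi_pos
  unfold wt
  rw [mul_pow, Real.sq_sqrt (by positivity), ← Real.exp_nat_mul]
  have : Real.exp (-‖x‖) / (8 * Real.pi) * (8 * Real.pi * Real.exp (((2 : ℕ) : ℝ) * (‖x‖ / 2))) =
      Real.exp (-‖x‖) * Real.exp (((2 : ℕ) : ℝ) * (‖x‖ / 2)) := by
    field_simp
  rw [this, ← Real.exp_add]
  rw [show -‖x‖ + ((2 : ℕ) : ℝ) * (‖x‖ / 2) = 0 by push_cast; ring, Real.exp_zero]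

lemma hasFDerivAt_norm {x : E3} (hx : x ≠ 0) :
    HasFDerivAt (fun y : E3 => ‖y‖) (‖x‖⁻¹ • innerSL ℝ x) x := by
  have hn : 0 < ‖x‖ := norm_pos_iff.2 hx
  have h1 := ((hasStrictFDerivAt_norm_sq x).hasFDerivAt).sqrt (by positivity)
  have h2 : (fun y : E3 => √(‖y‖ ^ 2)) = fun y => ‖y‖ := by
    funext y; exact Real.sqrt_sq (norm_nonneg _)
  rw [h2] at h1
  have h3 : ‖x‖⁻¹ • innerSL ℝ x = (1 / (2 * √(‖x‖ ^ 2))) • 2 • innerSL ℝ x := by
    rw [Real.sqrt_sq hn.le, ← Nat.cast_smul_eq_nsmul ℝ, smul_smul]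
    congr 1
    push_cast
    field_simp
  rw [h3]
  exact h1

lemma hasFDerivAt_wt {x : E3} (hx : x ≠ 0) :
    HasFDerivAt wt ((wt x / 2) • (‖x‖⁻¹ • innerSL ℝ x)) x := by
  have h1 := hasFDerivAt_norm hx
  have h2 : HasFDerivAt (fun y : E3 => ‖y‖ / 2) ((1 / 2 : ℝ) • (‖x‖⁻¹ • innerSL ℝ x)) x := by
    have := h1.const_mul (1 / 2 : ℝ)
    refine this.congr_of_eventuallyEq (Eventually.of_forall fun y => ?_)
    ring
  have h3 := (h2.exp).const_mul (√(8 * Real.pi))
  have h4 : (wt x / 2) • (‖x‖⁻¹ • innerSL ℝ x) =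
      √(8 * Real.pi) • Real.exp (‖x‖ / 2) • (1 / 2 : ℝ) • ‖x‖⁻¹ • innerSL ℝ x := by
    simp only [smul_smul, wt]
    congr 1
    ring
  rw [h4]
  exact h3

/-- the derivative of the product -/
lemma pd1_wt {f : E3 → ℝ} {x : E3} (hx : x ≠ 0) (hf : DifferentiableAt ℝ f x) (c : Fin 3) :
    pd1 c (fun x => wt x * f x) x = wt x * (pd1 c f x + 1 / 2 * (x c / ‖x‖) * f x) := by
  have h1 := (hasFDerivAt_wt hx).mul hf.hasFDerivAt
  have h2 := h1.hasLineDerivAt (ec c)
  have h3 := (hf.hasFDerivAt).hasLineDerivAt (ec c)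
  unfold pd1
  have h4 : lineDeriv ℝ (fun x => wt x * f x) x (ec c) = _ := h2.lineDeriv
  rw [h4, h3.lineDeriv]
  have h5 : inner ℝ x (ec c) = x c := by
    simp [ec, EuclideanSpace.inner_single_right]
  simp only [add_apply, smul_apply, smul_eq_mul,
    innerSL_apply_apply, h5]
  ring

lemma pd1_sq {f : E3 → ℝ} {x : E3} (hf : DifferentiableAt ℝ f x) (c : Fin 3) :
    pd1 c (fun x => f x * f x) x = 2 * f x * pd1 c f x := by
  have h1 := hf.hasFDerivAt.mul hf.hasFDerivAt
  have h2 := h1.hasLineDerivAt (ec c)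
  have h3 := (hf.hasFDerivAt).hasLineDerivAt (ec c)
  unfold pd1
  have h4 : lineDeriv ℝ (fun x => f x * f x) x (ec c) = _ := h2.lineDeriv
  rw [h4, h3.lineDeriv]
  simp only [add_apply, smul_apply, smul_eq_mul]
  ring

lemma meas_pd1 {f : E3 → ℝ} (hf : LC1 f) (c : Fin 3) : Measurable (pd1 c f) :=
  measurable_lineDeriv (cont hf)

lemma bdd_pd1 {f : E3 → ℝ} (hf : LC1 f) (c : Fin 3) : ∃ B : ℝ, 0 ≤ B ∧ ∀ x, |pd1 c f x| ≤ B := by
  obtain ⟨K, hK⟩ := hf.lip
  refine ⟨K * ‖ec c‖, mul_nonneg K.2 (norm_nonneg _), fun x => ?_⟩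
  exact norm_lineDeriv_le_of_lipschitz ℝ hK

lemma zero_pd1 {f : E3 → ℝ} {R : ℝ} (hR : ∀ x, f x ≠ 0 → ‖x‖ ≤ R) (c : Fin 3) {x : E3}
    (hx : ¬ ‖x‖ ≤ R) : pd1 c f x = 0 := by
  rw [not_le] at hx
  have hopen : IsOpen {y : E3 | R < ‖y‖} := isOpen_lt continuous_const continuous_norm
  have hev : f =ᶠ[𝓝 x] fun _ => 0 := by
    filter_upwards [hopen.mem_nhds hx] with y hy
    by_contra hne
    exact absurd (hR y hne) (not_le.2 hy)
  unfold pd1
  rw [hev.lineDeriv_eq]
  simp [lineDeriv]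

lemma integrable_of {F : E3 → ℝ} {R B : ℝ} (hm : Measurable F) (hb : ∀ x, |F x| ≤ B)
    (h0 : ∀ x, ¬ ‖x‖ ≤ R → F x = 0) : Integrable F := by
  rw [← integrableOn_iff_integrable_of_support_subset (s := Metric.closedBall (0 : E3) R)
    (fun x hx => by
      by_contra hn
      exact hx (h0 x (by rwa [mem_closedBall_zero_iff] at hn)))]
  exact Measure.integrableOn_of_bounded measure_closedBall_lt_top.ne hm.aestronglyMeasurable
    (M := B) (ae_of_all _ fun x => by rw [Real.norm_eq_abs]; exact hb x)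

lemma integral_hm (F : E3 → ℝ) :
    ∫ x, F x ∂hm = ∫ x, Real.exp (-‖x‖) / (8 * Real.pi) * F x := by
  unfold hm
  rw [integral_withDensity_eq_integral_toReal_smul (by fun_prop)
    (ae_of_all _ fun x => ENNReal.ofReal_lt_top)]
  refine integral_congr_ae (ae_of_all _ fun x => ?_)
  beta_reduce
  rw [ENNReal.toReal_ofReal (by positivity), smul_eq_mul]

lemma ae_ne_zero : ∀ᵐ x : E3, x ≠ 0 := by
  rw [ae_iff]
  simp

lemma coord (x : E3) (c : Fin 3) : |x c| ≤ ‖x‖ := by
  have := PiLp.norm_apply_le x c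
  simpa using this

lemma ratio (x : E3) (c : Fin 3) : |x c / ‖x‖| ≤ 1 := by
  rw [abs_div, abs_of_nonneg (norm_nonneg x)]
  exact div_le_one_of_le₀ (coord x c) (norm_nonneg _)

lemma sum_ratio {x : E3} (hx : x ≠ 0) : ∑ c, (x c / ‖x‖) ^ 2 = 1 := by
  have hn : 0 < ‖x‖ := norm_pos_iff.2 hx
  have h1 : ‖x‖ ^ 2 = ∑ c, (x c) ^ 2 := by
    rw [EuclideanSpace.norm_sq_eq]
    exact Finset.sum_congr rfl fun c _ => by rw [Real.norm_eq_abs, sq_abs]
  simp only [div_pow]
  rw [← Finset.sum_div, ← h1, div_self (by positivity)]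

end MolDis.H.Conv

namespace MolDis.H

open Conv

theorem p_conv (h : S_div) : S_conv := by
  intro f hf
  have hg : LC1 (fun x => wt x * f x) := lc_mul hf wt_lip
  have hff : LC1 (fun x => f x * f x) := by
    refine lc_mul hf fun R => ?_
    obtain ⟨K, hK⟩ := hf.lip
    refine ⟨K, fun x y _ _ => ?_⟩
    have := hK.dist_le_mul x y
    rwa [Real.dist_eq, dist_eq_norm] at this
  obtain ⟨K, hK⟩ := hf.lip
  obtain ⟨R, hR⟩ := hf.supp
  obtain ⟨B, hB0, hB⟩ := bdd hf
  have hdiff : ∀ᵐ x : E3, DifferentiableAt ℝ f x := hK.ae_differentiableAt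
  have hcf := cont hf
  have hout : ∀ x, ¬ ‖x‖ ≤ R → f x = 0 := by
    intro x hx
    by_contra hne
    exact hx (hR x hne)
  choose D hD0 hD using fun c => bdd_pd1 hf c
  -- integrability
  have hA : Integrable (fun x => ∑ c, pd1 c f x ^ 2) := by
    refine integrable_finsetSum _ fun c _ => ?_
    refine integrable_of (R := R) (B := D c ^ 2) ((meas_pd1 hf c).pow_const 2) (fun x => ?_)
      (fun x hx => by rw [zero_pd1 hR c hx]; norm_num)
    rw [abs_of_nonneg (sq_nonneg _), ← sq_abs]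
    exact pow_le_pow_left₀ (abs_nonneg _) (hD c x) 2
  have hmr : ∀ c : Fin 3, Measurable (fun x : E3 => x c / ‖x‖) := fun c => by fun_prop
  have hBi : ∀ c, Integrable (fun x => f x * (pd1 c f x * (x c / ‖x‖))) := by
    intro c
    refine integrable_of (R := R) (B := B * (D c * 1))
      (hcf.measurable.mul ((meas_pd1 hf c).mul (hmr c))) (fun x => ?_)
      (fun x hx => by rw [hout x hx, zero_mul])
    rw [abs_mul, abs_mul]
    exact mul_le_mul (hB x) (mul_le_mul (hD c x) (ratio x c) (abs_nonneg _) (hD0 c))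
      (by positivity) hB0
  have hCi : Integrable (fun x => f x ^ 2) := by
    refine integrable_of (R := R) (B := B ^ 2) (hcf.measurable.pow_const 2) (fun x => ?_)
      (fun x hx => by rw [hout x hx]; norm_num)
    rw [abs_of_nonneg (sq_nonneg _), ← sq_abs]
    exact pow_le_pow_left₀ (abs_nonneg _) (hB x) 2
  refine ⟨hg, ?_, ?_, hA, ?_⟩
  · rw [integral_hm]
    refine integral_congr_ae (ae_of_all _ fun x => ?_)
    beta_reduce
    have h1 := wt_sq x
    unfold wt at h1
    rw [mul_pow, ← mul_assoc, h1, one_mul]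
  · refine integral_congr_ae ?_
    filter_upwards [hdiff] with x hx
    rw [norm_sq_dual]
    refine Finset.sum_congr rfl fun c _ => ?_
    unfold pd1
    rw [(hx.hasFDerivAt.hasLineDerivAt (ec c)).lineDeriv]
  · -- the identity
    have hdiv := (h _ hff).2
    have e1 : ∫ x, ∑ c, pd1 c (fun x => f x * f x) x * (x c / ‖x‖) =
        2 * ∫ x, ∑ c, f x * (pd1 c f x * (x c / ‖x‖)) := by
      rw [← integral_const_mul]
      refine integral_congr_ae ?_
      filter_upwards [hdiff] with x hx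
      rw [Finset.mul_sum]
      refine Finset.sum_congr rfl fun c _ => ?_
      rw [pd1_sq hx]
      ring
    have e2 : ∫ x, 2 * (f x * f x) * ‖x‖⁻¹ = 2 * ∫ x, f x ^ 2 * ‖x‖⁻¹ := by
      rw [← integral_const_mul]
      refine integral_congr_ae (ae_of_all _ fun x => ?_)
      beta_reduce
      ring
    rw [e1, e2] at hdiv
    have e3 : D1 (fun x => √(8 * Real.pi) * Real.exp (‖x‖ / 2) * f x)
        (fun x => √(8 * Real.pi) * Real.exp (‖x‖ / 2) * f x) =
        ∑ c, ∫ x, (pd1 c f x ^ 2 + f x * (pd1 c f x * (x c / ‖x‖)) +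
          1 / 4 * ((x c / ‖x‖) ^ 2 * f x ^ 2)) := by
      unfold D1
      refine Finset.sum_congr rfl fun c _ => ?_
      rw [integral_hm]
      refine integral_congr_ae ?_
      filter_upwards [hdiff, ae_ne_zero] with x hx hx0
      have h1 := pd1_wt hx0 hx c
      have h2 := wt_sq x
      have h3 : pd1 c (fun x => √(8 * Real.pi) * Real.exp (‖x‖ / 2) * f x) x =
          wt x * (pd1 c f x + 1 / 2 * (x c / ‖x‖) * f x) := h1
      rw [h3]
      calc Real.exp (-‖x‖) / (8 * Real.pi) * (wt x * (pd1 c f x + 1 / 2 * (x c / ‖x‖) * f x) *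
            (wt x * (pd1 c f x + 1 / 2 * (x c / ‖x‖) * f x))) =
            (Real.exp (-‖x‖) / (8 * Real.pi) * wt x ^ 2) *
              (pd1 c f x + 1 / 2 * (x c / ‖x‖) * f x) ^ 2 := by ring
        _ = _ := by rw [h2]; ring
    have hA' : ∀ c, Integrable (fun x => pd1 c f x ^ 2) := by
      intro c
      refine integrable_of (R := R) (B := D c ^ 2) ((meas_pd1 hf c).pow_const 2) (fun x => ?_)
        (fun x hx => by rw [zero_pd1 hR c hx]; norm_num)
      rw [abs_of_nonneg (sq_nonneg _), ← sq_abs]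
      exact pow_le_pow_left₀ (abs_nonneg _) (hD c x) 2
    have hC' : ∀ c : Fin 3, Integrable (fun x : E3 => 1 / 4 * ((x c / ‖x‖) ^ 2 * f x ^ 2)) := by
      intro c
      refine Integrable.const_mul ?_ _
      refine integrable_of (R := R) (B := 1 * B ^ 2)
        (((hmr c).pow_const 2).mul (hcf.measurable.pow_const 2)) (fun x => ?_)
        (fun x hx => by rw [hout x hx]; norm_num)
      rw [abs_mul, abs_of_nonneg (sq_nonneg _), abs_of_nonneg (sq_nonneg (f x)), ← sq_abs,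
        ← sq_abs (f x)]
      refine mul_le_mul ?_ (pow_le_pow_left₀ (abs_nonneg _) (hB x) 2) (by positivity) (by norm_num)
      have := ratio x c
      have h0 := abs_nonneg (x c / ‖x‖)
      nlinarith
    have e4 : ∑ c, ∫ x, (pd1 c f x ^ 2 + f x * (pd1 c f x * (x c / ‖x‖)) +
          1 / 4 * ((x c / ‖x‖) ^ 2 * f x ^ 2)) =
        (∫ x, ∑ c, pd1 c f x ^ 2) + (∫ x, ∑ c, f x * (pd1 c f x * (x c / ‖x‖))) +
          1 / 4 * ∫ x, f x ^ 2 := by
      rw [integral_finsetSum _ fun c _ => hA' c, integral_finsetSum _ fun c _ => hBi c]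
      have e5 : 1 / 4 * ∫ x, f x ^ 2 = ∑ c : Fin 3, ∫ x : E3, 1 / 4 * ((x c / ‖x‖) ^ 2 * f x ^ 2) := by
        rw [← integral_finsetSum _ fun c _ => hC' c, ← integral_const_mul]
        refine integral_congr_ae ?_
        filter_upwards [ae_ne_zero] with x hx0
        rw [← Finset.mul_sum, ← Finset.sum_mul, sum_ratio hx0, one_mul]
      rw [e5, ← Finset.sum_add_distrib, ← Finset.sum_add_distrib]
      refine Finset.sum_congr rfl fun c _ => ?_
      have i1 : Integrable (fun x => pd1 c f x ^ 2 + f x * (pd1 c f x * (x c / ‖x‖))) :=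
        (hA' c).add (hBi c)
      rw [integral_add i1 (hC' c), integral_add (hA' c) (hBi c)]
    rw [e3, e4]
    linarith

end MolDis.H
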