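import Pool.Agent.Lib.MP_59f35a_mp.HStmts

/-!
# MP_59f35a_mp : piece E3 of Theorem D (a priori bounds for three atoms)
-/

set_option linter.unusedSectionVars false
set_option linter.unusedVariables false

noncomputable section

open MeasureTheory

namespace MolDis.H
namespace E3a

/-! ### bounded measurable functions -/

/-- bounded measurable functions -/
structure BM (f : X3 → ℝ) : Prop where
  meas : Measurable f
  bdd : ∃ B : ℝ, ∀ x, |f x| ≤ B

lemma BM.int [IsProbabilityMeasure pm] {f : X3 → ℝ} (hf : BM f) : Integrable f pm := by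
  obtain ⟨B, hB⟩ := hf.bdd
  exact Integrable.of_bound hf.meas.aestronglyMeasurable B (Filter.Eventually.of_forall hB)

lemma BM.add {f g : X3 → ℝ} (hf : BM f) (hg : BM g) : BM (fun x => f x + g x) := by
  obtain ⟨B, hB⟩ := hf.bdd
  obtain ⟨D, hD⟩ := hg.bdd
  exact ⟨hf.meas.add hg.meas, B + D, fun x => (abs_add_le _ _).trans (add_le_add (hB x) (hD x))⟩

lemma BM.mul {f g : X3 → ℝ} (hf : BM f) (hg : BM g) : BM (fun x => f x * g x) := by
  obtain ⟨B, hB⟩ := hf.bdd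
  obtain ⟨D, hD⟩ := hg.bdd
  refine ⟨hf.meas.mul hg.meas, B * D, fun x => ?_⟩
  rw [abs_mul]
  exact mul_le_mul (hB x) (hD x) (abs_nonneg _) ((abs_nonneg _).trans (hB x))

lemma BM.const (c : ℝ) : BM (fun _ => c) := ⟨measurable_const, |c|, fun _ => le_rfl⟩

lemma BM.cmul {f : X3 → ℝ} (hf : BM f) (c : ℝ) : BM (fun x => c * f x) := (BM.const c).mul hf

lemma BM.sub {f g : X3 → ℝ} (hf : BM f) (hg : BM g) : BM (fun x => f x - g x) := by
  have := hf.add (hg.cmul (-1))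
  have e : (fun x => f x - g x) = fun x => f x + -1 * g x := by
    funext x; ring
  rw [e]
  exact this

lemma BM.of_BL {f : X3 → ℝ} (hf : BL f) : BM f := by
  obtain ⟨⟨K, hK⟩, hb⟩ := hf
  exact ⟨hK.continuous.measurable, hb⟩

section
variable [IsProbabilityMeasure pm] {f g h : X3 → ℝ}

lemma I_add (hf : BM f) (hg : BM g) :
    ∫ x, (f x + g x) ∂pm = (∫ x, f x ∂pm) + ∫ x, g x ∂pm := integral_add hf.int hg.int

lemma I_sub (hf : BM f) (hg : BM g) :
    ∫ x, (f x - g x) ∂pm = (∫ x, f x ∂pm) - ∫ x, g x ∂pm := integral_sub hf.int hg.int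

lemma ip_comm (f g : X3 → ℝ) : ip f g = ip g f := by
  unfold ip
  simp only [mul_comm]

lemma ip_nonneg (f : X3 → ℝ) : 0 ≤ ip f f := integral_nonneg fun x => mul_self_nonneg _

lemma ip_cmul (c : ℝ) (f g : X3 → ℝ) : ip (fun x => c * f x) g = c * ip f g := by
  unfold ip
  rw [← integral_const_mul]
  congr 1
  funext x
  ring

lemma ip_add (hf : BM f) (hg : BM g) (hh : BM h) : ip (fun x => f x + g x) h = ip f h + ip g h := by
  unfold ip
  rw [← I_add (hf.mul hh) (hg.mul hh)]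
  congr 1
  funext x
  ring

lemma ip_sub (hf : BM f) (hg : BM g) (hh : BM h) : ip (fun x => f x - g x) h = ip f h - ip g h := by
  unfold ip
  rw [← I_sub (hf.mul hh) (hg.mul hh)]
  congr 1
  funext x
  ring

/-- Cauchy-Schwarz -/
lemma ip_cs (hf : BM f) (hg : BM g) : |ip f g| ≤ √(ip f f) * √(ip g g) := by
  have hq : ∀ t : ℝ, 0 ≤ ip g g * (t * t) + (2 * ip f g) * t + ip f f := by
    intro t
    have h0 := ip_nonneg (fun x => f x + t * g x)
    have e1 : ip (fun x => f x + t * g x) (fun x => f x + t * g x) =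
        ip g g * (t * t) + (2 * ip f g) * t + ip f f := by
      have hfg : BM (fun x => f x + t * g x) := hf.add (hg.cmul t)
      rw [ip_add hf (hg.cmul t) hfg, ip_cmul, ip_comm f, ip_comm g, ip_add hf (hg.cmul t) hf,
        ip_add hf (hg.cmul t) hg, ip_cmul, ip_cmul, ip_comm g f]
      ring
    rwa [e1] at h0
  have h1 := discrim_le_zero hq
  unfold discrim at h1
  rw [← Real.sqrt_mul (ip_nonneg f)]
  apply Real.abs_le_sqrt
  nlinarith

/-- multiplication by a bounded function -/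
lemma ip_bd {W : X3 → ℝ} {M : ℝ} (hW : Measurable W) (hM : ∀ x, |W x| ≤ M) (hf : BM f)
    (hg : BM g) : |∫ x, W x * f x * g x ∂pm| ≤ M * (√(ip f f) * √(ip g g)) := by
  have hM0 : 0 ≤ M := (abs_nonneg _).trans (hM 0)
  have hWB : BM W := ⟨hW, M, hM⟩
  have h1 := ip_cs (hWB.mul hf) hg
  have e : ip (fun x => W x * f x) g = ∫ x, W x * f x * g x ∂pm := rfl
  rw [e] at h1
  have h2 : ip (fun x => W x * f x) (fun x => W x * f x) ≤ M ^ 2 * ip f f := by
    unfold ip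
    rw [← integral_const_mul]
    refine integral_mono ((hWB.mul hf).mul (hWB.mul hf)).int (((hf.mul hf).cmul _).int) fun x => ?_
    have : W x * W x ≤ M ^ 2 := by
      have := hM x
      rw [abs_le] at this
      nlinarith
    calc W x * f x * (W x * f x) = (W x * W x) * (f x * f x) := by ring
      _ ≤ M ^ 2 * (f x * f x) := mul_le_mul_of_nonneg_right this (mul_self_nonneg _)
  have h3 : √(ip (fun x => W x * f x) (fun x => W x * f x)) ≤ M * √(ip f f) := by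
    refine (Real.sqrt_le_sqrt h2).trans_eq ?_
    rw [Real.sqrt_mul (sq_nonneg _), Real.sqrt_sq hM0]
  calc |∫ x, W x * f x * g x ∂pm| ≤ √(ip (fun x => W x * f x) (fun x => W x * f x)) * √(ip g g) := h1
    _ ≤ (M * √(ip f f)) * √(ip g g) := mul_le_mul_of_nonneg_right h3 (Real.sqrt_nonneg _)
    _ = _ := by ring

end

/-! ### the inversion `piv` -/

/-- the permutation of the inversion -/
def sw : Equiv.Perm (Fin 3) := Equiv.swap 0 1

lemma piv_eq (x : X3) : piv x = sgT sw (fun _ _ => -1) x := by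
  funext j
  ext c
  fin_cases j <;> simp [piv, sgT, sw, Equiv.swap_apply_def]

lemma piv_piv (x : X3) : piv (piv x) = x := by
  funext j
  fin_cases j <;> simp [piv]

lemma piv_mp (hs : S_sym) : MeasurePreserving piv pm pm := by
  have h := (hs sw (fun _ _ => -1) (fun _ _ => Or.inr rfl)).1
  have e : (sgT sw (fun _ _ => -1)) = piv := by
    funext x
    exact (piv_eq x).symm
  rwa [e] at h

lemma piv_BL (hs : S_sym) {f : X3 → ℝ} (hf : BL f) : BL (fun x => f (piv x)) := by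
  have h := (hs sw (fun _ _ => -1) (fun _ _ => Or.inr rfl)).2.1 f hf
  simpa only [← piv_eq] using h

lemma piv_DD (hs : S_sym) {f g : X3 → ℝ} (hf : BL f) (hg : BL g) :
    DD (fun x => f (piv x)) (fun x => g (piv x)) = DD f g := by
  have h := (hs sw (fun _ _ => -1) (fun _ _ => Or.inr rfl)).2.2.1 f g hf hg
  simpa only [← piv_eq] using h

lemma piv_int (hs : S_sym) {f : X3 → ℝ} (hf : Measurable f) :
    ∫ x, f (piv x) ∂pm = ∫ x, f x ∂pm := by
  have h := piv_mp hs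
  conv_rhs => rw [← h.map_eq]
  rw [integral_map h.measurable.aemeasurable hf.aestronglyMeasurable]

/-! ### the form -/

section form
variable (hf : S_form)
include hf

lemma DD_symm {f g : X3 → ℝ} (h1 : BL f) (h2 : BL g) : DD f g = DD g f := by
  unfold DD
  exact Finset.sum_congr rfl fun j _ => (hf.1 j f g g h1 h2 h2 0).1

lemma DD_add {f g h : X3 → ℝ} (h1 : BL f) (h2 : BL g) (h3 : BL h) :
    DD (fun x => f x + g x) h = DD f h + DD g h := by
  unfold DD
  rw [← Finset.sum_add_distrib]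
  exact Finset.sum_congr rfl fun j _ => (hf.1 j f g h h1 h2 h3 0).2.2.1

lemma DD_sub {f g h : X3 → ℝ} (h1 : BL f) (h2 : BL g) (h3 : BL h) :
    DD (fun x => f x - g x) h = DD f h - DD g h := by
  unfold DD
  rw [← Finset.sum_sub_distrib]
  exact Finset.sum_congr rfl fun j _ => (hf.1 j f g h h1 h2 h3 0).2.2.2.1

lemma DD_cmul {f g : X3 → ℝ} (h1 : BL f) (h2 : BL g) (c : ℝ) :
    DD (fun x => c * f x) g = c * DD f g := by
  unfold DD
  rw [Finset.mul_sum]
  exact Finset.sum_congr rfl fun j _ => (hf.1 j f g g h1 h2 h2 c).2.2.2.2.1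

lemma Dj_nonneg {f : X3 → ℝ} (h1 : BL f) (j : Fin 3) : 0 ≤ Dj j f f :=
  (hf.1 j f f f h1 h1 h1 0).2.1

lemma DD_nonneg {f : X3 → ℝ} (h1 : BL f) : 0 ≤ DD f f :=
  Finset.sum_nonneg fun j _ => Dj_nonneg hf h1 j

end form

/-! ### even and odd parts -/

/-- even part -/
def pev (f : X3 → ℝ) (x : X3) : ℝ := (f x + f (piv x)) / 2

lemma pev_add (f : X3 → ℝ) (x : X3) : f x = pev f x + pod f x := by
  unfold pev pod
  ring

lemma pod_piv (f : X3 → ℝ) (x : X3) : pod f (piv x) = - pod f x := by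
  unfold pod
  rw [piv_piv]
  ring

lemma pev_piv (f : X3 → ℝ) (x : X3) : pev f (piv x) = pev f x := by
  unfold pev
  rw [piv_piv]
  ring

lemma box_piv (hb : S_bl) (hs : S_sym) {r : ℝ} (hr : 0 < r) {f : X3 → ℝ} (h : Box S3 r f) :
    Box S3 r (fun x => f (piv x)) := by
  have h1 : BL f := hb.2.2.2.1 S3 r f h hr ⟨0, Finset.mem_univ _⟩
  refine ⟨(piv_BL hs h1).lip, fun x hx j _ => ?_, fun j hj => absurd (Finset.mem_univ j) hj⟩
  have h2 := h.supp (piv x) hx
  have h3 := h2 (sw j) (Finset.mem_univ _)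
  rw [piv_eq] at h3
  have h4 : ‖sgT sw (fun _ _ => -1) x (sw j)‖ = ‖x j‖ := by
    have : sgT sw (fun _ _ => -1) x (sw j) = - x j := by
      ext c
      simp [sgT, sw]
    rw [this, norm_neg]
  rwa [h4] at h3

lemma box_pod (hb : S_bl) (hs : S_sym) {r : ℝ} (hr : 0 < r) {f : X3 → ℝ} (h : Box S3 r f) :
    Box S3 r (pod f) := by
  have h1 := (hb.2.2.2.2.1 S3 r _ _ 0 h (box_piv hb hs hr h)).2.1
  have h2 := (hb.2.2.2.2.1 S3 r _ _ (1 / 2) h1 h1).2.2
  have e : pod f = fun x => 1 / 2 * (f x - f (piv x)) := by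
    funext x
    unfold pod
    ring
  rw [e]
  exact h2

lemma box_pev (hb : S_bl) (hs : S_sym) {r : ℝ} (hr : 0 < r) {f : X3 → ℝ} (h : Box S3 r f) :
    Box S3 r (pev f) := by
  have h1 := (hb.2.2.2.2.1 S3 r _ _ 0 h (box_piv hb hs hr h)).1
  have h2 := (hb.2.2.2.2.1 S3 r _ _ (1 / 2) h1 h1).2.2
  have e : pev f = fun x => 1 / 2 * (f x + f (piv x)) := by
    funext x
    unfold pev
    ring
  rw [e]
  exact h2

lemma boxBL (hb : S_bl) {r : ℝ} (hr : 0 < r) {f : X3 → ℝ} (h : Box S3 r f) : BL f :=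
  hb.2.2.2.1 S3 r f h hr ⟨0, Finset.mem_univ _⟩

lemma boxBL2 (hb : S_bl) {r : ℝ} (hr : 0 < r) {f : X3 → ℝ} (h : Box S2 r f) : BL f :=
  hb.2.2.2.1 S2 r f h hr ⟨0, by simp [S2]⟩

/-- even and odd functions are orthogonal for the form -/
lemma DD_eo (hf : S_form) (hs : S_sym) {e o : X3 → ℝ} (he : BL e) (ho : BL o)
    (h1 : ∀ x, e (piv x) = e x) (h2 : ∀ x, o (piv x) = - o x) : DD e o = 0 := by
  have h3 := piv_DD hs he ho
  have e1 : (fun x => e (piv x)) = e := funext h1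
  have e2 : (fun x => o (piv x)) = fun x => (-1) * o x := by
    funext x
    rw [h2]
    ring
  rw [e1, e2] at h3
  have hmo : BL (fun x => (-1) * o x) := by
    have := piv_BL hs ho
    rwa [e2] at this
  rw [DD_symm hf he hmo, DD_cmul hf ho he, DD_symm hf ho he] at h3
  linarith

/-- odd functions have integral zero -/
lemma int_odd (hs : S_sym) {F : X3 → ℝ} (hF : Measurable F) (h : ∀ x, F (piv x) = - F x) :
    ∫ x, F x ∂pm = 0 := by
  have h1 := piv_int hs hF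
  simp only [h] at h1
  rw [integral_neg] at h1
  linarith

/-! ### averages over the third variable -/

/-- the profile of the cut-off -/
def kz (r t : ℝ) : ℝ := max 0 (min 1 (2 - 2 * t / r))

lemma kz_cont (r : ℝ) : Continuous (kz r) := by
  unfold kz
  fun_prop

lemma zt_eq (r : ℝ) (y : E3) : zt r y = kz r ‖y‖ := rfl

lemma kz_nonneg (r t : ℝ) : 0 ≤ kz r t := le_max_left _ _

lemma kz_le (r t : ℝ) : kz r t ≤ 1 := max_le zero_le_one (min_le_left _ _)

lemma int_Pj (hprod : S_prod) [IsProbabilityMeasure pm] (j : Fin 3) {F : X3 → ℝ} (hF : BM F) :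
    ∫ x, F x ∂pm = ∫ x, Pj j F x ∂pm := ((hprod.2.2.1 j F hF.int).2.2).symm

/-- the interaction with the third atom averages to zero -/
lemma avgW (hprod : S_prod) [IsProbabilityMeasure pm] {r a l : ℝ}
    (hW : ∀ (k : ℝ → ℝ) (x : X3), Continuous k →
      ∫ y, k ‖y‖ * W3 r a l (Function.update x 2 y) ∂hm = 0)
    {ψ : X3 → ℝ} {k : ℝ → ℝ} (hk : Continuous k)
    (hB : BM (fun x => W3 r a l x * ψ x * k ‖x 2‖))
    (hψ : ∀ x y, ψ (Function.update x 2 y) = ψ x) :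
    ∫ x, W3 r a l x * ψ x * k ‖x 2‖ ∂pm = 0 := by
  rw [int_Pj hprod 2 hB]
  have h : ∀ x, Pj 2 (fun x => W3 r a l x * ψ x * k ‖x 2‖) x = 0 := by
    intro x
    unfold Pj
    simp only [hψ, Function.update_self]
    have e : ∀ y, W3 r a l (Function.update x 2 y) * ψ x * k ‖y‖ =
        ψ x * (k ‖y‖ * W3 r a l (Function.update x 2 y)) := fun y => by ring
    simp only [e]
    rw [integral_const_mul, hW k x hk, mul_zero]
  simp only [h]
  simp

/-- integrals of a function of the first two variables times a function of the third -/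
lemma int_tens (hprod : S_prod) [IsProbabilityMeasure pm] {ψ : X3 → ℝ} {θ : E3 → ℝ}
    (hB : BM (fun x => ψ x * θ (x 2))) (hψ : ∀ x y, ψ (Function.update x 2 y) = ψ x) :
    ∫ x, ψ x * θ (x 2) ∂pm = (∫ x, ψ x ∂pm) * ∫ y, θ y ∂hm := by
  rw [int_Pj hprod 2 hB]
  have h : ∀ x, Pj 2 (fun x => ψ x * θ (x 2)) x = ψ x * ∫ y, θ y ∂hm := by
    intro x
    unfold Pj
    simp only [hψ, Function.update_self]
    rw [integral_const_mul]
  simp only [h]
  rw [integral_mul_const]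

/-! ### the trial function -/

/-- cut-off in the third variable -/
def Ph (r : ℝ) (φ : X3 → ℝ) (x : X3) : ℝ := φ x * (1 * zt r (x 2))

section trial
variable (hb : S_bl) (hlift : S_lift) {Cw : ℝ} (hw1 : WSol (fun _ => 1) (fun _ => 0) Cw)
  {r : ℝ} (hr : 1 ≤ r) {φ : X3 → ℝ} (hφ : Box S2 r φ)
include hb hlift hw1 hr hφ

lemma ind2 : ∀ x y, φ (Function.update x 2 y) = φ x := hφ.ind 2 (by simp [S2])

lemma Ph_BL : BL (Ph r φ) := by
  have h0 : Box S3 r (fun _ : X3 => (0 : ℝ)) :=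
    ⟨⟨0, LipschitzWith.const 0⟩, fun x hx => absurd rfl hx, fun _ _ _ _ => rfl⟩
  exact (hlift _ _ _ hw1 r S3 2 φ _ hr (boxBL2 hb (by linarith) hφ) (ind2 hb hlift hw1 hr hφ) h0
    (Finset.mem_univ _)).1

lemma Ph_box : Box S3 r (Ph r φ) := by
  refine ⟨(Ph_BL hb hlift hw1 hr hφ).lip, fun x hx j _ => ?_,
    fun j hj => absurd (Finset.mem_univ j) hj⟩
  have h1 : φ x ≠ 0 := fun h => hx (by simp [Ph, h])
  have h2 : zt r (x 2) ≠ 0 := fun h => hx (by simp [Ph, h])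
  have h3 : ‖x 2‖ ≤ r := by
    by_contra hc
    push Not at hc
    apply h2
    unfold zt
    have h4 : 2 ≤ 2 * ‖x 2‖ / r := by
      rw [le_div_iff₀ (by linarith)]
      linarith
    rw [max_eq_left]
    exact (min_le_right _ _).trans (by linarith)
  fin_cases j
  · exact hφ.supp x h1 0 (by simp [S2])
  · exact hφ.supp x h1 1 (by simp [S2])
  · exact h3

lemma Ph_D2 (hn : ip φ φ = 1) : Dj 2 (Ph r φ) (Ph r φ) ≤ Cw ^ 2 * Real.exp (-r / 4) := by
  have hf := Ph_box hb hlift hw1 hr hφ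
  have h := (hlift _ _ _ hw1 r S3 2 φ _ hr (boxBL2 hb (by linarith) hφ)
    (ind2 hb hlift hw1 hr hφ) hf (Finset.mem_univ _)).2
  have e : ∫ x, φ x * 0 * Ph r φ x ∂pm = 0 := by simp
  rw [e, hn, Real.sqrt_one, mul_one, sub_zero] at h
  set D := Dj 2 (Ph r φ) (Ph r φ) with hD
  have h' : D ≤ Cw * Real.exp (-r / 8) * √D := (le_abs_self _).trans h
  have hC := hw1.nonneg
  by_cases hD0 : D ≤ 0
  · exact hD0.trans (by positivity)
  · push Not at hD0
    have h1 : √D * √D = D := Real.mul_self_sqrt hD0.le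
    have h2 : 0 < √D := Real.sqrt_pos.mpr hD0
    have h3 : √D ≤ Cw * Real.exp (-r / 8) := by
      by_contra hcon
      push Not at hcon
      nlinarith
    have h4 : Real.exp (-r / 8) * Real.exp (-r / 8) = Real.exp (-r / 4) := by
      rw [← Real.exp_add]
      congr 1
      ring
    calc D = √D * √D := h1.symm
      _ ≤ (Cw * Real.exp (-r / 8)) * (Cw * Real.exp (-r / 8)) :=
        mul_le_mul h3 h3 h2.le (by positivity)
      _ = Cw ^ 2 * (Real.exp (-r / 8) * Real.exp (-r / 8)) := by ring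
      _ = _ := by rw [h4]

end trial

/-- the mass of the cut-off -/
def mz (r : ℝ) : ℝ := ∫ y, (1 * zt r y) ^ 2 ∂hm

lemma mz_le (hhm : S_hm) (r : ℝ) : mz r ≤ 1 := by
  have := hhm.1
  unfold mz
  have h : ∫ y, (1 * zt r y) ^ 2 ∂hm ≤ ∫ _y : E3, (1 : ℝ) ∂hm := by
    refine integral_mono_of_nonneg (Filter.Eventually.of_forall fun y => sq_nonneg _)
      (integrable_const _) (Filter.Eventually.of_forall fun y => ?_)
    show (1 * zt r y) ^ 2 ≤ 1
    rw [one_mul, zt_eq]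
    exact pow_le_one₀ (kz_nonneg _ _) (kz_le _ _)
  simpa using h

lemma mz_ge (hhm : S_hm) : ∃ C : ℝ, ∀ r : ℝ, 1 ≤ r → 1 - C * Real.exp (-r / 4) ≤ mz r := by
  have := hhm.1
  obtain ⟨C, hC⟩ := hhm.2.2.2.2.2.1 0
  refine ⟨C, fun r hr => ?_⟩
  have h1 := hC r hr
  simp only [pow_zero] at h1
  have hmeas : MeasurableSet {y : E3 | r / 2 < ‖y‖} := measurableSet_lt measurable_const measurable_norm
  have hi1 : Integrable (fun y : E3 => if r / 2 < ‖y‖ then (1 : ℝ) else 0) hm := by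
    refine Integrable.of_bound (Measurable.ite hmeas measurable_const measurable_const).aestronglyMeasurable
      1 (Filter.Eventually.of_forall fun y => ?_)
    split_ifs <;> simp
  have hc : Continuous fun y : E3 => (1 * zt r y) ^ 2 := by
    have : (fun y : E3 => (1 * zt r y) ^ 2) = fun y => (1 * kz r ‖y‖) ^ 2 := rfl
    rw [this]
    have := kz_cont r
    fun_prop
  have hi2 : Integrable (fun y : E3 => (1 * zt r y) ^ 2) hm := by
    refine Integrable.of_bound hc.measurable.aestronglyMeasurable 1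
      (Filter.Eventually.of_forall fun y => ?_)
    rw [Real.norm_eq_abs, abs_of_nonneg (sq_nonneg _), one_mul, zt_eq]
    exact pow_le_one₀ (kz_nonneg _ _) (kz_le _ _)
  have h2 : ∫ y, ((1 : ℝ) - (if r / 2 < ‖y‖ then (1 : ℝ) else 0)) ∂hm ≤ mz r := by
    refine integral_mono ((integrable_const _).sub hi1) hi2 fun y => ?_
    show (1 : ℝ) - (if r / 2 < ‖y‖ then (1 : ℝ) else 0) ≤ (1 * zt r y) ^ 2
    split_ifs with h
    · rw [sub_self]
      exact sq_nonneg _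
    · push Not at h
      have h3 : kz r ‖y‖ = 1 := by
        unfold kz
        have h4 : 2 * ‖y‖ / r ≤ 1 := by
          rw [div_le_iff₀ (by linarith)]
          linarith
        rw [min_eq_left (by linarith), max_eq_right zero_le_one]
      rw [one_mul, zt_eq, h3]
      norm_num
  rw [integral_sub (integrable_const _) hi1] at h2
  simp only [integral_const, probReal_univ, smul_eq_mul, mul_one] at h2
  linarith

lemma zt_LC {Cw : ℝ} (hw1 : WSol (fun _ => 1) (fun _ => 0) Cw) {r : ℝ} (hr : 1 ≤ r) :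
    LC1 (fun y => 1 * zt r y) := by
  refine ⟨hw1.lip r hr, r, fun x hx => ?_⟩
  by_contra hc
  push Not at hc
  apply hx
  have h4 : 2 ≤ 2 * ‖x‖ / r := by
    rw [le_div_iff₀ (by linarith)]
    linarith
  have : zt r x = 0 := by
    unfold zt
    rw [max_eq_left]
    exact (min_le_right _ _).trans (by linarith)
  rw [this, mul_zero]

/-- splitting the potential -/
lemma U_split [IsProbabilityMeasure pm] {r a l : ℝ} (hV : BM (V12 r a)) (hW : BM (W3 r a l))
    {f g : X3 → ℝ} (hf : BM f) (hg : BM g) :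
    ∫ x, U3 r a l x * f x * g x ∂pm = (∫ x, V12 r a x * f x * g x ∂pm) +
      ∫ x, W3 r a l x * f x * g x ∂pm := by
  rw [← I_add ((hV.mul hf).mul hg) ((hW.mul hf).mul hg)]
  congr 1
  funext x
  unfold U3
  ring

/-- upper bound of the energy of the three atoms -/
lemma upperE (hvar : S_var) (hb : S_bl) (hlift : S_lift) {Cw : ℝ}
    (hw1 : WSol (fun _ => 1) (fun _ => 0) Cw) (hwk : S_weakA) (hprod : S_prod) (hform : S_form)
    [IsProbabilityMeasure pm]
    {r a l : ℝ} (hr : 1 ≤ r) (hVm : Measurable (V12 r a)) (hV1 : ∀ x, |V12 r a x| ≤ 1)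
    (hV2 : ∀ x y, V12 r a (Function.update x 2 y) = V12 r a x)
    (hWm : Measurable (W3 r a l)) (hW1 : ∀ x, |W3 r a l x| ≤ 1) (hU1 : ∀ x, |U3 r a l x| ≤ 1)
    (hW : ∀ (k : ℝ → ℝ) (x : X3), Continuous k →
      ∫ y, k ‖y‖ * W3 r a l (Function.update x 2 y) ∂hm = 0)
    {φ : X3 → ℝ} (hφ : NM S2 r (V12 r a) φ) {K : ℝ} (hK : |EE S2 r (V12 r a)| ≤ K)
    (hz : 1 / 2 ≤ mz r) (hz1 : mz r ≤ 1) :
    EE S3 r (U3 r a l) - EE S2 r (V12 r a) ≤ 2 * (2 * Cw ^ 2 + K + 4) * Real.exp (-r / 4) := by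
  have hV : BM (V12 r a) := ⟨hVm, 1, hV1⟩
  have hWB : BM (W3 r a l) := ⟨hWm, 1, hW1⟩
  have hUm : Measurable (U3 r a l) := hVm.add hWm
  have hΦB := Ph_box hb hlift hw1 hr hφ.box
  have hΦL := Ph_BL hb hlift hw1 hr hφ.box
  have hΦM : BM (Ph r φ) := BM.of_BL hΦL
  have hφL := boxBL2 hb (by linarith) hφ.box
  have hφM : BM φ := BM.of_BL hφL
  have hind := ind2 hb hlift hw1 hr hφ.box
  have hD2 := Ph_D2 hb hlift hw1 hr hφ.box hφ.norm
  have hC := hw1.nonneg
  have hwk' := hwk r a φ (Ph r φ) (fun y => 1 * zt r y) hr hV1 hVm hV2 hφ (zt_LC hw1 hr) hΦB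
  change |Dj 0 (Ph r φ) (Ph r φ) + Dj 1 (Ph r φ) (Ph r φ) +
    (∫ x, V12 r a x * (Ph r φ x) * Ph r φ x ∂pm) -
    EE S2 r (V12 r a) * ip (Ph r φ) (Ph r φ)| ≤
    Real.exp (-r / 2) * √(mz r) * √(DD (Ph r φ) (Ph r φ) + 2 * ip (Ph r φ) (Ph r φ)) at hwk'
  have hzz : BM (fun x : X3 => (1 * zt r (x 2)) ^ 2) := by
    refine ⟨?_, 1, fun x => ?_⟩
    · have : Continuous (fun x : X3 => (1 * kz r ‖x 2‖) ^ 2) := by
        have := kz_cont r
        fun_prop
      exact this.measurable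
    · rw [abs_of_nonneg (sq_nonneg _), one_mul, zt_eq]
      exact pow_le_one₀ (kz_nonneg _ _) (kz_le _ _)
  have hip : ip (Ph r φ) (Ph r φ) = mz r := by
    have e : ∀ x, Ph r φ x * Ph r φ x = (φ x * φ x) * (1 * zt r (x 2)) ^ 2 := fun x => by
      unfold Ph
      ring
    unfold ip
    simp only [e]
    rw [int_tens hprod (ψ := fun x => φ x * φ x) (θ := fun y => (1 * zt r y) ^ 2)
      ((hφM.mul hφM).mul hzz) (fun x y => by rw [hind])]
    have : ∫ x, φ x * φ x ∂pm = 1 := hφ.norm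
    rw [this, one_mul]
    rfl
  have hWΦ : ∫ x, W3 r a l x * Ph r φ x * Ph r φ x ∂pm = 0 := by
    have hk : Continuous (fun t : ℝ => (1 * kz r t) ^ 2) := by
      have := kz_cont r
      fun_prop
    have e : ∀ x, W3 r a l x * Ph r φ x * Ph r φ x =
        W3 r a l x * (φ x * φ x) * (fun t : ℝ => (1 * kz r t) ^ 2) ‖x 2‖ := fun x => by
      unfold Ph
      rw [zt_eq]
      ring
    simp only [e]
    exact avgW hprod hW (ψ := fun x => φ x * φ x) (k := fun t : ℝ => (1 * kz r t) ^ 2) hk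
      ((hWB.mul (hφM.mul hφM)).mul hzz) (fun x y => by rw [hind])
  rw [hip] at hwk'
  set X := DD (Ph r φ) (Ph r φ) with hX
  have hX3 : X = Dj 0 (Ph r φ) (Ph r φ) + Dj 1 (Ph r φ) (Ph r φ) + Dj 2 (Ph r φ) (Ph r φ) := by
    rw [hX]
    unfold DD
    rw [Fin.sum_univ_three]
  have hX0 : 0 ≤ X := DD_nonneg hform hΦL
  set VV := ∫ x, V12 r a x * Ph r φ x * Ph r φ x ∂pm with hVV
  have hVV1 : |VV| ≤ 1 := by
    have h := ip_bd hVm hV1 hΦM hΦM
    rw [hip, Real.mul_self_sqrt (by linarith), one_mul] at h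
    linarith
  set E2 := EE S2 r (V12 r a)
  set D0 := Dj 0 (Ph r φ) (Ph r φ)
  set D1' := Dj 1 (Ph r φ) (Ph r φ)
  set D2 := Dj 2 (Ph r φ) (Ph r φ)
  set q := √(X + 2 * mz r) with hq
  have hq0 : 0 ≤ q := Real.sqrt_nonneg _
  have hqq : q * q = X + 2 * mz r := Real.mul_self_sqrt (by linarith)
  have hsz : √(mz r) ≤ 1 := (Real.sqrt_le_sqrt hz1).trans_eq Real.sqrt_one
  have he4 : Real.exp (-r / 4) ≤ 1 := by
    rw [Real.exp_le_one_iff]
    linarith
  have he2 : Real.exp (-r / 2) ≤ Real.exp (-r / 4) := by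
    apply Real.exp_le_exp.mpr
    linarith
  have he20 := Real.exp_pos (-r / 2)
  have he40 := Real.exp_pos (-r / 4)
  have hw2 : Real.exp (-r / 2) * √(mz r) * q ≤ Real.exp (-r / 4) * q := by
    have : Real.exp (-r / 2) * √(mz r) ≤ Real.exp (-r / 4) * 1 :=
      mul_le_mul he2 hsz (Real.sqrt_nonneg _) he40.le
    rw [mul_one] at this
    exact mul_le_mul_of_nonneg_right this hq0
  have hw3 := hwk'.trans hw2
  have hEK := abs_le.mp hK
  have hVV2 := abs_le.mp hVV1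
  have hD2' : D2 ≤ Cw ^ 2 := by
    refine hD2.trans ?_
    calc Cw ^ 2 * Real.exp (-r / 4) ≤ Cw ^ 2 * 1 := mul_le_mul_of_nonneg_left he4 (sq_nonneg _)
      _ = _ := mul_one _
  have hK0 : 0 ≤ K := (abs_nonneg _).trans hK
  have hE2z : E2 * mz r ≤ K := by
    calc E2 * mz r ≤ K * mz r := mul_le_mul_of_nonneg_right hEK.2 (by linarith)
      _ ≤ K * 1 := mul_le_mul_of_nonneg_left hz1 hK0
      _ = K := mul_one _
  have hqA : q ≤ K + 4 + Cw ^ 2 := by
    have h1 := (abs_le.mp hw3).2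
    have h2 : Real.exp (-r / 4) * q ≤ q := by
      calc Real.exp (-r / 4) * q ≤ 1 * q := mul_le_mul_of_nonneg_right he4 hq0
        _ = q := one_mul _
    have h3 : q * q ≤ (K + 3 + Cw ^ 2) + q := by
      rw [hqq, hX3]
      linarith
    by_contra hcon
    push Not at hcon
    have h4 : 0 ≤ Cw ^ 2 := sq_nonneg _
    have h5 : 1 ≤ q - 1 := by linarith only [h4, hK0, hcon]
    have h6 : q * 1 ≤ q * (q - 1) := mul_le_mul_of_nonneg_left h5 hq0
    have h7 : (q - 1) * (K + 4 + Cw ^ 2) ≤ (q - 1) * q :=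
      mul_le_mul_of_nonneg_left hcon.le (by linarith only [h5])
    have h8 : 1 * (K + 4 + Cw ^ 2) ≤ (q - 1) * (K + 4 + Cw ^ 2) :=
      mul_le_mul_of_nonneg_right h5 (by positivity)
    linarith only [h3, h7, h8]
  -- the variational principle
  have hS3 : S3.Nonempty := ⟨0, Finset.mem_univ _⟩
  have hv := (hvar S3 r (U3 r a l) hS3 hr hUm hU1).2.1 (Ph r φ) hΦB
  unfold BB at hv
  rw [U_split hV hWB hΦM hΦM, hWΦ, hip, add_zero] at hv
  have h5 := (abs_le.mp hw3).2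
  have h6 : (EE S3 r (U3 r a l) - E2) * mz r ≤ (2 * Cw ^ 2 + K + 4) * Real.exp (-r / 4) := by
    have h7 : Real.exp (-r / 4) * q ≤ Real.exp (-r / 4) * (K + 4 + Cw ^ 2) :=
      mul_le_mul_of_nonneg_left hqA he40.le
    have h8 : DD (Ph r φ) (Ph r φ) = D0 + D1' + D2 := hX3
    rw [h8] at hv
    rw [sub_mul]
    have h9 : Cw ^ 2 * Real.exp (-r / 4) + Real.exp (-r / 4) * (K + 4 + Cw ^ 2) =
      (2 * Cw ^ 2 + K + 4) * Real.exp (-r / 4) := by ring
    linarith only [hv, h5, h7, hD2, h9]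
  have h9 : 0 ≤ (2 * Cw ^ 2 + K + 4) * Real.exp (-r / 4) := by positivity
  by_cases hs : EE S3 r (U3 r a l) - E2 ≤ 0
  · linarith only [hs, h9]
  · push Not at hs
    have h10 := mul_le_mul_of_nonneg_left hz hs.le
    linarith only [h10, h6]

/-! ### the parameters -/

lemma par_ha {r a : ℝ} (hr : 2 ≤ r) (ha : r ^ 4 ≤ a) : 8 * r ≤ a := by
  have h1 : (2 : ℝ) ^ 3 ≤ r ^ 3 := by gcongr
  calc 8 * r = 2 ^ 3 * r := by norm_num
    _ ≤ r ^ 3 * r := mul_le_mul_of_nonneg_right h1 (by linarith)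
    _ = r ^ 4 := by ring
    _ ≤ a := ha

lemma par_a1 {r a : ℝ} (hr : 2 ≤ r) (ha : r ^ 4 ≤ a) : r ≤ a ∧ 16 ≤ a := by
  have h := par_ha hr ha
  constructor <;> linarith

lemma par_hl {a l : ℝ} (ha : 16 ≤ a) (hl : a ^ 6 ≤ l) : 2 * a ≤ l := by
  have h1 : (1 : ℝ) ≤ a ^ 4 := one_le_pow₀ (by linarith)
  have h2 : a * 1 ≤ a * a ^ 4 := mul_le_mul_of_nonneg_left h1 (by linarith)
  calc 2 * a ≤ a * a := by nlinarith
    _ = (a * 1) * a := by ring
    _ ≤ (a * a ^ 4) * a := mul_le_mul_of_nonneg_right h2 (by linarith)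
    _ = a ^ 6 := by ring
    _ ≤ l := hl

/-- `r²/b³ ≤ 1/r` for `b ≥ r` -/
lemma par_M {r b : ℝ} (hr : 1 ≤ r) (hb : r ^ 2 ≤ b) : r ^ 2 / b ^ 3 ≤ 1 / r := by
  have hb0 : 0 < b := lt_of_lt_of_le (by positivity) hb
  rw [div_le_div_iff₀ (by positivity) (by linarith)]
  have h1 : r ^ 2 * r ^ 2 ≤ b * b := mul_le_mul hb hb (by positivity) hb0.le
  have h2 : 1 ≤ b := le_trans (one_le_pow₀ hr) hb
  calc r ^ 2 * r ≤ r ^ 2 * r ^ 2 := by
        apply mul_le_mul_of_nonneg_left _ (by positivity)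
        nlinarith
    _ ≤ b * b := h1
    _ = (b * b) * 1 := by ring
    _ ≤ (b * b) * b := mul_le_mul_of_nonneg_left h2 (by positivity)
    _ = 1 * b ^ 3 := by ring

lemma par_e {r : ℝ} (hr : 0 < r) : Real.exp (-r / 8) ≤ 8 / r := by
  have h1 : r / 8 ≤ Real.exp (r / 8) := by
    have := Real.add_one_le_exp (r / 8)
    linarith
  have h2 : Real.exp (-r / 8) = (Real.exp (r / 8))⁻¹ := by
    rw [← Real.exp_neg]
    congr 1
    ring
  rw [h2, show (8 : ℝ) / r = (r / 8)⁻¹ by rw [inv_div]]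
  exact inv_anti₀ (by positivity) h1

/-- the potentials are small (with all the side conditions of the statements) -/
structure Pots (Cb r a l : ℝ) : Prop where
  Vm : Measurable (V12 r a)
  Wm : Measurable (W3 r a l)
  V1 : ∀ x, |V12 r a x| ≤ Cb / r
  W1 : ∀ x, |W3 r a l x| ≤ Cb / r
  WM : ∀ x, |W3 r a l x| ≤ Cb * (r ^ 2 / l ^ 3)
  WN : ∀ x, |W3 r a l x - W3 r a l (piv x)| ≤ Cb * (r ^ 2 * a / l ^ 4)
  Vp : ∀ x, V12 r a (piv x) = V12 r a x
  V2 : ∀ x y, V12 r a (Function.update x 2 y) = V12 r a x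
  Wa : ∀ (k : ℝ → ℝ) (x : X3), Continuous k →
      ∫ y, k ‖y‖ * W3 r a l (Function.update x 2 y) ∂hm = 0
  iV : ∫ x, V12 r a x ∂pm = 0
  iU : ∫ x, U3 r a l x ∂pm = 0
  zV : ∫ x, V12 r a x * ZS S2 r x ^ 2 ∂pm = 0
  zU : ∫ x, U3 r a l x * ZS S3 r x ^ 2 ∂pm = 0

lemma pots (havg : S_avg) (hps : S_potsym) {Cb : ℝ} (hCb : 1 ≤ Cb)
    (hbd : ∀ r a l : ℝ, 1 ≤ r → 8 * r ≤ a → 2 * a ≤ l →
    Measurable (V12 r a) ∧ Measurable (W3 r a l) ∧
    (∀ x, |V12 r a x| ≤ Cb * r ^ 2 / a ^ 3) ∧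
    (∀ x : X3, ‖x 0‖ ≤ r → ‖x 1‖ ≤ r →
      |V12 r a x - dd (x 0) (x 1) / a ^ 3| ≤ Cb * r ^ 3 / a ^ 4) ∧
    (∀ x, |W3 r a l x| ≤ Cb * r ^ 2 / l ^ 3) ∧
    (∀ x, |W3 r a l x - W3 r a l (piv x)| ≤ Cb * r ^ 2 * a / l ^ 4))
    {r a l : ℝ} (hr : 2 ≤ r) (ha : r ^ 4 ≤ a) (hl : a ^ 6 ≤ l) : Pots Cb r a l := by
  have h1 := par_ha hr ha
  have h2 := par_hl (par_a1 hr ha).2 hl
  have hr1 : (1 : ℝ) ≤ r := by linarith
  obtain ⟨b1, b2, b3, -, b5, b6⟩ := hbd r a l hr1 h1 h2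
  obtain ⟨-, c2, -, c4, c5, c6, c7⟩ := havg r a l hr1 h1 h2
  obtain ⟨d1, d2, -⟩ := hps r a l
  have hra : r ^ 2 ≤ a := le_trans (pow_le_pow_right₀ hr1 (by norm_num)) ha
  have hrl : r ^ 2 ≤ l := by
    have : 0 ≤ a := by linarith
    linarith
  refine ⟨b1, b2, fun x => (b3 x).trans ?_, fun x => (b5 x).trans ?_, fun x => (b5 x).trans_eq ?_,
    fun x => (b6 x).trans_eq ?_, d1, d2, c2, c4, c5, c6, c7⟩
  · rw [mul_div_assoc, show Cb / r = Cb * (1 / r) by ring]
    exact mul_le_mul_of_nonneg_left (par_M hr1 hra) (by linarith)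
  · rw [mul_div_assoc, show Cb / r = Cb * (1 / r) by ring]
    exact mul_le_mul_of_nonneg_left (par_M hr1 hrl) (by linarith)
  · ring
  · ring

/-! ### the energy of the odd part -/

/-- `W3` of even and odd parts under `piv` -/
def Wo (r a l : ℝ) (x : X3) : ℝ := (W3 r a l x - W3 r a l (piv x)) / 2

/-- even part -/
def We (r a l : ℝ) (x : X3) : ℝ := (W3 r a l x + W3 r a l (piv x)) / 2

/-- weak equation of the odd part of a near minimiser -/
lemma odd_weak (hvar : S_var) (hb : S_bl) (hs : S_sym) (hform : S_form)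
    [IsProbabilityMeasure pm] {Cb r a l : ℝ} (hr : 1 ≤ r) (hP : Pots Cb r a l)
    (hU1 : ∀ x, |U3 r a l x| ≤ 1) {g : X3 → ℝ} (hg : NM S3 r (U3 r a l) g) {v : X3 → ℝ}
    (hv : Box S3 r v) (hvo : ∀ x, v (piv x) = - v x) :
    |BB (V12 r a) (pod g) v - EE S3 r (U3 r a l) * ip (pod g) v
      + ∫ x, (Wo r a l x * pev g x + We r a l x * pod g x) * v x ∂pm| ≤
      Real.exp (-r / 2) * √(DD v v + 2 * ip v v) := by
  have hr0 : 0 < r := by linarith
  have hV : BM (V12 r a) := ⟨hP.Vm, _, hP.V1⟩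
  have hW : BM (W3 r a l) := ⟨hP.Wm, _, hP.W1⟩
  have hWp : BM (fun x => W3 r a l (piv x)) :=
    ⟨hP.Wm.comp (piv_mp hs).measurable, _, fun x => hP.W1 _⟩
  have hWo : BM (Wo r a l) := by
    have := (hW.sub hWp).cmul (1 / 2)
    have e : Wo r a l = fun x => 1 / 2 * (W3 r a l x - W3 r a l (piv x)) := by
      funext x
      unfold Wo
      ring
    rwa [e]
  have hWe : BM (We r a l) := by
    have := (hW.add hWp).cmul (1 / 2)
    have e : We r a l = fun x => 1 / 2 * (W3 r a l x + W3 r a l (piv x)) := by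
      funext x
      unfold We
      ring
    rwa [e]
  have hS3 : S3.Nonempty := ⟨0, Finset.mem_univ _⟩
  have hUm : Measurable (U3 r a l) := hP.Vm.add hP.Wm
  have h := (hvar S3 r (U3 r a l) hS3 hr hUm hU1).2.2.2 (Real.exp (-r)) g v (Real.exp_pos _).le
    hg.box hg.norm hg.le hv
  have hsq : √(Real.exp (-r)) = Real.exp (-r / 2) := by
    rw [Real.sqrt_eq_iff_mul_self_eq (Real.exp_pos _).le (Real.exp_pos _).le, ← Real.exp_add]
    congr 1
    ring
  rw [hsq] at h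
  have hgL := boxBL hb hr0 hg.box
  have heL := boxBL hb hr0 (box_pev hb hs hr0 hg.box)
  have hoL := boxBL hb hr0 (box_pod hb hs hr0 hg.box)
  have hvL := boxBL hb hr0 hv
  have hgM := BM.of_BL hgL
  have heM := BM.of_BL heL
  have hoM := BM.of_BL hoL
  have hvM := BM.of_BL hvL
  have hge : g = fun x => pev g x + pod g x := funext (pev_add g)
  -- the form
  have h1 : DD g v = DD (pod g) v := by
    conv_lhs => rw [hge]
    rw [DD_add hform heL hoL hvL, DD_eo hform hs heL hvL (pev_piv g) hvo, zero_add]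
  have h2 : ip g v = ip (pod g) v := by
    conv_lhs => rw [hge]
    rw [ip_add heM hoM hvM]
    have : ip (pev g) v = 0 := by
      unfold ip
      refine int_odd hs (heM.mul hvM).meas fun x => ?_
      rw [pev_piv, hvo]
      ring
    rw [this, zero_add]
  have h3 : ∫ x, U3 r a l x * g x * v x ∂pm = (∫ x, V12 r a x * pod g x * v x ∂pm) +
      ∫ x, (Wo r a l x * pev g x + We r a l x * pod g x) * v x ∂pm := by
    have e1 : ∀ x, U3 r a l x * g x * v x = (V12 r a x * pod g x * v x +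
        (Wo r a l x * pev g x + We r a l x * pod g x) * v x) +
        ((V12 r a x + We r a l x) * pev g x * v x + Wo r a l x * pod g x * v x) := by
      intro x
      have hx := pev_add g x
      have hw : W3 r a l x = We r a l x + Wo r a l x := by
        unfold We Wo
        ring
      unfold U3
      rw [hw]
      rw [hx]
      ring
    simp only [e1]
    have b1 : BM (fun x => V12 r a x * pod g x * v x) := (hV.mul hoM).mul hvM
    have b2 : BM (fun x => (Wo r a l x * pev g x + We r a l x * pod g x) * v x) :=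
      ((hWo.mul heM).add (hWe.mul hoM)).mul hvM
    have b3 : BM (fun x => (V12 r a x + We r a l x) * pev g x * v x) :=
      ((hV.add hWe).mul heM).mul hvM
    have b4 : BM (fun x => Wo r a l x * pod g x * v x) := (hWo.mul hoM).mul hvM
    rw [I_add (b1.add b2) (b3.add b4), I_add b1 b2, I_add b3 b4]
    have z1 : ∫ x, (V12 r a x + We r a l x) * pev g x * v x ∂pm = 0 := by
      refine int_odd hs b3.meas fun x => ?_
      have hwe : We r a l (piv x) = We r a l x := by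
        unfold We
        rw [piv_piv]
        ring
      rw [hP.Vp, hwe, pev_piv, hvo]
      ring
    have z2 : ∫ x, Wo r a l x * pod g x * v x ∂pm = 0 := by
      refine int_odd hs b4.meas fun x => ?_
      have hwo : Wo r a l (piv x) = - Wo r a l x := by
        unfold Wo
        rw [piv_piv]
        ring
      rw [hwo, pod_piv, hvo]
      ring
    rw [z1, z2, add_zero, add_zero]
  unfold BB at h ⊢
  rw [h1, h2, h3] at h
  have e : DD (pod g) v + ∫ x, V12 r a x * pod g x * v x ∂pm - EE S3 r (U3 r a l) * ip (pod g) v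
      + ∫ x, (Wo r a l x * pev g x + We r a l x * pod g x) * v x ∂pm =
      DD (pod g) v + ((∫ x, V12 r a x * pod g x * v x ∂pm) +
        ∫ x, (Wo r a l x * pev g x + We r a l x * pod g x) * v x ∂pm)
      - EE S3 r (U3 r a l) * ip (pod g) v := by ring
  rw [e]
  exact h

lemma Wo_BM (hs : S_sym) {Cb r a l : ℝ} (hP : Pots Cb r a l) : BM (Wo r a l) := by
  have hW : BM (W3 r a l) := ⟨hP.Wm, _, hP.W1⟩
  have hWp : BM (fun x => W3 r a l (piv x)) :=
    ⟨hP.Wm.comp (piv_mp hs).measurable, _, fun x => hP.W1 _⟩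
  have := (hW.sub hWp).cmul (1 / 2)
  have e : Wo r a l = fun x => 1 / 2 * (W3 r a l x - W3 r a l (piv x)) := by
    funext x
    unfold Wo
    ring
  rwa [e]

lemma We_BM (hs : S_sym) {Cb r a l : ℝ} (hP : Pots Cb r a l) : BM (We r a l) := by
  have hW : BM (W3 r a l) := ⟨hP.Wm, _, hP.W1⟩
  have hWp : BM (fun x => W3 r a l (piv x)) :=
    ⟨hP.Wm.comp (piv_mp hs).measurable, _, fun x => hP.W1 _⟩
  have := (hW.add hWp).cmul (1 / 2)
  have e : We r a l = fun x => 1 / 2 * (W3 r a l x + W3 r a l (piv x)) := by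
    funext x
    unfold We
    ring
  rwa [e]

lemma Wo_le {Cb r a l : ℝ} (hP : Pots Cb r a l) (x : X3) :
    |Wo r a l x| ≤ Cb * (r ^ 2 * a / l ^ 4) / 2 := by
  unfold Wo
  rw [abs_div, abs_of_pos (by norm_num : (0 : ℝ) < 2)]
  exact div_le_div_of_nonneg_right (hP.WN x) (by norm_num)

lemma We_le {Cb r a l : ℝ} (hP : Pots Cb r a l) (x : X3) :
    |We r a l x| ≤ Cb * (r ^ 2 / l ^ 3) := by
  have h1 := hP.WM x
  have h2 := hP.WM (piv x)
  unfold We
  rw [abs_div, abs_of_pos (by norm_num : (0 : ℝ) < 2)]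
  have := abs_add_le (W3 r a l x) (W3 r a l (piv x))
  rw [div_le_iff₀ (by norm_num)]
  linarith

/-- `∫ W3 g² ≤ 2Mτ + Mτ²`, `τ² = 1 - c²` -/
lemma Wgg [IsProbabilityMeasure pm] (hprod : S_prod) {r a l M : ℝ}
    (hW : Measurable (W3 r a l)) (hM : ∀ x, |W3 r a l x| ≤ M)
    (hWa : ∀ (k : ℝ → ℝ) (x : X3), Continuous k →
      ∫ y, k ‖y‖ * W3 r a l (Function.update x 2 y) ∂hm = 0)
    {φ g : X3 → ℝ} (hφ : BM φ) (hg : BM g) (hind : ∀ x y, φ (Function.update x 2 y) = φ x)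
    (h1 : ip φ φ = 1) (h2 : ip g g = 1) :
    0 ≤ 1 - ip φ g ^ 2 ∧ |∫ x, W3 r a l x * g x * g x ∂pm| ≤
      2 * M * √(1 - ip φ g ^ 2) + M * (1 - ip φ g ^ 2) := by
  have hWB : BM (W3 r a l) := ⟨hW, M, hM⟩
  have hM0 : 0 ≤ M := (abs_nonneg _).trans (hM 0)
  set c := ip φ g with hc
  set w : X3 → ℝ := fun x => g x - c * φ x with hw
  have hcφ : BM (fun x => c * φ x) := hφ.cmul c
  have hwM : BM w := hg.sub hcφ
  have hww : ip w w = 1 - c ^ 2 := by
    rw [hw, ip_sub hg hcφ (hg.sub hcφ), ip_comm g, ip_sub hg hcφ hg, ip_cmul,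
      ip_cmul, ip_comm φ (fun x => g x - c * φ x), ip_sub hg hcφ hφ, ip_cmul, h1, h2,
      ip_comm g φ, ← hc]
    ring
  have h0 : 0 ≤ 1 - c ^ 2 := hww ▸ ip_nonneg w
  refine ⟨h0, ?_⟩
  have e1 : ∫ x, W3 r a l x * g x * g x ∂pm =
      c ^ 2 * (∫ x, W3 r a l x * φ x * φ x ∂pm) + 2 * c * (∫ x, W3 r a l x * φ x * w x ∂pm)
      + ∫ x, W3 r a l x * w x * w x ∂pm := by
    have i1 := (((hWB.mul hφ).mul hφ).cmul (c ^ 2))
    have i2 := (((hWB.mul hφ).mul hwM).cmul (2 * c))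
    have i3 := ((hWB.mul hwM).mul hwM)
    rw [← integral_const_mul, ← integral_const_mul, ← I_add i1 i2, ← I_add (i1.add i2) i3]
    congr 1
    funext x
    rw [hw]
    ring
  have z1 : ∫ x, W3 r a l x * φ x * φ x ∂pm = 0 := by
    have h := avgW hprod hWa (ψ := fun x => φ x * φ x) (k := fun _ => 1) continuous_const
      ((hWB.mul (hφ.mul hφ)).mul (BM.const 1)) (fun x y => by rw [hind])
    simp only [mul_one] at h
    rw [← h]
    congr 1
    funext x
    ring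
  have b2 := ip_bd hW hM hφ hwM
  have b3 := ip_bd hW hM hwM hwM
  rw [h1, hww, Real.sqrt_one, one_mul] at b2
  rw [hww, Real.mul_self_sqrt h0] at b3
  have hc1 : |c| ≤ 1 := by
    rw [← sq_le_one_iff_abs_le_one]
    linarith
  rw [e1, z1, mul_zero, zero_add]
  refine (abs_add_le _ _).trans (add_le_add ?_ b3)
  rw [abs_mul, abs_mul, abs_of_pos (by norm_num : (0 : ℝ) < 2)]
  calc 2 * |c| * |∫ x, W3 r a l x * φ x * w x ∂pm| ≤ 2 * 1 * (M * √(1 - c ^ 2)) := by
        gcongr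
    _ = _ := by ring

/-- the form of the odd part -/
lemma DD_pod (hb : S_bl) (hs : S_sym) (hform : S_form) {r : ℝ} (hr : 0 < r) {g : X3 → ℝ}
    (hg : Box S3 r g) : DD (pod g) (pod g) ≤ DD g g := by
  have hgL := boxBL hb hr hg
  have hgp := piv_BL hs hgL
  have hoL := boxBL hb hr (box_pod hb hs hr hg)
  have h1 := piv_DD hs hgL hgL
  have h2 := hform.2.1 g _ hgL hgp
  have hg0 := DD_nonneg hform hgL
  rw [h1, Real.mul_self_sqrt hg0] at h2
  have hd : BL (fun x => g x - g (piv x)) := (hb.1 _ _ hgL hgp).2.1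
  have e : pod g = fun x => 1 / 2 * (g x - g (piv x)) := by
    funext x
    unfold pod
    ring
  have hd2 : BL (fun x => 1 / 2 * (g x - g (piv x))) := e ▸ hoL
  rw [e, DD_cmul hform hd hd2, DD_symm hform hd hd2, DD_cmul hform hd hd,
    DD_sub hform hgL hgp hd, DD_symm hform hgL hd, DD_symm hform hgp hd,
    DD_sub hform hgL hgp hgL, DD_sub hform hgL hgp hgp, h1, DD_symm hform hgp hgL]
  have h3 := (abs_le.mp h2).1
  linarith

lemma ip_pod (hs : S_sym) [IsProbabilityMeasure pm] {g : X3 → ℝ} (hg : BM g) :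
    ip (pod g) (pod g) ≤ ip g g ∧ ip (pev g) (pev g) ≤ ip g g := by
  have hgp : BM (fun x => g (piv x)) := by
    obtain ⟨B, hB⟩ := hg.bdd
    exact ⟨hg.meas.comp (piv_mp hs).measurable, B, fun x => hB _⟩
  have ho : BM (pod g) := by
    have := (hg.sub hgp).cmul (1 / 2)
    have e : pod g = fun x => 1 / 2 * (g x - g (piv x)) := by
      funext x
      unfold pod
      ring
    rwa [e]
  have he : BM (pev g) := by
    have := (hg.add hgp).cmul (1 / 2)
    have e : pev g = fun x => 1 / 2 * (g x + g (piv x)) := by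
      funext x
      unfold pev
      ring
    rwa [e]
  have z : ip (pev g) (pod g) = 0 := by
    unfold ip
    refine int_odd hs (he.mul ho).meas fun x => ?_
    rw [pev_piv, pod_piv]
    ring
  have e : ip g g = ip (pev g) (pev g) + ip (pod g) (pod g) := by
    have hge : g = fun x => pev g x + pod g x := funext (pev_add g)
    conv_lhs => rw [hge]
    rw [ip_add he ho (he.add ho), ip_comm (pev g), ip_comm (pod g), ip_add he ho he,
      ip_add he ho ho, ip_comm (pod g) (pev g), z]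
    ring
  have := ip_nonneg (pev g)
  have := ip_nonneg (pod g)
  constructor <;> linarith

/-! ### arithmetic -/

lemma arB {g0 M A t : ℝ} (hg : 0 < g0) (hM : 0 ≤ M) (hMg : M ≤ g0 / 16) (ht : 0 ≤ t)
    (h : g0 / 4 * t ≤ A + 2 * M * √t + M * t) : t ≤ 8 / g0 * A + 128 * M ^ 2 / g0 ^ 2 := by
  have hs : √t * √t = t := Real.mul_self_sqrt ht
  have h1 : 2 * M * √t ≤ g0 / 16 * t + 16 * M ^ 2 / g0 := by
    have h2 : 0 ≤ (g0 * √t - 16 * M) ^ 2 := sq_nonneg _
    have h3 : (g0 * √t - 16 * M) ^ 2 = g0 ^ 2 * t - 32 * g0 * M * √t + 256 * M ^ 2 := by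
      calc (g0 * √t - 16 * M) ^ 2 = g0 ^ 2 * (√t * √t) - 32 * g0 * M * √t + 256 * M ^ 2 := by ring
        _ = _ := by rw [hs]
    rw [h3] at h2
    have h4 : 16 * M ^ 2 / g0 * g0 = 16 * M ^ 2 := by field_simp
    have h5 : (g0 / 16 * t + 16 * M ^ 2 / g0) * g0 = g0 ^ 2 * t / 16 + 16 * M ^ 2 := by
      rw [add_mul, h4]
      ring
    have h6 : 2 * M * √t * g0 ≤ (g0 / 16 * t + 16 * M ^ 2 / g0) * g0 := by
      rw [h5]
      linarith
    exact le_of_mul_le_mul_right h6 hg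
  have h2 : M * t ≤ g0 / 16 * t := mul_le_mul_of_nonneg_right hMg ht
  have h3 : g0 / 8 * t ≤ A + 16 * M ^ 2 / g0 := by linarith
  calc t = 8 / g0 * (g0 / 8 * t) := by field_simp
    _ ≤ 8 / g0 * (A + 16 * M ^ 2 / g0) := mul_le_mul_of_nonneg_left h3 (by positivity)
    _ = 8 / g0 * A + 128 * M ^ 2 / g0 ^ 2 := by
      field_simp
      ring

lemma arD {g0 N B t : ℝ} (hg : 0 < g0) (hN : 0 ≤ N) (ht : 0 ≤ t)
    (h : g0 / 8 * t ≤ B + N * √t) : t ≤ 16 / g0 * B + 64 * N ^ 2 / g0 ^ 2 := by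
  have hs : √t * √t = t := Real.mul_self_sqrt ht
  have h1 : N * √t ≤ g0 / 16 * t + 4 * N ^ 2 / g0 := by
    have h2 : 0 ≤ (g0 * √t - 8 * N) ^ 2 := sq_nonneg _
    have h3 : (g0 * √t - 8 * N) ^ 2 = g0 ^ 2 * t - 16 * g0 * N * √t + 64 * N ^ 2 := by
      calc (g0 * √t - 8 * N) ^ 2 = g0 ^ 2 * (√t * √t) - 16 * g0 * N * √t + 64 * N ^ 2 := by ring
        _ = _ := by rw [hs]
    rw [h3] at h2
    have h4 : 4 * N ^ 2 / g0 * g0 = 4 * N ^ 2 := by field_simp
    have h5 : (g0 / 16 * t + 4 * N ^ 2 / g0) * g0 = g0 ^ 2 * t / 16 + 4 * N ^ 2 := by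
      rw [add_mul, h4]
      ring
    have h6 : N * √t * g0 ≤ (g0 / 16 * t + 4 * N ^ 2 / g0) * g0 := by
      rw [h5]
      linarith
    exact le_of_mul_le_mul_right h6 hg
  have h3 : g0 / 16 * t ≤ B + 4 * N ^ 2 / g0 := by linarith
  calc t = 16 / g0 * (g0 / 16 * t) := by field_simp
    _ ≤ 16 / g0 * (B + 4 * N ^ 2 / g0) := mul_le_mul_of_nonneg_left h3 (by positivity)
    _ = 16 / g0 * B + 64 * N ^ 2 / g0 ^ 2 := by
      field_simp
      ring

end E3a

open E3a in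
/-- **E3** -/
theorem p_E3 (hgapA : S_gapA) (hvar : S_var) (hapri : S_apri) (havg : S_avg) (hbd : S_bounds)
    (hps : S_potsym) (hsym : S_sym) (hhm : S_hm) (hprod : S_prod) (hbl : S_bl) (hform : S_form)
    (hwk : S_weakA) (hwl : S_wlist) (hlift : S_lift) : S_E3 := by
  intro g0 hg0
  have hpmI : IsProbabilityMeasure pm := hprod.1
  have hg := hg0.pos
  obtain ⟨C1, M0, r1, hC1, hM0, hr1, hAp⟩ := hapri g0 hg0
  obtain ⟨r2, hr2, hGA⟩ := hgapA g0 hg0
  obtain ⟨Cb, hCb, hbd'⟩ := hbd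
  obtain ⟨Cw, hw1, -⟩ := hwl
  obtain ⟨Cm, hCm⟩ := mz_ge hhm
  set A1 : ℝ := 2 * (2 * Cw ^ 2 + 2 * C1 + 4) with hA1
  have hA1p : 0 ≤ A1 := by positivity
  set C2 : ℝ := 8 / g0 * (A1 + 2) + 128 * Cb ^ 2 / g0 ^ 2 with hC2
  have hC2p : 0 ≤ C2 := by positivity
  set C3 : ℝ := A1 + 2 + Cb ^ 2 + 2 * C2 with hC3
  have hC3p : 0 ≤ C3 := by positivity
  set C4 : ℝ := 16 / g0 * √(2 * C1 + 2) + 64 * Cb ^ 2 / g0 ^ 2 with hC4
  have hC4p : 0 ≤ C4 := by positivity
  set r0 : ℝ := 2 + r1 + r2 + 4 * Cb + 2 * Cb / M0 + 32 * Cb / g0 + 16 * |Cm| + 288 * C3 / g0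
    + 256 / g0 with hr0
  have hr0b : 2 ≤ r0 ∧ r1 ≤ r0 ∧ r2 ≤ r0 ∧ 4 * Cb ≤ r0 ∧ 2 * Cb / M0 ≤ r0 ∧ 32 * Cb / g0 ≤ r0 ∧
      16 * |Cm| ≤ r0 ∧ 288 * C3 / g0 ≤ r0 ∧ 256 / g0 ≤ r0 := by
    have q1 : 0 ≤ 2 * Cb / M0 := by positivity
    have q2 : 0 ≤ 32 * Cb / g0 := by positivity
    have q3 : 0 ≤ 288 * C3 / g0 := by positivity
    have q4 : 0 ≤ 256 / g0 := by positivity
    have q5 := abs_nonneg Cm
    refine ⟨?_, ?_, ?_, ?_, ?_, ?_, ?_, ?_, ?_⟩ <;> linarith
  refine ⟨1 + C2 + C3 + 2 * C1 + C4, r0, by linarith, by linarith [hr0b.1], ?_⟩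
  intro r a l φ g hr ha hl hφ hφe hg'
  obtain ⟨k1, k2, k3, k4, k5, k6, k7, k8, k9⟩ := hr0b
  have hr2' : 2 ≤ r := by linarith
  have hr1' : (1 : ℝ) ≤ r := by linarith
  have hrp : 0 < r := by linarith
  have hCb0 : 0 < Cb := by linarith
  have hP := pots havg hps hCb hbd' hr2' ha hl
  -- smallness
  have s1 : Cb / r ≤ 1 / 4 := by
    rw [div_le_div_iff₀ hrp (by norm_num)]
    linarith
  have s2 : 2 * Cb / r ≤ M0 := by
    rw [div_le_iff₀ hrp]
    have : 2 * Cb / M0 ≤ r := by linarith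
    rw [div_le_iff₀ hM0] at this
    linarith
  have s3 : Cb / r ≤ g0 / 32 := by
    rw [div_le_div_iff₀ hrp (by norm_num)]
    have : 32 * Cb / g0 ≤ r := by linarith
    rw [div_le_iff₀ hg] at this
    linarith
  have he8 := par_e hrp
  have hep8 := Real.exp_pos (-r / 8)
  have he48 : Real.exp (-r / 4) ≤ Real.exp (-r / 8) := Real.exp_le_exp.mpr (by linarith)
  have he28 : Real.exp (-r / 2) ≤ Real.exp (-r / 8) := Real.exp_le_exp.mpr (by linarith)
  have he14 : Real.exp (-r) ≤ Real.exp (-r / 4) := Real.exp_le_exp.mpr (by linarith)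
  have he18 : Real.exp (-r) ≤ Real.exp (-r / 8) := Real.exp_le_exp.mpr (by linarith)
  have he81 : Real.exp (-r / 8) ≤ 1 := Real.exp_le_one_iff.mpr (by linarith)
  have hep4 := Real.exp_pos (-r / 4)
  have hep1 := Real.exp_pos (-r)
  -- the two a priori bounds
  have hV1 : ∀ x, |V12 r a x| ≤ 1 := fun x => (hP.V1 x).trans (by linarith)
  have hW1 : ∀ x, |W3 r a l x| ≤ 1 := fun x => (hP.W1 x).trans (by linarith)
  have hVM' : ∀ x, |V12 r a x| ≤ 2 * Cb / r := fun x => (hP.V1 x).trans (by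
    rw [mul_div_assoc]
    have : 0 ≤ Cb / r := by positivity
    linarith)
  have hUM' : ∀ x, |U3 r a l x| ≤ 2 * Cb / r := fun x => by
    unfold U3
    refine (abs_add_le _ _).trans ?_
    have := hP.V1 x
    have := hP.W1 x
    rw [mul_div_assoc]
    linarith
  have hM'0 : 0 ≤ 2 * Cb / r := by positivity
  have hM'1 : 2 * Cb / r ≤ 1 / 2 := by
    rw [mul_div_assoc]
    linarith
  have hU1 : ∀ x, |U3 r a l x| ≤ 1 := fun x => (hUM' x).trans (by linarith)
  have hUm : Measurable (U3 r a l) := hP.Vm.add hP.Wm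
  have hS3 : S3.Nonempty := ⟨0, Finset.mem_univ _⟩
  have hS2 : S2.Nonempty := ⟨0, by simp [S2]⟩
  have hA2 := hAp S2 r (2 * Cb / r) (V12 r a) hS2 (by linarith) hM'0 s2 hP.Vm hVM' hP.iV hP.zV
  have hA3 := hAp S3 r (2 * Cb / r) (U3 r a l) hS3 (by linarith) hM'0 s2 hUm hUM' hP.iU hP.zU
  have hM'2 : (2 * Cb / r) ^ 2 ≤ 1 := pow_le_one₀ hM'0 (by linarith)
  have hbig : C1 * ((2 * Cb / r) ^ 2 + Real.exp (-r / 4)) ≤ 2 * C1 := by
    have : (2 * Cb / r) ^ 2 + Real.exp (-r / 4) ≤ 2 := by linarith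
    calc C1 * ((2 * Cb / r) ^ 2 + Real.exp (-r / 4)) ≤ C1 * 2 :=
          mul_le_mul_of_nonneg_left this (by linarith)
      _ = _ := by ring
  have hE2 : |EE S2 r (V12 r a)| ≤ 2 * C1 := hA2.1.trans hbig
  have hDg : DD g g ≤ 2 * C1 := (hA3.2 g hg').2.trans hbig
  -- upper bound
  have hmz1 := mz_le hhm r
  have hmz : 1 / 2 ≤ mz r := by
    have h1 := hCm r hr1'
    have h2 : Cm * Real.exp (-r / 4) ≤ 1 / 2 := by
      calc Cm * Real.exp (-r / 4) ≤ |Cm| * (8 / r) :=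
            mul_le_mul (le_abs_self _) (he48.trans he8) hep4.le (abs_nonneg _)
        _ = 8 * |Cm| / r := by ring
        _ ≤ 1 / 2 := by
          rw [div_le_div_iff₀ hrp (by norm_num)]
          linarith
    linarith
  have hup := upperE hvar hbl hlift hw1 hwk hprod hform hr1' hP.Vm hV1 hP.V2 hP.Wm hW1 hU1 hP.Wa
    hφ hE2 hmz hmz1
  rw [← hA1] at hup
  have hφL := boxBL2 hbl hrp hφ.box
  have hgL := boxBL hbl hrp hg'.box
  have hφM := BM.of_BL hφL
  have hgM := BM.of_BL hgL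
  have hVB : BM (V12 r a) := ⟨hP.Vm, _, hP.V1⟩
  have hWB : BM (W3 r a l) := ⟨hP.Wm, _, hP.W1⟩
  -- step B
  set M : ℝ := Cb * (r ^ 2 / l ^ 3) with hM
  have ha1 := par_a1 hr2' ha
  have hl0 : 0 < l := by
    have := par_hl ha1.2 hl
    linarith [ha1.2]
  have ha0 : 0 < a := by linarith [ha1.2]
  have hMM0 : 0 ≤ M := by positivity
  have hrl : r ^ 2 ≤ l := by
    have q1 : r ^ 2 ≤ a := le_trans (pow_le_pow_right₀ hr1' (by norm_num)) ha
    have q2 := par_hl ha1.2 hl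
    linarith
  have hMr : M ≤ Cb / r := by
    rw [hM, show Cb / r = Cb * (1 / r) by ring]
    exact mul_le_mul_of_nonneg_left (par_M hr1' hrl) hCb0.le
  have hMM : M ^ 2 = Cb ^ 2 * (r ^ 4 / l ^ 6) := by
    rw [hM]
    ring
  have hQ0 : 0 ≤ r ^ 4 / l ^ 6 := by positivity
  obtain ⟨ht0, hW2⟩ := Wgg hprod hP.Wm hP.WM hP.Wa hφM hgM (ind2 hbl hlift hw1 hr1' hφ.box) hφ.norm hg'.norm
  set t : ℝ := 1 - ip φ g ^ 2 with ht
  set E2 : ℝ := EE S2 r (V12 r a) with hE2d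
  set E3 : ℝ := EE S3 r (U3 r a l) with hE3d
  set Wg : ℝ := ∫ x, W3 r a l x * g x * g x ∂pm with hWg
  have hgap := hGA r a φ g (by linarith) ha hφ hg'.box
  have hBsplit : BB (U3 r a l) g g = BB (V12 r a) g g + Wg := by
    unfold BB
    rw [U_split hVB hWB hgM hgM]
    ring
  have hgle := hg'.le
  rw [hBsplit] at hgle
  rw [← hE2d, hg'.norm, mul_one, mul_one] at hgap
  have hvg := (hvar S3 r (U3 r a l) hS3 hr1' hUm hU1).2.1 g hg'.box
  rw [hg'.norm, mul_one, hBsplit] at hvg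
  have hWa := abs_le.mp hW2
  have hMg : M ≤ g0 / 16 := by linarith
  have htB : t ≤ 8 / g0 * (A1 * Real.exp (-r / 4) + 2 * Real.exp (-r)) + 128 * M ^ 2 / g0 ^ 2 := by
    refine arB hg hMM0 hMg ht0 ?_
    have : g0 / 4 * (1 - ip φ g ^ 2) = g0 / 4 * t := rfl
    linarith
  have htC : t ≤ C2 * (r ^ 4 / l ^ 6 + Real.exp (-r / 8)) := by
    refine htB.trans ?_
    rw [hMM]
    have q1 : A1 * Real.exp (-r / 4) + 2 * Real.exp (-r) ≤ (A1 + 2) * Real.exp (-r / 8) := by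
      have := mul_le_mul_of_nonneg_left he48 hA1p
      rw [add_mul]
      linarith only [this, he18]
    have q2 : 8 / g0 * (A1 * Real.exp (-r / 4) + 2 * Real.exp (-r)) ≤
        8 / g0 * ((A1 + 2) * Real.exp (-r / 8)) := mul_le_mul_of_nonneg_left q1 (by positivity)
    have q3 : 0 ≤ 8 / g0 * (A1 + 2) * (r ^ 4 / l ^ 6) := by positivity
    have q4 : 0 ≤ 128 * Cb ^ 2 / g0 ^ 2 * Real.exp (-r / 8) := by positivity
    calc 8 / g0 * (A1 * Real.exp (-r / 4) + 2 * Real.exp (-r)) +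
          128 * (Cb ^ 2 * (r ^ 4 / l ^ 6)) / g0 ^ 2
        ≤ 8 / g0 * ((A1 + 2) * Real.exp (-r / 8)) +
          128 * (Cb ^ 2 * (r ^ 4 / l ^ 6)) / g0 ^ 2 := by linarith
      _ = C2 * (r ^ 4 / l ^ 6 + Real.exp (-r / 8)) - 8 / g0 * (A1 + 2) * (r ^ 4 / l ^ 6)
          - 128 * Cb ^ 2 / g0 ^ 2 * Real.exp (-r / 8) := by
        rw [hC2]
        ring
      _ ≤ _ := by linarith
  -- step C
  have hM1 : M ≤ 1 := by linarith
  have hst : √t * √t = t := Real.mul_self_sqrt ht0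
  have hMt : 2 * M * √t + M * t ≤ M ^ 2 + 2 * t := by
    have q1 := sq_nonneg (M - √t)
    have q2 := mul_le_mul_of_nonneg_right hM1 ht0
    have q3 : (M - √t) ^ 2 = M ^ 2 - 2 * M * √t + √t * √t := by ring
    rw [q3, hst] at q1
    linarith only [q1, q2]
  have hlow : E2 - E3 ≤ 2 * Real.exp (-r) + M ^ 2 + 2 * t := by
    have q1 : 0 ≤ g0 / 4 * (1 - ip φ g ^ 2) := by
      have : 0 ≤ 1 - ip φ g ^ 2 := ht0
      positivity
    linarith
  have hDE : |E3 - E2| ≤ C3 * (r ^ 4 / l ^ 6 + Real.exp (-r / 8)) := by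
    rw [abs_le]
    have q0 : 0 ≤ r ^ 4 / l ^ 6 + Real.exp (-r / 8) := by positivity
    constructor
    · have q1 : 2 * Real.exp (-r) + M ^ 2 + 2 * t ≤ C3 * (r ^ 4 / l ^ 6 + Real.exp (-r / 8)) := by
        rw [hMM]
        have q2 : 0 ≤ A1 * (r ^ 4 / l ^ 6 + Real.exp (-r / 8)) := by positivity
        have q3 : 0 ≤ Cb ^ 2 * Real.exp (-r / 8) := by positivity
        calc 2 * Real.exp (-r) + Cb ^ 2 * (r ^ 4 / l ^ 6) + 2 * t
            ≤ 2 * (r ^ 4 / l ^ 6 + Real.exp (-r / 8)) + Cb ^ 2 * (r ^ 4 / l ^ 6) +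
              2 * (C2 * (r ^ 4 / l ^ 6 + Real.exp (-r / 8))) := by linarith
          _ = C3 * (r ^ 4 / l ^ 6 + Real.exp (-r / 8)) - A1 * (r ^ 4 / l ^ 6 + Real.exp (-r / 8))
              - Cb ^ 2 * Real.exp (-r / 8) := by
            rw [hC3]
            ring
          _ ≤ _ := by linarith
      linarith
    · have q1 : A1 * Real.exp (-r / 4) ≤ C3 * (r ^ 4 / l ^ 6 + Real.exp (-r / 8)) := by
        have q2 : A1 ≤ C3 := by
          rw [hC3]
          have : 0 ≤ Cb ^ 2 := sq_nonneg _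
          linarith
        exact mul_le_mul q2 (by linarith) hep4.le hC3p
      linarith
  -- step D
  have hpb := box_pod hbl hsym hrp hg'.box
  have hDp := (DD_pod hbl hsym hform hrp hg'.box).trans hDg
  obtain ⟨hip1, hip2⟩ := ip_pod hsym hgM
  rw [hg'.norm] at hip1 hip2
  set s : ℝ := ip (pod g) (pod g) with hs
  have hs0 : 0 ≤ s := ip_nonneg _
  have hoL := boxBL hbl hrp hpb
  have hoM := BM.of_BL hoL
  have heM := BM.of_BL (boxBL hbl hrp (box_pev hbl hsym hrp hg'.box))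
  have hodd := odd_weak hvar hbl hsym hform hr1' hP hU1 hg' hpb (pod_piv g)
  rw [← hE3d, ← hs] at hodd
  have hgap2 := hGA r a φ (pod g) (by linarith) ha hφ hpb
  have hz : ip φ (pod g) = 0 := by
    unfold ip
    refine int_odd hsym (hφM.mul hoM).meas fun x => ?_
    rw [pod_piv, hφe]
    ring
  rw [hz, ← hE2d, ← hs] at hgap2
  have hWoM := Wo_BM hsym hP
  have hWeM := We_BM hsym hP
  have hIsp : ∫ x, (Wo r a l x * pev g x + We r a l x * pod g x) * pod g x ∂pm =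
      (∫ x, Wo r a l x * pev g x * pod g x ∂pm) + ∫ x, We r a l x * pod g x * pod g x ∂pm := by
    rw [← I_add ((hWoM.mul heM).mul hoM) ((hWeM.mul hoM).mul hoM)]
    congr 1
    funext x
    ring
  rw [hIsp] at hodd
  set N : ℝ := Cb * (r ^ 2 * a / l ^ 4) / 2 with hN
  have hN0 : 0 ≤ N := by positivity
  have i1 := ip_bd hWoM.meas (Wo_le hP) heM hoM
  have i2 := ip_bd hWeM.meas (We_le hP) hoM hoM
  rw [← hs, Real.mul_self_sqrt hs0, ← hM] at i2
  rw [← hs, ← hN] at i1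
  have hse : √(ip (pev g) (pev g)) ≤ 1 := (Real.sqrt_le_sqrt hip2).trans_eq Real.sqrt_one
  have i1' : |∫ x, Wo r a l x * pev g x * pod g x ∂pm| ≤ N * √s := by
    refine i1.trans ?_
    refine mul_le_mul_of_nonneg_left ?_ hN0
    calc √(ip (pev g) (pev g)) * √s ≤ 1 * √s :=
          mul_le_mul_of_nonneg_right hse (Real.sqrt_nonneg _)
      _ = √s := one_mul _
  have hsq2 : √(DD (pod g) (pod g) + 2 * s) ≤ √(2 * C1 + 2) := Real.sqrt_le_sqrt (by linarith)
  have hrhs : Real.exp (-r / 2) * √(DD (pod g) (pod g) + 2 * s) ≤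
      √(2 * C1 + 2) * Real.exp (-r / 8) := by
    rw [mul_comm]
    exact mul_le_mul hsq2 he28 (Real.exp_pos _).le (Real.sqrt_nonneg _)
  have hq1 := (abs_le.mp (hodd.trans hrhs)).2
  have hq2 := (abs_le.mp i1').1
  have hq3 := (abs_le.mp i2).1
  -- smallness of the coefficient
  have hl6 : r ^ 4 / l ^ 6 ≤ 1 / r := by
    rw [div_le_div_iff₀ (by positivity) hrp]
    have q1 : 1 ≤ l := le_trans (one_le_pow₀ hr1') hrl
    have q2 : r ^ 2 * r ^ 2 ≤ l * l := mul_le_mul hrl hrl (by positivity) hl0.le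
    have q3 : (r ^ 2 * r ^ 2) * r ^ 2 ≤ (l * l) * l := mul_le_mul q2 hrl (by positivity) (by positivity)
    have q4 : r ≤ r ^ 2 := by
      rw [pow_two]
      exact le_mul_of_one_le_left hrp.le hr1'
    calc r ^ 4 * r ≤ r ^ 4 * r ^ 2 := mul_le_mul_of_nonneg_left q4 (by positivity)
      _ = (r ^ 2 * r ^ 2) * r ^ 2 := by ring
      _ ≤ (l * l) * l := q3
      _ = (l * l) * l * 1 := by ring
      _ ≤ (l * l) * l * l ^ 3 := mul_le_mul_of_nonneg_left (one_le_pow₀ q1) (by positivity)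
      _ = 1 * l ^ 6 := by ring
  have hDEs : |E3 - E2| ≤ g0 / 32 := by
    refine hDE.trans ?_
    have q1 : r ^ 4 / l ^ 6 + Real.exp (-r / 8) ≤ 9 / r := by
      have : 9 / r = 1 / r + 8 / r := by ring
      linarith
    have q2 : 288 * C3 / g0 ≤ r := by linarith
    rw [div_le_iff₀ hg] at q2
    calc C3 * (r ^ 4 / l ^ 6 + Real.exp (-r / 8)) ≤ C3 * (9 / r) :=
          mul_le_mul_of_nonneg_left q1 hC3p
      _ = 9 * C3 / r := by ring
      _ ≤ g0 / 32 := by
        rw [div_le_div_iff₀ hrp (by norm_num)]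
        linarith
  have her : Real.exp (-r) ≤ g0 / 32 := by
    refine (he18.trans he8).trans ?_
    have q2 : 256 / g0 ≤ r := by linarith
    rw [div_le_iff₀ hg] at q2
    rw [div_le_div_iff₀ hrp (by norm_num)]
    linarith
  have hMs : M * s ≤ g0 / 32 * s := mul_le_mul_of_nonneg_right (by linarith) hs0
  have hEs : (E3 - E2) * s ≤ g0 / 32 * s := mul_le_mul_of_nonneg_right (abs_le.mp hDEs).2 hs0
  have hes : Real.exp (-r) * s ≤ g0 / 32 * s := mul_le_mul_of_nonneg_right her hs0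
  have hkey : g0 / 8 * s ≤ √(2 * C1 + 2) * Real.exp (-r / 8) + N * √s := by
    have : g0 / 4 * (s - 0 ^ 2) = g0 / 4 * s := by ring
    have e2 : (E3 - E2) * s = E3 * s - E2 * s := by ring
    have e3 : 0 ≤ g0 * s := by positivity
    linarith
  have hsC := arD hg hN0 hs0 hkey
  have hNN : N ^ 2 ≤ Cb ^ 2 * (r ^ 4 * a ^ 2 / l ^ 8) := by
    have e : N ^ 2 = Cb ^ 2 * (r ^ 4 * a ^ 2 / l ^ 8) / 4 := by
      rw [hN]
      ring
    rw [e]
    have : 0 ≤ Cb ^ 2 * (r ^ 4 * a ^ 2 / l ^ 8) := by positivity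
    linarith
  have hsF : s ≤ C4 * (r ^ 4 * a ^ 2 / l ^ 8 + Real.exp (-r / 8)) := by
    have q1 : 64 * N ^ 2 / g0 ^ 2 ≤ 64 * Cb ^ 2 / g0 ^ 2 * (r ^ 4 * a ^ 2 / l ^ 8) := by
      rw [div_mul_eq_mul_div]
      apply div_le_div_of_nonneg_right _ (by positivity)
      calc 64 * N ^ 2 ≤ 64 * (Cb ^ 2 * (r ^ 4 * a ^ 2 / l ^ 8)) :=
            mul_le_mul_of_nonneg_left hNN (by norm_num)
        _ = _ := by ring
    have q2 : 0 ≤ 16 / g0 * √(2 * C1 + 2) * (r ^ 4 * a ^ 2 / l ^ 8) := by positivity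
    have q3 : 0 ≤ 64 * Cb ^ 2 / g0 ^ 2 * Real.exp (-r / 8) := by positivity
    calc s ≤ 16 / g0 * (√(2 * C1 + 2) * Real.exp (-r / 8)) + 64 * N ^ 2 / g0 ^ 2 := hsC
      _ ≤ 16 / g0 * (√(2 * C1 + 2) * Real.exp (-r / 8)) +
          64 * Cb ^ 2 / g0 ^ 2 * (r ^ 4 * a ^ 2 / l ^ 8) := by linarith
      _ = C4 * (r ^ 4 * a ^ 2 / l ^ 8 + Real.exp (-r / 8)) -
          16 / g0 * √(2 * C1 + 2) * (r ^ 4 * a ^ 2 / l ^ 8) -
          64 * Cb ^ 2 / g0 ^ 2 * Real.exp (-r / 8) := by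
        rw [hC4]
        ring
      _ ≤ _ := by linarith
  have hq0 : 0 ≤ r ^ 4 / l ^ 6 + Real.exp (-r / 8) := by positivity
  have hq0' : 0 ≤ r ^ 4 * a ^ 2 / l ^ 8 + Real.exp (-r / 8) := by positivity
  refine ⟨hDE.trans (mul_le_mul_of_nonneg_right (by linarith) hq0),
    htC.trans (mul_le_mul_of_nonneg_right (by linarith) hq0), hpb, by linarith, by linarith,
    hsF.trans (mul_le_mul_of_nonneg_right (by linarith) hq0')⟩

end MolDis.H
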