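import Pool.Agent.Lib.MP_59f35a_mp.HStmts

/-!
# MP_59f35a_mp : piece E4 (the polarised third atom)
-/

set_option autoImplicit false

noncomputable section

open MeasureTheory Filter

namespace MolDis.H

namespace E4a

/-! ### the cut-off -/

lemma zt_nonneg (r : ℝ) (x : E3) : 0 ≤ zt r x := le_max_left _ _

lemma zt_le_one (r : ℝ) (x : E3) : zt r x ≤ 1 := max_le zero_le_one (min_le_left _ _)

lemma zt_neg (r : ℝ) (x : E3) : zt r (-x) = zt r x := by simp [zt]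

lemma zt_supp {r : ℝ} (hr : 0 < r) {x : E3} (h : zt r x ≠ 0) : ‖x‖ ≤ r := by
  by_contra hx
  apply h
  have h1 : 2 - 2 * ‖x‖ / r ≤ 0 := by
    have h2 : 1 ≤ ‖x‖ / r := by rw [le_div_iff₀ hr]; linarith [not_le.mp hx]
    have h3 : 2 * ‖x‖ / r = 2 * (‖x‖ / r) := by ring
    linarith
  unfold zt
  rw [max_eq_left]
  exact (min_le_right _ _).trans h1

lemma zt_one {r : ℝ} (hr : 0 < r) {x : E3} (h : ‖x‖ ≤ r / 2) : zt r x = 1 := by
  have h1 : 1 ≤ 2 - 2 * ‖x‖ / r := by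
    have h2 : 2 * ‖x‖ / r ≤ 1 := by rw [div_le_iff₀ hr]; linarith
    linarith
  unfold zt
  rw [min_eq_left h1]
  simp

lemma zt_cont (r : ℝ) : Continuous (zt r) := by
  unfold zt
  fun_prop

/-- the cut-off polarisation function -/
def thz (r : ℝ) (y : E3) : ℝ := th 1 y * zt r y

lemma th1 (y : E3) : th 1 y = y 0 * (2 + ‖y‖ / 2) := by
  unfold th
  have h : hh 1 y = y 0 := rfl
  rw [h]
  norm_num

lemma hh1 (y : E3) : hh 1 y = y 0 := rfl

lemma thz_neg (r : ℝ) (y : E3) : thz r (-y) = - thz r y := by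
  unfold thz
  rw [th1, th1, zt_neg, norm_neg]
  simp

lemma thz_sq_le (r : ℝ) (y : E3) : thz r y ^ 2 ≤ th 1 y ^ 2 := by
  unfold thz
  rw [mul_pow]
  have h1 := zt_nonneg r y
  have h2 := zt_le_one r y
  have h3 : zt r y ^ 2 ≤ 1 := pow_le_one₀ h1 h2
  nlinarith [sq_nonneg (th 1 y)]

lemma thz_LC1 {C : ℝ} (hw : WSol (th 1) (hh 1) C) {r : ℝ} (hr : 1 ≤ r) : LC1 (thz r) := by
  refine ⟨hw.lip r hr, r, fun x hx => ?_⟩
  refine zt_supp (by linarith) (fun h => hx ?_)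
  unfold thz
  rw [h, mul_zero]

lemma thz_int {C : ℝ} (hw : WSol (th 1) (hh 1) C) (r : ℝ) :
    Integrable (fun y => thz r y ^ 2) hm ∧ ∫ y, thz r y ^ 2 ∂hm ≤ C := by
  have hm1 : Measurable (thz r) := hw.measF.mul (zt_cont r).measurable
  have hi : Integrable (fun y => thz r y ^ 2) hm := by
    refine hw.intF.mono' (hm1.pow_const 2).aestronglyMeasurable (ae_of_all _ fun y => ?_)
    rw [Real.norm_of_nonneg (sq_nonneg _)]
    exact thz_sq_le r y
  exact ⟨hi, (integral_mono hi hw.intF fun y => thz_sq_le r y).trans hw.leF⟩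

/-! ### bounded measurable functions -/

/-- bounded measurable -/
structure BM (f : X3 → ℝ) : Prop where
  meas : Measurable f
  bdd : ∃ B : ℝ, ∀ x, |f x| ≤ B

lemma BM.mul {f g : X3 → ℝ} (hf : BM f) (hg : BM g) : BM (fun x => f x * g x) := by
  obtain ⟨B, hB⟩ := hf.bdd
  obtain ⟨B', hB'⟩ := hg.bdd
  refine ⟨hf.meas.mul hg.meas, B * B', fun x => ?_⟩
  rw [abs_mul]
  exact mul_le_mul (hB x) (hB' x) (abs_nonneg _) ((abs_nonneg _).trans (hB x))

lemma BM.sub {f g : X3 → ℝ} (hf : BM f) (hg : BM g) : BM (fun x => f x - g x) := by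
  obtain ⟨B, hB⟩ := hf.bdd
  obtain ⟨B', hB'⟩ := hg.bdd
  refine ⟨hf.meas.sub hg.meas, B + B', fun x => ?_⟩
  exact (abs_sub _ _).trans (add_le_add (hB x) (hB' x))

lemma BM.add {f g : X3 → ℝ} (hf : BM f) (hg : BM g) : BM (fun x => f x + g x) := by
  obtain ⟨B, hB⟩ := hf.bdd
  obtain ⟨B', hB'⟩ := hg.bdd
  refine ⟨hf.meas.add hg.meas, B + B', fun x => ?_⟩
  exact (abs_add_le _ _).trans (add_le_add (hB x) (hB' x))

lemma BM.const (c : ℝ) : BM (fun _ => c) := ⟨measurable_const, |c|, fun _ => le_rfl⟩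

lemma BM.integrable [IsProbabilityMeasure pm] {f : X3 → ℝ} (hf : BM f) : Integrable f pm := by
  obtain ⟨B, hB⟩ := hf.bdd
  exact Integrable.of_bound hf.meas.aestronglyMeasurable B (ae_of_all _ fun x => by
    rw [Real.norm_eq_abs]; exact hB x)

lemma BM_of_BL (hbl : S_bl) {f : X3 → ℝ} (hf : BL f) : BM f :=
  ⟨(hbl.2.2.1 f hf).1, hf.bdd⟩

/-! ### the inversion -/

lemma piv_eq : piv = sgT (Equiv.swap 0 1) (fun _ _ => -1) := by
  funext x j
  fin_cases j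
  · simp only [piv, sgT]
    ext c
    simp
  · simp only [piv, sgT]
    ext c
    simp
  · simp only [piv, sgT]
    ext c
    have h : (Equiv.swap (0 : Fin 3) 1) 2 = 2 := by decide
    simp [h]

lemma piv_mp (hsym : S_sym) : MeasurePreserving piv pm pm := by
  rw [piv_eq]
  exact (hsym _ _ fun _ _ => Or.inr rfl).1

lemma piv_BL (hsym : S_sym) {f : X3 → ℝ} (hf : BL f) : BL (fun x => f (piv x)) := by
  rw [piv_eq]
  exact (hsym _ _ fun _ _ => Or.inr rfl).2.1 f hf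

lemma piv_DD (hsym : S_sym) {f g : X3 → ℝ} (hf : BL f) (hg : BL g) :
    DD (fun x => f (piv x)) (fun x => g (piv x)) = DD f g := by
  rw [piv_eq]
  exact (hsym _ _ fun _ _ => Or.inr rfl).2.2.1 f g hf hg

lemma piv_piv (x : X3) : piv (piv x) = x := by
  funext j
  fin_cases j <;> simp [piv]

lemma BM.piv (hsym : S_sym) {f : X3 → ℝ} (hf : BM f) : BM (fun x => f (piv x)) :=
  ⟨hf.meas.comp (piv_mp hsym).measurable, hf.bdd.imp fun _ h _ => h _⟩

lemma int_piv (hsym : S_sym) {f : X3 → ℝ} (hf : Measurable f) :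
    ∫ x, f (H.piv x) ∂pm = ∫ x, f x ∂pm := by
  have hmp := piv_mp hsym
  have h := integral_map (μ := pm) hmp.measurable.aemeasurable (f := f)
    hf.aestronglyMeasurable
  rw [hmp.map_eq] at h
  exact h.symm

/-- `∫ W h ψ = - ∫ W(piv) h(piv) ψ` for `ψ` odd -/
lemma int_odd (hsym : S_sym) {W h ψ : X3 → ℝ} (hW : BM W) (hh : BM h) (hψ : BM ψ)
    (hodd : ∀ x, ψ (H.piv x) = - ψ x) :
    ∫ x, W x * h x * ψ x ∂pm = - ∫ x, W (H.piv x) * h (H.piv x) * ψ x ∂pm := by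
  rw [← int_piv hsym ((hW.mul hh).mul hψ).meas, ← integral_neg]
  refine integral_congr_ae (ae_of_all _ fun x => ?_)
  simp only [hodd]
  ring

/-! ### the form -/

lemma DD_symm (hform : S_form) {f g : X3 → ℝ} (hf : BL f) (hg : BL g) : DD f g = DD g f := by
  unfold DD
  exact Finset.sum_congr rfl fun j _ => (hform.1 j f g f hf hg hf 0).1

lemma DD_sub (hform : S_form) {f g h : X3 → ℝ} (hf : BL f) (hg : BL g) (hh : BL h) :
    DD (fun x => f x - g x) h = DD f h - DD g h := by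
  unfold DD
  rw [← Finset.sum_sub_distrib]
  exact Finset.sum_congr rfl fun j _ => (hform.1 j f g h hf hg hh 0).2.2.2.1

lemma DD_smul (hform : S_form) {f g : X3 → ℝ} (hf : BL f) (hg : BL g) (c : ℝ) :
    DD (fun x => c * f x) g = c * DD f g := by
  unfold DD
  rw [Finset.mul_sum]
  exact Finset.sum_congr rfl fun j _ => (hform.1 j f g f hf hg hf c).2.2.2.2.1

lemma Dj_nonneg (hform : S_form) (j : Fin 3) {f : X3 → ℝ} (hf : BL f) : 0 ≤ Dj j f f :=
  (hform.1 j f f f hf hf hf 0).2.1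

lemma Dj_le (hform : S_form) (j : Fin 3) {f : X3 → ℝ} (hf : BL f) : Dj j f f ≤ DD f f :=
  Finset.single_le_sum (f := fun j => Dj j f f) (fun i _ => Dj_nonneg hform i hf)
    (Finset.mem_univ j)

lemma DD_nonneg (hform : S_form) {f : X3 → ℝ} (hf : BL f) : 0 ≤ DD f f :=
  Finset.sum_nonneg fun i _ => Dj_nonneg hform i hf

lemma DD_three (f g : X3 → ℝ) : DD f g = Dj 0 f g + Dj 1 f g + Dj 2 f g := by
  unfold DD
  rw [Fin.sum_univ_three]

/-- `DD (pod g) ψ = DD g ψ` for `ψ` odd -/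
lemma DD_pod (hform : S_form) (hsym : S_sym) (hbl : S_bl) {g ψ : X3 → ℝ} (hg : BL g)
    (hψ : BL ψ) (hodd : ∀ x, ψ (H.piv x) = - ψ x) : DD (pod g) ψ = DD g ψ := by
  have hgp := piv_BL hsym hg
  have h1 : pod g = fun x => (1 / 2) * (g x - g (H.piv x)) := by
    funext x
    unfold pod
    ring
  have hb : BL (fun x => g x - g (H.piv x)) := (hbl.1 _ _ hg hgp).2.1
  rw [h1, DD_smul hform hb hψ, DD_sub hform hg hgp hψ]
  have h2 : DD (fun x => g (H.piv x)) ψ = - DD g ψ := by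
    rw [← piv_DD hsym hg hψ]
    have h3 : (fun x => ψ (H.piv x)) = fun x => (-1) * ψ x := by
      funext x
      rw [hodd]
      ring
    have hb' : BL (fun x => (-1) * ψ x) := by
      rw [← h3]; exact piv_BL hsym hψ
    rw [h3, DD_symm hform hgp hb', DD_smul hform hψ hgp, DD_symm hform hψ hgp]
    ring
  rw [h2]
  ring

/-- weighted Cauchy-Schwarz -/
lemma csW (hform : S_form) (hbl : S_bl) {f g : X3 → ℝ} (hf : BL f) (hg : BL g) {W : X3 → ℝ}
    {M : ℝ} (hM : 0 ≤ M) (hW : ∀ x, |W x| ≤ M) :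
    |∫ x, W x * f x * g x ∂pm| ≤ M * (√(ip f f) * √(ip g g)) := by
  have habs : ∀ {h : X3 → ℝ}, BL h → BL (fun x => |h x|) := by
    intro h hh
    obtain ⟨K, hK⟩ := hh.lip
    obtain ⟨B, hB⟩ := hh.bdd
    refine ⟨⟨K, ?_⟩, B, fun x => by rw [abs_abs]; exact hB x⟩
    refine LipschitzWith.of_dist_le_mul fun x y => ?_
    refine le_trans ?_ (hK.dist_le_mul x y)
    rw [Real.dist_eq, Real.dist_eq]
    exact abs_abs_sub_abs_le_abs_sub _ _
  have hfa := habs hf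
  have hga := habs hg
  have hfg : Integrable (fun x => |f x| * |g x|) pm :=
    (hbl.2.2.1 _ ((hbl.1 _ _ hfa hga).2.2)).2.1
  have h1 : ‖∫ x, W x * f x * g x ∂pm‖ ≤ ∫ x, M * (|f x| * |g x|) ∂pm := by
    refine norm_integral_le_of_norm_le (hfg.const_mul M) (ae_of_all _ fun x => ?_)
    rw [Real.norm_eq_abs, abs_mul, abs_mul, mul_assoc]
    exact mul_le_mul_of_nonneg_right (hW x) (by positivity)
  rw [Real.norm_eq_abs, integral_const_mul] at h1
  have h2 := hform.2.2.1 _ _ hfa hga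
  have h3 : ∀ h : X3 → ℝ, ip (fun x => |h x|) (fun x => |h x|) = ip h h := by
    intro h
    unfold ip
    refine integral_congr_ae (ae_of_all _ fun x => ?_)
    simp only
    exact abs_mul_abs_self _
  rw [h3, h3] at h2
  have h4 : (∫ x, |f x| * |g x| ∂pm) ≤ √(ip f f) * √(ip g g) := (le_abs_self _).trans h2
  exact h1.trans (mul_le_mul_of_nonneg_left h4 hM)

/-! ### averages over the third atom -/

lemma avg2 (hprod : S_prod) (hbl : S_bl) {φ : X3 → ℝ} (hφ : BL φ)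
    (hind : ∀ x y, φ (Function.update x 2 y) = φ x) {u : E3 → ℝ} (hu : Measurable u)
    (hub : ∃ B : ℝ, ∀ y, |u y| ≤ B) :
    ∫ x, φ x * φ x * u (x 2) ∂pm = ip φ φ * ∫ y, u y ∂hm := by
  have := hprod.1
  have hBM : BM (fun x : X3 => φ x * φ x * u (x 2)) := by
    refine ((BM_of_BL hbl hφ).mul (BM_of_BL hbl hφ)).mul ⟨hu.comp (measurable_pi_apply 2), ?_⟩
    obtain ⟨B, hB⟩ := hub
    exact ⟨B, fun x => hB _⟩
  have h1 := (hprod.2.2.1 2 _ hBM.integrable).2.2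
  rw [← h1]
  unfold ip
  rw [← integral_mul_const]
  refine integral_congr_ae (ae_of_all _ fun x => ?_)
  simp only [Pj, hind, Function.update_self]
  rw [integral_const_mul]

/-- radial factor of `thz` -/
def kf (r t : ℝ) : ℝ := (2 + t / 2) * max 0 (min 1 (2 - 2 * t / r))

lemma kf_cont (r : ℝ) : Continuous (kf r) := by
  unfold kf
  fun_prop

lemma thz_kf (r : ℝ) (y : E3) : thz r y = kf r ‖y‖ * y 0 := by
  unfold thz kf zt
  rw [th1]
  ring

/-- the polarisability, cut off -/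
def kap0 (r : ℝ) : ℝ := ∫ y, (if ‖y‖ ≤ r then kf r ‖y‖ * y 0 ^ 2 else 0) ∂hm

/-- the field of the third atom, minus the field of the nuclei of the pair -/
def Gf (a l : ℝ) (x : X3) : ℝ :=
  ((l + a / 2 - x 0 0) / ‖(l + a / 2) • ec 0 - x 0‖ ^ 3 - 1 / (l + a / 2) ^ 2)
    + ((l - a / 2 - x 1 0) / ‖(l - a / 2) • ec 0 - x 1‖ ^ 3 - 1 / (l - a / 2) ^ 2)

lemma main_term (havg : S_avg) (hbd : S_bounds) (hprod : S_prod) (hbl : S_bl) {r a l : ℝ}
    (hr : 1 ≤ r) (ha : 8 * r ≤ a) (hl : 2 * a ≤ l) {φ : X3 → ℝ} (hφ : Box S2 r φ)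
    (hth : LC1 (thz r)) :
    ∫ x, W3 r a l x * φ x * (φ x * thz r (x 2)) ∂pm
      = - (kap0 r * ∫ x, Gf a l x * φ x ^ 2 ∂pm) := by
  have := hprod.1
  have hφb : BL φ := hbl.2.2.2.1 S2 r φ hφ (by linarith) ⟨0, by simp [S2]⟩
  have hthb : BL (fun x : X3 => thz r (x 2)) := hbl.2.2.2.2.2 _ 2 hth
  obtain ⟨C, hC, hb⟩ := hbd
  obtain ⟨-, hW3m, -, -, hW3, -⟩ := hb r a l hr ha hl
  have hBM : BM (fun x : X3 => W3 r a l x * φ x * (φ x * thz r (x 2))) :=
    (BM.mul ⟨hW3m, _, hW3⟩ (BM_of_BL hbl hφb)).mul ((BM_of_BL hbl hφb).mul (BM_of_BL hbl hthb))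
  have h1 := (hprod.2.2.1 2 _ hBM.integrable).2.2
  rw [← h1, ← integral_const_mul, ← integral_neg]
  refine integral_congr_ae (ae_of_all _ fun x => ?_)
  have h2S : (2 : Fin 3) ∉ S2 := by decide
  simp only [Pj, hφ.ind 2 h2S, Function.update_self]
  by_cases hx : φ x = 0
  · simp [hx]
  · have h0 := hφ.supp x hx 0 (by simp [S2])
    have h1' := hφ.supp x hx 1 (by simp [S2])
    have h3 := (havg r a l hr ha hl).2.2.1 (kf r) x (kf_cont r) h0 h1'
    have h4 : (fun y => W3 r a l (Function.update x 2 y) * φ x * (φ x * thz r y))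
        = fun y => φ x ^ 2 * (kf r ‖y‖ * y 0 * W3 r a l (Function.update x 2 y)) := by
      funext y
      rw [thz_kf]
      ring
    rw [h4, integral_const_mul, h3]
    unfold kap0 Gf
    ring

/-! ### the polarisability -/

lemma kap0_bound (hhm : S_hm) (hang : S_ang) :
    ∃ C : ℝ, 0 ≤ C ∧ ∀ r : ℝ, 1 ≤ r → |kap0 r - 18| ≤ C * Real.exp (-r / 4) := by
  obtain ⟨hp, -, -, -, hmom, htail, -⟩ := hhm
  obtain ⟨i2, m2⟩ := hmom 2
  obtain ⟨i3, m3⟩ := hmom 3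
  obtain ⟨C2, hC2⟩ := htail 2
  obtain ⟨C3, hC3⟩ := htail 3
  have hint : Integrable (fun x : E3 => ‖x‖ ^ 2 * (2 + ‖x‖ / 2)) hm := by
    have h := (i2.const_mul 2).add (i3.const_mul (1 / 2))
    refine h.congr (ae_of_all _ fun x => ?_)
    simp only [Pi.add_apply]
    ring
  obtain ⟨ji, jm⟩ := (hang (fun t => 2 + t / 2)).1 hint 0 0
  rw [if_pos rfl] at jm
  have h18 : ∫ x : E3, x 0 * x 0 * (2 + ‖x‖ / 2) ∂hm = 18 := by
    rw [jm]
    have h : ∫ x : E3, ‖x‖ ^ 2 * (2 + ‖x‖ / 2) ∂hm = 54 := by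
      have h1 : ∫ x : E3, ‖x‖ ^ 2 * (2 + ‖x‖ / 2) ∂hm
          = ∫ x : E3, (2 * ‖x‖ ^ 2 + 1 / 2 * ‖x‖ ^ 3) ∂hm := by
        refine integral_congr_ae (ae_of_all _ fun x => ?_)
        simp only
        ring
      rw [h1, integral_add (i2.const_mul 2) (i3.const_mul (1 / 2)), integral_const_mul,
        integral_const_mul, m2, m3]
      norm_num [Nat.factorial]
    rw [h]
    norm_num
  refine ⟨2 * |C2| + |C3| / 2, by positivity, fun r hr => ?_⟩
  have hr0 : 0 < r := by linarith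
  -- measurability
  have hmeas : Measurable (fun y : E3 => if ‖y‖ ≤ r then kf r ‖y‖ * y 0 ^ 2 else 0) := by
    refine Measurable.ite (measurableSet_le measurable_norm measurable_const) ?_ measurable_const
    exact ((kf_cont r).measurable.comp measurable_norm).mul (by fun_prop)
  have hle : ∀ y : E3, ‖(if ‖y‖ ≤ r then kf r ‖y‖ * y 0 ^ 2 else 0)‖ ≤
      y 0 * y 0 * (2 + ‖y‖ / 2) := by
    intro y
    have h1 : 0 ≤ y 0 * y 0 * (2 + ‖y‖ / 2) :=
      mul_nonneg (mul_self_nonneg _) (by positivity)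
    split_ifs with h
    · have h2 : kf r ‖y‖ = (2 + ‖y‖ / 2) * zt r y := rfl
      have h3 : 0 ≤ kf r ‖y‖ := by
        rw [h2]; exact mul_nonneg (by positivity) (zt_nonneg _ _)
      rw [Real.norm_of_nonneg (mul_nonneg h3 (sq_nonneg _)), h2]
      have h4 := mul_le_of_le_one_right h1 (zt_le_one r y)
      calc (2 + ‖y‖ / 2) * zt r y * y 0 ^ 2 = y 0 * y 0 * (2 + ‖y‖ / 2) * zt r y := by ring
        _ ≤ _ := h4
    · simpa using h1
  have hi : Integrable (fun y : E3 => if ‖y‖ ≤ r then kf r ‖y‖ * y 0 ^ 2 else 0) hm :=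
    ji.mono' hmeas.aestronglyMeasurable (ae_of_all _ hle)
  have t2 : Integrable (fun x : E3 => if r / 2 < ‖x‖ then ‖x‖ ^ 2 else 0) hm := by
    refine i2.mono' ?_ (ae_of_all _ fun x => ?_)
    · exact (Measurable.ite (measurableSet_lt measurable_const measurable_norm)
        (measurable_norm.pow_const 2) measurable_const).aestronglyMeasurable
    · split_ifs
      · rw [Real.norm_of_nonneg (by positivity)]
      · rw [norm_zero]; positivity
  have t3 : Integrable (fun x : E3 => if r / 2 < ‖x‖ then ‖x‖ ^ 3 else 0) hm := by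
    refine i3.mono' ?_ (ae_of_all _ fun x => ?_)
    · exact (Measurable.ite (measurableSet_lt measurable_const measurable_norm)
        (measurable_norm.pow_const 3) measurable_const).aestronglyMeasurable
    · split_ifs
      · rw [Real.norm_of_nonneg (by positivity)]
      · rw [norm_zero]; positivity
  have hk : kap0 r - 18 = ∫ y : E3, ((if ‖y‖ ≤ r then kf r ‖y‖ * y 0 ^ 2 else 0)
      - y 0 * y 0 * (2 + ‖y‖ / 2)) ∂hm := by
    rw [integral_sub hi ji, h18]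
    rfl
  have hb : ‖kap0 r - 18‖ ≤ ∫ y : E3, (2 * (if r / 2 < ‖y‖ then ‖y‖ ^ 2 else 0)
      + 1 / 2 * (if r / 2 < ‖y‖ then ‖y‖ ^ 3 else 0)) ∂hm := by
    rw [hk]
    refine norm_integral_le_of_norm_le ((t2.const_mul 2).add (t3.const_mul (1 / 2)))
      (ae_of_all _ fun y => ?_)
    by_cases h : r / 2 < ‖y‖
    · simp only [if_pos h]
      have h0 : y 0 * y 0 ≤ ‖y‖ ^ 2 := by
        have := PiLp.norm_apply_le y 0
        rw [Real.norm_eq_abs] at this
        calc y 0 * y 0 = |y 0| ^ 2 := by rw [sq_abs]; ring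
          _ ≤ ‖y‖ ^ 2 := pow_le_pow_left₀ (abs_nonneg _) this 2
      have h2 := hle y
      have h3 : 0 ≤ (if ‖y‖ ≤ r then kf r ‖y‖ * y 0 ^ 2 else 0) := by
        split_ifs
        · have h2 : kf r ‖y‖ = (2 + ‖y‖ / 2) * zt r y := rfl
          rw [h2]
          have := zt_nonneg r y
          positivity
        · exact le_rfl
      rw [Real.norm_of_nonneg h3] at h2
      have h4 : y 0 * y 0 * (2 + ‖y‖ / 2) ≤ ‖y‖ ^ 2 * (2 + ‖y‖ / 2) :=
        mul_le_mul_of_nonneg_right h0 (by positivity)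
      have h5 : ‖y‖ ^ 2 * (2 + ‖y‖ / 2) = 2 * ‖y‖ ^ 2 + 1 / 2 * ‖y‖ ^ 3 := by ring
      rw [Real.norm_eq_abs, abs_le]
      constructor <;> linarith
    · simp only [if_neg h]
      have h1 : ‖y‖ ≤ r / 2 := not_lt.mp h
      have h2 : ‖y‖ ≤ r := by linarith
      rw [if_pos h2]
      have h3 : kf r ‖y‖ = (2 + ‖y‖ / 2) * zt r y := rfl
      rw [h3, zt_one hr0 h1]
      have h4 : (2 + ‖y‖ / 2) * 1 * y 0 ^ 2 - y 0 * y 0 * (2 + ‖y‖ / 2) = 0 := by ring
      rw [h4]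
      simp
  rw [integral_add (t2.const_mul 2) (t3.const_mul (1 / 2)), integral_const_mul,
    integral_const_mul, Real.norm_eq_abs] at hb
  have hE := Real.exp_pos (-r / 4)
  have h2 := (hC2 r hr).trans (mul_le_mul_of_nonneg_right (le_abs_self C2) hE.le)
  have h3 := (hC3 r hr).trans (mul_le_mul_of_nonneg_right (le_abs_self C3) hE.le)
  nlinarith

/-! ### the field -/

/-- field of a unit charge at distance `l` -/
def Ff (l : ℝ) (X : E3) : ℝ := (l - X 0) / ‖l • ec 0 - X‖ ^ 3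

/-- integrand of `ML` -/
def mL (a : ℝ) (L : ℕ) (x : X3) : ℝ :=
  (hh L ((-(a / 2)) • ec 0 + x 0) - hh L ((-(a / 2)) • ec 0))
      + (hh L ((a / 2) • ec 0 + x 1) - hh L ((a / 2) • ec 0))

lemma ec_norm (c : Fin 3) : ‖ec c‖ = 1 := by
  unfold ec
  simp

lemma ec00 : (ec 0 : E3) 0 = 1 := by
  unfold ec
  simp

lemma Ff_c {l t : ℝ} (h : 0 < l - t) : Ff l (t • ec 0) = 1 / (l - t) ^ 2 := by
  unfold Ff
  rw [← sub_smul, norm_smul, ec_norm, mul_one, Real.norm_of_nonneg h.le]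
  have h1 : (t • ec 0 : E3) 0 = t := by
    rw [PiLp.smul_apply, ec00]; simp
  rw [h1]
  field_simp

lemma Ff_neg (l : ℝ) (X : E3) : Ff l (-X) = (l + X 0) / ‖l • ec 0 + X‖ ^ 3 := by
  unfold Ff
  rw [sub_neg_eq_add, PiLp.neg_apply, sub_neg_eq_add]

lemma Gf_eq {a l : ℝ} (ha : 0 < a) (hl : 2 * a ≤ l) (x : X3) :
    Gf a l x = (Ff l ((-(a / 2)) • ec 0 + x 0) - Ff l ((-(a / 2)) • ec 0))
      + (Ff l ((a / 2) • ec 0 + x 1) - Ff l ((a / 2) • ec 0)) := by
  rw [Ff_c (show 0 < l - -(a / 2) by linarith), Ff_c (show 0 < l - a / 2 by linarith)]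
  unfold Gf Ff
  have h1 : l • ec 0 - ((-(a / 2)) • ec 0 + x 0) = (l + a / 2) • ec 0 - x 0 := by module
  have h2 : l • ec 0 - ((a / 2) • ec 0 + x 1) = (l - a / 2) • ec 0 - x 1 := by module
  rw [h1, h2]
  have h3 : l - ((-(a / 2)) • ec 0 + x 0 : E3) 0 = l + a / 2 - x 0 0 := by
    rw [PiLp.add_apply, PiLp.smul_apply, ec00]
    simp only [smul_eq_mul]
    ring
  have h4 : l - ((a / 2) • ec 0 + x 1 : E3) 0 = l - a / 2 - x 1 0 := by
    rw [PiLp.add_apply, PiLp.smul_apply, ec00]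
    simp only [smul_eq_mul]
    ring
  rw [h3, h4, sub_neg_eq_add]

lemma Gf_piv {a l : ℝ} (ha : 0 < a) (hl : 2 * a ≤ l) (x : X3) :
    Gf a l (piv x) = (Ff l (-((a / 2) • ec 0 + x 1)) - Ff l (-((a / 2) • ec 0)))
      + (Ff l (-((-(a / 2)) • ec 0 + x 0)) - Ff l (-((-(a / 2)) • ec 0))) := by
  rw [Gf_eq ha hl]
  have h0 : piv x 0 = - x 1 := by simp [piv]
  have h1 : piv x 1 = - x 0 := by simp [piv]
  rw [h0, h1]
  have e1 : (-(a / 2)) • ec 0 + -x 1 = -((a / 2) • ec 0 + x 1) := by module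
  have e2 : (a / 2) • ec 0 + -x 0 = -((-(a / 2)) • ec 0 + x 0) := by module
  have e3 : (-(a / 2)) • ec 0 = -((a / 2) • ec 0) := by module
  have e4 : -((-(a / 2)) • ec 0) = (a / 2) • ec 0 := by module
  rw [e1, e2, e4, e3]

lemma Ff_bound {l : ℝ} (hl : 0 < l) {X : E3} (hX : ‖X‖ ≤ l / 4) : |Ff l X| ≤ 2 / l ^ 2 := by
  unfold Ff
  set n := ‖l • ec 0 - X‖ with hn
  have h1 : 3 / 4 * l ≤ n := by
    have h := norm_sub_norm_le (l • ec 0) X
    rw [norm_smul, ec_norm, mul_one, Real.norm_of_nonneg hl.le] at h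
    linarith
  have hn0 : 0 < n := by linarith
  have h2 : |l - X 0| ≤ n := by
    have h := PiLp.norm_apply_le (l • ec 0 - X) 0
    rw [PiLp.sub_apply, PiLp.smul_apply, ec00, Real.norm_eq_abs] at h
    simpa using h
  rw [abs_div, abs_of_nonneg (by positivity : 0 ≤ n ^ 3), div_le_div_iff₀ (by positivity)
    (by positivity)]
  have h3 : l ^ 2 ≤ 2 * n ^ 2 := by nlinarith
  calc |l - X 0| * l ^ 2 ≤ n * (2 * n ^ 2) :=
        mul_le_mul h2 h3 (by positivity) hn0.le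
    _ = 2 * n ^ 3 := by ring

lemma coord_le (x : E3) (i : Fin 3) : |x i| ≤ ‖x‖ := by
  have := PiLp.norm_apply_le x i
  rwa [Real.norm_eq_abs] at this

lemma coord_sq (x : E3) (i : Fin 3) : x i ^ 2 ≤ ‖x‖ ^ 2 := by
  rw [← sq_abs]
  exact pow_le_pow_left₀ (abs_nonneg _) (coord_le x i) 2

lemma hh2_le (x : E3) : |hh 2 x| ≤ 2 * ‖x‖ ^ 2 := by
  have h : hh 2 x = x 0 ^ 2 - (x 1 ^ 2 + x 2 ^ 2) / 2 := rfl
  rw [h, abs_le]
  have h0 := coord_sq x 0
  have h1 := coord_sq x 1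
  have h2 := coord_sq x 2
  constructor <;> nlinarith [sq_nonneg (x 0), sq_nonneg (x 1), sq_nonneg (x 2)]

lemma hh4_le (x : E3) : |hh 4 x| ≤ 9 * ‖x‖ ^ 4 := by
  have h : hh 4 x = x 0 ^ 4 - 3 * x 0 ^ 2 * (x 1 ^ 2 + x 2 ^ 2)
    + 3 / 8 * (x 1 ^ 2 + x 2 ^ 2) ^ 2 := rfl
  rw [h, abs_le]
  have h0 := coord_sq x 0
  have h1 := coord_sq x 1
  have h2 := coord_sq x 2
  obtain ⟨A, hA⟩ : ∃ A, A = x 0 ^ 2 := ⟨_, rfl⟩
  obtain ⟨B, hB⟩ : ∃ B, B = x 1 ^ 2 + x 2 ^ 2 := ⟨_, rfl⟩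
  obtain ⟨n, hn⟩ : ∃ n, n = ‖x‖ ^ 2 := ⟨_, rfl⟩
  have hA0 : 0 ≤ A := by rw [hA]; positivity
  have hB0 : 0 ≤ B := by rw [hB]; positivity
  have hn4 : ‖x‖ ^ 4 = n ^ 2 := by rw [hn]; ring
  have hx4 : x 0 ^ 4 = A ^ 2 := by rw [hA]; ring
  have hAn : A ≤ n := by rw [hA, hn]; exact h0
  have hBn : B ≤ 2 * n := by rw [hB, hn]; linarith
  rw [hn4, hx4, ← hA, ← hB]
  have e1 : A ^ 2 ≤ n ^ 2 := pow_le_pow_left₀ hA0 hAn 2
  have e2 : A * B ≤ n * (2 * n) := mul_le_mul hAn hBn hB0 (hA0.trans hAn)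
  have e3 : B ^ 2 ≤ (2 * n) ^ 2 := pow_le_pow_left₀ hB0 hBn 2
  have e4 : 0 ≤ A * B := mul_nonneg hA0 hB0
  constructor <;> nlinarith [sq_nonneg B, sq_nonneg A]

lemma supp_BM (hbl : S_bl) {r : ℝ} (hr : 1 ≤ r) {h φ : X3 → ℝ} (hm : Measurable h)
    (hφ : Box S2 r φ) {B : ℝ} (hB0 : 0 ≤ B)
    (hb : ∀ x, ‖x 0‖ ≤ r → ‖x 1‖ ≤ r → |h x| ≤ B) : BM (fun x => h x * φ x ^ 2) := by
  have hφb : BL φ := hbl.2.2.2.1 S2 r φ hφ (by linarith) ⟨0, by simp [S2]⟩
  obtain ⟨B', hB'⟩ := hφb.bdd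
  refine ⟨hm.mul ((BM_of_BL hbl hφb).meas.pow_const 2), B * B' ^ 2, fun x => ?_⟩
  have hB'0 : 0 ≤ B' := (abs_nonneg _).trans (hB' x)
  by_cases hx : φ x = 0
  · simp only [hx]
    rw [zero_pow two_ne_zero, mul_zero, abs_zero]
    positivity
  · have h0 := hφ.supp x hx 0 (by simp [S2])
    have h1 := hφ.supp x hx 1 (by simp [S2])
    rw [abs_mul, abs_of_nonneg (sq_nonneg (φ x)), ← sq_abs (φ x)]
    exact mul_le_mul (hb x h0 h1) (pow_le_pow_left₀ (abs_nonneg _) (hB' x) 2) (by positivity) hB0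

lemma hh_meas (L : ℕ) : Measurable (hh L) := by
  match L with
  | 0 => exact measurable_const
  | 1 => show Measurable (fun x : E3 => x 0); fun_prop
  | 2 => show Measurable (fun x : E3 => x 0 ^ 2 - (x 1 ^ 2 + x 2 ^ 2) / 2); fun_prop
  | 3 => show Measurable (fun x : E3 => x 0 ^ 3 - 3 / 2 * x 0 * (x 1 ^ 2 + x 2 ^ 2)); fun_prop
  | 4 =>
    show Measurable (fun x : E3 => x 0 ^ 4 - 3 * x 0 ^ 2 * (x 1 ^ 2 + x 2 ^ 2)
      + 3 / 8 * (x 1 ^ 2 + x 2 ^ 2) ^ 2)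
    fun_prop
  | (n + 5) => exact measurable_const

lemma mL_meas (a : ℝ) (L : ℕ) : Measurable (mL a L) := by
  unfold mL
  have h0 : Measurable (fun x : X3 => (-(a / 2)) • ec 0 + x 0) := by fun_prop
  have h1 : Measurable (fun x : X3 => (a / 2) • ec 0 + x 1) := by fun_prop
  exact (((hh_meas L).comp h0).sub_const _).add (((hh_meas L).comp h1).sub_const _)

lemma Gf_meas (a l : ℝ) : Measurable (Gf a l) := by
  unfold Gf
  have h0 : Measurable (fun x : X3 => x 0 0) := by fun_prop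
  have h1 : Measurable (fun x : X3 => x 1 0) := by fun_prop
  have h2 : Measurable (fun x : X3 => ‖(l + a / 2) • ec 0 - x 0‖ ^ 3) := by fun_prop
  have h3 : Measurable (fun x : X3 => ‖(l - a / 2) • ec 0 - x 1‖ ^ 3) := by fun_prop
  exact (((h0.const_sub _).div h2).sub_const _).add (((h1.const_sub _).div h3).sub_const _)

lemma field_int (hfield : S_field) (hprod : S_prod) (hbl : S_bl) (hsym : S_sym) :
    ∃ C : ℝ, 1 ≤ C ∧ ∀ (r a l : ℝ) (φ : X3 → ℝ), 1 ≤ r → 8 * r ≤ a → 4 * a ≤ l →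
      Box S2 r φ → ip φ φ = 1 → (∀ x, φ (piv x) = φ x) →
      |(∫ x, Gf a l x * φ x ^ 2 ∂pm) - (3 * ML a 2 φ / l ^ 4 + 5 * ML a 4 φ / l ^ 6)|
        ≤ C * a ^ 6 / l ^ 8 := by
  obtain ⟨C, hC, hF⟩ := hfield
  refine ⟨4 * C, by linarith, fun r a l φ hr ha hl hφ hn hpiv => ?_⟩
  have := hprod.1
  have ha0 : 0 < a := by linarith
  have hl0 : 0 < l := by linarith
  have hl2 : 2 * a ≤ l := by linarith
  have hφb : BL φ := hbl.2.2.2.1 S2 r φ hφ (by linarith) ⟨0, by simp [S2]⟩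
  -- norms of the positions
  have hc0 : ‖(-(a / 2)) • ec 0‖ = a / 2 := by
    rw [norm_smul, ec_norm, mul_one, Real.norm_eq_abs, abs_neg, abs_of_pos (by linarith)]
  have hc1 : ‖(a / 2) • ec 0‖ = a / 2 := by
    rw [norm_smul, ec_norm, mul_one, Real.norm_eq_abs, abs_of_pos (by linarith)]
  have hX0 : ∀ y : E3, ‖y‖ ≤ r → ‖(-(a / 2)) • ec 0 + y‖ ≤ a := fun y hy => by
    have := norm_add_le ((-(a / 2)) • ec 0) y
    rw [hc0] at this
    linarith
  have hX1 : ∀ y : E3, ‖y‖ ≤ r → ‖(a / 2) • ec 0 + y‖ ≤ a := fun y hy => by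
    have := norm_add_le ((a / 2) • ec 0) y
    rw [hc1] at this
    linarith
  have hal : a ≤ l / 4 := by linarith
  -- bounded measurable
  have bG : BM (fun x => Gf a l x * φ x ^ 2) := by
    refine supp_BM hbl hr (Gf_meas a l) hφ (B := 8 / l ^ 2) (by positivity) fun x h0 h1 => ?_
    rw [Gf_eq ha0 hl2]
    have e1 := abs_le.mp (Ff_bound hl0 ((hX0 _ h0).trans hal))
    have e2 := abs_le.mp (Ff_bound hl0 ((hX1 _ h1).trans hal))
    have e3 := abs_le.mp (Ff_bound hl0 (X := (-(a / 2)) • ec 0) (by rw [hc0]; linarith))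
    have e4 := abs_le.mp (Ff_bound hl0 (X := (a / 2) • ec 0) (by rw [hc1]; linarith))
    have e5 : 8 / l ^ 2 = 4 * (2 / l ^ 2) := by ring
    rw [e5, abs_le]
    constructor <;> linarith
  have bGp : BM (fun x => Gf a l (piv x) * φ x ^ 2) := by
    have h := bG.piv hsym
    simp only [hpiv] at h
    exact h
  have b2 : BM (fun x => mL a 2 x * φ x ^ 2) := by
    refine supp_BM hbl hr (mL_meas a 2) hφ (B := 8 * a ^ 2) (by positivity) fun x h0 h1 => ?_
    unfold mL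
    have e1 := abs_le.mp (hh2_le ((-(a / 2)) • ec 0 + x 0))
    have e2 := abs_le.mp (hh2_le ((a / 2) • ec 0 + x 1))
    have e3 := abs_le.mp (hh2_le ((-(a / 2)) • ec 0))
    have e4 := abs_le.mp (hh2_le ((a / 2) • ec 0))
    have f1 := pow_le_pow_left₀ (norm_nonneg _) (hX0 _ h0) 2
    have f2 := pow_le_pow_left₀ (norm_nonneg _) (hX1 _ h1) 2
    rw [hc0] at e3
    rw [hc1] at e4
    have f3 : (a / 2) ^ 2 ≤ a ^ 2 := by nlinarith
    rw [abs_le]
    constructor <;> linarith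
  have b4 : BM (fun x => mL a 4 x * φ x ^ 2) := by
    refine supp_BM hbl hr (mL_meas a 4) hφ (B := 36 * a ^ 4) (by positivity) fun x h0 h1 => ?_
    unfold mL
    have e1 := abs_le.mp (hh4_le ((-(a / 2)) • ec 0 + x 0))
    have e2 := abs_le.mp (hh4_le ((a / 2) • ec 0 + x 1))
    have e3 := abs_le.mp (hh4_le ((-(a / 2)) • ec 0))
    have e4 := abs_le.mp (hh4_le ((a / 2) • ec 0))
    have f1 := pow_le_pow_left₀ (norm_nonneg _) (hX0 _ h0) 4
    have f2 := pow_le_pow_left₀ (norm_nonneg _) (hX1 _ h1) 4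
    rw [hc0] at e3
    rw [hc1] at e4
    have f3 : (a / 2) ^ 4 ≤ a ^ 4 := pow_le_pow_left₀ (by linarith) (by linarith) 4
    rw [abs_le]
    constructor <;> linarith
  -- symmetrise
  have hs : ∫ x, Gf a l (piv x) * φ x ^ 2 ∂pm = ∫ x, Gf a l x * φ x ^ 2 ∂pm := by
    have h := int_piv hsym bG.meas
    simp only [hpiv] at h
    exact h
  have hM2 : ML a 2 φ = ∫ x, mL a 2 x * φ x ^ 2 ∂pm := rfl
  have hM4 : ML a 4 φ = ∫ x, mL a 4 x * φ x ^ 2 ∂pm := rfl
  have hφ2 : Integrable (fun x => φ x ^ 2) pm := (hbl.2.2.1 φ hφb).2.2.1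
  have hn' : ∫ x, φ x ^ 2 ∂pm = 1 := by
    rw [← hn]
    unfold ip
    refine integral_congr_ae (ae_of_all _ fun x => ?_)
    simp only
    ring
  have hdiff : (∫ x, Gf a l x * φ x ^ 2 ∂pm) - (3 * ML a 2 φ / l ^ 4 + 5 * ML a 4 φ / l ^ 6)
      = ∫ x, ((1 / 2 * (Gf a l x * φ x ^ 2) + 1 / 2 * (Gf a l (piv x) * φ x ^ 2))
        - (3 / l ^ 4 * (mL a 2 x * φ x ^ 2) + 5 / l ^ 6 * (mL a 4 x * φ x ^ 2))) ∂pm := by
    have i1 : Integrable (fun x => 1 / 2 * (Gf a l x * φ x ^ 2)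
        + 1 / 2 * (Gf a l (piv x) * φ x ^ 2)) pm :=
      (bG.integrable.const_mul _).add (bGp.integrable.const_mul _)
    have i2 : Integrable (fun x => 3 / l ^ 4 * (mL a 2 x * φ x ^ 2)
        + 5 / l ^ 6 * (mL a 4 x * φ x ^ 2)) pm :=
      (b2.integrable.const_mul _).add (b4.integrable.const_mul _)
    rw [integral_sub i1 i2,
      integral_add (bG.integrable.const_mul _) (bGp.integrable.const_mul _),
      integral_add (b2.integrable.const_mul _) (b4.integrable.const_mul _), integral_const_mul,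
      integral_const_mul, integral_const_mul, integral_const_mul, hs, ← hM2, ← hM4]
    ring
  rw [hdiff]
  have hb : ‖∫ x, ((1 / 2 * (Gf a l x * φ x ^ 2) + 1 / 2 * (Gf a l (piv x) * φ x ^ 2))
        - (3 / l ^ 4 * (mL a 2 x * φ x ^ 2) + 5 / l ^ 6 * (mL a 4 x * φ x ^ 2))) ∂pm‖
      ≤ ∫ x, 4 * C * a ^ 6 / l ^ 8 * φ x ^ 2 ∂pm := by
    refine norm_integral_le_of_norm_le (hφ2.const_mul _) (ae_of_all _ fun x => ?_)
    by_cases hx : φ x = 0
    · simp [hx]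
    have h0 := hφ.supp x hx 0 (by simp [S2])
    have h1 := hφ.supp x hx 1 (by simp [S2])
    have e : (1 / 2 * (Gf a l x * φ x ^ 2) + 1 / 2 * (Gf a l (piv x) * φ x ^ 2))
        - (3 / l ^ 4 * (mL a 2 x * φ x ^ 2) + 5 / l ^ 6 * (mL a 4 x * φ x ^ 2))
        = ((1 / 2 * (Gf a l x + Gf a l (piv x)))
          - (3 / l ^ 4 * mL a 2 x + 5 / l ^ 6 * mL a 4 x)) * φ x ^ 2 := by ring
    rw [e, norm_mul, Real.norm_of_nonneg (sq_nonneg (φ x)), Real.norm_eq_abs]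
    refine mul_le_mul_of_nonneg_right ?_ (sq_nonneg _)
    have k : ∀ X : E3, ‖X‖ ≤ a → |(1 / 2) * (Ff l X + Ff l (-X))
        - (1 / l ^ 2 + 3 * hh 2 X / l ^ 4 + 5 * hh 4 X / l ^ 6)| ≤ C * a ^ 6 / l ^ 8 := by
      intro X hX
      have h := hF l X hl0 (hX.trans hal)
      rw [← Ff_neg] at h
      refine h.trans ?_
      have h2 := pow_le_pow_left₀ (norm_nonneg _) hX 6
      gcongr
    have k0 := abs_le.mp (k _ (hX0 _ h0))
    have k1 := abs_le.mp (k _ (hX1 _ h1))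
    have k2 := abs_le.mp (k ((-(a / 2)) • ec 0) (by rw [hc0]; linarith))
    have k3 := abs_le.mp (k ((a / 2) • ec 0) (by rw [hc1]; linarith))
    rw [Gf_eq ha0 hl2, Gf_piv ha0 hl2]
    unfold mL
    have e2 : 4 * C * a ^ 6 / l ^ 8 = 4 * (C * a ^ 6 / l ^ 8) := by ring
    rw [e2, abs_le]
    have e3 : ∀ A B : ℝ, A / l ^ 4 * B = A * B / l ^ 4 := fun A B => by ring
    have e4 : ∀ A B : ℝ, A / l ^ 6 * B = A * B / l ^ 6 := fun A B => by ring
    rw [e3, e4]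
    have e5 : ∀ A B D E : ℝ, 3 * (A - B + (D - E)) / l ^ 4
        = 3 * A / l ^ 4 - 3 * B / l ^ 4 + (3 * D / l ^ 4 - 3 * E / l ^ 4) := fun A B D E => by ring
    have e6 : ∀ A B D E : ℝ, 5 * (A - B + (D - E)) / l ^ 6
        = 5 * A / l ^ 6 - 5 * B / l ^ 6 + (5 * D / l ^ 6 - 5 * E / l ^ 6) := fun A B D E => by ring
    rw [e5, e6]
    constructor <;> linarith
  rw [integral_const_mul, hn', mul_one, Real.norm_eq_abs] at hb
  exact hb

/-! ### assembly -/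

lemma D_bound {D N A B : ℝ} (hD : 0 ≤ D + 2 * N) (h : D ≤ A + B * √(D + 2 * N)) :
    D ≤ 2 * A + 2 * N + B ^ 2 := by
  have h2 := Real.sq_sqrt hD
  nlinarith [sq_nonneg (B - √(D + 2 * N))]

lemma psi_facts (hprod : S_prod) (hbl : S_bl) {C : ℝ} (hw : WSol (th 1) (hh 1) C) {r : ℝ}
    (hr : 1 ≤ r) {φ : X3 → ℝ} (hφ : Box S2 r φ) (hn : ip φ φ = 1) :
    Box S3 r (fun x => φ x * thz r (x 2)) ∧
    ip (fun x => φ x * thz r (x 2)) (fun x => φ x * thz r (x 2)) ≤ C ∧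
    |∫ x, φ x * hh 1 (x 2) * (φ x * thz r (x 2)) ∂pm| ≤ C := by
  have hφb : BL φ := hbl.2.2.2.1 S2 r φ hφ (by linarith) ⟨0, by simp [S2]⟩
  have hth := thz_LC1 hw hr
  have hthb : BL (fun x : X3 => thz r (x 2)) := hbl.2.2.2.2.2 _ 2 hth
  have hψ : BL (fun x => φ x * thz r (x 2)) := (hbl.1 _ _ hφb hthb).2.2
  have h2S : (2 : Fin 3) ∉ S2 := by decide
  have hm1 : Measurable (thz r) := hw.measF.mul (zt_cont r).measurable
  obtain ⟨B, hB⟩ := hthb.bdd
  have hB' : ∀ y : E3, |thz r y| ≤ B := fun y => hB (fun _ => y)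
  have hB0 : 0 ≤ B := (abs_nonneg _).trans (hB' 0)
  refine ⟨⟨hψ.lip, ?_, ?_⟩, ?_, ?_⟩
  · intro x hx j _
    have h1 : φ x ≠ 0 := left_ne_zero_of_mul hx
    have h2 : thz r (x 2) ≠ 0 := right_ne_zero_of_mul hx
    fin_cases j
    · exact hφ.supp x h1 0 (by simp [S2])
    · exact hφ.supp x h1 1 (by simp [S2])
    · exact zt_supp (by linarith) (right_ne_zero_of_mul (a := th 1 (x 2)) h2)
  · intro j hj
    exact absurd (Finset.mem_univ j) hj
  · have h1 := avg2 hprod hbl hφb (hφ.ind 2 h2S) (u := fun y => thz r y ^ 2) (hm1.pow_const 2)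
      ⟨B ^ 2, fun y => by
        rw [abs_of_nonneg (sq_nonneg _), ← sq_abs]
        exact pow_le_pow_left₀ (abs_nonneg _) (hB' y) 2⟩
    rw [hn, one_mul] at h1
    have h2 : ip (fun x => φ x * thz r (x 2)) (fun x => φ x * thz r (x 2))
        = ∫ x, φ x * φ x * thz r (x 2) ^ 2 ∂pm := by
      unfold ip
      refine integral_congr_ae (ae_of_all _ fun x => ?_)
      simp only
      ring
    rw [h2, h1]
    exact (thz_int hw r).2
  · have h1 := avg2 hprod hbl hφb (hφ.ind 2 h2S) (u := fun y => hh 1 y * thz r y)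
      (hw.measκ.mul hm1) ⟨r * B, fun y => by
        rw [abs_mul]
        by_cases hy : thz r y = 0
        · rw [hy, abs_zero, mul_zero]; positivity
        · have h3 : ‖y‖ ≤ r := zt_supp (by linarith) (right_ne_zero_of_mul (a := th 1 y) hy)
          exact mul_le_mul ((coord_le y 0).trans h3) (hB' y) (abs_nonneg _) (by linarith)⟩
    rw [hn, one_mul] at h1
    have h2 : ∫ x, φ x * hh 1 (x 2) * (φ x * thz r (x 2)) ∂pm
        = ∫ x, φ x * φ x * (hh 1 (x 2) * thz r (x 2)) ∂pm := by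
      refine integral_congr_ae (ae_of_all _ fun x => ?_)
      simp only
      ring
    rw [h2, h1]
    have h3 : ‖∫ y, hh 1 y * thz r y ∂hm‖ ≤ ∫ y, (1 / 2 * hh 1 y ^ 2 + 1 / 2 * th 1 y ^ 2) ∂hm := by
      refine norm_integral_le_of_norm_le ((hw.intκ.const_mul _).add (hw.intF.const_mul _))
        (ae_of_all _ fun y => ?_)
      have h4 := thz_sq_le r y
      rw [norm_mul, Real.norm_eq_abs, Real.norm_eq_abs]
      nlinarith [sq_nonneg (|hh 1 y| - |thz r y|), sq_abs (hh 1 y), sq_abs (thz r y)]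
    rw [integral_add (hw.intκ.const_mul _) (hw.intF.const_mul _), integral_const_mul,
      integral_const_mul, Real.norm_eq_abs] at h3
    linarith [hw.leκ, hw.leF]

/-- `∫ W (pod g) ψ = ∫ W g ψ` for `W` even and `ψ` odd -/
lemma pod_int (hprod : S_prod) (hsym : S_sym) {W g ψ : X3 → ℝ} (hW : BM W) (hg : BM g)
    (hψ : BM ψ) (hodd : ∀ x, ψ (piv x) = - ψ x) (hWp : ∀ x, W (piv x) = W x) :
    ∫ x, W x * pod g x * ψ x ∂pm = ∫ x, W x * g x * ψ x ∂pm := by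
  have := hprod.1
  have h1 := int_odd hsym hW hg hψ hodd
  simp only [hWp] at h1
  have i1 := ((hW.mul hg).mul hψ).integrable
  have i2 := ((hW.mul (hg.piv hsym)).mul hψ).integrable
  have h2 : ∫ x, W x * pod g x * ψ x ∂pm
      = ∫ x, (1 / 2 * (W x * g x * ψ x) - 1 / 2 * (W x * g (piv x) * ψ x)) ∂pm := by
    refine integral_congr_ae (ae_of_all _ fun x => ?_)
    simp only [pod]
    ring
  rw [h2, integral_sub (i1.const_mul _) (i2.const_mul _), integral_const_mul, integral_const_mul]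
  linarith

/-- the term with `w = g - c φ` -/
lemma w_term (hprod : S_prod) (hsym : S_sym) {W w g ψ : X3 → ℝ} (hW : BM W) (hw : BM w)
    (hg : BM g) (hψ : BM ψ) (hodd : ∀ x, ψ (piv x) = - ψ x)
    (hwg : ∀ x, w x - w (piv x) = 2 * pod g x) :
    ∫ x, W x * w x * ψ x ∂pm = 1 / 2 * (∫ x, (W x - W (piv x)) * w x * ψ x ∂pm)
      + ∫ x, W (piv x) * pod g x * ψ x ∂pm := by
  have := hprod.1
  have h1 := int_odd hsym hW hw hψ hodd
  have hWp := hW.piv hsym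
  have hwp := hw.piv hsym
  have i1 := ((hW.mul hw).mul hψ).integrable
  have i2 := ((hWp.mul hwp).mul hψ).integrable
  have i3 := (((hW.sub hWp).mul hw).mul hψ).integrable
  have hpod : BM (pod g) := by
    have h := (BM.const (1 / 2)).mul (hg.sub (hg.piv hsym))
    have e : pod g = fun x => 1 / 2 * (g x - g (piv x)) := by
      funext x
      unfold pod
      ring
    rw [e]; exact h
  have i4 := ((hWp.mul hpod).mul hψ).integrable
  have h2 : ∫ x, W x * w x * ψ x ∂pm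
      = ∫ x, (1 / 2 * (W x * w x * ψ x) - 1 / 2 * (W (piv x) * w (piv x) * ψ x)) ∂pm := by
    rw [integral_sub (i1.const_mul _) (i2.const_mul _), integral_const_mul, integral_const_mul]
    linarith
  rw [h2, ← integral_const_mul, ← integral_add (i3.const_mul _) i4]
  refine integral_congr_ae (ae_of_all _ fun x => ?_)
  simp only
  have h3 : w (piv x) = w x - 2 * pod g x := by linarith [hwg x]
  rw [h3]
  ring

lemma sqrt_le_aux {C x y z : ℝ} (hC : 1 ≤ C) (hx : 0 ≤ x) (hy : 0 ≤ y)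
    (h : z ≤ C * (x ^ 2 + y ^ 2)) : √z ≤ C * (x + y) := by
  rw [Real.sqrt_le_left (by positivity)]
  refine h.trans ?_
  have h1 : C * (x ^ 2 + y ^ 2) ≤ C * (x + y) ^ 2 :=
    mul_le_mul_of_nonneg_left (by nlinarith) (by linarith)
  have h2 : C * (x + y) ^ 2 ≤ C ^ 2 * (x + y) ^ 2 :=
    mul_le_mul_of_nonneg_right (by nlinarith) (sq_nonneg _)
  calc _ ≤ _ := h1
    _ ≤ _ := h2
    _ = _ := by ring

lemma ar1 {α β E q : ℝ} (hα : 0 ≤ α) (hα1 : α ≤ 1) (hβ : 0 ≤ β) (hβ1 : β ≤ 1) (hE : 0 ≤ E)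
    (hE1 : E ≤ 1) (hab : α * β ≤ q) (hq : E ≤ q) : (α ^ 2 + E ^ 2) * (β + E) ≤ 4 * q := by
  have h1 : α ^ 2 * β ≤ α * β := by
    have : α ^ 2 ≤ α := by nlinarith
    exact mul_le_mul_of_nonneg_right this hβ
  have h2 : α ^ 2 * E ≤ E := mul_le_of_le_one_left hE (pow_le_one₀ hα hα1)
  have h3 : E ^ 2 * β ≤ E := by
    have h4 : E ^ 2 * β ≤ E ^ 2 := mul_le_of_le_one_right (sq_nonneg _) hβ1
    have h5 : E ^ 2 ≤ E := by nlinarith
    linarith
  have h4 : E ^ 2 * E ≤ E := mul_le_of_le_one_left hE (pow_le_one₀ hE hE1)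
  have h5 : (α ^ 2 + E ^ 2) * (β + E) = α ^ 2 * β + α ^ 2 * E + E ^ 2 * β + E ^ 2 * E := by ring
  rw [h5]
  linarith

lemma ar2 {α β E q : ℝ} (hβ1 : β ≤ 1) (hE : 0 ≤ E)
    (hab : α * β ≤ q) (hq : E ≤ q) : β * (α + E) ≤ 2 * q := by
  have h3 : β * E ≤ E := mul_le_of_le_one_left hE hβ1
  nlinarith

end E4a

open E4a

theorem p_E4 (hE3 : S_E3) (hweak : S_weakA) (hlift : S_lift) (hwl : S_wlist) (hvar : S_var)
    (havg : S_avg) (hbd : S_bounds) (hfield : S_field) (hMh : S_Mh) (hpot : S_potsym)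
    (hsym : S_sym) (hang : S_ang) (hhm : S_hm) (hprod : S_prod) (hbl : S_bl) (hform : S_form) :
    S_E4 := by
  intro g0 hg0
  have := hprod.1
  obtain ⟨C3, r3, hC3, hr3, h3⟩ := hE3 g0 hg0
  obtain ⟨Cw, -, -, -, hw, -⟩ := hwl
  have hCw := hw.nonneg
  obtain ⟨Ck, hCk, hkap⟩ := kap0_bound hhm hang
  obtain ⟨Cf, hCf, hfi⟩ := field_int hfield hprod hbl hsym
  obtain ⟨CM, rM, hCM, hrM, hMM⟩ := hMh g0 hg0
  obtain ⟨Cb, hCb, hbb⟩ := id hbd
  obtain ⟨KD, hKD⟩ : ∃ KD : ℝ, KD = 2 * ((3 * C3 + 2) * Cw + Cw) + 2 * Cw + (√Cw + Cw) ^ 2 :=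
    ⟨_, rfl⟩
  have hKD0 : 0 ≤ KD := by rw [hKD]; positivity
  refine ⟨1 + Cw * √C3 + √Cw * √(5 * C3) + √(KD + 2 * Cw) + 4 * C3 ^ 2 * √Cw + 3 * Cb * C3 * √Cw
    + (18 + Ck) * Cf + 16 * Ck * CM, max (max r3 rM) (max (2 * Cb) 4), ?_, ?_, ?_⟩
  · have h1 : 0 ≤ Cw * √C3 + √Cw * √(5 * C3) + √(KD + 2 * Cw) + 4 * C3 ^ 2 * √Cw
      + 3 * Cb * C3 * √Cw + (18 + Ck) * Cf + 16 * Ck * CM := by positivity
    linarith
  · exact le_trans (by norm_num) ((le_max_right (2 * Cb) 4).trans (le_max_right _ _))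
  intro r a l φ g hr ha hl hφ hφp hg
  -- sizes
  have hr3' : r3 ≤ r := ((le_max_left _ _).trans (le_max_left _ _)).trans hr
  have hrM' : rM ≤ r := ((le_max_right _ _).trans (le_max_left _ _)).trans hr
  have h2Cb : 2 * Cb ≤ r := ((le_max_left _ _).trans (le_max_right _ _)).trans hr
  have hr4 : 4 ≤ r := ((le_max_right _ _).trans (le_max_right _ _)).trans hr
  clear hr
  have hr1 : 1 ≤ r := by linarith
  have hr0 : 0 < r := by linarith
  have hr3p : 64 ≤ r ^ 3 := by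
    have := pow_le_pow_left₀ (by norm_num) hr4 3
    linarith
  have ha8 : 8 * r ≤ a := by
    refine le_trans ?_ ha
    have : r ^ 4 = r ^ 3 * r := by ring
    rw [this]
    nlinarith
  have ha32 : 32 ≤ a := by linarith
  have ha1 : 1 ≤ a := by linarith
  have ha0 : 0 < a := by linarith
  have ha6 : 4 * a ≤ a ^ 6 := by
    have h1 : a ≤ a ^ 5 := le_self_pow₀ ha1 (by norm_num)
    have h2 : a ^ 6 = a * a ^ 5 := by ring
    rw [h2]
    nlinarith
  have hl4 : 4 * a ≤ l := ha6.trans hl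
  have hl2 : 2 * a ≤ l := by linarith
  have hl1 : 1 ≤ l := by linarith
  have hl0 : 0 < l := by linarith
  have hal : a ≤ l := by linarith
  have hr2a : r ^ 2 ≤ a := (pow_le_pow_right₀ hr1 (by norm_num : 2 ≤ 4)).trans ha
  have ha2l : a ^ 2 ≤ l := (pow_le_pow_right₀ ha1 (by norm_num : 2 ≤ 6)).trans hl
  have hr3a : r ^ 3 ≤ a := (pow_le_pow_right₀ hr1 (by norm_num : 3 ≤ 4)).trans ha
  have hCbr : 2 * Cb * r ^ 2 ≤ a := by
    refine le_trans ?_ hr3a
    have : r ^ 3 = r * r ^ 2 := by ring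
    rw [this]
    exact mul_le_mul_of_nonneg_right h2Cb (by positivity)
  obtain ⟨hVm, hWm, hVb, -, hWb, hWo⟩ := hbb r a l hr1 ha8 hl2
  have hVh : ∀ x, |V12 r a x| ≤ 1 / 2 := fun x => by
    refine (hVb x).trans ?_
    rw [div_le_div_iff₀ (by positivity) (by norm_num)]
    have : a ≤ a ^ 3 := le_self_pow₀ ha1 (by norm_num)
    linarith
  have hWh : ∀ x, |W3 r a l x| ≤ 1 / 2 := fun x => by
    refine (hWb x).trans ?_
    rw [div_le_div_iff₀ (by positivity) (by norm_num)]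
    have : l ≤ l ^ 3 := le_self_pow₀ hl1 (by norm_num)
    linarith
  have hV1 : ∀ x, |V12 r a x| ≤ 1 := fun x => (hVh x).trans (by norm_num)
  have hUm : Measurable (U3 r a l) := hVm.add hWm
  have hU1 : ∀ x, |U3 r a l x| ≤ 1 := fun x => by
    unfold U3
    refine (abs_add_le _ _).trans ?_
    linarith [hVh x, hWh x]
  -- the small quantities
  obtain ⟨E, hEdef⟩ : ∃ E, E = Real.exp (-r / 16) := ⟨_, rfl⟩
  have hE0 : 0 < E := by rw [hEdef]; exact Real.exp_pos _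
  have hE1 : E ≤ 1 := by
    rw [hEdef]
    exact Real.exp_le_one_iff.mpr (by linarith)
  have hE2 : Real.exp (-r / 8) = E ^ 2 := by
    rw [hEdef, ← Real.exp_nat_mul]; congr 1; push_cast; ring
  have hE4 : Real.exp (-r / 4) = E ^ 4 := by
    rw [hEdef, ← Real.exp_nat_mul]; congr 1; push_cast; ring
  have hE8 : Real.exp (-r / 2) = E ^ 8 := by
    rw [hEdef, ← Real.exp_nat_mul]; congr 1; push_cast; ring
  have hE16 : √(Real.exp (-r)) = E ^ 8 := by
    have : Real.exp (-r) = (E ^ 8) ^ 2 := by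
      rw [hEdef, ← Real.exp_nat_mul, ← Real.exp_nat_mul]; congr 1; push_cast; ring
    rw [this, Real.sqrt_sq (by positivity)]
  have hE2E : E ^ 2 ≤ E := by nlinarith
  have hE4E : E ^ 4 ≤ E := pow_le_of_le_one hE0.le hE1 (by norm_num)
  have hE8E : E ^ 8 ≤ E := pow_le_of_le_one hE0.le hE1 (by norm_num)
  obtain ⟨α, hα⟩ : ∃ α, α = r ^ 2 / l ^ 3 := ⟨_, rfl⟩
  obtain ⟨β, hβ⟩ : ∃ β, β = r ^ 2 * a / l ^ 4 := ⟨_, rfl⟩
  have hα0 : 0 ≤ α := by rw [hα]; positivity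
  have hβ0 : 0 ≤ β := by rw [hβ]; positivity
  have hα1 : α ≤ 1 := by
    rw [hα, div_le_one (by positivity)]
    exact (hr2a.trans hal).trans (le_self_pow₀ hl1 (by norm_num))
  have hβ1 : β ≤ 1 := by
    rw [hβ, div_le_one (by positivity)]
    have h1 : r ^ 2 * a ≤ a * a := mul_le_mul_of_nonneg_right hr2a ha0.le
    have h2 : a * a = a ^ 2 := by ring
    rw [h2] at h1
    exact (h1.trans ha2l).trans (le_self_pow₀ hl1 (by norm_num))
  have hα2 : r ^ 4 / l ^ 6 = α ^ 2 := by rw [hα]; field_simp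
  have hβ2 : r ^ 4 * a ^ 2 / l ^ 8 = β ^ 2 := by rw [hβ]; field_simp
  obtain ⟨q, hq⟩ : ∃ q, q = r ^ 8 * (a / l ^ 7 + E) := ⟨_, rfl⟩
  have hr8 : 1 ≤ r ^ 8 := one_le_pow₀ hr1
  have hP0 : 0 ≤ a / l ^ 7 := by positivity
  have hqE : E ≤ q := by
    rw [hq]
    nlinarith
  have hqP : a / l ^ 7 ≤ q := by
    rw [hq]
    nlinarith
  have hq0 : 0 ≤ q := hE0.le.trans hqE
  have hqab : α * β ≤ q := by
    have h1 : α * β = r ^ 4 * (a / l ^ 7) := by rw [hα, hβ]; field_simp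
    rw [h1, hq]
    have h2 : r ^ 4 ≤ r ^ 8 := pow_le_pow_right₀ hr1 (by norm_num)
    have h3 : r ^ 4 * (a / l ^ 7) ≤ r ^ 8 * (a / l ^ 7) := mul_le_mul_of_nonneg_right h2 hP0
    have h4 : 0 ≤ r ^ 8 * E := by positivity
    rw [mul_add]
    linarith
  -- functions
  obtain ⟨e1, e2, hvbox, e4, e5, e6⟩ := h3 r a l φ g hr3' ha hl hφ hφp hg
  rw [hα2, hE2] at e1 e2
  rw [hβ2, hE2] at e6
  have hS2 : S2.Nonempty := ⟨0, by simp [S2]⟩
  have hS3 : S3.Nonempty := ⟨0, by simp [S3]⟩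
  have hφb : BL φ := hbl.2.2.2.1 S2 r φ hφ.box hr0 hS2
  have hgb : BL g := hbl.2.2.2.1 S3 r g hg.box hr0 hS3
  have hvb : BL (pod g) := hbl.2.2.2.1 S3 r _ hvbox hr0 hS3
  have hth := thz_LC1 hw hr1
  obtain ⟨hψbox, hψN, hψk⟩ := psi_facts hprod hbl hw hr1 hφ.box hφ.norm
  have hpsi_odd : ∀ x, (fun x => φ x * thz r (x 2)) (piv x) = - (fun x => φ x * thz r (x 2)) x := by
    intro x
    simp only [hφp]
    have : piv x 2 = - x 2 := by simp [piv]
    rw [this, thz_neg]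
    ring
  have h2S : (2 : Fin 3) ∉ S2 := by decide
  have hind := hφ.box.ind 2 h2S
  have T0 := thz_int hw r
  have L1 : ∀ v, Box S3 r v → |Dj 2 (fun x => φ x * thz r (x 2)) v
      - ∫ x, φ x * hh 1 (x 2) * v x ∂pm| ≤ Cw * E ^ 2 * √(Dj 2 v v) := by
    intro v hv
    have h := (hlift (th 1) (hh 1) Cw hw r S3 2 φ v hr1 hφb hind hv (by simp [S3])).2
    rw [hφ.norm, Real.sqrt_one, mul_one, hE2] at h
    exact h
  have L2 : ∀ v, Box S3 r v → |Dj 0 (fun x => φ x * thz r (x 2)) v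
      + Dj 1 (fun x => φ x * thz r (x 2)) v
      + (∫ x, V12 r a x * (φ x * thz r (x 2)) * v x ∂pm)
      - EE S2 r (V12 r a) * ip (fun x => φ x * thz r (x 2)) v| ≤
      E ^ 8 * √Cw * √(DD v v + 2 * ip v v) := by
    intro v hv
    have h := hweak r a φ v (thz r) hr1 hV1 hVm (hpot r a l).2.1 hφ hth hv
    refine h.trans ?_
    rw [hE8]
    have h1 : √(∫ y, thz r y ^ 2 ∂hm) ≤ √Cw := Real.sqrt_le_sqrt T0.2
    gcongr
  obtain ⟨-, hv2, -, hv4⟩ := hvar S3 r (U3 r a l) hS3 hr1 hUm hU1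
  obtain ⟨hv21, -, -, -⟩ := hvar S2 r (V12 r a) hS2 hr1 hVm hV1
  -- energies
  have hEE2 : EE S2 r (V12 r a) ≤ 3 * C3 + 1 := by
    have h1 := hv2 g hg.box
    rw [hg.norm, mul_one] at h1
    unfold BB at h1
    have h2 := csW hform hbl hgb hgb (M := 1) zero_le_one hU1
    rw [hg.norm, Real.sqrt_one, mul_one, mul_one] at h2
    have h3 := (abs_le.mp h2).2
    have h4 := (abs_le.mp e1).1
    have h5 : C3 * (α ^ 2 + E ^ 2) ≤ C3 * 2 := by
      refine mul_le_mul_of_nonneg_left ?_ (by linarith)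
      have := pow_le_one₀ (n := 2) hα0 hα1
      have := pow_le_one₀ (n := 2) hE0.le hE1
      linarith
    linarith
  -- the function ψ
  obtain ⟨ψ, hψ⟩ : ∃ ψ : X3 → ℝ, ψ = fun x => φ x * thz r (x 2) := ⟨_, rfl⟩
  rw [← hψ] at L1 L2 hψbox hψN hpsi_odd
  have hVψ : ∀ v : X3 → ℝ, ∫ x, V12 r a x * (φ x * thz r (x 2)) * v x ∂pm
      = ∫ x, V12 r a x * ψ x * v x ∂pm := fun v => by rw [hψ]
  simp only [hVψ] at L2
  have hψb : BL ψ := hbl.2.2.2.1 S3 r ψ hψbox hr0 hS3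
  have hN0 : 0 ≤ ip ψ ψ := integral_nonneg fun x => mul_self_nonneg _
  have hsN : √(ip ψ ψ) ≤ √Cw := Real.sqrt_le_sqrt hψN
  have hDψ0 := DD_nonneg hform hψb
  have hD : DD ψ ψ ≤ KD := by
    have h1 := (abs_le.mp (L1 ψ hψbox)).2
    have h2 := (abs_le.mp (L2 ψ hψbox)).2
    have h3 := csW hform hbl hψb hψb (M := 1) zero_le_one hV1
    rw [one_mul, Real.mul_self_sqrt hN0] at h3
    have h4 := (abs_le.mp h3).1
    have h5 : ∫ x, φ x * hh 1 (x 2) * ψ x ∂pm ≤ Cw := by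
      rw [hψ]; exact (abs_le.mp hψk).2
    have h6 : √(Dj 2 ψ ψ) ≤ √(DD ψ ψ + 2 * ip ψ ψ) :=
      Real.sqrt_le_sqrt (by linarith [Dj_le hform 2 hψb])
    have h7 : Cw * E ^ 2 * √(Dj 2 ψ ψ) ≤ Cw * √(DD ψ ψ + 2 * ip ψ ψ) := by
      have h8 : Cw * E ^ 2 ≤ Cw := mul_le_of_le_one_right hCw (by linarith)
      exact mul_le_mul h8 h6 (Real.sqrt_nonneg _) hCw
    have h8 : E ^ 8 * √Cw * √(DD ψ ψ + 2 * ip ψ ψ) ≤ √Cw * √(DD ψ ψ + 2 * ip ψ ψ) := by
      have h9 : E ^ 8 * √Cw ≤ √Cw := mul_le_of_le_one_left (Real.sqrt_nonneg _) (by linarith)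
      exact mul_le_mul_of_nonneg_right h9 (Real.sqrt_nonneg _)
    have h9 : EE S2 r (V12 r a) * ip ψ ψ ≤ (3 * C3 + 1) * Cw :=
      (mul_le_mul_of_nonneg_right hEE2 hN0).trans
        (mul_le_mul_of_nonneg_left hψN (by linarith))
    have h10 := DD_three ψ ψ
    have h11 : DD ψ ψ ≤ ((3 * C3 + 2) * Cw + Cw) + (√Cw + Cw) * √(DD ψ ψ + 2 * ip ψ ψ) := by
      rw [add_mul (√Cw)]
      have e : (3 * C3 + 2) * Cw = (3 * C3 + 1) * Cw + Cw := by ring
      rw [e]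
      linarith
    have h12 := D_bound (by linarith) h11
    rw [hKD]
    linarith
  -- `L3`
  have L3 := hv4 (Real.exp (-r)) g ψ (Real.exp_pos _).le hg.box hg.norm hg.le hψbox
  rw [hE16] at L3
  -- identities
  have bV : BM (V12 r a) := ⟨hVm, 1, hV1⟩
  have bW : BM (W3 r a l) := ⟨hWm, 1 / 2, hWh⟩
  have bg := BM_of_BL hbl hgb
  have bφ := BM_of_BL hbl hφb
  have bψ := BM_of_BL hbl hψb
  have I1 : DD ψ (pod g) = DD g ψ := by
    rw [DD_symm hform hψb hvb]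
    exact DD_pod hform hsym hbl hgb hψb hpsi_odd
  have I2 : ∫ x, V12 r a x * ψ x * pod g x ∂pm = ∫ x, V12 r a x * g x * ψ x ∂pm := by
    rw [← pod_int hprod hsym bV bg bψ hpsi_odd (hpot r a l).1]
    refine integral_congr_ae (ae_of_all _ fun x => ?_)
    simp only
    ring
  have I3 : ip ψ (pod g) = ip g ψ := by
    have h := pod_int hprod hsym (BM.const 1) bg bψ hpsi_odd (fun _ => rfl)
    unfold ip
    have h1 : ∫ x, ψ x * pod g x ∂pm = ∫ x, 1 * pod g x * ψ x ∂pm := by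
      refine integral_congr_ae (ae_of_all _ fun x => ?_)
      simp only
      ring
    rw [h1, h]
    refine integral_congr_ae (ae_of_all _ fun x => ?_)
    simp only
    ring
  have I4 : ∫ x, U3 r a l x * g x * ψ x ∂pm
      = (∫ x, V12 r a x * g x * ψ x ∂pm) + ∫ x, W3 r a l x * g x * ψ x ∂pm := by
    rw [← integral_add ((bV.mul bg).mul bψ).integrable ((bW.mul bg).mul bψ).integrable]
    refine integral_congr_ae (ae_of_all _ fun x => ?_)
    simp only [U3]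
    ring
  obtain ⟨c, hc⟩ : ∃ c, c = ip φ g := ⟨_, rfl⟩
  have hwb : BL (fun x => g x - c * φ x) :=
    (hbl.1 _ _ hgb (hbl.1 _ _ (hbl.2.1 c) hφb).2.2).2.1
  have bw := BM_of_BL hbl hwb
  have I5 : ∫ x, W3 r a l x * g x * ψ x ∂pm
      = c * (∫ x, W3 r a l x * φ x * ψ x ∂pm)
        + ∫ x, W3 r a l x * (g x - c * φ x) * ψ x ∂pm := by
    rw [← integral_const_mul, ← integral_add (((bW.mul bφ).mul bψ).integrable.const_mul c)
      ((bW.mul bw).mul bψ).integrable]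
    refine integral_congr_ae (ae_of_all _ fun x => ?_)
    simp only
    ring
  have I6 : ∫ x, W3 r a l x * φ x * ψ x ∂pm = - (kap0 r * ∫ x, Gf a l x * φ x ^ 2 ∂pm) := by
    rw [hψ]
    exact main_term havg hbd hprod hbl hr1 ha8 hl2 hφ.box hth
  have I7 := w_term hprod hsym bW bw bg bψ hpsi_odd (fun x => by
    simp only [hφp, pod]
    ring)
  have hww : ip (fun x => g x - c * φ x) (fun x => g x - c * φ x) = 1 - c ^ 2 := by
    have h1 : ip (fun x => g x - c * φ x) (fun x => g x - c * φ x)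
        = ∫ x, (g x * g x - 2 * c * (φ x * g x) + c ^ 2 * (φ x * φ x)) ∂pm := by
      unfold ip
      refine integral_congr_ae (ae_of_all _ fun x => ?_)
      simp only
      ring
    have i1 : Integrable (fun x => g x * g x) pm := (bg.mul bg).integrable
    have i2 : Integrable (fun x => 2 * c * (φ x * g x)) pm := (bφ.mul bg).integrable.const_mul _
    have i3 : Integrable (fun x => c ^ 2 * (φ x * φ x)) pm := (bφ.mul bφ).integrable.const_mul _
    have i4 : Integrable (fun x => g x * g x - 2 * c * (φ x * g x)) pm := i1.sub i2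
    rw [h1, integral_add i4 i3, integral_sub i1 i2, integral_const_mul, integral_const_mul]
    have e1 := hg.norm
    have e2 := hφ.norm
    unfold ip at e1 e2 hc
    rw [e1, e2, ← hc]
    ring
  -- norms
  have hv2' : √(ip (pod g) (pod g)) ≤ C3 * (β + E) := sqrt_le_aux hC3 hβ0 hE0.le e6
  have hw2' : √(ip (fun x => g x - c * φ x) (fun x => g x - c * φ x)) ≤ C3 * (α + E) := by
    rw [hww, hc]
    exact sqrt_le_aux hC3 hα0 hE0.le e2
  have hc1 : |c| ≤ 1 := by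
    have h := hform.2.2.1 φ g hφb hgb
    rw [hφ.norm, hg.norm, Real.sqrt_one, mul_one, ← hc] at h
    exact h
  have hsC := Real.sqrt_nonneg Cw
  -- bounds of the terms
  have B1 : Cw * E ^ 2 * √(Dj 2 (pod g) (pod g)) ≤ Cw * √C3 * q := by
    have h1 : √(Dj 2 (pod g) (pod g)) ≤ √C3 :=
      Real.sqrt_le_sqrt ((Dj_le hform 2 hvb).trans e5)
    have h2 : E ^ 2 ≤ q := hE2E.trans hqE
    calc Cw * E ^ 2 * √(Dj 2 (pod g) (pod g)) ≤ Cw * q * √C3 := by gcongr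
      _ = _ := by ring
  have B2 : E ^ 8 * √Cw * √(DD (pod g) (pod g) + 2 * ip (pod g) (pod g)) ≤
      √Cw * √(5 * C3) * q := by
    have h1 : √(DD (pod g) (pod g) + 2 * ip (pod g) (pod g)) ≤ √(5 * C3) := by
      refine Real.sqrt_le_sqrt ?_
      have h5 : C3 * (β ^ 2 + E ^ 2) ≤ C3 * 2 := by
        refine mul_le_mul_of_nonneg_left ?_ (by linarith)
        have := pow_le_one₀ (n := 2) hβ0 hβ1
        have := pow_le_one₀ (n := 2) hE0.le hE1
        linarith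
      linarith
    have h2 : E ^ 8 ≤ q := hE8E.trans hqE
    calc E ^ 8 * √Cw * √(DD (pod g) (pod g) + 2 * ip (pod g) (pod g))
        ≤ q * √Cw * √(5 * C3) := by gcongr
      _ = _ := by ring
  have B3 : E ^ 8 * √(DD ψ ψ + 2 * ip ψ ψ) ≤ √(KD + 2 * Cw) * q := by
    have h1 : √(DD ψ ψ + 2 * ip ψ ψ) ≤ √(KD + 2 * Cw) := Real.sqrt_le_sqrt (by linarith)
    have h2 : E ^ 8 ≤ q := hE8E.trans hqE
    calc E ^ 8 * √(DD ψ ψ + 2 * ip ψ ψ) ≤ q * √(KD + 2 * Cw) := by gcongr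
      _ = _ := by ring
  have hIg : |ip g ψ| ≤ C3 * (β + E) * √Cw := by
    rw [← I3]
    refine (hform.2.2.1 _ _ hψb hvb).trans ?_
    rw [mul_comm]
    exact mul_le_mul hv2' hsN (Real.sqrt_nonneg _) (by positivity)
  have B4 : |(EE S3 r (U3 r a l) - EE S2 r (V12 r a)) * ip g ψ| ≤ 4 * C3 ^ 2 * √Cw * q := by
    rw [abs_mul]
    have h1 := ar1 hα0 hα1 hβ0 hβ1 hE0.le hE1 hqab hqE
    calc |EE S3 r (U3 r a l) - EE S2 r (V12 r a)| * |ip g ψ|
        ≤ (C3 * (α ^ 2 + E ^ 2)) * (C3 * (β + E) * √Cw) :=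
          mul_le_mul e1 hIg (abs_nonneg _) (by positivity)
      _ = C3 ^ 2 * √Cw * ((α ^ 2 + E ^ 2) * (β + E)) := by ring
      _ ≤ C3 ^ 2 * √Cw * (4 * q) := mul_le_mul_of_nonneg_left h1 (by positivity)
      _ = _ := by ring
  have B5 : |∫ x, W3 r a l x * (g x - c * φ x) * ψ x ∂pm| ≤ 3 * Cb * C3 * √Cw * q := by
    rw [I7]
    have h1 := csW hform hbl hwb hψb (W := fun x => W3 r a l x - W3 r a l (piv x))
      (M := Cb * β) (by positivity) (fun x => by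
        have := hWo x
        rw [hβ]
        calc _ ≤ _ := this
          _ = _ := by ring)
    have h2 := csW hform hbl hvb hψb (W := fun x => W3 r a l (piv x))
      (M := Cb * α) (by positivity) (fun x => by
        have := hWb (piv x)
        rw [hα]
        calc _ ≤ _ := this
          _ = _ := by ring)
    have h3 : √(ip (fun x => g x - c * φ x) (fun x => g x - c * φ x)) * √(ip ψ ψ)
        ≤ C3 * (α + E) * √Cw := mul_le_mul hw2' hsN (Real.sqrt_nonneg _) (by positivity)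
    have h4 : √(ip (pod g) (pod g)) * √(ip ψ ψ) ≤ C3 * (β + E) * √Cw :=
      mul_le_mul hv2' hsN (Real.sqrt_nonneg _) (by positivity)
    have h5 : Cb * β * (C3 * (α + E) * √Cw) ≤ Cb * C3 * √Cw * (2 * q) := by
      have := ar2 (α := α) hβ1 hE0.le hqab hqE
      calc Cb * β * (C3 * (α + E) * √Cw) = Cb * C3 * √Cw * (β * (α + E)) := by ring
        _ ≤ _ := mul_le_mul_of_nonneg_left this (by positivity)
    have h6 : Cb * α * (C3 * (β + E) * √Cw) ≤ Cb * C3 * √Cw * (2 * q) := by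
      have := ar2 (α := β) hα1 hE0.le (by rw [mul_comm]; exact hqab) hqE
      calc Cb * α * (C3 * (β + E) * √Cw) = Cb * C3 * √Cw * (α * (β + E)) := by ring
        _ ≤ _ := mul_le_mul_of_nonneg_left this (by positivity)
    have h7 := h1.trans ((mul_le_mul_of_nonneg_left h3 (by positivity)).trans h5)
    have h8 := h2.trans ((mul_le_mul_of_nonneg_left h4 (by positivity)).trans h6)
    refine (abs_add_le _ _).trans ?_
    rw [abs_mul, abs_of_pos (by norm_num : (0 : ℝ) < 1 / 2)]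
    linarith
  have hkr := hkap r hr1
  rw [hE4] at hkr
  obtain ⟨m, hm⟩ : ∃ m, m = 3 * ML a 2 φ / l ^ 4 + 5 * ML a 4 φ / l ^ 6 := ⟨_, rfl⟩
  obtain ⟨F, hF⟩ : ∃ F, F = ∫ x, Gf a l x * φ x ^ 2 ∂pm := ⟨_, rfl⟩
  have hFm := hfi r a l φ hr1 ha8 hl4 hφ.box hφ.norm hφp
  rw [← hm, ← hF] at hFm
  have hm16 : |m| ≤ 16 * CM := by
    obtain ⟨-, h2, h4⟩ := hMM r a φ hrM' ha hφ
    have hr8a : r ^ 8 ≤ a ^ 2 := by
      have := pow_le_pow_left₀ (by positivity) ha 2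
      calc r ^ 8 = (r ^ 4) ^ 2 := by ring
        _ ≤ _ := this
    have hs : 1 / a ^ 6 + Real.exp (-r / 8) ≤ 2 := by
      rw [hE2]
      have : 1 / a ^ 6 ≤ 1 := by
        rw [div_le_one (by positivity)]; exact one_le_pow₀ ha1
      linarith
    have hs0 : 0 ≤ 1 / a ^ 6 + Real.exp (-r / 8) := by positivity
    have h2' : |ML a 2 φ| ≤ 2 * CM * a ^ 3 := by
      refine h2.trans ?_
      calc CM * a * r ^ 8 * (1 / a ^ 6 + Real.exp (-r / 8)) ≤ CM * a * a ^ 2 * 2 := by gcongr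
        _ = _ := by ring
    have h4' : |ML a 4 φ| ≤ 2 * CM * a ^ 5 := by
      refine h4.trans ?_
      calc CM * a ^ 3 * r ^ 8 * (1 / a ^ 6 + Real.exp (-r / 8)) ≤ CM * a ^ 3 * a ^ 2 * 2 := by gcongr
        _ = _ := by ring
    have e2 : |3 * ML a 2 φ / l ^ 4| ≤ 6 * CM := by
      rw [abs_div, abs_mul, abs_of_pos (by positivity : 0 < l ^ 4),
        abs_of_pos (by norm_num : (0 : ℝ) < 3), div_le_iff₀ (by positivity)]
      have h5 : a ^ 3 ≤ l ^ 4 := (pow_le_pow_left₀ ha0.le hal 3).trans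
        (pow_le_pow_right₀ hl1 (by norm_num))
      have h6 : CM * a ^ 3 ≤ CM * l ^ 4 := mul_le_mul_of_nonneg_left h5 (by linarith)
      linarith
    have e4 : |5 * ML a 4 φ / l ^ 6| ≤ 10 * CM := by
      rw [abs_div, abs_mul, abs_of_pos (by positivity : 0 < l ^ 6),
        abs_of_pos (by norm_num : (0 : ℝ) < 5), div_le_iff₀ (by positivity)]
      have h5 : a ^ 5 ≤ l ^ 6 := (pow_le_pow_left₀ ha0.le hal 5).trans
        (pow_le_pow_right₀ hl1 (by norm_num))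
      have h6 : CM * a ^ 5 ≤ CM * l ^ 6 := mul_le_mul_of_nonneg_left h5 (by linarith)
      linarith
    rw [hm]
    exact (abs_add_le _ _).trans (by linarith)
  have hkr' : |kap0 r| ≤ 18 + Ck := by
    have h1 : Ck * E ^ 4 ≤ Ck := mul_le_of_le_one_right hCk (by linarith)
    have h2 := abs_sub_abs_le_abs_sub (kap0 r) 18
    rw [abs_of_pos (by norm_num : (0 : ℝ) < 18)] at h2
    linarith
  have B6 : |c * kap0 r * (F - m)| ≤ (18 + Ck) * Cf * q := by
    rw [abs_mul, abs_mul]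
    have h1 : Cf * a ^ 6 / l ^ 8 ≤ Cf * q := by
      have h2 : a ^ 6 / l ^ 8 ≤ a / l ^ 7 := by
        rw [div_le_div_iff₀ (by positivity) (by positivity)]
        have h3 : a ^ 6 * l ^ 7 ≤ l * l ^ 7 := mul_le_mul_of_nonneg_right hl (by positivity)
        have h4 : l * l ^ 7 = 1 * l ^ 8 := by ring
        have h5 : 1 * l ^ 8 ≤ a * l ^ 8 := mul_le_mul_of_nonneg_right ha1 (by positivity)
        linarith
      calc Cf * a ^ 6 / l ^ 8 = Cf * (a ^ 6 / l ^ 8) := by ring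
        _ ≤ Cf * q := mul_le_mul_of_nonneg_left (h2.trans hqP) (by linarith)
    have h2 : |c| * |kap0 r| ≤ 1 * (18 + Ck) :=
      mul_le_mul hc1 hkr' (abs_nonneg _) (by norm_num)
    rw [one_mul] at h2
    calc |c| * |kap0 r| * |F - m| ≤ (18 + Ck) * (Cf * q) :=
          mul_le_mul h2 (hFm.trans h1) (abs_nonneg _) (by positivity)
      _ = _ := by ring
  have B7 : |c * (kap0 r - 18) * m| ≤ 16 * Ck * CM * q := by
    rw [abs_mul, abs_mul]
    have h1 : Ck * E ^ 4 ≤ Ck * q := mul_le_mul_of_nonneg_left (hE4E.trans hqE) hCk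
    have h2 : |c| * |kap0 r - 18| ≤ 1 * (Ck * q) :=
      mul_le_mul hc1 (hkr.trans h1) (abs_nonneg _) (by norm_num)
    rw [one_mul] at h2
    calc |c| * |kap0 r - 18| * |m| ≤ (Ck * q) * (16 * CM) :=
          mul_le_mul h2 hm16 (abs_nonneg _) (by positivity)
      _ = _ := by ring
  -- collect
  have M1 := abs_le.mp ((L1 (pod g) hvbox).trans B1)
  have M2 := abs_le.mp ((L2 (pod g) hvbox).trans B2)
  have M3 := abs_le.mp (L3.trans B3)
  have M4 := abs_le.mp B4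
  have M5 := abs_le.mp B5
  have M6 := abs_le.mp B6
  have M7 := abs_le.mp B7
  rw [I2, I3] at M2
  unfold BB at M3
  rw [I4, I5, I6, ← hF] at M3
  have hDD3 := DD_three ψ (pod g)
  rw [I1] at hDD3
  have hX : ∫ x, φ x * hh 1 (x 2) * pod g x ∂pm = ∫ x, φ x * x 2 0 * pod g x ∂pm := rfl
  rw [hX] at M1
  rw [← hm, ← hc, ← hEdef, mul_assoc _ (r ^ 8), ← hq]
  have e1' : c * kap0 r * (F - m) = c * kap0 r * F - c * kap0 r * m := by ring
  have e2' : c * (kap0 r - 18) * m = c * kap0 r * m - 18 * c * m := by ring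
  have e3' : c * -(kap0 r * F) = -(c * kap0 r * F) := by ring
  have e4' : (EE S3 r (U3 r a l) - EE S2 r (V12 r a)) * ip g ψ
      = EE S3 r (U3 r a l) * ip g ψ - EE S2 r (V12 r a) * ip g ψ := by ring
  rw [e1'] at M6
  rw [e2'] at M7
  rw [e3'] at M3
  rw [e4'] at M4
  generalize (∫ x, φ x * x 2 0 * pod g x ∂pm) = X at *
  generalize Dj 0 ψ (pod g) = D0 at *
  generalize Dj 1 ψ (pod g) = D1' at *
  generalize Dj 2 ψ (pod g) = D2 at *
  generalize DD g ψ = D at *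
  generalize (∫ x, V12 r a x * g x * ψ x ∂pm) = Vg at *
  generalize (∫ x, W3 r a l x * (g x - c * φ x) * ψ x ∂pm) = Ww at *
  generalize EE S3 r (U3 r a l) * ip g ψ = A3 at *
  generalize EE S2 r (V12 r a) * ip g ψ = A2 at *
  generalize c * kap0 r * F = A4 at *
  generalize c * kap0 r * m = A5 at *
  generalize 18 * c * m = A6 at *
  have hfin : (1 + Cw * √C3 + √Cw * √(5 * C3) + √(KD + 2 * Cw) + 4 * C3 ^ 2 * √Cw
      + 3 * Cb * C3 * √Cw + (18 + Ck) * Cf + 16 * Ck * CM) * q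
      = q + Cw * √C3 * q + √Cw * √(5 * C3) * q + √(KD + 2 * Cw) * q + 4 * C3 ^ 2 * √Cw * q
        + 3 * Cb * C3 * √Cw * q + (18 + Ck) * Cf * q + 16 * Ck * CM * q := by ring
  rw [hfin, abs_le]
  generalize Cw * √C3 * q = b1 at *
  generalize √Cw * √(5 * C3) * q = b2 at *
  generalize √(KD + 2 * Cw) * q = b3 at *
  generalize 4 * C3 ^ 2 * √Cw * q = b4 at *
  generalize 3 * Cb * C3 * √Cw * q = b5 at *
  generalize (18 + Ck) * Cf * q = b6 at *
  generalize 16 * Ck * CM * q = b7 at *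
  obtain ⟨p1, p1'⟩ := M1
  obtain ⟨p2, p2'⟩ := M2
  obtain ⟨p3, p3'⟩ := M3
  obtain ⟨p4, p4'⟩ := M4
  obtain ⟨p5, p5'⟩ := M5
  obtain ⟨p6, p6'⟩ := M6
  obtain ⟨p7, p7'⟩ := M7
  clear * - p1 p1' p2 p2' p3 p3' p4 p4' p5 p5' p6 p6' p7 p7' hDD3 hq0
  constructor <;> linarith

end MolDis.H
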