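import Pool.Agent.Lib.MP_59f35a_mp.HStmts

/-!
# MP_59f35a_mp, Theorem D, piece E5: the pair is not polarised
-/

set_option autoImplicit false

noncomputable section

open MeasureTheory

namespace MolDis.H
namespace E5a

/-! ### bounded measurable functions -/

/-- measurable and bounded -/
structure MB (F : X3 → ℝ) : Prop where
  meas : Measurable F
  bdd : ∃ B : ℝ, ∀ x, |F x| ≤ B

lemma MB.mul {F G : X3 → ℝ} (hF : MB F) (hG : MB G) : MB (fun x => F x * G x) := by
  obtain ⟨hF1, B, hB⟩ := hF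
  obtain ⟨hG1, D, hD⟩ := hG
  refine ⟨hF1.mul hG1, |B| * |D|, fun x => ?_⟩
  rw [abs_mul]
  exact mul_le_mul ((hB x).trans (le_abs_self B)) ((hD x).trans (le_abs_self D)) (abs_nonneg _)
    (abs_nonneg _)

lemma MB.add {F G : X3 → ℝ} (hF : MB F) (hG : MB G) : MB (fun x => F x + G x) := by
  obtain ⟨hF1, B, hB⟩ := hF
  obtain ⟨hG1, D, hD⟩ := hG
  exact ⟨hF1.add hG1, B + D, fun x => (abs_add_le _ _).trans (add_le_add (hB x) (hD x))⟩

lemma MB.sub {F G : X3 → ℝ} (hF : MB F) (hG : MB G) : MB (fun x => F x - G x) := by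
  obtain ⟨hF1, B, hB⟩ := hF
  obtain ⟨hG1, D, hD⟩ := hG
  exact ⟨hF1.sub hG1, B + D, fun x => (abs_sub _ _).trans (add_le_add (hB x) (hD x))⟩

lemma MB.const (c : ℝ) : MB (fun _ => c) := ⟨measurable_const, |c|, fun _ => le_rfl⟩

lemma MB.sq {F : X3 → ℝ} (hF : MB F) : MB (fun x => F x ^ 2) := by
  have := hF.mul hF
  simpa only [pow_two] using this

lemma MB.int [IsProbabilityMeasure pm] {F : X3 → ℝ} (hF : MB F) : Integrable F pm := by
  obtain ⟨hF1, B, hB⟩ := hF
  exact Integrable.mono' (integrable_const B) hF1.aestronglyMeasurable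
    (Filter.Eventually.of_forall (fun x => by simpa using hB x))

lemma cs [IsProbabilityMeasure pm] {F G : X3 → ℝ} (hF : MB F) (hG : MB G) :
    |∫ x, F x * G x ∂pm| ≤ √(∫ x, F x ^ 2 ∂pm) * √(∫ x, G x ^ 2 ∂pm) := by
  have hA : 0 ≤ ∫ x, F x ^ 2 ∂pm := integral_nonneg (fun x => sq_nonneg _)
  have key : ∀ t : ℝ, 0 ≤ (∫ x, F x ^ 2 ∂pm) * (t * t) + (2 * ∫ x, F x * G x ∂pm) * t
      + ∫ x, G x ^ 2 ∂pm := by
    intro t
    have h1 : 0 ≤ ∫ x, (t * F x + G x) ^ 2 ∂pm := integral_nonneg (fun x => sq_nonneg _)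
    have e : ∀ x, (t * F x + G x) ^ 2 = (t * t) * F x ^ 2 + (2 * t) * (F x * G x) + G x ^ 2 := by
      intro x; ring
    simp only [e] at h1
    have i1 : Integrable (fun x => (t * t) * F x ^ 2 + (2 * t) * (F x * G x)) pm :=
      ((hF.sq.int).const_mul _).add ((hF.mul hG).int.const_mul _)
    rw [integral_add i1 hG.sq.int,
      integral_add ((hF.sq.int).const_mul _) ((hF.mul hG).int.const_mul _), integral_const_mul,
      integral_const_mul] at h1
    linarith
  have h2 := discrim_le_zero key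
  unfold discrim at h2
  rw [← Real.sqrt_mul hA]
  apply Real.abs_le_sqrt
  nlinarith

lemma cs3 [IsProbabilityMeasure pm] {W F G : X3 → ℝ} {M : ℝ} (hW : MB W) (hF : MB F) (hG : MB G)
    (hM : ∀ x, |W x| ≤ M) :
    |∫ x, W x * F x * G x ∂pm| ≤ M * (√(∫ x, F x ^ 2 ∂pm) * √(∫ x, G x ^ 2 ∂pm)) := by
  have hM0 : 0 ≤ M := (abs_nonneg _).trans (hM 0)
  have h1 := cs (hW.mul hF) hG
  have h2 : √(∫ x, (W x * F x) ^ 2 ∂pm) ≤ M * √(∫ x, F x ^ 2 ∂pm) := by
    have : M * √(∫ x, F x ^ 2 ∂pm) = √(M ^ 2 * ∫ x, F x ^ 2 ∂pm) := by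
      rw [Real.sqrt_mul (sq_nonneg M), Real.sqrt_sq hM0]
    rw [this, ← integral_const_mul]
    apply Real.sqrt_le_sqrt
    refine integral_mono (hW.mul hF).sq.int (hF.sq.int.const_mul _) (fun x => ?_)
    simp only [mul_pow]
    apply mul_le_mul_of_nonneg_right _ (sq_nonneg _)
    rw [← sq_abs (W x)]
    exact pow_le_pow_left₀ (abs_nonneg _) (hM x) 2
  calc |∫ x, W x * F x * G x ∂pm| ≤ _ := h1
    _ ≤ (M * √(∫ x, F x ^ 2 ∂pm)) * √(∫ x, G x ^ 2 ∂pm) :=
        mul_le_mul_of_nonneg_right h2 (Real.sqrt_nonneg _)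
    _ = _ := by ring

/-- averaging out the third variable against a function which does not depend on it -/
lemma fub (h_prod : S_prod) {F G : X3 → ℝ} (hFG : Integrable (fun x => F x * G x) pm)
    (hG : ∀ x y, G (Function.update x 2 y) = G x) :
    ∫ x, F x * G x ∂pm = ∫ x, Pj 2 F x * G x ∂pm := by
  have h := (h_prod.2.2.1 2 _ hFG).2.2
  rw [← h]
  refine integral_congr_ae (Filter.Eventually.of_forall (fun x => ?_))
  simp only [Pj, hG]
  rw [integral_mul_const]

/-! ### the cut-off -/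

lemma zt_nonneg (r : ℝ) (x : E3) : 0 ≤ zt r x := le_max_left _ _

lemma zt_le (r : ℝ) (x : E3) : zt r x ≤ 1 := max_le zero_le_one (min_le_left _ _)

lemma zt_neg (r : ℝ) (x : E3) : zt r (-x) = zt r x := by
  unfold zt; rw [norm_neg]

lemma zt_supp {r : ℝ} (hr : 0 < r) {x : E3} (h : zt r x ≠ 0) : ‖x‖ ≤ r := by
  by_contra hc
  push Not at hc
  apply h
  unfold zt
  have : 2 - 2 * ‖x‖ / r ≤ 0 := by
    rw [sub_nonpos, le_div_iff₀ hr]
    linarith
  rw [max_eq_left]
  exact (min_le_right _ _).trans this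

lemma zt_one {r : ℝ} (hr : 0 < r) {x : E3} (h : ‖x‖ ≤ r / 2) : zt r x = 1 := by
  unfold zt
  have : 1 ≤ 2 - 2 * ‖x‖ / r := by
    have : 2 * ‖x‖ / r ≤ 1 := by
      rw [div_le_iff₀ hr]; linarith
    linarith
  rw [min_eq_left this]
  norm_num

/-- the cut-off as a function of the radius -/
def kz (r t : ℝ) : ℝ := max 0 (min 1 (2 - 2 * t / r))

lemma kz_cont (r : ℝ) : Continuous (kz r) := by
  unfold kz; fun_prop

lemma zt_LC1 {r : ℝ} (hr : 0 < r) : LC1 (zt r) := by
  refine ⟨⟨(2 / r).toNNReal, ?_⟩, r, fun x hx => zt_supp hr hx⟩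
  apply LipschitzWith.of_dist_le_mul
  intro x y
  rw [Real.dist_eq, dist_eq_norm, Real.coe_toNNReal _ (by positivity)]
  unfold zt
  have h1 : |max 0 (min 1 (2 - 2 * ‖x‖ / r)) - max 0 (min 1 (2 - 2 * ‖y‖ / r))|
      ≤ |min 1 (2 - 2 * ‖x‖ / r) - min 1 (2 - 2 * ‖y‖ / r)| := by
    have := abs_max_sub_max_le_max 0 (min 1 (2 - 2 * ‖x‖ / r)) 0 (min 1 (2 - 2 * ‖y‖ / r))
    simpa using this
  have h2 : |min 1 (2 - 2 * ‖x‖ / r) - min 1 (2 - 2 * ‖y‖ / r)|
      ≤ |(2 - 2 * ‖x‖ / r) - (2 - 2 * ‖y‖ / r)| := by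
    have := abs_min_sub_min_le_max 1 (2 - 2 * ‖x‖ / r) 1 (2 - 2 * ‖y‖ / r)
    simpa using this
  have h3 : |(2 - 2 * ‖x‖ / r) - (2 - 2 * ‖y‖ / r)| = 2 / r * |‖y‖ - ‖x‖| := by
    have : (2 - 2 * ‖x‖ / r) - (2 - 2 * ‖y‖ / r) = 2 / r * (‖y‖ - ‖x‖) := by ring
    rw [this, abs_mul, abs_of_pos (by positivity)]
  have h4 : |‖y‖ - ‖x‖| ≤ ‖x - y‖ := by
    rw [norm_sub_rev]; exact abs_norm_sub_norm_le _ _
  refine h1.trans (h2.trans ?_)
  rw [h3]
  exact mul_le_mul_of_nonneg_left h4 (by positivity)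

/-! ### the inversion `piv` -/

lemma piv_piv (x : X3) : piv (piv x) = x := by
  funext j
  fin_cases j <;> simp [piv]

lemma piv_eq : piv = sgT (Equiv.swap 0 1) (fun _ _ => -1) := by
  funext x j
  have h2 : (Equiv.swap (0 : Fin 3) 1) 2 = 2 := by decide
  fin_cases j <;> (ext c; simp [piv, sgT, h2])

lemma piv_upd (x : X3) (y : E3) : piv (Function.update x 2 y) = Function.update (piv x) 2 (-y) := by
  funext j
  fin_cases j <;> simp [piv, Function.update]

lemma piv_mp (h_sym : S_sym) : MeasurePreserving piv pm pm := by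
  rw [piv_eq]
  exact (h_sym _ _ (fun _ _ => Or.inr rfl)).1

lemma int_piv (h_sym : S_sym) (F : X3 → ℝ) : ∫ x, F (piv x) ∂pm = ∫ x, F x ∂pm := by
  have hm := piv_mp h_sym
  let e : X3 ≃ᵐ X3 := ⟨⟨piv, piv, piv_piv, piv_piv⟩, hm.measurable, hm.measurable⟩
  have he : MeasurableEmbedding piv := e.measurableEmbedding
  exact hm.integral_comp he F

lemma int_odd (h_sym : S_sym) {F : X3 → ℝ} (h : ∀ x, F (piv x) = - F x) : ∫ x, F x ∂pm = 0 := by
  have h1 := int_piv h_sym F
  simp only [h] at h1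
  rw [integral_neg] at h1
  linarith

lemma MB.piv (h_sym : S_sym) {F : X3 → ℝ} (hF : MB F) : MB (fun x => F (piv x)) := by
  obtain ⟨h1, B, hB⟩ := hF
  exact ⟨h1.comp (piv_mp h_sym).measurable, B, fun x => hB _⟩

/-- the bound for potentials whose odd part is small -/
lemma odd_bd [IsProbabilityMeasure pm] (h_sym : S_sym) {W F G : X3 → ℝ} {M : ℝ} (hW : MB W)
    (hF : MB F) (hG : MB G) (hM : ∀ x, |W x - W (H.piv x)| ≤ M)
    (hodd : ∀ x, F (H.piv x) * G (H.piv x) = - (F x * G x)) :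
    |∫ x, W x * F x * G x ∂pm| ≤ M * (√(∫ x, F x ^ 2 ∂pm) * √(∫ x, G x ^ 2 ∂pm)) := by
  have hM0 : 0 ≤ M := (abs_nonneg _).trans (hM 0)
  have h1 := cs3 (hW.sub (hW.piv h_sym)) hF hG hM
  have h2 : ∫ x, (W x - W (H.piv x)) * F x * G x ∂pm = 2 * ∫ x, W x * F x * G x ∂pm := by
    have e : ∀ x, (W x - W (H.piv x)) * F x * G x = W x * F x * G x - W (H.piv x) * F x * G x := by
      intro x; ring
    simp only [e]
    rw [integral_sub ((hW.mul hF).mul hG).int (((hW.piv h_sym).mul hF).mul hG).int]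
    have h3 : ∫ x, W (H.piv x) * F x * G x ∂pm = - ∫ x, W x * F x * G x ∂pm := by
      rw [← int_piv h_sym (fun x => W x * F x * G x), ← integral_neg]
      refine integral_congr_ae (Filter.Eventually.of_forall (fun x => ?_))
      simp only
      have := hodd x
      rw [mul_assoc, mul_assoc, this]
      ring
    rw [h3]; ring
  rw [h2, abs_mul] at h1
  have h4 : |(2 : ℝ)| = 2 := by norm_num
  rw [h4] at h1
  have h5 : 0 ≤ M * (√(∫ x, F x ^ 2 ∂pm) * √(∫ x, G x ^ 2 ∂pm)) := by positivity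
  have h6 := abs_nonneg (∫ x, W x * F x * G x ∂pm)
  linarith

/-! ### the form -/

lemma mb_of_bl (h_bl : S_bl) {f : X3 → ℝ} (hf : BL f) : MB f := ⟨(h_bl.2.2.1 f hf).1, hf.bdd⟩

lemma DD_symm (h_form : S_form) {f g : X3 → ℝ} (hf : BL f) (hg : BL g) : DD f g = DD g f := by
  unfold DD
  exact Finset.sum_congr rfl (fun j _ => (h_form.1 j f g g hf hg hg 0).1)

lemma DD_sub (h_form : S_form) {f g h : X3 → ℝ} (hf : BL f) (hg : BL g) (hh : BL h) :
    DD (fun x => f x - g x) h = DD f h - DD g h := by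
  unfold DD
  rw [← Finset.sum_sub_distrib]
  exact Finset.sum_congr rfl (fun j _ => (h_form.1 j f g h hf hg hh 0).2.2.2.1)

lemma DD_smul (h_form : S_form) {f g : X3 → ℝ} (hf : BL f) (hg : BL g) (c : ℝ) :
    DD (fun x => c * f x) g = c * DD f g := by
  unfold DD
  rw [Finset.mul_sum]
  exact Finset.sum_congr rfl (fun j _ => (h_form.1 j f g g hf hg hg c).2.2.2.2.1)

lemma DD_odd (h_form : S_form) (h_sym : S_sym) {f g : X3 → ℝ} (hf : BL f) (hg : BL g)
    (hfe : ∀ x, f (H.piv x) = f x) (hgo : ∀ x, g (H.piv x) = - g x) : DD f g = 0 := by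
  have h1 := (h_sym (Equiv.swap 0 1) (fun _ _ => -1) (fun _ _ => Or.inr rfl)).2.2.1 f g hf hg
  rw [← piv_eq] at h1
  have e1 : (fun x => f (H.piv x)) = f := funext hfe
  have e2 : (fun x => g (H.piv x)) = fun x => (-1) * g x := by
    funext x; rw [hgo]; ring
  have hg' : BL (fun x => (-1) * g x) := by
    have := (h_sym (Equiv.swap 0 1) (fun _ _ => -1) (fun _ _ => Or.inr rfl)).2.1 g hg
    rw [← piv_eq, e2] at this
    exact this
  rw [e1, e2, DD_symm h_form hf hg', DD_smul h_form hg hf, DD_symm h_form hg hf] at h1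
  linarith

/-! ### stage 1 -/

lemma stage1 [IsProbabilityMeasure pm] (h_bl : S_bl) (h_form : S_form) (h_sym : S_sym)
    {r a l : ℝ} {g v : X3 → ℝ} (hV : MB (V12 r a)) (hW : MB (W3 r a l))
    (hVp : ∀ x, V12 r a (H.piv x) = V12 r a x) (hg : BL g) (hgo : BL (pod g)) (hv : BL v)
    (hvo : ∀ x, v (H.piv x) = - v x) :
    ip g v = ip (pod g) v ∧
    BB (U3 r a l) g v = DD (pod g) v + (∫ x, V12 r a x * pod g x * v x ∂pm)
      + ∫ x, W3 r a l x * g x * v x ∂pm := by
  have hge : BL (fun x => g x - pod g x) := (h_bl.1 g (pod g) hg hgo).2.1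
  have hgee : ∀ x, g (H.piv x) - pod g (H.piv x) = g x - pod g x := by
    intro x
    simp only [pod, piv_piv]
    ring
  have mg := mb_of_bl h_bl hg
  have mgo := mb_of_bl h_bl hgo
  have mge := mb_of_bl h_bl hge
  have mv := mb_of_bl h_bl hv
  have h1 : DD g v = DD (pod g) v := by
    have := DD_sub h_form hg hgo hv
    rw [DD_odd h_form h_sym hge hv hgee hvo] at this
    linarith
  have h2 : ip g v = ip (pod g) v := by
    unfold ip
    have : ∫ x, (g x - pod g x) * v x ∂pm = 0 := by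
      apply int_odd h_sym
      intro x
      rw [hgee, hvo]; ring
    have e : ∀ x, g x * v x = (g x - pod g x) * v x + pod g x * v x := by intro x; ring
    simp only [e]
    rw [integral_add (mge.mul mv).int (mgo.mul mv).int, this, zero_add]
  have h3 : ∫ x, V12 r a x * g x * v x ∂pm = ∫ x, V12 r a x * pod g x * v x ∂pm := by
    have : ∫ x, V12 r a x * (g x - pod g x) * v x ∂pm = 0 := by
      apply int_odd h_sym
      intro x
      rw [hgee, hvo, hVp]; ring
    have e : ∀ x, V12 r a x * g x * v x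
      = V12 r a x * (g x - pod g x) * v x + V12 r a x * pod g x * v x := by intro x; ring
    simp only [e]
    rw [integral_add ((hV.mul mge).mul mv).int ((hV.mul mgo).mul mv).int, this, zero_add]
  refine ⟨h2, ?_⟩
  unfold BB
  have e : ∀ x, U3 r a l x * g x * v x = V12 r a x * g x * v x + W3 r a l x * g x * v x := by
    intro x; unfold U3; ring
  simp only [e]
  rw [integral_add ((hV.mul mg).mul mv).int ((hW.mul mg).mul mv).int, h1, h3]
  ring

/-! ### stage 2 -/

/-- `P_2 (g ζ(x_2))` -/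
def eta (r : ℝ) (go : X3 → ℝ) : X3 → ℝ := Pj 2 (fun x => go x * zt r (x 2))

/-- the test function -/
def vv (r : ℝ) (go : X3 → ℝ) : X3 → ℝ := fun x => eta r go x * (1 * zt r (x 2))

lemma vv_eq (r : ℝ) (go : X3 → ℝ) : vv r go = fun x => zt r (x 2) * eta r go x := by
  funext x; unfold vv; ring

lemma eta_odd (h_hm : S_hm) (r : ℝ) {go : X3 → ℝ} (hgo : ∀ x, go (H.piv x) = - go x) (x : X3) :
    eta r go (H.piv x) = - eta r go x := by
  have hinv : ∀ F : E3 → ℝ, ∫ y, F (-y) ∂hm = ∫ y, F y ∂hm := by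
    intro F
    have := h_hm.2.2.2.2.2.2 (LinearIsometryEquiv.neg ℝ)
    exact this.integral_comp (LinearIsometryEquiv.neg ℝ).toHomeomorph.measurableEmbedding F
  unfold eta Pj
  rw [← hinv (fun y => go (Function.update (H.piv x) 2 y) *
    zt r ((Function.update (H.piv x) 2 y) 2)), ← integral_neg]
  refine integral_congr_ae (Filter.Eventually.of_forall (fun y => ?_))
  simp only [Function.update_self, zt_neg, ← piv_upd, hgo]
  ring

lemma pd_ind (h_prod : S_prod) {η : X3 → ℝ} (h : ∀ x y, η (Function.update x 2 y) = η x)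
    (c : Fin 3) (x : X3) : pd 2 c η x = 0 := by
  have h1 := h_prod.2.2.2.2.1 2 c η x (x 2)
  rw [Function.update_eq_self] at h1
  rw [h1]
  have h2 : sl 2 x η = fun _ => η x := by
    funext y; exact h x y
  rw [h2]
  unfold pd1 lineDeriv
  simp

lemma stage2 [IsProbabilityMeasure pm] (h_prod : S_prod) (h_bl : S_bl) (h_form : S_form)
    (h_comm : S_comm) {r a : ℝ} (hr : 0 < r) {go : X3 → ℝ} (hgo : Box S3 r go)
    (hV : MB (V12 r a)) (hV2 : ∀ x y, V12 r a (Function.update x 2 y) = V12 r a x) :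
    BL go ∧ Box S2 r (eta r go) ∧ BL (eta r go) ∧ Box S3 r (vv r go) ∧ BL (vv r go) ∧
    DD (eta r go) (eta r go) = Dj 0 go (vv r go) + Dj 1 go (vv r go) ∧
    (∫ x, V12 r a x * go x * vv r go x ∂pm = ∫ x, V12 r a x * eta r go x * eta r go x ∂pm) ∧
    ip go (vv r go) = ip (eta r go) (eta r go) ∧
    (∀ j : Fin 3, j ≠ 2 → Dj j (vv r go) (vv r go) ≤ Dj j (eta r go) (eta r go)) ∧
    ip (vv r go) (vv r go) ≤ ip (eta r go) (eta r go) ∧
    √(ip (eta r go) (eta r go)) ≤ √(ip go go) := by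
  have hz : BL (fun x : X3 => zt r (x 2)) := h_bl.2.2.2.2.2 (zt r) 2 (zt_LC1 hr)
  have hzz : BL (fun x : X3 => zt r (x 2) * zt r (x 2)) := (h_bl.1 _ _ hz hz).2.2
  have hBgo : BL go := h_bl.2.2.2.1 S3 r go hgo hr ⟨0, by simp [S3]⟩
  have hBf : BL (fun x => go x * zt r (x 2)) := (h_bl.1 _ _ hBgo hz).2.2
  have hf : Box S3 r (fun x => go x * zt r (x 2)) := by
    refine ⟨hBf.lip, fun x hx j hj => hgo.supp x (left_ne_zero_of_mul hx) j hj, fun j hj => ?_⟩
    exact absurd (Finset.mem_univ j) hj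
  have heta : Box S2 r (eta r go) := (h_comm r _ hr hf).1
  have hBeta : BL (eta r go) := h_bl.2.2.2.1 S2 r _ heta hr ⟨0, by simp [S2]⟩
  have hind : ∀ x y, eta r go (Function.update x 2 y) = eta r go x := heta.ind 2 (by decide)
  have hBv : BL (vv r go) := by
    rw [vv_eq]; exact (h_bl.1 _ _ hz hBeta).2.2
  have hv : Box S3 r (vv r go) := by
    refine ⟨hBv.lip, fun x hx j _ => ?_, fun j hj => ?_⟩
    · rw [vv_eq] at hx
      have h1 := left_ne_zero_of_mul hx
      have h2 := right_ne_zero_of_mul hx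
      by_cases hj : j = 2
      · subst hj
        exact zt_supp hr h1
      · apply heta.supp x h2 j
        fin_cases j
        · decide
        · decide
        · exact absurd rfl hj
    · exact absurd (Finset.mem_univ j) hj
  have mgo := mb_of_bl h_bl hBgo
  have mf := mb_of_bl h_bl hBf
  have mEt := mb_of_bl h_bl hBeta
  have mv := mb_of_bl h_bl hBv
  have mz := mb_of_bl h_bl hz
  have wj : ∀ (j : Fin 3), j ≠ 2 → ∀ (x : X3) (y : E3),
      zt r ((Function.update x j y) 2) = zt r (x 2) := by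
    intro j hj x y
    rw [Function.update_of_ne (Ne.symm hj)]
  -- the gradient form in the variables 0, 1
  have hD : ∀ j : Fin 3, j ≠ 2 → Dj j go (vv r go) = Dj j (fun x => go x * zt r (x 2)) (eta r go) := by
    intro j hj
    rw [(h_form.1 j go (vv r go) go hBgo hBv hBgo 0).1]
    have e1 := h_form.2.2.2.2.2 j (fun x => zt r (x 2)) (eta r go) go hz hBeta hBgo (wj j hj)
    have e2 := h_form.2.2.2.2.2 j (fun x => zt r (x 2)) go (eta r go) hz hBgo hBeta (wj j hj)
    rw [vv_eq, e1]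
    have e3 : (fun x => go x * zt r (x 2)) = fun x => zt r (x 2) * go x := by
      funext x; ring
    rw [e3, e2]
    refine Finset.sum_congr rfl (fun c _ => ?_)
    refine integral_congr_ae (Filter.Eventually.of_forall (fun x => ?_))
    simp only
    ring
  have hD2 : Dj 2 (fun x => go x * zt r (x 2)) (eta r go) = 0 := by
    unfold Dj
    simp only [pd_ind h_prod hind, mul_zero, integral_zero, Finset.sum_const_zero]
  have hDD : DD (eta r go) (eta r go) = Dj 0 go (vv r go) + Dj 1 go (vv r go) := by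
    have h1 : DD (eta r go) (eta r go) = DD (fun x => go x * zt r (x 2)) (eta r go) :=
      (h_comm r _ hr hf).2.1 _ heta
    rw [h1, hD 0 (by decide), hD 1 (by decide)]
    unfold DD
    rw [Fin.sum_univ_three, hD2, add_zero]
  have hip : ip go (vv r go) = ip (eta r go) (eta r go) := by
    unfold ip
    have h1 := fub h_prod (F := fun x => go x * zt r (x 2)) (G := eta r go)
      (mf.mul mEt).int hind
    have e : ∀ x, go x * vv r go x = (go x * zt r (x 2)) * eta r go x := by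
      intro x; rw [vv_eq]; ring
    simp only [e]
    rw [h1]
    rfl
  have hip2 : ip (eta r go) (eta r go) = ∫ x, (go x * zt r (x 2)) * eta r go x ∂pm := by
    unfold ip
    have h1 := fub h_prod (F := fun x => go x * zt r (x 2)) (G := eta r go)
      (mf.mul mEt).int hind
    rw [h1]
    rfl
  refine ⟨hBgo, heta, hBeta, hv, hBv, hDD, ?_, hip, ?_, ?_, ?_⟩
  · have h1 := fub h_prod (F := fun x => go x * zt r (x 2)) (G := fun x => V12 r a x * eta r go x)
      (mf.mul (hV.mul mEt)).int (fun x y => by simp only [hV2, hind])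
    have e : ∀ x, V12 r a x * go x * vv r go x
        = (go x * zt r (x 2)) * (V12 r a x * eta r go x) := by
      intro x; rw [vv_eq]; ring
    simp only [e]
    rw [h1]
    refine integral_congr_ae (Filter.Eventually.of_forall (fun x => ?_))
    simp only [eta]
    ring
  · intro j hj
    have e1 := h_form.2.2.2.2.2 j (fun x => zt r (x 2)) (eta r go) (vv r go) hz hBeta hBv (wj j hj)
    have e2 := h_form.2.2.2.2.2 j (fun x => zt r (x 2)) (vv r go) (eta r go) hz hBv hBeta (wj j hj)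
    have e3 := h_form.2.2.2.2.2 j (fun x => zt r (x 2) * zt r (x 2)) (eta r go) (eta r go) hzz
      hBeta hBeta (fun x y => by simp only [wj j hj])
    have h1 : Dj j (vv r go) (vv r go) = Dj j (fun x => zt r (x 2) * vv r go x) (eta r go) := by
      have e0 : Dj j (vv r go) (vv r go)
          = Dj j (fun x => zt r (x 2) * eta r go x) (vv r go) := by
        rw [← vv_eq r go]
      rw [e2, e0, e1]
      refine Finset.sum_congr rfl (fun c _ => ?_)
      refine integral_congr_ae (Filter.Eventually.of_forall (fun x => ?_))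
      simp only
      ring
    have h2 : (fun x => zt r (x 2) * vv r go x)
        = fun x => (zt r (x 2) * zt r (x 2)) * eta r go x := by
      funext x; rw [vv_eq]; ring
    rw [h1, h2, e3]
    unfold Dj
    refine Finset.sum_le_sum (fun c _ => ?_)
    have mp : MB (pd j c (eta r go)) :=
      ⟨((h_bl.2.2.1 _ hBeta).2.2.2.1 j c).1, ((h_bl.2.2.1 _ hBeta).2.2.2.1 j c).2⟩
    refine integral_mono ((mz.mul mz).mul (mp.mul mp)).int (mp.mul mp).int (fun x => ?_)
    simp only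
    have h3 : zt r (x 2) * zt r (x 2) ≤ 1 := by
      have := zt_nonneg r (x 2)
      have := zt_le r (x 2)
      nlinarith
    have h4 : 0 ≤ pd j c (eta r go) x * pd j c (eta r go) x := mul_self_nonneg _
    nlinarith
  · unfold ip
    refine integral_mono (mv.mul mv).int (mEt.mul mEt).int (fun x => ?_)
    simp only [vv_eq]
    have h3 : zt r (x 2) * zt r (x 2) ≤ 1 := by
      have := zt_nonneg r (x 2)
      have := zt_le r (x 2)
      nlinarith
    have h4 : 0 ≤ eta r go x * eta r go x := mul_self_nonneg _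
    nlinarith
  · have h0 : 0 ≤ ip (eta r go) (eta r go) := by
      unfold ip; exact integral_nonneg (fun x => mul_self_nonneg _)
    have h1 := cs mf mEt
    rw [← hip2] at h1
    have h2 : ip (eta r go) (eta r go) = ∫ x, eta r go x ^ 2 ∂pm := by
      unfold ip; simp only [pow_two]
    have h3 : ∫ x, (go x * zt r (x 2)) ^ 2 ∂pm ≤ ip go go := by
      unfold ip
      refine integral_mono mf.sq.int (mgo.mul mgo).int (fun x => ?_)
      simp only
      have h3 : zt r (x 2) ^ 2 ≤ 1 := by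
        have := zt_nonneg r (x 2)
        have := zt_le r (x 2)
        nlinarith
      have h4 : 0 ≤ go x ^ 2 := sq_nonneg _
      nlinarith
    rw [← h2, abs_of_nonneg h0] at h1
    have h5 : √(∫ x, (go x * zt r (x 2)) ^ 2 ∂pm) ≤ √(ip go go) := Real.sqrt_le_sqrt h3
    by_cases hN : √(ip (eta r go) (eta r go)) = 0
    · rw [hN]; exact Real.sqrt_nonneg _
    · have hN' : 0 < √(ip (eta r go) (eta r go)) := lt_of_le_of_ne (Real.sqrt_nonneg _) (Ne.symm hN)
      have h6 : √(ip (eta r go) (eta r go)) * √(ip (eta r go) (eta r go))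
        ≤ √(ip go go) * √(ip (eta r go) (eta r go)) := by
        rw [Real.mul_self_sqrt h0]
        exact h1.trans (mul_le_mul_of_nonneg_right h5 hN'.le)
      exact le_of_mul_le_mul_right h6 hN'

/-! ### numbers -/

lemma num1 {g0 K1 K2 X N : ℝ} (hg : 0 < g0) (hK1 : 0 ≤ K1) (hK2 : 0 ≤ K2) (hX : 0 < X)
    (h : g0 / 8 * N ^ 2 ≤ K1 * X ^ 2 + K2 * (X * N)) :
    N ≤ (1 + 8 * (K1 + K2) / g0) * X := by
  by_contra hc
  push Not at hc
  have hK3 : 1 ≤ 1 + 8 * (K1 + K2) / g0 := by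
    have : 0 ≤ 8 * (K1 + K2) / g0 := by positivity
    linarith
  have hXN : X < N := by nlinarith
  have hN : 0 < N := by linarith
  have h1 : K1 * X ^ 2 ≤ K1 * (X * N) := by
    apply mul_le_mul_of_nonneg_left _ hK1
    nlinarith
  have h2 : g0 / 8 * N ^ 2 ≤ (K1 + K2) * (X * N) := by linarith
  have h3 : g0 / 8 * N ≤ (K1 + K2) * X := by
    have : g0 / 8 * N * N ≤ (K1 + K2) * X * N := by nlinarith
    exact le_of_mul_le_mul_right this hN
  have h4 : g0 / 8 * ((1 + 8 * (K1 + K2) / g0) * X) < g0 / 8 * N :=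
    mul_lt_mul_of_pos_left hc (by positivity)
  have h5 : g0 / 8 * ((1 + 8 * (K1 + K2) / g0) * X) = g0 / 8 * X + (K1 + K2) * X := by
    field_simp
  have h6 : 0 < g0 / 8 * X := by positivity
  linarith

lemma num2 {g0 N Q K1 Cb P R E G sc C3 Cw S Sd e16 e8 e2 : ℝ} (hg : 0 < g0) (hN : 0 ≤ N)
    (hP : 0 ≤ P) (hP1 : P ≤ 1) (hR : 0 ≤ R) (hR1 : R ≤ 1) (hE : 0 < E) (hE1 : E ≤ 1)
    (hCb : 0 ≤ Cb) (hC3 : 0 ≤ C3) (hCw : 0 ≤ Cw) (hK1 : 0 ≤ K1) (hS : 0 ≤ S)
    (he16 : e16 ≤ g0 / 8) (he8 : e8 = E ^ 8) (he2 : e2 = E ^ 2)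
    (h1 : g0 / 4 * N ^ 2 - e16 * N ^ 2 ≤ Q)
    (h2 : Q ≤ e8 * K1 + Cb * P * (G * N) + Cb * R * (sc * N) + C3 * (P ^ 2 + e2) * N ^ 2
      + Cw * e2 * N * Sd)
    (hNG : N ≤ G) (hG : G ≤ S * (R + E)) (hsc : sc ≤ S * (P + E)) (hSd : Sd ≤ S) :
    N ≤ (1 + 8 * (K1 + (2 * Cb + 3 * C3 + Cw) * S) / g0) * (P * R + E) := by
  have hX : 0 < P * R + E := by positivity
  have hPR : 0 ≤ P * R := by positivity
  apply num1 hg hK1 (by positivity) hX
  have a1 : g0 / 8 * N ^ 2 ≤ g0 / 4 * N ^ 2 - e16 * N ^ 2 := by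
    have : e16 * N ^ 2 ≤ g0 / 8 * N ^ 2 := mul_le_mul_of_nonneg_right he16 (sq_nonneg N)
    nlinarith
  have a2 : e8 * K1 ≤ K1 * (P * R + E) ^ 2 := by
    rw [he8, mul_comm]
    apply mul_le_mul_of_nonneg_left _ hK1
    have e1 : E ^ 8 ≤ E ^ 2 := pow_le_pow_of_le_one hE.le hE1 (by norm_num)
    have e2 : E ^ 2 ≤ (P * R + E) ^ 2 := pow_le_pow_left₀ hE.le (by linarith) 2
    linarith
  have a3 : Cb * P * (G * N) ≤ Cb * S * ((P * R + E) * N) := by
    have e1 : P * G ≤ S * (P * R + E) := by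
      calc P * G ≤ P * (S * (R + E)) := mul_le_mul_of_nonneg_left hG hP
        _ = S * (P * R + P * E) := by ring
        _ ≤ S * (P * R + E) := by
          apply mul_le_mul_of_nonneg_left _ hS
          have : P * E ≤ 1 * E := mul_le_mul_of_nonneg_right hP1 hE.le
          linarith
    have e2 : Cb * P * (G * N) = Cb * N * (P * G) := by ring
    have e3 : Cb * S * ((P * R + E) * N) = Cb * N * (S * (P * R + E)) := by ring
    rw [e2, e3]
    exact mul_le_mul_of_nonneg_left e1 (by positivity)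
  have a4 : Cb * R * (sc * N) ≤ Cb * S * ((P * R + E) * N) := by
    have e1 : R * sc ≤ S * (P * R + E) := by
      calc R * sc ≤ R * (S * (P + E)) := mul_le_mul_of_nonneg_left hsc hR
        _ = S * (P * R + R * E) := by ring
        _ ≤ S * (P * R + E) := by
          apply mul_le_mul_of_nonneg_left _ hS
          have : R * E ≤ 1 * E := mul_le_mul_of_nonneg_right hR1 hE.le
          linarith
    have e2 : Cb * R * (sc * N) = Cb * N * (R * sc) := by ring
    have e3 : Cb * S * ((P * R + E) * N) = Cb * N * (S * (P * R + E)) := by ring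
    rw [e2, e3]
    exact mul_le_mul_of_nonneg_left e1 (by positivity)
  have hEE : E ^ 2 ≤ E := by nlinarith
  have a5 : C3 * (P ^ 2 + e2) * N ^ 2 ≤ 3 * C3 * S * ((P * R + E) * N) := by
    have e0 : N ≤ S * (R + E) := hNG.trans hG
    have e1 : (P ^ 2 + E ^ 2) * N ≤ 3 * (S * (P * R + E)) := by
      calc (P ^ 2 + E ^ 2) * N ≤ (P ^ 2 + E ^ 2) * (S * (R + E)) :=
            mul_le_mul_of_nonneg_left e0 (by positivity)
        _ = S * ((P ^ 2 + E ^ 2) * (R + E)) := by ring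
        _ ≤ S * (3 * (P * R + E)) := by
          apply mul_le_mul_of_nonneg_left _ hS
          have f1 : P ^ 2 * R ≤ P * R := by
            apply mul_le_mul_of_nonneg_right _ hR; nlinarith
          have f2 : P ^ 2 * E ≤ 1 * E := by
            apply mul_le_mul_of_nonneg_right _ hE.le; nlinarith
          have f3 : E ^ 2 * R ≤ E ^ 2 * 1 := mul_le_mul_of_nonneg_left hR1 (by positivity)
          have f4 : E ^ 2 * E ≤ 1 * E := by
            apply mul_le_mul_of_nonneg_right _ hE.le; nlinarith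
          nlinarith
        _ = _ := by ring
    rw [he2]
    have e2 : C3 * (P ^ 2 + E ^ 2) * N ^ 2 = C3 * N * ((P ^ 2 + E ^ 2) * N) := by ring
    have e3 : 3 * C3 * S * ((P * R + E) * N) = C3 * N * (3 * (S * (P * R + E))) := by ring
    rw [e2, e3]
    exact mul_le_mul_of_nonneg_left e1 (by positivity)
  have a6 : Cw * e2 * N * Sd ≤ Cw * S * ((P * R + E) * N) := by
    rw [he2]
    have e1 : E ^ 2 ≤ P * R + E := by linarith
    calc Cw * E ^ 2 * N * Sd ≤ Cw * E ^ 2 * N * S :=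
          mul_le_mul_of_nonneg_left hSd (by positivity)
      _ = Cw * S * N * E ^ 2 := by ring
      _ ≤ Cw * S * N * (P * R + E) := mul_le_mul_of_nonneg_left e1 (by positivity)
      _ = _ := by ring
  have : (2 * Cb + 3 * C3 + Cw) * S * ((P * R + E) * N)
    = Cb * S * ((P * R + E) * N) + Cb * S * ((P * R + E) * N)
      + 3 * C3 * S * ((P * R + E) * N) + Cw * S * ((P * R + E) * N) := by ring
  rw [this]
  linarith

/-! ### the parts of the estimate -/

/-- the `W` term -/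
lemma stageW [IsProbabilityMeasure pm] (h_prod : S_prod) (h_bl : S_bl) (h_sym : S_sym)
    {r a l Cb : ℝ} (hr : 0 < r) {g φ go : X3 → ℝ} (hgo' : go = pod g) (hW : MB (W3 r a l))
    (hg : BL g) (hgo : BL go) (hφ : Box S2 r φ) (hφe : ∀ x, φ (H.piv x) = φ x)
    (hgg : ip g g = 1) (hφφ : ip φ φ = 1)
    (heta : Box S2 r (eta r go)) (heo : ∀ x, eta r go (H.piv x) = - eta r go x)
    (hv : BL (vv r go))
    (hWb : ∀ x, |W3 r a l x| ≤ Cb * r ^ 2 / l ^ 3)
    (hWo : ∀ x, |W3 r a l x - W3 r a l (H.piv x)| ≤ Cb * r ^ 2 * a / l ^ 4)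
    (hN : ∀ x, ∫ y, kz r ‖y‖ * W3 r a l (Function.update x 2 y) ∂hm = 0) :
    |∫ x, W3 r a l x * g x * vv r go x ∂pm| ≤
      Cb * r ^ 2 / l ^ 3 * (√(ip go go) * √(ip (vv r go) (vv r go)))
      + Cb * r ^ 2 * a / l ^ 4 * (√(1 - ip φ g ^ 2) * √(ip (vv r go) (vv r go))) := by
  have hBφ : BL φ := h_bl.2.2.2.1 S2 r _ hφ hr ⟨0, by simp [S2]⟩
  have hBe : BL (eta r go) := h_bl.2.2.2.1 S2 r _ heta hr ⟨0, by simp [S2]⟩
  have hz : BL (fun x : X3 => zt r (x 2)) := h_bl.2.2.2.2.2 (zt r) 2 (zt_LC1 hr)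
  have mz := mb_of_bl h_bl hz
  have mφ := mb_of_bl h_bl hBφ
  have me := mb_of_bl h_bl hBe
  have mg := mb_of_bl h_bl hg
  have mgo := mb_of_bl h_bl hgo
  have mv := mb_of_bl h_bl hv
  obtain ⟨c, hc⟩ : ∃ c : ℝ, c = ip φ g := ⟨_, rfl⟩
  have mw : MB (fun x => (g x - go x) - c * φ x) := (mg.sub mgo).sub ((MB.const c).mul mφ)
  have hsq : ∀ F : X3 → ℝ, ∫ x, F x ^ 2 ∂pm = ip F F := by
    intro F; unfold ip; simp only [pow_two]
  -- Newton
  have hn : ∫ x, W3 r a l x * φ x * vv r go x ∂pm = 0 := by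
    have e : ∀ x, W3 r a l x * φ x * vv r go x
        = (W3 r a l x * zt r (x 2)) * (φ x * eta r go x) := by
      intro x; rw [vv_eq]; ring
    simp only [e]
    rw [fub h_prod (F := fun x => W3 r a l x * zt r (x 2)) (G := fun x => φ x * eta r go x)
      ((hW.mul mz).mul (mφ.mul me)).int (fun x y => by
        simp only [hφ.ind 2 (by decide), heta.ind 2 (by decide)])]
    have h0 : ∀ x, Pj 2 (fun x => W3 r a l x * zt r (x 2)) x = 0 := by
      intro x
      unfold Pj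
      rw [← hN x]
      refine integral_congr_ae (Filter.Eventually.of_forall (fun y => ?_))
      simp only [Function.update_self]
      rw [mul_comm]
      rfl
    simp only [h0, zero_mul, integral_zero]
  have hsplit : ∫ x, W3 r a l x * g x * vv r go x ∂pm
      = (∫ x, W3 r a l x * go x * vv r go x ∂pm)
        + ∫ x, W3 r a l x * ((g x - go x) - c * φ x) * vv r go x ∂pm := by
    have e : ∀ x, W3 r a l x * g x * vv r go x = W3 r a l x * go x * vv r go x
        + (W3 r a l x * ((g x - go x) - c * φ x) * vv r go x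
          + c * (W3 r a l x * φ x * vv r go x)) := by intro x; ring
    simp only [e]
    have i1 : Integrable (fun x => W3 r a l x * ((g x - go x) - c * φ x) * vv r go x
          + c * (W3 r a l x * φ x * vv r go x)) pm :=
      ((hW.mul mw).mul mv).int.add (((hW.mul mφ).mul mv).int.const_mul c)
    rw [integral_add ((hW.mul mgo).mul mv).int i1,
      integral_add ((hW.mul mw).mul mv).int (((hW.mul mφ).mul mv).int.const_mul c),
      integral_const_mul, hn, mul_zero, add_zero]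
  have b1 := cs3 hW mgo mv hWb
  have hge : ∀ x, g (H.piv x) - go (H.piv x) = g x - go x := by
    intro x
    subst hgo'
    simp only [pod, piv_piv]
    ring
  have hgoo : ∀ x, go (H.piv x) = - go x := by
    intro x
    subst hgo'
    simp only [pod, piv_piv]
    ring
  have hvo : ∀ x, vv r go (H.piv x) = - vv r go x := by
    intro x
    simp only [vv_eq, heo]
    have : zt r (H.piv x 2) = zt r (x 2) := by
      have : H.piv x 2 = - x 2 := by simp [H.piv]
      rw [this, zt_neg]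
    rw [this]; ring
  have b2 := odd_bd h_sym hW mw mv hWo (fun x => by
    simp only [hge, hφe, hvo]; ring)
  rw [hsplit]
  refine (abs_add_le _ _).trans (add_le_add ?_ ?_)
  · rw [hsq, hsq] at b1
    exact b1
  · rw [hsq (vv r go)] at b2
    refine b2.trans ?_
    have hM0 : 0 ≤ Cb * r ^ 2 * a / l ^ 4 := (abs_nonneg _).trans (hWo 0)
    apply mul_le_mul_of_nonneg_left _ hM0
    apply mul_le_mul_of_nonneg_right _ (Real.sqrt_nonneg _)
    apply Real.sqrt_le_sqrt
    -- `∫ (ge - c φ)² ≤ 1 - c²`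
    have o1 : ∫ x, ((g x - go x) - c * φ x) * go x ∂pm = 0 := by
      apply int_odd h_sym
      intro x
      rw [hge, hφe, hgoo]; ring
    have o2 : ∫ x, (g x - c * φ x) ^ 2 ∂pm = 1 - c ^ 2 := by
      have e : ∀ x, (g x - c * φ x) ^ 2 = g x * g x + ((-2 * c) * (φ x * g x)
          + c ^ 2 * (φ x * φ x)) := by intro x; ring
      simp only [e]
      have i1 : Integrable (fun x => (-2 * c) * (φ x * g x) + c ^ 2 * (φ x * φ x)) pm :=
        ((mφ.mul mg).int.const_mul _).add ((mφ.mul mφ).int.const_mul _)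
      rw [integral_add (mg.mul mg).int i1,
        integral_add ((mφ.mul mg).int.const_mul _) ((mφ.mul mφ).int.const_mul _),
        integral_const_mul, integral_const_mul]
      have f1 : ∫ x, g x * g x ∂pm = 1 := hgg
      have f2 : ∫ x, φ x * g x ∂pm = c := hc.symm
      have f3 : ∫ x, φ x * φ x ∂pm = 1 := hφφ
      rw [f1, f2, f3]; ring
    have o3 : ∫ x, (g x - c * φ x) ^ 2 ∂pm = (∫ x, ((g x - go x) - c * φ x) ^ 2 ∂pm)
        + ∫ x, go x ^ 2 ∂pm := by
      have e : ∀ x, (g x - c * φ x) ^ 2 = ((g x - go x) - c * φ x) ^ 2 + (go x ^ 2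
          + 2 * (((g x - go x) - c * φ x) * go x)) := by intro x; ring
      simp only [e]
      have i1 : Integrable (fun x => go x ^ 2
          + 2 * (((g x - go x) - c * φ x) * go x)) pm :=
        mgo.sq.int.add ((mw.mul mgo).int.const_mul _)
      rw [integral_add mw.sq.int i1, integral_add mgo.sq.int ((mw.mul mgo).int.const_mul _),
        integral_const_mul, o1, mul_zero, add_zero]
    have o4 : 0 ≤ ∫ x, go x ^ 2 ∂pm := integral_nonneg (fun x => sq_nonneg _)
    rw [← hc]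
    linarith

/-- the dipole integral -/
lemma stageI [IsProbabilityMeasure pm] (h_prod : S_prod) (h_bl : S_bl)
    {r τ : ℝ} (hr : 0 < r) {φ go : X3 → ℝ} (hφ : Box S2 r φ) (hφφ : ip φ φ = 1)
    (hgo : BL go) (heta : Box S2 r (eta r go)) (hτ : ∫ y, (1 - zt r y) ^ 2 ∂hm ≤ τ) :
    |∫ x, φ x * (x 0 0 + x 1 0) * go x ∂pm| ≤
      2 * r * √(ip (eta r go) (eta r go)) + √(ip go go) * (2 * r * √τ) := by
  have hBφ : BL φ := h_bl.2.2.2.1 S2 r _ hφ hr ⟨0, by simp [S2]⟩
  have hBe : BL (eta r go) := h_bl.2.2.2.1 S2 r _ heta hr ⟨0, by simp [S2]⟩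
  have hz : BL (fun x : X3 => zt r (x 2)) := h_bl.2.2.2.2.2 (zt r) 2 (zt_LC1 hr)
  have mz := mb_of_bl h_bl hz
  have mφ := mb_of_bl h_bl hBφ
  have me := mb_of_bl h_bl hBe
  have mgo := mb_of_bl h_bl hgo
  have hco : ∀ (j : Fin 3), Measurable (fun x : X3 => x j 0) := by
    intro j
    have : Continuous (fun x : X3 => x j 0) := by fun_prop
    exact this.measurable
  have hGle : ∀ x, |φ x * (x 0 0 + x 1 0)| ≤ 2 * r * |φ x| := by
    intro x
    by_cases h0 : φ x = 0
    · simp [h0]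
    · have h1 := hφ.supp x h0 0 (by decide)
      have h2 := hφ.supp x h0 1 (by decide)
      have h3 : |x 0 0| ≤ ‖x 0‖ := by
        have := PiLp.norm_apply_le (x 0) 0
        simpa using this
      have h4 : |x 1 0| ≤ ‖x 1‖ := by
        have := PiLp.norm_apply_le (x 1) 0
        simpa using this
      rw [abs_mul, mul_comm]
      apply mul_le_mul_of_nonneg_right _ (abs_nonneg _)
      refine (abs_add_le _ _).trans ?_
      linarith
  have mG : MB (fun x => φ x * (x 0 0 + x 1 0)) := by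
    refine ⟨mφ.meas.mul ((hco 0).add (hco 1)), ?_⟩
    obtain ⟨B, hB⟩ := mφ.bdd
    exact ⟨2 * r * B, fun x => (hGle x).trans (mul_le_mul_of_nonneg_left (hB x) (by positivity))⟩
  have hGind : ∀ (x : X3) (y : E3), φ (Function.update x 2 y) *
      ((Function.update x 2 y) 0 0 + (Function.update x 2 y) 1 0) = φ x * (x 0 0 + x 1 0) := by
    intro x y
    rw [hφ.ind 2 (by decide), Function.update_of_ne (by decide), Function.update_of_ne (by decide)]
  have hsq : ∀ F : X3 → ℝ, ∫ x, F x ^ 2 ∂pm = ip F F := by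
    intro F; unfold ip; simp only [pow_two]
  have hG2 : ∀ x, (φ x * (x 0 0 + x 1 0)) ^ 2 ≤ (2 * r) ^ 2 * φ x ^ 2 := by
    intro x
    rw [← sq_abs (φ x * (x 0 0 + x 1 0)), ← sq_abs (φ x), ← mul_pow]
    exact pow_le_pow_left₀ (abs_nonneg _) (hGle x) 2
  have mm : MB (fun x => (1 - zt r (x 2)) * (φ x * (x 0 0 + x 1 0))) :=
    ((MB.const 1).sub mz).mul mG
  have hsplit : ∫ x, φ x * (x 0 0 + x 1 0) * go x ∂pm
      = (∫ x, eta r go x * (φ x * (x 0 0 + x 1 0)) ∂pm)
        + ∫ x, go x * ((1 - zt r (x 2)) * (φ x * (x 0 0 + x 1 0))) ∂pm := by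
    have e : ∀ x : X3, φ x * (x 0 0 + x 1 0) * go x
        = (go x * zt r (x 2)) * (φ x * (x 0 0 + x 1 0))
          + go x * ((1 - zt r (x 2)) * (φ x * (x 0 0 + x 1 0))) := by intro x; ring
    simp only [e]
    rw [integral_add ((mgo.mul mz).mul mG).int (mgo.mul mm).int,
      fub h_prod (F := fun x => go x * zt r (x 2)) (G := fun x => φ x * (x 0 0 + x 1 0))
        ((mgo.mul mz).mul mG).int hGind]
    rfl
  have c1 := cs me mG
  have c2 := cs mgo mm
  have d1 : √(∫ x, (φ x * (x 0 0 + x 1 0)) ^ 2 ∂pm) ≤ 2 * r := by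
    have : ∫ x, (φ x * (x 0 0 + x 1 0)) ^ 2 ∂pm ≤ (2 * r) ^ 2 := by
      calc ∫ x, (φ x * (x 0 0 + x 1 0)) ^ 2 ∂pm ≤ ∫ x, (2 * r) ^ 2 * φ x ^ 2 ∂pm :=
            integral_mono mG.sq.int (mφ.sq.int.const_mul _) hG2
        _ = (2 * r) ^ 2 := by rw [integral_const_mul, hsq, hφφ, mul_one]
    calc √(∫ x, (φ x * (x 0 0 + x 1 0)) ^ 2 ∂pm) ≤ √((2 * r) ^ 2) := Real.sqrt_le_sqrt this
      _ = 2 * r := Real.sqrt_sq (by positivity)
  have hτ0 : 0 ≤ τ := le_trans (integral_nonneg (fun y => sq_nonneg _)) hτ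
  have d2 : √(∫ x, ((1 - zt r (x 2)) * (φ x * (x 0 0 + x 1 0))) ^ 2 ∂pm) ≤ 2 * r * √τ := by
    have m1 : MB (fun x : X3 => (1 - zt r (x 2)) ^ 2) := ((MB.const 1).sub mz).sq
    have : ∫ x, ((1 - zt r (x 2)) * (φ x * (x 0 0 + x 1 0))) ^ 2 ∂pm ≤ (2 * r) ^ 2 * τ := by
      calc ∫ x, ((1 - zt r (x 2)) * (φ x * (x 0 0 + x 1 0))) ^ 2 ∂pm
          ≤ ∫ x, (2 * r) ^ 2 * ((1 - zt r (x 2)) ^ 2 * φ x ^ 2) ∂pm := by
            refine integral_mono mm.sq.int ((m1.mul mφ.sq).int.const_mul _) (fun x => ?_)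
            simp only
            rw [mul_pow]
            calc (1 - zt r (x 2)) ^ 2 * (φ x * (x 0 0 + x 1 0)) ^ 2
                ≤ (1 - zt r (x 2)) ^ 2 * ((2 * r) ^ 2 * φ x ^ 2) :=
                  mul_le_mul_of_nonneg_left (hG2 x) (sq_nonneg _)
              _ = _ := by ring
        _ = (2 * r) ^ 2 * ∫ x, (1 - zt r (x 2)) ^ 2 * φ x ^ 2 ∂pm := by rw [integral_const_mul]
        _ = (2 * r) ^ 2 * ((∫ y, (1 - zt r y) ^ 2 ∂hm) * 1) := by
            rw [fub h_prod (F := fun x : X3 => (1 - zt r (x 2)) ^ 2) (G := fun x => φ x ^ 2)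
              (m1.mul mφ.sq).int (fun x y => by simp only [hφ.ind 2 (by decide)])]
            have h0 : ∀ x, Pj 2 (fun x : X3 => (1 - zt r (x 2)) ^ 2) x
                = ∫ y, (1 - zt r y) ^ 2 ∂hm := by
              intro x
              unfold Pj
              simp only [Function.update_self]
            simp only [h0]
            rw [integral_const_mul, hsq, hφφ]
        _ ≤ (2 * r) ^ 2 * τ := by
            rw [mul_one]
            exact mul_le_mul_of_nonneg_left hτ (sq_nonneg _)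
    calc √(∫ x, ((1 - zt r (x 2)) * (φ x * (x 0 0 + x 1 0))) ^ 2 ∂pm)
        ≤ √((2 * r) ^ 2 * τ) := Real.sqrt_le_sqrt this
      _ = 2 * r * √τ := by rw [Real.sqrt_mul (sq_nonneg _), Real.sqrt_sq (by positivity)]
  rw [hsplit]
  refine (abs_add_le _ _).trans (add_le_add ?_ ?_)
  · refine c1.trans ?_
    rw [hsq, mul_comm]
    exact mul_le_mul_of_nonneg_right d1 (Real.sqrt_nonneg _)
  · refine c2.trans ?_
    rw [hsq go]
    exact mul_le_mul_of_nonneg_left d2 (Real.sqrt_nonneg _)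

/-- bounds for the form of the test function -/
lemma stageD (h_form : S_form) {r C3 Cw N e2 : ℝ} {go : X3 → ℝ}
    (hBgo : BL go) (hBe : BL (eta r go)) (hBv : BL (vv r go)) (hC3 : 0 ≤ C3) (hCw : 0 ≤ Cw)
    (hN : 0 ≤ N) (hN2 : N ^ 2 ≤ 4 * C3) (he2 : 0 ≤ e2) (he21 : e2 ≤ 1)
    (hDD : DD (eta r go) (eta r go) = Dj 0 go (vv r go) + Dj 1 go (vv r go))
    (hDj : ∀ j : Fin 3, j ≠ 2 → Dj j (vv r go) (vv r go) ≤ Dj j (eta r go) (eta r go))
    (hgo : DD go go ≤ C3)
    (hl : |Dj 2 (vv r go) (vv r go)| ≤ Cw * e2 * N * √(Dj 2 (vv r go) (vv r go))) :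
    DD (vv r go) (vv r go) ≤ C3 + 4 * Cw ^ 2 * C3 ∧ Dj 2 go go ≤ C3 := by
  have pos : ∀ (j : Fin 3) (f : X3 → ℝ), BL f → 0 ≤ Dj j f f := fun j f hf =>
    (h_form.1 j f f f hf hf hf 0).2.1
  have hsum : ∀ f : X3 → ℝ, DD f f = Dj 0 f f + Dj 1 f f + Dj 2 f f := by
    intro f; unfold DD; rw [Fin.sum_univ_three]
  have amgm : ∀ j : Fin 3, j ≠ 2 → Dj j go (vv r go) ≤
      (Dj j go go + Dj j (eta r go) (eta r go)) / 2 := by
    intro j hj
    have h1 := (h_form.1 j go (vv r go) go hBgo hBv hBgo 0).2.2.2.2.2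
    have h2 := Real.sqrt_le_sqrt (hDj j hj)
    have h3 : Dj j go (vv r go) ≤ √(Dj j go go) * √(Dj j (eta r go) (eta r go)) :=
      (le_abs_self _).trans (h1.trans (mul_le_mul_of_nonneg_left h2 (Real.sqrt_nonneg _)))
    have h4 := Real.sq_sqrt (pos j go hBgo)
    have h5 := Real.sq_sqrt (pos j (eta r go) hBe)
    nlinarith [sq_nonneg (√(Dj j go go) - √(Dj j (eta r go) (eta r go)))]
  have a0 := amgm 0 (by decide)
  have a1 := amgm 1 (by decide)
  have b0 := hDj 0 (by decide)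
  have b1 := hDj 1 (by decide)
  have p0 := pos 0 go hBgo
  have p1 := pos 1 go hBgo
  have p2 := pos 2 go hBgo
  have q2 := pos 2 (eta r go) hBe
  have s1 := hsum (eta r go)
  have s2 := hsum go
  have s3 := hsum (vv r go)
  have v2 := pos 2 (vv r go) hBv
  have hy : Dj 2 (vv r go) (vv r go) ≤ 4 * Cw ^ 2 * C3 := by
    rw [abs_of_nonneg v2] at hl
    have hy0 : 0 ≤ √(Dj 2 (vv r go) (vv r go)) := Real.sqrt_nonneg _
    have hy2 : √(Dj 2 (vv r go) (vv r go)) ^ 2 = Dj 2 (vv r go) (vv r go) := Real.sq_sqrt v2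
    have hy3 : √(Dj 2 (vv r go) (vv r go)) ≤ Cw * N := by
      by_contra hc
      push Not at hc
      have hpos : 0 < √(Dj 2 (vv r go) (vv r go)) := lt_of_le_of_lt (by positivity) hc
      have h6 : Cw * e2 * N * √(Dj 2 (vv r go) (vv r go)) ≤
          Cw * N * √(Dj 2 (vv r go) (vv r go)) := by
        apply mul_le_mul_of_nonneg_right _ hy0
        have : Cw * N * e2 ≤ Cw * N * 1 := mul_le_mul_of_nonneg_left he21 (by positivity)
        linarith
      have h7 : Cw * N * √(Dj 2 (vv r go) (vv r go)) <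
          √(Dj 2 (vv r go) (vv r go)) * √(Dj 2 (vv r go) (vv r go)) :=
        mul_lt_mul_of_pos_right hc hpos
      nlinarith
    have h8 : √(Dj 2 (vv r go) (vv r go)) ^ 2 ≤ (Cw * N) ^ 2 := pow_le_pow_left₀ hy0 hy3 2
    have h9 : (Cw * N) ^ 2 ≤ Cw ^ 2 * (4 * C3) := by
      rw [mul_pow]; exact mul_le_mul_of_nonneg_left hN2 (sq_nonneg _)
    linarith
  constructor <;> linarith

lemma tail_int (r Ct : ℝ) [IsProbabilityMeasure hm]
    (hCt : ∫ x : E3, (if r / 2 < ‖x‖ then ‖x‖ ^ 0 else 0) ∂hm ≤ Ct * Real.exp (-r / 4))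
    (hr : 1 ≤ r) : ∫ y, (1 - zt r y) ^ 2 ∂hm ≤ |Ct| * Real.exp (-r / 4) := by
  have h1 : ∫ y, (1 - zt r y) ^ 2 ∂hm ≤ ∫ x : E3, (if r / 2 < ‖x‖ then ‖x‖ ^ 0 else 0) ∂hm := by
    have hzm : Measurable (zt r) := by
      have : Continuous (zt r) := by unfold zt; fun_prop
      exact this.measurable
    have m2 : Measurable (fun x : E3 => if r / 2 < ‖x‖ then ‖x‖ ^ 0 else (0 : ℝ)) := by
      refine Measurable.ite (measurableSet_lt measurable_const measurable_norm) ?_ measurable_const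
      simp only [pow_zero]
      exact measurable_const
    refine integral_mono ?_ ?_ (fun y => ?_)
    · refine Integrable.mono' (integrable_const (1 : ℝ))
        ((measurable_const.sub hzm).pow_const 2).aestronglyMeasurable
        (Filter.Eventually.of_forall (fun y => ?_))
      have h1 := zt_nonneg r y
      have h2 := zt_le r y
      rw [Real.norm_eq_abs, abs_of_nonneg (sq_nonneg _)]
      nlinarith
    · refine Integrable.mono' (integrable_const (1 : ℝ)) m2.aestronglyMeasurable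
        (Filter.Eventually.of_forall (fun y => ?_))
      split_ifs <;> simp
    · simp only
      split_ifs with h
      · have h1 := zt_nonneg r y
        have h2 := zt_le r y
        simp only [pow_zero]
        nlinarith
      · push Not at h
        rw [zt_one (by linarith) h]
        norm_num
  refine h1.trans (hCt.trans ?_)
  exact mul_le_mul_of_nonneg_right (le_abs_self _) (Real.exp_pos _).le

end E5a

open E5a in
theorem p_E5 (h_hm : S_hm) (h_prod : S_prod) (h_bl : S_bl) (h_form : S_form) (h_sym : S_sym)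
    (h_comm : S_comm) (h_lift : S_lift) (h_wlist : S_wlist) (h_var : S_var) (h_uniq : S_uniq)
    (h_bounds : S_bounds) (h_avg : S_avg) (h_potsym : S_potsym) (h_E3 : S_E3) : S_E5 := by
  intro g0 hg0
  haveI : IsProbabilityMeasure hm := h_hm.1
  haveI : IsProbabilityMeasure pm := h_prod.1
  obtain ⟨C3, r3, hC3, hr3, hE3⟩ := h_E3 g0 hg0
  obtain ⟨M0, ru, hM0, hru, huniq⟩ := h_uniq g0 hg0
  obtain ⟨Cb, hCb, hbounds⟩ := h_bounds
  obtain ⟨Cw, hws, -⟩ := h_wlist
  obtain ⟨Ct, hCt⟩ := h_hm.2.2.2.2.2.1 0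
  have hg0p := hg0.pos
  have hCw : 0 ≤ Cw := hws.nonneg
  obtain ⟨S, hS⟩ : ∃ S : ℝ, S = √C3 := ⟨_, rfl⟩
  have hS0 : 0 ≤ S := by rw [hS]; exact Real.sqrt_nonneg _
  have hS2 : S ^ 2 = C3 := by rw [hS]; exact Real.sq_sqrt (by linarith)
  obtain ⟨K1, hK1⟩ : ∃ K1 : ℝ, K1 = √(9 * C3 + 4 * Cw ^ 2 * C3) := ⟨_, rfl⟩
  have hK10 : 0 ≤ K1 := by rw [hK1]; exact Real.sqrt_nonneg _
  obtain ⟨K3, hK3⟩ : ∃ K3 : ℝ, K3 = 1 + 8 * (K1 + (2 * Cb + 3 * C3 + Cw) * S) / g0 := ⟨_, rfl⟩
  have hK3' : 1 ≤ K3 := by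
    rw [hK3]
    have : 0 ≤ 8 * (K1 + (2 * Cb + 3 * C3 + Cw) * S) / g0 := by positivity
    linarith
  have hq1 : 0 ≤ Cb / M0 := by positivity
  have hq2 : 0 ≤ 8 / g0 := by positivity
  refine ⟨2 * K3 + 4 * S * √|Ct|, 2 + r3 + ru + 2 * Cb + Cb / M0 + 8 / g0, ?_,
    by linarith only [hr3, hru, hCb, hq1, hq2], ?_⟩
  · have : 0 ≤ 4 * S * √|Ct| := by positivity
    linarith only [this, hK3']
  intro r a l φ g hr hra hal hNM hφe hg
  have hr1 : 2 ≤ r := by linarith only [hr, hr3, hru, hCb, hq1, hq2]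
  have hr1' : 1 ≤ r := by linarith only [hr1]
  have hr0 : 0 < r := by linarith only [hr1]
  have hr3' : r3 ≤ r := by linarith only [hr, hr3, hru, hCb, hq1, hq2]
  have hru' : ru ≤ r := by linarith only [hr, hr3, hru, hCb, hq1, hq2]
  have hrb : 2 * Cb ≤ r := by linarith only [hr, hr3, hru, hCb, hq1, hq2]
  have hrM : Cb / M0 ≤ r := by linarith only [hr, hr3, hru, hCb, hq1, hq2]
  have hrg : 8 / g0 ≤ r := by linarith only [hr, hr3, hru, hCb, hq1, hq2]
  have hr4 : r ≤ r ^ 4 := le_self_pow₀ hr1' (by norm_num)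
  have h8 : 8 * r ≤ r ^ 4 := by
    have e1 : r ^ 4 = r ^ 3 * r := by ring
    have e2 : (2 : ℝ) ^ 3 ≤ r ^ 3 := pow_le_pow_left₀ (by norm_num) hr1 3
    rw [e1]
    apply mul_le_mul_of_nonneg_right _ hr0.le
    linarith only [e2]
  have h8a : 8 * r ≤ a := h8.trans hra
  have ha16 : 16 ≤ a := by linarith only [h8a, hr1]
  have ha1 : 1 ≤ a := by linarith only [ha16]
  have ha0 : 0 < a := by linarith only [ha16]
  have ha6 : 2 * a ≤ a ^ 6 := by
    have e1 : a ^ 6 = a ^ 5 * a := by ring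
    have e2 : (2 : ℝ) ^ 5 ≤ a ^ 5 := pow_le_pow_left₀ (by norm_num) (by linarith only [ha16]) 5
    rw [e1]
    apply mul_le_mul_of_nonneg_right _ ha0.le
    linarith only [e2]
  have h2al : 2 * a ≤ l := ha6.trans hal
  have hl1 : 1 ≤ l := by linarith only [h2al, ha16]
  have hl0 : 0 < l := by linarith only [hl1]
  obtain ⟨hVm, hWm, hVb, -, hWb, hWo⟩ := hbounds r a l hr1' h8a h2al
  obtain ⟨-, hN2, -, hV0, -, hVZ, -⟩ := h_avg r a l hr1' h8a h2al
  obtain ⟨hVp, hV2, -⟩ := h_potsym r a l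
  obtain ⟨hEE, hcc, hBgo, hDDg, hDDgo, hipgo⟩ := hE3 r a l φ g hr3' hra hal hNM hφe hg
  -- the size of the parameters
  obtain ⟨P, hP⟩ : ∃ P : ℝ, P = r ^ 2 / l ^ 3 := ⟨_, rfl⟩
  obtain ⟨R, hR⟩ : ∃ R : ℝ, R = r ^ 2 * a / l ^ 4 := ⟨_, rfl⟩
  obtain ⟨E, hE⟩ : ∃ E : ℝ, E = Real.exp (-r / 16) := ⟨_, rfl⟩
  have hE0 : 0 < E := by rw [hE]; exact Real.exp_pos _
  have hE1 : E ≤ 1 := by rw [hE]; exact Real.exp_le_one_iff.mpr (by linarith only [hr0])
  have he2 : Real.exp (-r / 8) = E ^ 2 := by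
    rw [hE, ← Real.exp_nat_mul]; congr 1; push_cast; ring
  have he4 : Real.exp (-r / 4) = E ^ 4 := by
    rw [hE, ← Real.exp_nat_mul]; congr 1; push_cast; ring
  have he16 : Real.exp (-r) = E ^ 16 := by
    rw [hE, ← Real.exp_nat_mul]; congr 1; push_cast; ring
  have hsq16 : √(Real.exp (-r)) = E ^ 8 := by
    rw [he16]
    have : E ^ 16 = (E ^ 8) ^ 2 := by ring
    rw [this, Real.sqrt_sq (by positivity)]
  have hP0 : 0 ≤ P := by rw [hP]; positivity
  have hR0 : 0 ≤ R := by rw [hR]; positivity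
  have hr2l : r ^ 2 ≤ l := by
    have : r ^ 2 ≤ r ^ 4 := pow_le_pow_right₀ hr1' (by norm_num)
    linarith only [this, hra, h2al, ha0]
  have hal' : a ≤ l := by linarith only [h2al, ha0]
  have har : r ≤ a := by linarith only [h8a, hr0]
  have hlr : r ≤ l := by linarith only [har, hal']
  have hP1 : P ≤ 1 := by
    rw [hP, div_le_one (by positivity)]
    exact hr2l.trans (le_self_pow₀ hl1 (by norm_num))
  have hR1 : R ≤ 1 := by
    rw [hR, div_le_one (by positivity)]
    calc r ^ 2 * a ≤ l * l := mul_le_mul hr2l hal' ha0.le hl0.le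
      _ = l ^ 2 := by ring
      _ ≤ l ^ 4 := pow_le_pow_right₀ hl1 (by norm_num)
  -- potentials are bounded
  have mV : MB (V12 r a) := ⟨hVm, _, hVb⟩
  have mW : MB (W3 r a l) := ⟨hWm, _, hWb⟩
  have hVM : Cb * r ^ 2 / a ^ 3 ≤ Cb / r := by
    rw [div_le_div_iff₀ (by positivity) hr0]
    have e1 : r ^ 2 * r ≤ a ^ 3 := by
      calc r ^ 2 * r = r ^ 3 := by ring
        _ ≤ a ^ 3 := pow_le_pow_left₀ hr0.le har 3
    calc Cb * r ^ 2 * r = Cb * (r ^ 2 * r) := by ring
      _ ≤ Cb * a ^ 3 := mul_le_mul_of_nonneg_left e1 (by linarith only [hCb])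
  have hWM : Cb * r ^ 2 / l ^ 3 ≤ Cb / r := by
    rw [div_le_div_iff₀ (by positivity) hr0]
    have e1 : r ^ 2 * r ≤ l ^ 3 := by
      calc r ^ 2 * r = r ^ 3 := by ring
        _ ≤ l ^ 3 := pow_le_pow_left₀ hr0.le hlr 3
    calc Cb * r ^ 2 * r = Cb * (r ^ 2 * r) := by ring
      _ ≤ Cb * l ^ 3 := mul_le_mul_of_nonneg_left e1 (by linarith only [hCb])
  have hCbr : Cb / r ≤ 1 / 2 := by
    rw [div_le_iff₀ hr0]; linarith only [hrb]
  have hCbM : Cb / r ≤ M0 := by
    rw [div_le_iff₀ hr0]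
    rw [div_le_iff₀ hM0] at hrM
    linarith only [hrM]
  have hU1 : ∀ x, |U3 r a l x| ≤ 1 := by
    intro x
    unfold U3
    refine (abs_add_le _ _).trans ?_
    linarith only [hVb x, hWb x, hVM, hWM, hCbr]
  have hUm : Measurable (U3 r a l) := by
    unfold U3; exact hVm.add hWm
  -- the functions
  have hS3ne : S3.Nonempty := ⟨0, by simp [S3]⟩
  have hS2ne : S2.Nonempty := ⟨0, by simp [S2]⟩
  have hBg : BL g := h_bl.2.2.2.1 S3 r _ hg.box hr0 hS3ne
  obtain ⟨go, hgo⟩ : ∃ go : X3 → ℝ, go = pod g := ⟨_, rfl⟩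
  rw [← hgo] at hBgo hDDgo hipgo ⊢
  have hgoo : ∀ x, go (H.piv x) = - go x := by
    intro x
    subst hgo
    simp only [pod, piv_piv]
    ring
  obtain ⟨hBLgo, hη, hBη, hv, hBv, hDD, hVI, hipv, hDj, hvle, hNG⟩ :=
    stage2 h_prod h_bl h_form h_comm hr0 hBgo mV hV2
  have hηo := eta_odd h_hm r hgoo
  have hvo : ∀ x, vv r go (H.piv x) = - vv r go x := by
    intro x
    simp only [vv_eq, hηo]
    have h0 : H.piv x 2 = - x 2 := by simp [H.piv]
    rw [h0, zt_neg]; ring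
  obtain ⟨hs1, hs2⟩ := stage1 h_bl h_form h_sym mV mW hVp hBg (by rw [← hgo]; exact hBLgo) hBv hvo
  rw [← hgo] at hs1 hs2
  -- the numbers `N`, `G`
  obtain ⟨N, hN⟩ : ∃ N : ℝ, N = √(ip (eta r go) (eta r go)) := ⟨_, rfl⟩
  obtain ⟨G, hG⟩ : ∃ G : ℝ, G = √(ip go go) := ⟨_, rfl⟩
  rw [← hN, ← hG] at hNG
  have hN0 : 0 ≤ N := by rw [hN]; exact Real.sqrt_nonneg _
  have hG0 : 0 ≤ G := by rw [hG]; exact Real.sqrt_nonneg _
  have hipη0 : 0 ≤ ip (eta r go) (eta r go) := by
    unfold ip; exact integral_nonneg (fun x => mul_self_nonneg _)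
  have hipgo0 : 0 ≤ ip go go := by
    unfold ip; exact integral_nonneg (fun x => mul_self_nonneg _)
  have hNsq : N ^ 2 = ip (eta r go) (eta r go) := by rw [hN]; exact Real.sq_sqrt hipη0
  have hvN : √(ip (vv r go) (vv r go)) ≤ N := by rw [hN]; exact Real.sqrt_le_sqrt hvle
  have hGle : G ≤ S * (R + E) := by
    have h1 : ip go go ≤ (S * (R + E)) ^ 2 := by
      refine hipgo.trans ?_
      rw [he2, mul_pow, hS2]
      apply mul_le_mul_of_nonneg_left _ (by linarith only [hC3])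
      have e1 : r ^ 4 * a ^ 2 / l ^ 8 = R ^ 2 := by
        rw [hR]; field_simp
      rw [e1]
      have e3 : (R + E) ^ 2 = R ^ 2 + E ^ 2 + 2 * (R * E) := by ring
      rw [e3]
      linarith only [mul_nonneg hR0 hE0.le]
    rw [hG]
    calc √(ip go go) ≤ √((S * (R + E)) ^ 2) := Real.sqrt_le_sqrt h1
      _ = S * (R + E) := Real.sqrt_sq (by positivity)
  have hcle : √(1 - ip φ g ^ 2) ≤ S * (P + E) := by
    have h1 : 1 - ip φ g ^ 2 ≤ (S * (P + E)) ^ 2 := by
      refine hcc.trans ?_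
      rw [he2, mul_pow, hS2]
      apply mul_le_mul_of_nonneg_left _ (by linarith only [hC3])
      have e1 : r ^ 4 / l ^ 6 = P ^ 2 := by
        rw [hP]; field_simp
      rw [e1]
      have e3 : (P + E) ^ 2 = P ^ 2 + E ^ 2 + 2 * (P * E) := by ring
      rw [e3]
      linarith only [mul_nonneg hP0 hE0.le]
    calc √(1 - ip φ g ^ 2) ≤ √((S * (P + E)) ^ 2) := Real.sqrt_le_sqrt h1
      _ = S * (P + E) := Real.sqrt_sq (by positivity)
  have hG2S : G ≤ 2 * S := by
    refine hGle.trans ?_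
    have : S * (R + E) ≤ S * 2 := mul_le_mul_of_nonneg_left (by linarith only [hR1, hE1]) hS0
    linarith only [this]
  have hN24 : N ^ 2 ≤ 4 * C3 := by
    have : N ^ 2 ≤ (2 * S) ^ 2 := pow_le_pow_left₀ hN0 (hNG.trans hG2S) 2
    rw [mul_pow, hS2] at this
    linarith only [this]
  -- the lift
  have hl1' := (h_lift (fun _ => 1) (fun _ => 0) Cw hws r S3 2 (eta r go) go hr1' hBη
    (hη.ind 2 (by decide)) hBgo (by simp [S3])).2
  have hl2' := (h_lift (fun _ => 1) (fun _ => 0) Cw hws r S3 2 (eta r go) (vv r go) hr1' hBη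
    (hη.ind 2 (by decide)) hv (by simp [S3])).2
  simp only [mul_zero, zero_mul, integral_zero, sub_zero] at hl1' hl2'
  change |Dj 2 (vv r go) go| ≤ _ at hl1'
  change |Dj 2 (vv r go) (vv r go)| ≤ _ at hl2'
  rw [← hN, he2] at hl1' hl2'
  rw [(h_form.1 2 (vv r go) go go hBv hBLgo hBLgo 0).1] at hl1'
  obtain ⟨hDDv, hD2go⟩ := stageD h_form hBLgo hBη hBv (by linarith only [hC3]) hCw hN0 hN24
    (by positivity) (pow_le_one₀ hE0.le hE1) hDD hDj hDDgo hl2'
  -- variational identity for `g`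
  have hvar := (h_var S3 r (U3 r a l) hS3ne hr1' hUm hU1).2.2.2 (Real.exp (-r)) g (vv r go)
    (Real.exp_pos _).le hg.box hg.norm hg.le hv
  rw [hsq16] at hvar
  have hK1b : √(DD (vv r go) (vv r go) + 2 * ip (vv r go) (vv r go)) ≤ K1 := by
    rw [hK1]
    apply Real.sqrt_le_sqrt
    have : ip (vv r go) (vv r go) ≤ 4 * C3 := by
      rw [hNsq] at hN24; exact hvle.trans hN24
    linarith only [this, hDDv]
  -- the gap of the pair
  have hgap := huniq S2 r (Cb * r ^ 2 / a ^ 3) (V12 r a) hS2ne hru' (by positivity)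
    (hVM.trans hCbM) hVm hVb hV0 hVZ φ (eta r go) hNM hη
  have hort : ip φ (eta r go) = 0 := by
    unfold ip
    apply int_odd h_sym
    intro x
    rw [hφe, hηo]; ring
  rw [hort] at hgap
  -- the `W` term
  have hWt := stageW h_prod h_bl h_sym hr0 hgo mW hBg hBLgo hNM.box hφe hg.norm hNM.norm hη hηo hBv
    hWb hWo (fun x => hN2 (kz r) x (kz_cont r))
  rw [← hG] at hWt
  have hDDgv : DD go (vv r go) = DD (eta r go) (eta r go) + Dj 2 go (vv r go) := by
    rw [hDD]; unfold DD; rw [Fin.sum_univ_three]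
  have hmain : N ≤ K3 * (P * R + E) := by
    rw [hK3]
    refine num2 (Q := BB (V12 r a) (eta r go) (eta r go)
        - EE S2 r (V12 r a) * ip (eta r go) (eta r go)) (e16 := E ^ 16) (e8 := E ^ 8)
        (e2 := E ^ 2) (G := G) (sc := √(1 - ip φ g ^ 2)) (Sd := √(Dj 2 go go)) hg0p hN0 hP0 hP1
        hR0 hR1 hE0 hE1 (by linarith only [hCb]) (by linarith only [hC3]) hCw hK10 hS0 ?_ rfl rfl ?_ ?_ hNG hGle hcle ?_
    · -- e^{-r} ≤ g0/8
      rw [← he16]
      have h1 : Real.exp (-r) ≤ 1 / r := by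
        rw [Real.exp_neg, one_div]
        apply inv_anti₀ hr0
        linarith only [Real.add_one_le_exp r]
      have h2 : 1 / r ≤ g0 / 8 := by
        rw [div_le_iff₀ hr0]
        rw [div_le_iff₀ hg0p] at hrg
        linarith only [hrg]
      linarith only [h1, h2]
    · rw [he16] at hgap
      rw [hNsq]
      have : (0 : ℝ) ^ 2 = 0 := by norm_num
      rw [this, sub_zero] at hgap
      linarith only [hgap]
    · have hBB : BB (V12 r a) (eta r go) (eta r go) = DD (eta r go) (eta r go)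
          + ∫ x, V12 r a x * eta r go x * eta r go x ∂pm := rfl
      have hid : BB (V12 r a) (eta r go) (eta r go)
          - EE S2 r (V12 r a) * ip (eta r go) (eta r go)
          = (BB (U3 r a l) g (vv r go) - EE S3 r (U3 r a l) * ip g (vv r go))
            - Dj 2 go (vv r go) - (∫ x, W3 r a l x * g x * vv r go x ∂pm)
            + (EE S3 r (U3 r a l) - EE S2 r (V12 r a)) * N ^ 2 := by
        rw [hs2, hs1, hipv, hVI, hBB, hDDgv, hNsq]
        ring
      rw [hid]
      have t1 : BB (U3 r a l) g (vv r go) - EE S3 r (U3 r a l) * ip g (vv r go)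
          ≤ E ^ 8 * K1 :=
        (le_abs_self _).trans (hvar.trans (mul_le_mul_of_nonneg_left hK1b (by positivity)))
      have t2 : - Dj 2 go (vv r go) ≤ Cw * E ^ 2 * N * √(Dj 2 go go) :=
        (neg_le_abs _).trans hl1'
      have t3 : - (∫ x, W3 r a l x * g x * vv r go x ∂pm)
          ≤ Cb * P * (G * N) + Cb * R * (√(1 - ip φ g ^ 2) * N) := by
        refine (neg_le_abs _).trans (hWt.trans ?_)
        have f1 : Cb * r ^ 2 / l ^ 3 = Cb * P := by rw [hP]; ring
        have f2 : Cb * r ^ 2 * a / l ^ 4 = Cb * R := by rw [hR]; ring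
        rw [f1, f2]
        refine add_le_add ?_ ?_
        · apply mul_le_mul_of_nonneg_left _ (by positivity)
          exact mul_le_mul_of_nonneg_left hvN hG0
        · apply mul_le_mul_of_nonneg_left _ (by positivity)
          exact mul_le_mul_of_nonneg_left hvN (Real.sqrt_nonneg _)
      have t4 : (EE S3 r (U3 r a l) - EE S2 r (V12 r a)) * N ^ 2
          ≤ C3 * (P ^ 2 + E ^ 2) * N ^ 2 := by
        apply mul_le_mul_of_nonneg_right _ (sq_nonneg N)
        refine (le_abs_self _).trans (hEE.trans (le_of_eq ?_))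
        have e1 : r ^ 4 / l ^ 6 = P ^ 2 := by
          rw [hP]; field_simp
        rw [e1, he2]
      linarith only [t1, t2, t3, t4]
    · rw [hS]; exact Real.sqrt_le_sqrt hD2go
  -- the integral
  have hI := stageI h_prod h_bl hr0 hNM.box hNM.norm hBLgo hη
    (tail_int r Ct (hCt r hr1') hr1')
  rw [← hN, ← hG, he4] at hI
  refine hI.trans ?_
  have hst : √(|Ct| * E ^ 4) = √|Ct| * E ^ 2 := by
    rw [Real.sqrt_mul (abs_nonneg _)]
    have : E ^ 4 = (E ^ 2) ^ 2 := by ring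
    rw [this, Real.sqrt_sq (by positivity)]
  rw [hst]
  have hPR : P * R = r ^ 4 * (a / l ^ 7) := by
    rw [hP, hR]; field_simp
  have hX0 : 0 ≤ a / l ^ 7 := by positivity
  have u1 : r * (P * R + E) ≤ r ^ 8 * (a / l ^ 7 + E) := by
    rw [hPR]
    have v1 : r * (r ^ 4 * (a / l ^ 7)) = r ^ 5 * (a / l ^ 7) := by ring
    have v2 : r ^ 5 * (a / l ^ 7) ≤ r ^ 8 * (a / l ^ 7) :=
      mul_le_mul_of_nonneg_right (pow_le_pow_right₀ hr1' (by norm_num)) hX0
    have v3 : r * E ≤ r ^ 8 * E :=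
      mul_le_mul_of_nonneg_right (le_self_pow₀ hr1' (by norm_num)) hE0.le
    have v4 : r * (r ^ 4 * (a / l ^ 7) + E) = r * (r ^ 4 * (a / l ^ 7)) + r * E := by ring
    have v5 : r ^ 8 * (a / l ^ 7 + E) = r ^ 8 * (a / l ^ 7) + r ^ 8 * E := by ring
    rw [v4, v5, v1]
    exact add_le_add v2 v3
  have hEE2 : E ^ 2 ≤ E := by
    have := mul_le_mul_of_nonneg_right hE1 hE0.le
    linarith only [this]
  have hPR0 : 0 ≤ P * R := mul_nonneg hP0 hR0
  have u2 : 2 * r * N ≤ 2 * K3 * (r * (P * R + E)) := by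
    calc 2 * r * N ≤ 2 * r * (K3 * (P * R + E)) := mul_le_mul_of_nonneg_left hmain (by positivity)
      _ = _ := by ring
  have u3 : G * (2 * r * (√|Ct| * E ^ 2)) ≤ 4 * S * √|Ct| * (r * (P * R + E)) := by
    calc G * (2 * r * (√|Ct| * E ^ 2)) ≤ (2 * S) * (2 * r * (√|Ct| * E ^ 2)) :=
          mul_le_mul_of_nonneg_right hG2S (by positivity)
      _ = 4 * S * √|Ct| * (r * E ^ 2) := by ring
      _ ≤ 4 * S * √|Ct| * (r * (P * R + E)) := by
          apply mul_le_mul_of_nonneg_left _ (by positivity)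
          exact mul_le_mul_of_nonneg_left (by linarith only [hEE2, hPR0]) hr0.le
  have hCC : 0 ≤ 2 * K3 + 4 * S * √|Ct| := by positivity
  calc 2 * r * N + G * (2 * r * (√|Ct| * E ^ 2))
      ≤ (2 * K3 + 4 * S * √|Ct|) * (r * (P * R + E)) := by
        rw [add_mul]; exact add_le_add u2 u3
    _ ≤ (2 * K3 + 4 * S * √|Ct|) * (r ^ 8 * (a / l ^ 7 + E)) :=
        mul_le_mul_of_nonneg_left u1 hCC
    _ = (2 * K3 + 4 * S * √|Ct|) * r ^ 8 * (a / l ^ 7 + Real.exp (-r / 16)) := by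
        rw [hE]; ring

end MolDis.H
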