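import Pool.Agent.Lib.MP_59f35a_mp.HStmts

/-!
# MP_59f35a_mp : piece D5 (the error of the trial function)
-/

noncomputable section

open MeasureTheory

namespace MolDis.H

namespace Err

/-! ### generalities -/

lemma cs {f g : X3 → ℝ} (hf : Measurable f) (hg : Measurable g)
    (If : Integrable (fun x => f x ^ 2) pm) (Ig : Integrable (fun x => g x ^ 2) pm) :
    |∫ x, f x * g x ∂pm| ≤ √(∫ x, f x ^ 2 ∂pm) * √(∫ x, g x ^ 2 ∂pm) := by
  have Ifg : Integrable (fun x => f x * g x) pm := by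
    refine Integrable.mono' (If.add Ig) (hf.mul hg).aestronglyMeasurable (ae_of_all _ fun x => ?_)
    rw [Real.norm_eq_abs, abs_mul, Pi.add_apply]
    nlinarith [sq_nonneg (|f x| - |g x|), sq_abs (f x), sq_abs (g x)]
  have key : ∀ t : ℝ, 0 ≤ (∫ x, g x ^ 2 ∂pm) * (t * t) + 2 * (∫ x, f x * g x ∂pm) * t +
      ∫ x, f x ^ 2 ∂pm := by
    intro t
    have h1 : 0 ≤ ∫ x, (f x + t * g x) ^ 2 ∂pm := integral_nonneg fun x => sq_nonneg _
    have h2 : ∫ x, (f x + t * g x) ^ 2 ∂pm = (∫ x, f x ^ 2 ∂pm) +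
        (2 * t * (∫ x, f x * g x ∂pm) + t ^ 2 * ∫ x, g x ^ 2 ∂pm) := by
      have i2 : Integrable (fun x => 2 * t * (f x * g x) + t ^ 2 * g x ^ 2) pm :=
        (Ifg.const_mul _).add (Ig.const_mul _)
      rw [← integral_const_mul, ← integral_const_mul, ← integral_add (Ifg.const_mul _)
        (Ig.const_mul _), ← integral_add If i2]
      refine integral_congr_ae (ae_of_all _ fun x => ?_)
      simp only
      ring
    rw [h2] at h1
    linarith
  have h3 := discrim_le_zero key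
  unfold discrim at h3
  have h4 : (∫ x, f x * g x ∂pm) ^ 2 ≤ (∫ x, f x ^ 2 ∂pm) * ∫ x, g x ^ 2 ∂pm := by linarith
  rw [← Real.sqrt_mul (integral_nonneg fun x => sq_nonneg _)]
  exact Real.abs_le_sqrt h4

lemma ip_nonneg (f : X3 → ℝ) : 0 ≤ ip f f := by
  unfold ip
  exact integral_nonneg fun x => mul_self_nonneg _

lemma ip_sq (f : X3 → ℝ) : ip f f = ∫ x, f x ^ 2 ∂pm := by
  unfold ip
  simp only [sq]

/-! ### oddness -/

lemma oo0 (f : X3 → ℝ) (x : X3) : oo f (Function.update x 0 (-x 0)) = - oo f x := by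
  unfold oo
  have h1 : Function.update (Function.update x 0 (-x 0)) 0 (-(Function.update x 0 (-x 0)) 0) = x := by
    rw [Function.update_self, neg_neg, Function.update_idem, Function.update_eq_self]
  have h2 : (Function.update x 0 (-x 0)) 1 = x 1 := Function.update_of_ne (by decide) _ _
  rw [h1, h2]
  ring

lemma oo1 (f : X3 → ℝ) (x : X3) : oo f (Function.update x 1 (-x 1)) = - oo f x := by
  unfold oo
  have h1 : Function.update (Function.update x 1 (-x 1)) 1 (-(Function.update x 1 (-x 1)) 1) = x := by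
    rw [Function.update_self, neg_neg, Function.update_idem, Function.update_eq_self]
  have h2 : (Function.update x 1 (-x 1)) 0 = x 0 := Function.update_of_ne (by decide) _ _
  have h3 : Function.update (Function.update x 1 (-x 1)) 0 (-x 0) =
      Function.update (Function.update x 0 (-x 0)) 1 (-x 1) :=
    Function.update_comm (by decide) _ _ _
  have h4 : Function.update (Function.update (Function.update x 0 (-x 0)) 1 (-x 1)) 1
      (-(Function.update x 1 (-x 1)) 1) = Function.update x 0 (-x 0) := by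
    rw [Function.update_self, neg_neg, Function.update_idem]
    have : x 1 = (Function.update x 0 (-x 0)) 1 := (Function.update_of_ne (by decide) _ _).symm
    conv_lhs => rw [this]
    rw [Function.update_eq_self]
  rw [h1, h2, h3, h4]
  ring

lemma dd_neg_left (x y : E3) : dd (-x) y = - dd x y := by
  unfold dd
  simp only [PiLp.neg_apply]
  ring

lemma dd_neg_right (x y : E3) : dd x (-y) = - dd x y := by
  unfold dd
  simp only [PiLp.neg_apply]
  ring

lemma zt_neg (r : ℝ) (x : E3) : zt r (-x) = zt r x := by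
  unfold zt
  rw [norm_neg]

lemma chir0 (r : ℝ) (x : X3) : chir r (Function.update x 0 (-x 0)) = - chir r x := by
  have h2 : (Function.update x 0 (-x 0)) 1 = x 1 := Function.update_of_ne (by decide) _ _
  unfold chir chi
  rw [h2, Function.update_self, zt_neg, dd_neg_left, norm_neg]
  ring

lemma chir1 (r : ℝ) (x : X3) : chir r (Function.update x 1 (-x 1)) = - chir r x := by
  have h2 : (Function.update x 1 (-x 1)) 0 = x 0 := Function.update_of_ne (by decide) _ _
  unfold chir chi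
  rw [h2, Function.update_self, zt_neg, dd_neg_right, norm_neg]
  ring

/-! ### the weight -/

/-- the weight of one variable -/
def gw (r : ℝ) (y : E3) : ℝ := min ‖y‖ r

/-- the weight -/
def ww (r : ℝ) (x : X3) : ℝ := gw r (x 0)

lemma gw_lip (r : ℝ) : LipschitzWith 1 (gw r) := by
  have h1 : LipschitzWith 1 (fun y : E3 => ‖y‖) := lipschitzWith_one_norm
  exact h1.min_const r

lemma ww_lip (r : ℝ) : LipschitzWith 1 (ww r) := by
  have h1 := (gw_lip r).comp (LipschitzWith.eval (α := fun _ : Fin 3 => E3) 0)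
  rwa [one_mul] at h1

lemma gw_nonneg {r : ℝ} (hr : 0 ≤ r) (y : E3) : 0 ≤ gw r y := le_min (norm_nonneg _) hr

lemma gw_le {r : ℝ} (y : E3) : gw r y ≤ r := min_le_right _ _

lemma ww_bl {r : ℝ} (hr : 0 ≤ r) : BL (ww r) :=
  ⟨⟨1, ww_lip r⟩, ⟨r, fun x => by
    change |gw r (x 0)| ≤ r
    rw [abs_of_nonneg (gw_nonneg hr _)]
    exact gw_le _⟩⟩

/-- the gradient of a linear form -/
lemma sum_sq_le (L : E3 →L[ℝ] ℝ) : ∑ c, (L (ec c)) ^ 2 ≤ ‖L‖ ^ 2 := by
  set S := ∑ c, (L (ec c)) ^ 2 with hS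
  have hS0 : 0 ≤ S := Finset.sum_nonneg fun c _ => sq_nonneg _
  set u : E3 := ∑ c, (L (ec c)) • ec c with hu
  have h1 : L u = S := by
    rw [hu, map_sum, hS]
    refine Finset.sum_congr rfl fun c _ => ?_
    rw [map_smul, smul_eq_mul, sq]
  have h2 : ‖u‖ ^ 2 = S := by
    have hc : ∀ d : Fin 3, u d = L (ec d) := by
      intro d
      rw [hu]
      simp [ec, Fin.sum_univ_three]
      fin_cases d <;> simp
    rw [EuclideanSpace.norm_sq_eq, hS]
    refine Finset.sum_congr rfl fun c _ => ?_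
    rw [hc, Real.norm_eq_abs, sq_abs]
  have h3 : S ≤ ‖L‖ * ‖u‖ := by
    rw [← h1]
    exact (le_abs_self _).trans (L.le_opNorm u)
  have h4 : S ^ 2 ≤ ‖L‖ ^ 2 * S := by
    calc S ^ 2 ≤ (‖L‖ * ‖u‖) ^ 2 := pow_le_pow_left₀ hS0 h3 2
      _ = ‖L‖ ^ 2 * S := by rw [mul_pow, h2]
  rcases hS0.eq_or_lt with h0 | h0
  · rw [← h0]
    positivity
  · have h5 : S * S ≤ ‖L‖ ^ 2 * S := by rw [← sq]; exact h4
    exact le_of_mul_le_mul_right h5 h0

lemma ww_pd (hm1 : S_hm) (r : ℝ) : ∀ᵐ x ∂pm, ∑ j, ∑ c, pd j c (ww r) x ^ 2 ≤ 1 := by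
  have := hm1.1
  have h1 : ∀ᵐ y ∂(volume : Measure E3), DifferentiableAt ℝ (gw r) y :=
    (gw_lip r).ae_differentiableAt
  have h2 : ∀ᵐ y ∂hm, DifferentiableAt ℝ (gw r) y := hm1.2.1.ae_le h1
  have h3 : ∀ᵐ x ∂pm, DifferentiableAt ℝ (gw r) (x 0) :=
    (Measure.quasiMeasurePreserving_eval (fun _ : Fin 3 => hm) 0).ae h2
  filter_upwards [h3] with x hx
  have e0 : ∀ c, pd 0 c (ww r) x = fderiv ℝ (gw r) (x 0) (ec c) := by
    intro c
    unfold pd
    rw [← hx.lineDeriv_eq_fderiv]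
    unfold lineDeriv
    have e : (fun t : ℝ => ww r (x + t • (Pi.single 0 (ec c) : X3))) =
        fun t : ℝ => gw r (x 0 + t • ec c) := by
      funext t
      simp [ww]
    rw [e]
  have e1 : ∀ j, j ≠ 0 → ∀ c, pd j c (ww r) x = 0 := by
    intro j hj c
    unfold pd lineDeriv
    have : (fun t : ℝ => ww r (x + t • (Pi.single j (ec c) : X3))) = fun _ => ww r x := by
      funext t
      unfold ww
      have : (x + t • (Pi.single j (ec c) : X3)) 0 = x 0 := by
        simp [Pi.single_eq_of_ne (Ne.symm hj)]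
      rw [this]
    rw [this, deriv_const]
  rw [Fin.sum_univ_three]
  simp only [e1 1 (by decide), e1 2 (by decide)]
  simp only [e0]
  have h5 := sum_sq_le (fderiv ℝ (gw r) (x 0))
  have h6 : ‖fderiv ℝ (gw r) (x 0)‖ ≤ 1 := by
    have := norm_fderiv_le_of_lipschitz ℝ (gw_lip r) (x₀ := x 0)
    simpa using this
  have h7 : ‖fderiv ℝ (gw r) (x 0)‖ ^ 2 ≤ 1 := pow_le_one₀ (norm_nonneg _) h6
  simp
  linarith

/-- the Dirichlet form of a product -/
lemma dd_mul (hbl : S_bl) {w f : X3 → ℝ} (hw : BL w) (hf : BL f) {R : ℝ} (hR : ∀ x, |w x| ≤ R)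
    (hg : ∀ᵐ x ∂pm, ∑ j, ∑ c, pd j c w x ^ 2 ≤ 1) :
    DD (fun x => w x * f x) (fun x => w x * f x) ≤ 2 * R ^ 2 * DD f f + 2 * ip f f := by
  obtain ⟨b1, b2, b3, b4, b5, b6⟩ := hbl
  obtain ⟨mw, iw, iw2, pw, dw⟩ := b3 w hw
  obtain ⟨mf, jf, jf2, pf, df⟩ := b3 f hf
  have hwf : BL (fun x => w x * f x) := (b1 w f hw hf).2.2
  obtain ⟨mv, iv, iv2, pv', dv⟩ := b3 _ hwf
  -- integrability of products of bounded measurable functions
  obtain ⟨Bf, hBf⟩ := hf.bdd
  have hpr : IsFiniteMeasure pm := by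
    have := jf
    by_contra hcon
    have h1 : Integrable (fun _ : X3 => (1 : ℝ)) pm := (b3 _ (b2 1)).2.1
    exact hcon (integrable_const_iff_isFiniteMeasure (one_ne_zero)|>.1 h1)
  have bint : ∀ {g : X3 → ℝ}, Measurable g → (∃ K : ℝ, ∀ x, |g x| ≤ K) → Integrable g pm := by
    intro g hg ⟨K, hK⟩
    exact Integrable.of_bound hg.aestronglyMeasurable K (ae_of_all _ fun x => by
      rw [Real.norm_eq_abs]; exact hK x)
  have bsq : ∀ {g : X3 → ℝ}, Measurable g → (∃ K : ℝ, ∀ x, |g x| ≤ K) →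
      Integrable (fun x => g x ^ 2) pm := by
    intro g hg ⟨K, hK⟩
    refine bint (hg.pow_const 2) ⟨K ^ 2, fun x => ?_⟩
    rw [abs_pow]
    exact pow_le_pow_left₀ (abs_nonneg _) (hK x) 2
  have term : ∀ j c, ∫ x, pd j c (fun x => w x * f x) x * pd j c (fun x => w x * f x) x ∂pm ≤
      2 * R ^ 2 * (∫ x, pd j c f x * pd j c f x ∂pm) + 2 * ∫ x, pd j c w x ^ 2 * f x ^ 2 ∂pm := by
    intro j c
    have i1 : Integrable (fun x => pd j c f x * pd j c f x) pm := by
      have := bsq (pf j c).1 (pf j c).2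
      simpa only [sq] using this
    have i2 : Integrable (fun x => pd j c w x ^ 2 * f x ^ 2) pm := by
      obtain ⟨Kw, hKw⟩ := (pw j c).2
      refine bint (((pw j c).1.pow_const 2).mul (mf.pow_const 2)) ⟨Kw ^ 2 * Bf ^ 2, fun x => ?_⟩
      rw [abs_mul, abs_pow, abs_pow]
      exact mul_le_mul (pow_le_pow_left₀ (abs_nonneg _) (hKw x) 2)
        (pow_le_pow_left₀ (abs_nonneg _) (hBf x) 2) (by positivity) (by positivity)
    rw [← integral_const_mul, ← integral_const_mul,
      ← integral_add (i1.const_mul _) (i2.const_mul _)]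
    refine integral_mono_ae ?_ ((i1.const_mul _).add (i2.const_mul _)) ?_
    · have := bsq (pv' j c).1 (pv' j c).2
      simpa only [sq] using this
    · filter_upwards [dw j c, df j c] with x h1 h2
      have e : pd j c (fun x => w x * f x) x = pd j c w x * f x + w x * pd j c f x := by
        unfold pd lineDeriv
        have h3 := deriv_fun_mul (c := fun t : ℝ => w (x + t • (Pi.single j (ec c) : X3)))
          (d := fun t : ℝ => f (x + t • (Pi.single j (ec c) : X3))) (x := (0 : ℝ)) h1 h2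
        simpa using h3
      rw [e]
      have h4 : w x ^ 2 ≤ R ^ 2 := by
        rw [← sq_abs (w x)]
        exact pow_le_pow_left₀ (abs_nonneg _) (hR x) 2
      have h5 : w x ^ 2 * pd j c f x ^ 2 ≤ R ^ 2 * pd j c f x ^ 2 :=
        mul_le_mul_of_nonneg_right h4 (sq_nonneg _)
      nlinarith [sq_nonneg (pd j c w x * f x - w x * pd j c f x)]
  have i3 : ∀ j c, Integrable (fun x => pd j c w x ^ 2 * f x ^ 2) pm := by
    intro j c
    obtain ⟨Kw, hKw⟩ := (pw j c).2
    refine bint (((pw j c).1.pow_const 2).mul (mf.pow_const 2)) ⟨Kw ^ 2 * Bf ^ 2, fun x => ?_⟩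
    rw [abs_mul, abs_pow, abs_pow]
    exact mul_le_mul (pow_le_pow_left₀ (abs_nonneg _) (hKw x) 2)
      (pow_le_pow_left₀ (abs_nonneg _) (hBf x) 2) (by positivity) (by positivity)
  have hsum : ∑ j, ∑ c, ∫ x, pd j c w x ^ 2 * f x ^ 2 ∂pm ≤ ip f f := by
    have e1 : ∑ j, ∑ c, ∫ x, pd j c w x ^ 2 * f x ^ 2 ∂pm =
        ∫ x, (∑ j, ∑ c, pd j c w x ^ 2) * f x ^ 2 ∂pm := by
      simp only [Finset.sum_mul]
      rw [integral_finsetSum _ fun j _ => integrable_finsetSum _ fun c _ => i3 j c]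
      refine Finset.sum_congr rfl fun j _ => ?_
      rw [integral_finsetSum _ fun c _ => i3 j c]
    rw [e1, ip_sq]
    refine integral_mono_ae ?_ jf2 ?_
    · simp only [Finset.sum_mul]
      exact integrable_finsetSum _ fun j _ => integrable_finsetSum _ fun c _ => i3 j c
    · filter_upwards [hg] with x hx
      exact mul_le_of_le_one_left (sq_nonneg _) hx
  calc DD (fun x => w x * f x) (fun x => w x * f x)
      ≤ ∑ j, ∑ c, (2 * R ^ 2 * (∫ x, pd j c f x * pd j c f x ∂pm) +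
          2 * ∫ x, pd j c w x ^ 2 * f x ^ 2 ∂pm) := by
        unfold DD Dj
        exact Finset.sum_le_sum fun j _ => Finset.sum_le_sum fun c _ => term j c
    _ = 2 * R ^ 2 * DD f f + 2 * ∑ j, ∑ c, ∫ x, pd j c w x ^ 2 * f x ^ 2 ∂pm := by
        unfold DD Dj
        simp only [Finset.sum_add_distrib, ← Finset.mul_sum]
    _ ≤ _ := by linarith

/-! ### scalar inequalities -/

lemma scalarA {X Y κ E C : ℝ} (hY : 0 ≤ Y) (hκ : 0 ≤ κ) (hE : 0 ≤ E) (hC : 1 ≤ C)
    (h1 : 3 / 8 * X ^ 2 ≤ Y ^ 2)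
    (h2 : Y ^ 2 ≤ κ * (1.291 * X) + C * (E * X + E * √(Y ^ 2 + X ^ 2))) :
    X ≤ 3.4427 * κ + 6 * (C * E) := by
  have hG : 0 ≤ C * E := by positivity
  have a1 : X ≤ 1.633 * Y := by
    refine le_of_sq_le_sq ?_ (by positivity)
    nlinarith
  have a2 : √(Y ^ 2 + X ^ 2) ≤ 2 * Y := by
    rw [Real.sqrt_le_left (by positivity)]
    nlinarith
  have a3 : C * (E * X + E * √(Y ^ 2 + X ^ 2)) ≤ C * (E * (1.633 * Y) + E * (2 * Y)) :=
    mul_le_mul_of_nonneg_left (add_le_add (mul_le_mul_of_nonneg_left a1 hE)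
      (mul_le_mul_of_nonneg_left a2 hE)) (by linarith)
  have a4 : κ * (1.291 * X) ≤ κ * (1.291 * (1.633 * Y)) :=
    mul_le_mul_of_nonneg_left (by linarith) hκ
  have a5 : Y * Y ≤ (2.108203 * κ + 3.633 * (C * E)) * Y := by nlinarith
  have a6 : Y ≤ 2.108203 * κ + 3.633 * (C * E) := by
    rcases hY.eq_or_lt with h0 | h0
    · rw [← h0]
      positivity
    · exact le_of_mul_le_mul_right a5 h0
  nlinarith

lemma scalarB {y Z X κ E C : ℝ} (hκ : 0 ≤ κ) (hE : 0 ≤ E) (hC : 1 ≤ C)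
    (hX0 : 0 ≤ X) (h1 : 3 / 8 * y ^ 2 ≤ Z ^ 2)
    (h2 : Z ^ 2 ≤ κ * (8.32667 * y) + C * (E * y + 4 * (E * Z)) + X ^ 2)
    (hX : X ≤ 3.4427 * κ + 6 * (C * E)) : y ≤ 23.55 * κ + 10000 * (C * E) := by
  obtain ⟨G, hG⟩ : ∃ G, G = C * E := ⟨_, rfl⟩
  have hG0 : 0 ≤ G := by rw [hG]; positivity
  have e : C * (E * y + 4 * (E * Z)) = G * y + 4 * G * Z := by rw [hG]; ring
  rw [e] at h2
  rw [← hG] at hX ⊢
  have a1 : 4 * G * Z ≤ (1 / 100000) * Z ^ 2 + 400000 * G ^ 2 := by
    nlinarith [sq_nonneg (Z - 200000 * G)]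
  have a2 : 0.37499625 * y ^ 2 ≤ 8.32667 * κ * y + G * y + 400000 * G ^ 2 + X ^ 2 := by
    nlinarith
  have a3 : X ^ 2 ≤ (3.4427 * κ + 6 * G) ^ 2 := pow_le_pow_left₀ hX0 hX 2
  by_contra hcon
  push Not at hcon
  have hz : 0 ≤ 23.55 * κ + 10000 * G := by positivity
  have hy0 : 0 < y := lt_of_le_of_lt hz hcon
  have b1 : 0.5044 * κ + 3748 * G < 0.37499625 * y - 8.32667 * κ - G := by
    nlinarith
  have b2 : (23.55 * κ + 10000 * G) * (0.5044 * κ + 3748 * G) ≤ y * (0.5044 * κ + 3748 * G) :=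
    mul_le_mul_of_nonneg_right hcon.le (by positivity)
  have b3 : y * (0.5044 * κ + 3748 * G) < y * (0.37499625 * y - 8.32667 * κ - G) :=
    mul_lt_mul_of_pos_left b1 hy0
  have c1 : 0 ≤ κ * G := mul_nonneg hκ hG0
  nlinarith [sq_nonneg κ, sq_nonneg G]

lemma rho_meas : Measurable rho := by
  unfold rho dd
  fun_prop

end Err

open Err

theorem p_err (hpar : S_par) (hnum : S_num) (hchi : S_chi) (hpgap : S_pgap) (hhm : S_hm)
    (hbl : S_bl) (hform : S_form) : S_err := by
  intro g0 hg0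
  obtain ⟨C, r0, hC, hr0, hpar⟩ := hpar g0 hg0
  obtain ⟨Cc, hCc, hchi⟩ := hchi
  refine ⟨10000 * C, r0, by linarith, hr0, fun r a φ hr hra hφ => ?_⟩
  obtain ⟨hoo, -, hweak⟩ := hpar r a φ hr hra hφ
  have hr1 : 1 ≤ r := hr0.trans hr
  have hrp : 0 < r := by linarith
  have ha : 0 < a := lt_of_lt_of_le (by positivity) hra
  obtain ⟨hbox, -, -⟩ := hchi r hr1
  have hS2 : (S2 : Finset (Fin 3)).Nonempty := ⟨0, by simp [S2]⟩
  set c := ∫ z, φ z ∂pm with hc
  set D : X3 → ℝ := fun x => oo φ x + c / a ^ 3 * chir r x with hD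
  obtain ⟨b1, b2, b3, b4, b5, b6⟩ := id hbl
  obtain ⟨f1, f2, f3, f4, f5, f6⟩ := hform
  have boxD : Box S2 r D := (b5 S2 r (oo φ) (fun x => c / a ^ 3 * chir r x) 1 hoo
    (b5 S2 r (chir r) (chir r) (c / a ^ 3) hbox hbox).2.2).1
  have blD : BL D := b4 S2 r D boxD hrp hS2
  have D0 : ∀ x, D (Function.update x 0 (-x 0)) = - D x := fun x => by
    simp only [hD, oo0, chir0]
    ring
  have D1 : ∀ x, D (Function.update x 1 (-x 1)) = - D x := fun x => by
    simp only [hD, oo1, chir1]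
    ring
  have hw := ww_bl hrp.le
  have hwD : BL (fun x => ww r x * D x) := (b1 _ _ hw blD).2.2
  have hv : BL (fun x => ww r x ^ 2 * D x) := by
    have := (b1 _ _ hw hwD).2.2
    have e : (fun x => ww r x * (ww r x * D x)) = fun x => ww r x ^ 2 * D x := by
      funext x; ring
    rwa [e] at this
  have w0 : ∀ x : X3, ww r (Function.update x 0 (-x 0)) = ww r x := fun x => by
    unfold ww gw
    rw [Function.update_self, norm_neg]
  have w1 : ∀ x : X3, ww r (Function.update x 1 (-x 1)) = ww r x := fun x => by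
    unfold ww
    rw [Function.update_of_ne (by decide)]
  have wle : ∀ x, |ww r x| ≤ r := fun x => by
    change |gw r (x 0)| ≤ r
    rw [abs_of_nonneg (gw_nonneg hrp.le _)]
    exact gw_le _
  have wsq : ∀ x, ww r x ^ 2 ≤ r ^ 2 := fun x => by
    rw [← sq_abs]
    exact pow_le_pow_left₀ (abs_nonneg _) (wle x) 2
  have wsq' : ∀ x : X3, ww r x ^ 2 ≤ ‖x 0‖ ^ 2 := fun x =>
    pow_le_pow_left₀ (gw_nonneg hrp.le _) (min_le_left _ _) 2
  have wind : ∀ (j : Fin 3) x y, j ≠ 0 → ww r (Function.update x j y) = ww r x := by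
    intro j x y hj
    unfold ww
    rw [Function.update_of_ne (Ne.symm hj)]
  have boxwD : Box S2 r (fun x => ww r x * D x) := by
    refine ⟨hwD.lip, fun x hx => boxD.supp x (right_ne_zero_of_mul hx), fun j hj x y => ?_⟩
    rw [boxD.ind j hj, wind j x y (by rintro rfl; exact hj (by simp [S2]))]
  have boxv : Box S2 r (fun x => ww r x ^ 2 * D x) := by
    refine ⟨hv.lip, fun x hx => boxD.supp x (right_ne_zero_of_mul hx), fun j hj x y => ?_⟩
    rw [boxD.ind j hj, wind j x y (by rintro rfl; exact hj (by simp [S2]))]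
  -- the gap
  have gapf : ∀ f, Box S2 r f → (∀ x, f (Function.update x 0 (-x 0)) = - f x) →
      (∀ x, f (Function.update x 1 (-x 1)) = - f x) → 3 / 8 * ip f f ≤ DD f f := by
    intro f hf h0 h1
    obtain ⟨-, -, hg⟩ := hpgap g0 hg0 S2 r f hrp hS2 hf
    have g0' := hg 0 (by simp [S2]) h0
    have g1' := hg 1 (by simp [S2]) h1
    have hfb := b4 S2 r f hf hrp hS2
    have g2' := (f1 2 f f f hfb hfb hfb 0).2.1
    unfold DD
    rw [Fin.sum_univ_three]
    linarith
  -- the norms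
  have ipD := ip_nonneg D
  have ddnn : ∀ f, BL f → 0 ≤ DD f f := by
    intro f hf
    unfold DD
    exact Finset.sum_nonneg fun j _ => (f1 j f f f hf hf hf 0).2.1
  have ddD := ddnn D blD
  have ipw := ip_nonneg (fun x => ww r x * D x)
  have ddw := ddnn _ hwD
  have ipv := ip_nonneg (fun x => ww r x ^ 2 * D x)
  have ddv := ddnn _ hv
  set κ := |c| / a ^ 3 with hκ
  have hκ0 : 0 ≤ κ := by positivity
  set E := r ^ 4 * (1 / a ^ 4 + Real.exp (-r / 16)) with hE
  have hE0 : 0 ≤ E := by positivity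
  have hr4 : 1 ≤ r ^ 4 := one_le_pow₀ hr1
  have hexp : Real.exp (-r / 8) ≤ Real.exp (-r / 16) := Real.exp_le_exp.2 (by linarith)
  have E1 : r ^ 4 / a ^ 4 ≤ E := by
    rw [hE, mul_add, mul_one_div]
    have : 0 ≤ r ^ 4 * Real.exp (-r / 16) := by positivity
    linarith
  have E2 : r ^ 4 * Real.exp (-r / 8) ≤ E := by
    rw [hE, mul_add]
    have h1 : 0 ≤ r ^ 4 * (1 / a ^ 4) := by positivity
    have h2 := mul_le_mul_of_nonneg_left hexp (by positivity : 0 ≤ r ^ 4)
    linarith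
  have hr34 : r ^ 3 ≤ r ^ 4 := pow_le_pow_right₀ hr1 (by norm_num)
  have hr14 : r ≤ r ^ 4 := by
    calc r = r ^ 1 := (pow_one r).symm
      _ ≤ r ^ 4 := pow_le_pow_right₀ hr1 (by norm_num)
  have E3 : r ^ 3 / a ^ 4 ≤ E := (div_le_div_of_nonneg_right hr34 (by positivity)).trans E1
  have E4 : Real.exp (-r / 8) ≤ E := by
    refine le_trans ?_ E2
    exact le_mul_of_one_le_left (Real.exp_pos _).le hr4
  have E5 : r * Real.exp (-r / 8) ≤ E :=
    (mul_le_mul_of_nonneg_right hr14 (Real.exp_pos _).le).trans E2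
  have hcabs : |c / a ^ 3| = κ := by
    rw [abs_div, abs_of_pos (by positivity : 0 < a ^ 3)]
  -- numbers
  obtain ⟨-, n2, n3, -, -, n6, n7, -⟩ := hnum
  -- part A
  have hmD := (b3 D blD).1
  have hDsq := (b3 D blD).2.2.1
  have A1 : |∫ x, rho x * D x ∂pm| ≤ 1.291 * √(ip D D) := by
    have h1 := cs rho_meas hmD n2 hDsq
    rw [n6, ← ip_sq] at h1
    refine h1.trans (mul_le_mul_of_nonneg_right ?_ (Real.sqrt_nonneg _))
    rw [Real.sqrt_le_left (by norm_num)]
    norm_num
  have A2 := hweak D boxD D0 D1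
  have A3 : DD D D ≤ κ * (1.291 * √(ip D D)) +
      C * (E * √(ip D D) + E * √(DD D D + ip D D)) := by
    have h1 : |c / a ^ 3 * ∫ x, rho x * D x ∂pm| ≤ κ * (1.291 * √(ip D D)) := by
      rw [abs_mul, hcabs]
      exact mul_le_mul_of_nonneg_left A1 hκ0
    have h2 : C * (r ^ 3 / a ^ 4 * √(ip D D) + Real.exp (-r / 8) * √(DD D D + ip D D)) ≤
        C * (E * √(ip D D) + E * √(DD D D + ip D D)) :=
      mul_le_mul_of_nonneg_left (add_le_add
        (mul_le_mul_of_nonneg_right E3 (Real.sqrt_nonneg _))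
        (mul_le_mul_of_nonneg_right E4 (Real.sqrt_nonneg _))) (by linarith)
    have h3 := (abs_le.1 A2).2
    have h4 := (abs_le.1 h1).2
    linarith
  have hXD : √(ip D D) ^ 2 = ip D D := Real.sq_sqrt ipD
  have hYD : √(DD D D) ^ 2 = DD D D := Real.sq_sqrt ddD
  have hX := scalarA (X := √(ip D D)) (Real.sqrt_nonneg (DD D D)) hκ0 hE0 hC
    (by rw [hXD, hYD]; exact gapf D boxD D0 D1)
    (by rw [hXD, hYD]; exact A3)
  have e1 : 10000 * C * r ^ 4 * (1 / a ^ 4 + Real.exp (-r / 16)) = 10000 * (C * E) := by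
    rw [hE]; ring
  have e2 : ∀ k : ℝ, k * |c| / a ^ 3 = k * κ := fun k => by rw [hκ, mul_div_assoc]
  have hG0 : 0 ≤ C * E := by positivity
  refine ⟨?_, ?_⟩
  · rw [← ip_sq, e1, e2]
    linarith
  · rw [e1, e2]
    have e3 : (∫ x, ‖x 0‖ ^ 2 * D x ^ 2 ∂pm) = ip (fun x => ww r x * D x)
        (fun x => ww r x * D x) := by
      rw [ip_sq]
      refine integral_congr_ae (ae_of_all _ fun x => ?_)
      simp only
      by_cases hx : D x = 0
      · rw [hx]
        ring
      · have h1 := boxD.supp x hx 0 (by simp [S2])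
        have h2 : ww r x = ‖x 0‖ := min_eq_left h1
        rw [h2]
        ring
    rw [e3]
    -- product rule
    have B0 := f5 (ww r) D hw blD
    have hgrad := ww_pd hhm r
    have B1 : ∫ x, (∑ j, ∑ c, pd j c (ww r) x ^ 2) * D x ^ 2 ∂pm ≤ ip D D := by
      rw [ip_sq]
      obtain ⟨mw, iw, iw2, pw, dw⟩ := b3 (ww r) hw
      refine integral_mono_of_nonneg (ae_of_all _ fun x => ?_) hDsq ?_
      · exact mul_nonneg (Finset.sum_nonneg fun j _ => Finset.sum_nonneg fun c _ => sq_nonneg _)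
          (sq_nonneg _)
      · filter_upwards [hgrad] with x hx
        exact mul_le_of_le_one_left (sq_nonneg _) hx
    have B2 := hweak (fun x => ww r x ^ 2 * D x) boxv
      (fun x => by simp only [w0, D0]; ring) (fun x => by simp only [w1, D1]; ring)
    have B3 : |∫ x, rho x * (ww r x ^ 2 * D x) ∂pm| ≤
        8.32667 * √(ip (fun x => ww r x * D x) (fun x => ww r x * D x)) := by
      have hmw := (b3 (ww r) hw).1
      have i1 : Integrable (fun x => (ww r x * rho x) ^ 2) pm := by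
        refine Integrable.mono' n3 ((hmw.mul rho_meas).pow_const 2).aestronglyMeasurable
          (ae_of_all _ fun x => ?_)
        rw [Real.norm_eq_abs, abs_of_nonneg (sq_nonneg _), mul_pow]
        exact mul_le_mul_of_nonneg_right (wsq' x) (sq_nonneg _)
      have h1 := cs (f := fun x => ww r x * rho x) (g := fun x => ww r x * D x)
        (hmw.mul rho_meas) (b3 _ hwD).1 i1 (b3 _ hwD).2.2.1
      have h2 : ∫ x, (ww r x * rho x) ^ 2 ∂pm ≤ 208 / 3 := by
        rw [← n7]
        refine integral_mono_ae i1 n3 (ae_of_all _ fun x => ?_)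
        simp only
        rw [mul_pow]
        exact mul_le_mul_of_nonneg_right (wsq' x) (sq_nonneg _)
      have h3 : ∫ x, rho x * (ww r x ^ 2 * D x) ∂pm =
          ∫ x, (ww r x * rho x) * (ww r x * D x) ∂pm :=
        integral_congr_ae (ae_of_all _ fun x => by simp only; ring)
      rw [h3]
      refine h1.trans ?_
      rw [← ip_sq (fun x => ww r x * D x)]
      refine mul_le_mul_of_nonneg_right ?_ (Real.sqrt_nonneg _)
      rw [Real.sqrt_le_left (by norm_num)]
      refine h2.trans ?_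
      norm_num
    have hyy : √(ip (fun x => ww r x * D x) (fun x => ww r x * D x)) ^ 2 =
        ip (fun x => ww r x * D x) (fun x => ww r x * D x) := Real.sq_sqrt ipw
    have hZZ : √(DD (fun x => ww r x * D x) (fun x => ww r x * D x)) ^ 2 =
        DD (fun x => ww r x * D x) (fun x => ww r x * D x) := Real.sq_sqrt ddw
    have gapw := gapf _ boxwD (fun x => by simp only [w0, D0]; ring)
      (fun x => by simp only [w1, D1]; ring)
    -- sizes of v
    have V1 : ip (fun x => ww r x ^ 2 * D x) (fun x => ww r x ^ 2 * D x) ≤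
        r ^ 2 * ip (fun x => ww r x * D x) (fun x => ww r x * D x) := by
      rw [ip_sq, ip_sq, ← integral_const_mul]
      refine integral_mono_ae (b3 _ hv).2.2.1 ((b3 _ hwD).2.2.1.const_mul _)
        (ae_of_all _ fun x => ?_)
      simp only
      have : (ww r x ^ 2 * D x) ^ 2 = ww r x ^ 2 * (ww r x * D x) ^ 2 := by ring
      rw [this]
      exact mul_le_mul_of_nonneg_right (wsq x) (sq_nonneg _)
    have V2 : DD (fun x => ww r x ^ 2 * D x) (fun x => ww r x ^ 2 * D x) ≤
        2 * r ^ 2 * DD (fun x => ww r x * D x) (fun x => ww r x * D x) +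
          2 * ip (fun x => ww r x * D x) (fun x => ww r x * D x) := by
      have h1 := dd_mul hbl hw hwD wle hgrad
      have e : (fun x => ww r x * (ww r x * D x)) = fun x => ww r x ^ 2 * D x := by
        funext x; ring
      rwa [e] at h1
    generalize ip (fun x => ww r x * D x) (fun x => ww r x * D x) = yy at *
    generalize DD (fun x => ww r x * D x) (fun x => ww r x * D x) = ZZ at *
    generalize ip (fun x => ww r x ^ 2 * D x) (fun x => ww r x ^ 2 * D x) = iv at *
    generalize DD (fun x => ww r x ^ 2 * D x) (fun x => ww r x ^ 2 * D x) = dv at *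
    have W1 : √iv ≤ r * √yy := by
      have : √(r ^ 2 * yy) = r * √yy := by
        rw [Real.sqrt_mul (by positivity), Real.sqrt_sq hrp.le]
      rw [← this]
      exact Real.sqrt_le_sqrt V1
    have W2 : √(dv + iv) ≤ 4 * r * √ZZ := by
      have h1 : dv + iv ≤ (4 * r) ^ 2 * ZZ := by
        have h2 : yy ≤ 8 / 3 * ZZ := by linarith
        have h3 : r ^ 2 * yy ≤ r ^ 2 * (8 / 3 * ZZ) := mul_le_mul_of_nonneg_left h2 (by positivity)
        have h4 : ZZ ≤ r ^ 2 * ZZ := le_mul_of_one_le_left ddw (one_le_pow₀ hr1)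
        have h5 : (4 * r) ^ 2 * ZZ = 16 * (r ^ 2 * ZZ) := by ring
        have h6 : r ^ 2 * (8 / 3 * ZZ) = 8 / 3 * (r ^ 2 * ZZ) := by ring
        have h7 : 2 * r ^ 2 * ZZ = 2 * (r ^ 2 * ZZ) := by ring
        rw [h5]
        rw [h6] at h3
        rw [h7] at V2
        linarith
      have : √((4 * r) ^ 2 * ZZ) = 4 * r * √ZZ := by
        rw [Real.sqrt_mul (by positivity), Real.sqrt_sq (by positivity)]
      rw [← this]
      exact Real.sqrt_le_sqrt h1
    have h2 : ZZ ≤ κ * (8.32667 * √yy) + C * (E * √yy + 4 * (E * √ZZ)) + √(ip D D) ^ 2 := by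
      have h3 : |c / a ^ 3 * ∫ x, rho x * (ww r x ^ 2 * D x) ∂pm| ≤ κ * (8.32667 * √yy) := by
        rw [abs_mul, hcabs]
        exact mul_le_mul_of_nonneg_left B3 hκ0
      have h4 : C * (r ^ 3 / a ^ 4 * √iv + Real.exp (-r / 8) * √(dv + iv)) ≤
          C * (E * √yy + 4 * (E * √ZZ)) := by
        refine mul_le_mul_of_nonneg_left (add_le_add ?_ ?_) (by linarith)
        · calc r ^ 3 / a ^ 4 * √iv ≤ r ^ 3 / a ^ 4 * (r * √yy) :=
                mul_le_mul_of_nonneg_left W1 (by positivity)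
            _ = r ^ 4 / a ^ 4 * √yy := by ring
            _ ≤ E * √yy := mul_le_mul_of_nonneg_right E1 (Real.sqrt_nonneg _)
        · calc Real.exp (-r / 8) * √(dv + iv) ≤ Real.exp (-r / 8) * (4 * r * √ZZ) :=
                mul_le_mul_of_nonneg_left W2 (Real.exp_pos _).le
            _ = 4 * ((r * Real.exp (-r / 8)) * √ZZ) := by ring
            _ ≤ 4 * (E * √ZZ) := by
                have := mul_le_mul_of_nonneg_right E5 (Real.sqrt_nonneg ZZ)
                linarith
      have h5 := (abs_le.1 B2).2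
      have h6 := (abs_le.1 h3).2
      rw [hXD]
      linarith
    exact scalarB (y := √yy) (Z := √ZZ) hκ0 hE0 hC (Real.sqrt_nonneg _)
      (by rw [hyy, hZZ]; exact gapw) (by rw [hZZ]; exact h2) hX

end MolDis.H
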