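import Pool.Agent.Lib.MP_59f35a_mp.HStmts

/-!
# MP_59f35a_mp : symmetric near minimisers of the pair (piece D8)
-/

noncomputable section

open MeasureTheory

namespace MolDis.H

namespace Even

theorem piv_eq (x : X3) : piv x = sgT (Equiv.swap 0 1) (fun _ _ => -1) x := by
  funext j
  fin_cases j
  · simp only [piv, sgT]
    ext c
    simp
  · simp only [piv, sgT]
    ext c
    simp
  · simp only [piv, sgT]
    ext c
    have h : (Equiv.swap (0 : Fin 3) 1) 2 = 2 := by decide
    simp [h]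

theorem piv_piv (x : X3) : piv (piv x) = x := by
  funext j
  fin_cases j <;> simp [piv]

theorem piv_update (x : X3) (y : E3) :
    piv (Function.update x 2 y) = Function.update (piv x) 2 (-y) := by
  funext j
  fin_cases j <;> simp [piv]

theorem piv_lip : LipschitzWith 1 piv := by
  refine LipschitzWith.of_dist_le_mul fun x y => ?_
  rw [NNReal.coe_one, one_mul, dist_pi_le_iff dist_nonneg]
  intro j
  fin_cases j
  · simpa [piv, dist_neg_neg] using dist_le_pi_dist x y 1
  · simpa [piv, dist_neg_neg] using dist_le_pi_dist x y 0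
  · simpa [piv, dist_neg_neg] using dist_le_pi_dist x y 2

theorem not_mem_S2 {j : Fin 3} (h : j ∉ S2) : j = 2 := by
  fin_cases j <;> simp_all [S2]

theorem box_piv {r : ℝ} {f : X3 → ℝ} (h : Box S2 r f) : Box S2 r (fun x => f (piv x)) := by
  refine ⟨?_, ?_, ?_⟩
  · obtain ⟨K, hK⟩ := h.lip
    exact ⟨K * 1, hK.comp piv_lip⟩
  · intro x hx j hj
    have h0 := h.supp (piv x) hx 0 (by simp [S2])
    have h1 := h.supp (piv x) hx 1 (by simp [S2])
    simp only [piv, Matrix.cons_val_zero, Matrix.cons_val_one, norm_neg] at h0 h1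
    simp only [S2, Finset.mem_insert, Finset.mem_singleton] at hj
    rcases hj with rfl | rfl
    · exact h1
    · exact h0
  · intro j hj x y
    rw [not_mem_S2 hj, piv_update]
    exact h.ind 2 (by simp [S2]) _ _

section
variable (hbl : S_bl) (hform : S_form)
include hbl

theorem fin : IsFiniteMeasure pm := by
  have h := (hbl.2.2.1 _ (hbl.2.1 1)).2.1
  rcases (integrable_const_iff (μ := pm) (c := (1 : ℝ))).1 h with h | h
  · norm_num at h
  · exact h

theorem int3 {U f g : X3 → ℝ} {M : ℝ} (hU : Measurable U) (hM : ∀ x, |U x| ≤ M)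
    (hf : BL f) (hg : BL g) : Integrable (fun x => U x * f x * g x) pm := by
  have := fin hbl
  obtain ⟨A, hA⟩ := hf.bdd
  obtain ⟨B, hB⟩ := hg.bdd
  have mf := (hbl.2.2.1 f hf).1
  have mg := (hbl.2.2.1 g hg).1
  refine Integrable.of_bound ((hU.mul mf).mul mg).aestronglyMeasurable (M * A * B) ?_
  refine Filter.Eventually.of_forall fun x => ?_
  rw [Real.norm_eq_abs, abs_mul, abs_mul]
  have hM0 : 0 ≤ M := (abs_nonneg _).trans (hM x)
  have hA0 : 0 ≤ A := (abs_nonneg _).trans (hA x)
  exact mul_le_mul (mul_le_mul (hM x) (hA x) (abs_nonneg _) hM0) (hB x) (abs_nonneg _)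
    (mul_nonneg hM0 hA0)

theorem int2 {f g : X3 → ℝ} (hf : BL f) (hg : BL g) : Integrable (fun x => f x * g x) pm := by
  have := int3 hbl (U := fun _ => 1) (M := 1) measurable_const (by simp) hf hg
  simpa using this

theorem par_int {U f g : X3 → ℝ} {M : ℝ} (hU : Measurable U) (hM : ∀ x, |U x| ≤ M)
    (hf : BL f) (hg : BL g) :
    (∫ x, U x * (f x + g x) * (f x + g x) ∂pm) + (∫ x, U x * (f x - g x) * (f x - g x) ∂pm) =
      2 * (∫ x, U x * f x * f x ∂pm) + 2 * ∫ x, U x * g x * g x ∂pm := by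
  have hp := (hbl.1 f g hf hg).1
  have hm := (hbl.1 f g hf hg).2.1
  rw [← integral_add (int3 hbl hU hM hp hp) (int3 hbl hU hM hm hm), ← integral_const_mul,
    ← integral_const_mul, ← integral_add ((int3 hbl hU hM hf hf).const_mul 2)
      ((int3 hbl hU hM hg hg).const_mul 2)]
  congr 1
  funext x
  ring

include hform

theorem par_DD {f g : X3 → ℝ} (hf : BL f) (hg : BL g) :
    DD (fun x => f x + g x) (fun x => f x + g x) + DD (fun x => f x - g x) (fun x => f x - g x) =
      2 * DD f f + 2 * DD g g := by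
  have hp := (hbl.1 f g hf hg).1
  have hm := (hbl.1 f g hf hg).2.1
  simp only [DD, Finset.mul_sum, ← Finset.sum_add_distrib]
  refine Finset.sum_congr rfl fun j _ => ?_
  have F := hform.1 j
  rw [(F f g _ hf hg hp 0).2.2.1, (F f g _ hf hg hm 0).2.2.2.1,
    (F f _ g hf hp hg 0).1, (F g _ g hg hp hg 0).1, (F f _ g hf hm hg 0).1, (F g _ g hg hm hg 0).1,
    (F f g f hf hg hf 0).2.2.1, (F f g g hf hg hg 0).2.2.1, (F f g f hf hg hf 0).2.2.2.1,
    (F f g g hf hg hg 0).2.2.2.1, (F g f f hg hf hf 0).1]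
  ring

omit hbl in
theorem smul_DD {f : X3 → ℝ} (hf : BL f) (hcf : ∀ c : ℝ, BL (fun x => c * f x)) (c : ℝ) :
    DD (fun x => c * f x) (fun x => c * f x) = c ^ 2 * DD f f := by
  simp only [DD, Finset.mul_sum]
  refine Finset.sum_congr rfl fun j _ => ?_
  have F := hform.1 j
  rw [(F f _ f hf (hcf c) hf c).2.2.2.2.1, (F f _ f hf (hcf c) hf c).1,
    (F f f f hf hf hf c).2.2.2.2.1]
  ring

theorem par_BB {U f g : X3 → ℝ} {M : ℝ} (hU : Measurable U) (hM : ∀ x, |U x| ≤ M)
    (hf : BL f) (hg : BL g) :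
    BB U (fun x => f x + g x) (fun x => f x + g x) + BB U (fun x => f x - g x)
      (fun x => f x - g x) = 2 * BB U f f + 2 * BB U g g := by
  have h1 := par_DD hbl hform hf hg
  have h2 := par_int hbl hU hM hf hg
  simp only [BB]
  linarith

omit hform in
theorem par_ip {f g : X3 → ℝ} (hf : BL f) (hg : BL g) :
    ip (fun x => f x + g x) (fun x => f x + g x) + ip (fun x => f x - g x)
      (fun x => f x - g x) = 2 * ip f f + 2 * ip g g := by
  have h2 := par_int hbl (U := fun _ => 1) (M := 1) measurable_const (by simp) hf hg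
  simpa [ip] using h2

end

end Even

open MolDis.H.Even in
/-- **D8.** -/
theorem p_even (hvar : S_var) (hapri : S_apri) (hpgap : S_pgap) (hsym : S_sym)
    (hpot : S_potsym) (havg : S_avg) (hbd : S_bounds) (hbl : S_bl) (hform : S_form) : S_even := by
  intro g0 hg0
  obtain ⟨C1, hC1, hbd⟩ := hbd
  obtain ⟨C, M0, r1, hC, hM0, hr1, hapri⟩ := hapri g0 hg0
  have hgp := hg0.pos
  have hgl := hg0.le
  refine ⟨2 + r1 + C1 / M0 + C1 + 8 * C1 / g0 + 8 * C * (C1 + 4) / g0, ?_, ?_⟩
  · have : 0 ≤ C1 / M0 + C1 + 8 * C1 / g0 + 8 * C * (C1 + 4) / g0 := by positivity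
    linarith
  intro r a hr ha
  have hp1 : 0 ≤ C1 / M0 := by positivity
  have hp2 : 0 ≤ 8 * C1 / g0 := by positivity
  have hp3 : 0 ≤ 8 * C * (C1 + 4) / g0 := by positivity
  have hr2 : 2 ≤ r := by linarith
  have hr0 : 0 < r := by linarith
  have hr1' : 1 ≤ r := by linarith
  have h8 : 8 * r ≤ a := by
    have h1 : (8 : ℝ) ≤ r ^ 3 := by
      have := pow_le_pow_left₀ (by norm_num : (0:ℝ) ≤ 2) hr2 3
      norm_num at this
      exact this
    have h2 := mul_le_mul_of_nonneg_right h1 hr0.le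
    have h3 : r ^ 3 * r = r ^ 4 := by ring
    linarith
  have ha0 : 0 < a := by linarith
  obtain ⟨mV, -, bV, -⟩ := hbd r a (2 * a) hr1' h8 le_rfl
  set U := V12 r a with hU
  set M := C1 * r ^ 2 / a ^ 3 with hM
  have hM0' : 0 ≤ M := by positivity
  have hMr : M ≤ C1 / r := by
    rw [hM, div_le_div_iff₀ (by positivity) hr0]
    have h1 : r ^ 3 ≤ a ^ 3 := pow_le_pow_left₀ hr0.le (by linarith) 3
    have h2 := mul_le_mul_of_nonneg_left h1 (by linarith : (0 : ℝ) ≤ C1)
    have h3 : C1 * r ^ 2 * r = C1 * r ^ 3 := by ring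
    linarith
  have hCr1 : C1 / r ≤ M0 := by
    rw [div_le_iff₀ hr0]
    have : C1 / M0 ≤ r := by linarith
    rw [div_le_iff₀ hM0] at this
    linarith
  have hCr2 : C1 / r ≤ 1 := by
    rw [div_le_iff₀ hr0]; linarith
  have hCr3 : C1 / r ≤ g0 / 8 := by
    rw [div_le_iff₀ hr0]
    have : 8 * C1 / g0 ≤ r := by linarith
    rw [div_le_iff₀ hgp] at this
    linarith
  have hexp : Real.exp (-r / 4) ≤ 4 / r := by
    have h1 : r / 4 ≤ Real.exp (r / 4) := by
      have := Real.add_one_le_exp (r / 4); linarith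
    rw [neg_div, Real.exp_neg, inv_le_comm₀ (Real.exp_pos _) (by positivity), inv_div]
    exact h1
  have hCr4 : C * (M ^ 2 + Real.exp (-r / 4)) ≤ g0 / 8 := by
    have h1 : M ^ 2 ≤ C1 / r := by
      have h2 := mul_le_mul_of_nonneg_right (hMr.trans hCr2) hM0'
      rw [sq]
      linarith
    have h2 : M ^ 2 + Real.exp (-r / 4) ≤ (C1 + 4) / r := by
      rw [add_div]; linarith
    have h3 : C * (M ^ 2 + Real.exp (-r / 4)) ≤ C * ((C1 + 4) / r) :=
      mul_le_mul_of_nonneg_left h2 (by linarith)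
    refine h3.trans ?_
    rw [← mul_div_assoc, div_le_iff₀ hr0]
    have : 8 * C * (C1 + 4) / g0 ≤ r := by linarith
    rw [div_le_iff₀ hgp] at this
    linarith
  have hne : S2.Nonempty := ⟨0, by simp [S2]⟩
  obtain ⟨-, -, -, iV, -, iVZ, -⟩ := havg r a (2 * a) hr1' h8 le_rfl
  have hEE := (hapri S2 r M U hne (by linarith) hM0' (hMr.trans hCr1) mV bV iV iVZ).1
  have hU1 : ∀ x, |U x| ≤ 1 := fun x => (bV x).trans (hMr.trans hCr2)
  obtain ⟨-, hlow, hnear, -⟩ := hvar S2 r U hne hr1' mV hU1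
  set E := EE S2 r U with hE
  have hE8 := abs_le.1 (hEE.trans hCr4)
  have he0 := Real.exp_pos (-r)
  obtain ⟨f, hfb, hf1, hfe⟩ := hnear (min (Real.exp (-r) / 2) (g0 / 4))
    (lt_min (by positivity) (by positivity))
  set ε := min (Real.exp (-r) / 2) (g0 / 4) with hε
  have hε1 : ε ≤ Real.exp (-r) / 2 := min_le_left _ _
  have hε2 : ε ≤ g0 / 4 := min_le_right _ _
  have hε0 : 0 < ε := lt_min (by positivity) (by positivity)
  have box_bl : ∀ g : X3 → ℝ, Box S2 r g → BL g := fun g hg => hbl.2.2.2.1 S2 r g hg hr0 hne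
  have hfB := box_bl f hfb
  have hgb := box_piv hfb
  set g : X3 → ℝ := fun x => f (piv x) with hg
  have hgB := box_bl g hgb
  -- invariance
  obtain ⟨mp, -, sD, -⟩ := hsym (Equiv.swap 0 1) (fun _ _ => -1) (fun _ _ => Or.inr rfl)
  have hpiv : (sgT (Equiv.swap 0 1) fun _ _ => -1) = piv := by
    funext x; exact (piv_eq x).symm
  rw [hpiv] at mp
  have hDg : DD g g = DD f f := by
    have := sD f f hfB hfB
    rw [hpiv] at this
    exact this
  have hint : ∀ k : X3 → ℝ, Measurable k → ∫ x, k (piv x) ∂pm = ∫ x, k x ∂pm := by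
    intro k hk
    have h1 := integral_map (μ := pm) (φ := piv) mp.measurable.aemeasurable
      (f := k) hk.aestronglyMeasurable
    rw [mp.map_eq] at h1
    exact h1.symm
  have mf := (hbl.2.2.1 f hfB).1
  have hBg : BB U g g = BB U f f := by
    simp only [BB, hDg]
    congr 1
    rw [← hint (fun x => U x * f x * f x) ((mV.mul mf).mul mf)]
    congr 1
    funext x
    have := (hpot r a (2 * a)).1 x
    simp only [hg, hU, this]
  have hig : ip g g = 1 := by
    rw [← hf1]
    simp only [ip]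
    exact hint (fun x => f x * f x) (mf.mul mf)
  obtain ⟨hpb, hmb, -⟩ := hbl.2.2.2.2.1 S2 r f g 0 hfb hgb
  set p : X3 → ℝ := fun x => f x + g x with hp
  set m : X3 → ℝ := fun x => f x - g x with hm
  have hpB := box_bl p hpb
  have hmB := box_bl m hmb
  have e1 : BB U p p + BB U m m = 4 * BB U f f := by
    have := par_BB hbl hform mV hU1 hfB hgB
    rw [hBg] at this
    linarith
  have e2 : ip p p + ip m m = 4 := by
    have := par_ip hbl hfB hgB
    rw [hig, hf1] at this
    linarith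
  have im0 : ∫ x, m x ∂pm = 0 := by
    rw [hm, integral_sub (hbl.2.2.1 f hfB).2.1 (hbl.2.2.1 g hgB).2.1, hint f mf, sub_self]
  have ipm0 : 0 ≤ ip m m := integral_nonneg fun x => mul_self_nonneg _
  have hDm : g0 * ip m m ≤ DD m m := by
    have := (hpgap g0 hg0 S2 r m hr0 hne hmb).2.1
    rw [im0] at this
    linarith
  have hUm : -(g0 / 8) * ip m m ≤ ∫ x, U x * m x * m x ∂pm := by
    rw [ip, ← integral_const_mul]
    refine integral_mono ((int2 hbl hmB hmB).const_mul _) (int3 hbl mV hU1 hmB hmB) fun x => ?_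
    have h1 := (abs_le.1 ((bV x).trans (hMr.trans hCr3))).1
    have h2 := mul_self_nonneg (m x)
    have h3 := mul_le_mul_of_nonneg_right h1 h2
    have h4 : U x * (m x * m x) = U x * m x * m x := by ring
    rw [h4] at h3
    exact h3
  have hBm : g0 / 2 * ip m m ≤ BB U m m - E * ip m m := by
    have h1 : E * ip m m ≤ g0 / 8 * ip m m := mul_le_mul_of_nonneg_right hE8.2 ipm0
    have h2 : 0 ≤ g0 * ip m m := mul_nonneg hgp.le ipm0
    have h3 : BB U m m = DD m m + ∫ x, U x * m x * m x ∂pm := rfl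
    rw [h3]
    linarith
  have hBp : 0 ≤ BB U p p - E * ip p p := by
    have := hlow p hpb; linarith
  have hBp2 : BB U p p - E * ip p p ≤ 4 * ε := by
    have : BB U p p - E * ip p p + (BB U m m - E * ip m m) ≤ 4 * ε := by
      have : BB U p p - E * ip p p + (BB U m m - E * ip m m) =
          4 * BB U f f - E * 4 := by rw [← e1, ← e2]; ring
      rw [this]; linarith
    have h0 : 0 ≤ g0 / 2 * ip m m := by positivity
    linarith
  have him : ip m m ≤ 2 := by
    have h1 : g0 / 2 * ip m m ≤ 4 * ε := by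
      have : BB U p p - E * ip p p + (BB U m m - E * ip m m) =
          4 * BB U f f - E * 4 := by rw [← e1, ← e2]; ring
      linarith
    have h2 : g0 / 2 * ip m m ≤ g0 / 2 * 2 := by linarith
    exact le_of_mul_le_mul_left h2 (by positivity)
  have hip : 2 ≤ ip p p := by linarith
  have hip0 : 0 < ip p p := by linarith
  have hsq : 0 < √(ip p p) := Real.sqrt_pos.2 hip0
  set c : ℝ := (√(ip p p))⁻¹ with hc
  have hc2 : c ^ 2 * ip p p = 1 := by
    rw [hc, inv_pow, Real.sq_sqrt hip0.le, inv_mul_cancel₀ hip0.ne']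
  have hcle : c ^ 2 ≤ 1 / 2 := by
    have := mul_le_mul_of_nonneg_left hip (sq_nonneg c)
    linarith
  have box_c : ∀ t : ℝ, Box S2 r (fun x => t * p x) := fun t =>
    (hbl.2.2.2.2.1 S2 r p p t hpb hpb).2.2
  refine ⟨fun x => c * p x, ⟨box_c c, ?_, ?_⟩, ?_⟩
  · have : ip (fun x => c * p x) (fun x => c * p x) = c ^ 2 * ip p p := by
      simp only [ip]
      rw [← integral_const_mul]
      congr 1
      funext x
      ring
    rw [this, hc2]
  · have h1 : BB U (fun x => c * p x) (fun x => c * p x) = c ^ 2 * BB U p p := by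
      simp only [BB]
      rw [smul_DD hform hpB (fun t => box_bl _ (box_c t)) c, mul_add, ← integral_const_mul]
      congr 2
      funext x
      ring
    rw [h1]
    have h2 : c ^ 2 * (BB U p p - E * ip p p) ≤ 1 / 2 * (4 * ε) :=
      mul_le_mul hcle hBp2 hBp (by norm_num)
    have h3 : c ^ 2 * BB U p p = c ^ 2 * (BB U p p - E * ip p p) + E * (c ^ 2 * ip p p) := by ring
    rw [h3, hc2]
    linarith
  · intro x
    simp only [hp, hg, piv_piv]
    ring

end MolDis.H
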