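import Pool.Agent.Lib.MP_59f35a_mp.HStmts

/-!
# MP_59f35a_mp : piece U4 (multipole expansion of the field)
-/

noncomputable section

open MeasureTheory

namespace MolDis.H

namespace Fld

/-- Taylor polynomial of `(1+u)^(-3/2)` -/
def TT (u : ℝ) : ℝ :=
  1 - 3 / 2 * u + 15 / 8 * u ^ 2 - 35 / 16 * u ^ 3 + 315 / 128 * u ^ 4 - 693 / 256 * u ^ 5

def pp (u : ℝ) : ℝ :=
  3003 / 512 + 1287 / 512 * u - 9009 / 16384 * u ^ 2 + 1001 / 4096 * u ^ 3 - 9009 / 65536 * u ^ 4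
    + 5733 / 65536 * u ^ 5 - 567567 / 65536 * u ^ 6 - 480249 / 65536 * u ^ 7

lemma TT_pos {u : ℝ} (hu : |u| ≤ 9 / 16) : 0 ≤ TT u := by
  obtain ⟨h1, h2⟩ := abs_le.1 hu
  have a1 : 0 ≤ 1 - 3 / 2 * u := by linarith
  have a2 : 0 ≤ u ^ 2 * (15 / 8 - 35 / 16 * u) := mul_nonneg (sq_nonneg _) (by linarith)
  have a3 : 0 ≤ u ^ 4 * (315 / 128 - 693 / 256 * u) := mul_nonneg (by positivity) (by linarith)
  unfold TT
  nlinarith

lemma pp_le {u : ℝ} (hu : |u| ≤ 9 / 16) : |pp u| ≤ 26 := by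
  have h1 : ∀ k : ℕ, |u ^ k| ≤ 1 := fun k => by
    rw [abs_pow]
    exact pow_le_one₀ (abs_nonneg _) (by linarith)
  have b1 := abs_le.1 (h1 1)
  have b2 := abs_le.1 (h1 2)
  have b3 := abs_le.1 (h1 3)
  have b4 := abs_le.1 (h1 4)
  have b5 := abs_le.1 (h1 5)
  have b6 := abs_le.1 (h1 6)
  have b7 := abs_le.1 (h1 7)
  rw [pow_one] at b1
  unfold pp
  rw [abs_le]
  constructor <;> linarith [b1.1, b1.2, b2.1, b2.2, b3.1, b3.2, b4.1, b4.2, b5.1, b5.2, b6.1,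
    b6.2, b7.1, b7.2]

lemma tay {u w : ℝ} (hu : |u| ≤ 9 / 16) (hw : 0 < w) (hw1 : w ≤ 4 / 3) (h : w ^ 2 * (1 + u) = 1) :
    |w ^ 3 - TT u| ≤ 62 * u ^ 6 := by
  have hT := TT_pos hu
  have hp := pp_le hu
  have e1 : 1 - (1 + u) ^ 3 * TT u ^ 2 = u ^ 6 * pp u := by
    unfold TT pp
    ring
  have e2 : (w ^ 3 - TT u) * (w ^ 3 + TT u) = w ^ 6 * (u ^ 6 * pp u) := by
    rw [← e1]
    have e3 : w ^ 6 * (1 + u) ^ 3 = 1 := by
      have : w ^ 6 * (1 + u) ^ 3 = (w ^ 2 * (1 + u)) ^ 3 := by ring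
      rw [this, h, one_pow]
    have : w ^ 6 * (1 - (1 + u) ^ 3 * TT u ^ 2) = w ^ 6 - (w ^ 6 * (1 + u) ^ 3) * TT u ^ 2 := by
      ring
    rw [this, e3]
    ring
  have hw3 : 0 < w ^ 3 := by positivity
  have e4 : |w ^ 3 - TT u| * w ^ 3 ≤ w ^ 6 * (u ^ 6 * 26) := by
    calc |w ^ 3 - TT u| * w ^ 3 ≤ |w ^ 3 - TT u| * (w ^ 3 + TT u) :=
          mul_le_mul_of_nonneg_left (by linarith) (abs_nonneg _)
      _ = |(w ^ 3 - TT u) * (w ^ 3 + TT u)| := by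
          rw [abs_mul, abs_of_nonneg (by positivity : 0 ≤ w ^ 3 + TT u)]
      _ = w ^ 6 * (u ^ 6 * |pp u|) := by
          rw [e2, abs_mul, abs_mul, abs_of_nonneg (by positivity : 0 ≤ w ^ 6),
            abs_of_nonneg (by positivity : 0 ≤ u ^ 6)]
      _ ≤ _ := mul_le_mul_of_nonneg_left (mul_le_mul_of_nonneg_left hp (by positivity))
          (by positivity)
  have e5 : w ^ 6 * (u ^ 6 * 26) = (w ^ 3 * (u ^ 6 * 26)) * w ^ 3 := by ring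
  rw [e5] at e4
  have e6 := le_of_mul_le_mul_right e4 hw3
  have e7 : w ^ 3 ≤ (4 / 3) ^ 3 := pow_le_pow_left₀ hw.le hw1 3
  have e8 : w ^ 3 * (u ^ 6 * 26) ≤ (4 / 3) ^ 3 * (u ^ 6 * 26) :=
    mul_le_mul_of_nonneg_right e7 (by positivity)
  have e9 : 0 ≤ u ^ 6 := by positivity
  norm_num at e8
  linarith

lemma rest_le {c q : ℝ} (hq : q ≤ 1 / 16) (hc : c ^ 2 ≤ q) :
    |(1 / 2) * ((1 - c) * TT (-2 * c + q) + (1 + c) * TT (2 * c + q)) -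
      (1 + 3 * ((3 * c ^ 2 - q) / 2) + 5 * ((35 * c ^ 4 - 30 * c ^ 2 * q + 3 * q ^ 2) / 8))| ≤
      610 * q ^ 3 := by
  have hq0 : 0 ≤ q := (sq_nonneg c).trans hc
  obtain ⟨D, hD⟩ : ∃ D, D = c ^ 2 := ⟨_, rfl⟩
  have hD0 : 0 ≤ D := by rw [hD]; positivity
  have hDq : D ≤ q := by rw [hD]; exact hc
  have e : (1 / 2) * ((1 - c) * TT (-2 * c + q) + (1 + c) * TT (2 * c + q)) -
      (1 + 3 * ((3 * c ^ 2 - q) / 2) + 5 * ((35 * c ^ 4 - 30 * c ^ 2 * q + 3 * q ^ 2) / 8)) =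
      -35 / 16 * q ^ 3 + 315 / 128 * q ^ 4 - 693 / 256 * q ^ 5 + 735 / 16 * (D * q ^ 2)
      - 2835 / 32 * (D * q ^ 3) - 3465 / 128 * (D * q ^ 4) - 2205 / 16 * (D ^ 2 * q)
      - 3465 / 16 * (D ^ 2 * q ^ 2) - 693 / 8 * D ^ 3 := by
    rw [hD]
    unfold TT
    ring
  rw [e]
  have hq1 : q ≤ 1 := by linarith
  have h4 : q ^ 4 ≤ q ^ 3 := pow_le_pow_of_le_one hq0 hq1 (by norm_num)
  have h5 : q ^ 5 ≤ q ^ 3 := pow_le_pow_of_le_one hq0 hq1 (by norm_num)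
  have m1 : D * q ^ 2 ≤ q ^ 3 := by
    calc D * q ^ 2 ≤ q * q ^ 2 := mul_le_mul_of_nonneg_right hDq (by positivity)
      _ = q ^ 3 := by ring
  have m2 : D * q ^ 3 ≤ q ^ 3 := mul_le_of_le_one_left (by positivity) (by linarith)
  have m3 : D * q ^ 4 ≤ q ^ 3 := (mul_le_of_le_one_left (by positivity) (by linarith)).trans h4
  have m4 : D ^ 2 * q ≤ q ^ 3 := by
    calc D ^ 2 * q ≤ q ^ 2 * q := mul_le_mul_of_nonneg_right (pow_le_pow_left₀ hD0 hDq 2) hq0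
      _ = q ^ 3 := by ring
  have m5 : D ^ 2 * q ^ 2 ≤ q ^ 3 := by
    calc D ^ 2 * q ^ 2 ≤ q ^ 2 * q ^ 2 :=
          mul_le_mul_of_nonneg_right (pow_le_pow_left₀ hD0 hDq 2) (by positivity)
      _ = q ^ 4 := by ring
      _ ≤ q ^ 3 := h4
  have m6 : D ^ 3 ≤ q ^ 3 := pow_le_pow_left₀ hD0 hDq 3
  have n1 : 0 ≤ D * q ^ 2 := by positivity
  have n2 : 0 ≤ D * q ^ 3 := by positivity
  have n3 : 0 ≤ D * q ^ 4 := by positivity
  have n4 : 0 ≤ D ^ 2 * q := by positivity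
  have n5 : 0 ≤ D ^ 2 * q ^ 2 := by positivity
  have n6 : 0 ≤ D ^ 3 := by positivity
  have n7 : 0 ≤ q ^ 3 := by positivity
  have n8 : 0 ≤ q ^ 4 := by positivity
  have n9 : 0 ≤ q ^ 5 := by positivity
  rw [abs_le]
  constructor <;> linarith

lemma main {c q w w' : ℝ} (hq : q ≤ 1 / 16) (hc : c ^ 2 ≤ q) (hw : 0 < w) (hw1 : w ≤ 4 / 3)
    (h : w ^ 2 * (1 + (-2 * c + q)) = 1) (hw' : 0 < w') (hw1' : w' ≤ 4 / 3)
    (h' : w' ^ 2 * (1 + (2 * c + q)) = 1) :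
    |(1 / 2) * ((1 - c) * w ^ 3 + (1 + c) * w' ^ 3) -
      (1 + 3 * ((3 * c ^ 2 - q) / 2) + 5 * ((35 * c ^ 4 - 30 * c ^ 2 * q + 3 * q ^ 2) / 8))| ≤
      11000 * q ^ 3 := by
  have hq0 : 0 ≤ q := (sq_nonneg c).trans hc
  have hc1 : |c| ≤ 1 / 4 := by
    rw [← Real.sqrt_sq_eq_abs]
    rw [Real.sqrt_le_left (by norm_num)]
    linarith
  obtain ⟨c1, c2⟩ := abs_le.1 hc1
  have u1 : |-2 * c + q| ≤ 9 / 16 := by
    rw [abs_le]
    constructor <;> linarith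
  have u2 : |2 * c + q| ≤ 9 / 16 := by
    rw [abs_le]
    constructor <;> linarith
  have t1 := tay u1 hw hw1 h
  have t2 := tay u2 hw' hw1' h'
  have s1 : (-2 * c + q) ^ 2 ≤ 81 / 16 * q := by nlinarith
  have s2 : (2 * c + q) ^ 2 ≤ 81 / 16 * q := by nlinarith
  have r1 : (-2 * c + q) ^ 6 ≤ 130 * q ^ 3 := by
    have : (-2 * c + q) ^ 6 = ((-2 * c + q) ^ 2) ^ 3 := by ring
    rw [this]
    have h3 := pow_le_pow_left₀ (sq_nonneg (-2 * c + q)) s1 3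
    have n7 : 0 ≤ q ^ 3 := by positivity
    have e : (81 / 16 * q) ^ 3 = (81 / 16) ^ 3 * q ^ 3 := by ring
    rw [e] at h3
    norm_num at h3
    linarith
  have r2 : (2 * c + q) ^ 6 ≤ 130 * q ^ 3 := by
    have : (2 * c + q) ^ 6 = ((2 * c + q) ^ 2) ^ 3 := by ring
    rw [this]
    have h3 := pow_le_pow_left₀ (sq_nonneg (2 * c + q)) s2 3
    have n7 : 0 ≤ q ^ 3 := by positivity
    have e : (81 / 16 * q) ^ 3 = (81 / 16) ^ 3 * q ^ 3 := by ring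
    rw [e] at h3
    norm_num at h3
    linarith
  have hr := rest_le hq hc
  have n7 : 0 ≤ q ^ 3 := by positivity
  have e : (1 / 2) * ((1 - c) * w ^ 3 + (1 + c) * w' ^ 3) -
      (1 + 3 * ((3 * c ^ 2 - q) / 2) + 5 * ((35 * c ^ 4 - 30 * c ^ 2 * q + 3 * q ^ 2) / 8)) =
      ((1 / 2) * ((1 - c) * TT (-2 * c + q) + (1 + c) * TT (2 * c + q)) -
      (1 + 3 * ((3 * c ^ 2 - q) / 2) + 5 * ((35 * c ^ 4 - 30 * c ^ 2 * q + 3 * q ^ 2) / 8))) +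
      ((1 - c) / 2 * (w ^ 3 - TT (-2 * c + q)) + (1 + c) / 2 * (w' ^ 3 - TT (2 * c + q))) := by
    ring
  rw [e]
  have b1 : |(1 - c) / 2 * (w ^ 3 - TT (-2 * c + q))| ≤ 5 / 8 * (62 * (130 * q ^ 3)) := by
    rw [abs_mul]
    refine mul_le_mul ?_ (t1.trans (by linarith)) (abs_nonneg _) (by norm_num)
    rw [abs_of_nonneg (by linarith)]
    linarith
  have b2 : |(1 + c) / 2 * (w' ^ 3 - TT (2 * c + q))| ≤ 5 / 8 * (62 * (130 * q ^ 3)) := by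
    rw [abs_mul]
    refine mul_le_mul ?_ (t2.trans (by linarith)) (abs_nonneg _) (by norm_num)
    rw [abs_of_nonneg (by linarith)]
    linarith
  calc _ ≤ 610 * q ^ 3 + (5 / 8 * (62 * (130 * q ^ 3)) + 5 / 8 * (62 * (130 * q ^ 3))) :=
        (abs_add_le _ _).trans (add_le_add hr ((abs_add_le _ _).trans (add_le_add b1 b2)))
    _ ≤ _ := by linarith

lemma nsq3 (X : E3) : ‖X‖ ^ 2 = X 0 ^ 2 + X 1 ^ 2 + X 2 ^ 2 := by
  rw [EuclideanSpace.norm_sq_eq, Fin.sum_univ_three]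
  simp only [Real.norm_eq_abs, sq_abs]

lemma ip0 (l : ℝ) (X : E3) : inner ℝ (l • ec 0) X = l * X 0 := by
  rw [real_inner_smul_left]
  unfold ec
  rw [EuclideanSpace.inner_single_left]
  simp

lemma ne0 (l : ℝ) : ‖l • ec 0‖ ^ 2 = l ^ 2 := by
  rw [norm_smul]
  unfold ec
  rw [PiLp.norm_single]
  simp

end Fld

open Fld

theorem p_field : S_field := by
  refine ⟨11000, by norm_num, fun l X hl hX => ?_⟩
  have hX0 := norm_nonneg X
  have n1 := nsq3 X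
  have bm : ‖l • ec 0 - X‖ ^ 2 = l ^ 2 - 2 * l * X 0 + ‖X‖ ^ 2 := by
    rw [norm_sub_sq_real, ne0, ip0]
    ring
  have bp : ‖l • ec 0 + X‖ ^ 2 = l ^ 2 + 2 * l * X 0 + ‖X‖ ^ 2 := by
    rw [norm_add_sq_real, ne0, ip0]
    ring
  have hle : ‖l • ec 0‖ = l := by
    have := ne0 l
    exact (pow_left_inj₀ (norm_nonneg _) hl.le (by norm_num)).1 this
  have lm : 3 / 4 * l ≤ ‖l • ec 0 - X‖ := by
    have := norm_sub_norm_le (l • ec 0) X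
    rw [hle] at this
    linarith
  have lp : 3 / 4 * l ≤ ‖l • ec 0 + X‖ := by
    have := norm_sub_norm_le (l • ec 0) (-X)
    rw [hle, norm_neg, sub_neg_eq_add] at this
    linarith
  set bM := ‖l • ec 0 - X‖ with hbM
  set bP := ‖l • ec 0 + X‖ with hbP
  have pM : 0 < bM := by linarith
  have pP : 0 < bP := by linarith
  have key := main (c := X 0 / l) (q := ‖X‖ ^ 2 / l ^ 2) (w := l / bM) (w' := l / bP)
    (by
      rw [div_le_iff₀ (by positivity)]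
      nlinarith)
    (by
      rw [div_pow]
      refine div_le_div_of_nonneg_right ?_ (by positivity)
      nlinarith [sq_nonneg (X 1), sq_nonneg (X 2)])
    (by positivity) (by rw [div_le_iff₀ pM]; linarith)
    (by
      have : 1 + (-2 * (X 0 / l) + ‖X‖ ^ 2 / l ^ 2) = bM ^ 2 / l ^ 2 := by
        rw [bm]
        field_simp
        ring
      rw [this, div_pow]
      field_simp)
    (by positivity) (by rw [div_le_iff₀ pP]; linarith)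
    (by
      have : 1 + (2 * (X 0 / l) + ‖X‖ ^ 2 / l ^ 2) = bP ^ 2 / l ^ 2 := by
        rw [bp]
        field_simp
        ring
      rw [this, div_pow]
      field_simp)
  have e1 : (1 / 2) * ((l - X 0) / bM ^ 3 + (l + X 0) / bP ^ 3)
      - (1 / l ^ 2 + 3 * hh 2 X / l ^ 4 + 5 * hh 4 X / l ^ 6) =
      (1 / l ^ 2) * ((1 / 2) * ((1 - X 0 / l) * (l / bM) ^ 3 + (1 + X 0 / l) * (l / bP) ^ 3) -
      (1 + 3 * ((3 * (X 0 / l) ^ 2 - ‖X‖ ^ 2 / l ^ 2) / 2) +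
        5 * ((35 * (X 0 / l) ^ 4 - 30 * (X 0 / l) ^ 2 * (‖X‖ ^ 2 / l ^ 2) +
          3 * (‖X‖ ^ 2 / l ^ 2) ^ 2) / 8))) := by
    rw [n1]
    simp only [hh]
    field_simp
    ring
  rw [e1, abs_mul, abs_of_nonneg (by positivity : 0 ≤ 1 / l ^ 2)]
  refine (mul_le_mul_of_nonneg_left key (by positivity)).trans (le_of_eq ?_)
  field_simp

end MolDis.H
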