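import Pool.Agent.Lib.MP_59f35a_mp.HStmts

/-!
# MP_59f35a_mp, piece P3: the Dirichlet form
-/

set_option autoImplicit false

noncomputable section

open MeasureTheory

namespace MolDis.H

namespace Form

lemma quad {a b c : ℝ} (ha : 0 ≤ a) (h : ∀ t : ℝ, 0 ≤ a + 2 * t * b + t ^ 2 * c) :
    |b| ≤ √a * √c := by
  have h1 : ∀ x : ℝ, 0 ≤ c * (x * x) + (2 * b) * x + a := fun x => by
    have := h x
    calc (0 : ℝ) ≤ a + 2 * x * b + x ^ 2 * c := this
      _ = _ := by ring
  have h2 := discrim_le_zero h1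
  unfold discrim at h2
  rw [← Real.sqrt_mul ha]
  exact Real.abs_le_sqrt (by nlinarith)

lemma bint (hP : S_prod) {F : X3 → ℝ} (hm : Measurable F) (hB : ∃ K : ℝ, ∀ x, |F x| ≤ K) :
    Integrable F pm := by
  have := hP.1
  obtain ⟨K, hK⟩ := hB
  exact Integrable.of_bound hm.aestronglyMeasurable K (ae_of_all _ hK)

lemma pdm (hbl : S_bl) {f : X3 → ℝ} (hf : BL f) (j c : Fin 3) : Measurable (pd j c f) :=
  ((hbl.2.2.1 f hf).2.2.2.1 j c).1

lemma pdb (hbl : S_bl) {f : X3 → ℝ} (hf : BL f) (j c : Fin 3) : ∃ K : ℝ, ∀ x, |pd j c f x| ≤ K :=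
  ((hbl.2.2.1 f hf).2.2.2.1 j c).2

lemma mulb {F G : X3 → ℝ} (hF : ∃ K : ℝ, ∀ x, |F x| ≤ K) (hG : ∃ K : ℝ, ∀ x, |G x| ≤ K) :
    ∃ K : ℝ, ∀ x, |F x * G x| ≤ K := by
  obtain ⟨K, hK⟩ := hF
  obtain ⟨L, hL⟩ := hG
  refine ⟨K * L, fun x => ?_⟩
  rw [abs_mul]
  exact mul_le_mul (hK x) (hL x) (abs_nonneg _) ((abs_nonneg _).trans (hK x))

lemma ppint (hP : S_prod) (hbl : S_bl) {f g : X3 → ℝ} (hf : BL f) (hg : BL g) (j c : Fin 3) :
    Integrable (fun x => pd j c f x * pd j c g x) pm :=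
  bint hP ((pdm hbl hf j c).mul (pdm hbl hg j c)) (mulb (pdb hbl hf j c) (pdb hbl hg j c))

lemma pd_add (hbl : S_bl) {f g : X3 → ℝ} (hf : BL f) (hg : BL g) (j c : Fin 3) :
    ∀ᵐ x ∂pm, pd j c (fun x => f x + g x) x = pd j c f x + pd j c g x := by
  filter_upwards [(hbl.2.2.1 f hf).2.2.2.2 j c, (hbl.2.2.1 g hg).2.2.2.2 j c] with x h1 h2
  exact (HasDerivAt.fun_add h1.hasLineDerivAt h2.hasLineDerivAt).deriv

lemma pd_sub (hbl : S_bl) {f g : X3 → ℝ} (hf : BL f) (hg : BL g) (j c : Fin 3) :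
    ∀ᵐ x ∂pm, pd j c (fun x => f x - g x) x = pd j c f x - pd j c g x := by
  filter_upwards [(hbl.2.2.1 f hf).2.2.2.2 j c, (hbl.2.2.1 g hg).2.2.2.2 j c] with x h1 h2
  exact (HasDerivAt.fun_sub h1.hasLineDerivAt h2.hasLineDerivAt).deriv

lemma pd_mul (hbl : S_bl) {f g : X3 → ℝ} (hf : BL f) (hg : BL g) (j c : Fin 3) :
    ∀ᵐ x ∂pm, pd j c (fun x => f x * g x) x = pd j c f x * g x + f x * pd j c g x := by
  filter_upwards [(hbl.2.2.1 f hf).2.2.2.2 j c, (hbl.2.2.1 g hg).2.2.2.2 j c] with x h1 h2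
  have h3 := (HasDerivAt.fun_mul h1.hasLineDerivAt h2.hasLineDerivAt).deriv
  simp only [zero_smul, add_zero] at h3
  exact h3

lemma pd_cmul {w f : X3 → ℝ} (j c : Fin 3) (hw : ∀ x y, w (Function.update x j y) = w x)
    (x : X3) : pd j c (fun x => w x * f x) x = w x * pd j c f x := by
  have h1 : ∀ t : ℝ, w (x + t • (Pi.single j (ec c) : X3)) = w x := by
    intro t
    have : x + t • (Pi.single j (ec c) : X3) = Function.update x j (x j + t • ec c) := by
      funext i
      by_cases hi : i = j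
      · subst hi; simp
      · simp [hi]
    rw [this, hw]
  unfold pd lineDeriv
  have h2 : (fun t : ℝ => w (x + t • (Pi.single j (ec c) : X3)) *
      f (x + t • (Pi.single j (ec c) : X3))) =
      fun t : ℝ => w x * f (x + t • (Pi.single j (ec c) : X3)) := funext fun t => by rw [h1 t]
  rw [h2, deriv_const_mul_field]

lemma Dj_comm (j : Fin 3) (f g : X3 → ℝ) : Dj j f g = Dj j g f := by
  unfold Dj
  simp only [mul_comm]

lemma Dj_nonneg (j : Fin 3) (f : X3 → ℝ) : 0 ≤ Dj j f f :=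
  Finset.sum_nonneg fun _ _ => integral_nonneg fun _ => mul_self_nonneg _

lemma Dj_add (hP : S_prod) (hbl : S_bl) {f g h : X3 → ℝ} (hf : BL f) (hg : BL g) (hh : BL h)
    (j : Fin 3) : Dj j (fun x => f x + g x) h = Dj j f h + Dj j g h := by
  unfold Dj
  rw [← Finset.sum_add_distrib]
  refine Finset.sum_congr rfl fun c _ => ?_
  rw [← integral_add (ppint hP hbl hf hh j c) (ppint hP hbl hg hh j c)]
  refine integral_congr_ae ?_
  filter_upwards [pd_add hbl hf hg j c] with x hx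
  rw [hx, add_mul]

lemma Dj_sub (hP : S_prod) (hbl : S_bl) {f g h : X3 → ℝ} (hf : BL f) (hg : BL g) (hh : BL h)
    (j : Fin 3) : Dj j (fun x => f x - g x) h = Dj j f h - Dj j g h := by
  unfold Dj
  rw [← Finset.sum_sub_distrib]
  refine Finset.sum_congr rfl fun c _ => ?_
  rw [← integral_sub (ppint hP hbl hf hh j c) (ppint hP hbl hg hh j c)]
  refine integral_congr_ae ?_
  filter_upwards [pd_sub hbl hf hg j c] with x hx
  rw [hx, sub_mul]

lemma Dj_smul (a : ℝ) (f g : X3 → ℝ) (j : Fin 3) :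
    Dj j (fun x => a * f x) g = a * Dj j f g := by
  unfold Dj
  rw [Finset.mul_sum]
  refine Finset.sum_congr rfl fun c _ => ?_
  rw [← integral_const_mul]
  refine integral_congr_ae (ae_of_all _ fun x => ?_)
  have := pd_cmul (w := fun _ => a) (f := f) j c (fun _ _ => rfl) x
  simp only at this ⊢
  rw [this, mul_assoc]

lemma BL_smul (hbl : S_bl) {f : X3 → ℝ} (hf : BL f) (t : ℝ) : BL (fun x => t * f x) :=
  (hbl.1 (fun _ => t) f (hbl.2.1 t) hf).2.2

lemma Dj_quad (hP : S_prod) (hbl : S_bl) {f g : X3 → ℝ} (hf : BL f) (hg : BL g) (j : Fin 3)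
    (t : ℝ) : Dj j (fun x => f x + t * g x) (fun x => f x + t * g x) =
      Dj j f f + 2 * t * Dj j f g + t ^ 2 * Dj j g g := by
  have htg := BL_smul hbl hg t
  have hs := (hbl.1 f _ hf htg).1
  rw [Dj_add hP hbl hf htg hs, Dj_comm j f, Dj_add hP hbl hf htg hf, Dj_smul, Dj_smul,
    Dj_comm j g (fun x => f x + t * g x), Dj_add hP hbl hf htg hg, Dj_smul, Dj_comm j g f]
  ring

lemma DD_quad (hP : S_prod) (hbl : S_bl) {f g : X3 → ℝ} (hf : BL f) (hg : BL g)
    (t : ℝ) : DD (fun x => f x + t * g x) (fun x => f x + t * g x) =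
      DD f f + 2 * t * DD f g + t ^ 2 * DD g g := by
  unfold DD
  rw [Finset.mul_sum, Finset.mul_sum, ← Finset.sum_add_distrib, ← Finset.sum_add_distrib]
  exact Finset.sum_congr rfl fun j _ => Dj_quad hP hbl hf hg j t

lemma DD_nonneg (f : X3 → ℝ) : 0 ≤ DD f f := Finset.sum_nonneg fun j _ => Dj_nonneg j f

lemma ipint (hP : S_prod) (hbl : S_bl) {f g : X3 → ℝ} (hf : BL f) (hg : BL g) :
    Integrable (fun x => f x * g x) pm :=
  bint hP ((hbl.2.2.1 f hf).1.mul (hbl.2.2.1 g hg).1) (mulb hf.bdd hg.bdd)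

lemma ip_quad (hP : S_prod) (hbl : S_bl) {f g : X3 → ℝ} (hf : BL f) (hg : BL g)
    (t : ℝ) : ip (fun x => f x + t * g x) (fun x => f x + t * g x) =
      ip f f + 2 * t * ip f g + t ^ 2 * ip g g := by
  unfold ip
  have e : (fun x => (f x + t * g x) * (f x + t * g x)) =
      fun x => (f x * f x + 2 * t * (f x * g x)) + t ^ 2 * (g x * g x) := by
    funext x; ring
  have i1 := ipint hP hbl hf hf
  have i2 := (ipint hP hbl hf hg).const_mul (2 * t)
  have i3 := (ipint hP hbl hg hg).const_mul (t ^ 2)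
  have i4 : Integrable (fun x => f x * f x + 2 * t * (f x * g x)) pm := i1.add i2
  rw [e, integral_add i4 i3, integral_add i1 i2, integral_const_mul, integral_const_mul]

end Form

open Form in
theorem p_form (hP : S_prod) (hbl : S_bl) : S_form := by
  refine ⟨?_, ?_, ?_, ?_, ?_, ?_⟩
  · intro j f g h hf hg hh c
    refine ⟨Dj_comm j f g, Dj_nonneg j f, Dj_add hP hbl hf hg hh j, Dj_sub hP hbl hf hg hh j,
      Dj_smul c f g j, ?_⟩
    refine quad (Dj_nonneg j f) fun t => ?_
    rw [← Dj_quad hP hbl hf hg j t]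
    exact Dj_nonneg j _
  · intro f g hf hg
    refine quad (DD_nonneg f) fun t => ?_
    rw [← DD_quad hP hbl hf hg t]
    exact DD_nonneg _
  · intro f g hf hg
    refine quad (integral_nonneg fun _ => mul_self_nonneg _) fun t => ?_
    have := ip_quad hP hbl hf hg t
    unfold ip at this
    unfold ip
    rw [← this]
    exact integral_nonneg fun _ => mul_self_nonneg _
  · intro j f g hf hg
    have e : (fun x => D1 (sl j x f) (sl j x g)) =
        fun x => ∑ c, Pj j (fun x => pd j c f x * pd j c g x) x := by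
      funext x
      unfold D1 Pj
      refine Finset.sum_congr rfl fun c _ => ?_
      refine integral_congr_ae (ae_of_all _ fun y => ?_)
      simp only
      rw [hP.2.2.2.2.1 j c f x y, hP.2.2.2.2.1 j c g x y]
    have h1 : ∀ c, Integrable (Pj j (fun x => pd j c f x * pd j c g x)) pm := fun c =>
      (hP.2.2.1 j _ (ppint hP hbl hf hg j c)).2.1
    have h2 : ∀ c, ∫ x, Pj j (fun x => pd j c f x * pd j c g x) x ∂pm =
        ∫ x, pd j c f x * pd j c g x ∂pm := fun c =>
      (hP.2.2.1 j _ (ppint hP hbl hf hg j c)).2.2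
    constructor
    · rw [e]
      exact integrable_finsetSum _ fun c _ => h1 c
    · have e2 : ∫ x, D1 (sl j x f) (sl j x g) ∂pm =
          ∫ x, ∑ c, Pj j (fun x => pd j c f x * pd j c g x) x ∂pm := by rw [e]
      rw [e2, integral_finsetSum _ fun c _ => h1 c]
      unfold Dj
      exact (Finset.sum_congr rfl fun c _ => h2 c).symm
  · intro w f hw hf
    have hwf := (hbl.1 w f hw hf).2.2
    have hwwf := (hbl.1 w _ hw hwf).2.2
    have hi : ∀ j c, Integrable (fun x => pd j c w x ^ 2 * f x ^ 2) pm := by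
      intro j c
      refine bint hP (((pdm hbl hw j c).pow_const 2).mul ((hbl.2.2.1 f hf).1.pow_const 2)) ?_
      have h1 := mulb (pdb hbl hw j c) (pdb hbl hw j c)
      have h2 := mulb hf.bdd hf.bdd
      have h3 := mulb h1 h2
      simpa only [pow_two] using h3
    have e1 : (fun x => w x ^ 2 * f x) = fun x => w x * (w x * f x) := by
      funext x; ring
    have e2 : ∀ j c, ∫ x, pd j c f x * pd j c (fun x => w x * (w x * f x)) x ∂pm =
        ∫ x, pd j c (fun x => w x * f x) x * pd j c (fun x => w x * f x) x ∂pm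
          - ∫ x, pd j c w x ^ 2 * f x ^ 2 ∂pm := by
      intro j c
      rw [← integral_sub (ppint hP hbl hwf hwf j c) (hi j c)]
      refine integral_congr_ae ?_
      filter_upwards [pd_mul hbl hw hf j c, pd_mul hbl hw hwf j c] with x h1 h2
      rw [h2, h1]
      ring
    have e3 : ∫ x, (∑ j, ∑ c, pd j c w x ^ 2) * f x ^ 2 ∂pm =
        ∑ j, ∑ c, ∫ x, pd j c w x ^ 2 * f x ^ 2 ∂pm := by
      simp only [Finset.sum_mul]
      rw [integral_finsetSum _ fun j _ => integrable_finsetSum _ fun c _ => hi j c]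
      exact Finset.sum_congr rfl fun j _ => integral_finsetSum _ fun c _ => hi j c
    rw [e1, e3]
    unfold DD Dj
    rw [← Finset.sum_sub_distrib]
    refine Finset.sum_congr rfl fun j _ => ?_
    rw [← Finset.sum_sub_distrib]
    exact Finset.sum_congr rfl fun c _ => e2 j c
  · intro j w f g _ _ _ hw
    unfold Dj
    refine Finset.sum_congr rfl fun c _ => ?_
    refine integral_congr_ae (ae_of_all _ fun x => ?_)
    simp only
    rw [pd_cmul j c hw x, mul_assoc]

end MolDis.H
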