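import Pool.Agent.Lib.MP_59f35a_mp.HStmts

/-!
# MP_59f35a_mp, Theorem D, piece E1: gap for pair + spectator
-/

set_option autoImplicit false

noncomputable section

open MeasureTheory

namespace MolDis.H

namespace GapA

/-- the slice at fixed third variable -/
def fz (f : X3 → ℝ) (z : E3) : X3 → ℝ := fun x => f (Function.update x 2 z)

theorem fub [IsProbabilityMeasure hm] [IsProbabilityMeasure pm] (hp : S_prod) (G : X3 → ℝ)
    (hG : Integrable G pm) :
    Integrable (fun z => ∫ x, G (Function.update x 2 z) ∂pm) hm ∧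
    ∫ z, ∫ x, G (Function.update x 2 z) ∂pm ∂hm = ∫ x, G x ∂pm := by
  have hT := hp.2.1 2
  have h1 : Integrable (fun p : X3 × E3 => G (Function.update p.1 2 p.2)) (pm.prod hm) :=
    hT.integrable_comp_of_integrable hG
  refine ⟨h1.integral_prod_right, ?_⟩
  rw [← integral_prod_symm _ h1]
  have h4 := hT.map_eq
  conv_rhs => rw [← h4]
  rw [integral_map hT.measurable.aemeasurable]
  rw [h4]; exact hG.aestronglyMeasurable

theorem upd_dist (x x' : X3) (j : Fin 3) (y : E3) :
    dist (Function.update x j y) (Function.update x' j y) ≤ dist x x' := by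
  rw [dist_pi_le_iff dist_nonneg]
  intro i
  by_cases h : i = j
  · subst h
    simp
  · rw [Function.update_of_ne h, Function.update_of_ne h]
    exact dist_le_pi_dist x x' i

theorem fz_bl {f : X3 → ℝ} (hf : BL f) (z : E3) : BL (fz f z) := by
  obtain ⟨⟨K, hK⟩, B, hB⟩ := hf
  refine ⟨⟨K, LipschitzWith.of_dist_le_mul fun x x' => ?_⟩, B, fun x => hB _⟩
  exact (hK.dist_le_mul _ _).trans (mul_le_mul_of_nonneg_left (upd_dist x x' 2 z) K.2)

theorem fz_box {f : X3 → ℝ} {r : ℝ} (hf : Box S3 r f) (z : E3) : Box S2 r (fz f z) := by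
  obtain ⟨⟨K, hK⟩, hs, hi⟩ := hf
  refine ⟨⟨K, LipschitzWith.of_dist_le_mul fun x x' => ?_⟩, ?_, ?_⟩
  · exact (hK.dist_le_mul _ _).trans (mul_le_mul_of_nonneg_left (upd_dist x x' 2 z) K.2)
  · intro x hx j hj
    have hj2 : j ≠ 2 := by
      rintro rfl
      simp [S2] at hj
    have h := hs _ hx j (Finset.mem_univ j)
    rwa [Function.update_of_ne hj2] at h
  · intro j hj x y
    have hj2 : j = 2 := by
      by_contra h
      apply hj
      fin_cases j
      · simp [S2]
      · simp [S2]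
      · exact absurd rfl h
    subst hj2
    simp [fz]

theorem upd_line (j : Fin 3) (hj : j ≠ 2) (x : X3) (z : E3) (v : E3) (t : ℝ) :
    Function.update (x + t • (Pi.single j v : X3)) 2 z =
      Function.update x 2 z + t • (Pi.single j v : X3) := by
  funext i
  by_cases h : i = 2
  · subst h
    simp [Pi.single_eq_of_ne (Ne.symm hj)]
  · simp [Function.update_of_ne h]

theorem pd_fz (f : X3 → ℝ) (z : E3) (j : Fin 3) (hj : j ≠ 2) (c : Fin 3) (x : X3) :
    pd j c (fz f z) x = pd j c f (Function.update x 2 z) := by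
  unfold pd lineDeriv fz
  simp only [upd_line j hj]

theorem pd_ind (f : X3 → ℝ) (h : ∀ x y, f (Function.update x 2 y) = f x) (c : Fin 3) (x : X3) :
    pd 2 c f x = 0 := by
  unfold pd lineDeriv
  have e : (fun t : ℝ => f (x + t • (Pi.single 2 (ec c) : X3))) = fun _ => f x := by
    funext t
    have e1 : x + t • (Pi.single 2 (ec c) : X3) = Function.update x 2 (x 2 + t • ec c) := by
      funext i
      by_cases h : i = 2
      · subst h
        simp
      · simp [Function.update_of_ne h, Pi.single_eq_of_ne h]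
    rw [e1, h]
  rw [e]
  simp

theorem P2_bl [IsProbabilityMeasure hm] {f : X3 → ℝ} (hf : BL f) : BL (Pj 2 f) := by
  obtain ⟨⟨K, hK⟩, B, hB⟩ := hf
  have hint : ∀ x, Integrable (fun y => f (Function.update x 2 y)) hm := by
    intro x
    refine Integrable.of_bound ?_ B (Filter.Eventually.of_forall fun y => ?_)
    · exact (hK.continuous.comp (continuous_const.update 2 continuous_id)).measurable.aestronglyMeasurable
    · rw [Real.norm_eq_abs]
      exact hB _
  refine ⟨⟨K, LipschitzWith.of_dist_le_mul fun x x' => ?_⟩, B, fun x => ?_⟩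
  · unfold Pj
    rw [Real.dist_eq, ← integral_sub (hint x) (hint x'), ← Real.norm_eq_abs]
    have := norm_integral_le_of_norm_le_const (μ := hm)
      (f := fun y => f (Function.update x 2 y) - f (Function.update x' 2 y)) (C := K * dist x x')
      (Filter.Eventually.of_forall fun y => ?_)
    · simpa using this
    · rw [← dist_eq_norm]
      exact (hK.dist_le_mul _ _).trans (mul_le_mul_of_nonneg_left (upd_dist x x' 2 y) K.2)
  · unfold Pj
    rw [← Real.norm_eq_abs]
    have := norm_integral_le_of_norm_le_const (μ := hm)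
      (f := fun y => f (Function.update x 2 y)) (C := B)
      (Filter.Eventually.of_forall fun y => by rw [Real.norm_eq_abs]; exact hB _)
    simpa using this

theorem iadd3 {α : Type*} [MeasurableSpace α] {μ : Measure α} {f g h : α → ℝ}
    (hf : Integrable f μ) (hg : Integrable g μ) (hh : Integrable h μ) :
    Integrable (fun x => f x + g x + h x) μ ∧
    ∫ x, (f x + g x + h x) ∂μ = ∫ x, f x ∂μ + ∫ x, g x ∂μ + ∫ x, h x ∂μ := by
  have h1 : Integrable (fun x => f x + g x) μ := hf.add hg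
  refine ⟨h1.add hh, ?_⟩
  rw [integral_add h1 hh, integral_add hf hg]

theorem isa {α : Type*} [MeasurableSpace α] {μ : Measure α} {f g h : α → ℝ} (s t : ℝ)
    (hf : Integrable f μ) (hg : Integrable g μ) (hh : Integrable h μ) :
    Integrable (fun x => f x - s * g x + t * h x) μ ∧
    ∫ x, (f x - s * g x + t * h x) ∂μ = ∫ x, f x ∂μ - s * ∫ x, g x ∂μ + t * ∫ x, h x ∂μ := by
  have h1 : Integrable (fun x => f x - s * g x) μ := hf.sub (hg.const_mul s)
  have h2 : Integrable (fun x => t * h x) μ := hh.const_mul t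
  refine ⟨h1.add h2, ?_⟩
  rw [integral_add h1 h2, integral_sub hf (hg.const_mul s), integral_const_mul,
    integral_const_mul]

/-- Cauchy-Schwarz with a normalised function -/
theorem cs1 (u v : X3 → ℝ) (hu : Integrable (fun x => u x ^ 2) pm)
    (hv : Integrable (fun x => v x ^ 2) pm) (huv : Integrable (fun x => u x * v x) pm)
    (h1 : ∫ x, u x ^ 2 ∂pm = 1) : (∫ x, u x * v x ∂pm) ^ 2 ≤ ∫ x, v x ^ 2 ∂pm := by
  set t := ∫ x, u x * v x ∂pm with ht
  have h : 0 ≤ ∫ x, (v x - t * u x) ^ 2 ∂pm := integral_nonneg fun x => sq_nonneg _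
  have e : ∫ x, (v x - t * u x) ^ 2 ∂pm = (∫ x, v x ^ 2 ∂pm) - 2 * t * t + t ^ 2 * 1 := by
    have e1 : (fun x => (v x - t * u x) ^ 2) =
        fun x => (v x ^ 2 - (2 * t) * (u x * v x)) + t ^ 2 * u x ^ 2 := by
      funext x; ring
    rw [e1, (isa (2 * t) (t ^ 2) hv huv hu).2, h1]
  rw [e] at h
  nlinarith

end GapA

open GapA

theorem p_gapA (hu : S_uniq) (hpg : S_pgap) (ha : S_avg) (hb : S_bounds) (hpot : S_potsym)
    (h_hm : S_hm) (hp : S_prod) (hbl : S_bl) : S_gapA := by
  intro g0 hg0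
  have : IsProbabilityMeasure hm := h_hm.1
  have : IsProbabilityMeasure pm := hp.1
  obtain ⟨M0, r1, hM0, hr1, hU⟩ := hu g0 hg0
  obtain ⟨C, hC, hbd⟩ := hb
  refine ⟨max r1 (max 2 (C / M0)), le_trans hr1 (le_max_left _ _), ?_⟩
  intro r a φ f hr har hφ hf
  have hrr1 : r1 ≤ r := le_trans (le_max_left _ _) hr
  have hr2 : 2 ≤ r := le_trans (le_trans (le_max_left _ _) (le_max_right _ _)) hr
  have hrC : C / M0 ≤ r := le_trans (le_trans (le_max_right _ _) (le_max_right _ _)) hr
  have hr0 : 0 < r := by linarith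
  have h8 : 8 * r ≤ a := by
    refine le_trans ?_ har
    have : (8 : ℝ) ≤ r ^ 3 := by
      calc (8 : ℝ) = 2 ^ 3 := by norm_num
        _ ≤ r ^ 3 := pow_le_pow_left₀ (by norm_num) hr2 3
    nlinarith
  have ha0 : 0 < a := by linarith
  have hra : r ≤ a := by linarith
  obtain ⟨hVm, -, hVb, -, -, -⟩ := hbd r a (2 * a) (by linarith) h8 le_rfl
  obtain ⟨-, -, -, hV0, -, hVZ, -⟩ := ha r a (2 * a) (by linarith) h8 le_rfl
  set V := V12 r a with hV
  set M : ℝ := C * r ^ 2 / a ^ 3 with hM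
  have hC0 : 0 < C := by linarith
  have hMn : 0 ≤ M := by positivity
  have hMM : M ≤ M0 := by
    have h1 : C ≤ M0 * r := by
      rw [div_le_iff₀ hM0] at hrC
      linarith
    have h3 : r ^ 3 ≤ a ^ 3 := pow_le_pow_left₀ hr0.le hra 3
    rw [hM, div_le_iff₀ (by positivity)]
    calc C * r ^ 2 ≤ (M0 * r) * r ^ 2 := by gcongr
      _ = M0 * r ^ 3 := by ring
      _ ≤ M0 * a ^ 3 := by gcongr
  have hSne : S2.Nonempty := ⟨0, by simp [S2]⟩
  have hkey := hU S2 r M V hSne hrr1 hMn hMM hVm hVb hV0 hVZ φ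
  set E := EE S2 r V with hE
  -- basic facts
  have hfbl : BL f := hbl.2.2.2.1 S3 r f hf hr0 ⟨0, Finset.mem_univ _⟩
  have hφbl : BL φ := hbl.2.2.2.1 S2 r φ hφ.box hr0 hSne
  have hφ2 : ∀ x y, φ (Function.update x 2 y) = φ x := hφ.box.ind 2 (by simp [S2])
  have hVi : ∀ x y, V (Function.update x 2 y) = V x := (hpot r a (2 * a)).2.1
  obtain ⟨hfm, hfi, hfi2, hfd, -⟩ := hbl.2.2.1 f hfbl
  obtain ⟨hφm, hφi, hφi2, -, -⟩ := hbl.2.2.1 φ hφbl
  have hpd2 : ∀ j c, Integrable (fun x => pd j c f x * pd j c f x) pm := by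
    intro j c
    obtain ⟨hm1, K, hK⟩ := hfd j c
    refine Integrable.of_bound (hm1.mul hm1).aestronglyMeasurable (K * K)
      (Filter.Eventually.of_forall fun x => ?_)
    rw [Real.norm_eq_abs, abs_mul]
    exact mul_le_mul (hK x) (hK x) (abs_nonneg _) ((abs_nonneg _).trans (hK x))
  obtain ⟨Kφ, hKφ⟩ := hφbl.bdd
  obtain ⟨Kf, hKf⟩ := hfbl.bdd
  have hff : Integrable (fun x => f x * f x) pm := by
    have e : (fun x => f x * f x) = fun x => f x ^ 2 := by funext x; ring
    rw [e]; exact hfi2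
  have hφf : Integrable (fun x => φ x * f x) pm := by
    refine Integrable.of_bound (hφm.mul hfm).aestronglyMeasurable (Kφ * Kf)
      (Filter.Eventually.of_forall fun x => ?_)
    rw [Real.norm_eq_abs, abs_mul]
    exact mul_le_mul (hKφ x) (hKf x) (abs_nonneg _) ((abs_nonneg _).trans (hKφ x))
  have hVff : Integrable (fun x => V x * f x * f x) pm := by
    refine Integrable.of_bound ((hVm.mul hfm).mul hfm).aestronglyMeasurable (M * Kf * Kf)
      (Filter.Eventually.of_forall fun x => ?_)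
    rw [Real.norm_eq_abs, abs_mul, abs_mul]
    have := (abs_nonneg _).trans (hKf x)
    exact mul_le_mul (mul_le_mul (hVb x) (hKf x) (abs_nonneg _) hMn) (hKf x) (abs_nonneg _)
      (mul_nonneg hMn this)
  -- the functions of the third variable
  set Fz : E3 → ℝ := fun z => ∫ x, φ x * f (Function.update x 2 z) ∂pm with hFz
  set Az : E3 → ℝ := fun z => ip (fz f z) (fz f z) with hAz
  set Bz : E3 → ℝ := fun z => BB V (fz f z) (fz f z) with hBz
  obtain ⟨hFi, hFe⟩ := fub hp (fun x => φ x * f x) hφf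
  have hF1 : (fun z => ∫ x, φ (Function.update x 2 z) * f (Function.update x 2 z) ∂pm) = Fz := by
    funext z
    simp only [hφ2, hFz]
  rw [hF1] at hFi
  have hFe' : ∫ z, Fz z ∂hm = ip φ f := by
    rw [← hF1]; exact hFe
  obtain ⟨hAi, hAe⟩ := fub hp (fun x => f x * f x) hff
  have hAi' : Integrable Az hm := hAi
  have hAe' : ∫ z, Az z ∂hm = ip f f := hAe
  -- the energy
  set G : X3 → ℝ := fun x => ((∑ c, pd 0 c f x * pd 0 c f x) + ∑ c, pd 1 c f x * pd 1 c f x)
    + V x * f x * f x with hG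
  have hG0 : Integrable (fun x => ∑ c, pd 0 c f x * pd 0 c f x) pm :=
    integrable_finsetSum _ fun c _ => hpd2 0 c
  have hG1 : Integrable (fun x => ∑ c, pd 1 c f x * pd 1 c f x) pm :=
    integrable_finsetSum _ fun c _ => hpd2 1 c
  have hGi : Integrable G pm := (hG0.add hG1).add hVff
  have hGe : ∫ x, G x ∂pm = Dj 0 f f + Dj 1 f f + ∫ x, V x * f x * f x ∂pm := by
    have := (iadd3 hG0 hG1 hVff).2
    rw [integral_finsetSum _ fun c _ => hpd2 0 c, integral_finsetSum _ fun c _ => hpd2 1 c]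
      at this
    exact this
  obtain ⟨hBi, hBe⟩ := fub hp G hGi
  have hB1 : (fun z => ∫ x, G (Function.update x 2 z) ∂pm) = Bz := by
    funext z
    have hfzbl : BL (fz f z) := fz_bl hfbl z
    obtain ⟨-, -, -, hzd, -⟩ := hbl.2.2.1 (fz f z) hfzbl
    have hpdz : ∀ j c, Integrable (fun x => pd j c (fz f z) x * pd j c (fz f z) x) pm := by
      intro j c
      obtain ⟨hm1, K, hK⟩ := hzd j c
      refine Integrable.of_bound (hm1.mul hm1).aestronglyMeasurable (K * K)
        (Filter.Eventually.of_forall fun x => ?_)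
      rw [Real.norm_eq_abs, abs_mul]
      exact mul_le_mul (hK x) (hK x) (abs_nonneg _) ((abs_nonneg _).trans (hK x))
    have hfzm : Measurable (fz f z) := (hbl.2.2.1 (fz f z) hfzbl).1
    have hVz : Integrable (fun x => V x * fz f z x * fz f z x) pm := by
      refine Integrable.of_bound ((hVm.mul hfzm).mul hfzm).aestronglyMeasurable (M * Kf * Kf)
        (Filter.Eventually.of_forall fun x => ?_)
      rw [Real.norm_eq_abs, abs_mul, abs_mul]
      have h0 := (abs_nonneg _).trans (hKf x)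
      exact mul_le_mul (mul_le_mul (hVb x) (hKf _) (abs_nonneg _) hMn) (hKf _) (abs_nonneg _)
        (mul_nonneg hMn h0)
    have e1 : (fun x => G (Function.update x 2 z)) = fun x =>
        ((∑ c, pd 0 c (fz f z) x * pd 0 c (fz f z) x) + ∑ c, pd 1 c (fz f z) x * pd 1 c (fz f z) x)
          + V x * fz f z x * fz f z x := by
      funext x
      rw [hG]
      simp only [pd_fz f z 0 (by decide), pd_fz f z 1 (by decide), hVi]
      rfl
    have h01 : Integrable (fun x => ∑ c, pd 0 c (fz f z) x * pd 0 c (fz f z) x) pm :=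
      integrable_finsetSum _ fun c _ => hpdz 0 c
    have h02 : Integrable (fun x => ∑ c, pd 1 c (fz f z) x * pd 1 c (fz f z) x) pm :=
      integrable_finsetSum _ fun c _ => hpdz 1 c
    rw [e1, (iadd3 h01 h02 hVz).2,
      integral_finsetSum _ fun c _ => hpdz 0 c, integral_finsetSum _ fun c _ => hpdz 1 c]
    rw [hBz]
    simp only [BB, DD, Fin.sum_univ_three (f := fun j => Dj j (fz f z) (fz f z))]
    have e2 : Dj 2 (fz f z) (fz f z) = 0 := by
      unfold Dj
      have : ∀ c x, pd 2 c (fz f z) x = 0 := fun c x =>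
        pd_ind (fz f z) (fun x y => by simp [fz]) c x
      simp [this]
    rw [e2, add_zero]
    rfl
  rw [hB1] at hBi
  have hBe' : ∫ z, Bz z ∂hm = Dj 0 f f + Dj 1 f f + ∫ x, V x * f x * f x ∂pm := by
    rw [← hB1, hBe, hGe]
  -- `F²` is integrable
  have hFb : ∀ z, |Fz z| ≤ Kφ * Kf := by
    intro z
    rw [← Real.norm_eq_abs, hFz]
    have := norm_integral_le_of_norm_le_const (μ := pm)
      (f := fun x => φ x * f (Function.update x 2 z)) (C := Kφ * Kf)
      (Filter.Eventually.of_forall fun x => by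
        rw [Real.norm_eq_abs, abs_mul]
        exact mul_le_mul (hKφ x) (hKf _) (abs_nonneg _) ((abs_nonneg _).trans (hKφ x)))
    simpa using this
  have hFi2 : Integrable (fun z => Fz z ^ 2) hm := by
    refine Integrable.of_bound (hFi.aestronglyMeasurable.pow 2) ((Kφ * Kf) ^ 2)
      (Filter.Eventually.of_forall fun z => ?_)
    rw [Real.norm_eq_abs, abs_pow]
    exact pow_le_pow_left₀ (abs_nonneg _) (hFb z) 2
  -- the pointwise inequality
  have hpt : ∀ z, g0 / 4 * (Az z - Fz z ^ 2) - Real.exp (-r) * Az z ≤ Bz z - E * Az z := by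
    intro z
    have := hkey (fz f z) hφ (fz_box hf z)
    exact this
  have hint1 : Integrable (fun z => g0 / 4 * (Az z - Fz z ^ 2) - Real.exp (-r) * Az z) hm :=
    ((hAi'.sub hFi2).const_mul _).sub (hAi'.const_mul _)
  have hint2 : Integrable (fun z => Bz z - E * Az z) hm := hBi.sub (hAi'.const_mul _)
  have hI := integral_mono hint1 hint2 hpt
  have hI1 : ∫ z, (g0 / 4 * (Az z - Fz z ^ 2) - Real.exp (-r) * Az z) ∂hm =
      g0 / 4 * (ip f f - ∫ z, Fz z ^ 2 ∂hm) - Real.exp (-r) * ip f f := by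
    have h1 : Integrable (fun z => Az z - Fz z ^ 2) hm := hAi'.sub hFi2
    rw [integral_sub (h1.const_mul _) (hAi'.const_mul _), integral_const_mul,
      integral_const_mul, integral_sub hAi' hFi2, hAe']
  have hI2 : ∫ z, (Bz z - E * Az z) ∂hm =
      (Dj 0 f f + Dj 1 f f + ∫ x, V x * f x * f x ∂pm) - E * ip f f := by
    rw [integral_sub hBi (hAi'.const_mul _), integral_const_mul, hBe', hAe']
  rw [hI1, hI2] at hI
  -- second part: the variable 2
  have hP2 : BL (Pj 2 f) := P2_bl hfbl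
  obtain ⟨hPm, hPi, hPi2, -, -⟩ := hbl.2.2.1 _ hP2
  set h : X3 → ℝ := fun x => f x - Pj 2 f x with hh'
  have hhbl : BL h := (hbl.1 f (Pj 2 f) hfbl hP2).2.1
  obtain ⟨hhm, hhi, hhi2, -, -⟩ := hbl.2.2.1 h hhbl
  have hg2 := (hpg g0 hg0 S3 r f hr0 ⟨0, Finset.mem_univ _⟩ hf).1 2
  change g0 * ∫ x, h x ^ 2 ∂pm ≤ Dj 2 f f at hg2
  set m := ip φ f with hm'
  have hφP : Integrable (fun x => φ x * Pj 2 f x) pm := by
    obtain ⟨KP, hKP⟩ := hP2.bdd
    refine Integrable.of_bound (hφm.mul hPm).aestronglyMeasurable (Kφ * KP)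
      (Filter.Eventually.of_forall fun x => ?_)
    rw [Real.norm_eq_abs, abs_mul]
    exact mul_le_mul (hKφ x) (hKP x) (abs_nonneg _) ((abs_nonneg _).trans (hKφ x))
  have hm1 : ∫ x, φ x * Pj 2 f x ∂pm = m := by
    have h1 := (hp.2.2.1 2 (fun x => φ x * f x) hφf).2.2
    rw [hm', ip, ← h1]
    refine integral_congr_ae (Filter.Eventually.of_forall fun x => ?_)
    simp only [Pj, hφ2]
    rw [integral_const_mul]
  obtain ⟨hHi, hHe⟩ := fub hp (fun x => h x ^ 2) hhi2
  have hpt2 : ∀ z, (Fz z - m) ^ 2 ≤ ∫ x, h (Function.update x 2 z) ^ 2 ∂pm := by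
    intro z
    have hzbl : BL (fz h z) := fz_bl hhbl z
    obtain ⟨hzm, hzi, hzi2, -, -⟩ := hbl.2.2.1 _ hzbl
    obtain ⟨Kz, hKz⟩ := hzbl.bdd
    have hφz : Integrable (fun x => φ x * fz h z x) pm := by
      refine Integrable.of_bound (hφm.mul hzm).aestronglyMeasurable (Kφ * Kz)
        (Filter.Eventually.of_forall fun x => ?_)
      rw [Real.norm_eq_abs, abs_mul]
      exact mul_le_mul (hKφ x) (hKz x) (abs_nonneg _) ((abs_nonneg _).trans (hKφ x))
    have hφfz : Integrable (fun x => φ x * f (Function.update x 2 z)) pm := by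
      have hfzm : Measurable (fz f z) := (hbl.2.2.1 (fz f z) (fz_bl hfbl z)).1
      refine Integrable.of_bound (hφm.mul hfzm).aestronglyMeasurable (Kφ * Kf)
        (Filter.Eventually.of_forall fun x => ?_)
      rw [Real.norm_eq_abs, abs_mul]
      exact mul_le_mul (hKφ x) (hKf _) (abs_nonneg _) ((abs_nonneg _).trans (hKφ x))
    have e1 : ∫ x, φ x * fz h z x ∂pm = Fz z - m := by
      rw [← hm1, hFz, ← integral_sub hφfz hφP]
      refine integral_congr_ae (Filter.Eventually.of_forall fun x => ?_)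
      simp only [fz, hh', Pj, Function.update_idem]
      ring
    rw [← e1]
    refine cs1 φ (fz h z) hφi2 hzi2 hφz ?_
    have := hφ.norm
    rw [ip] at this
    rw [← this]
    refine integral_congr_ae (Filter.Eventually.of_forall fun x => ?_)
    simp only [pow_two]
  have hFm : Integrable (fun z => (Fz z - m) ^ 2) hm := by
    have e : (fun z => (Fz z - m) ^ 2) = fun z => Fz z ^ 2 - 2 * m * Fz z + m ^ 2 := by
      funext z; ring
    rw [e]
    have h1 : Integrable (fun z => Fz z ^ 2 - 2 * m * Fz z) hm := hFi2.sub (hFi.const_mul _)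
    exact h1.add (integrable_const _)
  have hJ := integral_mono hFm hHi hpt2
  rw [hHe] at hJ
  have hJ1 : ∫ z, (Fz z - m) ^ 2 ∂hm = (∫ z, Fz z ^ 2 ∂hm) - m ^ 2 := by
    have e : (fun z => (Fz z - m) ^ 2) = fun z => Fz z ^ 2 - 2 * m * Fz z + m ^ 2 := by
      funext z; ring
    have h1 : Integrable (fun z => Fz z ^ 2 - 2 * m * Fz z) hm := hFi2.sub (hFi.const_mul _)
    rw [e, integral_add h1 (integrable_const _),
      integral_sub hFi2 (hFi.const_mul _), integral_const_mul, hFe']
    simp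
    ring
  rw [hJ1] at hJ
  have hn : 0 ≤ ∫ x, h x ^ 2 ∂pm := integral_nonneg fun x => sq_nonneg _
  -- conclusion
  have hBB : BB V f f = Dj 0 f f + Dj 1 f f + Dj 2 f f + ∫ x, V x * f x * f x ∂pm := by
    simp only [BB, DD, Fin.sum_univ_three (f := fun j => Dj j f f)]
  rw [hBB]
  have hg := hg0.pos
  have h5 : g0 / 4 * ((∫ z, Fz z ^ 2 ∂hm) - m ^ 2) ≤ Dj 2 f f := by
    have h6 : g0 / 4 * ((∫ z, Fz z ^ 2 ∂hm) - m ^ 2) ≤ g0 / 4 * ∫ x, h x ^ 2 ∂pm :=
      mul_le_mul_of_nonneg_left hJ (by linarith)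
    nlinarith
  linarith

end MolDis.H
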