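import Pool.Agent.Lib.MP_59f35a_mp.HStmts

/-!
# MP_59f35a_mp : the hydrogen probability measure (H1)
-/

noncomputable section

open MeasureTheory Set

namespace MolDis.H.Hm

/-- the density of `hm` -/
def de (x : E3) : ℝ := Real.exp (-‖x‖) / (8 * Real.pi)

theorem de_cont : Continuous de := by unfold de; fun_prop

theorem de_pos (x : E3) : 0 < de x := by unfold de; positivity

theorem de_meas : Measurable fun x : E3 => ENNReal.ofReal (de x) :=
  de_cont.measurable.ennreal_ofReal

theorem hm_def : hm = (volume : Measure E3).withDensity fun x => ENNReal.ofReal (de x) := rfl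

theorem int_hm (f : E3 → ℝ) : ∫ x, f x ∂hm = ∫ x, de x * f x := by
  rw [hm_def, integral_withDensity_eq_integral_toReal_smul de_meas (by simp)]
  refine integral_congr_ae (Filter.Eventually.of_forall fun x => ?_)
  simp only [ENNReal.toReal_ofReal (de_pos x).le, smul_eq_mul]

theorem integrable_hm (f : E3 → ℝ) : Integrable f hm ↔ Integrable fun x => de x * f x := by
  rw [hm_def, integrable_withDensity_iff_integrable_smul' de_meas (by simp)]
  refine integrable_congr (Filter.Eventually.of_forall fun x => ?_)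
  simp only [ENNReal.toReal_ofReal (de_pos x).le, smul_eq_mul]

theorem rad_int {b : ℝ} (hb : 0 < b) (k : ℕ) :
    IntegrableOn (fun y : ℝ => y ^ k * Real.exp (-(b * y))) (Ioi 0) := by
  have h := integrableOn_rpow_mul_exp_neg_mul_rpow (p := 1) (s := k) (b := b)
    (by have : (0:ℝ) ≤ k := Nat.cast_nonneg k; linarith) one_pos hb
  refine h.congr_fun (fun y hy => ?_) measurableSet_Ioi
  simp only [Real.rpow_one, Real.rpow_natCast, neg_mul]

theorem rad_val (k : ℕ) : ∫ y in Ioi (0:ℝ), y ^ k * Real.exp (-y) = (k.factorial : ℝ) := by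
  have h := Real.Gamma_eq_integral (s := (k:ℝ) + 1) (by positivity)
  rw [Real.Gamma_nat_eq_factorial] at h
  rw [h]
  refine setIntegral_congr_fun measurableSet_Ioi fun y hy => ?_
  simp only [add_sub_cancel_right, Real.rpow_natCast]
  ring

theorem dimE3 : Module.finrank ℝ E3 = 3 := by simp

theorem ball_val : (volume : Measure E3).real (Metric.ball 0 1) = Real.pi * 4 / 3 := by
  rw [Measure.real, EuclideanSpace.volume_ball_fin_three]
  rw [ENNReal.toReal_mul, ENNReal.toReal_ofReal (by positivity)]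
  simp

/-- radial functions -/
theorem rad_integrable {g : ℝ → ℝ} (h : IntegrableOn (fun y : ℝ => y ^ 2 * g y) (Ioi 0)) :
    Integrable (fun x : E3 => g ‖x‖) := by
  rw [integrable_fun_norm_addHaar, dimE3]
  exact h

theorem rad_integral (g : ℝ → ℝ) :
    ∫ x : E3, g ‖x‖ = 4 * Real.pi * ∫ y in Ioi (0:ℝ), y ^ 2 * g y := by
  rw [integral_fun_norm_addHaar, dimE3, ball_val]
  simp only [smul_eq_mul, nsmul_eq_mul]
  push_cast
  ring

theorem int_pow (k : ℕ) : Integrable (fun x : E3 => ‖x‖ ^ k) hm := by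
  rw [integrable_hm]
  unfold de
  have h := rad_integrable (g := fun y => Real.exp (-y) / (8 * Real.pi) * y ^ k) (by
    have h1 : IntegrableOn (fun y : ℝ => (8 * Real.pi)⁻¹ * (y ^ (k + 2) * Real.exp (-(1 * y))))
        (Ioi 0) := (rad_int one_pos (k + 2)).const_mul (8 * Real.pi)⁻¹
    refine h1.congr_fun (fun y _ => ?_) measurableSet_Ioi
    simp only [one_mul]
    rw [pow_add]
    ring)
  exact h

theorem int_pow_exp (k : ℕ) : Integrable (fun x : E3 => ‖x‖ ^ k * Real.exp (‖x‖ / 2)) hm := by
  rw [integrable_hm]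
  unfold de
  have h := rad_integrable
    (g := fun y => Real.exp (-y) / (8 * Real.pi) * (y ^ k * Real.exp (y / 2))) (by
    have h1 : IntegrableOn (fun y : ℝ => (8 * Real.pi)⁻¹ * (y ^ (k + 2) * Real.exp (-(1 / 2 * y))))
        (Ioi 0) := (rad_int (b := 1/2) (by norm_num) (k + 2)).const_mul (8 * Real.pi)⁻¹
    refine h1.congr_fun (fun y _ => ?_) measurableSet_Ioi
    have e : Real.exp (-(1 / 2 * y)) = Real.exp (-y) * Real.exp (y / 2) := by
      rw [← Real.exp_add]; congr 1; ring
    simp only []
    rw [e, pow_add]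
    ring)
  exact h

theorem val_pow (k : ℕ) : ∫ x : E3, ‖x‖ ^ k ∂hm = ((k + 2).factorial : ℝ) / 2 := by
  rw [int_hm]
  unfold de
  have h := rad_integral (fun y => Real.exp (-y) / (8 * Real.pi) * y ^ k)
  rw [h, ← rad_val]
  have e : (fun y : ℝ => y ^ 2 * (Real.exp (-y) / (8 * Real.pi) * y ^ k)) =
      fun y => (8 * Real.pi)⁻¹ * (y ^ (k + 2) * Real.exp (-y)) := by
    funext y; rw [pow_add]; ring
  rw [e, integral_const_mul]
  field_simp
  ring

theorem prob : IsProbabilityMeasure hm := by
  have h0 := val_pow 0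
  simp only [pow_zero] at h0
  have h1 := int_pow 0
  simp only [pow_zero] at h1
  have hfin : IsFiniteMeasure hm := by
    rcases (integrable_const_iff (c := (1:ℝ))).1 h1 with h | h
    · exact absurd h one_ne_zero
    · exact h
  rw [integral_const, smul_eq_mul, mul_one] at h0
  constructor
  have h2 : hm.real univ = 1 := by rw [h0]; norm_num
  rw [Measure.real] at h2
  rw [← ENNReal.ofReal_toReal (measure_ne_top hm univ), h2, ENNReal.ofReal_one]

theorem ac1 : hm ≪ (volume : Measure E3) := withDensity_absolutelyContinuous _ _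

theorem ac2 : (volume : Measure E3) ≪ hm := by
  rw [hm_def]
  refine withDensity_absolutelyContinuous' de_meas.aemeasurable ?_
  refine Filter.Eventually.of_forall fun x => ?_
  simp only [ne_eq, ENNReal.ofReal_eq_zero, not_le]
  exact de_pos x

theorem tail (k : ℕ) : ∃ C : ℝ, ∀ r : ℝ, 1 ≤ r →
    ∫ x : E3, (if r / 2 < ‖x‖ then ‖x‖ ^ k else 0) ∂hm ≤ C * Real.exp (-r / 4) := by
  refine ⟨∫ x : E3, ‖x‖ ^ k * Real.exp (‖x‖ / 2) ∂hm, fun r _ => ?_⟩
  rw [← integral_mul_const]
  refine integral_mono_of_nonneg (Filter.Eventually.of_forall fun x => ?_)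
    ((int_pow_exp k).mul_const _) (Filter.Eventually.of_forall fun x => ?_)
  · show (0:ℝ) ≤ _
    dsimp only
    split_ifs <;> positivity
  · dsimp only
    split_ifs with h
    · rw [mul_assoc, ← Real.exp_add]
      have h1 : (1:ℝ) ≤ Real.exp (‖x‖ / 2 + -r / 4) := Real.one_le_exp (by linarith)
      have h2 : 0 ≤ ‖x‖ ^ k := by positivity
      nlinarith
    · positivity

theorem mp (e : E3 ≃ₗᵢ[ℝ] E3) : MeasurePreserving e hm hm := by
  have h0 : MeasurePreserving e (volume : Measure E3) volume := e.measurePreserving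
  refine ⟨h0.measurable, ?_⟩
  ext s hs
  rw [Measure.map_apply h0.measurable hs, hm_def,
    withDensity_apply _ (h0.measurable hs), withDensity_apply _ hs]
  have h1 := h0.setLIntegral_comp_preimage hs de_meas
  rw [← h1]
  refine setLIntegral_congr_fun (h0.measurable hs) fun x _ => ?_
  unfold de
  rw [e.norm_map]

theorem p_hm : S_hm :=
  ⟨prob, ac1, ac2, int_hm, fun k => ⟨int_pow k, val_pow k⟩, tail, mp⟩

end MolDis.H.Hm

namespace MolDis.H

theorem p_hm : S_hm := Hm.p_hm

end MolDis.H
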