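import Pool.Agent.Lib.MP_59f35a_mp.HStmts

/-!
# MP_59f35a_mp : integration by parts on `E3` and the divergence of `x/|x|`
-/

noncomputable section

open MeasureTheory Filter Topology

namespace MolDis.H.Ibp

lemma norm_ec (c : Fin 3) : ‖ec c‖ = 1 := by
  unfold ec
  simp

/-- outside a ball an `LC1` function vanishes in a neighbourhood -/
lemma pd1_zero {v : E3 → ℝ} {R : ℝ} (hR : ∀ x, v x ≠ 0 → ‖x‖ ≤ R) (c : Fin 3) {x : E3}
    (hx : R < ‖x‖) : pd1 c v x = 0 := by
  have h1 : v =ᶠ[𝓝 x] fun _ => 0 := by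
    have h2 : {y : E3 | R < ‖y‖} ∈ 𝓝 x := (isOpen_lt continuous_const continuous_norm).mem_nhds hx
    filter_upwards [h2] with y hy
    by_contra h
    have h3 := hR y h
    have h4 : R < ‖y‖ := hy
    linarith
  unfold pd1
  rw [h1.lineDeriv_eq]
  simp [lineDeriv]

/-- functions bounded by a constant and vanishing outside a ball are integrable -/
lemma integrable_of_bdd {f : E3 → ℝ} (hf : AEStronglyMeasurable f volume) {R B : ℝ}
    (h1 : ∀ x, ‖x‖ ≤ R → |f x| ≤ B) (h2 : ∀ x, R < ‖x‖ → f x = 0) : Integrable f := by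
  have h3 : Integrable (Set.indicator (Metric.closedBall (0 : E3) R) fun _ => B) := by
    rw [integrable_indicator_iff measurableSet_closedBall]
    exact integrableOn_const measure_closedBall_lt_top.ne
  refine h3.mono' hf (ae_of_all _ fun x => ?_)
  rw [Real.norm_eq_abs]
  by_cases hx : ‖x‖ ≤ R
  · rw [Set.indicator_of_mem (by rwa [mem_closedBall_zero_iff])]
    exact h1 x hx
  · rw [Set.indicator_of_notMem (by rwa [mem_closedBall_zero_iff]), h2 x (not_le.1 hx), abs_zero]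

lemma hasCompactSupport {v : E3 → ℝ} (hv : LC1 v) : HasCompactSupport v := by
  obtain ⟨R, hR⟩ := hv.supp
  refine HasCompactSupport.intro (isCompact_closedBall (0 : E3) R) fun x hx => ?_
  by_contra h
  exact hx (by rw [mem_closedBall_zero_iff]; exact hR x h)

lemma pd1_bdd {v : E3 → ℝ} {K : NNReal} (hv : LipschitzWith K v) (c : Fin 3) (x : E3) :
    |pd1 c v x| ≤ K := by
  have h := norm_lineDeriv_le_of_lipschitz ℝ (v := ec c) (x₀ := x) hv
  rwa [norm_ec, mul_one, Real.norm_eq_abs] at h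

lemma pd1_meas {v : E3 → ℝ} (hv : Continuous v) (c : Fin 3) :
    AEStronglyMeasurable (pd1 c v) volume :=
  aestronglyMeasurable_lineDeriv hv volume

lemma ibp_lip {G v : E3 → ℝ} {K : NNReal} (hG : LipschitzWith K G) (hv : LC1 v) (c : Fin 3) :
    Integrable (fun x => pd1 c G x * v x) ∧ Integrable (fun x => G x * pd1 c v x) ∧
    ∫ x, pd1 c G x * v x = - ∫ x, G x * pd1 c v x := by
  obtain ⟨D, hD⟩ := hv.lip
  obtain ⟨R, hR⟩ := hv.supp
  have hvb : ∀ x, ‖x‖ ≤ R → |v x| ≤ |v 0| + D * R := by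
    intro x hx
    have h1 := hD.norm_sub_le x 0
    rw [sub_zero, Real.norm_eq_abs] at h1
    have h2 : |v x| ≤ |v x - v 0| + |v 0| := by
      have := abs_add_le (v x - v 0) (v 0)
      rwa [sub_add_cancel] at this
    have h3 : (D : ℝ) * ‖x‖ ≤ D * R := mul_le_mul_of_nonneg_left hx D.2
    linarith
  have hGb : ∀ x, ‖x‖ ≤ R → |G x| ≤ |G 0| + K * R := by
    intro x hx
    have h1 := hG.norm_sub_le x 0
    rw [sub_zero, Real.norm_eq_abs] at h1
    have h2 : |G x| ≤ |G x - G 0| + |G 0| := by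
      have := abs_add_le (G x - G 0) (G 0)
      rwa [sub_add_cancel] at this
    have h3 : (K : ℝ) * ‖x‖ ≤ K * R := mul_le_mul_of_nonneg_left hx K.2
    linarith
  refine ⟨?_, ?_, ?_⟩
  · refine integrable_of_bdd (R := R) (B := K * (|v 0| + D * R))
      ((pd1_meas hG.continuous c).mul hD.continuous.aestronglyMeasurable) ?_ ?_
    · intro x hx
      rw [abs_mul]
      exact mul_le_mul (pd1_bdd hG c x) (hvb x hx) (abs_nonneg _) K.2
    · intro x hx
      have : v x = 0 := by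
        by_contra h
        exact absurd (hR x h) (not_le.2 hx)
      rw [this, mul_zero]
  · refine integrable_of_bdd (R := R) (B := (|G 0| + K * R) * D)
      (hG.continuous.aestronglyMeasurable.mul (pd1_meas hD.continuous c)) ?_ ?_
    · intro x hx
      rw [abs_mul]
      have h0 := hGb x hx
      exact mul_le_mul h0 (pd1_bdd hD c x) (abs_nonneg _) ((abs_nonneg _).trans h0)
    · intro x hx
      rw [pd1_zero hR c hx, mul_zero]
  · have h1 := hG.integral_lineDeriv_mul_eq (μ := volume) hD (hasCompactSupport hv) (ec c)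
    have h2 : ∀ x, lineDeriv ℝ v x (-(ec c)) * G x = -(G x * pd1 c v x) := by
      intro x
      rw [lineDeriv_neg]
      unfold pd1
      ring
    calc ∫ x, pd1 c G x * v x = ∫ x, lineDeriv ℝ v x (-(ec c)) * G x := h1
      _ = ∫ x, -(G x * pd1 c v x) := by simp_rw [h2]
      _ = - ∫ x, G x * pd1 c v x := integral_neg _

end MolDis.H.Ibp

namespace MolDis.H

open Ibp

theorem p_ibp : S_ibp := by
  intro G v c hG hv
  obtain ⟨R, hR⟩ := hv.supp
  obtain ⟨K, hK⟩ := hG (R + 1)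
  have hL : LipschitzOnWith (Real.toNNReal K) G (Metric.closedBall (0 : E3) (R + 1)) := by
    refine LipschitzOnWith.of_dist_le_mul fun x hx y hy => ?_
    rw [mem_closedBall_zero_iff] at hx hy
    rw [Real.dist_eq, dist_eq_norm]
    refine (hK x y hx hy).trans ?_
    exact mul_le_mul_of_nonneg_right (Real.le_coe_toNNReal K) (norm_nonneg _)
  obtain ⟨G', hG', hGG'⟩ := hL.extend_real
  have e1 : ∀ x, pd1 c G x * v x = pd1 c G' x * v x := by
    intro x
    by_cases hx : v x = 0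
    · rw [hx, mul_zero, mul_zero]
    · have h1 : ‖x‖ < R + 1 := by linarith [hR x hx]
      have h2 : G =ᶠ[𝓝 x] G' := by
        have h3 : Metric.ball (0 : E3) (R + 1) ∈ 𝓝 x :=
          Metric.isOpen_ball.mem_nhds (by rwa [mem_ball_zero_iff])
        filter_upwards [h3] with y hy
        exact hGG' (Metric.ball_subset_closedBall hy)
      unfold pd1
      rw [h2.lineDeriv_eq]
  have e2 : ∀ x, G x * pd1 c v x = G' x * pd1 c v x := by
    intro x
    by_cases hx : ‖x‖ ≤ R
    · rw [hGG' (by rw [mem_closedBall_zero_iff]; linarith)]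
    · rw [pd1_zero hR c (not_le.1 hx), mul_zero, mul_zero]
  simp_rw [e1, e2]
  exact ibp_lip hG' hv c

end MolDis.H

namespace MolDis.H.Ibp

/-- `√(|x|² + η²)` -/
def sqe (η : ℝ) (x : E3) : ℝ := √(‖x‖ ^ 2 + η ^ 2)

lemma sqe_sq (η : ℝ) (x : E3) : sqe η x ^ 2 = ‖x‖ ^ 2 + η ^ 2 := by
  unfold sqe
  exact Real.sq_sqrt (by positivity)

lemma sqe_nonneg (η : ℝ) (x : E3) : 0 ≤ sqe η x := Real.sqrt_nonneg _

lemma norm_le_sqee (η : ℝ) (x : E3) : ‖x‖ ≤ sqe η x := by
  unfold sqe
  exact Real.le_sqrt_of_sq_le (by nlinarith [sq_nonneg η])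

lemma le_sqe {η : ℝ} (x : E3) : η ≤ sqe η x := by
  unfold sqe
  exact Real.le_sqrt_of_sq_le (by nlinarith [norm_nonneg x])

lemma sqe_pos {η : ℝ} (hη : 0 < η) (x : E3) : 0 < sqe η x := hη.trans_le (le_sqe x)

lemma sqe_le (η : ℝ) (x y : E3) : sqe η x ≤ sqe η y + ‖x - y‖ := by
  have h0 := sqe_nonneg η y
  have h1 := norm_le_sqee η y
  have h2 := norm_nonneg (x - y)
  have h3 : ‖x‖ ≤ ‖y‖ + ‖x - y‖ := by
    have := norm_add_le y (x - y)
    rwa [add_sub_cancel] at this
  have h4 := sqe_sq η y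
  rw [show sqe η x = √(‖x‖ ^ 2 + η ^ 2) from rfl]
  apply Real.sqrt_le_iff.2
  refine ⟨by positivity, ?_⟩
  have h5 : ‖x‖ ^ 2 ≤ (‖y‖ + ‖x - y‖) ^ 2 := pow_le_pow_left₀ (norm_nonneg x) h3 2
  nlinarith [mul_le_mul_of_nonneg_right h1 h2]

lemma abs_coord_le (x : E3) (c : Fin 3) : |x c| ≤ ‖x‖ := by
  have := EuclideanSpace.norm_eq x
  rw [this]
  apply Real.le_sqrt_of_sq_le
  rw [← Real.norm_eq_abs]
  exact Finset.single_le_sum (f := fun i => ‖x i‖ ^ 2) (fun i _ => by positivity)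
    (Finset.mem_univ c)

/-- the regularised field -/
def Gf (η : ℝ) (c : Fin 3) (x : E3) : ℝ := x c / sqe η x

lemma abs_Gf_le {η : ℝ} (hη : 0 < η) (c : Fin 3) (x : E3) : |Gf η c x| ≤ 1 := by
  unfold Gf
  rw [abs_div, abs_of_pos (sqe_pos hη x), div_le_one (sqe_pos hη x)]
  exact (abs_coord_le x c).trans (norm_le_sqee η x)

lemma Gf_lip {η : ℝ} (hη : 0 < η) (c : Fin 3) (x y : E3) :
    |Gf η c x - Gf η c y| ≤ 2 / η * ‖x - y‖ := by
  have hx := sqe_pos hη x
  have hy := sqe_pos hη y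
  have e : Gf η c x - Gf η c y = (x c - y c) / sqe η x + Gf η c y * ((sqe η y - sqe η x) / sqe η x) := by
    unfold Gf
    field_simp
    ring
  have h1 : |(x c - y c) / sqe η x| ≤ ‖x - y‖ / η := by
    rw [abs_div, abs_of_pos hx]
    have h2 : |x c - y c| ≤ ‖x - y‖ := abs_coord_le (x - y) c
    exact div_le_div₀ (norm_nonneg _) h2 hη (le_sqe x)
  have h3 : |(sqe η y - sqe η x) / sqe η x| ≤ ‖x - y‖ / η := by
    rw [abs_div, abs_of_pos hx]
    have h2 : |sqe η y - sqe η x| ≤ ‖x - y‖ := by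
      rw [abs_le]
      have h4 := sqe_le η x y
      have h5 := sqe_le η y x
      rw [norm_sub_rev] at h5
      constructor <;> linarith
    exact div_le_div₀ (norm_nonneg _) h2 hη (le_sqe x)
  rw [e]
  refine (abs_add_le _ _).trans ?_
  rw [abs_mul]
  have h6 : |Gf η c y| * |(sqe η y - sqe η x) / sqe η x| ≤ 1 * (‖x - y‖ / η) :=
    mul_le_mul (abs_Gf_le hη c y) h3 (abs_nonneg _) zero_le_one
  calc |(x c - y c) / sqe η x| + |Gf η c y| * |(sqe η y - sqe η x) / sqe η x|
      ≤ ‖x - y‖ / η + 1 * (‖x - y‖ / η) := add_le_add h1 h6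
    _ = 2 / η * ‖x - y‖ := by ring

lemma Gf_pd1 {η : ℝ} (hη : 0 < η) (c : Fin 3) (x : E3) :
    pd1 c (Gf η c) x = 1 / sqe η x - x c ^ 2 / sqe η x ^ 3 := by
  have hx := sqe_pos hη x
  have h0 : ∀ t : ℝ, Gf η c (x + t • ec c) =
      (x c + t) / √(‖x‖ ^ 2 + 2 * t * x c + t ^ 2 + η ^ 2) := by
    intro t
    have h1 : (x + t • ec c) c = x c + t := by
      unfold ec
      simp
    have h2 : ‖x + t • ec c‖ ^ 2 = ‖x‖ ^ 2 + 2 * t * x c + t ^ 2 := by
      rw [norm_add_sq_real, norm_smul, norm_ec, inner_smul_right]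
      have h3 : inner ℝ x (ec c) = x c := by
        unfold ec
        rw [EuclideanSpace.inner_single_right]
        simp
      rw [h3, mul_one, Real.norm_eq_abs, sq_abs]
      ring
    unfold Gf sqe
    rw [h1, h2]
  have h1 : HasLineDerivAt ℝ (Gf η c) (1 / sqe η x - x c ^ 2 / sqe η x ^ 3) x (ec c) := by
    unfold HasLineDerivAt
    simp_rw [h0]
    have h2 : HasDerivAt (fun t : ℝ => ‖x‖ ^ 2 + 2 * t * x c + t ^ 2 + η ^ 2) (2 * x c) 0 := by
      have h3 : HasDerivAt (fun t : ℝ => 2 * t * x c) (2 * x c) 0 := by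
        have := ((hasDerivAt_id (0 : ℝ)).const_mul 2).mul_const (x c)
        simpa using this
      have h4 : HasDerivAt (fun t : ℝ => t ^ 2) 0 0 := by
        have := hasDerivAt_pow 2 (0 : ℝ)
        simpa using this
      have := ((h3.const_add (‖x‖ ^ 2)).add h4).add_const (η ^ 2)
      simpa using this
    have h3 : ‖x‖ ^ 2 + 2 * 0 * x c + 0 ^ 2 + η ^ 2 = ‖x‖ ^ 2 + η ^ 2 := by ring
    have h4 : HasDerivAt (fun t : ℝ => √(‖x‖ ^ 2 + 2 * t * x c + t ^ 2 + η ^ 2))
        (2 * x c / (2 * √(‖x‖ ^ 2 + 2 * 0 * x c + 0 ^ 2 + η ^ 2))) 0 := by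
      apply h2.sqrt
      rw [h3]
      positivity
    have h5 : HasDerivAt (fun t : ℝ => x c + t) 1 0 := (hasDerivAt_id (0 : ℝ)).const_add (x c)
    have h6 := h5.div h4 (by
      rw [h3]
      have : 0 < √(‖x‖ ^ 2 + η ^ 2) := hx
      exact this.ne')
    rw [h3] at h6
    refine h6.congr_deriv ?_
    have h7 : √(‖x‖ ^ 2 + η ^ 2) = sqe η x := rfl
    rw [h7]
    field_simp
    ring
  exact h1.lineDeriv

lemma Gf_div {η : ℝ} (hη : 0 < η) (x : E3) :
    ∑ c, pd1 c (Gf η c) x = 2 / sqe η x + η ^ 2 / sqe η x ^ 3 := by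
  have hx := sqe_pos hη x
  simp_rw [Gf_pd1 hη]
  rw [Finset.sum_sub_distrib, ← Finset.sum_div Finset.univ (fun c => x c ^ 2)]
  have h1 : ∑ c, x c ^ 2 = sqe η x ^ 2 - η ^ 2 := by
    rw [sqe_sq, EuclideanSpace.real_norm_sq_eq]
    ring
  rw [h1]
  simp only [Finset.sum_const, Finset.card_univ, Fintype.card_fin, nsmul_eq_mul]
  field_simp
  push_cast
  ring

lemma inv_loc (R : ℝ) : IntegrableOn (fun x : E3 => ‖x‖⁻¹) (Metric.closedBall (0 : E3) R) := by
  have h1 : LocallyIntegrable (fun u : E3 => ‖u‖⁻¹) volume := by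
    refine locallyIntegrable_of_norm_le_rpow (C := 1) (α := 1) (by simp) (by simp) ?_ ?_
    · refine Filter.Eventually.of_forall fun x => ?_
      rw [Real.rpow_neg_one, norm_inv, norm_norm, one_mul]
    · exact (measurable_norm.inv).aestronglyMeasurable
  exact (locallyIntegrable_iff.mp h1) _ (isCompact_closedBall (0 : E3) R)

lemma LC1_bdd {w : E3 → ℝ} (hw : LC1 w) : ∃ B R : ℝ, 0 ≤ B ∧ (∀ x, |w x| ≤ B) ∧
    ∀ x, R < ‖x‖ → w x = 0 := by
  obtain ⟨D, hD⟩ := hw.lip
  obtain ⟨R, hR⟩ := hw.supp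
  refine ⟨|w 0| + D * |R|, R, by positivity, fun x => ?_, fun x hx => ?_⟩
  · by_cases hx : w x = 0
    · rw [hx, abs_zero]; positivity
    · have h0 := (hR x hx).trans (le_abs_self R)
      have h1 := hD.norm_sub_le x 0
      rw [sub_zero, Real.norm_eq_abs] at h1
      have h2 : |w x| ≤ |w x - w 0| + |w 0| := by
        have := abs_add_le (w x - w 0) (w 0)
        rwa [sub_add_cancel] at this
      have h3 : (D : ℝ) * ‖x‖ ≤ D * |R| := mul_le_mul_of_nonneg_left h0 D.2
      linarith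
  · by_contra h
    exact absurd (hR x h) (not_le.2 hx)

lemma w_inv_int {w : E3 → ℝ} (hw : LC1 w) : Integrable (fun x => w x * ‖x‖⁻¹) := by
  obtain ⟨B, R, hB, hwB, hwR⟩ := LC1_bdd hw
  obtain ⟨D, hD⟩ := hw.lip
  have h3 : Integrable (Set.indicator (Metric.closedBall (0 : E3) R) fun x => B * ‖x‖⁻¹) := by
    rw [integrable_indicator_iff measurableSet_closedBall]
    exact (inv_loc R).const_mul B
  refine h3.mono' (hD.continuous.aestronglyMeasurable.mul
    (measurable_norm.inv).aestronglyMeasurable) (ae_of_all _ fun x => ?_)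
  rw [Real.norm_eq_abs, abs_mul, abs_of_nonneg (inv_nonneg.2 (norm_nonneg x))]
  by_cases hx : ‖x‖ ≤ R
  · rw [Set.indicator_of_mem (by rwa [mem_closedBall_zero_iff])]
    exact mul_le_mul_of_nonneg_right (hwB x) (inv_nonneg.2 (norm_nonneg x))
  · rw [Set.indicator_of_notMem (by rwa [mem_closedBall_zero_iff]), hwR x (not_le.1 hx), abs_zero,
      zero_mul]

/-- the sequence of regularisation parameters -/
def et (n : ℕ) : ℝ := 1 / ((n : ℝ) + 1)

lemma et_pos (n : ℕ) : 0 < et n := by unfold et; positivity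

lemma et_tendsto : Tendsto et atTop (𝓝 0) := tendsto_one_div_add_atTop_nhds_zero_nat

lemma sqe_tendsto (x : E3) : Tendsto (fun n => sqe (et n) x) atTop (𝓝 ‖x‖) := by
  have h1 : Tendsto (fun n => ‖x‖ ^ 2 + et n ^ 2) atTop (𝓝 (‖x‖ ^ 2 + 0 ^ 2)) :=
    tendsto_const_nhds.add (et_tendsto.pow 2)
  have h2 := h1.sqrt
  have h3 : √(‖x‖ ^ 2 + 0 ^ 2) = ‖x‖ := by
    rw [zero_pow two_ne_zero, add_zero, Real.sqrt_sq (norm_nonneg x)]
  rw [h3] at h2
  exact h2

lemma ae_ne_zero : ∀ᵐ x : E3, x ≠ 0 := by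
  rw [ae_iff]
  simp

/-- the regularised identity -/
lemma reg {w : E3 → ℝ} (hw : LC1 w) {η : ℝ} (hη : 0 < η) :
    ∫ x, (2 / sqe η x + η ^ 2 / sqe η x ^ 3) * w x = - ∫ x, ∑ c, Gf η c x * pd1 c w x := by
  have hG : ∀ c : Fin 3, Integrable (fun x => pd1 c (Gf η c) x * w x) ∧
      Integrable (fun x => Gf η c x * pd1 c w x) ∧
      ∫ x, pd1 c (Gf η c) x * w x = - ∫ x, Gf η c x * pd1 c w x := fun c =>
    p_ibp (Gf η c) w c (fun _ => ⟨2 / η, fun x y _ _ => Gf_lip hη c x y⟩) hw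
  have h1 : ∀ x, (2 / sqe η x + η ^ 2 / sqe η x ^ 3) * w x = ∑ c, pd1 c (Gf η c) x * w x := by
    intro x
    rw [← Gf_div hη x, Finset.sum_mul]
  simp_rw [h1]
  rw [integral_finsetSum _ (fun c _ => (hG c).1), integral_finsetSum _ (fun c _ => (hG c).2.1),
    ← Finset.sum_neg_distrib]
  exact Finset.sum_congr rfl fun c _ => (hG c).2.2

end MolDis.H.Ibp

namespace MolDis.H

open Ibp

theorem p_div : S_div := by
  intro w hw
  obtain ⟨B, R, hB, hwB, hwR⟩ := LC1_bdd hw
  obtain ⟨D, hD⟩ := hw.lip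
  have hint := w_inv_int hw
  refine ⟨hint, ?_⟩
  have hL : Tendsto (fun n => ∫ x, (2 / sqe (et n) x + et n ^ 2 / sqe (et n) x ^ 3) * w x) atTop
      (𝓝 (∫ x, 2 * w x * ‖x‖⁻¹)) := by
    refine tendsto_integral_of_dominated_convergence (fun x => 3 * |w x * ‖x‖⁻¹|) (fun n => ?_)
      (hint.abs.const_mul 3) (fun n => ?_) ?_
    · have hs : Continuous (sqe (et n)) := by
        unfold sqe
        fun_prop
      have h1 : Continuous fun x => (2 / sqe (et n) x + et n ^ 2 / sqe (et n) x ^ 3) * w x := by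
        refine Continuous.mul (Continuous.add ?_ ?_) hD.continuous
        · exact continuous_const.div hs fun x => (sqe_pos (et_pos n) x).ne'
        · exact continuous_const.div (hs.pow 3) fun x => (pow_pos (sqe_pos (et_pos n) x) 3).ne'
      exact h1.aestronglyMeasurable
    · filter_upwards [ae_ne_zero] with x hx
      have h1 := sqe_pos (et_pos n) x
      have h2 := norm_le_sqee (et n) x
      have h3 := le_sqe (η := et n) x
      have h4 : 0 < ‖x‖ := norm_pos_iff.2 hx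
      have h5 : et n ^ 2 / sqe (et n) x ^ 3 ≤ 1 / sqe (et n) x := by
        rw [div_le_div_iff₀ (pow_pos h1 3) h1]
        have h6 : et n ^ 2 ≤ sqe (et n) x ^ 2 := pow_le_pow_left₀ (et_pos n).le h3 2
        nlinarith [mul_le_mul_of_nonneg_right h6 h1.le]
      have h6 : 1 / sqe (et n) x ≤ ‖x‖⁻¹ := by
        rw [one_div]
        exact inv_anti₀ h4 h2
      have h7 : (2 : ℝ) / sqe (et n) x = 2 * (1 / sqe (et n) x) := by ring
      have h8 : 0 ≤ et n ^ 2 / sqe (et n) x ^ 3 := by positivity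
      have h9 : 0 ≤ (2 : ℝ) / sqe (et n) x := by positivity
      rw [Real.norm_eq_abs, abs_mul, abs_mul, abs_of_nonneg (add_nonneg h9 h8),
        abs_of_nonneg (inv_nonneg.2 (norm_nonneg x))]
      have h10 : 2 / sqe (et n) x + et n ^ 2 / sqe (et n) x ^ 3 ≤ 3 * ‖x‖⁻¹ := by
        rw [h7]; linarith
      calc (2 / sqe (et n) x + et n ^ 2 / sqe (et n) x ^ 3) * |w x| ≤ (3 * ‖x‖⁻¹) * |w x| :=
            mul_le_mul_of_nonneg_right h10 (abs_nonneg _)
        _ = 3 * (|w x| * ‖x‖⁻¹) := by ring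
    · filter_upwards [ae_ne_zero] with x hx
      have h4 : ‖x‖ ≠ 0 := norm_ne_zero_iff.2 hx
      have h1 := sqe_tendsto x
      have h2 : Tendsto (fun n => 2 / sqe (et n) x) atTop (𝓝 (2 / ‖x‖)) :=
        tendsto_const_nhds.div h1 h4
      have h3 : Tendsto (fun n => et n ^ 2 / sqe (et n) x ^ 3) atTop (𝓝 (0 ^ 2 / ‖x‖ ^ 3)) :=
        (et_tendsto.pow 2).div (h1.pow 3) (pow_ne_zero 3 h4)
      have h5 := (h2.add h3).mul_const (w x)
      have h6 : (2 / ‖x‖ + 0 ^ 2 / ‖x‖ ^ 3) * w x = 2 * w x * ‖x‖⁻¹ := by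
        rw [zero_pow two_ne_zero, zero_div, add_zero]; ring
      rw [h6] at h5
      exact h5
  have hRt : Tendsto (fun n => ∫ x, ∑ c, Gf (et n) c x * pd1 c w x) atTop
      (𝓝 (∫ x, ∑ c, pd1 c w x * (x c / ‖x‖))) := by
    have hb : Integrable (Set.indicator (Metric.closedBall (0 : E3) R) fun _ => 3 * (D : ℝ)) := by
      rw [integrable_indicator_iff measurableSet_closedBall]
      exact integrableOn_const measure_closedBall_lt_top.ne
    have hz : ∀ x, R < ‖x‖ → ∀ c, pd1 c w x = 0 := by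
      intro x hx c
      refine pd1_zero (R := R) (fun y hy => ?_) c hx
      by_contra h
      exact hy (hwR y (not_le.1 h))
    refine tendsto_integral_of_dominated_convergence _ (fun n => ?_) hb (fun n => ?_) ?_
    · refine Finset.aestronglyMeasurable_fun_sum _ fun c _ => ?_
      have hs : Continuous (sqe (et n)) := by
        unfold sqe
        fun_prop
      have h1 : Continuous (Gf (et n) c) := by
        unfold Gf
        refine Continuous.div ?_ hs fun x => (sqe_pos (et_pos n) x).ne'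
        fun_prop
      exact h1.aestronglyMeasurable.mul (pd1_meas hD.continuous c)
    · refine ae_of_all _ fun x => ?_
      by_cases hx : ‖x‖ ≤ R
      · rw [Set.indicator_of_mem (by rwa [mem_closedBall_zero_iff])]
        refine (norm_sum_le _ _).trans ?_
        have h1 : ∀ c : Fin 3, ‖Gf (et n) c x * pd1 c w x‖ ≤ D := by
          intro c
          rw [Real.norm_eq_abs, abs_mul]
          calc |Gf (et n) c x| * |pd1 c w x| ≤ 1 * D :=
                mul_le_mul (abs_Gf_le (et_pos n) c x) (pd1_bdd hD c x) (abs_nonneg _) zero_le_one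
            _ = D := one_mul _
        calc ∑ c : Fin 3, ‖Gf (et n) c x * pd1 c w x‖ ≤ ∑ _c : Fin 3, (D : ℝ) :=
              Finset.sum_le_sum fun c _ => h1 c
          _ = 3 * D := by simp
      · rw [Set.indicator_of_notMem (by rwa [mem_closedBall_zero_iff])]
        have h1 : ∑ c, Gf (et n) c x * pd1 c w x = 0 :=
          Finset.sum_eq_zero fun c _ => by rw [hz x (not_le.1 hx) c, mul_zero]
        rw [h1, norm_zero]
    · filter_upwards [ae_ne_zero] with x hx
      have h4 : ‖x‖ ≠ 0 := norm_ne_zero_iff.2 hx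
      have h1 := sqe_tendsto x
      refine tendsto_finsetSum _ fun c _ => ?_
      have h2 : Tendsto (fun n => Gf (et n) c x) atTop (𝓝 (x c / ‖x‖)) :=
        tendsto_const_nhds.div h1 h4
      have h3 := h2.mul_const (pd1 c w x)
      rwa [mul_comm] at h3
  have h1 : ∀ n, ∫ x, (2 / sqe (et n) x + et n ^ 2 / sqe (et n) x ^ 3) * w x =
      - ∫ x, ∑ c, Gf (et n) c x * pd1 c w x := fun n => reg hw (et_pos n)
  simp_rw [h1] at hL
  have h2 := tendsto_nhds_unique hL hRt.neg
  rw [h2, neg_neg]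

end MolDis.H
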