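import Pool.Agent.Lib.MP_59f35a_mp.HStmts
import Pool.Agent.Lib.MP_59f35a_mp.CompSec
import Pool.Agent.Lib.MP_59f35a_mp.H.Bad

/-!
# MP_59f35a_mp : F5 (ionisation gap of the three atoms)
-/

set_option autoImplicit false

noncomputable section

open MeasureTheory

namespace MolDis.H

namespace Ion

open MolDis.CompSec

/-- lower bound for two electrons -/
lemma en2_low (h_ims : S_ims) (h_cut : S_cut) (h_lc : S_lc) (h_adm : S_adm) (h_en : S_en)
    (r a l : ℝ) (hr : 2 ≤ r) (ha : r ^ 4 ≤ a) (hl : 2 * a ≤ l)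
    (hb : ∀ (α : Fin 2 → Option (Fin 3)) (ψ : (Fin 2 → Om) → ℝ), WF ψ →
      (-1 / 2 - 20 / r) * nsq (sector (cellPU r (yv a l)) α ψ) ≤
        Qf (yv a l) (sector (cellPU r (yv a l)) α ψ)) :
    -1 / 2 - 40 / r ≤ En 2 (yv a l) := by
  have hr0 : 0 < r := by linarith
  have har : 8 * r ≤ a := by
    refine le_trans ?_ ha
    have : (8 : ℝ) ≤ r ^ 3 := by
      calc (8 : ℝ) = 2 ^ 3 := by norm_num
        _ ≤ r ^ 3 := pow_le_pow_left₀ (by norm_num) hr 3
    calc 8 * r ≤ r ^ 3 * r := mul_le_mul_of_nonneg_right this hr0.le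
      _ = r ^ 4 := by ring
  have ha0 : 0 < a := by linarith
  have hz := Bad.yv_dist a l ha0 hl
  obtain ⟨hPU, -, -, -, hg1, -, -⟩ := h_cut (Fin 3) r (yv a l) hr0
    (fun k k' h => by have := hz k k' h; linarith)
  unfold En
  refine le_csInf ?_ ?_
  · obtain ⟨⟨ψ, h1, h2⟩, -⟩ := h_en.1 _ (yv a l) 2
    exact ⟨_, ψ, h1, h2, rfl⟩
  · rintro b ⟨ψ, hψ, hn, rfl⟩
    obtain ⟨i1, i2, i3, i4, i5, i6⟩ := h_ims (Fin 2) (Option (Fin 3)) (cellPU r (yv a l)) ψ hPU
      hψ.toLC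
    have hpA : AdmW (pot (ι := Fin 2) (yv a l)) :=
      ((h_adm (Fin 2)).2.2.2.2.2.2.1 _ (yv a l)).2.2
    have h1 : ∑ α : Fin 2 → Option (Fin 3), (-1 / 2 - 20 / r)
        * nsq (sector (cellPU r (yv a l)) α ψ) ≤
        ∑ α : Fin 2 → Option (Fin 3), Qf (yv a l) (sector (cellPU r (yv a l)) α ψ) :=
      Finset.sum_le_sum fun α _ => hb α ψ hψ
    rw [← Finset.mul_sum, ← i2, hn, mul_one] at h1
    have h2 : ∑ α : Fin 2 → Option (Fin 3), Qf (yv a l) (sector (cellPU r (yv a l)) α ψ) =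
        Qf (yv a l) ψ + ∑ j, expv (fun X => puG (cellPU r (yv a l)) (X j).1) ψ := by
      unfold Qf
      rw [Finset.sum_add_distrib, ← i3 _ hpA, i4]
      ring
    rw [h2] at h1
    obtain ⟨C5, hC5⟩ := i5
    have h3 : ∑ j, expv (fun X => puG (cellPU r (yv a l)) (X j).1) ψ ≤ 20 / r := by
      have h4 : ∀ j : Fin 2, expv (fun X => puG (cellPU r (yv a l)) (X j).1) ψ ≤ 10 / r := by
        intro j
        have hA : AdmW (fun X : Fin 2 → Om => puG (cellPU r (yv a l)) (X j).1) :=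
          (h_adm _).1 _ ⟨i6.comp ((measurable_pi_apply j).fst), fun R => ⟨C5, fun X _ => hC5 _⟩⟩
        have h5 := expv_mono h_lc ψ hψ.toLC _ (fun _ => 10 / r) hA (adm_const h_adm _)
          (fun X _ => by
            refine (hg1 _).trans ?_
            have : (10 : ℝ) / r ^ 2 = 10 / r / r := by field_simp
            rw [this]
            exact div_le_self (by positivity) (by linarith))
        rw [expv_const, hn, mul_one] at h5
        exact h5
      calc ∑ j, expv (fun X => puG (cellPU r (yv a l)) (X j).1) ψ ≤ ∑ _j : Fin 2, 10 / r :=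
            Finset.sum_le_sum fun j _ => h4 j
        _ = 20 / r := by
            rw [Finset.sum_const, Finset.card_univ, Fintype.card_fin, nsmul_eq_mul]
            push_cast
            ring
    have h6 : -1 / 2 - 40 / r = -1 / 2 - 20 / r - 20 / r := by ring
    rw [h6]
    linarith

/-- the scalar energy is small -/
lemma ee_small (h_apri : S_apri) (h_gap : S_gap) (h_avg : S_avg) (h_bounds : S_bounds)
    (ε : ℝ) (hε : 0 < ε) : ∃ r0 : ℝ, 2 ≤ r0 ∧ ∀ r a l : ℝ, r0 ≤ r → r ^ 4 ≤ a → a ^ 6 ≤ l →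
      2 * a ≤ l ∧ |EE S3 r (U3 r a l)| ≤ ε := by
  obtain ⟨g0, hg0⟩ := h_gap
  obtain ⟨C, M0, r1, hC, hM0, hr1, hA⟩ := h_apri g0 hg0
  obtain ⟨B, hB, hb⟩ := h_bounds
  refine ⟨2 + r1 + 2 * B / M0 + 2 * B + C * (2 * B + 4) / ε, ?_, ?_⟩
  · have h1 : 0 ≤ 2 * B / M0 := by positivity
    have h2 : 0 ≤ C * (2 * B + 4) / ε := by positivity
    linarith
  intro r a l hr ha hl
  have h1 : 0 ≤ 2 * B / M0 := by positivity
  have h2 : 0 ≤ C * (2 * B + 4) / ε := by positivity
  have hr2 : 2 ≤ r := by linarith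
  have hr0 : 0 < r := by linarith
  have har : 8 * r ≤ a := by
    refine le_trans ?_ ha
    have : (8 : ℝ) ≤ r ^ 3 := by
      calc (8 : ℝ) = 2 ^ 3 := by norm_num
        _ ≤ r ^ 3 := pow_le_pow_left₀ (by norm_num) hr2 3
    calc 8 * r ≤ r ^ 3 * r := mul_le_mul_of_nonneg_right this hr0.le
      _ = r ^ 4 := by ring
  have ha2 : 2 ≤ a := by linarith
  have ha0 : 0 < a := by linarith
  have h2al : 2 * a ≤ l := by
    refine le_trans ?_ hl
    have h3 : (2 : ℝ) ≤ a ^ 5 := by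
      calc (2 : ℝ) ≤ a := ha2
        _ ≤ a ^ 5 := le_self_pow₀ (by linarith) (by norm_num)
    calc 2 * a ≤ a ^ 5 * a := mul_le_mul_of_nonneg_right h3 ha0.le
      _ = a ^ 6 := by ring
  have hal : a ≤ l := by linarith
  refine ⟨h2al, ?_⟩
  obtain ⟨b1, b2, b3, -, b5, -⟩ := hb r a l (by linarith) har h2al
  obtain ⟨-, -, -, -, v5, -, v7⟩ := h_avg r a l (by linarith) har h2al
  set M : ℝ := 2 * B * r ^ 2 / a ^ 3 with hM
  have hM' : 0 ≤ M := by rw [hM]; positivity
  have hMr : M ≤ 2 * B / r := by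
    rw [hM, div_le_div_iff₀ (by positivity) hr0]
    have h3 : r ^ 2 * r ≤ a ^ 3 := by
      have : r ≤ a := by linarith
      calc r ^ 2 * r = r ^ 3 := by ring
        _ ≤ a ^ 3 := pow_le_pow_left₀ hr0.le this 3
    calc 2 * B * r ^ 2 * r = 2 * B * (r ^ 2 * r) := by ring
      _ ≤ 2 * B * a ^ 3 := mul_le_mul_of_nonneg_left h3 (by positivity)
  have hMM0 : M ≤ M0 := by
    refine hMr.trans ?_
    rw [div_le_iff₀ hr0]
    have h3 : 2 * B / M0 ≤ r := by linarith
    rw [div_le_iff₀ hM0] at h3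
    linarith
  have hM1 : M ≤ 1 := by
    refine hMr.trans ?_
    rw [div_le_iff₀ hr0]
    linarith
  have hU : ∀ x, |U3 r a l x| ≤ M := by
    intro x
    unfold U3
    refine (abs_add_le _ _).trans ?_
    have h3 := b3 x
    have h4 := b5 x
    have h5 : B * r ^ 2 / l ^ 3 ≤ B * r ^ 2 / a ^ 3 := by gcongr
    have h6 : M = B * r ^ 2 / a ^ 3 + B * r ^ 2 / a ^ 3 := by rw [hM]; ring
    rw [h6]
    linarith
  have hmain := (hA S3 r M (U3 r a l) (by simp [S3]) (by linarith) hM' hMM0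
    (b1.add b2) hU v5 v7).1
  refine hmain.trans ?_
  have hexp : Real.exp (-r / 4) ≤ 4 / r := by
    have h3 : r / 4 ≤ Real.exp (r / 4) := by
      have := Real.add_one_le_exp (r / 4)
      linarith
    have h4 : Real.exp (-r / 4) = (Real.exp (r / 4))⁻¹ := by
      rw [← Real.exp_neg]
      congr 1
      ring
    rw [h4]
    calc (Real.exp (r / 4))⁻¹ ≤ (r / 4)⁻¹ := inv_anti₀ (by positivity) h3
      _ = 4 / r := by rw [inv_div]
  have hM2 : M ^ 2 ≤ 2 * B / r := by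
    calc M ^ 2 = M * M := by ring
      _ ≤ 1 * M := mul_le_mul_of_nonneg_right hM1 hM'
      _ ≤ 2 * B / r := by rw [one_mul]; exact hMr
  calc C * (M ^ 2 + Real.exp (-r / 4)) ≤ C * (2 * B / r + 4 / r) := by gcongr
    _ = C * (2 * B + 4) / r := by ring
    _ ≤ ε := by
        rw [div_le_iff₀ hr0]
        have h3 : C * (2 * B + 4) / ε ≤ r := by linarith
        rw [div_le_iff₀ hε] at h3
        linarith

end Ion

open Ion in
theorem p_ion (h_bad : S_bad) (h_up : S_up) (h_apri : S_apri) (h_gap : S_gap) (h_avg : S_avg)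
    (h_bounds : S_bounds) (h_ims : S_ims) (h_cut : S_cut) (h_lc : S_lc) (h_en : S_en)
    (h_adm : S_adm) : S_ion := by
  intro hE
  obtain ⟨g3, r1, -, -, hr1, hb⟩ := h_bad hE
  obtain ⟨r2, hr2, he⟩ := ee_small h_apri h_gap h_avg h_bounds (1 / 16) (by norm_num)
  refine ⟨r1 + r2 + 640, by linarith, ?_⟩
  intro r a l hr ha hl
  obtain ⟨h2al, hEE⟩ := he r a l (by linarith) ha hl
  have hr0 : 0 < r := by linarith
  have h1 := en2_low h_ims h_cut h_lc h_adm h_en r a l (by linarith) ha h2al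
    (hb r a l (by linarith) ha h2al).2
  have har : 8 * r ≤ a := by
    refine le_trans ?_ ha
    have : (8 : ℝ) ≤ r ^ 3 := by
      calc (8 : ℝ) = 2 ^ 3 := by norm_num
        _ ≤ r ^ 3 := pow_le_pow_left₀ (by norm_num) (by linarith) 3
    calc 8 * r ≤ r ^ 3 * r := mul_le_mul_of_nonneg_right this hr0.le
      _ = r ^ 4 := by ring
  have h2 := h_up r a l (by linarith) har h2al
  have h3 := (abs_le.1 hEE).2
  have h4 : 40 / r ≤ 1 / 16 := by
    rw [div_le_iff₀ hr0]
    linarith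
  linarith

end MolDis.H
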