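import Pool.Agent.Lib.MP_59f35a_mp.HStmts
import Pool.Agent.Lib.MP_59f35a_mp.Slices
import Pool.Agent.Lib.MP_59f35a_mp.AdmBasic

/-!
# MP_59f35a_mp : F1 (link between the fermionic wave functions and the scalar problem)
-/

open MeasureTheory Filter Topology

noncomputable section

namespace MolDis.H.Link

/-- density of `hm` -/
def dn (x : E3) : ℝ := Real.exp (-‖x‖) / (8 * Real.pi)

/-- the inverse of the ground state -/
def w1 (x : E3) : ℝ := √(8 * Real.pi) * Real.exp (‖x‖ / 2)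

/-- product of the weights -/
def wt (x : X3) : ℝ := ∏ i, w1 (x i)

lemma dn_pos (x : E3) : 0 < dn x := by
  unfold dn
  have := Real.pi_pos
  positivity

lemma dn_cont : Continuous dn := by
  unfold dn
  fun_prop

lemma w1_pos (x : E3) : 0 < w1 x := by
  unfold w1
  have := Real.pi_pos
  positivity

lemma w1_cont : Continuous w1 := by
  unfold w1
  fun_prop

lemma w1_sq_dn (x : E3) : dn x * w1 x ^ 2 = 1 := by
  unfold dn w1
  have h := Real.pi_pos
  rw [mul_pow, Real.sq_sqrt (by positivity), ← Real.exp_nat_mul]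
  have h2 : ((2 : ℕ) : ℝ) * (‖x‖ / 2) = ‖x‖ := by push_cast; ring
  rw [h2]
  have h3 : Real.exp (-‖x‖) * Real.exp ‖x‖ = 1 := by rw [← Real.exp_add]; simp
  field_simp
  linarith

lemma wt_cont : Continuous wt := by
  unfold wt
  exact continuous_finsetProd _ fun i _ => w1_cont.comp (continuous_apply i)

lemma wt_sq_dn (x : X3) : (∏ i, dn (x i)) * wt x ^ 2 = 1 := by
  unfold wt
  rw [← Finset.prod_pow, ← Finset.prod_mul_distrib]
  exact Finset.prod_eq_one fun i _ => w1_sq_dn (x i)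

lemma dn_int (h : S_hm) : Integrable dn := by
  have h1 : IsProbabilityMeasure hm := h.1
  refine ⟨dn_cont.aestronglyMeasurable, ?_⟩
  rw [hasFiniteIntegral_iff_ofReal (ae_of_all _ fun x => (dn_pos x).le)]
  have h2 : hm Set.univ = 1 := measure_univ
  unfold hm at h2
  rw [withDensity_apply _ MeasurableSet.univ, Measure.restrict_univ] at h2
  change ∫⁻ x, ENNReal.ofReal (Real.exp (-‖x‖) / (8 * Real.pi)) < ⊤
  rw [h2]; simp

lemma pm_eq (h : S_hm) : pm = (volume : Measure X3).withDensity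
    (fun x => ENNReal.ofReal (∏ i, dn (x i))) := by
  have h1 : IsProbabilityMeasure hm := h.1
  unfold pm
  refine Measure.pi_eq fun s hs => ?_
  rw [withDensity_apply _ (MeasurableSet.univ_pi hs), ← lintegral_indicator (MeasurableSet.univ_pi hs)]
  have e1 : ∀ x : X3, (Set.univ.pi s).indicator (fun x => ENNReal.ofReal (∏ i, dn (x i))) x =
      ENNReal.ofReal (∏ i, (s i).indicator dn (x i)) := by
    intro x
    by_cases hx : x ∈ Set.univ.pi s
    · rw [Set.indicator_of_mem hx]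
      congr 1
      refine Finset.prod_congr rfl fun i _ => ?_
      rw [Set.indicator_of_mem (hx i (Set.mem_univ i))]
    · rw [Set.indicator_of_notMem hx]
      simp only [Set.mem_pi, Set.mem_univ, true_implies, not_forall] at hx
      obtain ⟨i, hi⟩ := hx
      rw [Finset.prod_eq_zero (Finset.mem_univ i) (Set.indicator_of_notMem hi _)]
      simp
  simp_rw [e1]
  have hI : ∀ i, Integrable ((s i).indicator dn) := fun i => (dn_int h).indicator (hs i)
  have hnn : ∀ i x, 0 ≤ (s i).indicator dn x := fun i x =>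
    Set.indicator_nonneg (fun y _ => (dn_pos y).le) x
  rw [volume_pi, ← ofReal_integral_eq_lintegral_ofReal
    (Integrable.fintype_prod_dep (μ := fun _ : Fin 3 => (volume : Measure E3)) hI)
    (ae_of_all _ fun x => Finset.prod_nonneg fun i _ => hnn i (x i))]
  rw [integral_fintype_prod_eq_prod (𝕜 := ℝ) (fun i => (s i).indicator dn),
    ENNReal.ofReal_prod_of_nonneg (fun i _ => integral_nonneg (hnn i))]
  refine Finset.prod_congr rfl fun i _ => ?_
  rw [integral_indicator (hs i), ofReal_integral_eq_lintegral_ofReal (dn_int h).integrableOn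
    (ae_of_all _ fun x => (dn_pos x).le)]
  unfold hm
  rw [withDensity_apply _ (hs i)]
  rfl

lemma vol_pm (h : S_hm) {F : X3 → ℝ} (hF : Integrable F) :
    Integrable (fun x => F x * wt x ^ 2) pm ∧ ∫ x, F x = ∫ x, F x * wt x ^ 2 ∂pm := by
  set f : X3 → NNReal := fun x => Real.toNNReal (∏ i, dn (x i)) with hf
  have hc : Continuous fun x : X3 => ∏ i, dn (x i) :=
    continuous_finsetProd _ fun i _ => dn_cont.comp (continuous_apply i)
  have hm : Measurable f := hc.measurable.real_toNNReal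
  have e1 : pm = (volume : Measure X3).withDensity (fun x => (f x : ENNReal)) := pm_eq h
  have e2 : ∀ x, f x • (F x * wt x ^ 2) = F x := by
    intro x
    rw [NNReal.smul_def, hf]
    simp only
    rw [Real.coe_toNNReal _ (Finset.prod_nonneg fun i _ => (dn_pos _).le), smul_eq_mul]
    have := wt_sq_dn x
    linear_combination F x * this
  rw [e1]
  constructor
  · rw [integrable_withDensity_iff_integrable_smul hm]
    simpa only [e2] using hF
  · rw [integral_withDensity_eq_integral_smul hm]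
    simp only [e2]

/-! ### change of variables -/

/-- the configuration with relative positions `x` -/
def cf (Y : Fin 3 → E3) (τ : Equiv.Perm (Fin 3)) (s : Fin 3 → Bool) (x : X3) : Fin 3 → Om :=
  fun j => (Y (τ j) + x (τ j), s j)

/-- change of the position variables -/
def Tx (Y : Fin 3 → E3) (τ : Equiv.Perm (Fin 3)) (x : X3) : X3 := fun j => Y (τ j) + x (τ j)

lemma mp_T (Y : Fin 3 → E3) (τ : Equiv.Perm (Fin 3)) :
    MeasurePreserving (Tx Y τ) (volume : Measure X3) volume := by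
  have h := (volume_measurePreserving_piCongrLeft (fun _ : Fin 3 => E3) τ).symm
  have h2 := measurePreserving_add_left (volume : Measure X3) (fun j => Y (τ j))
  have h3 := h2.comp h
  have e : Tx Y τ = (fun x : X3 => (fun j => Y (τ j)) + x) ∘
      (MeasurableEquiv.piCongrLeft (fun _ : Fin 3 => E3) τ).symm := by
    funext x j
    rfl
  rw [e]
  exact h3

lemma emb_T (Y : Fin 3 → E3) (τ : Equiv.Perm (Fin 3)) : MeasurableEmbedding (Tx Y τ) := by
  have e : Tx Y τ = (MeasurableEquiv.addLeft (fun j => Y (τ j)) : X3 ≃ᵐ X3) ∘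
      (MeasurableEquiv.piCongrLeft (fun _ : Fin 3 => E3) τ).symm := by
    funext x j
    rfl
  rw [e]
  exact (MeasurableEquiv.measurableEmbedding _).comp (MeasurableEquiv.measurableEmbedding _)

lemma mu_pm (h : S_hm) (Y : Fin 3 → E3) (τ : Equiv.Perm (Fin 3)) {g : (Fin 3 → Om) → ℝ}
    (hg : Integrable g (mu (Fin 3))) :
    (∀ s, Integrable (fun x => g (cf Y τ s x) * wt x ^ 2) pm) ∧
    ∫ X, g X ∂(mu (Fin 3)) = ∑ s, ∫ x, g (cf Y τ s x) * wt x ^ 2 ∂pm := by
  obtain ⟨h1, h2⟩ := Bridge.int_mu hg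
  have h3 : ∀ s, Integrable (fun x => g (cf Y τ s x)) := fun s =>
    (mp_T Y τ).integrable_comp_of_integrable (h1 s)
  refine ⟨fun s => (vol_pm h (h3 s)).1, ?_⟩
  rw [h2]
  refine Finset.sum_congr rfl fun s _ => ?_
  rw [← (vol_pm h (h3 s)).2]
  exact ((mp_T Y τ).integral_comp (emb_T Y τ) (fun x => g (Bridge.conf x s))).symm

/-! ### the functions `u` and `g = gof` -/

section fun_

variable {Y : Fin 3 → E3} {τ : Equiv.Perm (Fin 3)} {s : Fin 3 → Bool} {ψ : (Fin 3 → Om) → ℝ}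

lemma gof_eq (x : X3) : gof Y τ s ψ x = ψ (cf Y τ s x) * wt x := rfl

lemma cf_fst {X : X3} (j : Fin 3) : (cf Y τ s X j).1 = Y (τ j) + X (τ j) := rfl

lemma u_supp {r : ℝ} (hb : ∀ X, ψ X ≠ 0 → ∀ j, ‖(X j).1 - Y (τ j)‖ ≤ r) {x : X3}
    (hx : ψ (cf Y τ s x) ≠ 0) (i : Fin 3) : ‖x i‖ ≤ r := by
  have h := hb _ hx (τ.symm i)
  rw [cf_fst] at h
  simpa using h

lemma u_lip (hψ : LC ψ) : ∃ K, LipschitzWith K (fun x : X3 => ψ (cf Y τ s x)) := by
  obtain ⟨K, hK⟩ := Bridge.sl_lip hψ s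
  refine ⟨K, ?_⟩
  have h1 : LipschitzWith 1 (Tx Y τ) := by
    refine LipschitzWith.of_dist_le_mul fun x y => ?_
    rw [NNReal.coe_one, one_mul, dist_pi_le_iff dist_nonneg]
    intro j
    simp only [Tx, dist_add_left]
    exact dist_le_pi_dist x y (τ j)
  have h2 := hK.comp h1
  rw [mul_one] at h2
  exact h2

lemma u_bdd (hψ : LC ψ) : ∃ B : ℝ, ∀ x : X3, |ψ (cf Y τ s x)| ≤ B := by
  obtain ⟨B, hB⟩ := LcBasic.bounded_lc hψ
  exact ⟨B, fun x => hB _⟩

/-- clamped weight -/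
def cw (r : ℝ) (x : E3) : ℝ := √(8 * Real.pi) * Real.exp (min ‖x‖ r / 2)

lemma exp_lip {a b M : ℝ} (ha : a ≤ M) (hb : b ≤ M) :
    |Real.exp a - Real.exp b| ≤ Real.exp M * |a - b| := by
  wlog h : a ≤ b generalizing a b with H
  · have := H hb ha (le_of_not_ge h)
    rwa [abs_sub_comm, abs_sub_comm b a] at this
  rw [abs_sub_comm, abs_sub_comm a b, abs_of_nonneg (sub_nonneg.mpr h), abs_of_nonneg
    (sub_nonneg.mpr (Real.exp_le_exp.mpr h))]
  have h1 := Real.add_one_le_exp (a - b)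
  have h2 : Real.exp a = Real.exp b * Real.exp (a - b) := by rw [← Real.exp_add]; ring_nf
  have h3 := Real.exp_pos b
  calc Real.exp b - Real.exp a = Real.exp b * (1 - Real.exp (a - b)) := by rw [h2]; ring
    _ ≤ Real.exp b * (b - a) := mul_le_mul_of_nonneg_left (by linarith) h3.le
    _ ≤ Real.exp M * (b - a) := by
        have := Real.exp_le_exp.mpr hb
        have h5 : 0 ≤ b - a := by linarith
        gcongr

lemma cw_BL (r : ℝ) (i : Fin 3) : BL (fun x : X3 => cw r (x i)) := by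
  refine ⟨⟨Real.toNNReal (√(8 * Real.pi) * (Real.exp (r / 2) * (1 / 2))),
    LipschitzWith.of_dist_le_mul fun x y => ?_⟩, ⟨√(8 * Real.pi) * Real.exp (r / 2), fun x => ?_⟩⟩
  · rw [Real.coe_toNNReal _ (by positivity), Real.dist_eq]
    unfold cw
    rw [← mul_sub, abs_mul, abs_of_nonneg (Real.sqrt_nonneg _)]
    have h1 := exp_lip (a := min ‖x i‖ r / 2) (b := min ‖y i‖ r / 2) (M := r / 2)
      (by have := min_le_right ‖x i‖ r; linarith) (by have := min_le_right ‖y i‖ r; linarith)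
    have h2 : |min ‖x i‖ r / 2 - min ‖y i‖ r / 2| ≤ 1 / 2 * dist x y := by
      have h3 := abs_min_sub_min_le_max ‖x i‖ r ‖y i‖ r
      rw [sub_self, abs_zero, max_eq_left (abs_nonneg _)] at h3
      have h4 := abs_norm_sub_norm_le (x i) (y i)
      have h5 := dist_le_pi_dist x y i
      rw [dist_eq_norm] at h5
      rw [← sub_div, abs_div, abs_of_pos (two_pos : (0 : ℝ) < 2)]
      linarith
    calc √(8 * Real.pi) * |Real.exp (min ‖x i‖ r / 2) - Real.exp (min ‖y i‖ r / 2)| ≤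
        √(8 * Real.pi) * (Real.exp (r / 2) * (1 / 2 * dist x y)) := by
          gcongr
          refine h1.trans ?_
          gcongr
      _ = _ := by ring
  · unfold cw
    rw [abs_of_nonneg (by positivity)]
    have := min_le_right ‖x i‖ r
    gcongr

lemma wt_cw {r : ℝ} {x : X3} (hx : ∀ i, ‖x i‖ ≤ r) : wt x = cw r (x 0) * cw r (x 1) * cw r (x 2) := by
  unfold wt
  rw [Fin.prod_univ_three]
  simp only [w1, cw, min_eq_left (hx _)]

lemma gof_cw {r : ℝ} (hb : ∀ X, ψ X ≠ 0 → ∀ j, ‖(X j).1 - Y (τ j)‖ ≤ r) :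
    gof Y τ s ψ = fun x => ψ (cf Y τ s x) * (cw r (x 0) * cw r (x 1) * cw r (x 2)) := by
  funext x
  rw [gof_eq]
  by_cases hx : ψ (cf Y τ s x) = 0
  · rw [hx]; simp
  · rw [wt_cw (u_supp hb hx)]

lemma gof_BL (hbl : S_bl) {r : ℝ} (hψ : LC ψ)
    (hb : ∀ X, ψ X ≠ 0 → ∀ j, ‖(X j).1 - Y (τ j)‖ ≤ r) : BL (gof Y τ s ψ) := by
  rw [gof_cw hb]
  refine (hbl.1 _ _ ⟨u_lip hψ, u_bdd hψ⟩ ?_).2.2
  exact (hbl.1 _ _ (hbl.1 _ _ (cw_BL r 0) (cw_BL r 1)).2.2 (cw_BL r 2)).2.2

lemma gof_box (hbl : S_bl) {r : ℝ} (hψ : LC ψ)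
    (hb : ∀ X, ψ X ≠ 0 → ∀ j, ‖(X j).1 - Y (τ j)‖ ≤ r) : Box S3 r (gof Y τ s ψ) := by
  refine ⟨(gof_BL hbl hψ hb).lip, fun x hx j _ => ?_, fun j hj => absurd (Finset.mem_univ j) hj⟩
  rw [gof_eq] at hx
  exact u_supp hb (left_ne_zero_of_mul hx) j

/-! ### slices -/

lemma wt_update (x : X3) (i : Fin 3) (y : E3) :
    wt (Function.update x i y) = w1 y * ∏ k ∈ Finset.univ.erase i, w1 (x k) := by
  unfold wt
  rw [← Finset.mul_prod_erase Finset.univ (fun k => w1 (Function.update x i y k))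
    (Finset.mem_univ i)]
  simp only [Function.update_self]
  congr 1
  refine Finset.prod_congr rfl fun k hk => ?_
  rw [Function.update_of_ne (Finset.ne_of_mem_erase hk)]

lemma dist_update (x : X3) (i : Fin 3) (y z : E3) :
    dist (Function.update x i y) (Function.update x i z) ≤ dist y z := by
  rw [dist_pi_le_iff dist_nonneg]
  intro j
  by_cases h : j = i
  · subst h; simp
  · simp [Function.update_of_ne h, dist_nonneg]

lemma slice_LC1 {r : ℝ} (hψ : LC ψ) (hb : ∀ X, ψ X ≠ 0 → ∀ j, ‖(X j).1 - Y (τ j)‖ ≤ r)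
    (x : X3) (i : Fin 3) : LC1 (fun y => ψ (cf Y τ s (Function.update x i y))) := by
  constructor
  · obtain ⟨K, hK⟩ := u_lip (Y := Y) (τ := τ) (s := s) hψ
    refine ⟨K, LipschitzWith.of_dist_le_mul fun y z => ?_⟩
    refine (hK.dist_le_mul _ _).trans ?_
    gcongr
    exact dist_update x i y z
  · refine ⟨r, fun y hy => ?_⟩
    have := u_supp hb hy i
    simpa using this

lemma D1_smul (q : ℝ) (f : E3 → ℝ) : D1 (fun y => q * f y) (fun y => q * f y) = q ^ 2 * D1 f f := by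
  unfold D1
  rw [Finset.mul_sum]
  refine Finset.sum_congr rfl fun c _ => ?_
  rw [← integral_const_mul]
  refine integral_congr_ae (ae_of_all _ fun x => ?_)
  have h : pd1 c (fun y => q * f y) x = q * pd1 c f x := by
    unfold pd1 lineDeriv
    exact deriv_const_mul_field q
  simp only [h]
  ring

/-- the kinetic density of `u` in the variable `i`, times the weight -/
def FF (u : X3 → ℝ) (i : Fin 3) (x : X3) : ℝ :=
  ‖fderiv ℝ (fun y => u (Function.update x i y)) (x i)‖ ^ 2 * wt x ^ 2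

lemma hm_int (hhm : S_hm) (f : E3 → ℝ) : ∫ x, f x ∂hm = ∫ x, dn x * f x := hhm.2.2.2.1 f

lemma slice_id (hhm : S_hm) (hconv : S_conv) {r : ℝ} (hψ : LC ψ)
    (hb : ∀ X, ψ X ≠ 0 → ∀ j, ‖(X j).1 - Y (τ j)‖ ≤ r) (x : X3) (i : Fin 3) :
    Pj i (FF (fun x => ψ (cf Y τ s x)) i) x =
      D1 (sl i x (gof Y τ s ψ)) (sl i x (gof Y τ s ψ))
      + Pj i (fun x => ‖x i‖⁻¹ * gof Y τ s ψ x ^ 2) x
      - 1 / 4 * Pj i (fun x => gof Y τ s ψ x ^ 2) x := by
  set q : ℝ := ∏ k ∈ Finset.univ.erase i, w1 (x k) with hq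
  set f : E3 → ℝ := fun y => ψ (cf Y τ s (Function.update x i y)) with hf
  obtain ⟨-, -, h3, -, h5⟩ := hconv f (slice_LC1 hψ hb x i)
  have e0 : sl i x (gof Y τ s ψ) = fun y => q * (√(8 * Real.pi) * Real.exp (‖y‖ / 2) * f y) := by
    funext y
    unfold sl
    rw [gof_eq, wt_update, hf, ← hq]
    simp only [w1]
    ring
  have e1 : Pj i (FF (fun x => ψ (cf Y τ s x)) i) x = q ^ 2 * ∫ y, ‖fderiv ℝ f y‖ ^ 2 := by
    unfold Pj
    rw [hm_int hhm, ← integral_const_mul]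
    refine integral_congr_ae (ae_of_all _ fun y => ?_)
    simp only [FF, Function.update_idem, Function.update_self, wt_update, ← hq]
    have := w1_sq_dn y
    linear_combination (‖fderiv ℝ f y‖ ^ 2 * q ^ 2) * this
  have e2 : Pj i (fun x => ‖x i‖⁻¹ * gof Y τ s ψ x ^ 2) x = q ^ 2 * ∫ y, f y ^ 2 * ‖y‖⁻¹ := by
    unfold Pj
    rw [hm_int hhm, ← integral_const_mul]
    refine integral_congr_ae (ae_of_all _ fun y => ?_)
    simp only [gof_eq, Function.update_self, wt_update, ← hq]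
    have := w1_sq_dn y
    linear_combination (f y ^ 2 * ‖y‖⁻¹ * q ^ 2) * this
  have e3 : Pj i (fun x => gof Y τ s ψ x ^ 2) x = q ^ 2 * ∫ y, f y ^ 2 := by
    unfold Pj
    rw [hm_int hhm, ← integral_const_mul]
    refine integral_congr_ae (ae_of_all _ fun y => ?_)
    simp only [gof_eq, wt_update, ← hq]
    have := w1_sq_dn y
    linear_combination (f y ^ 2 * q ^ 2) * this
  rw [e0, e1, e2, e3, D1_smul, h3, h5]
  ring

lemma put_cf (x : X3) (j : Fin 3) (y : E3) :
    put (cf Y τ s x) j y = cf Y τ s (Function.update x (τ j) (y - Y (τ j))) := by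
  funext k
  unfold put cf
  by_cases h : k = j
  · subst h; simp
  · have h2 : τ k ≠ τ j := fun h3 => h (τ.injective h3)
    simp [Function.update_of_ne h, Function.update_of_ne h2]

lemma gradSq_cf (x : X3) (j : Fin 3) : gradSq ψ j (cf Y τ s x) * wt x ^ 2 =
    FF (fun x => ψ (cf Y τ s x)) (τ j) x := by
  unfold gradSq FF
  simp only [put_cf, cf_fst]
  rw [fderiv_comp_sub (f := fun z => ψ (cf Y τ s (Function.update x (τ j) z)))]
  simp

lemma kin_part (hhm : S_hm) (hprod : S_prod) (hbl : S_bl) (hform : S_form) (hconv : S_conv)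
    {r : ℝ} (hψ : LC ψ) (hb : ∀ X, ψ X ≠ 0 → ∀ j, ‖(X j).1 - Y (τ j)‖ ≤ r) (j : Fin 3)
    (hF : Integrable (FF (fun x => ψ (cf Y τ s x)) (τ j)) pm)
    (hc : Integrable (fun x => ‖x (τ j)‖⁻¹ * gof Y τ s ψ x ^ 2) pm) :
    ∫ x, FF (fun x => ψ (cf Y τ s x)) (τ j) x ∂pm =
      Dj (τ j) (gof Y τ s ψ) (gof Y τ s ψ) + (∫ x, ‖x (τ j)‖⁻¹ * gof Y τ s ψ x ^ 2 ∂pm)
      - 1 / 4 * ip (gof Y τ s ψ) (gof Y τ s ψ) := by
  have hg : BL (gof Y τ s ψ) := gof_BL hbl hψ hb
  obtain ⟨hgi, hgd⟩ := hform.2.2.2.1 (τ j) _ _ hg hg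
  have hg2 : Integrable (fun x => gof Y τ s ψ x ^ 2) pm := (hbl.2.2.1 _ hg).2.2.1
  have h1 := hprod.2.2.1 (τ j) _ hF
  have h2 := hprod.2.2.1 (τ j) _ hc
  have h3 := hprod.2.2.1 (τ j) _ hg2
  rw [← h1.2.2, hgd]
  unfold ip
  have e : (∫ x, gof Y τ s ψ x * gof Y τ s ψ x ∂pm) = ∫ x, gof Y τ s ψ x ^ 2 ∂pm := by
    simp only [sq]
  have hadd : Integrable (fun x => D1 (sl (τ j) x (gof Y τ s ψ)) (sl (τ j) x (gof Y τ s ψ))
      + Pj (τ j) (fun x => ‖x (τ j)‖⁻¹ * gof Y τ s ψ x ^ 2) x) pm := hgi.add h2.2.1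
  rw [e, ← h2.2.2, ← h3.2.2, ← integral_const_mul, ← integral_add hgi h2.2.1,
    ← integral_sub hadd (h3.2.1.const_mul _)]
  refine integral_congr_ae (ae_of_all _ fun x => ?_)
  exact slice_id hhm hconv hψ hb x (τ j)

end fun_

/-! ### the potential -/

lemma vec0 (a l : ℝ) : yv a l 0 = (-(a / 2)) • ec 0 := rfl
lemma vec1 (a l : ℝ) : yv a l 1 = (a / 2) • ec 0 := rfl
lemma vec2 (a l : ℝ) : yv a l 2 = l • ec 0 := rfl

lemma cou_rev (x y : E3) : cou x y = cou y x := by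
  unfold cou; rw [norm_sub_rev]

lemma pot_eq {r a l : ℝ} (τ : Equiv.Perm (Fin 3)) (s : Fin 3 → Bool) (x : X3)
    (hx : ∀ j, ‖x j‖ ≤ r) :
    pot (yv a l) (cf (yv a l) τ s x) + (∑ j, ‖x (τ j)‖⁻¹) = U3 r a l x := by
  have h1 : attr (yv a l) (cf (yv a l) τ s x) = ∑ i, ∑ m, cou (yv a l i + x i) (yv a l m) := by
    unfold attr
    exact Equiv.sum_comp τ (fun i => ∑ m, cou (yv a l i + x i) (yv a l m))
  have h2 : repEE (cf (yv a l) τ s x) =
      1 / 2 * ∑ i, ∑ k, cou (yv a l i + x i) (yv a l k + x k) := by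
    unfold repEE
    congr 1
    rw [← Equiv.sum_comp τ (fun i => ∑ k, cou (yv a l i + x i) (yv a l k + x k))]
    refine Finset.sum_congr rfl fun i _ => ?_
    exact Equiv.sum_comp τ (fun k => cou (yv a l (τ i) + x (τ i)) (yv a l k + x k))
  have h3 : (∑ j, ‖x (τ j)‖⁻¹) = ∑ i, ‖x i‖⁻¹ := Equiv.sum_comp τ (fun i => ‖x i‖⁻¹)
  have d : ∀ i, cou (yv a l i + x i) (yv a l i) = ‖x i‖⁻¹ := fun i => by
    unfold cou; rw [add_sub_cancel_left]
  have d2 : ∀ z : E3, cou z z = 0 := fun z => by simp [cou]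
  have p01 : cou (yv a l 0 + x 0) (yv a l 1 + x 1) = ‖a • ec 0 + x 1 - x 0‖⁻¹ := by
    unfold cou; rw [vec0, vec1, norm_sub_rev]; congr 2; module
  have p02 : cou (yv a l 0 + x 0) (yv a l 2 + x 2) = ‖(l + a / 2) • ec 0 + x 2 - x 0‖⁻¹ := by
    unfold cou; rw [vec0, vec2, norm_sub_rev]; congr 2; module
  have p12 : cou (yv a l 1 + x 1) (yv a l 2 + x 2) = ‖(l - a / 2) • ec 0 + x 2 - x 1‖⁻¹ := by
    unfold cou; rw [vec1, vec2, norm_sub_rev]; congr 2; module
  have q01 : cou (yv a l 0 + x 0) (yv a l 1) = ‖a • ec 0 - x 0‖⁻¹ := by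
    unfold cou; rw [vec0, vec1, norm_sub_rev]; congr 2; module
  have q02 : cou (yv a l 0 + x 0) (yv a l 2) = ‖(l + a / 2) • ec 0 - x 0‖⁻¹ := by
    unfold cou; rw [vec0, vec2, norm_sub_rev]; congr 2; module
  have q12 : cou (yv a l 1 + x 1) (yv a l 2) = ‖(l - a / 2) • ec 0 - x 1‖⁻¹ := by
    unfold cou; rw [vec1, vec2, norm_sub_rev]; congr 2; module
  have q10 : cou (yv a l 1 + x 1) (yv a l 0) = ‖a • ec 0 + x 1‖⁻¹ := by
    unfold cou; rw [vec0, vec1]; congr 2; module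
  have q20 : cou (yv a l 2 + x 2) (yv a l 0) = ‖(l + a / 2) • ec 0 + x 2‖⁻¹ := by
    unfold cou; rw [vec0, vec2]; congr 2; module
  have q21 : cou (yv a l 2 + x 2) (yv a l 1) = ‖(l - a / 2) • ec 0 + x 2‖⁻¹ := by
    unfold cou; rw [vec1, vec2]; congr 2; module
  have n01 : cou (yv a l 0) (yv a l 1) = ‖a • ec 0‖⁻¹ := by
    unfold cou; rw [vec0, vec1, norm_sub_rev]; congr 2; module
  have n02 : cou (yv a l 0) (yv a l 2) = ‖(l + a / 2) • ec 0‖⁻¹ := by
    unfold cou; rw [vec0, vec2, norm_sub_rev]; congr 2; module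
  have n12 : cou (yv a l 1) (yv a l 2) = ‖(l - a / 2) • ec 0‖⁻¹ := by
    unfold cou; rw [vec1, vec2, norm_sub_rev]; congr 2; module
  have eV : V12 r a x = pv (a • ec 0) (x 0) (x 1) := if_pos ⟨hx 0, hx 1⟩
  have eW : W3 r a l x = pv ((l + a / 2) • ec 0) (x 0) (x 2)
      + pv ((l - a / 2) • ec 0) (x 1) (x 2) := if_pos hx
  unfold pot U3
  rw [h1, h2, h3, eV, eW]
  unfold repNN pv
  simp only [Fin.sum_univ_three, d, d2]
  rw [cou_rev (yv a l 1 + x 1) (yv a l 0 + x 0), cou_rev (yv a l 2 + x 2) (yv a l 0 + x 0),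
    cou_rev (yv a l 2 + x 2) (yv a l 1 + x 1), cou_rev (yv a l 1) (yv a l 0),
    cou_rev (yv a l 2) (yv a l 0), cou_rev (yv a l 2) (yv a l 1), p01, p02, p12, q01, q02, q12,
    q10, q20, q21, n01, n02, n12]
  ring

lemma vdip_eq (Y : Fin 3 → E3) (τ : Equiv.Perm (Fin 3)) (s : Fin 3 → Bool) (x : X3) (c : Fin 3) :
    (vdip Y (cf Y τ s x)) c = - (x 0 c + x 1 c + x 2 c) := by
  have h1 : (∑ j, ((cf Y τ s x) j).1) = ∑ i, (Y i + x i) :=
    Equiv.sum_comp τ (fun i => Y i + x i)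
  unfold vdip
  rw [h1]
  simp only [Fin.sum_univ_three, PiLp.sub_apply, PiLp.add_apply]
  ring

end MolDis.H.Link

namespace MolDis.H

open Link

theorem p_link (hhm : S_hm) (hprod : S_prod) (hbl : S_bl) (hform : S_form) (hconv : S_conv)
    (hlc : S_lc) : S_link := by
  intro r a l τ ψ hr ha hl hψ hb
  obtain ⟨hmeas, -, -, -, hgI, hWI, hsqI⟩ := hlc (Fin 3) ψ hψ
  have hadm := p_adm (Fin 3)
  -- second moments
  have hn : nsq ψ = ∑ s, ip (gof (yv a l) τ s ψ) (gof (yv a l) τ s ψ) := by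
    unfold nsq
    rw [(mu_pm hhm (yv a l) τ hsqI).2]
    refine Finset.sum_congr rfl fun s _ => ?_
    unfold ip
    refine integral_congr_ae (ae_of_all _ fun x => ?_)
    simp only [gof_eq]
    ring
  -- potentials
  have hV : ∀ W : (Fin 3 → Om) → ℝ, AdmW W →
      (∀ s, Integrable (fun x => W (cf (yv a l) τ s x) * gof (yv a l) τ s ψ x ^ 2) pm) ∧
      expv W ψ = ∑ s, ∫ x, W (cf (yv a l) τ s x) * gof (yv a l) τ s ψ x ^ 2 ∂pm := by
    intro W hW
    obtain ⟨h1, h2⟩ := mu_pm hhm (yv a l) τ (hWI W hW)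
    have e : ∀ s x, W (cf (yv a l) τ s x) * ψ (cf (yv a l) τ s x) ^ 2 * wt x ^ 2 =
        W (cf (yv a l) τ s x) * gof (yv a l) τ s ψ x ^ 2 := by
      intro s x
      rw [gof_eq]; ring
    simp only [e] at h1 h2
    exact ⟨h1, h2⟩
  refine ⟨fun s => gof_box hbl hψ hb, hn, ?_, fun c => ?_⟩
  · -- kinetic energy
    have hcou : ∀ j s, Integrable (fun x : X3 => ‖x (τ j)‖⁻¹ * gof (yv a l) τ s ψ x ^ 2) pm := by
      intro j s
      have h1 := (hV (fun X => cou (X j).1 (yv a l (τ j))) (hadm.2.2.2.2.1 j (yv a l (τ j)))).1 s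
      have e : ∀ x : X3, cou (cf (yv a l) τ s x j).1 (yv a l (τ j)) = ‖x (τ j)‖⁻¹ := by
        intro x
        rw [cf_fst]
        unfold cou; rw [add_sub_cancel_left]
      simpa only [e] using h1
    have hk : ∀ j, kin1 j ψ = ∑ s, (Dj (τ j) (gof (yv a l) τ s ψ) (gof (yv a l) τ s ψ)
        + (∫ x, ‖x (τ j)‖⁻¹ * gof (yv a l) τ s ψ x ^ 2 ∂pm)
        - 1 / 4 * ip (gof (yv a l) τ s ψ) (gof (yv a l) τ s ψ)) := by
      intro j
      unfold kin1
      obtain ⟨h1, h2⟩ := mu_pm hhm (yv a l) τ (hgI j)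
      rw [h2]
      refine Finset.sum_congr rfl fun s _ => ?_
      have h3 := h1 s
      simp only [gradSq_cf] at h3 ⊢
      exact kin_part hhm hprod hbl hform hconv hψ hb j h3 (hcou j s)
    have hP := hV (pot (yv a l)) (hadm.2.2.2.2.2.2.1 (Fin 3) (yv a l)).2.2
    have hU : ∀ s, (∫ x, U3 r a l x * gof (yv a l) τ s ψ x * gof (yv a l) τ s ψ x ∂pm) =
        (∫ x, pot (yv a l) (cf (yv a l) τ s x) * gof (yv a l) τ s ψ x ^ 2 ∂pm)
        + ∑ j, ∫ x, ‖x (τ j)‖⁻¹ * gof (yv a l) τ s ψ x ^ 2 ∂pm := by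
      intro s
      rw [← integral_finsetSum _ fun j _ => hcou j s,
        ← integral_add (hP.1 s) (integrable_finsetSum _ fun j _ => hcou j s)]
      refine integral_congr_ae (ae_of_all _ fun x => ?_)
      simp only
      by_cases hx : gof (yv a l) τ s ψ x = 0
      · simp [hx]
      · have hxs : ∀ i, ‖x i‖ ≤ r := by
          rw [gof_eq] at hx
          exact u_supp hb (left_ne_zero_of_mul hx)
        rw [← pot_eq τ s x hxs, ← Finset.sum_mul]
        ring
    have hsum : ∀ s, ∑ j, Dj (τ j) (gof (yv a l) τ s ψ) (gof (yv a l) τ s ψ) =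
        DD (gof (yv a l) τ s ψ) (gof (yv a l) τ s ψ) := by
      intro s
      unfold DD
      exact Equiv.sum_comp τ (fun i => Dj i (gof (yv a l) τ s ψ) (gof (yv a l) τ s ψ))
    unfold Qf kin BB
    rw [hP.2, hn, Finset.sum_congr rfl fun j _ => hk j, Finset.sum_comm, Finset.mul_sum,
      ← Finset.sum_add_distrib, ← Finset.sum_add_distrib]
    refine Finset.sum_congr rfl fun s _ => ?_
    rw [hU s, ← hsum s, Finset.sum_sub_distrib, Finset.sum_add_distrib]
    simp only [Finset.sum_const, Finset.card_univ, Fintype.card_fin]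
    ring
  · -- the dipole moment
    have hB : BddW (fun X : Fin 3 → Om => (vdip (yv a l) X) c) := by
      constructor
      · unfold vdip
        have : ∀ X : Fin 3 → Om, (∑ m, yv a l m - ∑ j, (X j).1) c =
            (∑ m, yv a l m) c - ∑ j, (X j).1 c := by
          intro X
          simp [PiLp.sub_apply]
        simp only [this]
        refine measurable_const.sub (Finset.measurable_sum _ fun j _ => ?_)
        have h1 : Measurable fun X : Fin 3 → Om => (X j).1 := (measurable_pi_apply j).fst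
        have h2 : Continuous fun z : E3 => z c := by fun_prop
        exact h2.measurable.comp h1
      · intro R
        refine ⟨‖∑ m, yv a l m‖ + ∑ _j : Fin 3, R, fun X hX => ?_⟩
        have h1 : |(vdip (yv a l) X) c| ≤ ‖vdip (yv a l) X‖ := by
          have := PiLp.norm_apply_le (vdip (yv a l) X) c
          rwa [Real.norm_eq_abs] at this
        refine h1.trans ?_
        unfold vdip
        refine (norm_sub_le _ _).trans ?_
        gcongr
        exact (norm_sum_le _ _).trans (Finset.sum_le_sum fun j _ => hX j)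
    rw [(hV _ (hadm.1 _ hB)).2, ← Finset.sum_neg_distrib]
    refine Finset.sum_congr rfl fun s _ => ?_
    rw [← integral_neg]
    refine integral_congr_ae (ae_of_all _ fun x => ?_)
    simp only [vdip_eq]
    ring

end MolDis.H
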