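import Pool.Agent.Lib.MP_59f35a_mp.HStmts
import Pool.Agent.Lib.MP_59f35a_mp.EnBasic
import Pool.Agent.Lib.MP_59f35a_mp.Ims

/-!
# MP_59f35a_mp, Theorem D, piece F4 : localisation of three electrons
-/

set_option autoImplicit false
set_option linter.unusedSectionVars false

noncomputable section

open MeasureTheory

namespace MolDis.H

namespace Loc

open MolDis.EnBasic

/-! ### generalities on `expv` -/

section gen
variable {ι : Type} [Fintype ι] [DecidableEq ι] {φ : (ι → Om) → ℝ}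

/-- functions of one position, bounded on balls -/
theorem adm_one (h3 : S_adm) (j : ι) (f : E3 → ℝ) (hf : Measurable f)
    (hb : ∃ C : ℝ, ∀ x, |f x| ≤ C) :
    AdmW (fun X : ι → Om => f (X j).1) := by
  obtain ⟨C, hC⟩ := hb
  exact (h3 ι).1 _ ⟨hf.comp (measurable_pi_apply j).fst, fun R => ⟨C, fun X _ => hC _⟩⟩

end gen

/-! ### the nuclei -/

theorem norm_ec0 : ‖ec 0‖ = 1 := by simp [ec]

theorem yv_eq (a l : ℝ) (k : Fin 3) : yv a l k = ((![-(a / 2), a / 2, l] : Fin 3 → ℝ) k) • ec 0 := by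
  fin_cases k <;> rfl

theorem yv_dist (a l : ℝ) (k k' : Fin 3) : ‖yv a l k - yv a l k'‖ =
    |(![-(a / 2), a / 2, l] : Fin 3 → ℝ) k - (![-(a / 2), a / 2, l] : Fin 3 → ℝ) k'| := by
  rw [yv_eq, yv_eq, ← sub_smul, norm_smul, norm_ec0, mul_one, Real.norm_eq_abs]

theorem yv_sep {a l : ℝ} (ha : 0 < a) (hl : 2 * a ≤ l) (k k' : Fin 3) (h : k ≠ k') :
    a ≤ ‖yv a l k - yv a l k'‖ := by
  rw [yv_dist]
  have e0 : (![-(a / 2), a / 2, l] : Fin 3 → ℝ) 0 = -(a / 2) := rfl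
  have e1 : (![-(a / 2), a / 2, l] : Fin 3 → ℝ) 1 = a / 2 := rfl
  have e2 : (![-(a / 2), a / 2, l] : Fin 3 → ℝ) 2 = l := rfl
  have key : ∀ x y : ℝ, (a ≤ x - y ∨ a ≤ y - x) → a ≤ |x - y| := by
    rintro x y (h | h)
    · exact h.trans (le_abs_self _)
    · rw [abs_sub_comm]; exact h.trans (le_abs_self _)
  apply key
  fin_cases k <;> fin_cases k' <;> first
    | exact absurd rfl h
    | (left; simp only [Fin.zero_eta, Fin.mk_one, Fin.reduceFinMk, e0, e1, e2]; linarith)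
    | (right; simp only [Fin.zero_eta, Fin.mk_one, Fin.reduceFinMk, e0, e1, e2]; linarith)

/-! ### splitting the sum over the sectors -/

/-- the good sector of a permutation -/
def gs (τ : Equiv.Perm (Fin 3)) : Fin 3 → Option (Fin 3) := fun j => some (τ j)

theorem gs_inj : Function.Injective gs := by
  intro τ τ' h
  ext j
  have := congrFun h j
  simp only [gs, Option.some.injEq] at this
  rw [this]

theorem sum_split (f : (Fin 3 → Option (Fin 3)) → ℝ) :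
    ∑ α, f α = (∑ τ : Equiv.Perm (Fin 3), f (fun j => some (τ j))) +
      ∑ α : Fin 3 → Option (Fin 3), if (∃ τ : Equiv.Perm (Fin 3), α = fun j => some (τ j)) then 0
        else f α := by
  classical
  have h1 : ∀ α, f α = (if (∃ τ : Equiv.Perm (Fin 3), α = fun j => some (τ j)) then f α else 0) +
      (if (∃ τ : Equiv.Perm (Fin 3), α = fun j => some (τ j)) then 0 else f α) := by
    intro α
    split_ifs <;> simp
  rw [Finset.sum_congr rfl fun α _ => h1 α, Finset.sum_add_distrib]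
  congr 1
  rw [← Finset.sum_filter]
  have h2 : (Finset.univ.filter fun α : Fin 3 → Option (Fin 3) =>
      ∃ τ : Equiv.Perm (Fin 3), α = fun j => some (τ j)) = Finset.univ.image gs := by
    ext α
    simp only [Finset.mem_filter, Finset.mem_univ, true_and, Finset.mem_image]
    constructor
    · rintro ⟨τ, h⟩; exact ⟨τ, h.symm⟩
    · rintro ⟨τ, h⟩; exact ⟨τ, h.symm⟩
  rw [h2, Finset.sum_image fun _ _ _ _ h => gs_inj h]
  rfl

/-! ### one step -/

section step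
variable {a l s : ℝ}

theorem cut (h8 : S_cut) (ha : 0 < a) (hl : 2 * a ≤ l) (hs : 0 < s) (hsa : 2 * s ≤ a) :
    PU (cellPU s (yv a l)) ∧
    (∀ k x, cellPU s (yv a l) (some k) x ≠ 0 → ‖x - yv a l k‖ < s) ∧
    (∀ x, puG (cellPU s (yv a l)) x ≤ 10 / s ^ 2) ∧
    (∀ x, 0 ≤ puG (cellPU s (yv a l)) x) ∧
    (∀ x, (∀ k, ‖x - yv a l k‖ < s / 2 ∨ s < ‖x - yv a l k‖) → puG (cellPU s (yv a l)) x = 0) := by
  obtain ⟨c1, c2, c3, c4, c5, c6, c7⟩ := h8 (Fin 3) s (yv a l) hs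
    (fun k k' h => hsa.trans (yv_sep ha hl k k' h))
  exact ⟨c1, c2, c5, c6, c7⟩

/-- the mass of the bad sectors as an integral -/
def badf (s a l : ℝ) (ψ : (Fin 3 → Om) → ℝ) (X : Fin 3 → Om) : ℝ :=
  ∑ α : Fin 3 → Option (Fin 3), if (∃ τ : Equiv.Perm (Fin 3), α = fun j => some (τ j)) then 0
    else sector (cellPU s (yv a l)) α ψ X ^ 2

theorem badf_nonneg (s a l : ℝ) (ψ : (Fin 3 → Om) → ℝ) (X : Fin 3 → Om) : 0 ≤ badf s a l ψ X :=
  Finset.sum_nonneg fun α _ => by split_ifs; exacts [le_rfl, sq_nonneg _]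

theorem badf_int (h8 : S_cut) (hims : S_ims) (h1 : S_lc) (ha : 0 < a) (hl : 2 * a ≤ l)
    (hs : 0 < s) (hsa : 2 * s ≤ a) {ψ : (Fin 3 → Om) → ℝ} (hψ : LC ψ) :
    Integrable (badf s a l ψ) (mu (Fin 3)) ∧ ∫ X, badf s a l ψ X ∂(mu (Fin 3)) = badm s a l ψ := by
  obtain ⟨c1, -⟩ := cut h8 ha hl hs hsa
  have i1 := (hims (Fin 3) (Option (Fin 3)) (cellPU s (yv a l)) ψ c1 hψ).1
  have hi : ∀ α : Fin 3 → Option (Fin 3), Integrable (fun X =>
      if (∃ τ : Equiv.Perm (Fin 3), α = fun j => some (τ j)) then (0 : ℝ)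
      else sector (cellPU s (yv a l)) α ψ X ^ 2) (mu (Fin 3)) := by
    intro α
    split_ifs
    · exact integrable_zero _ _ _
    · exact integrable_sq h1 (i1 α)
  refine ⟨integrable_finsetSum _ fun α _ => hi α, ?_⟩
  unfold badf badm
  rw [integral_finsetSum _ fun α _ => hi α]
  refine Finset.sum_congr rfl fun α _ => ?_
  split_ifs
  · exact integral_zero _ _
  · rfl

/-- an electron in the transition region at scale `s` is in no cell at scale `s/2` -/
theorem trans_bad (h8 : S_cut) (ha : 0 < a) (hl : 2 * a ≤ l)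
    (hs : 0 < s) (hsa : 2 * s ≤ a) (ψ : (Fin 3 → Om) → ℝ) (X : Fin 3 → Om) (j k : Fin 3)
    (h1 : s / 2 ≤ ‖(X j).1 - yv a l k‖) (h2 : ‖(X j).1 - yv a l k‖ ≤ s) :
    badf (s / 2) a l ψ X = ψ X ^ 2 := by
  obtain ⟨c1, c2, -⟩ := cut h8 ha hl (half_pos hs) (by linarith : 2 * (s / 2) ≤ a)
  have h3 := Ims.sum_sector_sq c1 ψ X
  rw [sum_split (fun α => sector (cellPU (s / 2) (yv a l)) α ψ X ^ 2)] at h3
  have h4 : ∑ τ : Equiv.Perm (Fin 3),
      sector (cellPU (s / 2) (yv a l)) (fun j => some (τ j)) ψ X ^ 2 = 0 := by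
    refine Finset.sum_eq_zero fun τ _ => ?_
    have h5 : cellPU (s / 2) (yv a l) (some (τ j)) (X j).1 = 0 := by
      by_contra hne
      have h6 := c2 _ _ hne
      by_cases hk : τ j = k
      · rw [hk] at h6; linarith
      · have h7 := yv_sep ha hl (τ j) k hk
        have h8 : ‖yv a l (τ j) - yv a l k‖ ≤ ‖(X j).1 - yv a l (τ j)‖ + ‖(X j).1 - yv a l k‖ := by
          rw [← norm_neg ((X j).1 - yv a l (τ j))]
          refine le_trans (le_of_eq ?_) (norm_add_le _ _)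
          congr 1
          abel
        linarith
    unfold sector
    rw [Finset.prod_eq_zero (Finset.mem_univ j) h5]
    ring
  rw [h4, zero_add] at h3
  exact h3

/-- the localisation error -/
theorem loc_err (h8 : S_cut) (hims : S_ims) (h1 : S_lc) (h3 : S_adm) (ha : 0 < a)
    (hl : 2 * a ≤ l) (hs : 0 < s) (hsa : 2 * s ≤ a) {ψ : (Fin 3 → Om) → ℝ} (hψ : LC ψ) :
    ∑ j, expv (fun X => puG (cellPU s (yv a l)) (X j).1) ψ ≤ 30 / s ^ 2 * badm (s / 2) a l ψ := by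
  obtain ⟨c1, c2, c3, c4, c5⟩ := cut h8 ha hl hs hsa
  obtain ⟨-, -, -, -, ⟨Cg, hCg⟩, i6⟩ := hims (Fin 3) (Option (Fin 3)) (cellPU s (yv a l)) ψ c1 hψ
  obtain ⟨hi, he⟩ := badf_int h8 hims h1 ha hl (half_pos hs) (by linarith : 2 * (s / 2) ≤ a) hψ
  have hj : ∀ j ∈ (Finset.univ : Finset (Fin 3)),
      expv (fun X => puG (cellPU s (yv a l)) (X j).1) ψ ≤ 10 / s ^ 2 * badm (s / 2) a l ψ := by
    intro j _
    rw [← he, ← integral_const_mul]
    refine integral_mono (integrable_W h1 hψ (adm_one h3 j _ i6 ⟨Cg, hCg⟩)) (hi.const_mul _)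
      fun X => ?_
    show puG (cellPU s (yv a l)) (X j).1 * ψ X ^ 2 ≤ 10 / s ^ 2 * badf (s / 2) a l ψ X
    by_cases hx : ∀ k, ‖(X j).1 - yv a l k‖ < s / 2 ∨ s < ‖(X j).1 - yv a l k‖
    · rw [c5 _ hx, zero_mul]
      exact mul_nonneg (by positivity) (badf_nonneg _ _ _ _ _)
    · push Not at hx
      obtain ⟨k, hk1, hk2⟩ := hx
      rw [trans_bad h8 ha hl hs hsa ψ X j k hk1 hk2]
      exact mul_le_mul_of_nonneg_right (c3 _) (sq_nonneg _)
  refine (Finset.sum_le_sum hj).trans ?_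
  rw [Finset.sum_const, Finset.card_univ, Fintype.card_fin, nsmul_eq_mul]
  refine le_of_eq ?_
  push_cast
  ring

/-- good sectors -/
theorem good_sector (h8 : S_cut) (hims : S_ims) (hpas : S_pas) (ha : 0 < a) (hl : 2 * a ≤ l)
    (hs : 0 < s) (hsa : 2 * s ≤ a) {ψ : (Fin 3 → Om) → ℝ} (hψ : LC ψ) (τ : Equiv.Perm (Fin 3)) :
    En 3 (yv a l) * nsq (sector (cellPU s (yv a l)) (fun j => some (τ j)) ψ) ≤
      Qf (yv a l) (sector (cellPU s (yv a l)) (fun j => some (τ j)) ψ) := by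
  obtain ⟨c1, c2, -⟩ := cut h8 ha hl hs hsa
  have hLC := (hims (Fin 3) (Option (Fin 3)) (cellPU s (yv a l)) ψ c1 hψ).1 (fun j => some (τ j))
  have h := hpas (Fin 3) (Fin 3) (Fin 3) (yv a l) τ (fun k => Metric.ball (yv a l k) s)
    (sector (cellPU s (yv a l)) (fun j => some (τ j)) ψ) ?_ hLC ?_ ?_
  · rwa [Fintype.card_fin] at h
  · intro k k' hk
    refine Metric.ball_disjoint_ball ?_
    rw [dist_eq_norm]
    have := yv_sep ha hl k k' hk
    linarith
  · intro X hX j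
    have h1 : (∏ j, cellPU s (yv a l) (some (τ j)) (X j).1) ≠ 0 := left_ne_zero_of_mul hX
    have h2 := c2 _ _ ((Finset.prod_ne_zero_iff.mp h1) j (Finset.mem_univ j))
    rw [Metric.mem_ball, dist_eq_norm]
    exact h2
  · intro σ hσ X
    have h1 : σ = 1 := by
      ext j
      have := τ.injective (hσ j)
      rw [this]
      rfl
    rw [h1]
    simp

/-- nonnegativity of the mass -/
theorem badm_nonneg (s a l : ℝ) (ψ : (Fin 3 → Om) → ℝ) : 0 ≤ badm s a l ψ := by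
  unfold badm
  refine Finset.sum_nonneg fun α _ => ?_
  split_ifs
  exacts [le_rfl, nsq_nonneg _]

theorem badm_le_one (h8 : S_cut) (hims : S_ims) (ha : 0 < a) (hl : 2 * a ≤ l)
    (hs : 0 < s) (hsa : 2 * s ≤ a) {ψ : (Fin 3 → Om) → ℝ} (hψ : LC ψ) (hn : nsq ψ = 1) :
    badm s a l ψ ≤ 1 := by
  obtain ⟨c1, -⟩ := cut h8 ha hl hs hsa
  have i2 := (hims (Fin 3) (Option (Fin 3)) (cellPU s (yv a l)) ψ c1 hψ).2.1
  rw [sum_split (fun α => nsq (sector (cellPU s (yv a l)) α ψ)), hn] at i2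
  have h0 : 0 ≤ ∑ τ : Equiv.Perm (Fin 3), nsq (sector (cellPU s (yv a l)) (fun j => some (τ j)) ψ) :=
    Finset.sum_nonneg fun τ _ => nsq_nonneg _
  unfold badm
  linarith

/-- the excess energy in the good sectors -/
def goodE (s a l : ℝ) (ψ : (Fin 3 → Om) → ℝ) : ℝ :=
  ∑ τ : Equiv.Perm (Fin 3),
      (Qf (yv a l) (sector (cellPU s (yv a l)) (fun j => some (τ j)) ψ)
        - En 3 (yv a l) * nsq (sector (cellPU s (yv a l)) (fun j => some (τ j)) ψ))

theorem goodE_nonneg (h8 : S_cut) (hims : S_ims) (hpas : S_pas) (ha : 0 < a) (hl : 2 * a ≤ l)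
    (hs : 0 < s) (hsa : 2 * s ≤ a) {ψ : (Fin 3 → Om) → ℝ} (hψ : LC ψ) : 0 ≤ goodE s a l ψ :=
  Finset.sum_nonneg fun τ _ => sub_nonneg.mpr (good_sector h8 hims hpas ha hl hs hsa hψ τ)

/-- the basic inequality -/
theorem basic (h8 : S_cut) (hims : S_ims) (h1 : S_lc) (h3 : S_adm)
    (ha : 0 < a) (hl : 2 * a ≤ l) (hs : 0 < s) (hsa : 2 * s ≤ a) {g3 : ℝ}
    (hE : En 3 (yv a l) ≤ -3 / 4 + g3 / 2)
    (hbad : ∀ (α : Fin 3 → Option (Fin 3)) (ψ : (Fin 3 → Om) → ℝ), WF ψ → ¬ goodS α →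
      (-3 / 4 + g3) * nsq (sector (cellPU s (yv a l)) α ψ) ≤
        Qf (yv a l) (sector (cellPU s (yv a l)) α ψ))
    {ψ : (Fin 3 → Om) → ℝ} (hψ : WF ψ) (hn : nsq ψ = 1) :
    goodE s a l ψ + g3 / 2 * badm s a l ψ ≤
      (Qf (yv a l) ψ - En 3 (yv a l)) + 30 / s ^ 2 * badm (s / 2) a l ψ := by
  obtain ⟨c1, c2, c3, c4, c5⟩ := cut h8 ha hl hs hsa
  obtain ⟨i1, i2, i3, i4, ⟨Cg, hCg⟩, i6⟩ :=
    hims (Fin 3) (Option (Fin 3)) (cellPU s (yv a l)) ψ c1 hψ.toLC
  have hpot : AdmW (pot (ι := Fin 3) (yv a l)) := ((h3 (Fin 3)).2.2.2.2.2.2.1 (Fin 3) _).2.2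
  have hL := loc_err h8 hims h1 h3 ha hl hs hsa hψ.toLC
  -- the energy as a sum over the sectors
  have hQ : Qf (yv a l) ψ - En 3 (yv a l) = (∑ α : Fin 3 → Option (Fin 3),
      (Qf (yv a l) (sector (cellPU s (yv a l)) α ψ) -
        En 3 (yv a l) * nsq (sector (cellPU s (yv a l)) α ψ))) -
      ∑ j, expv (fun X => puG (cellPU s (yv a l)) (X j).1) ψ := by
    have e1 : Qf (yv a l) ψ = (∑ α : Fin 3 → Option (Fin 3),
        Qf (yv a l) (sector (cellPU s (yv a l)) α ψ)) -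
        ∑ j, expv (fun X => puG (cellPU s (yv a l)) (X j).1) ψ := by
      unfold Qf
      rw [i4, i3 _ hpot, Finset.sum_add_distrib]
      ring
    rw [Finset.sum_sub_distrib, ← Finset.mul_sum, ← i2, hn, e1]
    ring
  rw [sum_split (fun α => Qf (yv a l) (sector (cellPU s (yv a l)) α ψ) -
        En 3 (yv a l) * nsq (sector (cellPU s (yv a l)) α ψ))] at hQ
  have hB : g3 / 2 * badm s a l ψ ≤ ∑ α : Fin 3 → Option (Fin 3),
      if (∃ τ : Equiv.Perm (Fin 3), α = fun j => some (τ j)) then 0 else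
      (Qf (yv a l) (sector (cellPU s (yv a l)) α ψ) -
        En 3 (yv a l) * nsq (sector (cellPU s (yv a l)) α ψ)) := by
    unfold badm
    rw [Finset.mul_sum]
    refine Finset.sum_le_sum fun α _ => ?_
    split_ifs with h
    · rw [mul_zero]
    · have hα : ¬ goodS α := by
        rintro ⟨τ, hτ⟩
        exact h ⟨τ, funext hτ⟩
      have h5 := hbad α ψ hψ hα
      have h6 := nsq_nonneg (sector (cellPU s (yv a l)) α ψ)
      nlinarith
  have hG : goodE s a l ψ = ∑ τ : Equiv.Perm (Fin 3),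
      (Qf (yv a l) (sector (cellPU s (yv a l)) (fun j => some (τ j)) ψ)
        - En 3 (yv a l) * nsq (sector (cellPU s (yv a l)) (fun j => some (τ j)) ψ)) := rfl
  rw [hG]
  linarith

end step

/-! ### the upper bound for the energy -/

theorem upper (hup : S_up) (hap : S_apri) (hgap : S_gap) (havg : S_avg) (hbd : S_bounds) (δ : ℝ)
    (hδ : 0 < δ) : ∃ r1 : ℝ, 2 ≤ r1 ∧ ∀ r a l : ℝ, r1 ≤ r → r ^ 4 ≤ a → 2 * a ≤ l →
      En 3 (yv a l) ≤ -3 / 4 + δ := by
  obtain ⟨g0, hg0⟩ := hgap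
  obtain ⟨C, M0, r0, hC, hM0, hr0, hA⟩ := hap g0 hg0
  obtain ⟨Cb, hCb, hB⟩ := hbd
  refine ⟨2 + r0 + 2 * Cb / M0 + C * (4 * Cb ^ 2 + 4) / δ, ?_, fun r a l hr hra hl => ?_⟩
  · have h1 : 0 ≤ 2 * Cb / M0 := by positivity
    have h2 : 0 ≤ C * (4 * Cb ^ 2 + 4) / δ := by positivity
    linarith
  have h1 : 0 ≤ 2 * Cb / M0 := by positivity
  have h2 : 0 ≤ C * (4 * Cb ^ 2 + 4) / δ := by positivity
  have hr2 : 2 ≤ r := by linarith
  have hrpos : 0 < r := by linarith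
  have h8 : 8 * r ≤ r ^ 4 := by
    have : (8 : ℝ) ≤ r ^ 3 := by
      have := pow_le_pow_left₀ (by norm_num : (0:ℝ) ≤ 2) hr2 3
      linarith
    nlinarith
  have h8a : 8 * r ≤ a := h8.trans hra
  have hapos : 0 < a := by linarith
  have ha1 : 1 ≤ a := by linarith
  obtain ⟨b1, b2, b3, b4, b5, b6⟩ := hB r a l (by linarith) h8a hl
  have hM : ∀ x, |U3 r a l x| ≤ 2 * Cb / r := by
    intro x
    have e1 : r ^ 2 / a ^ 3 ≤ 1 / r := by
      rw [div_le_div_iff₀ (by positivity) hrpos]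
      have : a ≤ a ^ 3 := le_self_pow₀ ha1 (by norm_num)
      have : r ^ 3 ≤ r ^ 4 := pow_le_pow_right₀ (by linarith) (by norm_num)
      nlinarith
    have e2 : r ^ 2 / l ^ 3 ≤ r ^ 2 / a ^ 3 := by
      gcongr
      linarith
    have h3 := b3 x
    have h5 := b5 x
    unfold U3
    refine (abs_add_le _ _).trans ?_
    have f1 : Cb * r ^ 2 / a ^ 3 = Cb * (r ^ 2 / a ^ 3) := by ring
    have f2 : Cb * r ^ 2 / l ^ 3 = Cb * (r ^ 2 / l ^ 3) := by ring
    rw [f1] at h3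
    rw [f2] at h5
    have f3 : 2 * Cb / r = Cb * (1 / r) + Cb * (1 / r) := by ring
    rw [f3]
    have g1 : Cb * (r ^ 2 / a ^ 3) ≤ Cb * (1 / r) := by gcongr
    have g2 : Cb * (r ^ 2 / l ^ 3) ≤ Cb * (1 / r) := by
      have := e2.trans e1
      gcongr
    linarith
  obtain ⟨v1, v2, v3, v4, v5, v6, v7⟩ := havg r a l (by linarith) h8a hl
  have hMM : 2 * Cb / r ≤ M0 := by
    rw [div_le_iff₀ hrpos]
    have : 2 * Cb / M0 ≤ r := by linarith
    rw [div_le_iff₀ hM0] at this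
    linarith
  have hres := (hA S3 r (2 * Cb / r) (U3 r a l) ⟨0, Finset.mem_univ _⟩ (by linarith) (by positivity)
    hMM (b1.add b2) hM v5 v7).1
  have hexp : Real.exp (-r / 4) ≤ 4 / r := by
    have h5 : r / 4 ≤ Real.exp (r / 4) := by linarith [Real.add_one_le_exp (r / 4)]
    rw [show -r / 4 = -(r / 4) by ring, Real.exp_neg, show 4 / r = (r / 4)⁻¹ by rw [inv_div]]
    exact inv_anti₀ (by positivity) h5
  have hfin : C * ((2 * Cb / r) ^ 2 + Real.exp (-r / 4)) ≤ δ := by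
    have e1 : (2 * Cb / r) ^ 2 ≤ 4 * Cb ^ 2 / r := by
      rw [div_pow, mul_pow, div_le_div_iff₀ (by positivity) hrpos]
      have : r ≤ r ^ 2 := le_self_pow₀ (by linarith) (by norm_num)
      have h0 : 0 ≤ Cb ^ 2 := sq_nonneg _
      nlinarith
    have e2 : C * ((2 * Cb / r) ^ 2 + Real.exp (-r / 4)) ≤ C * (4 * Cb ^ 2 / r + 4 / r) := by
      gcongr
    have e3 : C * (4 * Cb ^ 2 / r + 4 / r) = C * (4 * Cb ^ 2 + 4) / r := by ring
    rw [e3] at e2
    refine e2.trans ?_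
    rw [div_le_iff₀ hrpos]
    have : C * (4 * Cb ^ 2 + 4) / δ ≤ r := by linarith
    rw [div_le_iff₀ hδ] at this
    linarith
  have h9 := hup r a l (by linarith) h8a hl
  have h10 := (le_abs_self _).trans hres
  linarith

/-! ### the iteration -/

/-- the constants of the iteration -/
theorem iterate (A : ℝ) (hA : 1 ≤ A) (n : ℕ) : ∃ C : ℝ, 1 ≤ C ∧
    ∀ (b : ℝ → ℝ) (ε s0 r : ℝ), 0 ≤ ε → 1 ≤ s0 → (∀ s, s0 ≤ s → s ≤ r → b s ≤ 1) →
      (∀ s, 2 * s0 ≤ s → s ≤ r → b s ≤ A * (ε + 30 / s ^ 2 * b (s / 2))) →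
      ∀ s, 2 ^ n * s0 ≤ s → s ≤ r → b s ≤ C * (ε + 1 / s ^ (2 * n)) := by
  induction n with
  | zero =>
    refine ⟨1, le_rfl, fun b ε s0 r hε hs0 hb1 _ s hs hsr => ?_⟩
    rw [pow_zero, one_mul] at hs
    have := hb1 s hs hsr
    simp
    linarith
  | succ n ih =>
    obtain ⟨C, hC, hI⟩ := ih
    refine ⟨A * (1 + 30 * C) + 30 * A * C * 4 ^ n, ?_, fun b ε s0 r hε hs0 hb1 hstep s hs hsr => ?_⟩
    · have h1 : 0 ≤ 30 * A * C * 4 ^ n := by positivity
      nlinarith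
    have hpow : (1 : ℝ) ≤ 2 ^ n := one_le_pow₀ (by norm_num)
    have hs2 : 2 ^ n * s0 ≤ s / 2 := by
      rw [pow_succ] at hs
      linarith
    have hss : 2 * s0 ≤ s := by nlinarith
    have hspos : 0 < s := by linarith
    have hs1 : 1 ≤ s := by linarith
    have h1 := hI b ε s0 r hε hs0 hb1 hstep (s / 2) hs2 (by linarith)
    have h2 := hstep s hss hsr
    set v : ℝ := 1 / s ^ 2 with hv
    have hv0 : 0 < v := by rw [hv]; positivity
    have hv1 : v ≤ 1 := by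
      rw [hv, div_le_one (by positivity)]
      nlinarith
    have e1 : 30 / s ^ 2 = 30 * v := by rw [hv]; ring
    have e2 : 1 / (s / 2) ^ (2 * n) = 4 ^ n * v ^ n := by
      rw [hv, div_pow, one_div, pow_mul, pow_mul, inv_div, div_pow, one_pow, mul_one_div]
      norm_num
    have e3 : 1 / s ^ (2 * (n + 1)) = v ^ (n + 1) := by
      rw [hv, div_pow, one_pow, ← pow_mul]
    rw [e1] at h2
    rw [e2] at h1
    rw [e3]
    have hvn : 0 < v ^ n := by positivity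
    calc b s ≤ A * (ε + 30 * v * b (s / 2)) := h2
      _ ≤ A * (ε + 30 * v * (C * (ε + 4 ^ n * v ^ n))) := by gcongr
      _ = A * (1 + 30 * C * v) * ε + 30 * A * C * 4 ^ n * v ^ (n + 1) := by ring
      _ ≤ A * (1 + 30 * C) * ε + 30 * A * C * 4 ^ n * v ^ (n + 1) := by
          have hCv : 30 * C * v ≤ 30 * C * 1 := by gcongr
          have hAv : A * (1 + 30 * C * v) * ε ≤ A * (1 + 30 * C) * ε := by
            refine mul_le_mul_of_nonneg_right (mul_le_mul_of_nonneg_left ?_ (by linarith)) hε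
            linarith
          linarith
      _ ≤ (A * (1 + 30 * C) + 30 * A * C * 4 ^ n) * (ε + v ^ (n + 1)) := by
          have k1 : 0 ≤ A * (1 + 30 * C) := by positivity
          have k2 : 0 ≤ 30 * A * C * 4 ^ n := by positivity
          have k3 : 0 < v ^ (n + 1) := by positivity
          have k4 := mul_nonneg k1 k3.le
          have k5 := mul_nonneg k2 hε
          nlinarith

end Loc

open Loc in
open MolDis.EnBasic in
theorem p_loc (h8 : S_cut) (hims : S_ims) (hpas : S_pas) (h1 : S_lc) (h3 : S_adm) (h5 : S_en)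
    (hB : S_bad) (hup : S_up) (hap : S_apri) (hgap : S_gap) (havg : S_avg) (hbd : S_bounds) :
    S_loc := by
  intro hEn2 K
  obtain ⟨g3, rb, hg3, hg3', hrb, hbad⟩ := hB hEn2
  obtain ⟨r1, hr1, hupper⟩ := upper hup hap hgap havg hbd (g3 / 2) (by positivity)
  obtain ⟨C0, hC0, hiter⟩ := iterate (2 / g3) (by rw [le_div_iff₀ hg3]; linarith) K
  set s0 : ℝ := rb + r1 with hs0
  have hs01 : 1 ≤ s0 := by linarith
  refine ⟨C0 + 1 + 30 * C0 * 4 ^ K, 2 ^ (K + 1) * s0, ?_, ?_, ?_⟩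
  · have : 0 ≤ 30 * C0 * 4 ^ K := by positivity
    linarith
  · have : (1 : ℝ) ≤ 2 ^ (K + 1) := one_le_pow₀ (by norm_num)
    nlinarith
  intro r a l ψ hr hra hal hψ hn
  have hpow : (1 : ℝ) ≤ 2 ^ (K + 1) := one_le_pow₀ (by norm_num)
  have hpowK : (1 : ℝ) ≤ 2 ^ K := one_le_pow₀ (by norm_num)
  have hs0r : s0 ≤ r := by nlinarith
  have hr2 : 2 ≤ r := by linarith
  have hrpos : 0 < r := by linarith
  have h8r : 8 * r ≤ r ^ 4 := by
    have : (8 : ℝ) ≤ r ^ 3 := by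
      have := pow_le_pow_left₀ (by norm_num : (0:ℝ) ≤ 2) hr2 3
      linarith
    nlinarith
  have ha8 : 8 * r ≤ a := h8r.trans hra
  have hapos : 0 < a := by linarith
  have ha1 : 1 ≤ a := by linarith
  have hl : 2 * a ≤ l := by
    refine le_trans ?_ hal
    have h6 : a ^ 2 ≤ a ^ 6 := pow_le_pow_right₀ ha1 (by norm_num)
    nlinarith
  have hE : En 3 (yv a l) ≤ -3 / 4 + g3 / 2 := hupper r a l (by linarith) hra hl
  set ε : ℝ := Qf (yv a l) ψ - En 3 (yv a l) with hε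
  have hε0 : 0 ≤ ε := by
    have h := h5.2.1 (Fin 3) (Fin 3) (yv a l) ψ hψ
    rw [hn, mul_one, Fintype.card_fin] at h
    linarith
  have hstep : ∀ s, s0 ≤ s → s ≤ r → goodE s a l ψ + g3 / 2 * badm s a l ψ ≤
      ε + 30 / s ^ 2 * badm (s / 2) a l ψ := by
    intro s hs hsr
    have hspos : 0 < s := by linarith
    have hs4 : s ^ 4 ≤ a := (pow_le_pow_left₀ hspos.le hsr 4).trans hra
    exact basic h8 hims h1 h3 hapos hl hspos (by linarith) hE
      (hbad s a l (by linarith) hs4 hl).1 hψ hn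
  have hA : ∀ s, s0 ≤ s → s ≤ r → badm s a l ψ ≤
      2 / g3 * (ε + 30 / s ^ 2 * badm (s / 2) a l ψ) := by
    intro s hs hsr
    have hspos : 0 < s := by linarith
    have h := hstep s hs hsr
    have hg := goodE_nonneg h8 hims hpas hapos hl hspos (by linarith : 2 * s ≤ a) hψ.toLC
    have h' : g3 / 2 * badm s a l ψ ≤ ε + 30 / s ^ 2 * badm (s / 2) a l ψ := by linarith
    have h2 : badm s a l ψ = 2 / g3 * (g3 / 2 * badm s a l ψ) := by field_simp
    rw [h2]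
    exact mul_le_mul_of_nonneg_left h' (by positivity)
  have hmain : ∀ s, 2 ^ K * s0 ≤ s → s ≤ r → badm s a l ψ ≤ C0 * (ε + 1 / s ^ (2 * K)) :=
    hiter (fun s => badm s a l ψ) ε s0 r hε0 hs01
      (fun s hs hsr => badm_le_one h8 hims hapos hl (by linarith) (by linarith) hψ.toLC hn)
      (fun s hs hsr => hA s (by linarith) hsr)
  have hv : 0 < 1 / r ^ K := by positivity
  have hpowr : 1 / r ^ (2 * K) ≤ 1 / r ^ K := by
    refine one_div_le_one_div_of_le (by positivity) (pow_le_pow_right₀ (by linarith) (by omega))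
  constructor
  · have h := hmain r (by rw [pow_succ] at hr; nlinarith) le_rfl
    have h2 : C0 * (ε + 1 / r ^ (2 * K)) ≤ C0 * (ε + 1 / r ^ K) := by gcongr
    have h3 : 0 ≤ (1 + 30 * C0 * 4 ^ K) * (ε + 1 / r ^ K) := by positivity
    linarith
  · have hr' : 2 ^ K * s0 ≤ r / 2 := by
      rw [pow_succ] at hr
      linarith
    have h := hmain (r / 2) hr' (by linarith)
    have h2 := hstep r hs0r le_rfl
    have h3 : 0 ≤ g3 / 2 * badm r a l ψ := mul_nonneg (by positivity) (badm_nonneg _ _ _ _)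
    have h4 : 30 / r ^ 2 * badm (r / 2) a l ψ ≤ 30 * (C0 * (ε + 1 / (r / 2) ^ (2 * K))) := by
      have h5 : 30 / r ^ 2 ≤ 30 := by
        rw [div_le_iff₀ (by positivity)]
        nlinarith
      calc 30 / r ^ 2 * badm (r / 2) a l ψ ≤ 30 * badm (r / 2) a l ψ := by
            exact mul_le_mul_of_nonneg_right h5 (badm_nonneg _ _ _ _)
        _ ≤ _ := by gcongr
    have e2 : 1 / (r / 2) ^ (2 * K) = 4 ^ K * (1 / r ^ (2 * K)) := by
      rw [div_pow, one_div, inv_div, pow_mul, mul_one_div]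
      norm_num
    rw [e2] at h4
    have h4K : (1 : ℝ) ≤ 4 ^ K := one_le_pow₀ (by norm_num)
    have h6 : 30 * (C0 * (ε + 4 ^ K * (1 / r ^ (2 * K)))) ≤ 30 * C0 * 4 ^ K * (ε + 1 / r ^ K) := by
      have k1 : ε ≤ 4 ^ K * ε := le_mul_of_one_le_left hε0 h4K
      have k2 : 4 ^ K * (1 / r ^ (2 * K)) ≤ 4 ^ K * (1 / r ^ K) := by gcongr
      calc 30 * (C0 * (ε + 4 ^ K * (1 / r ^ (2 * K))))
          ≤ 30 * (C0 * (4 ^ K * ε + 4 ^ K * (1 / r ^ K))) := by gcongr
        _ = _ := by ring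
    have h7 : 0 ≤ C0 * (ε + 1 / r ^ K) := by positivity
    show goodE r a l ψ ≤ _
    nlinarith

end MolDis.H
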