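import Pool.Agent.Lib.MP_59f35a_mp.HStmts

/-!
# MP_59f35a_mp : the multipoles of the pair (D7)
-/

set_option autoImplicit false

noncomputable section

open MeasureTheory

namespace MolDis.H

namespace Mh

lemma cont_coord (c : Fin 3) : Continuous fun x : E3 => x c := by fun_prop

lemma cont_hh (L : ℕ) : Continuous (hh L) := by
  have h := cont_coord
  match L with
  | 0 => exact continuous_const
  | 1 => exact h 0
  | 2 =>
    show Continuous fun x : E3 => x 0 ^ 2 - (x 1 ^ 2 + x 2 ^ 2) / 2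
    fun_prop
  | 3 =>
    show Continuous fun x : E3 => x 0 ^ 3 - 3 / 2 * x 0 * (x 1 ^ 2 + x 2 ^ 2)
    fun_prop
  | 4 =>
    show Continuous fun x : E3 => x 0 ^ 4 - 3 * x 0 ^ 2 * (x 1 ^ 2 + x 2 ^ 2)
      + 3 / 8 * (x 1 ^ 2 + x 2 ^ 2) ^ 2
    fun_prop
  | (n + 5) => exact continuous_const

lemma int_hh (hprod : S_prod) (hbl : S_bl) {r : ℝ} (hr : 0 < r) {φ : X3 → ℝ} (hφ : Box S2 r φ)
    (L : ℕ) (j : Fin 3) (hj : j ∈ S2) : Integrable (fun x => hh L (x j) * φ x ^ 2) pm := by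
  have : IsProbabilityMeasure pm := hprod.1
  have hB : BL φ := hbl.2.2.2.1 S2 r φ hφ hr ⟨0, by simp [S2]⟩
  obtain ⟨B, hB1⟩ := hB.bdd
  have hmeas := (hbl.2.2.1 φ hB).1
  obtain ⟨K, hK⟩ := (isCompact_closedBall (0 : E3) r).exists_bound_of_continuousOn
    (cont_hh L).continuousOn
  refine Integrable.of_bound (C := |K| * B ^ 2) ?_ (Filter.Eventually.of_forall fun x => ?_)
  · exact (((cont_hh L).measurable.comp (measurable_pi_apply j)).mul
      (hmeas.pow_const 2)).aestronglyMeasurable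
  · rw [Real.norm_eq_abs, abs_mul, abs_pow]
    by_cases h : φ x = 0
    · rw [h]
      simp only [abs_zero, ne_eq, OfNat.ofNat_ne_zero, not_false_eq_true, zero_pow, mul_zero]
      positivity
    · have h1 := hφ.supp x h j hj
      have h2 := hK (x j) (by simpa using h1)
      rw [Real.norm_eq_abs] at h2
      have h3 := hB1 x
      have h4 : |φ x| ^ 2 ≤ B ^ 2 := pow_le_pow_left₀ (abs_nonneg _) h3 2
      exact mul_le_mul (h2.trans (le_abs_self K)) h4 (by positivity) (abs_nonneg _)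

lemma ec0 (Z : ℝ) (u : E3) : (Z • ec 0 + u) 0 = Z + u 0 ∧ (Z • ec 0 + u) 1 = u 1 ∧
    (Z • ec 0 + u) 2 = u 2 := by
  unfold ec
  simp

lemma ec0' (Z : ℝ) : (Z • ec 0) 0 = Z ∧ (Z • ec 0) 1 = 0 ∧ (Z • ec 0) 2 = 0 := by
  unfold ec
  simp

lemma hh2 (Z : ℝ) (u : E3) : hh 2 (Z • ec 0 + u) - hh 2 (Z • ec 0) = 2 * Z * hh 1 u + hh 2 u := by
  obtain ⟨h0, h1, h2⟩ := ec0 Z u
  obtain ⟨k0, k1, k2⟩ := ec0' Z
  simp only [hh]
  rw [h0, h1, h2, k0, k1, k2]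
  ring

lemma hh4 (Z : ℝ) (u : E3) : hh 4 (Z • ec 0 + u) - hh 4 (Z • ec 0) =
    4 * Z ^ 3 * hh 1 u + 6 * Z ^ 2 * hh 2 u + 4 * Z * hh 3 u + hh 4 u := by
  obtain ⟨h0, h1, h2⟩ := ec0 Z u
  obtain ⟨k0, k1, k2⟩ := ec0' Z
  simp only [hh]
  rw [h0, h1, h2, k0, k1, k2]
  ring

/-- moments of the harmonics -/
def mo (L : ℕ) (j : Fin 3) (φ : X3 → ℝ) : ℝ := ∫ x, hh L (x j) * φ x ^ 2 ∂pm

lemma ML2 (hprod : S_prod) (hbl : S_bl) {r : ℝ} (hr : 0 < r) {φ : X3 → ℝ} (hφ : Box S2 r φ)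
    (a : ℝ) : ML a 2 φ = (-a * mo 1 0 φ + mo 2 0 φ) + (a * mo 1 1 φ + mo 2 1 φ) := by
  have i := fun L j hj => int_hh hprod hbl hr hφ L j hj
  have m0 : (0 : Fin 3) ∈ S2 := by simp [S2]
  have m1 : (1 : Fin 3) ∈ S2 := by simp [S2]
  have t0 : Integrable (fun x : X3 => -a * (hh 1 (x 0) * φ x ^ 2) + hh 2 (x 0) * φ x ^ 2) pm :=
    ((i 1 0 m0).const_mul _).add (i 2 0 m0)
  have t1 : Integrable (fun x : X3 => a * (hh 1 (x 1) * φ x ^ 2) + hh 2 (x 1) * φ x ^ 2) pm :=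
    ((i 1 1 m1).const_mul _).add (i 2 1 m1)
  unfold ML mo
  rw [← integral_const_mul, ← integral_const_mul,
    ← integral_add ((i 1 0 m0).const_mul _) (i 2 0 m0),
    ← integral_add ((i 1 1 m1).const_mul _) (i 2 1 m1),
    ← integral_add t0 t1]
  refine integral_congr_ae (Filter.Eventually.of_forall fun x => ?_)
  show ((hh 2 ((-(a / 2)) • ec 0 + x 0) - hh 2 ((-(a / 2)) • ec 0))
      + (hh 2 ((a / 2) • ec 0 + x 1) - hh 2 ((a / 2) • ec 0))) * φ x ^ 2 =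
    (-a * (hh 1 (x 0) * φ x ^ 2) + hh 2 (x 0) * φ x ^ 2)
      + (a * (hh 1 (x 1) * φ x ^ 2) + hh 2 (x 1) * φ x ^ 2)
  rw [hh2, hh2]
  ring

lemma int_four {f1 f2 f3 f4 : X3 → ℝ} (h1 : Integrable f1 pm) (h2 : Integrable f2 pm)
    (h3 : Integrable f3 pm) (h4 : Integrable f4 pm) (a1 a2 a3 a4 : ℝ) :
    Integrable (fun x => a1 * f1 x + a2 * f2 x + a3 * f3 x + a4 * f4 x) pm ∧
    ∫ x, (a1 * f1 x + a2 * f2 x + a3 * f3 x + a4 * f4 x) ∂pm =
      a1 * (∫ x, f1 x ∂pm) + a2 * (∫ x, f2 x ∂pm) + a3 * (∫ x, f3 x ∂pm) + a4 * ∫ x, f4 x ∂pm := by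
  have i12 : Integrable (fun x => a1 * f1 x + a2 * f2 x) pm := (h1.const_mul a1).add (h2.const_mul a2)
  have i123 : Integrable (fun x => a1 * f1 x + a2 * f2 x + a3 * f3 x) pm := i12.add (h3.const_mul a3)
  refine ⟨i123.add (h4.const_mul a4), ?_⟩
  rw [integral_add i123 (h4.const_mul a4), integral_add i12 (h3.const_mul a3),
    integral_add (h1.const_mul a1) (h2.const_mul a2)]
  simp only [integral_const_mul]

lemma ML4 (hprod : S_prod) (hbl : S_bl) {r : ℝ} (hr : 0 < r) {φ : X3 → ℝ} (hφ : Box S2 r φ)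
    (a : ℝ) : ML a 4 φ =
      (4 * (-(a / 2)) ^ 3 * mo 1 0 φ + 6 * (-(a / 2)) ^ 2 * mo 2 0 φ + 4 * (-(a / 2)) * mo 3 0 φ
        + 1 * mo 4 0 φ)
      + (4 * (a / 2) ^ 3 * mo 1 1 φ + 6 * (a / 2) ^ 2 * mo 2 1 φ + 4 * (a / 2) * mo 3 1 φ
        + 1 * mo 4 1 φ) := by
  have i := fun L j hj => int_hh hprod hbl hr hφ L j hj
  have m0 : (0 : Fin 3) ∈ S2 := by simp [S2]
  have m1 : (1 : Fin 3) ∈ S2 := by simp [S2]
  obtain ⟨p1, p2⟩ := int_four (i 1 0 m0) (i 2 0 m0) (i 3 0 m0) (i 4 0 m0)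
    (4 * (-(a / 2)) ^ 3) (6 * (-(a / 2)) ^ 2) (4 * (-(a / 2))) 1
  obtain ⟨q1, q2⟩ := int_four (i 1 1 m1) (i 2 1 m1) (i 3 1 m1) (i 4 1 m1)
    (4 * (a / 2) ^ 3) (6 * (a / 2) ^ 2) (4 * (a / 2)) 1
  unfold ML mo
  rw [← p2, ← q2, ← integral_add p1 q1]
  refine integral_congr_ae (Filter.Eventually.of_forall fun x => ?_)
  show ((hh 4 ((-(a / 2)) • ec 0 + x 0) - hh 4 ((-(a / 2)) • ec 0))
      + (hh 4 ((a / 2) • ec 0 + x 1) - hh 4 ((a / 2) • ec 0))) * φ x ^ 2 = _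
  rw [hh4, hh4]
  ring

end Mh

open Mh in
/-- **D7** -/
theorem p_Mh (hprod : S_prod) (hbl : S_bl) (hQ : S_Q) (hmom : S_momL) : S_Mh := by
  intro g0 hg0
  obtain ⟨C1, r1, hC1, hr1, q⟩ := hQ g0 hg0
  obtain ⟨C2, r2, hC2, hr2, m⟩ := hmom g0 hg0
  refine ⟨4 * C1 + 20 * C2, max r1 r2, by linarith, hr1.trans (le_max_left _ _), ?_⟩
  intro r a φ hr ha hφ
  have hrr1 : r1 ≤ r := (le_max_left _ _).trans hr
  have hrr2 : r2 ≤ r := (le_max_right _ _).trans hr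
  have hr1' : 1 ≤ r := hr1.trans hrr1
  have hr0 : 0 < r := by linarith
  have ha1 : 1 ≤ a := le_trans (one_le_pow₀ hr1') ha
  have ha0 : 0 < a := by linarith
  have q0 := q r a φ 0 hrr1 ha hφ (Or.inl rfl)
  have q1 := q r a φ 1 hrr1 ha hφ (Or.inr rfl)
  have m10 := m r a φ 1 0 hrr2 ha hφ le_rfl (by norm_num) (Or.inl rfl)
  have m11 := m r a φ 1 1 hrr2 ha hφ le_rfl (by norm_num) (Or.inr rfl)
  have m20 := m r a φ 2 0 hrr2 ha hφ (by norm_num) (by norm_num) (Or.inl rfl)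
  have m21 := m r a φ 2 1 hrr2 ha hφ (by norm_num) (by norm_num) (Or.inr rfl)
  have m30 := m r a φ 3 0 hrr2 ha hφ (by norm_num) (by norm_num) (Or.inl rfl)
  have m31 := m r a φ 3 1 hrr2 ha hφ (by norm_num) (by norm_num) (Or.inr rfl)
  have m40 := m r a φ 4 0 hrr2 ha hφ (by norm_num) (by norm_num) (Or.inl rfl)
  have m41 := m r a φ 4 1 hrr2 ha hφ (by norm_num) (by norm_num) (Or.inr rfl)
  have e2 := ML2 hprod hbl hr0 hφ.box a
  have e4 := ML4 hprod hbl hr0 hφ.box a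
  unfold mo at e2 e4
  generalize (∫ x, hh 1 (x 0) * φ x ^ 2 ∂pm) = A10 at *
  generalize (∫ x, hh 1 (x 1) * φ x ^ 2 ∂pm) = A11 at *
  generalize (∫ x, hh 2 (x 0) * φ x ^ 2 ∂pm) = A20 at *
  generalize (∫ x, hh 2 (x 1) * φ x ^ 2 ∂pm) = A21 at *
  generalize (∫ x, hh 3 (x 0) * φ x ^ 2 ∂pm) = A30 at *
  generalize (∫ x, hh 3 (x 1) * φ x ^ 2 ∂pm) = A31 at *
  generalize (∫ x, hh 4 (x 0) * φ x ^ 2 ∂pm) = A40 at *
  generalize (∫ x, hh 4 (x 1) * φ x ^ 2 ∂pm) = A41 at *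
  obtain ⟨T, hT⟩ : ∃ T : ℝ, T = r ^ 8 * (1 / a ^ 6 + Real.exp (-r / 8)) := ⟨_, rfl⟩
  have hT0 : 0 ≤ T := by rw [hT]; positivity
  have hCT : C2 * r ^ 8 * (1 / a ^ 6 + Real.exp (-r / 8)) = C2 * T := by rw [hT]; ring
  rw [hCT] at m10 m11 m20 m21 m30 m31 m40 m41
  have hCT0 : 0 ≤ C2 * T := by positivity
  obtain ⟨V, hV⟩ : ∃ V : ℝ, V = r ^ 10 * (1 / a ^ 7 + Real.exp (-r / 16)) := ⟨_, rfl⟩
  have hV0 : 0 ≤ V := by rw [hV]; positivity
  have hC1V : C1 * r ^ 10 * (1 / a ^ 7 + Real.exp (-r / 16)) = C1 * V := by rw [hV]; ring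
  rw [hC1V] at q0 q1
  have hTV : 1 / a * T ≤ V := by
    rw [hT, hV]
    have h1 : 1 / a * (r ^ 8 * (1 / a ^ 6 + Real.exp (-r / 8))) =
        r ^ 8 * (1 / a ^ 7 + 1 / a * Real.exp (-r / 8)) := by
      field_simp
    rw [h1]
    have h2 : r ^ 8 ≤ r ^ 10 := pow_le_pow_right₀ hr1' (by norm_num)
    have h3 : 1 / a * Real.exp (-r / 8) ≤ Real.exp (-r / 16) := by
      calc 1 / a * Real.exp (-r / 8) ≤ 1 * Real.exp (-r / 8) := by
            gcongr
            rw [div_le_iff₀ ha0]; linarith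
        _ ≤ Real.exp (-r / 16) := by
            rw [one_mul]
            exact Real.exp_le_exp.2 (by linarith)
    gcongr
  refine ⟨?_, ?_, ?_⟩
  · have e : ML a 2 φ - 2 / a ^ 2 * ML a 4 φ =
        (-2 * A20 + 4 / a * A30 - 2 / a ^ 2 * A40) + (-2 * A21 - 4 / a * A31 - 2 / a ^ 2 * A41) := by
      rw [e2, e4]
      field_simp
      ring
    rw [e]
    have ha' : 0 ≤ 1 / a := by positivity
    have b1 : ∀ A : ℝ, |A| ≤ C2 * T → 1 / a * |A| ≤ C2 * V := by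
      intro A hA
      calc 1 / a * |A| ≤ 1 / a * (C2 * T) := by gcongr
        _ = C2 * (1 / a * T) := by ring
        _ ≤ C2 * V := by gcongr
    have b2 : ∀ A : ℝ, |A| ≤ C2 * T → 1 / a ^ 2 * |A| ≤ C2 * V := by
      intro A hA
      refine le_trans ?_ (b1 A hA)
      refine mul_le_mul_of_nonneg_right ?_ (abs_nonneg _)
      exact one_div_le_one_div_of_le ha0 (le_self_pow₀ ha1 (by norm_num))
    have c1 : 4 / a * A30 ≤ 4 * (C2 * V) := by
      have h1 := b1 A30 m30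
      have h2 : 4 / a * A30 ≤ 4 * (1 / a * |A30|) := by
        have h3 : 4 / a * A30 = 4 * (1 / a * A30) := by ring
        rw [h3]
        gcongr
        exact le_abs_self _
      linarith
    have c2 : -(4 / a * A31) ≤ 4 * (C2 * V) := by
      have h1 := b1 A31 m31
      have h2 : -(4 / a * A31) ≤ 4 * (1 / a * |A31|) := by
        have h3 : -(4 / a * A31) = 4 * (1 / a * (-A31)) := by ring
        rw [h3]
        gcongr
        exact neg_le_abs _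
      linarith
    have c3 : -(2 / a ^ 2 * A40) ≤ 2 * (C2 * V) := by
      have h1 := b2 A40 m40
      have h2 : -(2 / a ^ 2 * A40) ≤ 2 * (1 / a ^ 2 * |A40|) := by
        have h3 : -(2 / a ^ 2 * A40) = 2 * (1 / a ^ 2 * (-A40)) := by ring
        rw [h3]
        gcongr
        exact neg_le_abs _
      linarith
    have c4 : -(2 / a ^ 2 * A41) ≤ 2 * (C2 * V) := by
      have h1 := b2 A41 m41
      have h2 : -(2 / a ^ 2 * A41) ≤ 2 * (1 / a ^ 2 * |A41|) := by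
        have h3 : -(2 / a ^ 2 * A41) = 2 * (1 / a ^ 2 * (-A41)) := by ring
        rw [h3]
        gcongr
        exact neg_le_abs _
      linarith
    have h5 : (3700 : ℝ) / a ^ 6 = 3700 * (1 / a ^ 6) := by ring
    have h6 : (-14000 : ℝ) / a ^ 6 = -14000 * (1 / a ^ 6) := by ring
    have h7 : 0 ≤ 1 / a ^ 6 := by positivity
    have h8 : (4 * C1 + 20 * C2) * r ^ 10 * (1 / a ^ 7 + Real.exp (-r / 16)) =
        4 * (C1 * V) + 20 * (C2 * V) := by rw [hV]; ring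
    rw [h5] at q0 q1
    rw [h6, h8]
    have h9 : 0 ≤ C2 * V := by positivity
    linarith
  · have h8 : (4 * C1 + 20 * C2) * a * r ^ 8 * (1 / a ^ 6 + Real.exp (-r / 8)) =
        (4 * C1 + 20 * C2) * a * T := by rw [hT]; ring
    rw [h8, e2]
    have d1 : |-a * A10| ≤ a * (C2 * T) := by
      rw [abs_mul, abs_neg, abs_of_pos ha0]; gcongr
    have d2 : |a * A11| ≤ a * (C2 * T) := by
      rw [abs_mul, abs_of_pos ha0]; gcongr
    have d3 : C2 * T ≤ a * (C2 * T) := le_mul_of_one_le_left hCT0 ha1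
    have d4 : |-a * A10 + A20 + (a * A11 + A21)| ≤ |-a * A10| + |A20| + (|a * A11| + |A21|) :=
      (abs_add_le _ _).trans (add_le_add (abs_add_le _ _) (abs_add_le _ _))
    have d5 : 0 ≤ C1 * a * T := by positivity
    have d6 : 0 ≤ a * (C2 * T) := by positivity
    have d7 : (4 * C1 + 20 * C2) * a * T = 4 * (C1 * a * T) + 20 * (a * (C2 * T)) := by ring
    rw [d7]
    linarith
  · have h8 : (4 * C1 + 20 * C2) * a ^ 3 * r ^ 8 * (1 / a ^ 6 + Real.exp (-r / 8)) =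
        (4 * C1 + 20 * C2) * a ^ 3 * T := by rw [hT]; ring
    rw [h8, e4]
    have a2 : a ^ 2 ≤ a ^ 3 := pow_le_pow_right₀ ha1 (by norm_num)
    have a1 : a ≤ a ^ 3 := le_self_pow₀ ha1 (by norm_num)
    have a0 : 1 ≤ a ^ 3 := one_le_pow₀ ha1
    have key : ∀ (k : ℝ) (A : ℝ), |k| ≤ 2 * a ^ 3 → |A| ≤ C2 * T → |k * A| ≤ 2 * (a ^ 3 * (C2 * T)) := by
      intro k A hk hA
      rw [abs_mul]
      calc |k| * |A| ≤ (2 * a ^ 3) * (C2 * T) := mul_le_mul hk hA (abs_nonneg _) (by positivity)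
        _ = _ := by ring
    have k1 : |4 * (-(a / 2)) ^ 3| ≤ 2 * a ^ 3 := by
      have : 4 * (-(a / 2)) ^ 3 = -(a ^ 3 / 2) := by ring
      rw [this, abs_neg, abs_of_nonneg (by positivity)]
      linarith
    have k1' : |4 * (a / 2) ^ 3| ≤ 2 * a ^ 3 := by
      have : 4 * (a / 2) ^ 3 = a ^ 3 / 2 := by ring
      rw [this, abs_of_nonneg (by positivity)]
      linarith
    have k2 : |6 * (-(a / 2)) ^ 2| ≤ 2 * a ^ 3 := by
      have : 6 * (-(a / 2)) ^ 2 = 3 / 2 * a ^ 2 := by ring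
      rw [this, abs_of_nonneg (by positivity)]
      linarith
    have k2' : |6 * (a / 2) ^ 2| ≤ 2 * a ^ 3 := by
      have : 6 * (a / 2) ^ 2 = 3 / 2 * a ^ 2 := by ring
      rw [this, abs_of_nonneg (by positivity)]
      linarith
    have k3 : |4 * (-(a / 2))| ≤ 2 * a ^ 3 := by
      have : 4 * (-(a / 2)) = -(2 * a) := by ring
      rw [this, abs_neg, abs_of_nonneg (by positivity)]
      linarith
    have k3' : |4 * (a / 2)| ≤ 2 * a ^ 3 := by
      have : 4 * (a / 2) = 2 * a := by ring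
      rw [this, abs_of_nonneg (by positivity)]
      linarith
    have k4 : |(1 : ℝ)| ≤ 2 * a ^ 3 := by rw [abs_one]; linarith
    have f1 := key _ _ k1 m10
    have f2 := key _ _ k2 m20
    have f3 := key _ _ k3 m30
    have f4 := key _ _ k4 m40
    have g1 := key _ _ k1' m11
    have g2 := key _ _ k2' m21
    have g3 := key _ _ k3' m31
    have g4 := key _ _ k4 m41
    have tri : ∀ u1 u2 u3 u4 v1 v2 v3 v4 : ℝ,
        |u1 + u2 + u3 + u4 + (v1 + v2 + v3 + v4)| ≤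
          |u1| + |u2| + |u3| + |u4| + (|v1| + |v2| + |v3| + |v4|) := by
      intro u1 u2 u3 u4 v1 v2 v3 v4
      refine (abs_add_le _ _).trans (add_le_add ?_ ?_)
      · refine (abs_add_le _ _).trans (add_le_add ?_ le_rfl)
        refine (abs_add_le _ _).trans (add_le_add ?_ le_rfl)
        exact abs_add_le _ _
      · refine (abs_add_le _ _).trans (add_le_add ?_ le_rfl)
        refine (abs_add_le _ _).trans (add_le_add ?_ le_rfl)
        exact abs_add_le _ _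
    refine (tri _ _ _ _ _ _ _ _).trans ?_
    have d5 : 0 ≤ C1 * a ^ 3 * T := by positivity
    have d6 : 0 ≤ a ^ 3 * (C2 * T) := by positivity
    have d7 : (4 * C1 + 20 * C2) * a ^ 3 * T = 4 * (C1 * a ^ 3 * T) + 20 * (a ^ 3 * (C2 * T)) := by
      ring
    rw [d7]
    linarith

end MolDis.H
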