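import Pool.Agent.Lib.MP_59f35a_mp.H.TailPart

/-!
# MP_59f35a_mp : uniform second moment bound
-/

set_option autoImplicit false

noncomputable section

open MeasureTheory

namespace MolDis.H

/-- uniform version of `S_mom2` -/
def S_mom2u : Prop :=
  ∃ C : ℝ, 1 ≤ C ∧ ∀ (l R : ℝ) (Y : Fin 3 → E3) (ψ : (Fin 3 → Om) → ℝ), 288 ≤ l → 8 * l ≤ R →
    (∀ m, ‖Y m‖ ≤ l) → 1 / 8 ≤ En 2 Y - En 3 Y → WF ψ → nsq ψ = 1 →
    (∀ X, ψ X ≠ 0 → ∀ j, ‖(X j).1‖ ≤ R) →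
    expv (fun X => ‖vdip Y X‖ ^ 2) ψ ≤ C * l ^ 2 + C * R ^ 2 * (Qf Y ψ - En 3 Y)

open TailPart MolDis.Mom MolDis.EnBasic

/-- the dyadic sum for the second moment, uniform constants -/
lemma Mom2u.dyadic2 (hT : S_tail) (h1 : S_lc) (h3 : S_adm) {Y : Fin 3 → E3} {l : ℝ} (hl : 288 ≤ l)
    (hY : ∀ m, ‖Y m‖ ≤ l) (hg : 1 / 8 ≤ En 2 Y - En 3 Y) {ψ : (Fin 3 → Om) → ℝ} (hψ : WF ψ)
    (hn : nsq ψ = 1) (hε : 0 ≤ Qf Y ψ - En 3 Y) (n : ℕ) :
    expv (fun X => ∑ j, m2 (2 ^ n * (4 * l)) (X j).1) ψ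
      + 8 * ((2 ^ n * (4 * l)) ^ 2 * nout (2 ^ n * (4 * l)) ψ) ≤
      27 * (4 * l) ^ 2 + 512 * (Qf Y ψ - En 3 Y) * (2 ^ n * (4 * l)) ^ 2 := by
  have hψ' : LC ψ := hψ.toLC
  set ε : ℝ := Qf Y ψ - En 3 Y with hεd
  have ht0 : 0 < 4 * l := by linarith
  induction n with
  | zero =>
    have e0 : (2 : ℝ) ^ 0 * (4 * l) = 4 * l := by rw [pow_zero, one_mul]
    rw [e0]
    have h : expv (fun X => ∑ j, m2 (4 * l) (X j).1) ψ ≤ 3 * (4 * l) ^ 2 * nsq ψ := by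
      rw [← expv_const]
      refine expv_mono h1 hψ' (adm_m2 h3 _) (adm_const h3 _) fun X _ => ?_
      have h2 : ∀ j ∈ (Finset.univ : Finset (Fin 3)), m2 (4 * l) (X j).1 ≤ (4 * l) ^ 2 := by
        intro j _
        unfold m2
        exact pow_le_pow_left₀ (le_min (norm_nonneg _) ht0.le) (min_le_right _ _) 2
      refine (Finset.sum_le_sum h2).trans ?_
      rw [Finset.sum_const, Finset.card_univ, nsmul_eq_mul, Fintype.card_fin]
      norm_num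
    have h2 := nout_le h1 h3 hψ' (4 * l)
    rw [hn, Fintype.card_fin] at h2
    rw [hn, mul_one] at h
    have h4 : (4 * l) ^ 2 * nout (4 * l) ψ ≤ (4 * l) ^ 2 * (((3 : ℕ) : ℝ) * 1) := by gcongr
    have h5 : 0 ≤ 512 * ε * (4 * l) ^ 2 := by positivity
    push_cast at h4
    linarith
  | succ n ih =>
    set S : ℝ := 2 ^ n * (4 * l) with hS
    have hpow : (1 : ℝ) ≤ 2 ^ n := one_le_pow₀ (by norm_num)
    have hSs : 4 * l ≤ S := by rw [hS]; nlinarith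
    have hSpos : 0 < S := by linarith
    have e : (2 : ℝ) ^ (n + 1) * (4 * l) = 2 * S := by rw [hS]; ring
    rw [e]
    have hstep : expv (fun X => ∑ j, m2 (2 * S) (X j).1) ψ ≤
        expv (fun X => ∑ j, m2 S (X j).1) ψ + 4 * S ^ 2 * nout S ψ := by
      rw [nout_eq, ← expv_cmul, ← expv_add h1 hψ' (adm_m2 h3 _) (adm_cmul h3 _ (adm_cnt h3 _))]
      refine expv_mono h1 hψ' (adm_m2 h3 _) (adm_add h3 (adm_m2 h3 _)
        (adm_cmul h3 _ (adm_cnt h3 _))) fun X _ => ?_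
      rw [Finset.mul_sum, ← Finset.sum_add_distrib]
      exact Finset.sum_le_sum fun j _ => m2_step S hSpos.le _
    have htail := hT 3 Y l (1 / 8) S ψ (by norm_num) hY (by norm_num) hg hSpos (by linarith)
      (by norm_num; linarith) hψ hn
    have hc : 2 * ((3 : ℕ) : ℝ) / (1 / 8) = 48 := by norm_num
    rw [hc, ← hεd] at htail
    have hN : 0 ≤ nout S ψ := nout_nonneg S ψ
    have h6 : 8 * ((2 * S) ^ 2 * nout (2 * S) ψ) ≤
        8 * ((2 * S) ^ 2 * (48 * (ε + 3 / S ^ 2 * nout S ψ))) := by gcongr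
    have h7 : 8 * ((2 * S) ^ 2 * (48 * (ε + 3 / S ^ 2 * nout S ψ))) =
        1536 * S ^ 2 * ε + 4608 * nout S ψ := by
      field_simp
      ring
    have h8 : 4608 * nout S ψ ≤ 4 * S ^ 2 * nout S ψ := by
      have : (4608 : ℝ) ≤ 4 * S ^ 2 := by nlinarith
      exact mul_le_mul_of_nonneg_right this hN
    have h9 : 512 * ε * (2 * S) ^ 2 = 2048 * ε * S ^ 2 := by ring
    have h10 : 1536 * S ^ 2 * ε = 1536 * ε * S ^ 2 := by ring
    nlinarith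

theorem p_mom2u (hT : S_tail) (h1 : S_lc) (h3 : S_adm) (h5 : S_en) : S_mom2u := by
  refine ⟨13000, by norm_num, fun l R Y ψ hl hR hY hg hψ hn hsupp => ?_⟩
  have hψ' : LC ψ := hψ.toLC
  have hε : 0 ≤ Qf Y ψ - En 3 Y := eps_nonneg h5 Y hψ hn
  have hR0 : 0 < 4 * l := by linarith
  obtain ⟨n, hn1, hn2⟩ := exists_nat_pow_near (x := R / (4 * l)) (y := (2 : ℝ))
    (by rw [le_div_iff₀ hR0]; linarith) (by norm_num)
  rw [le_div_iff₀ hR0] at hn1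
  rw [div_lt_iff₀ hR0] at hn2
  have hdy := Mom2u.dyadic2 hT h1 h3 hl hY hg hψ hn hε (n + 1)
  set ε : ℝ := Qf Y ψ - En 3 Y with hεd
  set S : ℝ := 2 ^ (n + 1) * (4 * l) with hS
  have hS2 : S ≤ 2 * R := by
    have : S = 2 * (2 ^ n * (4 * l)) := by rw [hS]; ring
    linarith
  have hS0 : 0 < S := by rw [hS]; positivity
  have hRS : R ≤ S := hn2.le
  have hNS : 0 ≤ nout S ψ := nout_nonneg S ψ
  have hW1 : AdmW (fun X : Fin 3 → Om => ∑ j, ‖(X j).1‖ ^ 2) := by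
    refine adm_sum h3 Finset.univ (fun j (X : Fin 3 → Om) => ‖(X j).1‖ ^ 2) fun j =>
      adm_one h3 j (fun x => ‖x‖ ^ 2) (measurable_norm.pow_const 2) fun R => ⟨|R| ^ 2, fun x hx => ?_⟩
    rw [abs_pow, abs_norm]
    exact pow_le_pow_left₀ (norm_nonneg _) (hx.trans (le_abs_self R)) 2
  have hm : expv (fun X => ∑ j, ‖(X j).1‖ ^ 2) ψ ≤ 432 * l ^ 2 + 2048 * ε * R ^ 2 := by
    have h4 : expv (fun X => ∑ j, ‖(X j).1‖ ^ 2) ψ ≤ expv (fun X => ∑ j, m2 S (X j).1) ψ := by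
      refine expv_mono h1 hψ' hW1 (adm_m2 h3 _) fun X hX => ?_
      refine Finset.sum_le_sum fun j _ => ?_
      unfold m2
      rw [min_eq_left ((hsupp X hX j).trans hRS)]
    have h5 : 0 ≤ 8 * (S ^ 2 * nout S ψ) := by positivity
    have h6 : 512 * ε * S ^ 2 ≤ 512 * ε * (2 * R) ^ 2 := by gcongr
    nlinarith
  set A : ℝ := ‖∑ m, Y m‖ with hA
  have hAl : A ≤ 3 * l := by
    rw [hA]
    refine (norm_sum_le _ _).trans ((Finset.sum_le_sum fun m _ => hY m).trans ?_)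
    simp
  have hA0 : 0 ≤ A := norm_nonneg _
  have hW2 : AdmW (fun X : Fin 3 → Om => ‖vdip Y X‖ ^ 2) := by
    refine (h3 (Fin 3)).1 _ ⟨?_, fun R => ⟨(A + ∑ _j : Fin 3, R) ^ 2, fun X hX => ?_⟩⟩
    · unfold vdip
      refine (Measurable.norm ?_).pow_const 2
      exact measurable_const.sub (Finset.measurable_sum _ fun j _ => (measurable_pi_apply j).fst)
    · rw [abs_pow, abs_norm]
      refine pow_le_pow_left₀ (norm_nonneg _) ?_ 2
      exact (vdip_le Y X).trans (add_le_add le_rfl (Finset.sum_le_sum fun j _ => hX j))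
  have hle : expv (fun X => ‖vdip Y X‖ ^ 2) ψ ≤
      2 * A ^ 2 + 6 * expv (fun X => ∑ j, ‖(X j).1‖ ^ 2) ψ := by
    have h6 : expv (fun X => 2 * A ^ 2 + 6 * ∑ j, ‖(X j).1‖ ^ 2) ψ =
        2 * A ^ 2 + 6 * expv (fun X => ∑ j, ‖(X j).1‖ ^ 2) ψ := by
      rw [expv_add h1 hψ' (adm_const h3 _) (adm_cmul h3 _ hW1), expv_const, hn, mul_one, expv_cmul]
    rw [← h6]
    refine expv_mono h1 hψ' hW2 (adm_add h3 (adm_const h3 _) (adm_cmul h3 _ hW1)) fun X _ => ?_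
    have h7 := vdip_le Y X
    have h8 : (∑ j, ‖(X j).1‖) ^ 2 ≤ 3 * ∑ j, ‖(X j).1‖ ^ 2 := by
      have := sq_sum_le_card_mul_sum_sq (s := (Finset.univ : Finset (Fin 3)))
        (f := fun j => ‖(X j).1‖)
      simpa using this
    have h9 : ‖vdip Y X‖ ^ 2 ≤ (A + ∑ j, ‖(X j).1‖) ^ 2 :=
      pow_le_pow_left₀ (norm_nonneg _) h7 2
    nlinarith [sq_nonneg (A - ∑ j, ‖(X j).1‖)]
  refine hle.trans ?_
  have h13 : A ^ 2 ≤ 9 * l ^ 2 := by
    have := pow_le_pow_left₀ hA0 hAl 2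
    linarith [mul_pow 3 l 2]
  have h14 : 0 ≤ R ^ 2 * ε := by positivity
  have h15 : 0 ≤ l ^ 2 := by positivity
  nlinarith

end MolDis.H
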