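import Pool.Agent.Lib.MP_59f35a_mp.HStmts
import Pool.Agent.Lib.MP_59f35a_mp.H.Form

/-!
# MP_59f35a_mp : D3, the moments of the harmonics of the pair
-/

noncomputable section

open MeasureTheory

namespace MolDis.H

namespace MomL

/-- profile of the cut-off -/
def zf (r t : ℝ) : ℝ := max 0 (min 1 (2 - 2 * t / r))

lemma zt_eq (r : ℝ) (x : E3) : zt r x = zf r ‖x‖ := rfl

lemma zf_cont (r : ℝ) : Continuous (zf r) := by
  unfold zf
  fun_prop

lemma zt_nonneg (r : ℝ) (x : E3) : 0 ≤ zt r x := le_max_left _ _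

lemma zt_le (r : ℝ) (x : E3) : zt r x ≤ 1 := max_le zero_le_one (min_le_left _ _)

lemma zt_meas (r : ℝ) : Measurable (zt r) :=
  ((zf_cont r).comp continuous_norm).measurable

lemma zt_zero {r : ℝ} (hr : 0 < r) {x : E3} (h : r < ‖x‖) : zt r x = 0 := by
  unfold zt
  have h1 : 1 < ‖x‖ / r := by rwa [lt_div_iff₀ hr, one_mul]
  have h2 : 2 - 2 * ‖x‖ / r ≤ 0 := by
    have : 2 * ‖x‖ / r = 2 * (‖x‖ / r) := by ring
    rw [this]; linarith
  exact max_eq_left ((min_le_right _ _).trans h2)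

lemma zt_one {r : ℝ} (hr : 0 < r) {x : E3} (h : ‖x‖ ≤ r / 2) : zt r x = 1 := by
  unfold zt
  have h1 : ‖x‖ / r ≤ 1 / 2 := by rw [div_le_iff₀ hr]; linarith
  have h2 : 1 ≤ 2 - 2 * ‖x‖ / r := by
    have : 2 * ‖x‖ / r = 2 * (‖x‖ / r) := by ring
    rw [this]; linarith
  rw [min_eq_left h2, max_eq_right zero_le_one]

lemma nsq3 (x : E3) : ‖x‖ ^ 2 = x 0 ^ 2 + x 1 ^ 2 + x 2 ^ 2 := by
  rw [EuclideanSpace.norm_sq_eq, Fin.sum_univ_three]
  simp only [Real.norm_eq_abs, sq_abs]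

lemma hh_le (L : ℕ) (x : E3) : |hh L x| ≤ 5 * ‖x‖ ^ L := by
  have hN := norm_nonneg x
  have h2 := nsq3 x
  set N := ‖x‖ with hNd
  have h0 : |x 0| ≤ N := by
    have := PiLp.norm_apply_le x 0
    rwa [Real.norm_eq_abs] at this
  have hρ : x 1 ^ 2 + x 2 ^ 2 ≤ N ^ 2 := by nlinarith [sq_nonneg (x 0)]
  have hρ0 : 0 ≤ x 1 ^ 2 + x 2 ^ 2 := by positivity
  have h00 : x 0 ^ 2 ≤ N ^ 2 := by nlinarith
  match L with
  | 0 => simp [hh]
  | 1 => simp only [hh, pow_one]; linarith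
  | 2 =>
    simp only [hh]
    rw [abs_le]
    constructor <;> nlinarith [sq_nonneg (x 0)]
  | 3 =>
    simp only [hh]
    have e : x 0 ^ 3 - 3 / 2 * x 0 * (x 1 ^ 2 + x 2 ^ 2) =
        x 0 * (x 0 ^ 2 - 3 / 2 * (x 1 ^ 2 + x 2 ^ 2)) := by ring
    rw [e, abs_mul]
    have h3 : |x 0 ^ 2 - 3 / 2 * (x 1 ^ 2 + x 2 ^ 2)| ≤ 5 * N ^ 2 := by
      rw [abs_le]
      constructor <;> nlinarith [sq_nonneg (x 0)]
    calc |x 0| * |x 0 ^ 2 - 3 / 2 * (x 1 ^ 2 + x 2 ^ 2)| ≤ N * (5 * N ^ 2) :=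
          mul_le_mul h0 h3 (abs_nonneg _) hN
      _ = 5 * N ^ 3 := by ring
  | 4 =>
    simp only [hh]
    have e1 : x 0 ^ 4 ≤ N ^ 4 := by
      have := mul_le_mul h00 h00 (sq_nonneg (x 0)) (sq_nonneg N)
      nlinarith
    have e2 : x 0 ^ 2 * (x 1 ^ 2 + x 2 ^ 2) ≤ N ^ 4 := by
      have := mul_le_mul h00 hρ hρ0 (sq_nonneg N)
      nlinarith
    have e3 : (x 1 ^ 2 + x 2 ^ 2) ^ 2 ≤ N ^ 4 := by
      have := mul_le_mul hρ hρ hρ0 (sq_nonneg N)
      nlinarith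
    have e4 : 0 ≤ x 0 ^ 2 * (x 1 ^ 2 + x 2 ^ 2) := by positivity
    have e5 : 0 ≤ x 0 ^ 4 := by positivity
    have e6 : 0 ≤ (x 1 ^ 2 + x 2 ^ 2) ^ 2 := by positivity
    rw [abs_le]
    constructor <;> nlinarith
  | n + 5 => simp only [hh, abs_zero]; positivity

lemma hh_cont (L : ℕ) : Continuous (hh L) := by
  match L with
  | 0 => exact continuous_const
  | 1 => show Continuous fun x : E3 => x 0; fun_prop
  | 2 => show Continuous fun x : E3 => x 0 ^ 2 - (x 1 ^ 2 + x 2 ^ 2) / 2; fun_prop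
  | 3 => show Continuous fun x : E3 => x 0 ^ 3 - 3 / 2 * x 0 * (x 1 ^ 2 + x 2 ^ 2); fun_prop
  | 4 => show Continuous fun x : E3 => x 0 ^ 4 - 3 * x 0 ^ 2 * (x 1 ^ 2 + x 2 ^ 2) +
          3 / 8 * (x 1 ^ 2 + x 2 ^ 2) ^ 2
         fun_prop
  | n + 5 => exact continuous_const

lemma th_cont (L : ℕ) : Continuous (th L) := by
  unfold th
  exact (hh_cont L).mul (by fun_prop)

/-! ### evaluation maps -/

lemma mpe (h1 : S_hm) (j : Fin 3) : MeasurePreserving (fun x : X3 => x j) pm hm := by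
  have := h1.1
  exact measurePreserving_eval (fun _ => hm) j

lemma ev_int (h1 : S_hm) {F : E3 → ℝ} (hF : Integrable F hm) (j : Fin 3) :
    Integrable (fun x : X3 => F (x j)) pm :=
  ((mpe h1 j).integrable_comp hF.aestronglyMeasurable).2 hF

lemma ev_val (h1 : S_hm) {F : E3 → ℝ} (hF : Integrable F hm) (j : Fin 3) :
    ∫ x : X3, F (x j) ∂pm = ∫ y, F y ∂hm := by
  rw [← (mpe h1 j).map_eq, integral_map (mpe h1 j).measurable.aemeasurable]
  rw [(mpe h1 j).map_eq]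
  exact hF.aestronglyMeasurable

lemma pd1_cmul (b : ℝ) (G : E3 → ℝ) (c : Fin 3) (y : E3) :
    pd1 c (fun y => b * G y) y = b * pd1 c G y := by
  unfold pd1 lineDeriv
  rw [deriv_const_mul_field]

lemma D1_cmul (b : ℝ) (G : E3 → ℝ) :
    D1 (fun y => b * G y) (fun y => b * G y) = b ^ 2 * D1 G G := by
  unfold D1
  rw [Finset.mul_sum]
  refine Finset.sum_congr rfl fun c _ => ?_
  rw [← integral_const_mul]
  refine integral_congr_ae (Filter.Eventually.of_forall fun y => ?_)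
  simp only [pd1_cmul]
  ring

lemma pd_ind {f : X3 → ℝ} (j c : Fin 3) (hf : ∀ x y, f (Function.update x j y) = f x)
    (x : X3) : pd j c f x = 0 := by
  have h1 := Form.pd_cmul (w := f) (f := fun _ => (1 : ℝ)) j c hf x
  simp only [mul_one] at h1
  rw [h1]
  unfold pd lineDeriv
  simp

lemma Dj_ind {f g : X3 → ℝ} (j : Fin 3) (hf : ∀ x y, f (Function.update x j y) = f x) :
    Dj j f g = 0 := by
  unfold Dj
  refine Finset.sum_eq_zero fun c _ => ?_
  have : (fun x => pd j c f x * pd j c g x) = fun _ => 0 := by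
    funext x
    rw [pd_ind j c hf x, zero_mul]
  rw [this]
  simp

/-- Cauchy-Schwarz -/
lemma cs {f g : X3 → ℝ} (hff : Integrable (fun x => f x ^ 2) pm)
    (hgg : Integrable (fun x => g x ^ 2) pm) (hfg : Integrable (fun x => f x * g x) pm) :
    |∫ x, f x * g x ∂pm| ≤ √(∫ x, f x ^ 2 ∂pm) * √(∫ x, g x ^ 2 ∂pm) := by
  refine Form.quad (integral_nonneg fun x => sq_nonneg _) fun t => ?_
  have i2 := hfg.const_mul (2 * t)
  have i3 := hgg.const_mul (t ^ 2)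
  have i4 : Integrable (fun x => f x ^ 2 + 2 * t * (f x * g x)) pm := hff.add i2
  have e : ∫ x, (f x + t * g x) ^ 2 ∂pm =
      (∫ x, f x ^ 2 ∂pm) + 2 * t * (∫ x, f x * g x ∂pm) + t ^ 2 * ∫ x, g x ^ 2 ∂pm := by
    rw [← integral_const_mul, ← integral_const_mul, ← integral_add hff i2,
      ← integral_add i4 i3]
    refine integral_congr_ae (Filter.Eventually.of_forall fun x => ?_)
    simp only
    ring
  rw [← e]
  exact integral_nonneg fun x => sq_nonneg _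

lemma D1_nonneg (f : E3 → ℝ) : 0 ≤ D1 f f :=
  Finset.sum_nonneg fun _ _ => integral_nonneg fun _ => mul_self_nonneg _

lemma lc_of_wsol {F κ : E3 → ℝ} {C r : ℝ} (h : WSol F κ C) (hr : 1 ≤ r) :
    LC1 (fun x => F x * zt r x) := by
  refine ⟨h.lip r hr, r, fun x hx => ?_⟩
  by_contra hc
  push Not at hc
  exact hx (by rw [zt_zero (by linarith) hc, mul_zero])

/-- `DD` for a pair of indices -/
lemma DD_pair {j k : Fin 3} (hjk : (j = 0 ∧ k = 1) ∨ (j = 1 ∧ k = 0)) (f g : X3 → ℝ) :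
    DD f g = Dj j f g + Dj k f g + Dj 2 f g := by
  unfold DD
  rw [Fin.sum_univ_three]
  rcases hjk with ⟨rfl, rfl⟩ | ⟨rfl, rfl⟩
  · rfl
  · ring

/-- the test function -/
def vv (L : ℕ) (r : ℝ) (j k : Fin 3) (x : X3) : ℝ := zt r (x k) * (th L (x j) * zt r (x j))

structure Dat (L : ℕ) (j k : Fin 3) (Cw r : ℝ) : Prop where
  hjk : (j = 0 ∧ k = 1) ∨ (j = 1 ∧ k = 0)
  w1 : WSol (fun _ => 1) (fun _ => 0) Cw
  wL : WSol (th L) (hh L) Cw
  hr : 1 ≤ r

lemma Dat.ne {L : ℕ} {j k : Fin 3} {Cw r : ℝ} (h : Dat L j k Cw r) : j ≠ k ∧ j ≠ 2 ∧ k ≠ 2 := by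
  rcases h.hjk with ⟨rfl, rfl⟩ | ⟨rfl, rfl⟩ <;> decide

lemma Dat.mem {L : ℕ} {j k : Fin 3} {Cw r : ℝ} (h : Dat L j k Cw r) : j ∈ S2 ∧ k ∈ S2 := by
  rcases h.hjk with ⟨rfl, rfl⟩ | ⟨rfl, rfl⟩ <;> decide

section
variable {L : ℕ} {j k : Fin 3} {Cw r : ℝ}

lemma Dat.lcz (h : Dat L j k Cw r) : LC1 (zt r) := by
  have h1 := lc_of_wsol h.w1 h.hr
  simpa using h1

lemma Dat.blz (h : Dat L j k Cw r) (hbl : S_bl) (i : Fin 3) : BL (fun x : X3 => zt r (x i)) :=
  hbl.2.2.2.2.2 (zt r) i h.lcz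

lemma Dat.blG (h : Dat L j k Cw r) (hbl : S_bl) (i : Fin 3) :
    BL (fun x : X3 => th L (x i) * zt r (x i)) :=
  hbl.2.2.2.2.2 (fun y => th L y * zt r y) i (lc_of_wsol h.wL h.hr)

lemma Dat.blv (h : Dat L j k Cw r) (hbl : S_bl) : BL (vv L r j k) :=
  (hbl.1 _ _ (h.blz hbl k) (h.blG hbl j)).2.2

lemma Dat.boxv (h : Dat L j k Cw r) (hbl : S_bl) : Box S2 r (vv L r j k) := by
  have hr := h.hr
  refine ⟨(h.blv hbl).lip, fun x hx i hi => ?_, fun i hi x y => ?_⟩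
  · by_contra hc
    push Not at hc
    have h1 : i = 0 ∨ i = 1 := by
      unfold S2 at hi
      simpa using hi
    have h2 : i = j ∨ i = k := by
      rcases h.hjk with ⟨rfl, rfl⟩ | ⟨rfl, rfl⟩
      · exact h1
      · exact h1.symm
    have h3 := zt_zero (by linarith : 0 < r) hc
    apply hx
    unfold vv
    rcases h2 with rfl | rfl
    · rw [h3]; ring
    · rw [h3]; ring
  · have h1 : i = 2 := by
      unfold S2 at hi
      revert hi
      fin_cases i <;> simp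
    subst h1
    obtain ⟨-, h2, h3⟩ := h.ne
    unfold vv
    rw [Function.update_of_ne h2, Function.update_of_ne h3]

lemma Dat.vsq (h : Dat L j k Cw r) (x : X3) : vv L r j k x ^ 2 ≤ th L (x j) ^ 2 := by
  unfold vv
  have a1 := zt_nonneg r (x k)
  have a2 := zt_le r (x k)
  have a3 := zt_nonneg r (x j)
  have a4 := zt_le r (x j)
  have e : (zt r (x k) * (th L (x j) * zt r (x j))) ^ 2 =
      (zt r (x k) * zt r (x j)) ^ 2 * th L (x j) ^ 2 := by ring
  rw [e]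
  have h1 : (zt r (x k) * zt r (x j)) ^ 2 ≤ 1 := by
    have h2 : 0 ≤ zt r (x k) * zt r (x j) := mul_nonneg a1 a3
    have h3 : zt r (x k) * zt r (x j) ≤ 1 := mul_le_one₀ a2 a3 a4
    nlinarith
  calc _ ≤ 1 * th L (x j) ^ 2 := mul_le_mul_of_nonneg_right h1 (sq_nonneg _)
    _ = _ := one_mul _

lemma Dat.ipv (h : Dat L j k Cw r) (h1 : S_hm) (hbl : S_bl) :
    ∫ x, vv L r j k x ^ 2 ∂pm ≤ Cw := by
  have h2 := ev_int h1 h.wL.intF j
  have h3 := ev_val h1 h.wL.intF j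
  calc ∫ x, vv L r j k x ^ 2 ∂pm ≤ ∫ x : X3, th L (x j) ^ 2 ∂pm :=
        integral_mono (hbl.2.2.1 _ (h.blv hbl)).2.2.1 h2 fun x => h.vsq x
    _ = ∫ y, th L y ^ 2 ∂hm := h3
    _ ≤ Cw := h.wL.leF

lemma slice_v (h : Dat L j k Cw r) (x : X3) :
    sl j x (vv L r j k) = fun y => zt r (x k) * (th L y * zt r y) := by
  funext y
  obtain ⟨h1, h2, h3⟩ := h.ne
  unfold sl vv
  rw [Function.update_of_ne h1.symm, Function.update_self]

lemma slice_v' (h : Dat L j k Cw r) (x : X3) :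
    sl k x (vv L r j k) = fun y => (th L (x j) * zt r (x j)) * (1 * zt r y) := by
  funext y
  obtain ⟨h1, h2, h3⟩ := h.ne
  unfold sl vv
  rw [Function.update_of_ne h1, Function.update_self]
  ring

lemma Dat.DDv (h : Dat L j k Cw r) (h1 : S_hm) (hP : S_prod) (hbl : S_bl) (hform : S_form) :
    DD (vv L r j k) (vv L r j k) ≤ Cw + Cw ^ 2 := by
  have := hP.1
  have hr := h.hr
  have hb := h.blv hbl
  have e2 : Dj 2 (vv L r j k) (vv L r j k) = 0 :=
    Dj_ind 2 ((h.boxv hbl).ind 2 (by unfold S2; decide))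
  obtain ⟨hi, ei⟩ := hform.2.2.2.1 j _ _ hb hb
  obtain ⟨hi', ei'⟩ := hform.2.2.2.1 k _ _ hb hb
  set A := D1 (fun y => th L y * zt r y) (fun y => th L y * zt r y) with hA
  set B := D1 (fun y => (1:ℝ) * zt r y) (fun y => 1 * zt r y) with hB
  have hA0 : 0 ≤ A := D1_nonneg _
  have hAC : A ≤ Cw := h.wL.leD r hr
  have hB0 : 0 ≤ B := D1_nonneg _
  have hBC : B ≤ Cw := h.w1.leD r hr
  have e3 : (fun x => D1 (sl j x (vv L r j k)) (sl j x (vv L r j k))) =
      fun x : X3 => zt r (x k) ^ 2 * A := by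
    funext x
    rw [slice_v h x, D1_cmul]
  have e4 : (fun x => D1 (sl k x (vv L r j k)) (sl k x (vv L r j k))) =
      fun x : X3 => (th L (x j) * zt r (x j)) ^ 2 * B := by
    funext x
    rw [slice_v' h x, D1_cmul]
  rw [e3] at hi ei
  rw [e4] at hi' ei'
  have b1 : Dj j (vv L r j k) (vv L r j k) ≤ Cw := by
    rw [ei]
    calc ∫ x : X3, zt r (x k) ^ 2 * A ∂pm ≤ ∫ _x : X3, A ∂pm := by
          refine integral_mono hi (integrable_const _) fun x => ?_
          have a1 := zt_nonneg r (x k)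
          have a2 := zt_le r (x k)
          have : zt r (x k) ^ 2 ≤ 1 := by nlinarith
          calc zt r (x k) ^ 2 * A ≤ 1 * A := mul_le_mul_of_nonneg_right this hA0
            _ = A := one_mul _
      _ = A := by simp
      _ ≤ Cw := hAC
  have b2 : Dj k (vv L r j k) (vv L r j k) ≤ Cw ^ 2 := by
    rw [ei', integral_mul_const]
    have h2 : ∫ x : X3, (th L (x j) * zt r (x j)) ^ 2 ∂pm ≤ Cw := by
      calc ∫ x : X3, (th L (x j) * zt r (x j)) ^ 2 ∂pm ≤ ∫ x : X3, th L (x j) ^ 2 ∂pm := by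
            refine integral_mono (hbl.2.2.1 _ (h.blG hbl j)).2.2.1 (ev_int h1 h.wL.intF j)
              fun x => ?_
            show (th L (x j) * zt r (x j)) ^ 2 ≤ th L (x j) ^ 2
            rw [mul_pow]
            have a1 := zt_nonneg r (x j)
            have a2 := zt_le r (x j)
            have : zt r (x j) ^ 2 ≤ 1 := by nlinarith
            calc th L (x j) ^ 2 * zt r (x j) ^ 2 ≤ th L (x j) ^ 2 * 1 :=
                  mul_le_mul_of_nonneg_left this (sq_nonneg _)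
              _ = _ := mul_one _
        _ = ∫ y, th L y ^ 2 ∂hm := ev_val h1 h.wL.intF j
        _ ≤ Cw := h.wL.leF
    calc _ ≤ Cw * Cw := mul_le_mul h2 hBC hB0 h.wL.nonneg
      _ = Cw ^ 2 := by ring
  rw [DD_pair h.hjk, e2]
  linarith

end

/-- the data of the near minimiser -/
structure Ph (r M e D : ℝ) (k : Fin 3) (U φ : X3 → ℝ) : Prop where
  hU : Measurable U
  hUM : ∀ x, |U x| ≤ M
  box : Box S2 r φ
  nrm : ip φ φ = 1
  hv : ∀ v, Box S2 r v → |BB U φ v - e * ip φ v| ≤ √(Real.exp (-r)) * √(DD v v + 2 * ip v v)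
  hD : DD φ φ ≤ D
  av : ∀ x, ∫ y, zt r y * U (Function.update x k y) ∂hm = 0

section
variable {L : ℕ} {j k : Fin 3} {Cw r M e D : ℝ} {U φ : X3 → ℝ}

lemma S2_ne : S2.Nonempty := ⟨0, by unfold S2; decide⟩

lemma Ph.bl (p : Ph r M e D k U φ) (hr : 1 ≤ r) (hbl : S_bl) : BL φ :=
  hbl.2.2.2.1 S2 r φ p.box (by linarith) S2_ne

lemma Ph.sq (p : Ph r M e D k U φ) : ∫ x, φ x ^ 2 ∂pm = 1 := by
  have := p.nrm
  unfold ip at this
  rw [← this]
  refine integral_congr_ae (Filter.Eventually.of_forall fun x => ?_)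
  simp only
  ring

lemma Ph.blc (p : Ph r M e D k U φ) (hr : 1 ≤ r) (hbl : S_bl) (c : ℝ) :
    BL (fun x => φ x - c) :=
  (hbl.1 φ (fun _ => c) (p.bl hr hbl) (hbl.2.1 c)).2.1

lemma Ph.var (p : Ph r M e D k U φ) (hr : 1 ≤ r) (hP : S_prod) (hbl : S_bl) :
    ∫ x, (φ x - ∫ z, φ z ∂pm) ^ 2 ∂pm = 1 - (∫ z, φ z ∂pm) ^ 2 := by
  have := hP.1
  obtain ⟨h1, h2, h3, -, -⟩ := hbl.2.2.1 φ (p.bl hr hbl)
  set c := ∫ z, φ z ∂pm with hc
  have i1 : Integrable (fun x => φ x ^ 2 - 2 * c * φ x) pm := h3.sub (h2.const_mul (2 * c))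
  have e1 : (fun x => (φ x - c) ^ 2) = fun x => (φ x ^ 2 - 2 * c * φ x) + c ^ 2 := by
    funext x; ring
  rw [e1, integral_add i1 (integrable_const _), integral_sub h3 (h2.const_mul (2 * c)),
    integral_const_mul, p.sq, ← hc]
  simp
  ring

lemma Ph.c_le (p : Ph r M e D k U φ) (hr : 1 ≤ r) (hP : S_prod) (hbl : S_bl) :
    0 ≤ 1 - (∫ z, φ z ∂pm) ^ 2 := by
  rw [← p.var hr hP hbl]
  exact integral_nonneg fun x => sq_nonneg _

/-- the function multiplied with the harmonic -/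
lemma Ph.q_le (p : Ph r M e D k U φ) (hr : 1 ≤ r) (hL : L ≤ 4) (hj : j ∈ S2) (x : X3) :
    |hh L (x j) * φ x| ≤ 5 * r ^ 4 * |φ x| := by
  rw [abs_mul]
  by_cases h0 : φ x = 0
  · rw [h0]; simp
  · refine mul_le_mul_of_nonneg_right ?_ (abs_nonneg _)
    have h1 := p.box.supp x h0 j hj
    calc |hh L (x j)| ≤ 5 * ‖x j‖ ^ L := hh_le L _
      _ ≤ 5 * r ^ L := by
          have := pow_le_pow_left₀ (norm_nonneg _) h1 L
          linarith
      _ ≤ 5 * r ^ 4 := by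
          have := pow_le_pow_right₀ hr hL
          linarith

lemma q_meas (hbl : S_bl) (hφ : BL φ) : Measurable (fun x : X3 => hh L (x j) * φ x) :=
  ((hh_cont L).measurable.comp (measurable_pi_apply j)).mul (hbl.2.2.1 φ hφ).1

lemma Ph.q_bdd (p : Ph r M e D k U φ) (hr : 1 ≤ r) (hbl : S_bl) (hL : L ≤ 4) (hj : j ∈ S2) :
    ∃ K : ℝ, ∀ x : X3, |hh L (x j) * φ x| ≤ K := by
  obtain ⟨K, hK⟩ := (p.bl hr hbl).bdd
  refine ⟨5 * r ^ 4 * K, fun x => (p.q_le hr hL hj x).trans ?_⟩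
  exact mul_le_mul_of_nonneg_left (hK x) (by positivity)

lemma tail_ev (h1 : S_hm) (i : Fin 3) {n : ℕ} {Ct : ℝ}
    (ht : ∫ x, (if r / 2 < ‖x‖ then ‖x‖ ^ n else 0) ∂hm ≤ Ct * Real.exp (-r / 4)) :
    Integrable (fun x : X3 => if r / 2 < ‖x i‖ then ‖x i‖ ^ n else 0) pm ∧
    ∫ x : X3, (if r / 2 < ‖x i‖ then ‖x i‖ ^ n else 0) ∂pm ≤ Ct * Real.exp (-r / 4) := by
  have hi : Integrable (fun x : E3 => if r / 2 < ‖x‖ then ‖x‖ ^ n else 0) hm := by
    refine ((h1.2.2.2.2.1 n).1).mono' ?_ (Filter.Eventually.of_forall fun x => ?_)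
    · refine Measurable.aestronglyMeasurable ?_
      exact Measurable.ite (measurableSet_lt measurable_const measurable_norm)
        (measurable_norm.pow_const n) measurable_const
    · split_ifs with h
      · rw [Real.norm_of_nonneg (by positivity)]
      · simp
  refine ⟨ev_int h1 hi i, ?_⟩
  rw [ev_val h1 hi i]
  exact ht

/-- the tail term -/
lemma Ph.tail (p : Ph r M e D k U φ) (d : Dat L j k Cw r) (h1 : S_hm) (hP : S_prod)
    (hbl : S_bl) (hL : L ≤ 4) {Ct : ℝ} (hCt : 0 ≤ Ct)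
    (ht : ∫ x, (if r / 2 < ‖x‖ then ‖x‖ ^ 0 else 0) ∂hm ≤ Ct * Real.exp (-r / 4)) :
    |∫ x : X3, (1 - zt r (x k)) * (hh L (x j) * φ x) ∂pm| ≤
      √Ct * Real.exp (-r / 8) * (5 * r ^ 4) := by
  have := hP.1
  have hr := d.hr
  have hφ := p.bl hr hbl
  have bl1 : BL (fun x : X3 => 1 - zt r (x k)) :=
    (hbl.1 (fun _ => 1) _ (hbl.2.1 1) (d.blz hbl k)).2.1
  obtain ⟨m1, i1, i2, -, -⟩ := hbl.2.2.1 _ bl1
  have m2 := q_meas (L := L) (j := j) hbl hφ
  have b2 := p.q_bdd hr hbl hL d.mem.1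
  have i3 : Integrable (fun x : X3 => (hh L (x j) * φ x) ^ 2) pm := by
    have := Form.bint hP (m2.mul m2) (Form.mulb b2 b2)
    refine this.congr (Filter.Eventually.of_forall fun x => ?_)
    simp only [Pi.mul_apply]
    ring
  have i4 : Integrable (fun x : X3 => (1 - zt r (x k)) * (hh L (x j) * φ x)) pm :=
    Form.bint hP (m1.mul m2) (Form.mulb bl1.bdd b2)
  refine (cs i2 i3 i4).trans ?_
  refine mul_le_mul ?_ ?_ (Real.sqrt_nonneg _) (by positivity)
  · obtain ⟨i5, t5⟩ := tail_ev (r := r) h1 k ht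
    have h2 : ∫ x : X3, (1 - zt r (x k)) ^ 2 ∂pm ≤ Ct * Real.exp (-r / 8) ^ 2 := by
      calc _ ≤ ∫ x : X3, (if r / 2 < ‖x k‖ then ‖x k‖ ^ 0 else 0) ∂pm := by
            refine integral_mono i2 i5 fun x => ?_
            show (1 - zt r (x k)) ^ 2 ≤ if r / 2 < ‖x k‖ then ‖x k‖ ^ 0 else 0
            split_ifs with h
            · have a1 := zt_nonneg r (x k)
              have a2 := zt_le r (x k)
              rw [pow_zero]
              nlinarith
            · push Not at h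
              rw [zt_one (by linarith) h]
              norm_num
        _ ≤ Ct * Real.exp (-r / 4) := t5
        _ = Ct * Real.exp (-r / 8) ^ 2 := by
            rw [← Real.exp_nat_mul]
            congr 2
            push_cast
            ring
    calc √(∫ x : X3, (1 - zt r (x k)) ^ 2 ∂pm) ≤ √(Ct * Real.exp (-r / 8) ^ 2) :=
          Real.sqrt_le_sqrt h2
      _ = √Ct * Real.exp (-r / 8) := by
          rw [Real.sqrt_mul hCt, Real.sqrt_sq (Real.exp_pos _).le]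
  · have h2 : ∫ x : X3, (hh L (x j) * φ x) ^ 2 ∂pm ≤ (5 * r ^ 4) ^ 2 := by
      calc _ ≤ ∫ x : X3, (5 * r ^ 4) ^ 2 * φ x ^ 2 ∂pm := by
            refine integral_mono i3 ((hbl.2.2.1 φ hφ).2.2.1.const_mul _) fun x => ?_
            have h3 := p.q_le hr hL d.mem.1 x
            show (hh L (x j) * φ x) ^ 2 ≤ (5 * r ^ 4) ^ 2 * φ x ^ 2
            calc (hh L (x j) * φ x) ^ 2 = |hh L (x j) * φ x| ^ 2 := (sq_abs _).symm
              _ ≤ (5 * r ^ 4 * |φ x|) ^ 2 := pow_le_pow_left₀ (abs_nonneg _) h3 2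
              _ = _ := by rw [mul_pow, sq_abs]
        _ = (5 * r ^ 4) ^ 2 := by rw [integral_const_mul, p.sq, mul_one]
    calc _ ≤ √((5 * r ^ 4) ^ 2) := Real.sqrt_le_sqrt h2
      _ = 5 * r ^ 4 := Real.sqrt_sq (by positivity)

/-- orthogonality to the constants -/
lemma v_zero (d : Dat L j k Cw r) (hP : S_prod) (hbl : S_bl)
    (hG : ∫ y, th L y * zt r y ∂hm = 0) : ∫ x, vv L r j k x ∂pm = 0 := by
  have hi := (hbl.2.2.1 _ (d.blv hbl)).2.1
  rw [← (hP.2.2.1 j _ hi).2.2]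
  have e : Pj j (vv L r j k) = fun _ => 0 := by
    funext x
    unfold Pj
    have h1 := slice_v d x
    unfold sl at h1
    have h2 : ∀ y, vv L r j k (Function.update x j y) = zt r (x k) * (th L y * zt r y) :=
      fun y => congrFun h1 y
    simp only [h2]
    rw [integral_const_mul, hG, mul_zero]
  rw [e]
  simp

lemma Ph.uv (p : Ph r M e D k U φ) (d : Dat L j k Cw r) (hP : S_prod) (hbl : S_bl) :
    Integrable (fun x => U x * vv L r j k x) pm ∧ ∫ x, U x * vv L r j k x ∂pm = 0 := by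
  have hb := d.blv hbl
  have hi : Integrable (fun x => U x * vv L r j k x) pm :=
    Form.bint hP (p.hU.mul (hbl.2.2.1 _ hb).1) (Form.mulb ⟨M, p.hUM⟩ hb.bdd)
  refine ⟨hi, ?_⟩
  rw [← (hP.2.2.1 k _ hi).2.2]
  have e : Pj k (fun x => U x * vv L r j k x) = fun _ => 0 := by
    funext x
    unfold Pj
    have h1 := slice_v' d x
    unfold sl at h1
    have h2 : ∀ y, U (Function.update x k y) * vv L r j k (Function.update x k y) =
        (th L (x j) * zt r (x j)) * (zt r y * U (Function.update x k y)) := fun y => by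
      rw [congrFun h1 y]
      ring
    simp only [h2]
    rw [integral_const_mul, p.av, mul_zero]
  rw [e]
  simp

lemma int_mul_sub {f g : X3 → ℝ} (c : ℝ) (hfg : Integrable (fun x => f x * g x) pm)
    (hg : Integrable g pm) (h0 : ∫ x, g x ∂pm = 0) :
    ∫ x, f x * g x ∂pm = ∫ x, (f x - c) * g x ∂pm := by
  have e : (fun x => (f x - c) * g x) = fun x => f x * g x - c * g x := by
    funext x; ring
  rw [e, integral_sub hfg (hg.const_mul c), integral_const_mul, h0]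
  ring

/-- the first moment -/
lemma Ph.first (p : Ph r M e D k U φ) (d : Dat L j k Cw r) (h1 : S_hm) (hP : S_prod)
    (hbl : S_bl) (hform : S_form) (hlift : S_lift) (hL : L ≤ 4) (hM : 0 ≤ M)
    {Ct : ℝ} (hCt : 0 ≤ Ct)
    (ht : ∫ x, (if r / 2 < ‖x‖ then ‖x‖ ^ 0 else 0) ∂hm ≤ Ct * Real.exp (-r / 4))
    (hG : ∫ y, th L y * zt r y ∂hm = 0) :
    |∫ x : X3, hh L (x j) * φ x ∂pm| ≤
      Cw * Real.exp (-r / 8) * √D + Cw * Real.exp (-r / 8) * √Cw * √D +
      √Ct * Real.exp (-r / 8) * (5 * r ^ 4) +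
      Real.exp (-r / 8) * √(Cw + Cw ^ 2 + 2 * Cw) +
      |e| * (√(1 - (∫ z, φ z ∂pm) ^ 2) * √Cw) + M * (√(1 - (∫ z, φ z ∂pm) ^ 2) * √Cw) := by
  have := hP.1
  have hr := d.hr
  have hφ := p.bl hr hbl
  have hvb := d.blv hbl
  have hbox := d.boxv hbl
  have hCw : 0 ≤ Cw := d.wL.nonneg
  set c := ∫ z, φ z ∂pm with hc
  set E := Real.exp (-r / 8) with hE
  have hE0 : 0 < E := Real.exp_pos _
  obtain ⟨mφ, iφ, iφ2, -, -⟩ := hbl.2.2.1 φ hφ
  obtain ⟨mv, iv, iv2, -, -⟩ := hbl.2.2.1 _ hvb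
  have hDj : ∀ i, Dj i φ φ ≤ D := by
    intro i
    refine le_trans ?_ p.hD
    unfold DD
    exact Finset.single_le_sum (f := fun i => Dj i φ φ) (fun i _ => Form.Dj_nonneg i φ)
      (Finset.mem_univ i)
  -- the first lift
  obtain ⟨-, l1⟩ := hlift (th L) (hh L) Cw d.wL r S2 j (fun x => zt r (x k)) φ hr (d.blz hbl k)
    (fun x y => by rw [Function.update_of_ne d.ne.1.symm]) p.box d.mem.1
  have z1 : √(ip (fun x : X3 => zt r (x k)) fun x => zt r (x k)) ≤ 1 := by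
    refine (Real.sqrt_le_left zero_le_one).2 ?_
    rw [one_pow]
    unfold ip
    calc ∫ x : X3, zt r (x k) * zt r (x k) ∂pm ≤ ∫ _x : X3, (1:ℝ) ∂pm := by
          refine integral_mono (Form.ipint hP hbl (d.blz hbl k) (d.blz hbl k))
            (integrable_const _) fun x => ?_
          exact mul_le_one₀ (zt_le _ _) (zt_nonneg _ _) (zt_le _ _)
      _ = 1 := by simp
  have l1' : |Dj j (vv L r j k) φ - ∫ x : X3, zt r (x k) * hh L (x j) * φ x ∂pm| ≤
      Cw * E * √D := by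
    refine l1.trans ?_
    have h2 : √(Dj j φ φ) ≤ √D := Real.sqrt_le_sqrt (hDj j)
    calc Cw * Real.exp (-r / 8) * √(ip (fun x : X3 => zt r (x k)) fun x => zt r (x k)) *
          √(Dj j φ φ) ≤ Cw * Real.exp (-r / 8) * 1 * √D := by gcongr
      _ = _ := by rw [mul_one]
  -- the second lift
  obtain ⟨-, l2⟩ := hlift (fun _ => 1) (fun _ => 0) Cw d.w1 r S2 k
    (fun x => th L (x j) * zt r (x j)) φ hr (d.blG hbl j)
    (fun x y => by rw [Function.update_of_ne d.ne.1]) p.box d.mem.2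
  have e2 : (fun x : X3 => th L (x j) * zt r (x j) * (1 * zt r (x k))) = vv L r j k := by
    funext x
    unfold vv
    ring
  rw [e2] at l2
  have e3 : ∫ x : X3, th L (x j) * zt r (x j) * 0 * φ x ∂pm = 0 := by simp
  rw [e3, sub_zero] at l2
  have z2 : ip (fun x : X3 => th L (x j) * zt r (x j)) (fun x => th L (x j) * zt r (x j)) ≤
      Cw := by
    unfold ip
    calc ∫ x : X3, (th L (x j) * zt r (x j)) * (th L (x j) * zt r (x j)) ∂pm ≤
          ∫ x : X3, th L (x j) ^ 2 ∂pm := by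
          refine integral_mono (Form.ipint hP hbl (d.blG hbl j) (d.blG hbl j))
            (ev_int h1 d.wL.intF j) fun x => ?_
          show (th L (x j) * zt r (x j)) * (th L (x j) * zt r (x j)) ≤ th L (x j) ^ 2
          have a1 := zt_nonneg r (x j)
          have a2 := zt_le r (x j)
          have h3 : zt r (x j) ^ 2 ≤ 1 := by nlinarith
          calc (th L (x j) * zt r (x j)) * (th L (x j) * zt r (x j)) =
                th L (x j) ^ 2 * zt r (x j) ^ 2 := by ring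
            _ ≤ th L (x j) ^ 2 * 1 := mul_le_mul_of_nonneg_left h3 (sq_nonneg _)
            _ = _ := mul_one _
      _ = ∫ y, th L y ^ 2 ∂hm := ev_val h1 d.wL.intF j
      _ ≤ Cw := d.wL.leF
  have l2' : |Dj k (vv L r j k) φ| ≤ Cw * E * √Cw * √D := by
    refine l2.trans ?_
    have h2 : √(Dj k φ φ) ≤ √D := Real.sqrt_le_sqrt (hDj k)
    have h3 := Real.sqrt_le_sqrt z2
    gcongr
  -- the equation of the near minimiser
  have l3 := p.hv _ hbox
  have d2 : Dj 2 (vv L r j k) φ = 0 := Dj_ind 2 (hbox.ind 2 (by unfold S2; decide))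
  have e4 : DD φ (vv L r j k) = Dj j (vv L r j k) φ + Dj k (vv L r j k) φ := by
    have : DD φ (vv L r j k) = DD (vv L r j k) φ := by
      unfold DD
      exact Finset.sum_congr rfl fun i _ => Form.Dj_comm i _ _
    rw [this, DD_pair d.hjk, d2, add_zero]
  have ipv : ip (vv L r j k) (vv L r j k) ≤ Cw := by
    have h2 := d.ipv h1 hbl
    refine le_trans (le_of_eq ?_) h2
    unfold ip
    refine integral_congr_ae (Filter.Eventually.of_forall fun x => ?_)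
    simp only
    ring
  have l3' : |BB U φ (vv L r j k) - e * ip φ (vv L r j k)| ≤
      E * √(Cw + Cw ^ 2 + 2 * Cw) := by
    refine l3.trans ?_
    have h2 := d.DDv h1 hP hbl hform
    have h3 : √(Real.exp (-r)) ≤ E := by
      rw [Real.sqrt_le_left hE0.le]
      rw [hE, ← Real.exp_nat_mul]
      apply Real.exp_le_exp.2
      push_cast
      linarith
    have h4 : √(DD (vv L r j k) (vv L r j k) + 2 * ip (vv L r j k) (vv L r j k)) ≤
        √(Cw + Cw ^ 2 + 2 * Cw) := Real.sqrt_le_sqrt (by linarith)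
    gcongr
  -- the two integrals
  have bc := p.blc hr hbl c
  obtain ⟨mc, ic, ic2, -, -⟩ := hbl.2.2.1 _ bc
  have hvar := p.var hr hP hbl
  rw [← hc] at hvar
  have hsv : √(∫ x, vv L r j k x ^ 2 ∂pm) ≤ √Cw := Real.sqrt_le_sqrt (d.ipv h1 hbl)
  have i5 : |ip φ (vv L r j k)| ≤ √(1 - c ^ 2) * √Cw := by
    have h2 : ip φ (vv L r j k) = ∫ x, (φ x - c) * vv L r j k x ∂pm := by
      unfold ip
      exact int_mul_sub c (Form.ipint hP hbl hφ hvb) iv (v_zero d hP hbl hG)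
    rw [h2]
    refine (cs ic2 iv2 (Form.ipint hP hbl bc hvb)).trans ?_
    rw [hvar]
    gcongr
  obtain ⟨iu, zu⟩ := p.uv d hP hbl
  have i6 : |∫ x, U x * φ x * vv L r j k x ∂pm| ≤ M * (√(1 - c ^ 2) * √Cw) := by
    have iu1 : Integrable (fun x => φ x * (U x * vv L r j k x)) pm :=
      Form.bint hP (mφ.mul (p.hU.mul mv)) (Form.mulb hφ.bdd (Form.mulb ⟨M, p.hUM⟩ hvb.bdd))
    have h2 : ∫ x, U x * φ x * vv L r j k x ∂pm =
        ∫ x, (φ x - c) * (U x * vv L r j k x) ∂pm := by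
      rw [← int_mul_sub c iu1 iu zu]
      refine integral_congr_ae (Filter.Eventually.of_forall fun x => ?_)
      simp only
      ring
    rw [h2]
    have iu2 : Integrable (fun x => (U x * vv L r j k x) ^ 2) pm := by
      have := Form.bint hP ((p.hU.mul mv).mul (p.hU.mul mv))
        (Form.mulb (Form.mulb ⟨M, p.hUM⟩ hvb.bdd) (Form.mulb ⟨M, p.hUM⟩ hvb.bdd))
      refine this.congr (Filter.Eventually.of_forall fun x => ?_)
      simp only [Pi.mul_apply]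
      ring
    have iu3 : Integrable (fun x => (φ x - c) * (U x * vv L r j k x)) pm :=
      Form.bint hP (mc.mul (p.hU.mul mv)) (Form.mulb bc.bdd (Form.mulb ⟨M, p.hUM⟩ hvb.bdd))
    refine (cs ic2 iu2 iu3).trans ?_
    rw [hvar]
    have h3 : ∫ x, (U x * vv L r j k x) ^ 2 ∂pm ≤ M ^ 2 * Cw := by
      calc ∫ x, (U x * vv L r j k x) ^ 2 ∂pm ≤ ∫ x, M ^ 2 * vv L r j k x ^ 2 ∂pm := by
            refine integral_mono iu2 (iv2.const_mul _) fun x => ?_
            show (U x * vv L r j k x) ^ 2 ≤ M ^ 2 * vv L r j k x ^ 2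
            rw [mul_pow]
            refine mul_le_mul_of_nonneg_right ?_ (sq_nonneg _)
            rw [← sq_abs (U x)]
            exact pow_le_pow_left₀ (abs_nonneg _) (p.hUM x) 2
        _ = M ^ 2 * ∫ x, vv L r j k x ^ 2 ∂pm := integral_const_mul _ _
        _ ≤ M ^ 2 * Cw := mul_le_mul_of_nonneg_left (d.ipv h1 hbl) (sq_nonneg _)
    calc √(1 - c ^ 2) * √(∫ x, (U x * vv L r j k x) ^ 2 ∂pm) ≤ √(1 - c ^ 2) * √(M ^ 2 * Cw) :=
          mul_le_mul_of_nonneg_left (Real.sqrt_le_sqrt h3) (Real.sqrt_nonneg _)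
      _ = M * (√(1 - c ^ 2) * √Cw) := by
          rw [Real.sqrt_mul (sq_nonneg M), Real.sqrt_sq hM]
          ring
  -- conclusion
  have t1 := p.tail d h1 hP hbl hL hCt ht
  have m2 := q_meas (L := L) (j := j) hbl hφ
  have b2 := p.q_bdd hr hbl hL d.mem.1
  have bl1 : BL (fun x : X3 => 1 - zt r (x k)) :=
    (hbl.1 (fun _ => 1) _ (hbl.2.1 1) (d.blz hbl k)).2.1
  have i7 : Integrable (fun x : X3 => (1 - zt r (x k)) * (hh L (x j) * φ x)) pm :=
    Form.bint hP ((hbl.2.2.1 _ bl1).1.mul m2) (Form.mulb bl1.bdd b2)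
  have i8 : Integrable (fun x : X3 => zt r (x k) * hh L (x j) * φ x) pm := by
    have := Form.bint hP ((hbl.2.2.1 _ (d.blz hbl k)).1.mul m2) (Form.mulb (d.blz hbl k).bdd b2)
    refine this.congr (Filter.Eventually.of_forall fun x => ?_)
    simp only [Pi.mul_apply]
    ring
  have e5 : ∫ x : X3, hh L (x j) * φ x ∂pm =
      (∫ x : X3, zt r (x k) * hh L (x j) * φ x ∂pm) +
        ∫ x : X3, (1 - zt r (x k)) * (hh L (x j) * φ x) ∂pm := by
    rw [← integral_add i8 i7]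
    refine integral_congr_ae (Filter.Eventually.of_forall fun x => ?_)
    simp only
    ring
  have e6 : BB U φ (vv L r j k) = DD φ (vv L r j k) + ∫ x, U x * φ x * vv L r j k x ∂pm := rfl
  rw [e6, e4] at l3'
  have i9 : |e * ip φ (vv L r j k)| ≤ |e| * (√(1 - c ^ 2) * √Cw) := by
    rw [abs_mul]
    exact mul_le_mul_of_nonneg_left i5 (abs_nonneg _)
  rw [e5]
  rw [abs_le] at l1' l2' l3' i6 i9 t1 ⊢
  constructor <;> linarith [l1'.1, l1'.2, l2'.1, l2'.2, l3'.1, l3'.2, i6.1, i6.2, i9.1, i9.2,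
    t1.1, t1.2]

/-- the second moment -/
lemma Ph.second (p : Ph r M e D k U φ) (d : Dat L j k Cw r) (h1 : S_hm) (hP : S_prod)
    (hbl : S_bl) (hL : L ≤ 4) {Ct : ℝ}
    (ht : ∫ x, (if r / 2 < ‖x‖ then ‖x‖ ^ L else 0) ∂hm ≤ Ct * Real.exp (-r / 4))
    (hq0 : ∫ y, hh L y ∂hm = 0) :
    |∫ x : X3, hh L (x j) * φ x ^ 2 ∂pm| ≤
      2 * |∫ x : X3, hh L (x j) * φ x ∂pm| + 5 * r ^ 4 * (1 - (∫ z, φ z ∂pm) ^ 2) +
        5 * (Ct * Real.exp (-r / 4)) := by
  have := hP.1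
  have hr := d.hr
  have hφ := p.bl hr hbl
  set c := ∫ z, φ z ∂pm with hc
  have hvar := p.var hr hP hbl
  have hc1 := p.c_le hr hP hbl
  rw [← hc] at hvar hc1
  have hcabs : |c| ≤ 1 := by
    rw [abs_le]
    constructor <;> nlinarith
  obtain ⟨mφ, iφ, iφ2, -, -⟩ := hbl.2.2.1 φ hφ
  obtain ⟨mc, ic, ic2, -, -⟩ := hbl.2.2.1 _ (p.blc hr hbl c)
  have m2 := q_meas (L := L) (j := j) hbl hφ
  have b2 := p.q_bdd hr hbl hL d.mem.1
  -- integrability
  have iq : Integrable (fun x : E3 => hh L x) hm := by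
    refine (((h1.2.2.2.2.1 L).1).const_mul 5).mono' (hh_cont L).aestronglyMeasurable
      (Filter.Eventually.of_forall fun x => ?_)
    rw [Real.norm_eq_abs]
    exact hh_le L x
  have iq1 : Integrable (fun x : X3 => hh L (x j)) pm := ev_int h1 iq j
  have vq1 : ∫ x : X3, hh L (x j) ∂pm = 0 := by rw [ev_val h1 iq j, hq0]
  have iq2 : Integrable (fun x : X3 => hh L (x j) * φ x) pm := Form.bint hP m2 b2
  have iq3 : Integrable (fun x : X3 => hh L (x j) * φ x ^ 2) pm := by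
    have := Form.bint hP (m2.mul mφ) (Form.mulb b2 hφ.bdd)
    refine this.congr (Filter.Eventually.of_forall fun x => ?_)
    simp only [Pi.mul_apply]
    ring
  have iq4 : Integrable (fun x : X3 => hh L (x j) * (φ x - c) ^ 2) pm := by
    have : Integrable (fun x : X3 => (hh L (x j) * φ x ^ 2 - 2 * c * (hh L (x j) * φ x)) +
        c ^ 2 * hh L (x j)) pm := (iq3.sub (iq2.const_mul _)).add (iq1.const_mul _)
    refine this.congr (Filter.Eventually.of_forall fun x => ?_)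
    simp only
    ring
  have e1 : ∫ x : X3, hh L (x j) * φ x ^ 2 ∂pm =
      2 * c * (∫ x : X3, hh L (x j) * φ x ∂pm) + ∫ x : X3, hh L (x j) * (φ x - c) ^ 2 ∂pm := by
    have i5 : Integrable (fun x : X3 => 2 * c * (hh L (x j) * φ x) +
        hh L (x j) * (φ x - c) ^ 2) pm := (iq2.const_mul _).add iq4
    have e2 : ∫ x : X3, hh L (x j) * φ x ^ 2 ∂pm = ∫ x : X3, ((2 * c * (hh L (x j) * φ x) +
        hh L (x j) * (φ x - c) ^ 2) - c ^ 2 * hh L (x j)) ∂pm := by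
      refine integral_congr_ae (Filter.Eventually.of_forall fun x => ?_)
      simp only
      ring
    rw [e2, integral_sub i5 (iq1.const_mul _), integral_add (iq2.const_mul _) iq4,
      integral_const_mul, integral_const_mul, vq1]
    ring
  -- the quadratic term
  obtain ⟨i6, t6⟩ := tail_ev (r := r) h1 j ht
  have h3 : |∫ x : X3, hh L (x j) * (φ x - c) ^ 2 ∂pm| ≤
      5 * r ^ 4 * (1 - c ^ 2) + 5 * (Ct * Real.exp (-r / 4)) := by
    calc |∫ x : X3, hh L (x j) * (φ x - c) ^ 2 ∂pm| ≤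
          ∫ x : X3, |hh L (x j) * (φ x - c) ^ 2| ∂pm := abs_integral_le_integral_abs
      _ ≤ ∫ x : X3, (5 * r ^ 4 * (φ x - c) ^ 2 +
          5 * (if r / 2 < ‖x j‖ then ‖x j‖ ^ L else 0)) ∂pm := by
          refine integral_mono iq4.abs ((ic2.const_mul _).add (i6.const_mul _)) fun x => ?_
          show |hh L (x j) * (φ x - c) ^ 2| ≤ 5 * r ^ 4 * (φ x - c) ^ 2 +
            5 * (if r / 2 < ‖x j‖ then ‖x j‖ ^ L else 0)
          rw [abs_mul, abs_of_nonneg (sq_nonneg (φ x - c))]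
          by_cases hx : ‖x j‖ ≤ r
          · have h4 : |hh L (x j)| ≤ 5 * r ^ 4 := by
              have h5 := pow_le_pow_left₀ (norm_nonneg _) hx L
              have h6 := pow_le_pow_right₀ hr hL
              have h7 := hh_le L (x j)
              linarith
            have h8 := mul_le_mul_of_nonneg_right h4 (sq_nonneg (φ x - c))
            have h9 : (0:ℝ) ≤ if r / 2 < ‖x j‖ then ‖x j‖ ^ L else 0 := by
              split_ifs
              · positivity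
              · exact le_rfl
            linarith
          · push Not at hx
            have h4 : φ x = 0 := by
              by_contra hne
              exact absurd (p.box.supp x hne j d.mem.1) (not_le.2 hx)
            rw [if_pos (by linarith), h4]
            have h5 := hh_le L (x j)
            have h6 : (0 - c) ^ 2 ≤ 1 := by nlinarith [abs_nonneg c, sq_abs c]
            have h7 : 0 ≤ 5 * r ^ 4 * (0 - c) ^ 2 := by positivity
            have h8 : |hh L (x j)| * (0 - c) ^ 2 ≤ |hh L (x j)| * 1 :=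
              mul_le_mul_of_nonneg_left h6 (abs_nonneg _)
            linarith
      _ = 5 * r ^ 4 * (1 - c ^ 2) +
          5 * ∫ x : X3, (if r / 2 < ‖x j‖ then ‖x j‖ ^ L else 0) ∂pm := by
          rw [integral_add (ic2.const_mul _) (i6.const_mul _), integral_const_mul,
            integral_const_mul, hvar]
      _ ≤ _ := by linarith
  rw [e1]
  calc |2 * c * (∫ x : X3, hh L (x j) * φ x ∂pm) + ∫ x : X3, hh L (x j) * (φ x - c) ^ 2 ∂pm| ≤
        |2 * c * (∫ x : X3, hh L (x j) * φ x ∂pm)| +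
          |∫ x : X3, hh L (x j) * (φ x - c) ^ 2 ∂pm| := abs_add_le _ _
    _ ≤ 2 * |∫ x : X3, hh L (x j) * φ x ∂pm| +
        (5 * r ^ 4 * (1 - c ^ 2) + 5 * (Ct * Real.exp (-r / 4))) := by
        refine add_le_add ?_ h3
        rw [abs_mul, abs_mul, abs_two]
        have := mul_le_mul_of_nonneg_right hcabs (abs_nonneg (∫ x : X3, hh L (x j) * φ x ∂pm))
        nlinarith
    _ = _ := by ring

end

/-- the harmonics against radial weights -/
lemma harm_th (hz : S_harm0) (h1 : S_hm) {L : ℕ} (hL1 : 1 ≤ L) (hL4 : L ≤ 4) (r : ℝ) :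
    ∫ y, hh L y ∂hm = 0 ∧ ∫ y, th L y * zt r y ∂hm = 0 := by
  have hmo := h1.2.2.2.2.1
  constructor
  · have h2 := (hz L (fun _ => 1) hL1 hL4 (by simpa using (hmo L).1)).2
    simpa using h2
  · have hL : (1:ℝ) ≤ (L:ℝ) := by exact_mod_cast hL1
    have h3 : Integrable (fun x : E3 => ‖x‖ ^ L *
        ((2 / (L:ℝ) + ‖x‖ / ((L:ℝ) + 1)) * zf r ‖x‖)) hm := by
      have h4 : Integrable (fun x : E3 => 2 * ‖x‖ ^ L + ‖x‖ ^ (L + 1)) hm :=
        ((hmo L).1.const_mul 2).add (hmo (L + 1)).1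
      refine h4.mono' ?_ (Filter.Eventually.of_forall fun x => ?_)
      · refine Continuous.aestronglyMeasurable ?_
        have := (zf_cont r).comp (continuous_norm (E := E3))
        exact (continuous_norm.pow L).mul ((by fun_prop : Continuous fun x : E3 =>
          2 / (L:ℝ) + ‖x‖ / ((L:ℝ) + 1)).mul this)
      · have a1 : 0 ≤ zf r ‖x‖ := zt_nonneg r x
        have a2 : zf r ‖x‖ ≤ 1 := zt_le r x
        have a3 := norm_nonneg x
        rw [Real.norm_of_nonneg (by positivity)]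
        have a4 : 2 / (L:ℝ) ≤ 2 := div_le_self (by norm_num) hL
        have a5 : ‖x‖ / ((L:ℝ) + 1) ≤ ‖x‖ := div_le_self a3 (by linarith)
        have a6 : (2 / (L:ℝ) + ‖x‖ / ((L:ℝ) + 1)) * zf r ‖x‖ ≤ (2 + ‖x‖) * 1 :=
          mul_le_mul (by linarith) a2 a1 (by linarith)
        calc ‖x‖ ^ L * ((2 / (L:ℝ) + ‖x‖ / ((L:ℝ) + 1)) * zf r ‖x‖) ≤
              ‖x‖ ^ L * ((2 + ‖x‖) * 1) := mul_le_mul_of_nonneg_left a6 (by positivity)
          _ = 2 * ‖x‖ ^ L + ‖x‖ ^ (L + 1) := by ring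
    have h2 := (hz L (fun t => (2 / (L:ℝ) + t / ((L:ℝ) + 1)) * zf r t) hL1 hL4 h3).2
    rw [← h2]
    refine integral_congr_ae (Filter.Eventually.of_forall fun y => ?_)
    simp only
    unfold th
    rw [zt_eq]
    ring

lemma final_arith {Cw Ca Cb T K D r M E m e A1 A2 X : ℝ} (hCw : 0 ≤ Cw) (hCa : 1 ≤ Ca)
    (hT : 0 ≤ T) (hr : 1 ≤ r) (hE0 : 0 ≤ E) (hE1 : E ≤ 1) (hM0 : 0 ≤ M) (hM1 : M ≤ 1)
    (hm1 : m ≤ 1) (hm : m ≤ Ca * (M ^ 2 + E ^ 2)) (he : |e| ≤ Ca * (M ^ 2 + E ^ 2))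
    (hK : K = Cw * √D + Cw * √Cw * √D + 5 * √T + √(Cw + Cw ^ 2 + 2 * Cw))
    (hX0 : 0 ≤ X) (hX1 : r ^ 4 * M ^ 2 ≤ Cb ^ 2 * X) (hX2 : r ^ 4 * E ≤ X)
    (h1 : A1 ≤ Cw * E * √D + Cw * E * √Cw * √D + √T * E * (5 * r ^ 4) +
      E * √(Cw + Cw ^ 2 + 2 * Cw) + |e| * (√m * √Cw) + M * (√m * √Cw))
    (h2 : A2 ≤ 2 * A1 + 5 * r ^ 4 * m + 5 * (T * E ^ 2)) :
    A2 ≤ (2 * (K + 2 * (√Cw * Ca * (Cb ^ 2 + 1))) + 5 * Ca * (Cb ^ 2 + 1) + 5 * T) * X := by
  have r4 : 1 ≤ r ^ 4 := one_le_pow₀ hr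
  have hEX : E ≤ X := by nlinarith
  have hE2 : E ^ 2 ≤ E := by nlinarith
  have hE2X : E ^ 2 ≤ X := hE2.trans hEX
  have hM2X : M ^ 2 ≤ Cb ^ 2 * X := by nlinarith [sq_nonneg M]
  have hMEX : M * E ≤ X := by nlinarith
  have s1 : 0 ≤ √Cw := Real.sqrt_nonneg _
  have s2 : √m ≤ 1 := by
    refine (Real.sqrt_le_left zero_le_one).2 ?_
    rw [one_pow]; exact hm1
  have s20 : 0 ≤ √m := Real.sqrt_nonneg _
  have s3 : √m ≤ Ca * (M + E) := by
    refine (Real.sqrt_le_left (by positivity)).2 ?_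
    have e1 : M ^ 2 + E ^ 2 ≤ (M + E) ^ 2 := by nlinarith [mul_nonneg hM0 hE0]
    have e2 : Ca * (M ^ 2 + E ^ 2) ≤ Ca * (M + E) ^ 2 :=
      mul_le_mul_of_nonneg_left e1 (by linarith)
    have e3 : Ca * (M + E) ^ 2 ≤ Ca ^ 2 * (M + E) ^ 2 := by
      refine mul_le_mul_of_nonneg_right ?_ (sq_nonneg _)
      nlinarith
    calc m ≤ Ca * (M ^ 2 + E ^ 2) := hm
      _ ≤ Ca ^ 2 * (M + E) ^ 2 := e2.trans e3
      _ = (Ca * (M + E)) ^ 2 := by ring
  have sD : 0 ≤ √D := Real.sqrt_nonneg _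
  have sT : 0 ≤ √T := Real.sqrt_nonneg _
  have sQ : 0 ≤ √(Cw + Cw ^ 2 + 2 * Cw) := Real.sqrt_nonneg _
  have t1 : Cw * E * √D ≤ Cw * √D * X := by
    have := mul_le_mul_of_nonneg_left hEX (mul_nonneg hCw sD)
    linarith
  have t2 : Cw * E * √Cw * √D ≤ Cw * √Cw * √D * X := by
    have := mul_le_mul_of_nonneg_left hEX (mul_nonneg (mul_nonneg hCw s1) sD)
    linarith
  have t3 : √T * E * (5 * r ^ 4) ≤ 5 * √T * X := by
    have := mul_le_mul_of_nonneg_left hX2 (mul_nonneg (by norm_num : (0:ℝ) ≤ 5) sT)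
    linarith
  have t4 : E * √(Cw + Cw ^ 2 + 2 * Cw) ≤ √(Cw + Cw ^ 2 + 2 * Cw) * X := by
    have := mul_le_mul_of_nonneg_left hEX sQ
    linarith
  have t5 : |e| * (√m * √Cw) ≤ √Cw * Ca * (Cb ^ 2 + 1) * X := by
    have a1 : |e| ≤ Ca * ((Cb ^ 2 + 1) * X) :=
      he.trans (mul_le_mul_of_nonneg_left (by linarith) (by linarith))
    have a2 : √m * √Cw ≤ 1 * √Cw := mul_le_mul_of_nonneg_right s2 s1
    calc |e| * (√m * √Cw) ≤ Ca * ((Cb ^ 2 + 1) * X) * (1 * √Cw) :=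
          mul_le_mul a1 a2 (mul_nonneg s20 s1) (by positivity)
      _ = _ := by ring
  have t6 : M * (√m * √Cw) ≤ √Cw * Ca * (Cb ^ 2 + 1) * X := by
    have a1 : √m * √Cw ≤ Ca * (M + E) * √Cw := mul_le_mul_of_nonneg_right s3 s1
    have a2 : M * (M + E) ≤ (Cb ^ 2 + 1) * X := by nlinarith
    calc M * (√m * √Cw) ≤ M * (Ca * (M + E) * √Cw) := mul_le_mul_of_nonneg_left a1 hM0
      _ = √Cw * Ca * (M * (M + E)) := by ring
      _ ≤ √Cw * Ca * ((Cb ^ 2 + 1) * X) :=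
          mul_le_mul_of_nonneg_left a2 (mul_nonneg s1 (by linarith))
      _ = _ := by ring
  have t7 : 5 * r ^ 4 * m ≤ 5 * Ca * (Cb ^ 2 + 1) * X := by
    have a1 : r ^ 4 * m ≤ r ^ 4 * (Ca * (M ^ 2 + E ^ 2)) :=
      mul_le_mul_of_nonneg_left hm (by positivity)
    have a2 : r ^ 4 * (M ^ 2 + E ^ 2) ≤ (Cb ^ 2 + 1) * X := by
      have : r ^ 4 * E ^ 2 ≤ r ^ 4 * E := mul_le_mul_of_nonneg_left hE2 (by positivity)
      nlinarith
    have a3 := mul_le_mul_of_nonneg_left a2 (show 0 ≤ Ca by linarith)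
    nlinarith
  have t8 : 5 * (T * E ^ 2) ≤ 5 * T * X := by
    have := mul_le_mul_of_nonneg_left hE2X hT
    linarith
  rw [hK]
  linarith

end MomL

open MomL in
/-- D3 -/
theorem p_momL (hw : S_wlist) (hlift : S_lift) (hvar : S_var) (hapri : S_apri) (havg : S_avg)
    (hbd : S_bounds) (hz : S_harm0) (h1 : S_hm) (hP : S_prod) (hbl : S_bl) (hform : S_form) :
    S_momL := by
  intro g0 hg
  obtain ⟨Cw, w1, -, -, wt1, wt2, wt3, wt4⟩ := hw
  obtain ⟨Ca, M0, ra, hCa, hM0, hra, ha⟩ := hapri g0 hg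
  obtain ⟨Cb, hCb, hb⟩ := hbd
  choose Ct hCt using h1.2.2.2.2.2.1
  have wL : ∀ L : ℕ, 1 ≤ L → L ≤ 4 → WSol (th L) (hh L) Cw := by
    intro L hL1 hL4
    interval_cases L
    · exact wt1
    · exact wt2
    · exact wt3
    · exact wt4
  set T := ∑ i ∈ Finset.range 5, |Ct i| with hT
  have hT0 : 0 ≤ T := Finset.sum_nonneg fun i _ => abs_nonneg _
  have hTL : ∀ L, L ≤ 4 → Ct L ≤ T := fun L hL =>
    (le_abs_self _).trans (Finset.single_le_sum (f := fun i => |Ct i|) (fun i _ => abs_nonneg _)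
      (Finset.mem_range.2 (by omega)))
  set D := 2 * Ca with hD
  set K := Cw * √D + Cw * √Cw * √D + 5 * √T + √(Cw + Cw ^ 2 + 2 * Cw) with hK
  have hCw : 0 ≤ Cw := w1.nonneg
  have hK0 : 0 ≤ K := by positivity
  have hB0 : 0 ≤ 2 * (K + 2 * (√Cw * Ca * (Cb ^ 2 + 1))) + 5 * Ca * (Cb ^ 2 + 1) + 5 * T := by
    have : 0 ≤ Ca := by linarith
    positivity
  refine ⟨(2 * (K + 2 * (√Cw * Ca * (Cb ^ 2 + 1))) + 5 * Ca * (Cb ^ 2 + 1) + 5 * T) + 1,
    max (max ra 2) (max (Cb / M0) Cb), by linarith,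
    le_max_of_le_left (le_max_of_le_left hra), ?_⟩
  intro r a φ L j hr hra4 hφ hL1 hL4 hj
  have hr1 : ra ≤ r := (le_max_left _ _).trans ((le_max_left _ _).trans hr)
  have hr2 : (2:ℝ) ≤ r := (le_max_right _ _).trans ((le_max_left _ _).trans hr)
  have hr3 : Cb / M0 ≤ r := (le_max_left _ _).trans ((le_max_right _ _).trans hr)
  have hr4 : Cb ≤ r := (le_max_right _ _).trans ((le_max_right _ _).trans hr)
  have hr0 : 0 < r := by linarith
  have h1r : 1 ≤ r := by linarith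
  have hr8 : 8 * r ≤ r ^ 4 := by
    have : (2:ℝ) ^ 3 ≤ r ^ 3 := pow_le_pow_left₀ (by norm_num) hr2 3
    nlinarith
  have ha8 : 8 * r ≤ a := hr8.trans hra4
  have ha0 : 0 < a := by linarith
  obtain ⟨b1, -, b3, -, -, -⟩ := hb r a (2 * a) h1r ha8 le_rfl
  obtain ⟨v1, -, -, v4, -, v6, -⟩ := havg r a (2 * a) h1r ha8 le_rfl
  set M := Cb * r ^ 2 / a ^ 3 with hMd
  have hMn : 0 ≤ M := by positivity
  have hMr : M ≤ Cb / r := by
    rw [hMd, div_le_div_iff₀ (by positivity) hr0]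
    have h2 : r ^ 3 ≤ a ^ 3 := pow_le_pow_left₀ hr0.le (by linarith) 3
    have := mul_le_mul_of_nonneg_left h2 (show 0 ≤ Cb by linarith)
    nlinarith
  have hM1 : M ≤ 1 := hMr.trans (by rw [div_le_one hr0]; exact hr4)
  have hMM0 : M ≤ M0 := hMr.trans (by
    rw [div_le_iff₀ hr0]
    rw [div_le_iff₀ hM0] at hr3
    linarith)
  obtain ⟨e1, e2⟩ := ha S2 r M (V12 r a) S2_ne hr1 hMn hMM0 b1 b3 v4 v6
  obtain ⟨e3, e4⟩ := e2 φ hφ
  obtain ⟨-, -, -, d4⟩ := hvar S2 r (V12 r a) S2_ne h1r b1 fun x => (b3 x).trans hM1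
  set E := Real.exp (-r / 8) with hE
  have hE0 : 0 < E := Real.exp_pos _
  have hE1 : E ≤ 1 := by
    rw [hE]
    exact Real.exp_le_one_iff.2 (by linarith)
  have hEE : Real.exp (-r / 4) = E ^ 2 := by
    rw [hE, ← Real.exp_nat_mul]
    congr 1
    push_cast
    ring
  rw [hEE] at e1 e3 e4
  obtain ⟨k, hjk, hk⟩ : ∃ k : Fin 3, ((j = 0 ∧ k = 1) ∨ (j = 1 ∧ k = 0)) ∧ (k = 0 ∨ k = 1) := by
    rcases hj with rfl | rfl
    · exact ⟨1, by simp⟩
    · exact ⟨0, by simp⟩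
  have d : Dat L j k Cw r := ⟨hjk, w1, wL L hL1 hL4, h1r⟩
  have hDb : Ca * (M ^ 2 + E ^ 2) ≤ D := by
    rw [hD]
    have : M ^ 2 + E ^ 2 ≤ 2 := by nlinarith
    nlinarith
  have p : Ph r M (EE S2 r (V12 r a)) D k (V12 r a) φ :=
    { hU := b1
      hUM := b3
      box := hφ.box
      nrm := hφ.norm
      hv := fun v hv => d4 (Real.exp (-r)) φ v (Real.exp_pos _).le hφ.box hφ.norm hφ.le hv
      hD := e4.trans hDb
      av := fun x => v1 (zf r) x k (zf_cont r) hk }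
  obtain ⟨z0, zG⟩ := harm_th hz h1 hL1 hL4 r
  have tt : ∀ L : ℕ, L ≤ 4 →
      ∫ x : E3, (if r / 2 < ‖x‖ then ‖x‖ ^ L else 0) ∂hm ≤ T * Real.exp (-r / 4) := fun L hL =>
    (hCt L r h1r).trans (mul_le_mul_of_nonneg_right (hTL L hL) (Real.exp_pos _).le)
  have f1 := p.first d h1 hP hbl hform hlift hL4 hMn hT0 (tt 0 (by norm_num)) zG
  have f2 := p.second d h1 hP hbl hL4 (tt L hL4) z0
  rw [hEE] at f2
  set X := r ^ 8 * (1 / a ^ 6 + E) with hX
  have hX0 : 0 ≤ X := by positivity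
  have hX1 : r ^ 4 * M ^ 2 ≤ Cb ^ 2 * X := by
    have e5 : r ^ 4 * M ^ 2 = Cb ^ 2 * (r ^ 8 * (1 / a ^ 6)) := by
      rw [hMd]
      field_simp
    rw [e5]
    refine mul_le_mul_of_nonneg_left ?_ (sq_nonneg _)
    rw [hX]
    refine mul_le_mul_of_nonneg_left ?_ (by positivity)
    linarith
  have hX2 : r ^ 4 * E ≤ X := by
    have h2 : r ^ 4 ≤ r ^ 8 := pow_le_pow_right₀ h1r (by norm_num)
    have h3 : r ^ 4 * E ≤ r ^ 8 * E := mul_le_mul_of_nonneg_right h2 hE0.le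
    have h4 : r ^ 8 * E ≤ X := by
      rw [hX]
      refine mul_le_mul_of_nonneg_left ?_ (by positivity)
      have : 0 ≤ 1 / a ^ 6 := by positivity
      linarith
    exact h3.trans h4
  have fin := final_arith (Cb := Cb) hCw hCa hT0 h1r hE0.le hE1 hMn hM1
    (by linarith [sq_nonneg (∫ z, φ z ∂pm)]) e3 e1 hK hX0 hX1 hX2 f1 f2
  rw [mul_assoc, ← hX, add_mul, one_mul]
  linarith

end MolDis.H
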