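import Pool.Agent.Lib.MP_59f35a_mp.HStmts

/-!
# MP_59f35a_mp, piece H9: Newton's theorem (helper64)
-/

set_option autoImplicit false

noncomputable section

open MeasureTheory Metric Set Filter Topology
open scoped RealInnerProductSpace

namespace MolDis.H

namespace Newton

/-! ## the radial primitive -/

/-- primitive with `Th' (q) = w(√q)/2` -/
def Th (w : ℝ → ℝ) (q : ℝ) : ℝ := (1 / 2) * ∫ u in (0 : ℝ)..q, w (√u)

lemma hasDerivAt_Th {w : ℝ → ℝ} (hw : Continuous w) (q : ℝ) :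
    HasDerivAt (Th w) (w (√q) / 2) q := by
  have hc : Continuous fun u : ℝ => w (√u) := hw.comp Real.continuous_sqrt
  have h := intervalIntegral.integral_hasDerivAt_right (hc.intervalIntegrable 0 q)
    (hc.stronglyMeasurableAtFilter _ _) hc.continuousAt
  have h2 := h.const_mul (1 / 2 : ℝ)
  have h3 : (1 / 2 : ℝ) * w (√q) = w (√q) / 2 := by ring
  rw [h3] at h2
  exact h2

/-- the primitive as a function of the radius -/
def psi (w : ℝ → ℝ) (s : ℝ) : ℝ := Th w (s ^ 2)

lemma hasDerivAt_psi {w : ℝ → ℝ} (hw : Continuous w) (s : ℝ) :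
    HasDerivAt (psi w) (w |s| * s) s := by
  have h1 : HasDerivAt (fun s : ℝ => s ^ 2) (2 * s) s := by
    simpa using hasDerivAt_pow 2 s
  have h2 := (hasDerivAt_Th hw (s ^ 2)).comp s h1
  rw [Real.sqrt_sq_eq_abs] at h2
  have h3 : w |s| / 2 * (2 * s) = w |s| * s := by ring
  rw [h3] at h2
  exact h2

lemma contDiff_psi {w : ℝ → ℝ} (hw : Continuous w) : ContDiff ℝ 1 (psi w) := by
  rw [contDiff_one_iff_deriv]
  refine ⟨fun s => (hasDerivAt_psi hw s).differentiableAt, ?_⟩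
  have : deriv (psi w) = fun s => w |s| * s := by
    funext s
    exact (hasDerivAt_psi hw s).deriv
  rw [this]
  fun_prop

/-- `K`, with gradient `w(‖y‖) y` in the ball -/
def KK (w : ℝ → ℝ) (r : ℝ) (y : E3) : ℝ := psi w (min ‖y‖ r) - psi w r

lemma KK_zero {w : ℝ → ℝ} {r : ℝ} {y : E3} (h : r ≤ ‖y‖) : KK w r y = 0 := by
  unfold KK
  rw [min_eq_right h, sub_self]

lemma KK_lip {w : ℝ → ℝ} (hw : Continuous w) {r : ℝ} (hr : 0 < r) :
    ∃ C : NNReal, LipschitzWith C (KK w r) := by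
  obtain ⟨C, hC⟩ := (contDiff_psi hw).contDiffOn.exists_lipschitzOnWith one_ne_zero
    (convex_Icc 0 r) (isCompact_Icc (a := (0 : ℝ)) (b := r))
  refine ⟨C, ?_⟩
  refine LipschitzWith.of_dist_le_mul fun x y => ?_
  have hx : min ‖x‖ r ∈ Icc (0 : ℝ) r := ⟨le_min (norm_nonneg _) hr.le, min_le_right _ _⟩
  have hy : min ‖y‖ r ∈ Icc (0 : ℝ) r := ⟨le_min (norm_nonneg _) hr.le, min_le_right _ _⟩
  have h1 := hC.dist_le_mul _ hx _ hy
  have h2 : dist (KK w r x) (KK w r y) = dist (psi w (min ‖x‖ r)) (psi w (min ‖y‖ r)) := by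
    unfold KK
    rw [dist_sub_right]
  have h3 : dist (min ‖x‖ r) (min ‖y‖ r) ≤ dist x y := by
    rw [Real.dist_eq]
    refine (abs_min_sub_min_le_max _ _ _ _).trans ?_
    rw [sub_self, abs_zero]
    refine max_le ?_ dist_nonneg
    rw [dist_eq_norm]
    exact abs_norm_sub_norm_le x y
  rw [h2]
  exact h1.trans (mul_le_mul_of_nonneg_left h3 C.2)

lemma KK_supp (w : ℝ → ℝ) (r : ℝ) : HasCompactSupport (KK w r) := by
  refine HasCompactSupport.intro (isCompact_closedBall (0 : E3) r) fun y hy => KK_zero ?_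
  rw [mem_closedBall_zero_iff, not_le] at hy
  exact hy.le

lemma ec_apply (c d : Fin 3) : ec c d = if d = c then 1 else 0 := by
  simp [ec, PiLp.single_apply]

lemma KK_deriv {w : ℝ → ℝ} (hw : Continuous w) {r : ℝ} {y : E3} (hy : ‖y‖ < r) (c : Fin 3) :
    lineDeriv ℝ (KK w r) y (ec c) = w ‖y‖ * y c := by
  have h1 : HasFDerivAt (fun y : E3 => ‖y‖ ^ 2) (2 • (innerSL ℝ y)) y :=
    (hasStrictFDerivAt_norm_sq y).hasFDerivAt
  have h2 := (hasDerivAt_Th hw (‖y‖ ^ 2)).comp_hasFDerivAt y h1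
  have h3 : HasFDerivAt (KK w r) ((w (√(‖y‖ ^ 2)) / 2) • (2 • (innerSL ℝ y))) y := by
    refine (h2.sub_const (psi w r)).congr_of_eventuallyEq ?_
    have : ∀ᶠ z : E3 in 𝓝 y, ‖z‖ < r := continuous_norm.continuousAt.eventually_lt_const hy
    filter_upwards [this] with z hz
    unfold KK psi
    rw [min_eq_left hz.le]
    rfl
  rw [h3.hasLineDerivAt (ec c) |>.lineDeriv]
  rw [Real.sqrt_sq (norm_nonneg _)]
  simp [ec, EuclideanSpace.inner_single_right]
  ring

lemma KK_deriv' {w : ℝ → ℝ} {r : ℝ} {y : E3} (hy : r < ‖y‖) (v : E3) :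
    lineDeriv ℝ (KK w r) y v = 0 := by
  have h3 : HasFDerivAt (KK w r) (0 : E3 →L[ℝ] ℝ) y := by
    refine (hasFDerivAt_const (0 : ℝ) y).congr_of_eventuallyEq ?_
    have : ∀ᶠ z : E3 in 𝓝 y, r < ‖z‖ := continuous_norm.continuousAt.eventually_const_lt hy
    filter_upwards [this] with z hz
    exact KK_zero hz.le
  rw [h3.hasLineDerivAt v |>.lineDeriv]
  rfl

lemma KK_ae {w : ℝ → ℝ} (hw : Continuous w) {r : ℝ} (hr : 0 < r) (c : Fin 3) :
    ∀ᵐ y : E3, lineDeriv ℝ (KK w r) y (ec c) =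
      (closedBall (0 : E3) r).indicator (fun y => w ‖y‖ * y c) y := by
  have h1 : ∀ᵐ y : E3, y ∉ sphere (0 : E3) r := by
    rw [ae_iff]
    simp only [not_not]
    exact Measure.addHaar_sphere_of_ne_zero _ _ hr.ne'
  filter_upwards [h1] with y hy
  rw [mem_sphere_zero_iff_norm] at hy
  rcases lt_or_gt_of_ne hy with h | h
  · rw [KK_deriv hw h, indicator_of_mem]
    rw [mem_closedBall_zero_iff]
    exact h.le
  · rw [KK_deriv' h, indicator_of_notMem]
    rw [mem_closedBall_zero_iff]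
    exact not_le.2 h

/-! ## radial averages of harmonic functions -/

lemma flux {w : ℝ → ℝ} (hw : Continuous w) {r r' t : ℝ} (hr : 0 < r) (htr : |t| * r < r')
    (P Q : Fin 3 → E3 → ℝ) (hP : ∀ c, ∃ C : NNReal, LipschitzOnWith C (P c) (closedBall 0 r'))
    (hQ : ∀ c z, ‖z‖ < r' → HasLineDerivAt ℝ (P c) (Q c z) z (ec c))
    (hs : ∀ z : E3, ‖z‖ < r' → ∑ c, Q c z = 0) :
    ∑ c, ∫ y in closedBall (0 : E3) r, (w ‖y‖ * y c) * P c (t • y) = 0 := by
  obtain ⟨CK, hK⟩ := KK_lip hw hr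
  have hP' : ∀ c, ∃ (g : E3 → ℝ) (C : NNReal), LipschitzWith C g ∧
      EqOn (P c) g (closedBall 0 r') := by
    intro c
    obtain ⟨C, hC⟩ := hP c
    obtain ⟨g, h1, h2⟩ := hC.extend_real
    exact ⟨g, C, h1, h2⟩
  choose g C hg hPg using hP'
  have hsm : LipschitzWith (Real.nnabs t) (fun y : E3 => t • y) := by
    refine LipschitzWith.of_dist_le_mul fun x y => ?_
    rw [dist_smul₀]
    simp
  have hg' : ∀ c, LipschitzWith (C c * Real.nnabs t) (fun y : E3 => g c (t • y)) :=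
    fun c => (hg c).comp hsm
  have hnorm : ∀ y : E3, ‖y‖ ≤ r → ‖t • y‖ < r' := by
    intro y hy
    rw [norm_smul, Real.norm_eq_abs]
    exact (mul_le_mul_of_nonneg_left hy (abs_nonneg t)).trans_lt htr
  have h1 : ∀ c, ∫ y in closedBall (0 : E3) r, (w ‖y‖ * y c) * P c (t • y) =
      - ∫ y, lineDeriv ℝ (fun y : E3 => g c (t • y)) y (ec c) * KK w r y := by
    intro c
    rw [(hg' c).integral_lineDeriv_mul_eq hK (KK_supp w r) (ec c),
      ← integral_indicator measurableSet_closedBall, ← integral_neg]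
    refine integral_congr_ae ?_
    filter_upwards [KK_ae hw hr c] with y hy
    rw [lineDeriv_neg, hy]
    by_cases h : y ∈ closedBall (0 : E3) r
    · rw [indicator_of_mem h, indicator_of_mem h, neg_mul, neg_neg]
      rw [hPg c]
      rw [mem_closedBall_zero_iff] at h ⊢
      exact (hnorm y h).le
    · rw [indicator_of_notMem h, indicator_of_notMem h]
      ring
  have h2 : ∀ c, Integrable (fun y : E3 =>
      lineDeriv ℝ (fun y : E3 => g c (t • y)) y (ec c) * KK w r y) := by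
    intro c
    have := ((hg' c).locallyIntegrable_lineDeriv (μ := volume)
      (ec c)).integrable_smul_left_of_hasCompactSupport hK.continuous (KK_supp w r)
    refine this.congr (Eventually.of_forall fun y => ?_)
    simp only [smul_eq_mul]
    ring
  have h3 : ∀ y : E3, ∑ c, lineDeriv ℝ (fun y : E3 => g c (t • y)) y (ec c) * KK w r y = 0 := by
    intro y
    by_cases h : r ≤ ‖y‖
    · simp [KK_zero h]
    · rw [not_le] at h
      have h4 : ∀ c, lineDeriv ℝ (fun y : E3 => g c (t • y)) y (ec c) = t * Q c (t • y) := by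
        intro c
        have h5 : HasLineDerivAt ℝ (fun y : E3 => g c (t • y)) (t * Q c (t • y)) y (ec c) := by
          have h6 : HasDerivAt (fun s : ℝ => P c (t • y + s • ec c)) (Q c (t • y)) 0 :=
            hQ c _ (hnorm y h.le)
          have h7 : HasDerivAt (fun s : ℝ => t * s) t 0 := by
            simpa using (hasDerivAt_id (0 : ℝ)).const_mul t
          have h6' : HasDerivAt (fun s : ℝ => P c (t • y + s • ec c)) (Q c (t • y)) (t * 0) := by
            rw [mul_zero]; exact h6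
          have h8 := h6'.comp (0 : ℝ) h7
          have h9 : HasDerivAt (fun s : ℝ => g c (t • (y + s • ec c))) (Q c (t • y) * t) 0 := by
            refine h8.congr_of_eventuallyEq ?_
            have h10 : ∀ᶠ s : ℝ in 𝓝 0, ‖y + s • ec c‖ < r := by
              have hcont : Continuous fun s : ℝ => ‖y + s • ec c‖ := by fun_prop
              refine hcont.continuousAt.eventually_lt_const ?_
              simpa using h
            filter_upwards [h10] with s hs'
            simp only [Function.comp]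
            rw [← hPg c (by rw [mem_closedBall_zero_iff]; exact (hnorm _ hs'.le).le), smul_add,
              smul_smul]
          rw [mul_comm]
          exact h9
        exact h5.lineDeriv
      simp only [h4]
      rw [← Finset.sum_mul, ← Finset.mul_sum, hs _ (hnorm y h.le)]
      ring
  simp only [h1]
  rw [Finset.sum_neg_distrib, ← integral_finsetSum _ (fun c _ => h2 c)]
  simp [h3]

lemma mv {w : ℝ → ℝ} (hw : Continuous w) {r R : ℝ} (hr : 0 < r) (hR : r < R) (H : E3 → ℝ)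
    (P Q : Fin 3 → E3 → ℝ)
    (hH : ∀ z : E3, ‖z‖ < R →
      HasFDerivAt H (∑ c, P c z • (EuclideanSpace.proj c : E3 →L[ℝ] ℝ)) z)
    (hP : ∀ c, ContDiffOn ℝ 1 (P c) (ball 0 R))
    (hQ : ∀ c z, ‖z‖ < R → HasLineDerivAt ℝ (P c) (Q c z) z (ec c))
    (hs : ∀ z : E3, ‖z‖ < R → ∑ c, Q c z = 0) :
    ∫ y in closedBall (0 : E3) r, w ‖y‖ * H y = H 0 * ∫ y in closedBall (0 : E3) r, w ‖y‖ := by
  set r' := (r + R) / 2 with hr'
  have h1 : r < r' := by rw [hr']; linarith
  have h2 : r' < R := by rw [hr']; linarith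
  set T := r' / r with hT
  have hT1 : 1 < T := by rw [hT, one_lt_div hr]; exact h1
  have hnorm : ∀ t ∈ Ioo (-T) T, ∀ y : E3, ‖y‖ ≤ r → ‖t • y‖ ≤ r' := by
    intro t ht y hy
    rw [norm_smul, Real.norm_eq_abs]
    have h3 : |t| ≤ T := (abs_lt.2 ⟨ht.1, ht.2⟩).le
    calc |t| * ‖y‖ ≤ T * r := mul_le_mul h3 hy (norm_nonneg _) (by linarith)
      _ = r' := by rw [hT]; field_simp
  have hPc : ∀ c, ContinuousOn (P c) (closedBall 0 r') := fun c =>
    (hP c).continuousOn.mono (closedBall_subset_ball h2)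
  have hHc : ContinuousOn H (closedBall 0 r') := by
    intro z hz
    refine (hH z ?_).continuousAt.continuousWithinAt
    rw [mem_closedBall_zero_iff] at hz
    linarith
  have hw' : Continuous fun y : E3 => w ‖y‖ := hw.comp continuous_norm
  have hcomp : ∀ (f : E3 → ℝ), ContinuousOn f (closedBall 0 r') → ∀ t ∈ Ioo (-T) T,
      ContinuousOn (fun y : E3 => f (t • y)) (closedBall 0 r) := by
    intro f hf t ht
    refine hf.comp (continuous_const_smul t).continuousOn fun y hy => ?_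
    rw [mem_closedBall_zero_iff] at hy ⊢
    exact hnorm t ht y hy
  have hcpt := isCompact_closedBall (0 : E3) r
  have hFi : ∀ t ∈ Ioo (-T) T, IntegrableOn (fun y : E3 => w ‖y‖ * H (t • y))
      (closedBall 0 r) := fun t ht =>
    (hw'.continuousOn.mul (hcomp H hHc t ht)).integrableOn_compact hcpt
  have hF'c : ∀ t ∈ Ioo (-T) T, ContinuousOn (fun y : E3 => w ‖y‖ * ∑ c, P c (t • y) * y c)
      (closedBall 0 r) := by
    intro t ht
    refine hw'.continuousOn.mul (continuousOn_finsetSum _ fun c _ => ?_)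
    refine (hcomp (P c) (hPc c) t ht).mul ?_
    fun_prop
  obtain ⟨Mw, hMw⟩ := hcpt.exists_bound_of_continuousOn hw'.continuousOn
  have hPb : ∀ c, ∃ M, ∀ z ∈ closedBall (0 : E3) r', ‖P c z‖ ≤ M := fun c =>
    (isCompact_closedBall (0 : E3) r').exists_bound_of_continuousOn (hPc c)
  choose MP hMP using hPb
  have hd : ∀ t ∈ Ioo (-T) T, HasDerivAt
      (fun t => ∫ y in closedBall (0 : E3) r, w ‖y‖ * H (t • y)) 0 t := by
    intro t ht
    have hnh : Ioo (-T) T ∈ 𝓝 t := Ioo_mem_nhds ht.1 ht.2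
    have key := (hasDerivAt_integral_of_dominated_loc_of_deriv_le
      (μ := volume.restrict (closedBall (0 : E3) r)) (bound := fun _ => Mw * ∑ c, MP c * r)
      (F := fun t y => w ‖y‖ * H (t • y)) (F' := fun t y => w ‖y‖ * ∑ c, P c (t • y) * y c)
      hnh ?_ (hFi t ht) ((hF'c t ht).integrableOn_compact hcpt).aestronglyMeasurable ?_ ?_
      ?_).2
    · have h3 : ∫ y in closedBall (0 : E3) r, w ‖y‖ * ∑ c, P c (t • y) * y c = 0 := by
        have h4 : |t| * r < r' := by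
          have h5 : |t| < T := abs_lt.2 ⟨ht.1, ht.2⟩
          calc |t| * r < T * r := mul_lt_mul_of_pos_right h5 hr
            _ = r' := by rw [hT]; field_simp
        have h6 := flux hw hr h4 P Q (fun c => ((hP c).mono
          (closedBall_subset_ball h2)).exists_lipschitzOnWith one_ne_zero
            (convex_closedBall _ _) (isCompact_closedBall _ _))
          (fun c z hz => hQ c z (hz.trans h2)) (fun z hz => hs z (hz.trans h2))
        rw [← integral_finsetSum] at h6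
        · rw [← h6]
          refine integral_congr_ae (Eventually.of_forall fun y => ?_)
          simp only
          rw [Finset.mul_sum]
          refine Finset.sum_congr rfl fun c _ => ?_
          ring
        · intro c _
          refine ContinuousOn.integrableOn_compact hcpt ?_
          refine ContinuousOn.mul ?_ (hcomp (P c) (hPc c) t ht)
          exact hw'.continuousOn.mul (by fun_prop)
      rw [h3] at key
      exact key
    · filter_upwards [hnh] with s hs'
      exact (hFi s hs').aestronglyMeasurable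
    · rw [ae_restrict_iff' measurableSet_closedBall]
      refine Eventually.of_forall fun y hy s hs' => ?_
      rw [norm_mul]
      have hy' : ‖y‖ ≤ r := by rwa [mem_closedBall_zero_iff] at hy
      refine mul_le_mul (hMw y hy) ?_ (norm_nonneg _) ((norm_nonneg _).trans (hMw y hy))
      refine (norm_sum_le _ _).trans (Finset.sum_le_sum fun c _ => ?_)
      rw [norm_mul]
      have h5 : s • y ∈ closedBall (0 : E3) r' := by
        rw [mem_closedBall_zero_iff]
        exact hnorm s hs' y hy'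
      refine mul_le_mul (hMP c _ h5) ?_ (norm_nonneg _) ((norm_nonneg _).trans (hMP c _ h5))
      exact (PiLp.norm_apply_le y c).trans hy'
    · exact integrableOn_const (hs := measure_closedBall_lt_top.ne)
    · rw [ae_restrict_iff' measurableSet_closedBall]
      refine Eventually.of_forall fun y hy s hs' => ?_
      have hy' : ‖y‖ ≤ r := by rwa [mem_closedBall_zero_iff] at hy
      have h5 : ‖s • y‖ < R := (hnorm s hs' y hy').trans_lt h2
      have h6 : HasDerivAt (fun s : ℝ => s • y) y s := by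
        simpa using (hasDerivAt_id s).smul_const y
      have h7 := (hH _ h5).comp_hasDerivAt s h6
      have h8 := h7.const_mul (w ‖y‖)
      simpa using h8
  have hT0 : (0 : ℝ) ∈ Ioo (-T) T := ⟨by linarith, by linarith⟩
  have hT2 : (1 : ℝ) ∈ Ioo (-T) T := ⟨by linarith, by linarith⟩
  have h5 := IsOpen.is_const_of_deriv_eq_zero isOpen_Ioo isPreconnected_Ioo
    (fun t ht => (hd t ht).differentiableAt.differentiableWithinAt)
    (fun t ht => (hd t ht).deriv) hT2 hT0
  simp only [one_smul, zero_smul] at h5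
  rw [h5, integral_mul_const, mul_comm]

/-! ## integration by parts in the ball -/

lemma ibp {w : ℝ → ℝ} (hw : Continuous w) {r : ℝ} (hr : 0 < r) (c : Fin 3) (f D : E3 → ℝ)
    (hf : ∃ C : NNReal, LipschitzOnWith C f (closedBall 0 r))
    (hD : ∀ y : E3, ‖y‖ < r → HasLineDerivAt ℝ f (D y) y (ec c)) :
    ∫ y in closedBall (0 : E3) r, (w ‖y‖ * y c) * f y =
      - ∫ y in closedBall (0 : E3) r, KK w r y * D y := by
  obtain ⟨CK, hK⟩ := KK_lip hw hr
  obtain ⟨C, hC⟩ := hf
  obtain ⟨g, hg, hfg⟩ := hC.extend_real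
  have h1 : ∫ y in closedBall (0 : E3) r, (w ‖y‖ * y c) * f y =
      - ∫ y, lineDeriv ℝ g y (ec c) * KK w r y := by
    rw [hg.integral_lineDeriv_mul_eq hK (KK_supp w r) (ec c),
      ← integral_indicator measurableSet_closedBall, ← integral_neg]
    refine integral_congr_ae ?_
    filter_upwards [KK_ae hw hr c] with y hy
    rw [lineDeriv_neg, hy]
    by_cases h : y ∈ closedBall (0 : E3) r
    · rw [indicator_of_mem h, indicator_of_mem h, neg_mul, neg_neg, hfg h]
    · rw [indicator_of_notMem h, indicator_of_notMem h]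
      ring
  rw [h1, ← integral_indicator measurableSet_closedBall]
  congr 1
  refine integral_congr_ae (Eventually.of_forall fun y => ?_)
  simp only
  by_cases h : ‖y‖ < r
  · have h2 : y ∈ closedBall (0 : E3) r := by
      rw [mem_closedBall_zero_iff]
      exact h.le
    have h3 : HasLineDerivAt ℝ g (D y) y (ec c) := by
      refine (hD y h).congr_of_eventuallyEq ?_
      have h4 : ∀ᶠ z : E3 in 𝓝 y, ‖z‖ < r := continuous_norm.continuousAt.eventually_lt_const h
      filter_upwards [h4] with z hz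
      refine (hfg ?_).symm
      rw [mem_closedBall_zero_iff]
      exact hz.le
    rw [indicator_of_mem h2, h3.lineDeriv, mul_comm]
  · rw [KK_zero (not_lt.1 h), mul_zero]
    by_cases h2 : y ∈ closedBall (0 : E3) r
    · rw [indicator_of_mem h2, KK_zero (not_lt.1 h), zero_mul]
    · rw [indicator_of_notMem h2]

/-! ## the Coulomb kernel -/

section
variable (B : E3)

/-- first derivatives -/
def P0 (c : Fin 3) (z : E3) : ℝ := -((B + z) c * ‖B + z‖⁻¹ ^ 3)

/-- second derivatives -/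
def Q0 (c : Fin 3) (z : E3) : ℝ := -‖B + z‖⁻¹ ^ 3 + 3 * (B + z) c ^ 2 * ‖B + z‖⁻¹ ^ 5

/-- the field -/
def H1 (z : E3) : ℝ := (B + z) 0 * ‖B + z‖⁻¹ ^ 3

/-- its first derivatives -/
def P1 (c : Fin 3) (z : E3) : ℝ :=
  (if c = 0 then ‖B + z‖⁻¹ ^ 3 else 0) - 3 * (B + z) 0 * (B + z) c * ‖B + z‖⁻¹ ^ 5

/-- its second derivatives -/
def Q1 (c : Fin 3) (z : E3) : ℝ :=
  (if c = 0 then -6 * (B + z) 0 * ‖B + z‖⁻¹ ^ 5 else 0) - 3 * (B + z) 0 * ‖B + z‖⁻¹ ^ 5
    + 15 * (B + z) 0 * (B + z) c ^ 2 * ‖B + z‖⁻¹ ^ 7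

variable {B}

lemma norm_sq3 (x : E3) : x 0 ^ 2 + x 1 ^ 2 + x 2 ^ 2 = ‖x‖ ^ 2 := by
  rw [EuclideanSpace.norm_sq_eq, Fin.sum_univ_three]
  simp

lemma inv_sq3 {x : E3} (h : x ≠ 0) : (x 0 ^ 2 + x 1 ^ 2 + x 2 ^ 2) * ‖x‖⁻¹ ^ 2 = 1 := by
  have : ‖x‖ ≠ 0 := norm_ne_zero_iff.2 h
  rw [norm_sq3]
  field_simp

lemma sum_proj (a : Fin 3 → ℝ) (v : E3) :
    (∑ c, a c • (EuclideanSpace.proj c : E3 →L[ℝ] ℝ)) v = a 0 * v 0 + a 1 * v 1 + a 2 * v 2 := by
  simp only [Fin.sum_univ_three]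
  rfl

lemma hasFDerivAt_u {z : E3} (h : B + z ≠ 0) :
    HasFDerivAt (fun z : E3 => ‖B + z‖⁻¹)
      (∑ c, P0 B c z • (EuclideanSpace.proj c : E3 →L[ℝ] ℝ)) z := by
  have hn : 0 < ‖B + z‖ := norm_pos_iff.2 h
  have h0 : HasFDerivAt (fun z : E3 => B + z) (ContinuousLinearMap.id ℝ E3) z :=
    (hasFDerivAt_id z).const_add B
  have h1 : HasFDerivAt (fun z : E3 => ‖B + z‖ ^ 2)
      ((2 • (innerSL ℝ (B + z))).comp (ContinuousLinearMap.id ℝ E3)) z :=
    (hasStrictFDerivAt_norm_sq (B + z)).hasFDerivAt.comp z h0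
  have h2 : HasDerivAt (fun s : ℝ => (√s)⁻¹)
      (-(1 / (2 * √(‖B + z‖ ^ 2))) / (√(‖B + z‖ ^ 2)) ^ 2) (‖B + z‖ ^ 2) := by
    have h3 := (Real.hasDerivAt_sqrt (x := ‖B + z‖ ^ 2) (by positivity)).inv
      (by rw [Real.sqrt_sq hn.le]; exact hn.ne')
    exact h3
  have h4 := h2.comp_hasFDerivAt z h1
  have h5 : HasFDerivAt (fun z : E3 => ‖B + z‖⁻¹)
      ((-(1 / (2 * √(‖B + z‖ ^ 2))) / (√(‖B + z‖ ^ 2)) ^ 2) •
        ((2 • (innerSL ℝ (B + z))).comp (ContinuousLinearMap.id ℝ E3))) z := by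
    refine h4.congr_of_eventuallyEq (Eventually.of_forall fun y => ?_)
    simp only [Function.comp, Real.sqrt_sq (norm_nonneg _)]
  convert h5 using 1
  ext v
  rw [Real.sqrt_sq hn.le, sum_proj]
  have h6 : ((-(1 / (2 * ‖B + z‖)) / ‖B + z‖ ^ 2) •
      ((2 • (innerSL ℝ (B + z))).comp (ContinuousLinearMap.id ℝ E3))) v =
      (-(1 / (2 * ‖B + z‖)) / ‖B + z‖ ^ 2) *
        (2 * ((B + z) 0 * v 0 + (B + z) 1 * v 1 + (B + z) 2 * v 2)) := by
    have h7 : ⟪B + z, v⟫ = (B + z) 0 * v 0 + (B + z) 1 * v 1 + (B + z) 2 * v 2 := by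
      simp only [PiLp.inner_apply, Fin.sum_univ_three, RCLike.inner_apply, conj_trivial]
      ring
    rw [← h7]
    have h8 : (2 • (innerSL ℝ (B + z))) v = 2 * ⟪B + z, v⟫ := by
      rw [two_smul, two_mul]
      rfl
    rw [← h8]
    rfl
  rw [h6]
  unfold P0
  field_simp
  ring

lemma hasLineDerivAt_u {z : E3} (h : B + z ≠ 0) (c : Fin 3) :
    HasDerivAt (fun s : ℝ => ‖B + (z + s • ec c)‖⁻¹) (P0 B c z) 0 := by
  have h1 := (hasFDerivAt_u h).hasLineDerivAt (ec c)
  have h2 : (∑ d, P0 B d z • (EuclideanSpace.proj d : E3 →L[ℝ] ℝ)) (ec c) = P0 B c z := by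
    simp [ec_apply]
  rw [h2] at h1
  exact h1

lemma hasDerivAt_coord (z : E3) (c d : Fin 3) :
    HasDerivAt (fun s : ℝ => (B + (z + s • ec c)) d) (if d = c then 1 else 0) 0 := by
  have h1 : HasDerivAt (fun s : ℝ => (B + z) d + s * (if d = c then 1 else 0))
      (if d = c then 1 else 0) 0 := by
    simpa using ((hasDerivAt_id (0 : ℝ)).mul_const (if d = c then (1 : ℝ) else 0)).const_add
      ((B + z) d)
  refine h1.congr_of_eventuallyEq (Eventually.of_forall fun s => ?_)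
  simp [ec_apply, add_assoc]

lemma hQ0 {z : E3} (h : B + z ≠ 0) (c : Fin 3) :
    HasLineDerivAt ℝ (P0 B c) (Q0 B c z) z (ec c) := by
  have h1 := hasLineDerivAt_u h c
  have h2 := hasDerivAt_coord (B := B) z c c
  have h3 := (h2.mul (h1.pow 3)).neg
  unfold HasLineDerivAt
  refine HasDerivAt.congr_deriv (h3.congr_of_eventuallyEq (Eventually.of_forall fun s => rfl)) ?_
  simp only [Q0, P0, if_true, zero_smul, add_zero, Pi.pow_apply]
  push_cast
  ring

lemma hQ1 {z : E3} (h : B + z ≠ 0) (c : Fin 3) :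
    HasLineDerivAt ℝ (P1 B c) (Q1 B c z) z (ec c) := by
  have h1 := hasLineDerivAt_u h c
  have h2 := hasDerivAt_coord (B := B) z c c
  have h4 := hasDerivAt_coord (B := B) z c 0
  have h3 := ((h1.pow 3).const_mul (if c = 0 then (1 : ℝ) else 0)).sub
    (((h4.const_mul 3).mul h2).mul (h1.pow 5))
  unfold HasLineDerivAt
  refine HasDerivAt.congr_deriv (h3.congr_of_eventuallyEq (Eventually.of_forall fun s => ?_)) ?_
  · simp only [P1]
    split_ifs <;> simp
  · simp only [Q1, P0, if_true, zero_smul, add_zero, Pi.pow_apply, Pi.mul_apply]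
    push_cast
    by_cases hc : c = 0
    · subst hc
      simp only [if_true]
      ring
    · rw [if_neg hc, if_neg hc, if_neg (fun h0 => hc h0.symm)]
      ring

lemma sumQ0 {z : E3} (h : B + z ≠ 0) : ∑ c, Q0 B c z = 0 := by
  have h1 := inv_sq3 h
  simp only [Q0, Fin.sum_univ_three]
  linear_combination 3 * ‖B + z‖⁻¹ ^ 3 * h1

lemma sumQ1 {z : E3} (h : B + z ≠ 0) : ∑ c, Q1 B c z = 0 := by
  have h1 := inv_sq3 h
  simp only [Q1, Fin.sum_univ_three, if_true, show ((1 : Fin 3) = 0) = False by decide,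
    show ((2 : Fin 3) = 0) = False by decide, if_false]
  linear_combination 15 * (B + z) 0 * ‖B + z‖⁻¹ ^ 5 * h1

lemma hasFDerivAt_H1 {z : E3} (h : B + z ≠ 0) :
    HasFDerivAt (H1 B) (∑ c, P1 B c z • (EuclideanSpace.proj c : E3 →L[ℝ] ℝ)) z := by
  have h1 := hasFDerivAt_u h
  have h2 : HasFDerivAt (fun z : E3 => (B + z) 0) (EuclideanSpace.proj 0 : E3 →L[ℝ] ℝ) z := by
    have := ((EuclideanSpace.proj 0 : E3 →L[ℝ] ℝ).hasFDerivAt (x := z)).const_add (B 0)
    exact this
  have h3 := h2.mul (h1.pow 3)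
  have h4 : (∑ c, P1 B c z • (EuclideanSpace.proj c : E3 →L[ℝ] ℝ)) =
      (B + z) 0 • ((3 * ‖B + z‖⁻¹ ^ 2) • ∑ c, P0 B c z • (EuclideanSpace.proj c : E3 →L[ℝ] ℝ)) +
        ‖B + z‖⁻¹ ^ 3 • (EuclideanSpace.proj 0 : E3 →L[ℝ] ℝ) := by
    ext v
    have h5 : ((B + z) 0 • ((3 * ‖B + z‖⁻¹ ^ 2) •
        ∑ c, P0 B c z • (EuclideanSpace.proj c : E3 →L[ℝ] ℝ)) +
        ‖B + z‖⁻¹ ^ 3 • (EuclideanSpace.proj 0 : E3 →L[ℝ] ℝ)) v =
        (B + z) 0 * ((3 * ‖B + z‖⁻¹ ^ 2) *
          (∑ c, P0 B c z • (EuclideanSpace.proj c : E3 →L[ℝ] ℝ)) v) + ‖B + z‖⁻¹ ^ 3 * v 0 := rfl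
    rw [h5, sum_proj, sum_proj]
    simp only [P1, P0, if_true, show ((1 : Fin 3) = 0) = False by decide,
      show ((2 : Fin 3) = 0) = False by decide, if_false]
    ring
  have h6 : (3 * ‖B + z‖⁻¹ ^ 2) = (3 • ‖B + z‖⁻¹ ^ (3 - 1)) := by
    simp
  rw [h4, h6]
  exact h3

lemma ne0 {z : E3} (h : ‖z‖ < ‖B‖) : B + z ≠ 0 := by
  intro h0
  have : B = -z := eq_neg_of_add_eq_zero_left h0
  rw [this, norm_neg] at h
  exact lt_irrefl _ h

lemma contDiff_u : ContDiffOn ℝ 1 (fun z : E3 => ‖B + z‖⁻¹) (ball 0 ‖B‖) := by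
  have h0 : ∀ z ∈ ball (0 : E3) ‖B‖, B + z ≠ 0 := fun z hz => ne0 (by simpa using hz)
  refine ContDiffOn.inv ?_ fun z hz => norm_ne_zero_iff.2 (h0 z hz)
  exact ContDiffOn.norm ℝ (by fun_prop) h0

lemma contDiff_P0 (c : Fin 3) : ContDiffOn ℝ 1 (P0 B c) (ball 0 ‖B‖) := by
  unfold P0
  refine ContDiffOn.neg (ContDiffOn.mul ?_ (contDiff_u.pow 3))
  fun_prop

lemma contDiff_P1 (c : Fin 3) : ContDiffOn ℝ 1 (P1 B c) (ball 0 ‖B‖) := by
  unfold P1
  refine ContDiffOn.sub ?_ (ContDiffOn.mul ?_ (contDiff_u.pow 5))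
  · split_ifs
    · exact contDiff_u.pow 3
    · exact contDiffOn_const
  · fun_prop

lemma newton0 {w : ℝ → ℝ} (hw : Continuous w) {r : ℝ} (hr : 0 < r) (hB : r < ‖B‖) :
    ∫ y in closedBall (0 : E3) r, w ‖y‖ * ‖B + y‖⁻¹ =
      ‖B‖⁻¹ * ∫ y in closedBall (0 : E3) r, w ‖y‖ := by
  have := mv hw hr hB (fun z : E3 => ‖B + z‖⁻¹) (P0 B) (Q0 B)
    (fun z hz => hasFDerivAt_u (ne0 hz)) contDiff_P0 (fun c z hz => hQ0 (ne0 hz) c)
    (fun z hz => sumQ0 (ne0 hz))
  simpa using this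

lemma newton1 {w : ℝ → ℝ} (hw : Continuous w) {r : ℝ} (hr : 0 < r) (hB : r < ‖B‖) :
    ∫ y in closedBall (0 : E3) r, w ‖y‖ * H1 B y =
      B 0 * ‖B‖⁻¹ ^ 3 * ∫ y in closedBall (0 : E3) r, w ‖y‖ := by
  have := mv hw hr hB (H1 B) (P1 B) (Q1 B)
    (fun z hz => hasFDerivAt_H1 (ne0 hz)) contDiff_P1 (fun c z hz => hQ1 (ne0 hz) c)
    (fun z hz => sumQ1 (ne0 hz))
  simpa [H1] using this

lemma newton2 {w : ℝ → ℝ} (hw : Continuous w) {r : ℝ} (hr : 0 < r) (hB : r < ‖B‖) :
    ∫ y in closedBall (0 : E3) r, (w ‖y‖ * y 0) * ‖B + y‖⁻¹ =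
      -(B 0 * ‖B‖⁻¹ ^ 3) * ∫ y in closedBall (0 : E3) r, (w ‖y‖ * y 0) * y 0 := by
  have hsub : closedBall (0 : E3) r ⊆ ball 0 ‖B‖ := closedBall_subset_ball hB
  rw [ibp hw hr 0 (fun y : E3 => ‖B + y‖⁻¹) (P0 B 0)
    ((contDiff_u.mono hsub).exists_lipschitzOnWith one_ne_zero (convex_closedBall _ _)
      (isCompact_closedBall _ _)) (fun y hy => hasLineDerivAt_u (ne0 (hy.trans hB)) 0)]
  rw [ibp hw hr 0 (fun y : E3 => y 0) (fun _ => 1)
    ((by fun_prop : ContDiffOn ℝ 1 (fun y : E3 => y 0) (closedBall 0 r)).exists_lipschitzOnWith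
      one_ne_zero (convex_closedBall _ _) (isCompact_closedBall _ _)) (fun y hy => ?_)]
  · have hwK : Continuous fun s : ℝ => psi w (min s r) - psi w r := by
      have := (contDiff_psi hw).continuous
      fun_prop
    have h1 := newton1 (B := B) hwK hr hB
    have h2 : ∀ y : E3, KK w r y * P0 B 0 y =
        -((psi w (min ‖y‖ r) - psi w r) * H1 B y) := by
      intro y
      unfold KK P0 H1
      ring
    simp only [h2, mul_one]
    rw [integral_neg, h1]
    unfold KK
    ring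
  · have := hasDerivAt_coord (B := (0 : E3)) y 0 0
    simpa [HasLineDerivAt] using this

end

lemma hm_int (f : E3 → ℝ) : ∫ x, f x ∂hm = ∫ x, Real.exp (-‖x‖) / (8 * Real.pi) * f x := by
  unfold hm
  rw [integral_withDensity_eq_integral_toReal_smul₀]
  · refine integral_congr_ae (Eventually.of_forall fun x => ?_)
    simp only [smul_eq_mul]
    rw [ENNReal.toReal_ofReal (by positivity)]
  · fun_prop
  · exact Eventually.of_forall fun x => ENNReal.ofReal_lt_top

/-- integrals against `hm` of functions supported in the ball -/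
lemma hm_ball (r : ℝ) (k : ℝ → ℝ) (f : E3 → ℝ) (F : E3 → ℝ)
    (hF : ∀ x, F x = if ‖x‖ ≤ r then k ‖x‖ * f x else 0) :
    ∫ x, F x ∂hm = ∫ x in closedBall (0 : E3) r,
      (Real.exp (-‖x‖) / (8 * Real.pi) * k ‖x‖) * f x := by
  rw [hm_int, ← integral_indicator measurableSet_closedBall]
  refine integral_congr_ae (Eventually.of_forall fun x => ?_)
  simp only [hF, indicator, mem_closedBall_zero_iff]
  split_ifs <;> ring

end Newton

theorem p_newton : S_newton := by
  intro r B k hr hB hk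
  have hw : Continuous fun s : ℝ => Real.exp (-s) / (8 * Real.pi) * k s := by fun_prop
  constructor
  · rw [Newton.hm_ball r k (fun y => ‖B + y‖⁻¹) _ (fun y => by split_ifs <;> ring),
      Newton.hm_ball r k (fun _ => 1) _ (fun y => by split_ifs <;> ring)]
    have := Newton.newton0 (B := B) hw hr hB
    simpa using this
  · rw [Newton.hm_ball r k (fun y => y 0 * ‖B + y‖⁻¹) _ (fun y => by split_ifs <;> ring),
      Newton.hm_ball r k (fun y => y 0 * y 0) _ (fun y => by split_ifs <;> ring)]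
    have := Newton.newton2 (B := B) hw hr hB
    rw [show B 0 / ‖B‖ ^ 3 = B 0 * ‖B‖⁻¹ ^ 3 by rw [inv_pow]; rfl]
    simpa only [mul_assoc] using this

end MolDis.H
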