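import Pool.Agent.Lib.MP_59f35a_mp.HStmts

/-!
# MP_59f35a_mp : the numbers of the dispersion problem (piece D2, helper28)
-/

set_option autoImplicit false

noncomputable section

open MeasureTheory

namespace MolDis.H

namespace Num

/-- weights of the dipole interaction -/
def W (c : Fin 3) : ℝ := if c = 0 then -2 else 1

theorem dd_sq (x y : E3) : dd x y ^ 2 =
    ∑ c : Fin 3, ∑ d : Fin 3, (W c * W d) * ((x c * x d) * (y c * y d)) := by
  simp only [dd, W, Fin.sum_univ_three, if_true, Fin.isValue, one_ne_zero, if_false,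
    Fin.reduceEq]
  ring

theorem normsq (x : E3) : ‖x‖ ^ 2 = x 0 ^ 2 + x 1 ^ 2 + x 2 ^ 2 := by
  rw [EuclideanSpace.norm_sq_eq, Fin.sum_univ_three]
  simp

theorem lin2 {α : Type*} [MeasurableSpace α] {μ : Measure α} {f g : α → ℝ} (hf : Integrable f μ)
    (hg : Integrable g μ) (a b : ℝ) :
    Integrable (fun x => a * f x + b * g x) μ ∧
      ∫ x, a * f x + b * g x ∂μ = a * (∫ x, f x ∂μ) + b * ∫ x, g x ∂μ := by
  refine ⟨(hf.const_mul a).add (hg.const_mul b), ?_⟩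
  have := integral_add (μ := μ) (hf.const_mul a) (hg.const_mul b)
  rw [integral_const_mul, integral_const_mul] at this
  exact this

theorem lin3 {α : Type*} [MeasurableSpace α] {μ : Measure α} {f g h : α → ℝ}
    (hf : Integrable f μ) (hg : Integrable g μ) (hh : Integrable h μ) (a b c : ℝ) :
    Integrable (fun x => a * f x + b * g x + c * h x) μ ∧
      ∫ x, a * f x + b * g x + c * h x ∂μ =
        a * (∫ x, f x ∂μ) + b * (∫ x, g x ∂μ) + c * ∫ x, h x ∂μ := by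
  obtain ⟨h1, h2⟩ := lin2 hf hg a b
  obtain ⟨h3, h4⟩ := lin2 h1 hh 1 c
  simp only [one_mul] at h3 h4
  exact ⟨h3, by rw [h4, h2]⟩

section
variable (hm1 : S_hm) (hprod : S_prod) (hang : S_ang)
include hm1 hprod hang

/-- the average over the directions of the second variable -/
theorem base (u : E3 → ℝ) (v : ℝ → ℝ)
    (hu : ∀ c d : Fin 3, Integrable (fun x => u x * (x c * x d)) hm)
    (hv : Integrable (fun y : E3 => ‖y‖ ^ 2 * v ‖y‖) hm) :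
    Integrable (fun x : X3 => u (x 0) * v ‖x 1‖ * dd (x 0) (x 1) ^ 2) pm ∧
    ∫ x : X3, u (x 0) * v ‖x 1‖ * dd (x 0) (x 1) ^ 2 ∂pm =
      (∫ x, u x * ((‖x‖ ^ 2 + 3 * x 0 ^ 2) / 3) ∂hm) * ∫ y : E3, ‖y‖ ^ 2 * v ‖y‖ ∂hm := by
  have : IsProbabilityMeasure hm := hm1.1
  have hang1 := (hang v).1 hv
  set F : Fin 3 → Fin 3 → Fin 3 → E3 → ℝ := fun c d j =>
    if j = 0 then fun x => u x * (x c * x d) else if j = 1 then fun y => y c * y d * v ‖y‖
      else fun _ => 1 with hF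
  have hFi : ∀ c d j, Integrable (F c d j) hm := by
    intro c d j
    fin_cases j
    · simpa [hF] using hu c d
    · simpa [hF] using (hang1 c d).1
    · simp [hF]
  have hI : ∀ c d, Integrable (fun x : X3 => ∏ j, F c d j (x j)) pm := fun c d =>
    Integrable.fintype_prod (hFi c d)
  have hval : ∀ c d, ∫ x : X3, ∏ j, F c d j (x j) ∂pm =
      (∫ x, u x * (x c * x d) ∂hm) *
        (if c = d then (∫ x : E3, ‖x‖ ^ 2 * v ‖x‖ ∂hm) / 3 else 0) := by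
    intro c d
    rw [hprod.2.2.2.1 (F c d), Fin.prod_univ_three]
    have h0 : ∫ y, F c d 0 y ∂hm = ∫ x, u x * (x c * x d) ∂hm := by simp [hF]
    have h1 : ∫ y, F c d 1 y ∂hm = if c = d then (∫ x : E3, ‖x‖ ^ 2 * v ‖x‖ ∂hm) / 3 else 0 := by
      have := (hang1 c d).2
      simpa [hF] using this
    have h2 : ∫ y, F c d 2 y ∂hm = 1 := by simp [hF]
    rw [h0, h1, h2, mul_one]
  have hexp : (fun x : X3 => u (x 0) * v ‖x 1‖ * dd (x 0) (x 1) ^ 2) =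
      fun x => ∑ c : Fin 3, ∑ d : Fin 3, (W c * W d) * ∏ j, F c d j (x j) := by
    funext x
    rw [dd_sq, Finset.mul_sum]
    refine Finset.sum_congr rfl (fun c _ => ?_)
    rw [Finset.mul_sum]
    refine Finset.sum_congr rfl (fun d _ => ?_)
    rw [Fin.prod_univ_three]
    simp only [hF, if_true, Fin.isValue, one_ne_zero, if_false, Fin.reduceEq, mul_one]
    ring
  have hS : ∀ c d, Integrable (fun x : X3 => (W c * W d) * ∏ j, F c d j (x j)) pm := fun c d =>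
    (hI c d).const_mul _
  refine ⟨?_, ?_⟩
  · rw [hexp]
    exact integrable_finsetSum _ (fun c _ => integrable_finsetSum _ (fun d _ => hS c d))
  · rw [hexp, integral_finsetSum _ (fun c _ => integrable_finsetSum _ (fun d _ => hS c d))]
    have h1 : ∀ c, ∫ x : X3, ∑ d : Fin 3, (W c * W d) * ∏ j, F c d j (x j) ∂pm =
        (W c * W c) * ((∫ x, u x * (x c * x c) ∂hm) *
          ((∫ x : E3, ‖x‖ ^ 2 * v ‖x‖ ∂hm) / 3)) := by
      intro c
      rw [integral_finsetSum _ (fun d _ => hS c d), Finset.sum_eq_single c]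
      · rw [integral_const_mul, hval, if_pos rfl]
      · intro d _ hd
        rw [integral_const_mul, hval, if_neg (Ne.symm hd), mul_zero, mul_zero]
      · intro h
        exact absurd (Finset.mem_univ c) h
    rw [Finset.sum_congr rfl (fun c _ => h1 c), Fin.sum_univ_three]
    have h2 := (lin3 (hu 0 0) (hu 1 1) (hu 2 2) (4 / 3) (1 / 3) (1 / 3)).2
    have h3 : (fun x : E3 => u x * ((‖x‖ ^ 2 + 3 * x 0 ^ 2) / 3)) = fun x =>
        4 / 3 * (u x * (x 0 * x 0)) + 1 / 3 * (u x * (x 1 * x 1)) +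
          1 / 3 * (u x * (x 2 * x 2)) := by
      funext x
      rw [normsq]
      ring
    rw [h3, h2]
    simp only [W, if_true, Fin.isValue, one_ne_zero, if_false, Fin.reduceEq]
    ring


/-- integrable with a given integral -/
def Mom {α : Type*} [MeasurableSpace α] (μ : Measure α) (F : α → ℝ) (m : ℝ) : Prop :=
  Integrable F μ ∧ ∫ x, F x ∂μ = m

omit hm1 hprod hang in
theorem Mom.add {α : Type*} [MeasurableSpace α] {μ : Measure α} {F G : α → ℝ} {m n : ℝ}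
    (hF : Mom μ F m) (hG : Mom μ G n) : Mom μ (fun x => F x + G x) (m + n) := by
  obtain ⟨h1, h2⟩ := lin2 hF.1 hG.1 1 1
  simp only [one_mul] at h1 h2
  exact ⟨h1, by rw [h2, hF.2, hG.2]⟩

omit hm1 hprod hang in
theorem Mom.smul {α : Type*} [MeasurableSpace α] {μ : Measure α} {F : α → ℝ} {m : ℝ} (c : ℝ)
    (hF : Mom μ F m) : Mom μ (fun x => c * F x) (c * m) :=
  ⟨hF.1.const_mul c, by rw [integral_const_mul, hF.2]⟩

omit hm1 hprod hang in
theorem Mom.congr {α : Type*} [MeasurableSpace α] {μ : Measure α} {F G : α → ℝ} {m n : ℝ}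
    (hF : Mom μ F m) (h : ∀ᵐ x ∂μ, F x = G x) (hmn : m = n) : Mom μ G n :=
  ⟨hF.1.congr h, by rw [← integral_congr_ae h, hF.2, hmn]⟩

omit hprod hang in
theorem ae_ne : ∀ᵐ x ∂hm, x ≠ (0 : E3) := by
  have h : (volume : Measure E3) {(0 : E3)} = 0 := by simp
  have h2 := hm1.2.1 h
  rw [ae_iff]
  simpa using h2

omit hprod hang in
/-- one-variable moments -/
theorem mom1 (F : E3 → ℝ) (a b c : ℝ) (i j k : ℕ)
    (h : ∀ x : E3, x ≠ 0 → F x = a * ‖x‖ ^ i + b * ‖x‖ ^ j + c * ‖x‖ ^ k) {m : ℝ}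
    (hm' : a * (((i + 2).factorial : ℝ) / 2) + b * (((j + 2).factorial : ℝ) / 2) +
      c * (((k + 2).factorial : ℝ) / 2) = m) : Mom hm F m := by
  have h5 := hm1.2.2.2.2.1
  obtain ⟨h1, h2⟩ := lin3 (h5 i).1 (h5 j).1 (h5 k).1 a b c
  refine Mom.congr (μ := hm) ⟨h1, h2⟩ ?_ ?_
  · filter_upwards [ae_ne hm1] with x hx
    exact (h x hx).symm
  · rw [(h5 i).2, (h5 j).2, (h5 k).2, hm']

theorem t1 {g v : ℝ → ℝ} {m n : ℝ} (hg : Mom hm (fun x => ‖x‖ ^ 2 * g ‖x‖) m)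
    (hv : Mom hm (fun y => ‖y‖ ^ 2 * v ‖y‖) n) :
    Mom pm (fun x => g ‖x 0‖ * v ‖x 1‖ * dd (x 0) (x 1) ^ 2) (2 / 3 * m * n) := by
  have h1 := (hang g).1 hg.1
  obtain ⟨h2, h3⟩ := base hm1 hprod hang (fun x => g ‖x‖) v
    (fun c d => (h1 c d).1.congr (Filter.Eventually.of_forall fun x => by simp only; ring)) hv.1
  refine ⟨h2, ?_⟩
  rw [h3, hv.2]
  have h4 := (lin2 hg.1 (h1 0 0).1 (1 / 3) 1).2
  have h5 : (fun x : E3 => g ‖x‖ * ((‖x‖ ^ 2 + 3 * x 0 ^ 2) / 3)) = fun x =>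
      1 / 3 * (‖x‖ ^ 2 * g ‖x‖) + 1 * (x 0 * x 0 * g ‖x‖) := by
    funext x
    ring
  rw [h5, h4, (h1 0 0).2, if_pos rfl, hg.2]
  ring

omit hm1 hprod hang in
theorem hh2_eq (x : E3) : hh 2 x = (3 * x 0 ^ 2 - ‖x‖ ^ 2) / 2 := by
  rw [normsq]
  simp only [hh]
  ring

omit hm1 hprod hang in
theorem hh2_le (x : E3) : |hh 2 x| ≤ ‖x‖ ^ 2 := by
  rw [normsq]
  simp only [hh]
  rw [abs_le]
  constructor <;> nlinarith [sq_nonneg (x 0), sq_nonneg (x 1), sq_nonneg (x 2)]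

omit hm1 hprod hang in
theorem xx_le (x : E3) (c d : Fin 3) : |x c * x d| ≤ ‖x‖ ^ 2 := by
  have h1 : |x c| ≤ ‖x‖ := PiLp.norm_apply_le x c
  have h2 : |x d| ≤ ‖x‖ := PiLp.norm_apply_le x d
  rw [abs_mul, sq]
  exact mul_le_mul h1 h2 (abs_nonneg _) (norm_nonneg _)

omit hm1 hprod hang in
theorem meas_hh2 : Measurable (hh 2) := by
  have : (hh 2) = fun x : E3 => x 0 ^ 2 - (x 1 ^ 2 + x 2 ^ 2) / 2 := by
    funext x
    simp only [hh]
  rw [this]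
  fun_prop

theorem t2 {g v : ℝ → ℝ} {m n : ℝ} (hgm : Measurable g)
    (hg : Mom hm (fun x => ‖x‖ ^ 4 * g ‖x‖) m)
    (hv : Mom hm (fun y => ‖y‖ ^ 2 * v ‖y‖) n) :
    Mom pm (fun x => hh 2 (x 0) * g ‖x 0‖ * v ‖x 1‖ * dd (x 0) (x 1) ^ 2)
      (2 / 15 * m * n) := by
  have h1 := (hang g).2.1 hg.1
  have hu : ∀ c d : Fin 3, Integrable (fun x => hh 2 x * g ‖x‖ * (x c * x d)) hm := by
    intro c d
    have hm2 := meas_hh2
    refine Integrable.mono hg.1 (Measurable.aestronglyMeasurable (by fun_prop)) ?_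
    refine Filter.Eventually.of_forall fun x => ?_
    have e0 : |hh 2 x * g ‖x‖ * (x c * x d)| = |hh 2 x| * |g ‖x‖| * |x c * x d| := by
      rw [abs_mul, abs_mul]
    have e00 : |‖x‖ ^ 4 * g ‖x‖| = ‖x‖ ^ 4 * |g ‖x‖| := by rw [abs_mul, abs_pow, abs_norm]
    rw [Real.norm_eq_abs, Real.norm_eq_abs, e0, e00]
    have e1 := hh2_le x
    have e2 := xx_le x c d
    have e3 : |hh 2 x| * |x c * x d| ≤ ‖x‖ ^ 2 * ‖x‖ ^ 2 :=
      mul_le_mul e1 e2 (abs_nonneg _) (by positivity)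
    calc |hh 2 x| * |g ‖x‖| * |x c * x d| = |hh 2 x| * |x c * x d| * |g ‖x‖| := by ring
      _ ≤ ‖x‖ ^ 2 * ‖x‖ ^ 2 * |g ‖x‖| := mul_le_mul_of_nonneg_right e3 (abs_nonneg _)
      _ = ‖x‖ ^ 4 * |g ‖x‖| := by ring
  obtain ⟨h2, h3⟩ := base hm1 hprod hang (fun x => hh 2 x * g ‖x‖) v hu hv.1
  refine ⟨h2, ?_⟩
  rw [h3, hv.2]
  have h4 := (lin2 hg.1 h1.1 (-1 / 6) (3 / 2)).2
  have h5 : (fun x : E3 => hh 2 x * g ‖x‖ * ((‖x‖ ^ 2 + 3 * x 0 ^ 2) / 3)) = fun x =>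
      -1 / 6 * (‖x‖ ^ 4 * g ‖x‖) + 3 / 2 * (x 0 ^ 4 * g ‖x‖) := by
    funext x
    rw [hh2_eq]
    ring
  rw [h5, h4, h1.2.1, hg.2]
  ring

theorem t3 {g v : ℝ → ℝ} {m n : ℝ} (hgm : Measurable g)
    (hg : Mom hm (fun x => ‖x‖ ^ 6 * g ‖x‖) m)
    (hv : Mom hm (fun y => ‖y‖ ^ 2 * v ‖y‖) n) :
    Mom pm (fun x => hh 2 (x 0) ^ 2 * g ‖x 0‖ * v ‖x 1‖ * dd (x 0) (x 1) ^ 2)
      (6 / 35 * m * n) := by
  have i1 : Mom hm (fun x : E3 => ‖x‖ ^ 2 * (fun t : ℝ => t ^ 4 * g t) ‖x‖) m :=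
    hg.congr (Filter.Eventually.of_forall fun x => by simp only; ring) rfl
  have i2 : Mom hm (fun x : E3 => ‖x‖ ^ 4 * (fun t : ℝ => t ^ 2 * g t) ‖x‖) m :=
    hg.congr (Filter.Eventually.of_forall fun x => by simp only; ring) rfl
  have h1 := (hang (fun t => t ^ 4 * g t)).1 i1.1 0 0
  have h2 := (hang (fun t => t ^ 2 * g t)).2.1 i2.1
  have h3 := (hang g).2.2 hg.1
  rw [if_pos rfl, i1.2] at h1
  rw [i2.2] at h2
  rw [hg.2] at h3
  have hu : ∀ c d : Fin 3, Integrable (fun x => hh 2 x ^ 2 * g ‖x‖ * (x c * x d)) hm := by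
    intro c d
    have hm2 := meas_hh2
    refine Integrable.mono hg.1 (Measurable.aestronglyMeasurable (by fun_prop)) ?_
    refine Filter.Eventually.of_forall fun x => ?_
    have e0 : |hh 2 x ^ 2 * g ‖x‖ * (x c * x d)| = |hh 2 x| ^ 2 * |g ‖x‖| * |x c * x d| := by
      rw [abs_mul, abs_mul, abs_pow]
    have e00 : |‖x‖ ^ 6 * g ‖x‖| = ‖x‖ ^ 6 * |g ‖x‖| := by rw [abs_mul, abs_pow, abs_norm]
    rw [Real.norm_eq_abs, Real.norm_eq_abs, e0, e00]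
    have e1 := hh2_le x
    have e2 := xx_le x c d
    have e3 : |hh 2 x| ^ 2 * |x c * x d| ≤ (‖x‖ ^ 2) ^ 2 * ‖x‖ ^ 2 :=
      mul_le_mul (pow_le_pow_left₀ (abs_nonneg _) e1 2) e2 (abs_nonneg _) (by positivity)
    calc |hh 2 x| ^ 2 * |g ‖x‖| * |x c * x d| = |hh 2 x| ^ 2 * |x c * x d| * |g ‖x‖| := by ring
      _ ≤ (‖x‖ ^ 2) ^ 2 * ‖x‖ ^ 2 * |g ‖x‖| := mul_le_mul_of_nonneg_right e3 (abs_nonneg _)
      _ = ‖x‖ ^ 6 * |g ‖x‖| := by ring
  obtain ⟨h4, h5⟩ := base hm1 hprod hang (fun x => hh 2 x ^ 2 * g ‖x‖) v hu hv.1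
  refine ⟨h4, ?_⟩
  rw [h5, hv.2]
  have h6 := lin3 hg.1 h1.1 h2.1 (1 / 12) (-3 / 12) (-9 / 12)
  have h7 := (lin2 h6.1 h3.1 1 (27 / 12)).2
  rw [h6.2] at h7
  have h8 : (fun x : E3 => hh 2 x ^ 2 * g ‖x‖ * ((‖x‖ ^ 2 + 3 * x 0 ^ 2) / 3)) = fun x =>
      1 * (1 / 12 * (‖x‖ ^ 6 * g ‖x‖) + -3 / 12 * (x 0 * x 0 * (fun t : ℝ => t ^ 4 * g t) ‖x‖) +
        -9 / 12 * (x 0 ^ 4 * (fun t : ℝ => t ^ 2 * g t) ‖x‖)) + 27 / 12 * (x 0 ^ 6 * g ‖x‖) := by
    funext x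
    rw [hh2_eq]
    ring
  rw [h8, h7, h1.2, h2.2.1, h3.2, hg.2]
  ring



omit hprod hang in
/-- one-variable moments with explicit numbers -/
theorem mom2 (g : ℝ → ℝ) (l : ℕ) (a b c : ℝ) (i j k : ℕ) (m : ℝ)
    (h : ∀ t : ℝ, t ≠ 0 → t ^ l * g t = a * t ^ i + b * t ^ j + c * t ^ k)
    (hm' : a * (((i + 2).factorial : ℝ) / 2) + b * (((j + 2).factorial : ℝ) / 2) +
      c * (((k + 2).factorial : ℝ) / 2) = m) : Mom hm (fun x => ‖x‖ ^ l * g ‖x‖) m :=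
  mom1 hm1 _ a b c i j k (fun x hx => h ‖x‖ (norm_ne_zero_iff.2 hx)) hm'

/-- the functions of the second variable -/
def v0 (_ : ℝ) : ℝ := 1
def v1 (t : ℝ) : ℝ := t
def v2 (t : ℝ) : ℝ := t ^ 2
def vi (t : ℝ) : ℝ := t⁻¹
def vii (t : ℝ) : ℝ := t⁻¹ ^ 2
def vit (t : ℝ) : ℝ := t⁻¹ * t

omit hprod hang in
theorem V0 : Mom hm (fun y : E3 => ‖y‖ ^ 2 * v0 ‖y‖) 12 :=
  mom2 hm1 v0 2 1 0 0 2 0 0 12 (fun t _ => by simp only [v0]; ring) (by norm_num [Nat.factorial])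

omit hprod hang in
theorem V1 : Mom hm (fun y : E3 => ‖y‖ ^ 2 * v1 ‖y‖) 60 :=
  mom2 hm1 v1 2 1 0 0 3 0 0 60 (fun t _ => by simp only [v1]; ring) (by norm_num [Nat.factorial])

omit hprod hang in
theorem V2 : Mom hm (fun y : E3 => ‖y‖ ^ 2 * v2 ‖y‖) 360 :=
  mom2 hm1 v2 2 1 0 0 4 0 0 360 (fun t _ => by simp only [v2]; ring) (by norm_num [Nat.factorial])

omit hprod hang in
theorem Vi : Mom hm (fun y : E3 => ‖y‖ ^ 2 * vi ‖y‖) 3 :=
  mom2 hm1 vi 2 1 0 0 1 0 0 3 (fun t ht => by simp only [vi]; field_simp; ring)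
    (by norm_num [Nat.factorial])

omit hprod hang in
theorem Vii : Mom hm (fun y : E3 => ‖y‖ ^ 2 * vii ‖y‖) 1 :=
  mom2 hm1 vii 2 1 0 0 0 0 0 1 (fun t ht => by simp only [vii]; field_simp; ring)
    (by norm_num [Nat.factorial])

omit hprod hang in
theorem Vit : Mom hm (fun y : E3 => ‖y‖ ^ 2 * vit ‖y‖) 12 :=
  mom2 hm1 vit 2 1 0 0 2 0 0 12 (fun t ht => by simp only [vit]; field_simp; ring)
    (by norm_num [Nat.factorial])

/-- the functions of the first variable -/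
def c1 (t : ℝ) : ℝ := (3 + t) ^ 2 / 36
def c2 (t : ℝ) : ℝ := (3 + t) / 18
def c3 (_ : ℝ) : ℝ := 1 / 36
def d1 (t : ℝ) : ℝ := (1 + t / 3) * (3 + t) / 6
def d2 (t : ℝ) : ℝ := (1 + t / 3) / 6
def k1 (t : ℝ) : ℝ := (9 + 3 * t) ^ 2 / 36
def k2 (t : ℝ) : ℝ := (9 + 3 * t) / 18
def r1 (t : ℝ) : ℝ := (-2 - t⁻¹) ^ 2 / 36
def r2 (t : ℝ) : ℝ := (t - 1) ^ 2 / 36
def r3 (t : ℝ) : ℝ := t⁻¹ ^ 2 / 36
def r4 (t : ℝ) : ℝ := (-2 - t⁻¹) * (t - 1) / 18
def r5 (t : ℝ) : ℝ := (-2 - t⁻¹) * t⁻¹ / 18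
def r6 (t : ℝ) : ℝ := (t - 1) * t⁻¹ / 18
def s1 (t : ℝ) : ℝ := t ^ 2 * r1 t
def s2 (t : ℝ) : ℝ := t ^ 2 * r2 t
def s3 (t : ℝ) : ℝ := t ^ 2 * r3 t
def s4 (t : ℝ) : ℝ := t ^ 2 * r4 t
def s5 (t : ℝ) : ℝ := t ^ 2 * r5 t
def s6 (t : ℝ) : ℝ := t ^ 2 * r6 t

/-- `∫ chi²` -/
theorem chi_sq : Integrable (fun x => chi x ^ 2) pm := by
  have a1 := t1 hm1 hprod hang (g := c1) (v := v0)
    (mom2 hm1 c1 2 (1 / 4) (1 / 6) (1 / 36) 2 3 4 23 (fun t _ => by simp only [c1]; ring)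
      (by norm_num [Nat.factorial])) (V0 hm1)
  have a2 := t1 hm1 hprod hang (g := c2) (v := v1)
    (mom2 hm1 c2 2 (1 / 6) (1 / 18) 0 2 3 0 (16 / 3) (fun t _ => by simp only [c2]; ring)
      (by norm_num [Nat.factorial])) (V1 hm1)
  have a3 := t1 hm1 hprod hang (g := c3) (v := v2)
    (mom2 hm1 c3 2 (1 / 36) 0 0 2 0 0 (1 / 3) (fun t _ => by simp only [c3]; ring)
      (by norm_num [Nat.factorial])) (V2 hm1)
  refine ((a1.add a2).add a3).1.congr (Filter.Eventually.of_forall fun x => ?_)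
  simp only [chi, c1, c2, c3, v0, v1, v2]
  generalize ‖x 0‖ = p
  generalize ‖x 1‖ = q
  generalize dd (x 0) (x 1) = d
  ring

/-- `∫ hh_2 chi²` -/
theorem hchi_sq : Mom pm (fun x => hh 2 (x 0) * chi x ^ 2) 3792 := by
  have a1 := t2 hm1 hprod hang (g := c1) (v := v0) (by unfold c1; fun_prop)
    (mom2 hm1 c1 4 (1 / 4) (1 / 6) (1 / 36) 4 5 6 1070 (fun t _ => by simp only [c1]; ring)
      (by norm_num [Nat.factorial])) (V0 hm1)
  have a2 := t2 hm1 hprod hang (g := c2) (v := v1) (by unfold c2; fun_prop)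
    (mom2 hm1 c2 4 (1 / 6) (1 / 18) 0 4 5 0 200 (fun t _ => by simp only [c2]; ring)
      (by norm_num [Nat.factorial])) (V1 hm1)
  have a3 := t2 hm1 hprod hang (g := c3) (v := v2) (by unfold c3; fun_prop)
    (mom2 hm1 c3 4 (1 / 36) 0 0 4 0 0 10 (fun t _ => by simp only [c3]; ring)
      (by norm_num [Nat.factorial])) (V2 hm1)
  refine ((a1.add a2).add a3).congr (Filter.Eventually.of_forall fun x => ?_) (by norm_num)
  simp only [chi, c1, c2, c3, v0, v1, v2]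
  generalize ‖x 0‖ = p
  generalize ‖x 1‖ = q
  generalize dd (x 0) (x 1) = d
  ring

/-- `∫ dd th_2 chi` -/
theorem dtc : Mom pm (fun x => dd (x 0) (x 1) * th 2 (x 0) * chi x) 5024 := by
  have a1 := t2 hm1 hprod hang (g := d1) (v := v0) (by unfold d1; fun_prop)
    (mom2 hm1 d1 4 (1 / 2) (1 / 3) (1 / 18) 4 5 6 2140 (fun t _ => by simp only [d1]; ring)
      (by norm_num [Nat.factorial])) (V0 hm1)
  have a2 := t2 hm1 hprod hang (g := d2) (v := v1) (by unfold d2; fun_prop)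
    (mom2 hm1 d2 4 (1 / 6) (1 / 18) 0 4 5 0 200 (fun t _ => by simp only [d2]; ring)
      (by norm_num [Nat.factorial])) (V1 hm1)
  refine (a1.add a2).congr (Filter.Eventually.of_forall fun x => ?_) (by norm_num)
  have hth : th 2 (x 0) = (1 + ‖x 0‖ / 3) * hh 2 (x 0) := by
    simp only [th]
    norm_num
    ring
  simp only [chi, d1, d2, v0, v1, hth]
  generalize ‖x 0‖ = p
  generalize ‖x 1‖ = q
  generalize dd (x 0) (x 1) = d
  ring

/-- `∫ kap²` -/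
theorem kap_sq : Mom pm (fun x => kap x ^ 2) 2035584 := by
  have a1 := t3 hm1 hprod hang (g := k1) (v := v0) (by unfold k1; fun_prop)
    (mom2 hm1 k1 6 (9 / 4) (3 / 2) (1 / 4) 6 7 8 771120 (fun t _ => by simp only [k1]; ring)
      (by norm_num [Nat.factorial])) (V0 hm1)
  have a2 := t3 hm1 hprod hang (g := k2) (v := v1) (by unfold k2; fun_prop)
    (mom2 hm1 k2 6 (1 / 2) (1 / 6) 0 6 7 0 40320 (fun t _ => by simp only [k2]; ring)
      (by norm_num [Nat.factorial])) (V1 hm1)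
  have a3 := t3 hm1 hprod hang (g := c3) (v := v2) (by unfold c3; fun_prop)
    (mom2 hm1 c3 6 (1 / 36) 0 0 6 0 0 560 (fun t _ => by simp only [c3]; ring)
      (by norm_num [Nat.factorial])) (V2 hm1)
  refine ((a1.add a2).add a3).congr (Filter.Eventually.of_forall fun x => ?_) (by norm_num)
  simp only [kap, k1, k2, c3, v0, v1, v2]
  generalize ‖x 0‖ = p
  generalize ‖x 1‖ = q
  generalize dd (x 0) (x 1) = d
  ring

omit hm1 hprod hang in
/-- the residual in terms of its pieces -/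
theorem rho_sq_eq (p q d : ℝ) :
    r1 p * v0 q * d ^ 2 + r2 p * vii q * d ^ 2 + r3 p * v2 q * d ^ 2 + r4 p * vi q * d ^ 2 +
      r5 p * v1 q * d ^ 2 + r6 p * vit q * d ^ 2 =
    (d * (-1 / 3 - (p⁻¹ + q⁻¹) / 6 + (p / q + q / p) / 6)) ^ 2 := by
  simp only [r1, r2, r3, r4, r5, r6, v0, v1, v2, vi, vii, vit, div_eq_mul_inv]
  ring

/-- `∫ rho²` -/
theorem rho_sq : Mom pm (fun x => rho x ^ 2) (5 / 3) := by
  have a1 := t1 hm1 hprod hang (g := r1) (v := v0)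
    (mom2 hm1 r1 2 (1 / 9) (1 / 9) (1 / 36) 2 1 0 (61 / 36)
      (fun t ht => by simp only [r1]; field_simp; ring)
      (by norm_num [Nat.factorial])) (V0 hm1)
  have a2 := t1 hm1 hprod hang (g := r2) (v := vii)
    (mom2 hm1 r2 2 (1 / 36) (-1 / 18) (1 / 36) 4 3 2 7
      (fun t ht => by simp only [r2]; ring)
      (by norm_num [Nat.factorial])) (Vii hm1)
  have a3 := t1 hm1 hprod hang (g := r3) (v := v2)
    (mom2 hm1 r3 2 (1 / 36) 0 0 0 0 0 (1 / 36)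
      (fun t ht => by simp only [r3]; field_simp; ring)
      (by norm_num [Nat.factorial])) (V2 hm1)
  have a4 := t1 hm1 hprod hang (g := r4) (v := vi)
    (mom2 hm1 r4 2 (-1 / 9) (1 / 18) (1 / 18) 3 2 1 (-35 / 6)
      (fun t ht => by simp only [r4]; field_simp; ring)
      (by norm_num [Nat.factorial])) (Vi hm1)
  have a5 := t1 hm1 hprod hang (g := r5) (v := v1)
    (mom2 hm1 r5 2 (-1 / 9) (-1 / 18) 0 1 0 0 (-7 / 18)
      (fun t ht => by simp only [r5]; field_simp; ring)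
      (by norm_num [Nat.factorial])) (V1 hm1)
  have a6 := t1 hm1 hprod hang (g := r6) (v := vit)
    (mom2 hm1 r6 2 (1 / 18) (-1 / 18) 0 2 1 0 (1 / 2)
      (fun t ht => by simp only [r6]; field_simp; ring)
      (by norm_num [Nat.factorial])) (Vit hm1)
  refine (((((a1.add a2).add a3).add a4).add a5).add a6).congr
    (Filter.Eventually.of_forall fun x => ?_) (by norm_num)
  exact rho_sq_eq ‖x 0‖ ‖x 1‖ (dd (x 0) (x 1))

omit hm1 hprod hang in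
theorem xrho_sq_eq (p q d : ℝ) :
    s1 p * v0 q * d ^ 2 + s2 p * vii q * d ^ 2 + s3 p * v2 q * d ^ 2 + s4 p * vi q * d ^ 2 +
      s5 p * v1 q * d ^ 2 + s6 p * vit q * d ^ 2 =
    p ^ 2 * (d * (-1 / 3 - (p⁻¹ + q⁻¹) / 6 + (p / q + q / p) / 6)) ^ 2 := by
  rw [← rho_sq_eq]
  simp only [s1, s2, s3, s4, s5, s6]
  ring

/-- `∫ |x_0|² rho²` -/
theorem xrho_sq : Mom pm (fun x : X3 => ‖x 0‖ ^ 2 * rho x ^ 2) (208 / 3) := by
  have a1 := t1 hm1 hprod hang (g := s1) (v := v0)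
    (mom2 hm1 s1 2 (1 / 9) (1 / 9) (1 / 36) 4 3 2 47
      (fun t ht => by simp only [s1, r1]; field_simp; ring)
      (by norm_num [Nat.factorial])) (V0 hm1)
  have a2 := t1 hm1 hprod hang (g := s2) (v := vii)
    (mom2 hm1 s2 2 (1 / 36) (-1 / 18) (1 / 36) 6 5 4 430
      (fun t ht => by simp only [s2, r2]; ring)
      (by norm_num [Nat.factorial])) (Vii hm1)
  have a3 := t1 hm1 hprod hang (g := s3) (v := v2)
    (mom2 hm1 s3 2 (1 / 36) 0 0 2 0 0 (1 / 3)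
      (fun t ht => by simp only [s3, r3]; field_simp; ring)
      (by norm_num [Nat.factorial])) (V2 hm1)
  have a4 := t1 hm1 hprod hang (g := s4) (v := vi)
    (mom2 hm1 s4 2 (-1 / 9) (1 / 18) (1 / 18) 5 4 3 (-770 / 3)
      (fun t ht => by simp only [s4, r4]; field_simp; ring)
      (by norm_num [Nat.factorial])) (Vi hm1)
  have a5 := t1 hm1 hprod hang (g := s5) (v := v1)
    (mom2 hm1 s5 2 (-1 / 9) (-1 / 18) 0 3 2 0 (-22 / 3)
      (fun t ht => by simp only [s5, r5]; field_simp; ring)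
      (by norm_num [Nat.factorial])) (V1 hm1)
  have a6 := t1 hm1 hprod hang (g := s6) (v := vit)
    (mom2 hm1 s6 2 (1 / 18) (-1 / 18) 0 4 3 0 (50 / 3)
      (fun t ht => by simp only [s6, r6]; field_simp; ring)
      (by norm_num [Nat.factorial])) (Vit hm1)
  refine (((((a1.add a2).add a3).add a4).add a5).add a6).congr
    (Filter.Eventually.of_forall fun x => ?_) (by norm_num)
  exact xrho_sq_eq ‖x 0‖ ‖x 1‖ (dd (x 0) (x 1))

end

end Num

theorem p_num (h1 : S_hm) (h2 : S_prod) (h3 : S_ang) : S_num := by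
  refine ⟨Num.chi_sq h1 h2 h3, (Num.rho_sq h1 h2 h3).1, (Num.xrho_sq h1 h2 h3).1,
    (Num.kap_sq h1 h2 h3).1, ?_, (Num.rho_sq h1 h2 h3).2, (Num.xrho_sq h1 h2 h3).2,
    (Num.kap_sq h1 h2 h3).2⟩
  rw [(Num.hchi_sq h1 h2 h3).2, (Num.dtc h1 h2 h3).2]
  norm_num

end MolDis.H
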