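import Pool.Agent.Lib.MP_59f35a_mp.HStmts

/-!
# MP_59f35a_mp : H6, the gap `3/16` on functions odd under the inversion
-/

noncomputable section

open MeasureTheory Filter Topology

namespace MolDis.H.Odd

/-- the density of `hm` -/
def rh (x : E3) : ℝ := Real.exp (-‖x‖) / (8 * Real.pi)

lemma rh_pos (x : E3) : 0 < rh x := by unfold rh; positivity

lemma rh_le (x : E3) : rh x ≤ 1 := by
  unfold rh
  have h1 : Real.exp (-‖x‖) ≤ 1 := Real.exp_le_one_iff.2 (by simp)
  rw [div_le_one (by positivity)]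
  nlinarith [Real.pi_gt_three]

lemma abs_exp_sub (a b : ℝ) (ha : 0 ≤ a) (hb : 0 ≤ b) :
    |Real.exp (-a) - Real.exp (-b)| ≤ |a - b| := by
  wlog h : a ≤ b generalizing a b
  · rw [abs_sub_comm, abs_sub_comm a b]; exact this b a hb ha (le_of_not_ge h)
  have h1 : Real.exp (-b) ≤ Real.exp (-a) := Real.exp_le_exp.2 (by linarith)
  rw [abs_of_nonneg (by linarith), abs_sub_comm, abs_of_nonneg (by linarith)]
  have h2 : Real.exp (-b) = Real.exp (-a) * Real.exp (-(b - a)) := by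
    rw [← Real.exp_add]; congr 1; ring
  have h3 : 1 - (b - a) ≤ Real.exp (-(b - a)) := by
    have := Real.add_one_le_exp (-(b - a)); linarith
  have h4 : Real.exp (-a) ≤ 1 := Real.exp_le_one_iff.2 (by linarith)
  have h5 : 0 < Real.exp (-a) := Real.exp_pos _
  rw [h2]
  nlinarith

lemma rh_lip (x y : E3) : |rh x - rh y| ≤ ‖x - y‖ := by
  unfold rh
  rw [← sub_div, abs_div, abs_of_pos (a := 8 * Real.pi) (by positivity)]
  have h := abs_exp_sub ‖x‖ ‖y‖ (norm_nonneg _) (norm_nonneg _)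
  have h2 : |‖x‖ - ‖y‖| ≤ ‖x - y‖ := abs_norm_sub_norm_le x y
  rw [div_le_iff₀ (by positivity)]
  nlinarith [Real.pi_gt_three, norm_nonneg (x - y)]

lemma rh_cont : Continuous rh := by
  unfold rh; fun_prop

lemma ec_norm (c : Fin 3) : ‖ec c‖ = 1 := by
  simp [ec]

lemma norm_sq3 (x : E3) : ‖x‖ ^ 2 = ∑ d, x d ^ 2 := by
  rw [EuclideanSpace.norm_sq_eq]; simp

lemma abs_coord_le (x : E3) (c : Fin 3) : |x c| ≤ ‖x‖ := by
  have := PiLp.norm_apply_le x c
  simpa using this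

/-! ### Lipschitz functions of bounded support -/

lemma lc_cont {f : E3 → ℝ} (hf : LC1 f) : Continuous f := by
  obtain ⟨K, hK⟩ := hf.lip; exact hK.continuous

lemma lc_bdd {f : E3 → ℝ} (hf : LC1 f) : ∃ B : ℝ, 0 ≤ B ∧ ∀ x, |f x| ≤ B := by
  obtain ⟨K, hK⟩ := hf.lip
  obtain ⟨R, hR⟩ := hf.supp
  refine ⟨|f 0| + K * |R|, by positivity, fun x => ?_⟩
  by_cases h : f x = 0
  · rw [h, abs_zero]; positivity
  · have h1 := hR x h
    have h2 := hK.dist_le_mul x 0
    rw [Real.dist_eq, dist_zero_right] at h2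
    have h3 : |f x| ≤ |f x - f 0| + |f 0| := by
      have := abs_add_le (f x - f 0) (f 0); simpa using this
    have h4 : (K : ℝ) * ‖x‖ ≤ K * |R| :=
      mul_le_mul_of_nonneg_left (h1.trans (le_abs_self R)) K.2
    linarith

lemma lc_mul {f g : E3 → ℝ} (hf : LC1 f) (hg : ∃ K : ℝ, ∀ x y, |g x - g y| ≤ K * ‖x - y‖)
    (hgb : ∃ B : ℝ, ∀ x, |g x| ≤ B) : LC1 (fun x => g x * f x) := by
  obtain ⟨B, hB0, hB⟩ := lc_bdd hf
  obtain ⟨K, hK⟩ := hf.lip
  obtain ⟨R, hR⟩ := hf.supp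
  obtain ⟨L, hL⟩ := hg
  obtain ⟨D, hD⟩ := hgb
  have hD0 : 0 ≤ D := (abs_nonneg _).trans (hD 0)
  refine ⟨⟨(|L| * B + D * K).toNNReal, LipschitzWith.of_dist_le_mul fun x y => ?_⟩, R,
    fun x hx => hR x fun h => hx (by rw [h, mul_zero])⟩
  rw [Real.dist_eq, dist_eq_norm, Real.coe_toNNReal _ (by positivity)]
  have h1 : g x * f x - g y * f y = (g x - g y) * f x + g y * (f x - f y) := by ring
  rw [h1]
  have h2 := hK.dist_le_mul x y
  rw [Real.dist_eq, dist_eq_norm] at h2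
  calc |(g x - g y) * f x + g y * (f x - f y)|
      ≤ |(g x - g y) * f x| + |g y * (f x - f y)| := abs_add_le _ _
    _ ≤ (|L| * ‖x - y‖) * B + D * (K * ‖x - y‖) := by
        rw [abs_mul, abs_mul]
        have h3 : |g x - g y| ≤ |L| * ‖x - y‖ :=
          (hL x y).trans (mul_le_mul_of_nonneg_right (le_abs_self L) (norm_nonneg _))
        gcongr
        · exact hB x
        · exact hD y
    _ = (|L| * B + D * K) * ‖x - y‖ := by ring

lemma lc_sq {f : E3 → ℝ} (hf : LC1 f) : LC1 (fun x => f x ^ 2) := by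
  obtain ⟨B, hB0, hB⟩ := lc_bdd hf
  obtain ⟨K, hK⟩ := hf.lip
  have := lc_mul hf (g := f) ⟨K, fun x y => by
    have h2 := hK.dist_le_mul x y
    rwa [Real.dist_eq, dist_eq_norm] at h2⟩ ⟨B, hB⟩
  simpa [sq] using this

lemma lc_add {f g : E3 → ℝ} (hf : LC1 f) (hg : LC1 g) (a b : ℝ) :
    LC1 (fun x => a * f x + b * g x) := by
  obtain ⟨K, hK⟩ := hf.lip
  obtain ⟨R, hR⟩ := hf.supp
  obtain ⟨L, hL⟩ := hg.lip
  obtain ⟨T, hT⟩ := hg.supp
  refine ⟨⟨(|a| * K + |b| * L).toNNReal, LipschitzWith.of_dist_le_mul fun x y => ?_⟩, max R T,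
    fun x hx => ?_⟩
  · rw [Real.dist_eq, dist_eq_norm, Real.coe_toNNReal _ (by positivity)]
    have h1 : a * f x + b * g x - (a * f y + b * g y) = a * (f x - f y) + b * (g x - g y) := by
      ring
    rw [h1]
    have h2 := hK.dist_le_mul x y
    have h3 := hL.dist_le_mul x y
    rw [Real.dist_eq, dist_eq_norm] at h2 h3
    calc |a * (f x - f y) + b * (g x - g y)|
        ≤ |a * (f x - f y)| + |b * (g x - g y)| := abs_add_le _ _
      _ ≤ |a| * (K * ‖x - y‖) + |b| * (L * ‖x - y‖) := by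
          rw [abs_mul, abs_mul]; gcongr
      _ = _ := by ring
  · by_cases h : f x = 0
    · have h2 : g x ≠ 0 := fun h3 => hx (by rw [h, h3]; ring)
      exact (hT x h2).trans (le_max_right _ _)
    · exact (hR x h).trans (le_max_left _ _)

/-- integrability of bounded measurable functions of bounded support -/
lemma int_of_bdd {g : E3 → ℝ} (hg : AEStronglyMeasurable g volume) (B R : ℝ)
    (hb : ∀ x, |g x| ≤ B) (h0 : ∀ x, R < ‖x‖ → g x = 0) : Integrable g volume := by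
  have h1 : Integrable (Set.indicator (Metric.closedBall (0 : E3) R) fun _ => B) volume := by
    rw [integrable_indicator_iff Metric.isClosed_closedBall.measurableSet]
    exact integrableOn_const (hs := (measure_closedBall_lt_top).ne)
  refine h1.mono' hg (Eventually.of_forall fun x => ?_)
  by_cases h : R < ‖x‖
  · rw [h0 x h, norm_zero]
    refine Set.indicator_nonneg (fun _ _ => (abs_nonneg _).trans (hb 0)) _
  · rw [Set.indicator_of_mem (by simpa using not_lt.1 h)]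
    exact hb x

lemma pd1_meas {f : E3 → ℝ} (hf : LC1 f) (c : Fin 3) : Measurable (pd1 c f) :=
  measurable_lineDeriv (lc_cont hf)

lemma pd1_bdd {f : E3 → ℝ} (hf : LC1 f) : ∃ B : ℝ, 0 ≤ B ∧ ∀ c x, |pd1 c f x| ≤ B := by
  obtain ⟨K, hK⟩ := hf.lip
  refine ⟨K, K.2, fun c x => ?_⟩
  have := norm_lineDeriv_le_of_lipschitz ℝ (v := ec c) (x₀ := x) hK
  rw [ec_norm, mul_one] at this
  exact this

lemma pd1_zero {f : E3 → ℝ} {R : ℝ} (hR : ∀ x, f x ≠ 0 → ‖x‖ ≤ R) (c : Fin 3) (x : E3)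
    (hx : R < ‖x‖) : pd1 c f x = 0 := by
  have h1 : f =ᶠ[𝓝 x] fun _ => (0 : ℝ) := by
    have h2 : {y : E3 | R < ‖y‖} ∈ 𝓝 x :=
      (isOpen_lt continuous_const continuous_norm).mem_nhds hx
    filter_upwards [h2] with y hy
    by_contra h3
    exact absurd (hR y h3) (not_le.2 hy)
  unfold pd1
  rw [h1.lineDeriv_eq]
  simp [lineDeriv]

lemma pd1_ae {f : E3 → ℝ} (hf : LC1 f) :
    ∀ᵐ x ∂(volume : Measure E3), ∀ c, HasLineDerivAt ℝ f (pd1 c f x) x (ec c) := by
  obtain ⟨K, hK⟩ := hf.lip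
  rw [ae_all_iff]
  intro c
  filter_upwards [hK.ae_lineDifferentiableAt (μ := volume) (ec c)] with x hx
  exact hx.hasLineDerivAt

/-- the line derivative of the norm -/
lemma norm_line {x : E3} (hx : x ≠ 0) (c : Fin 3) :
    HasLineDerivAt ℝ (fun y : E3 => ‖y‖) (x c / ‖x‖) x (ec c) := by
  unfold HasLineDerivAt
  have h1 : HasDerivAt (fun t : ℝ => x + t • ec c) (ec c) 0 := by
    have := ((hasDerivAt_id (0 : ℝ)).smul_const (ec c)).const_add x
    simpa using this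
  have h2 := h1.norm_sq
  have h3 : (‖x + (0 : ℝ) • ec c‖ ^ 2) ≠ 0 := by simpa using hx
  have h4 := h2.sqrt h3
  simp only [Real.sqrt_sq (norm_nonneg _), zero_smul, add_zero] at h4
  have h5 : inner ℝ x (ec c) = x c := by
    unfold ec
    rw [EuclideanSpace.inner_single_right]; simp
  have h6 : x c / ‖x‖ = 2 * inner ℝ x (ec c) / (2 * ‖x‖) := by
    rw [h5]
    have : ‖x‖ ≠ 0 := norm_ne_zero_iff.2 hx
    field_simp
  rw [h6]
  exact h4

lemma rh_line {x : E3} (hx : x ≠ 0) (c : Fin 3) :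
    HasLineDerivAt ℝ rh (-(rh x * (x c / ‖x‖))) x (ec c) := by
  have h1 := norm_line hx c
  unfold HasLineDerivAt at h1 ⊢
  have h2 := (h1.neg.exp).div_const (8 * Real.pi)
  simp only [Pi.neg_apply, zero_smul, add_zero] at h2
  have h3 : -(rh x * (x c / ‖x‖)) = Real.exp (-‖x‖) * -(x c / ‖x‖) / (8 * Real.pi) := by
    unfold rh; ring
  rw [h3]
  exact h2

/-- the regularised logarithmic derivative of `x_c` -/
def wv (ε t : ℝ) : ℝ := t / (t ^ 2 + ε ^ 2)

lemma wv_abs {ε : ℝ} (hε : 0 < ε) (t : ℝ) : |wv ε t| ≤ 1 / ε := by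
  unfold wv
  have h1 : 0 < t ^ 2 + ε ^ 2 := by positivity
  rw [abs_div, abs_of_pos h1, div_le_div_iff₀ h1 hε]
  rcases abs_cases t with ⟨h, _⟩ | ⟨h, _⟩ <;> rw [h] <;>
    nlinarith [sq_nonneg (t - ε), sq_nonneg (t + ε), sq_nonneg t, sq_nonneg ε]

lemma wv_deriv {ε : ℝ} (hε : 0 < ε) (t : ℝ) :
    HasDerivAt (wv ε) ((ε ^ 2 - t ^ 2) / (t ^ 2 + ε ^ 2) ^ 2) t := by
  unfold wv
  have h1 : t ^ 2 + ε ^ 2 ≠ 0 := by positivity
  have h2 : HasDerivAt (fun t : ℝ => t ^ 2 + ε ^ 2) (2 * t) t := by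
    simpa using (hasDerivAt_pow 2 t).add_const (ε ^ 2)
  have := (hasDerivAt_id t).div h2 h1
  have h3 : (ε ^ 2 - t ^ 2) / (t ^ 2 + ε ^ 2) ^ 2
      = (1 * (t ^ 2 + ε ^ 2) - id t * (2 * t)) / (t ^ 2 + ε ^ 2) ^ 2 := by
    simp only [id]
    congr 1
    ring
  rw [h3]
  exact this

lemma wv_lip {ε : ℝ} (hε : 0 < ε) (s t : ℝ) : |wv ε s - wv ε t| ≤ 1 / ε ^ 2 * |s - t| := by
  have hs : 0 < s ^ 2 + ε ^ 2 := by positivity
  have ht : 0 < t ^ 2 + ε ^ 2 := by positivity
  have h1 : wv ε s - wv ε t = (s - t) * ((ε ^ 2 - s * t) / ((s ^ 2 + ε ^ 2) * (t ^ 2 + ε ^ 2))) := by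
    unfold wv
    field_simp
    ring
  rw [h1, abs_mul, mul_comm]
  refine mul_le_mul_of_nonneg_right ?_ (abs_nonneg _)
  rw [abs_div, abs_of_pos (mul_pos hs ht), div_le_div_iff₀ (mul_pos hs ht) (by positivity)]
  have h2 : |ε ^ 2 - s * t| ≤ ε ^ 2 + |s| * |t| := by
    have := abs_sub (ε ^ 2) (s * t)
    rw [abs_of_nonneg (sq_nonneg ε), abs_mul] at this
    exact this
  have h3 : ε ^ 2 * (ε ^ 2 + |s| * |t|) ≤ (s ^ 2 + ε ^ 2) * (t ^ 2 + ε ^ 2) := by
    rw [← sq_abs s, ← sq_abs t]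
    nlinarith [sq_nonneg (|s| - |t|), abs_nonneg s, abs_nonneg t, sq_nonneg (|s| * |t|),
      mul_nonneg (abs_nonneg s) (abs_nonneg t), sq_nonneg ε,
      mul_nonneg (sq_nonneg ε) (sq_nonneg (|s| - |t|)),
      mul_nonneg (sq_nonneg ε) (mul_nonneg (abs_nonneg s) (abs_nonneg t))]
  nlinarith [sq_nonneg ε]

/-- the field `G` -/
def Gf (ε : ℝ) (c : Fin 3) (x : E3) : ℝ := wv ε (x c) * rh x

lemma Gf_line {ε : ℝ} (hε : 0 < ε) {x : E3} (hx : x ≠ 0) (c : Fin 3) :
    HasLineDerivAt ℝ (Gf ε c)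
      ((ε ^ 2 - x c ^ 2) / (x c ^ 2 + ε ^ 2) ^ 2 * rh x + wv ε (x c) * (-(rh x * (x c / ‖x‖))))
      x (ec c) := by
  have h1 := rh_line hx c
  unfold HasLineDerivAt at h1 ⊢
  have h2 : HasDerivAt (fun t : ℝ => (x + t • ec c) c) 1 0 := by
    have h3 : (fun t : ℝ => (x + t • ec c) c) = fun t => x c + t := by
      funext t; simp [ec]
    rw [h3]
    simpa using (hasDerivAt_id (0 : ℝ)).const_add (x c)
  have h4 : (x + (0 : ℝ) • ec c) c = x c := by simp
  have h5 := (wv_deriv hε ((x + (0 : ℝ) • ec c) c)).comp (0 : ℝ) h2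
  have h6 := h5.mul h1
  simp only [Function.comp_apply, zero_smul, add_zero, mul_one] at h6
  exact h6

lemma Gf_lip {ε : ℝ} (hε : 0 < ε) (c : Fin 3) (x y : E3) :
    |Gf ε c x - Gf ε c y| ≤ (1 / ε ^ 2 + 1 / ε) * ‖x - y‖ := by
  unfold Gf
  have h1 : wv ε (x c) * rh x - wv ε (y c) * rh y
      = (wv ε (x c) - wv ε (y c)) * rh x + wv ε (y c) * (rh x - rh y) := by ring
  rw [h1]
  have h2 : |x c - y c| ≤ ‖x - y‖ := by
    have := abs_coord_le (x - y) c
    simpa using this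
  calc _ ≤ |(wv ε (x c) - wv ε (y c)) * rh x| + |wv ε (y c) * (rh x - rh y)| := abs_add_le _ _
    _ ≤ (1 / ε ^ 2 * ‖x - y‖) * 1 + 1 / ε * ‖x - y‖ := by
        rw [abs_mul, abs_mul, abs_of_pos (rh_pos x)]
        have h3 := (wv_lip hε (x c) (y c)).trans
          (mul_le_mul_of_nonneg_left h2 (by positivity))
        exact add_le_add (mul_le_mul h3 (rh_le x) (rh_pos x).le (by positivity))
          (mul_le_mul (wv_abs hε _) (rh_lip x y) (abs_nonneg _) (by positivity))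
    _ = _ := by ring

lemma rf_lc {f : E3 → ℝ} (hf : LC1 f) : LC1 (fun x => rh x * f x ^ 2) :=
  lc_mul (lc_sq hf) ⟨1, fun x y => by simpa using rh_lip x y⟩
    ⟨1, fun x => by rw [abs_of_pos (rh_pos x)]; exact rh_le x⟩

lemma rf_int {f : E3 → ℝ} (hf : LC1 f) : Integrable (fun x => rh x * f x ^ 2) := by
  have h := rf_lc hf
  obtain ⟨B, hB0, hB⟩ := lc_bdd h
  obtain ⟨R, hR⟩ := h.supp
  refine int_of_bdd (lc_cont h).aestronglyMeasurable B R hB fun x hx => ?_
  by_contra h3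
  exact absurd (hR x h3) (not_le.2 hx)

lemma rd_int {f : E3 → ℝ} (hf : LC1 f) (d : Fin 3) :
    Integrable (fun x => rh x * (pd1 d f x * pd1 d f x)) := by
  obtain ⟨B, hB0, hB⟩ := pd1_bdd hf
  obtain ⟨R, hR⟩ := hf.supp
  have hm1 : Measurable fun x => rh x * (pd1 d f x * pd1 d f x) :=
    rh_cont.measurable.mul ((pd1_meas hf d).mul (pd1_meas hf d))
  refine int_of_bdd hm1.aestronglyMeasurable (B * B) R (fun x => ?_) fun x hx => ?_
  · rw [abs_mul, abs_mul, abs_of_pos (rh_pos x)]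
    calc rh x * (|pd1 d f x| * |pd1 d f x|) ≤ 1 * (B * B) := by
          refine mul_le_mul (rh_le x) (mul_le_mul (hB d x) (hB d x) (abs_nonneg _) hB0)
            (by positivity) zero_le_one
      _ = B * B := one_mul _
  · rw [pd1_zero hR d x hx]; simp

lemma D1_eq (hhm : S_hm) {f : E3 → ℝ} (hf : LC1 f) :
    D1 f f = ∫ x, rh x * ∑ d, pd1 d f x ^ 2 := by
  have h1 : ∀ d : Fin 3, ∫ x, pd1 d f x * pd1 d f x ∂hm = ∫ x, rh x * (pd1 d f x * pd1 d f x) :=
    fun d => hhm.2.2.2.1 _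
  unfold D1
  simp only [h1]
  rw [← integral_finsetSum _ fun d _ => rd_int hf d]
  congr 1
  funext x
  rw [Finset.mul_sum]
  refine Finset.sum_congr rfl fun d _ => ?_
  ring

/-- the error term -/
def Ee (f : E3 → ℝ) (c : Fin 3) (ε : ℝ) (x : E3) : ℝ :=
  rh x * f x ^ 2 * (ε ^ 2 / (x c ^ 2 + ε ^ 2) ^ 2)
    + rh x * f x ^ 2 * ‖x‖⁻¹ * (ε ^ 2 / (2 * (x c ^ 2 + ε ^ 2)))

/-- the pointwise inequality -/
lemma point_ineq {F w t n r e : ℝ} {a u : Fin 3 → ℝ} (c : Fin 3) (hr : 0 ≤ r) (he : 0 < e)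
    (hn : 0 < n) (hw : w = t / (t ^ 2 + e ^ 2)) (ht : t = n * u c) (hu : ∑ d, u d ^ 2 = 1) :
    3 / 16 * (r * F ^ 2)
      + (((e ^ 2 - t ^ 2) / (t ^ 2 + e ^ 2) ^ 2 * r + w * (-(r * u c))) * F ^ 2
          + w * r * (2 * F * a c))
      + 1 / 4 * ((∑ d, (r * (2 * F * a d) - r * u d * F ^ 2) * u d) + 2 * (r * F ^ 2) * n⁻¹) ≤
    r * ∑ d, a d ^ 2 + (r * F ^ 2 * (e ^ 2 / (t ^ 2 + e ^ 2) ^ 2)
      + r * F ^ 2 * n⁻¹ * (e ^ 2 / (2 * (t ^ 2 + e ^ 2)))) := by
  have hq : 0 < t ^ 2 + e ^ 2 := by positivity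
  have h1 : 0 ≤ r * ∑ d, (a d - ((if d = c then w else 0) + u d / 4) * F) ^ 2 := by positivity
  have h2 : ∑ d, (a d - ((if d = c then w else 0) + u d / 4) * F) ^ 2
      = ∑ d, a d ^ 2 - 2 * F * (a c * w) - F / 2 * ∑ d, a d * u d
        + F ^ 2 * (w ^ 2 + w * u c / 2 + 1 / 16) := by
    have h3 : ∀ d, (a d - ((if d = c then w else 0) + u d / 4) * F) ^ 2
        = a d ^ 2 - 2 * F * (if d = c then a d * w else 0) - F / 2 * (a d * u d)
          + F ^ 2 * ((if d = c then w ^ 2 + w * u d / 2 else 0) + u d ^ 2 / 16) := by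
      intro d
      split_ifs <;> ring
    simp only [h3, Finset.sum_add_distrib, Finset.sum_sub_distrib, ← Finset.mul_sum,
      Finset.sum_ite_eq', Finset.mem_univ, if_true, ← Finset.sum_div, hu]
  have h4 : ∑ d, (r * (2 * F * a d) - r * u d * F ^ 2) * u d
      = 2 * r * F * (∑ d, a d * u d) - r * F ^ 2 := by
    have h5 : ∀ d, (r * (2 * F * a d) - r * u d * F ^ 2) * u d
        = 2 * r * F * (a d * u d) - r * F ^ 2 * u d ^ 2 := fun d => by ring
    simp only [h5, Finset.sum_sub_distrib, ← Finset.mul_sum, hu, mul_one]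
  rw [h4]
  rw [h2] at h1
  have h6 : w ^ 2 + (e ^ 2 - t ^ 2) / (t ^ 2 + e ^ 2) ^ 2 = e ^ 2 / (t ^ 2 + e ^ 2) ^ 2 := by
    rw [hw]; field_simp; ring
  have h7 : n⁻¹ - w * u c = n⁻¹ * (e ^ 2 / (t ^ 2 + e ^ 2)) := by
    have h8 : u c = t * n⁻¹ := by rw [ht]; field_simp
    rw [hw, h8]; field_simp; ring
  have h9 : e ^ 2 / (2 * (t ^ 2 + e ^ 2)) = (e ^ 2 / (t ^ 2 + e ^ 2)) / 2 := by
    field_simp
  rw [h9]
  have h10 : r * F ^ 2 * n⁻¹ * (e ^ 2 / (t ^ 2 + e ^ 2) / 2)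
      = r * F ^ 2 * (n⁻¹ - w * u c) / 2 := by rw [h7]; ring
  rw [h10, ← h6]
  nlinarith [h1]

/-- gap for functions vanishing on a coordinate plane -/
lemma coord_gap (hhm : S_hm) (hibp : S_ibp) (hdiv : S_div) {f : E3 → ℝ} (hf : LC1 f)
    (c : Fin 3) (hz : ∀ x : E3, x c = 0 → f x = 0) :
    3 / 16 * ∫ x, f x ^ 2 ∂hm ≤ D1 f f := by
  have hfc : ∃ K : ℝ, 0 ≤ K ∧ ∀ x : E3, f x ^ 2 ≤ K * x c ^ 2 := by
    obtain ⟨K, hK⟩ := hf.lip
    refine ⟨K ^ 2, by positivity, fun x => ?_⟩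
    have h1 : (x - x c • ec c) c = 0 := by simp [ec]
    have h2 := hK.dist_le_mul x (x - x c • ec c)
    rw [hz _ h1, dist_zero_right, dist_eq_norm, sub_sub_cancel, norm_smul, ec_norm, mul_one,
      Real.norm_eq_abs, Real.norm_eq_abs] at h2
    rw [← sq_abs (f x), ← sq_abs (x c), ← mul_pow]
    exact pow_le_pow_left₀ (abs_nonneg _) h2 2
  obtain ⟨K, hK0, hK⟩ := hfc
  have hfsq := lc_sq hf
  have hrf := rf_lc hf
  have hdv := hdiv _ hrf
  -- integrability of the error term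
  have hEint : ∀ ε : ℝ, 0 < ε → Integrable (Ee f c ε) := by
    intro ε hε
    have hm1 : Measurable fun x : E3 => ε ^ 2 / (x c ^ 2 + ε ^ 2) ^ 2 := by fun_prop
    have hm2 : Measurable fun x : E3 => ε ^ 2 / (2 * (x c ^ 2 + ε ^ 2)) := by fun_prop
    have h1 : Integrable fun x => rh x * f x ^ 2 * (ε ^ 2 / (x c ^ 2 + ε ^ 2) ^ 2) := by
      refine (rf_int hf).mul_bdd (c := 1 / ε ^ 2) hm1.aestronglyMeasurable
        (Eventually.of_forall fun x => ?_)
      rw [Real.norm_eq_abs, abs_of_nonneg (by positivity), div_le_div_iff₀ (by positivity)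
        (by positivity)]
      nlinarith [sq_nonneg (x c), mul_nonneg (sq_nonneg (x c)) (sq_nonneg ε),
        sq_nonneg (x c ^ 2)]
    have h2 : Integrable fun x =>
        rh x * f x ^ 2 * ‖x‖⁻¹ * (ε ^ 2 / (2 * (x c ^ 2 + ε ^ 2))) := by
      refine hdv.1.mul_bdd (c := 1) hm2.aestronglyMeasurable
        (Eventually.of_forall fun x => ?_)
      rw [Real.norm_eq_abs, abs_of_nonneg (by positivity), div_le_one (by positivity)]
      nlinarith [sq_nonneg (x c), sq_nonneg ε]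
    exact h1.add h2
  -- the main inequality
  have hmain : ∀ ε : ℝ, 0 < ε →
      3 / 16 * ∫ x, rh x * f x ^ 2 ≤ D1 f f + ∫ x, Ee f c ε x := by
    intro ε hε
    have hG := hibp (Gf ε c) (fun x => f x ^ 2) c
      (fun R => ⟨1 / ε ^ 2 + 1 / ε, fun x y _ _ => Gf_lip hε c x y⟩) hfsq
    have hI2i : Integrable fun x : E3 =>
        ∑ d, pd1 d (fun x => rh x * f x ^ 2) x * (x d / ‖x‖) := by
      refine integrable_finsetSum _ fun d _ => ?_
      obtain ⟨B, hB0, hB⟩ := pd1_bdd hrf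
      obtain ⟨R, hR⟩ := hrf.supp
      have hm1 : Measurable fun x : E3 =>
          pd1 d (fun x => rh x * f x ^ 2) x * (x d / ‖x‖) :=
        (pd1_meas hrf d).mul (by fun_prop)
      refine int_of_bdd hm1.aestronglyMeasurable B R (fun x => ?_) fun x hx => ?_
      · rw [abs_mul]
        have h1 : |x d / ‖x‖| ≤ 1 := by
          rw [abs_div, abs_norm]
          exact div_le_one_of_le₀ (abs_coord_le x d) (norm_nonneg _)
        calc _ ≤ B * 1 := mul_le_mul (hB d x) h1 (abs_nonneg _) hB0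
          _ = B := mul_one _
      · rw [pd1_zero hR d x hx, zero_mul]
    have hI2 : ∫ x : E3, ((∑ d, pd1 d (fun x => rh x * f x ^ 2) x * (x d / ‖x‖))
        + 2 * (rh x * f x ^ 2) * ‖x‖⁻¹) = 0 := by
      have h1 : Integrable fun x : E3 => 2 * (rh x * f x ^ 2) * ‖x‖⁻¹ := by
        have := hdv.1.const_mul 2
        simpa [mul_assoc] using this
      rw [integral_add hI2i h1, hdv.2]
      ring
    have hI2' : Integrable fun x : E3 => ((∑ d, pd1 d (fun x => rh x * f x ^ 2) x * (x d / ‖x‖))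
        + 2 * (rh x * f x ^ 2) * ‖x‖⁻¹) := by
      have h1 : Integrable fun x : E3 => 2 * (rh x * f x ^ 2) * ‖x‖⁻¹ := by
        have := hdv.1.const_mul 2
        simpa [mul_assoc] using this
      exact hI2i.add h1
    have hI1 : ∫ x : E3, (pd1 c (Gf ε c) x * f x ^ 2
        + Gf ε c x * pd1 c (fun x => f x ^ 2) x) = 0 := by
      rw [integral_add hG.1 hG.2.1, hG.2.2]; ring
    have hI1' : Integrable fun x : E3 => (pd1 c (Gf ε c) x * f x ^ 2
        + Gf ε c x * pd1 c (fun x => f x ^ 2) x) := hG.1.add hG.2.1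
    have hDi : Integrable fun x => rh x * ∑ d, pd1 d f x ^ 2 := by
      have : (fun x => rh x * ∑ d, pd1 d f x ^ 2)
          = fun x => ∑ d, rh x * (pd1 d f x * pd1 d f x) := by
        funext x
        rw [Finset.mul_sum]
        refine Finset.sum_congr rfl fun d _ => ?_
        ring
      rw [this]
      exact integrable_finsetSum _ fun d _ => rd_int hf d
    have hx0 : ∀ᵐ x ∂(volume : Measure E3), x ≠ 0 := by
      simp [ae_iff]
    have hae : ∀ᵐ x ∂(volume : Measure E3),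
        3 / 16 * (rh x * f x ^ 2)
          + (pd1 c (Gf ε c) x * f x ^ 2 + Gf ε c x * pd1 c (fun x => f x ^ 2) x)
          + 1 / 4 * ((∑ d, pd1 d (fun x => rh x * f x ^ 2) x * (x d / ‖x‖))
            + 2 * (rh x * f x ^ 2) * ‖x‖⁻¹) ≤
        rh x * (∑ d, pd1 d f x ^ 2) + Ee f c ε x := by
      filter_upwards [hx0, pd1_ae hf] with x hx hd
      have hn : 0 < ‖x‖ := norm_pos_iff.2 hx
      have h1 : ∀ d, pd1 d (fun x => f x ^ 2) x = 2 * f x * pd1 d f x := by
        intro d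
        have h2 := hd d
        have h3 : HasLineDerivAt ℝ (fun x => f x ^ 2) (2 * f x * pd1 d f x) x (ec d) := by
          unfold HasLineDerivAt at h2 ⊢
          have := h2.fun_pow 2
          simpa using this
        exact h3.lineDeriv
      have h4 : ∀ d, pd1 d (fun x => rh x * f x ^ 2) x
          = rh x * (2 * f x * pd1 d f x) - rh x * (x d / ‖x‖) * f x ^ 2 := by
        intro d
        have h2 := hd d
        have h5 := rh_line hx d
        have h3 : HasLineDerivAt ℝ (fun x => rh x * f x ^ 2)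
            (-(rh x * (x d / ‖x‖)) * f x ^ 2 + rh x * (2 * f x * pd1 d f x)) x (ec d) := by
          unfold HasLineDerivAt at h2 h5 ⊢
          have := h5.fun_mul (h2.fun_pow 2)
          simpa using this
        unfold pd1
        rw [h3.lineDeriv]
        unfold pd1
        ring
      have h6 : pd1 c (Gf ε c) x = (ε ^ 2 - x c ^ 2) / (x c ^ 2 + ε ^ 2) ^ 2 * rh x
          + wv ε (x c) * (-(rh x * (x c / ‖x‖))) := (Gf_line hε hx c).lineDeriv
      have h7 : ∑ d, (x d / ‖x‖) ^ 2 = 1 := by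
        simp only [div_pow]
        rw [← Finset.sum_div, ← norm_sq3, div_self (by positivity)]
      rw [h6, h1 c]
      simp only [h4]
      have := point_ineq (F := f x) (w := wv ε (x c)) (t := x c) (n := ‖x‖) (r := rh x) (e := ε)
        (a := fun d => pd1 d f x) (u := fun d => x d / ‖x‖) c (rh_pos x).le hε hn rfl
        (by field_simp) h7
      unfold Ee Gf
      exact this
    have hL : ∫ x : E3, (3 / 16 * (rh x * f x ^ 2)
          + (pd1 c (Gf ε c) x * f x ^ 2 + Gf ε c x * pd1 c (fun x => f x ^ 2) x)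
          + 1 / 4 * ((∑ d, pd1 d (fun x => rh x * f x ^ 2) x * (x d / ‖x‖))
            + 2 * (rh x * f x ^ 2) * ‖x‖⁻¹)) = 3 / 16 * ∫ x, rh x * f x ^ 2 := by
      have hA : Integrable fun x : E3 => (3 / 16 * (rh x * f x ^ 2)
          + (pd1 c (Gf ε c) x * f x ^ 2 + Gf ε c x * pd1 c (fun x => f x ^ 2) x)) :=
        ((rf_int hf).const_mul _).add hI1'
      rw [integral_add hA (hI2'.const_mul _),
        integral_add ((rf_int hf).const_mul _) hI1', integral_const_mul, integral_const_mul,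
        hI1, hI2]
      ring
    have hR : ∫ x : E3, (rh x * (∑ d, pd1 d f x ^ 2) + Ee f c ε x)
        = D1 f f + ∫ x, Ee f c ε x := by
      rw [integral_add hDi (hEint ε hε), D1_eq hhm hf]
    rw [← hL, ← hR]
    exact integral_mono_ae ((((rf_int hf).const_mul _).add hI1').add (hI2'.const_mul _))
      (hDi.add (hEint ε hε)) hae
  -- the limit
  have hlim : Tendsto (fun n : ℕ => ∫ x, Ee f c (1 / ((n : ℝ) + 1)) x) atTop (𝓝 0) := by
    have h0 : (0 : ℝ) = ∫ x : E3, (0 : ℝ) := by simp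
    rw [h0]
    obtain ⟨R, hR⟩ := hf.supp
    have hbi : Integrable ((Metric.closedBall (0 : E3) R).indicator (fun _ => K)) volume := by
      rw [integrable_indicator_iff Metric.isClosed_closedBall.measurableSet]
      exact integrableOn_const (hs := (measure_closedBall_lt_top).ne)
    refine tendsto_integral_of_dominated_convergence
      (fun x => (Metric.closedBall (0 : E3) R).indicator (fun _ => K) x
        + rh x * f x ^ 2 * ‖x‖⁻¹) (fun n => (hEint _ (by positivity)).aestronglyMeasurable)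
      (hbi.add hdv.1) (fun n => Eventually.of_forall fun x => ?_)
      (Eventually.of_forall fun x => ?_)
    · set e : ℝ := 1 / ((n : ℝ) + 1) with he
      have he0 : 0 < e := by positivity
      have hE0 : 0 ≤ Ee f c e x := by
        unfold Ee
        have := rh_pos x
        positivity
      rw [Real.norm_eq_abs, abs_of_nonneg hE0]
      unfold Ee
      refine add_le_add ?_ ?_
      · by_cases hfx : f x = 0
        · rw [hfx]
          simp only [ne_eq, OfNat.ofNat_ne_zero, not_false_eq_true, zero_pow, mul_zero, zero_mul]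
          exact Set.indicator_nonneg (fun _ _ => hK0) _
        · rw [Set.indicator_of_mem (by simpa using hR x hfx)]
          have hq : 0 < x c ^ 2 + e ^ 2 := by positivity
          have h1 : rh x * f x ^ 2 * (e ^ 2 / (x c ^ 2 + e ^ 2) ^ 2)
              ≤ 1 * (K * x c ^ 2) * (e ^ 2 / (x c ^ 2 + e ^ 2) ^ 2) := by
            refine mul_le_mul_of_nonneg_right ?_ (by positivity)
            exact mul_le_mul (rh_le x) (hK x) (sq_nonneg _) zero_le_one
          have h2 : x c ^ 2 * (e ^ 2 / (x c ^ 2 + e ^ 2) ^ 2) ≤ 1 := by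
            rw [← mul_div_assoc, div_le_one (by positivity)]
            nlinarith [sq_nonneg (x c), sq_nonneg e, mul_nonneg (sq_nonneg (x c)) (sq_nonneg e),
              sq_nonneg (x c ^ 2), sq_nonneg (e ^ 2)]
          calc _ ≤ 1 * (K * x c ^ 2) * (e ^ 2 / (x c ^ 2 + e ^ 2) ^ 2) := h1
            _ = K * (x c ^ 2 * (e ^ 2 / (x c ^ 2 + e ^ 2) ^ 2)) := by ring
            _ ≤ K * 1 := mul_le_mul_of_nonneg_left h2 hK0
            _ = K := mul_one _
      · have h1 : e ^ 2 / (2 * (x c ^ 2 + e ^ 2)) ≤ 1 := by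
          rw [div_le_one (by positivity)]
          nlinarith [sq_nonneg (x c), sq_nonneg e]
        have h2 : 0 ≤ rh x * f x ^ 2 * ‖x‖⁻¹ := by
          have := rh_pos x
          positivity
        calc _ ≤ rh x * f x ^ 2 * ‖x‖⁻¹ * 1 := mul_le_mul_of_nonneg_left h1 h2
          _ = _ := mul_one _
    · by_cases hxc : x c = 0
      · have hfx := hz x hxc
        have : (fun n : ℕ => Ee f c (1 / ((n : ℝ) + 1)) x) = fun _ => 0 := by
          funext n
          unfold Ee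
          rw [hfx]
          simp
        rw [this]
        exact tendsto_const_nhds
      · have h1 : Tendsto (fun n : ℕ => 1 / ((n : ℝ) + 1)) atTop (𝓝 0) :=
          tendsto_one_div_add_atTop_nhds_zero_nat
        have h2 : ContinuousAt (fun e : ℝ => Ee f c e x) 0 := by
          unfold Ee
          have hc : x c ^ 2 + (0 : ℝ) ^ 2 ≠ 0 := by simpa using hxc
          have hc1 : (x c ^ 2 + (0 : ℝ) ^ 2) ^ 2 ≠ 0 := pow_ne_zero _ hc
          have hc2 : 2 * (x c ^ 2 + (0 : ℝ) ^ 2) ≠ 0 := mul_ne_zero two_ne_zero hc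
          refine ContinuousAt.add ?_ ?_
          · refine continuousAt_const.mul (ContinuousAt.div (by fun_prop) (by fun_prop) hc1)
          · refine continuousAt_const.mul (ContinuousAt.div (by fun_prop) (by fun_prop) hc2)
        have h3 : Ee f c 0 x = 0 := by unfold Ee; simp
        have h4 := h2.tendsto
        rw [h3] at h4
        exact h4.comp h1
  have h5 : Tendsto (fun n : ℕ => D1 f f + ∫ x, Ee f c (1 / ((n : ℝ) + 1)) x) atTop
      (𝓝 (D1 f f + 0)) := tendsto_const_nhds.add hlim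
  rw [add_zero] at h5
  have h6 : ∫ x, f x ^ 2 ∂hm = ∫ x, rh x * f x ^ 2 := hhm.2.2.2.1 _
  rw [h6]
  exact ge_of_tendsto' h5 fun n => hmain _ (by positivity)

/-! ### reflections -/

/-- the reflection `x_c ↦ -x_c` -/
def Rf (c : Fin 3) : E3 ≃ₗᵢ[ℝ] E3 :=
  LinearIsometryEquiv.piLpCongrRight 2 fun i =>
    if i = c then LinearIsometryEquiv.neg ℝ else LinearIsometryEquiv.refl ℝ ℝ

lemma Rf_apply (c : Fin 3) (x : E3) (d : Fin 3) : Rf c x d = if d = c then -x d else x d := by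
  unfold Rf
  rw [LinearIsometryEquiv.piLpCongrRight_apply]
  simp only
  split_ifs <;> simp

/-- the sign -/
def sg (c d : Fin 3) : ℝ := if d = c then -1 else 1

lemma sg_sq (c d : Fin 3) : sg c d * sg c d = 1 := by
  unfold sg; split_ifs <;> norm_num

lemma Rf_ec (c d : Fin 3) : Rf c (ec d) = sg c d • ec d := by
  ext i
  rw [Rf_apply]
  unfold sg
  by_cases h : i = d
  · subst h
    split_ifs <;> simp
  · have h1 : (ec d : E3) i = 0 := by simp [ec, h]
    rw [PiLp.smul_apply, h1]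
    simp

lemma Rf_lc {f : E3 → ℝ} (hf : LC1 f) (c : Fin 3) : LC1 (fun x => f (Rf c x)) := by
  obtain ⟨K, hK⟩ := hf.lip
  obtain ⟨R, hR⟩ := hf.supp
  refine ⟨⟨K, ?_⟩, R, fun x hx => ?_⟩
  · have := hK.comp (Rf c).lipschitz
    rw [mul_one] at this
    exact this
  · have := hR _ hx
    rwa [LinearIsometryEquiv.norm_map] at this

lemma pd1_Rf (f : E3 → ℝ) (c d : Fin 3) (x : E3) :
    pd1 d (fun x => f (Rf c x)) x = sg c d * pd1 d f (Rf c x) := by
  unfold pd1
  have h1 : lineDeriv ℝ (fun x => f (Rf c x)) x (ec d) = lineDeriv ℝ f (Rf c x) (Rf c (ec d)) := by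
    unfold lineDeriv
    congr 1
    funext t
    simp only [map_add, map_smul]
  rw [h1, Rf_ec, lineDeriv_smul, smul_eq_mul]

lemma int_Rf (hhm : S_hm) (c : Fin 3) (F : E3 → ℝ) :
    ∫ x, F (Rf c x) ∂hm = ∫ x, F x ∂hm :=
  (hhm.2.2.2.2.2.2 (Rf c)).integral_comp (Rf c).toHomeomorph.measurableEmbedding F

lemma D1_Rf (hhm : S_hm) (f : E3 → ℝ) (c : Fin 3) :
    D1 (fun x => f (Rf c x)) (fun x => f (Rf c x)) = D1 f f := by
  unfold D1
  refine Finset.sum_congr rfl fun d _ => ?_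
  rw [← int_Rf hhm c fun x => pd1 d f x * pd1 d f x]
  congr 1
  funext x
  rw [pd1_Rf]
  have := sg_sq c d
  linear_combination (pd1 d f (Rf c x) * pd1 d f (Rf c x)) * this

lemma rD_int {f : E3 → ℝ} (hf : LC1 f) : Integrable fun x => rh x * ∑ d, pd1 d f x ^ 2 := by
  have : (fun x => rh x * ∑ d, pd1 d f x ^ 2)
      = fun x => ∑ d, rh x * (pd1 d f x * pd1 d f x) := by
    funext x
    rw [Finset.mul_sum]
    refine Finset.sum_congr rfl fun d _ => ?_
    ring
  rw [this]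
  exact integrable_finsetSum _ fun d _ => rd_int hf d

lemma split_D {f g : E3 → ℝ} (hhm : S_hm) (hf : LC1 f) (hg : LC1 g) :
    D1 (fun x => 1 / 2 * f x + 1 / 2 * g x) (fun x => 1 / 2 * f x + 1 / 2 * g x)
      + D1 (fun x => 1 / 2 * f x + -1 / 2 * g x) (fun x => 1 / 2 * f x + -1 / 2 * g x)
      = 1 / 2 * D1 f f + 1 / 2 * D1 g g := by
  have hA := lc_add hf hg (1 / 2) (1 / 2)
  have hB := lc_add hf hg (1 / 2) (-1 / 2)
  rw [D1_eq hhm hA, D1_eq hhm hB, D1_eq hhm hf, D1_eq hhm hg, ← integral_add (rD_int hA) (rD_int hB),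
    ← integral_const_mul, ← integral_const_mul,
    ← integral_add ((rD_int hf).const_mul _) ((rD_int hg).const_mul _)]
  refine integral_congr_ae ?_
  filter_upwards [pd1_ae hf, pd1_ae hg] with x h1 h2
  have h3 : ∀ a b : ℝ, ∀ d, pd1 d (fun x => a * f x + b * g x) x
      = a * pd1 d f x + b * pd1 d g x := by
    intro a b d
    have h4 := h1 d
    have h5 := h2 d
    have h6 : HasLineDerivAt ℝ (fun x => a * f x + b * g x)
        (a * pd1 d f x + b * pd1 d g x) x (ec d) := by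
      unfold HasLineDerivAt at h4 h5 ⊢
      exact (h4.const_mul a).fun_add (h5.const_mul b)
    exact h6.lineDeriv
  simp only [h3]
  have h7 : (∑ d, (1 / 2 * pd1 d f x + 1 / 2 * pd1 d g x) ^ 2)
      + (∑ d, (1 / 2 * pd1 d f x + -1 / 2 * pd1 d g x) ^ 2)
      = 1 / 2 * (∑ d, pd1 d f x ^ 2) + 1 / 2 * ∑ d, pd1 d g x ^ 2 := by
    rw [Finset.mul_sum, Finset.mul_sum, ← Finset.sum_add_distrib, ← Finset.sum_add_distrib]
    refine Finset.sum_congr rfl fun d _ => ?_
    ring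
  rw [← mul_add, h7]
  ring

lemma split_I {f g : E3 → ℝ} (hhm : S_hm) (hf : LC1 f) (hg : LC1 g) :
    (∫ x, (1 / 2 * f x + 1 / 2 * g x) ^ 2 ∂hm) + ∫ x, (1 / 2 * f x + -1 / 2 * g x) ^ 2 ∂hm
      = 1 / 2 * (∫ x, f x ^ 2 ∂hm) + 1 / 2 * ∫ x, g x ^ 2 ∂hm := by
  have hA := lc_add hf hg (1 / 2) (1 / 2)
  have hB := lc_add hf hg (1 / 2) (-1 / 2)
  have h : ∀ F : E3 → ℝ, ∫ x, F x ∂hm = ∫ x, rh x * F x := hhm.2.2.2.1
  rw [h, h, h, h, ← integral_add (rf_int hA) (rf_int hB), ← integral_const_mul,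
    ← integral_const_mul, ← integral_add ((rf_int hf).const_mul _) ((rf_int hg).const_mul _)]
  congr 1
  funext x
  ring

end MolDis.H.Odd

namespace MolDis.H

open MolDis.H.Odd

/-- **H6** -/
theorem p_odd (hhm : S_hm) (hibp : S_ibp) (hdiv : S_div) : S_odd := by
  intro f hf hodd
  have hf0 := Rf_lc hf 0
  set A : E3 → ℝ := fun x => 1 / 2 * f x + 1 / 2 * f (Rf 0 x) with hA
  set B : E3 → ℝ := fun x => 1 / 2 * f x + -1 / 2 * f (Rf 0 x) with hB
  have hAl : LC1 A := lc_add hf hf0 _ _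
  have hBl : LC1 B := lc_add hf hf0 _ _
  have hA1 := Rf_lc hAl 1
  set E : E3 → ℝ := fun x => 1 / 2 * A x + 1 / 2 * A (Rf 1 x) with hE
  set G : E3 → ℝ := fun x => 1 / 2 * A x + -1 / 2 * A (Rf 1 x) with hG
  have hEl : LC1 E := lc_add hAl hA1 _ _
  have hGl : LC1 G := lc_add hAl hA1 _ _
  have d1 := split_D hhm hf hf0
  have d2 := split_D hhm hAl hA1
  have i1 := split_I hhm hf hf0
  have i2 := split_I hhm hAl hA1
  rw [D1_Rf hhm] at d1 d2
  rw [int_Rf hhm 0 (fun x => f x ^ 2)] at i1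
  rw [int_Rf hhm 1 (fun x => A x ^ 2)] at i2
  have zB : ∀ x : E3, x 0 = 0 → B x = 0 := by
    intro x hx
    have h1 : Rf 0 x = x := by
      ext d
      rw [Rf_apply]
      split_ifs with h
      · rw [h, hx]; simp
      · rfl
    simp only [hB, h1]
    ring
  have zG : ∀ x : E3, x 1 = 0 → G x = 0 := by
    intro x hx
    have h1 : Rf 1 x = x := by
      ext d
      rw [Rf_apply]
      split_ifs with h
      · rw [h, hx]; simp
      · rfl
    simp only [hG, h1]
    ring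
  have zE : ∀ x : E3, x 2 = 0 → E x = 0 := by
    intro x hx
    have h1 : Rf 1 x = -(Rf 0 x) := by
      ext d
      rw [PiLp.neg_apply, Rf_apply, Rf_apply]
      fin_cases d <;> simp [hx]
    have h2 : Rf 0 (Rf 1 x) = -x := by
      ext d
      rw [PiLp.neg_apply, Rf_apply, Rf_apply]
      fin_cases d <;> simp [hx]
    simp only [hE, hA, h1]
    rw [← h1, h2, hodd, h1, hodd]
    ring
  have e1 := coord_gap hhm hibp hdiv hBl 0 zB
  have e2 := coord_gap hhm hibp hdiv hGl 1 zG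
  have e3 := coord_gap hhm hibp hdiv hEl 2 zE
  have d1' : D1 A A + D1 B B = 1 / 2 * D1 f f + 1 / 2 * D1 f f := d1
  have d2' : D1 E E + D1 G G = 1 / 2 * D1 A A + 1 / 2 * D1 A A := d2
  have i1' : (∫ x, A x ^ 2 ∂hm) + ∫ x, B x ^ 2 ∂hm
    = 1 / 2 * (∫ x, f x ^ 2 ∂hm) + 1 / 2 * ∫ x, f x ^ 2 ∂hm := i1
  have i2' : (∫ x, E x ^ 2 ∂hm) + ∫ x, G x ^ 2 ∂hm
    = 1 / 2 * (∫ x, A x ^ 2 ∂hm) + 1 / 2 * ∫ x, A x ^ 2 ∂hm := i2
  linarith

end MolDis.H
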