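import Mathlib
import Pool.Agent.Lib.MP_59f35a_mp.HStmts

/-!
# MP_59f35a_mp, piece D4: parity decomposition of a near minimiser of the pair
-/

set_option autoImplicit false
set_option linter.all false

noncomputable section

open MeasureTheory

namespace MolDis.H

namespace Par

/-- change of sign of the variable `j` -/
def fl (j : Fin 3) (x : X3) : X3 := Function.update x j (-x j)

lemma fl_same (j : Fin 3) (x : X3) : fl j x j = -x j := by
  unfold fl; rw [Function.update_self]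

lemma fl_ne {i j : Fin 3} (h : i ≠ j) (x : X3) : fl j x i = x i := by
  unfold fl; rw [Function.update_of_ne h]

lemma fl_fl (j : Fin 3) (x : X3) : fl j (fl j x) = x := by
  funext i
  by_cases h : i = j
  · subst h; rw [fl_same, fl_same, neg_neg]
  · rw [fl_ne h, fl_ne h]

lemma fl_comm (x : X3) : fl 0 (fl 1 x) = fl 1 (fl 0 x) := by
  funext i
  by_cases h0 : i = 0
  · subst h0; rw [fl_same, fl_ne (by decide), fl_ne (by decide), fl_same]
  · by_cases h1 : i = 1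
    · subst h1; rw [fl_ne (by decide), fl_same, fl_same, fl_ne (by decide)]
    · rw [fl_ne h0, fl_ne h1, fl_ne h1, fl_ne h0]

lemma norm_fl (j i : Fin 3) (x : X3) : ‖fl j x i‖ = ‖x i‖ := by
  by_cases h : i = j
  · subst h; rw [fl_same, norm_neg]
  · rw [fl_ne h]

lemma fl_update (j i : Fin 3) (x : X3) (y : E3) :
    fl j (Function.update x i y) = Function.update (fl j x) i (if i = j then -y else y) := by
  funext k
  by_cases hk : k = i
  · subst hk
    rw [Function.update_self]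
    by_cases h : k = j
    · subst h; rw [fl_same, Function.update_self, if_pos rfl]
    · rw [fl_ne h, Function.update_self, if_neg h]
  · rw [Function.update_of_ne hk]
    by_cases h : k = j
    · subst h; rw [fl_same, fl_same, Function.update_of_ne hk]
    · rw [fl_ne h, fl_ne h, Function.update_of_ne hk]

/-- signs -/
def sg (j : Fin 3) : Fin 3 → Fin 3 → ℝ := fun i _ => if i = j then -1 else 1

lemma sgT_fl (j : Fin 3) (x : X3) : sgT (Equiv.refl _) (sg j) x = fl j x := by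
  funext i
  ext c
  unfold sgT sg
  by_cases h : i = j
  · subst h; rw [fl_same]; simp
  · rw [fl_ne h]; simp [h]

lemma sg_sign (j : Fin 3) : ∀ i c, sg j i c = 1 ∨ sg j i c = -1 := by
  intro i c
  unfold sg
  split_ifs
  · right; rfl
  · left; rfl

lemma oo_eq (f : X3 → ℝ) (x : X3) :
    oo f x = (f x - f (fl 0 x) - f (fl 1 x) + f (fl 1 (fl 0 x))) / 4 := by
  unfold oo
  have h : Function.update (Function.update x 0 (-x 0)) 1 (-x 1) = fl 1 (fl 0 x) := by
    show _ = Function.update (fl 0 x) 1 (-(fl 0 x) 1)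
    rw [fl_ne (by decide)]
    rfl
  rw [h]
  rfl

section env
variable (hsym : S_sym) (hbl : S_bl) (hform : S_form) (hprod : S_prod)

include hsym in
lemma mp_fl (j : Fin 3) : MeasurePreserving (fl j) pm pm := by
  have h := (hsym (Equiv.refl _) (sg j) (sg_sign j)).1
  have e : sgT (Equiv.refl _) (sg j) = fl j := funext (sgT_fl j)
  rwa [e] at h

include hsym in
lemma BL_fl {f : X3 → ℝ} (hf : BL f) (j : Fin 3) : BL (fun x => f (fl j x)) := by
  have h := (hsym (Equiv.refl _) (sg j) (sg_sign j)).2.1 f hf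
  simp_rw [sgT_fl] at h
  exact h

include hsym in
lemma DD_flfl {f g : X3 → ℝ} (hf : BL f) (hg : BL g) (j : Fin 3) :
    DD (fun x => f (fl j x)) (fun x => g (fl j x)) = DD f g := by
  have h := (hsym (Equiv.refl _) (sg j) (sg_sign j)).2.2.1 f g hf hg
  simp_rw [sgT_fl] at h
  exact h

include hsym in
lemma DD_fl {f g : X3 → ℝ} (hf : BL f) (hg : BL g) (j : Fin 3) :
    DD (fun x => f (fl j x)) g = DD f (fun x => g (fl j x)) := by
  have h := DD_flfl hsym hf (BL_fl hsym hg j) j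
  simp_rw [fl_fl] at h
  exact h

include hform in
lemma DD_symm {f g : X3 → ℝ} (hf : BL f) (hg : BL g) : DD f g = DD g f := by
  unfold DD
  exact Finset.sum_congr rfl fun j _ => (hform.1 j f g g hf hg hg 0).1

include hform in
lemma DD_self_nonneg {f : X3 → ℝ} (hf : BL f) : 0 ≤ DD f f :=
  Finset.sum_nonneg fun j _ => (hform.1 j f f f hf hf hf 0).2.1

include hform in
lemma DD_add {f g h : X3 → ℝ} (hf : BL f) (hg : BL g) (hh : BL h) :
    DD (fun x => f x + g x) h = DD f h + DD g h := by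
  unfold DD
  rw [← Finset.sum_add_distrib]
  exact Finset.sum_congr rfl fun j _ => (hform.1 j f g h hf hg hh 0).2.2.1

include hform in
lemma DD_sub {f g h : X3 → ℝ} (hf : BL f) (hg : BL g) (hh : BL h) :
    DD (fun x => f x - g x) h = DD f h - DD g h := by
  unfold DD
  rw [← Finset.sum_sub_distrib]
  exact Finset.sum_congr rfl fun j _ => (hform.1 j f g h hf hg hh 0).2.2.2.1

include hform in
lemma DD_smul {f g : X3 → ℝ} (hf : BL f) (hg : BL g) (c : ℝ) :
    DD (fun x => c * f x) g = c * DD f g := by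
  unfold DD
  rw [Finset.mul_sum]
  exact Finset.sum_congr rfl fun j _ => (hform.1 j f g g hf hg hg c).2.2.2.2.1

include hbl in
lemma BL_smul {f : X3 → ℝ} (hf : BL f) (c : ℝ) : BL (fun x => c * f x) :=
  (hbl.1 (fun _ => c) f (hbl.2.1 c) hf).2.2

include hsym hbl in
lemma BL_oo {f : X3 → ℝ} (hf : BL f) : BL (oo f) := by
  have h0 := BL_fl hsym hf 0
  have h1 := BL_fl hsym hf 1
  have h2 : BL (fun x => f (fl 1 (fl 0 x))) := BL_fl hsym (BL_fl hsym hf 1) 0
  have h3 := (hbl.1 _ _ (hbl.1 _ _ (hbl.1 _ _ hf h0).2.1 h1).2.1 h2).1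
  have h4 := BL_smul hbl h3 (1 / 4)
  have e : oo f = fun x => (1 / 4 : ℝ) * (f x - f (fl 0 x) - f (fl 1 x) + f (fl 1 (fl 0 x))) := by
    funext x
    rw [oo_eq]; ring
  rw [e]
  exact h4

include hsym hbl hform in
/-- `oo` is symmetric for the form -/
lemma DD_oo {f g : X3 → ℝ} (hf : BL f) (hg : BL g) : DD (oo f) g = DD f (oo g) := by
  have key : ∀ {f g : X3 → ℝ}, BL f → BL g → DD (oo f) g = (DD f g
      - DD f (fun x => g (fl 0 x)) - DD f (fun x => g (fl 1 x))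
      + DD f (fun x => g (fl 1 (fl 0 x)))) / 4 := by
    intro f g hf hg
    have h0 := BL_fl hsym hf 0
    have h1 := BL_fl hsym hf 1
    have h2 : BL (fun x => f (fl 1 (fl 0 x))) := BL_fl hsym h1 0
    have a1 := (hbl.1 _ _ hf h0).2.1
    have a2 := (hbl.1 _ _ a1 h1).2.1
    have a3 := (hbl.1 _ _ a2 h2).1
    have e : oo f = fun x => (1 / 4 : ℝ) *
        (f x - f (fl 0 x) - f (fl 1 x) + f (fl 1 (fl 0 x))) := by
      funext x
      rw [oo_eq]; ring
    have e2 : DD (fun x => f (fl 1 (fl 0 x))) g = DD f (fun x => g (fl 1 (fl 0 x))) := by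
      have b1 := DD_fl hsym h1 hg 0
      have b2 := DD_fl hsym hf (BL_fl hsym hg 0) 1
      rw [b1, b2]
      simp_rw [fl_comm]
    rw [e, DD_smul hform a3 hg, DD_add hform a2 h2 hg, DD_sub hform a1 h1 hg,
      DD_sub hform hf h0 hg, e2, DD_fl hsym hf hg 0, DD_fl hsym hf hg 1]
    ring
  rw [key hf hg, DD_symm hform hf (BL_oo hsym hbl hg), key hg hf,
    DD_symm hform hf hg, DD_symm hform hf (BL_fl hsym hg 0), DD_symm hform hf (BL_fl hsym hg 1),
    DD_symm hform hf (BL_fl hsym (BL_fl hsym hg 1) 0), DD_fl hsym hg hf 0, DD_fl hsym hg hf 1]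
  have b1 := DD_fl hsym (BL_fl hsym hg 1) hf 0
  have b2 := DD_fl hsym hg (BL_fl hsym hf 0) 1
  rw [b1, b2]
  simp_rw [fl_comm]

include hprod in
lemma int_bdd {f : X3 → ℝ} (hm : Measurable f) {B : ℝ} (hB : ∀ x, |f x| ≤ B) :
    Integrable f pm := by
  haveI := hprod.1
  exact Integrable.of_bound hm.aestronglyMeasurable B
    (Filter.Eventually.of_forall fun x => by rw [Real.norm_eq_abs]; exact hB x)

include hsym in
lemma int_fl {f : X3 → ℝ} (hm : Measurable f) (j : Fin 3) :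
    ∫ x, f (fl j x) ∂pm = ∫ x, f x ∂pm := by
  have hmp := mp_fl hsym j
  conv_rhs => rw [← hmp.map_eq]
  rw [integral_map hmp.measurable.aemeasurable]
  exact hm.aestronglyMeasurable

include hbl in
lemma BL_int {f : X3 → ℝ} (hf : BL f) : Integrable f pm := (hbl.2.2.1 f hf).2.1

include hbl in
lemma BL_meas {f : X3 → ℝ} (hf : BL f) : Measurable f := (hbl.2.2.1 f hf).1

include hbl in
lemma BL_mul {f g : X3 → ℝ} (hf : BL f) (hg : BL g) : BL (fun x => f x * g x) :=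
  (hbl.1 f g hf hg).2.2

include hbl in
lemma BL_add {f g : X3 → ℝ} (hf : BL f) (hg : BL g) : BL (fun x => f x + g x) :=
  (hbl.1 f g hf hg).1

include hbl in
lemma BL_sub {f g : X3 → ℝ} (hf : BL f) (hg : BL g) : BL (fun x => f x - g x) :=
  (hbl.1 f g hf hg).2.1

lemma BL_abs {f : X3 → ℝ} (hf : BL f) : BL (fun x => |f x|) := by
  obtain ⟨⟨K, hK⟩, ⟨B, hB⟩⟩ := hf
  refine ⟨⟨K, ?_⟩, ⟨B, fun x => by rw [abs_abs]; exact hB x⟩⟩
  intro x y
  refine le_trans ?_ (hK x y)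
  rw [edist_dist, edist_dist]
  apply ENNReal.ofReal_le_ofReal
  rw [Real.dist_eq, Real.dist_eq]
  exact abs_abs_sub_abs_le_abs_sub _ _

lemma ip_nonneg (f : X3 → ℝ) : 0 ≤ ip f f := integral_nonneg fun x => mul_self_nonneg _

lemma ip_abs (f : X3 → ℝ) : ip (fun x => |f x|) (fun x => |f x|) = ip f f := by
  unfold ip
  congr 1
  funext x
  exact abs_mul_abs_self _

include hform hbl hprod in
lemma cs_U {U : X3 → ℝ} (hU : Measurable U) {M : ℝ} (hM : ∀ x, |U x| ≤ M) (hM0 : 0 ≤ M)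
    {f g : X3 → ℝ} (hf : BL f) (hg : BL g) :
    |∫ x, U x * f x * g x ∂pm| ≤ M * (√(ip f f) * √(ip g g)) := by
  have hfa := BL_abs hf
  have hga := BL_abs hg
  have h1 : |∫ x, U x * f x * g x ∂pm| ≤ ∫ x, M * (|f x| * |g x|) ∂pm := by
    refine (norm_integral_le_integral_norm (μ := pm) (fun x => U x * f x * g x)).trans ?_
    refine integral_mono_of_nonneg (Filter.Eventually.of_forall fun x => norm_nonneg _)
      ((BL_int hbl (BL_mul hbl hfa hga)).const_mul M) (Filter.Eventually.of_forall fun x => ?_)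
    show ‖U x * f x * g x‖ ≤ M * (|f x| * |g x|)
    rw [Real.norm_eq_abs, abs_mul, abs_mul, mul_assoc]
    exact mul_le_mul_of_nonneg_right (hM x) (mul_nonneg (abs_nonneg _) (abs_nonneg _))
  have h2 : ∫ x, M * (|f x| * |g x|) ∂pm = M * ip (fun x => |f x|) (fun x => |g x|) :=
    integral_const_mul _ _
  have h3 := (le_abs_self _).trans (hform.2.2.1 _ _ hfa hga)
  rw [ip_abs, ip_abs] at h3
  rw [h2] at h1
  exact h1.trans (mul_le_mul_of_nonneg_left h3 hM0)

include hprod in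
lemma ip_one : ip (fun _ => 1) (fun _ => 1) = 1 := by
  haveI := hprod.1
  unfold ip
  simp

include hform hbl hprod in
lemma cs_one {G v : X3 → ℝ} (hv : BL v) {D : ℝ} (hD : 0 ≤ D) (hG : ∀ x, |G x| ≤ D * |v x|) :
    |∫ x, G x ∂pm| ≤ D * √(ip v v) := by
  have hva := BL_abs hv
  have h1 : |∫ x, G x ∂pm| ≤ ∫ x, D * (|v x| * 1) ∂pm := by
    refine (norm_integral_le_integral_norm (μ := pm) G).trans ?_
    refine integral_mono_of_nonneg (Filter.Eventually.of_forall fun x => norm_nonneg _)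
      ((BL_int hbl (BL_mul hbl hva (hbl.2.1 1))).const_mul D)
      (Filter.Eventually.of_forall fun x => ?_)
    show ‖G x‖ ≤ D * (|v x| * 1)
    rw [Real.norm_eq_abs, mul_one]
    exact hG x
  have h2 : ∫ x, D * (|v x| * 1) ∂pm = D * ip (fun x => |v x|) (fun _ => 1) :=
    integral_const_mul _ _
  have h3 := (le_abs_self _).trans (hform.2.2.1 _ _ hva (hbl.2.1 1))
  rw [ip_abs, ip_one hprod, Real.sqrt_one, mul_one] at h3
  rw [h2] at h1
  exact h1.trans (mul_le_mul_of_nonneg_left h3 hD)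

include hform hbl in
lemma mink {f g : X3 → ℝ} (hf : BL f) (hg : BL g) :
    √(ip (fun x => f x + g x) (fun x => f x + g x)) ≤ √(ip f f) + √(ip g g) := by
  have i1 := BL_int hbl (BL_mul hbl hf hf)
  have i2 := BL_int hbl (BL_mul hbl hf hg)
  have i3 := BL_int hbl (BL_mul hbl hg hg)
  have h1 : ip (fun x => f x + g x) (fun x => f x + g x) = ip f f + 2 * ip f g + ip g g := by
    unfold ip
    have j1 := integral_add (i1.add (i2.const_mul 2)) i3
    have j2 := integral_add i1 (i2.const_mul 2)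
    simp only [Pi.add_apply] at j1 j2
    rw [← integral_const_mul, ← j2, ← j1]
    congr 1
    funext x
    ring
  have h2 := (le_abs_self _).trans (hform.2.2.1 f g hf hg)
  have h3 := Real.sq_sqrt (ip_nonneg f)
  have h4 := Real.sq_sqrt (ip_nonneg g)
  apply Real.sqrt_le_iff.mpr
  constructor
  · positivity
  · rw [h1]
    nlinarith

end env

/-! ### the cut-off -/

lemma zt_nonneg (r : ℝ) (x : E3) : 0 ≤ zt r x := le_max_left _ _

lemma zt_le_one (r : ℝ) (x : E3) : zt r x ≤ 1 := max_le zero_le_one (min_le_left _ _)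

lemma zt_neg (r : ℝ) (x : E3) : zt r (-x) = zt r x := by unfold zt; rw [norm_neg]

lemma zt_supp {r : ℝ} (hr : 0 < r) {x : E3} (h : zt r x ≠ 0) : ‖x‖ ≤ r := by
  by_contra hx
  push Not at hx
  apply h
  unfold zt
  have h1 : 2 - 2 * ‖x‖ / r ≤ 0 := by
    have : 2 ≤ 2 * ‖x‖ / r := by
      rw [le_div_iff₀ hr]
      linarith
    linarith
  rw [max_eq_left]
  exact (min_le_right _ _).trans h1

lemma zt_one {r : ℝ} (hr : 0 < r) {x : E3} (h : ‖x‖ ≤ r / 2) : zt r x = 1 := by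
  unfold zt
  have h1 : 1 ≤ 2 - 2 * ‖x‖ / r := by
    have : 2 * ‖x‖ / r ≤ 1 := by
      rw [div_le_iff₀ hr]
      linarith
    linarith
  rw [min_eq_left h1, max_eq_right zero_le_one]

/-- the product of the cut-offs -/
def Z (r : ℝ) (x : X3) : ℝ := zt r (x 0) * zt r (x 1)

lemma Z_ZS (r : ℝ) : Z r = ZS S2 r := by
  funext x
  unfold Z ZS S2
  rw [Finset.prod_pair (by decide)]

lemma Z_nonneg (r : ℝ) (x : X3) : 0 ≤ Z r x := mul_nonneg (zt_nonneg _ _) (zt_nonneg _ _)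

lemma Z_le_one (r : ℝ) (x : X3) : Z r x ≤ 1 :=
  mul_le_one₀ (zt_le_one _ _) (zt_nonneg _ _) (zt_le_one _ _)

lemma Z_fl (r : ℝ) (j : Fin 3) (x : X3) : Z r (fl j x) = Z r x := by
  unfold Z
  have h : ∀ i, zt r (fl j x i) = zt r (x i) := by
    intro i
    by_cases hi : i = j
    · subst hi; rw [fl_same, zt_neg]
    · rw [fl_ne hi]
  rw [h, h]

lemma S2_ne : S2.Nonempty := ⟨0, by unfold S2; simp⟩

lemma mem_S2 {j : Fin 3} : j ∈ S2 ↔ j = 0 ∨ j = 1 := by
  unfold S2; simp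

lemma pd_ind {f : X3 → ℝ} {j : Fin 3} (h : ∀ x y, f (Function.update x j y) = f x) (c : Fin 3)
    (x : X3) : pd j c f x = 0 := by
  unfold pd lineDeriv
  have e : (fun t : ℝ => f (x + t • (Pi.single j (ec c) : X3))) = fun _ => f x := by
    funext t
    have e1 : x + t • (Pi.single j (ec c) : X3) = Function.update x j (x j + t • ec c) := by
      funext i
      by_cases hi : i = j
      · subst hi; simp
      · simp [hi]
    rw [e1, h]
  rw [e]
  simp

section env2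
variable (hbl : S_bl) (hform : S_form) (hprod : S_prod) (hhm : S_hm) (hwl : S_wlist)
  (hli : S_lift)

include hwl in
lemma zt_LC1 {r : ℝ} (hr : 1 ≤ r) : LC1 (zt r) := by
  obtain ⟨C, hC, -⟩ := hwl
  obtain ⟨K, hK⟩ := hC.lip r hr
  refine ⟨⟨K, ?_⟩, ⟨r, fun x hx => zt_supp (by linarith) hx⟩⟩
  simpa using hK

include hwl hbl in
lemma zt_BL {r : ℝ} (hr : 1 ≤ r) (j : Fin 3) : BL (fun x : X3 => zt r (x j)) :=
  hbl.2.2.2.2.2 _ j (zt_LC1 hwl hr)

include hwl hbl in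
lemma Z_Box {r : ℝ} (hr : 1 ≤ r) : Box S2 r (Z r) := by
  have h := BL_mul hbl (zt_BL hbl hwl hr 0) (zt_BL hbl hwl hr 1)
  refine ⟨h.lip, ?_, ?_⟩
  · intro x hx j hj
    unfold Z at hx
    rcases mem_S2.mp hj with rfl | rfl
    · exact zt_supp (by linarith) (left_ne_zero_of_mul hx)
    · exact zt_supp (by linarith) (right_ne_zero_of_mul hx)
  · intro j hj x y
    unfold Z
    have h0 : (0 : Fin 3) ≠ j := fun h => hj (mem_S2.mpr (Or.inl h.symm))
    have h1 : (1 : Fin 3) ≠ j := fun h => hj (mem_S2.mpr (Or.inr h.symm))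
    rw [Function.update_of_ne h0, Function.update_of_ne h1]

include hwl hbl in
lemma Z_BL {r : ℝ} (hr : 1 ≤ r) : BL (Z r) :=
  BL_mul hbl (zt_BL hbl hwl hr 0) (zt_BL hbl hwl hr 1)

include hprod in
lemma int_coord (j : Fin 3) (f : E3 → ℝ) (hone : ∫ y, (1 : ℝ) ∂hm = 1) :
    ∫ x : X3, f (x j) ∂pm = ∫ y, f y ∂hm := by
  have h := hprod.2.2.2.1 (fun i y => if i = j then f y else 1)
  have e1 : ∀ x : X3, ∏ i, (if i = j then f (x i) else 1) = f (x j) := by
    intro x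
    rw [Finset.prod_ite_eq' Finset.univ j (fun i => f (x i)), if_pos (Finset.mem_univ _)]
  have e2 : ∀ i : Fin 3, ∫ y, (if i = j then f y else 1) ∂hm =
      if i = j then ∫ y, f y ∂hm else 1 := by
    intro i
    by_cases hi : i = j
    · simp [hi]
    · simp only [hi, if_false]; exact hone
  simp_rw [e1, e2] at h
  rw [h, Finset.prod_ite_eq' Finset.univ j (fun _ => ∫ y, f y ∂hm), if_pos (Finset.mem_univ _)]

include hhm in
lemma hm_one : ∫ y, (1 : ℝ) ∂hm = 1 := by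
  haveI := hhm.1
  simp

include hhm hprod hbl hwl in
lemma Z_norm : ∃ C : ℝ, 0 ≤ C ∧ ∀ r : ℝ, 1 ≤ r →
    ip (fun x => 1 - Z r x) (fun x => 1 - Z r x) ≤ C * Real.exp (-r / 4) := by
  obtain ⟨C0, hC0⟩ := hhm.2.2.2.2.2.1 0
  refine ⟨2 * |C0|, by positivity, fun r hr => ?_⟩
  haveI := hprod.1
  haveI := hhm.1
  have hr0 : 0 < r := by linarith
  have hmI : Measurable (fun y : E3 => if r / 2 < ‖y‖ then (1 : ℝ) else 0) :=
    Measurable.ite (measurableSet_lt measurable_const measurable_norm) measurable_const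
      measurable_const
  have hI : ∀ j : Fin 3, ∫ x : X3, (if r / 2 < ‖x j‖ then (1 : ℝ) else 0) ∂pm ≤
      |C0| * Real.exp (-r / 4) := by
    intro j
    rw [int_coord hprod j (fun y => if r / 2 < ‖y‖ then (1 : ℝ) else 0) (hm_one hhm)]
    have h := hC0 r hr
    simp only [pow_zero] at h
    exact h.trans (mul_le_mul_of_nonneg_right (le_abs_self _) (Real.exp_pos _).le)
  have hint : ∀ j : Fin 3, Integrable (fun x : X3 => if r / 2 < ‖x j‖ then (1 : ℝ) else 0) pm := by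
    intro j
    refine int_bdd hprod (hmI.comp (measurable_pi_apply j)) (B := 1) (fun x => ?_)
    split_ifs <;> simp
  have h1 : ip (fun x => 1 - Z r x) (fun x => 1 - Z r x) ≤
      ∫ x : X3, ((if r / 2 < ‖x 0‖ then (1 : ℝ) else 0) + (if r / 2 < ‖x 1‖ then (1 : ℝ) else 0))
        ∂pm := by
    unfold ip
    refine integral_mono_of_nonneg (Filter.Eventually.of_forall fun x => mul_self_nonneg _)
      ((hint 0).add (hint 1)) (Filter.Eventually.of_forall fun x => ?_)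
    show (1 - Z r x) * (1 - Z r x) ≤
      (if r / 2 < ‖x 0‖ then (1 : ℝ) else 0) + (if r / 2 < ‖x 1‖ then (1 : ℝ) else 0)
    have h0 := Z_nonneg r x
    have h1 := Z_le_one r x
    have h2 : (1 - Z r x) * (1 - Z r x) ≤ 1 := by nlinarith
    by_cases ha : r / 2 < ‖x 0‖
    · rw [if_pos ha]
      have : (0 : ℝ) ≤ if r / 2 < ‖x 1‖ then (1 : ℝ) else 0 := by split_ifs <;> simp
      linarith
    · by_cases hb : r / 2 < ‖x 1‖
      · rw [if_pos hb, if_neg ha]
        linarith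
      · rw [if_neg ha, if_neg hb]
        have : Z r x = 1 := by
          unfold Z
          rw [zt_one hr0 (not_lt.mp ha), zt_one hr0 (not_lt.mp hb), one_mul]
        rw [this]
        simp
  rw [integral_add (hint 0) (hint 1)] at h1
  have := hI 0
  have := hI 1
  linarith

include hbl hform hprod hwl hli in
lemma Z_form : ∃ C : ℝ, 0 ≤ C ∧ ∀ r : ℝ, 1 ≤ r → ∀ v, Box S2 r v →
    |DD (Z r) v| ≤ C * Real.exp (-r / 8) * √(DD v v) := by
  have hwl' : S_wlist := hwl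
  obtain ⟨C, hC, -⟩ := hwl
  have hC0 := hC.nonneg
  refine ⟨2 * C, by positivity, fun r hr v hv => ?_⟩
  haveI := hprod.1
  have hr0 : 0 < r := by linarith
  have hvB : BL v := hbl.2.2.2.1 S2 r v hv hr0 S2_ne
  have hz : ∀ j : Fin 3, ip (fun x : X3 => zt r (x j)) (fun x : X3 => zt r (x j)) ≤ 1 := by
    intro j
    unfold ip
    have hb := zt_BL hbl hwl' hr j
    calc ∫ x : X3, zt r (x j) * zt r (x j) ∂pm ≤ ∫ x : X3, (1 : ℝ) ∂pm := by
          refine integral_mono (BL_int hbl (BL_mul hbl hb hb)) (integrable_const _) (fun x => ?_)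
          exact mul_le_one₀ (zt_le_one _ _) (zt_nonneg _ _) (zt_le_one _ _)
      _ = 1 := by simp
  have hD : ∀ j : Fin 3, 0 ≤ Dj j v v := fun j => (hform.1 j v v v hvB hvB hvB 0).2.1
  have hDD : ∀ j : Fin 3, Dj j v v ≤ DD v v := fun j =>
    Finset.single_le_sum (f := fun j => Dj j v v) (fun i _ => hD i) (Finset.mem_univ j)
  have hsq : ∀ j : Fin 3, √(Dj j v v) ≤ √(DD v v) := fun j => Real.sqrt_le_sqrt (hDD j)
  have hE : 0 ≤ C * Real.exp (-r / 8) := mul_nonneg hC0 (Real.exp_pos _).le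
  have h0 : |Dj 0 (Z r) v| ≤ C * Real.exp (-r / 8) * √(DD v v) := by
    have h := (hli _ _ C hC r S2 0 (fun x => zt r (x 1)) v hr (zt_BL hbl hwl' hr 1)
      (fun x y => by rw [Function.update_of_ne (by decide)]) hv (mem_S2.mpr (Or.inl rfl))).2
    have e : (fun x : X3 => zt r (x 1) * (1 * zt r (x 0))) = Z r := by
      funext x
      unfold Z
      ring
    simp only [e, mul_zero, zero_mul, integral_zero, sub_zero] at h
    refine h.trans ?_
    have h1 : √(ip (fun x : X3 => zt r (x 1)) (fun x : X3 => zt r (x 1))) ≤ 1 :=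
      Real.sqrt_le_one.mpr (hz 1)
    calc C * Real.exp (-r / 8) * √(ip (fun x : X3 => zt r (x 1)) (fun x : X3 => zt r (x 1)))
          * √(Dj 0 v v) ≤ C * Real.exp (-r / 8) * 1 * √(DD v v) := by
          gcongr
          exact hDD 0
      _ = _ := by ring
  have h1 : |Dj 1 (Z r) v| ≤ C * Real.exp (-r / 8) * √(DD v v) := by
    have h := (hli _ _ C hC r S2 1 (fun x => zt r (x 0)) v hr (zt_BL hbl hwl' hr 0)
      (fun x y => by rw [Function.update_of_ne (by decide)]) hv (mem_S2.mpr (Or.inr rfl))).2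
    have e : (fun x : X3 => zt r (x 0) * (1 * zt r (x 1))) = Z r := by
      funext x
      unfold Z
      ring
    simp only [e, mul_zero, zero_mul, integral_zero, sub_zero] at h
    refine h.trans ?_
    have h1 : √(ip (fun x : X3 => zt r (x 0)) (fun x : X3 => zt r (x 0))) ≤ 1 :=
      Real.sqrt_le_one.mpr (hz 0)
    calc C * Real.exp (-r / 8) * √(ip (fun x : X3 => zt r (x 0)) (fun x : X3 => zt r (x 0)))
          * √(Dj 1 v v) ≤ C * Real.exp (-r / 8) * 1 * √(DD v v) := by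
          gcongr
          exact hDD 1
      _ = _ := by ring
  have h2 : Dj 2 (Z r) v = 0 := by
    unfold Dj
    refine Finset.sum_eq_zero fun c _ => ?_
    have : ∀ x, pd 2 c (Z r) x = 0 := fun x => pd_ind (fun x y => by
      unfold Z
      rw [Function.update_of_ne (by decide), Function.update_of_ne (by decide)]) c x
    simp [this]
  have h3 : DD (Z r) v = Dj 0 (Z r) v + Dj 1 (Z r) v + Dj 2 (Z r) v := by
    unfold DD
    rw [Fin.sum_univ_three]
  rw [h3, h2, add_zero]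
  have := abs_add_le (Dj 0 (Z r) v) (Dj 1 (Z r) v)
  linarith

end env2

/-! ### parity -/

lemma oo_fl0 (f : X3 → ℝ) (x : X3) : oo f (fl 0 x) = - oo f x := by
  rw [oo_eq, oo_eq, fl_fl]
  ring

lemma oo_fl1 (f : X3 → ℝ) (x : X3) : oo f (fl 1 x) = - oo f x := by
  rw [oo_eq, oo_eq, fl_fl, fl_comm, fl_fl]
  ring

lemma oo_oo (f : X3 → ℝ) (x : X3) : oo (oo f) x = oo f x := by
  rw [oo_eq (oo f)]
  simp only [oo_fl0, oo_fl1]
  ring

lemma oo_odd {v : X3 → ℝ} (h0 : ∀ x, v (fl 0 x) = - v x) (h1 : ∀ x, v (fl 1 x) = - v x) (x : X3) :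
    oo v x = v x := by
  rw [oo_eq, h1 (fl 0 x), h0, h1]
  ring

section env3
variable (hsym : S_sym) (hbl : S_bl) (hform : S_form) (hprod : S_prod)

include hsym hbl in
lemma Box_fl {r : ℝ} (hr : 0 < r) {f : X3 → ℝ} (hf : Box S2 r f) (j : Fin 3) :
    Box S2 r (fun x => f (fl j x)) := by
  have hfB : BL f := hbl.2.2.2.1 S2 r f hf hr S2_ne
  refine ⟨(BL_fl hsym hfB j).lip, ?_, ?_⟩
  · intro x hx i hi
    rw [← norm_fl j i x]
    exact hf.supp _ hx i hi
  · intro i hi x y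
    show f (fl j (Function.update x i y)) = _
    rw [fl_update, hf.ind i hi]

include hsym hbl in
lemma Box_oo {r : ℝ} (hr : 0 < r) {f : X3 → ℝ} (hf : Box S2 r f) : Box S2 r (oo f) := by
  have h0 := Box_fl hsym hbl hr hf 0
  have h1 := Box_fl hsym hbl hr hf 1
  have h2 : Box S2 r (fun x => f (fl 1 (fl 0 x))) := Box_fl hsym hbl hr h1 0
  have a1 := (hbl.2.2.2.2.1 S2 r _ _ 0 hf h0).2.1
  have a2 := (hbl.2.2.2.2.1 S2 r _ _ 0 a1 h1).2.1
  have a3 := (hbl.2.2.2.2.1 S2 r _ _ 0 a2 h2).1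
  have a4 := (hbl.2.2.2.2.1 S2 r _ _ (1 / 4) a3 a3).2.2
  have e : oo f = fun x => (1 / 4 : ℝ) * (f x - f (fl 0 x) - f (fl 1 x) + f (fl 1 (fl 0 x))) := by
    funext x
    rw [oo_eq]; ring
  rw [e]
  exact a4

include hsym hbl in
lemma int_oo {f : X3 → ℝ} (hf : BL f) : ∫ x, oo f x ∂pm = 0 := by
  have h0 := BL_fl hsym hf 0
  have h1 := BL_fl hsym hf 1
  have h2 : BL (fun x => f (fl 1 (fl 0 x))) := BL_fl hsym h1 0
  have j1 := integral_add (((BL_int hbl hf).sub (BL_int hbl h0)).sub (BL_int hbl h1))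
    (BL_int hbl h2)
  have j2 := integral_sub ((BL_int hbl hf).sub (BL_int hbl h0)) (BL_int hbl h1)
  have j3 := integral_sub (BL_int hbl hf) (BL_int hbl h0)
  simp only [Pi.sub_apply, Pi.add_apply] at j1 j2 j3
  have e : ∀ x, oo f x = (f x - f (fl 0 x) - f (fl 1 x) + f (fl 1 (fl 0 x))) * (1 / 4) := by
    intro x
    rw [oo_eq]; ring
  simp_rw [e]
  rw [integral_mul_const, j1, j2, j3, int_fl hsym (BL_meas hbl hf) 0,
    int_fl hsym (BL_meas hbl hf) 1, int_fl hsym (BL_meas hbl h1) 0,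
    int_fl hsym (BL_meas hbl hf) 1]
  ring

end env3

/-- the dipole-dipole function -/
def dq (x : X3) : ℝ := dd (x 0) (x 1)

lemma dq_meas : Measurable dq := by
  unfold dq dd
  fun_prop

lemma rho_meas : Measurable rho := by
  unfold rho dd
  fun_prop

lemma abs_dd (x y : E3) : |dd x y| ≤ 4 * (‖x‖ * ‖y‖) := by
  have hx : ∀ c : Fin 3, |x c| ≤ ‖x‖ := fun c => by
    rw [← Real.norm_eq_abs]; exact PiLp.norm_apply_le x c
  have hy : ∀ c : Fin 3, |y c| ≤ ‖y‖ := fun c => by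
    rw [← Real.norm_eq_abs]; exact PiLp.norm_apply_le y c
  have h : ∀ c : Fin 3, |x c * y c| ≤ ‖x‖ * ‖y‖ := fun c => by
    rw [abs_mul]
    exact mul_le_mul (hx c) (hy c) (abs_nonneg _) (norm_nonneg _)
  have h0 := abs_le.mp (h 0)
  have h1 := abs_le.mp (h 1)
  have h2 := abs_le.mp (h 2)
  unfold dd
  rw [abs_le]
  constructor
  · linarith [h0.1, h0.2, h1.1, h1.2, h2.1, h2.2]
  · linarith [h0.1, h0.2, h1.1, h1.2, h2.1, h2.2]

lemma dd_neg_left (x y : E3) : dd (-x) y = - dd x y := by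
  unfold dd
  simp
  ring

lemma dd_neg_right (x y : E3) : dd x (-y) = - dd x y := by
  unfold dd
  simp
  ring

lemma dq_fl0 (x : X3) : dq (fl 0 x) = - dq x := by
  unfold dq
  rw [fl_same, fl_ne (by decide), dd_neg_left]

lemma dq_fl1 (x : X3) : dq (fl 1 x) = - dq x := by
  unfold dq
  rw [fl_same, fl_ne (by decide), dd_neg_right]

lemma abs_rho {r : ℝ} (x : X3) (h0 : ‖x 0‖ ≤ r) (h1 : ‖x 1‖ ≤ r) :
    |rho x| ≤ 4 * (r * r) + 4 * r := by
  have hd := abs_dd (x 0) (x 1)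
  unfold rho
  obtain ⟨a, ha⟩ : ∃ a, a = ‖x 0‖ := ⟨_, rfl⟩
  obtain ⟨b, hb⟩ : ∃ b, b = ‖x 1‖ := ⟨_, rfl⟩
  obtain ⟨D, hD⟩ : ∃ D, D = dd (x 0) (x 1) := ⟨_, rfl⟩
  rw [← ha, ← hb, ← hD] at hd
  rw [← ha] at h0
  rw [← hb] at h1
  rw [← ha, ← hb, ← hD]
  have ha0 : 0 ≤ a := by rw [ha]; exact norm_nonneg _
  have hb0 : 0 ≤ b := by rw [hb]; exact norm_nonneg _
  have hr0 : 0 ≤ r := ha0.trans h0
  have e1 : |D| * a⁻¹ ≤ 4 * r := by
    rcases ha0.eq_or_lt with h | h
    · rw [← h]; simp; linarith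
    · calc |D| * a⁻¹ ≤ 4 * (a * b) * a⁻¹ := by gcongr
        _ = 4 * b := by field_simp
        _ ≤ 4 * r := by linarith
  have e2 : |D| * b⁻¹ ≤ 4 * r := by
    rcases hb0.eq_or_lt with h | h
    · rw [← h]; simp; linarith
    · calc |D| * b⁻¹ ≤ 4 * (a * b) * b⁻¹ := by gcongr
        _ = 4 * a := by field_simp
        _ ≤ 4 * r := by linarith
  have e3 : |D| ≤ 4 * (r * r) := hd.trans (by gcongr)
  have e4 : |D| * (a / b) ≤ 4 * (r * r) := by
    have : |D| * (a / b) = (|D| * b⁻¹) * a := by rw [div_eq_mul_inv]; ring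
    rw [this]
    calc (|D| * b⁻¹) * a ≤ (4 * r) * r := by gcongr
      _ = _ := by ring
  have e5 : |D| * (b / a) ≤ 4 * (r * r) := by
    have : |D| * (b / a) = (|D| * a⁻¹) * b := by rw [div_eq_mul_inv]; ring
    rw [this]
    calc (|D| * a⁻¹) * b ≤ (4 * r) * r := by gcongr
      _ = _ := by ring
  rw [abs_mul]
  have hai : 0 ≤ a⁻¹ := inv_nonneg.mpr ha0
  have hbi : 0 ≤ b⁻¹ := inv_nonneg.mpr hb0
  have hab : 0 ≤ a / b := div_nonneg ha0 hb0
  have hba : 0 ≤ b / a := div_nonneg hb0 ha0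
  have e6 : |(-1 / 3 - (a⁻¹ + b⁻¹) / 6 + (a / b + b / a) / 6)| ≤
      1 / 3 + (a⁻¹ + b⁻¹) / 6 + (a / b + b / a) / 6 := by
    rw [abs_le]
    constructor <;> linarith
  calc |D| * |(-1 / 3 - (a⁻¹ + b⁻¹) / 6 + (a / b + b / a) / 6)|
      ≤ |D| * (1 / 3 + (a⁻¹ + b⁻¹) / 6 + (a / b + b / a) / 6) := by gcongr
    _ = |D| / 3 + (|D| * a⁻¹ + |D| * b⁻¹) / 6 + (|D| * (a / b) + |D| * (b / a)) / 6 := by ring
    _ ≤ _ := by nlinarith

section env4
variable (hsym : S_sym) (hbl : S_bl) (hform : S_form) (hprod : S_prod)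

include hbl hprod in
lemma Box_mul_int {r : ℝ} (hr : 0 < r) {G : X3 → ℝ} (hG : Measurable G) {B : ℝ}
    (hB : ∀ x : X3, ‖x 0‖ ≤ r → ‖x 1‖ ≤ r → |G x| ≤ B) {v : X3 → ℝ} (hv : Box S2 r v) :
    Integrable (fun x => G x * v x) pm := by
  have hvB : BL v := hbl.2.2.2.1 S2 r v hv hr S2_ne
  obtain ⟨Bv, hBv⟩ := hvB.bdd
  refine int_bdd hprod (hG.mul (BL_meas hbl hvB)) (B := |B| * |Bv|) (fun x => ?_)
  by_cases h : v x = 0
  · rw [h, mul_zero, abs_zero]
    positivity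
  · rw [abs_mul]
    have h0 := hv.supp x h 0 (mem_S2.mpr (Or.inl rfl))
    have h1 := hv.supp x h 1 (mem_S2.mpr (Or.inr rfl))
    exact mul_le_mul ((hB x h0 h1).trans (le_abs_self _)) ((hBv x).trans (le_abs_self _))
      (abs_nonneg _) (abs_nonneg _)

lemma dq_bd {r : ℝ} (x : X3) (h0 : ‖x 0‖ ≤ r) (h1 : ‖x 1‖ ≤ r) : |dq x| ≤ 4 * (r * r) := by
  refine (abs_dd _ _).trans ?_
  have := norm_nonneg (x 0)
  have := norm_nonneg (x 1)
  have hr0 : 0 ≤ r := this.trans h1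
  gcongr

include hsym hbl hprod in
/-- the odd-odd part of `v` determines `∫ dd v` -/
lemma int_dq {r : ℝ} (hr : 0 < r) {v : X3 → ℝ} (hv : Box S2 r v) (h : ∀ x, oo v x = 0) :
    ∫ x, dq x * v x ∂pm = 0 := by
  have b0 := Box_fl hsym hbl hr hv 0
  have b1 := Box_fl hsym hbl hr hv 1
  have b2 : Box S2 r (fun x => v (fl 1 (fl 0 x))) := Box_fl hsym hbl hr b1 0
  have hm : ∀ {w : X3 → ℝ}, Box S2 r w → Measurable (fun x => dq x * w x) := fun hw =>
    dq_meas.mul (BL_meas hbl (hbl.2.2.2.1 S2 r _ hw hr S2_ne))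
  have hi : ∀ {w : X3 → ℝ}, Box S2 r w → Integrable (fun x => dq x * w x) pm := fun hw =>
    Box_mul_int hbl hprod hr dq_meas (fun x h0 h1 => dq_bd x h0 h1) hw
  have f0 : ∀ {w : X3 → ℝ}, Box S2 r w →
      ∫ x, dq x * w (fl 0 x) ∂pm = - ∫ x, dq x * w x ∂pm := by
    intro w hw
    rw [← int_fl hsym (hm hw) 0, ← integral_neg]
    congr 1
    funext x
    rw [dq_fl0]; ring
  have f1 : ∀ {w : X3 → ℝ}, Box S2 r w →
      ∫ x, dq x * w (fl 1 x) ∂pm = - ∫ x, dq x * w x ∂pm := by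
    intro w hw
    rw [← int_fl hsym (hm hw) 1, ← integral_neg]
    congr 1
    funext x
    rw [dq_fl1]; ring
  have g0 := f0 hv
  have g1 := f1 hv
  have g2 : ∫ x, dq x * v (fl 1 (fl 0 x)) ∂pm = ∫ x, dq x * v x ∂pm := by
    rw [f0 b1, f1 hv, neg_neg]
  have j1 := integral_add (((hi hv).sub (hi b0)).sub (hi b1)) (hi b2)
  have j2 := integral_sub ((hi hv).sub (hi b0)) (hi b1)
  have j3 := integral_sub (hi hv) (hi b0)
  simp only [Pi.sub_apply, Pi.add_apply] at j1 j2 j3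
  have e : ∀ x, dq x * v x - dq x * v (fl 0 x) - dq x * v (fl 1 x) + dq x * v (fl 1 (fl 0 x)) =
      0 := by
    intro x
    have := h x
    rw [oo_eq] at this
    have h4 : v x - v (fl 0 x) - v (fl 1 x) + v (fl 1 (fl 0 x)) = 0 := by linarith
    linear_combination dq x * h4
  simp_rw [e] at j1
  rw [j2, j3, g0, g1, g2, integral_zero] at j1
  linarith

end env4

/-! ### the estimates -/

/-- the data for the estimates -/
structure Dat (K r a : ℝ) (φ : X3 → ℝ) : Prop where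
  K1 : 1 ≤ K
  r1 : 1 ≤ r
  a1 : 1 ≤ a
  ra : r ≤ a ^ 2
  box : Box S2 r φ
  norm : ip φ φ = 1
  mU : Measurable (V12 r a)
  M : ∀ x, |V12 r a x| ≤ K * r ^ 2 / a ^ 3
  M1 : K * r ^ 2 / a ^ 3 ≤ 1
  near : ∀ x : X3, ‖x 0‖ ≤ r → ‖x 1‖ ≤ r → |V12 r a x - dq x / a ^ 3| ≤ K * (r ^ 3 / a ^ 4)
  EEb : |EE S2 r (V12 r a)| ≤ K * ((K * r ^ 2 / a ^ 3) ^ 2 + Real.exp (-r / 4))
  var : 1 - (∫ x, φ x ∂pm) ^ 2 ≤ K * ((K * r ^ 2 / a ^ 3) ^ 2 + Real.exp (-r / 4))
  weak : ∀ v, Box S2 r v → |BB (V12 r a) φ v - EE S2 r (V12 r a) * ip φ v| ≤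
    Real.exp (-r / 8) * √(DD v v + 2 * ip v v)

section env5
variable (hbl : S_bl) (hform : S_form) (hprod : S_prod)

include hbl hprod in
lemma ip_sub_const {f : X3 → ℝ} (hf : BL f) (c : ℝ) :
    ip (fun x => f x - c) (fun x => f x - c) = ip f f - 2 * c * (∫ x, f x ∂pm) + c ^ 2 := by
  haveI := hprod.1
  unfold ip
  have i1 := BL_int hbl (BL_mul hbl hf hf)
  have i2 := (BL_int hbl hf).const_mul (2 * c)
  have j1 := integral_add (i1.sub i2) (integrable_const (μ := pm) (c ^ 2))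
  have j2 := integral_sub i1 i2
  simp only [Pi.sub_apply, Pi.add_apply] at j1 j2
  have e : ∀ x, (f x - c) * (f x - c) = f x * f x - 2 * c * f x + c ^ 2 := fun x => by ring
  simp_rw [e]
  rw [j1, j2, integral_const_mul]
  simp

include hbl hform hprod in
lemma c_le_one {f : X3 → ℝ} (hf : BL f) (h1 : ip f f = 1) : |∫ x, f x ∂pm| ≤ 1 := by
  have h := ip_sub_const hbl hprod hf (∫ x, f x ∂pm)
  have h0 := ip_nonneg (fun x => f x - ∫ x, f x ∂pm)
  rw [h, h1] at h0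
  have h2 : (∫ x, f x ∂pm) ^ 2 ≤ 1 := by nlinarith
  exact (sq_le_one_iff_abs_le_one _).mp h2

lemma E_facts {r : ℝ} (hr : 1 ≤ r) : 0 < Real.exp (-r / 8) ∧ Real.exp (-r / 8) ≤ 1 ∧
    Real.exp (-r / 4) = Real.exp (-r / 8) ^ 2 := by
  refine ⟨Real.exp_pos _, Real.exp_le_one_iff.mpr (by linarith), ?_⟩
  rw [← Real.exp_nat_mul]
  congr 1
  push_cast
  ring

variable {K r a : ℝ} {φ : X3 → ℝ} (D : Dat K r a φ)

include D in
lemma M_sq : (K * r ^ 2 / a ^ 3) ^ 2 ≤ K ^ 2 * (r ^ 3 / a ^ 4) := by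
  have hr := D.r1
  have ha := D.a1
  have h0 : 0 < a := by linarith
  have h1 : 0 < r := by linarith
  have e : (K * r ^ 2 / a ^ 3) ^ 2 = K ^ 2 * (r ^ 3 / a ^ 4) * (r / a ^ 2) := by
    field_simp
  rw [e]
  have h2 : r / a ^ 2 ≤ 1 := (div_le_one (by positivity)).mpr D.ra
  have h3 : 0 ≤ K ^ 2 * (r ^ 3 / a ^ 4) := by positivity
  exact mul_le_of_le_one_right h3 h2

include hbl hform hprod D in
lemma near_int {v : X3 → ℝ} (hv : Box S2 r v) :
    |(∫ x, V12 r a x * v x ∂pm) - (∫ x, dq x * v x ∂pm) / a ^ 3| ≤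
      K * (r ^ 3 / a ^ 4) * √(ip v v) := by
  have hr0 : 0 < r := by linarith [D.r1]
  have ha0 : 0 < a := by linarith [D.a1]
  have hvB : BL v := hbl.2.2.2.1 S2 r v hv hr0 S2_ne
  have i1 : Integrable (fun x => V12 r a x * v x) pm :=
    Box_mul_int hbl hprod hr0 D.mU (fun x _ _ => D.M x) hv
  have i2 : Integrable (fun x => dq x * v x) pm :=
    Box_mul_int hbl hprod hr0 dq_meas (fun x h0 h1 => dq_bd x h0 h1) hv
  have e : (∫ x, V12 r a x * v x ∂pm) - (∫ x, dq x * v x ∂pm) / a ^ 3 =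
      ∫ x, (V12 r a x - dq x / a ^ 3) * v x ∂pm := by
    rw [← integral_div, ← integral_sub i1 (i2.div_const _)]
    congr 1
    funext x
    ring
  rw [e]
  have hK := D.K1
  have hr := D.r1
  refine cs_one hbl hform hprod hvB (by positivity) (fun x => ?_)
  by_cases h : v x = 0
  · rw [h, mul_zero, abs_zero, mul_zero]
  · rw [abs_mul]
    exact mul_le_mul_of_nonneg_right (D.near x (hv.supp x h 0 (mem_S2.mpr (Or.inl rfl)))
      (hv.supp x h 1 (mem_S2.mpr (Or.inr rfl)))) (abs_nonneg _)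

include hbl hform hprod D in
lemma main1 {v : X3 → ℝ} (hv : Box S2 r v) :
    |DD φ v + (∫ x, φ x ∂pm) * ∫ x, V12 r a x * v x ∂pm| ≤
      2 * K ^ 3 * (r ^ 3 / a ^ 4 + Real.exp (-r / 8)) * √(ip v v)
        + Real.exp (-r / 8) * √(DD v v + 2 * ip v v) := by
  haveI := hprod.1
  have hr0 : 0 < r := by linarith [D.r1]
  have ha0 : 0 < a := by linarith [D.a1]
  have hvB : BL v := hbl.2.2.2.1 S2 r v hv hr0 S2_ne
  have hφB : BL φ := hbl.2.2.2.1 S2 r φ D.box hr0 S2_ne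
  obtain ⟨c, hc⟩ : ∃ c, c = ∫ x, φ x ∂pm := ⟨_, rfl⟩
  obtain ⟨M, hM⟩ : ∃ M, M = K * r ^ 2 / a ^ 3 := ⟨_, rfl⟩
  obtain ⟨δ, hδ⟩ : ∃ δ, δ = r ^ 3 / a ^ 4 := ⟨_, rfl⟩
  obtain ⟨E, hE⟩ : ∃ E, E = Real.exp (-r / 8) := ⟨_, rfl⟩
  have hEE := D.EEb
  have hvar := D.var
  have hMs := M_sq D
  have hM1 := D.M1
  have hMU := D.M
  have hw := D.weak v hv
  obtain ⟨f1, f2, f3⟩ := E_facts D.r1
  rw [f3] at hEE hvar
  rw [← hE] at hEE hvar hw f1 f2
  rw [← hc] at hvar
  rw [← hM] at hEE hvar hMs hM1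
  simp_rw [← hM] at hMU
  rw [← hδ] at hMs
  rw [← hc, ← hδ, ← hE]
  have hK := D.K1
  have hM0 : 0 ≤ M := by rw [hM]; positivity
  have hδ0 : 0 ≤ δ := by rw [hδ]; have := D.r1; positivity
  obtain ⟨w, hww⟩ : ∃ w, w = √(ip v v) := ⟨_, rfl⟩
  have hw0 : 0 ≤ w := by rw [hww]; exact Real.sqrt_nonneg _
  rw [← hww]
  -- splitting of the potential term
  have hφc : BL (fun x => φ x - c) := BL_sub hbl hφB (hbl.2.1 c)
  have i1 : Integrable (fun x => V12 r a x * v x) pm :=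
    Box_mul_int hbl hprod hr0 D.mU (fun x _ _ => D.M x) hv
  obtain ⟨Bp, hBp⟩ := (BL_mul hbl hφc hvB).bdd
  have i2 : Integrable (fun x => V12 r a x * (φ x - c) * v x) pm := by
    refine int_bdd hprod ((D.mU.mul (BL_meas hbl hφc)).mul (BL_meas hbl hvB)) (B := M * |Bp|)
      (fun x => ?_)
    rw [mul_assoc, abs_mul]
    exact mul_le_mul (hMU x) ((hBp x).trans (le_abs_self _)) (abs_nonneg _) hM0
  have e1 : ∫ x, V12 r a x * φ x * v x ∂pm =
      c * (∫ x, V12 r a x * v x ∂pm) + ∫ x, V12 r a x * (φ x - c) * v x ∂pm := by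
    rw [← integral_const_mul, ← integral_add (i1.const_mul c) i2]
    congr 1
    funext x
    ring
  have e2 : DD φ v + c * ∫ x, V12 r a x * v x ∂pm =
      EE S2 r (V12 r a) * ip φ v + (BB (V12 r a) φ v - EE S2 r (V12 r a) * ip φ v)
        - ∫ x, V12 r a x * (φ x - c) * v x ∂pm := by
    unfold BB
    rw [e1]
    ring
  rw [e2]
  -- the three terms
  have t1 : |EE S2 r (V12 r a) * ip φ v| ≤ K * (K ^ 2 * δ + E) * w := by
    rw [abs_mul]
    have h := hform.2.2.1 φ v hφB hvB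
    rw [D.norm, Real.sqrt_one, one_mul, ← hww] at h
    have h2 : |EE S2 r (V12 r a)| ≤ K * (K ^ 2 * δ + E) := by
      refine hEE.trans ?_
      have : E ^ 2 ≤ E := by nlinarith
      gcongr
    exact mul_le_mul h2 h (abs_nonneg _) (by positivity)
  have t2 : |∫ x, V12 r a x * (φ x - c) * v x ∂pm| ≤ K * (K ^ 2 * δ + E) * w := by
    have h := cs_U hbl hform hprod D.mU hMU hM0 hφc hvB
    rw [ip_sub_const hbl hprod hφB c, D.norm, ← hc, ← hww] at h
    have h1 : (1 : ℝ) - 2 * c * c + c ^ 2 = 1 - c ^ 2 := by ring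
    rw [h1] at h
    refine h.trans ?_
    have h2 : √(1 - c ^ 2) ≤ K * (M + E) := by
      apply Real.sqrt_le_iff.mpr
      refine ⟨by positivity, hvar.trans ?_⟩
      have : K * (M ^ 2 + E ^ 2) ≤ K ^ 2 * (M + E) ^ 2 := by
        have h5 : M ^ 2 + E ^ 2 ≤ (M + E) ^ 2 := by nlinarith
        have h6 : K ≤ K ^ 2 := by nlinarith
        calc K * (M ^ 2 + E ^ 2) ≤ K ^ 2 * (M ^ 2 + E ^ 2) := by gcongr
          _ ≤ K ^ 2 * (M + E) ^ 2 := by gcongr
      calc K * (M ^ 2 + E ^ 2) ≤ K ^ 2 * (M + E) ^ 2 := this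
        _ = (K * (M + E)) ^ 2 := by ring
    have h3 : M * (√(1 - c ^ 2) * w) ≤ M * ((K * (M + E)) * w) := by gcongr
    refine h3.trans ?_
    have h4 : M * (M + E) ≤ K ^ 2 * δ + E := by
      have h8 : M * E ≤ 1 * E := by gcongr
      have h9 : M * (M + E) = M ^ 2 + M * E := by ring
      linarith
    calc M * ((K * (M + E)) * w) = K * (M * (M + E)) * w := by ring
      _ ≤ K * (K ^ 2 * δ + E) * w := by gcongr
  have t3 : K * (K ^ 2 * δ + E) * w ≤ K ^ 3 * (δ + E) * w := by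
    have : K * (K ^ 2 * δ + E) ≤ K ^ 3 * (δ + E) := by
      have h7 : K ≤ K ^ 3 := by
        calc K = K ^ 1 := (pow_one K).symm
          _ ≤ K ^ 3 := pow_le_pow_right₀ hK (by norm_num)
      have h8 : K * E ≤ K ^ 3 * E := mul_le_mul_of_nonneg_right h7 f1.le
      calc K * (K ^ 2 * δ + E) = K ^ 3 * δ + K * E := by ring
        _ ≤ K ^ 3 * δ + K ^ 3 * E := by linarith
        _ = _ := by ring
    gcongr
  have a1 := abs_le.mp t1
  have a2 := abs_le.mp t2
  have a3 := abs_le.mp hw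
  rw [abs_le]
  constructor
  · linarith [a1.1, a2.2, a3.1]
  · linarith [a1.2, a2.1, a3.2]

end env5

lemma numer {g0 K δ E y s : ℝ} (hg : 0 < g0) (hK : 1 ≤ K) (hδ : 0 ≤ δ) (hE0 : 0 ≤ E)
    (hE : E ≤ 1) (hy : 0 ≤ y) (hs : 0 ≤ s) (h1 : g0 * y ^ 2 ≤ s ^ 2)
    (h2 : s ^ 2 ≤ 3 * K ^ 3 * (δ + E) * (y + K * E) + 2 * E * (s + 2 * K * E + y) + K * E * s) :
    y ^ 2 ≤ (1 / g0 * (8 / 3 * (2 * (1 / g0) * (3 * K ^ 3) ^ 2 + 2 * (3 * K ^ 3) * K + 8 + 4 * K
      + 8 * (1 / g0) + 2 * K ^ 2))) * (δ ^ 2 + E) := by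
  obtain ⟨h, hh⟩ : ∃ h, h = 1 / g0 := ⟨_, rfl⟩
  obtain ⟨L, hL⟩ : ∃ L, L = 3 * K ^ 3 := ⟨_, rfl⟩
  obtain ⟨Q, hQ⟩ : ∃ Q, Q = δ ^ 2 + E := ⟨_, rfl⟩
  rw [← hh, ← hL, ← hQ]
  rw [← hL] at h2
  have hg1 : h * g0 = 1 := by rw [hh]; field_simp
  have hh0 : 0 < h := by rw [hh]; positivity
  have hL0 : 0 ≤ L := by rw [hL]; positivity
  have hEE : E ^ 2 ≤ E := by nlinarith
  have hEQ : E ≤ Q := by rw [hQ]; nlinarith [sq_nonneg δ]
  have hQ0 : 0 ≤ Q := hE0.trans hEQ
  have hK0 : 0 ≤ K := by linarith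
  -- the six inequalities
  obtain ⟨T, hT⟩ : ∃ T, T = L * (δ + E) := ⟨_, rfl⟩
  have hTT : T ^ 2 ≤ L ^ 2 * (2 * Q) := by
    rw [hT, mul_pow]
    have : (δ + E) ^ 2 ≤ 2 * Q := by
      rw [hQ]
      nlinarith [sq_nonneg (δ - E)]
    gcongr
  have q1 : T * y ≤ s ^ 2 / 4 + h * (L ^ 2 * (2 * Q)) := by
    have e1 : 0 ≤ h * (g0 * y / 2 - T) ^ 2 := by positivity
    have e2 : h * (g0 * y / 2 - T) ^ 2 = (h * g0) * (g0 * y ^ 2) / 4 - (h * g0) * (T * y)
        + h * T ^ 2 := by ring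
    rw [e2, hg1] at e1
    have e3 : h * T ^ 2 ≤ h * (L ^ 2 * (2 * Q)) := by gcongr
    linarith
  have q2 : T * (K * E) ≤ 2 * L * K * Q := by
    have e1 : (δ + E) * E ≤ 2 * Q := by
      rw [hQ]
      nlinarith [sq_nonneg (δ - E), sq_nonneg δ]
    calc T * (K * E) = L * K * ((δ + E) * E) := by rw [hT]; ring
      _ ≤ L * K * (2 * Q) := by gcongr
      _ = _ := by ring
  have q3 : 2 * E * s ≤ s ^ 2 / 8 + 8 * Q := by nlinarith [sq_nonneg (s - 8 * E)]
  have q4 : 4 * K * E ^ 2 ≤ 4 * K * Q := by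
    have : E ^ 2 ≤ Q := hEE.trans hEQ
    gcongr
  have q5 : 2 * E * y ≤ s ^ 2 / 8 + 8 * h * Q := by
    have e1 : 0 ≤ h * (g0 * y / 2 - 4 * E) ^ 2 := by positivity
    have e2 : h * (g0 * y / 2 - 4 * E) ^ 2 = (h * g0) * (g0 * y ^ 2) / 4 - (h * g0) * (4 * E * y)
        + 16 * (h * E ^ 2) := by ring
    rw [e2, hg1] at e1
    have e3 : h * E ^ 2 ≤ h * Q := by
      have : E ^ 2 ≤ Q := hEE.trans hEQ
      gcongr
    linarith
  have q6 : K * E * s ≤ s ^ 2 / 8 + 2 * K ^ 2 * Q := by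
    have e1 : 0 ≤ (s / 2 - 2 * (K * E)) ^ 2 := sq_nonneg _
    have e3 : K ^ 2 * E ^ 2 ≤ K ^ 2 * Q := by
      have : E ^ 2 ≤ Q := hEE.trans hEQ
      gcongr
    nlinarith
  have q7 : s ^ 2 ≤ T * y + T * (K * E) + 2 * E * s + 4 * K * E ^ 2 + 2 * E * y + K * E * s := by
    refine h2.trans (le_of_eq ?_)
    rw [hT]
    ring
  have q8 : s ^ 2 ≤ 8 / 3 * (2 * h * L ^ 2 + 2 * L * K + 8 + 4 * K + 8 * h + 2 * K ^ 2) * Q := by
    have : s ^ 2 ≤ 5 / 8 * s ^ 2 + (2 * h * L ^ 2 + 2 * L * K + 8 + 4 * K + 8 * h + 2 * K ^ 2) * Q := by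
      refine q7.trans ?_
      calc T * y + T * (K * E) + 2 * E * s + 4 * K * E ^ 2 + 2 * E * y + K * E * s
          ≤ (s ^ 2 / 4 + h * (L ^ 2 * (2 * Q))) + 2 * L * K * Q + (s ^ 2 / 8 + 8 * Q)
            + 4 * K * Q + (s ^ 2 / 8 + 8 * h * Q) + (s ^ 2 / 8 + 2 * K ^ 2 * Q) := by
            linarith
        _ = _ := by ring
    linarith
  have q9 : y ^ 2 ≤ h * s ^ 2 := by
    calc y ^ 2 = h * (g0 * y ^ 2) := by
          rw [← mul_assoc, hg1, one_mul]
      _ ≤ h * s ^ 2 := by gcongr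
  calc y ^ 2 ≤ h * s ^ 2 := q9
    _ ≤ h * (8 / 3 * (2 * h * L ^ 2 + 2 * L * K + 8 + 4 * K + 8 * h + 2 * K ^ 2) * Q) := by gcongr
    _ = _ := by ring

section env6
variable (hbl : S_bl) (hform : S_form) (hprod : S_prod)

include hbl hform hprod in
/-- the data exist -/
lemma exists_Dat (hvar : S_var) (hapri : S_apri) (hbd : S_bounds) (havg : S_avg) {g0 : ℝ}
    (hg : HGap g0) (K0 : ℝ) : ∃ K r0 : ℝ, 1 ≤ K ∧ K0 ≤ K ∧ 1 ≤ r0 ∧ ∀ (r a : ℝ) (φ : X3 → ℝ),
      r0 ≤ r → r ^ 4 ≤ a → NM S2 r (V12 r a) φ → Dat K r a φ := by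
  obtain ⟨C1, M0, r1, hC1, hM0, hr1, hap⟩ := hapri g0 hg
  obtain ⟨Cb, hCb, hb⟩ := hbd
  obtain ⟨K, hKd⟩ : ∃ K, K = max K0 (max C1 Cb) := ⟨_, rfl⟩
  have hK0 : K0 ≤ K := by rw [hKd]; exact le_max_left _ _
  have hKC : C1 ≤ K := by rw [hKd]; exact (le_max_left _ _).trans (le_max_right _ _)
  have hKb : Cb ≤ K := by rw [hKd]; exact (le_max_right _ _).trans (le_max_right _ _)
  have hK1 : 1 ≤ K := hC1.trans hKC
  have hr0' : ∃ r0 : ℝ, r1 ≤ r0 ∧ 2 ≤ r0 ∧ K / M0 ≤ r0 ∧ K ≤ r0 := by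
    refine ⟨max r1 (max 2 (max (K / M0) K)), le_max_left _ _, ?_, ?_, ?_⟩
    · exact (le_max_left _ _).trans (le_max_right _ _)
    · exact ((le_max_left _ _).trans (le_max_right _ _)).trans (le_max_right _ _)
    · exact ((le_max_right _ _).trans (le_max_right _ _)).trans (le_max_right _ _)
  obtain ⟨r0, hA, hB, hC, hD⟩ := hr0'
  refine ⟨K, r0, hK1, hK0, by linarith, fun r a φ hr ha hφ => ?_⟩
  have hr2 : 2 ≤ r := hB.trans hr
  have hr0 : 0 < r := by linarith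
  have hr4 : r ^ 4 = r ^ 3 * r := by ring
  have hr3 : 8 ≤ r ^ 3 := by
    calc (8 : ℝ) = 2 ^ 3 := by norm_num
      _ ≤ r ^ 3 := by gcongr
  have h8 : 8 * r ≤ a := by
    refine le_trans ?_ ha
    rw [hr4]
    gcongr
  have ha1 : 1 ≤ a := by linarith
  have ha0 : 0 < a := by linarith
  have hra : r ≤ a := by linarith
  have hra2 : r ≤ a ^ 2 := by nlinarith
  obtain ⟨b1, b2, b3, b4, b5, b6⟩ := hb r a (2 * a) (by linarith) h8 le_rfl
  obtain ⟨c1, c2, c3, c4, c5, c6, c7⟩ := havg r a (2 * a) (by linarith) h8 le_rfl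
  have hM : K * r ^ 2 / a ^ 3 ≤ K / r := by
    rw [div_le_div_iff₀ (by positivity) hr0]
    have : r ^ 2 * r ≤ a ^ 3 := by
      have : r ^ 3 ≤ a ^ 3 := by gcongr
      calc r ^ 2 * r = r ^ 3 := by ring
        _ ≤ a ^ 3 := this
    calc K * r ^ 2 * r = K * (r ^ 2 * r) := by ring
      _ ≤ K * a ^ 3 := by gcongr
  have hMM : K * r ^ 2 / a ^ 3 ≤ M0 := by
    refine hM.trans ?_
    rw [div_le_iff₀ hr0]
    have := (div_le_iff₀ hM0).mp (hC.trans hr)
    linarith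
  have hM1 : K * r ^ 2 / a ^ 3 ≤ 1 := by
    refine hM.trans ?_
    rw [div_le_one hr0]
    exact hD.trans hr
  have hU : ∀ x, |V12 r a x| ≤ K * r ^ 2 / a ^ 3 := fun x => by
    refine (b3 x).trans ?_
    gcongr
  obtain ⟨d1, d2⟩ := hap S2 r (K * r ^ 2 / a ^ 3) (V12 r a) S2_ne (hA.trans hr) (by positivity)
    hMM b1 hU c4 c6
  obtain ⟨d3, d4⟩ := d2 φ hφ
  obtain ⟨v1, v2, v3, v4⟩ := hvar S2 r (V12 r a) S2_ne (by linarith) b1
    (fun x => (hU x).trans hM1)
  have hbrk : 0 ≤ (K * r ^ 2 / a ^ 3) ^ 2 + Real.exp (-r / 4) := by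
    have := (Real.exp_pos (-r / 4)).le
    positivity
  refine ⟨hK1, by linarith, ha1, hra2, hφ.box, hφ.norm, b1, hU, hM1, ?_, ?_, ?_, ?_⟩
  · intro x h0 h1
    refine (b4 x h0 h1).trans ?_
    rw [mul_div_assoc]
    gcongr
  · exact d1.trans (mul_le_mul_of_nonneg_right hKC hbrk)
  · exact d3.trans (mul_le_mul_of_nonneg_right hKC hbrk)
  · intro v hv
    refine (v4 (Real.exp (-r)) φ v (Real.exp_pos _).le hφ.box hφ.norm hφ.le hv).trans ?_
    have : √(Real.exp (-r)) ≤ Real.exp (-r / 8) := by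
      have h1 : Real.exp (-r) = Real.exp (-r / 2) ^ 2 := by
        rw [← Real.exp_nat_mul]
        congr 1
        push_cast
        ring
      rw [h1, Real.sqrt_sq (Real.exp_pos _).le]
      exact Real.exp_le_exp.mpr (by linarith)
    gcongr

end env6

end Par

set_option maxHeartbeats 1000000 in
open Par in
/-- **D4** -/
theorem p_par (hchi : S_chi) (hvar : S_var) (hapri : S_apri) (havg : S_avg) (hbd : S_bounds)
    (hpgap : S_pgap) (hsym : S_sym) (hhm : S_hm) (hprod : S_prod) (hbl : S_bl) (hform : S_form)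
    (hwl : S_wlist) (hli : S_lift) : S_par := by
  intro g0 hg
  obtain ⟨Cx, hCx, hchi'⟩ := hchi
  obtain ⟨Cz, hCz, hzn⟩ := Z_norm hbl hprod hhm hwl
  obtain ⟨Cf, hCf, hzf⟩ := Z_form hbl hform hprod hwl hli
  obtain ⟨K, r0, hK1, hK0, hr01, hdat⟩ := exists_Dat hbl hform hprod hvar hapri hbd havg hg
    (max Cx (max Cz Cf))
  have hKx : Cx ≤ K := (le_max_left _ _).trans hK0
  have hKz : Cz ≤ K := ((le_max_left _ _).trans (le_max_right _ _)).trans hK0
  have hKf : Cf ≤ K := ((le_max_right _ _).trans (le_max_right _ _)).trans hK0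
  have hKp : 0 ≤ K := by linarith
  obtain ⟨C2, hC2⟩ : ∃ C2, C2 = (1 / g0 * (8 / 3 * (2 * (1 / g0) * (3 * K ^ 3) ^ 2
    + 2 * (3 * K ^ 3) * K + 8 + 4 * K + 8 * (1 / g0) + 2 * K ^ 2))) := ⟨_, rfl⟩
  refine ⟨max (5 * K ^ 3) C2, r0, ?_, hr01, fun r a φ hr ha hφ => ?_⟩
  · refine le_trans ?_ (le_max_left _ _)
    have : (1 : ℝ) ≤ K ^ 3 := one_le_pow₀ hK1
    linarith
  have D := hdat r a φ hr ha hφ
  haveI := hprod.1
  have hr1 := D.r1
  have hr0 : 0 < r := by linarith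
  have ha0 : 0 < a := by linarith [D.a1]
  have toBL : ∀ {v : X3 → ℝ}, Box S2 r v → BL v := fun hv => hbl.2.2.2.1 S2 r _ hv hr0 S2_ne
  have hφB : BL φ := toBL D.box
  have hoo : Box S2 r (oo φ) := Box_oo hsym hbl hr0 D.box
  have hooB : BL (oo φ) := toBL hoo
  obtain ⟨c, hc⟩ : ∃ c, c = ∫ x, φ x ∂pm := ⟨_, rfl⟩
  have hc1 : |c| ≤ 1 := by rw [hc]; exact c_le_one hbl hform hprod hφB D.norm
  have hcc : c ^ 2 ≤ 1 := (sq_le_one_iff_abs_le_one _).mpr hc1
  obtain ⟨δ, hδ⟩ : ∃ δ, δ = r ^ 3 / a ^ 4 := ⟨_, rfl⟩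
  obtain ⟨E, hE⟩ : ∃ E, E = Real.exp (-r / 8) := ⟨_, rfl⟩
  obtain ⟨f1, f2, f3⟩ := E_facts hr1
  rw [← hE] at f1 f2 f3
  have hδ0 : 0 ≤ δ := by rw [hδ]; positivity
  have hmain : ∀ {v : X3 → ℝ}, Box S2 r v →
      |DD φ v + c * ∫ x, V12 r a x * v x ∂pm| ≤ 2 * K ^ 3 * (δ + E) * √(ip v v)
        + E * √(DD v v + 2 * ip v v) := by
    intro v hv
    have h := main1 hbl hform hprod D hv
    rw [← hc, ← hδ, ← hE] at h
    exact h
  have hnear : ∀ {v : X3 → ℝ}, Box S2 r v →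
      |(∫ x, V12 r a x * v x ∂pm) - (∫ x, dq x * v x ∂pm) / a ^ 3| ≤ K * δ * √(ip v v) := by
    intro v hv
    have h := near_int hbl hform hprod D hv
    rw [← hδ] at h
    exact h
  refine ⟨hoo, ?_, ?_⟩
  · -- part 2
    obtain ⟨τ, hτ⟩ : ∃ τ : X3 → ℝ, τ = fun x => φ x - oo φ x := ⟨_, rfl⟩
    obtain ⟨v, hv⟩ : ∃ v : X3 → ℝ, v = fun x => τ x - c * Z r x := ⟨_, rfl⟩
    have hZ : Box S2 r (Z r) := Z_Box hbl hwl hr1
    have hZB : BL (Z r) := toBL hZ
    have hτb : Box S2 r τ := by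
      rw [hτ]; exact (hbl.2.2.2.2.1 S2 r _ _ 0 D.box hoo).2.1
    have hτB := toBL hτb
    have hcZ : Box S2 r (fun x => c * Z r x) := (hbl.2.2.2.2.1 S2 r _ _ c hZ hZ).2.2
    have hcZB := toBL hcZ
    have hvb : Box S2 r v := by
      rw [hv]; exact (hbl.2.2.2.2.1 S2 r _ _ 0 hτb hcZ).2.1
    have hvB := toBL hvb
    have hoov : ∀ x, oo v x = 0 := by
      intro x
      rw [oo_eq, hv, hτ]
      simp only [Z_fl, oo_fl0, oo_fl1]
      rw [oo_eq φ x]
      ring
    have hintτ : ∫ x, τ x ∂pm = c := by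
      rw [hτ, integral_sub (BL_int hbl hφB) (BL_int hbl hooB), int_oo hsym hbl hφB, sub_zero, hc]
    -- the identity for the form
    obtain ⟨s, hs⟩ : ∃ s, s = √(DD τ τ) := ⟨_, rfl⟩
    have hs0 : 0 ≤ s := by rw [hs]; exact Real.sqrt_nonneg _
    have hss : s ^ 2 = DD τ τ := by rw [hs]; exact Real.sq_sqrt (DD_self_nonneg hform hτB)
    have hDz : DD v (fun x => φ x) = DD v φ := rfl
    have e1 : DD τ τ = DD v τ + c * DD (Z r) τ := by
      have h := DD_sub hform hτB hcZB hτB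
      rw [DD_smul hform hZB hτB c] at h
      have h2 : DD v τ = DD τ τ - c * DD (Z r) τ := by rw [hv]; exact h
      linarith
    have e2 : DD v τ = DD φ v := by
      have h : DD τ v = DD φ v - DD (oo φ) v := by
        rw [hτ]; exact DD_sub hform hφB hooB hvB
      have h2 : DD (oo φ) v = 0 := by
        rw [DD_oo hsym hbl hform hφB hvB]
        have e : oo v = fun x => 0 * φ x := by
          funext x
          rw [hoov, zero_mul]
        rw [e, DD_symm hform hφB (BL_smul hbl hφB 0), DD_smul hform hφB hφB, zero_mul]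
      rw [DD_symm hform hvB hτB, h, h2, sub_zero]
    -- norms
    obtain ⟨y, hy⟩ : ∃ y, y = √(ip (fun x => τ x - c) (fun x => τ x - c)) := ⟨_, rfl⟩
    have hy0 : 0 ≤ y := by rw [hy]; exact Real.sqrt_nonneg _
    have hyy : y ^ 2 = ip (fun x => τ x - c) (fun x => τ x - c) := by
      rw [hy]; exact Real.sq_sqrt (ip_nonneg _)
    have hgap : g0 * y ^ 2 ≤ s ^ 2 := by
      rw [hyy, hss, ip_sub_const hbl hprod hτB c, hintτ]
      have h := (hpgap g0 hg S2 r τ hr0 S2_ne hτb).2.1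
      rw [hintτ] at h
      have e : ip τ τ - 2 * c * c + c ^ 2 = ip τ τ - c ^ 2 := by ring
      rw [e]
      exact h
    obtain ⟨w, hw⟩ : ∃ w, w = √(ip v v) := ⟨_, rfl⟩
    have hw0 : 0 ≤ w := by rw [hw]; exact Real.sqrt_nonneg _
    have hww : w ^ 2 = ip v v := by rw [hw]; exact Real.sq_sqrt (ip_nonneg _)
    have h1Z : BL (fun x => 1 - Z r x) := BL_sub hbl (hbl.2.1 1) hZB
    have hz : √(ip (fun x => 1 - Z r x) (fun x => 1 - Z r x)) ≤ K * E := by
      apply Real.sqrt_le_iff.mpr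
      refine ⟨by positivity, (hzn r hr1).trans ?_⟩
      rw [f3]
      have h7 : K ≤ K ^ 2 := by nlinarith
      calc Cz * E ^ 2 ≤ K ^ 2 * E ^ 2 := by gcongr; linarith
        _ = (K * E) ^ 2 := by ring
    have hwy : w ≤ y + K * E := by
      have h := mink hbl hform (BL_sub hbl hτB (hbl.2.1 c)) (BL_smul hbl h1Z c)
      have e : (fun x => τ x - c + c * (1 - Z r x)) = v := by
        rw [hv]; funext x; ring
      rw [e, ← hw, ← hy] at h
      have h3 : √(ip (fun x => c * (1 - Z r x)) (fun x => c * (1 - Z r x))) ≤ K * E := by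
        refine le_trans (Real.sqrt_le_sqrt ?_) hz
        have e3 : ip (fun x => c * (1 - Z r x)) (fun x => c * (1 - Z r x)) =
            c ^ 2 * ip (fun x => 1 - Z r x) (fun x => 1 - Z r x) := by
          unfold ip
          rw [← integral_const_mul]
          congr 1
          funext x
          ring
        rw [e3]
        have := ip_nonneg (fun x => 1 - Z r x)
        nlinarith
      linarith
    -- the form of the cut-off
    obtain ⟨z, hz'⟩ : ∃ z, z = √(DD (Z r) (Z r)) := ⟨_, rfl⟩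
    have hz0 : 0 ≤ z := by rw [hz']; exact Real.sqrt_nonneg _
    have hzz : z ^ 2 = DD (Z r) (Z r) := by
      rw [hz']; exact Real.sq_sqrt (DD_self_nonneg hform hZB)
    have hzE : z ≤ K * E := by
      have h := (le_abs_self _).trans (hzf r hr1 (Z r) hZ)
      rw [← hz', ← hzz, ← hE] at h
      rcases hz0.eq_or_lt with h0 | h0
      · rw [← h0]; positivity
      · have : z * z ≤ (Cf * E) * z := by rw [← pow_two]; exact h
        have h5 : z ≤ Cf * E := le_of_mul_le_mul_right this h0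
        exact h5.trans (by gcongr)
    have hDZ : |DD (Z r) τ| ≤ K * E * s := by
      have h := hzf r hr1 τ hτb
      rw [← hs, ← hE] at h
      exact h.trans (by gcongr)
    have hS : √(DD v v + 2 * ip v v) ≤ s + K * E + 2 * w := by
      apply Real.sqrt_le_iff.mpr
      refine ⟨by positivity, ?_⟩
      have e3 : DD v v = DD τ τ - 2 * c * DD (Z r) τ + c ^ 2 * DD (Z r) (Z r) := by
        have a1 : DD v v = DD τ v - c * DD (Z r) v := by
          have h := DD_sub hform hτB hcZB hvB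
          rw [DD_smul hform hZB hvB c] at h
          conv_lhs => rw [hv]
          rw [hv] at h ⊢
          exact h
        have a2 : DD τ v = DD τ τ - c * DD (Z r) τ := by
          rw [DD_symm hform hτB hvB]; linarith [e1]
        have a3 : DD (Z r) v = DD (Z r) τ - c * DD (Z r) (Z r) := by
          rw [DD_symm hform hZB hvB]
          have h := DD_sub hform hτB hcZB hZB
          rw [DD_smul hform hZB hZB c, DD_symm hform hτB hZB] at h
          rw [hv]
          exact h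
        rw [a1, a2, a3]
        ring
      have h4 := hform.2.1 (Z r) τ hZB hτB
      rw [← hz', ← hs] at h4
      have h5 := abs_le.mp h4
      have h6 : -(2 * c * DD (Z r) τ) ≤ 2 * (z * s) := by
        have : |2 * c * DD (Z r) τ| ≤ 2 * (z * s) := by
          rw [abs_mul, abs_mul, abs_two]
          calc 2 * |c| * |DD (Z r) τ| ≤ 2 * 1 * (z * s) := by gcongr
            _ = _ := by ring
        linarith [(abs_le.mp this).1]
      have h7 : c ^ 2 * z ^ 2 ≤ z ^ 2 := mul_le_of_le_one_left (sq_nonneg z) hcc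
      rw [e3, ← hss, ← hzz, ← hww]
      have h8 : s ^ 2 - 2 * c * DD (Z r) τ + c ^ 2 * z ^ 2 ≤ (s + z) ^ 2 := by
        have : (s + z) ^ 2 = s ^ 2 + 2 * (z * s) + z ^ 2 := by ring
        linarith
      have h9 : (s + z) ^ 2 + 4 * w ^ 2 ≤ (s + z + 2 * w) ^ 2 := by
        have h11 : 0 ≤ (s + z) * w := by positivity
        have h12 : (s + z + 2 * w) ^ 2 = (s + z) ^ 2 + 4 * ((s + z) * w) + 4 * w ^ 2 := by ring
        linarith
      have h10 : (s + z + 2 * w) ^ 2 ≤ (s + K * E + 2 * w) ^ 2 := by gcongr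
      have h13 := sq_nonneg w
      linarith
    -- conclusion
    have hU : |c * ∫ x, V12 r a x * v x ∂pm| ≤ K * δ * w := by
      have h := hnear hvb
      rw [int_dq hsym hbl hprod hr0 hvb hoov, zero_div, sub_zero, ← hw] at h
      rw [abs_mul]
      calc |c| * |∫ x, V12 r a x * v x ∂pm| ≤ 1 * (K * δ * w) := by gcongr
        _ = _ := one_mul _
    have hm := hmain hvb
    rw [← hw] at hm
    have hA : s ^ 2 ≤ 3 * K ^ 3 * (δ + E) * (y + K * E) + 2 * E * (s + 2 * K * E + y)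
        + K * E * s := by
      have a1 := (abs_le.mp hm).2
      have a2 := (abs_le.mp hU).1
      have a3 : c * DD (Z r) τ ≤ K * E * s := by
        refine (le_abs_self _).trans ?_
        rw [abs_mul]
        calc |c| * |DD (Z r) τ| ≤ 1 * (K * E * s) := by gcongr
          _ = _ := one_mul _
      have a4 : E * √(DD v v + 2 * ip v v) ≤ E * (s + K * E + 2 * w) := by gcongr
      have a5 : s ^ 2 = DD φ v + c * DD (Z r) τ := by rw [hss, e1, e2]
      have a6 : K * δ * w ≤ K ^ 3 * (δ + E) * w := by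
        have h7 : K ≤ K ^ 3 := by
          calc K = K ^ 1 := (pow_one K).symm
            _ ≤ K ^ 3 := pow_le_pow_right₀ hK1 (by norm_num)
        have h8 : K * δ ≤ K ^ 3 * (δ + E) := by
          apply mul_le_mul h7 (by linarith) hδ0 (by positivity)
        gcongr
      have a7 : 3 * K ^ 3 * (δ + E) * w ≤ 3 * K ^ 3 * (δ + E) * (y + K * E) := by gcongr
      have a8 : E * (s + K * E + 2 * w) ≤ 2 * E * (s + 2 * K * E + y) := by
        have : s + K * E + 2 * w ≤ 2 * (s + 2 * K * E + y) := by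
          have : 0 ≤ K * E := by positivity
          linarith
        calc E * (s + K * E + 2 * w) ≤ E * (2 * (s + 2 * K * E + y)) := by gcongr
          _ = _ := by ring
      linarith
    have hfin := numer hg.pos hK1 hδ0 f1.le f2 hy0 hs0 hgap hA
    rw [← hC2] at hfin
    have e9 : ∫ x, (φ x - oo φ x - ∫ z, φ z ∂pm) ^ 2 ∂pm = y ^ 2 := by
      rw [hyy, hτ, ← hc]
      unfold ip
      congr 1
      funext x
      ring
    rw [e9]
    refine hfin.trans ?_
    have e10 : r ^ 6 / a ^ 8 = δ ^ 2 := by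
      rw [hδ]; field_simp
    rw [e10, ← hE]
    have : 0 ≤ δ ^ 2 + E := by positivity
    exact mul_le_mul_of_nonneg_right (le_max_right _ _) this
  · -- part 3
    intro v hv h0 h1
    have h0' : ∀ x, v (fl 0 x) = - v x := h0
    have h1' : ∀ x, v (fl 1 x) = - v x := h1
    have hvB := toBL hv
    obtain ⟨hxb, -, hx⟩ := hchi' r hr1
    have hxB := toBL hxb
    have hoov : oo v = v := funext fun x => oo_odd h0' h1' x
    have e1 : DD (fun x => oo φ x + (∫ z, φ z ∂pm) / a ^ 3 * chir r x) v =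
        DD φ v + c / a ^ 3 * DD (chir r) v := by
      rw [← hc, DD_add hform hooB (BL_smul hbl hxB _) hvB, DD_smul hform hxB hvB,
        DD_oo hsym hbl hform hφB hvB, hoov]
    obtain ⟨w, hw⟩ : ∃ w, w = √(ip v v) := ⟨_, rfl⟩
    obtain ⟨T, hT⟩ : ∃ T, T = √(DD v v + ip v v) := ⟨_, rfl⟩
    have hw0 : 0 ≤ w := by rw [hw]; exact Real.sqrt_nonneg _
    have hT0 : 0 ≤ T := by rw [hT]; exact Real.sqrt_nonneg _
    have hDv := DD_self_nonneg hform hvB
    have hiv := ip_nonneg v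
    have hwT : w ≤ T := by
      rw [hw, hT]
      exact Real.sqrt_le_sqrt (by linarith)
    have hS : √(DD v v + 2 * ip v v) ≤ 2 * T := by
      apply Real.sqrt_le_iff.mpr
      refine ⟨by positivity, ?_⟩
      have : T ^ 2 = DD v v + ip v v := by rw [hT]; exact Real.sq_sqrt (by linarith)
      nlinarith
    have hm := hmain hv
    have hn := hnear hv
    have hx' := hx v hv
    rw [← hw] at hm hn
    rw [← hT, ← hE] at hx'
    -- the integral of the sum
    have i1 : Integrable (fun x => dq x * v x) pm :=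
      Box_mul_int hbl hprod hr0 dq_meas (fun x h0 h1 => dq_bd x h0 h1) hv
    have i2 : Integrable (fun x => rho x * v x) pm :=
      Box_mul_int hbl hprod hr0 rho_meas (fun x h0 h1 => abs_rho x h0 h1) hv
    have e2 : ∫ x, (dd (x 0) (x 1) + rho x) * v x ∂pm =
        (∫ x, dq x * v x ∂pm) + ∫ x, rho x * v x ∂pm := by
      rw [← integral_add i1 i2]
      congr 1
      funext x
      unfold dq
      ring
    rw [e2] at hx'
    rw [e1, ← hc]
    have ha3 : (1 : ℝ) ≤ a ^ 3 := one_le_pow₀ D.a1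
    have hca : |c / a ^ 3| ≤ 1 := by
      rw [abs_div, abs_of_pos (by positivity : (0 : ℝ) < a ^ 3)]
      exact div_le_one_of_le₀ (hc1.trans ha3) (by positivity)
    have e3 : DD φ v + c / a ^ 3 * DD (chir r) v - c / a ^ 3 * ∫ x, rho x * v x ∂pm =
        (DD φ v + c * ∫ x, V12 r a x * v x ∂pm)
        - c * ((∫ x, V12 r a x * v x ∂pm) - (∫ x, dq x * v x ∂pm) / a ^ 3)
        + c / a ^ 3 * (DD (chir r) v - ((∫ x, dq x * v x ∂pm) + ∫ x, rho x * v x ∂pm)) := by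
      ring
    rw [e3]
    have t1 : |c * ((∫ x, V12 r a x * v x ∂pm) - (∫ x, dq x * v x ∂pm) / a ^ 3)| ≤
        K * δ * w := by
      rw [abs_mul]
      calc _ ≤ 1 * (K * δ * w) := by gcongr
        _ = _ := one_mul _
    have t2 : |c / a ^ 3 * (DD (chir r) v - ((∫ x, dq x * v x ∂pm) + ∫ x, rho x * v x ∂pm))| ≤
        K * E * T := by
      rw [abs_mul]
      calc _ ≤ 1 * (Cx * E * T) := by gcongr
        _ ≤ K * E * T := by rw [one_mul]; gcongr
    have t3 : K * δ * w ≤ K ^ 3 * δ * w := by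
      have h7 : K ≤ K ^ 3 := by
        calc K = K ^ 1 := (pow_one K).symm
          _ ≤ K ^ 3 := pow_le_pow_right₀ hK1 (by norm_num)
      gcongr
    have t4 : K * E * T ≤ K ^ 3 * E * T := by
      have h7 : K ≤ K ^ 3 := by
        calc K = K ^ 1 := (pow_one K).symm
          _ ≤ K ^ 3 := pow_le_pow_right₀ hK1 (by norm_num)
      gcongr
    have t5 : E * √(DD v v + 2 * ip v v) ≤ 2 * (K ^ 3 * E * T) := by
      have h8 : (1 : ℝ) ≤ K ^ 3 := one_le_pow₀ hK1
      calc E * √(DD v v + 2 * ip v v) ≤ E * (2 * T) := by gcongr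
        _ = 2 * (1 * E * T) := by ring
        _ ≤ 2 * (K ^ 3 * E * T) := by gcongr
    have t6 : 2 * K ^ 3 * (δ + E) * w ≤ 2 * (K ^ 3 * δ * w) + 2 * (K ^ 3 * E * T) := by
      have : K ^ 3 * E * w ≤ K ^ 3 * E * T := by gcongr
      calc 2 * K ^ 3 * (δ + E) * w = 2 * (K ^ 3 * δ * w) + 2 * (K ^ 3 * E * w) := by ring
        _ ≤ _ := by linarith
    have t7 : 0 ≤ K ^ 3 * δ * w := by positivity
    have t8 : 0 ≤ K ^ 3 * E * T := by positivity
    have a0 := abs_add_le ((DD φ v + c * ∫ x, V12 r a x * v x ∂pm)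
        - c * ((∫ x, V12 r a x * v x ∂pm) - (∫ x, dq x * v x ∂pm) / a ^ 3))
        (c / a ^ 3 * (DD (chir r) v - ((∫ x, dq x * v x ∂pm) + ∫ x, rho x * v x ∂pm)))
    have a00 := abs_sub (DD φ v + c * ∫ x, V12 r a x * v x ∂pm)
        (c * ((∫ x, V12 r a x * v x ∂pm) - (∫ x, dq x * v x ∂pm) / a ^ 3))
    have tot : |(DD φ v + c * ∫ x, V12 r a x * v x ∂pm)
        - c * ((∫ x, V12 r a x * v x ∂pm) - (∫ x, dq x * v x ∂pm) / a ^ 3)
        + c / a ^ 3 * (DD (chir r) v - ((∫ x, dq x * v x ∂pm) + ∫ x, rho x * v x ∂pm))| ≤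
        5 * K ^ 3 * (δ * w + E * T) := by
      have e9 : 5 * K ^ 3 * (δ * w + E * T) = 5 * (K ^ 3 * δ * w) + 5 * (K ^ 3 * E * T) := by ring
      rw [e9]
      linarith
    refine tot.trans ?_
    rw [← hδ, ← hE, ← hw, ← hT]
    have : 0 ≤ δ * w + E * T := by positivity
    exact mul_le_mul_of_nonneg_right (le_max_left _ _) this

end MolDis.H
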