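import Pool.Agent.Lib.MP_59f35a_mp.HStmts

/-!
# MP_59f35a_mp : gap for three particles (P5)
-/

noncomputable section

open MeasureTheory Set

namespace MolDis.H.Pgap

theorem upd_dist (x x' : X3) (j : Fin 3) (y : E3) :
    dist (Function.update x j y) (Function.update x' j y) ≤ dist x x' := by
  rw [dist_pi_le_iff dist_nonneg]
  intro i
  by_cases h : i = j
  · subst h; simp
  · rw [Function.update_of_ne h, Function.update_of_ne h]
    exact dist_le_pi_dist x x' i

theorem upd_dist' (x : X3) (j : Fin 3) (y y' : E3) :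
    dist (Function.update x j y) (Function.update x j y') ≤ dist y y' := by
  rw [dist_pi_le_iff dist_nonneg]
  intro i
  by_cases h : i = j
  · subst h; simp
  · rw [Function.update_of_ne h, Function.update_of_ne h]
    simp

theorem Pj_upd (j : Fin 3) (f : X3 → ℝ) (x : X3) (y : E3) :
    Pj j f (Function.update x j y) = Pj j f x := by
  unfold Pj
  simp only [Function.update_idem]

/-- a function which does not depend on `x_i` keeps this property under `P_j` -/
theorem Pj_ind {i j : Fin 3} {f : X3 → ℝ} (h : ∀ x y, f (Function.update x i y) = f x)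
    (x : X3) (y : E3) : Pj j f (Function.update x i y) = Pj j f x := by
  by_cases hij : i = j
  · subst hij; exact Pj_upd i f x y
  · unfold Pj
    congr 1
    funext z
    rw [Function.update_comm hij, h]

theorem bl_Pj (hm1 : IsProbabilityMeasure hm) {f : X3 → ℝ} (hf : BL f) (j : Fin 3) :
    BL (Pj j f) := by
  obtain ⟨⟨K, hK⟩, ⟨B, hB⟩⟩ := hf
  have hc : ∀ x, Continuous fun y => f (Function.update x j y) := by
    intro x
    refine hK.continuous.comp ?_
    exact continuous_const.update j continuous_id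
  have hint : ∀ x, Integrable (fun y => f (Function.update x j y)) hm := by
    intro x
    exact Integrable.of_bound (hc x).aestronglyMeasurable B
      (Filter.Eventually.of_forall fun y => hB _)
  refine ⟨⟨K, ?_⟩, ⟨B, ?_⟩⟩
  · refine LipschitzWith.of_dist_le_mul fun x x' => ?_
    rw [Real.dist_eq]
    unfold Pj
    rw [← integral_sub (hint x) (hint x')]
    have h1 : ‖∫ y, (f (Function.update x j y) - f (Function.update x' j y)) ∂hm‖ ≤
        (K * dist x x') * hm.real univ := by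
      apply norm_integral_le_of_norm_le_const
      refine Filter.Eventually.of_forall fun y => ?_
      have h2 := hK.dist_le_mul (Function.update x j y) (Function.update x' j y)
      rw [Real.dist_eq] at h2
      exact h2.trans (mul_le_mul_of_nonneg_left (upd_dist x x' j y) K.2)
    rw [probReal_univ, mul_one] at h1
    exact h1
  · intro x
    unfold Pj
    have h1 : ‖∫ y, f (Function.update x j y) ∂hm‖ ≤ B * hm.real univ := by
      apply norm_integral_le_of_norm_le_const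
      exact Filter.Eventually.of_forall fun y => hB _
    rw [probReal_univ, mul_one] at h1
    exact h1

section

variable (h1 : S_hm) (h2 : S_prod) (h3 : S_bl)
include h1 h2 h3

theorem int_mul_Pj {f : X3 → ℝ} (hf : BL f) (j : Fin 3) :
    ∫ x, f x * Pj j f x ∂pm = ∫ x, Pj j f x ^ 2 ∂pm := by
  have hp := h1.1
  have b1 := bl_Pj hp hf j
  have b2 := (h3.1 f (Pj j f) hf b1).2.2
  have i2 := (h3.2.2.1 _ b2).2.1
  rw [← (h2.2.2.1 j _ i2).2.2]
  congr 1
  funext x
  have e : Pj j (fun x => f x * Pj j f x) x = ∫ y, f (Function.update x j y) * Pj j f x ∂hm := by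
    unfold Pj
    simp only [Function.update_idem]
  rw [e, integral_mul_const, sq]
  rfl

theorem var_eq {f : X3 → ℝ} (hf : BL f) (j : Fin 3) :
    ∫ x, (f x - Pj j f x) ^ 2 ∂pm = ∫ x, f x ^ 2 ∂pm - ∫ x, Pj j f x ^ 2 ∂pm := by
  have hp := h1.1
  have b1 := bl_Pj hp hf j
  have b2 := (h3.1 f (Pj j f) hf b1).2.2
  have i1 := (h3.2.2.1 _ hf).2.2.1
  have i2 := (h3.2.2.1 _ b2).2.1
  have i3 := (h3.2.2.1 _ b1).2.2.1
  have e : (fun x => (f x - Pj j f x) ^ 2) = fun x => f x ^ 2 - 2 * (f x * Pj j f x) +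
      Pj j f x ^ 2 := by funext x; ring
  have i4 : Integrable (fun x => f x ^ 2 - 2 * (f x * Pj j f x)) pm := i1.sub (i2.const_mul 2)
  rw [e, integral_add i4 i3, integral_sub i1 (i2.const_mul 2), integral_const_mul,
    int_mul_Pj h1 h2 h3 hf j]
  ring

theorem Pj_sq_le {f : X3 → ℝ} (hf : BL f) (j : Fin 3) :
    ∫ x, Pj j f x ^ 2 ∂pm ≤ ∫ x, f x ^ 2 ∂pm := by
  have h := var_eq h1 h2 h3 hf j
  have h' : 0 ≤ ∫ x, (f x - Pj j f x) ^ 2 ∂pm := integral_nonneg fun x => sq_nonneg _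
  linarith

omit h1 in
/-- integral of the squares of the slices -/
theorem slice_sq {f : X3 → ℝ} (hf : BL f) (j : Fin 3) :
    Integrable (fun x => ∫ y, sl j x f y ^ 2 ∂hm) pm ∧
    ∫ x, (∫ y, sl j x f y ^ 2 ∂hm) ∂pm = ∫ x, f x ^ 2 ∂pm := by
  have i1 := (h3.2.2.1 _ hf).2.2.1
  have h := h2.2.2.1 j _ i1
  exact ⟨h.2.1, h.2.2⟩

omit h2 h3 in
theorem Pj_sub {f g : X3 → ℝ} (hf : BL f) (hg : BL g) (j : Fin 3) (x : X3) :
    Pj j (fun x => f x - g x) x = Pj j f x - Pj j g x := by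
  have hp := h1.1
  have hint : ∀ f, BL f → Integrable (fun y => f (Function.update x j y)) hm := by
    intro f hf
    obtain ⟨⟨K, hK⟩, ⟨B, hB⟩⟩ := hf
    have hc : Continuous fun y => f (Function.update x j y) :=
      hK.continuous.comp (continuous_const.update j continuous_id)
    exact Integrable.of_bound hc.aestronglyMeasurable B
      (Filter.Eventually.of_forall fun y => hB _)
  unfold Pj
  exact integral_sub (hint f hf) (hint g hg)

/-- `‖P_j f - P_k P_j f‖² ≤ ‖f - P_k f‖²` -/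
theorem step {f : X3 → ℝ} (hf : BL f) {j k : Fin 3} (hjk : j ≠ k) :
    ∫ x, (Pj j f x - Pj k (Pj j f) x) ^ 2 ∂pm ≤ ∫ x, (f x - Pj k f x) ^ 2 ∂pm := by
  have hp := h1.1
  have bk := bl_Pj hp hf k
  have i0 := (h3.2.2.1 _ hf).2.1
  have hcomm := h2.2.2.2.2.2 k j f i0 hjk.symm
  have e : ∫ x, (Pj j f x - Pj k (Pj j f) x) ^ 2 ∂pm =
      ∫ x, Pj j (fun x => f x - Pj k f x) x ^ 2 ∂pm := by
    refine integral_congr_ae ?_
    filter_upwards [hcomm] with x hx
    rw [Pj_sub h1 hf bk j x, hx]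
  rw [e]
  exact Pj_sq_le h1 h2 h3 ((h3.1 f (Pj k f) hf bk).2.1) j

omit h1 h2 h3 in
theorem const_of_ind {F : X3 → ℝ} (h : ∀ j x y, F (Function.update x j y) = F x) (x : X3) :
    F x = F 0 := by
  have e : x = Function.update (Function.update (Function.update (0 : X3) 0 (x 0)) 1 (x 1)) 2
      (x 2) := by
    funext i
    fin_cases i <;> simp [Function.update]
  rw [e, h, h, h]

theorem var_le {f : X3 → ℝ} (hf : BL f) :
    ∫ x, f x ^ 2 ∂pm - (∫ x, f x ∂pm) ^ 2 ≤ ∑ j, ∫ x, (f x - Pj j f x) ^ 2 ∂pm := by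
  have hp := h1.1
  have hpm := h2.1
  have b0 := bl_Pj hp hf 0
  have b1 := bl_Pj hp b0 1
  have b2 := bl_Pj hp b1 2
  have i0 := (h3.2.2.1 _ hf).2.1
  have v0 := var_eq h1 h2 h3 hf 0
  have v1 := var_eq h1 h2 h3 b0 1
  have v2 := var_eq h1 h2 h3 b1 2
  have s1 := step h1 h2 h3 hf (j := 0) (k := 1) (by decide)
  -- third step
  have s2 : ∫ x, (Pj 1 (Pj 0 f) x - Pj 2 (Pj 1 (Pj 0 f)) x) ^ 2 ∂pm ≤
      ∫ x, (f x - Pj 2 f x) ^ 2 ∂pm := by
    have t1 := step h1 h2 h3 b0 (j := 1) (k := 2) (by decide)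
    have t2 := step h1 h2 h3 hf (j := 0) (k := 2) (by decide)
    exact t1.trans t2
  -- the last average is constant
  have ind : ∀ j x y, Pj 2 (Pj 1 (Pj 0 f)) (Function.update x j y) = Pj 2 (Pj 1 (Pj 0 f)) x := by
    intro j x y
    fin_cases j
    · exact Pj_ind (Pj_ind (Pj_upd 0 f)) x y
    · exact Pj_ind (Pj_upd 1 (Pj 0 f)) x y
    · exact Pj_upd 2 (Pj 1 (Pj 0 f)) x y
  have hconst := const_of_ind ind
  have hval : Pj 2 (Pj 1 (Pj 0 f)) 0 = ∫ x, f x ∂pm := by
    have e1 : ∫ x, Pj 2 (Pj 1 (Pj 0 f)) x ∂pm = ∫ x, f x ∂pm := by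
      rw [(h2.2.2.1 2 _ (h3.2.2.1 _ b1).2.1).2.2, (h2.2.2.1 1 _ (h3.2.2.1 _ b0).2.1).2.2,
        (h2.2.2.1 0 _ i0).2.2]
    rw [← e1]
    have e2 : (fun x => Pj 2 (Pj 1 (Pj 0 f)) x) = fun _ => Pj 2 (Pj 1 (Pj 0 f)) 0 :=
      funext hconst
    rw [e2]
    simp
  have e3 : ∫ x, Pj 2 (Pj 1 (Pj 0 f)) x ^ 2 ∂pm = (∫ x, f x ∂pm) ^ 2 := by
    have e2 : (fun x => Pj 2 (Pj 1 (Pj 0 f)) x ^ 2) = fun _ => (∫ x, f x ∂pm) ^ 2 := by
      funext x; rw [hconst x, hval]
    rw [e2]
    simp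
  rw [Fin.sum_univ_three]
  linarith

end

theorem p_pgap (h1 : S_hm) (h2 : S_prod) (h3 : S_bl) (h4 : S_form) (h5 : S_odd) : S_pgap := by
  intro g0 hg S r f hr hS hf
  have hp := h1.1
  have hpm := h2.1
  have hbl : BL f := h3.2.2.2.1 S r f hf hr hS
  obtain ⟨K, hK⟩ := hf.lip
  have hlc : ∀ j ∈ S, ∀ x, LC1 (sl j x f) := by
    intro j hj x
    refine ⟨⟨K, LipschitzWith.of_dist_le_mul fun y y' => ?_⟩, ⟨r, fun y hy => ?_⟩⟩
    · exact (hK.dist_le_mul _ _).trans (mul_le_mul_of_nonneg_left (upd_dist' x j y y') K.2)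
    · have := hf.supp _ hy j hj
      rwa [Function.update_self] at this
  have hmain : ∀ j, g0 * ∫ x, (f x - Pj j f x) ^ 2 ∂pm ≤ Dj j f f := by
    intro j
    by_cases hj : j ∈ S
    · rw [var_eq h1 h2 h3 hbl j, (h4.2.2.2.1 j f f hbl hbl).2]
      obtain ⟨i1, e1⟩ := slice_sq h2 h3 hbl j
      have b1 := bl_Pj hp hbl j
      have i2 := (h3.2.2.1 _ b1).2.2.1
      rw [← e1, ← integral_sub i1 i2, ← integral_const_mul]
      refine integral_mono ((i1.sub i2).const_mul g0) (h4.2.2.2.1 j f f hbl hbl).1 fun x => ?_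
      exact hg.gap (sl j x f) (hlc j hj x)
    · have e : ∀ x, Pj j f x = f x := by
        intro x
        unfold Pj
        have : (fun y => f (Function.update x j y)) = fun _ => f x :=
          funext fun y => hf.ind j hj x y
        rw [this]
        simp
      simp only [e, sub_self]
      have := (h4.1 j f f f hbl hbl hbl 0).2.1
      simpa using this
  refine ⟨hmain, ?_, ?_⟩
  · have h6 := var_le h1 h2 h3 hbl
    have e : ip f f = ∫ x, f x ^ 2 ∂pm := by
      unfold ip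
      congr 1; funext x; ring
    rw [e]
    calc g0 * (∫ x, f x ^ 2 ∂pm - (∫ x, f x ∂pm) ^ 2) ≤
        g0 * ∑ j, ∫ x, (f x - Pj j f x) ^ 2 ∂pm := mul_le_mul_of_nonneg_left h6 hg.pos.le
      _ = ∑ j, g0 * ∫ x, (f x - Pj j f x) ^ 2 ∂pm := Finset.mul_sum _ _ _
      _ ≤ ∑ j, Dj j f f := Finset.sum_le_sum fun j _ => hmain j
  · intro j hj hodd
    have e : ip f f = ∫ x, f x ^ 2 ∂pm := by
      unfold ip
      congr 1; funext x; ring
    obtain ⟨i1, e1⟩ := slice_sq h2 h3 hbl j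
    rw [e, ← e1, (h4.2.2.2.1 j f f hbl hbl).2, ← integral_const_mul]
    refine integral_mono (i1.const_mul _) (h4.2.2.2.1 j f f hbl hbl).1 fun x => ?_
    refine h5 (sl j x f) (hlc j hj x) fun y => ?_
    have h7 := hodd (Function.update x j y)
    rw [Function.update_idem, Function.update_self] at h7
    exact h7

end MolDis.H.Pgap

namespace MolDis.H

theorem p_pgap (h1 : S_hm) (h2 : S_prod) (h3 : S_bl) (h4 : S_form) (h5 : S_odd) : S_pgap :=
  Pgap.p_pgap h1 h2 h3 h4 h5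

end MolDis.H
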