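import Pool.Agent.Lib.MP_59f35a_mp.HStmts

/-!
# MP_59f35a_mp : symmetries of the potentials
-/

noncomputable section

open MeasureTheory

namespace MolDis.H.Potsym

/-- reflection of the coordinate `c` -/
def rf (c : Fin 3) (v : E3) : E3 := WithLp.toLp 2 (fun d => (if d = c then -1 else 1) * v d)

lemma rf_apply (c d : Fin 3) (v : E3) : rf c v d = (if d = c then -1 else 1) * v d := rfl

lemma rf_norm (c : Fin 3) (v : E3) : ‖rf c v‖ = ‖v‖ := by
  rw [EuclideanSpace.norm_eq, EuclideanSpace.norm_eq]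
  congr 1
  refine Finset.sum_congr rfl fun d _ => ?_
  rw [rf_apply]
  split_ifs <;> simp

lemma rf_add (c : Fin 3) (u v : E3) : rf c (u + v) = rf c u + rf c v := by
  ext d
  rw [rf_apply, PiLp.add_apply, PiLp.add_apply, rf_apply, rf_apply]
  ring

lemma rf_sub (c : Fin 3) (u v : E3) : rf c (u - v) = rf c u - rf c v := by
  ext d
  rw [rf_apply, PiLp.sub_apply, PiLp.sub_apply, rf_apply, rf_apply]
  ring

lemma rf_axis {c : Fin 3} (hc : c ≠ 0) (t : ℝ) : rf c (t • ec 0) = t • ec 0 := by
  ext d
  rw [rf_apply]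
  by_cases hd : d = c
  · subst hd
    have : (t • ec 0 : E3) d = 0 := by
      unfold ec
      simp [hc]
    rw [this, mul_zero]
  · rw [if_neg hd, one_mul]

lemma pv_rf {c : Fin 3} {b : E3} (hb : rf c b = b) (x y : E3) :
    pv b (rf c x) (rf c y) = pv b x y := by
  unfold pv
  have h1 : b + rf c y - rf c x = rf c (b + y - x) := by rw [rf_sub, rf_add, hb]
  have h2 : b + rf c y = rf c (b + y) := by rw [rf_add, hb]
  have h3 : b - rf c x = rf c (b - x) := by rw [rf_sub, hb]
  rw [h1, h2, h3, rf_norm, rf_norm, rf_norm]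

lemma pv_neg (b x y : E3) : pv b (-y) (-x) = pv b x y := by
  unfold pv
  have h1 : b + -x - -y = b + y - x := by abel
  have h2 : b + -x = b - x := by abel
  have h3 : b - -y = b + y := by abel
  rw [h1, h2, h3]
  ring

end MolDis.H.Potsym

namespace MolDis.H

open Potsym

theorem p_potsym : S_potsym := by
  intro r a l
  refine ⟨?_, ?_, ?_⟩
  · intro x
    have h0 : piv x 0 = -x 1 := rfl
    have h1 : piv x 1 = -x 0 := rfl
    unfold V12
    rw [h0, h1, norm_neg, norm_neg, pv_neg]
    by_cases h : ‖x 0‖ ≤ r ∧ ‖x 1‖ ≤ r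
    · rw [if_pos h, if_pos h.symm]
    · rw [if_neg h, if_neg (fun h' => h h'.symm)]
  · intro x y
    have h0 : Function.update x 2 y 0 = x 0 := Function.update_of_ne (by decide) _ _
    have h1 : Function.update x 2 y 1 = x 1 := Function.update_of_ne (by decide) _ _
    unfold V12
    rw [h0, h1]
  · intro c hc x
    have h0 : ∀ j, sgT (Equiv.refl _) (fun _ d => if d = c then -1 else 1) x j = rf c (x j) :=
      fun j => rfl
    unfold U3 V12 W3
    simp only [h0, rf_norm, pv_rf (rf_axis hc _)]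

end MolDis.H
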