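import Pool.Agent.Lib.MP_59f35a_mp.HStmts

/-!
# MP_59f35a_mp : expansion of the pair potential (piece U1)
-/

noncomputable section

namespace MolDis.H

namespace Pv

/-- `|s⁻¹ - (1 - t/2 + 3t²/8)| ≤ |t|³` for `s² = 1 + t`, `s ≥ 1/2` -/
theorem inv_taylor {s t : ℝ} (hs : 1 / 2 ≤ s) (ht : s ^ 2 = 1 + t) :
    |s⁻¹ - (1 - t / 2 + 3 * t ^ 2 / 8)| ≤ |t| ^ 3 := by
  have hs0 : 0 < s := by linarith
  have ht' : t = (s - 1) * (s + 1) := by linarith [ht, sq s]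
  have e1 : s⁻¹ - (1 - t / 2 + 3 * t ^ 2 / 8) = (1 - s) ^ 3 * ((8 + 9 * s + 3 * s ^ 2) / (8 * s)) := by
    rw [ht']; field_simp; ring
  rw [e1, abs_mul, abs_pow, ht', abs_mul, mul_pow, abs_sub_comm s 1]
  refine mul_le_mul_of_nonneg_left ?_ (by positivity)
  rw [abs_of_nonneg (by positivity), abs_of_nonneg (by linarith), div_le_iff₀ (by positivity)]
  nlinarith [mul_nonneg (sub_nonneg.2 hs) hs0.le, mul_nonneg (sub_nonneg.2 hs) (sq_nonneg s),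
    mul_nonneg (sub_nonneg.2 hs) (pow_nonneg hs0.le 3), pow_nonneg hs0.le 4]

theorem norm_sq3 (v : E3) : ‖v‖ ^ 2 = v 0 ^ 2 + v 1 ^ 2 + v 2 ^ 2 := by
  rw [EuclideanSpace.real_norm_sq_eq, Fin.sum_univ_three]

theorem abs0_le (v : E3) : |v 0| ≤ ‖v‖ := by
  refine abs_le_of_sq_le_sq ?_ (norm_nonneg _)
  rw [norm_sq3]
  nlinarith [sq_nonneg (v 1), sq_nonneg (v 2)]

theorem norm_ec (b : ℝ) (v : E3) : ‖b • ec 0 + v‖ ^ 2 = b ^ 2 + 2 * b * v 0 + ‖v‖ ^ 2 := by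
  rw [norm_sq3, norm_sq3]
  simp [ec]
  ring

/-- second order expansion of the Coulomb potential -/
def T2 (b : ℝ) (v : E3) : ℝ := 1 / b - v 0 / b ^ 2 + (3 * v 0 ^ 2 - ‖v‖ ^ 2) / (2 * b ^ 3)

theorem coul {b : ℝ} {v : E3} (hb : 0 < b) (hv : ‖v‖ ≤ b / 4) :
    |‖b • ec 0 + v‖⁻¹ - T2 b v| ≤ 13 * ‖v‖ ^ 3 / b ^ 4 := by
  set n := ‖v‖ with hn
  set p := n / b with hp
  have hn0 : 0 ≤ n := norm_nonneg _
  have hp0 : 0 ≤ p := div_nonneg hn0 hb.le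
  have hp4 : p ≤ 1 / 4 := by rw [hp, div_le_iff₀ hb]; linarith
  set q := v 0 / b with hq
  have hqp : |q| ≤ p := by
    rw [hq, abs_div, abs_of_pos hb]; exact div_le_div_of_nonneg_right (abs0_le v) hb.le
  have hq' := abs_le.1 hqp
  set t := 2 * q + p ^ 2 with ht
  set s := ‖b • ec 0 + v‖ / b with hs
  have hs2 : s ^ 2 = 1 + t := by
    rw [hs, div_pow, norm_ec, ht, hq, hp, ← hn]; field_simp; ring
  have hs0 : 0 ≤ s := div_nonneg (norm_nonneg _) hb.le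
  have hs1 : 1 / 2 ≤ s := by nlinarith
  have htp : |t| ≤ 9 / 4 * p := by
    rw [abs_le]; constructor <;> nlinarith
  have h1 := inv_taylor hs1 hs2
  have h2 : |t| ^ 3 ≤ (9 / 4 * p) ^ 3 := pow_le_pow_left₀ (abs_nonneg _) htp 3
  have e1 : ‖b • ec 0 + v‖⁻¹ = s⁻¹ / b := by
    rw [hs, inv_div]; field_simp
  have e2 : T2 b v = (1 - q + (3 * q ^ 2 - p ^ 2) / 2) / b := by
    rw [T2, hq, hp, ← hn]; field_simp
  have e3 : 13 * n ^ 3 / b ^ 4 = 13 * p ^ 3 / b := by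
    rw [hp]; field_simp
  rw [e1, e2, e3, ← sub_div, abs_div, abs_of_pos hb]
  refine div_le_div_of_nonneg_right ?_ hb.le
  have e4 : s⁻¹ - (1 - q + (3 * q ^ 2 - p ^ 2) / 2) =
      (s⁻¹ - (1 - t / 2 + 3 * t ^ 2 / 8)) + 3 / 8 * (4 * q * p ^ 2 + p ^ 4) := by
    rw [ht]; ring
  rw [e4]
  have h3 : |3 / 8 * (4 * q * p ^ 2 + p ^ 4)| ≤ 3 / 8 * (4 * p ^ 3 + p ^ 4) := by
    rw [abs_mul, abs_of_pos (by norm_num : (0:ℝ) < 3 / 8)]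
    refine mul_le_mul_of_nonneg_left ?_ (by norm_num)
    refine (abs_add_le _ _).trans (add_le_add ?_ ?_)
    · rw [abs_mul, abs_mul, abs_of_pos (by norm_num : (0:ℝ) < 4), abs_of_nonneg (sq_nonneg p)]
      nlinarith [sq_nonneg p, mul_le_mul_of_nonneg_right hqp (sq_nonneg p)]
    · rw [abs_of_nonneg (by positivity)]
  have h4 : p ^ 4 ≤ 1 / 4 * p ^ 3 := by
    have := pow_nonneg hp0 3
    nlinarith
  have h5 : 0 ≤ p ^ 3 := pow_nonneg hp0 3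
  calc _ ≤ |s⁻¹ - (1 - t / 2 + 3 * t ^ 2 / 8)| + |3 / 8 * (4 * q * p ^ 2 + p ^ 4)| :=
        abs_add_le _ _
    _ ≤ (9 / 4 * p) ^ 3 + 3 / 8 * (4 * p ^ 3 + p ^ 4) := add_le_add (h1.trans h2) h3
    _ ≤ 13 * p ^ 3 := by nlinarith

theorem abs_dd (x y : E3) : |dd x y| ≤ 2 * ‖x‖ * ‖y‖ := by
  refine abs_le_of_sq_le_sq ?_ (by positivity)
  have e : (2 * ‖x‖ * ‖y‖) ^ 2 = 4 * (‖x‖ ^ 2 * ‖y‖ ^ 2) := by ring
  rw [e, norm_sq3, norm_sq3, dd]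
  nlinarith [sq_nonneg (x 1 * y 2 - x 2 * y 1), sq_nonneg (x 1 * y 0 + 2 * x 0 * y 1),
    sq_nonneg (x 2 * y 0 + 2 * x 0 * y 2), mul_nonneg (sq_nonneg (x 1)) (sq_nonneg (y 0)),
    mul_nonneg (sq_nonneg (x 2)) (sq_nonneg (y 0)), mul_nonneg (sq_nonneg (x 1)) (sq_nonneg (y 1)),
    mul_nonneg (sq_nonneg (x 1)) (sq_nonneg (y 2)), mul_nonneg (sq_nonneg (x 2)) (sq_nonneg (y 1)),
    mul_nonneg (sq_nonneg (x 2)) (sq_nonneg (y 2))]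

end Pv

open Pv in
/-- **U1.** -/
theorem p_pv : S_pv := by
  refine ⟨39, by norm_num, ?_⟩
  intro b x y hb hx hy
  refine ⟨?_, abs_dd x y⟩
  have hx0 := norm_nonneg x
  have hy0 := norm_nonneg y
  have hyx : ‖y - x‖ ≤ ‖x‖ + ‖y‖ := by
    have := norm_sub_le y x; linarith
  have h1 := coul hb (v := y - x) (by linarith)
  have h2 := coul hb (v := y) (by linarith)
  have h3 := coul hb (v := -x) (by rw [norm_neg]; linarith)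
  rw [norm_neg] at h3
  have h0 : ‖b • ec 0‖⁻¹ = T2 b 0 := by
    have : ‖b • ec 0‖ = b := by
      rw [norm_smul, ec, PiLp.norm_single]; simp [abs_of_pos hb]
    rw [this, T2]; simp
  have hT : T2 b (y - x) - T2 b y - T2 b (-x) + T2 b 0 = dd x y / b ^ 3 := by
    simp only [T2, dd, norm_sq3]
    simp
    field_simp
    ring
  have e : pv (b • ec 0) x y - dd x y / b ^ 3 =
      (‖b • ec 0 + (y - x)‖⁻¹ - T2 b (y - x)) - (‖b • ec 0 + y‖⁻¹ - T2 b y)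
        - (‖b • ec 0 + (-x)‖⁻¹ - T2 b (-x)) := by
    have e1 : b • ec 0 + y - x = b • ec 0 + (y - x) := add_sub_assoc _ _ _
    have e2 : b • ec 0 - x = b • ec 0 + -x := sub_eq_add_neg _ _
    rw [← hT, pv, h0, e1, e2]; ring
  rw [e]
  have hb4 : 0 < b ^ 4 := by positivity
  have m1 : ‖y - x‖ ^ 3 ≤ (‖x‖ + ‖y‖) ^ 3 := pow_le_pow_left₀ (norm_nonneg _) hyx 3
  have m2 : ‖y‖ ^ 3 ≤ (‖x‖ + ‖y‖) ^ 3 := pow_le_pow_left₀ (norm_nonneg _) (by linarith) 3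
  have m3 : ‖x‖ ^ 3 ≤ (‖x‖ + ‖y‖) ^ 3 := pow_le_pow_left₀ (norm_nonneg _) (by linarith) 3
  calc _ ≤ 13 * ‖y - x‖ ^ 3 / b ^ 4 + 13 * ‖y‖ ^ 3 / b ^ 4 + 13 * ‖x‖ ^ 3 / b ^ 4 := by
        refine (abs_sub _ _).trans (add_le_add ((abs_sub _ _).trans (add_le_add h1 h2)) h3)
    _ ≤ 39 * (‖x‖ + ‖y‖) ^ 3 / b ^ 4 := by
        rw [← add_div, ← add_div]
        exact div_le_div_of_nonneg_right (by linarith) hb4.le


end MolDis.H
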