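import Pool.Agent.Lib.MP_59f35a_mp.HStmts

/-!
# MP_59f35a_mp, piece D6: the dispersion quadrupole is positive
-/

noncomputable section

open MeasureTheory

namespace MolDis.H
namespace Qd

/-- weight -/
def W (x : X3) : ℝ := (1 + ‖x 0‖) * (1 + ‖x 1‖)

theorem one_le_W (x : X3) : 1 ≤ W x := by
  unfold W
  have h0 := norm_nonneg (x 0)
  have h1 := norm_nonneg (x 1)
  nlinarith

theorem W_nonneg (x : X3) : 0 ≤ W x := zero_le_one.trans (one_le_W x)

theorem measurable_W : Measurable W := by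
  unfold W
  fun_prop

/-- polynomially bounded measurable functions -/
def PB (f : X3 → ℝ) : Prop :=
  Measurable f ∧ ∃ (A : ℝ) (m : ℕ), 0 ≤ A ∧ ∀ x, |f x| ≤ A * W x ^ m

theorem PB.mul {f g : X3 → ℝ} (hf : PB f) (hg : PB g) : PB (fun x => f x * g x) := by
  obtain ⟨mf, A, m, hA, h1⟩ := hf
  obtain ⟨mg, B, k, hB, h2⟩ := hg
  refine ⟨mf.mul mg, A * B, m + k, mul_nonneg hA hB, fun x => ?_⟩
  rw [abs_mul, pow_add]
  calc |f x| * |g x| ≤ (A * W x ^ m) * (B * W x ^ k) :=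
        mul_le_mul (h1 x) (h2 x) (abs_nonneg _) (mul_nonneg hA (pow_nonneg (W_nonneg x) _))
    _ = A * B * (W x ^ m * W x ^ k) := by ring

theorem PB.add {f g : X3 → ℝ} (hf : PB f) (hg : PB g) : PB (fun x => f x + g x) := by
  obtain ⟨mf, A, m, hA, h1⟩ := hf
  obtain ⟨mg, B, k, hB, h2⟩ := hg
  refine ⟨mf.add mg, A + B, m + k, add_nonneg hA hB, fun x => ?_⟩
  have hm : W x ^ m ≤ W x ^ (m + k) := pow_le_pow_right₀ (one_le_W x) (by omega)
  have hk : W x ^ k ≤ W x ^ (m + k) := pow_le_pow_right₀ (one_le_W x) (by omega)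
  calc |f x + g x| ≤ |f x| + |g x| := abs_add_le _ _
    _ ≤ A * W x ^ m + B * W x ^ k := add_le_add (h1 x) (h2 x)
    _ ≤ A * W x ^ (m + k) + B * W x ^ (m + k) := by gcongr
    _ = (A + B) * W x ^ (m + k) := by ring

theorem PB.bdd {f : X3 → ℝ} (hm : Measurable f) {B : ℝ} (h : ∀ x, |f x| ≤ B) : PB f := by
  refine ⟨hm, max B 0, 0, le_max_right _ _, fun x => ?_⟩
  rw [pow_zero, mul_one]
  exact (h x).trans (le_max_left _ _)

theorem PB.const (c : ℝ) : PB (fun _ => c) := PB.bdd measurable_const (B := |c|) (fun _ => le_rfl)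

theorem PB.smul {f : X3 → ℝ} (c : ℝ) (hf : PB f) : PB (fun x => c * f x) := (PB.const c).mul hf

theorem PB.sub {f g : X3 → ℝ} (hf : PB f) (hg : PB g) : PB (fun x => f x - g x) := by
  have := hf.add (PB.smul (-1) hg)
  refine ⟨hf.1.sub hg.1, ?_⟩
  obtain ⟨A, m, hA, h⟩ := this.2
  refine ⟨A, m, hA, fun x => ?_⟩
  have e : f x - g x = f x + -1 * g x := by ring
  change |f x - g x| ≤ _
  rw [e]
  exact h x

theorem PB.pow {f : X3 → ℝ} (hf : PB f) (n : ℕ) : PB (fun x => f x ^ n) := by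
  induction n with
  | zero => simpa using PB.const 1
  | succ n ih =>
    have := ih.mul hf
    simpa [pow_succ] using this

theorem PB.neg {f : X3 → ℝ} (hf : PB f) : PB (fun x => - f x) := by
  have := PB.smul (-1) hf
  simpa using this

theorem PB.congr {f g : X3 → ℝ} (hf : PB f) (h : ∀ x, f x = g x) : PB g := by
  have : f = g := funext h
  exact this ▸ hf

theorem pb_norm0 : PB (fun x : X3 => ‖x 0‖) := by
  refine ⟨by fun_prop, 1, 1, zero_le_one, fun x => ?_⟩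
  rw [abs_of_nonneg (norm_nonneg _), one_mul, pow_one]
  unfold W
  have h0 := norm_nonneg (x 0)
  have h1 := norm_nonneg (x 1)
  nlinarith

theorem pb_norm1 : PB (fun x : X3 => ‖x 1‖) := by
  refine ⟨by fun_prop, 1, 1, zero_le_one, fun x => ?_⟩
  rw [abs_of_nonneg (norm_nonneg _), one_mul, pow_one]
  unfold W
  have h0 := norm_nonneg (x 0)
  have h1 := norm_nonneg (x 1)
  nlinarith

theorem pb_c0 (c : Fin 3) : PB (fun x : X3 => x 0 c) := by
  refine ⟨by fun_prop, 1, 1, zero_le_one, fun x => ?_⟩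
  have h := EuclideanSpace.norm_eq (x 0)
  have h2 : |x 0 c| ≤ ‖x 0‖ := by
    have := PiLp.norm_apply_le (x 0) c
    simpa using this
  rw [one_mul, pow_one]
  refine h2.trans ?_
  unfold W
  have h0 := norm_nonneg (x 0)
  have h1 := norm_nonneg (x 1)
  nlinarith

theorem pb_c1 (c : Fin 3) : PB (fun x : X3 => x 1 c) := by
  refine ⟨by fun_prop, 1, 1, zero_le_one, fun x => ?_⟩
  have h2 : |x 1 c| ≤ ‖x 1‖ := by
    have := PiLp.norm_apply_le (x 1) c
    simpa using this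
  rw [one_mul, pow_one]
  refine h2.trans ?_
  unfold W
  have h0 := norm_nonneg (x 0)
  have h1 := norm_nonneg (x 1)
  nlinarith

/-! integrability -/

theorem pow_le_aux (t : ℝ) (ht : 0 ≤ t) (m : ℕ) : (1 + t) ^ m ≤ 2 ^ m * (1 + t ^ m) := by
  rcases le_total t 1 with h | h
  · calc (1 + t) ^ m ≤ 2 ^ m := pow_le_pow_left₀ (by linarith) (by linarith) m
      _ ≤ 2 ^ m * (1 + t ^ m) := by
        have : 0 ≤ t ^ m := pow_nonneg ht m
        nlinarith [pow_pos (zero_lt_two (α := ℝ)) m]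
  · calc (1 + t) ^ m ≤ (2 * t) ^ m := pow_le_pow_left₀ (by linarith) (by linarith) m
      _ = 2 ^ m * t ^ m := mul_pow _ _ _
      _ ≤ 2 ^ m * (1 + t ^ m) := by
        have := pow_pos (zero_lt_two (α := ℝ)) m
        nlinarith

theorem int1 (h : S_hm) (m : ℕ) : Integrable (fun y : E3 => (1 + ‖y‖) ^ m) hm := by
  have : IsProbabilityMeasure hm := h.1
  have h1 := (h.2.2.2.2.1 m).1
  have h2 : Integrable (fun y : E3 => 2 ^ m * (1 + ‖y‖ ^ m)) hm :=
    ((integrable_const 1).add h1).const_mul _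
  refine h2.mono' (by fun_prop) (Filter.Eventually.of_forall fun y => ?_)
  rw [Real.norm_eq_abs, abs_of_nonneg (by positivity)]
  exact pow_le_aux _ (norm_nonneg _) m

theorem int_W (h : S_hm) (m : ℕ) : Integrable (fun x => W x ^ m) pm := by
  have : IsProbabilityMeasure hm := h.1
  have h1 : Integrable (fun x : X3 => ∏ j : Fin 3,
      (![fun y : E3 => (1 + ‖y‖) ^ m, fun y => (1 + ‖y‖) ^ m, fun _ => 1] j) (x j)) pm := by
    refine Integrable.fintype_prod (μ := fun _ : Fin 3 => hm)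
      (f := ![fun y : E3 => (1 + ‖y‖) ^ m, fun y => (1 + ‖y‖) ^ m, fun _ => 1]) ?_
    intro j
    fin_cases j
    · exact int1 h m
    · exact int1 h m
    · exact integrable_const _
  refine h1.congr (Filter.Eventually.of_forall fun x => ?_)
  simp [Fin.prod_univ_three, W, mul_pow]

theorem PB.int (h : S_hm) {f : X3 → ℝ} (hf : PB f) : Integrable f pm := by
  obtain ⟨mf, A, m, hA, h1⟩ := hf
  refine ((int_W h m).const_mul A).mono' mf.aestronglyMeasurable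
    (Filter.Eventually.of_forall fun x => ?_)
  rw [Real.norm_eq_abs]
  exact h1 x

/-- the norm of `L²(pm)` -/
def nrm (f : X3 → ℝ) : ℝ := √(∫ x, f x ^ 2 ∂pm)

theorem nrm_nonneg (f : X3 → ℝ) : 0 ≤ nrm f := Real.sqrt_nonneg _

theorem nrm_sq (f : X3 → ℝ) : nrm f ^ 2 = ∫ x, f x ^ 2 ∂pm :=
  Real.sq_sqrt (integral_nonneg fun _ => sq_nonneg _)

/-- Cauchy-Schwarz -/
theorem cs (h : S_hm) {f g : X3 → ℝ} (hf : PB f) (hg : PB g) :
    |∫ x, f x * g x ∂pm| ≤ nrm f * nrm g := by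
  have i1 : Integrable (fun x => f x ^ 2) pm := (hf.pow 2).int h
  have i2 : Integrable (fun x => g x ^ 2) pm := (hg.pow 2).int h
  have i3 : Integrable (fun x => f x * g x) pm := (hf.mul hg).int h
  have hd : discrim (∫ x, g x ^ 2 ∂pm) (2 * ∫ x, f x * g x ∂pm) (∫ x, f x ^ 2 ∂pm) ≤ 0 := by
    refine discrim_le_zero fun t => ?_
    have e : ∫ x, (f x + t * g x) ^ 2 ∂pm =
        (∫ x, g x ^ 2 ∂pm) * (t * t) + (2 * ∫ x, f x * g x ∂pm) * t + ∫ x, f x ^ 2 ∂pm := by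
      have e1 : (fun x => (f x + t * g x) ^ 2) =
          fun x => (t * t) * g x ^ 2 + ((2 * t) * (f x * g x) + f x ^ 2) := by
        funext x
        ring
      have e2 : ∫ x, ((t * t) * g x ^ 2 + ((2 * t) * (f x * g x) + f x ^ 2)) ∂pm =
          (∫ x, (t * t) * g x ^ 2 ∂pm) + ∫ x, ((2 * t) * (f x * g x) + f x ^ 2) ∂pm :=
        integral_add (i2.const_mul _) ((i3.const_mul _).add i1)
      have e3 : ∫ x, ((2 * t) * (f x * g x) + f x ^ 2) ∂pm =
          (∫ x, (2 * t) * (f x * g x) ∂pm) + ∫ x, f x ^ 2 ∂pm :=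
        integral_add (i3.const_mul _) i1
      rw [e1, e2, e3, integral_const_mul, integral_const_mul]
      ring
    rw [← e]
    exact integral_nonneg fun x => sq_nonneg _
  rw [discrim] at hd
  have h1 : (∫ x, f x * g x ∂pm) ^ 2 ≤ (∫ x, f x ^ 2 ∂pm) * ∫ x, g x ^ 2 ∂pm := by nlinarith
  have h2 : (∫ x, f x * g x ∂pm) ^ 2 ≤ (nrm f * nrm g) ^ 2 := by
    rw [mul_pow, nrm_sq, nrm_sq]
    exact h1
  exact abs_le_of_sq_le_sq h2 (mul_nonneg (nrm_nonneg _) (nrm_nonneg _))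

theorem nrm_mono (h : S_hm) {f g : X3 → ℝ} (hf : PB f) (hg : PB g) (hfg : ∀ x, |f x| ≤ |g x|) :
    nrm f ≤ nrm g := by
  refine Real.sqrt_le_sqrt (integral_mono ((hf.pow 2).int h) ((hg.pow 2).int h) fun x => ?_)
  exact sq_le_sq.mpr (hfg x)

/-! ## cut-offs -/

theorem zt_nonneg (r : ℝ) (x : E3) : 0 ≤ zt r x := le_max_left _ _

theorem zt_le_one (r : ℝ) (x : E3) : zt r x ≤ 1 :=
  max_le zero_le_one (min_le_left _ _)

theorem zt_eq_one {r : ℝ} (hr : 0 < r) {x : E3} (h : ‖x‖ ≤ r / 2) : zt r x = 1 := by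
  have h1 : 1 ≤ 2 - 2 * ‖x‖ / r := by
    have : 2 * ‖x‖ / r ≤ 1 := by
      rw [div_le_one hr]
      linarith
    linarith
  unfold zt
  rw [min_eq_left h1, max_eq_right zero_le_one]

theorem zt_ne_zero {r : ℝ} (hr : 0 < r) {x : E3} (h : zt r x ≠ 0) : ‖x‖ ≤ r := by
  by_contra hc
  rw [not_le] at hc
  apply h
  have h1 : 2 - 2 * ‖x‖ / r ≤ 0 := by
    have : 2 ≤ 2 * ‖x‖ / r := by
      rw [le_div_iff₀ hr]
      linarith
    linarith
  unfold zt
  exact max_eq_left ((min_le_right _ _).trans h1)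

theorem measurable_zt (r : ℝ) : Measurable (zt r) := by
  unfold zt
  fun_prop

theorem pb_zt0 (r : ℝ) : PB (fun x : X3 => zt r (x 0)) :=
  PB.bdd ((measurable_zt r).comp (measurable_pi_apply 0)) (B := 1) fun x => by
    rw [abs_of_nonneg (zt_nonneg _ _)]
    exact zt_le_one _ _

theorem pb_zt1 (r : ℝ) : PB (fun x : X3 => zt r (x 1)) :=
  PB.bdd ((measurable_zt r).comp (measurable_pi_apply 1)) (B := 1) fun x => by
    rw [abs_of_nonneg (zt_nonneg _ _)]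
    exact zt_le_one _ _

theorem pb_hh0 : PB (fun x : X3 => hh 2 (x 0)) :=
  (((pb_c0 0).pow 2).sub (PB.smul (1 / 2) (((pb_c0 1).pow 2).add ((pb_c0 2).pow 2)))).congr
    fun x => by simp only [hh]; ring

theorem pb_dd : PB (fun x : X3 => dd (x 0) (x 1)) :=
  ((((pb_c0 1).mul (pb_c1 1)).add ((pb_c0 2).mul (pb_c1 2))).sub
    (PB.smul 2 ((pb_c0 0).mul (pb_c1 0)))).congr fun x => by simp only [dd]; ring

theorem pb_th0 : PB (fun x : X3 => th 2 (x 0)) :=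
  (pb_hh0.mul ((PB.const 1).add (PB.smul (1 / 3) pb_norm0))).congr fun x => by
    simp only [th]
    push_cast
    ring

theorem pb_chi : PB chi :=
  (pb_dd.mul (PB.smul (1 / 6) (((PB.const 3).add pb_norm0).add pb_norm1))).congr fun x => by
    simp only [chi]
    ring

theorem pb_kap : PB kap :=
  ((pb_hh0.mul pb_dd).mul (((PB.const 1).add (PB.smul (1 / 3) pb_norm0)).add
    (PB.smul (1 / 6) (((PB.const 3).add pb_norm0).add pb_norm1)))).congr fun x => by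
    simp only [kap]
    ring

theorem pb_chir (r : ℝ) : PB (chir r) := (pb_chi.mul (pb_zt0 r)).mul (pb_zt1 r)

theorem hh2_lower (x : E3) : -(‖x‖ ^ 2 / 2) ≤ hh 2 x := by
  have h : ‖x‖ ^ 2 = x 0 ^ 2 + x 1 ^ 2 + x 2 ^ 2 := by
    rw [EuclideanSpace.norm_sq_eq]
    simp [Fin.sum_univ_three]
  rw [h]
  simp only [hh]
  nlinarith [sq_nonneg (x 0)]

theorem hh2_abs (x : E3) : |hh 2 x| ≤ ‖x‖ ^ 2 := by
  have h : ‖x‖ ^ 2 = x 0 ^ 2 + x 1 ^ 2 + x 2 ^ 2 := by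
    rw [EuclideanSpace.norm_sq_eq]
    simp [Fin.sum_univ_three]
  rw [h, abs_le]
  simp only [hh]
  constructor <;> nlinarith [sq_nonneg (x 0), sq_nonneg (x 1), sq_nonneg (x 2)]

/-! ## reflections -/

/-- reflection in the variable `j` -/
def R (j : Fin 3) (x : X3) : X3 := Function.update x j (-x j)

theorem R_R (j : Fin 3) (x : X3) : R j (R j x) = x := by
  unfold R
  simp

theorem R_comm (x : X3) : R 0 (R 1 x) = R 1 (R 0 x) := by
  unfold R
  funext k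
  fin_cases k <;> simp

theorem W_R (j : Fin 3) (x : X3) : W (R j x) = W x := by
  unfold W R
  fin_cases j <;> simp

theorem R_eq (j : Fin 3) : R j = sgT (Equiv.refl _) (fun k _ => if k = j then -1 else 1) := by
  funext x k
  unfold R sgT
  ext c
  by_cases h : k = j
  · subst h
    simp
  · simp [h]

theorem mp_R (hs : S_sym) (j : Fin 3) : MeasurePreserving (R j) pm pm := by
  rw [R_eq]
  exact (hs (Equiv.refl _) _ (fun k c => by by_cases h : k = j <;> simp [h])).1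

theorem int_comp {T : X3 → X3} (hT : MeasurePreserving T pm pm) {f : X3 → ℝ}
    (hf : Measurable f) : ∫ x, f (T x) ∂pm = ∫ x, f x ∂pm := by
  have h := integral_map hT.measurable.aemeasurable (μ := pm) (f := f)
    (by rw [hT.map_eq]; exact hf.aestronglyMeasurable)
  rw [hT.map_eq] at h
  exact h.symm

theorem odd_int (hs : S_sym) (j : Fin 3) {f : X3 → ℝ} (hf : Measurable f)
    (h : ∀ x, f (R j x) = - f x) : ∫ x, f x ∂pm = 0 := by
  have h1 := int_comp (mp_R hs j) hf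
  have h2 : ∫ x, f (R j x) ∂pm = - ∫ x, f x ∂pm := by
    rw [← integral_neg]
    exact integral_congr_ae (Filter.Eventually.of_forall h)
  linarith

theorem PB.comp {f : X3 → ℝ} (hs : S_sym) (hf : PB f) (j : Fin 3) : PB (fun x => f (R j x)) := by
  obtain ⟨mf, A, m, hA, h⟩ := hf
  exact ⟨mf.comp (mp_R hs j).measurable, A, m, hA, fun x => by
    have := h (R j x)
    rw [W_R] at this
    exact this⟩

theorem oo_eq (f : X3 → ℝ) (x : X3) :
    oo f x = (f x - f (R 0 x) - f (R 1 x) + f (R 1 (R 0 x))) / 4 := by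
  unfold oo R
  simp

theorem pb_oo (hs : S_sym) {f : X3 → ℝ} (hf : PB f) : PB (oo f) := by
  have h1 := hf.comp hs 0
  have h2 := hf.comp hs 1
  have h3 := h2.comp hs 0
  exact (PB.smul (1 / 4) (((hf.sub h1).sub h2).add h3)).congr fun x => by
    rw [oo_eq]
    ring

theorem oo_R0 (f : X3 → ℝ) (x : X3) : oo f (R 0 x) = - oo f x := by
  rw [oo_eq, oo_eq, R_R]
  ring

theorem oo_R1 (f : X3 → ℝ) (x : X3) : oo f (R 1 x) = - oo f x := by
  rw [oo_eq, oo_eq, R_R, R_comm, R_R]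
  ring

/-- `oo` is an orthogonal projection -/
theorem oo_int (h : S_hm) (hs : S_sym) {f g : X3 → ℝ} (hf : PB f) (hg : PB g)
    (h0 : ∀ x, g (R 0 x) = - g x) (h1 : ∀ x, g (R 1 x) = - g x) :
    ∫ x, g x * oo f x ∂pm = ∫ x, g x * f x ∂pm := by
  have f0 := hf.comp hs 0
  have f1 := hf.comp hs 1
  have f2 := f1.comp hs 0
  have i := (hg.mul hf).int h
  have i0 := (hg.mul f0).int h
  have i1 := (hg.mul f1).int h
  have i2 := (hg.mul f2).int h
  have e0 : ∫ x, g x * f (R 0 x) ∂pm = - ∫ x, g x * f x ∂pm := by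
    rw [← int_comp (mp_R hs 0) (hg.mul f0).1, ← integral_neg]
    refine integral_congr_ae (Filter.Eventually.of_forall fun x => ?_)
    simp only [R_R, h0]
    ring
  have e1 : ∫ x, g x * f (R 1 x) ∂pm = - ∫ x, g x * f x ∂pm := by
    rw [← int_comp (mp_R hs 1) (hg.mul f1).1, ← integral_neg]
    refine integral_congr_ae (Filter.Eventually.of_forall fun x => ?_)
    simp only [R_R, h1]
    ring
  have e2 : ∫ x, g x * f (R 1 (R 0 x)) ∂pm = ∫ x, g x * f x ∂pm := by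
    have h3 : ∫ x, g x * f (R 1 (R 0 x)) ∂pm = - ∫ x, g x * f (R 1 x) ∂pm := by
      rw [← int_comp (mp_R hs 0) (hg.mul f2).1, ← integral_neg]
      refine integral_congr_ae (Filter.Eventually.of_forall fun x => ?_)
      simp only [R_R, h0]
      ring
    rw [h3, e1]
    ring
  have e3 : (fun x => g x * oo f x) = fun x => (1 / 4) * ((g x * f x - g x * f (R 0 x)) +
      (g x * f (R 1 (R 0 x)) - g x * f (R 1 x))) := by
    funext x
    rw [oo_eq]
    ring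
  have e4 : ∫ x, ((g x * f x - g x * f (R 0 x)) +
      (g x * f (R 1 (R 0 x)) - g x * f (R 1 x))) ∂pm =
      (∫ x, (g x * f x - g x * f (R 0 x)) ∂pm) +
        ∫ x, (g x * f (R 1 (R 0 x)) - g x * f (R 1 x)) ∂pm :=
    integral_add (i.sub i0) (i2.sub i1)
  have e5 : ∫ x, (g x * f x - g x * f (R 0 x)) ∂pm =
      (∫ x, g x * f x ∂pm) - ∫ x, g x * f (R 0 x) ∂pm := integral_sub i i0
  have e6 : ∫ x, (g x * f (R 1 (R 0 x)) - g x * f (R 1 x)) ∂pm =
      (∫ x, g x * f (R 1 (R 0 x)) ∂pm) - ∫ x, g x * f (R 1 x) ∂pm := integral_sub i2 i1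
  rw [e3, integral_const_mul, e4, e5, e6, e0, e1, e2]
  ring

theorem hh2_neg (y : E3) : hh 2 (-y) = hh 2 y := by simp [hh]

theorem th2_neg (y : E3) : th 2 (-y) = th 2 y := by simp [th, hh2_neg]

theorem zt_neg (r : ℝ) (y : E3) : zt r (-y) = zt r y := by simp [zt]

theorem dd_neg0 (x y : E3) : dd (-x) y = - dd x y := by
  simp [dd]
  ring

theorem dd_neg1 (x y : E3) : dd x (-y) = - dd x y := by
  simp [dd]
  ring

/-- the test function -/
def vv (r : ℝ) (x : X3) : ℝ := zt r (x 1) * (th 2 (x 0) * zt r (x 0))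

theorem pb_vv (r : ℝ) : PB (vv r) := (pb_zt1 r).mul (pb_th0.mul (pb_zt0 r))

theorem vv_R0 (r : ℝ) (x : X3) : vv r (R 0 x) = vv r x := by
  simp [vv, R, th2_neg, zt_neg]

theorem vv_R1 (r : ℝ) (x : X3) : vv r (R 1 x) = vv r x := by
  simp [vv, R, zt_neg]

theorem ddv_R0 (r : ℝ) (x : X3) :
    dd (R 0 x 0) (R 0 x 1) * vv r (R 0 x) = - (dd (x 0) (x 1) * vv r x) := by
  rw [vv_R0]
  simp [R, dd_neg0]

theorem ddv_R1 (r : ℝ) (x : X3) :
    dd (R 1 x 0) (R 1 x 1) * vv r (R 1 x) = - (dd (x 0) (x 1) * vv r x) := by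
  rw [vv_R1]
  simp [R, dd_neg1]

/-! ## tails -/

/-- indicator of the outer region -/
def TT (r : ℝ) (x : X3) : ℝ :=
  (if r / 2 < ‖x 0‖ then 1 else 0) + (if r / 2 < ‖x 1‖ then 1 else 0)

theorem pb_T0 (r : ℝ) : PB (fun x : X3 => if r / 2 < ‖x 0‖ then (1 : ℝ) else 0) := by
  refine PB.bdd ?_ (B := 1) fun x => ?_
  · refine Measurable.ite ?_ measurable_const measurable_const
    exact measurableSet_lt measurable_const (by fun_prop)
  · split_ifs <;> simp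

theorem pb_T1 (r : ℝ) : PB (fun x : X3 => if r / 2 < ‖x 1‖ then (1 : ℝ) else 0) := by
  refine PB.bdd ?_ (B := 1) fun x => ?_
  · refine Measurable.ite ?_ measurable_const measurable_const
    exact measurableSet_lt measurable_const (by fun_prop)
  · split_ifs <;> simp

theorem pb_TT (r : ℝ) : PB (TT r) := (pb_T0 r).add (pb_T1 r)

theorem pb_W : PB W :=
  ⟨measurable_W, 1, 1, zero_le_one, fun x => by
    rw [abs_of_nonneg (W_nonneg x), one_mul, pow_one]⟩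

theorem tail1 (h : S_hm) (m : ℕ) : ∃ C : ℝ, 0 ≤ C ∧ ∀ r : ℝ, 1 ≤ r →
    ∫ y, (if r / 2 < ‖y‖ then (1 + ‖y‖) ^ m else 0) ∂hm ≤ C * Real.exp (-r / 4) := by
  have : IsProbabilityMeasure hm := h.1
  obtain ⟨C0, h0⟩ := h.2.2.2.2.2.1 0
  obtain ⟨Cm, hm'⟩ := h.2.2.2.2.2.1 m
  refine ⟨max (2 ^ m * (C0 + Cm)) 0, le_max_right _ _, fun r hr => ?_⟩
  have ms : MeasurableSet {y : E3 | r / 2 < ‖y‖} :=
    measurableSet_lt measurable_const measurable_norm
  have ind : ∀ k : ℕ, Integrable (fun y : E3 => if r / 2 < ‖y‖ then ‖y‖ ^ k else 0) hm := by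
    intro k
    have h1 := ((h.2.2.2.2.1 k).1).indicator ms
    refine h1.congr (Filter.Eventually.of_forall fun y => ?_)
    simp [Set.indicator]
  have hle : ∫ y, (if r / 2 < ‖y‖ then (1 + ‖y‖) ^ m else 0) ∂hm ≤
      ∫ y, 2 ^ m * ((if r / 2 < ‖y‖ then ‖y‖ ^ 0 else 0) + (if r / 2 < ‖y‖ then ‖y‖ ^ m else 0))
        ∂hm := by
    refine integral_mono_of_nonneg (Filter.Eventually.of_forall fun y => ?_)
      (((ind 0).add (ind m)).const_mul _) (Filter.Eventually.of_forall fun y => ?_)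
    · dsimp only
      split_ifs <;> positivity
    · dsimp only
      split_ifs with hy
      · rw [pow_zero]
        exact pow_le_aux _ (norm_nonneg _) m
      · simp
  refine hle.trans ?_
  have e : ∫ y, ((if r / 2 < ‖y‖ then ‖y‖ ^ 0 else 0) + (if r / 2 < ‖y‖ then ‖y‖ ^ m else 0)) ∂hm =
      (∫ y, (if r / 2 < ‖y‖ then ‖y‖ ^ 0 else 0) ∂hm) +
        ∫ y, (if r / 2 < ‖y‖ then ‖y‖ ^ m else 0) ∂hm := integral_add (ind 0) (ind m)
  rw [integral_const_mul, e]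
  calc 2 ^ m * ((∫ y, (if r / 2 < ‖y‖ then ‖y‖ ^ 0 else 0) ∂hm) +
        ∫ y, (if r / 2 < ‖y‖ then ‖y‖ ^ m else 0) ∂hm)
      ≤ 2 ^ m * (C0 * Real.exp (-r / 4) + Cm * Real.exp (-r / 4)) := by
        have a1 := h0 r hr
        have a2 := hm' r hr
        gcongr
    _ = 2 ^ m * (C0 + Cm) * Real.exp (-r / 4) := by ring
    _ ≤ _ := mul_le_mul_of_nonneg_right (le_max_left _ _) (Real.exp_pos _).le

theorem tailW (h : S_hm) (hp : S_prod) (m : ℕ) : ∃ C : ℝ, 0 ≤ C ∧ ∀ r : ℝ, 1 ≤ r →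
    ∫ x, TT r x * W x ^ m ∂pm ≤ C * Real.exp (-r / 4) := by
  have : IsProbabilityMeasure hm := h.1
  obtain ⟨C, hC, hC'⟩ := tail1 h m
  set J : ℝ := ∫ y, (1 + ‖y‖) ^ m ∂hm with hJ
  have hJ0 : 0 ≤ J := integral_nonneg fun y => by positivity
  refine ⟨2 * (C * J), by positivity, fun r hr => ?_⟩
  have i0 : Integrable (fun x : X3 => (if r / 2 < ‖x 0‖ then (1 : ℝ) else 0) * W x ^ m) pm :=
    ((pb_T0 r).mul (pb_W.pow m)).int h
  have i1 : Integrable (fun x : X3 => (if r / 2 < ‖x 1‖ then (1 : ℝ) else 0) * W x ^ m) pm :=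
    ((pb_T1 r).mul (pb_W.pow m)).int h
  have e : ∫ x, TT r x * W x ^ m ∂pm =
      (∫ x : X3, (if r / 2 < ‖x 0‖ then (1 : ℝ) else 0) * W x ^ m ∂pm) +
        ∫ x : X3, (if r / 2 < ‖x 1‖ then (1 : ℝ) else 0) * W x ^ m ∂pm := by
    rw [← integral_add i0 i1]
    refine integral_congr_ae (Filter.Eventually.of_forall fun x => ?_)
    simp only [TT]
    ring
  have e0 : ∫ x : X3, (if r / 2 < ‖x 0‖ then (1 : ℝ) else 0) * W x ^ m ∂pm =
      (∫ y, (if r / 2 < ‖y‖ then (1 + ‖y‖) ^ m else 0) ∂hm) * J := by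
    have h1 := hp.2.2.2.1 ![fun y : E3 => if r / 2 < ‖y‖ then (1 + ‖y‖) ^ m else 0,
      fun y => (1 + ‖y‖) ^ m, fun _ => 1]
    simp only [Fin.prod_univ_three, Matrix.cons_val_zero, Matrix.cons_val_one,
      Matrix.cons_val, integral_const, probReal_univ, smul_eq_mul, mul_one] at h1
    rw [← h1]
    refine integral_congr_ae (Filter.Eventually.of_forall fun x => ?_)
    simp only [W, mul_pow]
    split_ifs <;> ring
  have e1 : ∫ x : X3, (if r / 2 < ‖x 1‖ then (1 : ℝ) else 0) * W x ^ m ∂pm =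
      J * (∫ y, (if r / 2 < ‖y‖ then (1 + ‖y‖) ^ m else 0) ∂hm) := by
    have h1 := hp.2.2.2.1 ![fun y : E3 => (1 + ‖y‖) ^ m,
      fun y => if r / 2 < ‖y‖ then (1 + ‖y‖) ^ m else 0, fun _ => 1]
    simp only [Fin.prod_univ_three, Matrix.cons_val_zero, Matrix.cons_val_one,
      Matrix.cons_val, integral_const, probReal_univ, smul_eq_mul, mul_one] at h1
    rw [← h1]
    refine integral_congr_ae (Filter.Eventually.of_forall fun x => ?_)
    simp only [W, mul_pow]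
    split_ifs <;> ring
  rw [e, e0, e1]
  have := hC' r hr
  calc _ ≤ C * Real.exp (-r / 4) * J + J * (C * Real.exp (-r / 4)) := by gcongr
    _ = _ := by ring

theorem tail_int (h : S_hm) (hp : S_prod) {g : X3 → ℝ} (hg : PB g) : ∃ C : ℝ, 0 ≤ C ∧
    ∀ r : ℝ, 1 ≤ r → ∀ F : X3 → ℝ, (∀ x, |F x| ≤ |g x| * TT r x) →
      |∫ x, F x ∂pm| ≤ C * Real.exp (-r / 4) := by
  obtain ⟨mg, A, m, hA, h1⟩ := hg
  obtain ⟨C, hC, h2⟩ := tailW h hp m
  refine ⟨A * C, mul_nonneg hA hC, fun r hr F hF => ?_⟩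
  have hT : ∀ x, 0 ≤ TT r x := fun x => by
    unfold TT
    split_ifs <;> norm_num
  calc |∫ x, F x ∂pm| ≤ ∫ x, |F x| ∂pm := abs_integral_le_integral_abs
    _ ≤ ∫ x, A * (TT r x * W x ^ m) ∂pm := by
        refine integral_mono_of_nonneg (Filter.Eventually.of_forall fun x => abs_nonneg _)
          (((((pb_TT r).mul (pb_W.pow m))).int h).const_mul A)
          (Filter.Eventually.of_forall fun x => ?_)
        dsimp only
        calc |F x| ≤ |g x| * TT r x := hF x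
          _ ≤ (A * W x ^ m) * TT r x := mul_le_mul_of_nonneg_right (h1 x) (hT x)
          _ = _ := by ring
    _ = A * ∫ x, TT r x * W x ^ m ∂pm := integral_const_mul _ _
    _ ≤ A * (C * Real.exp (-r / 4)) := mul_le_mul_of_nonneg_left (h2 r hr) hA
    _ = _ := by ring

theorem TT_nonneg (r : ℝ) (x : X3) : 0 ≤ TT r x := by
  unfold TT
  split_ifs <;> norm_num

theorem one_sub_zt1 {r : ℝ} (hr : 1 ≤ r) (x : X3) : |1 - zt r (x 1)| ≤ TT r x := by
  unfold TT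
  by_cases h1 : r / 2 < ‖x 1‖
  · rw [if_pos h1, abs_of_nonneg (sub_nonneg.mpr (zt_le_one _ _))]
    have := zt_nonneg r (x 1)
    split_ifs <;> linarith
  · rw [if_neg h1, zt_eq_one (by linarith) (not_lt.mp h1)]
    simp only [sub_self, abs_zero, add_zero]
    split_ifs <;> norm_num

theorem one_sub_ZZ {r : ℝ} (hr : 1 ≤ r) (x : X3) :
    |1 - (zt r (x 0) * zt r (x 1)) ^ 2| ≤ TT r x := by
  have z0 := zt_nonneg r (x 0)
  have z1 := zt_nonneg r (x 1)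
  have y0 := zt_le_one r (x 0)
  have y1 := zt_le_one r (x 1)
  have hz : zt r (x 0) * zt r (x 1) ≤ 1 := mul_le_one₀ y0 z1 y1
  have hz0 : 0 ≤ zt r (x 0) * zt r (x 1) := mul_nonneg z0 z1
  have hz2 : (zt r (x 0) * zt r (x 1)) ^ 2 ≤ 1 := pow_le_one₀ hz0 hz
  rw [abs_of_nonneg (by linarith)]
  unfold TT
  by_cases h0 : r / 2 < ‖x 0‖
  · rw [if_pos h0]
    have := sq_nonneg (zt r (x 0) * zt r (x 1))
    split_ifs <;> linarith
  · by_cases h1 : r / 2 < ‖x 1‖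
    · rw [if_pos h1]
      have := sq_nonneg (zt r (x 0) * zt r (x 1))
      split_ifs <;> linarith
    · rw [zt_eq_one (by linarith) (not_lt.mp h0), zt_eq_one (by linarith) (not_lt.mp h1),
        if_neg h0, if_neg h1]
      norm_num

/-! ## the test function and the form -/

theorem pd_zero (hp : S_prod) (j c : Fin 3) {f : X3 → ℝ}
    (h : ∀ x y, f (Function.update x j y) = f x) (x : X3) : pd j c f x = 0 := by
  have h1 := hp.2.2.2.2.1 j c f x (x j)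
  rw [Function.update_eq_self] at h1
  rw [h1]
  have e : sl j x f = fun _ => f x := funext fun y => h x y
  rw [e]
  simp [pd1, lineDeriv]

theorem Dj_zero (hp : S_prod) (j : Fin 3) {f g : X3 → ℝ}
    (h : ∀ x y, f (Function.update x j y) = f x) : Dj j f g = 0 := by
  unfold Dj
  simp [pd_zero hp j _ h]

theorem pd1_smul (c : Fin 3) (l : ℝ) (F : E3 → ℝ) (y : E3) :
    pd1 c (fun y => l * F y) y = l * pd1 c F y := by
  simp only [pd1, lineDeriv]
  exact deriv_const_mul_field _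

theorem D1_smul (l : ℝ) (F : E3 → ℝ) :
    D1 (fun y => l * F y) (fun y => l * F y) = l ^ 2 * D1 F F := by
  unfold D1
  rw [Finset.mul_sum]
  refine Finset.sum_congr rfl fun c _ => ?_
  rw [← integral_const_mul]
  refine integral_congr_ae (Filter.Eventually.of_forall fun y => ?_)
  simp only [pd1_smul]
  ring

theorem D1_nonneg (F : E3 → ℝ) : 0 ≤ D1 F F :=
  Finset.sum_nonneg fun c _ => integral_nonneg fun y => mul_self_nonneg _

theorem BL.pb (hb : S_bl) {f : X3 → ℝ} (hf : BL f) : PB f := by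
  obtain ⟨B, hB⟩ := hf.bdd
  exact PB.bdd (hb.2.2.1 f hf).1 hB

theorem upd1_0 (x : X3) (y : E3) : (Function.update x 1 y) 0 = x 0 := by simp
theorem upd0_1 (x : X3) (y : E3) : (Function.update x 0 y) 1 = x 1 := by simp

section test

variable (h : S_hm) (hp : S_prod) (hb : S_bl) (hf : S_form) (hl : S_lift)
  {C1 : ℝ} (w1 : WSol (fun _ => 1) (fun _ => 0) C1) (w2 : WSol (th 2) (hh 2) C1)
  {r : ℝ} (hr : 1 ≤ r)

include hl hb w1 hr in
theorem bl_z1 {φ : X3 → ℝ} (hφ : Box S2 r φ) : BL (fun x : X3 => zt r (x 1)) := by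
  have h1 := (hl _ _ C1 w1 r S2 1 (fun _ => 1) φ hr (hb.2.1 1) (fun _ _ => rfl) hφ
    (by decide)).1
  have e : (fun x : X3 => (1 : ℝ) * ((1 : ℝ) * zt r (x 1))) = fun x => zt r (x 1) := by
    funext x
    ring
  rw [e] at h1
  exact h1

include hl hb w2 hr in
theorem bl_t0 {φ : X3 → ℝ} (hφ : Box S2 r φ) : BL (fun x : X3 => th 2 (x 0) * zt r (x 0)) := by
  have h1 := (hl _ _ C1 w2 r S2 0 (fun _ => 1) φ hr (hb.2.1 1) (fun _ _ => rfl) hφ
    (by decide)).1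
  have e : (fun x : X3 => (1 : ℝ) * (th 2 (x 0) * zt r (x 0))) =
      fun x => th 2 (x 0) * zt r (x 0) := by
    funext x
    ring
  rw [e] at h1
  exact h1

include hl hb w1 w2 hr in
theorem bl_vv {φ : X3 → ℝ} (hφ : Box S2 r φ) : BL (vv r) :=
  (hl _ _ C1 w2 r S2 0 (fun x => zt r (x 1)) φ hr (bl_z1 hb hl w1 hr hφ)
    (fun x y => by simp [upd0_1]) hφ (by decide)).1

include hl hb w1 w2 hr in
theorem box_vv {φ : X3 → ℝ} (hφ : Box S2 r φ) : Box S2 r (vv r) := by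
  refine ⟨(bl_vv hb hl w1 w2 hr hφ).lip, fun x hx j hj => ?_, fun j hj x y => ?_⟩
  · have h1 : zt r (x 1) ≠ 0 := fun h0 => hx (by simp [vv, h0])
    have h0 : zt r (x 0) ≠ 0 := fun h0 => hx (by simp [vv, h0])
    have hj' : j = 0 ∨ j = 1 := by
      simpa [S2] using hj
    rcases hj' with rfl | rfl
    · exact zt_ne_zero (by linarith) h0
    · exact zt_ne_zero (by linarith) h1
  · have hj' : j = 2 := by
      fin_cases j
      · exact absurd (by decide) hj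
      · exact absurd (by decide) hj
      · rfl
    subst hj'
    simp [vv]

/-- the square norm of `th 2` -/
def Jt : ℝ := ∫ x : X3, th 2 (x 0) ^ 2 ∂pm

theorem Jt_nonneg : 0 ≤ Jt := integral_nonneg fun x => sq_nonneg _

include h in
theorem ip_vv : ip (vv r) (vv r) ≤ Jt := by
  have e : ip (vv r) (vv r) = ∫ x, vv r x ^ 2 ∂pm := by
    unfold ip
    refine integral_congr_ae (Filter.Eventually.of_forall fun x => ?_)
    dsimp only
    ring
  rw [e]
  refine integral_mono (((pb_vv r).pow 2).int h) ((pb_th0.pow 2).int h) fun x => ?_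
  have z0 := zt_nonneg r (x 0)
  have z1 := zt_nonneg r (x 1)
  have y0 := zt_le_one r (x 0)
  have y1 := zt_le_one r (x 1)
  have hz : zt r (x 1) * zt r (x 0) ≤ 1 := mul_le_one₀ y1 z0 y0
  have hz0 : 0 ≤ zt r (x 1) * zt r (x 0) := mul_nonneg z1 z0
  have hz2 : (zt r (x 1) * zt r (x 0)) ^ 2 ≤ 1 := pow_le_one₀ hz0 hz
  calc vv r x ^ 2 = (zt r (x 1) * zt r (x 0)) ^ 2 * th 2 (x 0) ^ 2 := by
        unfold vv
        ring
    _ ≤ 1 * th 2 (x 0) ^ 2 := mul_le_mul_of_nonneg_right hz2 (sq_nonneg _)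
    _ = _ := one_mul _

include h in
theorem nrm_vv : nrm (vv r) ≤ √Jt := by
  refine Real.sqrt_le_sqrt ?_
  refine le_trans (le_of_eq ?_) (ip_vv h (r := r))
  unfold ip
  refine integral_congr_ae (Filter.Eventually.of_forall fun x => ?_)
  dsimp only
  ring

include h hp hb hf hl w1 w2 hr in
theorem DD_vv {φ : X3 → ℝ} (hφ : Box S2 r φ) : DD (vv r) (vv r) ≤ C1 + C1 * Jt := by
  have : IsProbabilityMeasure pm := hp.1
  have hbv := bl_vv hb hl w1 w2 hr hφ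
  have d2 : Dj 2 (vv r) (vv r) = 0 := Dj_zero hp 2 (fun x y => by simp [vv])
  have d0 : Dj 0 (vv r) (vv r) ≤ C1 := by
    obtain ⟨i, e⟩ := hf.2.2.2.1 0 (vv r) (vv r) hbv hbv
    rw [e]
    have h1 : ∀ x : X3, D1 (sl 0 x (vv r)) (sl 0 x (vv r)) ≤ C1 := by
      intro x
      have e1 : sl 0 x (vv r) = fun y => zt r (x 1) * (th 2 y * zt r y) := by
        funext y
        simp [sl, vv]
      rw [e1, D1_smul]
      have h2 : zt r (x 1) ^ 2 ≤ 1 := pow_le_one₀ (zt_nonneg _ _) (zt_le_one _ _)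
      have h3 := w2.leD r hr
      have h4 := D1_nonneg (fun y => th 2 y * zt r y)
      calc _ ≤ 1 * D1 (fun y => th 2 y * zt r y) (fun y => th 2 y * zt r y) :=
            mul_le_mul_of_nonneg_right h2 h4
        _ ≤ C1 := by rw [one_mul]; exact h3
    calc ∫ x, D1 (sl 0 x (vv r)) (sl 0 x (vv r)) ∂pm ≤ ∫ _x : X3, C1 ∂pm :=
          integral_mono i (integrable_const _) h1
      _ = C1 := by simp
  have d1 : Dj 1 (vv r) (vv r) ≤ C1 * Jt := by
    obtain ⟨i, e⟩ := hf.2.2.2.1 1 (vv r) (vv r) hbv hbv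
    rw [e]
    have h1 : ∀ x : X3, D1 (sl 1 x (vv r)) (sl 1 x (vv r)) ≤ C1 * th 2 (x 0) ^ 2 := by
      intro x
      have e1 : sl 1 x (vv r) = fun y => (th 2 (x 0) * zt r (x 0)) * ((fun _ => (1 : ℝ)) y * zt r y) := by
        funext y
        simp only [sl, vv, upd1_0, Function.update_self]
        ring
      rw [e1, D1_smul]
      have h2 : zt r (x 0) ^ 2 ≤ 1 := pow_le_one₀ (zt_nonneg _ _) (zt_le_one _ _)
      have h3 := w1.leD r hr
      have h4 := D1_nonneg (fun y => (fun _ => (1 : ℝ)) y * zt r y)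
      calc _ ≤ (th 2 (x 0) * zt r (x 0)) ^ 2 * C1 :=
            mul_le_mul_of_nonneg_left h3 (sq_nonneg _)
        _ = zt r (x 0) ^ 2 * (C1 * th 2 (x 0) ^ 2) := by ring
        _ ≤ 1 * (C1 * th 2 (x 0) ^ 2) :=
            mul_le_mul_of_nonneg_right h2 (mul_nonneg w1.nonneg (sq_nonneg _))
        _ = _ := one_mul _
    calc ∫ x, D1 (sl 1 x (vv r)) (sl 1 x (vv r)) ∂pm ≤ ∫ x : X3, C1 * th 2 (x 0) ^ 2 ∂pm :=
          integral_mono i (((pb_th0.pow 2).int h).const_mul _) h1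
      _ = C1 * Jt := integral_const_mul _ _
  unfold DD
  rw [Fin.sum_univ_three, d2]
  linarith

end test

/-! ## the weak equation tested with `vv` -/

theorem hh2_int (h : S_hm) (hp : S_prod) (h0 : S_harm0) : ∫ x : X3, hh 2 (x 0) ∂pm = 0 := by
  have : IsProbabilityMeasure hm := h.1
  have h1 := hp.2.2.2.1 ![hh 2, fun _ => 1, fun _ => 1]
  have h2 := (h0 2 (fun _ => 1) (by norm_num) (by norm_num)
    (by simpa using (h.2.2.2.2.1 2).1)).2
  simp only [mul_one] at h2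
  simp only [Fin.prod_univ_three, Matrix.cons_val_zero, Matrix.cons_val_one,
      Matrix.cons_val, integral_const, probReal_univ, smul_eq_mul, mul_one, h2] at h1
  exact h1

theorem vv_int (h : S_hm) (hp : S_prod) (h0 : S_harm0) {r : ℝ} :
    ∫ x, vv r x ∂pm = 0 := by
  have : IsProbabilityMeasure hm := h.1
  have h1 := hp.2.2.2.1 ![fun y => th 2 y * zt r y, zt r, fun _ => 1]
  set k : ℝ → ℝ := fun t => (1 + t / 3) * max 0 (min 1 (2 - 2 * t / r)) with hk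
  have e : ∀ y : E3, th 2 y * zt r y = hh 2 y * k ‖y‖ := by
    intro y
    simp only [th, zt, hk]
    push_cast
    ring
  have hi : Integrable (fun x : E3 => ‖x‖ ^ 2 * k ‖x‖) hm := by
    have h3 : Integrable (fun x : E3 => ‖x‖ ^ 2 + ‖x‖ ^ 3) hm :=
      (h.2.2.2.2.1 2).1.add (h.2.2.2.2.1 3).1
    have mk : Measurable k := by
      rw [hk]
      fun_prop
    refine h3.mono' ((by fun_prop : Measurable fun x : E3 => ‖x‖ ^ 2).mul
      (mk.comp measurable_norm)).aestronglyMeasurable (Filter.Eventually.of_forall fun y => ?_)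
    have hy := norm_nonneg y
    have hz0 : 0 ≤ max 0 (min 1 (2 - 2 * ‖y‖ / r)) := le_max_left _ _
    have hz1 : max 0 (min 1 (2 - 2 * ‖y‖ / r)) ≤ 1 := max_le zero_le_one (min_le_left _ _)
    have hk0 : 0 ≤ k ‖y‖ := mul_nonneg (by positivity) hz0
    have hk1 : k ‖y‖ ≤ 1 + ‖y‖ := by
      calc k ‖y‖ ≤ (1 + ‖y‖ / 3) * 1 := mul_le_mul_of_nonneg_left hz1 (by positivity)
        _ ≤ 1 + ‖y‖ := by linarith
    rw [Real.norm_eq_abs, abs_of_nonneg (mul_nonneg (by positivity) hk0)]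
    calc ‖y‖ ^ 2 * k ‖y‖ ≤ ‖y‖ ^ 2 * (1 + ‖y‖) := mul_le_mul_of_nonneg_left hk1 (by positivity)
      _ = _ := by ring
  have h2 := (h0 2 k (by norm_num) (by norm_num) hi).2
  have e2 : ∫ y, th 2 y * zt r y ∂hm = 0 := by
    rw [← h2]
    exact integral_congr_ae (Filter.Eventually.of_forall e)
  simp only [Fin.prod_univ_three, Matrix.cons_val_zero, Matrix.cons_val_one,
      Matrix.cons_val, integral_const, probReal_univ, smul_eq_mul, mul_one, e2, zero_mul] at h1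
  rw [← h1]
  refine integral_congr_ae (Filter.Eventually.of_forall fun x => ?_)
  simp only [vv]
  ring

theorem nrm_sub_c (h : S_hm) (hp : S_prod) {φ : X3 → ℝ} (hφ : PB φ) (hn : ip φ φ = 1) :
    nrm (fun x => φ x - ∫ z, φ z ∂pm) ^ 2 = 1 - (∫ z, φ z ∂pm) ^ 2 := by
  have : IsProbabilityMeasure pm := hp.1
  set c := ∫ z, φ z ∂pm with hc
  rw [nrm_sq]
  have i1 := (hφ.pow 2).int h
  have i2 := hφ.int h
  have e1 : ∫ x, (φ x - c) ^ 2 ∂pm = ∫ x, (φ x ^ 2 + ((-(2 * c)) * φ x + c ^ 2)) ∂pm :=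
    integral_congr_ae (Filter.Eventually.of_forall fun x => by dsimp only; ring)
  have e2 : ∫ x, (φ x ^ 2 + ((-(2 * c)) * φ x + c ^ 2)) ∂pm =
      (∫ x, φ x ^ 2 ∂pm) + ∫ x, ((-(2 * c)) * φ x + c ^ 2) ∂pm :=
    integral_add i1 ((i2.const_mul _).add (integrable_const _))
  have e3 : ∫ x, ((-(2 * c)) * φ x + c ^ 2) ∂pm =
      (∫ x, (-(2 * c)) * φ x ∂pm) + ∫ _x : X3, c ^ 2 ∂pm :=
    integral_add (i2.const_mul _) (integrable_const _)
  have e4 : ∫ x, φ x ^ 2 ∂pm = 1 := by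
    rw [← hn]
    unfold ip
    exact integral_congr_ae (Filter.Eventually.of_forall fun x => by dsimp only; ring)
  rw [e1, e2, e3, e4, integral_const_mul, ← hc]
  simp
  ring

theorem weak_q (h : S_hm) (hp : S_prod) (hb : S_bl) (hf : S_form) (hl : S_lift) (hv : S_var)
    (h0 : S_harm0) {C1 : ℝ} (w1 : WSol (fun _ => 1) (fun _ => 0) C1)
    (w2 : WSol (th 2) (hh 2) C1) : ∃ K : ℝ, 0 ≤ K ∧ ∀ (r a δ : ℝ) (φ : X3 → ℝ), 1 ≤ r → 0 ≤ δ →
      (∀ x, |V12 r a x| ≤ 1) → Measurable (V12 r a) → NM S2 r (V12 r a) φ →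
      1 - (∫ x, φ x ∂pm) ^ 2 ≤ δ → DD φ φ ≤ δ → |EE S2 r (V12 r a)| ≤ δ →
      |(∫ x, hh 2 (x 0) * φ x ∂pm) + ∫ x, V12 r a x * φ x * vv r x ∂pm| ≤
        K * (Real.exp (-r / 8) * (1 + √δ) + δ * √δ) := by
  have : IsProbabilityMeasure hm := h.1
  have : IsProbabilityMeasure pm := hp.1
  obtain ⟨Kt, hKt, ht⟩ := tail_int h hp (pb_hh0.pow 2)
  have hC1 := w1.nonneg
  set K : ℝ := √Kt + C1 + C1 * √Jt + √(C1 + C1 * Jt + 2 * Jt) + √Jt with hK
  have hK0 : 0 ≤ K := by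
    have := Real.sqrt_nonneg Jt
    positivity
  refine ⟨K, hK0, fun r a δ φ hr hδ hV hVm hφ hc hD hE => ?_⟩
  set e := Real.exp (-r / 8) with he
  have he0 : 0 < e := Real.exp_pos _
  have hφb : BL φ := hb.2.2.2.1 S2 r φ hφ.box (by linarith) ⟨0, by decide⟩
  have hφp : PB φ := BL.pb hb hφb
  have hbv := bl_vv hb hl w1 w2 hr hφ.box
  have hboxv := box_vv hb hl w1 w2 hr hφ.box
  have hz1 := bl_z1 hb hl w1 hr hφ.box
  have ht0 := bl_t0 hb hl w2 hr hφ.box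
  have hDj : ∀ j, 0 ≤ Dj j φ φ := fun j => (hf.1 j φ φ φ hφb hφb hφb 0).2.1
  have hDle : ∀ j, Dj j φ φ ≤ δ := by
    intro j
    refine le_trans ?_ hD
    unfold DD
    exact Finset.single_le_sum (f := fun j => Dj j φ φ) (fun i _ => hDj i) (Finset.mem_univ j)
  have hsq : ∀ j, √(Dj j φ φ) ≤ √δ := fun j => Real.sqrt_le_sqrt (hDle j)
  -- the first error
  have eA : |Dj 0 (vv r) φ - ∫ x, zt r (x 1) * hh 2 (x 0) * φ x ∂pm| ≤ C1 * e * √δ := by
    have h1 := (hl _ _ C1 w2 r S2 0 (fun x => zt r (x 1)) φ hr hz1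
      (fun x y => by simp) hφ.box (by decide)).2
    refine h1.trans ?_
    have h2 : √(ip (fun x : X3 => zt r (x 1)) fun x => zt r (x 1)) ≤ 1 := by
      refine Real.sqrt_le_iff.mpr ⟨zero_le_one, ?_⟩
      rw [one_pow]
      unfold ip
      calc ∫ x : X3, zt r (x 1) * zt r (x 1) ∂pm ≤ ∫ _x : X3, (1 : ℝ) ∂pm :=
            integral_mono (((pb_zt1 r).mul (pb_zt1 r)).int h) (integrable_const _) fun x =>
              mul_le_one₀ (zt_le_one _ _) (zt_nonneg _ _) (zt_le_one _ _)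
        _ = 1 := by simp
    calc _ ≤ C1 * e * 1 * √δ := by
          have := hsq 0
          gcongr
      _ = _ := by ring
  have eB : |Dj 1 (vv r) φ| ≤ C1 * e * √Jt * √δ := by
    have h1 := (hl _ _ C1 w1 r S2 1 (fun x => th 2 (x 0) * zt r (x 0)) φ hr ht0
      (fun x y => by simp) hφ.box (by decide)).2
    have e1 : (fun x : X3 => th 2 (x 0) * zt r (x 0) * ((1 : ℝ) * zt r (x 1))) = vv r := by
      funext x
      unfold vv
      ring
    rw [e1] at h1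
    simp only [mul_zero, zero_mul, integral_zero, sub_zero] at h1
    refine h1.trans ?_
    have h2 : √(ip (fun x : X3 => th 2 (x 0) * zt r (x 0)) fun x => th 2 (x 0) * zt r (x 0)) ≤
        √Jt := by
      refine Real.sqrt_le_sqrt ?_
      unfold ip Jt
      refine integral_mono (((pb_th0.mul (pb_zt0 r)).mul (pb_th0.mul (pb_zt0 r))).int h)
        ((pb_th0.pow 2).int h) fun x => ?_
      have h2 : zt r (x 0) ^ 2 ≤ 1 := pow_le_one₀ (zt_nonneg _ _) (zt_le_one _ _)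
      calc th 2 (x 0) * zt r (x 0) * (th 2 (x 0) * zt r (x 0)) =
            zt r (x 0) ^ 2 * th 2 (x 0) ^ 2 := by ring
        _ ≤ 1 * th 2 (x 0) ^ 2 := mul_le_mul_of_nonneg_right h2 (sq_nonneg _)
        _ = _ := one_mul _
    have := hsq 1
    gcongr
  have eC : |(∫ x, hh 2 (x 0) * φ x ∂pm) - ∫ x, zt r (x 1) * hh 2 (x 0) * φ x ∂pm| ≤ √Kt * e := by
    have e1 : (∫ x, hh 2 (x 0) * φ x ∂pm) - ∫ x, zt r (x 1) * hh 2 (x 0) * φ x ∂pm =
        ∫ x, ((1 - zt r (x 1)) * hh 2 (x 0)) * φ x ∂pm := by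
      rw [← integral_sub ((pb_hh0.mul hφp).int h) ((((pb_zt1 r).mul pb_hh0).mul hφp).int h)]
      refine integral_congr_ae (Filter.Eventually.of_forall fun x => ?_)
      dsimp only
      ring
    rw [e1]
    have pg : PB (fun x : X3 => (1 - zt r (x 1)) * hh 2 (x 0)) :=
      ((PB.const 1).sub (pb_zt1 r)).mul pb_hh0
    refine (cs h pg hφp).trans ?_
    have n1 : nrm φ = 1 := by
      have : nrm φ ^ 2 = 1 := by
        rw [nrm_sq, ← hφ.norm]
        unfold ip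
        exact integral_congr_ae (Filter.Eventually.of_forall fun x => by dsimp only; ring)
      have h2 := nrm_nonneg φ
      nlinarith
    rw [n1, mul_one]
    have h2 := ht r hr (fun x => ((1 - zt r (x 1)) * hh 2 (x 0)) ^ 2) (fun x => by
      have a1 := one_sub_zt1 hr x
      have a2 : |1 - zt r (x 1)| ≤ 1 := by
        rw [abs_le]
        have := zt_nonneg r (x 1)
        have := zt_le_one r (x 1)
        constructor <;> linarith
      rw [mul_pow, abs_mul, abs_pow, abs_pow]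
      calc |1 - zt r (x 1)| ^ 2 * |hh 2 (x 0)| ^ 2 =
            |1 - zt r (x 1)| * |1 - zt r (x 1)| * |hh 2 (x 0)| ^ 2 := by ring
        _ ≤ TT r x * 1 * |hh 2 (x 0)| ^ 2 := by
            have := TT_nonneg r x
            gcongr
        _ = |hh 2 (x 0)| ^ 2 * TT r x := by ring)
    have h3 : ∫ x : X3, ((1 - zt r (x 1)) * hh 2 (x 0)) ^ 2 ∂pm ≤ Kt * e ^ 2 := by
      refine (le_abs_self _).trans (h2.trans (le_of_eq ?_))
      rw [he, ← Real.exp_nat_mul]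
      congr 2
      push_cast
      ring
    calc nrm _ ≤ √(Kt * e ^ 2) := Real.sqrt_le_sqrt h3
      _ = √Kt * e := by rw [Real.sqrt_mul hKt, Real.sqrt_sq he0.le]
  have eD : |BB (V12 r a) φ (vv r) - EE S2 r (V12 r a) * ip φ (vv r)| ≤
      √(C1 + C1 * Jt + 2 * Jt) * e := by
    have h1 := (hv S2 r (V12 r a) ⟨0, by decide⟩ hr hVm hV).2.2.2 (Real.exp (-r)) φ (vv r)
      (Real.exp_pos _).le hφ.box hφ.norm hφ.le hboxv
    refine h1.trans ?_
    have h2 : √(Real.exp (-r)) ≤ e := by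
      rw [Real.sqrt_le_left he0.le, he, ← Real.exp_nat_mul]
      refine Real.exp_le_exp.mpr ?_
      push_cast
      linarith
    have h3 := DD_vv h hp hb hf hl w1 w2 hr hφ.box
    have h4 := ip_vv h (r := r)
    rw [mul_comm]
    refine mul_le_mul (Real.sqrt_le_sqrt (by linarith)) h2 (Real.sqrt_nonneg _)
      (Real.sqrt_nonneg _)
  have eE : |EE S2 r (V12 r a) * ip φ (vv r)| ≤ δ * (√δ * √Jt) := by
    rw [abs_mul]
    have e1 : ip φ (vv r) = ∫ x, (φ x - ∫ z, φ z ∂pm) * vv r x ∂pm := by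
      have e2 : ∫ x, (φ x - ∫ z, φ z ∂pm) * vv r x ∂pm =
          (∫ x, φ x * vv r x ∂pm) - ∫ x, (∫ z, φ z ∂pm) * vv r x ∂pm := by
        rw [← integral_sub ((hφp.mul (pb_vv r)).int h) (((pb_vv r).int h).const_mul _)]
        refine integral_congr_ae (Filter.Eventually.of_forall fun x => ?_)
        dsimp only
        ring
      rw [e2, integral_const_mul, vv_int h hp h0, mul_zero, sub_zero]
      rfl
    have e3 : |ip φ (vv r)| ≤ √δ * √Jt := by
      rw [e1]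
      refine (cs h (hφp.sub (PB.const _)) (pb_vv r)).trans ?_
      refine mul_le_mul ?_ (nrm_vv h) (nrm_nonneg _) (Real.sqrt_nonneg _)
      have h2 := nrm_sub_c h hp hφp hφ.norm
      rw [← Real.sqrt_sq (nrm_nonneg (fun x => φ x - ∫ z, φ z ∂pm)), h2]
      exact Real.sqrt_le_sqrt hc
    exact mul_le_mul hE e3 (abs_nonneg _) hδ
  have eF : BB (V12 r a) φ (vv r) = Dj 0 (vv r) φ + Dj 1 (vv r) φ +
      ∫ x, V12 r a x * φ x * vv r x ∂pm := by
    unfold BB DD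
    rw [Fin.sum_univ_three]
    have s0 := (hf.1 0 φ (vv r) φ hφb hbv hφb 0).1
    have s1 := (hf.1 1 φ (vv r) φ hφb hbv hφb 0).1
    have s2 := (hf.1 2 φ (vv r) φ hφb hbv hφb 0).1
    have z2 : Dj 2 (vv r) φ = 0 := Dj_zero hp 2 (fun x y => by simp [vv])
    rw [s0, s1, s2, z2]
    ring
  have key : (∫ x, hh 2 (x 0) * φ x ∂pm) + ∫ x, V12 r a x * φ x * vv r x ∂pm =
      ((∫ x, hh 2 (x 0) * φ x ∂pm) - ∫ x, zt r (x 1) * hh 2 (x 0) * φ x ∂pm)
      - (Dj 0 (vv r) φ - ∫ x, zt r (x 1) * hh 2 (x 0) * φ x ∂pm) - Dj 1 (vv r) φ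
      + (BB (V12 r a) φ (vv r) - EE S2 r (V12 r a) * ip φ (vv r))
      + EE S2 r (V12 r a) * ip φ (vv r) := by
    rw [eF]
    ring
  rw [key]
  have hs := Real.sqrt_nonneg δ
  have hj := Real.sqrt_nonneg Jt
  have hkt := Real.sqrt_nonneg Kt
  have hkk := Real.sqrt_nonneg (C1 + C1 * Jt + 2 * Jt)
  have b1 : √Kt * e + C1 * e * √δ + C1 * e * √Jt * √δ + √(C1 + C1 * Jt + 2 * Jt) * e +
      δ * (√δ * √Jt) ≤ K * (e * (1 + √δ) + δ * √δ) := by
    have x1 : 0 ≤ e * √δ := by positivity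
    have x2 : 0 ≤ δ * √δ := by positivity
    have x3 : 0 ≤ C1 * √Jt := by positivity
    rw [hK]
    have : (√Kt + C1 + C1 * √Jt + √(C1 + C1 * Jt + 2 * Jt) + √Jt) *
        (e * (1 + √δ) + δ * √δ) - (√Kt * e + C1 * e * √δ + C1 * e * √Jt * √δ +
        √(C1 + C1 * Jt + 2 * Jt) * e + δ * (√δ * √Jt)) =
        √Kt * (e * √δ) + √Kt * (δ * √δ) + C1 * e + C1 * (δ * √δ) + C1 * √Jt * e +
        C1 * √Jt * (δ * √δ) + √(C1 + C1 * Jt + 2 * Jt) * (e * √δ) +
        √(C1 + C1 * Jt + 2 * Jt) * (δ * √δ) + √Jt * e + √Jt * (e * √δ) := by ring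
    have p : 0 ≤ √Kt * (e * √δ) + √Kt * (δ * √δ) + C1 * e + C1 * (δ * √δ) + C1 * √Jt * e +
        C1 * √Jt * (δ * √δ) + √(C1 + C1 * Jt + 2 * Jt) * (e * √δ) +
        √(C1 + C1 * Jt + 2 * Jt) * (δ * √δ) + √Jt * e + √Jt * (e * √δ) := by positivity
    linarith
  refine le_trans ?_ b1
  rw [abs_le] at eA eB eC eD eE ⊢
  constructor <;> linarith [eA.1, eA.2, eB.1, eB.2, eC.1, eC.2, eD.1, eD.2, eE.1, eE.2]

/-! ## the potential term -/

theorem nrm_smul (l : ℝ) (hl : 0 ≤ l) (f : X3 → ℝ) : nrm (fun x => l * f x) = l * nrm f := by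
  unfold nrm
  have e : ∫ x, (l * f x) ^ 2 ∂pm = l ^ 2 * ∫ x, f x ^ 2 ∂pm := by
    rw [← integral_const_mul]
    exact integral_congr_ae (Filter.Eventually.of_forall fun x => by dsimp only; ring)
  rw [e, Real.sqrt_mul (sq_nonneg l), Real.sqrt_sq hl]

theorem pot_term (h : S_hm) (hp : S_prod) (hs : S_sym) (hav : S_avg) {r a δ Cb : ℝ}
    {φ : X3 → ℝ} (hr : 1 ≤ r) (hra : 8 * r ≤ a) (hCb : 0 ≤ Cb)
    (hV : ∀ x, |V12 r a x| ≤ 1) (hVm : Measurable (V12 r a))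
    (hVd : ∀ x : X3, ‖x 0‖ ≤ r → ‖x 1‖ ≤ r →
      |V12 r a x - dd (x 0) (x 1) / a ^ 3| ≤ Cb * r ^ 3 / a ^ 4)
    (hφ : PB φ) (hn : ip φ φ = 1) (hc : 1 - (∫ x, φ x ∂pm) ^ 2 ≤ δ) :
    |(∫ x, V12 r a x * φ x * vv r x ∂pm)
      - 1 / a ^ 3 * ∫ x, dd (x 0) (x 1) * vv r x * oo φ x ∂pm| ≤
      Cb * r ^ 3 / a ^ 4 * √Jt * √δ := by
  have : IsProbabilityMeasure hm := h.1
  have ha : 0 < a := by linarith
  set c := ∫ x, φ x ∂pm with hcdef
  have pV : PB (V12 r a) := PB.bdd hVm hV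
  have pv' := pb_vv r
  have pG : PB (fun x : X3 => V12 r a x - 1 / a ^ 3 * dd (x 0) (x 1)) :=
    pV.sub (PB.smul _ pb_dd)
  -- vanishing terms
  have z1 : ∫ x, V12 r a x * vv r x ∂pm = 0 := by
    have h1 := (hp.2.2.1 1 (fun x => V12 r a x * vv r x) ((pV.mul pv').int h)).2.2
    rw [← h1]
    have h2 : ∀ x : X3, Pj 1 (fun x => V12 r a x * vv r x) x = 0 := by
      intro x
      have h3 := (hav r a (2 * a) hr hra le_rfl).1 (fun t => max 0 (min 1 (2 - 2 * t / r))) x 1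
        (by fun_prop) (Or.inr rfl)
      unfold Pj
      have e1 : ∀ y : E3, V12 r a (Function.update x 1 y) * vv r (Function.update x 1 y) =
          (th 2 (x 0) * zt r (x 0)) * (max 0 (min 1 (2 - 2 * ‖y‖ / r)) *
            V12 r a (Function.update x 1 y)) := by
        intro y
        simp only [vv, upd1_0, Function.update_self, zt]
        ring
      simp only [e1]
      rw [integral_const_mul, h3, mul_zero]
    simp [h2]
  have pdv : PB (fun x : X3 => dd (x 0) (x 1) * vv r x) := pb_dd.mul pv'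
  have z2 : ∫ x, dd (x 0) (x 1) * vv r x ∂pm = 0 := odd_int hs 0 pdv.1 (ddv_R0 r)
  have z3 : ∫ x, dd (x 0) (x 1) * vv r x * oo φ x ∂pm =
      ∫ x, dd (x 0) (x 1) * vv r x * φ x ∂pm :=
    oo_int h hs hφ pdv (ddv_R0 r) (ddv_R1 r)
  have key : (∫ x, V12 r a x * φ x * vv r x ∂pm)
      - 1 / a ^ 3 * ∫ x, dd (x 0) (x 1) * vv r x * oo φ x ∂pm =
      ∫ x, ((V12 r a x - 1 / a ^ 3 * dd (x 0) (x 1)) * vv r x) * (φ x - c) ∂pm := by
    rw [z3]
    have i1 := ((pV.mul hφ).mul pv').int h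
    have i2 := (pdv.mul hφ).int h
    have i3 := (pV.mul pv').int h
    have i4 := pdv.int h
    have e0 : ∫ x, ((V12 r a x - 1 / a ^ 3 * dd (x 0) (x 1)) * vv r x) * (φ x - c) ∂pm =
        ∫ x, ((V12 r a x * φ x * vv r x + (-(1 / a ^ 3)) * (dd (x 0) (x 1) * vv r x * φ x)) +
          ((-c) * (V12 r a x * vv r x) + (c * (1 / a ^ 3)) * (dd (x 0) (x 1) * vv r x))) ∂pm :=
      integral_congr_ae (Filter.Eventually.of_forall fun x => by dsimp only; ring)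
    have e1 : ∫ x, ((V12 r a x * φ x * vv r x + (-(1 / a ^ 3)) * (dd (x 0) (x 1) * vv r x * φ x)) +
          ((-c) * (V12 r a x * vv r x) + (c * (1 / a ^ 3)) * (dd (x 0) (x 1) * vv r x))) ∂pm =
        (∫ x, (V12 r a x * φ x * vv r x + (-(1 / a ^ 3)) * (dd (x 0) (x 1) * vv r x * φ x)) ∂pm) +
        ∫ x, ((-c) * (V12 r a x * vv r x) + (c * (1 / a ^ 3)) * (dd (x 0) (x 1) * vv r x)) ∂pm :=
      integral_add (i1.add (i2.const_mul _)) ((i3.const_mul _).add (i4.const_mul _))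
    have e2 : ∫ x, (V12 r a x * φ x * vv r x + (-(1 / a ^ 3)) * (dd (x 0) (x 1) * vv r x * φ x)) ∂pm
        = (∫ x, V12 r a x * φ x * vv r x ∂pm) +
          ∫ x, (-(1 / a ^ 3)) * (dd (x 0) (x 1) * vv r x * φ x) ∂pm :=
      integral_add i1 (i2.const_mul _)
    have e3 : ∫ x, ((-c) * (V12 r a x * vv r x) + (c * (1 / a ^ 3)) * (dd (x 0) (x 1) * vv r x)) ∂pm
        = (∫ x, (-c) * (V12 r a x * vv r x) ∂pm) +
          ∫ x, (c * (1 / a ^ 3)) * (dd (x 0) (x 1) * vv r x) ∂pm :=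
      integral_add (i3.const_mul _) (i4.const_mul _)
    rw [e0, e1, e2, e3, integral_const_mul, integral_const_mul, integral_const_mul, z1, z2]
    ring
  rw [key]
  refine (cs h (pG.mul pv') (hφ.sub (PB.const c))).trans ?_
  set l := Cb * r ^ 3 / a ^ 4 with hl
  have hl0 : 0 ≤ l := by positivity
  have n1 : nrm (fun x => (V12 r a x - 1 / a ^ 3 * dd (x 0) (x 1)) * vv r x) ≤ l * √Jt := by
    have h1 : nrm (fun x => (V12 r a x - 1 / a ^ 3 * dd (x 0) (x 1)) * vv r x) ≤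
        nrm (fun x => l * vv r x) := by
      refine nrm_mono h (pG.mul pv') (PB.smul _ pv') fun x => ?_
      rw [abs_mul, abs_mul, abs_of_nonneg hl0]
      by_cases hv0 : vv r x = 0
      · rw [hv0]
        simp
      · have g1 : zt r (x 1) ≠ 0 := fun h0 => hv0 (by simp [vv, h0])
        have g0 : zt r (x 0) ≠ 0 := fun h0 => hv0 (by simp [vv, h0])
        have h2 := hVd x (zt_ne_zero (by linarith) g0) (zt_ne_zero (by linarith) g1)
        refine mul_le_mul_of_nonneg_right ?_ (abs_nonneg _)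
        refine le_trans (le_of_eq ?_) h2
        congr 1
        ring
    refine h1.trans ?_
    rw [nrm_smul l hl0]
    exact mul_le_mul_of_nonneg_left (nrm_vv h) hl0
  have n2 : nrm (fun x => φ x - c) ≤ √δ := by
    have h2 := nrm_sub_c h hp hφ hn
    rw [← Real.sqrt_sq (nrm_nonneg (fun x => φ x - c)), h2]
    exact Real.sqrt_le_sqrt hc
  exact mul_le_mul n1 n2 (nrm_nonneg _) (by positivity)

/-! ## the quadratic term -/

theorem hh_R (j : Fin 3) (x : X3) : hh 2 (R j x 0) = hh 2 (x 0) := by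
  unfold R
  fin_cases j <;> simp [hh2_neg]

theorem quad_term (h : S_hm) (hp : S_prod) (hs : S_sym) : ∃ K : ℝ, 0 ≤ K ∧
    ∀ (r : ℝ) (φ : X3 → ℝ) (N : ℝ), 1 ≤ r → PB φ → Box S2 r φ → (∫ x, φ x ∂pm) ^ 2 ≤ 1 →
      ∫ x, (φ x - oo φ x - ∫ z, φ z ∂pm) ^ 2 ∂pm ≤ N →
      |(∫ x, hh 2 (x 0) * (φ x - ∫ z, φ z ∂pm) ^ 2 ∂pm) - ∫ x, hh 2 (x 0) * oo φ x ^ 2 ∂pm| ≤
        r ^ 2 * N + K * Real.exp (-r / 4) := by
  obtain ⟨K, hK, ht⟩ := tail_int h hp pb_hh0
  refine ⟨K, hK, fun r φ N hr hφ hbox hc hN => ?_⟩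
  set c := ∫ z, φ z ∂pm with hcdef
  have po := pb_oo hs hφ
  have pρ : PB (fun x => φ x - oo φ x - c) := (hφ.sub po).sub (PB.const c)
  have pg : PB (fun x => hh 2 (x 0) * oo φ x) := pb_hh0.mul po
  have g0 : ∀ x, hh 2 (R 0 x 0) * oo φ (R 0 x) = - (hh 2 (x 0) * oo φ x) := fun x => by
    rw [hh_R, oo_R0]
    ring
  have g1 : ∀ x, hh 2 (R 1 x 0) * oo φ (R 1 x) = - (hh 2 (x 0) * oo φ x) := fun x => by
    rw [hh_R, oo_R1]
    ring
  have z1 : ∫ x, hh 2 (x 0) * oo φ x ∂pm = 0 := odd_int hs 0 pg.1 g0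
  have z2 : ∫ x, hh 2 (x 0) * oo φ x * oo φ x ∂pm = ∫ x, hh 2 (x 0) * oo φ x * φ x ∂pm :=
    oo_int h hs hφ pg g0 g1
  have key : (∫ x, hh 2 (x 0) * (φ x - c) ^ 2 ∂pm) - ∫ x, hh 2 (x 0) * oo φ x ^ 2 ∂pm =
      ∫ x, hh 2 (x 0) * (φ x - oo φ x - c) ^ 2 ∂pm := by
    have i1 := (pb_hh0.mul (po.pow 2)).int h
    have i2 := (pg.mul hφ).int h
    have i3 := (pg.mul po).int h
    have i4 := pg.int h
    have i5 := (pb_hh0.mul (pρ.pow 2)).int h
    have e0 : ∫ x, hh 2 (x 0) * (φ x - c) ^ 2 ∂pm =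
        ∫ x, ((hh 2 (x 0) * oo φ x ^ 2 + hh 2 (x 0) * (φ x - oo φ x - c) ^ 2) +
          ((2 * (hh 2 (x 0) * oo φ x * φ x) + (-2) * (hh 2 (x 0) * oo φ x * oo φ x)) +
            (-2 * c) * (hh 2 (x 0) * oo φ x))) ∂pm :=
      integral_congr_ae (Filter.Eventually.of_forall fun x => by dsimp only; ring)
    have e1 : ∫ x, ((hh 2 (x 0) * oo φ x ^ 2 + hh 2 (x 0) * (φ x - oo φ x - c) ^ 2) +
          ((2 * (hh 2 (x 0) * oo φ x * φ x) + (-2) * (hh 2 (x 0) * oo φ x * oo φ x)) +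
            (-2 * c) * (hh 2 (x 0) * oo φ x))) ∂pm =
        (∫ x, (hh 2 (x 0) * oo φ x ^ 2 + hh 2 (x 0) * (φ x - oo φ x - c) ^ 2) ∂pm) +
        ∫ x, ((2 * (hh 2 (x 0) * oo φ x * φ x) + (-2) * (hh 2 (x 0) * oo φ x * oo φ x)) +
            (-2 * c) * (hh 2 (x 0) * oo φ x)) ∂pm :=
      integral_add (i1.add i5) (((i2.const_mul _).add (i3.const_mul _)).add (i4.const_mul _))
    have e2 : ∫ x, (hh 2 (x 0) * oo φ x ^ 2 + hh 2 (x 0) * (φ x - oo φ x - c) ^ 2) ∂pm =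
        (∫ x, hh 2 (x 0) * oo φ x ^ 2 ∂pm) + ∫ x, hh 2 (x 0) * (φ x - oo φ x - c) ^ 2 ∂pm :=
      integral_add i1 i5
    have e3 : ∫ x, ((2 * (hh 2 (x 0) * oo φ x * φ x) + (-2) * (hh 2 (x 0) * oo φ x * oo φ x)) +
            (-2 * c) * (hh 2 (x 0) * oo φ x)) ∂pm =
        (∫ x, (2 * (hh 2 (x 0) * oo φ x * φ x) + (-2) * (hh 2 (x 0) * oo φ x * oo φ x)) ∂pm) +
          ∫ x, (-2 * c) * (hh 2 (x 0) * oo φ x) ∂pm :=
      integral_add ((i2.const_mul _).add (i3.const_mul _)) (i4.const_mul _)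
    have e4 : ∫ x, (2 * (hh 2 (x 0) * oo φ x * φ x) + (-2) * (hh 2 (x 0) * oo φ x * oo φ x)) ∂pm =
        (∫ x, 2 * (hh 2 (x 0) * oo φ x * φ x) ∂pm) +
          ∫ x, (-2) * (hh 2 (x 0) * oo φ x * oo φ x) ∂pm :=
      integral_add (i2.const_mul _) (i3.const_mul _)
    rw [e0, e1, e2, e3, e4, integral_const_mul, integral_const_mul, integral_const_mul, z1, z2]
    ring
  rw [key]
  have pT : PB (fun x => |hh 2 (x 0)| * TT r x) := by
    obtain ⟨m, A, k, hA, hh'⟩ := pb_hh0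
    refine PB.mul ⟨measurable_abs.comp m, A, k, hA, fun x => ?_⟩ (pb_TT r)
    change |(|hh 2 (x 0)|)| ≤ _
    rw [abs_abs]
    exact hh' x
  have hpt : ∀ x, |hh 2 (x 0) * (φ x - oo φ x - c) ^ 2| ≤
      r ^ 2 * (φ x - oo φ x - c) ^ 2 + |hh 2 (x 0)| * TT r x := by
    intro x
    rw [abs_mul, abs_of_nonneg (sq_nonneg (φ x - oo φ x - c))]
    have hT := TT_nonneg r x
    by_cases hx : ‖x 0‖ ≤ r
    · have h1 : |hh 2 (x 0)| ≤ r ^ 2 :=
        (hh2_abs _).trans (pow_le_pow_left₀ (norm_nonneg _) hx 2)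
      have h2 := mul_le_mul_of_nonneg_right h1 (sq_nonneg (φ x - oo φ x - c))
      have h3 : 0 ≤ |hh 2 (x 0)| * TT r x := mul_nonneg (abs_nonneg _) hT
      linarith
    · have f0 : ∀ y : X3, ‖y 0‖ = ‖x 0‖ → φ y = 0 := by
        intro y hy
        by_contra hne
        have := hbox.supp y hne 0 (by decide)
        rw [hy] at this
        exact hx this
      have n0 : φ x = 0 := f0 x rfl
      have n1 : φ (R 0 x) = 0 := f0 _ (by simp [R])
      have n2 : φ (R 1 x) = 0 := f0 _ (by simp [R])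
      have n3 : φ (R 1 (R 0 x)) = 0 := f0 _ (by simp [R])
      have n4 : oo φ x = 0 := by
        rw [oo_eq, n0, n1, n2, n3]
        norm_num
      have hTT : 1 ≤ TT r x := by
        unfold TT
        rw [if_pos (by linarith [not_le.mp hx])]
        split_ifs <;> norm_num
      rw [n0, n4]
      have h2 : (0 - 0 - c) ^ 2 = c ^ 2 := by ring
      rw [h2]
      have h3 : |hh 2 (x 0)| * c ^ 2 ≤ |hh 2 (x 0)| * 1 :=
        mul_le_mul_of_nonneg_left hc (abs_nonneg _)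
      have h4 : |hh 2 (x 0)| * 1 ≤ |hh 2 (x 0)| * TT r x :=
        mul_le_mul_of_nonneg_left hTT (abs_nonneg _)
      have h5 : 0 ≤ r ^ 2 * c ^ 2 := by positivity
      linarith
  calc |∫ x, hh 2 (x 0) * (φ x - oo φ x - c) ^ 2 ∂pm|
      ≤ ∫ x, |hh 2 (x 0) * (φ x - oo φ x - c) ^ 2| ∂pm := abs_integral_le_integral_abs
    _ ≤ ∫ x, (r ^ 2 * (φ x - oo φ x - c) ^ 2 + |hh 2 (x 0)| * TT r x) ∂pm :=
        integral_mono_of_nonneg (Filter.Eventually.of_forall fun x => abs_nonneg _)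
          ((((pρ.pow 2).int h).const_mul _).add (pT.int h)) (Filter.Eventually.of_forall hpt)
    _ = (∫ x, r ^ 2 * (φ x - oo φ x - c) ^ 2 ∂pm) + ∫ x, |hh 2 (x 0)| * TT r x ∂pm :=
        integral_add (((pρ.pow 2).int h).const_mul _) (pT.int h)
    _ ≤ r ^ 2 * N + K * Real.exp (-r / 4) := by
        rw [integral_const_mul]
        refine add_le_add (mul_le_mul_of_nonneg_left hN (sq_nonneg r)) ?_
        refine (le_abs_self _).trans (ht r hr _ fun x => ?_)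
        rw [abs_of_nonneg (mul_nonneg (abs_nonneg _) (TT_nonneg r x))]

/-! ## numbers -/

/-- the size of the error terms -/
def T (r a : ℝ) : ℝ := r ^ 10 * (1 / a ^ 7 + Real.exp (-r / 16))

section numbers

variable {r a : ℝ} (hr : 1 ≤ r) (ha : r ^ 4 ≤ a)

include hr ha in
theorem a_ge : 1 ≤ a := (one_le_pow₀ hr).trans ha

include hr ha in
theorem T_pow (k m : ℕ) (hk : k ≤ 10) (hm : 7 ≤ m) : r ^ k / a ^ m ≤ T r a := by
  have h1 := a_ge hr ha
  have h2 : r ^ k ≤ r ^ 10 := pow_le_pow_right₀ hr hk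
  have h3 : 1 / a ^ m ≤ 1 / a ^ 7 :=
    one_div_le_one_div_of_le (by positivity) (pow_le_pow_right₀ h1 hm)
  have h4 := Real.exp_pos (-r / 16)
  unfold T
  calc r ^ k / a ^ m = r ^ k * (1 / a ^ m) := by ring
    _ ≤ r ^ 10 * (1 / a ^ 7) := mul_le_mul h2 h3 (by positivity) (by positivity)
    _ ≤ _ := mul_le_mul_of_nonneg_left (by linarith) (by positivity)

include hr ha in
theorem T_exp (k : ℕ) (hk : k ≤ 10) (s : ℝ) (hs : s ≤ -r / 16) : r ^ k * Real.exp s ≤ T r a := by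
  have h1 := a_ge hr ha
  have h2 : r ^ k ≤ r ^ 10 := pow_le_pow_right₀ hr hk
  have h3 : Real.exp s ≤ Real.exp (-r / 16) := Real.exp_le_exp.mpr hs
  have h4 : 0 < 1 / a ^ 7 := by positivity
  unfold T
  calc r ^ k * Real.exp s ≤ r ^ 10 * Real.exp (-r / 16) :=
        mul_le_mul h2 h3 (Real.exp_pos _).le (by positivity)
    _ ≤ _ := mul_le_mul_of_nonneg_left (by linarith) (by positivity)

include hr ha in
theorem T_nonneg : 0 ≤ T r a := by
  have h1 := a_ge hr ha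
  unfold T
  positivity

/-- the error bound for `δ √δ` and `√δ` -/
theorem sqrt_del {Ca M e : ℝ} (hCa : 1 ≤ Ca) (hM : 0 ≤ M) (he : 0 ≤ e) :
    √(Ca * (M ^ 2 + e ^ 2)) ≤ Ca * (M + e) := by
  refine Real.sqrt_le_iff.mpr ⟨by positivity, ?_⟩
  have h1 : Ca * (M ^ 2 + e ^ 2) ≤ Ca ^ 2 * (M ^ 2 + e ^ 2) := by
    refine mul_le_mul_of_nonneg_right ?_ (by positivity)
    nlinarith
  have h2 : Ca ^ 2 * (M ^ 2 + e ^ 2) ≤ Ca ^ 2 * (M + e) ^ 2 := by
    refine mul_le_mul_of_nonneg_left ?_ (by positivity)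
    nlinarith [mul_nonneg hM he]
  calc _ ≤ _ := h1.trans h2
    _ = _ := by ring

end numbers

theorem alg {c α u Iq IV Id Q2 Qo P1 P2 S1 S2 S3 D Y e1 e2 e3 e4 X : ℝ}
    (hα : 0 ≤ α) (hu : u = |c| * α) (hc : |c| ≤ 1)
    (hX : X = 2 * c * Iq + Q2) (h1 : |Iq + IV| ≤ e1) (h2 : |IV - α * Id| ≤ e2)
    (h3 : |Q2 - Qo| ≤ e3) (hId : Id = P1 - c * α * P2)
    (hQo : Qo = S1 - 2 * (c * α) * S2 + (c * α) ^ 2 * S3)
    (h4 : |2 * P2 + S3 - 13840| ≤ e4) (h5 : |P1 + S2| ≤ 1426.75 * D)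
    (h6 : -(Y ^ 2 / 2) ≤ S1) :
    u ^ 2 * (13840 - e4) - 2853.5 * (u * D) - Y ^ 2 / 2 - 2 * e1 - 2 * e2 - e3 ≤ X := by
  have a1 : -(2 * e1) ≤ 2 * c * (Iq + IV) := by
    have : |2 * c * (Iq + IV)| ≤ 2 * e1 := by
      rw [abs_mul, abs_mul, abs_of_pos (zero_lt_two (α := ℝ))]
      have he : 0 ≤ e1 := (abs_nonneg _).trans h1
      calc 2 * |c| * |Iq + IV| ≤ 2 * 1 * e1 := by gcongr
        _ = 2 * e1 := by ring
    exact (abs_le.mp this).1
  have a2 : -(2 * e2) ≤ -(2 * c * (IV - α * Id)) := by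
    have : |2 * c * (IV - α * Id)| ≤ 2 * e2 := by
      rw [abs_mul, abs_mul, abs_of_pos (zero_lt_two (α := ℝ))]
      have he : 0 ≤ e2 := (abs_nonneg _).trans h2
      calc 2 * |c| * |IV - α * Id| ≤ 2 * 1 * e2 := by gcongr
        _ = 2 * e2 := by ring
    have := (abs_le.mp this).2
    linarith
  have a3 := (abs_le.mp h3).1
  have a4 : u ^ 2 * (13840 - e4) ≤ (c * α) ^ 2 * (2 * P2 + S3) := by
    have e : u ^ 2 = (c * α) ^ 2 := by
      rw [hu, mul_pow, sq_abs, mul_pow]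
    rw [e]
    refine mul_le_mul_of_nonneg_left ?_ (sq_nonneg _)
    linarith [(abs_le.mp h4).1]
  have a5 : -(2853.5 * (u * D)) ≤ -(2 * (c * α) * (P1 + S2)) := by
    have : |2 * (c * α) * (P1 + S2)| ≤ 2853.5 * (u * D) := by
      rw [abs_mul, abs_mul, abs_mul, abs_of_pos (zero_lt_two (α := ℝ)), abs_of_nonneg hα, ← hu]
      have hu0 : 0 ≤ u := by
        rw [hu]
        positivity
      calc 2 * u * |P1 + S2| ≤ 2 * u * (1426.75 * D) := by gcongr
        _ = 2853.5 * (u * D) := by ring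
    have := (abs_le.mp this).2
    linarith
  have key : X = 2 * c * (Iq + IV) - 2 * c * (IV - α * Id) + (Q2 - Qo) +
      (c * α) ^ 2 * (2 * P2 + S3) - 2 * (c * α) * (P1 + S2) + S1 := by
    rw [hX, hId, hQo]
    ring
  rw [key]
  linarith

theorem alg2 {u D Y E e4 : ℝ} (hu : 0 ≤ u) (hu1 : u ≤ 1) (hE : 0 ≤ E) (hY0 : 0 ≤ Y)
    (he4 : 0 ≤ e4) (hD : D ≤ 3.4427 * u + E) (hY : Y ≤ 23.55 * u + E) :
    3738 * u ^ 2 - e4 - 2878 * (u * E) - E ^ 2 ≤
      u ^ 2 * (13840 - e4) - 2853.5 * (u * D) - Y ^ 2 / 2 := by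
  have h1 : u * D ≤ u * (3.4427 * u + E) := mul_le_mul_of_nonneg_left hD hu
  have h2 : Y ^ 2 ≤ (23.55 * u + E) ^ 2 := pow_le_pow_left₀ hY0 hY 2
  have h3 : u ^ 2 * e4 ≤ e4 := by
    have : u ^ 2 ≤ 1 := pow_le_one₀ hu hu1
    nlinarith
  have h4 : 0 ≤ u * E := mul_nonneg hu hE
  have h5 : 0 ≤ u ^ 2 := sq_nonneg u
  have h6 : 0 ≤ E ^ 2 := sq_nonneg E
  nlinarith

section numbers2

variable {r a Ca Cb M e δ : ℝ} (hr : 1 ≤ r) (ha : r ^ 4 ≤ a) (hCa : 1 ≤ Ca) (hCb : 1 ≤ Cb)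
  (hM : M = Cb * r ^ 2 / a ^ 3) (hM1 : M ≤ 1) (he : e = Real.exp (-r / 8))
  (hδ : δ = Ca * (M ^ 2 + e ^ 2))

include hr ha he in
theorem e_le : 0 < e ∧ e ≤ 1 ∧ e ≤ T r a ∧ e ^ 2 ≤ T r a := by
  have h1 : 0 < e := by
    rw [he]
    exact Real.exp_pos _
  have h2 : e ≤ 1 := by
    rw [he, Real.exp_le_one_iff]
    linarith
  have h3 : e ≤ T r a := by
    have := T_exp hr ha 0 (by norm_num) (-r / 8) (by linarith)
    rwa [pow_zero, one_mul, ← he] at this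
  exact ⟨h1, h2, h3, le_trans (by nlinarith) h3⟩

include hr ha hCb hM in
theorem M_nonneg : 0 ≤ M := by
  have := a_ge hr ha
  rw [hM]
  positivity

include hr ha hCa hCb hM hM1 he hδ in
theorem del_a : δ * √δ ≤ Ca ^ 2 * (Cb ^ 3 + 3) * T r a := by
  obtain ⟨e0, e1, e2, e3⟩ := e_le hr ha he
  have hMn := M_nonneg hr ha hCb hM
  have ha1 := a_ge hr ha
  have ht := T_nonneg hr ha
  have h1 := T_pow hr ha 6 9 (by norm_num) (by norm_num)
  have BM3 : M ^ 3 ≤ Cb ^ 3 * T r a := by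
    calc M ^ 3 = Cb ^ 3 * (r ^ 6 / a ^ 9) := by
          rw [hM]
          field_simp
      _ ≤ Cb ^ 3 * T r a := mul_le_mul_of_nonneg_left h1 (by positivity)
  have hsδ : √δ ≤ Ca * (M + e) := by
    rw [hδ]
    exact sqrt_del hCa hMn e0.le
  have hδ0 : 0 ≤ δ := by
    rw [hδ]
    positivity
  have x1 : M ^ 2 * e ≤ T r a := by
    have h2 : M ^ 2 ≤ 1 := pow_le_one₀ hMn hM1
    calc M ^ 2 * e ≤ 1 * T r a := mul_le_mul h2 e2 e0.le zero_le_one
      _ = _ := one_mul _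
  have x2 : e ^ 2 * M ≤ T r a := by
    calc e ^ 2 * M ≤ T r a * 1 := mul_le_mul e3 hM1 hMn ht
      _ = _ := mul_one _
  have x3 : e ^ 3 ≤ T r a := by
    calc e ^ 3 = e ^ 2 * e := by ring
      _ ≤ T r a * 1 := mul_le_mul e3 e1 e0.le ht
      _ = _ := mul_one _
  calc δ * √δ ≤ (Ca * (M ^ 2 + e ^ 2)) * (Ca * (M + e)) := by
        rw [← hδ]
        exact mul_le_mul_of_nonneg_left hsδ hδ0
    _ = Ca ^ 2 * (M ^ 3 + M ^ 2 * e + e ^ 2 * M + e ^ 3) := by ring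
    _ ≤ Ca ^ 2 * (Cb ^ 3 * T r a + T r a + T r a + T r a) := by gcongr
    _ = _ := by ring

include hr ha hCa hCb hM hM1 he hδ in
theorem del_b : √δ ≤ 2 * Ca := by
  obtain ⟨e0, e1, e2, e3⟩ := e_le hr ha he
  have hMn := M_nonneg hr ha hCb hM
  have hsδ : √δ ≤ Ca * (M + e) := by
    rw [hδ]
    exact sqrt_del hCa hMn e0.le
  refine hsδ.trans ?_
  calc Ca * (M + e) ≤ Ca * (1 + 1) := by gcongr
    _ = _ := by ring

include hr ha hCa hCb hM he hδ in
theorem del_c : r ^ 3 / a ^ 4 * √δ ≤ Ca * (Cb + 1) * T r a := by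
  obtain ⟨e0, e1, e2, e3⟩ := e_le hr ha he
  have hMn := M_nonneg hr ha hCb hM
  have ha1 := a_ge hr ha
  have hsδ : √δ ≤ Ca * (M + e) := by
    rw [hδ]
    exact sqrt_del hCa hMn e0.le
  have y1 := T_pow hr ha 5 7 (by norm_num) (by norm_num)
  have y2 : r ^ 3 / a ^ 4 ≤ 1 := by
    rw [div_le_one (by positivity)]
    calc r ^ 3 ≤ r ^ 4 := pow_le_pow_right₀ hr (by norm_num)
      _ ≤ a := ha
      _ = a ^ 1 := (pow_one a).symm
      _ ≤ a ^ 4 := pow_le_pow_right₀ ha1 (by norm_num)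
  calc r ^ 3 / a ^ 4 * √δ ≤ r ^ 3 / a ^ 4 * (Ca * (M + e)) :=
        mul_le_mul_of_nonneg_left hsδ (by positivity)
    _ = Ca * (Cb * (r ^ 5 / a ^ 7) + r ^ 3 / a ^ 4 * e) := by
        rw [hM]
        field_simp
    _ ≤ Ca * (Cb * T r a + 1 * T r a) := by gcongr
    _ = _ := by ring

include hr ha hCa hM he hδ in
theorem del_d : δ * (1 / a ^ 6) ≤ Ca * (Cb ^ 2 + 1) * T r a := by
  obtain ⟨e0, e1, e2, e3⟩ := e_le hr ha he
  have ha1 := a_ge hr ha
  have ht := T_nonneg hr ha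
  have y1 := T_pow hr ha 4 12 (by norm_num) (by norm_num)
  have y2 : 1 / a ^ 6 ≤ 1 := by
    rw [div_le_one (by positivity)]
    exact one_le_pow₀ ha1
  calc δ * (1 / a ^ 6) = Ca * (Cb ^ 2 * (r ^ 4 / a ^ 12) + e ^ 2 * (1 / a ^ 6)) := by
        rw [hδ, hM]
        field_simp
    _ ≤ Ca * (Cb ^ 2 * T r a + T r a * 1) := by gcongr
    _ = _ := by ring

include hr ha in
theorem num_e3 {Cp K3 : ℝ} (hCp : 0 ≤ Cp) (hK3 : 0 ≤ K3) :
    r ^ 2 * (Cp * (r ^ 6 / a ^ 8 + Real.exp (-r / 8))) + K3 * Real.exp (-r / 4) ≤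
      (2 * Cp + K3) * T r a := by
  have ha1 := a_ge hr ha
  have y1 := T_pow hr ha 8 8 (by norm_num) (by norm_num)
  have y2 := T_exp hr ha 2 (by norm_num) (-r / 8) (by linarith)
  have y3 := T_exp hr ha 0 (by norm_num) (-r / 4) (by linarith)
  rw [pow_zero, one_mul] at y3
  calc r ^ 2 * (Cp * (r ^ 6 / a ^ 8 + Real.exp (-r / 8))) + K3 * Real.exp (-r / 4) =
        Cp * (r ^ 8 / a ^ 8 + r ^ 2 * Real.exp (-r / 8)) + K3 * Real.exp (-r / 4) := by
          field_simp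
    _ ≤ Cp * (T r a + T r a) + K3 * T r a := by gcongr
    _ = _ := by ring

include hr ha in
theorem num_uE {u Ce : ℝ} (hCe : 0 ≤ Ce) (hu1 : u ≤ 1 / a ^ 3) :
    u * (Ce * r ^ 4 * (1 / a ^ 4 + Real.exp (-r / 16))) ≤ Ce * T r a := by
  have ha1 := a_ge hr ha
  have he := Real.exp_pos (-r / 16)
  have ha3 : 1 / a ^ 3 ≤ 1 := by
    rw [div_le_one (by positivity)]
    exact one_le_pow₀ ha1
  have y3 : r ^ 4 * (1 / a ^ 7 + Real.exp (-r / 16)) ≤ T r a := by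
    unfold T
    exact mul_le_mul_of_nonneg_right (pow_le_pow_right₀ hr (by norm_num)) (by positivity)
  calc u * (Ce * r ^ 4 * (1 / a ^ 4 + Real.exp (-r / 16))) ≤
      (1 / a ^ 3) * (Ce * r ^ 4 * (1 / a ^ 4 + Real.exp (-r / 16))) := by gcongr
    _ = Ce * (r ^ 4 * (1 / a ^ 7 + Real.exp (-r / 16) * (1 / a ^ 3))) := by
        field_simp
    _ ≤ Ce * (r ^ 4 * (1 / a ^ 7 + Real.exp (-r / 16) * 1)) := by gcongr
    _ ≤ Ce * T r a := by
        rw [mul_one]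
        gcongr

include hr ha in
theorem num_EE {Ce : ℝ} :
    (Ce * r ^ 4 * (1 / a ^ 4 + Real.exp (-r / 16))) ^ 2 ≤ 2 * Ce ^ 2 * T r a := by
  have ha1 := a_ge hr ha
  set e16 := Real.exp (-r / 16) with he16
  have he16p : 0 < e16 := Real.exp_pos _
  have he161 : e16 ≤ 1 := by
    rw [he16, Real.exp_le_one_iff]
    linarith
  have y4 : (1 / a ^ 4 + e16) ^ 2 ≤ 2 * (1 / a ^ 8 + e16) := by
    have h1 : (1 / a ^ 4) ^ 2 = 1 / a ^ 8 := by
      field_simp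
    have h2 : e16 ^ 2 ≤ e16 := by nlinarith
    have h3 : (1 / a ^ 4 + e16) ^ 2 ≤ 2 * ((1 / a ^ 4) ^ 2 + e16 ^ 2) := by
      nlinarith [sq_nonneg (1 / a ^ 4 - e16)]
    rw [h1] at h3
    linarith
  have y5 : r ^ 8 * (1 / a ^ 8 + e16) ≤ T r a := by
    unfold T
    refine mul_le_mul (pow_le_pow_right₀ hr (by norm_num)) ?_ (by positivity) (by positivity)
    have : 1 / a ^ 8 ≤ 1 / a ^ 7 :=
      one_div_le_one_div_of_le (by positivity) (pow_le_pow_right₀ ha1 (by norm_num))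
    linarith
  calc (Ce * r ^ 4 * (1 / a ^ 4 + e16)) ^ 2 = Ce ^ 2 * r ^ 8 * (1 / a ^ 4 + e16) ^ 2 := by ring
    _ ≤ Ce ^ 2 * r ^ 8 * (2 * (1 / a ^ 8 + e16)) := by gcongr
    _ = 2 * Ce ^ 2 * (r ^ 8 * (1 / a ^ 8 + e16)) := by ring
    _ ≤ 2 * Ce ^ 2 * T r a := mul_le_mul_of_nonneg_left y5 (by positivity)

end numbers2

theorem num_e1 {K e x δ t Ca k : ℝ} (hK : 0 ≤ K) (he : 0 ≤ e) (het : e ≤ t) (hCa : 0 ≤ Ca)
    (hx0 : 0 ≤ x) (hx : x ≤ 2 * Ca) (hk : δ * x ≤ k * t) :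
    K * (e * (1 + x) + δ * x) ≤ K * ((1 + 2 * Ca) + k) * t := by
  have x1 : e * (1 + x) ≤ (1 + 2 * Ca) * t := by
    calc e * (1 + x) ≤ t * (1 + 2 * Ca) := by
          have : 0 ≤ t := he.trans het
          gcongr
      _ = _ := by ring
  calc K * (e * (1 + x) + δ * x) ≤ K * ((1 + 2 * Ca) * t + k * t) := by gcongr
    _ = _ := by ring

theorem num_fin {k5 K4 Ce k1 k2 k3 t c2 δ u2 α6 E2 uE e1 e2 e3 e4 X r10 T7 A F : ℝ}
    (ht0 : 0 ≤ t) (hα : 0 ≤ α6) (hA : A = r10 * T7) (ht : t = A)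
    (h1 : u2 = c2 * α6) (h2 : 1 - δ ≤ c2) (h3 : δ * α6 ≤ k5 * t)
    (h4 : uE ≤ Ce * t) (h5 : E2 ≤ 2 * Ce ^ 2 * t) (h6 : e1 ≤ k1 * t) (h7 : e2 ≤ k2 * t)
    (h8 : e3 ≤ k3 * t) (h9 : e4 ≤ K4 * t)
    (hF : 3738 * u2 - e4 - 2878 * uE - E2 ≤ F) (hX : F - 2 * e1 - 2 * e2 - e3 ≤ X) :
    3700 * α6 - (1 + 3738 * k5 + K4 + 2878 * Ce + 2 * Ce ^ 2 + 2 * k1 + 2 * k2 + k3) * r10 * T7 ≤
      X := by
  have h10 : (1 - δ) * α6 ≤ u2 := by
    rw [h1]
    exact mul_le_mul_of_nonneg_right h2 hα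
  have h11 : (1 + 3738 * k5 + K4 + 2878 * Ce + 2 * Ce ^ 2 + 2 * k1 + 2 * k2 + k3) * r10 * T7 =
      t + 3738 * (k5 * t) + K4 * t + 2878 * (Ce * t) + 2 * Ce ^ 2 * t + 2 * (k1 * t) +
      2 * (k2 * t) + k3 * t := by
    rw [ht, hA]
    ring
  have h12 : (1 - δ) * α6 = α6 - δ * α6 := by ring
  rw [h11]
  linarith

/-! ## the main estimate -/

theorem chir_vv (r : ℝ) (x : X3) :
    dd (x 0) (x 1) * vv r x + hh 2 (x 0) * chir r x = kap x * (zt r (x 0) * zt r (x 1)) := by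
  simp only [vv, chir, chi, kap, th]
  push_cast
  ring

/-- the algebraic part: everything is reduced to numbers -/
theorem assemble (h : S_hm) (hp : S_prod) (hs : S_sym) (h0 : S_harm0) (hnum : S_num) :
    ∃ K4 : ℝ, 0 ≤ K4 ∧ ∀ (r a e1 e2 e3 : ℝ) (φ : X3 → ℝ), 1 ≤ r → 0 < a → PB φ →
      |∫ x, φ x ∂pm| ≤ 1 →
      |(∫ x, hh 2 (x 0) * φ x ∂pm) + ∫ x, V12 r a x * φ x * vv r x ∂pm| ≤ e1 →
      |(∫ x, V12 r a x * φ x * vv r x ∂pm)
        - 1 / a ^ 3 * ∫ x, dd (x 0) (x 1) * vv r x * oo φ x ∂pm| ≤ e2 →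
      |(∫ x, hh 2 (x 0) * (φ x - ∫ z, φ z ∂pm) ^ 2 ∂pm) - ∫ x, hh 2 (x 0) * oo φ x ^ 2 ∂pm| ≤
        e3 →
      (|∫ x, φ x ∂pm| * (1 / a ^ 3)) ^ 2 * (13840 - K4 * Real.exp (-r / 4))
        - 2853.5 * ((|∫ x, φ x ∂pm| * (1 / a ^ 3)) *
          √(∫ x, (oo φ x + (∫ z, φ z ∂pm) / a ^ 3 * chir r x) ^ 2 ∂pm))
        - √(∫ x, ‖x 0‖ ^ 2 * (oo φ x + (∫ z, φ z ∂pm) / a ^ 3 * chir r x) ^ 2 ∂pm) ^ 2 / 2
        - 2 * e1 - 2 * e2 - e3 ≤ ∫ x, hh 2 (x 0) * φ x ^ 2 ∂pm := by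
  have : IsProbabilityMeasure pm := hp.1
  have pG : PB (fun x : X3 => 2 * (dd (x 0) (x 1) * th 2 (x 0) * chi x) + hh 2 (x 0) * chi x ^ 2) :=
    (PB.smul 2 ((pb_dd.mul pb_th0).mul pb_chi)).add (pb_hh0.mul (pb_chi.pow 2))
  obtain ⟨K4, hK4, ht⟩ := tail_int h hp pG
  refine ⟨K4, hK4, fun r a e1 e2 e3 φ hr ha hφ hc h1 h2 h3 => ?_⟩
  set c := ∫ x, φ x ∂pm with hcdef
  have po := pb_oo hs hφ
  have pχ := pb_chir r
  have pv' := pb_vv r
  set Δ : X3 → ℝ := fun x => oo φ x + c / a ^ 3 * chir r x with hΔ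
  have pΔ : PB Δ := po.add (PB.smul _ pχ)
  have hoo : ∀ x, oo φ x = Δ x - c * (1 / a ^ 3) * chir r x := fun x => by
    simp only [hΔ]
    ring
  have pdv : PB (fun x : X3 => dd (x 0) (x 1) * vv r x) := pb_dd.mul pv'
  -- the integrals
  have iq := (pb_hh0.mul hφ).int h
  have hX : ∫ x, hh 2 (x 0) * φ x ^ 2 ∂pm = 2 * c * (∫ x, hh 2 (x 0) * φ x ∂pm) +
      ∫ x, hh 2 (x 0) * (φ x - c) ^ 2 ∂pm := by
    have i2 := (pb_hh0.mul ((hφ.sub (PB.const c)).pow 2)).int h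
    have i3 := pb_hh0.int h
    have e0 : ∫ x, hh 2 (x 0) * φ x ^ 2 ∂pm =
        ∫ x, ((2 * c) * (hh 2 (x 0) * φ x) + (hh 2 (x 0) * (φ x - c) ^ 2 +
          (-(c ^ 2)) * hh 2 (x 0))) ∂pm :=
      integral_congr_ae (Filter.Eventually.of_forall fun x => by dsimp only; ring)
    have e1 : ∫ x, ((2 * c) * (hh 2 (x 0) * φ x) + (hh 2 (x 0) * (φ x - c) ^ 2 +
          (-(c ^ 2)) * hh 2 (x 0))) ∂pm = (∫ x, (2 * c) * (hh 2 (x 0) * φ x) ∂pm) +
        ∫ x, (hh 2 (x 0) * (φ x - c) ^ 2 + (-(c ^ 2)) * hh 2 (x 0)) ∂pm :=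
      integral_add (iq.const_mul _) (i2.add (i3.const_mul _))
    have e2 : ∫ x, (hh 2 (x 0) * (φ x - c) ^ 2 + (-(c ^ 2)) * hh 2 (x 0)) ∂pm =
        (∫ x, hh 2 (x 0) * (φ x - c) ^ 2 ∂pm) + ∫ x : X3, (-(c ^ 2)) * hh 2 (x 0) ∂pm :=
      integral_add i2 (i3.const_mul _)
    rw [e0, e1, e2, integral_const_mul, integral_const_mul, hh2_int h hp h0]
    ring
  have hId : ∫ x, dd (x 0) (x 1) * vv r x * oo φ x ∂pm =
      (∫ x, dd (x 0) (x 1) * vv r x * Δ x ∂pm) -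
        c * (1 / a ^ 3) * ∫ x, dd (x 0) (x 1) * vv r x * chir r x ∂pm := by
    rw [← integral_const_mul, ← integral_sub ((pdv.mul pΔ).int h)
      (((pdv.mul pχ).int h).const_mul _)]
    refine integral_congr_ae (Filter.Eventually.of_forall fun x => ?_)
    dsimp only
    rw [hoo]
    ring
  have hQo : ∫ x, hh 2 (x 0) * oo φ x ^ 2 ∂pm = (∫ x, hh 2 (x 0) * Δ x ^ 2 ∂pm) -
      2 * (c * (1 / a ^ 3)) * (∫ x, hh 2 (x 0) * chir r x * Δ x ∂pm) +
      (c * (1 / a ^ 3)) ^ 2 * ∫ x, hh 2 (x 0) * chir r x ^ 2 ∂pm := by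
    have i1 := (pb_hh0.mul (pΔ.pow 2)).int h
    have i2 := ((pb_hh0.mul pχ).mul pΔ).int h
    have i3 := (pb_hh0.mul (pχ.pow 2)).int h
    have e0 : ∫ x, hh 2 (x 0) * oo φ x ^ 2 ∂pm =
        ∫ x, (hh 2 (x 0) * Δ x ^ 2 + ((-(2 * (c * (1 / a ^ 3)))) * (hh 2 (x 0) * chir r x * Δ x) +
          (c * (1 / a ^ 3)) ^ 2 * (hh 2 (x 0) * chir r x ^ 2))) ∂pm :=
      integral_congr_ae (Filter.Eventually.of_forall fun x => by
        dsimp only
        rw [hoo]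
        ring)
    have e1 : ∫ x, (hh 2 (x 0) * Δ x ^ 2 +
          ((-(2 * (c * (1 / a ^ 3)))) * (hh 2 (x 0) * chir r x * Δ x) +
          (c * (1 / a ^ 3)) ^ 2 * (hh 2 (x 0) * chir r x ^ 2))) ∂pm =
        (∫ x, hh 2 (x 0) * Δ x ^ 2 ∂pm) +
        ∫ x, ((-(2 * (c * (1 / a ^ 3)))) * (hh 2 (x 0) * chir r x * Δ x) +
          (c * (1 / a ^ 3)) ^ 2 * (hh 2 (x 0) * chir r x ^ 2)) ∂pm :=
      integral_add i1 ((i2.const_mul _).add (i3.const_mul _))
    have e2 : ∫ x, ((-(2 * (c * (1 / a ^ 3)))) * (hh 2 (x 0) * chir r x * Δ x) +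
          (c * (1 / a ^ 3)) ^ 2 * (hh 2 (x 0) * chir r x ^ 2)) ∂pm =
        (∫ x, (-(2 * (c * (1 / a ^ 3)))) * (hh 2 (x 0) * chir r x * Δ x) ∂pm) +
        ∫ x, (c * (1 / a ^ 3)) ^ 2 * (hh 2 (x 0) * chir r x ^ 2) ∂pm :=
      integral_add (i2.const_mul _) (i3.const_mul _)
    rw [e0, e1, e2, integral_const_mul, integral_const_mul]
    ring
  have h4 : |2 * (∫ x, dd (x 0) (x 1) * vv r x * chir r x ∂pm) +
      (∫ x, hh 2 (x 0) * chir r x ^ 2 ∂pm) - 13840| ≤ K4 * Real.exp (-r / 4) := by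
    have n1 := hnum.2.2.2.2.1
    have i1 := (pb_hh0.mul (pb_chi.pow 2)).int h
    have i2 := ((pb_dd.mul pb_th0).mul pb_chi).int h
    have i3 := ((pdv.mul pχ)).int h
    have i4 := (pb_hh0.mul (pχ.pow 2)).int h
    have s1 : ∫ x, (2 * (dd (x 0) (x 1) * vv r x * chir r x) + hh 2 (x 0) * chir r x ^ 2) ∂pm =
        2 * (∫ x, dd (x 0) (x 1) * vv r x * chir r x ∂pm) +
          ∫ x, hh 2 (x 0) * chir r x ^ 2 ∂pm := by
      rw [← integral_const_mul]
      exact integral_add (i3.const_mul 2) i4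
    have s2 : ∫ x : X3, (2 * (dd (x 0) (x 1) * th 2 (x 0) * chi x) + hh 2 (x 0) * chi x ^ 2) ∂pm =
        2 * (∫ x, dd (x 0) (x 1) * th 2 (x 0) * chi x ∂pm) +
          ∫ x, hh 2 (x 0) * chi x ^ 2 ∂pm := by
      rw [← integral_const_mul]
      exact integral_add (i2.const_mul 2) i1
    have s3 : (∫ x, (2 * (dd (x 0) (x 1) * vv r x * chir r x) + hh 2 (x 0) * chir r x ^ 2) ∂pm) -
        (∫ x : X3, (2 * (dd (x 0) (x 1) * th 2 (x 0) * chi x) + hh 2 (x 0) * chi x ^ 2) ∂pm) =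
        ∫ x, ((2 * (dd (x 0) (x 1) * vv r x * chir r x) + hh 2 (x 0) * chir r x ^ 2) -
          (2 * (dd (x 0) (x 1) * th 2 (x 0) * chi x) + hh 2 (x 0) * chi x ^ 2)) ∂pm :=
      (integral_sub ((i3.const_mul 2).add i4) ((i2.const_mul 2).add i1)).symm
    have s4 : ∫ x, ((2 * (dd (x 0) (x 1) * vv r x * chir r x) + hh 2 (x 0) * chir r x ^ 2) -
          (2 * (dd (x 0) (x 1) * th 2 (x 0) * chi x) + hh 2 (x 0) * chi x ^ 2)) ∂pm =
        - ∫ x : X3, (1 - (zt r (x 0) * zt r (x 1)) ^ 2) *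
          (2 * (dd (x 0) (x 1) * th 2 (x 0) * chi x) + hh 2 (x 0) * chi x ^ 2) ∂pm := by
      rw [← integral_neg]
      refine integral_congr_ae (Filter.Eventually.of_forall fun x => ?_)
      simp only [vv, chir]
      ring
    have e0 : 2 * (∫ x, dd (x 0) (x 1) * vv r x * chir r x ∂pm) +
        (∫ x, hh 2 (x 0) * chir r x ^ 2 ∂pm) - 13840 =
        - ∫ x : X3, (1 - (zt r (x 0) * zt r (x 1)) ^ 2) *
          (2 * (dd (x 0) (x 1) * th 2 (x 0) * chi x) + hh 2 (x 0) * chi x ^ 2) ∂pm := by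
      rw [← s4, ← s3, s1, s2]
      linarith
    rw [e0, abs_neg]
    refine ht r hr _ fun x => ?_
    rw [abs_mul, mul_comm]
    exact mul_le_mul_of_nonneg_left (one_sub_ZZ hr x) (abs_nonneg _)
  have h5 : |(∫ x, dd (x 0) (x 1) * vv r x * Δ x ∂pm) +
      ∫ x, hh 2 (x 0) * chir r x * Δ x ∂pm| ≤ 1426.75 * nrm Δ := by
    have e0 : (∫ x, dd (x 0) (x 1) * vv r x * Δ x ∂pm) +
        ∫ x, hh 2 (x 0) * chir r x * Δ x ∂pm =
        ∫ x, (kap x * (zt r (x 0) * zt r (x 1))) * Δ x ∂pm := by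
      rw [← integral_add ((pdv.mul pΔ).int h) (((pb_hh0.mul pχ).mul pΔ).int h)]
      refine integral_congr_ae (Filter.Eventually.of_forall fun x => ?_)
      dsimp only
      rw [← chir_vv]
      ring
    have pz := (pb_zt0 r).mul (pb_zt1 r)
    rw [e0]
    refine (cs h (pb_kap.mul pz) pΔ).trans (mul_le_mul_of_nonneg_right ?_ (nrm_nonneg _))
    have n1 : nrm (fun x => kap x * (zt r (x 0) * zt r (x 1))) ≤ nrm kap := by
      refine nrm_mono h (pb_kap.mul pz) pb_kap fun x => ?_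
      have z0 := zt_nonneg r (x 0)
      have z1 := zt_nonneg r (x 1)
      have y1 := zt_le_one r (x 1)
      have y0 := zt_le_one r (x 0)
      rw [abs_mul, abs_of_nonneg (mul_nonneg z0 z1)]
      exact mul_le_of_le_one_right (abs_nonneg _) (mul_le_one₀ y0 z1 y1)
    refine n1.trans ?_
    unfold nrm
    rw [hnum.2.2.2.2.2.2.2]
    refine Real.sqrt_le_iff.mpr ⟨by norm_num, by norm_num⟩
  have h6 : -(√(∫ x, ‖x 0‖ ^ 2 * Δ x ^ 2 ∂pm) ^ 2 / 2) ≤ ∫ x, hh 2 (x 0) * Δ x ^ 2 ∂pm := by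
    have i1 := ((pb_norm0.pow 2).mul (pΔ.pow 2)).int h
    rw [Real.sq_sqrt (integral_nonneg fun x => by positivity)]
    have e : -((∫ x, ‖x 0‖ ^ 2 * Δ x ^ 2 ∂pm) / 2) =
        ∫ x, (-(1 / 2)) * (‖x 0‖ ^ 2 * Δ x ^ 2) ∂pm := by
      rw [integral_const_mul]
      ring
    rw [e]
    refine integral_mono (i1.const_mul _) ((pb_hh0.mul (pΔ.pow 2)).int h) fun x => ?_
    have := mul_le_mul_of_nonneg_right (hh2_lower (x 0)) (sq_nonneg (Δ x))
    dsimp only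
    linarith
  exact alg (D := nrm Δ) (by positivity) rfl hc hX h1 h2 h3 hId hQo h4 h5 h6

theorem main0 (h : S_hm) (hp : S_prod) (hb : S_bl) (hf : S_form) (hl : S_lift) (hv : S_var)
    (h0 : S_harm0) (hw : S_wlist) (hs : S_sym) (hav : S_avg) (hbd : S_bounds) (hap : S_apri)
    (hpar : S_par) (herr : S_err) (hnum : S_num) (g0 : ℝ) (hg : HGap g0) :
    ∃ C r0 : ℝ, 1 ≤ C ∧ 1 ≤ r0 ∧ ∀ (r a : ℝ) (φ : X3 → ℝ),
      r0 ≤ r → r ^ 4 ≤ a → NM S2 r (V12 r a) φ →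
      3700 / a ^ 6 - C * r ^ 10 * (1 / a ^ 7 + Real.exp (-r / 16)) ≤
        ∫ x, hh 2 (x 0) * φ x ^ 2 ∂pm := by
  obtain ⟨C1, w1, -, -, -, w2, -⟩ := hw
  obtain ⟨K, hK, hweak⟩ := weak_q h hp hb hf hl hv h0 w1 w2
  obtain ⟨K3, hK3, hquad⟩ := quad_term h hp hs
  obtain ⟨K4, hK4, hasm⟩ := assemble h hp hs h0 hnum
  obtain ⟨Cb, hCb, hbd⟩ := hbd
  obtain ⟨Ca, M0, ra, hCa, hM0, hra, hap⟩ := hap g0 hg
  obtain ⟨Cp, rp, hCp, hrp, hpar⟩ := hpar g0 hg
  obtain ⟨Ce, re, hCe, hre, herr⟩ := herr g0 hg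
  have hJ := Real.sqrt_nonneg Jt
  have hCa0 : 0 ≤ Ca := by linarith
  have hCb0 : 0 ≤ Cb := by linarith
  have hCe0 : 0 ≤ Ce := by linarith
  refine ⟨1 + 3738 * (Ca * (Cb ^ 2 + 1)) + K4 + 2878 * Ce + 2 * Ce ^ 2 +
    2 * (K * ((1 + 2 * Ca) + Ca ^ 2 * (Cb ^ 3 + 3))) + 2 * (Cb * √Jt * (Ca * (Cb + 1))) +
    (2 * Cp + K3),
    max (max ra rp) (max re (max 2 (Cb / M0 + Cb))), ?_, ?_, fun r a φ hr hra' hφ => ?_⟩
  · have z : 0 ≤ 3738 * (Ca * (Cb ^ 2 + 1)) + K4 + 2878 * Ce + 2 * Ce ^ 2 +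
      2 * (K * ((1 + 2 * Ca) + Ca ^ 2 * (Cb ^ 3 + 3))) + 2 * (Cb * √Jt * (Ca * (Cb + 1))) +
      (2 * Cp + K3) := by positivity
    linarith
  · exact hra.trans ((le_max_left _ _).trans (le_max_left _ _))
  have hr1 : ra ≤ r := ((le_max_left _ _).trans (le_max_left _ _)).trans hr
  have hr2 : rp ≤ r := ((le_max_right _ _).trans (le_max_left _ _)).trans hr
  have hr3 : re ≤ r := ((le_max_left _ _).trans (le_max_right _ _)).trans hr
  have hr4 : 2 ≤ r := (((le_max_left _ _).trans (le_max_right _ _)).trans (le_max_right _ _)).trans hr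
  have hr5 : Cb / M0 + Cb ≤ r :=
    (((le_max_right _ _).trans (le_max_right _ _)).trans (le_max_right _ _)).trans hr
  have h1r : 1 ≤ r := by linarith
  have ha1 : 1 ≤ a := a_ge h1r hra'
  have ha0 : 0 < a := by linarith
  have h8 : 8 * r ≤ a := by
    have : 8 * r ≤ r ^ 4 := by
      have h1 : (2 : ℝ) ^ 3 ≤ r ^ 3 := pow_le_pow_left₀ (by norm_num) hr4 3
      nlinarith
    linarith
  obtain ⟨mV, -, bV, dV, -⟩ := hbd r a (2 * a) h1r h8 le_rfl
  obtain ⟨-, -, -, zV, -, zVZ, -⟩ := hav r a (2 * a) h1r h8 le_rfl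
  obtain ⟨M, hM⟩ : ∃ M, M = Cb * r ^ 2 / a ^ 3 := ⟨_, rfl⟩
  rw [← hM] at bV
  have hMn : 0 ≤ M := M_nonneg h1r hra' hCb hM
  have hMr : M ≤ Cb / r := by
    rw [hM, div_le_div_iff₀ (by positivity) (by positivity)]
    have h1 : r ^ 3 ≤ a ^ 3 := by
      refine pow_le_pow_left₀ (by linarith) ?_ 3
      linarith
    calc Cb * r ^ 2 * r = Cb * r ^ 3 := by ring
      _ ≤ Cb * a ^ 3 := mul_le_mul_of_nonneg_left h1 (by linarith)
  have hdiv0 : 0 ≤ Cb / M0 := by positivity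
  have hMM0 : M ≤ M0 := by
    refine hMr.trans ?_
    rw [div_le_iff₀ (by linarith)]
    have : Cb / M0 ≤ r := by linarith
    rw [div_le_iff₀ hM0] at this
    linarith
  have hM1 : M ≤ 1 := by
    refine hMr.trans ?_
    rw [div_le_one (by linarith)]
    linarith
  have hV1 : ∀ x, |V12 r a x| ≤ 1 := fun x => (bV x).trans hM1
  obtain ⟨hE, hnm⟩ := hap S2 r M (V12 r a) ⟨0, by decide⟩ hr1 hMn hMM0 mV bV zV zVZ
  obtain ⟨hc, hD⟩ := hnm φ hφ
  obtain ⟨e, he⟩ : ∃ e, e = Real.exp (-r / 8) := ⟨_, rfl⟩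
  obtain ⟨he0, he1, het, -⟩ := e_le h1r hra' he
  have hee : Real.exp (-r / 4) = e ^ 2 := by
    rw [he, ← Real.exp_nat_mul]
    congr 1
    push_cast
    ring
  rw [hee] at hE hc hD
  obtain ⟨δ, hδ⟩ : ∃ δ, δ = Ca * (M ^ 2 + e ^ 2) := ⟨_, rfl⟩
  rw [← hδ] at hE hc hD
  have hδ0 : 0 ≤ δ := by
    rw [hδ]
    positivity
  have hφb : BL φ := hb.2.2.2.1 S2 r φ hφ.box (by linarith) ⟨0, by decide⟩
  have hφp : PB φ := BL.pb hb hφb
  have hc2 : (∫ x, φ x ∂pm) ^ 2 ≤ 1 := by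
    have h1 := nrm_sub_c h hp hφp hφ.norm
    have h2 := sq_nonneg (nrm fun x => φ x - ∫ z, φ z ∂pm)
    linarith
  have hcabs : |∫ x, φ x ∂pm| ≤ 1 := by
    rw [← sq_abs] at hc2
    exact (sq_le_one_iff₀ (abs_nonneg _)).mp hc2
  -- the three error terms
  have E1 := hweak r a δ φ h1r hδ0 hV1 mV hφ hc hD hE
  have E2 := pot_term h hp hs hav (δ := δ) h1r h8 hCb0 hV1 mV dV hφp hφ.norm hc
  obtain ⟨-, hρ, -⟩ := hpar r a φ hr2 hra' hφ
  have E3 := hquad r φ _ h1r hφp hφ.box hc2 hρ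
  have F := hasm r a _ _ _ φ h1r ha0 hφp hcabs E1 E2 E3
  obtain ⟨hDn, hYn⟩ := herr r a φ hr3 hra' hφ
  have ha3 : 1 / a ^ 3 ≤ 1 := by
    rw [div_le_one (by positivity)]
    exact one_le_pow₀ ha1
  have hu0 : 0 ≤ |∫ x, φ x ∂pm| * (1 / a ^ 3) := by positivity
  have hu1 : |∫ x, φ x ∂pm| * (1 / a ^ 3) ≤ 1 / a ^ 3 := by
    calc _ ≤ 1 * (1 / a ^ 3) := mul_le_mul_of_nonneg_right hcabs (by positivity)
      _ = _ := one_mul _
  have ht0 : 0 ≤ T r a := T_nonneg h1r hra'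
  have A2 := alg2 (u := |∫ x, φ x ∂pm| * (1 / a ^ 3))
    (E := Ce * r ^ 4 * (1 / a ^ 4 + Real.exp (-r / 16)))
    (e4 := K4 * Real.exp (-r / 4)) hu0 (hu1.trans ha3) (by positivity)
    (Real.sqrt_nonneg (∫ x, ‖x 0‖ ^ 2 * (oo φ x + (∫ z, φ z ∂pm) / a ^ 3 * chir r x) ^ 2 ∂pm))
    (by positivity)
    (D := √(∫ x, (oo φ x + (∫ z, φ z ∂pm) / a ^ 3 * chir r x) ^ 2 ∂pm))
    (hDn.trans (le_of_eq (by ring))) (hYn.trans (le_of_eq (by ring)))
  have B1 := num_e1 hK he0.le het hCa0 (Real.sqrt_nonneg δ)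
    (del_b h1r hra' hCa hCb hM hM1 he hδ) (del_a h1r hra' hCa hCb hM hM1 he hδ)
  rw [he] at B1
  have B2 : Cb * r ^ 3 / a ^ 4 * √Jt * √δ ≤ Cb * √Jt * (Ca * (Cb + 1)) * T r a := by
    have y3 := del_c h1r hra' hCa hCb hM he hδ
    calc Cb * r ^ 3 / a ^ 4 * √Jt * √δ = Cb * √Jt * (r ^ 3 / a ^ 4 * √δ) := by ring
      _ ≤ Cb * √Jt * (Ca * (Cb + 1) * T r a) := mul_le_mul_of_nonneg_left y3 (by positivity)
      _ = _ := by ring
  have B3 := num_e3 h1r hra' (Cp := Cp) (K3 := K3) (by linarith) hK3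
  have B4 : K4 * Real.exp (-r / 4) ≤ K4 * T r a := by
    refine mul_le_mul_of_nonneg_left ?_ hK4
    have := T_exp h1r hra' 0 (by norm_num) (-r / 4) (by linarith)
    rwa [pow_zero, one_mul] at this
  have B5 := num_uE h1r hra' hCe0 hu1
  have B6 := num_EE h1r hra' (Ce := Ce)
  have B7 := del_d h1r hra' hCa hM he hδ
  have x1 : (|∫ x, φ x ∂pm| * (1 / a ^ 3)) ^ 2 = (∫ x, φ x ∂pm) ^ 2 * (1 / a ^ 6) := by
    rw [mul_pow, sq_abs]
    congr 1
    field_simp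
  have x2 : 1 - δ ≤ (∫ x, φ x ∂pm) ^ 2 := by linarith
  have hfin := num_fin (r10 := r ^ 10) (T7 := 1 / a ^ 7 + Real.exp (-r / 16)) ht0
    (by positivity : 0 ≤ 1 / a ^ 6) rfl rfl x1 x2 B7 B5 B6 B1 B2 B3 B4 A2 F
  refine le_trans (le_of_eq ?_) hfin
  ring

end Qd

/-- **D6.** -/
theorem p_Q (h : S_hm) (hp : S_prod) (hb : S_bl) (hf : S_form) (hl : S_lift) (hv : S_var)
    (h0 : S_harm0) (hw : S_wlist) (hs : S_sym) (hav : S_avg) (hbd : S_bounds) (hap : S_apri)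
    (hps : S_potsym) (hpar : S_par) (herr : S_err) (hnum : S_num) : S_Q := by
  intro g0 hg
  obtain ⟨C, r0, hC, hr0, hmain⟩ := Qd.main0 h hp hb hf hl hv h0 hw hs hav hbd hap hpar herr hnum
    g0 hg
  refine ⟨C, r0, hC, hr0, fun r a φ j hr ha hφ hj => ?_⟩
  rcases hj with rfl | rfl
  · exact hmain r a φ hr ha hφ
  -- the second variable: reflection
  have hpiv : piv = sgT (Equiv.swap 0 1) (fun _ _ => -1) := by
    funext x k
    ext c
    fin_cases k <;> simp [piv, sgT, Equiv.swap_apply_def]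
  obtain ⟨mp, hbl, hDD, -⟩ := hs (Equiv.swap 0 1) (fun _ _ => -1) (fun _ _ => Or.inr rfl)
  rw [← hpiv] at mp
  have h1r : 1 ≤ r := hr0.trans hr
  have hφb : BL φ := hb.2.2.2.1 S2 r φ hφ.box (by linarith) ⟨0, by decide⟩
  have hφp : Qd.PB φ := Qd.BL.pb hb hφb
  have hφb' : BL (fun x => φ (piv x)) := by
    rw [hpiv]
    exact hbl φ hφb
  have hφ' : NM S2 r (V12 r a) (fun x => φ (piv x)) := by
    refine ⟨⟨hφb'.lip, fun x hx j hj => ?_, fun j hj x y => ?_⟩, ?_, ?_⟩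
    · have hj' : j = 0 ∨ j = 1 := by simpa [S2] using hj
      rcases hj' with rfl | rfl
      · have := hφ.box.supp _ hx 1 (by decide)
        simpa [piv] using this
      · have := hφ.box.supp _ hx 0 (by decide)
        simpa [piv] using this
    · have hj' : j = 2 := by
        fin_cases j
        · exact absurd (by decide) hj
        · exact absurd (by decide) hj
        · rfl
      subst hj'
      have e : piv (Function.update x 2 y) = Function.update (piv x) 2 (-y) := by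
        funext k
        fin_cases k <;> simp [piv]
      rw [e]
      exact hφ.box.ind 2 hj _ _
    · have := Qd.int_comp mp (f := fun x => φ x * φ x) ((hφp.mul hφp).1)
      exact this.trans hφ.norm
    · have e : BB (V12 r a) (fun x => φ (piv x)) (fun x => φ (piv x)) = BB (V12 r a) φ φ := by
        unfold BB
        have e1 : DD (fun x => φ (piv x)) (fun x => φ (piv x)) = DD φ φ := by
          rw [hpiv]
          exact hDD φ φ hφb hφb
        have e2 : ∫ x, V12 r a x * φ (piv x) * φ (piv x) ∂pm =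
            ∫ x, V12 r a x * φ x * φ x ∂pm := by
          have h2 : ∫ x, V12 r a x * φ (piv x) * φ (piv x) ∂pm =
              ∫ x, (fun x => V12 r a x * φ x * φ x) (piv x) ∂pm := by
            refine integral_congr_ae (Filter.Eventually.of_forall fun x => ?_)
            dsimp only
            rw [(hps r a 0).1 x]
          rw [h2]
          by_cases hm : Measurable (V12 r a)
          · exact Qd.int_comp mp ((hm.mul hφp.1).mul hφp.1)
          · have hinv : ∀ x, piv (piv x) = x := by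
              intro x
              funext k
              fin_cases k <;> simp [piv]
            have me : MeasurableEmbedding piv :=
              (MeasurableEquiv.mk ⟨piv, piv, hinv, hinv⟩ mp.measurable mp.measurable
                ).measurableEmbedding
            exact mp.integral_comp me (fun x => V12 r a x * φ x * φ x)
        rw [e1, e2]
      rw [e]
      exact hφ.le
  have hfin := hmain r a (fun x => φ (piv x)) hr ha hφ'
  have e : ∫ x, hh 2 (x 0) * (fun x => φ (piv x)) x ^ 2 ∂pm = ∫ x, hh 2 (x 1) * φ x ^ 2 ∂pm := by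
    have m1 : Measurable (fun x : X3 => hh 2 (x 1) * φ x ^ 2) := by
      refine Measurable.mul ?_ (hφp.1.pow_const 2)
      simp only [hh]
      fun_prop
    rw [← Qd.int_comp mp m1]
    refine integral_congr_ae (Filter.Eventually.of_forall fun x => ?_)
    dsimp only
    have : (piv x) 1 = -x 0 := by simp [piv]
    rw [this, Qd.hh2_neg]
  rw [e] at hfin
  exact hfin

end MolDis.H
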