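import Pool.Agent.Lib.MP_59f35a_mp.HStmts

/-!
# MP_59f35a_mp : E7 (scalar form of the polar molecule)
-/

set_option autoImplicit false

noncomputable section

open MeasureTheory

namespace MolDis.H

namespace Scalar

/-! ### exponentials beat powers -/

lemma exp_small (n : ℕ) (C c : ℝ) (hC : 0 ≤ C) (hc : 0 < c) : ∃ r0 : ℝ, 1 ≤ r0 ∧
    ∀ r : ℝ, r0 ≤ r → C * r ^ n * Real.exp (-r / 16) ≤ c := by
  have h1 := Real.tendsto_pow_mul_exp_neg_atTop_nhds_zero n
  have h2 : ∀ᶠ x : ℝ in Filter.atTop, x ^ n * Real.exp (-x) < c / (C * 16 ^ n + 1) :=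
    h1.eventually (gt_mem_nhds (by positivity))
  obtain ⟨x0, hx0⟩ := Filter.eventually_atTop.1 h2
  refine ⟨max 1 (16 * x0), le_max_left _ _, fun r hr => ?_⟩
  have hr1 : 1 ≤ r := (le_max_left _ _).trans hr
  have hr2 : 16 * x0 ≤ r := (le_max_right _ _).trans hr
  have h3 := hx0 (r / 16) (by linarith)
  have h4 : r ^ n = 16 ^ n * (r / 16) ^ n := by
    rw [← mul_pow]
    congr 1
    ring
  have h5 : -(r / 16) = -r / 16 := by ring
  rw [h5] at h3
  rw [h4]
  have h6 : 0 ≤ (r / 16) ^ n * Real.exp (-r / 16) := by positivity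
  calc C * (16 ^ n * (r / 16) ^ n) * Real.exp (-r / 16)
      = (C * 16 ^ n) * ((r / 16) ^ n * Real.exp (-r / 16)) := by ring
    _ ≤ (C * 16 ^ n + 1) * ((r / 16) ^ n * Real.exp (-r / 16)) :=
        mul_le_mul_of_nonneg_right (by linarith) h6
    _ ≤ (C * 16 ^ n + 1) * (c / (C * 16 ^ n + 1)) :=
        mul_le_mul_of_nonneg_left h3.le (by positivity)
    _ = c := by
        field_simp

/-- the potential is small -/
lemma u3_small (h_avg : S_avg) (h_bounds : S_bounds) (M0 : ℝ) (hM0 : 0 < M0) :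
    ∃ r0 : ℝ, 2 ≤ r0 ∧ ∀ r a l : ℝ, r0 ≤ r → r ^ 4 ≤ a → a ^ 6 ≤ l →
      8 * r ≤ a ∧ 2 * a ≤ l ∧ Measurable (U3 r a l) ∧ (∀ x, |U3 r a l x| ≤ M0) ∧
      ∫ x, U3 r a l x ∂pm = 0 ∧ ∫ x, U3 r a l x * ZS S3 r x ^ 2 ∂pm = 0 := by
  obtain ⟨B, hB, hb⟩ := h_bounds
  refine ⟨2 + 2 * B / M0, ?_, ?_⟩
  · have h1 : 0 ≤ 2 * B / M0 := by positivity
    linarith
  intro r a l hr ha hl
  have h1 : 0 ≤ 2 * B / M0 := by positivity
  have hr2 : 2 ≤ r := by linarith
  have hr0 : 0 < r := by linarith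
  have har : 8 * r ≤ a := by
    refine le_trans ?_ ha
    have : (8 : ℝ) ≤ r ^ 3 := by
      calc (8 : ℝ) = 2 ^ 3 := by norm_num
        _ ≤ r ^ 3 := pow_le_pow_left₀ (by norm_num) hr2 3
    calc 8 * r ≤ r ^ 3 * r := mul_le_mul_of_nonneg_right this hr0.le
      _ = r ^ 4 := by ring
  have ha2 : 2 ≤ a := by linarith
  have ha0 : 0 < a := by linarith
  have h2al : 2 * a ≤ l := by
    refine le_trans ?_ hl
    have h3 : (2 : ℝ) ≤ a ^ 5 := by
      calc (2 : ℝ) ≤ a := ha2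
        _ ≤ a ^ 5 := le_self_pow₀ (by linarith) (by norm_num)
    calc 2 * a ≤ a ^ 5 * a := mul_le_mul_of_nonneg_right h3 ha0.le
      _ = a ^ 6 := by ring
  have hal : a ≤ l := by linarith
  obtain ⟨b1, b2, b3, -, b5, -⟩ := hb r a l (by linarith) har h2al
  obtain ⟨-, -, -, -, v5, -, v7⟩ := h_avg r a l (by linarith) har h2al
  refine ⟨har, h2al, b1.add b2, ?_, v5, v7⟩
  intro x
  unfold U3
  refine (abs_add_le _ _).trans ?_
  have h3 := b3 x
  have h4 := b5 x
  have h5 : B * r ^ 2 / l ^ 3 ≤ B * r ^ 2 / a ^ 3 := by gcongr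
  have h6 : B * r ^ 2 / a ^ 3 ≤ B / r := by
    rw [div_le_div_iff₀ (by positivity) hr0]
    have h3 : r ^ 2 * r ≤ a ^ 3 := by
      have : r ≤ a := by linarith
      calc r ^ 2 * r = r ^ 3 := by ring
        _ ≤ a ^ 3 := pow_le_pow_left₀ hr0.le this 3
    calc B * r ^ 2 * r = B * (r ^ 2 * r) := by ring
      _ ≤ B * a ^ 3 := mul_le_mul_of_nonneg_left h3 (by positivity)
  have h7 : 2 * B / r ≤ M0 := by
    rw [div_le_iff₀ hr0]
    have h3 : 2 * B / M0 ≤ r := by linarith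
    rw [div_le_iff₀ hM0] at h3
    linarith
  have h8 : 2 * B / r = B / r + B / r := by ring
  linarith

/-! ### the arithmetic of the multipoles -/

lemma arith (r M2 M4 : ℝ) (hr : 1 ≤ r)
    (hM : M2 - 2 / (r ^ 30) ^ 2 * M4 ≤ -13000 / (r ^ 30) ^ 6)
    (h1 : |36 * (3 * M2 / (r ^ 300) ^ 4 + 5 * M4 / (r ^ 300) ^ 6)| < 2 / r ^ 2000)
    (h2 : |36 * (3 * M2 / (2 * r ^ 300) ^ 4 + 5 * M4 / (2 * r ^ 300) ^ 6)| < 2 / r ^ 2000) :
    False := by
  have hr0 : 0 < r := by linarith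
  set A : ℝ := 3 * M2 + 5 * M4 / r ^ 600 with hA
  set B : ℝ := 3 * M2 + 5 * M4 / (4 * r ^ 600) with hB
  have e1 : 36 * (3 * M2 / (r ^ 300) ^ 4 + 5 * M4 / (r ^ 300) ^ 6) = 36 * A / r ^ 1200 := by
    rw [hA]
    field_simp
  have e2 : 36 * (3 * M2 / (2 * r ^ 300) ^ 4 + 5 * M4 / (2 * r ^ 300) ^ 6) =
      36 * B / (16 * r ^ 1200) := by
    rw [hB]
    field_simp
    ring
  rw [e1, abs_div, abs_of_pos (by positivity : 0 < r ^ 1200), div_lt_div_iff₀ (by positivity)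
    (by positivity), abs_mul, abs_of_pos (by norm_num : (0 : ℝ) < 36)] at h1
  rw [e2, abs_div, abs_of_pos (by positivity : 0 < 16 * r ^ 1200), div_lt_div_iff₀ (by positivity)
    (by positivity), abs_mul, abs_of_pos (by norm_num : (0 : ℝ) < 36)] at h2
  have p1 : r ^ 2000 = r ^ 1200 * r ^ 800 := by rw [← pow_add]
  have h1' : |A| ≤ 1 / r ^ 800 := by
    rw [le_div_iff₀ (by positivity)]
    rw [p1] at h1
    have h3 : 0 < r ^ 1200 := by positivity
    have h4 : (36 * (|A| * r ^ 800)) * r ^ 1200 < 2 * r ^ 1200 := by linarith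
    have h5 := lt_of_mul_lt_mul_right h4 h3.le
    linarith
  have h2' : |B| ≤ 1 / r ^ 800 := by
    rw [le_div_iff₀ (by positivity)]
    rw [p1] at h2
    have h3 : 0 < r ^ 1200 := by positivity
    have h4 : (36 * (|B| * r ^ 800)) * r ^ 1200 < 32 * r ^ 1200 := by linarith
    have h5 := lt_of_mul_lt_mul_right h4 h3.le
    linarith
  have e3 : M2 - 2 / (r ^ 30) ^ 2 * M4 = (4 * B - A) / 9 - 8 / 15 * (r ^ 540 * (A - B)) := by
    rw [hA, hB]
    have p2 : r ^ 600 = r ^ 540 * r ^ 60 := by rw [← pow_add]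
    have p3 : (r ^ 30) ^ 2 = r ^ 60 := by rw [← pow_mul]
    rw [p2, p3]
    field_simp
    ring
  have h3 : |M2 - 2 / (r ^ 30) ^ 2 * M4| ≤ 5 / 9 * (1 / r ^ 800)
      + 16 / 15 * (r ^ 540 * (1 / r ^ 800)) := by
    rw [e3]
    refine (abs_sub _ _).trans ?_
    have h4 : |(4 * B - A) / 9| ≤ 5 / 9 * (1 / r ^ 800) := by
      rw [abs_div, abs_of_pos (by norm_num : (0 : ℝ) < 9)]
      have : |4 * B - A| ≤ 4 * |B| + |A| := by
        refine (abs_sub _ _).trans ?_
        rw [abs_mul, abs_of_pos (by norm_num : (0 : ℝ) < 4)]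
      rw [div_le_iff₀ (by norm_num)]
      linarith
    have h5 : |8 / 15 * (r ^ 540 * (A - B))| ≤ 16 / 15 * (r ^ 540 * (1 / r ^ 800)) := by
      rw [abs_mul, abs_mul, abs_of_pos (by norm_num : (0 : ℝ) < 8 / 15),
        abs_of_pos (by positivity : 0 < r ^ 540)]
      have h6 : |A - B| ≤ 2 * (1 / r ^ 800) := by
        refine (abs_sub _ _).trans ?_
        linarith
      have h7 : r ^ 540 * |A - B| ≤ r ^ 540 * (2 * (1 / r ^ 800)) :=
        mul_le_mul_of_nonneg_left h6 (by positivity)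
      linarith
    linarith
  have h4 : 1 / r ^ 800 ≤ 1 / r ^ 180 :=
    one_div_le_one_div_of_le (by positivity) (pow_le_pow_right₀ hr (by norm_num))
  have h5 : r ^ 540 * (1 / r ^ 800) ≤ 1 / r ^ 180 := by
    have p4 : r ^ 800 = r ^ 540 * r ^ 260 := by rw [← pow_add]
    have e4 : r ^ 540 * (1 / r ^ 800) = 1 / r ^ 260 := by
      rw [p4]
      field_simp
    rw [e4]
    exact one_div_le_one_div_of_le (by positivity) (pow_le_pow_right₀ hr (by norm_num))
  have h6 : (r ^ 30) ^ 6 = r ^ 180 := by rw [← pow_mul]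
  rw [h6] at hM
  have h7 := (abs_le.1 h3).1
  have h8 : (-13000 : ℝ) / r ^ 180 = -13000 * (1 / r ^ 180) := by ring
  rw [h8] at hM
  have h9 : 0 < 1 / r ^ 180 := by positivity
  linarith

/-! ### the transversal components -/

/-- sum of the coordinates `c` -/
def Zc (c : Fin 3) (x : X3) : ℝ := x 0 c + x 1 c + x 2 c

/-- reflection in the coordinate `c` -/
def Rc (c : Fin 3) : X3 → X3 := sgT (Equiv.refl _) (fun _ d => if d = c then -1 else 1)

lemma Rc_norm (c : Fin 3) (x : X3) (j : Fin 3) : ‖Rc c x j‖ = ‖x j‖ := by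
  unfold Rc sgT
  rw [EuclideanSpace.norm_eq, EuclideanSpace.norm_eq]
  congr 1
  refine Finset.sum_congr rfl fun d _ => ?_
  simp only [Equiv.refl_apply]
  split_ifs <;> simp

lemma Zc_Rc (c : Fin 3) (x : X3) : Zc c (Rc c x) = - Zc c x := by
  unfold Zc Rc sgT
  simp
  ring

lemma Zc_meas (c : Fin 3) : Measurable (Zc c) := by
  unfold Zc
  fun_prop

lemma Zc_bound (c : Fin 3) (x : X3) (r : ℝ) (h : ∀ j ∈ S3, ‖x j‖ ≤ r) : |Zc c x| ≤ 3 * r := by
  have h1 : ∀ j, |x j c| ≤ r := fun j => (PiLp.norm_apply_le (x j) c).trans (h j (by simp [S3]))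
  unfold Zc
  have h2 := abs_add_three (x 0 c) (x 1 c) (x 2 c)
  have := h1 0
  have := h1 1
  have := h1 2
  linarith

/-- a near minimiser has small transversal moments -/
lemma transversal (h_uniq : S_uniq) (h_avg : S_avg) (h_bounds : S_bounds) (h_potsym : S_potsym)
    (h_sym : S_sym) (h_bl : S_bl) (g0 : ℝ) (hg0 : HGap g0) :
    ∃ r0 : ℝ, 1 ≤ r0 ∧ ∀ r a l : ℝ, r0 ≤ r → r ^ 4 ≤ a → a ^ 6 ≤ l → ∀ g, NM S3 r (U3 r a l) g →
      ∀ c : Fin 3, c ≠ 0 → |∫ x, Zc c x * g x ^ 2 ∂pm| ≤ Real.exp (-r / 4) := by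
  obtain ⟨M0, r1, hM0, hr1, hU⟩ := h_uniq g0 hg0
  obtain ⟨r2, hr2, hV⟩ := u3_small h_avg h_bounds M0 hM0
  obtain ⟨r3, hr3, hx⟩ := exp_small 1 (6 * √(8 / g0)) 1 (by positivity) (by norm_num)
  refine ⟨r1 + r2 + r3, by linarith, ?_⟩
  intro r a l hr ha hl g hg c hc
  obtain ⟨-, -, v3, v4, v5, v6⟩ := hV r a l (by linarith) ha hl
  have hr0 : 0 < r := by linarith
  obtain ⟨bl1, bl2, bl3, bl4, -, -⟩ := h_bl
  have hS3 : S3.Nonempty := by simp [S3]
  have hgBL : BL g := bl4 S3 r g hg.box hr0 hS3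
  obtain ⟨sy1, sy2, sy3, -⟩ := h_sym (Equiv.refl _) (fun _ d => if d = c then -1 else 1)
    (fun j d => by by_cases h : d = c <;> simp [h])
  have hmp : MeasurePreserving (Rc c) pm pm := sy1
  set f : X3 → ℝ := fun x => g (Rc c x) with hf
  have hfBL : BL f := sy2 g hgBL
  have hfbox : Box S3 r f := by
    refine ⟨hfBL.lip, ?_, ?_⟩
    · intro x hx' j hj
      have := hg.box.supp (Rc c x) hx' j hj
      rwa [Rc_norm] at this
    · intro j hj
      exact absurd (by simp [S3]) hj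
  have comp : ∀ F : X3 → ℝ, Measurable F → ∫ x, F (Rc c x) ∂pm = ∫ x, F x ∂pm := by
    intro F hF
    have h1 := integral_map (μ := pm) hmp.aemeasurable (f := F)
      (hF.aestronglyMeasurable)
    rw [hmp.map_eq] at h1
    exact h1.symm
  have hgm := (bl3 g hgBL).1
  have hfm := (bl3 f hfBL).1
  have hff : ip f f = 1 := by
    have h1 := comp (fun x => g x * g x) (hgm.mul hgm)
    have h2 := hg.norm
    unfold ip at h2 ⊢
    rw [← h2]
    exact h1
  have hBB : BB (U3 r a l) f f = BB (U3 r a l) g g := by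
    unfold BB
    congr 1
    · exact sy3 g g hgBL hgBL
    · have h1 := comp (fun x => U3 r a l x * g x * g x) ((v3.mul hgm).mul hgm)
      rw [← h1]
      refine integral_congr_ae (Filter.Eventually.of_forall fun x => ?_)
      simp only [hf]
      have h2 := (h_potsym r a l).2.2 c hc x
      have h3 : U3 r a l (Rc c x) = U3 r a l x := h2
      rw [h3]
  have hkey := hU S3 r M0 (U3 r a l) hS3 (by linarith) hM0.le (le_refl _) v3 v4 v5 v6 g f hg hfbox
  have hle := hg.le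
  rw [hBB, hff] at hkey
  set t : ℝ := ip g f with ht
  have hgap0 := hg0.pos
  have h1 : 1 - t ^ 2 ≤ 8 / g0 * Real.exp (-r) := by
    have h2 : g0 / 4 * (1 - t ^ 2) ≤ 2 * Real.exp (-r) := by linarith
    have h3 : 8 / g0 * Real.exp (-r) = (2 * Real.exp (-r)) / (g0 / 4) := by
      field_simp
      ring
    rw [h3, le_div_iff₀ (by positivity)]
    linarith
  set δ : ℝ := √(8 / g0) * Real.exp (-r / 2) with hδ
  have hδ0 : 0 < δ := by rw [hδ]; positivity
  have hδ2 : δ ^ 2 = 8 / g0 * Real.exp (-r) := by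
    rw [hδ, mul_pow, Real.sq_sqrt (by positivity), ← Real.exp_nat_mul]
    congr 2
    push_cast
    ring
  have hfg : Integrable (fun x => f x * g x) pm := ((bl3 _ ((bl1 f g hfBL hgBL).2.2))).2.1
  have hf2 : Integrable (fun x => f x ^ 2) pm := (bl3 f hfBL).2.2.1
  have hg2 : Integrable (fun x => g x ^ 2) pm := (bl3 g hgBL).2.2.1
  have If : ∫ x, f x ^ 2 ∂pm = 1 := by
    rw [← hff]
    unfold ip
    refine integral_congr_ae (Filter.Eventually.of_forall fun x => ?_)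
    simp only
    ring
  have Ig : ∫ x, g x ^ 2 ∂pm = 1 := by
    rw [← hg.norm]
    unfold ip
    refine integral_congr_ae (Filter.Eventually.of_forall fun x => ?_)
    simp only
    ring
  have Ifg : ∫ x, f x * g x ∂pm = t := by
    rw [ht]
    unfold ip
    refine integral_congr_ae (Filter.Eventually.of_forall fun x => ?_)
    simp only
    ring
  have Iw : ∫ x, (f x - t * g x) ^ 2 ∂pm = 1 - t ^ 2 := by
    have e : (fun x => (f x - t * g x) ^ 2) =
        fun x => f x ^ 2 - 2 * t * (f x * g x) + t ^ 2 * g x ^ 2 := by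
      funext x
      ring
    have hI1 : Integrable (fun x => f x ^ 2 - 2 * t * (f x * g x)) pm :=
      hf2.sub (hfg.const_mul _)
    rw [e, integral_add hI1 (hg2.const_mul _),
      integral_sub hf2 (hfg.const_mul _), integral_const_mul, integral_const_mul, If, Ig, Ifg]
    ring
  have Iv : ∫ x, (f x + t * g x) ^ 2 ∂pm = 1 + 3 * t ^ 2 := by
    have e : (fun x => (f x + t * g x) ^ 2) =
        fun x => f x ^ 2 + 2 * t * (f x * g x) + t ^ 2 * g x ^ 2 := by
      funext x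
      ring
    have hI1 : Integrable (fun x => f x ^ 2 + 2 * t * (f x * g x)) pm :=
      hf2.add (hfg.const_mul _)
    rw [e, integral_add hI1 (hg2.const_mul _),
      integral_add hf2 (hfg.const_mul _), integral_const_mul, integral_const_mul, If, Ig, Ifg]
    ring
  have hw2 : Integrable (fun x => (f x - t * g x) ^ 2) pm := by
    have e : (fun x => (f x - t * g x) ^ 2) =
        fun x => f x ^ 2 - 2 * t * (f x * g x) + t ^ 2 * g x ^ 2 := by
      funext x
      ring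
    rw [e]
    exact (hf2.sub (hfg.const_mul _)).add (hg2.const_mul _)
  have hv2 : Integrable (fun x => (f x + t * g x) ^ 2) pm := by
    have e : (fun x => (f x + t * g x) ^ 2) =
        fun x => f x ^ 2 + 2 * t * (f x * g x) + t ^ 2 * g x ^ 2 := by
      funext x
      ring
    rw [e]
    exact (hf2.add (hfg.const_mul _)).add (hg2.const_mul _)
  have ht1 : t ^ 2 ≤ 1 := by
    have : 0 ≤ ∫ x, (f x - t * g x) ^ 2 ∂pm := integral_nonneg fun x => sq_nonneg _
    rw [Iw] at this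
    linarith
  have hZf : Integrable (fun x => Zc c x * f x ^ 2) pm := by
    refine Integrable.mono' (hf2.const_mul (3 * r))
      ((Zc_meas c).mul (hfm.pow_const 2)).aestronglyMeasurable
      (Filter.Eventually.of_forall fun x => ?_)
    rw [Real.norm_eq_abs, abs_mul, abs_of_nonneg (sq_nonneg (f x))]
    by_cases h0 : f x = 0
    · simp [h0]
    · exact mul_le_mul_of_nonneg_right (Zc_bound c x r (hfbox.supp x h0)) (sq_nonneg _)
  have hZg : Integrable (fun x => Zc c x * g x ^ 2) pm := by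
    refine Integrable.mono' (hg2.const_mul (3 * r))
      ((Zc_meas c).mul (hgm.pow_const 2)).aestronglyMeasurable
      (Filter.Eventually.of_forall fun x => ?_)
    rw [Real.norm_eq_abs, abs_mul, abs_of_nonneg (sq_nonneg (g x))]
    by_cases h0 : g x = 0
    · simp [h0]
    · exact mul_le_mul_of_nonneg_right (Zc_bound c x r (hg.box.supp x h0)) (sq_nonneg _)
  set I : ℝ := ∫ x, Zc c x * g x ^ 2 ∂pm with hI
  have hIf : ∫ x, Zc c x * f x ^ 2 ∂pm = - I := by
    have h2 := comp (fun x => Zc c x * g x ^ 2) ((Zc_meas c).mul (hgm.pow_const 2))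
    rw [hI, ← h2, ← integral_neg]
    refine integral_congr_ae (Filter.Eventually.of_forall fun x => ?_)
    simp only [hf, Zc_Rc]
    ring
  have hdiff : ∫ x, (Zc c x * f x ^ 2 - t ^ 2 * (Zc c x * g x ^ 2)) ∂pm = - I - t ^ 2 * I := by
    rw [integral_sub hZf (hZg.const_mul _), integral_const_mul, hIf]
  have hbd : |∫ x, (Zc c x * f x ^ 2 - t ^ 2 * (Zc c x * g x ^ 2)) ∂pm| ≤ 6 * r * δ := by
    have h2 : ∫ x, (3 * r / δ * (f x - t * g x) ^ 2 + 3 * r * δ / 4 * (f x + t * g x) ^ 2) ∂pm ≤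
        6 * r * δ := by
      rw [integral_add (hw2.const_mul _) (hv2.const_mul _), integral_const_mul, integral_const_mul,
        Iw, Iv]
      have h3 : 3 * r / δ * (1 - t ^ 2) ≤ 3 * r / δ * δ ^ 2 := by
        rw [hδ2]
        exact mul_le_mul_of_nonneg_left h1 (by positivity)
      have h4 : 3 * r / δ * δ ^ 2 = 3 * r * δ := by field_simp
      have h5 : 3 * r * δ / 4 * (1 + 3 * t ^ 2) ≤ 3 * r * δ / 4 * 4 :=
        mul_le_mul_of_nonneg_left (by linarith) (by positivity)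
      linarith
    refine le_trans ?_ h2
    rw [← Real.norm_eq_abs]
    refine norm_integral_le_of_norm_le ((hw2.const_mul _).add (hv2.const_mul _))
      (Filter.Eventually.of_forall fun x => ?_)
    rw [Real.norm_eq_abs]
    have e : Zc c x * f x ^ 2 - t ^ 2 * (Zc c x * g x ^ 2) =
        Zc c x * ((f x - t * g x) * (f x + t * g x)) := by ring
    rw [e, abs_mul, abs_mul]
    set W := |f x - t * g x| with hW
    set V := |f x + t * g x| with hVd
    have hW2 : (f x - t * g x) ^ 2 = W ^ 2 := by rw [hW, sq_abs]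
    have hV2 : (f x + t * g x) ^ 2 = V ^ 2 := by rw [hVd, sq_abs]
    rw [hW2, hV2]
    have hW0 : 0 ≤ W := abs_nonneg _
    have hV0 : 0 ≤ V := abs_nonneg _
    have h6 : W * V ≤ 1 / δ * W ^ 2 + δ / 4 * V ^ 2 := by
      have h7 : 0 ≤ (W / δ - V / 2) ^ 2 * δ := by positivity
      have h8 : (W / δ - V / 2) ^ 2 * δ = 1 / δ * W ^ 2 - W * V + δ / 4 * V ^ 2 := by
        field_simp
        ring
      linarith
    by_cases h0 : f x = 0 ∧ g x = 0
    · have : W = 0 := by rw [hW, h0.1, h0.2]; simp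
      rw [this]
      simp only [zero_mul, mul_zero]
      positivity
    · have h9 : |Zc c x| ≤ 3 * r := by
        by_cases hf0 : f x = 0
        · exact Zc_bound c x r (hg.box.supp x fun hg' => h0 ⟨hf0, hg'⟩)
        · exact Zc_bound c x r (hfbox.supp x hf0)
      calc |Zc c x| * (W * V) ≤ 3 * r * (1 / δ * W ^ 2 + δ / 4 * V ^ 2) :=
            mul_le_mul h9 h6 (by positivity) (by positivity)
        _ = 3 * r / δ * W ^ 2 + 3 * r * δ / 4 * V ^ 2 := by ring
  rw [hdiff] at hbd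
  have hI2 : |I| ≤ 6 * r * δ := by
    have h2 : |-I - t ^ 2 * I| = (1 + t ^ 2) * |I| := by
      have : -I - t ^ 2 * I = -((1 + t ^ 2) * I) := by ring
      rw [this, abs_neg, abs_mul, abs_of_pos (by positivity)]
    rw [h2] at hbd
    have h3 : 0 ≤ t ^ 2 * |I| := by positivity
    linarith
  refine hI2.trans ?_
  have h2 := hx r (by linarith)
  rw [pow_one] at h2
  have h3 : Real.exp (-r / 2) = Real.exp (-r / 4) * Real.exp (-r / 4) := by
    rw [← Real.exp_add]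
    congr 1
    ring
  have h4 : Real.exp (-r / 4) ≤ Real.exp (-r / 16) := by
    apply Real.exp_le_exp.2
    linarith
  have h5 : 6 * √(8 / g0) * r * Real.exp (-r / 4) ≤ 1 := by
    refine le_trans ?_ h2
    exact mul_le_mul_of_nonneg_left h4 (by positivity)
  calc 6 * r * δ = (6 * √(8 / g0) * r * Real.exp (-r / 4)) * Real.exp (-r / 4) := by
        rw [hδ, h3]
        ring
    _ ≤ 1 * Real.exp (-r / 4) := mul_le_mul_of_nonneg_right h5 (Real.exp_pos _).le
    _ = Real.exp (-r / 4) := one_mul _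

end Scalar

open Scalar in
theorem p_scalar (h_dip : S_dip) (h_Mh : S_Mh) (h_even : S_even) (h_uniq : S_uniq)
    (h_avg : S_avg) (h_bounds : S_bounds) (h_potsym : S_potsym) (h_sym : S_sym) (h_bl : S_bl) :
    S_scalar := by
  intro g0 hg0
  obtain ⟨C1, r1, hC1, hr1, h1⟩ := h_dip g0 hg0
  obtain ⟨C2, r2, hC2, hr2, h2⟩ := h_Mh g0 hg0
  obtain ⟨r3, hr3, h3⟩ := h_even g0 hg0
  obtain ⟨r4, hr4, h4⟩ := transversal h_uniq h_avg h_bounds h_potsym h_sym h_bl g0 hg0
  obtain ⟨r5, hr5, h5⟩ := exp_small 190 C2 500 (by linarith) (by norm_num)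
  obtain ⟨r6, hr6, h6⟩ := exp_small 2010 C1 (1 / 2) (by linarith) (by norm_num)
  refine ⟨r1 + r2 + r3 + r4 + r5 + r6 + 2 * C1 + C2, by linarith, ?_⟩
  intro r hr
  have hr0 : 0 < r := by linarith
  have hr1' : 1 ≤ r := by linarith
  have ha : r ^ 4 ≤ r ^ 30 := pow_le_pow_right₀ hr1' (by norm_num)
  have hl1 : (r ^ 30) ^ 6 ≤ r ^ 300 := by
    rw [← pow_mul]
    exact pow_le_pow_right₀ hr1' (by norm_num)
  have hl2 : (r ^ 30) ^ 6 ≤ 2 * r ^ 300 := by
    have : 0 < r ^ 300 := by positivity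
    linarith
  obtain ⟨φ, hφ, hφe⟩ := h3 r (r ^ 30) (by linarith) ha
  obtain ⟨m1, -, -⟩ := h2 r (r ^ 30) φ (by linarith) ha hφ
  set M2 := ML (r ^ 30) 2 φ with hM2
  set M4 := ML (r ^ 30) 4 φ with hM4
  have hM : M2 - 2 / (r ^ 30) ^ 2 * M4 ≤ -13000 / (r ^ 30) ^ 6 := by
    have e1 : C2 * r ^ 10 * (1 / (r ^ 30) ^ 7) ≤ 500 / (r ^ 30) ^ 6 := by
      have p1 : (r ^ 30) ^ 7 = r ^ 10 * r ^ 20 * (r ^ 30) ^ 6 := by ring
      rw [p1]
      have : C2 * r ^ 10 * (1 / (r ^ 10 * r ^ 20 * (r ^ 30) ^ 6)) =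
          C2 / r ^ 20 / (r ^ 30) ^ 6 := by field_simp
      rw [this]
      have h7 : C2 / r ^ 20 ≤ 500 := by
        rw [div_le_iff₀ (by positivity)]
        have h8 : r ≤ r ^ 20 := le_self_pow₀ hr1' (by norm_num)
        linarith
      gcongr
    have e2 : C2 * r ^ 10 * Real.exp (-r / 16) ≤ 500 / (r ^ 30) ^ 6 := by
      rw [le_div_iff₀ (by positivity)]
      have := h5 r (by linarith)
      calc C2 * r ^ 10 * Real.exp (-r / 16) * (r ^ 30) ^ 6 =
            C2 * r ^ 190 * Real.exp (-r / 16) := by ring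
        _ ≤ 500 := this
    have e3 : (-13000 : ℝ) / (r ^ 30) ^ 6 = -14000 / (r ^ 30) ^ 6 + 500 / (r ^ 30) ^ 6
        + 500 / (r ^ 30) ^ 6 := by ring
    rw [e3]
    have e4 : C2 * r ^ 10 * (1 / (r ^ 30) ^ 7 + Real.exp (-r / 16)) =
        C2 * r ^ 10 * (1 / (r ^ 30) ^ 7) + C2 * r ^ 10 * Real.exp (-r / 16) := by ring
    rw [e4] at m1
    linarith
  have herr : ∀ l : ℝ, r ^ 300 ≤ l →
      C1 * r ^ 10 * (r ^ 30 / l ^ 7 + Real.exp (-r / 16)) ≤ 1 / r ^ 2000 := by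
    intro l hl
    have hl0 : 0 < l := lt_of_lt_of_le (by positivity) hl
    have e1 : C1 * r ^ 10 * (r ^ 30 / l ^ 7) ≤ 1 / 2 * (1 / r ^ 2000) := by
      have h7 : r ^ 30 / l ^ 7 ≤ r ^ 30 / (r ^ 300) ^ 7 := by gcongr
      have h8 : C1 * r ^ 10 * (r ^ 30 / (r ^ 300) ^ 7) = C1 / r ^ 60 * (1 / r ^ 2000) := by
        have p1 : (r ^ 300) ^ 7 = r ^ 10 * r ^ 30 * r ^ 60 * r ^ 2000 := by ring
        rw [p1]
        field_simp
      have h9 : C1 / r ^ 60 ≤ 1 / 2 := by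
        rw [div_le_iff₀ (by positivity)]
        have h8 : r ≤ r ^ 60 := le_self_pow₀ hr1' (by norm_num)
        linarith
      calc C1 * r ^ 10 * (r ^ 30 / l ^ 7) ≤ C1 * r ^ 10 * (r ^ 30 / (r ^ 300) ^ 7) :=
            mul_le_mul_of_nonneg_left h7 (by positivity)
        _ = C1 / r ^ 60 * (1 / r ^ 2000) := h8
        _ ≤ 1 / 2 * (1 / r ^ 2000) := mul_le_mul_of_nonneg_right h9 (by positivity)
    have e2 : C1 * r ^ 10 * Real.exp (-r / 16) ≤ 1 / 2 * (1 / r ^ 2000) := by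
      have h7 := h6 r (by linarith)
      have h8 : 1 / 2 * (1 / r ^ 2000) = (1 / 2) / r ^ 2000 := by ring
      rw [h8, le_div_iff₀ (by positivity)]
      calc C1 * r ^ 10 * Real.exp (-r / 16) * r ^ 2000 =
            C1 * r ^ 2010 * Real.exp (-r / 16) := by ring
        _ ≤ 1 / 2 := h7
    have e3 : C1 * r ^ 10 * (r ^ 30 / l ^ 7 + Real.exp (-r / 16)) =
        C1 * r ^ 10 * (r ^ 30 / l ^ 7) + C1 * r ^ 10 * Real.exp (-r / 16) := by ring
    rw [e3]
    linarith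
  have hfin : ∀ l : ℝ, (l = r ^ 300 ∨ l = 2 * r ^ 300) →
      2 / r ^ 2000 ≤ |36 * (3 * M2 / l ^ 4 + 5 * M4 / l ^ 6)| →
      ∀ g, NM S3 r (U3 r (r ^ 30) l) g →
      1 / r ^ 2000 ≤ |∫ x, (x 0 0 + x 1 0 + x 2 0) * g x ^ 2 ∂pm| ∧
      (∀ c : Fin 3, c ≠ 0 →
        |∫ x, (x 0 c + x 1 c + x 2 c) * g x ^ 2 ∂pm| ≤ Real.exp (-r / 4)) := by
    intro l hl hbig g hg
    have hla : (r ^ 30) ^ 6 ≤ l := by
      rcases hl with h | h
      · rw [h]; exact hl1
      · rw [h]; exact hl2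
    have hl300 : r ^ 300 ≤ l := by
      rcases hl with h | h
      · rw [h]
      · rw [h]
        have : 0 < r ^ 300 := by positivity
        linarith
    refine ⟨?_, fun c hc => h4 r (r ^ 30) l (by linarith) ha hla g hg c hc⟩
    have h7 := h1 r (r ^ 30) l φ g (by linarith) ha hla hφ hφe hg
    have h8 := h7.trans (herr l hl300)
    have h9 := abs_sub_abs_le_abs_sub (36 * (3 * M2 / l ^ 4 + 5 * M4 / l ^ 6))
      (∫ x, (x 0 0 + x 1 0 + x 2 0) * g x ^ 2 ∂pm)
    rw [abs_sub_comm] at h8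
    have h10 : (2 : ℝ) / r ^ 2000 = 1 / r ^ 2000 + 1 / r ^ 2000 := by ring
    linarith
  by_cases hA : 2 / r ^ 2000 ≤ |36 * (3 * M2 / (r ^ 300) ^ 4 + 5 * M4 / (r ^ 300) ^ 6)|
  · exact ⟨r ^ 300, Or.inl rfl, hfin _ (Or.inl rfl) hA⟩
  · by_cases hB : 2 / r ^ 2000 ≤
      |36 * (3 * M2 / (2 * r ^ 300) ^ 4 + 5 * M4 / (2 * r ^ 300) ^ 6)|
    · exact ⟨2 * r ^ 300, Or.inr rfl, hfin _ (Or.inr rfl) hB⟩
    · exact absurd (arith r M2 M4 hr1' hM (not_le.1 hA) (not_le.1 hB)) id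

end MolDis.H
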