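import Pool.Agent.Lib.MP_59f35a_mp.HStmts

/-!
# MP_59f35a_mp, Theorem D, piece P4: sign changes and permutations of the variables
-/

set_option autoImplicit false

noncomputable section

open MeasureTheory

namespace MolDis.H
namespace Sym

/-- the sign change of one coordinate -/
def sg1 (t : ℝ) : ℝ ≃ₗᵢ[ℝ] ℝ :=
  if t = 1 then LinearIsometryEquiv.refl ℝ ℝ else LinearIsometryEquiv.neg ℝ

theorem sg1_apply {t : ℝ} (ht : t = 1 ∨ t = -1) (y : ℝ) : sg1 t y = t * y := by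
  unfold sg1
  rcases ht with h | h
  · subst h
    simp
  · subst h
    rw [if_neg (by norm_num)]
    simp

/-- the sign changes of the coordinates of `E3` -/
def sgE (s : Fin 3 → ℝ) : E3 ≃ₗᵢ[ℝ] E3 :=
  LinearIsometryEquiv.piLpCongrRight 2 (fun c => sg1 (s c))

theorem sgE_apply {s : Fin 3 → ℝ} (hs : ∀ c, s c = 1 ∨ s c = -1) (y : E3) :
    sgE s y = WithLp.toLp 2 (fun c => s c * y c) := by
  ext c
  simp [sgE, sg1_apply (hs c)]

theorem sgT_eq {σ : Equiv.Perm (Fin 3)} {s : Fin 3 → Fin 3 → ℝ}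
    (hs : ∀ j c, s j c = 1 ∨ s j c = -1) (x : X3) :
    sgT σ s x = fun j => sgE (s j) (x (σ j)) := by
  funext j
  rw [sgE_apply (hs j)]
  rfl

theorem mp_perm [SigmaFinite hm] (σ : Equiv.Perm (Fin 3)) :
    MeasurePreserving (fun x : X3 => fun j => x (σ j)) pm pm := by
  have h := measurePreserving_piCongrLeft (α := fun _ : Fin 3 => E3) (fun _ : Fin 3 => hm) σ.symm
  have e : (fun x : X3 => fun j => x (σ j)) =
      (MeasurableEquiv.piCongrLeft (fun _ : Fin 3 => E3) σ.symm) := by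
    funext x j
    have := Equiv.piCongrLeft_apply_apply (fun _ : Fin 3 => E3) σ.symm x (σ j)
    rw [Equiv.symm_apply_apply] at this
    exact this.symm
  rw [e]
  exact h

theorem mp_sg (h1 : S_hm) {σ : Equiv.Perm (Fin 3)} {s : Fin 3 → Fin 3 → ℝ}
    (hs : ∀ j c, s j c = 1 ∨ s j c = -1) : MeasurePreserving (sgT σ s) pm pm := by
  have : IsProbabilityMeasure hm := h1.1
  have hiso := h1.2.2.2.2.2.2
  have h2 : MeasurePreserving (fun x : X3 => fun j => sgE (s j) (x j)) pm pm := by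
    unfold pm
    exact measurePreserving_pi (fun _ : Fin 3 => hm) (fun _ : Fin 3 => hm)
      (fun j => hiso (sgE (s j)))
  have h3 := h2.comp (mp_perm σ)
  have e : sgT σ s = (fun x : X3 => fun j => sgE (s j) (x j)) ∘ (fun x : X3 => fun j => x (σ j)) := by
    funext x
    rw [sgT_eq hs]
    rfl
  rw [e]
  exact h3

theorem lip_sg {σ : Equiv.Perm (Fin 3)} {s : Fin 3 → Fin 3 → ℝ}
    (hs : ∀ j c, s j c = 1 ∨ s j c = -1) : LipschitzWith 1 (sgT σ s) := by
  refine LipschitzWith.of_dist_le_mul fun x y => ?_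
  rw [NNReal.coe_one, one_mul, dist_pi_le_iff dist_nonneg, sgT_eq hs, sgT_eq hs]
  intro j
  simp only
  rw [LinearIsometryEquiv.dist_map]
  exact dist_le_pi_dist x y (σ j)

theorem bl_sg {σ : Equiv.Perm (Fin 3)} {s : Fin 3 → Fin 3 → ℝ}
    (hs : ∀ j c, s j c = 1 ∨ s j c = -1) {f : X3 → ℝ} (hf : BL f) :
    BL (fun x => f (sgT σ s x)) := by
  obtain ⟨⟨K, hK⟩, B, hB⟩ := hf
  exact ⟨⟨K * 1, hK.comp (lip_sg hs)⟩, B, fun x => hB _⟩

theorem pd_sg {σ : Equiv.Perm (Fin 3)} {s : Fin 3 → Fin 3 → ℝ} (f : X3 → ℝ) (j c : Fin 3) (x : X3) :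
    pd (σ j) c (fun x => f (sgT σ s x)) x = s j c * pd j c f (sgT σ s x) := by
  have e : ∀ t : ℝ, sgT σ s (x + t • (Pi.single (σ j) (ec c) : X3)) =
      sgT σ s x + t • (s j c • (Pi.single j (ec c) : X3)) := by
    intro t
    funext i
    ext d
    by_cases hi : i = j
    · subst hi
      by_cases hd : d = c
      · subst hd
        simp [sgT, ec]
        ring
      · simp [sgT, ec, hd]
    · have hi' : σ i ≠ σ j := fun h => hi (σ.injective h)
      simp [sgT, Pi.single_eq_of_ne hi, Pi.single_eq_of_ne hi']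
  have h1 : pd (σ j) c (fun x => f (sgT σ s x)) x =
      lineDeriv ℝ f (sgT σ s x) (s j c • (Pi.single j (ec c) : X3)) := by
    unfold pd lineDeriv
    simp only [e]
  rw [h1, lineDeriv_smul]
  rfl

theorem int_sg (h1 : S_hm) {σ : Equiv.Perm (Fin 3)} {s : Fin 3 → Fin 3 → ℝ}
    (hs : ∀ j c, s j c = 1 ∨ s j c = -1) {F : X3 → ℝ} (hF : Measurable F) :
    ∫ x, F (sgT σ s x) ∂pm = ∫ x, F x ∂pm := by
  have hmp := mp_sg h1 (σ := σ) hs
  conv_rhs => rw [← hmp.map_eq]
  rw [integral_map hmp.measurable.aemeasurable hF.aestronglyMeasurable]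

theorem dj_sg (h1 : S_hm) (h3 : S_bl) {σ : Equiv.Perm (Fin 3)} {s : Fin 3 → Fin 3 → ℝ}
    (hs : ∀ j c, s j c = 1 ∨ s j c = -1) {f g : X3 → ℝ} (hf : BL f) (hg : BL g) (j : Fin 3) :
    Dj (σ j) (fun x => f (sgT σ s x)) (fun x => g (sgT σ s x)) = Dj j f g := by
  unfold Dj
  refine Finset.sum_congr rfl fun c _ => ?_
  have hmf := ((h3.2.2.1 f hf).2.2.2.1 j c).1
  have hmg := ((h3.2.2.1 g hg).2.2.2.1 j c).1
  rw [← int_sg h1 (σ := σ) hs (F := fun x => pd j c f x * pd j c g x) (hmf.mul hmg)]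
  refine integral_congr_ae (Filter.Eventually.of_forall fun x => ?_)
  simp only
  rw [pd_sg, pd_sg]
  have h2 : s j c * s j c = 1 := by
    rcases hs j c with h | h <;> rw [h] <;> norm_num
  calc s j c * pd j c f (sgT σ s x) * (s j c * pd j c g (sgT σ s x))
      = (s j c * s j c) * (pd j c f (sgT σ s x) * pd j c g (sgT σ s x)) := by ring
    _ = _ := by rw [h2, one_mul]

end Sym

theorem p_sym (h1 : S_hm) (h3 : S_bl) : S_sym := by
  intro σ s hs
  refine ⟨Sym.mp_sg h1 hs, fun f hf => Sym.bl_sg hs hf, ?_, ?_⟩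
  · intro f g hf hg
    unfold DD
    rw [← Equiv.sum_comp σ (fun j => Dj j (fun x => f (sgT σ s x)) (fun x => g (sgT σ s x)))]
    exact Finset.sum_congr rfl fun j _ => Sym.dj_sg h1 h3 hs hf hg j
  · intro f hf j
    exact Sym.dj_sg h1 h3 hs hf hf j

end MolDis.H
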