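import Pool.Agent.Lib.MP_59f35a_mp.HStmts
import Pool.Agent.Lib.MP_59f35a_mp.Mom

/-!
# MP_59f35a_mp : F7 (tail part) and F8 (second moments)
-/

set_option autoImplicit false
set_option linter.unusedSectionVars false

noncomputable section

open MeasureTheory

namespace MolDis.H

namespace TailPart

open MolDis.Mom MolDis.EnBasic

/-! ### the nuclei -/

lemma norm_ec (c : Fin 3) : ‖ec c‖ = 1 := by
  unfold ec
  simp

lemma yv_norm {a l : ℝ} (ha : 0 ≤ a) (hl : 2 * a ≤ l) (m : Fin 3) : ‖yv a l m‖ ≤ l := by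
  have e0 : yv a l 0 = (-(a / 2)) • ec 0 := rfl
  have e1 : yv a l 1 = (a / 2) • ec 0 := rfl
  have e2 : yv a l 2 = l • ec 0 := rfl
  fin_cases m
  · change ‖yv a l 0‖ ≤ l
    rw [e0, norm_smul, norm_ec, Real.norm_eq_abs, mul_one, abs_neg, abs_of_nonneg (by linarith)]
    linarith
  · change ‖yv a l 1‖ ≤ l
    rw [e1, norm_smul, norm_ec, Real.norm_eq_abs, mul_one, abs_of_nonneg (by linarith)]
    linarith
  · change ‖yv a l 2‖ ≤ l
    rw [e2, norm_smul, norm_ec, Real.norm_eq_abs, mul_one, abs_of_nonneg (by linarith)]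

lemma yv_sep {a l : ℝ} (ha : 0 ≤ a) (hl : 2 * a ≤ l) {k k' : Fin 3} (h : k ≠ k') :
    a ≤ ‖yv a l k - yv a l k'‖ := by
  have key : ∀ s t : ℝ, ‖s • ec 0 - t • ec 0‖ = |s - t| := by
    intro s t
    rw [← sub_smul, norm_smul, norm_ec, mul_one, Real.norm_eq_abs]
  have e0 : yv a l 0 = (-(a / 2)) • ec 0 := rfl
  have e1 : yv a l 1 = (a / 2) • ec 0 := rfl
  have e2 : yv a l 2 = l • ec 0 := rfl
  fin_cases k <;> fin_cases k' <;> simp only [ne_eq, not_true_eq_false] at h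
  · change a ≤ ‖yv a l 0 - yv a l 1‖
    rw [e0, e1, key, le_abs]; right; linarith
  · change a ≤ ‖yv a l 0 - yv a l 2‖
    rw [e0, e2, key, le_abs]; right; linarith
  · change a ≤ ‖yv a l 1 - yv a l 0‖
    rw [e0, e1, key, le_abs]; left; linarith
  · change a ≤ ‖yv a l 1 - yv a l 2‖
    rw [e1, e2, key, le_abs]; right; linarith
  · change a ≤ ‖yv a l 2 - yv a l 0‖
    rw [e0, e2, key, le_abs]; left; linarith
  · change a ≤ ‖yv a l 2 - yv a l 1‖
    rw [e1, e2, key, le_abs]; left; linarith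

lemma vdip_le {Z : ℕ} (Y : Fin Z → E3) (X : Fin 3 → Om) :
    ‖vdip Y X‖ ≤ ‖∑ m, Y m‖ + ∑ j, ‖(X j).1‖ := by
  unfold vdip
  exact (norm_sub_le _ _).trans (add_le_add le_rfl (norm_sum_le _ _))

/-! ### dyadic truncations -/

/-- truncated excess -/
def m1 (t s : ℝ) (x : E3) : ℝ := max 0 (min ‖x‖ s - t)

lemma m1_nonneg (t s : ℝ) (x : E3) : 0 ≤ m1 t s x := le_max_left _ _

lemma m1_le (t s : ℝ) (ht : 0 ≤ t) (x : E3) : m1 t s x ≤ ‖x‖ := by
  unfold m1
  refine max_le (norm_nonneg _) ?_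
  have := min_le_left ‖x‖ s
  linarith

lemma m1_meas (t s : ℝ) : Measurable (m1 t s) :=
  measurable_const.max ((measurable_norm.min measurable_const).sub_const t)

lemma m1_step (t s : ℝ) (hs : 0 ≤ s) (x : E3) : m1 t (2 * s) x ≤ m1 t s x + s * ind s x := by
  unfold m1 ind
  split_ifs with h
  · refine max_le ?_ ?_
    · have := le_max_left 0 (min ‖x‖ s - t)
      linarith
    · have h1 : min ‖x‖ s = s := min_eq_right h
      have h2 : min ‖x‖ (2 * s) ≤ 2 * s := min_le_right _ _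
      have h3 := le_max_right 0 (min ‖x‖ s - t)
      rw [h1] at h3 ⊢
      linarith
  · push Not at h
    rw [min_eq_left h.le, min_eq_left (by linarith)]
    simp

lemma m1_self (t : ℝ) (x : E3) : m1 t t x = 0 := by
  unfold m1
  refine max_eq_left ?_
  have := min_le_right ‖x‖ t
  linarith

section gen
variable {ι : Type} [Fintype ι] [DecidableEq ι]

lemma adm_m1 (h3 : S_adm) {t : ℝ} (ht : 0 ≤ t) (s : ℝ) :
    AdmW (fun X : ι → Om => ∑ j, m1 t s (X j).1) := by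
  refine adm_sum h3 Finset.univ (fun j (X : ι → Om) => m1 t s (X j).1) fun j =>
    adm_one h3 j (m1 t s) (m1_meas t s) fun R => ⟨R, fun x hx => ?_⟩
  rw [abs_of_nonneg (m1_nonneg t s x)]
  exact (m1_le t s ht x).trans hx

lemma adm_sumnorm (h3 : S_adm) : AdmW (fun X : ι → Om => ∑ j, ‖(X j).1‖) := by
  refine adm_sum h3 Finset.univ (fun j (X : ι → Om) => ‖(X j).1‖) fun j =>
    adm_one h3 j (fun x => ‖x‖) measurable_norm fun R => ⟨R, fun x hx => ?_⟩
  rwa [abs_norm]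

lemma expv_nonneg {W φ : (ι → Om) → ℝ} (h : ∀ X, φ X ≠ 0 → 0 ≤ W X) : 0 ≤ expv W φ := by
  unfold expv
  refine integral_nonneg fun X => ?_
  by_cases h0 : φ X = 0
  · simp [h0]
  · exact mul_nonneg (h X h0) (sq_nonneg _)

lemma nout_nonneg (t : ℝ) (φ : (ι → Om) → ℝ) : 0 ≤ nout t φ := by
  rw [nout_eq]
  exact expv_nonneg fun X _ => Finset.sum_nonneg fun j _ => ind_nonneg t _

end gen

/-- the dyadic sum for the first moment -/
lemma dyadic (hT : S_tail) (h1 : S_lc) (h3 : S_adm) {Y : Fin 3 → E3} {l : ℝ} (hl : 288 ≤ l)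
    (hY : ∀ m, ‖Y m‖ ≤ l) (hg : 1 / 8 ≤ En 2 Y - En 3 Y) {ψ : (Fin 3 → Om) → ℝ} (hψ : WF ψ)
    (hn : nsq ψ = 1) (hε : 0 ≤ Qf Y ψ - En 3 Y) (n : ℕ) :
    expv (fun X => ∑ j, m1 (4 * l) (2 ^ n * (4 * l)) (X j).1) ψ
      + 2 * ((2 ^ n * (4 * l)) * nout (2 ^ n * (4 * l)) ψ) ≤
      2 * ((4 * l) * nout (4 * l) ψ) + 192 * (Qf Y ψ - En 3 Y) * (2 ^ n * (4 * l)) := by
  have hψ' : LC ψ := hψ.toLC
  set ε : ℝ := Qf Y ψ - En 3 Y with hεd
  have ht0 : 0 ≤ 4 * l := by linarith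
  induction n with
  | zero =>
    have e0 : (2 : ℝ) ^ 0 * (4 * l) = 4 * l := by rw [pow_zero, one_mul]
    rw [e0]
    have h0 : expv (fun X => ∑ j, m1 (4 * l) (4 * l) (X j).1) ψ = 0 := by
      have : (fun X : Fin 3 → Om => ∑ j, m1 (4 * l) (4 * l) (X j).1) = fun _ => (0 : ℝ) := by
        funext X
        exact Finset.sum_eq_zero fun j _ => m1_self _ _
      rw [this, expv_const, zero_mul]
    rw [h0]
    have : 0 ≤ 192 * ε * (4 * l) := by positivity
    linarith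
  | succ n ih =>
    set S : ℝ := 2 ^ n * (4 * l) with hS
    have hpow : (1 : ℝ) ≤ 2 ^ n := one_le_pow₀ (by norm_num)
    have hSs : 4 * l ≤ S := by rw [hS]; nlinarith
    have hSpos : 0 < S := by linarith
    have e : (2 : ℝ) ^ (n + 1) * (4 * l) = 2 * S := by rw [hS]; ring
    rw [e]
    have hstep : expv (fun X => ∑ j, m1 (4 * l) (2 * S) (X j).1) ψ ≤
        expv (fun X => ∑ j, m1 (4 * l) S (X j).1) ψ + S * nout S ψ := by
      rw [nout_eq, ← expv_cmul, ← expv_add h1 hψ' (adm_m1 h3 ht0 _)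
        (adm_cmul h3 _ (adm_cnt h3 _))]
      refine expv_mono h1 hψ' (adm_m1 h3 ht0 _) (adm_add h3 (adm_m1 h3 ht0 _)
        (adm_cmul h3 _ (adm_cnt h3 _))) fun X _ => ?_
      rw [Finset.mul_sum, ← Finset.sum_add_distrib]
      exact Finset.sum_le_sum fun j _ => m1_step _ S hSpos.le _
    have htail := hT 3 Y l (1 / 8) S ψ (by norm_num) hY (by norm_num) hg hSpos (by linarith)
      (by norm_num; linarith) hψ hn
    have hc : 2 * ((3 : ℕ) : ℝ) / (1 / 8) = 48 := by norm_num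
    rw [hc, ← hεd] at htail
    have hN : 0 ≤ nout S ψ := nout_nonneg S ψ
    -- 2 S nout (2S) ≤ 96 S ε + (288 / S) nout S ≤ 96 S ε + (S/2) nout S
    have h5 : 2 * S * nout (2 * S) ψ ≤ 96 * S * ε + S * nout S ψ / 2 := by
      have h6 : 2 * S * nout (2 * S) ψ ≤ 2 * S * (48 * (ε + 3 / S ^ 2 * nout S ψ)) := by
        gcongr
      have h7 : 2 * S * (48 * (ε + 3 / S ^ 2 * nout S ψ)) =
          96 * S * ε + 288 / S * nout S ψ := by
        field_simp
        ring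
      have h8 : 288 / S ≤ S / 2 := by
        rw [div_le_div_iff₀ hSpos (by norm_num)]
        nlinarith
      have h9 : 288 / S * nout S ψ ≤ S / 2 * nout S ψ := by gcongr
      linarith
    have h10 : 2 * (2 * S * nout (2 * S) ψ) ≤ 192 * S * ε + S * nout S ψ := by linarith
    linarith

/-! ### F8 -/

/-- truncated square -/
def m2 (s : ℝ) (x : E3) : ℝ := min ‖x‖ s ^ 2

lemma m2_meas (s : ℝ) : Measurable (m2 s) := (measurable_norm.min measurable_const).pow_const 2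

lemma m2_step (s : ℝ) (hs : 0 ≤ s) (x : E3) : m2 (2 * s) x ≤ m2 s x + 4 * s ^ 2 * ind s x := by
  unfold m2 ind
  split_ifs with h
  · have h1 : min ‖x‖ (2 * s) ≤ 2 * s := min_le_right _ _
    have h0 : 0 ≤ min ‖x‖ (2 * s) := le_min (norm_nonneg _) (by linarith)
    have h2 : min ‖x‖ (2 * s) ^ 2 ≤ (2 * s) ^ 2 := pow_le_pow_left₀ h0 h1 2
    have h3 : 0 ≤ min ‖x‖ s ^ 2 := by positivity
    nlinarith
  · push Not at h
    rw [min_eq_left h.le, min_eq_left (by linarith)]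
    simp

section gen
variable {ι : Type} [Fintype ι] [DecidableEq ι]

lemma adm_m2 (h3 : S_adm) (s : ℝ) : AdmW (fun X : ι → Om => ∑ j, m2 s (X j).1) := by
  refine adm_sum h3 Finset.univ (fun j (X : ι → Om) => m2 s (X j).1) fun j =>
    adm_one h3 j (m2 s) (m2_meas s) fun R => ⟨(|R| + |s|) ^ 2, fun x hx => ?_⟩
  unfold m2
  rw [abs_pow]
  refine pow_le_pow_left₀ (abs_nonneg _) ?_ 2
  rcases min_choice ‖x‖ s with h | h
  · rw [h, abs_norm]
    linarith [le_abs_self R, abs_nonneg s]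
  · rw [h]
    linarith [abs_nonneg R]

/-- the dyadic sum for the second moment -/
lemma moment2_iter (h1 : S_lc) (h3 : S_adm) {φ : (ι → Om) → ℝ} (hφ : LC φ) (hn : nsq φ = 1)
    (C s0 ε : ℝ) (hC : 1 ≤ C) (hs0 : 1 ≤ s0) (hε : 0 ≤ ε)
    (hout : ∀ s : ℝ, s0 ≤ s → nout s φ ≤ C * (ε + 1 / s ^ 6)) (n : ℕ) :
    expv (fun X => ∑ j, m2 (2 ^ n * s0) (X j).1) φ ≤
      Fintype.card ι * s0 ^ 2 + 2 * C * ε * (2 ^ n * s0) ^ 2 +
        6 * C * (1 - 1 / (2 ^ n * s0) ^ 2) := by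
  induction n with
  | zero =>
    have e0 : (2 : ℝ) ^ 0 * s0 = s0 := by rw [pow_zero, one_mul]
    rw [e0]
    have h : expv (fun X => ∑ j, m2 s0 (X j).1) φ ≤ Fintype.card ι * s0 ^ 2 * nsq φ := by
      rw [← expv_const]
      refine expv_mono h1 hφ (adm_m2 h3 _) (adm_const h3 _) fun X _ => ?_
      have h2 : ∀ j ∈ (Finset.univ : Finset ι), m2 s0 (X j).1 ≤ s0 ^ 2 := by
        intro j _
        unfold m2
        exact pow_le_pow_left₀ (le_min (norm_nonneg _) (by linarith)) (min_le_right _ _) 2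
      refine (Finset.sum_le_sum h2).trans ?_
      rw [Finset.sum_const, Finset.card_univ, nsmul_eq_mul]
    rw [hn, mul_one] at h
    have h4 : 0 ≤ 1 - 1 / s0 ^ 2 := by
      rw [sub_nonneg, div_le_one (by positivity)]
      nlinarith
    have h5 : 0 ≤ 2 * C * ε * s0 ^ 2 := by positivity
    have h6 : 0 ≤ 6 * C * (1 - 1 / s0 ^ 2) := mul_nonneg (by linarith) h4
    linarith
  | succ n ih =>
    set S : ℝ := 2 ^ n * s0 with hS
    have hpow : (1 : ℝ) ≤ 2 ^ n := one_le_pow₀ (by norm_num)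
    have hSs : s0 ≤ S := by rw [hS]; nlinarith
    have hS1 : 1 ≤ S := hs0.trans hSs
    have hSpos : 0 < S := by linarith
    have e : (2 : ℝ) ^ (n + 1) * s0 = 2 * S := by rw [hS]; ring
    rw [e]
    have h : expv (fun X => ∑ j, m2 (2 * S) (X j).1) φ ≤
        expv (fun X => ∑ j, m2 S (X j).1) φ + 4 * S ^ 2 * nout S φ := by
      rw [nout_eq, ← expv_cmul, ← expv_add h1 hφ (adm_m2 h3 _) (adm_cmul h3 _ (adm_cnt h3 _))]
      refine expv_mono h1 hφ (adm_m2 h3 _) (adm_add h3 (adm_m2 h3 _)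
        (adm_cmul h3 _ (adm_cnt h3 _))) fun X _ => ?_
      rw [Finset.mul_sum, ← Finset.sum_add_distrib]
      exact Finset.sum_le_sum fun j _ => m2_step S hSpos.le _
    have h2 := hout S hSs
    have h3' : 4 * S ^ 2 * nout S φ ≤ 4 * S ^ 2 * (C * (ε + 1 / S ^ 6)) := by gcongr
    have e1 : 4 * S ^ 2 * (C * (ε + 1 / S ^ 6)) = 4 * C * ε * S ^ 2 + 4 * C * (1 / S ^ 4) := by
      field_simp
    have e2 : 1 / (2 * S) ^ 2 = 1 / 4 * (1 / S ^ 2) := by field_simp; ring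
    have e3 : 1 / S ^ 4 ≤ 1 / S ^ 2 := by
      apply one_div_le_one_div_of_le (by positivity)
      exact pow_le_pow_right₀ hS1 (by norm_num)
    have h7 : 0 ≤ C * ε * S ^ 2 := by positivity
    have h8 : 0 ≤ C * (1 / S ^ 2) := by positivity
    have h9 : C * (1 / S ^ 4) ≤ C * (1 / S ^ 2) := by gcongr
    rw [e2]
    nlinarith

lemma moment2 (h1 : S_lc) (h3 : S_adm) {φ : (ι → Om) → ℝ} (hφ : LC φ) (hn : nsq φ = 1)
    (C s0 ε ρ : ℝ) (hC : 1 ≤ C) (hs0 : 1 ≤ s0) (hε : 0 ≤ ε)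
    (hout : ∀ s : ℝ, s0 ≤ s → nout s φ ≤ C * (ε + 1 / s ^ 6)) (hρ : s0 ≤ ρ)
    (hsupp : ∀ X, φ X ≠ 0 → ∀ j, ‖(X j).1‖ ≤ ρ) :
    expv (fun X => ∑ j, ‖(X j).1‖ ^ 2) φ ≤
      (Fintype.card ι * s0 ^ 2 + 8 * C) * (1 + ρ ^ 2 * ε) := by
  have hs0' : 0 < s0 := by linarith
  obtain ⟨n, hn1, hn2⟩ := exists_nat_pow_near (x := ρ / s0) (y := (2 : ℝ))
    (by rw [le_div_iff₀ hs0']; linarith) (by norm_num)
  rw [le_div_iff₀ hs0'] at hn1
  rw [div_lt_iff₀ hs0'] at hn2
  have hit := moment2_iter h1 h3 hφ hn C s0 ε hC hs0 hε hout (n + 1)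
  set S : ℝ := 2 ^ (n + 1) * s0 with hS
  have hSρ : ρ ≤ S := hn2.le
  have hS2 : S ≤ 2 * ρ := by
    have : S = 2 * (2 ^ n * s0) := by rw [hS]; ring
    linarith
  have hρ1 : 1 ≤ ρ := hs0.trans hρ
  have hS0 : 0 < S := by linarith
  have hm : expv (fun X => ∑ j, ‖(X j).1‖ ^ 2) φ ≤ expv (fun X => ∑ j, m2 S (X j).1) φ := by
    refine expv_mono h1 hφ ?_ (adm_m2 h3 _) fun X hX => ?_
    · refine adm_sum h3 Finset.univ (fun j (X : ι → Om) => ‖(X j).1‖ ^ 2) fun j =>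
        adm_one h3 j (fun x => ‖x‖ ^ 2) (measurable_norm.pow_const 2) fun R => ⟨|R| ^ 2, fun x hx => ?_⟩
      rw [abs_pow, abs_norm]
      exact pow_le_pow_left₀ (norm_nonneg _) (hx.trans (le_abs_self R)) 2
    · refine Finset.sum_le_sum fun j _ => ?_
      unfold m2
      rw [min_eq_left ((hsupp X hX j).trans hSρ)]
  refine hm.trans (hit.trans ?_)
  have h4 : S ^ 2 ≤ 4 * ρ ^ 2 := by
    have := pow_le_pow_left₀ hS0.le hS2 2
    nlinarith
  have h5 : 2 * C * ε * S ^ 2 ≤ 2 * C * ε * (4 * ρ ^ 2) := by gcongr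
  have h6 : 6 * C * (1 - 1 / S ^ 2) ≤ 6 * C * 1 := by
    gcongr
    have : 0 ≤ 1 / S ^ 2 := by positivity
    linarith
  have h7 : 0 ≤ (Fintype.card ι : ℝ) * s0 ^ 2 * (ρ ^ 2 * ε) := by positivity
  nlinarith

end gen

end TailPart

open TailPart MolDis.Mom MolDis.EnBasic

theorem p_mom2 (hT : S_tail) (h1 : S_lc) (h3 : S_adm) (h5 : S_en) : S_mom2 := by
  intro Y hg
  obtain ⟨C, s0, hC, hs0, hout⟩ := tail_iter (Z := 3) (Y := Y) (g := 1 / 8) hT h1 h3 h5
    (by norm_num) (by norm_num) hg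
  set A : ℝ := ‖∑ m, Y m‖ with hA
  have hA0 : 0 ≤ A := norm_nonneg _
  set D : ℝ := 2 * A ^ 2 + 6 * (3 * s0 ^ 2 + 8 * C) + s0 with hD
  have hs2 : 0 ≤ 3 * s0 ^ 2 + 8 * C := by positivity
  refine ⟨D, ?_, fun R ψ hR hψ hn hsupp => ?_⟩
  · rw [hD]; nlinarith [sq_nonneg A]
  have hψ' : LC ψ := hψ.toLC
  have hε : 0 ≤ Qf Y ψ - En 3 Y := eps_nonneg h5 Y hψ hn
  have hRs : s0 ≤ R := by
    have : s0 ≤ D := by rw [hD]; nlinarith [sq_nonneg A]
    linarith
  have hm := moment2 h1 h3 hψ' hn C s0 (Qf Y ψ - En 3 Y) R hC hs0 hε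
    (fun s hs => hout ψ hψ hn s hs) hRs hsupp
  have hW1 : AdmW (fun X : Fin 3 → Om => ∑ j, ‖(X j).1‖ ^ 2) := by
    refine adm_sum h3 Finset.univ (fun j (X : Fin 3 → Om) => ‖(X j).1‖ ^ 2) fun j =>
      adm_one h3 j (fun x => ‖x‖ ^ 2) (measurable_norm.pow_const 2) fun R => ⟨|R| ^ 2, fun x hx => ?_⟩
    rw [abs_pow, abs_norm]
    exact pow_le_pow_left₀ (norm_nonneg _) (hx.trans (le_abs_self R)) 2
  have hW2 : AdmW (fun X : Fin 3 → Om => ‖vdip Y X‖ ^ 2) := by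
    refine (h3 (Fin 3)).1 _ ⟨?_, fun R => ⟨(A + ∑ _j : Fin 3, R) ^ 2, fun X hX => ?_⟩⟩
    · unfold vdip
      refine (Measurable.norm ?_).pow_const 2
      exact measurable_const.sub (Finset.measurable_sum _ fun j _ => (measurable_pi_apply j).fst)
    · rw [abs_pow, abs_norm]
      refine pow_le_pow_left₀ (norm_nonneg _) ?_ 2
      exact (vdip_le Y X).trans (add_le_add le_rfl (Finset.sum_le_sum fun j _ => hX j))
  have hle : expv (fun X => ‖vdip Y X‖ ^ 2) ψ ≤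
      2 * A ^ 2 + 6 * expv (fun X => ∑ j, ‖(X j).1‖ ^ 2) ψ := by
    have h6 : expv (fun X => 2 * A ^ 2 + 6 * ∑ j, ‖(X j).1‖ ^ 2) ψ =
        2 * A ^ 2 + 6 * expv (fun X => ∑ j, ‖(X j).1‖ ^ 2) ψ := by
      rw [expv_add h1 hψ' (adm_const h3 _) (adm_cmul h3 _ hW1), expv_const, hn, mul_one, expv_cmul]
    rw [← h6]
    refine expv_mono h1 hψ' hW2 (adm_add h3 (adm_const h3 _) (adm_cmul h3 _ hW1)) fun X _ => ?_
    have h7 := vdip_le Y X
    have h8 : (∑ j, ‖(X j).1‖) ^ 2 ≤ 3 * ∑ j, ‖(X j).1‖ ^ 2 := by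
      have := sq_sum_le_card_mul_sum_sq (s := (Finset.univ : Finset (Fin 3)))
        (f := fun j => ‖(X j).1‖)
      simpa using this
    have h9 : ‖vdip Y X‖ ^ 2 ≤ (A + ∑ j, ‖(X j).1‖) ^ 2 :=
      pow_le_pow_left₀ (norm_nonneg _) h7 2
    nlinarith [sq_nonneg (A - ∑ j, ‖(X j).1‖)]
  refine hle.trans ?_
  have hcard : (Fintype.card (Fin 3) : ℝ) = 3 := by simp
  rw [hcard] at hm
  have h10 : 0 ≤ R ^ 2 * (Qf Y ψ - En 3 Y) := by positivity
  have h11 : D * (1 + R ^ 2 * (Qf Y ψ - En 3 Y)) = D + D * R ^ 2 * (Qf Y ψ - En 3 Y) := by ring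
  rw [← h11]
  have h12 : 6 * (3 * s0 ^ 2 + 8 * C) + 2 * A ^ 2 ≤ D := by rw [hD]; linarith
  nlinarith [sq_nonneg A]

theorem p_tailpart (hT : S_tail) (h1 : S_lc) (h3 : S_adm) (h5 : S_en) (hims : S_ims)
    (hcut : S_cut) (hloc : S_loc) (hion : S_ion) : S_tailpart := by
  intro hH2 K
  obtain ⟨C, r0, hC, hr0, hL⟩ := hloc hH2 K
  obtain ⟨r1, hr1, hI⟩ := hion hH2
  refine ⟨38 * C + 384, max (max r0 r1) 288, by linarith, ?_, ?_⟩
  · exact hr0.trans ((le_max_left _ _).trans (le_max_left _ _))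
  intro r a l R ψ hr hra hal hlR hψ hn hsupp
  have hr0' : r0 ≤ r := ((le_max_left _ _).trans (le_max_left _ _)).trans hr
  have hr1' : r1 ≤ r := ((le_max_right _ _).trans (le_max_left _ _)).trans hr
  have hr288 : 288 ≤ r := (le_max_right _ _).trans hr
  have hr_pos : 0 < r := by linarith
  have hra' : r ≤ a := by
    have : r ^ 1 ≤ r ^ 4 := pow_le_pow_right₀ (by linarith) (by norm_num)
    linarith [pow_one r]
  have h8ra : 8 * r ≤ a := by
    have h : r ^ 2 ≤ r ^ 4 := pow_le_pow_right₀ (by linarith) (by norm_num)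
    nlinarith
  have ha1 : 1 ≤ a := by linarith
  have hal2 : a ^ 2 ≤ l := by
    have : a ^ 2 ≤ a ^ 6 := pow_le_pow_right₀ ha1 (by norm_num)
    linarith
  have h2al : 2 * a ≤ l := by nlinarith
  have hl288 : 288 ≤ l := by nlinarith
  set Y : Fin 3 → E3 := yv a l with hY
  have hYl : ∀ m, ‖Y m‖ ≤ l := fun m => yv_norm (by linarith) h2al m
  have hsep : ∀ k k' : Fin 3, k ≠ k' → 2 * r ≤ ‖Y k - Y k'‖ := fun k k' h => by
    have := yv_sep (by linarith : 0 ≤ a) h2al h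
    rw [← hY] at this
    linarith
  obtain ⟨hPU, hc1, hc2, -, -, -, -⟩ := hcut (Fin 3) r Y hr_pos hsep
  obtain ⟨hsLC, hsn, hsW, -, -, -⟩ := hims (Fin 3) (Option (Fin 3)) (cellPU r Y) ψ hPU hψ.toLC
  have hg : 1 / 8 ≤ En 2 Y - En 3 Y := hI r a l hr1' hra hal
  have hε : 0 ≤ Qf Y ψ - En 3 Y := eps_nonneg h5 Y hψ hn
  obtain ⟨hbad, -⟩ := hL r a l ψ hr0' hra hal hψ hn
  rw [← hY] at hbad
  set ε : ℝ := Qf Y ψ - En 3 Y with hεd
  have hψ' : LC ψ := hψ.toLC
  have hl0 : 0 ≤ 4 * l := by linarith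
  -- number of electrons outside the ball `4 l`
  have hbm0 : 0 ≤ badm r a l ψ := by
    unfold badm
    refine Finset.sum_nonneg fun α _ => ?_
    split_ifs
    · exact le_rfl
    · exact nsq_nonneg _
  have hnout : nout (4 * l) ψ ≤ 3 * badm r a l ψ := by
    rw [nout_eq, hsW _ (adm_cnt h3 _)]
    unfold badm
    rw [Finset.mul_sum]
    refine Finset.sum_le_sum fun α _ => ?_
    split_ifs with hα
    · rw [mul_zero]
      obtain ⟨τ, hτ⟩ := hα
      have h0 : expv (fun X => ∑ j, ind (4 * l) (X j).1) (sector (cellPU r Y) α ψ) ≤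
          expv (fun _ => (0 : ℝ)) (sector (cellPU r Y) α ψ) := by
        refine expv_mono h1 (hsLC α) (adm_cnt h3 _) (adm_const h3 _) fun X hX => ?_
        refine (Finset.sum_eq_zero fun j _ => ?_).le
        have h2 : cellPU r Y (some (τ j)) (X j).1 ≠ 0 := by
          intro h
          apply hX
          unfold sector
          have : ∏ j, cellPU r Y (α j) (X j).1 = 0 := by
            refine Finset.prod_eq_zero (Finset.mem_univ j) ?_
            rw [hτ]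
            exact h
          rw [this, zero_mul]
        have h4 := hc1 (τ j) (X j).1 h2
        have h6 : ‖(X j).1‖ < r + l := by
          have := norm_sub_norm_le (X j).1 (Y (τ j))
          have := hYl (τ j)
          linarith
        unfold ind
        rw [if_neg]
        push Not
        linarith
      rw [expv_const, zero_mul] at h0
      exact h0
    · have := nout_le h1 h3 (hsLC α) (4 * l)
      rw [nout_eq, Fintype.card_fin] at this
      exact_mod_cast this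
  -- the dyadic sum
  have hR0 : 0 < 4 * l := by linarith
  obtain ⟨n, hn1, hn2⟩ := exists_nat_pow_near (x := R / (4 * l)) (y := (2 : ℝ))
    (by rw [le_div_iff₀ hR0]; linarith) (by norm_num)
  rw [le_div_iff₀ hR0] at hn1
  rw [div_lt_iff₀ hR0] at hn2
  have hdy := dyadic hT h1 h3 hl288 hYl hg hψ hn hε (n + 1)
  set S : ℝ := 2 ^ (n + 1) * (4 * l) with hS
  have hS2 : S ≤ 2 * R := by
    have : S = 2 * (2 ^ n * (4 * l)) := by rw [hS]; ring
    linarith
  have hS0 : 0 < S := by rw [hS]; positivity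
  have hRS : R ≤ S := hn2.le
  have hlS : 4 * l ≤ S := by linarith
  have hNS : 0 ≤ nout S ψ := nout_nonneg S ψ
  have hE : expv (fun X => ∑ j, m1 (4 * l) S (X j).1) ψ ≤ 24 * l * badm r a l ψ + 384 * R * ε := by
    have h6 : 0 ≤ 2 * (S * nout S ψ) := by positivity
    have h7 : 2 * (4 * l * nout (4 * l) ψ) ≤ 2 * (4 * l * (3 * badm r a l ψ)) := by gcongr
    have h8 : 192 * ε * S ≤ 192 * ε * (2 * R) := by gcongr
    linarith
  -- the dipole moment
  have hV : AdmW (fun X : Fin 3 → Om => ‖vdip Y X‖) := by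
    refine (h3 (Fin 3)).1 _ ⟨?_, fun R => ⟨‖∑ m, Y m‖ + ∑ _j : Fin 3, R, fun X hX => ?_⟩⟩
    · unfold vdip
      refine Measurable.norm ?_
      exact measurable_const.sub (Finset.measurable_sum _ fun j _ => (measurable_pi_apply j).fst)
    · rw [abs_norm]
      exact (vdip_le Y X).trans (add_le_add le_rfl (Finset.sum_le_sum fun j _ => hX j))
  have hsumY : ‖∑ m, Y m‖ ≤ l + a := by
    have h6 : ∑ m, Y m = l • ec 0 := by
      rw [hY, Fin.sum_univ_three]
      change (-(a / 2)) • ec 0 + (a / 2) • ec 0 + l • ec 0 = l • ec 0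
      rw [neg_smul, neg_add_cancel, zero_add]
    rw [h6, norm_smul, norm_ec, mul_one, Real.norm_eq_abs, abs_of_nonneg (by linarith)]
    linarith
  have hbound : ∀ α : Fin 3 → Option (Fin 3),
      expv (fun X => ‖vdip Y X‖) (sector (cellPU r Y) α ψ) ≤
        14 * l * nsq (sector (cellPU r Y) α ψ)
          + expv (fun X => ∑ j, m1 (4 * l) S (X j).1) (sector (cellPU r Y) α ψ) := by
    intro α
    rw [← expv_const (14 * l), ← expv_add h1 (hsLC α) (adm_const h3 _) (adm_m1 h3 hl0 _)]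
    refine expv_mono h1 (hsLC α) hV (adm_add h3 (adm_const h3 _) (adm_m1 h3 hl0 _)) fun X hX => ?_
    have hX' : ψ X ≠ 0 := by
      intro h
      apply hX
      unfold sector
      rw [h, mul_zero]
    have h6 : ∀ j, ‖(X j).1‖ ≤ 4 * l + m1 (4 * l) S (X j).1 := by
      intro j
      unfold m1
      rw [min_eq_left ((hsupp X hX' j).trans hRS)]
      have := le_max_right 0 (‖(X j).1‖ - 4 * l)
      linarith
    have h7 : ∑ j, ‖(X j).1‖ ≤ ∑ j : Fin 3, (4 * l + m1 (4 * l) S (X j).1) :=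
      Finset.sum_le_sum fun j _ => h6 j
    rw [Finset.sum_add_distrib, Finset.sum_const, Finset.card_univ, Fintype.card_fin,
      nsmul_eq_mul] at h7
    have h8 := vdip_le Y X
    push_cast at h7
    linarith
  have hmain : (∑ α : Fin 3 → Option (Fin 3),
      if (∃ τ : Equiv.Perm (Fin 3), α = fun j => some (τ j)) then 0
      else expv (fun X => ‖vdip Y X‖) (sector (cellPU r Y) α ψ)) ≤
      14 * l * badm r a l ψ + expv (fun X => ∑ j, m1 (4 * l) S (X j).1) ψ := by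
    rw [hsW _ (adm_m1 h3 hl0 _)]
    unfold badm
    rw [Finset.mul_sum, ← Finset.sum_add_distrib]
    refine Finset.sum_le_sum fun α _ => ?_
    have h6 : 0 ≤ expv (fun X => ∑ j, m1 (4 * l) S (X j).1) (sector (cellPU r Y) α ψ) :=
      expv_nonneg fun X _ => Finset.sum_nonneg fun j _ => m1_nonneg _ _ _
    split_ifs with hα
    · linarith
    · exact hbound α
  refine hmain.trans ?_
  have hlpos : 0 < l := by linarith
  have hRpos : 1 ≤ R := by linarith
  have hq : 0 ≤ 1 / r ^ K := by positivity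
  have h6 : 38 * l * badm r a l ψ ≤ 38 * l * (C * (ε + 1 / r ^ K)) := by gcongr
  have h7 : ε ≤ R * ε := by nlinarith
  have h8 : 38 * l * (C * (ε + 1 / r ^ K)) ≤ 38 * l ^ 2 * (C * (R * ε + 1 / r ^ K)) := by
    have : l ≤ l ^ 2 := by nlinarith
    gcongr
  have h9 : 384 * R * ε ≤ 384 * l ^ 2 * (R * ε + 1 / r ^ K) := by
    have : 1 ≤ l ^ 2 := by nlinarith
    have h10 : 0 ≤ R * ε := by positivity
    calc 384 * R * ε = 384 * 1 * (R * ε + 0) := by ring
      _ ≤ 384 * l ^ 2 * (R * ε + 1 / r ^ K) := by gcongr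
  have h10 : (38 * C + 384) * l ^ 2 * (R * ε + 1 / r ^ K) =
      38 * l ^ 2 * (C * (R * ε + 1 / r ^ K)) + 384 * l ^ 2 * (R * ε + 1 / r ^ K) := by ring
  rw [h10]
  linarith

end MolDis.H
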