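import Pool.Agent.Lib.MP_59f35a_mp.HStmts

/-!
# MP_59f35a_mp : assembly of Theorem D
-/

noncomputable section

open MeasureTheory

namespace MolDis.H.ThmD

open MolDis MolDis.H

/-- `e^{-r/4}` beats every power -/
lemma exists_r (N : ℕ) (κ A : ℝ) (hκ : 0 < κ) : ∃ r : ℝ, A ≤ r ∧ 1 ≤ r ∧
    Real.exp (-r / 4) ≤ κ / r ^ N := by
  have h := Real.tendsto_pow_mul_exp_neg_atTop_nhds_zero N
  have h1 : Filter.Tendsto (fun r : ℝ => r / 4) Filter.atTop Filter.atTop :=
    Filter.tendsto_id.atTop_div_const (by norm_num)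
  have h2 := h.comp h1
  have h3 : ∀ᶠ r : ℝ in Filter.atTop, (r / 4) ^ N * Real.exp (-(r / 4)) < κ / 4 ^ N := by
    have := h2.eventually_lt_const (u := κ / 4 ^ N) (by positivity)
    simpa using this
  obtain ⟨r, hr⟩ := ((h3.and (Filter.eventually_ge_atTop A)).and
    (Filter.eventually_ge_atTop 1)).exists
  refine ⟨r, hr.1.2, hr.2, ?_⟩
  have hr0 : (0 : ℝ) < r := by linarith [hr.2]
  have h4 := hr.1.1
  rw [le_div_iff₀ (by positivity)]
  have h5 : (r / 4) ^ N = r ^ N / 4 ^ N := by rw [div_pow]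
  rw [h5] at h4
  have h6 : -r / 4 = -(r / 4) := by ring
  rw [h6]
  have h7 : (0 : ℝ) < 4 ^ N := by positivity
  have h8 : r ^ N / 4 ^ N * Real.exp (-(r / 4)) = (r ^ N * Real.exp (-(r / 4))) / 4 ^ N := by
    ring
  rw [h8, div_lt_div_iff_of_pos_right h7] at h4
  linarith [mul_comm (r ^ N) (Real.exp (-(r / 4)))]

lemma norm_ec (c : Fin 3) : ‖ec c‖ = 1 := by
  simp [ec]

lemma norm_yv (a l : ℝ) (ha : 0 ≤ a) (hl : 2 * a ≤ l) (i : Fin 3) : ‖yv a l i‖ ≤ l := by
  fin_cases i <;> simp [yv, norm_smul, norm_ec, abs_of_nonneg ha]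
  · linarith
  · linarith
  · rw [abs_of_nonneg (by linarith)]

lemma yv_dist (a l : ℝ) (ha : 0 ≤ a) (hl : 2 * a ≤ l) (i j : Fin 3) (hij : i ≠ j) :
    a ≤ ‖yv a l i - yv a l j‖ := by
  have key : ∀ s t : ℝ, ‖s • ec 0 - t • ec 0‖ = |s - t| := by
    intro s t
    rw [← sub_smul, norm_smul, norm_ec, mul_one, Real.norm_eq_abs]
  fin_cases i <;> fin_cases j <;> simp only [yv] at * <;>
    first
      | exact absurd rfl hij
      | (show a ≤ ‖_ • ec 0 - _ • ec 0‖
         rw [key, le_abs]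
         first
          | (left; linarith)
          | (right; linarith))

/-- sums over good and bad sectors -/
lemma sum_split (F : (Fin 3 → Option (Fin 3)) → ℝ) :
    ∑ α, F α = (∑ τ : Equiv.Perm (Fin 3), F (fun j => some (τ j)))
      + ∑ α : Fin 3 → Option (Fin 3),
        if (∃ τ : Equiv.Perm (Fin 3), α = fun j => some (τ j)) then 0 else F α := by
  classical
  have h1 : ∑ α, F α = (∑ α : Fin 3 → Option (Fin 3),
      if (∃ τ : Equiv.Perm (Fin 3), α = fun j => some (τ j)) then F α else 0)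
      + ∑ α : Fin 3 → Option (Fin 3),
        if (∃ τ : Equiv.Perm (Fin 3), α = fun j => some (τ j)) then 0 else F α := by
    rw [← Finset.sum_add_distrib]
    refine Finset.sum_congr rfl fun α _ => ?_
    split_ifs <;> simp
  rw [h1]
  congr 1
  rw [← Finset.sum_filter]
  symm
  refine Finset.sum_bij (fun τ _ => fun j => some (τ j)) ?_ ?_ ?_ ?_
  · intro τ _
    simp only [Finset.mem_filter, Finset.mem_univ, true_and]
    exact ⟨τ, rfl⟩
  · intro τ _ τ' _ h
    ext j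
    have := congrFun h j
    simp only [Option.some.injEq] at this
    rw [this]
  · intro α hα
    simp only [Finset.mem_filter, Finset.mem_univ, true_and] at hα
    obtain ⟨τ, hτ⟩ := hα
    exact ⟨τ, Finset.mem_univ _, hτ.symm⟩
  · intro τ _
    rfl

lemma vdip_norm_le {M : ℕ} {n : ℕ} (Y : Fin M → E3) (b R : ℝ) (hY : ∀ m, ‖Y m‖ ≤ b)
    (X : Fin n → Om) (hX : ∀ j, ‖(X j).1‖ ≤ R) : ‖vdip Y X‖ ≤ M * b + n * R := by
  unfold vdip
  refine (norm_sub_le _ _).trans (add_le_add ?_ ?_)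
  · refine (norm_sum_le _ _).trans ?_
    refine (Finset.sum_le_sum fun m _ => hY m).trans ?_
    simp
  · refine (norm_sum_le _ _).trans ?_
    refine (Finset.sum_le_sum fun m _ => hX m).trans ?_
    simp

lemma meas_vdip {M n : ℕ} (Y : Fin M → E3) : Measurable (fun X : Fin n → Om => vdip Y X) := by
  unfold vdip
  fun_prop

lemma bdd_vdip {M n : ℕ} (Y : Fin M → E3) (c : Fin 3) :
    BddW (fun X : Fin n → Om => (vdip Y X) c) ∧ BddW (fun X : Fin n → Om => ‖vdip Y X‖) := by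
  obtain ⟨b, hb⟩ : ∃ b : ℝ, ∀ m, ‖Y m‖ ≤ b := by
    refine ⟨∑ m, ‖Y m‖, fun m => ?_⟩
    exact Finset.single_le_sum (f := fun m => ‖Y m‖) (fun i _ => norm_nonneg _) (Finset.mem_univ m)
  have hm := meas_vdip (n := n) Y
  refine ⟨⟨?_, fun R => ⟨M * b + n * R, fun X hX => ?_⟩⟩, ⟨hm.norm, fun R => ⟨M * b + n * R, fun X hX => ?_⟩⟩⟩
  · have hc : Continuous fun v : E3 => v c := by fun_prop
    exact hc.measurable.comp hm
  · exact (PiLp.norm_apply_le _ c).trans (vdip_norm_le Y b R hb X hX)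
  · rw [abs_of_nonneg (norm_nonneg _)]
    exact vdip_norm_le Y b R hb X hX

lemma abs_expv_le (hlc : S_lc) (hadm : S_adm) {n : ℕ} (Y : Fin 3 → E3) (c : Fin 3)
    (φ : (Fin n → Om) → ℝ) (hφ : LC φ) :
    |expv (fun X => (vdip Y X) c) φ| ≤ expv (fun X => ‖vdip Y X‖) φ := by
  have h1 := (hlc (Fin n) φ hφ).2.2.2.2.2.1
  have hA := (hadm (Fin n)).1
  have hb := bdd_vdip (n := n) Y c
  unfold expv
  rw [← Real.norm_eq_abs]
  refine (norm_integral_le_integral_norm _).trans ?_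
  refine integral_mono (h1 _ (hA _ hb.1)).norm (h1 _ (hA _ hb.2)) fun X => ?_
  simp only [Real.norm_eq_abs, abs_mul, abs_of_nonneg (sq_nonneg (φ X))]
  refine mul_le_mul_of_nonneg_right ?_ (sq_nonneg _)
  have := PiLp.norm_apply_le (vdip Y X) c
  rwa [Real.norm_eq_abs] at this

lemma pow_aux {r A : ℝ} (hr : 1 ≤ r) (hA : A ≤ r) {m n : ℕ} (h : m + 1 ≤ n) :
    A * r ^ m ≤ r ^ n := by
  have h1 : A * r ^ m ≤ r * r ^ m := mul_le_mul_of_nonneg_right hA (by positivity)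
  have h2 : r * r ^ m = r ^ (m + 1) := by ring
  exact (h1.trans_eq h2).trans (pow_le_pow_right₀ hr h)

lemma div_aux {r A κ : ℝ} (hr : 1 ≤ r) (hκ : 0 < κ) (hA : A / κ ≤ r) {m n : ℕ} (h : m + 1 ≤ n) :
    A / r ^ n ≤ κ / r ^ m := by
  have hr0 : (0 : ℝ) < r := by linarith
  rw [div_le_div_iff₀ (by positivity) (by positivity)]
  have h1 := pow_aux hr hA h
  have h2 : A / κ * r ^ m * κ = A * r ^ m := by field_simp
  have h3 := mul_le_mul_of_nonneg_right h1 hκ.le
  rw [h2] at h3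
  linarith [mul_comm κ (r ^ n)]

lemma sqrt_add_le' {x y : ℝ} (hx : 0 ≤ x) (hy : 0 ≤ y) : √(x + y ^ 2) ≤ √x + y := by
  rw [Real.sqrt_le_iff]
  have h := Real.sqrt_nonneg x
  refine ⟨by positivity, ?_⟩
  nlinarith [Real.sq_sqrt hx, mul_nonneg h hy]

/-- final arithmetic, small excess -/
lemma fin1 {C2 C3 C6 r l R ε s p t1 t2 t3 x : ℝ} (hC2 : 0 ≤ C2) (hC3 : 0 ≤ C3) (hC6 : 0 ≤ C6)
    (hr : 0 ≤ r) (hR : 1 ≤ R) (hs : 0 ≤ s) (hes : ε ≤ s) (hp : 0 ≤ p)
    (hx : x ≤ C2 * r * (s + t1) + C3 * l ^ 2 * (R * ε + t2) + t3) :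
    x ≤ (C2 * r * t1 + C3 * l ^ 2 * t2 + t3) + (C6 + C2 * r + C3 * l ^ 2 + 6 + p) * R * s := by
  have h1 : C2 * r * s ≤ C2 * r * (R * s) := by
    refine mul_le_mul_of_nonneg_left ?_ (by positivity)
    exact le_mul_of_one_le_left hs hR
  have h2 : C3 * l ^ 2 * (R * ε) ≤ C3 * l ^ 2 * (R * s) := by
    refine mul_le_mul_of_nonneg_left ?_ (by positivity)
    exact mul_le_mul_of_nonneg_left hes (by linarith)
  have h3 : 0 ≤ (C6 + 6 + p) * (R * s) := by positivity
  have e : (C6 + C2 * r + C3 * l ^ 2 + 6 + p) * R * s =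
    C2 * r * (R * s) + C3 * l ^ 2 * (R * s) + (C6 + 6 + p) * (R * s) := by ring
  rw [e]
  have e2 : C2 * r * (s + t1) + C3 * l ^ 2 * (R * ε + t2) + t3 =
    C2 * r * s + C3 * l ^ 2 * (R * ε) + (C2 * r * t1 + C3 * l ^ 2 * t2 + t3) := by ring
  rw [e2] at hx
  linarith

/-- final arithmetic, large excess -/
lemma fin2 {C2 C3 C6 r l R s p δ x : ℝ} (hC2 : 0 ≤ C2) (hC3 : 0 ≤ C3) (hC6 : 0 ≤ C6)
    (hr : 0 ≤ r) (hR : 1 ≤ R) (hs : 1 ≤ s) (hp : 0 ≤ p) (hδ : 0 ≤ δ) (hlR : l ≤ R)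
    (hx : x ≤ (3 * l + 3 * R) + p) :
    x ≤ δ + (C6 + C2 * r + C3 * l ^ 2 + 6 + p) * R * s := by
  have h5 : 3 * l + 3 * R + p ≤ (6 + p) * R := by
    have : p ≤ p * R := le_mul_of_one_le_right hp hR
    linarith
  have h6 : (6 + p) * R ≤ (6 + p) * R * s := le_mul_of_one_le_right (by positivity) hs
  have h7 : 0 ≤ (C6 + C2 * r + C3 * l ^ 2) * R * s := by positivity
  have e : (C6 + C2 * r + C3 * l ^ 2 + 6 + p) * R * s =
    (C6 + C2 * r + C3 * l ^ 2) * R * s + (6 + p) * R * s := by ring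
  rw [e]
  linarith

lemma le_sqrt_self {ε : ℝ} (h0 : 0 ≤ ε) (h1 : ε ≤ 1) : ε ≤ √ε := by
  rw [Real.le_sqrt h0 h0]
  nlinarith

set_option maxHeartbeats 4000000 in
/-- **Theorem D**, assembled -/
theorem p_thmD (hlc : S_lc) (hadm : S_adm) (hen : S_en) (hims : S_ims) (hcut : S_cut)
    (hgap : S_gap) (hsc : S_scalar) (hbd : S_bounds) (hvar : S_var) (hce : S_center)
    (hta : S_tailpart) (hio : S_ion) (hmo : S_mom2) : S_thmD := by
  intro hE2 κ D0 hκ
  obtain ⟨g0, hg0⟩ := hgap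
  obtain ⟨r1, hr1, hsc⟩ := hsc g0 hg0
  obtain ⟨C2, r2, hC2, hr2, hce⟩ := hce hE2 g0 hg0 10000
  obtain ⟨C3, r3, hC3, hr3, hta⟩ := hta hE2 10000
  obtain ⟨r4, hr4, hio⟩ := hio hE2
  obtain ⟨C5, hC5, hbd⟩ := hbd
  have hκ3 : 0 < κ / 3 := by positivity
  obtain ⟨r, hrA, hr1', hexp⟩ := exists_r 4000 (κ / 3)
    (max (max (max r1 r2) (max r3 r4)) (max (max (2 * C5) D0) (max (max 8 (C2 / (κ / 3)))
      (4 * C3 / (κ / 3))))) hκ3
  simp only [max_le_iff] at hrA
  obtain ⟨⟨⟨hR1, hR2⟩, hR3, hR4⟩, ⟨hR5, hRD⟩, ⟨hR8, hRC2⟩, hRC3⟩ := hrA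
  have hr0 : (0 : ℝ) < r := by linarith
  obtain ⟨l, hl, hsc⟩ := hsc r hR1
  set a : ℝ := r ^ 30 with ha
  have hpow : ∀ m n : ℕ, m ≤ n → r ^ m ≤ r ^ n := fun m n h => pow_le_pow_right₀ hr1' h
  have hl0 : r ^ 300 ≤ l := by
    rcases hl with h | h
    · exact h.ge
    · have : (0 : ℝ) < r ^ 300 := by positivity
      linarith
  have hl2 : l ≤ 2 * r ^ 300 := by
    rcases hl with h | h
    · have : (0 : ℝ) < r ^ 300 := by positivity
      linarith
    · exact h.le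
  have hra : r ^ 4 ≤ a := hpow 4 30 (by norm_num)
  have hal : a ^ 6 ≤ l := by
    have : a ^ 6 = r ^ 180 := by rw [ha, ← pow_mul]
    rw [this]
    exact (hpow 180 300 (by norm_num)).trans hl0
  have h8r : 8 * r ≤ a := by
    have := pow_aux hr1' hR8 (m := 1) (n := 30) (by norm_num)
    simpa using this
  have h2a : 2 * a ≤ l := by
    have := pow_aux (A := 2) hr1' (by linarith) (m := 30) (n := 300) (by norm_num)
    exact this.trans hl0
  have ha0 : 0 < a := by positivity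
  have hlpos : 0 < l := by linarith
  have hra' : r ≤ a := by linarith
  have hl1 : 1 ≤ l := by linarith
  -- a near minimiser
  obtain ⟨hmV, hmW, hV, -, hW, -⟩ := hbd r a l hr1' h8r h2a
  have hU : ∀ x, |U3 r a l x| ≤ 1 := by
    intro x
    have h1 := hV x
    have h2 := hW x
    have h3 : C5 * r ^ 2 / a ^ 3 ≤ 1 / 2 := by
      have h31 : a ^ 3 = r ^ 90 := by rw [ha, ← pow_mul]
      rw [h31, div_le_div_iff₀ (by positivity) (by norm_num)]
      have := pow_aux (A := 2 * C5) hr1' hR5 (m := 2) (n := 90) (by norm_num)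
      linarith
    have h4 : C5 * r ^ 2 / l ^ 3 ≤ 1 / 2 := by
      refine le_trans ?_ h3
      refine div_le_div_of_nonneg_left (by positivity) (by positivity) ?_
      exact pow_le_pow_left₀ ha0.le (by linarith) 3
    calc |U3 r a l x| ≤ |V12 r a x| + |W3 r a l x| := abs_add_le _ _
      _ ≤ 1 / 2 + 1 / 2 := add_le_add (h1.trans h3) (h2.trans h4)
      _ = 1 := by norm_num
  have hmU : Measurable (U3 r a l) := hmV.add hmW
  obtain ⟨-, -, hnm, -⟩ := hvar S3 r (U3 r a l) ⟨0, Finset.mem_univ _⟩ hr1' hmU hU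
  obtain ⟨g, hgb, hgn, hge⟩ := hnm (Real.exp (-r)) (Real.exp_pos _)
  have hg : NM S3 r (U3 r a l) g := ⟨hgb, hgn, hge⟩
  obtain ⟨hbig, htr⟩ := hsc g hg
  set I : Fin 3 → ℝ := fun c => ∫ x, (x 0 c + x 1 c + x 2 c) * g x ^ 2 ∂pm with hI
  have hbig' : 1 / r ^ 2000 ≤ |I 0| := hbig
  have hdist := yv_dist a l ha0.le h2a
  have hYl := norm_yv a l ha0.le h2a
  have hion := hio r a l hR4 hra hal
  obtain ⟨C6, hC6, hmo⟩ := hmo (yv a l) hion
  set p0 : ℝ := - I 0 with hp0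
  have hp0a : 1 / r ^ 2000 ≤ |p0| := by rw [hp0, abs_neg]; exact hbig'
  have hp0ne : p0 ≠ 0 := by
    intro h
    rw [h, abs_zero] at hp0a
    have : (0 : ℝ) < 1 / r ^ 2000 := by positivity
    linarith
  have hp0sq : 1 / r ^ 4000 ≤ p0 ^ 2 := by
    have h1 : (1 / r ^ 2000) ^ 2 ≤ |p0| ^ 2 := pow_le_pow_left₀ (by positivity) hp0a 2
    rw [sq_abs, div_pow, one_pow, ← pow_mul] at h1
    exact h1
  set δ0 : ℝ := C2 * r / r ^ 5000 + C3 * l ^ 2 / r ^ 10000 + Real.exp (-r / 4) with hδ0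
  have hδnn : 0 ≤ δ0 := by positivity
  have hδ : δ0 ≤ κ * p0 ^ 2 := by
    have h1 : C2 * r / r ^ 5000 ≤ κ / 3 / r ^ 4000 := by
      have h11 : C2 * r / r ^ 5000 = C2 / r ^ 4999 := by
        rw [show (5000 : ℕ) = 4999 + 1 from rfl, pow_succ]
        field_simp
      rw [h11]
      exact div_aux hr1' hκ3 hRC2 (by norm_num)
    have h2 : C3 * l ^ 2 / r ^ 10000 ≤ κ / 3 / r ^ 4000 := by
      have h21 : C3 * l ^ 2 / r ^ 10000 ≤ 4 * C3 / r ^ 9400 := by
        rw [div_le_div_iff₀ (by positivity) (by positivity)]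
        have h22 : l ^ 2 ≤ (2 * r ^ 300) ^ 2 := pow_le_pow_left₀ hlpos.le hl2 2
        have h23 : (2 * r ^ 300) ^ 2 * r ^ 9400 = 4 * r ^ 10000 := by
          rw [mul_pow, ← pow_mul, mul_assoc, ← pow_add]
          norm_num
        have h24 : l ^ 2 * r ^ 9400 ≤ 4 * r ^ 10000 := by
          rw [← h23]
          exact mul_le_mul_of_nonneg_right h22 (by positivity)
        have h25 : C3 * (l ^ 2 * r ^ 9400) ≤ C3 * (4 * r ^ 10000) :=
          mul_le_mul_of_nonneg_left h24 (by linarith)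
        linarith
      exact h21.trans (div_aux hr1' hκ3 hRC3 (by norm_num))
    have h3 : 3 * (κ / 3 / r ^ 4000) = κ * (1 / r ^ 4000) := by ring
    have h4 : κ * (1 / r ^ 4000) ≤ κ * p0 ^ 2 := mul_le_mul_of_nonneg_left hp0sq hκ.le
    linarith
  refine ⟨yv a l, p0, δ0, C6 + C2 * r + C3 * l ^ 2 + 6 + |p0|, max (8 * l) C6, ?_, ?_, hp0ne, hδnn,
    hδ, ?_, hion, ?_⟩
  · intro i j hij
    exact (hRD.trans hra').trans (hdist i j hij)
  · intro i j hij
    by_contra hne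
    have := hdist i j hne
    rw [hij, sub_self, norm_zero] at this
    linarith
  · have : 0 ≤ C2 * r + C3 * l ^ 2 + |p0| := by positivity
    linarith
  intro R ψ hR hψ hn hsupp
  have hR8l : 8 * l ≤ R := (le_max_left _ _).trans hR
  have hRC6 : C6 ≤ R := (le_max_right _ _).trans hR
  have hRpos : 0 < R := by linarith
  set ε : ℝ := Qf (yv a l) ψ - En 3 (yv a l) with hε
  have hε0 : 0 ≤ ε := by
    have := hen.2.1 (Fin 3) (Fin 3) (yv a l) ψ hψ
    rw [hn, mul_one, Fintype.card_fin] at this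
    linarith
  have hsq0 : 0 ≤ √ε := Real.sqrt_nonneg _
  refine ⟨fun c => ?_, ?_⟩
  · have hpc : |p0 * ec 0 c| ≤ |p0| := by
      rw [abs_mul]
      have : |ec 0 c| ≤ 1 := by
        have := PiLp.norm_apply_le (ec 0) c
        rw [norm_ec, Real.norm_eq_abs] at this
        exact this
      nlinarith [abs_nonneg p0]
    by_cases hε1 : ε ≤ 1
    · -- small excess
      have hPU := hcut (Fin 3) r (yv a l) hr0 (fun k k' hk => by linarith [hdist k k' hk])
      have himsE := (hims (Fin 3) (Option (Fin 3)) (cellPU r (yv a l)) ψ hPU.1 hψ.toLC)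
      have hdec := himsE.2.2.1 (fun X => (vdip (yv a l) X) c)
        ((hadm (Fin 3)).1 _ (bdd_vdip (yv a l) c).1)
      rw [sum_split] at hdec
      have hcen := hce r a l ψ g c hR2 hra hal hψ hn hg hε1
      have htail := hta r a l R ψ hR3 hra hal hR8l hψ hn hsupp
      set G : ℝ := ∑ τ : Equiv.Perm (Fin 3), expv (fun X => (vdip (yv a l) X) c)
        (sector (cellPU r (yv a l)) (fun j => some (τ j)) ψ) with hG
      set Bd : ℝ := ∑ α : Fin 3 → Option (Fin 3),
        if (∃ τ : Equiv.Perm (Fin 3), α = fun j => some (τ j)) then 0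
        else expv (fun X => (vdip (yv a l) X) c) (sector (cellPU r (yv a l)) α ψ) with hBd
      have hBdle : |Bd| ≤ C3 * l ^ 2 * (R * ε + 1 / r ^ 10000) := by
        refine le_trans ?_ htail
        rw [hBd]
        refine (Finset.abs_sum_le_sum_abs _ _).trans (Finset.sum_le_sum fun α _ => ?_)
        split_ifs
        · simp
        · exact abs_expv_le hlc hadm _ c _ (himsE.1 α)
      have hsqrt : √(ε + 1 / r ^ 10000) ≤ √ε + 1 / r ^ 5000 := by
        have h1 : (1 : ℝ) / r ^ 10000 = (1 / r ^ 5000) ^ 2 := by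
          rw [div_pow, one_pow, ← pow_mul]
        rw [h1]
        exact sqrt_add_le' hε0 (by positivity)
      have hcen' : |G + I c| ≤ C2 * r * (√ε + 1 / r ^ 5000) :=
        hcen.trans (mul_le_mul_of_nonneg_left hsqrt (by positivity))
      have hIc : |- I c - p0 * ec 0 c| ≤ Real.exp (-r / 4) := by
        by_cases hc : c = 0
        · subst hc
          have : (ec 0) 0 = 1 := by simp [ec]
          rw [this, hp0, mul_one, sub_self, abs_zero]
          positivity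
        · have : (ec 0) c = 0 := by simp [ec, hc]
          rw [this, mul_zero, sub_zero, abs_neg]
          exact htr c hc
      have hεs : ε ≤ √ε := le_sqrt_self hε0 hε1
      have hfin : |expv (fun X => (vdip (yv a l) X) c) ψ - p0 * ec 0 c| ≤
          C2 * r * (√ε + 1 / r ^ 5000) + C3 * l ^ 2 * (R * ε + 1 / r ^ 10000)
            + Real.exp (-r / 4) := by
        rw [hdec]
        have : G + Bd - p0 * ec 0 c = (G + I c) + Bd + (- I c - p0 * ec 0 c) := by ring
        rw [this]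
        exact (abs_add_three _ _ _).trans (add_le_add_three hcen' hBdle hIc)
      have e1 : C2 * r / r ^ 5000 = C2 * r * (1 / r ^ 5000) := by ring
      have e2 : C3 * l ^ 2 / r ^ 10000 = C3 * l ^ 2 * (1 / r ^ 10000) := by ring
      rw [hδ0, e1, e2]
      exact fin1 (by linarith) (by linarith) (by linarith) hr0.le (by linarith) hsq0 hεs
        (abs_nonneg p0) hfin
    · -- large excess
      push Not at hε1
      have h1 := abs_expv_le hlc hadm (yv a l) c ψ hψ.toLC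
      have hb := (bdd_vdip (n := 3) (yv a l) c).2
      have h2 : expv (fun X => ‖vdip (yv a l) X‖) ψ ≤ (3 * l + 3 * R) * nsq ψ := by
        have hint := (hlc (Fin 3) ψ hψ.toLC)
        unfold expv nsq
        rw [← integral_const_mul]
        refine integral_mono (hint.2.2.2.2.2.1 _ ((hadm (Fin 3)).1 _ hb))
          (hint.2.2.2.2.2.2.const_mul _) fun X => ?_
        by_cases hX : ψ X = 0
        · simp [hX]
        · refine mul_le_mul_of_nonneg_right ?_ (sq_nonneg _)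
          have := vdip_norm_le (yv a l) l R hYl X (hsupp X hX)
          simpa using this
      rw [hn, mul_one] at h2
      have h3 : 1 ≤ √ε := by rw [Real.one_le_sqrt]; exact hε1.le
      have h4 : |expv (fun X => (vdip (yv a l) X) c) ψ - p0 * ec 0 c| ≤ (3 * l + 3 * R) + |p0| :=
        (abs_sub _ _).trans (add_le_add (h1.trans h2) hpc)
      exact fin2 (by linarith) (by linarith) (by linarith) hr0.le (by linarith) h3
        (abs_nonneg p0) hδnn (by linarith) h4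
  · have h := hmo R ψ hRC6 hψ hn hsupp
    refine h.trans ?_
    have h1 : 0 ≤ C2 * r + C3 * l ^ 2 + 6 + |p0| := by positivity
    have h2 : 0 ≤ (C2 * r + C3 * l ^ 2 + 6 + |p0|) * (R ^ 2 * ε) := by positivity
    have e : C6 + C2 * r + C3 * l ^ 2 + 6 + |p0| + (C6 + C2 * r + C3 * l ^ 2 + 6 + |p0|) * R ^ 2 * ε
      = C6 + C6 * R ^ 2 * ε + (C2 * r + C3 * l ^ 2 + 6 + |p0|)
        + (C2 * r + C3 * l ^ 2 + 6 + |p0|) * (R ^ 2 * ε) := by ring
    rw [e]
    linarith

end MolDis.H.ThmD
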