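import Pool.Agent.Lib.MP_59f35a_mp.HStmts2
import Pool.Agent.Lib.MP_59f35a_mp.H.ThmD

/-!
# MP_59f35a_mp : Theorem D in the form used by the composite
-/

set_option autoImplicit false

noncomputable section

open MeasureTheory

namespace MolDis.H.ThmD

open MolDis MolDis.H

/-- `r^N e^{-r/16}` is small -/
lemma exists_small (N : ℕ) (C : ℝ) (hC : 0 < C) : ∃ r0 : ℝ, 1 ≤ r0 ∧ ∀ r : ℝ, r0 ≤ r →
    C * (r ^ N * Real.exp (-r / 16)) ≤ 1 / 8 := by
  have h := Real.tendsto_pow_mul_exp_neg_atTop_nhds_zero N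
  have h1 : Filter.Tendsto (fun r : ℝ => r / 16) Filter.atTop Filter.atTop :=
    Filter.tendsto_id.atTop_div_const (by norm_num)
  have h2 := h.comp h1
  have h3 : ∀ᶠ r : ℝ in Filter.atTop, (r / 16) ^ N * Real.exp (-(r / 16)) < 1 / (8 * C * 16 ^ N) := by
    have := h2.eventually_lt_const (u := 1 / (8 * C * 16 ^ N)) (by positivity)
    simpa using this
  obtain ⟨r0, hr0⟩ := Filter.eventually_atTop.mp h3
  refine ⟨max r0 1, le_max_right _ _, fun r hr => ?_⟩
  have h4 := hr0 r ((le_max_left _ _).trans hr)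
  have h6 : -r / 16 = -(r / 16) := by ring
  rw [h6]
  have h5 : (r / 16) ^ N = r ^ N / 16 ^ N := by rw [div_pow]
  rw [h5] at h4
  have h7 : (0 : ℝ) < 16 ^ N := by positivity
  rw [lt_div_iff₀ (by positivity)] at h4
  have h8 : r ^ N / 16 ^ N * Real.exp (-(r / 16)) * (8 * C * 16 ^ N) =
    8 * (C * (r ^ N * Real.exp (-(r / 16)))) := by
    field_simp
  rw [h8] at h4
  linarith

/-- the dipole moment is at most one -/
lemma I0_le (hdip : S_dip) (hMh : S_Mh) (heven : S_even) {g0 : ℝ} (hg0 : HGap g0) :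
    ∃ r0 : ℝ, 1 ≤ r0 ∧ ∀ (r l : ℝ) (g : X3 → ℝ), r0 ≤ r → r ^ 300 ≤ l →
      NM S3 r (U3 r (r ^ 30) l) g →
      |∫ x, (x 0 0 + x 1 0 + x 2 0) * g x ^ 2 ∂pm| ≤ 1 := by
  obtain ⟨C1, r1, hC1, hr1, hdip⟩ := hdip g0 hg0
  obtain ⟨C2, r2, hC2, hr2, hMh⟩ := hMh g0 hg0
  obtain ⟨r3, hr3, heven⟩ := heven g0 hg0
  obtain ⟨r4, hr4, hsm⟩ := exists_small 10 C1 (by linarith)
  refine ⟨max (max r1 r2) (max (max r3 r4) (max (8 * C1) (4000 * C2))), ?_, ?_⟩
  · exact hr1.trans ((le_max_left _ _).trans (le_max_left _ _))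
  intro r l g hr hl hg
  simp only [max_le_iff] at hr
  obtain ⟨⟨h1, h2⟩, ⟨h3, h4⟩, h5, h6⟩ := hr
  have hr1' : 1 ≤ r := hr1.trans h1
  have hr0 : 0 < r := by linarith
  set a : ℝ := r ^ 30 with ha
  have hpow : ∀ m n : ℕ, m ≤ n → r ^ m ≤ r ^ n := fun m n h => pow_le_pow_right₀ hr1' h
  have hra : r ^ 4 ≤ a := hpow 4 30 (by norm_num)
  have hal : a ^ 6 ≤ l := by
    have : a ^ 6 = r ^ 180 := by rw [ha, ← pow_mul]
    rw [this]
    exact (hpow 180 300 (by norm_num)).trans hl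
  have ha1 : 1 ≤ a := one_le_pow₀ hr1'
  have ha0 : 0 < a := by linarith
  have hl1 : 1 ≤ l := (one_le_pow₀ hr1').trans hl
  have hl0 : 0 < l := by linarith
  obtain ⟨φ, hφ, hφe⟩ := heven r a h3 hra
  have hd := hdip r a l φ g h1 hra hal hφ hφe hg
  obtain ⟨-, hM2, hM4⟩ := hMh r a φ h2 hra hφ
  have hexp1 : Real.exp (-r / 8) ≤ 1 := by
    rw [Real.exp_le_one_iff]; linarith
  have hsum : 1 / a ^ 6 + Real.exp (-r / 8) ≤ 2 := by
    have : 1 / a ^ 6 ≤ 1 := by
      rw [div_le_one (by positivity)]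
      exact one_le_pow₀ ha1
    linarith
  have hsum0 : 0 ≤ 1 / a ^ 6 + Real.exp (-r / 8) := by positivity
  have hM2' : |ML a 2 φ| ≤ 2 * C2 * r ^ 38 := by
    refine hM2.trans ?_
    have e : C2 * a * r ^ 8 = C2 * r ^ 38 := by rw [ha]; ring
    rw [e]
    calc C2 * r ^ 38 * (1 / a ^ 6 + Real.exp (-r / 8)) ≤ C2 * r ^ 38 * 2 := by gcongr
      _ = 2 * C2 * r ^ 38 := by ring
  have hM4' : |ML a 4 φ| ≤ 2 * C2 * r ^ 98 := by
    refine hM4.trans ?_
    have e : C2 * a ^ 3 * r ^ 8 = C2 * r ^ 98 := by rw [ha]; ring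
    rw [e]
    calc C2 * r ^ 98 * (1 / a ^ 6 + Real.exp (-r / 8)) ≤ C2 * r ^ 98 * 2 := by gcongr
      _ = 2 * C2 * r ^ 98 := by ring
  have hl4 : r ^ 99 ≤ l ^ 4 := by
    have h7 : (r ^ 300) ^ 4 ≤ l ^ 4 := pow_le_pow_left₀ (by positivity) hl 4
    rw [← pow_mul] at h7
    exact (hpow 99 1200 (by norm_num)).trans h7
  have hl6 : r ^ 99 ≤ l ^ 6 := by
    have h7 : (r ^ 300) ^ 6 ≤ l ^ 6 := pow_le_pow_left₀ (by positivity) hl 6
    rw [← pow_mul] at h7
    exact (hpow 99 1800 (by norm_num)).trans h7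
  have hA : |3 * ML a 2 φ / l ^ 4| ≤ 1 / 576 := by
    rw [abs_div, abs_mul, abs_of_pos (show (0 : ℝ) < 3 by norm_num),
      abs_of_pos (show (0 : ℝ) < l ^ 4 by positivity), div_le_div_iff₀ (by positivity) (by norm_num)]
    have h8 : r ^ 38 ≤ r ^ 98 := hpow 38 98 (by norm_num)
    have h9 : 4000 * C2 * r ^ 98 ≤ r ^ 99 := by
      have : 4000 * C2 * r ^ 98 ≤ r * r ^ 98 := mul_le_mul_of_nonneg_right h6 (by positivity)
      calc 4000 * C2 * r ^ 98 ≤ r * r ^ 98 := this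
        _ = r ^ 99 := by ring
    have h10 : C2 * r ^ 38 ≤ C2 * r ^ 98 := mul_le_mul_of_nonneg_left h8 (by linarith)
    have h00 : 0 ≤ C2 * r ^ 98 := by positivity
    linarith
  have hB : |5 * ML a 4 φ / l ^ 6| ≤ 5 / 1000 := by
    rw [abs_div, abs_mul, abs_of_pos (show (0 : ℝ) < 5 by norm_num),
      abs_of_pos (show (0 : ℝ) < l ^ 6 by positivity), div_le_div_iff₀ (by positivity) (by norm_num)]
    have h9 : 4000 * C2 * r ^ 98 ≤ r ^ 99 := by
      have : 4000 * C2 * r ^ 98 ≤ r * r ^ 98 := mul_le_mul_of_nonneg_right h6 (by positivity)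
      calc 4000 * C2 * r ^ 98 ≤ r * r ^ 98 := this
        _ = r ^ 99 := by ring
    have h00 : 0 ≤ C2 * r ^ 98 := by positivity
    linarith
  have hE : C1 * r ^ 10 * (a / l ^ 7 + Real.exp (-r / 16)) ≤ 1 / 4 := by
    have h11 : C1 * (r ^ 10 * Real.exp (-r / 16)) ≤ 1 / 8 := hsm r h4
    have h12 : C1 * r ^ 10 * (a / l ^ 7) ≤ 1 / 8 := by
      have h7 : (r ^ 300) ^ 7 ≤ l ^ 7 := pow_le_pow_left₀ (by positivity) hl 7
      rw [← pow_mul] at h7
      have h13 : r ^ 41 ≤ l ^ 7 := (hpow 41 2100 (by norm_num)).trans h7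
      have e : C1 * r ^ 10 * (a / l ^ 7) = C1 * r ^ 40 / l ^ 7 := by rw [ha]; ring
      rw [e, div_le_div_iff₀ (by positivity) (by norm_num)]
      have : 8 * C1 * r ^ 40 ≤ r * r ^ 40 := mul_le_mul_of_nonneg_right h5 (by positivity)
      have e2 : r * r ^ 40 = r ^ 41 := by ring
      linarith
    calc C1 * r ^ 10 * (a / l ^ 7 + Real.exp (-r / 16)) =
        C1 * r ^ 10 * (a / l ^ 7) + C1 * (r ^ 10 * Real.exp (-r / 16)) := by ring
      _ ≤ 1 / 8 + 1 / 8 := add_le_add h12 h11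
      _ = 1 / 4 := by norm_num
  have hm : |36 * (3 * ML a 2 φ / l ^ 4 + 5 * ML a 4 φ / l ^ 6)| ≤ 1 / 2 := by
    rw [abs_mul, abs_of_pos (show (0 : ℝ) < 36 by norm_num)]
    have := abs_add_le (3 * ML a 2 φ / l ^ 4) (5 * ML a 4 φ / l ^ 6)
    linarith
  have := abs_sub_abs_le_abs_sub (∫ x, (x 0 0 + x 1 0 + x 2 0) * g x ^ 2 ∂pm)
    (36 * (3 * ML a 2 φ / l ^ 4 + 5 * ML a 4 φ / l ^ 6))
  linarith

lemma inner_eq (t v : E3) : (inner ℝ t v : ℝ) = ∑ c, t c * v c := by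
  rw [PiLp.inner_apply]
  exact Finset.sum_congr rfl fun c _ => by simp [mul_comm]

set_option maxHeartbeats 4000000 in
/-- **Theorem D**, assembled, uniform second moment -/
theorem p_thmD' (hlc : S_lc) (hadm : S_adm) (hen : S_en) (hims : S_ims) (hcut : S_cut)
    (hgap : S_gap) (hsc : S_scalar) (hbd : S_bounds) (hvar : S_var) (hce : S_center)
    (hta : S_tailpart) (hio : S_ion) (hmo : S_mom2v) (hdip : S_dip) (hMh : S_Mh)
    (heven : S_even) : S_thmD' := by
  intro hE2 κ D0 hκ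
  obtain ⟨g0, hg0⟩ := hgap
  obtain ⟨r1, hr1, hsc⟩ := hsc g0 hg0
  obtain ⟨C2, r2, hC2, hr2, hce⟩ := hce hE2 g0 hg0 10000
  obtain ⟨C3, r3, hC3, hr3, hta⟩ := hta hE2 10000
  obtain ⟨r4, hr4, hio⟩ := hio hE2
  obtain ⟨C5, hC5, hbd⟩ := hbd
  obtain ⟨C7, r7, hC7, hr7, hmo⟩ := hmo hE2
  obtain ⟨r8, hr8, hI0⟩ := I0_le hdip hMh heven hg0
  have hC70 : 0 < C7 := by linarith
  set κ' : ℝ := κ / (6 * C7) with hκ'
  have hκ'0 : 0 < κ' := by positivity
  have hκ3 : 0 < κ' / 3 := by positivity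
  obtain ⟨r, hrA, hr1', hexp⟩ := exists_r 4300 (κ' / 3)
    (max (max (max (max r1 r2) (max r3 r4)) (max (max (2 * C5) D0) (max (max 8 (C2 / (κ' / 3)))
      (4 * C3 / (κ' / 3))))) (max r7 r8)) hκ3
  simp only [max_le_iff] at hrA
  obtain ⟨⟨⟨⟨hR1, hR2⟩, hR3, hR4⟩, ⟨hR5, hRD⟩, ⟨hR8, hRC2⟩, hRC3⟩, hR7, hRI⟩ := hrA
  have hr0 : (0 : ℝ) < r := by linarith
  obtain ⟨l, hl, hsc⟩ := hsc r hR1
  set a : ℝ := r ^ 30 with ha
  have hpow : ∀ m n : ℕ, m ≤ n → r ^ m ≤ r ^ n := fun m n h => pow_le_pow_right₀ hr1' h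
  have hl0 : r ^ 300 ≤ l := by
    rcases hl with h | h
    · exact h.ge
    · have : (0 : ℝ) < r ^ 300 := by positivity
      linarith
  have hl2 : l ≤ 2 * r ^ 300 := by
    rcases hl with h | h
    · have : (0 : ℝ) < r ^ 300 := by positivity
      linarith
    · exact h.le
  have hra : r ^ 4 ≤ a := hpow 4 30 (by norm_num)
  have hal : a ^ 6 ≤ l := by
    have : a ^ 6 = r ^ 180 := by rw [ha, ← pow_mul]
    rw [this]
    exact (hpow 180 300 (by norm_num)).trans hl0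
  have h8r : 8 * r ≤ a := by
    have := pow_aux hr1' hR8 (m := 1) (n := 30) (by norm_num)
    simpa using this
  have h2a : 2 * a ≤ l := by
    have := pow_aux (A := 2) hr1' (by linarith) (m := 30) (n := 300) (by norm_num)
    exact this.trans hl0
  have ha0 : 0 < a := by positivity
  have hlpos : 0 < l := by linarith
  have hra' : r ≤ a := by linarith
  have hl1 : 1 ≤ l := by linarith
  -- a near minimiser
  obtain ⟨hmV, hmW, hV, -, hW, -⟩ := hbd r a l hr1' h8r h2a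
  have hU : ∀ x, |U3 r a l x| ≤ 1 := by
    intro x
    have h1 := hV x
    have h2 := hW x
    have h3 : C5 * r ^ 2 / a ^ 3 ≤ 1 / 2 := by
      have h31 : a ^ 3 = r ^ 90 := by rw [ha, ← pow_mul]
      rw [h31, div_le_div_iff₀ (by positivity) (by norm_num)]
      have := pow_aux (A := 2 * C5) hr1' hR5 (m := 2) (n := 90) (by norm_num)
      linarith
    have h4 : C5 * r ^ 2 / l ^ 3 ≤ 1 / 2 := by
      refine le_trans ?_ h3
      refine div_le_div_of_nonneg_left (by positivity) (by positivity) ?_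
      exact pow_le_pow_left₀ ha0.le (by linarith) 3
    calc |U3 r a l x| ≤ |V12 r a x| + |W3 r a l x| := abs_add_le _ _
      _ ≤ 1 / 2 + 1 / 2 := add_le_add (h1.trans h3) (h2.trans h4)
      _ = 1 := by norm_num
  have hmU : Measurable (U3 r a l) := hmV.add hmW
  obtain ⟨-, -, hnm, -⟩ := hvar S3 r (U3 r a l) ⟨0, Finset.mem_univ _⟩ hr1' hmU hU
  obtain ⟨g, hgb, hgn, hge⟩ := hnm (Real.exp (-r)) (Real.exp_pos _)
  have hg : NM S3 r (U3 r a l) g := ⟨hgb, hgn, hge⟩
  obtain ⟨hbig, htr⟩ := hsc g hg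
  set I : Fin 3 → ℝ := fun c => ∫ x, (x 0 c + x 1 c + x 2 c) * g x ^ 2 ∂pm with hI
  have hbig' : 1 / r ^ 2000 ≤ |I 0| := hbig
  have hdist := yv_dist a l ha0.le h2a
  have hYl := norm_yv a l ha0.le h2a
  have hion := hio r a l hR4 hra hal
  set p0 : ℝ := - I 0 with hp0
  have hp0a : 1 / r ^ 2000 ≤ |p0| := by rw [hp0, abs_neg]; exact hbig'
  have hp0ne : p0 ≠ 0 := by
    intro h
    rw [h, abs_zero] at hp0a
    have : (0 : ℝ) < 1 / r ^ 2000 := by positivity
    linarith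
  have hp0sq : 1 / r ^ 4000 ≤ p0 ^ 2 := by
    have h1 : (1 / r ^ 2000) ^ 2 ≤ |p0| ^ 2 := pow_le_pow_left₀ (by positivity) hp0a 2
    rw [sq_abs, div_pow, one_pow, ← pow_mul] at h1
    exact h1
  set δ0 : ℝ := C2 * r / r ^ 5000 + C3 * l ^ 2 / r ^ 10000 + Real.exp (-r / 4) with hδ0
  have hδnn : 0 ≤ δ0 := by positivity
  have hδ : δ0 ≤ κ' / r ^ 4300 := by
    have h1 : C2 * r / r ^ 5000 ≤ κ' / 3 / r ^ 4300 := by
      have h11 : C2 * r / r ^ 5000 = C2 / r ^ 4999 := by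
        rw [show (5000 : ℕ) = 4999 + 1 from rfl, pow_succ]
        field_simp
      rw [h11]
      exact div_aux hr1' hκ3 hRC2 (by norm_num)
    have h2 : C3 * l ^ 2 / r ^ 10000 ≤ κ' / 3 / r ^ 4300 := by
      have h21 : C3 * l ^ 2 / r ^ 10000 ≤ 4 * C3 / r ^ 9400 := by
        rw [div_le_div_iff₀ (by positivity) (by positivity)]
        have h22 : l ^ 2 ≤ (2 * r ^ 300) ^ 2 := pow_le_pow_left₀ hlpos.le hl2 2
        have h23 : (2 * r ^ 300) ^ 2 * r ^ 9400 = 4 * r ^ 10000 := by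
          rw [mul_pow, ← pow_mul, mul_assoc, ← pow_add]
          norm_num
        have h24 : l ^ 2 * r ^ 9400 ≤ 4 * r ^ 10000 := by
          rw [← h23]
          exact mul_le_mul_of_nonneg_right h22 (by positivity)
        have h25 : C3 * (l ^ 2 * r ^ 9400) ≤ C3 * (4 * r ^ 10000) :=
          mul_le_mul_of_nonneg_left h24 (by linarith)
        linarith
      exact h21.trans (div_aux hr1' hκ3 hRC3 (by norm_num))
    have h3 : 3 * (κ' / 3 / r ^ 4300) = κ' / r ^ 4300 := by ring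
    linarith
  have hδC : 3 * δ0 * √(C7 * l ^ 2) ≤ κ * |p0| ^ 2 := by
    have h1 : √(C7 * l ^ 2) ≤ C7 * l := by
      rw [Real.sqrt_le_left (by positivity)]
      have : C7 * l ^ 2 ≤ C7 ^ 2 * l ^ 2 := by
        refine mul_le_mul_of_nonneg_right ?_ (sq_nonneg _)
        nlinarith
      calc C7 * l ^ 2 ≤ C7 ^ 2 * l ^ 2 := this
        _ = (C7 * l) ^ 2 := by ring
    have h2 : C7 * l ≤ C7 * (2 * r ^ 300) := mul_le_mul_of_nonneg_left hl2 hC70.le
    have h3 : 3 * δ0 * √(C7 * l ^ 2) ≤ 3 * (κ' / r ^ 4300) * (C7 * (2 * r ^ 300)) := by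
      refine mul_le_mul (by linarith) (h1.trans h2) (Real.sqrt_nonneg _) (by positivity)
    have h4 : 3 * (κ' / r ^ 4300) * (C7 * (2 * r ^ 300)) = κ * (1 / r ^ 4000) := by
      rw [hκ', show (4300 : ℕ) = 4000 + 300 from rfl, pow_add]
      field_simp
      norm_num
    have h5 : κ * (1 / r ^ 4000) ≤ κ * |p0| ^ 2 := by
      rw [sq_abs]
      exact mul_le_mul_of_nonneg_left hp0sq hκ.le
    linarith
  have hp01 : |p0| ≤ 1 := by
    rw [hp0, abs_neg]
    exact hI0 r l g hRI hl0 hg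
  have hnp : ‖p0 • ec 0‖ = |p0| := by
    rw [norm_smul, norm_ec, mul_one, Real.norm_eq_abs]
  refine ⟨yv a l, p0 • ec 0, 3 * δ0, C7 * l ^ 2,
    3 * (C7 + C2 * r + C3 * l ^ 2 + 6 + |p0|) + 8 * l, ?_, ?_, by positivity, ?_, ?_, ?_, ?_, ?_⟩
  · intro h
    rw [h, norm_zero] at hnp
    exact hp0ne (abs_eq_zero.mp hnp.symm)
  · rw [hnp]; exact hp01
  · nlinarith [one_le_pow₀ (n := 2) hl1]
  · have : 0 ≤ C2 * r + C3 * l ^ 2 + |p0| := by positivity
    linarith
  · rw [hnp]; exact hδC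
  · intro i j hij
    exact (hRD.trans hra').trans (hdist i j hij)
  intro R hR ψ hψ hn hsupp
  have hCt0 : 0 ≤ C7 + C2 * r + C3 * l ^ 2 + 6 + |p0| := by positivity
  have hR8l : 8 * l ≤ R := by linarith
  have hRpos : 0 < R := by linarith
  set ε : ℝ := Qf (yv a l) ψ - En 3 (yv a l) with hε
  have hε0 : 0 ≤ ε := by
    have := hen.2.1 (Fin 3) (Fin 3) (yv a l) ψ hψ
    rw [hn, mul_one, Fintype.card_fin] at this
    linarith
  have hsq0 : 0 ≤ √ε := Real.sqrt_nonneg _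
  have hcomp : ∀ c : Fin 3, |expv (fun X => (vdip (yv a l) X) c) ψ - p0 * ec 0 c| ≤
      δ0 + (C7 + C2 * r + C3 * l ^ 2 + 6 + |p0|) * R * √ε := by
    intro c
    have hpc : |p0 * ec 0 c| ≤ |p0| := by
      rw [abs_mul]
      have : |ec 0 c| ≤ 1 := by
        have := PiLp.norm_apply_le (ec 0) c
        rw [norm_ec, Real.norm_eq_abs] at this
        exact this
      nlinarith [abs_nonneg p0]
    by_cases hε1 : ε ≤ 1
    · -- small excess
      have hPU := hcut (Fin 3) r (yv a l) hr0 (fun k k' hk => by linarith [hdist k k' hk])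
      have himsE := (hims (Fin 3) (Option (Fin 3)) (cellPU r (yv a l)) ψ hPU.1 hψ.toLC)
      have hdec := himsE.2.2.1 (fun X => (vdip (yv a l) X) c)
        ((hadm (Fin 3)).1 _ (bdd_vdip (yv a l) c).1)
      rw [sum_split] at hdec
      have hcen := hce r a l ψ g c hR2 hra hal hψ hn hg hε1
      have htail := hta r a l R ψ hR3 hra hal hR8l hψ hn hsupp
      set G : ℝ := ∑ τ : Equiv.Perm (Fin 3), expv (fun X => (vdip (yv a l) X) c)
        (sector (cellPU r (yv a l)) (fun j => some (τ j)) ψ) with hG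
      set Bd : ℝ := ∑ α : Fin 3 → Option (Fin 3),
        if (∃ τ : Equiv.Perm (Fin 3), α = fun j => some (τ j)) then 0
        else expv (fun X => (vdip (yv a l) X) c) (sector (cellPU r (yv a l)) α ψ) with hBd
      have hBdle : |Bd| ≤ C3 * l ^ 2 * (R * ε + 1 / r ^ 10000) := by
        refine le_trans ?_ htail
        rw [hBd]
        refine (Finset.abs_sum_le_sum_abs _ _).trans (Finset.sum_le_sum fun α _ => ?_)
        split_ifs
        · simp
        · exact abs_expv_le hlc hadm _ c _ (himsE.1 α)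
      have hsqrt : √(ε + 1 / r ^ 10000) ≤ √ε + 1 / r ^ 5000 := by
        have h1 : (1 : ℝ) / r ^ 10000 = (1 / r ^ 5000) ^ 2 := by
          rw [div_pow, one_pow, ← pow_mul]
        rw [h1]
        exact sqrt_add_le' hε0 (by positivity)
      have hcen' : |G + I c| ≤ C2 * r * (√ε + 1 / r ^ 5000) :=
        hcen.trans (mul_le_mul_of_nonneg_left hsqrt (by positivity))
      have hIc : |- I c - p0 * ec 0 c| ≤ Real.exp (-r / 4) := by
        by_cases hc : c = 0
        · subst hc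
          have : (ec 0) 0 = 1 := by simp [ec]
          rw [this, hp0, mul_one, sub_self, abs_zero]
          positivity
        · have : (ec 0) c = 0 := by simp [ec, hc]
          rw [this, mul_zero, sub_zero, abs_neg]
          exact htr c hc
      have hεs : ε ≤ √ε := le_sqrt_self hε0 hε1
      have hfin : |expv (fun X => (vdip (yv a l) X) c) ψ - p0 * ec 0 c| ≤
          C2 * r * (√ε + 1 / r ^ 5000) + C3 * l ^ 2 * (R * ε + 1 / r ^ 10000)
            + Real.exp (-r / 4) := by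
        rw [hdec]
        have : G + Bd - p0 * ec 0 c = (G + I c) + Bd + (- I c - p0 * ec 0 c) := by ring
        rw [this]
        exact (abs_add_three _ _ _).trans (add_le_add_three hcen' hBdle hIc)
      have e1 : C2 * r / r ^ 5000 = C2 * r * (1 / r ^ 5000) := by ring
      have e2 : C3 * l ^ 2 / r ^ 10000 = C3 * l ^ 2 * (1 / r ^ 10000) := by ring
      rw [hδ0, e1, e2]
      exact fin1 (by linarith) (by linarith) (by linarith) hr0.le (by linarith) hsq0 hεs
        (abs_nonneg p0) hfin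
    · -- large excess
      push Not at hε1
      have h1 := abs_expv_le hlc hadm (yv a l) c ψ hψ.toLC
      have hb := (bdd_vdip (n := 3) (yv a l) c).2
      have h2 : expv (fun X => ‖vdip (yv a l) X‖) ψ ≤ (3 * l + 3 * R) * nsq ψ := by
        have hint := (hlc (Fin 3) ψ hψ.toLC)
        unfold expv nsq
        rw [← integral_const_mul]
        refine integral_mono (hint.2.2.2.2.2.1 _ ((hadm (Fin 3)).1 _ hb))
          (hint.2.2.2.2.2.2.const_mul _) fun X => ?_
        by_cases hX : ψ X = 0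
        · simp [hX]
        · refine mul_le_mul_of_nonneg_right ?_ (sq_nonneg _)
          have := vdip_norm_le (yv a l) l R hYl X (hsupp X hX)
          simpa using this
      rw [hn, mul_one] at h2
      have h3 : 1 ≤ √ε := by rw [Real.one_le_sqrt]; exact hε1.le
      have h4 : |expv (fun X => (vdip (yv a l) X) c) ψ - p0 * ec 0 c| ≤ (3 * l + 3 * R) + |p0| :=
        (abs_sub _ _).trans (add_le_add (h1.trans h2) hpc)
      exact fin2 (by linarith) (by linarith) (by linarith) hr0.le (by linarith) h3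
        (abs_nonneg p0) hδnn (by linarith) h4
  refine ⟨fun t => ?_, ?_⟩
  · have hint := (hlc (Fin 3) ψ hψ.toLC).2.2.2.2.2.1
    have hlin : expv (fun X => inner ℝ t (vdip (yv a l) X)) ψ =
        ∑ c, t c * expv (fun X => (vdip (yv a l) X) c) ψ := by
      unfold expv
      rw [← Finset.sum_congr rfl (fun c _ => integral_const_mul (t c) _),
        ← integral_finsetSum _ (fun c _ => (hint _ ((hadm (Fin 3)).1 _
          (bdd_vdip (n := 3) (yv a l) c).1)).const_mul (t c))]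
      refine integral_congr_ae (Filter.Eventually.of_forall fun X => ?_)
      simp only [inner_eq, Finset.sum_mul]
      exact Finset.sum_congr rfl fun c _ => by ring
    have hlin2 : inner ℝ t (p0 • ec 0) = ∑ c, t c * (p0 * ec 0 c) := by
      rw [inner_eq]
      exact Finset.sum_congr rfl fun c _ => by simp [PiLp.smul_apply]
    rw [hlin, hlin2, ← Finset.sum_sub_distrib]
    set Bd : ℝ := δ0 + (C7 + C2 * r + C3 * l ^ 2 + 6 + |p0|) * R * √ε with hBd
    have hBd0 : 0 ≤ Bd := by positivity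
    have h1 : |∑ c, (t c * expv (fun X => (vdip (yv a l) X) c) ψ - t c * (p0 * ec 0 c))| ≤
        ∑ _c : Fin 3, ‖t‖ * Bd := by
      refine (Finset.abs_sum_le_sum_abs _ _).trans (Finset.sum_le_sum fun c _ => ?_)
      rw [← mul_sub, abs_mul]
      refine mul_le_mul ?_ (hcomp c) (abs_nonneg _) (norm_nonneg _)
      have := PiLp.norm_apply_le t c
      rwa [Real.norm_eq_abs] at this
    refine h1.trans ?_
    simp only [Finset.sum_const, Finset.card_univ, Fintype.card_fin, nsmul_eq_mul, Nat.cast_ofNat]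
    have h2 : (3 : ℝ) * (‖t‖ * Bd) = ‖t‖ * (3 * Bd) := by ring
    rw [h2]
    refine mul_le_mul_of_nonneg_left ?_ (norm_nonneg _)
    rw [hBd]
    have h3 : 0 ≤ 8 * l * R * √ε := by positivity
    nlinarith
  · have h := hmo r a l R ψ hR7 hra hal hR8l hψ hn hsupp
    refine h.trans ?_
    have h1 : C7 * R ^ 2 * ε ≤ (3 * (C7 + C2 * r + C3 * l ^ 2 + 6 + |p0|) + 8 * l) * R ^ 2 * ε := by
      refine mul_le_mul_of_nonneg_right (mul_le_mul_of_nonneg_right ?_ (by positivity)) hε0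
      have : 0 ≤ C2 * r + C3 * l ^ 2 + |p0| := by positivity
      linarith
    linarith

end MolDis.H.ThmD
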