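import Pool.Agent.Lib.MP_59f35a_mp.HStmts

/-!
# MP_59f35a_mp : uniqueness, gap above a near minimiser (V3)
-/

set_option autoImplicit false

noncomputable section

open MeasureTheory

namespace MolDis.H

namespace Uniq

lemma BL_smul (hbl : S_bl) {f : X3 → ℝ} (hf : BL f) (c : ℝ) : BL (fun x => c * f x) :=
  (hbl.1 (fun _ => c) f (hbl.2.1 c) hf).2.2

lemma int_mul (hbl : S_bl) {f g : X3 → ℝ} (hf : BL f) (hg : BL g) :
    Integrable (fun x => f x * g x) pm :=
  (hbl.2.2.1 _ (hbl.1 f g hf hg).2.2).2.1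

lemma int_U (hbl : S_bl) {U f g : X3 → ℝ} {M : ℝ} (hU : Measurable U) (hM : ∀ x, |U x| ≤ M)
    (hf : BL f) (hg : BL g) : Integrable (fun x => U x * f x * g x) pm := by
  have h1 : Integrable (fun x => U x * (f x * g x)) pm :=
    (int_mul hbl hf hg).bdd_mul hU.aestronglyMeasurable (c := M)
      (Filter.Eventually.of_forall fun x => by rw [Real.norm_eq_abs]; exact hM x)
  simpa only [mul_assoc] using h1

lemma DD_smul (hform : S_form) (hbl : S_bl) {f : X3 → ℝ} (hf : BL f) (c : ℝ) :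
    DD (fun x => c * f x) (fun x => c * f x) = c ^ 2 * DD f f := by
  unfold DD
  rw [Finset.mul_sum]
  refine Finset.sum_congr rfl fun j _ => ?_
  have h1 := (hform.1 j f (fun x => c * f x) f hf (BL_smul hbl hf c) hf c)
  have h2 := (hform.1 j f f f hf hf hf c)
  rw [h1.2.2.2.2.1, h1.1, h2.2.2.2.2.1]
  ring

lemma DD_par (hform : S_form) (hbl : S_bl) {f g : X3 → ℝ} (hf : BL f) (hg : BL g) :
    DD (fun x => f x + g x) (fun x => f x + g x) + DD (fun x => f x - g x) (fun x => f x - g x) =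
      2 * DD f f + 2 * DD g g := by
  unfold DD
  rw [Finset.mul_sum, Finset.mul_sum, ← Finset.sum_add_distrib, ← Finset.sum_add_distrib]
  refine Finset.sum_congr rfl fun j _ => ?_
  obtain ⟨hp, hm, -⟩ := hbl.1 f g hf hg
  have a1 := (hform.1 j f g _ hf hg hp 0).2.2.1
  have a2 := (hform.1 j f g _ hf hg hm 0).2.2.2.1
  have b1 := (hform.1 j f (fun x => f x + g x) f hf hp hf 0).1
  have b2 := (hform.1 j g (fun x => f x + g x) f hg hp hf 0).1
  have b3 := (hform.1 j f (fun x => f x - g x) f hf hm hf 0).1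
  have b4 := (hform.1 j g (fun x => f x - g x) f hg hm hf 0).1
  have c1 := (hform.1 j f g f hf hg hf 0)
  have c2 := (hform.1 j f g g hf hg hg 0)
  have d1 := (hform.1 j f g f hf hg hf 0).1
  rw [a1, a2, b1, b2, b3, b4, c1.2.2.1, c1.2.2.2.1, c2.2.2.1, c2.2.2.2.1]
  ring

lemma ip_smul {f : X3 → ℝ} (c : ℝ) :
    ip (fun x => c * f x) (fun x => c * f x) = c ^ 2 * ip f f := by
  unfold ip
  rw [← integral_const_mul]
  refine integral_congr_ae (Filter.Eventually.of_forall fun x => ?_)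
  show c * f x * (c * f x) = c ^ 2 * (f x * f x)
  ring

lemma U_smul {U f : X3 → ℝ} (c : ℝ) :
    ∫ x, U x * (c * f x) * (c * f x) ∂pm = c ^ 2 * ∫ x, U x * f x * f x ∂pm := by
  rw [← integral_const_mul]
  refine integral_congr_ae (Filter.Eventually.of_forall fun x => ?_)
  show U x * (c * f x) * (c * f x) = c ^ 2 * (U x * f x * f x)
  ring

/-- `ip (f - tφ) (f - tφ)` -/
lemma ip_sub (hbl : S_bl) {f φ : X3 → ℝ} (hf : BL f) (hφ : BL φ) (t : ℝ) :
    ip (fun x => f x - t * φ x) (fun x => f x - t * φ x) =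
      ip f f - 2 * t * ip φ f + t ^ 2 * ip φ φ := by
  unfold ip
  have i1 := int_mul hbl hf hf
  have i2 := (int_mul hbl hφ hf).const_mul (2 * t)
  have i3 := (int_mul hbl hφ hφ).const_mul (t ^ 2)
  have i12 : Integrable (fun x => f x * f x - 2 * t * (φ x * f x)) pm := i1.sub i2
  rw [← integral_const_mul, ← integral_const_mul, ← integral_sub i1 i2, ← integral_add i12 i3]
  refine integral_congr_ae (Filter.Eventually.of_forall fun x => ?_)
  show (f x - t * φ x) * (f x - t * φ x) =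
    f x * f x - 2 * t * (φ x * f x) + t ^ 2 * (φ x * φ x)
  ring

lemma ip_sub' (hbl : S_bl) {f φ : X3 → ℝ} (hf : BL f) (hφ : BL φ) (t : ℝ) :
    ip φ (fun x => f x - t * φ x) = ip φ f - t * ip φ φ := by
  unfold ip
  have i2 := int_mul hbl hφ hf
  have i3 := (int_mul hbl hφ hφ).const_mul t
  rw [← integral_const_mul, ← integral_sub i2 i3]
  refine integral_congr_ae (Filter.Eventually.of_forall fun x => ?_)
  show φ x * (f x - t * φ x) = φ x * f x - t * (φ x * φ x)
  ring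

lemma ip_par (hbl : S_bl) {f g : X3 → ℝ} (hf : BL f) (hg : BL g) :
    ip (fun x => f x + g x) (fun x => f x + g x) + ip (fun x => f x - g x) (fun x => f x - g x) =
      2 * ip f f + 2 * ip g g := by
  obtain ⟨hp, hm, -⟩ := hbl.1 f g hf hg
  unfold ip
  rw [← integral_const_mul, ← integral_const_mul,
    ← integral_add (int_mul hbl hp hp) (int_mul hbl hm hm),
    ← integral_add ((int_mul hbl hf hf).const_mul 2) ((int_mul hbl hg hg).const_mul 2)]
  refine integral_congr_ae (Filter.Eventually.of_forall fun x => ?_)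
  show (f x + g x) * (f x + g x) + (f x - g x) * (f x - g x) = 2 * (f x * f x) + 2 * (g x * g x)
  ring

lemma U_par (hbl : S_bl) {U f g : X3 → ℝ} {M : ℝ} (hU : Measurable U) (hM : ∀ x, |U x| ≤ M)
    (hf : BL f) (hg : BL g) :
    (∫ x, U x * (f x + g x) * (f x + g x) ∂pm) + (∫ x, U x * (f x - g x) * (f x - g x) ∂pm) =
      2 * (∫ x, U x * f x * f x ∂pm) + 2 * ∫ x, U x * g x * g x ∂pm := by
  obtain ⟨hp, hm, -⟩ := hbl.1 f g hf hg
  rw [← integral_const_mul, ← integral_const_mul,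
    ← integral_add (int_U hbl hU hM hp hp) (int_U hbl hU hM hm hm),
    ← integral_add ((int_U hbl hU hM hf hf).const_mul 2) ((int_U hbl hU hM hg hg).const_mul 2)]
  refine integral_congr_ae (Filter.Eventually.of_forall fun x => ?_)
  show U x * (f x + g x) * (f x + g x) + U x * (f x - g x) * (f x - g x) =
    2 * (U x * f x * f x) + 2 * (U x * g x * g x)
  ring

lemma ip_nonneg (f : X3 → ℝ) : 0 ≤ ip f f := integral_nonneg fun _ => mul_self_nonneg _

lemma abs_U_le (hbl : S_bl) {U f : X3 → ℝ} {M : ℝ} (hU : Measurable U) (hM : ∀ x, |U x| ≤ M)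
    (hf : BL f) : -(M * ip f f) ≤ ∫ x, U x * f x * f x ∂pm := by
  unfold ip
  rw [← integral_const_mul, ← integral_neg]
  refine integral_mono ((int_mul hbl hf hf).const_mul M).neg (int_U hbl hU hM hf hf) fun x => ?_
  show -(M * (f x * f x)) ≤ U x * f x * f x
  have h1 := (abs_le.1 (hM x)).1
  nlinarith [mul_self_nonneg (f x)]

end Uniq

open Uniq in
/-- **V3** -/
theorem p_uniq (hprod : S_prod) (hbl : S_bl) (hform : S_form) (hpgap : S_pgap) (hvar : S_var)
    (hapri : S_apri) : S_uniq := by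
  intro g0 hg0
  obtain ⟨C, M1, r1, hC, hM1, hr1, ap⟩ := hapri g0 hg0
  have hgpos := hg0.pos
  have hgle := hg0.le
  have : IsProbabilityMeasure pm := hprod.1
  -- choice of the constants
  obtain ⟨δ, hδ⟩ : ∃ δ : ℝ, δ = g0 / (64 * C) := ⟨_, rfl⟩
  have hδ0 : 0 < δ := by rw [hδ]; positivity
  have hδC : C * δ = g0 / 64 := by rw [hδ]; field_simp
  have hδ1 : δ ≤ 1 / 64 := by
    have : δ ≤ C * δ := le_mul_of_one_le_left hδ0.le hC
    linarith
  obtain ⟨r2, hr2⟩ : ∃ r2 : ℝ, ∀ r, r2 ≤ r → Real.exp (-r / 4) ≤ δ := by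
    refine ⟨-4 * Real.log δ, fun r hr => ?_⟩
    rw [← Real.log_le_log_iff (Real.exp_pos _) hδ0, Real.log_exp]
    linarith
  refine ⟨min M1 δ, max r1 (max r2 1), lt_min hM1 hδ0, hr1.trans (le_max_left _ _), ?_⟩
  intro S r M U hS hr hM0 hMle hU hUM hU0 hUZ φ f hφ hf
  have hMM1 : M ≤ M1 := hMle.trans (min_le_left _ _)
  have hMδ : M ≤ δ := hMle.trans (min_le_right _ _)
  have hrr1 : r1 ≤ r := (le_max_left _ _).trans hr
  have hrr2 : r2 ≤ r := ((le_max_left _ _).trans (le_max_right _ _)).trans hr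
  have hr1' : 1 ≤ r := ((le_max_right _ _).trans (le_max_right _ _)).trans hr
  have hr0 : 0 < r := by linarith
  have hexp := hr2 r hrr2
  obtain ⟨apE, apφ⟩ := ap S r M U hS hrr1 hM0 hMM1 hU hUM hU0 hUZ
  obtain ⟨apc, -⟩ := apφ φ hφ
  have hsmall : C * (M ^ 2 + Real.exp (-r / 4)) ≤ g0 / 32 := by
    have h1 : M ^ 2 ≤ δ := by
      have : M ^ 2 ≤ 1 * δ := by
        rw [sq]; exact mul_le_mul (by linarith) hMδ hM0 (by norm_num)
      linarith
    calc C * (M ^ 2 + Real.exp (-r / 4)) ≤ C * (δ + δ) := by gcongr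
      _ = g0 / 32 := by linarith
  have hUM1 : ∀ x, |U x| ≤ 1 := fun x => (hUM x).trans (by linarith)
  obtain ⟨-, v2, -, -⟩ := hvar S r U hS hr1' hU hUM1
  have hφB : BL φ := hbl.2.2.2.1 S r φ hφ.box hr0 hS
  have hfB : BL f := hbl.2.2.2.1 S r f hf hr0 hS
  obtain ⟨t, ht⟩ : ∃ t : ℝ, t = ip φ f := ⟨_, rfl⟩
  obtain ⟨E, hE⟩ : ∃ E : ℝ, E = EE S r U := ⟨_, rfl⟩
  obtain ⟨c, hc⟩ : ∃ c : ℝ, c = ∫ x, φ x ∂pm := ⟨_, rfl⟩
  rw [← hE] at v2 apE ⊢
  rw [← hc] at apc
  rw [← ht]
  have htφB : BL (fun x => t * φ x) := BL_smul hbl hφB t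
  have htφ : Box S r (fun x => t * φ x) := (hbl.2.2.2.2.1 S r φ φ t hφ.box hφ.box).2.2
  obtain ⟨hp, hm, -⟩ := hbl.2.2.2.2.1 S r f (fun x => t * φ x) 0 hf htφ
  have hmB : BL (fun x => f x - t * φ x) := hbl.2.2.2.1 S r _ hm hr0 hS
  -- the parallelogram identity
  have hpar : BB U (fun x => f x + t * φ x) (fun x => f x + t * φ x) +
      BB U (fun x => f x - t * φ x) (fun x => f x - t * φ x) =
      2 * BB U f f + 2 * (t ^ 2 * BB U φ φ) := by
    have h1 := DD_par hform hbl hfB htφB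
    have h2 := U_par hbl hU hUM hfB htφB
    have h3 := DD_smul hform hbl hφB t
    have h4 := U_smul (U := U) (f := φ) t
    unfold BB
    rw [h3] at h1
    rw [h4] at h2
    linarith
  have hipar := ip_par hbl hfB htφB
  rw [ip_smul, hφ.norm] at hipar
  have hQp := v2 _ hp
  have hw := ip_sub hbl hfB hφB t
  rw [hφ.norm, ← ht] at hw
  obtain ⟨W, hW⟩ : ∃ W : ℝ, W = ip (fun x => f x - t * φ x) (fun x => f x - t * φ x) := ⟨_, rfl⟩
  rw [← hW] at hw hipar
  have hW0 : 0 ≤ W := by rw [hW]; exact ip_nonneg _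
  have hWe : W = ip f f - t ^ 2 := by linarith
  have hφle := hφ.le
  rw [← hE] at hφle
  have hQφ : BB U φ φ - E ≤ Real.exp (-r) := by linarith
  -- lower bound for `w`
  have hort : ip φ (fun x => f x - t * φ x) = 0 := by
    rw [ip_sub' hbl hfB hφB t, hφ.norm, ← ht]; ring
  have hmean : (∫ x, (f x - t * φ x) ∂pm) ^ 2 ≤ (1 - c ^ 2) * W := by
    have hone : BL (fun _ : X3 => (1 : ℝ)) := hbl.2.1 1
    have hcφ : BL (fun x => c * φ x) := BL_smul hbl hφB c
    have hu : BL (fun x => 1 - c * φ x) := (hbl.1 _ _ hone hcφ).2.1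
    have e1 : ip (fun x => 1 - c * φ x) (fun x => f x - t * φ x) =
        ∫ x, (f x - t * φ x) ∂pm := by
      have i1 : Integrable (fun x => f x - t * φ x) pm := (hbl.2.2.1 _ hmB).2.1
      have i2 := (int_mul hbl hφB hmB).const_mul c
      have : ip (fun x => 1 - c * φ x) (fun x => f x - t * φ x) =
          (∫ x, (f x - t * φ x) ∂pm) - c * ip φ (fun x => f x - t * φ x) := by
        unfold ip
        rw [← integral_const_mul, ← integral_sub i1 i2]
        refine integral_congr_ae (Filter.Eventually.of_forall fun x => ?_)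
        show (1 - c * φ x) * (f x - t * φ x) = (f x - t * φ x) - c * (φ x * (f x - t * φ x))
        ring
      rw [this, hort, mul_zero, sub_zero]
    have e2 : ip (fun x => 1 - c * φ x) (fun x => 1 - c * φ x) = 1 - c ^ 2 := by
      have := ip_sub hbl hone hφB c
      rw [this, hφ.norm]
      have h1 : ip (fun _ : X3 => (1 : ℝ)) (fun _ => 1) = 1 := by
        unfold ip; simp
      have h2 : ip φ (fun _ : X3 => (1 : ℝ)) = c := by
        unfold ip; simp [hc]
      rw [h1, h2]; ring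
    have e3 := hform.2.2.1 _ _ hu hmB
    rw [e1, e2, ← hW] at e3
    have e4 : 0 ≤ 1 - c ^ 2 := by rw [← e2]; exact ip_nonneg _
    calc (∫ x, (f x - t * φ x) ∂pm) ^ 2 = |∫ x, (f x - t * φ x) ∂pm| ^ 2 := (sq_abs _).symm
      _ ≤ (√(1 - c ^ 2) * √W) ^ 2 := pow_le_pow_left₀ (abs_nonneg _) e3 2
      _ = (1 - c ^ 2) * W := by rw [mul_pow, Real.sq_sqrt e4, Real.sq_sqrt hW0]
  have hgap := (hpgap g0 hg0 S r _ hr0 hS hm).2.1
  rw [← hW] at hgap
  have hUw := abs_U_le hbl hU hUM hmB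
  rw [← hW] at hUw
  have hQw : g0 / 2 * W ≤ BB U (fun x => f x - t * φ x) (fun x => f x - t * φ x) - E * W := by
    unfold BB
    have h1 : (1 - c ^ 2) * W ≤ g0 / 32 * W := mul_le_mul_of_nonneg_right (apc.trans hsmall) hW0
    have h2 : g0 / 32 * W ≤ 1 / 16 * W := mul_le_mul_of_nonneg_right (by linarith) hW0
    have h3 : g0 * (W - (∫ x, (f x - t * φ x) ∂pm) ^ 2) ≥ g0 * (15 / 16 * W) := by
      refine mul_le_mul_of_nonneg_left ?_ hgpos.le
      linarith
    have h4 : M * W ≤ g0 / 64 * W := by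
      refine mul_le_mul_of_nonneg_right ?_ hW0
      have : δ ≤ C * δ := le_mul_of_one_le_left hδ0.le hC
      linarith
    have h5 : E * W ≤ g0 / 32 * W :=
      mul_le_mul_of_nonneg_right ((le_abs_self _).trans (apE.trans hsmall)) hW0
    have h6 : 0 ≤ g0 * W := mul_nonneg hgpos.le hW0
    linarith
  have h1 : t ^ 2 * (BB U φ φ - E) ≤ t ^ 2 * Real.exp (-r) :=
    mul_le_mul_of_nonneg_left hQφ (sq_nonneg t)
  have h2 : t ^ 2 * Real.exp (-r) ≤ Real.exp (-r) * ip f f := by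
    rw [mul_comm]
    exact mul_le_mul_of_nonneg_left (by linarith) (Real.exp_pos _).le
  rw [← hWe]
  have h3 : E * ip (fun x => f x + t * φ x) (fun x => f x + t * φ x) =
      E * (2 * ip f f + 2 * (t ^ 2 * 1) - W) := by rw [← hipar]; ring
  rw [h3] at hQp
  nlinarith [hQp, hQw, hpar, h1, h2]

end MolDis.H
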