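import Pool.Agent.Lib.MP_59f35a_mp.H.Loc

/-!
# MP_59f35a_mp, Theorem D, piece F2 : upper bound for the energy of three electrons
-/

set_option autoImplicit false
set_option linter.unusedSectionVars false

noncomputable section

open MeasureTheory

namespace MolDis.H

namespace Up

open Loc

/-- the hydrogen ground state -/
def h0 (z : E3) : ℝ := (√(8 * Real.pi))⁻¹ * Real.exp (-(‖z‖ / 2))

theorem sqrt_one_le : 1 ≤ √(8 * Real.pi) := by
  rw [Real.one_le_sqrt]
  have := Real.pi_gt_three
  linarith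

theorem sqrt_pos' : 0 < √(8 * Real.pi) := lt_of_lt_of_le one_pos sqrt_one_le

theorem inv_le : (√(8 * Real.pi))⁻¹ ≤ 1 := inv_le_one_of_one_le₀ sqrt_one_le

theorem h0_nonneg (z : E3) : 0 ≤ h0 z := by
  unfold h0
  have := sqrt_pos'
  positivity

theorem h0_le (z : E3) : h0 z ≤ 1 := by
  unfold h0
  have h1 : Real.exp (-(‖z‖ / 2)) ≤ 1 := by
    rw [Real.exp_le_one_iff]
    linarith [norm_nonneg z]
  exact mul_le_one₀ inv_le (Real.exp_pos _).le h1

theorem exp_lip {s t : ℝ} (hs : 0 ≤ s) (ht : 0 ≤ t) :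
    |Real.exp (-(s / 2)) - Real.exp (-(t / 2))| ≤ |s - t| := by
  wlog h : s ≤ t generalizing s t with H
  · rw [abs_sub_comm, abs_sub_comm s t]
    exact H ht hs (le_of_not_ge h)
  have h1 : Real.exp (-(t / 2)) ≤ Real.exp (-(s / 2)) := Real.exp_le_exp.mpr (by linarith)
  rw [abs_of_nonneg (by linarith), abs_sub_comm, abs_of_nonneg (by linarith : 0 ≤ t - s)]
  have h2 : Real.exp (-(t / 2)) = Real.exp (-(s / 2)) * Real.exp (-((t - s) / 2)) := by
    rw [← Real.exp_add]
    congr 1
    ring
  have h3 : 1 - (t - s) / 2 ≤ Real.exp (-((t - s) / 2)) := by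
    have := Real.add_one_le_exp (-((t - s) / 2))
    linarith
  have h4 : Real.exp (-(s / 2)) ≤ 1 := by
    rw [Real.exp_le_one_iff]
    linarith
  have h5 : 0 < Real.exp (-(s / 2)) := Real.exp_pos _
  rw [h2]
  nlinarith

theorem h0_lip (z z' : E3) : |h0 z - h0 z'| ≤ ‖z - z'‖ := by
  unfold h0
  rw [← mul_sub, abs_mul, abs_of_pos (inv_pos.mpr sqrt_pos')]
  have h1 := exp_lip (norm_nonneg z) (norm_nonneg z')
  have h2 := abs_norm_sub_norm_le z z'
  have h3 := inv_le
  have h4 : 0 < (√(8 * Real.pi))⁻¹ := inv_pos.mpr sqrt_pos'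
  calc (√(8 * Real.pi))⁻¹ * |Real.exp (-(‖z‖ / 2)) - Real.exp (-(‖z'‖ / 2))|
      ≤ 1 * |Real.exp (-(‖z‖ / 2)) - Real.exp (-(‖z'‖ / 2))| :=
        mul_le_mul_of_nonneg_right h3 (abs_nonneg _)
    _ ≤ _ := by rw [one_mul]; exact h1.trans h2

theorem h0_cancel (z : E3) : h0 z * (√(8 * Real.pi) * Real.exp (‖z‖ / 2)) = 1 := by
  unfold h0
  have h1 : Real.exp (-(‖z‖ / 2)) * Real.exp (‖z‖ / 2) = 1 := by
    rw [← Real.exp_add]
    simp
  have h2 : (√(8 * Real.pi))⁻¹ * √(8 * Real.pi) = 1 := inv_mul_cancel₀ sqrt_pos'.ne'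
  calc (√(8 * Real.pi))⁻¹ * Real.exp (-(‖z‖ / 2)) * (√(8 * Real.pi) * Real.exp (‖z‖ / 2))
      = ((√(8 * Real.pi))⁻¹ * √(8 * Real.pi)) * (Real.exp (-(‖z‖ / 2)) * Real.exp (‖z‖ / 2)) := by
        ring
    _ = 1 := by rw [h1, h2, one_mul]

/-- the product -/
def pr (x : X3) : ℝ := ∏ j, h0 (x j)

theorem pr_nonneg (x : X3) : 0 ≤ pr x := Finset.prod_nonneg fun _ _ => h0_nonneg _

theorem pr_le (x : X3) : pr x ≤ 1 :=
  Finset.prod_le_one (fun _ _ => h0_nonneg _) (fun _ _ => h0_le _)

theorem pr_update (x : X3) (j : Fin 3) (z : E3) :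
    |pr (Function.update x j z) - pr x| ≤ ‖z - x j‖ := by
  unfold pr
  have e1 : ∏ i, h0 (Function.update x j z i) = h0 z * ∏ i ∈ Finset.univ.erase j, h0 (x i) := by
    rw [← Finset.mul_prod_erase Finset.univ _ (Finset.mem_univ j)]
    congr 1
    · rw [Function.update_self]
    · refine Finset.prod_congr rfl fun i hi => ?_
      rw [Function.update_of_ne (Finset.ne_of_mem_erase hi)]
  have e2 : ∏ i, h0 (x i) = h0 (x j) * ∏ i ∈ Finset.univ.erase j, h0 (x i) :=
    (Finset.mul_prod_erase Finset.univ _ (Finset.mem_univ j)).symm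
  rw [e1, e2, ← sub_mul, abs_mul]
  have h2 : |∏ i ∈ Finset.univ.erase j, h0 (x i)| ≤ 1 := by
    rw [abs_of_nonneg (Finset.prod_nonneg fun i _ => h0_nonneg _)]
    exact Finset.prod_le_one (fun i _ => h0_nonneg _) (fun i _ => h0_le _)
  calc |h0 z - h0 (x j)| * |∏ i ∈ Finset.univ.erase j, h0 (x i)|
      ≤ ‖z - x j‖ * 1 := mul_le_mul (h0_lip _ _) h2 (abs_nonneg _) (norm_nonneg _)
    _ = ‖z - x j‖ := mul_one _

/-- the wave function -/
def wf (Y : Fin 3 → E3) (f : X3 → ℝ) (X : Fin 3 → Om) : ℝ :=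
  if (∀ j, (X j).2 = false) then
    f (fun j => (X j).1 - Y j) * pr (fun j => (X j).1 - Y j) else 0

theorem wf_supp (Y : Fin 3 → E3) {f : X3 → ℝ} {r : ℝ} (hf : Box S3 r f) (X : Fin 3 → Om)
    (hX : wf Y f X ≠ 0) (j : Fin 3) : ‖(X j).1 - Y j‖ ≤ r := by
  unfold wf at hX
  split_ifs at hX with h
  · exact hf.supp _ (left_ne_zero_of_mul hX) j (Finset.mem_univ j)
  · exact absurd rfl hX

theorem wf_LC (Y : Fin 3 → E3) {f : X3 → ℝ} {r : ℝ} (hf : Box S3 r f) (hB : BL f) :
    LC (wf Y f) := by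
  refine ⟨?_, ?_⟩
  · obtain ⟨K, hK⟩ := hB.lip
    obtain ⟨B, hB⟩ := hB.bdd
    refine ⟨K + B, fun X j y => ?_⟩
    have hs : (∀ i, (put X j y i).2 = false) ↔ (∀ i, (X i).2 = false) := by
      refine forall_congr' fun i => ?_
      unfold put
      by_cases h : i = j
      · subst h; simp
      · rw [Function.update_of_ne h]
    unfold wf
    simp only [hs]
    have hB0 : 0 ≤ B := (abs_nonneg _).trans (hB 0)
    split_ifs with h
    · set x : X3 := fun i => (X i).1 - Y i with hx
      have e : (fun i => (put X j y i).1 - Y i) = Function.update x j (y - Y j) := by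
        funext i
        unfold put
        by_cases h : i = j
        · subst h; simp
        · rw [Function.update_of_ne h, Function.update_of_ne h]
      rw [e]
      have h1 : |pr (Function.update x j (y - Y j)) - pr x| ≤ ‖y - (X j).1‖ := by
        have := pr_update x j (y - Y j)
        rwa [hx, sub_sub_sub_cancel_right] at this
      have h2 : |f (Function.update x j (y - Y j)) - f x| ≤ K * ‖y - (X j).1‖ := by
        have h3 := hK.dist_le_mul (Function.update x j (y - Y j)) x
        rw [Real.dist_eq] at h3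
        refine h3.trans ?_
        gcongr
        rw [dist_pi_le_iff (norm_nonneg _)]
        intro i
        by_cases h : i = j
        · subst h
          rw [Function.update_self, dist_eq_norm, hx, sub_sub_sub_cancel_right]
        · rw [Function.update_of_ne h, dist_self]
          exact norm_nonneg _
      calc |f (Function.update x j (y - Y j)) * pr (Function.update x j (y - Y j)) - f x * pr x|
          = |(f (Function.update x j (y - Y j)) - f x) * pr (Function.update x j (y - Y j)) +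
              f x * (pr (Function.update x j (y - Y j)) - pr x)| := by
            congr 1
            ring
        _ ≤ |f (Function.update x j (y - Y j)) - f x| * |pr (Function.update x j (y - Y j))| +
              |f x| * |pr (Function.update x j (y - Y j)) - pr x| := by
            refine (abs_add_le _ _).trans ?_
            rw [abs_mul, abs_mul]
        _ ≤ K * ‖y - (X j).1‖ * 1 + B * ‖y - (X j).1‖ := by
            refine add_le_add (mul_le_mul h2 ?_ (abs_nonneg _) (by positivity))
              (mul_le_mul (hB x) h1 (abs_nonneg _) hB0)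
            rw [abs_of_nonneg (pr_nonneg _)]
            exact pr_le _
        _ = (K + B) * ‖y - (X j).1‖ := by ring
    · rw [sub_self, abs_zero]
      positivity
  · refine ⟨r + ∑ k, ‖Y k‖, fun X hX j => ?_⟩
    have h1 := wf_supp Y hf X hX j
    have h2 : ‖Y j‖ ≤ ∑ k, ‖Y k‖ :=
      Finset.single_le_sum (f := fun k => ‖Y k‖) (fun _ _ => norm_nonneg _) (Finset.mem_univ j)
    calc ‖(X j).1‖ = ‖((X j).1 - Y j) + Y j‖ := by rw [sub_add_cancel]
      _ ≤ ‖(X j).1 - Y j‖ + ‖Y j‖ := norm_add_le _ _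
      _ ≤ _ := by linarith

theorem gof_wf (Y : Fin 3 → E3) (f : X3 → ℝ) (s : Fin 3 → Bool) :
    gof Y 1 s (wf Y f) = if s = fun _ => false then f else fun _ => 0 := by
  funext x
  unfold gof wf
  simp only [Equiv.Perm.coe_one, id_eq, add_sub_cancel_left]
  have hs : (∀ j, s j = false) ↔ (s = fun _ => false) :=
    ⟨fun h => funext h, fun h j => by rw [h]⟩
  simp only [hs]
  split_ifs with h
  · unfold pr
    rw [mul_assoc, ← Finset.prod_mul_distrib, Finset.prod_eq_one fun j _ => h0_cancel (x j), mul_one]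
  · rw [zero_mul]

theorem ip_zero : ip (fun _ => 0) (fun _ => 0) = 0 := by
  unfold ip
  simp

theorem BB_zero (U : X3 → ℝ) : BB U (fun _ => 0) (fun _ => 0) = 0 := by
  have h : ∀ j c x, pd j c (fun _ => (0 : ℝ)) x = 0 := by
    intro j c x
    unfold pd lineDeriv
    exact deriv_const _ _
  unfold BB DD Dj
  simp [h]

end Up

open Loc Up in
theorem p_up (hlink : S_link) (hpas : S_pas) (hvar : S_var) (hbl : S_bl) : S_up := by
  intro r a l hr hra hal
  have hr0 : 0 < r := by linarith
  have ha : 0 < a := by linarith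
  obtain ⟨b1, b2, b3, b4, b5, b6⟩ := hbl
  have hne : {e | ∃ f, Box S3 r f ∧ ip f f = 1 ∧ e = BB (U3 r a l) f f}.Nonempty := by
    obtain ⟨f, hf, hn, -⟩ := (hvar S3 r (fun _ => 0) ⟨0, Finset.mem_univ _⟩ hr measurable_const
      (fun _ => by simp)).2.2.1 1 one_pos
    exact ⟨_, f, hf, hn, rfl⟩
  have key : En 3 (yv a l) + 3 / 4 ≤ EE S3 r (U3 r a l) := by
    refine le_csInf hne ?_
    rintro e ⟨f, hf, hn, rfl⟩
    have hB : BL f := b4 S3 r f hf hr0 ⟨0, Finset.mem_univ _⟩
    have hLC := wf_LC (yv a l) hf hB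
    obtain ⟨-, l2, l3, -⟩ := hlink r a l 1 (wf (yv a l) f) hr hra hal hLC
      (fun X hX j => wf_supp (yv a l) hf X hX j)
    simp only [gof_wf] at l2 l3
    have s1 : ∀ g : (X3 → ℝ) → ℝ, g (fun _ => 0) = 0 →
        ∑ s : Fin 3 → Bool, g (if s = fun _ => false then f else fun _ => 0) = g f := by
      intro g hg
      rw [Finset.sum_eq_single (fun _ => false)]
      · rw [if_pos rfl]
      · intro s _ hs
        rw [if_neg hs, hg]
      · intro h
        exact absurd (Finset.mem_univ _) h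
    rw [s1 (fun g => ip g g) ip_zero, hn] at l2
    rw [s1 (fun g => BB (U3 r a l) g g) (BB_zero _), l2] at l3
    have h := hpas (Fin 3) (Fin 3) (Fin 3) (yv a l) id (fun k => Metric.closedBall (yv a l k) r)
      (wf (yv a l) f) ?_ hLC ?_ ?_
    · rw [Fintype.card_fin, l2, l3] at h
      linarith
    · intro k k' hk
      refine Metric.closedBall_disjoint_closedBall ?_
      rw [dist_eq_norm]
      have := yv_sep ha hal k k' hk
      linarith
    · intro X hX j
      rw [Metric.mem_closedBall, dist_eq_norm]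
      exact wf_supp (yv a l) hf X hX j
    · intro σ hσ X
      have h1 : σ = 1 := by
        ext j
        have : σ j = j := hσ j
        rw [this]
        rfl
      rw [h1]
      simp
  linarith

end MolDis.H
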