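import Pool.Agent.Lib.MP_59f35a_mp.HStmts

/-!
# MP_59f35a_mp, Theorem D, piece V1: near minimisers and the weak equation
-/

set_option autoImplicit false

noncomputable section

open MeasureTheory

namespace MolDis.H
namespace Var

/-! ### cut-offs -/

lemma zt_nonneg (r : ℝ) (x : E3) : 0 ≤ zt r x := le_max_left _ _

lemma zt_le_one (r : ℝ) (x : E3) : zt r x ≤ 1 := by
  unfold zt
  exact max_le zero_le_one (min_le_left _ _)

lemma zt_supp {r : ℝ} (hr : 0 < r) (x : E3) (h : zt r x ≠ 0) : ‖x‖ ≤ r := by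
  by_contra hx
  push Not at hx
  apply h
  unfold zt
  apply max_eq_left
  refine (min_le_right _ _).trans ?_
  have h1 : 2 ≤ 2 * ‖x‖ / r := by
    rw [le_div_iff₀ hr]
    linarith
  linarith

lemma zt_lip {r : ℝ} (hr : 0 < r) : LipschitzWith (Real.toNNReal (2 / r)) (zt r) := by
  have h1 : LipschitzWith (Real.toNNReal (2 / r)) (fun x : E3 => 2 - 2 * ‖x‖ / r) := by
    refine LipschitzWith.of_dist_le_mul (fun x y => ?_)
    rw [Real.coe_toNNReal _ (by positivity), Real.dist_eq, dist_eq_norm]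
    have h2 : (2 - 2 * ‖x‖ / r) - (2 - 2 * ‖y‖ / r) = (2 / r) * (‖y‖ - ‖x‖) := by
      field_simp
      ring
    rw [h2, abs_mul, abs_of_nonneg (by positivity : (0 : ℝ) ≤ 2 / r)]
    refine mul_le_mul_of_nonneg_left ?_ (by positivity)
    rw [abs_sub_comm]
    exact abs_norm_sub_norm_le x y
  have h2 := (h1.const_min 1).const_max 0
  exact h2

lemma zt_lc1 {r : ℝ} (hr : 0 < r) : LC1 (zt r) :=
  ⟨⟨_, zt_lip hr⟩, ⟨r, zt_supp hr⟩⟩

lemma zt_pos {r : ℝ} (hr : 0 < r) (x : E3) (hx : ‖x‖ < r) : 0 < zt r x := by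
  unfold zt
  apply lt_max_of_lt_right
  apply lt_min one_pos
  have h1 : 2 * ‖x‖ / r < 2 := by
    rw [div_lt_iff₀ hr]
    linarith
  linarith

lemma zt_int_pos (h_hm : S_hm) {r : ℝ} (hr : 0 < r) : 0 < ∫ y, zt r y ^ 2 ∂hm := by
  have hpm : IsProbabilityMeasure hm := h_hm.1
  have hcont : Continuous (fun y : E3 => zt r y ^ 2) := ((zt_lip hr).continuous).pow 2
  have hint : Integrable (fun y : E3 => zt r y ^ 2) hm := by
    refine Integrable.of_bound (C := 1) hcont.aestronglyMeasurable ?_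
    refine Filter.Eventually.of_forall (fun y => ?_)
    rw [Real.norm_eq_abs, abs_of_nonneg (by positivity)]
    exact pow_le_one₀ (zt_nonneg r y) (zt_le_one r y)
  rw [integral_pos_iff_support_of_nonneg (fun y => by positivity) hint]
  have h1 : Metric.ball (0 : E3) r ⊆ Function.support (fun y : E3 => zt r y ^ 2) := by
    intro y hy
    rw [mem_ball_zero_iff] at hy
    have := zt_pos hr y hy
    simp only [Function.mem_support]
    positivity
  refine lt_of_lt_of_le ?_ (measure_mono h1)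
  rw [pos_iff_ne_zero]
  intro h0
  have h2 := h_hm.2.2.1 h0
  exact (Metric.measure_ball_pos (volume : Measure E3) 0 hr).ne' h2

/-! ### the product of cut-offs -/

lemma ZS_BL (h_bl : S_bl) {r : ℝ} (hr : 0 < r) (S : Finset (Fin 3)) : BL (ZS S r) := by
  classical
  unfold ZS
  induction S using Finset.induction_on with
  | empty => simpa using h_bl.2.1 1
  | insert a s ha ih =>
    have h1 : (fun x : X3 => ∏ j ∈ insert a s, zt r (x j))
        = fun x => zt r (x a) * ∏ j ∈ s, zt r (x j) := by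
      funext x
      rw [Finset.prod_insert ha]
    rw [h1]
    exact (h_bl.1 _ _ (h_bl.2.2.2.2.2 (zt r) a (zt_lc1 hr)) ih).2.2

lemma ZS_box (h_bl : S_bl) {r : ℝ} (hr : 0 < r) (S : Finset (Fin 3)) : Box S r (ZS S r) := by
  refine ⟨(ZS_BL h_bl hr S).lip, ?_, ?_⟩
  · intro x hx j hj
    unfold ZS at hx
    rw [Finset.prod_ne_zero_iff] at hx
    exact zt_supp hr _ (hx j hj)
  · intro j hj x y
    unfold ZS
    refine Finset.prod_congr rfl (fun i hi => ?_)
    rw [Function.update_of_ne (fun h => hj (by rw [← h]; exact hi))]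

lemma ZS_ip_pos (h_hm : S_hm) (h_prod : S_prod) {r : ℝ} (hr : 0 < r) (S : Finset (Fin 3)) :
    0 < ip (ZS S r) (ZS S r) := by
  classical
  have h1 : ip (ZS S r) (ZS S r) =
      ∫ x : X3, ∏ j, (fun (j : Fin 3) (y : E3) => if j ∈ S then zt r y ^ 2 else 1) j (x j) ∂pm := by
    unfold ip
    refine integral_congr_ae (Filter.Eventually.of_forall (fun x => ?_))
    simp only [ZS]
    rw [← Finset.prod_mul_distrib, ← Finset.prod_filter]
    simp only [Finset.filter_mem_eq_inter, Finset.univ_inter]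
    refine Finset.prod_congr rfl (fun i _ => ?_)
    ring
  rw [h1]
  have h2 := h_prod.2.2.2.1 (fun (j : Fin 3) (y : E3) => if j ∈ S then zt r y ^ 2 else 1)
  rw [h2]
  refine Finset.prod_pos (fun j _ => ?_)
  have := h_hm.1
  by_cases hj : j ∈ S
  · simp only [hj, if_true]
    exact zt_int_pos h_hm hr
  · simp [hj]

/-! ### the quadratic form -/

lemma bl_smul (h_bl : S_bl) (c : ℝ) {f : X3 → ℝ} (hf : BL f) : BL (fun x => c * f x) :=
  (h_bl.1 _ _ (h_bl.2.1 c) hf).2.2

lemma int_mul (h_bl : S_bl) {f g : X3 → ℝ} (hf : BL f) (hg : BL g) :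
    Integrable (fun x => f x * g x) pm :=
  (h_bl.2.2.1 _ (h_bl.1 _ _ hf hg).2.2).2.1

lemma int_U (h_bl : S_bl) {U f g : X3 → ℝ} (hU : Measurable U) (hb : ∀ x, |U x| ≤ 1)
    (hf : BL f) (hg : BL g) : Integrable (fun x => U x * f x * g x) pm := by
  have h1 := int_mul h_bl hf hg
  have h2 : Integrable (fun x => U x * (f x * g x)) pm := by
    refine h1.bdd_mul (c := 1) hU.aestronglyMeasurable ?_
    exact Filter.Eventually.of_forall (fun x => by rw [Real.norm_eq_abs]; exact hb x)
  refine h2.congr (Filter.Eventually.of_forall (fun x => ?_))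
  simp only
  ring

lemma DD_expand (h_bl : S_bl) (h_form : S_form) {f g : X3 → ℝ} (hf : BL f) (hg : BL g) (t : ℝ) :
    DD (fun x => t * f x + g x) (fun x => t * f x + g x) =
      t ^ 2 * DD f f + 2 * t * DD f g + DD g g := by
  unfold DD
  rw [Finset.mul_sum, Finset.mul_sum, ← Finset.sum_add_distrib, ← Finset.sum_add_distrib]
  refine Finset.sum_congr rfl (fun j _ => ?_)
  have htf := bl_smul h_bl t hf
  have hs : BL (fun x => t * f x + g x) := (h_bl.1 _ _ htf hg).1
  have e1 := (h_form.1 j (fun x => t * f x) g (fun x => t * f x + g x) htf hg hs 0).2.2.1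
  have e2 := (h_form.1 j f (fun x => t * f x + g x) g hf hs hg t).2.2.2.2.1
  have e3 := (h_form.1 j f (fun x => t * f x + g x) g hf hs hg t).1
  have e4 := (h_form.1 j g (fun x => t * f x + g x) g hg hs hg t).1
  have e5 := (h_form.1 j (fun x => t * f x) g f htf hg hf t).2.2.1
  have e6 := (h_form.1 j (fun x => t * f x) g g htf hg hg t).2.2.1
  have e7 := (h_form.1 j f f g hf hf hg t).2.2.2.2.1
  have e8 := (h_form.1 j f g g hf hg hg t).2.2.2.2.1
  have e9 := (h_form.1 j g f g hg hf hg t).1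
  rw [e1, e2, e3, e4, e5, e6, e7, e8, e9]
  ring

lemma ip_expand (h_bl : S_bl) {f g : X3 → ℝ} (hf : BL f) (hg : BL g) (t : ℝ) :
    ip (fun x => t * f x + g x) (fun x => t * f x + g x) =
      t ^ 2 * ip f f + 2 * t * ip f g + ip g g := by
  unfold ip
  rw [← integral_const_mul, ← integral_const_mul, ← integral_add, ← integral_add]
  · refine integral_congr_ae (Filter.Eventually.of_forall (fun x => ?_))
    simp only
    ring
  · exact ((int_mul h_bl hf hf).const_mul _).add ((int_mul h_bl hf hg).const_mul _)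
  · exact int_mul h_bl hg hg
  · exact (int_mul h_bl hf hf).const_mul _
  · exact (int_mul h_bl hf hg).const_mul _

lemma BB_expand (h_bl : S_bl) (h_form : S_form) {U f g : X3 → ℝ} (hU : Measurable U)
    (hb : ∀ x, |U x| ≤ 1) (hf : BL f) (hg : BL g) (t : ℝ) :
    BB U (fun x => t * f x + g x) (fun x => t * f x + g x) =
      t ^ 2 * BB U f f + 2 * t * BB U f g + BB U g g := by
  unfold BB
  rw [DD_expand h_bl h_form hf hg t]
  have h1 : ∫ x, U x * (t * f x + g x) * (t * f x + g x) ∂pm =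
      t ^ 2 * (∫ x, U x * f x * f x ∂pm) + 2 * t * (∫ x, U x * f x * g x ∂pm)
        + ∫ x, U x * g x * g x ∂pm := by
    rw [← integral_const_mul, ← integral_const_mul, ← integral_add, ← integral_add]
    · refine integral_congr_ae (Filter.Eventually.of_forall (fun x => ?_))
      simp only
      ring
    · exact ((int_U h_bl hU hb hf hf).const_mul _).add ((int_U h_bl hU hb hf hg).const_mul _)
    · exact int_U h_bl hU hb hg hg
    · exact (int_U h_bl hU hb hf hf).const_mul _
    · exact (int_U h_bl hU hb hf hg).const_mul _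
  rw [h1]
  ring

lemma DD_nonneg (h_form : S_form) {f : X3 → ℝ} (hf : BL f) : 0 ≤ DD f f :=
  Finset.sum_nonneg (fun j _ => (h_form.1 j f f f hf hf hf 0).2.1)

lemma ip_nonneg (f : X3 → ℝ) : 0 ≤ ip f f := integral_nonneg (fun _ => mul_self_nonneg _)

lemma absU (h_bl : S_bl) {U f : X3 → ℝ} (hb : ∀ x, |U x| ≤ 1) (hf : BL f) :
    |∫ x, U x * f x * f x ∂pm| ≤ ip f f := by
  unfold ip
  rw [← Real.norm_eq_abs]
  refine norm_integral_le_of_norm_le (int_mul h_bl hf hf)
    (Filter.Eventually.of_forall (fun x => ?_))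
  rw [Real.norm_eq_abs, mul_assoc, abs_mul, abs_mul_self]
  calc |U x| * (f x * f x) ≤ 1 * (f x * f x) :=
        mul_le_mul_of_nonneg_right (hb x) (mul_self_nonneg _)
    _ = f x * f x := one_mul _

lemma BB_ge (h_bl : S_bl) (h_form : S_form) {U f : X3 → ℝ} (hb : ∀ x, |U x| ≤ 1) (hf : BL f) :
    - ip f f ≤ BB U f f := by
  have h1 := DD_nonneg h_form hf
  have h2 := (abs_le.1 (absU h_bl hb hf)).1
  unfold BB
  linarith

lemma BB_smul (h_bl : S_bl) (h_form : S_form) {U f : X3 → ℝ} (hU : Measurable U)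
    (hb : ∀ x, |U x| ≤ 1) (hf : BL f) (t : ℝ) :
    BB U (fun x => t * f x) (fun x => t * f x) = t ^ 2 * BB U f f := by
  have h0 : BL (fun _ : X3 => (0 : ℝ)) := h_bl.2.1 0
  have h1 := BB_expand h_bl h_form hU hb hf h0 t
  have h2 : (fun x => t * f x + 0) = fun x => t * f x := by
    funext x
    ring
  rw [h2] at h1
  have h3 := BB_expand h_bl h_form hU hb h0 h0 1
  have h4 := BB_expand h_bl h_form hU hb hf h0 0
  have h5 := BB_expand h_bl h_form hU hb hf h0 1
  have h3' : (fun _ : X3 => (1 : ℝ) * 0 + (0 : ℝ)) = fun _ : X3 => (0 : ℝ) := by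
    funext x
    simp
  have h5' : (fun x : X3 => (1 : ℝ) * f x + (0 : ℝ)) = f := by
    funext x
    simp
  rw [h3'] at h3
  rw [h5'] at h5
  have h6 : BB U (fun _ : X3 => (0 : ℝ)) (fun _ : X3 => (0 : ℝ)) = 0 := by linarith
  have h7 : BB U f (fun _ : X3 => (0 : ℝ)) = 0 := by linarith
  rw [h1, h6, h7]
  ring

lemma ip_smul (f : X3 → ℝ) (t : ℝ) :
    ip (fun x => t * f x) (fun x => t * f x) = t ^ 2 * ip f f := by
  unfold ip
  rw [← integral_const_mul]
  refine integral_congr_ae (Filter.Eventually.of_forall (fun x => ?_))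
  simp only
  ring

end Var

open Var in
/-- **V1.** -/
theorem p_var (h_hm : S_hm) (h_prod : S_prod) (h_bl : S_bl) (h_form : S_form) : S_var := by
  intro S r U hS hr1 hU hb
  have hr : 0 < r := lt_of_lt_of_le one_pos hr1
  have toBL : ∀ f, Box S r f → BL f := fun f hf => h_bl.2.2.2.1 S r f hf hr hS
  have boxs : ∀ (c : ℝ) f, Box S r f → Box S r (fun x => c * f x) :=
    fun c f hf => (h_bl.2.2.2.2.1 S r f f c hf hf).2.2
  have boxa : ∀ f g, Box S r f → Box S r g → Box S r (fun x => f x + g x) :=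
    fun f g hf hg => (h_bl.2.2.2.2.1 S r f g 0 hf hg).1
  set A : Set ℝ := {e | ∃ f, Box S r f ∧ ip f f = 1 ∧ e = BB U f f} with hA
  have hbelow : ∀ e ∈ A, -1 ≤ e := by
    rintro e ⟨f, hf, hn, rfl⟩
    have := BB_ge h_bl h_form hb (toBL f hf)
    rw [hn] at this
    exact this
  have hbdd : BddBelow A := ⟨-1, hbelow⟩
  have hnorm : ∀ f, Box S r f → 0 < ip f f → BB U f f / ip f f ∈ A := by
    intro f hf hp
    refine ⟨fun x => (√(ip f f))⁻¹ * f x, boxs _ f hf, ?_, ?_⟩
    · rw [ip_smul, inv_pow, Real.sq_sqrt hp.le, inv_mul_cancel₀ hp.ne']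
    · rw [BB_smul h_bl h_form hU hb (toBL f hf), inv_pow, Real.sq_sqrt hp.le]
      field_simp
  have hne : A.Nonempty := ⟨_, hnorm _ (ZS_box h_bl hr S) (ZS_ip_pos h_hm h_prod hr S)⟩
  have hEE : EE S r U = sInf A := rfl
  have hm1 : -1 ≤ EE S r U := by
    rw [hEE]
    exact le_csInf hne hbelow
  have hquad : ∀ f, Box S r f → EE S r U * ip f f ≤ BB U f f := by
    intro f hf
    rcases (ip_nonneg f).eq_or_lt with h0 | hp
    · rw [← h0, mul_zero]
      have := BB_ge h_bl h_form hb (toBL f hf)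
      rw [← h0] at this
      linarith
    · have h1 : EE S r U ≤ BB U f f / ip f f := by
        rw [hEE]
        exact csInf_le hbdd (hnorm f hf hp)
      rwa [le_div_iff₀ hp] at h1
  refine ⟨hm1, hquad, ?_, ?_⟩
  · intro ε hε
    obtain ⟨e, ⟨f, hf, hn, rfl⟩, he⟩ := exists_lt_of_csInf_lt hne (lt_add_of_pos_right (sInf A) hε)
    exact ⟨f, hf, hn, he.le⟩
  · intro η φ v hη hφ hn hle hv
    have bφ := toBL φ hφ
    have bv := toBL v hv
    set E := EE S r U with hE
    have hq : ∀ t : ℝ, 0 ≤ (BB U φ φ - E) * (t * t) + (2 * (BB U φ v - E * ip φ v)) * t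
        + (BB U v v - E * ip v v) := by
      intro t
      have h1 := hquad _ (boxa _ _ (boxs t φ hφ) hv)
      rw [BB_expand h_bl h_form hU hb bφ bv t, ip_expand h_bl bφ bv t, hn] at h1
      linarith
    have hd := discrim_le_zero hq
    unfold discrim at hd
    have hvv : BB U v v - E * ip v v ≤ DD v v + 2 * ip v v := by
      have h1 := (abs_le.1 (absU h_bl hb bv)).2
      have h2 := ip_nonneg v
      have h3 : - ip v v ≤ E * ip v v := by
        have := mul_le_mul_of_nonneg_right hm1 h2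
        linarith
      unfold BB
      linarith
    have hvv0 : 0 ≤ BB U v v - E * ip v v := by
      have := hquad v hv
      linarith
    have hη1 : BB U φ φ - E ≤ η := by linarith
    have hsq : (BB U φ v - E * ip φ v) ^ 2 ≤ η * (DD v v + 2 * ip v v) := by
      have h1 : (BB U φ v - E * ip φ v) ^ 2 ≤ (BB U φ φ - E) * (BB U v v - E * ip v v) := by
        nlinarith
      have h2 : (BB U φ φ - E) * (BB U v v - E * ip v v) ≤ η * (DD v v + 2 * ip v v) :=
        mul_le_mul hη1 hvv hvv0 hη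
      exact h1.trans h2
    rw [← Real.sqrt_mul hη]
    exact Real.abs_le_sqrt hsq

end MolDis.H
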