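import Pool.Agent.Lib.MP_59f35a_mp.HStmts
import Pool.Agent.Lib.MP_59f35a_mp.H.Form

/-!
# MP_59f35a_mp, piece E2: weak equation of the pair with a spectator
-/

set_option autoImplicit false
set_option maxHeartbeats 1000000

noncomputable section

open MeasureTheory

namespace MolDis.H

namespace WeakA

/-- slice in the variable 2 -/
def vt (v : X3 → ℝ) (t : E3) : X3 → ℝ := fun x => v (Function.update x 2 t)

lemma upd_add (j : Fin 3) (hj : j ≠ 2) (x : X3) (t e : E3) (s : ℝ) :
    Function.update (x + s • (Pi.single j e : X3)) 2 t =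
      Function.update x 2 t + s • (Pi.single j e : X3) := by
  funext i
  by_cases hi : i = 2
  · subst hi
    simp [Pi.single_eq_of_ne hj.symm]
  · simp [Function.update_of_ne hi]

lemma pd_vt (j : Fin 3) (hj : j ≠ 2) (c : Fin 3) (v : X3 → ℝ) (t : E3) (x : X3) :
    pd j c (vt v t) x = pd j c v (Function.update x 2 t) := by
  unfold pd lineDeriv vt
  simp only [upd_add j hj]

lemma pd_ind (j c : Fin 3) {φ : X3 → ℝ} (hφ : ∀ x y, φ (Function.update x j y) = φ x) (x : X3) :
    pd j c φ x = 0 := by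
  have h := Form.pd_cmul (w := φ) (f := fun _ => (1 : ℝ)) j c hφ x
  have h1 : pd j c (fun _ : X3 => (1 : ℝ)) x = 0 := by
    unfold pd lineDeriv
    simp
  rw [h1, mul_zero] at h
  simpa using h

lemma vt_ind {φ : X3 → ℝ} (hφ : ∀ x y, φ (Function.update x 2 y) = φ x) (t : E3) :
    vt φ t = φ := funext fun x => hφ x t

lemma lip_upd (t : E3) : LipschitzWith 1 (fun x : X3 => Function.update x 2 t) := by
  refine LipschitzWith.of_dist_le_mul fun x y => ?_
  simp only [NNReal.coe_one, one_mul]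
  refine (dist_pi_le_iff dist_nonneg).2 fun i => ?_
  by_cases hi : i = 2
  · subst hi
    simp only [Function.update_self, dist_self]
    exact dist_nonneg
  · simp only [Function.update_of_ne hi]
    exact dist_le_pi_dist x y i

lemma box_vt {r : ℝ} {v : X3 → ℝ} (hv : Box S3 r v) (t : E3) : Box S2 r (vt v t) := by
  refine ⟨?_, ?_, ?_⟩
  · obtain ⟨K, hK⟩ := hv.lip
    exact ⟨K * 1, hK.comp (lip_upd t)⟩
  · intro x hx j hj
    have hj2 : j ≠ 2 := by
      intro h; subst h; simp [S2] at hj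
    have := hv.supp _ hx j (Finset.mem_univ j)
    rwa [Function.update_of_ne hj2] at this
  · intro j hj x y
    have hj2 : j = 2 := by
      fin_cases j <;> simp_all [S2]
    subst hj2
    unfold vt
    rw [Function.update_idem]

/-- Fubini in the variable 2 -/
lemma fub (hhm : S_hm) (hP : S_prod) {F : X3 → ℝ} (hF : Integrable F pm) :
    Integrable (fun t => ∫ x, F (Function.update x 2 t) ∂pm) hm ∧
    ∫ x, F x ∂pm = ∫ t, (∫ x, F (Function.update x 2 t) ∂pm) ∂hm := by
  have := hhm.1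
  have := hP.1
  have mp := hP.2.1 2
  have h1 : Integrable (fun p : X3 × E3 => F (Function.update p.1 2 p.2)) (pm.prod hm) :=
    mp.integrable_comp_of_integrable hF
  refine ⟨h1.integral_prod_right, ?_⟩
  have h3 : ∫ p : X3 × E3, F (Function.update p.1 2 p.2) ∂(pm.prod hm) = ∫ x, F x ∂pm := by
    have h4 := mp.map_eq
    conv_rhs => rw [← h4]
    rw [integral_map mp.measurable.aemeasurable]
    rw [h4]; exact hF.aestronglyMeasurable
  rw [← h3]
  exact integral_prod_symm _ h1

lemma bmul {F G : X3 → ℝ} (hF : Measurable F ∧ ∃ K : ℝ, ∀ x, |F x| ≤ K)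
    (hG : Measurable G ∧ ∃ K : ℝ, ∀ x, |G x| ≤ K) :
    Measurable (fun x => F x * G x) ∧ ∃ K : ℝ, ∀ x, |F x * G x| ≤ K :=
  ⟨hF.1.mul hG.1, Form.mulb hF.2 hG.2⟩

end WeakA

open WeakA in
theorem p_weakA (hvar : S_var) (hhm : S_hm) (hP : S_prod) (hbl : S_bl) :
    S_weakA := by
  intro r a φ v θ hr hV1 hVm hV2 hφ hθ hv
  have := hhm.1
  have := hP.1
  set U : X3 → ℝ := V12 r a with hU
  clear_value U
  set E0 : ℝ := EE S2 r U with hE0
  have hne : S2.Nonempty := ⟨0, by simp [S2]⟩
  have hr0 : 0 < r := by linarith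
  have hφBL : BL φ := hbl.2.2.2.1 S2 r φ hφ.box hr0 hne
  have hvBL : BL v := hbl.2.2.2.1 S3 r v hv hr0 ⟨0, Finset.mem_univ _⟩
  have hφ2 : ∀ x y, φ (Function.update x 2 y) = φ x := hφ.box.ind 2 (by simp [S2])
  have hθBL : BL (fun x : X3 => θ (x 2)) := hbl.2.2.2.2.2 θ 2 hθ
  obtain ⟨Bθ, hBθ⟩ : ∃ B : ℝ, ∀ t, |θ t| ≤ B := by
    obtain ⟨B, hB⟩ := hθBL.bdd
    exact ⟨B, fun t => hB (fun _ => t)⟩
  have hθm : Measurable θ := by
    obtain ⟨K, hK⟩ := hθ.lip
    exact hK.continuous.measurable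
  -- bounded measurable functions
  have bφ : Measurable φ ∧ ∃ K : ℝ, ∀ x, |φ x| ≤ K := ⟨(hbl.2.2.1 φ hφBL).1, hφBL.bdd⟩
  have bv : Measurable v ∧ ∃ K : ℝ, ∀ x, |v x| ≤ K := ⟨(hbl.2.2.1 v hvBL).1, hvBL.bdd⟩
  have bθ : Measurable (fun x : X3 => θ (x 2)) ∧ ∃ K : ℝ, ∀ x : X3, |θ (x 2)| ≤ K :=
    ⟨hθm.comp (measurable_pi_apply 2), hθBL.bdd⟩
  have bU : Measurable U ∧ ∃ K : ℝ, ∀ x, |U x| ≤ K := ⟨hVm, 1, hV1⟩
  have bpφ : ∀ j c, Measurable (pd j c φ) ∧ ∃ K : ℝ, ∀ x, |pd j c φ x| ≤ K := fun j c =>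
    ⟨Form.pdm hbl hφBL j c, Form.pdb hbl hφBL j c⟩
  have bpv : ∀ j c, Measurable (pd j c v) ∧ ∃ K : ℝ, ∀ x, |pd j c v x| ≤ K := fun j c =>
    ⟨Form.pdm hbl hvBL j c, Form.pdb hbl hvBL j c⟩
  -- the five Fubini statements
  have hself : ∀ (x : X3) (t : E3), (Function.update x 2 t) 2 = t := fun x t =>
    Function.update_self _ _ _
  have F1 : ∀ j, j ≠ 2 → ∀ c,
      Integrable (fun t => θ t * ∫ x, pd j c φ x * pd j c (vt v t) x ∂pm) hm ∧
      ∫ x, θ (x 2) * (pd j c φ x * pd j c v x) ∂pm =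
        ∫ t, θ t * ∫ x, pd j c φ x * pd j c (vt v t) x ∂pm ∂hm := by
    intro j hj c
    have b := bmul bθ (bmul (bpφ j c) (bpv j c))
    have h := fub hhm hP (Form.bint hP b.1 b.2)
    have e : (fun t => ∫ x, θ ((Function.update x 2 t) 2) * (pd j c φ (Function.update x 2 t) *
        pd j c v (Function.update x 2 t)) ∂pm) =
        fun t => θ t * ∫ x, pd j c φ x * pd j c (vt v t) x ∂pm := by
      funext t
      rw [← integral_const_mul]
      refine integral_congr_ae (ae_of_all _ fun x => ?_)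
      simp only [hself]
      rw [← pd_vt j hj c φ t x, vt_ind hφ2, ← pd_vt j hj c v t x]
    rw [e] at h
    exact h
  have F2 : Integrable (fun t => θ t * ∫ x, U x * φ x * vt v t x ∂pm) hm ∧
      ∫ x, U x * (φ x * θ (x 2)) * v x ∂pm =
        ∫ t, θ t * ∫ x, U x * φ x * vt v t x ∂pm ∂hm := by
    have b := bmul (bmul bU (bmul bφ bθ)) bv
    have h := fub hhm hP (Form.bint hP b.1 b.2)
    have e : (fun t => ∫ x, U (Function.update x 2 t) * (φ (Function.update x 2 t) *
        θ ((Function.update x 2 t) 2)) * v (Function.update x 2 t) ∂pm) =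
        fun t => θ t * ∫ x, U x * φ x * vt v t x ∂pm := by
      funext t
      rw [← integral_const_mul]
      refine integral_congr_ae (ae_of_all _ fun x => ?_)
      simp only [hself, hV2, hφ2, vt]
      ring
    rw [e] at h
    exact h
  have F3 : Integrable (fun t => θ t * ip φ (vt v t)) hm ∧
      ip (fun x => φ x * θ (x 2)) v = ∫ t, θ t * ip φ (vt v t) ∂hm := by
    have b := bmul (bmul bφ bθ) bv
    have h := fub hhm hP (Form.bint hP b.1 b.2)
    have e : (fun t => ∫ x, (φ (Function.update x 2 t) *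
        θ ((Function.update x 2 t) 2)) * v (Function.update x 2 t) ∂pm) =
        fun t => θ t * ip φ (vt v t) := by
      funext t
      unfold ip
      rw [← integral_const_mul]
      refine integral_congr_ae (ae_of_all _ fun x => ?_)
      simp only [hself, hφ2, vt]
      ring
    rw [e] at h
    exact h
  have F4 : ∀ j, j ≠ 2 → ∀ c,
      Integrable (fun t => ∫ x, pd j c (vt v t) x * pd j c (vt v t) x ∂pm) hm ∧
      ∫ x, pd j c v x * pd j c v x ∂pm =
        ∫ t, ∫ x, pd j c (vt v t) x * pd j c (vt v t) x ∂pm ∂hm := by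
    intro j hj c
    have b := bmul (bpv j c) (bpv j c)
    have h := fub hhm hP (Form.bint hP b.1 b.2)
    have e : (fun t => ∫ x, (pd j c v (Function.update x 2 t) *
        pd j c v (Function.update x 2 t)) ∂pm) =
        fun t => ∫ x, pd j c (vt v t) x * pd j c (vt v t) x ∂pm := by
      funext t
      refine integral_congr_ae (ae_of_all _ fun x => ?_)
      simp only
      rw [← pd_vt j hj c v t x]
    rw [e] at h
    exact h
  have F5 : Integrable (fun t => ip (vt v t) (vt v t)) hm ∧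
      ip v v = ∫ t, ip (vt v t) (vt v t) ∂hm := by
    have b := bmul bv bv
    exact fub hhm hP (Form.bint hP b.1 b.2)
  have h02 : (0 : Fin 3) ≠ 2 := by decide
  have h12 : (1 : Fin 3) ≠ 2 := by decide
  -- the Dirichlet forms
  have DJ : ∀ j, j ≠ 2 → Integrable (fun t => θ t * Dj j φ (vt v t)) hm ∧
      Dj j (fun x => φ x * θ (x 2)) v = ∫ t, θ t * Dj j φ (vt v t) ∂hm := by
    intro j hj
    have e1 : (fun x : X3 => φ x * θ (x 2)) = fun x => θ (x 2) * φ x := by
      funext x; ring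
    have hw : ∀ (x : X3) (y : E3), θ ((Function.update x j y) 2) = θ (x 2) := by
      intro x y
      rw [Function.update_of_ne hj.symm]
    have e2 : Dj j (fun x => φ x * θ (x 2)) v =
        ∑ c, ∫ x, θ (x 2) * (pd j c φ x * pd j c v x) ∂pm := by
      rw [e1]
      unfold Dj
      refine Finset.sum_congr rfl fun c _ => ?_
      refine integral_congr_ae (ae_of_all _ fun x => ?_)
      simp only
      rw [Form.pd_cmul (w := fun x : X3 => θ (x 2)) j c hw x, mul_assoc]
    have e3 : (fun t => θ t * Dj j φ (vt v t)) =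
        fun t => ∑ c, θ t * ∫ x, pd j c φ x * pd j c (vt v t) x ∂pm := by
      funext t
      unfold Dj
      rw [Finset.mul_sum]
    constructor
    · rw [e3]
      exact integrable_finsetSum _ fun c _ => (F1 j hj c).1
    · rw [e2, e3, integral_finsetSum _ fun c _ => (F1 j hj c).1]
      exact Finset.sum_congr rfl fun c _ => (F1 j hj c).2
  have DJ4 : ∀ j, j ≠ 2 → Integrable (fun t => Dj j (vt v t) (vt v t)) hm ∧
      Dj j v v = ∫ t, Dj j (vt v t) (vt v t) ∂hm := by
    intro j hj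
    constructor
    · unfold Dj
      exact integrable_finsetSum _ fun c _ => (F4 j hj c).1
    · unfold Dj
      rw [integral_finsetSum _ fun c _ => (F4 j hj c).1]
      exact Finset.sum_congr rfl fun c _ => (F4 j hj c).2
  have DJ2 : ∀ f : X3 → ℝ, ∀ t, Dj 2 f (vt v t) = 0 := by
    intro f t
    unfold Dj
    refine Finset.sum_eq_zero fun c _ => ?_
    have : (fun x => pd 2 c f x * pd 2 c (vt v t) x) = fun _ => 0 := by
      funext x
      rw [pd_ind 2 c (φ := vt v t) ((box_vt hv t).ind 2 (by simp [S2])) x, mul_zero]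
    rw [this, integral_zero]
  have hDD : ∀ (f : X3 → ℝ) t, DD f (vt v t) = Dj 0 f (vt v t) + Dj 1 f (vt v t) := by
    intro f t
    unfold DD
    rw [Fin.sum_univ_three, DJ2, add_zero]
  -- the left side
  set Ht : E3 → ℝ := fun t => BB U φ (vt v t) - E0 * ip φ (vt v t) with hHt
  set G : E3 → ℝ := fun t => DD (vt v t) (vt v t) + 2 * ip (vt v t) (vt v t) with hG
  have hL : Integrable (fun t => θ t * Ht t) hm ∧
      Dj 0 (fun x => φ x * θ (x 2)) v + Dj 1 (fun x => φ x * θ (x 2)) v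
      + (∫ x, U x * (φ x * θ (x 2)) * v x ∂pm)
      - E0 * ip (fun x => φ x * θ (x 2)) v = ∫ t, θ t * Ht t ∂hm := by
    have e : (fun t => θ t * Ht t) = fun t => ((θ t * Dj 0 φ (vt v t) + θ t * Dj 1 φ (vt v t))
        + θ t * ∫ x, U x * φ x * vt v t x ∂pm) - E0 * (θ t * ip φ (vt v t)) := by
      funext t
      simp only [hHt]
      unfold BB
      rw [hDD]
      ring
    have i0 := (DJ 0 h02).1
    have i1 := (DJ 1 h12).1
    have i01 : Integrable (fun t => θ t * Dj 0 φ (vt v t) + θ t * Dj 1 φ (vt v t)) hm := i0.add i1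
    have i2 : Integrable (fun t => (θ t * Dj 0 φ (vt v t) + θ t * Dj 1 φ (vt v t))
        + θ t * ∫ x, U x * φ x * vt v t x ∂pm) hm := i01.add F2.1
    have i3 : Integrable (fun t => E0 * (θ t * ip φ (vt v t))) hm := F3.1.const_mul E0
    constructor
    · rw [e]; exact i2.sub i3
    · rw [e, integral_sub i2 i3, integral_add i01 F2.1, integral_add i0 i1, integral_const_mul,
        (DJ 0 h02).2, (DJ 1 h12).2, F2.2, F3.2]
  have hGi : Integrable G hm ∧ ∫ t, G t ∂hm ≤ DD v v + 2 * ip v v := by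
    have e : G = fun t => (Dj 0 (vt v t) (vt v t) + Dj 1 (vt v t) (vt v t))
        + 2 * ip (vt v t) (vt v t) := by
      funext t
      simp only [hG]
      rw [hDD]
    have i0 := (DJ4 0 h02).1
    have i1 := (DJ4 1 h12).1
    have i01 : Integrable (fun t => Dj 0 (vt v t) (vt v t) + Dj 1 (vt v t) (vt v t)) hm := i0.add i1
    have i2 : Integrable (fun t => 2 * ip (vt v t) (vt v t)) hm := F5.1.const_mul 2
    constructor
    · rw [e]; exact i01.add i2
    · rw [e, integral_add i01 i2, integral_add i0 i1, integral_const_mul, ← (DJ4 0 h02).2,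
        ← (DJ4 1 h12).2, ← F5.2]
      have h2 : 0 ≤ Dj 2 v v := Form.Dj_nonneg 2 v
      have h3 : DD v v = Dj 0 v v + Dj 1 v v + Dj 2 v v := by
        unfold DD
        rw [Fin.sum_univ_three]
      rw [h3]
      linarith
  have hG0 : ∀ t, 0 ≤ G t := by
    intro t
    have h1 : 0 ≤ DD (vt v t) (vt v t) := Form.DD_nonneg _
    have h2 : 0 ≤ ip (vt v t) (vt v t) := integral_nonneg fun _ => mul_self_nonneg _
    simp only [hG]
    linarith
  have hsq : √(Real.exp (-r)) = Real.exp (-r / 2) := by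
    have : Real.exp (-r) = Real.exp (-r / 2) ^ 2 := by
      rw [← Real.exp_nat_mul]; congr 1; push_cast; ring
    rw [this, Real.sqrt_sq (Real.exp_pos _).le]
  have hH : ∀ t, |Ht t| ≤ Real.exp (-r / 2) * √(G t) := by
    intro t
    have h := (hvar S2 r U hne hr hVm hV1).2.2.2 (Real.exp (-r)) φ (vt v t) (Real.exp_pos _).le
      hφ.box hφ.norm hφ.le (box_vt hv t)
    rw [hsq] at h
    exact h
  -- Cauchy-Schwarz
  have hθ2 : Integrable (fun t => θ t ^ 2) hm := by
    refine Integrable.of_bound (hθm.pow_const 2).aestronglyMeasurable (Bθ ^ 2) (ae_of_all _ fun t => ?_)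
    rw [Real.norm_eq_abs, abs_pow]
    exact pow_le_pow_left₀ (abs_nonneg _) (hBθ t) 2
  have hmix : Integrable (fun t => |θ t| * √(G t)) hm := by
    have hmeas : AEStronglyMeasurable (fun t => |θ t| * √(G t)) hm :=
      (hθm.norm.aestronglyMeasurable).mul
        (Real.continuous_sqrt.comp_aestronglyMeasurable hGi.1.aestronglyMeasurable)
    refine Integrable.mono' (hθ2.add hGi.1) hmeas (ae_of_all _ fun t => ?_)
    rw [Real.norm_eq_abs, abs_of_nonneg (mul_nonneg (abs_nonneg _) (Real.sqrt_nonneg _))]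
    have h1 := Real.sq_sqrt (hG0 t)
    have h2 := sq_abs (θ t)
    simp only [Pi.add_apply]
    nlinarith [sq_nonneg (|θ t| - √(G t)), sq_nonneg (|θ t|), sq_nonneg (√(G t))]
  have hCS : ∫ t, |θ t| * √(G t) ∂hm ≤ √(∫ t, θ t ^ 2 ∂hm) * √(∫ t, G t ∂hm) := by
    have h := Form.quad (a := ∫ t, θ t ^ 2 ∂hm) (b := ∫ t, |θ t| * √(G t) ∂hm) (c := ∫ t, G t ∂hm)
      (integral_nonneg fun _ => sq_nonneg _) (fun s => by
        have e : ∫ t, (|θ t| + s * √(G t)) ^ 2 ∂hm =
            (∫ t, θ t ^ 2 ∂hm) + 2 * s * (∫ t, |θ t| * √(G t) ∂hm) + s ^ 2 * ∫ t, G t ∂hm := by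
          have e1 : (fun t => (|θ t| + s * √(G t)) ^ 2) = fun t => (θ t ^ 2
              + 2 * s * (|θ t| * √(G t))) + s ^ 2 * G t := by
            funext t
            have h1 := Real.sq_sqrt (hG0 t)
            have h2 := sq_abs (θ t)
            calc (|θ t| + s * √(G t)) ^ 2 = |θ t| ^ 2 + 2 * s * (|θ t| * √(G t))
                + s ^ 2 * √(G t) ^ 2 := by ring
              _ = _ := by rw [h1, h2]
          have i2 := hmix.const_mul (2 * s)
          have i3 := hGi.1.const_mul (s ^ 2)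
          have i12 : Integrable (fun t => θ t ^ 2 + 2 * s * (|θ t| * √(G t))) hm := hθ2.add i2
          rw [e1, integral_add i12 i3, integral_add hθ2 i2, integral_const_mul, integral_const_mul]
        rw [← e]
        exact integral_nonneg fun _ => sq_nonneg _)
    exact (le_abs_self _).trans h
  rw [hL.2]
  calc |∫ t, θ t * Ht t ∂hm| ≤ ∫ t, |θ t * Ht t| ∂hm := abs_integral_le_integral_abs
    _ ≤ ∫ t, Real.exp (-r / 2) * (|θ t| * √(G t)) ∂hm := by
        refine integral_mono hL.1.abs (hmix.const_mul _) fun t => ?_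
        simp only
        rw [abs_mul]
        calc |θ t| * |Ht t| ≤ |θ t| * (Real.exp (-r / 2) * √(G t)) :=
              mul_le_mul_of_nonneg_left (hH t) (abs_nonneg _)
          _ = _ := by ring
    _ = Real.exp (-r / 2) * ∫ t, |θ t| * √(G t) ∂hm := integral_const_mul _ _
    _ ≤ Real.exp (-r / 2) * (√(∫ t, θ t ^ 2 ∂hm) * √(∫ t, G t ∂hm)) :=
        mul_le_mul_of_nonneg_left hCS (Real.exp_pos _).le
    _ ≤ Real.exp (-r / 2) * (√(∫ t, θ t ^ 2 ∂hm) * √(DD v v + 2 * ip v v)) := by
        refine mul_le_mul_of_nonneg_left ?_ (Real.exp_pos _).le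
        exact mul_le_mul_of_nonneg_left (Real.sqrt_le_sqrt hGi.2) (Real.sqrt_nonneg _)
    _ = _ := by ring

end MolDis.H
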