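import Pool.Agent.Lib.MP_59f35a_mp.HStmts

/-!
# MP_59f35a_mp, piece H8: the list of weak solutions
-/

set_option autoImplicit false

noncomputable section

open MeasureTheory

namespace MolDis.H

namespace Wlist

/-- locally Lipschitz with polynomial growth -/
structure Gd (F : E3 → ℝ) : Prop where
  ll : ∀ R : ℝ, ∃ K : ℝ, ∀ x y, ‖x‖ ≤ R → ‖y‖ ≤ R → |F x - F y| ≤ K * ‖x - y‖
  pg : ∃ (A : ℝ) (m : ℕ), 0 ≤ A ∧ ∀ x, |F x| ≤ A * (1 + ‖x‖) ^ m

lemma Gd.const (c : ℝ) : Gd (fun _ => c) where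
  ll := fun R => ⟨0, fun x y _ _ => by simp⟩
  pg := ⟨|c|, 0, abs_nonneg _, fun x => by simp⟩

lemma Gd.coord (c : Fin 3) : Gd (fun x => x c) where
  ll := fun R => ⟨1, fun x y _ _ => by
    have := PiLp.norm_apply_le (x - y) c
    simpa [Real.norm_eq_abs] using this⟩
  pg := ⟨1, 1, zero_le_one, fun x => by
    have := PiLp.norm_apply_le x c
    rw [Real.norm_eq_abs] at this
    linarith⟩

lemma Gd.norm : Gd (fun x => ‖x‖) where
  ll := fun R => ⟨1, fun x y _ _ => by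
    rw [one_mul]
    exact abs_norm_sub_norm_le x y⟩
  pg := ⟨1, 1, zero_le_one, fun x => by
    rw [abs_of_nonneg (norm_nonneg _)]
    linarith⟩

lemma Gd.add {F G : E3 → ℝ} (hF : Gd F) (hG : Gd G) : Gd (fun x => F x + G x) where
  ll := fun R => by
    obtain ⟨K, hK⟩ := hF.ll R
    obtain ⟨L, hL⟩ := hG.ll R
    refine ⟨K + L, fun x y hx hy => ?_⟩
    have h1 := hK x y hx hy
    have h2 := hL x y hx hy
    have h3 : F x + G x - (F y + G y) = (F x - F y) + (G x - G y) := by ring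
    rw [h3, add_mul]
    exact (abs_add_le _ _).trans (add_le_add h1 h2)
  pg := by
    obtain ⟨A, m, hA, h1⟩ := hF.pg
    obtain ⟨B, n, hB, h2⟩ := hG.pg
    refine ⟨A + B, m + n, add_nonneg hA hB, fun x => ?_⟩
    have h0 : (1 : ℝ) ≤ 1 + ‖x‖ := by have := norm_nonneg x; linarith
    have h3 : (1 + ‖x‖) ^ m ≤ (1 + ‖x‖) ^ (m + n) := pow_le_pow_right₀ h0 (by omega)
    have h4 : (1 + ‖x‖) ^ n ≤ (1 + ‖x‖) ^ (m + n) := pow_le_pow_right₀ h0 (by omega)
    rw [add_mul]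
    refine (abs_add_le _ _).trans (add_le_add ?_ ?_)
    · exact (h1 x).trans (mul_le_mul_of_nonneg_left h3 hA)
    · exact (h2 x).trans (mul_le_mul_of_nonneg_left h4 hB)

lemma Gd.mul {F G : E3 → ℝ} (hF : Gd F) (hG : Gd G) : Gd (fun x => F x * G x) where
  ll := fun R => by
    obtain ⟨K, hK⟩ := hF.ll R
    obtain ⟨L, hL⟩ := hG.ll R
    obtain ⟨A, m, hA, h1⟩ := hF.pg
    obtain ⟨B, n, hB, h2⟩ := hG.pg
    refine ⟨A * (1 + R) ^ m * L + B * (1 + R) ^ n * K, fun x y hx hy => ?_⟩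
    have hR : 0 ≤ R := (norm_nonneg x).trans hx
    have e1 := hK x y hx hy
    have e2 := hL x y hx hy
    have e3 : |F x| ≤ A * (1 + R) ^ m := (h1 x).trans
      (mul_le_mul_of_nonneg_left (pow_le_pow_left₀ (by positivity) (by linarith) _) hA)
    have e4 : |G y| ≤ B * (1 + R) ^ n := (h2 y).trans
      (mul_le_mul_of_nonneg_left (pow_le_pow_left₀ (by positivity) (by linarith) _) hB)
    have e5 : F x * G x - F y * G y = F x * (G x - G y) + G y * (F x - F y) := by ring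
    rw [e5]
    refine (abs_add_le _ _).trans ?_
    rw [abs_mul, abs_mul]
    have e6 : |F x| * |G x - G y| ≤ A * (1 + R) ^ m * (L * ‖x - y‖) :=
      mul_le_mul e3 e2 (abs_nonneg _) (by positivity)
    have e7 : |G y| * |F x - F y| ≤ B * (1 + R) ^ n * (K * ‖x - y‖) :=
      mul_le_mul e4 e1 (abs_nonneg _) (by positivity)
    calc _ ≤ A * (1 + R) ^ m * (L * ‖x - y‖) + B * (1 + R) ^ n * (K * ‖x - y‖) :=
          add_le_add e6 e7
      _ = _ := by ring
  pg := by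
    obtain ⟨A, m, hA, h1⟩ := hF.pg
    obtain ⟨B, n, hB, h2⟩ := hG.pg
    refine ⟨A * B, m + n, mul_nonneg hA hB, fun x => ?_⟩
    rw [abs_mul, pow_add]
    calc |F x| * |G x| ≤ (A * (1 + ‖x‖) ^ m) * (B * (1 + ‖x‖) ^ n) :=
          mul_le_mul (h1 x) (h2 x) (abs_nonneg _) (by positivity)
      _ = _ := by ring

lemma Gd.smul {F : E3 → ℝ} (c : ℝ) (hF : Gd F) : Gd (fun x => c * F x) := (Gd.const c).mul hF

lemma Gd.sub {F G : E3 → ℝ} (hF : Gd F) (hG : Gd G) : Gd (fun x => F x - G x) := by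
  have := hF.add (hG.smul (-1))
  simpa [sub_eq_add_neg] using this

lemma Gd.neg {F : E3 → ℝ} (hF : Gd F) : Gd (fun x => - F x) := by
  have := hF.smul (-1)
  simpa using this

lemma Gd.pow {F : E3 → ℝ} (hF : Gd F) (n : ℕ) : Gd (fun x => F x ^ n) := by
  induction n with
  | zero => simpa using Gd.const 1
  | succ n ih => simpa [pow_succ] using ih.mul hF

lemma Gd.div {F : E3 → ℝ} (hF : Gd F) (c : ℝ) : Gd (fun x => F x / c) := by
  have := hF.mul (Gd.const c⁻¹)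
  simpa [div_eq_mul_inv] using this

lemma coord_le (x : E3) (c : Fin 3) : |x c| ≤ ‖x‖ := by
  have := PiLp.norm_apply_le x c
  rwa [Real.norm_eq_abs] at this

lemma coord_sub_le (x y : E3) (c : Fin 3) : |x c - y c| ≤ ‖x - y‖ := coord_le (x - y) c

/-- `x_c x_d/|x|` -/
lemma Gd.tens (c d : Fin 3) : Gd (fun x => x c * (x d / ‖x‖)) where
  ll := fun R => ⟨3, fun x y _ _ => by
    by_cases hx : x = 0
    · subst hx
      have h1 : |y c * (y d / ‖y‖)| ≤ ‖y‖ := by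
        by_cases hy : y = 0
        · subst hy; simp
        · have hy0 : 0 < ‖y‖ := norm_pos_iff.mpr hy
          rw [abs_mul, abs_div, abs_of_pos hy0]
          have h2 : |y d| / ‖y‖ ≤ 1 := (div_le_one hy0).mpr (coord_le y d)
          have h3 := coord_le y c
          nlinarith [abs_nonneg (y c), abs_nonneg (y d)]
      have h2 : |(0 : E3) c * ((0 : E3) d / ‖(0 : E3)‖) - y c * (y d / ‖y‖)| =
          |y c * (y d / ‖y‖)| := by simp
      rw [h2, zero_sub, norm_neg]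
      have := norm_nonneg y
      linarith
    · by_cases hy : y = 0
      · subst hy
        have hx0 : 0 < ‖x‖ := norm_pos_iff.mpr hx
        have h1 : |x c * (x d / ‖x‖)| ≤ ‖x‖ := by
          rw [abs_mul, abs_div, abs_of_pos hx0]
          have h2 : |x d| / ‖x‖ ≤ 1 := (div_le_one hx0).mpr (coord_le x d)
          have h3 := coord_le x c
          nlinarith [abs_nonneg (x c), abs_nonneg (x d)]
        have h2 : |x c * (x d / ‖x‖) - (0 : E3) c * ((0 : E3) d / ‖(0 : E3)‖)| =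
            |x c * (x d / ‖x‖)| := by simp
        rw [h2, sub_zero]
        linarith
      · have hx0 : 0 < ‖x‖ := norm_pos_iff.mpr hx
        have hy0 : 0 < ‖y‖ := norm_pos_iff.mpr hy
        have e1 : x c * (x d / ‖x‖) - y c * (y d / ‖y‖) =
            (x c - y c) * (x d / ‖x‖) + (y c / ‖y‖) * ((x d - y d) + (x d / ‖x‖) * (‖y‖ - ‖x‖)) := by
          field_simp
          ring
        rw [e1]
        have a1 : |x d / ‖x‖| ≤ 1 := by
          rw [abs_div, abs_of_pos hx0]; exact (div_le_one hx0).mpr (coord_le x d)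
        have a2 : |y c / ‖y‖| ≤ 1 := by
          rw [abs_div, abs_of_pos hy0]; exact (div_le_one hy0).mpr (coord_le y c)
        have a3 := coord_sub_le x y c
        have a4 := coord_sub_le x y d
        have a5 : |‖y‖ - ‖x‖| ≤ ‖x - y‖ := by
          rw [abs_sub_comm]; exact abs_norm_sub_norm_le x y
        have b1 : |(x c - y c) * (x d / ‖x‖)| ≤ ‖x - y‖ := by
          rw [abs_mul]
          calc |x c - y c| * |x d / ‖x‖| ≤ ‖x - y‖ * 1 :=
                mul_le_mul a3 a1 (abs_nonneg _) (norm_nonneg _)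
            _ = _ := mul_one _
        have b2 : |(x d / ‖x‖) * (‖y‖ - ‖x‖)| ≤ ‖x - y‖ := by
          rw [abs_mul]
          calc |x d / ‖x‖| * |‖y‖ - ‖x‖| ≤ 1 * ‖x - y‖ :=
                mul_le_mul a1 a5 (abs_nonneg _) zero_le_one
            _ = _ := one_mul _
        have b3 : |(x d - y d) + (x d / ‖x‖) * (‖y‖ - ‖x‖)| ≤ 2 * ‖x - y‖ := by
          refine (abs_add_le _ _).trans ?_
          linarith
        have b4 : |(y c / ‖y‖) * ((x d - y d) + (x d / ‖x‖) * (‖y‖ - ‖x‖))| ≤ 2 * ‖x - y‖ := by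
          rw [abs_mul]
          calc _ ≤ 1 * (2 * ‖x - y‖) := mul_le_mul a2 b3 (abs_nonneg _) zero_le_one
            _ = _ := one_mul _
        refine (abs_add_le _ _).trans ?_
        linarith⟩
  pg := ⟨1, 1, zero_le_one, fun x => by
    have h0 := norm_nonneg x
    by_cases hx : x = 0
    · subst hx; simp
    · have hx0 : 0 < ‖x‖ := norm_pos_iff.mpr hx
      have h1 : |x d / ‖x‖| ≤ 1 := by
        rw [abs_div, abs_of_pos hx0]; exact (div_le_one hx0).mpr (coord_le x d)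
      rw [abs_mul]
      calc |x c| * |x d / ‖x‖| ≤ ‖x‖ * 1 :=
            mul_le_mul (coord_le x c) h1 (abs_nonneg _) h0
        _ ≤ 1 * (1 + ‖x‖) ^ 1 := by linarith⟩

/-! ### line derivatives -/

lemma hld_coord (c d : Fin 3) (x : E3) :
    HasLineDerivAt ℝ (fun x : E3 => x c) (if c = d then 1 else 0) x (ec d) := by
  unfold HasLineDerivAt
  have h1 : (fun t : ℝ => (x + t • ec d) c) = fun t : ℝ => x c + t * (if c = d then 1 else 0) := by
    funext t
    simp [ec]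
  simp only
  rw [h1]
  simpa using ((hasDerivAt_id (0 : ℝ)).mul_const (if c = d then (1 : ℝ) else 0)).const_add (x c)

lemma inner_ec (x : E3) (d : Fin 3) : inner ℝ x (ec d) = x d := by
  unfold ec
  rw [EuclideanSpace.inner_single_right]
  simp

lemma hld_norm (d : Fin 3) (x : E3) (hx : x ≠ 0) :
    HasLineDerivAt ℝ (fun x : E3 => ‖x‖) (x d / ‖x‖) x (ec d) := by
  have hx0 : 0 < ‖x‖ := norm_pos_iff.mpr hx
  unfold HasLineDerivAt
  have h1 : HasDerivAt (fun t : ℝ => x + t • ec d) (ec d) 0 := by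
    simpa using ((hasDerivAt_id (0 : ℝ)).smul_const (ec d)).const_add x
  have h2 := h1.norm_sq
  have h3 : ‖x + (0 : ℝ) • ec d‖ ^ 2 ≠ 0 := by
    rw [zero_smul, add_zero]; positivity
  have h4 := h2.sqrt h3
  have h5 : (fun t : ℝ => √(‖x + t • ec d‖ ^ 2)) = fun t : ℝ => ‖x + t • ec d‖ := by
    funext t
    exact Real.sqrt_sq (norm_nonneg _)
  rw [h5] at h4
  refine h4.congr_deriv ?_
  rw [zero_smul, add_zero, inner_ec, Real.sqrt_sq hx0.le]
  field_simp

lemma hld_mul {F G : E3 → ℝ} {F' G' : ℝ} {x v : E3} (hF : HasLineDerivAt ℝ F F' x v)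
    (hG : HasLineDerivAt ℝ G G' x v) :
    HasLineDerivAt ℝ (fun x => F x * G x) (F' * G x + F x * G') x v := by
  have := HasDerivAt.fun_mul hF hG
  simp only [zero_smul, add_zero] at this
  exact this

lemma hld_add {F G : E3 → ℝ} {F' G' : ℝ} {x v : E3} (hF : HasLineDerivAt ℝ F F' x v)
    (hG : HasLineDerivAt ℝ G G' x v) :
    HasLineDerivAt ℝ (fun x => F x + G x) (F' + G') x v := HasDerivAt.fun_add hF hG

lemma hld_sub {F G : E3 → ℝ} {F' G' : ℝ} {x v : E3} (hF : HasLineDerivAt ℝ F F' x v)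
    (hG : HasLineDerivAt ℝ G G' x v) :
    HasLineDerivAt ℝ (fun x => F x - G x) (F' - G') x v := HasDerivAt.fun_sub hF hG

lemma hld_const (c : ℝ) (x v : E3) : HasLineDerivAt ℝ (fun _ : E3 => c) 0 x v :=
  hasDerivAt_const _ _

lemma hld_smul {F : E3 → ℝ} {F' : ℝ} {x v : E3} (c : ℝ) (hF : HasLineDerivAt ℝ F F' x v) :
    HasLineDerivAt ℝ (fun x => c * F x) (c * F') x v := by
  have := hld_mul (hld_const c x v) hF
  simpa using this

lemma hld_div {F : E3 → ℝ} {F' : ℝ} {x v : E3} (hF : HasLineDerivAt ℝ F F' x v) (c : ℝ) :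
    HasLineDerivAt ℝ (fun x => F x / c) (F' / c) x v := by
  have := hld_mul hF (hld_const c⁻¹ x v)
  simpa [div_eq_mul_inv] using this

lemma hld_pow {F : E3 → ℝ} {F' : ℝ} {x v : E3} (hF : HasLineDerivAt ℝ F F' x v) (n : ℕ) :
    HasLineDerivAt ℝ (fun x => F x ^ n) (n * F x ^ (n - 1) * F') x v := by
  have := HasDerivAt.fun_pow hF n
  simp only [zero_smul, add_zero] at this
  exact this

lemma hld_unit (d : Fin 3) (x : E3) (hx : x ≠ 0) :
    HasLineDerivAt ℝ (fun x : E3 => x d / ‖x‖) (1 / ‖x‖ - x d ^ 2 / ‖x‖ ^ 3) x (ec d) := by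
  have hx0 : 0 < ‖x‖ := norm_pos_iff.mpr hx
  have h1 := hld_coord d d x
  have h2 := hld_norm d x hx
  have h0 : ‖x + (0 : ℝ) • ec d‖ ≠ 0 := by rw [zero_smul, add_zero]; positivity
  have h3 := HasDerivAt.fun_div h1 h2 h0
  simp only [zero_smul, add_zero, if_true] at h3
  refine HasDerivAt.congr_deriv h3 ?_
  field_simp

/-- the master computation -/
lemma master (hw : S_wgen) (q : E3 → ℝ) (q' q'' : Fin 3 → E3 → ℝ) (L α β : ℝ) (κ : E3 → ℝ)
    (hL : L ≠ 0) (hq : Gd q) (hq' : ∀ d, Gd (q' d))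
    (h1 : ∀ d x, HasLineDerivAt ℝ q (q' d x) x (ec d))
    (h2 : ∀ d x, HasLineDerivAt ℝ (q' d) (q'' d x) x (ec d))
    (h3 : ∀ x, ∑ d, q'' d x = 0) (h4 : ∀ x, ∑ d, x d * q' d x = L * q x)
    (hκm : Measurable κ) (hκg : ∃ (A : ℝ) (m : ℕ), 0 ≤ A ∧ ∀ x, |κ x| ≤ A * (1 + ‖x‖) ^ m)
    (hκ : ∀ x, x ≠ 0 → κ x = q x * ((L * α - β * (2 * L + 2)) / ‖x‖ + β * (L + 1))) :
    ∃ C, WSol (fun x => q x * (α + β * ‖x‖)) κ C := by
  set F : E3 → ℝ := fun x => q x * (α + β * ‖x‖) with hFd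
  set P : Fin 3 → E3 → ℝ := fun d x => q' d x * (α + β * ‖x‖) + β * (q x * (x d / ‖x‖)) with hPd
  have hF : Gd F := hq.mul ((Gd.const α).add (Gd.norm.smul β))
  have hqd : ∀ d, Gd (fun x => q x * (x d / ‖x‖)) := by
    intro d
    have e : (fun x => q x * (x d / ‖x‖)) = fun x => L⁻¹ * ((q' 0 x * (x 0 * (x d / ‖x‖)) +
        q' 1 x * (x 1 * (x d / ‖x‖))) + q' 2 x * (x 2 * (x d / ‖x‖))) := by
      funext x
      have := h4 x
      rw [Fin.sum_univ_three] at this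
      have h5 : q x = L⁻¹ * (x 0 * q' 0 x + x 1 * q' 1 x + x 2 * q' 2 x) := by
        rw [this]; field_simp
      rw [h5]
      ring
    rw [e]
    exact ((((hq' 0).mul (Gd.tens 0 d)).add ((hq' 1).mul (Gd.tens 1 d))).add
      ((hq' 2).mul (Gd.tens 2 d))).smul _
  have hP : ∀ d, Gd (P d) := fun d =>
    ((hq' d).mul ((Gd.const α).add (Gd.norm.smul β))).add ((hqd d).smul β)
  obtain ⟨A0, m0, hA0, b0⟩ := hF.pg
  choose A1 m1 hA1 b1 using fun d => (hP d).pg
  obtain ⟨A2, m2, hA2, b2⟩ := hκg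
  have up : ∀ (x : E3) (A B : ℝ) (m n : ℕ) (v : ℝ), |v| ≤ A * (1 + ‖x‖) ^ m → 0 ≤ A → A ≤ B →
      m ≤ n → |v| ≤ B * (1 + ‖x‖) ^ n := by
    intro x A B m n v hv hA hAB hmn
    have h0 : (1 : ℝ) ≤ 1 + ‖x‖ := by have := norm_nonneg x; linarith
    refine hv.trans (mul_le_mul hAB (pow_le_pow_right₀ h0 hmn) (by positivity) (hA.trans hAB))
  have hs : ∀ d, A1 d ≤ ∑ d, A1 d := fun d =>
    Finset.single_le_sum (f := A1) (fun d _ => hA1 d) (Finset.mem_univ d)
  have hs' : ∀ d, m1 d ≤ ∑ d, m1 d := fun d =>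
    Finset.single_le_sum (f := m1) (fun d _ => Nat.zero_le _) (Finset.mem_univ d)
  have hs0 : 0 ≤ ∑ d, A1 d := Finset.sum_nonneg fun d _ => hA1 d
  refine hw F κ P (A0 + ∑ d, A1 d + A2) (m0 + ∑ d, m1 d + m2) hκm hF.ll (fun d => (hP d).ll)
    ?_ ?_ ?_ ?_ ?_
  · intro x hx d
    have := hld_mul (h1 d x) (hld_add (hld_const α x (ec d)) (hld_smul β (hld_norm d x hx)))
    refine HasDerivAt.congr_deriv this ?_
    simp only [hPd]
    ring
  · intro x
    exact up x A0 _ m0 _ _ (b0 x) hA0 (by linarith) (by omega)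
  · intro d x
    exact up x (A1 d) _ (m1 d) _ _ (b1 d x) (hA1 d) (by have := hs d; linarith)
      (by have := hs' d; omega)
  · intro x
    exact up x A2 _ m2 _ _ (b2 x) hA2 (by linarith) (by omega)
  · intro x hx
    have hx0 : 0 < ‖x‖ := norm_pos_iff.mpr hx
    have e1 : ∀ d, pd1 d (P d) x = q'' d x * (α + β * ‖x‖) + q' d x * (β * (x d / ‖x‖))
        + β * (q' d x * (x d / ‖x‖) + q x * (1 / ‖x‖ - x d ^ 2 / ‖x‖ ^ 3)) := by
      intro d
      have a1 := hld_mul (h2 d x) (hld_add (hld_const α x (ec d)) (hld_smul β (hld_norm d x hx)))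
      have a2 := hld_smul β (hld_mul (h1 d x) (hld_unit d x hx))
      have a3 := (hld_add a1 a2).lineDeriv
      unfold pd1
      simp only [hPd]
      rw [a3]
      ring
    have e2 : ‖x‖ ^ 2 = x 0 ^ 2 + x 1 ^ 2 + x 2 ^ 2 := by
      rw [EuclideanSpace.norm_sq_eq, Fin.sum_univ_three]
      simp
    have e3 := h3 x
    have e4 := h4 x
    rw [Fin.sum_univ_three] at e3 e4
    rw [hκ x hx, Fin.sum_univ_three, Fin.sum_univ_three, e1, e1, e1]
    simp only [hPd]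
    have e6 : (x 0 ^ 2 / ‖x‖ ^ 3 + x 1 ^ 2 / ‖x‖ ^ 3 + x 2 ^ 2 / ‖x‖ ^ 3) = 1 / ‖x‖ := by
      rw [← add_div, ← add_div, ← e2]
      field_simp
    have e7 : q' 0 x * (x 0 / ‖x‖) + q' 1 x * (x 1 / ‖x‖) + q' 2 x * (x 2 / ‖x‖) =
        L * q x / ‖x‖ := by
      rw [← e4]; ring
    have e8 : x 0 / ‖x‖ * (x 0 / ‖x‖) + x 1 / ‖x‖ * (x 1 / ‖x‖) + x 2 / ‖x‖ * (x 2 / ‖x‖) = 1 := by
      rw [div_mul_div_comm, div_mul_div_comm, div_mul_div_comm, ← add_div, ← add_div]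
      rw [div_eq_one_iff_eq (by positivity)]
      linarith
    have hr : ‖x‖ * ‖x‖⁻¹ = 1 := mul_inv_cancel₀ hx0.ne'
    linear_combination (α + β * ‖x‖) * e3 + 2 * β * e7 - (α + β * ‖x‖) * e7 - β * q x * e6
      - β * q x * e8 - β * L * q x * hr

lemma mono {F κ : E3 → ℝ} {C C' : ℝ} (h : WSol F κ C) (hC : C ≤ C') : WSol F κ C' where
  nonneg := h.nonneg.trans hC
  measF := h.measF
  measκ := h.measκ
  lip := h.lip
  weak := fun r hr v hv => (h.weak r hr v hv).trans (by gcongr)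
  intF := h.intF
  intκ := h.intκ
  leF := h.leF.trans hC
  leκ := h.leκ.trans hC
  tailF := fun r hr => (h.tailF r hr).trans (by gcongr)
  tailκ := fun r hr => (h.tailκ r hr).trans (by gcongr)
  leD := fun r hr => (h.leD r hr).trans hC

lemma meas_coord (c : Fin 3) : Measurable (fun x : E3 => x c) := by fun_prop

lemma wone (hw : S_wgen) : ∃ C, WSol (fun _ => 1) (fun _ => 0) C := by
  refine hw (fun _ => 1) (fun _ => 0) (fun _ _ => 0) 1 0 measurable_const (Gd.const 1).ll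
    (fun _ => (Gd.const 0).ll) (fun x _ c => hld_const 1 x _) (fun x => by simp)
    (fun c x => by simp) (fun x => by simp) (fun x _ => ?_)
  have : ∀ c, pd1 c (fun _ => (0 : ℝ)) x = 0 := fun c => (hld_const 0 x (ec c)).lineDeriv
  simp [this]

/-- Kronecker delta -/
def dl (c d : Fin 3) : ℝ := if c = d then 1 else 0

lemma hc (c d : Fin 3) (x : E3) : HasLineDerivAt ℝ (fun x : E3 => x c) (dl c d) x (ec d) :=
  hld_coord c d x

lemma wcoord (hw : S_wgen) (c : Fin 3) (α β : ℝ) (κ : E3 → ℝ) (hκm : Measurable κ)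
    (hκg : ∃ (A : ℝ) (m : ℕ), 0 ≤ A ∧ ∀ x, |κ x| ≤ A * (1 + ‖x‖) ^ m)
    (hκ : ∀ x : E3, x ≠ 0 → κ x = x c * ((1 * α - β * (2 * 1 + 2)) / ‖x‖ + β * (1 + 1))) :
    ∃ C, WSol (fun x => x c * (α + β * ‖x‖)) κ C := by
  refine master hw (fun x => x c) (fun d _ => dl c d) (fun _ _ => 0) 1 α β κ one_ne_zero
    (Gd.coord c) (fun d => Gd.const _) (fun d x => hc c d x) (fun d x => hld_const _ _ _)
    (fun x => by simp) (fun x => by simp [dl]) hκm hκg hκ

lemma w1 (hw : S_wgen) (c : Fin 3) : ∃ C, WSol (fun x => x c) (fun x => x c / ‖x‖) C := by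
  have := wcoord hw c 1 0 (fun x => x c / ‖x‖) ((meas_coord c).div measurable_norm)
    ⟨1, 0, zero_le_one, fun x => ?_⟩ (fun x _ => by ring)
  · simpa using this
  · rw [pow_zero, mul_one, abs_div, abs_of_nonneg (norm_nonneg x)]
    exact div_le_one_of_le₀ (coord_le x c) (norm_nonneg x)

lemma w2 (hw : S_wgen) (c : Fin 3) :
    ∃ C, WSol (fun x => x c * ‖x‖) (fun x => x c * (2 - 4 / ‖x‖)) C := by
  have := wcoord hw c 0 1 (fun x => x c * (2 - 4 / ‖x‖))
    ((meas_coord c).mul (measurable_const.sub (measurable_const.div measurable_norm)))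
    ⟨4, 1, by norm_num, fun x => ?_⟩ (fun x _ => by ring)
  · simpa using this
  · have h1 : x c * (2 - 4 / ‖x‖) = 2 * x c - 4 * (x c / ‖x‖) := by ring
    have h2 : |x c / ‖x‖| ≤ 1 := by
      rw [abs_div, abs_of_nonneg (norm_nonneg x)]
      exact div_le_one_of_le₀ (coord_le x c) (norm_nonneg x)
    have h3 := coord_le x c
    have h4 := norm_nonneg x
    rw [h1, pow_one]
    refine (abs_sub _ _).trans ?_
    rw [abs_mul, abs_mul, abs_of_pos (show (0 : ℝ) < 2 by norm_num),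
      abs_of_pos (show (0 : ℝ) < 4 by norm_num)]
    linarith

lemma wth (hw : S_wgen) (L : ℕ) (hL : 1 ≤ L) (q' q'' : Fin 3 → E3 → ℝ)
    (hq : Gd (hh L)) (hm : Measurable (hh L)) (hq' : ∀ d, Gd (q' d))
    (h1 : ∀ d x, HasLineDerivAt ℝ (hh L) (q' d x) x (ec d))
    (h2 : ∀ d x, HasLineDerivAt ℝ (q' d) (q'' d x) x (ec d))
    (h3 : ∀ x, ∑ d, q'' d x = 0) (h4 : ∀ x, ∑ d, x d * q' d x = L * hh L x) :
    ∃ C, WSol (th L) (hh L) C := by
  have hL0 : (L : ℝ) ≠ 0 := by positivity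
  have hL1 : (L : ℝ) + 1 ≠ 0 := by positivity
  have := master hw (hh L) q' q'' L (2 / L) (1 / (L + 1)) (hh L) hL0 hq hq' h1 h2 h3 h4 hm hq.pg
    (fun x _ => by
      have e1 : (L : ℝ) * (2 / L) - 1 / (L + 1) * (2 * L + 2) = 0 := by
        field_simp
        ring
      have e2 : 1 / ((L : ℝ) + 1) * (L + 1) = 1 := by field_simp
      rw [e1, e2]
      simp)
  have e : (fun x => hh L x * (2 / L + 1 / (L + 1) * ‖x‖)) = th L := by
    funext x
    unfold th
    ring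
  rwa [e] at this

lemma t1 (hw : S_wgen) : ∃ C, WSol (th 1) (hh 1) C := by
  have e : hh 1 = fun x => x 0 := rfl
  refine wth hw 1 le_rfl (fun d _ => dl 0 d) (fun _ _ => 0) ?_ ?_ (fun d => Gd.const _) ?_
    (fun d x => hld_const _ _ _) (fun x => by simp) ?_
  · rw [e]; exact Gd.coord 0
  · rw [e]; exact meas_coord 0
  · intro d x; rw [e]; exact hc 0 d x
  · intro x; rw [e]; simp [dl]

lemma t2 (hw : S_wgen) : ∃ C, WSol (th 2) (hh 2) C := by
  have e : hh 2 = fun x => x 0 ^ 2 - (x 1 ^ 2 + x 2 ^ 2) / 2 := rfl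
  have m := meas_coord
  have g := Gd.coord
  refine wth hw 2 (by norm_num)
    (fun d x => 2 * x 0 * dl 0 d - (2 * x 1 * dl 1 d + 2 * x 2 * dl 2 d) / 2)
    (fun d x => 2 * dl 0 d * dl 0 d - (2 * dl 1 d * dl 1 d + 2 * dl 2 d * dl 2 d) / 2)
    ?_ ?_ (fun d => ?_) ?_ ?_ (fun x => ?_) ?_
  · rw [e]; exact ((g 0).pow 2).sub ((((g 1).pow 2).add ((g 2).pow 2)).div 2)
  · rw [e]
    exact ((m 0).pow_const 2).sub ((((m 1).pow_const 2).add ((m 2).pow_const 2)).div_const 2)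
  · exact (((g 0).smul 2).mul (Gd.const _)).sub
      (((((g 1).smul 2).mul (Gd.const _)).add (((g 2).smul 2).mul (Gd.const _))).div 2)
  · intro d x
    rw [e]
    have := hld_sub (hld_pow (hc 0 d x) 2)
      (hld_div (hld_add (hld_pow (hc 1 d x) 2) (hld_pow (hc 2 d x) 2)) 2)
    refine HasDerivAt.congr_deriv this ?_
    push_cast
    ring
  · intro d x
    have := hld_sub (hld_mul (hld_smul 2 (hc 0 d x)) (hld_const (dl 0 d) x (ec d)))
      (hld_div (hld_add (hld_mul (hld_smul 2 (hc 1 d x)) (hld_const (dl 1 d) x (ec d)))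
        (hld_mul (hld_smul 2 (hc 2 d x)) (hld_const (dl 2 d) x (ec d)))) 2)
    refine HasDerivAt.congr_deriv this ?_
    ring
  · rw [Fin.sum_univ_three]; simp [dl]; norm_num
  · intro x; rw [e, Fin.sum_univ_three]; simp [dl]; ring

/-- `x_1² + x_2²` and its derivatives -/
def rs (x : E3) : ℝ := x 1 ^ 2 + x 2 ^ 2
def rs' (d : Fin 3) (x : E3) : ℝ := 2 * x 1 * dl 1 d + 2 * x 2 * dl 2 d

lemma rs_g : Gd rs := ((Gd.coord 1).pow 2).add ((Gd.coord 2).pow 2)
lemma rs_m : Measurable rs := ((meas_coord 1).pow_const 2).add ((meas_coord 2).pow_const 2)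
lemma rs'_g (d : Fin 3) : Gd (rs' d) :=
  (((Gd.coord 1).smul 2).mul (Gd.const _)).add (((Gd.coord 2).smul 2).mul (Gd.const _))

lemma hrs (d : Fin 3) (x : E3) : HasLineDerivAt ℝ rs (rs' d x) x (ec d) := by
  have := hld_add (hld_pow (hc 1 d x) 2) (hld_pow (hc 2 d x) 2)
  refine HasDerivAt.congr_deriv this ?_
  unfold rs'
  push_cast
  ring

lemma hrs' (d : Fin 3) (x : E3) :
    HasLineDerivAt ℝ (rs' d) (2 * dl 1 d * dl 1 d + 2 * dl 2 d * dl 2 d) x (ec d) := by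
  have := hld_add (hld_mul (hld_smul 2 (hc 1 d x)) (hld_const (dl 1 d) x (ec d)))
        (hld_mul (hld_smul 2 (hc 2 d x)) (hld_const (dl 2 d) x (ec d)))
  refine HasDerivAt.congr_deriv this ?_
  ring

lemma t3 (hw : S_wgen) : ∃ C, WSol (th 3) (hh 3) C := by
  have e : hh 3 = fun x => x 0 ^ 3 - 3 / 2 * x 0 * rs x := rfl
  have m := meas_coord
  have g := Gd.coord
  refine wth hw 3 (by norm_num)
    (fun d x => 3 * x 0 ^ 2 * dl 0 d - (3 / 2 * dl 0 d * rs x + 3 / 2 * x 0 * rs' d x))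
    (fun d x => 6 * x 0 * dl 0 d * dl 0 d - (3 / 2 * dl 0 d * rs' d x
      + (3 / 2 * dl 0 d * rs' d x + 3 / 2 * x 0 * (2 * dl 1 d * dl 1 d + 2 * dl 2 d * dl 2 d))))
    ?_ ?_ (fun d => ?_) ?_ ?_ (fun x => ?_) ?_
  · rw [e]; exact ((g 0).pow 3).sub (((g 0).smul _).mul rs_g)
  · rw [e]
    exact ((m 0).pow_const 3).sub (((m 0).const_mul _).mul rs_m)
  · exact ((((g 0).pow 2).smul 3).mul (Gd.const _)).sub
      (((Gd.const (3 / 2 * dl 0 d)).mul rs_g).add (((g 0).smul _).mul (rs'_g d)))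
  · intro d x
    rw [e]
    have := hld_sub (hld_pow (hc 0 d x) 3) (hld_mul (hld_smul (3 / 2) (hc 0 d x)) (hrs d x))
    refine HasDerivAt.congr_deriv this ?_
    push_cast
    ring
  · intro d x
    have := hld_sub
      (hld_mul (hld_smul 3 (hld_pow (hc 0 d x) 2)) (hld_const (dl 0 d) x (ec d)))
      (hld_add (hld_mul (hld_const (3 / 2 * dl 0 d) x (ec d)) (hrs d x))
        (hld_mul (hld_smul (3 / 2) (hc 0 d x)) (hrs' d x)))
    refine HasDerivAt.congr_deriv this ?_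
    push_cast
    ring
  · rw [Fin.sum_univ_three]; simp [dl, rs']; ring
  · intro x; rw [e, Fin.sum_univ_three]; simp [dl, rs, rs']; ring

lemma t4 (hw : S_wgen) : ∃ C, WSol (th 4) (hh 4) C := by
  have e : hh 4 = fun x => x 0 ^ 4 - 3 * x 0 ^ 2 * rs x + 3 / 8 * rs x ^ 2 := rfl
  have m := meas_coord
  have g := Gd.coord
  refine wth hw 4 (by norm_num)
    (fun d x => 4 * x 0 ^ 3 * dl 0 d - (6 * x 0 * dl 0 d * rs x + 3 * x 0 ^ 2 * rs' d x)
      + 3 / 4 * rs x * rs' d x)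
    (fun d x => 12 * x 0 ^ 2 * dl 0 d * dl 0 d
      - ((6 * dl 0 d * dl 0 d * rs x + 6 * x 0 * dl 0 d * rs' d x)
        + (6 * x 0 * dl 0 d * rs' d x
          + 3 * x 0 ^ 2 * (2 * dl 1 d * dl 1 d + 2 * dl 2 d * dl 2 d)))
      + (3 / 4 * rs' d x * rs' d x
        + 3 / 4 * rs x * (2 * dl 1 d * dl 1 d + 2 * dl 2 d * dl 2 d)))
    ?_ ?_ (fun d => ?_) ?_ ?_ (fun x => ?_) ?_
  · rw [e]; exact (((g 0).pow 4).sub ((((g 0).pow 2).smul 3).mul rs_g)).add ((rs_g.pow 2).smul _)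
  · rw [e]
    exact (((m 0).pow_const 4).sub ((((m 0).pow_const 2).const_mul 3).mul rs_m)).add
      ((rs_m.pow_const 2).const_mul _)
  · exact (((((g 0).pow 3).smul 4).mul (Gd.const _)).sub
      (((((g 0).smul 6).mul (Gd.const _)).mul rs_g).add ((((g 0).pow 2).smul 3).mul (rs'_g d)))).add
      ((rs_g.smul _).mul (rs'_g d))
  · intro d x
    rw [e]
    have := hld_add (hld_sub (hld_pow (hc 0 d x) 4)
      (hld_mul (hld_smul 3 (hld_pow (hc 0 d x) 2)) (hrs d x)))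
      (hld_smul (3 / 8) (hld_pow (hrs d x) 2))
    refine HasDerivAt.congr_deriv this ?_
    push_cast
    ring
  · intro d x
    have := hld_add (hld_sub
      (hld_mul (hld_smul 4 (hld_pow (hc 0 d x) 3)) (hld_const (dl 0 d) x (ec d)))
      (hld_add (hld_mul (hld_mul (hld_smul 6 (hc 0 d x)) (hld_const (dl 0 d) x (ec d))) (hrs d x))
        (hld_mul (hld_smul 3 (hld_pow (hc 0 d x) 2)) (hrs' d x))))
      (hld_mul (hld_smul (3 / 4) (hrs d x)) (hrs' d x))
    refine HasDerivAt.congr_deriv this ?_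
    push_cast
    ring
  · rw [Fin.sum_univ_three]; simp [dl, rs, rs']; ring
  · intro x; rw [e, Fin.sum_univ_three]; simp [dl, rs, rs']; ring

end Wlist

open Wlist in
theorem p_wlist (h : S_wgen) : S_wlist := by
  obtain ⟨C0, h0⟩ := wone h
  choose C1 h1 using w1 h
  choose C2 h2 using w2 h
  obtain ⟨D1, k1⟩ := t1 h
  obtain ⟨D2, k2⟩ := t2 h
  obtain ⟨D3, k3⟩ := t3 h
  obtain ⟨D4, k4⟩ := t4 h
  have s1 : ∀ c, C1 c ≤ ∑ c, C1 c := fun c =>
    Finset.single_le_sum (f := C1) (fun c _ => (h1 c).nonneg) (Finset.mem_univ c)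
  have s2 : ∀ c, C2 c ≤ ∑ c, C2 c := fun c =>
    Finset.single_le_sum (f := C2) (fun c _ => (h2 c).nonneg) (Finset.mem_univ c)
  have p0 := h0.nonneg
  have p1 : 0 ≤ ∑ c, C1 c := Finset.sum_nonneg fun c _ => (h1 c).nonneg
  have p2 : 0 ≤ ∑ c, C2 c := Finset.sum_nonneg fun c _ => (h2 c).nonneg
  have q1 := k1.nonneg
  have q2 := k2.nonneg
  have q3 := k3.nonneg
  have q4 := k4.nonneg
  refine ⟨C0 + ∑ c, C1 c + ∑ c, C2 c + D1 + D2 + D3 + D4, mono h0 (by linarith),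
    fun c => mono (h1 c) ?_, fun c => mono (h2 c) ?_, mono k1 (by linarith), mono k2 (by linarith),
    mono k3 (by linarith), mono k4 (by linarith)⟩
  · have := s1 c; linarith
  · have := s2 c; linarith

end MolDis.H
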