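import Pool.Agent.Lib.MP_59f35a_mp.HStmts

/-!
# MP_59f35a_mp, Theorem D, piece H5: soft spectral gap of the measure `hm`
-/

set_option autoImplicit false

noncomputable section

open MeasureTheory Filter Topology Set

namespace MolDis.H.Gap

/-! ### basic facts -/

theorem ec_norm (c : Fin 3) : ‖ec c‖ = 1 := by
  unfold ec
  rw [PiLp.norm_single]
  simp

theorem coord_le (x : E3) (c : Fin 3) : |x c| ≤ ‖x‖ := by
  have := PiLp.norm_apply_le x c
  simpa using this

theorem norm_sq (x : E3) : ‖x‖ ^ 2 = ∑ c, x c ^ 2 := by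
  rw [EuclideanSpace.norm_sq_eq]
  simp

theorem sum_ec (v : E3) : v = ∑ c, v c • ec c := by
  ext i
  simp [ec, Finset.sum_apply, Pi.single_apply]

/-- squared gradient -/
def G (f : E3 → ℝ) (x : E3) : ℝ := ∑ c, pd1 c f x ^ 2

theorem G_nonneg (f : E3 → ℝ) (x : E3) : 0 ≤ G f x := Finset.sum_nonneg fun _ _ => sq_nonneg _

theorem pd1_meas {f : E3 → ℝ} (hf : Continuous f) (c : Fin 3) : Measurable (pd1 c f) :=
  measurable_lineDeriv hf

theorem pd1_le {f : E3 → ℝ} {K : NNReal} (hf : LipschitzWith K f) (c : Fin 3) (x : E3) :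
    |pd1 c f x| ≤ K := by
  have h := norm_lineDeriv_le_of_lipschitz ℝ (x₀ := x) (v := ec c) hf
  rw [ec_norm, mul_one] at h
  exact h

theorem G_meas {f : E3 → ℝ} (hf : Continuous f) : Measurable (G f) :=
  Finset.measurable_sum _ fun c _ => (pd1_meas hf c).pow_const 2

theorem G_le {f : E3 → ℝ} {K : NNReal} (hf : LipschitzWith K f) (x : E3) :
    G f x ≤ 3 * (K : ℝ) ^ 2 := by
  unfold G
  have : ∀ c ∈ (Finset.univ : Finset (Fin 3)), pd1 c f x ^ 2 ≤ (K : ℝ) ^ 2 := fun c _ =>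
    sq_le_sq' (by linarith [abs_le.mp (pd1_le hf c x)]) (abs_le.mp (pd1_le hf c x)).2
  refine (Finset.sum_le_sum this).trans ?_
  simp

theorem lineDeriv_sq_le {f : E3 → ℝ} {z : E3} (hf : DifferentiableAt ℝ f z) (v : E3) :
    lineDeriv ℝ f z v ^ 2 ≤ ‖v‖ ^ 2 * G f z := by
  have h1 : lineDeriv ℝ f z v = ∑ c, v c * pd1 c f z := by
    rw [hf.lineDeriv_eq_fderiv]
    conv_lhs => rw [sum_ec v]
    rw [map_sum]
    refine Finset.sum_congr rfl fun c _ => ?_
    rw [map_smul, smul_eq_mul]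
    unfold pd1
    rw [hf.lineDeriv_eq_fderiv]
  rw [h1, norm_sq]
  exact Finset.sum_mul_sq_le_sq_mul_sq _ _ _

/-! ### the fundamental theorem of calculus on segments -/

theorem ftc_sq {f : E3 → ℝ} {K : NNReal} (hf : LipschitzWith K f) (y v : E3) :
    (f (y + v) - f y) ^ 2 ≤ ∫ s in Ioc (0 : ℝ) 1, lineDeriv ℝ f (y + s • v) v ^ 2 := by
  have hg : LipschitzWith (K * ‖v‖₊) (fun s : ℝ => f (y + s • v)) := by
    apply LipschitzWith.of_dist_le_mul
    intro s t
    refine (hf.dist_le_mul _ _).trans ?_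
    rw [dist_eq_norm, NNReal.coe_mul, coe_nnnorm, Real.dist_eq,
      show y + s • v - (y + t • v) = (s - t) • v by rw [sub_smul]; abel, norm_smul,
      Real.norm_eq_abs]
    apply le_of_eq
    ring
  have hd : ∀ s : ℝ, deriv (fun s : ℝ => f (y + s • v)) s = lineDeriv ℝ f (y + s • v) v := by
    intro s
    unfold lineDeriv
    have h1 : (fun t : ℝ => f (y + s • v + t • v)) =
        fun t : ℝ => (fun s : ℝ => f (y + s • v)) (s + t) := by
      funext t
      beta_reduce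
      rw [add_smul, add_assoc]
    have h2 := deriv_comp_const_add (f := fun s : ℝ => f (y + s • v)) s 0
    rw [add_zero] at h2
    rw [h1, h2]
  have h1 := ((hg.lipschitzOnWith
    (s := uIcc 0 1)).absolutelyContinuousOnInterval).integral_deriv_eq_sub
  rw [one_smul, zero_smul, add_zero, intervalIntegral.integral_of_le zero_le_one] at h1
  simp only [hd] at h1
  set g : ℝ → ℝ := fun s => lineDeriv ℝ f (y + s • v) v with hgdef
  have hgm : Measurable g := by
    have h2 : Measurable fun p : E3 × E3 => lineDeriv ℝ f p.1 p.2 :=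
      measurable_lineDeriv_uncurry hf.continuous
    exact h2.comp (by fun_prop : Measurable fun s : ℝ => (y + s • v, v))
  have hgb : ∀ s, |g s| ≤ K * ‖v‖ := fun s => norm_lineDeriv_le_of_lipschitz ℝ hf
  have hi1 : IntegrableOn g (Ioc 0 1) := by
    refine Measure.integrableOn_of_bounded (M := K * ‖v‖) (by simp) hgm.aestronglyMeasurable ?_
    exact ae_of_all _ hgb
  have hi2 : IntegrableOn (fun s => g s ^ 2) (Ioc 0 1) := by
    refine Measure.integrableOn_of_bounded (M := (K * ‖v‖) ^ 2) (by simp)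
      (hgm.pow_const 2).aestronglyMeasurable ?_
    refine ae_of_all _ fun s => ?_
    rw [Real.norm_eq_abs, abs_pow]
    exact pow_le_pow_left₀ (abs_nonneg _) (hgb s) 2
  set m : ℝ := f (y + v) - f y with hm
  have h3 : 0 ≤ ∫ s in Ioc (0 : ℝ) 1, (g s - m) ^ 2 := integral_nonneg fun _ => sq_nonneg _
  have h4 : ∫ s in Ioc (0 : ℝ) 1, (g s - m) ^ 2 =
      (∫ s in Ioc (0 : ℝ) 1, g s ^ 2) - 2 * m * (∫ s in Ioc (0 : ℝ) 1, g s) + m ^ 2 := by
    have e : ∀ s, (g s - m) ^ 2 = (g s ^ 2 - 2 * m * g s) + m ^ 2 := fun s => by ring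
    simp only [e]
    have hi3 : IntegrableOn (fun s => 2 * m * g s) (Ioc 0 1) := hi1.const_mul _
    have hi4 : IntegrableOn (fun _ : ℝ => m ^ 2) (Ioc 0 1) := by simp
    have hi5 : IntegrableOn (fun s => g s ^ 2 - 2 * m * g s) (Ioc 0 1) := hi2.sub hi3
    rw [integral_add hi5 hi4, integral_sub hi2 hi3, integral_const_mul]
    simp
  rw [h4, h1] at h3
  nlinarith

theorem pt_le {f : E3 → ℝ} {K : NNReal} (hf : LipschitzWith K f) (y v : E3) :
    ENNReal.ofReal ((f (y + v) - f y) ^ 2 * (Real.exp (-2 * ‖y + v‖) * Real.exp (-2 * ‖y‖))) ≤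
      ∫⁻ s in Ioc (0 : ℝ) 1, ENNReal.ofReal (lineDeriv ℝ f (y + s • v) v ^ 2 *
        (Real.exp (-‖y + s • v‖) * Real.exp (-‖v‖))) := by
  have hm : Measurable fun s : ℝ => lineDeriv ℝ f (y + s • v) v ^ 2 *
        (Real.exp (-‖y + s • v‖) * Real.exp (-‖v‖)) := by
    have h2 : Measurable fun p : E3 × E3 => lineDeriv ℝ f p.1 p.2 :=
      measurable_lineDeriv_uncurry hf.continuous
    have h3 := h2.comp (by fun_prop : Measurable fun s : ℝ => (y + s • v, v))
    exact (h3.pow_const 2).mul (by fun_prop)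
  have hm0 : Measurable fun s : ℝ => lineDeriv ℝ f (y + s • v) v := by
    have h2 : Measurable fun p : E3 × E3 => lineDeriv ℝ f p.1 p.2 :=
      measurable_lineDeriv_uncurry hf.continuous
    exact h2.comp (by fun_prop : Measurable fun s : ℝ => (y + s • v, v))
  have hb : ∀ s : ℝ, lineDeriv ℝ f (y + s • v) v ^ 2 ≤ (K * ‖v‖) ^ 2 := fun s => by
    have := norm_lineDeriv_le_of_lipschitz ℝ (x₀ := y + s • v) (v := v) hf
    rw [Real.norm_eq_abs] at this
    rw [← sq_abs]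
    exact pow_le_pow_left₀ (abs_nonneg _) this 2
  have hi : IntegrableOn (fun s : ℝ => lineDeriv ℝ f (y + s • v) v ^ 2 *
        (Real.exp (-‖y + s • v‖) * Real.exp (-‖v‖))) (Ioc 0 1) := by
    refine Measure.integrableOn_of_bounded (M := (K * ‖v‖) ^ 2) (by simp)
      hm.aestronglyMeasurable ?_
    refine ae_of_all _ fun s => ?_
    have h1 : Real.exp (-‖y + s • v‖) ≤ 1 := Real.exp_le_one_iff.mpr (by simp)
    have h2 : Real.exp (-‖v‖) ≤ 1 := Real.exp_le_one_iff.mpr (by simp)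
    have h3 : Real.exp (-‖y + s • v‖) * Real.exp (-‖v‖) ≤ 1 :=
      mul_le_one₀ h1 (Real.exp_pos _).le h2
    rw [Real.norm_eq_abs, abs_of_nonneg (by positivity)]
    calc _ ≤ (K * ‖v‖) ^ 2 * 1 := mul_le_mul (hb s) h3 (by positivity) (by positivity)
      _ = _ := mul_one _
  have hi2 : IntegrableOn (fun s : ℝ => lineDeriv ℝ f (y + s • v) v ^ 2 *
        (Real.exp (-2 * ‖y + v‖) * Real.exp (-2 * ‖y‖))) (Ioc 0 1) := by
    refine Integrable.mul_const ?_ _
    refine Measure.integrableOn_of_bounded (M := (K * ‖v‖) ^ 2) (by simp)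
      (hm0.pow_const 2).aestronglyMeasurable ?_
    refine ae_of_all _ fun s => ?_
    rw [Real.norm_eq_abs, abs_of_nonneg (by positivity)]
    exact hb s
  rw [← ofReal_integral_eq_lintegral_ofReal hi (ae_of_all _ fun s => by positivity)]
  apply ENNReal.ofReal_le_ofReal
  have h1 := ftc_sq hf y v
  calc _ ≤ (∫ s in Ioc (0 : ℝ) 1, lineDeriv ℝ f (y + s • v) v ^ 2) *
        (Real.exp (-2 * ‖y + v‖) * Real.exp (-2 * ‖y‖)) :=
        mul_le_mul_of_nonneg_right h1 (by positivity)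
    _ = ∫ s in Ioc (0 : ℝ) 1, lineDeriv ℝ f (y + s • v) v ^ 2 *
        (Real.exp (-2 * ‖y + v‖) * Real.exp (-2 * ‖y‖)) := (integral_mul_const _ _).symm
    _ ≤ _ := by
        refine setIntegral_mono_on hi2 hi measurableSet_Ioc fun s hs => ?_
        refine mul_le_mul_of_nonneg_left ?_ (by positivity)
        rw [← Real.exp_add, ← Real.exp_add]
        apply Real.exp_le_exp.mpr
        have h2 : ‖y + s • v‖ ≤ ‖y + v‖ + ‖y‖ := by
          have e : y + s • v = s • (y + v) + (1 - s) • y := by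
            rw [smul_add, sub_smul, one_smul]; abel
          rw [e]
          refine (norm_add_le _ _).trans ?_
          rw [norm_smul, norm_smul, Real.norm_eq_abs, Real.norm_eq_abs, abs_of_nonneg hs.1.le,
            abs_of_nonneg (by linarith [hs.2])]
          have h5 := norm_nonneg (y + v)
          have h6 := norm_nonneg y
          have h7 := hs.1
          have h8 := hs.2
          nlinarith
        have h3 : ‖v‖ ≤ ‖y + v‖ + ‖y‖ := by
          have e : v = (y + v) - y := by abel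
          conv_lhs => rw [e]
          exact norm_sub_le _ _
        linarith

/-- integrand -/
def Ph (f : E3 → ℝ) (z v : E3) : ENNReal := ENNReal.ofReal (lineDeriv ℝ f z v ^ 2 *
    (Real.exp (-‖z‖) * Real.exp (-‖v‖)))

theorem Ph_meas {f : E3 → ℝ} (hf : Continuous f) : Measurable fun p : E3 × E3 => Ph f p.1 p.2 := by
  have h2 : Measurable fun p : E3 × E3 => lineDeriv ℝ f p.1 p.2 := measurable_lineDeriv_uncurry hf
  exact ENNReal.measurable_ofReal.comp ((h2.pow_const 2).mul (by fun_prop))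

theorem Ph_comp {f : E3 → ℝ} (hf : Continuous f) {α : Type} [MeasurableSpace α] {a b : α → E3}
    (ha : Measurable a) (hb : Measurable b) : Measurable fun x => Ph f (a x) (b x) := by
  have h := (Ph_meas hf).comp (ha.prodMk hb)
  exact h

theorem lint1 {f : E3 → ℝ} {K : NNReal} (hf : LipschitzWith K f) :
    ∫⁻ y : E3, ∫⁻ x : E3, ENNReal.ofReal ((f x - f y) ^ 2 *
      (Real.exp (-2 * ‖x‖) * Real.exp (-2 * ‖y‖))) ≤
      ∫⁻ y : E3, ∫⁻ v : E3, ∫⁻ s in Ioc (0 : ℝ) 1, Ph f (y + s • v) v := by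
  refine lintegral_mono fun y => ?_
  rw [← lintegral_add_left_eq_self (fun x : E3 => ENNReal.ofReal ((f x - f y) ^ 2 *
    (Real.exp (-2 * ‖x‖) * Real.exp (-2 * ‖y‖)))) y]
  exact lintegral_mono fun v => pt_le hf y v

theorem lint2 {f : E3 → ℝ} (hf : Continuous f) :
    ∫⁻ y : E3, ∫⁻ v : E3, ∫⁻ s in Ioc (0 : ℝ) 1, Ph f (y + s • v) v =
      ∫⁻ y : E3, ∫⁻ s in Ioc (0 : ℝ) 1, ∫⁻ v : E3, Ph f (y + s • v) v := by
  refine lintegral_congr fun y => ?_
  refine lintegral_lintegral_swap ?_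
  exact (Ph_comp hf (α := E3 × ℝ) (a := fun p => y + p.2 • p.1)
    (b := fun p => p.1) (by fun_prop) (by fun_prop)).aemeasurable

theorem lint3 {f : E3 → ℝ} (hf : Continuous f) :
    ∫⁻ y : E3, ∫⁻ s in Ioc (0 : ℝ) 1, ∫⁻ v : E3, Ph f (y + s • v) v =
      ∫⁻ s in Ioc (0 : ℝ) 1, ∫⁻ y : E3, ∫⁻ v : E3, Ph f (y + s • v) v := by
  refine lintegral_lintegral_swap (f := fun (y : E3) (s : ℝ) => ∫⁻ v : E3,
    Ph f (y + s • v) v) ?_
  have h3 : Measurable fun q : (E3 × ℝ) × E3 => Ph f (q.1.1 + q.1.2 • q.2) q.2 :=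
    Ph_comp hf (by fun_prop) (by fun_prop)
  exact (Measurable.lintegral_prod_right' h3).aemeasurable

theorem lint4 {f : E3 → ℝ} (hf : Continuous f) :
    ∫⁻ s in Ioc (0 : ℝ) 1, ∫⁻ y : E3, ∫⁻ v : E3, Ph f (y + s • v) v =
      ∫⁻ v : E3, ∫⁻ z : E3, Ph f z v := by
  have h1 : ∀ s : ℝ, ∫⁻ y : E3, ∫⁻ v : E3, Ph f (y + s • v) v =
      ∫⁻ v : E3, ∫⁻ z : E3, Ph f z v := by
    intro s
    have h2 : ∫⁻ y : E3, ∫⁻ v : E3, Ph f (y + s • v) v =
        ∫⁻ v : E3, ∫⁻ y : E3, Ph f (y + s • v) v :=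
      lintegral_lintegral_swap (Ph_comp hf (α := E3 × E3) (a := fun p => p.1 + s • p.2)
        (b := fun p => p.2) (by fun_prop) (by fun_prop)).aemeasurable
    rw [h2]
    refine lintegral_congr fun v => ?_
    exact lintegral_add_right_eq_self (fun z => Ph f z v) (s • v)
  rw [lintegral_congr h1, lintegral_const]
  simp

theorem lint5 {f : E3 → ℝ} {K : NNReal} (hf : LipschitzWith K f) (v : E3) :
    ∫⁻ z : E3, Ph f z v ≤ ENNReal.ofReal (‖v‖ ^ 2 * Real.exp (-‖v‖)) *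
      ∫⁻ z : E3, ENNReal.ofReal (G f z * Real.exp (-‖z‖)) := by
  have hm : Measurable fun z : E3 => ENNReal.ofReal (G f z * Real.exp (-‖z‖)) := by
    have h1 := (G_meas hf.continuous).mul
      (show Measurable fun z : E3 => Real.exp (-‖z‖) by fun_prop)
    exact h1.ennreal_ofReal
  rw [← lintegral_const_mul _ hm]
  refine lintegral_mono_ae ?_
  filter_upwards [hf.ae_differentiableAt (μ := volume)] with z hz
  rw [← ENNReal.ofReal_mul (by positivity)]
  apply ENNReal.ofReal_le_ofReal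
  have h4 := lineDeriv_sq_le hz v
  calc lineDeriv ℝ f z v ^ 2 * (Real.exp (-‖z‖) * Real.exp (-‖v‖))
      ≤ (‖v‖ ^ 2 * G f z) * (Real.exp (-‖z‖) * Real.exp (-‖v‖)) :=
        mul_le_mul_of_nonneg_right h4 (by positivity)
    _ = _ := by ring

/-- the local Poincare inequality, in the form of an inequality between lower integrals -/
theorem key_lint {f : E3 → ℝ} {K : NNReal} (hf : LipschitzWith K f) :
    ∫⁻ y : E3, ∫⁻ x : E3, ENNReal.ofReal ((f x - f y) ^ 2 *
      (Real.exp (-2 * ‖x‖) * Real.exp (-2 * ‖y‖))) ≤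
      (∫⁻ v : E3, ENNReal.ofReal (‖v‖ ^ 2 * Real.exp (-‖v‖))) *
        ∫⁻ z : E3, ENNReal.ofReal (G f z * Real.exp (-‖z‖)) := by
  refine (lint1 hf).trans ?_
  rw [lint2 hf.continuous, lint3 hf.continuous, lint4 hf.continuous]
  refine (lintegral_mono fun v => lint5 hf v).trans ?_
  have hm : Measurable fun v : E3 => ENNReal.ofReal (‖v‖ ^ 2 * Real.exp (-‖v‖)) := by
    exact (show Measurable fun v : E3 => ‖v‖ ^ 2 * Real.exp (-‖v‖) by fun_prop).ennreal_ofReal
  rw [lintegral_mul_const _ hm]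

/-! ### the local Poincare inequality for real integrals -/

theorem exp2_le (x : E3) : Real.exp (-2 * ‖x‖) ≤ Real.exp (-‖x‖) :=
  Real.exp_le_exp.mpr (by have := norm_nonneg x; linarith)

theorem int_E2 (hI0 : Integrable (fun x : E3 => Real.exp (-‖x‖))) :
    Integrable (fun x : E3 => Real.exp (-2 * ‖x‖)) := by
  refine hI0.mono' (by fun_prop) (ae_of_all _ fun x => ?_)
  rw [Real.norm_eq_abs, abs_of_pos (Real.exp_pos _)]
  exact exp2_le x

/-- bounded measurable functions are integrable with an exponential weight -/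
theorem int_bdd {w : E3 → ℝ} (hw : Integrable w) {g : E3 → ℝ} (hg : Measurable g) {B : ℝ}
    (hB : ∀ x, |g x| ≤ B) : Integrable (fun x => g x * w x) :=
  hw.bdd_mul hg.aestronglyMeasurable (ae_of_all _ hB)

theorem c2_pos (hI0 : Integrable (fun x : E3 => Real.exp (-‖x‖))) :
    0 < ∫ x : E3, Real.exp (-2 * ‖x‖) := integral_exp_pos (int_E2 hI0)

theorem var_shift {w : E3 → ℝ} (hw : Integrable w) {f : E3 → ℝ}
    (hf : Measurable f) {B : ℝ} (hB : ∀ x, |f x| ≤ B) (s : ℝ) :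
    ∫ x, (f x - s) ^ 2 * w x = (∫ x, f x ^ 2 * w x) - 2 * s * (∫ x, f x * w x) +
      s ^ 2 * ∫ x, w x := by
  have h1 : Integrable (fun x => f x * w x) := int_bdd hw hf hB
  have h2 : Integrable (fun x => f x ^ 2 * w x) := int_bdd hw (hf.pow_const 2) (B := B ^ 2)
    fun x => by
      rw [abs_pow]
      exact pow_le_pow_left₀ (abs_nonneg _) (hB x) 2
  have h3 : Integrable (fun x => 2 * s * (f x * w x)) := h1.const_mul _
  have h4 : Integrable (fun x => s ^ 2 * w x) := hw.const_mul _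
  have e : ∀ x, (f x - s) ^ 2 * w x = f x ^ 2 * w x - 2 * s * (f x * w x) + s ^ 2 * w x :=
    fun x => by ring
  have h5 : Integrable (fun x => f x ^ 2 * w x - 2 * s * (f x * w x)) := h2.sub h3
  simp only [e]
  rw [integral_add h5 h4, integral_sub h2 h3, integral_const_mul, integral_const_mul]

theorem var2 {f : E3 → ℝ} {K : NNReal} (hf : LipschitzWith K f) {B : ℝ} (hB : ∀ x, |f x| ≤ B)
    (hI0 : Integrable (fun x : E3 => Real.exp (-‖x‖)))
    (hI2 : Integrable (fun x : E3 => ‖x‖ ^ 2 * Real.exp (-‖x‖))) :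
    (∫ x : E3, f x ^ 2 * Real.exp (-2 * ‖x‖)) * (∫ x : E3, Real.exp (-2 * ‖x‖)) ≤
      (∫ x : E3, ‖x‖ ^ 2 * Real.exp (-‖x‖)) * (∫ x, G f x * Real.exp (-‖x‖)) +
        (∫ x : E3, f x * Real.exp (-2 * ‖x‖)) ^ 2 := by
  have hw := int_E2 hI0
  have hc := c2_pos hI0
  have hfm : Measurable f := hf.continuous.measurable
  set w : E3 → ℝ := fun x => Real.exp (-2 * ‖x‖) with hwdef
  set c : ℝ := ∫ x, w x with hcdef
  set t : ℝ := (∫ x, f x * w x) / c with ht
  set J : ℝ := ∫ x, (f x - t) ^ 2 * w x with hJ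
  have hJs : ∀ s : ℝ, J ≤ ∫ x, (f x - s) ^ 2 * w x := by
    intro s
    rw [hJ, var_shift hw hfm hB, var_shift hw hfm hB]
    have h1 : ∫ x, f x * w x = t * c := by rw [ht]; field_simp
    rw [h1]
    nlinarith [mul_nonneg hc.le (sq_nonneg (t - s))]
  have hJv : J = (∫ x, f x ^ 2 * w x) - t ^ 2 * c := by
    rw [hJ, var_shift hw hfm hB]
    have h1 : ∫ x, f x * w x = t * c := by rw [ht]; field_simp
    rw [h1]
    ring
  have hJ0 : 0 ≤ J := integral_nonneg fun x => by positivity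
  have h1 : ENNReal.ofReal (J * c) ≤ ∫⁻ y : E3, ∫⁻ x : E3, ENNReal.ofReal ((f x - f y) ^ 2 *
      (Real.exp (-2 * ‖x‖) * Real.exp (-2 * ‖y‖))) := by
    have h2 : ENNReal.ofReal (J * c) = ∫⁻ y : E3, ENNReal.ofReal (J * w y) := by
      rw [← ofReal_integral_eq_lintegral_ofReal (hw.const_mul J)
        (ae_of_all _ fun x => by positivity), integral_const_mul]
    rw [h2]
    refine lintegral_mono fun y => ?_
    have h3 : Integrable (fun x => (f x - f y) ^ 2 * w x) :=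
      int_bdd hw ((hfm.sub_const _).pow_const 2) (B := (B + |f y|) ^ 2) fun x => by
        rw [abs_pow]
        refine pow_le_pow_left₀ (abs_nonneg _) ?_ 2
        exact (abs_sub _ _).trans (by linarith [hB x])
    have h4 : Integrable (fun x => (f x - f y) ^ 2 * (w x * w y)) := by
      have := h3.mul_const (w y)
      refine this.congr (ae_of_all _ fun x => ?_)
      beta_reduce
      ring
    rw [← ofReal_integral_eq_lintegral_ofReal h4 (ae_of_all _ fun x => by positivity)]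
    apply ENNReal.ofReal_le_ofReal
    have h5 : ∫ x, (f x - f y) ^ 2 * (w x * w y) = (∫ x, (f x - f y) ^ 2 * w x) * w y := by
      rw [← integral_mul_const]
      congr 1
      funext x
      ring
    rw [h5]
    exact mul_le_mul_of_nonneg_right (hJs (f y)) (Real.exp_pos _).le
  have h2 := h1.trans (key_lint hf)
  have hGi : Integrable (fun x => G f x * Real.exp (-‖x‖)) :=
    int_bdd hI0 (G_meas hf.continuous) (B := 3 * (K : ℝ) ^ 2) fun x => by
      rw [abs_of_nonneg (G_nonneg f x)]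
      exact G_le hf x
  rw [← ofReal_integral_eq_lintegral_ofReal hI2 (ae_of_all _ fun x => by positivity),
    ← ofReal_integral_eq_lintegral_ofReal hGi
      (ae_of_all _ fun x => mul_nonneg (G_nonneg f x) (Real.exp_pos _).le),
    ← ENNReal.ofReal_mul (integral_nonneg fun x => by positivity),
    ENNReal.ofReal_le_ofReal_iff (mul_nonneg (integral_nonneg fun x => by positivity)
      (integral_nonneg fun x => mul_nonneg (G_nonneg f x) (Real.exp_pos _).le))] at h2
  have h3 : (∫ x, f x * w x) ^ 2 = t ^ 2 * c ^ 2 := by rw [ht]; field_simp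
  rw [h3]
  have h4 : (∫ x, f x ^ 2 * w x) = J + t ^ 2 * c := by rw [hJv]; ring
  rw [h4]
  nlinarith

/-! ### the region far from the nucleus -/

theorem lc1_bdd {f : E3 → ℝ} (hf : LC1 f) : ∃ B : ℝ, 0 ≤ B ∧ ∀ x, |f x| ≤ B := by
  obtain ⟨K, hK⟩ := hf.lip
  obtain ⟨R, hR⟩ := hf.supp
  refine ⟨K * (2 * |R| + 1), by positivity, fun x => ?_⟩
  by_cases h : f x = 0
  · rw [h, abs_zero]
    positivity
  have h1 : ‖x‖ ≤ |R| := (hR x h).trans (le_abs_self R)
  have h2 : f ((|R| + 1) • ec 0) = 0 := by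
    by_contra h3
    have h4 := hR _ h3
    rw [norm_smul, ec_norm, mul_one, Real.norm_eq_abs, abs_of_nonneg (by positivity)] at h4
    linarith [le_abs_self R]
  have h3 := hK.dist_le_mul x ((|R| + 1) • ec 0)
  rw [Real.dist_eq, h2, sub_zero, dist_eq_norm] at h3
  refine h3.trans ?_
  have h4 : ‖x - (|R| + 1) • ec 0‖ ≤ 2 * |R| + 1 := by
    refine (norm_sub_le _ _).trans ?_
    rw [norm_smul, ec_norm, mul_one, Real.norm_eq_abs, abs_of_nonneg (by positivity)]
    linarith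
  exact mul_le_mul_of_nonneg_left h4 K.coe_nonneg

theorem exp_sub_le {a b : ℝ} (ha : 0 ≤ a) (hb : 0 ≤ b) :
    |Real.exp (-a) - Real.exp (-b)| ≤ |a - b| := by
  have key : ∀ {a b : ℝ}, 0 ≤ a → a ≤ b → |Real.exp (-a) - Real.exp (-b)| ≤ |a - b| := by
    intro a b ha hab
    have h1 : Real.exp (-b) ≤ Real.exp (-a) := Real.exp_le_exp.mpr (by linarith)
    rw [abs_of_nonneg (by linarith), abs_of_nonpos (by linarith)]
    have h2 : Real.exp (-b) = Real.exp (-a) * Real.exp (-(b - a)) := by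
      rw [← Real.exp_add]
      congr 1
      ring
    have h3 := Real.add_one_le_exp (-(b - a))
    have h4 : Real.exp (-a) ≤ 1 := Real.exp_le_one_iff.mpr (by linarith)
    have h5 := Real.exp_pos (-a)
    rw [h2]
    nlinarith
  rcases le_total a b with h | h
  · exact key ha h
  · rw [abs_sub_comm, abs_sub_comm a b]
    exact key hb h

/-- the test function -/
def wl (l : ℝ) (f : E3 → ℝ) (x : E3) : ℝ := f x ^ 2 * Real.exp (-(l * ‖x‖))

theorem wl_lc1 {l : ℝ} (hl : 0 ≤ l) {f : E3 → ℝ} (hf : LC1 f) : LC1 (wl l f) := by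
  obtain ⟨B, hB0, hB⟩ := lc1_bdd hf
  obtain ⟨K, hK⟩ := hf.lip
  obtain ⟨R, hR⟩ := hf.supp
  refine ⟨⟨Real.toNNReal (2 * B * K + B ^ 2 * l), ?_⟩, ⟨R, fun x hx => hR x ?_⟩⟩
  · apply LipschitzWith.of_dist_le_mul
    intro x y
    rw [Real.coe_toNNReal _ (by positivity), dist_eq_norm x y, Real.dist_eq]
    have h1 : wl l f x - wl l f y = (f x - f y) * ((f x + f y) * Real.exp (-(l * ‖x‖))) +
        f y ^ 2 * (Real.exp (-(l * ‖x‖)) - Real.exp (-(l * ‖y‖))) := by
      unfold wl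
      ring
    have h2 : |f x - f y| ≤ K * ‖x - y‖ := by
      have := hK.dist_le_mul x y
      rwa [Real.dist_eq, dist_eq_norm] at this
    have h3 : |Real.exp (-(l * ‖x‖)) - Real.exp (-(l * ‖y‖))| ≤ l * ‖x - y‖ := by
      refine (exp_sub_le (by positivity) (by positivity)).trans ?_
      rw [← mul_sub, abs_mul, abs_of_nonneg hl]
      exact mul_le_mul_of_nonneg_left (abs_norm_sub_norm_le x y) hl
    have h4 : |(f x + f y) * Real.exp (-(l * ‖x‖))| ≤ 2 * B := by
      rw [abs_mul, abs_of_pos (Real.exp_pos _)]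
      have h5 : Real.exp (-(l * ‖x‖)) ≤ 1 :=
        Real.exp_le_one_iff.mpr (by have := mul_nonneg hl (norm_nonneg x); linarith)
      have h6 : |f x + f y| ≤ 2 * B := (abs_add_le _ _).trans (by linarith [hB x, hB y])
      calc |f x + f y| * Real.exp (-(l * ‖x‖)) ≤ 2 * B * 1 :=
            mul_le_mul h6 h5 (Real.exp_pos _).le (by positivity)
        _ = 2 * B := mul_one _
    have h7 : |f y ^ 2| ≤ B ^ 2 := by
      rw [abs_pow]
      exact pow_le_pow_left₀ (abs_nonneg _) (hB y) 2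
    rw [h1]
    refine (abs_add_le _ _).trans ?_
    rw [abs_mul (f x - f y), abs_mul (f y ^ 2)]
    calc |f x - f y| * |(f x + f y) * Real.exp (-(l * ‖x‖))| +
          |f y ^ 2| * |Real.exp (-(l * ‖x‖)) - Real.exp (-(l * ‖y‖))|
        ≤ (K * ‖x - y‖) * (2 * B) + B ^ 2 * (l * ‖x - y‖) := by
          gcongr
      _ = _ := by ring
  · intro h
    apply hx
    unfold wl
    rw [h]
    ring

theorem hasDerivAt_norm_line {x : E3} (hx : x ≠ 0) (c : Fin 3) :
    HasDerivAt (fun t : ℝ => ‖x + t • ec c‖) (x c / ‖x‖) 0 := by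
  have e : (fun t : ℝ => ‖x + t • ec c‖) =
      fun t : ℝ => Real.sqrt (‖x‖ ^ 2 + 2 * t * x c + t ^ 2) := by
    funext t
    have h1 : ‖x + t • ec c‖ ^ 2 = ‖x‖ ^ 2 + 2 * t * x c + t ^ 2 := by
      rw [norm_add_sq_real, inner_smul_right, norm_smul, ec_norm]
      have h1 : inner ℝ x (ec c) = x c := by
        unfold ec
        rw [EuclideanSpace.inner_single_right]
        simp
      rw [h1, mul_one, Real.norm_eq_abs, sq_abs]
      ring
    rw [← h1, Real.sqrt_sq (norm_nonneg _)]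
  rw [e]
  have hx0 : 0 < ‖x‖ := norm_pos_iff.mpr hx
  have h1 : HasDerivAt (fun t : ℝ => ‖x‖ ^ 2 + 2 * t * x c + t ^ 2) (2 * x c) 0 := by
    have h2 : HasDerivAt (fun t : ℝ => 2 * t * x c) (2 * x c) 0 := by
      have := ((hasDerivAt_id (0 : ℝ)).const_mul 2).mul_const (x c)
      simpa using this
    have h3 : HasDerivAt (fun t : ℝ => t ^ 2) 0 0 := by
      have := hasDerivAt_pow 2 (0 : ℝ)
      simpa using this
    have h4 : HasDerivAt (fun t : ℝ => ‖x‖ ^ 2 + 2 * t * x c + t ^ 2) (2 * x c + 0) 0 :=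
      (h2.const_add (‖x‖ ^ 2)).add h3
    rwa [add_zero] at h4
  have e0 : ‖x‖ ^ 2 + 2 * 0 * x c + 0 ^ 2 = ‖x‖ ^ 2 := by ring
  have h2 := h1.sqrt (by rw [e0]; positivity)
  have e2 : 2 * x c / (2 * Real.sqrt (‖x‖ ^ 2 + 2 * 0 * x c + 0 ^ 2)) = x c / ‖x‖ := by
    rw [e0, Real.sqrt_sq (norm_nonneg _)]
    field_simp
  rw [e2] at h2
  exact h2

theorem pd1_wl {l : ℝ} {f : E3 → ℝ} {x : E3} (hx : x ≠ 0) (hf : DifferentiableAt ℝ f x)
    (c : Fin 3) : pd1 c (wl l f) x =
      (2 * f x * pd1 c f x - l * f x ^ 2 * (x c / ‖x‖)) * Real.exp (-(l * ‖x‖)) := by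
  have h1 : HasDerivAt (fun t : ℝ => f (x + t • ec c)) (pd1 c f x) 0 := by
    have h2 := hf.lineDifferentiableAt (v := ec c)
    exact h2.hasLineDerivAt
  have h2 : HasDerivAt (fun t : ℝ => -(l * ‖x + t • ec c‖)) (-(l * (x c / ‖x‖))) 0 :=
    ((hasDerivAt_norm_line hx c).const_mul l).neg
  have h3 := (h1.pow 2).mul h2.exp
  have h4 : pd1 c (wl l f) x = deriv (fun t : ℝ => wl l f (x + t • ec c)) 0 := rfl
  rw [h4]
  unfold wl
  have h5 := h3.deriv
  simp only [zero_smul, add_zero, Nat.cast_ofNat, Nat.add_one_sub_one, pow_one,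
    Pi.pow_apply] at h5
  have h6 : (fun t : ℝ => f (x + t • ec c) ^ 2 * Real.exp (-(l * ‖x + t • ec c‖))) =
    ((fun t : ℝ => f (x + t • ec c)) ^ 2 * fun t : ℝ => Real.exp (-(l * ‖x + t • ec c‖))) := rfl
  rw [h6]
  refine h5.trans ?_
  ring

/-- radial derivative -/
def rd (f : E3 → ℝ) (x : E3) : ℝ := ∑ c, pd1 c f x * (x c / ‖x‖)

theorem rd_meas {f : E3 → ℝ} (hf : Continuous f) : Measurable (rd f) := by
  refine Finset.measurable_sum _ fun c _ => (pd1_meas hf c).mul ?_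
  have h1 : Measurable fun x : E3 => x c := (EuclideanSpace.proj (𝕜 := ℝ) c).measurable
  exact h1.div measurable_norm

theorem sum_unit {x : E3} (hx : x ≠ 0) : ∑ c, (x c / ‖x‖) * (x c / ‖x‖) = 1 := by
  have hx0 : 0 < ‖x‖ := norm_pos_iff.mpr hx
  have h1 : ∀ c : Fin 3, (x c / ‖x‖) * (x c / ‖x‖) = x c ^ 2 / ‖x‖ ^ 2 := fun c => by
    field_simp
  simp only [h1]
  rw [← Finset.sum_div, ← norm_sq, div_self (by positivity)]

theorem rd_sq_le (f : E3 → ℝ) (x : E3) : rd f x ^ 2 ≤ G f x := by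
  have h1 := Finset.sum_mul_sq_le_sq_mul_sq Finset.univ (fun c => pd1 c f x)
    (fun c => x c / ‖x‖)
  have h2 : ∑ c, (x c / ‖x‖) ^ 2 ≤ 1 := by
    by_cases hx : x = 0
    · subst hx
      simp
    · have := sum_unit hx
      simp only [← sq] at this
      exact this.le
  have h3 := G_nonneg f x
  unfold rd
  unfold G at h3 ⊢
  nlinarith

theorem ident (hdiv : S_div) {l : ℝ} (hl : 1 ≤ l) {f : E3 → ℝ} (hf : LC1 f) :
    Integrable (fun x => f x ^ 2 * Real.exp (-(l * ‖x‖)) * ‖x‖⁻¹) ∧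
    ∫ x, (2 * f x * rd f x - l * f x ^ 2) * Real.exp (-(l * ‖x‖)) =
      -2 * ∫ x, f x ^ 2 * Real.exp (-(l * ‖x‖)) * ‖x‖⁻¹ := by
  obtain ⟨h1, h2⟩ := hdiv (wl l f) (wl_lc1 (by linarith) hf)
  obtain ⟨K, hK⟩ := hf.lip
  refine ⟨h1, ?_⟩
  have h3 : ∫ x, ∑ c, pd1 c (wl l f) x * (x c / ‖x‖) =
      ∫ x, (2 * f x * rd f x - l * f x ^ 2) * Real.exp (-(l * ‖x‖)) := by
    refine integral_congr_ae ?_
    have h0 : ∀ᵐ x : E3, x ≠ 0 := by
      rw [ae_iff]
      simp
    filter_upwards [hK.ae_differentiableAt (μ := volume), h0] with x hx hx0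
    have h4 : ∀ c ∈ (Finset.univ : Finset (Fin 3)), pd1 c (wl l f) x * (x c / ‖x‖) =
        2 * f x * Real.exp (-(l * ‖x‖)) * (pd1 c f x * (x c / ‖x‖)) -
          l * f x ^ 2 * Real.exp (-(l * ‖x‖)) * ((x c / ‖x‖) * (x c / ‖x‖)) := fun c _ => by
      rw [pd1_wl hx0 hx]
      ring
    rw [Finset.sum_congr rfl h4, Finset.sum_sub_distrib, ← Finset.mul_sum, ← Finset.mul_sum,
      sum_unit hx0]
    unfold rd
    ring
  rw [← h3, h2, ← integral_neg, ← integral_const_mul]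
  congr 1
  funext x
  unfold wl
  ring

theorem int3 {u v w : E3 → ℝ} (hu : Integrable u) (hv : Integrable v) (hw : Integrable w)
    (a b c : ℝ) : ∫ x, (a * u x - (b * v x + c * w x)) =
      a * (∫ x, u x) - (b * (∫ x, v x) + c * ∫ x, w x) := by
  have h1 : Integrable fun x => a * u x := hu.const_mul a
  have h2 : Integrable fun x => b * v x := hv.const_mul b
  have h3 : Integrable fun x => c * w x := hw.const_mul c
  have h4 : Integrable fun x => b * v x + c * w x := h2.add h3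
  rw [integral_sub h1 h4, integral_add h2 h3, integral_const_mul, integral_const_mul,
    integral_const_mul]

theorem int4 {u v w z : E3 → ℝ} (hu : Integrable u) (hv : Integrable v) (hw : Integrable w)
    (hz : Integrable z) (a b c : ℝ) : ∫ x, (a * u x + b * v x - (w x + c * z x)) =
      a * (∫ x, u x) + b * (∫ x, v x) - ((∫ x, w x) + c * ∫ x, z x) := by
  have h1 : Integrable fun x => a * u x := hu.const_mul a
  have h2 : Integrable fun x => b * v x := hv.const_mul b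
  have h3 : Integrable fun x => c * z x := hz.const_mul c
  have h4 : Integrable fun x => a * u x + b * v x := h1.add h2
  have h5 : Integrable fun x => w x + c * z x := hw.add h3
  rw [integral_sub h4 h5, integral_add h1 h2, integral_add hw h3, integral_const_mul,
    integral_const_mul, integral_const_mul]

theorem stepA (hdiv : S_div) (hI0 : Integrable (fun x : E3 => Real.exp (-‖x‖))) {f : E3 → ℝ}
    (hf : LC1 f) :
    ∫ x, f x ^ 2 * Real.exp (-‖x‖) ≤
      (16 + 4 * Real.exp 4) * (∫ x, G f x * Real.exp (-‖x‖)) +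
        12 * Real.exp 4 * ∫ x, f x ^ 2 * Real.exp (-2 * ‖x‖) := by
  obtain ⟨i1, h1⟩ := ident hdiv (l := 1) le_rfl hf
  obtain ⟨i2, h2⟩ := ident hdiv (l := 2) (by norm_num) hf
  simp only [one_mul] at i1 h1
  have e2 : ∀ x : E3, Real.exp (-(2 * ‖x‖)) = Real.exp (-2 * ‖x‖) := fun x => by rw [neg_mul]
  simp only [e2] at i2 h2
  obtain ⟨B, hB0, hB⟩ := lc1_bdd hf
  obtain ⟨K, hK⟩ := hf.lip
  have hfm : Measurable f := hK.continuous.measurable
  have hw2 := int_E2 hI0
  have hb2 : ∀ x, |f x ^ 2| ≤ B ^ 2 := fun x => by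
    rw [abs_pow]
    exact pow_le_pow_left₀ (abs_nonneg _) (hB x) 2
  have hG : Integrable (fun x => G f x * Real.exp (-‖x‖)) :=
    int_bdd hI0 (G_meas hK.continuous) (B := 3 * (K : ℝ) ^ 2) fun x => by
      rw [abs_of_nonneg (G_nonneg f x)]
      exact G_le hK x
  have hF1 : Integrable (fun x => f x ^ 2 * Real.exp (-‖x‖)) :=
    int_bdd hI0 (hfm.pow_const 2) hb2
  have hF2 : Integrable (fun x => f x ^ 2 * Real.exp (-2 * ‖x‖)) :=
    int_bdd hw2 (hfm.pow_const 2) hb2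
  have hrb : ∀ x, |rd f x| ≤ 3 * (K : ℝ) ^ 2 + 1 := fun x => by
    have h3 := rd_sq_le f x
    have h4 := G_le hK x
    rw [abs_le]
    constructor <;> nlinarith [sq_nonneg (rd f x - 1), sq_nonneg (rd f x + 1)]
  have hQ : ∀ l : ℝ, Measurable (fun x => 2 * f x * rd f x - l * f x ^ 2) := fun l =>
    ((measurable_const.mul hfm).mul (rd_meas hK.continuous)).sub
      (measurable_const.mul (hfm.pow_const 2))
  have hQb : ∀ l : ℝ, ∀ x, |2 * f x * rd f x - l * f x ^ 2| ≤
      2 * B * (3 * (K : ℝ) ^ 2 + 1) + |l| * B ^ 2 := fun l x => by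
    refine (abs_sub _ _).trans ?_
    rw [abs_mul, abs_mul, abs_mul l, abs_two]
    have h3 := hrb x
    have h4 := hB x
    have h5 := hb2 x
    gcongr
  have hQ1 : Integrable (fun x => (2 * f x * rd f x - 1 * f x ^ 2) * Real.exp (-‖x‖)) :=
    int_bdd hI0 (hQ 1) (hQb 1)
  have hQ2 : Integrable (fun x => (2 * f x * rd f x - 2 * f x ^ 2) * Real.exp (-2 * ‖x‖)) :=
    int_bdd hw2 (hQ 2) (hQb 2)
  simp only [one_mul] at hQ1
  set E : ℝ := Real.exp 4 with hE
  have hE0 : 0 < E := Real.exp_pos 4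
  -- the integrand
  have key : ∀ x, (1 / 4) * (f x ^ 2 * Real.exp (-‖x‖)) -
      ((4 + E) * (G f x * Real.exp (-‖x‖)) + 3 * E * (f x ^ 2 * Real.exp (-2 * ‖x‖))) ≤
      (2 * E * (f x ^ 2 * Real.exp (-2 * ‖x‖) * ‖x‖⁻¹) +
        E * ((2 * f x * rd f x - 2 * f x ^ 2) * Real.exp (-2 * ‖x‖))) -
      ((2 * f x * rd f x - f x ^ 2) * Real.exp (-‖x‖) +
        2 * (f x ^ 2 * Real.exp (-‖x‖) * ‖x‖⁻¹)) := by
    intro x
    have g1 := rd_sq_le f x
    have g2 := exp2_le x
    have g3 : 0 < Real.exp (-2 * ‖x‖) := Real.exp_pos _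
    have g4 : 0 ≤ ‖x‖⁻¹ := by positivity
    have g5 : (2 * Real.exp (-‖x‖) - 2 * E * Real.exp (-2 * ‖x‖)) * ‖x‖⁻¹ ≤
        1 / 2 * Real.exp (-‖x‖) := by
      rcases le_total ‖x‖ 4 with h | h
      · have h6 : Real.exp (-‖x‖) ≤ E * Real.exp (-2 * ‖x‖) := by
          rw [hE, ← Real.exp_add]
          exact Real.exp_le_exp.mpr (by linarith)
        have h7 : (2 * Real.exp (-‖x‖) - 2 * E * Real.exp (-2 * ‖x‖)) * ‖x‖⁻¹ ≤ 0 :=
          mul_nonpos_of_nonpos_of_nonneg (by linarith) g4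
        linarith [Real.exp_pos (-‖x‖)]
      · have h6 : ‖x‖⁻¹ ≤ 1 / 4 := by
          rw [inv_eq_one_div]
          exact one_div_le_one_div_of_le (by norm_num) h
        have h7 : 0 ≤ E * Real.exp (-2 * ‖x‖) * ‖x‖⁻¹ := by positivity
        have h8 : Real.exp (-‖x‖) * ‖x‖⁻¹ ≤ Real.exp (-‖x‖) * (1 / 4) :=
          mul_le_mul_of_nonneg_left h6 (Real.exp_pos _).le
        nlinarith
    set a := f x
    set p := rd f x
    set g := G f x
    set u := Real.exp (-‖x‖)
    set v := Real.exp (-2 * ‖x‖)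
    set i := ‖x‖⁻¹
    have hu : 0 < u := lt_of_lt_of_le g3 g2
    have k1 : 0 ≤ (a / 2 - 2 * p) ^ 2 * u := by positivity
    have k2 : 0 ≤ (a + p) ^ 2 * (E * v) := by positivity
    have k3 : a ^ 2 * ((2 * u - 2 * E * v) * i) ≤ a ^ 2 * (1 / 2 * u) :=
      mul_le_mul_of_nonneg_left g5 (sq_nonneg a)
    have k4 : p ^ 2 * u ≤ g * u := mul_le_mul_of_nonneg_right g1 hu.le
    have k5 : E * (p ^ 2 * v) ≤ E * (g * u) := by
      refine mul_le_mul_of_nonneg_left ?_ hE0.le
      exact mul_le_mul g1 g2 g3.le ((sq_nonneg p).trans g1)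
    nlinarith
  have hL : Integrable (fun x => (1 / 4) * (f x ^ 2 * Real.exp (-‖x‖)) -
      ((4 + E) * (G f x * Real.exp (-‖x‖)) + 3 * E * (f x ^ 2 * Real.exp (-2 * ‖x‖)))) :=
    (hF1.const_mul _).sub ((hG.const_mul _).add (hF2.const_mul _))
  have hR : Integrable (fun x => (2 * E * (f x ^ 2 * Real.exp (-2 * ‖x‖) * ‖x‖⁻¹) +
        E * ((2 * f x * rd f x - 2 * f x ^ 2) * Real.exp (-2 * ‖x‖))) -
      ((2 * f x * rd f x - f x ^ 2) * Real.exp (-‖x‖) +
        2 * (f x ^ 2 * Real.exp (-‖x‖) * ‖x‖⁻¹))) :=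
    ((i2.const_mul _).add (hQ2.const_mul _)).sub (hQ1.add (i1.const_mul _))
  have hfin := integral_mono hL hR key
  have eL := int3 hF1 hG hF2 (1 / 4) (4 + E) (3 * E)
  have eR := int4 i2 hQ2 hQ1 i1 (2 * E) E 2
  rw [eL, eR, h1, h2] at hfin
  linarith

/-- both steps together -/
theorem comb (hdiv : S_div) (hI0 : Integrable (fun x : E3 => Real.exp (-‖x‖)))
    (hI2 : Integrable (fun x : E3 => ‖x‖ ^ 2 * Real.exp (-‖x‖))) :
    ∃ C3 C4 : ℝ, 0 ≤ C3 ∧ 0 ≤ C4 ∧ ∀ f, LC1 f → ∫ x, f x ^ 2 * Real.exp (-‖x‖) ≤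
      C3 * (∫ x, G f x * Real.exp (-‖x‖)) + C4 * (∫ x, f x * Real.exp (-2 * ‖x‖)) ^ 2 := by
  have hc := c2_pos hI0
  set c : ℝ := ∫ x : E3, Real.exp (-2 * ‖x‖) with hcdef
  set A : ℝ := ∫ x : E3, ‖x‖ ^ 2 * Real.exp (-‖x‖) with hA
  have hA0 : 0 ≤ A := integral_nonneg fun x => by positivity
  refine ⟨(16 + 4 * Real.exp 4) + 12 * Real.exp 4 * (A / c), 12 * Real.exp 4 / c,
    by positivity, by positivity, fun f hf => ?_⟩
  have h1 := stepA hdiv hI0 hf
  obtain ⟨K, hK⟩ := hf.lip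
  obtain ⟨B, hB0, hB⟩ := lc1_bdd hf
  have h2 := var2 hK hB hI0 hI2
  rw [← hcdef, ← hA] at h2
  set I1 := ∫ x, G f x * Real.exp (-‖x‖)
  set I2 := ∫ x, f x ^ 2 * Real.exp (-2 * ‖x‖)
  set T := ∫ x, f x * Real.exp (-2 * ‖x‖)
  have h3 : I2 ≤ (A * I1 + T ^ 2) / c := by
    rw [le_div_iff₀ hc]
    exact h2
  have h4 : 12 * Real.exp 4 * I2 ≤ 12 * Real.exp 4 * ((A * I1 + T ^ 2) / c) :=
    mul_le_mul_of_nonneg_left h3 (by positivity)
  calc _ ≤ (16 + 4 * Real.exp 4) * I1 + 12 * Real.exp 4 * I2 := h1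
    _ ≤ (16 + 4 * Real.exp 4) * I1 + 12 * Real.exp 4 * ((A * I1 + T ^ 2) / c) := by linarith
    _ = _ := by ring

/-! ### the limit -/

theorem zt_lip {r : ℝ} (hr : 0 < r) : LipschitzWith (Real.toNNReal (2 / r)) (zt r) := by
  apply LipschitzWith.of_dist_le_mul
  intro x y
  rw [Real.coe_toNNReal _ (by positivity), dist_eq_norm x y, Real.dist_eq]
  have h1 : |(2 - 2 * ‖x‖ / r) - (2 - 2 * ‖y‖ / r)| ≤ 2 / r * ‖x - y‖ := by
    have e : (2 - 2 * ‖x‖ / r) - (2 - 2 * ‖y‖ / r) = 2 / r * (‖y‖ - ‖x‖) := by ring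
    rw [e, abs_mul, abs_of_nonneg (by positivity : 0 ≤ 2 / r)]
    refine mul_le_mul_of_nonneg_left ?_ (by positivity)
    rw [abs_sub_comm]
    exact abs_norm_sub_norm_le x y
  unfold zt
  refine le_trans ?_ h1
  refine (abs_max_sub_max_le_max _ _ _ _).trans ?_
  rw [sub_self, abs_zero]
  refine max_le (abs_nonneg _) ((abs_min_sub_min_le_max _ _ _ _).trans ?_)
  rw [sub_self, abs_zero]
  exact max_le (abs_nonneg _) le_rfl

theorem zt_one {r : ℝ} (hr : 0 < r) {x : E3} (hx : ‖x‖ ≤ r / 2) : zt r x = 1 := by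
  unfold zt
  have h1 : 2 * ‖x‖ / r ≤ 1 := by
    rw [div_le_one hr]
    linarith
  rw [min_eq_left (by linarith), max_eq_right (by norm_num)]

theorem zt_supp {r : ℝ} (hr : 0 < r) {x : E3} (hx : zt r x ≠ 0) : ‖x‖ ≤ r := by
  by_contra h
  apply hx
  unfold zt
  have h1 : 2 ≤ 2 * ‖x‖ / r := by
    rw [le_div_iff₀ hr]
    linarith
  exact max_eq_left ((min_le_right _ _).trans (by linarith))

theorem zt_abs (r : ℝ) (x : E3) : |zt r x| ≤ 1 := by
  unfold zt
  rw [abs_of_nonneg (le_max_left _ _)]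
  exact max_le zero_le_one (min_le_left _ _)

theorem gn_lc1 {f : E3 → ℝ} (hf : LC1 f) (t : ℝ) {r : ℝ} (hr : 0 < r) :
    LC1 (fun x => f x - t * zt r x) := by
  obtain ⟨K, hK⟩ := hf.lip
  obtain ⟨R, hR⟩ := hf.supp
  refine ⟨⟨Real.toNNReal (K + |t| * (2 / r)), ?_⟩, ⟨max R r, fun x hx => ?_⟩⟩
  · apply LipschitzWith.of_dist_le_mul
    intro x y
    rw [Real.coe_toNNReal _ (by positivity), Real.dist_eq]
    have h1 := hK.dist_le_mul x y
    have h2 := (zt_lip hr).dist_le_mul x y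
    rw [Real.dist_eq] at h1 h2
    rw [Real.coe_toNNReal _ (by positivity)] at h2
    have e : f x - t * zt r x - (f y - t * zt r y) = (f x - f y) - t * (zt r x - zt r y) := by
      ring
    rw [e]
    refine (abs_sub _ _).trans ?_
    rw [abs_mul]
    calc |f x - f y| + |t| * |zt r x - zt r y| ≤ K * dist x y + |t| * (2 / r * dist x y) := by
          gcongr
      _ = _ := by ring
  · by_cases h : f x = 0
    · have h1 : zt r x ≠ 0 := by
        intro h2
        apply hx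
        rw [h, h2]
        ring
      exact (zt_supp hr h1).trans (le_max_right _ _)
    · exact (hR x h).trans (le_max_left _ _)

theorem pd1_congr {f g : E3 → ℝ} {x : E3} (h : f =ᶠ[𝓝 x] g) (c : Fin 3) :
    pd1 c f x = pd1 c g x := h.lineDeriv_eq

theorem G_gn_le {f : E3 → ℝ} {R : ℝ} (hR : ∀ x, f x ≠ 0 → ‖x‖ ≤ R) (t : ℝ) {r : ℝ}
    (hr : 0 < r) (hRr : R < r / 2) (x : E3) :
    G (fun x => f x - t * zt r x) x ≤ G f x + 3 * (t ^ 2 * (2 / r) ^ 2) := by
  have hp : 0 ≤ 3 * (t ^ 2 * (2 / r) ^ 2) := by positivity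
  rcases lt_or_ge ‖x‖ (r / 2) with h | h
  · have h1 : ∀ c, pd1 c (fun x => f x - t * zt r x) x = pd1 c f x := by
      intro c
      have h2 : (fun x => f x - t * zt r x) =ᶠ[𝓝 x] fun x => f x - t := by
        filter_upwards [continuous_norm.continuousAt.eventually_lt_const h] with y hy
        rw [zt_one hr hy.le, mul_one]
      rw [pd1_congr h2]
      unfold pd1 lineDeriv
      exact deriv_sub_const _
    have h2 : G (fun x => f x - t * zt r x) x = G f x := by
      unfold G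
      simp only [h1]
    rw [h2]
    linarith
  · have h2 : (fun x => f x - t * zt r x) =ᶠ[𝓝 x] fun x => -t * zt r x := by
      filter_upwards [continuous_norm.continuousAt.eventually_const_lt (hRr.trans_le h)] with y hy
      have h3 : f y = 0 := by
        by_contra h4
        exact absurd (hR y h4) (not_le.mpr hy)
      rw [h3]
      ring
    have h3 : LipschitzWith (Real.toNNReal (|t| * (2 / r))) (fun x : E3 => -t * zt r x) := by
      apply LipschitzWith.of_dist_le_mul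
      intro y z
      have h4 := (zt_lip hr).dist_le_mul y z
      rw [Real.coe_toNNReal _ (by positivity)] at h4 ⊢
      rw [Real.dist_eq] at h4 ⊢
      rw [← mul_sub, abs_mul, abs_neg, mul_assoc]
      exact mul_le_mul_of_nonneg_left h4 (abs_nonneg t)
    have h4 : G (fun x => f x - t * zt r x) x = G (fun x : E3 => -t * zt r x) x := by
      unfold G
      simp only [pd1_congr h2]
    rw [h4]
    have h5 := G_le h3 x
    rw [Real.coe_toNNReal _ (by positivity), mul_pow, sq_abs] at h5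
    have := G_nonneg f x
    linarith

theorem zt_tendsto (x : E3) : Tendsto (fun n : ℕ => zt ((n : ℝ) + 1) x) atTop (𝓝 1) := by
  obtain ⟨N, hN⟩ := exists_nat_ge (2 * ‖x‖)
  refine tendsto_const_nhds.congr' ?_
  filter_upwards [eventually_ge_atTop N] with n hn
  have h1 : (N : ℝ) ≤ n := by exact_mod_cast hn
  exact (zt_one (by positivity) (by linarith)).symm

theorem zt_meas {r : ℝ} (hr : 0 < r) : Measurable (zt r) := (zt_lip hr).continuous.measurable

theorem lim_int {w : E3 → ℝ} (hw : Integrable w) {f : E3 → ℝ} (hfm : Measurable f) {B : ℝ}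
    (hB : ∀ x, |f x| ≤ B) (t : ℝ) (k : ℕ) :
    Tendsto (fun n : ℕ => ∫ x, (f x - t * zt ((n : ℝ) + 1) x) ^ k * w x) atTop
      (𝓝 (∫ x, (f x - t) ^ k * w x)) := by
  refine tendsto_integral_of_dominated_convergence (fun x => (B + |t|) ^ k * |w x|) ?_ ?_ ?_ ?_
  · intro n
    exact (((hfm.sub ((zt_meas (by positivity)).const_mul t)).pow_const k).aestronglyMeasurable).mul
      hw.aestronglyMeasurable
  · exact hw.abs.const_mul _
  · intro n
    refine ae_of_all _ fun x => ?_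
    rw [Real.norm_eq_abs, abs_mul, abs_pow]
    refine mul_le_mul_of_nonneg_right (pow_le_pow_left₀ (abs_nonneg _) ?_ k) (abs_nonneg _)
    refine (abs_sub _ _).trans ?_
    rw [abs_mul]
    have h1 := zt_abs ((n : ℝ) + 1) x
    have h2 := abs_nonneg t
    have h3 := hB x
    nlinarith
  · refine ae_of_all _ fun x => ?_
    have h1 := ((tendsto_const_nhds (x := f x)).sub ((zt_tendsto x).const_mul t)).pow k
    rw [mul_one] at h1
    exact h1.mul_const _

theorem lim_ineq (hI0 : Integrable (fun x : E3 => Real.exp (-‖x‖))) {C3 C4 : ℝ} (h3 : 0 ≤ C3)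
    (hC : ∀ f, LC1 f → ∫ x, f x ^ 2 * Real.exp (-‖x‖) ≤
      C3 * (∫ x, G f x * Real.exp (-‖x‖)) + C4 * (∫ x, f x * Real.exp (-2 * ‖x‖)) ^ 2)
    {f : E3 → ℝ} (hf : LC1 f) : ∃ t : ℝ, ∫ x, (f x - t) ^ 2 * Real.exp (-‖x‖) ≤
      C3 * ∫ x, G f x * Real.exp (-‖x‖) := by
  obtain ⟨B, hB0, hB⟩ := lc1_bdd hf
  obtain ⟨K, hK⟩ := hf.lip
  obtain ⟨R, hR⟩ := hf.supp
  have hfm : Measurable f := hK.continuous.measurable
  have hw2 := int_E2 hI0
  have hc := c2_pos hI0
  set c : ℝ := ∫ x : E3, Real.exp (-2 * ‖x‖) with hcdef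
  set t : ℝ := (∫ x, f x * Real.exp (-2 * ‖x‖)) / c with ht
  refine ⟨t, ?_⟩
  have hG : Integrable (fun x => G f x * Real.exp (-‖x‖)) :=
    int_bdd hI0 (G_meas hK.continuous) (B := 3 * (K : ℝ) ^ 2) fun x => by
      rw [abs_of_nonneg (G_nonneg f x)]
      exact G_le hK x
  have l1 := lim_int hI0 hfm hB t 2
  have l2 := lim_int hw2 hfm hB t 1
  simp only [pow_one] at l2
  have e0 : ∫ x, (f x - t) * Real.exp (-2 * ‖x‖) = 0 := by
    have i1 : Integrable (fun x => f x * Real.exp (-2 * ‖x‖)) := int_bdd hw2 hfm hB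
    have i2 : Integrable (fun x : E3 => t * Real.exp (-2 * ‖x‖)) := hw2.const_mul t
    have e1 : ∀ x : E3, (f x - t) * Real.exp (-2 * ‖x‖) =
      f x * Real.exp (-2 * ‖x‖) - t * Real.exp (-2 * ‖x‖) := fun x => by ring
    simp only [e1]
    rw [integral_sub i1 i2, integral_const_mul, ht, ← hcdef, div_mul_cancel₀ _ hc.ne', sub_self]
  rw [e0] at l2
  have l3 : Tendsto (fun n : ℕ => 3 * (t ^ 2 * (2 / ((n : ℝ) + 1)) ^ 2)) atTop (𝓝 0) := by
    have h1 : Tendsto (fun n : ℕ => (2 : ℝ) / ((n : ℝ) + 1)) atTop (𝓝 0) :=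
      Tendsto.div_atTop tendsto_const_nhds
        (tendsto_atTop_add_const_right _ _ tendsto_natCast_atTop_atTop)
    have h2 := ((h1.pow 2).const_mul (t ^ 2)).const_mul 3
    simpa using h2
  have l4 : Tendsto (fun n : ℕ => C3 * ((∫ x, G f x * Real.exp (-‖x‖)) +
      3 * (t ^ 2 * (2 / ((n : ℝ) + 1)) ^ 2) * ∫ x : E3, Real.exp (-‖x‖)) +
      C4 * (∫ x, (f x - t * zt ((n : ℝ) + 1) x) * Real.exp (-2 * ‖x‖)) ^ 2) atTop
      (𝓝 (C3 * ((∫ x, G f x * Real.exp (-‖x‖)) + 0 * ∫ x : E3, Real.exp (-‖x‖)) +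
        C4 * 0 ^ 2)) :=
    (((l3.mul_const _).const_add _).const_mul _).add ((l2.pow 2).const_mul _)
  have l5 := le_of_tendsto_of_tendsto l1 l4 (by
    obtain ⟨N, hN⟩ := exists_nat_ge (2 * R)
    filter_upwards [eventually_ge_atTop N] with n hn
    have h1 : (N : ℝ) ≤ n := by exact_mod_cast hn
    have hr : (0 : ℝ) < (n : ℝ) + 1 := by positivity
    have hRr : R < ((n : ℝ) + 1) / 2 := by linarith
    have h2 := hC _ (gn_lc1 hf t hr)
    refine h2.trans ?_
    have i3 : Integrable (fun x : E3 => 3 * (t ^ 2 * (2 / ((n : ℝ) + 1)) ^ 2) *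
      Real.exp (-‖x‖)) := hI0.const_mul _
    have h4 : ∫ x, G (fun x => f x - t * zt ((n : ℝ) + 1) x) x * Real.exp (-‖x‖) ≤
        (∫ x, G f x * Real.exp (-‖x‖)) +
          3 * (t ^ 2 * (2 / ((n : ℝ) + 1)) ^ 2) * ∫ x : E3, Real.exp (-‖x‖) := by
      rw [← integral_const_mul, ← integral_add hG i3]
      refine integral_mono_of_nonneg (ae_of_all _ fun x =>
        mul_nonneg (G_nonneg _ x) (Real.exp_pos _).le) (hG.add i3) (ae_of_all _ fun x => ?_)
      have h5 := mul_le_mul_of_nonneg_right (G_gn_le hR t hr hRr x) (Real.exp_pos (-‖x‖)).le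
      beta_reduce
      linarith
    have h5 := mul_le_mul_of_nonneg_left h4 h3
    linarith)
  simpa using l5

end MolDis.H.Gap

namespace MolDis.H

open Gap

/-- **H5 (soft spectral gap).** -/
theorem p_gap (h1 : S_hm) (h2 : S_div) : S_gap := by
  obtain ⟨hP, _, _, hint, hmom, _, _⟩ := h1
  have hden : ∀ x : E3, (ENNReal.ofReal (Real.exp (-‖x‖) / (8 * Real.pi))).toReal =
      Real.exp (-‖x‖) / (8 * Real.pi) := fun x => ENNReal.toReal_ofReal (by positivity)
  have hk : ∀ k : ℕ, Integrable (fun x : E3 => ‖x‖ ^ k * Real.exp (-‖x‖)) := by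
    intro k
    have h3 := (hmom k).1
    unfold hm at h3
    rw [integrable_withDensity_iff (by fun_prop) (ae_of_all _ fun x => ENNReal.ofReal_lt_top)]
      at h3
    have h4 := h3.mul_const (8 * Real.pi)
    refine h4.congr (ae_of_all _ fun x => ?_)
    beta_reduce
    rw [hden]
    field_simp
  have hI0 : Integrable (fun x : E3 => Real.exp (-‖x‖)) := by
    have := hk 0
    simpa using this
  obtain ⟨C3, C4, h3, h4, hC⟩ := comb h2 hI0 (hk 2)
  refine ⟨min (3 / 16) (1 / (C3 + 1)), lt_min (by norm_num) (by positivity), min_le_left _ _,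
    fun f hf => ?_⟩
  obtain ⟨t, ht⟩ := lim_ineq hI0 h3 hC hf
  obtain ⟨B, hB0, hB⟩ := lc1_bdd hf
  obtain ⟨K, hK⟩ := hf.lip
  have hfm : Measurable f := hK.continuous.measurable
  have hD : D1 f f = (∫ x, G f x * Real.exp (-‖x‖)) / (8 * Real.pi) := by
    unfold D1
    simp only [hint]
    rw [← integral_div, ← integral_finsetSum]
    · congr 1
      funext x
      unfold G
      rw [Finset.sum_mul, Finset.sum_div]
      refine Finset.sum_congr rfl fun c _ => ?_
      ring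
    · intro c _
      have h5 : Integrable (fun x => pd1 c f x ^ 2 * Real.exp (-‖x‖)) :=
        int_bdd hI0 ((pd1_meas hK.continuous c).pow_const 2) (B := (K : ℝ) ^ 2) fun x => by
          rw [abs_pow]
          exact pow_le_pow_left₀ (abs_nonneg _) (pd1_le hK c x) 2
      refine (h5.div_const (8 * Real.pi)).congr (ae_of_all _ fun x => ?_)
      beta_reduce
      ring
  have hV : (∫ x, f x ^ 2 ∂hm) - (∫ x, f x ∂hm) ^ 2 ≤
      (∫ x, (f x - t) ^ 2 * Real.exp (-‖x‖)) / (8 * Real.pi) := by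
    have i1 : Integrable f hm := Integrable.of_bound hfm.aestronglyMeasurable B
      (ae_of_all _ hB)
    have i2 : Integrable (fun x => f x ^ 2) hm :=
      Integrable.of_bound (hfm.pow_const 2).aestronglyMeasurable (B ^ 2)
        (ae_of_all _ fun x => by
          rw [Real.norm_eq_abs, abs_pow]
          exact pow_le_pow_left₀ (abs_nonneg _) (hB x) 2)
    have h5 : ∫ x, (f x - t) ^ 2 ∂hm = (∫ x, (f x - t) ^ 2 * Real.exp (-‖x‖)) / (8 * Real.pi) := by
      rw [hint, ← integral_div]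
      congr 1
      funext x
      ring
    have h6 : ∫ x, (f x - t) ^ 2 ∂hm = (∫ x, f x ^ 2 ∂hm) - 2 * t * (∫ x, f x ∂hm) + t ^ 2 := by
      have i3 : Integrable (fun x => 2 * t * f x) hm := i1.const_mul _
      have i4 : Integrable (fun x => f x ^ 2 - 2 * t * f x) hm := i2.sub i3
      have i5 : Integrable (fun _ : E3 => t ^ 2) hm := integrable_const _
      have e : ∀ x, (f x - t) ^ 2 = f x ^ 2 - 2 * t * f x + t ^ 2 := fun x => by ring
      simp only [e]
      rw [integral_add i4 i5, integral_sub i2 i3, integral_const_mul]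
      simp
    rw [← h5, h6]
    nlinarith [sq_nonneg ((∫ x, f x ∂hm) - t)]
  have hpi : (0 : ℝ) < 8 * Real.pi := by positivity
  have hG0 : 0 ≤ ∫ x, G f x * Real.exp (-‖x‖) :=
    integral_nonneg fun x => mul_nonneg (G_nonneg f x) (Real.exp_pos _).le
  have hD0 : 0 ≤ D1 f f := by
    rw [hD]
    positivity
  have hfin : (∫ x, f x ^ 2 ∂hm) - (∫ x, f x ∂hm) ^ 2 ≤ C3 * D1 f f := by
    refine hV.trans ?_
    rw [hD, ← mul_div_assoc]
    exact div_le_div_of_nonneg_right ht hpi.le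
  have hm0 : 0 ≤ min (3 / 16) (1 / (C3 + 1)) := le_min (by norm_num) (by positivity)
  calc min (3 / 16) (1 / (C3 + 1)) * ((∫ x, f x ^ 2 ∂hm) - (∫ x, f x ∂hm) ^ 2)
      ≤ min (3 / 16) (1 / (C3 + 1)) * (C3 * D1 f f) := mul_le_mul_of_nonneg_left hfin hm0
    _ ≤ 1 / (C3 + 1) * (C3 * D1 f f) :=
        mul_le_mul_of_nonneg_right (min_le_right _ _) (mul_nonneg h3 hD0)
    _ ≤ D1 f f := by
        rw [← mul_assoc]
        have h5 : 1 / (C3 + 1) * C3 ≤ 1 := by
          rw [one_div, inv_mul_le_iff₀ (by linarith)]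
          linarith
        nlinarith

end MolDis.H
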