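import Pool.Agent.Lib.MP_59f35a_mp.HStmts

/-!
# MP_59f35a_mp, Theorem D, piece E6: dipole moment of the three atoms
-/

set_option autoImplicit false

noncomputable section

open MeasureTheory

namespace MolDis.H
namespace Dip

lemma abs_coord_le (x : E3) (c : Fin 3) : |x c| ≤ ‖x‖ := by
  have := PiLp.norm_apply_le x c
  simpa [Real.norm_eq_abs] using this

lemma BL_abs {f : X3 → ℝ} (hf : BL f) : BL (fun x => |f x|) := by
  obtain ⟨⟨K, hK⟩, B, hB⟩ := hf
  refine ⟨⟨K, ?_⟩, B, fun x => by simpa using hB x⟩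
  refine LipschitzWith.of_dist_le_mul (fun x y => ?_)
  rw [Real.dist_eq]
  exact (abs_abs_sub_abs_le _ _).trans ((Real.dist_eq (f x) (f y)).symm ▸ hK.dist_le_mul x y)

lemma piv_eq (x : X3) :
    sgT (Equiv.swap 0 1) (fun _ _ => (-1 : ℝ)) x = piv x := by
  funext j
  fin_cases j
  · ext c
    simp [sgT, piv]
  · ext c
    simp [sgT, piv]
  · ext c
    have : (Equiv.swap (0 : Fin 3) 1) 2 = 2 := by decide
    simp [sgT, piv, this]

/-- the coordinate sum -/
def Z (x : X3) : ℝ := x 0 0 + x 1 0 + x 2 0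

lemma Z_piv (x : X3) : Z (piv x) = - Z x := by
  simp [Z, piv]
  ring

lemma Z_meas : Measurable Z := by
  unfold Z
  fun_prop

lemma piv_piv (x : X3) : piv (piv x) = x := by
  funext j
  fin_cases j <;> simp [piv]

lemma norm_piv (x : X3) (r : ℝ) (h : ∀ j, ‖x j‖ ≤ r) : ∀ j, ‖piv x j‖ ≤ r := by
  intro j
  fin_cases j
  · simpa [piv] using h 1
  · simpa [piv] using h 0
  · simpa [piv] using h 2

lemma Z_bd (x : X3) (r : ℝ) (h : ∀ j, ‖x j‖ ≤ r) : |Z x| ≤ 3 * r := by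
  have h0 := (abs_coord_le (x 0) 0).trans (h 0)
  have h1 := (abs_coord_le (x 1) 0).trans (h 1)
  have h2 := (abs_coord_le (x 2) 0).trans (h 2)
  unfold Z
  rw [abs_le] at *
  constructor <;> linarith [h0.1, h0.2, h1.1, h1.2, h2.1, h2.2]

/-- a bounded measurable function is integrable -/
lemma bint (hP : S_prod) {F : X3 → ℝ} (hm : Measurable F) (K : ℝ) (hK : ∀ x, |F x| ≤ K) :
    Integrable F pm := by
  have := hP.1
  exact Integrable.of_bound hm.aestronglyMeasurable K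
    (Filter.Eventually.of_forall fun x => by simpa [Real.norm_eq_abs] using hK x)

lemma num1 {C3 r a l e : ℝ} (hC3 : 1 ≤ C3) (hr1 : 1 ≤ r) (ha1 : 1 ≤ a) (hal : a ≤ l)
    (hral : r ^ 4 ≤ l) (he0 : 0 < e) (he1 : e ≤ 1) :
    3 * r * ((C3 * (r ^ 2 * a / l ^ 4 + e)) * (2 * (C3 * (r ^ 2 / l ^ 3 + e)))) ≤
      18 * C3 ^ 2 * r ^ 8 * (a / l ^ 7 + e) := by
  have hl0 : 0 < l := by linarith
  have hl1 : 1 ≤ l := by linarith
  have hr0 : 0 < r := by linarith
  have ha0 : 0 < a := by linarith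
  have hr24 : r ^ 2 ≤ r ^ 4 := pow_le_pow_right₀ hr1 (by norm_num)
  have hp1 : r ^ 2 * a / l ^ 4 ≤ 1 := by
    rw [div_le_one (by positivity)]
    calc r ^ 2 * a ≤ l * l := mul_le_mul (hr24.trans hral) hal ha0.le hl0.le
      _ ≤ l ^ 4 := by nlinarith [pow_le_pow_right₀ hl1 (by norm_num : 2 ≤ 4)]
  have hq1 : r ^ 2 / l ^ 3 ≤ 1 := by
    rw [div_le_one (by positivity)]
    exact (hr24.trans hral).trans (le_self_pow₀ hl1 (by norm_num))
  have hpq : (r ^ 2 * a / l ^ 4) * (r ^ 2 / l ^ 3) = r ^ 4 * (a / l ^ 7) := by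
    field_simp
  have hp0 : 0 ≤ r ^ 2 * a / l ^ 4 := by positivity
  have hq0 : 0 ≤ r ^ 2 / l ^ 3 := by positivity
  generalize r ^ 2 * a / l ^ 4 = p at *
  generalize r ^ 2 / l ^ 3 = q at *
  have hx0 : 0 ≤ a / l ^ 7 := by positivity
  generalize a / l ^ 7 = x at *
  have h1 : (p + e) * (q + e) ≤ r ^ 4 * x + 3 * e := by
    have a1 : p * e ≤ e := by nlinarith
    have a2 : e * q ≤ e := by nlinarith
    have a3 : e * e ≤ e := by nlinarith
    nlinarith
  have hr48 : r * r ^ 4 ≤ r ^ 8 := by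
    rw [← pow_succ']
    exact pow_le_pow_right₀ hr1 (by norm_num)
  have hr8 : r ≤ r ^ 8 := le_self_pow₀ hr1 (by norm_num)
  have h2 : r * (r ^ 4 * x + 3 * e) ≤ 3 * (r ^ 8 * (x + e)) := by
    have b1 : r * r ^ 4 * x ≤ r ^ 8 * x := mul_le_mul_of_nonneg_right hr48 hx0
    have b2 : r * e ≤ r ^ 8 * e := mul_le_mul_of_nonneg_right hr8 he0.le
    have b3 : 0 ≤ r ^ 8 * x := by positivity
    nlinarith
  calc 3 * r * ((C3 * (p + e)) * (2 * (C3 * (q + e))))
      = 6 * C3 ^ 2 * (r * ((p + e) * (q + e))) := by ring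
    _ ≤ 6 * C3 ^ 2 * (r * (r ^ 4 * x + 3 * e)) := by gcongr
    _ ≤ 6 * C3 ^ 2 * (3 * (r ^ 8 * (x + e))) := by gcongr
    _ = 18 * C3 ^ 2 * r ^ 8 * (x + e) := by ring

lemma num2 {C3 Cm r a l e c M2 M4 : ℝ} (hC3 : 1 ≤ C3) (hCm : 1 ≤ Cm) (hr1 : 1 ≤ r)
    (ha1 : 1 ≤ a) (hal : a ≤ l)
    (hral : r ^ 4 ≤ l) (he0 : 0 < e) (he1 : e ≤ 1)
    (hc1 : c ^ 2 ≤ 1) (hc2 : 1 - c ^ 2 ≤ C3 * (r ^ 4 / l ^ 6 + e ^ 2))
    (hM2 : |M2| ≤ Cm * a * r ^ 8 * (1 / a ^ 6 + e ^ 2))
    (hM4 : |M4| ≤ Cm * a ^ 3 * r ^ 8 * (1 / a ^ 6 + e ^ 2)) :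
    |36 * (c ^ 2 - 1) * (3 * M2 / l ^ 4 + 5 * M4 / l ^ 6)| ≤
      36 * (16 * C3 * Cm) * r ^ 8 * (a / l ^ 7 + e) := by
  have hl0 : 0 < l := by linarith
  have hl1 : 1 ≤ l := by linarith
  have hr0 : 0 < r := by linarith
  have ha0 : 0 < a := by linarith
  have h2 : 1 / a ^ 6 + e ^ 2 ≤ 2 := by
    have : 1 / a ^ 6 ≤ 1 := by
      rw [div_le_one (by positivity)]
      exact one_le_pow₀ ha1
    nlinarith
  have hM2' : |M2| ≤ Cm * a * r ^ 8 * 2 := hM2.trans (by gcongr)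
  have hM4' : |M4| ≤ Cm * a ^ 3 * r ^ 8 * 2 := hM4.trans (by gcongr)
  have hX : |3 * M2 / l ^ 4 + 5 * M4 / l ^ 6| ≤ 16 * Cm * r ^ 8 * (a / l ^ 4) := by
    have e1 : |3 * M2 / l ^ 4| ≤ 6 * Cm * r ^ 8 * (a / l ^ 4) := by
      rw [abs_div, abs_mul, abs_of_pos (by positivity : (0:ℝ) < l ^ 4),
        abs_of_pos (by norm_num : (0:ℝ) < 3), div_le_iff₀ (by positivity)]
      have : 6 * Cm * r ^ 8 * (a / l ^ 4) * l ^ 4 = 6 * Cm * r ^ 8 * a := by
        field_simp
      rw [this]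
      linarith
    have e2 : |5 * M4 / l ^ 6| ≤ 10 * Cm * r ^ 8 * (a / l ^ 4) := by
      rw [abs_div, abs_mul, abs_of_pos (by positivity : (0:ℝ) < l ^ 6),
        abs_of_pos (by norm_num : (0:ℝ) < 5), div_le_iff₀ (by positivity)]
      have : 10 * Cm * r ^ 8 * (a / l ^ 4) * l ^ 6 = 10 * Cm * r ^ 8 * a * l ^ 2 := by
        field_simp
      rw [this]
      have h3 : a ^ 2 ≤ l ^ 2 := pow_le_pow_left₀ ha0.le hal 2
      have h4 : Cm * r ^ 8 * a * a ^ 2 ≤ Cm * r ^ 8 * a * l ^ 2 := by gcongr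
      nlinarith
    refine (abs_add_le _ _).trans ?_
    linarith
  have hx0 : 0 ≤ a / l ^ 7 := by positivity
  have h1c : |c ^ 2 - 1| ≤ C3 * (r ^ 4 / l ^ 6 + e ^ 2) := by
    rw [abs_sub_comm, abs_of_nonneg (by linarith)]
    exact hc2
  have key : (r ^ 4 / l ^ 6 + e ^ 2) * (a / l ^ 4) ≤ a / l ^ 7 + e := by
    have k1 : r ^ 4 / l ^ 6 * (a / l ^ 4) ≤ a / l ^ 7 := by
      have : r ^ 4 / l ^ 6 * (a / l ^ 4) = (r ^ 4 / l ^ 3) * (a / l ^ 7) := by
        field_simp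
      rw [this]
      have h5 : r ^ 4 / l ^ 3 ≤ 1 := by
        rw [div_le_one (by positivity)]
        exact hral.trans (le_self_pow₀ hl1 (by norm_num))
      nlinarith
    have k2 : a / l ^ 4 ≤ 1 := by
      rw [div_le_one (by positivity)]
      exact hal.trans (le_self_pow₀ hl1 (by norm_num))
    have k3 : e ^ 2 * (a / l ^ 4) ≤ e := by
      have : 0 ≤ a / l ^ 4 := by positivity
      nlinarith
    nlinarith
  rw [abs_mul, abs_mul, abs_of_pos (by norm_num : (0:ℝ) < 36)]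
  calc 36 * |c ^ 2 - 1| * |3 * M2 / l ^ 4 + 5 * M4 / l ^ 6|
      ≤ 36 * (C3 * (r ^ 4 / l ^ 6 + e ^ 2)) * (16 * Cm * r ^ 8 * (a / l ^ 4)) := by gcongr
    _ = 36 * (16 * C3 * Cm) * r ^ 8 * ((r ^ 4 / l ^ 6 + e ^ 2) * (a / l ^ 4)) := by ring
    _ ≤ 36 * (16 * C3 * Cm) * r ^ 8 * (a / l ^ 7 + e) := by gcongr

lemma num3 {C3 C4 C5 Cm r x e c A B R I X : ℝ} (hr1 : 1 ≤ r) (hx0 : 0 ≤ x) (he0 : 0 < e)
    (hC3 : 1 ≤ C3) (hC4 : 1 ≤ C4) (hC5 : 1 ≤ C5) (hCm : 1 ≤ Cm)
    (hc : |c| ≤ 1) (hI : I = 2 * c * (B + A) + R) (hA : |A - 18 * c * X| ≤ C4 * r ^ 8 * (x + e))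
    (hB : |B| ≤ C5 * r ^ 8 * (x + e)) (hR : |R| ≤ 18 * C3 ^ 2 * r ^ 8 * (x + e))
    (hX : |36 * (c ^ 2 - 1) * X| ≤ 36 * (16 * C3 * Cm) * r ^ 8 * (x + e)) :
    |I - 36 * X| ≤ (18 * C3 ^ 2 + 2 * C4 + 2 * C5 + 36 * (16 * C3 * Cm)) * r ^ 10 * (x + e) := by
  have e1 : I - 36 * X = 2 * c * (A - 18 * c * X) + 2 * c * B + R + 36 * (c ^ 2 - 1) * X := by
    rw [hI]; ring
  have a1 : |2 * c * (A - 18 * c * X)| ≤ 2 * (C4 * r ^ 8 * (x + e)) := by
    rw [abs_mul, abs_mul, abs_of_pos (by norm_num : (0:ℝ) < 2)]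
    have := mul_le_mul hc hA (abs_nonneg _) zero_le_one
    linarith
  have a2 : |2 * c * B| ≤ 2 * (C5 * r ^ 8 * (x + e)) := by
    rw [abs_mul, abs_mul, abs_of_pos (by norm_num : (0:ℝ) < 2)]
    have := mul_le_mul hc hB (abs_nonneg _) zero_le_one
    linarith
  have a3 : |I - 36 * X| ≤ (18 * C3 ^ 2 + 2 * C4 + 2 * C5 + 36 * (16 * C3 * Cm)) *
      (r ^ 8 * (x + e)) := by
    rw [e1]
    refine (abs_add_le _ _).trans ?_
    have := (abs_add_le (2 * c * (A - 18 * c * X) + 2 * c * B) R)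
    have := (abs_add_le (2 * c * (A - 18 * c * X)) (2 * c * B))
    linarith
  refine a3.trans ?_
  have h8 : r ^ 8 ≤ r ^ 10 := pow_le_pow_right₀ hr1 (by norm_num)
  have hK : 0 ≤ 18 * C3 ^ 2 + 2 * C4 + 2 * C5 + 36 * (16 * C3 * Cm) := by positivity
  have hxe : 0 ≤ x + e := by positivity
  have := mul_le_mul_of_nonneg_left (mul_le_mul_of_nonneg_right h8 hxe) hK
  linarith

end Dip

open Dip in
theorem p_dip (hE3 : S_E3) (hE4 : S_E4) (hE5 : S_E5) (hMh : S_Mh) (hsym : S_sym)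
    (hP : S_prod) (hbl : S_bl) (hform : S_form) : S_dip := by
  intro g0 hg0
  obtain ⟨C3, r3, hC3, hr3, H3⟩ := hE3 g0 hg0
  obtain ⟨C4, r4, hC4, hr4, H4⟩ := hE4 g0 hg0
  obtain ⟨C5, r5, hC5, hr5, H5⟩ := hE5 g0 hg0
  obtain ⟨Cm, rm, hCm, hrm, Hm⟩ := hMh g0 hg0
  refine ⟨18 * C3 ^ 2 + 2 * C4 + 2 * C5 + 36 * (16 * C3 * Cm), max (max r3 r4) (max r5 rm),
    by nlinarith [mul_nonneg (by linarith : (0:ℝ) ≤ C3) (by linarith : (0:ℝ) ≤ Cm), sq_nonneg C3],
    hr3.trans ((le_max_left _ _).trans (le_max_left _ _)), ?_⟩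
  intro r a l φ g hr ha hl hφ hev hg
  have hrr3 : r3 ≤ r := ((le_max_left _ _).trans (le_max_left _ _)).trans hr
  have hrr4 : r4 ≤ r := ((le_max_right _ _).trans (le_max_left _ _)).trans hr
  have hrr5 : r5 ≤ r := ((le_max_left _ _).trans (le_max_right _ _)).trans hr
  have hrrm : rm ≤ r := ((le_max_right _ _).trans (le_max_right _ _)).trans hr
  have hr1 : 1 ≤ r := hr3.trans hrr3
  obtain ⟨-, hc2, hpodBox, -, -, hpod⟩ := H3 r a l φ g hrr3 ha hl hφ hev hg
  have hA := H4 r a l φ g hrr4 ha hl hφ hev hg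
  have hB := H5 r a l φ g hrr5 ha hl hφ hev hg
  obtain ⟨-, hM2, hM4⟩ := Hm r a φ hrrm ha hφ
  have hrpos : 0 < r := by linarith
  -- bounded Lipschitz functions
  have S3ne : (S3).Nonempty := ⟨0, Finset.mem_univ _⟩
  have S2ne : (S2).Nonempty := ⟨0, by simp [S2]⟩
  have blφ : BL φ := hbl.2.2.2.1 S2 r φ hφ.box hrpos S2ne
  have blg : BL g := hbl.2.2.2.1 S3 r g hg.box hrpos S3ne
  have blo : BL (pod g) := hbl.2.2.2.1 S3 r _ hpodBox hrpos S3ne
  have hs : ∀ j c : Fin 3, (fun _ _ => (-1 : ℝ) : Fin 3 → Fin 3 → ℝ) j c = 1 ∨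
      (fun _ _ => (-1 : ℝ) : Fin 3 → Fin 3 → ℝ) j c = -1 := fun _ _ => Or.inr rfl
  obtain ⟨hmp, hblp, -, -⟩ := hsym (Equiv.swap 0 1) (fun _ _ => (-1 : ℝ)) hs
  have hmp' : MeasurePreserving piv pm pm := by
    have : (sgT (Equiv.swap 0 1) (fun _ _ => (-1 : ℝ))) = piv := funext piv_eq
    rwa [this] at hmp
  have hblp' : ∀ f, BL f → BL (fun x => f (piv x)) := by
    intro f hf
    have := hblp f hf
    simp only [piv_eq] at this
    exact this
  have hemb : ∀ F : X3 → ℝ, ∫ x, F (piv x) ∂pm = ∫ x, F x ∂pm := by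
    intro F
    have hinv : Function.Involutive piv := piv_piv
    have hme : MeasurableEmbedding piv :=
      (MeasurableEquiv.mk hinv.toPerm hmp'.measurable hmp'.measurable).measurableEmbedding
    exact hmp'.integral_comp hme F
  set c : ℝ := ip φ g with hc
  -- w = g - c φ
  set w : X3 → ℝ := fun x => g x - c * φ x with hw
  have blcφ : BL (fun x => c * φ x) := by
    have := (hbl.1 (fun _ => c) φ (hbl.2.1 c) blφ).2.2
    exact this
  have blw : BL w := (hbl.1 g (fun x => c * φ x) blg blcφ).2.1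
  have blwp : BL (fun x => w (piv x)) := hblp' w blw
  have blG : BL (fun x => w x + w (piv x)) := (hbl.1 _ _ blw blwp).1
  have intmul : ∀ f h : X3 → ℝ, BL f → BL h → Integrable (fun x => f x * h x) pm := by
    intro f h hf hh
    exact (hbl.2.2.1 _ (hbl.1 f h hf hh).2.2).2.1
  -- norms
  have hww : ip w w = 1 - c ^ 2 := by
    have e : ip w w = ∫ x, (g x * g x - 2 * c * (φ x * g x) + c ^ 2 * (φ x * φ x)) ∂pm := by
      unfold ip
      refine integral_congr_ae (Filter.Eventually.of_forall fun x => ?_)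
      simp only [hw]
      ring
    rw [e, integral_add, integral_sub, integral_const_mul, integral_const_mul]
    · have h1 : ∫ x, g x * g x ∂pm = 1 := hg.norm
      have h2 : ∫ x, φ x * φ x ∂pm = 1 := hφ.norm
      have h3 : ∫ x, φ x * g x ∂pm = c := rfl
      rw [h1, h2, h3]
      ring
    · exact intmul g g blg blg
    · exact (intmul φ g blφ blg).const_mul _
    · exact (intmul g g blg blg).sub ((intmul φ g blφ blg).const_mul _)
    · exact (intmul φ φ blφ blφ).const_mul _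
  have hc1 : c ^ 2 ≤ 1 := by
    have : 0 ≤ ip w w := integral_nonneg fun x => mul_self_nonneg _
    linarith
  have hcabs : |c| ≤ 1 := by
    rw [← sq_abs] at hc1
    nlinarith [abs_nonneg c]
  have hGG : ip (fun x => w x + w (piv x)) (fun x => w x + w (piv x)) ≤ 4 * (1 - c ^ 2) := by
    have hwp : ∫ x, w (piv x) * w (piv x) ∂pm = ip w w := hemb (fun x => w x * w x)
    have e : ip (fun x => w x + w (piv x)) (fun x => w x + w (piv x)) ≤
        ∫ x, (2 * (w x * w x) + 2 * (w (piv x) * w (piv x))) ∂pm := by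
      unfold ip
      refine integral_mono (intmul _ _ blG blG)
        (((intmul _ _ blw blw).const_mul _).add ((intmul _ _ blwp blwp).const_mul _)) ?_
      intro x
      simp only
      nlinarith [sq_nonneg (w x - w (piv x))]
    rw [integral_add, integral_const_mul, integral_const_mul, hwp] at e
    · have : ∫ x, w x * w x ∂pm = ip w w := rfl
      rw [this, hww] at e
      linarith
    · exact (intmul _ _ blw blw).const_mul _
    · exact (intmul _ _ blwp blwp).const_mul _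
  -- supports
  have hgsupp : ∀ x, g x ≠ 0 → ∀ j, ‖x j‖ ≤ r := fun x hx j => hg.box.supp x hx j (Finset.mem_univ _)
  have hosupp : ∀ x, pod g x ≠ 0 → ∀ j, ‖x j‖ ≤ r :=
    fun x hx j => hpodBox.supp x hx j (Finset.mem_univ _)
  -- measurability
  have mg : Measurable g := (hbl.2.2.1 g blg).1
  have mφ : Measurable φ := (hbl.2.2.1 φ blφ).1
  have mo : Measurable (pod g) := (hbl.2.2.1 _ blo).1
  have mG : Measurable (fun x => w x + w (piv x)) := (hbl.2.2.1 _ blG).1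
  obtain ⟨Bo, hBo⟩ := blo.bdd
  obtain ⟨Bφ, hBφ⟩ := blφ.bdd
  obtain ⟨BG, hBG⟩ := blG.bdd
  obtain ⟨Bg, hBg⟩ := blg.bdd
  -- integrability of (coordinate) * pod g * F
  have intZ : ∀ (ζ F : X3 → ℝ) (B : ℝ), Measurable ζ → Measurable F →
      (∀ x, (∀ j, ‖x j‖ ≤ r) → |ζ x| ≤ 3 * r) → (∀ x, |F x| ≤ B) →
      Integrable (fun x => F x * ζ x * pod g x) pm := by
    intro ζ F B hζ hF hζb hFb
    refine bint hP ((hF.mul hζ).mul mo) (B * (3 * r) * Bo) (fun x => ?_)
    have hB0 : 0 ≤ B := (abs_nonneg _).trans (hFb x)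
    have hBo0 : 0 ≤ Bo := (abs_nonneg _).trans (hBo x)
    by_cases h0 : pod g x = 0
    · simp only [h0, mul_zero, abs_zero]
      positivity
    · rw [abs_mul, abs_mul]
      exact mul_le_mul (mul_le_mul (hFb x) (hζb x (hosupp x h0)) (abs_nonneg _) hB0) (hBo x)
        (abs_nonneg _) (by positivity)
  have hZb : ∀ x : X3, (∀ j, ‖x j‖ ≤ r) → |Z x| ≤ 3 * r := fun x h => Z_bd x r h
  -- the identity
  have hid : ∫ x, Z x * g x ^ 2 ∂pm =
      2 * c * ∫ x, φ x * Z x * pod g x ∂pm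
        + ∫ x, (w x + w (piv x)) * Z x * pod g x ∂pm := by
    have h1 : ∫ x, Z x * g x ^ 2 ∂pm = - ∫ x, Z x * g (piv x) ^ 2 ∂pm := by
      rw [← hemb (fun x => Z x * g x ^ 2), ← integral_neg]
      refine integral_congr_ae (Filter.Eventually.of_forall fun x => ?_)
      simp only [Z_piv]
      ring
    have i1 : Integrable (fun x => Z x * g x ^ 2) pm := by
      refine bint hP (Z_meas.mul (mg.pow_const 2)) (3 * r * Bg ^ 2) (fun x => ?_)
      by_cases h0 : g x = 0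
      · simp only [h0, ne_eq, OfNat.ofNat_ne_zero, not_false_eq_true, zero_pow, mul_zero, abs_zero]
        positivity
      · rw [abs_mul, abs_pow]
        refine mul_le_mul (hZb x (hgsupp x h0)) ?_ (by positivity) (by positivity)
        exact pow_le_pow_left₀ (abs_nonneg _) (hBg x) 2
    have i2 : Integrable (fun x => Z x * g (piv x) ^ 2) pm := by
      have := (hmp'.integrable_comp_emb
        (MeasurableEquiv.mk (Function.Involutive.toPerm piv piv_piv) hmp'.measurable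
          hmp'.measurable).measurableEmbedding (g := fun x => Z x * g x ^ 2)).2 i1
      have h2 := this.neg
      refine h2.congr (Filter.Eventually.of_forall fun x => ?_)
      simp only [Pi.neg_apply, Function.comp_apply, Z_piv]
      ring
    have h2 : 2 * ∫ x, Z x * g x ^ 2 ∂pm = ∫ x, (Z x * g x ^ 2 - Z x * g (piv x) ^ 2) ∂pm := by
      rw [integral_sub i1 i2]
      linarith
    have h3 : ∫ x, (Z x * g x ^ 2 - Z x * g (piv x) ^ 2) ∂pm =
        ∫ x, (4 * c * (φ x * Z x * pod g x) + 2 * ((w x + w (piv x)) * Z x * pod g x)) ∂pm := by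
      refine integral_congr_ae (Filter.Eventually.of_forall fun x => ?_)
      simp only [hw, pod, hev]
      ring
    rw [h3, integral_add, integral_const_mul, integral_const_mul] at h2
    · linarith
    · exact (intZ Z φ Bφ Z_meas mφ hZb hBφ).const_mul _
    · exact (intZ Z _ BG Z_meas mG hZb hBG).const_mul _
  -- splitting of the first term
  have hsplit : ∫ x, φ x * Z x * pod g x ∂pm =
      (∫ x, φ x * (x 0 0 + x 1 0) * pod g x ∂pm) + ∫ x, φ x * x 2 0 * pod g x ∂pm := by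
    rw [← integral_add]
    · refine integral_congr_ae (Filter.Eventually.of_forall fun x => ?_)
      simp only [Z]
      ring
    · refine intZ (fun x => x 0 0 + x 1 0) φ Bφ (by fun_prop) mφ (fun x h => ?_) hBφ
      have h0 := (abs_coord_le (x 0) 0).trans (h 0)
      have h1 := (abs_coord_le (x 1) 0).trans (h 1)
      exact (abs_add_le _ _).trans (by linarith)
    · refine intZ (fun x => x 2 0) φ Bφ (by fun_prop) mφ (fun x h => ?_) hBφ
      have h2 := (abs_coord_le (x 2) 0).trans (h 2)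
      exact h2.trans (by linarith)
  -- the remainder
  set e : ℝ := Real.exp (-r / 16) with he
  have he0 : 0 < e := Real.exp_pos _
  have he1 : e ≤ 1 := by
    rw [he, Real.exp_le_one_iff]
    linarith
  have hee : Real.exp (-r / 8) = e ^ 2 := by
    rw [he, ← Real.exp_nat_mul]
    congr 1
    push_cast
    ring
  rw [hee] at hc2 hpod hM2 hM4
  have hapos : 0 < a := lt_of_lt_of_le (by positivity) ha
  have ha1 : 1 ≤ a := le_trans (one_le_pow₀ hr1) ha
  have hal : a ≤ l := le_trans (le_self_pow₀ ha1 (by norm_num)) hl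
  have hlpos : 0 < l := hapos.trans_le hal
  have hl1 : 1 ≤ l := ha1.trans hal
  have hral : r ^ 4 ≤ l := ha.trans hal
  have hrem : |∫ x, (w x + w (piv x)) * Z x * pod g x ∂pm| ≤
      18 * C3 ^ 2 * r ^ 8 * (a / l ^ 7 + e) := by
    have b1 : |∫ x, (w x + w (piv x)) * Z x * pod g x ∂pm| ≤
        ∫ x, 3 * r * (|pod g x| * |w x + w (piv x)|) ∂pm := by
      refine (abs_integral_le_integral_abs).trans (integral_mono ?_ ?_ fun x => ?_)
      · exact (intZ Z _ BG Z_meas mG hZb hBG).abs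
      · exact (intmul _ _ (BL_abs blo) (BL_abs blG)).const_mul _
      · by_cases h0 : pod g x = 0
        · simp [h0]
        · have hz := hZb x (hosupp x h0)
          rw [abs_mul, abs_mul]
          have := mul_le_mul_of_nonneg_left hz
            (mul_nonneg (abs_nonneg (pod g x)) (abs_nonneg (w x + w (piv x))))
          calc |w x + w (piv x)| * |Z x| * |pod g x|
              = |pod g x| * |w x + w (piv x)| * |Z x| := by ring
            _ ≤ |pod g x| * |w x + w (piv x)| * (3 * r) := this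
            _ = 3 * r * (|pod g x| * |w x + w (piv x)|) := by ring
    rw [integral_const_mul] at b1
    have b2 := (hform.2.2.1 _ _ (BL_abs blo) (BL_abs blG))
    have b3 := (le_abs_self _).trans b2
    have e1 : ip (fun x => |pod g x|) (fun x => |pod g x|) = ip (pod g) (pod g) := by
      unfold ip
      simp only [abs_mul_abs_self]
    have e2 : ip (fun x => |w x + w (piv x)|) (fun x => |w x + w (piv x)|) =
        ip (fun x => w x + w (piv x)) (fun x => w x + w (piv x)) := by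
      unfold ip
      simp only [abs_mul_abs_self]
    rw [e1, e2] at b3
    have b4 : √(ip (pod g) (pod g)) ≤ C3 * (r ^ 2 * a / l ^ 4 + e) := by
      rw [Real.sqrt_le_left (by positivity)]
      refine hpod.trans ?_
      have t1 : r ^ 4 * a ^ 2 / l ^ 8 = (r ^ 2 * a / l ^ 4) ^ 2 := by
        field_simp
      rw [t1]
      have p0 : 0 ≤ r ^ 2 * a / l ^ 4 := by positivity
      have t2 : (r ^ 2 * a / l ^ 4) ^ 2 + e ^ 2 ≤ (r ^ 2 * a / l ^ 4 + e) ^ 2 := by
        nlinarith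
      have t3 : C3 ≤ C3 ^ 2 := by nlinarith
      calc C3 * ((r ^ 2 * a / l ^ 4) ^ 2 + e ^ 2)
          ≤ C3 ^ 2 * (r ^ 2 * a / l ^ 4 + e) ^ 2 :=
            mul_le_mul t3 t2 (by positivity) (by positivity)
        _ = (C3 * (r ^ 2 * a / l ^ 4 + e)) ^ 2 := by ring
    have b5 : √(ip (fun x => w x + w (piv x)) (fun x => w x + w (piv x))) ≤
        2 * (C3 * (r ^ 2 / l ^ 3 + e)) := by
      rw [Real.sqrt_le_left (by positivity)]
      refine hGG.trans ?_
      have t1 : r ^ 4 / l ^ 6 = (r ^ 2 / l ^ 3) ^ 2 := by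
        field_simp
      rw [t1] at hc2
      have p0 : 0 ≤ r ^ 2 / l ^ 3 := by positivity
      have t2 : (r ^ 2 / l ^ 3) ^ 2 + e ^ 2 ≤ (r ^ 2 / l ^ 3 + e) ^ 2 := by
        nlinarith
      have t3 : C3 ≤ C3 ^ 2 := by nlinarith
      calc 4 * (1 - c ^ 2) ≤ 4 * (C3 * ((r ^ 2 / l ^ 3) ^ 2 + e ^ 2)) := by linarith
        _ ≤ 4 * (C3 ^ 2 * (r ^ 2 / l ^ 3 + e) ^ 2) := by
            have := mul_le_mul t3 t2 (by positivity) (by positivity)
            linarith
        _ = (2 * (C3 * (r ^ 2 / l ^ 3 + e))) ^ 2 := by ring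
    have b6 : ∫ x, |pod g x| * |w x + w (piv x)| ∂pm ≤
        (C3 * (r ^ 2 * a / l ^ 4 + e)) * (2 * (C3 * (r ^ 2 / l ^ 3 + e))) :=
      b3.trans (mul_le_mul b4 b5 (Real.sqrt_nonneg _) (by positivity))
    refine b1.trans ((mul_le_mul_of_nonneg_left b6 (by positivity)).trans ?_)
    exact num1 hC3 hr1 ha1 hal hral he0 he1
  rw [hsplit] at hid
  have hX := num2 hC3 hCm hr1 ha1 hal hral he0 he1 hc1 hc2 hM2 hM4
  exact num3 hr1 (by positivity) he0 hC3 hC4 hC5 hCm hcabs hid hA hB hrem hX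

end MolDis.H
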