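import Pool.Agent.Lib.MP_59f35a_mp.HStmts

/-!
# MP_59f35a_mp, piece P7: weak solutions in one variable
-/

set_option autoImplicit false

noncomputable section

open MeasureTheory

namespace MolDis.H

namespace Lift

lemma quad {a b c : ℝ} (ha : 0 ≤ a) (h : ∀ t : ℝ, 0 ≤ a + 2 * t * b + t ^ 2 * c) :
    |b| ≤ √a * √c := by
  have h1 : ∀ x : ℝ, 0 ≤ c * (x * x) + (2 * b) * x + a := fun x => by
    have := h x
    calc (0 : ℝ) ≤ a + 2 * x * b + x ^ 2 * c := this
      _ = _ := by ring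
  have h2 := discrim_le_zero h1
  unfold discrim at h2
  rw [← Real.sqrt_mul ha]
  exact Real.abs_le_sqrt (by nlinarith)

/-- Cauchy-Schwarz for integrals. -/
lemma cs {Ω : Type} [MeasurableSpace Ω] {μ : Measure Ω} {a b : Ω → ℝ}
    (ha : Integrable (fun x => a x ^ 2) μ) (hb : Integrable (fun x => b x ^ 2) μ)
    (hab : Integrable (fun x => a x * b x) μ) :
    |∫ x, a x * b x ∂μ| ≤ √(∫ x, a x ^ 2 ∂μ) * √(∫ x, b x ^ 2 ∂μ) := by
  refine quad (integral_nonneg fun x => sq_nonneg _) (fun t => ?_)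
  have h0 : 0 ≤ ∫ x, (a x + t * b x) ^ 2 ∂μ := integral_nonneg fun x => sq_nonneg _
  have h1 : ∫ x, (a x + t * b x) ^ 2 ∂μ =
      ∫ x, a x ^ 2 ∂μ + 2 * t * ∫ x, a x * b x ∂μ + t ^ 2 * ∫ x, b x ^ 2 ∂μ := by
    rw [← integral_const_mul, ← integral_const_mul, ← integral_add ha (hab.const_mul _)]
    have h2 : Integrable (fun x => a x ^ 2 + 2 * t * (a x * b x)) μ := ha.add (hab.const_mul _)
    rw [← integral_add h2 (hb.const_mul _)]
    refine integral_congr_ae (ae_of_all _ fun x => ?_)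
    simp only
    ring
  linarith

lemma zt_abs (r : ℝ) (x : E3) : |zt r x| ≤ 1 := by
  unfold zt
  rw [abs_of_nonneg (le_max_left _ _)]
  exact max_le zero_le_one (min_le_left _ _)

lemma zt_zero {r : ℝ} (hr : 0 < r) {x : E3} (h : r ≤ ‖x‖) : zt r x = 0 := by
  unfold zt
  refine max_eq_left ((min_le_right _ _).trans ?_)
  have : 2 ≤ 2 * ‖x‖ / r := by
    rw [le_div_iff₀ hr]; linarith
  linarith

lemma lc {F κ : E3 → ℝ} {C : ℝ} (h : WSol F κ C) {r : ℝ} (hr : 1 ≤ r) :
    LC1 (fun x => F x * zt r x) := by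
  refine ⟨h.lip r hr, r, fun x hx => ?_⟩
  by_contra hc
  exact hx (by rw [zt_zero (by linarith) (not_le.mp hc).le, mul_zero])

lemma lip_upd (x : X3) (j : Fin 3) : LipschitzWith 1 (fun y : E3 => Function.update x j y) := by
  refine LipschitzWith.of_dist_le_mul fun y z => ?_
  rw [NNReal.coe_one, one_mul, dist_pi_le_iff dist_nonneg]
  intro i
  by_cases hi : i = j
  · subst hi; simp
  · simp [hi]

lemma slc {S : Finset (Fin 3)} {r : ℝ} {v : X3 → ℝ} (hv : Box S r v) {j : Fin 3} (hj : j ∈ S)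
    (x : X3) : LC1 (sl j x v) := by
  obtain ⟨K, hK⟩ := hv.lip
  refine ⟨⟨K * 1, hK.comp (lip_upd x j)⟩, r, fun y hy => ?_⟩
  have := hv.supp _ hy j hj
  simpa using this

lemma slf {φ : X3 → ℝ} {j : Fin 3} (hφ : ∀ x y, φ (Function.update x j y) = φ x) (G : E3 → ℝ)
    (x : X3) : sl j x (fun x => φ x * G (x j)) = fun y => φ x * G y := by
  funext y
  simp [sl, hφ]

lemma D1_cmul (c : ℝ) (f g : E3 → ℝ) : D1 (fun y => c * f y) g = c * D1 f g := by
  unfold D1
  rw [Finset.mul_sum]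
  refine Finset.sum_congr rfl fun d _ => ?_
  rw [← integral_const_mul]
  refine integral_congr_ae (ae_of_all _ fun x => ?_)
  have : pd1 d (fun y => c * f y) x = c * pd1 d f x := by
    unfold pd1 lineDeriv
    exact deriv_const_mul_field c
  simp only [this]
  ring

lemma D1_nonneg (f : E3 → ℝ) : 0 ≤ D1 f f :=
  Finset.sum_nonneg fun _ _ => integral_nonneg fun _ => mul_self_nonneg _

end Lift

open Lift in
theorem p_lift (hhm : S_hm) (hprod : S_prod) (hbl : S_bl) (hform : S_form) : S_lift := by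
  intro F κ C hW r S j φ v hr hφ hφj hv hj
  have hP : IsProbabilityMeasure pm := hprod.1
  have hm1 : IsProbabilityMeasure hm := hhm.1
  have hr0 : 0 < r := by linarith
  set G : E3 → ℝ := fun x => F x * zt r x with hG
  have hGlc : LC1 G := lc hW hr
  have hvBL : BL v := hbl.2.2.2.1 S r v hv hr0 ⟨j, hj⟩
  have hGBL : BL (fun x : X3 => G (x j)) := hbl.2.2.2.2.2 G j hGlc
  have hfBL : BL (fun x : X3 => φ x * G (x j)) := (hbl.1 φ _ hφ hGBL).2.2
  refine ⟨hfBL, ?_⟩
  obtain ⟨hI, hE⟩ := hform.2.2.2.1 j (fun x => φ x * G (x j)) v hfBL hvBL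
  obtain ⟨hIv, hEv⟩ := hform.2.2.2.1 j v v hvBL hvBL
  have hD : ∀ x : X3, D1 (sl j x (fun x => φ x * G (x j))) (sl j x v) =
      φ x * D1 G (sl j x v) := by
    intro x
    rw [slf hφj G x, D1_cmul]
  simp only [hD] at hI hE
  -- the right side
  have hev : MeasurePreserving (fun x : X3 => x j) pm hm :=
    measurePreserving_eval (fun _ : Fin 3 => hm) j
  obtain ⟨hφm, hφi, hφ2, -⟩ := hbl.2.2.1 φ hφ
  obtain ⟨hvm, hvi, hv2, -⟩ := hbl.2.2.1 v hvBL
  have hκ2 : Integrable (fun x : X3 => κ (x j) ^ 2) pm :=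
    hev.integrable_comp_of_integrable hW.intκ
  have hκm : Measurable fun x : X3 => κ (x j) := hW.measκ.comp (measurable_pi_apply j)
  have hκi : Integrable (fun x : X3 => κ (x j)) pm := by
    refine Integrable.mono' (hκ2.add (integrable_const 1)) hκm.aestronglyMeasurable
      (ae_of_all _ fun x => ?_)
    rw [Real.norm_eq_abs]
    simp only [Pi.add_apply]
    nlinarith [sq_abs (κ (x j)), sq_nonneg (|κ (x j)| - 1), abs_nonneg (κ (x j))]
  obtain ⟨Bφ, hBφ⟩ := hφ.bdd
  obtain ⟨Bv, hBv⟩ := hvBL.bdd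
  have hκv : Integrable (fun x : X3 => φ x * κ (x j) * v x) pm := by
    refine (hκi.bdd_mul (f := fun x => φ x * v x) (c := Bφ * Bv)
      (hφm.mul hvm).aestronglyMeasurable (ae_of_all _ fun x => ?_)).congr
      (ae_of_all _ fun x => ?_)
    · rw [norm_mul]
      exact mul_le_mul (hBφ x) (hBv x) (norm_nonneg _) ((abs_nonneg _).trans (hBφ x))
    · simp only
      ring
  obtain ⟨-, hPi, hPe⟩ := hprod.2.2.1 j _ hκv
  have hPj : ∀ x : X3, Pj j (fun x => φ x * κ (x j) * v x) x =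
      φ x * ∫ y, κ y * sl j x v y ∂hm := by
    intro x
    rw [Pj, ← integral_const_mul]
    refine integral_congr_ae (ae_of_all _ fun y => ?_)
    simp only [hφj, sl, Function.update_self]
    ring
  have hPj' : Pj j (fun x => φ x * κ (x j) * v x) =
      fun x => φ x * ∫ y, κ y * sl j x v y ∂hm := funext hPj
  rw [hPj'] at hPi hPe
  rw [hE, ← hPe, ← integral_sub hI hPi]
  -- the bound
  set d : X3 → ℝ := fun x => D1 (sl j x v) (sl j x v) with hd
  have hdn : ∀ x, 0 ≤ d x := fun x => D1_nonneg _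
  have hsq : ∀ x, √(d x) ^ 2 = d x := fun x => Real.sq_sqrt (hdn x)
  have hφa : Integrable (fun x => |φ x| ^ 2) pm := by
    simpa only [sq_abs] using hφ2
  have hdI : Integrable (fun x => √(d x) ^ 2) pm := by
    simpa only [hsq] using hIv
  have hdm : AEStronglyMeasurable (fun x => √(d x)) pm :=
    Real.continuous_sqrt.comp_aestronglyMeasurable hIv.aestronglyMeasurable
  have hdi : Integrable (fun x => √(d x)) pm := by
    refine Integrable.mono' (hIv.add (integrable_const 1)) hdm (ae_of_all _ fun x => ?_)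
    rw [Real.norm_eq_abs, abs_of_nonneg (Real.sqrt_nonneg _)]
    have h1 := hsq x
    simp only [Pi.add_apply]
    nlinarith [sq_nonneg (√(d x) - 1), Real.sqrt_nonneg (d x)]
  have hab : Integrable (fun x => |φ x| * √(d x)) pm := by
    refine hdi.bdd_mul (c := Bφ) (hφm.abs).aestronglyMeasurable (ae_of_all _ fun x => ?_)
    rw [Real.norm_eq_abs, abs_abs]
    exact hBφ x
  have hcs := cs hφa hdI hab
  simp only [sq_abs, hsq] at hcs
  have hip : ∫ x, φ x ^ 2 ∂pm = ip φ φ := by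
    unfold ip
    exact integral_congr_ae (ae_of_all _ fun x => by simp only; ring)
  rw [hip, ← hEv] at hcs
  have hK : ∀ x, |φ x * D1 G (sl j x v) - φ x * ∫ y, κ y * sl j x v y ∂hm| ≤
      C * Real.exp (-r / 8) * (|φ x| * √(d x)) := by
    intro x
    rw [← mul_sub, abs_mul]
    have := hW.weak r hr (sl j x v) (slc hv hj x)
    calc |φ x| * |D1 G (sl j x v) - ∫ y, κ y * sl j x v y ∂hm|
        ≤ |φ x| * (C * Real.exp (-r / 8) * √(d x)) :=
          mul_le_mul_of_nonneg_left this (abs_nonneg _)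
      _ = _ := by ring
  have hCe : 0 ≤ C * Real.exp (-r / 8) := mul_nonneg hW.nonneg (Real.exp_pos _).le
  calc |∫ x, (φ x * D1 G (sl j x v) - φ x * ∫ y, κ y * sl j x v y ∂hm) ∂pm|
      ≤ ∫ x, |φ x * D1 G (sl j x v) - φ x * ∫ y, κ y * sl j x v y ∂hm| ∂pm :=
        abs_integral_le_integral_abs
    _ ≤ ∫ x, C * Real.exp (-r / 8) * (|φ x| * √(d x)) ∂pm :=
        integral_mono (hI.sub hPi).abs (hab.const_mul _) hK
    _ = C * Real.exp (-r / 8) * ∫ x, |φ x| * √(d x) ∂pm := integral_const_mul _ _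
    _ ≤ C * Real.exp (-r / 8) * (√(ip φ φ) * √(Dj j v v)) :=
        mul_le_mul_of_nonneg_left ((le_abs_self _).trans hcs) hCe
    _ = _ := by ring

end MolDis.H
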