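import Pool.Agent.Lib.MP_59f35a_mp.HStmts

/-!
# MP_59f35a_mp, Theorem D, piece P1: product measure, slices, averages
-/

set_option autoImplicit false

noncomputable section

open MeasureTheory

namespace MolDis.H
namespace Prod

private lemma meas_upd (j : Fin 3) :
    Measurable (fun p : X3 × E3 => Function.update p.1 j p.2) := by
  refine measurable_pi_lambda _ (fun i => ?_)
  by_cases h : i = j
  · subst h
    simp only [Function.update_self]
    exact measurable_snd
  · simp only [Function.update_of_ne h]
    exact (measurable_pi_apply i).comp measurable_fst

private lemma mp_upd [IsProbabilityMeasure hm] (j : Fin 3) :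
    MeasurePreserving (fun p : X3 × E3 => Function.update p.1 j p.2) (pm.prod hm) pm := by
  refine ⟨meas_upd j, ?_⟩
  symm
  unfold pm
  refine Measure.pi_eq (fun s hs => ?_)
  rw [Measure.map_apply (meas_upd j) (MeasurableSet.univ_pi hs)]
  have hpre : (fun p : X3 × E3 => Function.update p.1 j p.2) ⁻¹' Set.univ.pi s
      = (Set.univ.pi (Function.update s j Set.univ)) ×ˢ (s j) := by
    ext ⟨x, y⟩
    simp only [Set.mem_preimage, Set.mem_pi, Set.mem_univ, forall_true_left, Set.mem_prod]
    constructor
    · intro h
      refine ⟨fun i => ?_, ?_⟩
      · by_cases hi : i = j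
        · subst hi; simp
        · have := h i
          rw [Function.update_of_ne hi] at this
          rw [Function.update_of_ne hi]
          exact this
      · have := h j
        rwa [Function.update_self] at this
    · rintro ⟨h1, h2⟩ i
      by_cases hi : i = j
      · subst hi; rw [Function.update_self]; exact h2
      · have := h1 i
        rw [Function.update_of_ne hi] at this
        rw [Function.update_of_ne hi]
        exact this
  rw [hpre, Measure.prod_prod, Measure.pi_pi]
  rw [← Finset.mul_prod_erase Finset.univ (fun i => hm (s i)) (Finset.mem_univ j),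
    ← Finset.mul_prod_erase Finset.univ (fun i => hm (Function.update s j Set.univ i))
      (Finset.mem_univ j)]
  rw [Function.update_self, measure_univ, one_mul, mul_comm]
  congr 1
  refine Finset.prod_congr rfl (fun i hi => ?_)
  rw [Function.update_of_ne (Finset.ne_of_mem_erase hi)]

private lemma upd_add (j : Fin 3) (x : X3) (y v : E3) (t : ℝ) :
    (Function.update x j y + t • (Pi.single j v : X3) : X3) = Function.update x j (y + t • v) := by
  ext i : 1
  by_cases h : i = j
  · subst h; simp
  · simp [Function.update_of_ne h, Pi.single_eq_of_ne h]

end Prod

open Prod in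
theorem p_prod (h_hm : S_hm) : S_prod := by
  haveI : IsProbabilityMeasure hm := h_hm.1
  haveI hp : IsProbabilityMeasure pm := by unfold pm; infer_instance
  have key : ∀ j (f : X3 → ℝ), Integrable f pm →
      Integrable (fun p : X3 × E3 => f (Function.update p.1 j p.2)) (pm.prod hm) := by
    intro j f hf
    exact (mp_upd j).integrable_comp_of_integrable hf
  refine ⟨hp, mp_upd, ?_, ?_, ?_, ?_⟩
  · intro j f hf
    have h1 := key j f hf
    refine ⟨h1.prod_right_ae, h1.integral_prod_left, ?_⟩
    have h2 := integral_prod _ h1
    have h3 : ∫ p : X3 × E3, f (Function.update p.1 j p.2) ∂(pm.prod hm) = ∫ x, f x ∂pm := by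
      have h4 := (mp_upd j).map_eq
      conv_rhs => rw [← h4]
      rw [integral_map (meas_upd j).aemeasurable]
      rw [h4]; exact hf.aestronglyMeasurable
    rw [← h3, h2]
    rfl
  · intro f
    unfold pm
    exact integral_fintype_prod_eq_prod (μ := fun _ : Fin 3 => hm) f
  · intro j c f x y
    unfold pd pd1 lineDeriv sl
    simp only [upd_add]
  · intro j k f hf hjk
    have h1 := key k f hf
    have hm1 : MeasurePreserving (fun q : (X3 × E3) × E3 => (Function.update q.1.1 j q.1.2, q.2))
        ((pm.prod hm).prod hm) (pm.prod hm) := (mp_upd j).prod (MeasurePreserving.id hm)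
    have h2 := hm1.integrable_comp_of_integrable h1
    have hm2 := (measurePreserving_prodAssoc pm hm hm).symm
    have h3 := hm2.integrable_comp_of_integrable h2
    filter_upwards [h3.prod_right_ae] with x hx
    have h4 : Integrable (Function.uncurry (fun y z =>
        f (Function.update (Function.update x j y) k z))) (hm.prod hm) := hx
    have h5 := integral_integral_swap h4
    unfold Pj
    rw [h5]
    refine integral_congr_ae (Filter.Eventually.of_forall (fun z => ?_))
    refine integral_congr_ae (Filter.Eventually.of_forall (fun y => ?_))
    simp only
    rw [Function.update_comm hjk]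

end MolDis.H
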