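import Pool.Agent.Lib.MP_59f35a_mp.HStmts

/-!
# MP_59f35a_mp : the dipole moment of the near minimisers is at most one
-/

set_option autoImplicit false

noncomputable section

open MeasureTheory

namespace MolDis.H

/-- the axial dipole moment of near minimisers is small -/
def S_small : Prop :=
  ∀ g0 : ℝ, HGap g0 → ∃ r0 : ℝ, 1 ≤ r0 ∧ ∀ r l : ℝ, r0 ≤ r → r ^ 300 ≤ l →
    ∀ g, NM S3 r (U3 r (r ^ 30) l) g → |∫ x, (x 0 0 + x 1 0 + x 2 0) * g x ^ 2 ∂pm| ≤ 1

namespace SmallDip

lemma ev_exp (N : ℕ) (κ : ℝ) (hκ : 0 < κ) : ∃ r0 : ℝ, ∀ r, r0 ≤ r →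
    r ^ N * Real.exp (-r / 4) ≤ κ := by
  have h := Real.tendsto_pow_mul_exp_neg_atTop_nhds_zero N
  have h1 : Filter.Tendsto (fun r : ℝ => r / 4) Filter.atTop Filter.atTop :=
    Filter.tendsto_id.atTop_div_const (by norm_num)
  have h2 := h.comp h1
  have h3 : ∀ᶠ r : ℝ in Filter.atTop, (r / 4) ^ N * Real.exp (-(r / 4)) < κ / 4 ^ N := by
    have := h2.eventually_lt_const (u := κ / 4 ^ N) (by positivity)
    simpa using this
  obtain ⟨r0, hr0⟩ := Filter.eventually_atTop.1 h3
  refine ⟨r0, fun r hr => ?_⟩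
  have h4 := hr0 r hr
  have h7 : (0 : ℝ) < 4 ^ N := by positivity
  have h6 : -r / 4 = -(r / 4) := by ring
  have h8 : (r / 4) ^ N * Real.exp (-(r / 4)) = (r ^ N * Real.exp (-(r / 4))) / 4 ^ N := by
    rw [div_pow]; ring
  rw [h8, div_lt_div_iff_of_pos_right h7] at h4
  rw [h6]
  exact h4.le

/-- cut off sum of the coordinates -/
def Zr (r : ℝ) (x : X3) : ℝ := if ∀ j, ‖x j‖ ≤ r then x 0 0 + x 1 0 + x 2 0 else 0

lemma coord_le (y : E3) : |y 0| ≤ ‖y‖ := by
  have := PiLp.norm_apply_le y 0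
  rwa [Real.norm_eq_abs] at this

lemma Zr_le (r : ℝ) (hr : 0 ≤ r) (x : X3) : |Zr r x| ≤ 3 * r := by
  unfold Zr
  split_ifs with h
  · have h0 := (coord_le (x 0)).trans (h 0)
    have h1 := (coord_le (x 1)).trans (h 1)
    have h2 := (coord_le (x 2)).trans (h 2)
    rw [abs_le] at *
    constructor <;> linarith [h0.1, h0.2, h1.1, h1.2, h2.1, h2.2]
  · rw [abs_zero]; positivity

lemma meas_coord (j : Fin 3) : Measurable (fun x : X3 => x j 0) := by
  have hc : Continuous fun v : E3 => v 0 := by fun_prop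
  exact hc.measurable.comp (measurable_pi_apply j)

lemma Zr_meas (r : ℝ) : Measurable (Zr r) := by
  unfold Zr
  refine Measurable.ite ?_ ?_ measurable_const
  · have : {x : X3 | ∀ j, ‖x j‖ ≤ r} = ⋂ j, {x : X3 | ‖x j‖ ≤ r} := by ext x; simp
    rw [this]
    exact MeasurableSet.iInter fun j => measurableSet_le (measurable_pi_apply j).norm measurable_const
  · exact ((meas_coord 0).add (meas_coord 1)).add (meas_coord 2)

lemma Zr_int (hsym : S_sym) (r : ℝ) : ∫ x, Zr r x ∂pm = 0 := by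
  obtain ⟨hmp, -⟩ := hsym (Equiv.refl _) (fun _ _ => -1) (fun _ _ => Or.inr rfl)
  have hT : ∀ x : X3, sgT (Equiv.refl _) (fun _ _ => -1) x = fun j => - x j := by
    intro x
    funext j
    ext c
    simp [sgT]
  have h1 : ∫ x, Zr r (sgT (Equiv.refl _) (fun _ _ => -1) x) ∂pm = ∫ x, Zr r x ∂pm := by
    have h := integral_map (μ := pm) (φ := sgT (Equiv.refl _) (fun _ _ => -1)) (f := Zr r)
      hmp.measurable.aemeasurable (Zr_meas r).aestronglyMeasurable
    rw [hmp.map_eq] at h
    exact h.symm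
  have h2 : ∀ x : X3, Zr r (sgT (Equiv.refl _) (fun _ _ => -1) x) = - Zr r x := by
    intro x
    rw [hT]
    unfold Zr
    simp only [norm_neg]
    split_ifs
    · simp; ring
    · simp
  simp_rw [h2, integral_neg] at h1
  linarith

end SmallDip

open SmallDip

set_option maxHeartbeats 4000000 in
theorem p_small (happ : S_apri) (hbd : S_bounds) (havg : S_avg) (hsym : S_sym) (hbl : S_bl)
    (hform : S_form) (hprod : S_prod) : S_small := by
  intro g0 hg0
  obtain ⟨C1, M0, r1, hC1, hM0, hr1, happ⟩ := happ g0 hg0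
  obtain ⟨C5, hC5, hbd⟩ := hbd
  obtain ⟨r2, hr2⟩ := ev_exp 2 (1 / (72 * C1)) (by positivity)
  set B : ℝ := max (max r1 r2) (max (max 8 (2 * C5 / M0)) (max (288 * C1 * C5 ^ 2) 1)) with hB
  refine ⟨B, ?_, fun r l hr hl g hg => ?_⟩
  · exact (le_max_right _ _).trans ((le_max_right _ _).trans (le_max_right _ _))
  rw [hB] at hr
  simp only [max_le_iff] at hr
  obtain ⟨⟨hR1, hR2⟩, ⟨hR8, hRM⟩, hRC, hR⟩ := hr
  have hr0 : (0 : ℝ) < r := by linarith
  set a : ℝ := r ^ 30 with ha
  have hpow : ∀ m n : ℕ, m ≤ n → r ^ m ≤ r ^ n := fun m n h => pow_le_pow_right₀ hR h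
  have h8r : 8 * r ≤ a := by
    have h1 : r * r ≤ r ^ 30 := by
      have := hpow 2 30 (by norm_num)
      nlinarith
    nlinarith
  have h2a : 2 * a ≤ l := by
    have h1 : r * r ^ 30 ≤ r ^ 300 := by
      have := hpow 31 300 (by norm_num)
      have e : r * r ^ 30 = r ^ 31 := by ring
      rw [e]; exact this
    have h2 : 2 * a ≤ r * r ^ 30 := by
      rw [ha]
      exact mul_le_mul_of_nonneg_right (by linarith) (by positivity)
    linarith
  have ha0 : 0 < a := by positivity
  obtain ⟨hmV, hmW, hV, -, hW, -⟩ := hbd r a l hR h8r h2a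
  obtain ⟨-, -, -, -, hU0, -, hUZ⟩ := havg r a l hR h8r h2a
  set M : ℝ := 2 * (C5 * r ^ 2 / a ^ 3) with hM
  have hMnn : 0 ≤ M := by positivity
  have hU : ∀ x, |U3 r a l x| ≤ M := by
    intro x
    have h4 : C5 * r ^ 2 / l ^ 3 ≤ C5 * r ^ 2 / a ^ 3 := by
      refine div_le_div_of_nonneg_left (by positivity) (by positivity) ?_
      exact pow_le_pow_left₀ ha0.le (by linarith) 3
    calc |U3 r a l x| ≤ |V12 r a x| + |W3 r a l x| := abs_add_le _ _
      _ ≤ C5 * r ^ 2 / a ^ 3 + C5 * r ^ 2 / a ^ 3 := add_le_add (hV x) ((hW x).trans h4)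
      _ = M := by rw [hM]; ring
  have ha3 : a ^ 3 = r ^ 90 := by rw [ha, ← pow_mul]
  have hMr : M ≤ 2 * C5 / r ^ 3 := by
    rw [hM, ha3, ← mul_div_assoc, div_le_div_iff₀ (by positivity) (by positivity)]
    have h1 : r ^ 2 * r ^ 3 ≤ r ^ 90 := by
      rw [← pow_add]; exact hpow _ _ (by norm_num)
    nlinarith
  have hM0' : M ≤ M0 := by
    refine hMr.trans ?_
    rw [div_le_iff₀ (by positivity)]
    rw [div_le_iff₀ hM0] at hRM
    have h1 : r ≤ r ^ 3 := by
      have := hpow 1 3 (by norm_num)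
      simpa using this
    nlinarith
  obtain ⟨-, hnm⟩ := happ S3 r M (U3 r a l) ⟨0, Finset.mem_univ _⟩ hR1 hMnn hM0' (hmV.add hmW) hU
    hU0 hUZ
  obtain ⟨h1c, -⟩ := hnm g hg
  set c : ℝ := ∫ x, g x ∂pm with hc
  have hgBL : BL g := hbl.2.2.2.1 S3 r g hg.box hr0 ⟨0, Finset.mem_univ _⟩
  have hcBL : BL (fun _ : X3 => c) := hbl.2.1 c
  have hwBL : BL (fun x => g x - c) := (hbl.1 g _ hgBL hcBL).2.1
  have hprob : IsProbabilityMeasure pm := hprod.1
  -- norm of `g - c`
  have hgint := hbl.2.2.1 g hgBL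
  have hww : ip (fun x => g x - c) (fun x => g x - c) = 1 - c ^ 2 := by
    have hn : ∫ x, g x ^ 2 ∂pm = 1 := by
      have := hg.norm
      unfold ip at this
      rw [← this]
      exact integral_congr_ae (Filter.Eventually.of_forall fun x => by simp [sq])
    unfold ip
    have e : ∀ x, (g x - c) * (g x - c) = g x ^ 2 - 2 * c * g x + c ^ 2 := fun x => by ring
    simp_rw [e]
    have ia : Integrable (fun x => 2 * c * g x) pm := hgint.2.1.const_mul _
    have ib : Integrable (fun x => g x ^ 2 - 2 * c * g x) pm := hgint.2.2.1.sub ia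
    rw [integral_add ib (integrable_const _), integral_sub hgint.2.2.1 ia, integral_const_mul, hn,
      ← hc]
    simp
    ring
  set w : ℝ := √(ip (fun x => g x - c) (fun x => g x - c)) with hw
  have hw0 : 0 ≤ w := Real.sqrt_nonneg _
  have hwwnn : 0 ≤ ip (fun x => g x - c) (fun x => g x - c) := by
    unfold ip
    exact integral_nonneg fun x => mul_self_nonneg _
  have hwsmall : w ^ 2 ≤ C1 * (M ^ 2 + Real.exp (-r / 4)) := by
    rw [hw, Real.sq_sqrt hwwnn, hww]
    exact h1c
  have hc1 : |c| ≤ 1 := by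
    have h := hwwnn
    rw [hww] at h
    rw [abs_le]
    constructor <;> nlinarith
  -- the dipole moment
  have hZ : ∫ x, (x 0 0 + x 1 0 + x 2 0) * g x ^ 2 ∂pm
      = (∫ x, Zr r x * g x * (g x - c) ∂pm) + c * ∫ x, Zr r x * (g x - c) ∂pm := by
    have hmZ := Zr_meas r
    have hZb := Zr_le r hr0.le
    have hint : ∀ F : X3 → ℝ, BL F → Integrable (fun x => Zr r x * F x) pm := by
      intro F hF
      exact (hbl.2.2.1 F hF).2.1.bdd_mul hmZ.aestronglyMeasurable
        (Filter.Eventually.of_forall fun x => by rw [Real.norm_eq_abs]; exact hZb x)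
    have i1 := hint _ ((hbl.1 g _ hgBL hwBL).2.2)
    have i2 := hint _ hwBL
    have i3 : Integrable (fun x => Zr r x * c) pm := hint _ hcBL
    have e1 : ∫ x, (x 0 0 + x 1 0 + x 2 0) * g x ^ 2 ∂pm = ∫ x, Zr r x * g x ^ 2 ∂pm := by
      refine integral_congr_ae (Filter.Eventually.of_forall fun x => ?_)
      by_cases hx : g x = 0
      · simp [hx]
      · have := hg.box.supp x hx
        have h' : ∀ j, ‖x j‖ ≤ r := fun j => this j (Finset.mem_univ _)
        simp only [Zr, if_pos h']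
    have e2 : ∀ x, Zr r x * g x ^ 2 = Zr r x * (g x * (g x - c)) + (c * (Zr r x * (g x - c))
        + c * (Zr r x * c)) := fun x => by ring
    rw [e1]
    simp_rw [e2]
    have i2' : Integrable (fun x => c * (Zr r x * (g x - c))) pm := i2.const_mul c
    have i3' : Integrable (fun x => c * (Zr r x * c)) pm := i3.const_mul c
    have i4 : Integrable (fun x => c * (Zr r x * (g x - c)) + c * (Zr r x * c)) pm := i2'.add i3'
    rw [integral_add i1 i4, integral_add i2' i3', integral_const_mul, integral_const_mul,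
      integral_mul_const, Zr_int hsym]
    simp only [zero_mul, mul_zero, add_zero]
    congr 1
    exact integral_congr_ae (Filter.Eventually.of_forall fun x => by ring)
  -- Cauchy-Schwarz with a bounded weight
  have hCS : ∀ F : X3 → ℝ, BL F → ip F F ≤ 1 →
      |∫ x, Zr r x * F x * (g x - c) ∂pm| ≤ 3 * r * w := by
    intro F hF hFn
    have hFi := hbl.2.2.1 F hF
    have hwi := hbl.2.2.1 _ hwBL
    have habs : |∫ x, Zr r x * F x * (g x - c) ∂pm| ≤ 3 * r * ∫ x, |F x| * |g x - c| ∂pm := by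
      rw [← Real.norm_eq_abs, ← integral_const_mul]
      refine (norm_integral_le_integral_norm _).trans ?_
      have hi : Integrable (fun x => |F x| * |g x - c|) pm := by
        have := (hbl.2.2.1 _ (hbl.1 F _ hF hwBL).2.2).2.1.abs
        refine this.congr (Filter.Eventually.of_forall fun x => ?_)
        simp [abs_mul]
      refine integral_mono_of_nonneg (Filter.Eventually.of_forall fun x => norm_nonneg _)
        (hi.const_mul _) (Filter.Eventually.of_forall fun x => ?_)
      simp only [Real.norm_eq_abs, abs_mul]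
      rw [mul_assoc]
      exact mul_le_mul_of_nonneg_right (Zr_le r hr0.le x) (by positivity)
    refine habs.trans (mul_le_mul_of_nonneg_left ?_ (by positivity))
    have hL2F : MemLp (fun x => |F x|) (ENNReal.ofReal 2) pm := by
      rw [show ENNReal.ofReal 2 = 2 by simp]
      refine (memLp_two_iff_integrable_sq hFi.1.aestronglyMeasurable).2 hFi.2.2.1 |>.abs
    have hL2w : MemLp (fun x => |g x - c|) (ENNReal.ofReal 2) pm := by
      rw [show ENNReal.ofReal 2 = 2 by simp]
      refine (memLp_two_iff_integrable_sq hwi.1.aestronglyMeasurable).2 hwi.2.2.1 |>.abs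
    have h := integral_mul_le_Lp_mul_Lq_of_nonneg (μ := pm) Real.HolderConjugate.two_two
      (Filter.Eventually.of_forall fun x => abs_nonneg (F x))
      (Filter.Eventually.of_forall fun x => abs_nonneg (g x - c)) hL2F hL2w
    refine h.trans ?_
    have eF : ∫ x, |F x| ^ (2 : ℝ) ∂pm = ip F F := by
      unfold ip
      refine integral_congr_ae (Filter.Eventually.of_forall fun x => ?_)
      simp [sq]
    have ew : ∫ x, |g x - c| ^ (2 : ℝ) ∂pm = ip (fun x => g x - c) (fun x => g x - c) := by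
      unfold ip
      refine integral_congr_ae (Filter.Eventually.of_forall fun x => ?_)
      simp [sq]
    rw [eF, ew, ← Real.sqrt_eq_rpow, ← Real.sqrt_eq_rpow, ← hw]
    have : √(ip F F) ≤ 1 := by rw [Real.sqrt_le_one]; exact hFn
    nlinarith
  have hb1 := hCS g hgBL hg.norm.le
  have hb2 := hCS (fun _ => 1) (hbl.2.1 1) (by unfold ip; simp)
  have hb2' : |∫ x, Zr r x * (g x - c) ∂pm| ≤ 3 * r * w := by simpa using hb2
  rw [hZ]
  have h6 : |(∫ x, Zr r x * g x * (g x - c) ∂pm) + c * ∫ x, Zr r x * (g x - c) ∂pm|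
      ≤ 6 * r * w := by
    refine (abs_add_le _ _).trans ?_
    rw [abs_mul]
    have : |c| * |∫ x, Zr r x * (g x - c) ∂pm| ≤ 1 * (3 * r * w) :=
      mul_le_mul hc1 hb2' (abs_nonneg _) (by norm_num)
    linarith
  refine h6.trans ?_
  -- `(6 r w)² ≤ 1`
  have hfin : (6 * r * w) ^ 2 ≤ 1 := by
    have e : (6 * r * w) ^ 2 = 36 * r ^ 2 * w ^ 2 := by ring
    rw [e]
    have h7 : 36 * r ^ 2 * w ^ 2 ≤ 36 * r ^ 2 * (C1 * (M ^ 2 + Real.exp (-r / 4))) :=
      mul_le_mul_of_nonneg_left hwsmall (by positivity)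
    refine h7.trans ?_
    have h8 : r ^ 2 * Real.exp (-r / 4) ≤ 1 / (72 * C1) := hr2 r hR2
    have h9 : r ^ 2 * M ^ 2 ≤ 1 / (72 * C1) := by
      have h91 : M ^ 2 ≤ (2 * C5 / r ^ 3) ^ 2 := pow_le_pow_left₀ hMnn hMr 2
      have h92 : r ^ 2 * (2 * C5 / r ^ 3) ^ 2 = 4 * C5 ^ 2 / r ^ 4 := by
        field_simp
        ring
      have h93 : r ^ 2 * M ^ 2 ≤ 4 * C5 ^ 2 / r ^ 4 := by
        rw [← h92]
        exact mul_le_mul_of_nonneg_left h91 (by positivity)
      refine h93.trans ?_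
      rw [div_le_div_iff₀ (by positivity) (by positivity)]
      have h94 : r ≤ r ^ 4 := by
        have := hpow 1 4 (by norm_num)
        simpa using this
      nlinarith
    have h10 : 36 * C1 * (r ^ 2 * M ^ 2) ≤ 36 * C1 * (1 / (72 * C1)) :=
      mul_le_mul_of_nonneg_left h9 (by positivity)
    have h11 : 36 * C1 * (r ^ 2 * Real.exp (-r / 4)) ≤ 36 * C1 * (1 / (72 * C1)) :=
      mul_le_mul_of_nonneg_left h8 (by positivity)
    have h12 : 36 * C1 * (1 / (72 * C1)) = 1 / 2 := by field_simp; norm_num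
    have e2 : 36 * r ^ 2 * (C1 * (M ^ 2 + Real.exp (-r / 4))) =
      36 * C1 * (r ^ 2 * M ^ 2) + 36 * C1 * (r ^ 2 * Real.exp (-r / 4)) := by ring
    rw [e2]
    linarith
  have h13 : 0 ≤ 6 * r * w := by positivity
  nlinarith

end MolDis.H
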