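import Pool.Agent.Lib.MP_59f35a_mp.HStmts

/-!
# MP_59f35a_mp : weak solutions, general lemma (H7)
-/

noncomputable section

open MeasureTheory

namespace MolDis.H

namespace Wgen

/-- locally Lipschitz functions -/
def LL (G : E3 → ℝ) : Prop :=
  ∀ R : ℝ, ∃ K : ℝ, ∀ x y, ‖x‖ ≤ R → ‖y‖ ≤ R → |G x - G y| ≤ K * ‖x - y‖

theorem LL.lipOn {G : E3 → ℝ} (h : LL G) (R : ℝ) :
    ∃ K : NNReal, LipschitzOnWith K G (Metric.closedBall 0 R) := by
  obtain ⟨K, hK⟩ := h R
  refine ⟨K.toNNReal, LipschitzOnWith.of_dist_le_mul fun x hx y hy => ?_⟩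
  rw [Real.dist_eq, dist_eq_norm]
  refine (hK x y (by simpa using hx) (by simpa using hy)).trans ?_
  exact mul_le_mul_of_nonneg_right (Real.le_coe_toNNReal K) (norm_nonneg _)

theorem LL.cont {G : E3 → ℝ} (h : LL G) : Continuous G := by
  rw [continuous_iff_continuousAt]
  intro x
  obtain ⟨K, hK⟩ := h.lipOn (‖x‖ + 1)
  refine hK.continuousOn.continuousAt ?_
  refine Metric.closedBall_mem_nhds_of_mem ?_
  simp

theorem LL.bound {G : E3 → ℝ} (h : LL G) (R : ℝ) : ∃ B : ℝ, 0 ≤ B ∧ ∀ x, ‖x‖ ≤ R → |G x| ≤ B := by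
  obtain ⟨K, hK⟩ := h |R|
  refine ⟨|G 0| + |K| * |R|, by positivity, fun x hx => ?_⟩
  have hxR : ‖x‖ ≤ |R| := hx.trans (le_abs_self R)
  have h1 := hK x 0 hxR (by simp)
  rw [sub_zero] at h1
  have h2 : |G x| ≤ |G x - G 0| + |G 0| := by
    have := abs_add_le (G x - G 0) (G 0)
    simpa using this
  have h3 : K * ‖x‖ ≤ |K| * |R| :=
    mul_le_mul (le_abs_self K) hxR (norm_nonneg _) (abs_nonneg _)
  linarith

theorem LL.ae_diff {G : E3 → ℝ} (h : LL G) : ∀ᵐ x, DifferentiableAt ℝ G x := by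
  have h1 : ∀ n : ℕ, ∀ᵐ x : E3, x ∈ Metric.closedBall (0 : E3) n →
      DifferentiableWithinAt ℝ G (Metric.closedBall 0 n) x := by
    intro n
    obtain ⟨K, hK⟩ := h.lipOn n
    exact hK.ae_differentiableWithinAt_of_mem
  rw [← ae_all_iff] at h1
  filter_upwards [h1] with x hx
  obtain ⟨n, hn⟩ := exists_nat_gt ‖x‖
  have h2 : x ∈ Metric.closedBall (0 : E3) n := by simpa using hn.le
  refine (hx n h2).differentiableAt ?_
  refine Metric.closedBall_mem_nhds_of_mem ?_
  simpa using hn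

theorem LL.mul {G H : E3 → ℝ} (hG : LL G) (hH : LL H) : LL (fun x => G x * H x) := by
  intro R
  obtain ⟨K, hK⟩ := hG R
  obtain ⟨L, hL⟩ := hH R
  obtain ⟨B, hB0, hB⟩ := hG.bound R
  obtain ⟨D, hD0, hD⟩ := hH.bound R
  refine ⟨B * L + K * D, fun x y hx hy => ?_⟩
  have e : G x * H x - G y * H y = G x * (H x - H y) + (G x - G y) * H y := by ring
  rw [e]
  have h1 := hK x y hx hy
  have h2 := hL x y hx hy
  calc |G x * (H x - H y) + (G x - G y) * H y|
      ≤ |G x| * |H x - H y| + |G x - G y| * |H y| := by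
        rw [← abs_mul, ← abs_mul]
        exact abs_add_le _ _
    _ ≤ B * (L * ‖x - y‖) + (K * ‖x - y‖) * D :=
        add_le_add (mul_le_mul (hB x hx) h2 (abs_nonneg _) hB0)
          (mul_le_mul h1 (hD y hy) (abs_nonneg _) ((abs_nonneg _).trans h1))
    _ = _ := by ring

/-- the density -/
def w (x : E3) : ℝ := Real.exp (-‖x‖) / (8 * Real.pi)

theorem w_pos (x : E3) : 0 < w x := by
  unfold w
  positivity

theorem exp_lip (a b : ℝ) (ha : 0 ≤ a) (hb : 0 ≤ b) :
    |Real.exp (-a) - Real.exp (-b)| ≤ |a - b| := by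
  wlog h : a ≤ b generalizing a b with H
  · have := H b a hb ha (le_of_not_ge h)
    rw [abs_sub_comm, abs_sub_comm a b]
    exact this
  have h1 : Real.exp (-b) ≤ Real.exp (-a) := Real.exp_le_exp.2 (by linarith)
  rw [abs_of_nonneg (by linarith), abs_sub_comm, abs_of_nonneg (by linarith)]
  have h2 : Real.exp (-b) = Real.exp (-a) * Real.exp (-(b - a)) := by
    rw [← Real.exp_add]
    congr 1
    ring
  have h3 : 1 - (b - a) ≤ Real.exp (-(b - a)) := by
    have := Real.add_one_le_exp (-(b - a))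
    linarith
  have h4 : Real.exp (-a) ≤ 1 := by
    rw [Real.exp_le_one_iff]
    linarith
  rw [h2]
  have h5 : 0 < Real.exp (-a) := Real.exp_pos _
  nlinarith [mul_nonneg h5.le (sub_nonneg.2 h3), mul_nonneg (sub_nonneg.2 h) (sub_nonneg.2 h4)]

theorem w_LL : LL w := by
  intro R
  refine ⟨1 / (8 * Real.pi), fun x y _ _ => ?_⟩
  unfold w
  rw [← sub_div, abs_div, abs_of_pos (show (0 : ℝ) < 8 * Real.pi by positivity)]
  have h1 := exp_lip ‖x‖ ‖y‖ (norm_nonneg _) (norm_nonneg _)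
  have h2 := abs_norm_sub_norm_le x y
  rw [div_mul_eq_mul_div, one_mul]
  exact div_le_div_of_nonneg_right (h1.trans h2) (by positivity)

theorem inner_ec (x : E3) (c : Fin 3) : inner ℝ x (ec c) = x c := by
  unfold ec
  rw [EuclideanSpace.inner_single_right]
  simp

theorem norm_ec (c : Fin 3) : ‖ec c‖ = 1 := by
  unfold ec
  simp

theorem norm_hld (x : E3) (hx : x ≠ 0) (c : Fin 3) :
    HasLineDerivAt ℝ (fun x : E3 => ‖x‖) (x c / ‖x‖) x (ec c) := by
  unfold HasLineDerivAt
  have h1 : HasDerivAt (fun t : ℝ => x + t • ec c) (ec c) 0 := by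
    have := ((hasDerivAt_id (0 : ℝ)).smul_const (ec c)).const_add x
    simpa using this
  have h2 := h1.norm_sq
  have h3 : ‖x + (0 : ℝ) • ec c‖ ^ 2 ≠ 0 := by
    simp [hx]
  have h4 := h2.sqrt h3
  have e : (fun t : ℝ => √(‖x + t • ec c‖ ^ 2)) = fun t : ℝ => ‖x + t • ec c‖ := by
    funext t
    exact Real.sqrt_sq (norm_nonneg _)
  rw [e] at h4
  have h5 : 2 * inner ℝ (x + (0 : ℝ) • ec c) (ec c) / (2 * √(‖x + (0 : ℝ) • ec c‖ ^ 2)) =
      x c / ‖x‖ := by
    rw [zero_smul, add_zero, Real.sqrt_sq (norm_nonneg _), inner_ec]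
    have : ‖x‖ ≠ 0 := norm_ne_zero_iff.2 hx
    field_simp
  rw [h5] at h4
  exact h4

theorem w_hld (x : E3) (hx : x ≠ 0) (c : Fin 3) :
    HasLineDerivAt ℝ w (-(x c / ‖x‖) * w x) x (ec c) := by
  have h1 := norm_hld x hx c
  unfold HasLineDerivAt at h1 ⊢
  have h2 := (h1.neg.exp).div_const (8 * Real.pi)
  have h5 : Real.exp (-‖x + (0 : ℝ) • ec c‖) * -(x c / ‖x‖) / (8 * Real.pi) =
      -(x c / ‖x‖) * w x := by
    rw [zero_smul, add_zero]
    unfold w
    ring
  rw [← h5]
  exact h2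

theorem hld_mul {f g : E3 → ℝ} {a b : ℝ} {x v : E3} (h1 : HasLineDerivAt ℝ f a x v)
    (h2 : HasLineDerivAt ℝ g b x v) :
    HasLineDerivAt ℝ (fun y => f y * g y) (a * g x + f x * b) x v := by
  unfold HasLineDerivAt at *
  have h3 := h1.mul h2
  simp only [zero_smul, add_zero] at h3
  exact h3

/-! ### the cut-off -/

theorem zt_nonneg (r : ℝ) (x : E3) : 0 ≤ zt r x := le_max_left _ _

theorem zt_le_one (r : ℝ) (x : E3) : zt r x ≤ 1 :=
  max_le zero_le_one (min_le_left _ _)

theorem zt_one {r : ℝ} (hr : 0 < r) {x : E3} (h : ‖x‖ ≤ r / 2) : zt r x = 1 := by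
  unfold zt
  have h1 : 1 ≤ 2 - 2 * ‖x‖ / r := by
    have : 2 * ‖x‖ / r ≤ 1 := by
      rw [div_le_one hr]
      linarith
    linarith
  rw [min_eq_left h1]
  simp

theorem zt_zero {r : ℝ} (hr : 0 < r) {x : E3} (h : r ≤ ‖x‖) : zt r x = 0 := by
  unfold zt
  have h1 : 2 - 2 * ‖x‖ / r ≤ 0 := by
    have : 2 ≤ 2 * ‖x‖ / r := by
      rw [le_div_iff₀ hr]
      linarith
    linarith
  exact max_eq_left ((min_le_right _ _).trans h1)

theorem zt_lip {r : ℝ} (hr : 1 ≤ r) : LipschitzWith 2 (zt r) := by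
  have h1 : LipschitzWith 2 (fun x : E3 => 2 - 2 * ‖x‖ / r) := by
    refine LipschitzWith.of_dist_le_mul fun x y => ?_
    rw [Real.dist_eq, dist_eq_norm]
    have e : (2 - 2 * ‖x‖ / r) - (2 - 2 * ‖y‖ / r) = (‖y‖ - ‖x‖) * (2 / r) := by ring
    have h0 : (0 : ℝ) < r := by linarith
    rw [e, abs_mul, abs_of_pos (show (0 : ℝ) < 2 / r by positivity)]
    have h2 := abs_norm_sub_norm_le y x
    rw [norm_sub_rev] at h2
    have h3 : 2 / r ≤ 2 := by
      rw [div_le_iff₀ h0]
      linarith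
    calc |‖y‖ - ‖x‖| * (2 / r) ≤ ‖x - y‖ * 2 :=
          mul_le_mul h2 h3 (by positivity) (norm_nonneg _)
      _ = ((2 : NNReal) : ℝ) * ‖x - y‖ := by
          rw [mul_comm]
          rfl
  exact (h1.const_min 1).const_max 0

theorem zt_LL {r : ℝ} (hr : 1 ≤ r) : LL (zt r) := by
  intro R
  refine ⟨2, fun x y _ _ => ?_⟩
  have := (zt_lip hr).dist_le_mul x y
  rw [Real.dist_eq, dist_eq_norm] at this
  exact this

theorem mul_zt_lip {G : E3 → ℝ} (hG : LL G) {r : ℝ} (hr : 1 ≤ r) :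
    ∃ K : NNReal, LipschitzWith K (fun x => G x * zt r x) := by
  have h0 : (0 : ℝ) < r := by linarith
  obtain ⟨K, hK⟩ := hG r
  obtain ⟨B, hB0, hB⟩ := hG.bound r
  have hz := fun x y => (zt_lip hr).dist_le_mul x y
  simp only [dist_eq_norm] at hz
  change ∀ x y, |zt r x - zt r y| ≤ 2 * ‖x - y‖ at hz
  have key : ∀ x y : E3, ‖x‖ ≤ r → |G x * zt r x - G y * zt r y| ≤ (2 * B + |K|) * ‖x - y‖ := by
    intro x y hx
    by_cases hy : ‖y‖ ≤ r
    · have e : G x * zt r x - G y * zt r y = G x * (zt r x - zt r y) + (G x - G y) * zt r y := by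
        ring
      rw [e]
      have h1 := hK x y hx hy
      calc |G x * (zt r x - zt r y) + (G x - G y) * zt r y|
          ≤ |G x| * |zt r x - zt r y| + |G x - G y| * |zt r y| := by
            rw [← abs_mul, ← abs_mul]
            exact abs_add_le _ _
        _ ≤ B * (2 * ‖x - y‖) + (|K| * ‖x - y‖) * 1 := by
            refine add_le_add (mul_le_mul (hB x hx) (hz x y) (abs_nonneg _) hB0)
              (mul_le_mul (h1.trans (mul_le_mul_of_nonneg_right (le_abs_self K) (norm_nonneg _)))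
                ?_ (abs_nonneg _) (by positivity))
            rw [abs_of_nonneg (zt_nonneg r y)]
            exact zt_le_one r y
        _ = _ := by ring
    · have h1 : zt r y = 0 := zt_zero h0 (le_of_lt (not_le.1 hy))
      have e : G x * zt r x - G y * zt r y = G x * (zt r x - zt r y) := by
        rw [h1]
        ring
      rw [e, abs_mul]
      calc |G x| * |zt r x - zt r y| ≤ B * (2 * ‖x - y‖) :=
            mul_le_mul (hB x hx) (hz x y) (abs_nonneg _) hB0
        _ ≤ (2 * B + |K|) * ‖x - y‖ := by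
            nlinarith [mul_nonneg (abs_nonneg K) (norm_nonneg (x - y))]
  refine ⟨(2 * B + |K|).toNNReal, LipschitzWith.of_dist_le_mul fun x y => ?_⟩
  rw [Real.dist_eq, dist_eq_norm, Real.coe_toNNReal _ (by positivity)]
  by_cases hx : ‖x‖ ≤ r
  · exact key x y hx
  · by_cases hy : ‖y‖ ≤ r
    · rw [abs_sub_comm, norm_sub_rev]
      exact key y x hy
    · rw [zt_zero h0 (le_of_lt (not_le.1 hx)), zt_zero h0 (le_of_lt (not_le.1 hy))]
      simp only [mul_zero, sub_zero, abs_zero]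
      positivity

/-! ### moments and tails -/

theorem pow_bd (x : E3) (n : ℕ) : (1 + ‖x‖) ^ n ≤ 2 ^ n * (‖x‖ ^ 0 + ‖x‖ ^ n) := by
  have h1 := add_pow_le (zero_le_one' ℝ) (norm_nonneg x) n
  rw [one_pow] at h1
  rw [pow_zero]
  refine h1.trans (mul_le_mul_of_nonneg_right ?_ (by positivity))
  exact pow_le_pow_right₀ (by norm_num) (Nat.sub_le n 1)

theorem int_poly (h1 : S_hm) (n : ℕ) : Integrable (fun x : E3 => (1 + ‖x‖) ^ n) hm := by
  obtain ⟨_, _, _, _, hk, _, _⟩ := h1
  refine Integrable.mono' (((hk 0).1.add (hk n).1).const_mul (2 ^ n)) ?_ ?_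
  · exact (by fun_prop : Continuous fun x : E3 => (1 + ‖x‖) ^ n).aestronglyMeasurable
  · refine Filter.Eventually.of_forall fun x => ?_
    rw [Real.norm_eq_abs, abs_of_nonneg (by positivity)]
    exact pow_bd x n

theorem meas_out (r : ℝ) : MeasurableSet {x : E3 | r / 2 < ‖x‖} :=
  measurableSet_lt measurable_const measurable_norm

theorem ite_int {μ : Measure E3} {g : E3 → ℝ} (hg : Integrable g μ) (r : ℝ) :
    Integrable (fun x => if r / 2 < ‖x‖ then g x else 0) μ := by
  refine (hg.indicator (meas_out r)).congr (Filter.Eventually.of_forall fun x => ?_)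
  simp [Set.indicator_apply]

theorem tail_poly (h1 : S_hm) (n : ℕ) : ∃ T : ℝ, 0 ≤ T ∧ ∀ r : ℝ, 1 ≤ r →
    ∫ x, (if r / 2 < ‖x‖ then (1 + ‖x‖) ^ n else 0) ∂hm ≤ T * Real.exp (-r / 4) := by
  obtain ⟨C0, hC0⟩ := h1.2.2.2.2.2.1 0
  obtain ⟨Cn, hCn⟩ := h1.2.2.2.2.2.1 n
  have hk := h1.2.2.2.2.1
  have h0 : 0 ≤ C0 := by
    have := hC0 1 le_rfl
    have h2 : 0 ≤ ∫ x : E3, (if (1 : ℝ) / 2 < ‖x‖ then ‖x‖ ^ 0 else 0) ∂hm := by
      refine integral_nonneg fun x => ?_
      split_ifs <;> simp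
    by_contra hneg
    have : C0 * Real.exp (-1 / 4) < 0 := mul_neg_of_neg_of_pos (not_le.1 hneg) (Real.exp_pos _)
    linarith
  have h0' : 0 ≤ Cn := by
    have := hCn 1 le_rfl
    have h2 : 0 ≤ ∫ x : E3, (if (1 : ℝ) / 2 < ‖x‖ then ‖x‖ ^ n else 0) ∂hm := by
      refine integral_nonneg fun x => ?_
      split_ifs
      · exact pow_nonneg (norm_nonneg _) _
      · exact le_rfl
    by_contra hneg
    have : Cn * Real.exp (-1 / 4) < 0 := mul_neg_of_neg_of_pos (not_le.1 hneg) (Real.exp_pos _)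
    linarith
  refine ⟨2 ^ n * (C0 + Cn), by positivity, fun r hr => ?_⟩
  have i1 := ite_int (int_poly h1 n) r
  have i2 := ite_int (hk 0).1 r
  have i3 := ite_int (hk n).1 r
  calc ∫ x, (if r / 2 < ‖x‖ then (1 + ‖x‖) ^ n else 0) ∂hm
      ≤ ∫ x : E3, 2 ^ n * ((if r / 2 < ‖x‖ then ‖x‖ ^ 0 else 0) +
          (if r / 2 < ‖x‖ then ‖x‖ ^ n else 0)) ∂hm := by
        refine integral_mono i1 ((i2.add i3).const_mul _) fun x => ?_
        by_cases hx : r / 2 < ‖x‖
        · simp only [hx, if_true]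
          exact pow_bd x n
        · simp [hx]
    _ = 2 ^ n * ((∫ x : E3, (if r / 2 < ‖x‖ then ‖x‖ ^ 0 else 0) ∂hm) +
          ∫ x : E3, (if r / 2 < ‖x‖ then ‖x‖ ^ n else 0) ∂hm) := by
        rw [integral_const_mul, integral_add i2 i3]
    _ ≤ 2 ^ n * (C0 * Real.exp (-r / 4) + Cn * Real.exp (-r / 4)) := by
        have a := hC0 r hr
        have b := hCn r hr
        gcongr
    _ = _ := by ring

/-! ### `L²` -/

theorem cs {μ : Measure E3} {f g : E3 → ℝ} (hf : MemLp f 2 μ) (hg : MemLp g 2 μ) :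
    |∫ x, f x * g x ∂μ| ≤ √(∫ x, f x ^ 2 ∂μ) * √(∫ x, g x ^ 2 ∂μ) := by
  have h1 := integral_mul_norm_le_Lp_mul_Lq (μ := μ) (f := f) (g := g) Real.HolderConjugate.two_two
    (by simpa using hf) (by simpa using hg)
  have h2 : |∫ x, f x * g x ∂μ| ≤ ∫ x, ‖f x‖ * ‖g x‖ ∂μ := by
    refine (abs_integral_le_integral_abs).trans (le_of_eq ?_)
    congr 1
    funext x
    rw [abs_mul, Real.norm_eq_abs, Real.norm_eq_abs]
  refine h2.trans (h1.trans (le_of_eq ?_))
  rw [Real.sqrt_eq_rpow, Real.sqrt_eq_rpow]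
  simp

theorem cs_sum {μ : Measure E3} {f g : Fin 3 → E3 → ℝ} (hf : ∀ c, MemLp (f c) 2 μ)
    (hg : ∀ c, MemLp (g c) 2 μ) :
    |∑ c, ∫ x, f c x * g c x ∂μ| ≤
      √(∑ c, ∫ x, f c x ^ 2 ∂μ) * √(∑ c, ∫ x, g c x ^ 2 ∂μ) := by
  refine (Finset.abs_sum_le_sum_abs _ _).trans ?_
  refine (Finset.sum_le_sum fun c _ => cs (hf c) (hg c)).trans ?_
  exact Real.sum_sqrt_mul_sqrt_le _ (fun c => integral_nonneg fun x => sq_nonneg _)
    (fun c => integral_nonneg fun x => sq_nonneg _)

theorem memLp_poly (h1 : S_hm) {f : E3 → ℝ} (hf : AEStronglyMeasurable f hm) {A : ℝ} {m : ℕ}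
    (h : ∀ᵐ x ∂hm, |f x| ≤ A * (1 + ‖x‖) ^ m) : MemLp f 2 hm := by
  rw [memLp_two_iff_integrable_sq hf]
  refine Integrable.mono' ((int_poly h1 (m * 2)).const_mul (A ^ 2)) (hf.pow 2) ?_
  filter_upwards [h] with x hx
  rw [Real.norm_eq_abs, abs_pow]
  calc |f x| ^ 2 ≤ (A * (1 + ‖x‖) ^ m) ^ 2 := pow_le_pow_left₀ (abs_nonneg _) hx 2
    _ = _ := by rw [mul_pow, ← pow_mul]

theorem lc1_bdd {v : E3 → ℝ} (hv : LC1 v) : ∃ B : ℝ, ∀ x, |v x| ≤ B := by
  obtain ⟨K, hK⟩ := hv.lip
  obtain ⟨R, hR⟩ := hv.supp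
  refine ⟨|v 0| + K * |R|, fun x => ?_⟩
  have hK0 : (0 : ℝ) ≤ K := K.2
  by_cases h0 : v x = 0
  · rw [h0, abs_zero]
    positivity
  · have h5 := (hR _ h0).trans (le_abs_self R)
    have h6 := hK.dist_le_mul x 0
    rw [Real.dist_eq, dist_zero_right] at h6
    have h7 : |v x| ≤ |v x - v 0| + |v 0| := by
      have := abs_add_le (v x - v 0) (v 0)
      simpa using this
    nlinarith [mul_le_mul_of_nonneg_left h5 hK0]

theorem lip_pd {f : E3 → ℝ} {K : NNReal} (hf : LipschitzWith K f) (c : Fin 3) (x : E3) :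
    |pd1 c f x| ≤ K := by
  have := norm_lineDeriv_le_of_lipschitz ℝ hf (x₀ := x) (v := ec c)
  rw [Real.norm_eq_abs, norm_ec, mul_one] at this
  exact this

theorem memLp_bdd (h1 : S_hm) {f : E3 → ℝ} (hf : Measurable f) {B : ℝ} (h : ∀ x, |f x| ≤ B) :
    MemLp f 2 hm := by
  have := h1.1
  exact MemLp.of_bound hf.aestronglyMeasurable B (Filter.Eventually.of_forall fun x => by
    rw [Real.norm_eq_abs]
    exact h x)

theorem pd_memLp (h1 : S_hm) {f : E3 → ℝ} {K : NNReal} (hf : LipschitzWith K f) (c : Fin 3) :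
    MemLp (pd1 c f) 2 hm :=
  memLp_bdd h1 (measurable_lineDeriv hf.continuous) (lip_pd hf c)

end Wgen

open Wgen

theorem p_wgen (h1 : S_hm) (h2 : S_ibp) : S_wgen := by
  intro F κ P A m hκ hF hP hFP bF bP bκ hκP
  have := h1.1
  have hFL : LL F := hF
  have hPL : ∀ c, LL (P c) := hP
  have hA : 0 ≤ A := by
    have := (abs_nonneg _).trans (bF 0)
    simpa using this
  have hvol : ∀ {p : E3 → Prop}, (∀ᵐ x, p x) → ∀ᵐ x ∂hm, p x := fun h => h1.2.1.ae_le h
  -- almost every point is nonzero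
  have ae0 : ∀ᵐ x : E3, x ≠ 0 := by
    have : (volume : Measure E3) {0} = 0 := measure_singleton _
    rw [ae_iff]
    simp
  -- the weak formula
  have hweak : ∀ v, LC1 v → ∫ x, κ x * v x ∂hm = ∑ c, ∫ x, P c x * pd1 c v x ∂hm := by
    intro v hv
    have hib := fun c => h2 (fun x => w x * P c x) v c (w_LL.mul (hPL c)) hv
    rw [h1.2.2.2.1 (fun x => κ x * v x)]
    have e1 : ∀ c, ∫ x, P c x * pd1 c v x ∂hm =
        - ∫ x, pd1 c (fun x => w x * P c x) x * v x := by
      intro c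
      rw [h1.2.2.2.1 (fun x => P c x * pd1 c v x), (hib c).2.2, neg_neg]
      congr 1
      funext x
      unfold w
      ring
    simp only [e1]
    rw [Finset.sum_neg_distrib, ← integral_finsetSum _ (fun c _ => (hib c).1), ← integral_neg]
    refine integral_congr_ae ?_
    have hd : ∀ᵐ x : E3, ∀ c, DifferentiableAt ℝ (P c) x := by
      rw [ae_all_iff]
      exact fun c => (hPL c).ae_diff
    filter_upwards [ae0, hd] with x hx hdx
    have e2 : ∀ c, pd1 c (fun x => w x * P c x) x =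
        (-(x c / ‖x‖) * w x) * P c x + w x * pd1 c (P c) x := by
      intro c
      have a1 := w_hld x hx c
      have a2 : HasLineDerivAt ℝ (P c) (pd1 c (P c) x) x (ec c) :=
        (hdx c).lineDifferentiableAt.hasLineDerivAt
      exact (hld_mul a1 a2).lineDeriv
    simp only [e2]
    rw [hκP x hx]
    change w x * _ = _
    rw [← Finset.sum_mul, Finset.sum_add_distrib, ← Finset.mul_sum]
    have e3 : ∑ c, -(x c / ‖x‖) * w x * P c x = - w x * ∑ c, x c / ‖x‖ * P c x := by
      rw [Finset.mul_sum]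
      refine Finset.sum_congr rfl fun c _ => ?_
      ring
    rw [e3]
    ring
  -- constants
  obtain ⟨T, hT0, hT⟩ := tail_poly h1 (m * 2)
  set M : ℝ := ∫ x, (1 + ‖x‖) ^ (m * 2) ∂hm with hM
  have hM0 : 0 ≤ M := integral_nonneg fun x => by positivity
  have hint := int_poly h1 (m * 2)
  have hFm : Measurable F := hFL.cont.measurable
  have hPm : ∀ c, Measurable (P c) := fun c => (hPL c).cont.measurable
  have lF : MemLp F 2 hm := memLp_poly h1 hFm.aestronglyMeasurable (Filter.Eventually.of_forall bF)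
  have lκ : MemLp κ 2 hm := memLp_poly h1 hκ.aestronglyMeasurable (Filter.Eventually.of_forall bκ)
  have lP : ∀ c, MemLp (P c) 2 hm := fun c =>
    memLp_poly h1 (hPm c).aestronglyMeasurable (Filter.Eventually.of_forall (bP c))
  have sqb : ∀ {f : E3 → ℝ}, (∀ x, |f x| ≤ A * (1 + ‖x‖) ^ m) →
      ∀ x, f x ^ 2 ≤ A ^ 2 * (1 + ‖x‖) ^ (m * 2) := by
    intro f hf x
    rw [← sq_abs]
    calc |f x| ^ 2 ≤ (A * (1 + ‖x‖) ^ m) ^ 2 := pow_le_pow_left₀ (abs_nonneg _) (hf x) 2
      _ = _ := by rw [mul_pow, ← pow_mul]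
  -- line derivatives of the cut-off function
  have hpd : ∀ r : ℝ, 1 ≤ r → ∀ c, ∀ᵐ x ∂hm,
      |pd1 c (fun x => F x * zt r x) x - P c x| ≤
        (if r / 2 < ‖x‖ then 3 * A * (1 + ‖x‖) ^ m else 0) ∧
      |pd1 c (fun x => F x * zt r x) x| ≤ 3 * A * (1 + ‖x‖) ^ m := by
    intro r hr c
    have h0 : (0 : ℝ) < r := by linarith
    have hz : ∀ᵐ x : E3, DifferentiableAt ℝ (zt r) x := (zt_lip hr).ae_differentiableAt
    have hs : ∀ᵐ x : E3, ‖x‖ ≠ r / 2 := by
      have h3 : (volume : Measure E3) (Metric.sphere 0 (r / 2)) = 0 :=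
        Measure.addHaar_sphere volume 0 (r / 2)
      rw [ae_iff]
      convert h3 using 2
      ext x
      simp
    refine hvol ?_
    filter_upwards [ae0, hz, hs] with x hx hzx hsx
    have a1 := hFP x hx c
    have a2 : HasLineDerivAt ℝ (zt r) (pd1 c (zt r) x) x (ec c) :=
      hzx.lineDifferentiableAt.hasLineDerivAt
    have a5 : pd1 c (fun x => F x * zt r x) x = P c x * zt r x + F x * pd1 c (zt r) x :=
      (hld_mul a1 a2).lineDeriv
    have z0 := zt_nonneg r x
    have z1 := zt_le_one r x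
    have z2 : |pd1 c (zt r) x| ≤ 2 := lip_pd (zt_lip hr) c x
    have b1 : |P c x| ≤ A * (1 + ‖x‖) ^ m := bP c x
    have b2 : |F x| ≤ A * (1 + ‖x‖) ^ m := bF x
    have b0 : 0 ≤ A * (1 + ‖x‖) ^ m := by positivity
    have b3 : |F x * pd1 c (zt r) x| ≤ 2 * (A * (1 + ‖x‖) ^ m) := by
      rw [abs_mul]
      nlinarith [mul_le_mul b2 z2 (abs_nonneg _) b0]
    refine ⟨?_, ?_⟩
    · by_cases hxr : r / 2 < ‖x‖
      · rw [if_pos hxr, a5]
        have e : P c x * zt r x + F x * pd1 c (zt r) x - P c x =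
            - (P c x * (1 - zt r x)) + F x * pd1 c (zt r) x := by ring
        rw [e]
        have b4 : |-(P c x * (1 - zt r x))| ≤ A * (1 + ‖x‖) ^ m := by
          rw [abs_neg, abs_mul, abs_of_nonneg (show 0 ≤ 1 - zt r x by linarith)]
          nlinarith [mul_nonneg (abs_nonneg (P c x)) z0]
        have := abs_add_le (-(P c x * (1 - zt r x))) (F x * pd1 c (zt r) x)
        linarith
      · rw [if_neg hxr]
        have hlt : ‖x‖ < r / 2 := lt_of_le_of_ne (not_lt.1 hxr) hsx
        have e1 : zt r x = 1 := zt_one h0 hlt.le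
        have e2 : pd1 c (zt r) x = 0 := by
          have h5 : (zt r) =ᶠ[nhds x] fun _ => (1 : ℝ) := by
            have : {y : E3 | ‖y‖ < r / 2} ∈ nhds x :=
              (isOpen_lt continuous_norm continuous_const).mem_nhds hlt
            filter_upwards [this] with y hy
            exact zt_one h0 (le_of_lt hy)
          have h6 : HasLineDerivAt ℝ (fun _ : E3 => (1 : ℝ)) 0 x (ec c) := by
            unfold HasLineDerivAt
            exact hasDerivAt_const _ _
          have h7 : HasLineDerivAt ℝ (zt r) 0 x (ec c) :=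
            (h5.hasLineDerivAt_iff).2 h6
          exact h7.lineDeriv
        rw [a5, e1, e2]
        simp
    · rw [a5]
      have b4 : |P c x * zt r x| ≤ A * (1 + ‖x‖) ^ m := by
        rw [abs_mul, abs_of_nonneg z0]
        nlinarith [mul_nonneg (abs_nonneg (P c x)) (sub_nonneg.2 z1)]
      have := abs_add_le (P c x * zt r x) (F x * pd1 c (zt r) x)
      linarith
  have hlp : ∀ r : ℝ, 1 ≤ r → ∀ c, MemLp (pd1 c (fun x => F x * zt r x)) 2 hm := by
    intro r hr c
    obtain ⟨K, hK⟩ := mul_zt_lip hFL hr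
    exact pd_memLp h1 hK c
  refine ⟨27 * A ^ 2 * M + 27 * A ^ 2 * T + √(27 * A ^ 2 * T), ?_, hFm, hκ, ?_, ?_, ?_, ?_, ?_, ?_,
    ?_, ?_, ?_⟩
  · positivity
  · intro r hr
    exact mul_zt_lip hFL hr
  · -- the weak equation
    intro r hr v hv
    obtain ⟨K, hK⟩ := hv.lip
    have lv : ∀ c, MemLp (pd1 c v) 2 hm := fun c => pd_memLp h1 hK c
    rw [hweak v hv]
    have e1 : D1 (fun x => F x * zt r x) v - ∑ c, ∫ x, P c x * pd1 c v x ∂hm =
        ∑ c, ∫ x, (pd1 c (fun x => F x * zt r x) x - P c x) * pd1 c v x ∂hm := by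
      unfold D1
      rw [← Finset.sum_sub_distrib]
      refine Finset.sum_congr rfl fun c _ => ?_
      have i1 : Integrable (fun x => pd1 c (fun x => F x * zt r x) x * pd1 c v x) hm :=
        (hlp r hr c).integrable_mul (lv c)
      have i2 : Integrable (fun x => P c x * pd1 c v x) hm := (lP c).integrable_mul (lv c)
      rw [← integral_sub i1 i2]
      congr 1
      funext x
      ring
    rw [e1]
    have h3 := cs_sum (μ := hm) (f := fun c x => pd1 c (fun x => F x * zt r x) x - P c x)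
      (g := fun c => pd1 c v) (fun c => (hlp r hr c).sub (lP c)) lv
    refine h3.trans ?_
    have h4 : ∑ c, ∫ x, pd1 c v x ^ 2 ∂hm = D1 v v := by
      unfold D1
      refine Finset.sum_congr rfl fun c _ => ?_
      congr 1
      funext x
      ring
    rw [h4]
    refine mul_le_mul_of_nonneg_right ?_ (Real.sqrt_nonneg _)
    have h5 : ∑ c : Fin 3, ∫ x, (pd1 c (fun x => F x * zt r x) x - P c x) ^ 2 ∂hm ≤
        27 * A ^ 2 * T * Real.exp (-r / 4) := by
      have h6 : ∀ c : Fin 3, ∫ x, (pd1 c (fun x => F x * zt r x) x - P c x) ^ 2 ∂hm ≤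
          9 * A ^ 2 * (T * Real.exp (-r / 4)) := by
        intro c
        calc ∫ x, (pd1 c (fun x => F x * zt r x) x - P c x) ^ 2 ∂hm
            ≤ ∫ x, 9 * A ^ 2 * (if r / 2 < ‖x‖ then (1 + ‖x‖) ^ (m * 2) else 0) ∂hm := by
              refine integral_mono_ae ((hlp r hr c).sub (lP c)).integrable_sq
                ((ite_int hint r).const_mul _) ?_
              filter_upwards [hpd r hr c] with x hx
              have h7 := hx.1
              rw [← sq_abs]
              by_cases hxr : r / 2 < ‖x‖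
              · rw [if_pos hxr] at h7 ⊢
                calc |pd1 c (fun x => F x * zt r x) x - P c x| ^ 2
                    ≤ (3 * A * (1 + ‖x‖) ^ m) ^ 2 := pow_le_pow_left₀ (abs_nonneg _) h7 2
                  _ = _ := by
                    rw [mul_pow, ← pow_mul]
                    ring
              · rw [if_neg hxr] at h7 ⊢
                have : |pd1 c (fun x => F x * zt r x) x - P c x| = 0 :=
                  le_antisymm h7 (abs_nonneg _)
                rw [this]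
                simp
          _ = 9 * A ^ 2 * ∫ x, (if r / 2 < ‖x‖ then (1 + ‖x‖) ^ (m * 2) else 0) ∂hm :=
              integral_const_mul _ _
          _ ≤ 9 * A ^ 2 * (T * Real.exp (-r / 4)) := by
              have := hT r hr
              gcongr
      calc ∑ c : Fin 3, ∫ x, (pd1 c (fun x => F x * zt r x) x - P c x) ^ 2 ∂hm
          ≤ ∑ _c : Fin 3, 9 * A ^ 2 * (T * Real.exp (-r / 4)) := Finset.sum_le_sum fun c _ => h6 c
        _ = _ := by
          simp only [Finset.sum_const, Finset.card_univ, Fintype.card_fin, nsmul_eq_mul]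
          push_cast
          ring
    refine (Real.sqrt_le_sqrt h5).trans ?_
    have h8 : √(27 * A ^ 2 * T * Real.exp (-r / 4)) = √(27 * A ^ 2 * T) * Real.exp (-r / 8) := by
      rw [Real.sqrt_mul (by positivity)]
      congr 1
      rw [show Real.exp (-r / 4) = Real.exp (-r / 8) ^ 2 by
        rw [← Real.exp_nat_mul]
        congr 1
        push_cast
        ring]
      exact Real.sqrt_sq (Real.exp_pos _).le
    rw [h8]
    refine mul_le_mul_of_nonneg_right ?_ (Real.exp_pos _).le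
    have : 0 ≤ 27 * A ^ 2 * M + 27 * A ^ 2 * T := by positivity
    linarith
  · exact lF.integrable_sq
  · exact lκ.integrable_sq
  · have h3 : ∫ x, F x ^ 2 ∂hm ≤ A ^ 2 * M := by
      rw [hM, ← integral_const_mul]
      exact integral_mono lF.integrable_sq (hint.const_mul _) (sqb bF)
    have : 0 ≤ 26 * A ^ 2 * M + 27 * A ^ 2 * T + √(27 * A ^ 2 * T) := by positivity
    linarith
  · have h3 : ∫ x, κ x ^ 2 ∂hm ≤ A ^ 2 * M := by
      rw [hM, ← integral_const_mul]
      exact integral_mono lκ.integrable_sq (hint.const_mul _) (sqb bκ)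
    have : 0 ≤ 26 * A ^ 2 * M + 27 * A ^ 2 * T + √(27 * A ^ 2 * T) := by positivity
    linarith
  · intro r hr
    have h3 : ∫ x, (if r / 2 < ‖x‖ then F x ^ 2 else 0) ∂hm ≤ A ^ 2 * (T * Real.exp (-r / 4)) := by
      calc ∫ x, (if r / 2 < ‖x‖ then F x ^ 2 else 0) ∂hm
          ≤ ∫ x, A ^ 2 * (if r / 2 < ‖x‖ then (1 + ‖x‖) ^ (m * 2) else 0) ∂hm := by
            refine integral_mono (ite_int lF.integrable_sq r) ((ite_int hint r).const_mul _)
              fun x => ?_
            by_cases hxr : r / 2 < ‖x‖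
            · simp only [hxr, if_true]
              exact sqb bF x
            · simp [hxr]
        _ = A ^ 2 * ∫ x, (if r / 2 < ‖x‖ then (1 + ‖x‖) ^ (m * 2) else 0) ∂hm :=
            integral_const_mul _ _
        _ ≤ _ := by
            have := hT r hr
            gcongr
    refine h3.trans ?_
    rw [← mul_assoc]
    refine mul_le_mul_of_nonneg_right ?_ (Real.exp_pos _).le
    have : 0 ≤ 27 * A ^ 2 * M + 26 * A ^ 2 * T + √(27 * A ^ 2 * T) := by positivity
    linarith
  · intro r hr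
    have h3 : ∫ x, (if r / 2 < ‖x‖ then κ x ^ 2 else 0) ∂hm ≤ A ^ 2 * (T * Real.exp (-r / 4)) := by
      calc ∫ x, (if r / 2 < ‖x‖ then κ x ^ 2 else 0) ∂hm
          ≤ ∫ x, A ^ 2 * (if r / 2 < ‖x‖ then (1 + ‖x‖) ^ (m * 2) else 0) ∂hm := by
            refine integral_mono (ite_int lκ.integrable_sq r) ((ite_int hint r).const_mul _)
              fun x => ?_
            by_cases hxr : r / 2 < ‖x‖
            · simp only [hxr, if_true]
              exact sqb bκ x
            · simp [hxr]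
        _ = A ^ 2 * ∫ x, (if r / 2 < ‖x‖ then (1 + ‖x‖) ^ (m * 2) else 0) ∂hm :=
            integral_const_mul _ _
        _ ≤ _ := by
            have := hT r hr
            gcongr
    refine h3.trans ?_
    rw [← mul_assoc]
    refine mul_le_mul_of_nonneg_right ?_ (Real.exp_pos _).le
    have : 0 ≤ 27 * A ^ 2 * M + 26 * A ^ 2 * T + √(27 * A ^ 2 * T) := by positivity
    linarith
  · intro r hr
    have h6 : ∀ c : Fin 3, ∫ x, pd1 c (fun x => F x * zt r x) x * pd1 c (fun x => F x * zt r x) x ∂hm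
        ≤ 9 * A ^ 2 * M := by
      intro c
      calc ∫ x, pd1 c (fun x => F x * zt r x) x * pd1 c (fun x => F x * zt r x) x ∂hm
          = ∫ x, pd1 c (fun x => F x * zt r x) x ^ 2 ∂hm := by
            congr 1
            funext x
            ring
        _ ≤ ∫ x, 9 * A ^ 2 * (1 + ‖x‖) ^ (m * 2) ∂hm := by
            refine integral_mono_ae (hlp r hr c).integrable_sq (hint.const_mul _) ?_
            filter_upwards [hpd r hr c] with x hx
            rw [← sq_abs]
            calc |pd1 c (fun x => F x * zt r x) x| ^ 2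
                ≤ (3 * A * (1 + ‖x‖) ^ m) ^ 2 := pow_le_pow_left₀ (abs_nonneg _) hx.2 2
              _ = _ := by
                rw [mul_pow, ← pow_mul]
                ring
        _ = 9 * A ^ 2 * M := integral_const_mul _ _
    have h7 : D1 (fun x => F x * zt r x) (fun x => F x * zt r x) ≤ 27 * A ^ 2 * M := by
      unfold D1
      calc _ ≤ ∑ _c : Fin 3, 9 * A ^ 2 * M := Finset.sum_le_sum fun c _ => h6 c
        _ = _ := by
          simp only [Finset.sum_const, Finset.card_univ, Fintype.card_fin, nsmul_eq_mul]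
          push_cast
          ring
    have : 0 ≤ 27 * A ^ 2 * T + √(27 * A ^ 2 * T) := by positivity
    linarith

end MolDis.H
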